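import Pool.Agent.Helper15.AB.Defs

/-!
# Project AB: statements of the modules for the Bombieri-Vinogradov theorem
-/

set_option autoImplicit false

namespace Pool.Agent.Helper15.AB

open Finset ArithmeticFunction MeasureTheory

/-! ### Weights -/

/-- FO: Fourier representation of a C^2 function supported on `[0,1]` -/
def StFO : Prop := ∃ C : ℝ, 0 < C ∧ ∀ (φ : ℝ → ℝ) (M : ℝ), ContDiff ℝ 2 φ → 0 ≤ M →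
  (∀ t, t ∉ Set.Icc (0 : ℝ) 1 → φ t = 0) → (∀ t, |φ t| ≤ M) → (∀ t, |iteratedDeriv 2 φ t| ≤ M) →
  ∃ K : ℝ → ℂ, Continuous K ∧ (∀ ξ, ‖K ξ‖ ≤ C * M / (1 + ξ ^ 2)) ∧
    ∀ t, ((φ t : ℝ) : ℂ) = ∫ ξ, K ξ * Complex.exp ((ξ * t : ℝ) * Complex.I)

/-- WE: existence of an admissible weight -/
def StWE : Prop := ∃ w : ℝ → ℝ, IsW w

/-- TH: Chebyshev bounds -/
def StTH : Prop := ∀ w, IsW w → ∃ c C x₀ : ℝ, 0 < c ∧ 0 < C ∧ 1 ≤ x₀ ∧ ∀ x, x₀ ≤ x →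
  c * x ≤ Th w x ∧ Th w x ≤ C * x

/-! ### Large sieve -/

/-- GA: Gallagher's inequality for `δ`-separated points modulo 1 -/
def StGA : Prop := ∃ C : ℝ, 0 < C ∧ ∀ (P : Finset ℝ) (δ : ℝ) (N M : ℕ) (a : ℕ → ℂ), 0 < δ → δ ≤ 1 →
  (∀ α ∈ P, 0 ≤ α ∧ α < 1) → (∀ α ∈ P, ∀ β ∈ P, α ≠ β → ∀ k : ℤ, δ ≤ |α - β - k|) →
  ∑ α ∈ P, ‖∑ n ∈ Ioc M (M + N), a n * ee (n * α)‖ ^ 2 ≤
    C * (N + 1 / δ) * ∑ n ∈ Ioc M (M + N), ‖a n‖ ^ 2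

/-- AL: the additive large sieve for Farey fractions -/
def StAL : Prop := ∃ C : ℝ, 0 < C ∧ ∀ (Q N M : ℕ) (a : ℕ → ℂ),
  ∑ r ∈ Icc 1 Q, ∑ b ∈ (range r).filter (fun b => Nat.Coprime b r),
    ‖∑ n ∈ Ioc M (M + N), a n * ee (n * (b / r))‖ ^ 2 ≤
    C * (N + Q ^ 2) * ∑ n ∈ Ioc M (M + N), ‖a n‖ ^ 2

/-- GS: primitive characters and Gauss sums -/
def StGS : Prop := ∀ (r : ℕ) (s : Finset ℕ) (a : ℕ → ℂ), 1 ≤ r →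
  SP (fun f => ‖∑ n ∈ s, a n * f n‖ ^ 2) r ≤
    (Nat.totient r : ℝ) / r * ∑ b ∈ (range r).filter (fun b => Nat.Coprime b r),
      ‖∑ n ∈ s, a n * ee (n * (b / r))‖ ^ 2

/-- ML: the multiplicative large sieve -/
def StML : Prop := ∃ C : ℝ, 0 < C ∧ ∀ (Q N M : ℕ) (a : ℕ → ℂ),
  ∑ r ∈ Icc 1 Q, (r : ℝ) / Nat.totient r * SP (fun f => ‖∑ n ∈ Ioc M (M + N), a n * f n‖ ^ 2) r ≤
    C * (N + Q ^ 2) * ∑ n ∈ Ioc M (M + N), ‖a n‖ ^ 2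

/-! ### Vaughan -/

/-- VA: Vaughan's identity -/
def StVA : Prop := ∀ U : ℕ, 1 ≤ U → ∃ c α : ℕ → ℝ, (∀ j, 1 ≤ j → |c j| ≤ Real.log j) ∧
  (∀ m, |α m| ≤ (m.divisors.card : ℝ)) ∧
  ∀ (w : ℝ → ℝ) (x : ℝ) (f : ℕ → ℂ), IsW w → (U : ℝ) < x → (∀ m n, f (m * n) = f m * f n) →
  TT w x f =
    ∑ m ∈ Icc 1 U, ((moebius m : ℤ) : ℂ) * f m *
        ∑ k ∈ Icc 1 ⌊3 * x⌋₊, ((Real.log k * w (Real.log (m * k / x)) : ℝ) : ℂ) * f k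
    - ∑ j ∈ Icc 1 (U ^ 2), (c j : ℂ) * f j *
        ∑ k ∈ Icc 1 ⌊3 * x⌋₊, ((w (Real.log (j * k / x)) : ℝ) : ℂ) * f k
    + ∑ m ∈ Ioc U ⌊3 * x⌋₊, ∑ k ∈ Ioc U ⌊3 * x⌋₊,
        ((α m * Λ k * w (Real.log (m * k / x)) : ℝ) : ℂ) * (f m * f k)

/-- T1: smooth sums of a nonprincipal character -/
def StT1 : Prop := ∀ w, IsW w → ∃ C : ℝ, 0 < C ∧ ∀ (r : ℕ) [NeZero r] (ψ : DirichletCharacter ℂ r)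
  (y : ℝ) (K : ℕ), ψ ≠ 1 → 0 < y → 3 * y ≤ K + 1 →
  ‖∑ k ∈ Icc 1 K, ((w (Real.log (k / y)) : ℝ) : ℂ) * ψ (k : ZMod r)‖ ≤ C * r ∧
  ‖∑ k ∈ Icc 1 K, ((Real.log k * w (Real.log (k / y)) : ℝ) : ℂ) * ψ (k : ZMod r)‖ ≤
    C * r * (1 + Real.log (1 + y))

/-- T2: bilinear sums over primitive characters -/
def StT2 : Prop := ∀ w, IsW w → ∃ C : ℝ, 0 < C ∧ ∀ (x : ℝ) (U R : ℕ) (α β : ℕ → ℝ), 3 ≤ x →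
  1 ≤ U → 1 ≤ R → (∀ m, |α m| ≤ (m.divisors.card : ℝ)) → (∀ k, 1 ≤ k → |β k| ≤ Real.log k) →
  ∑ r ∈ Ioc R (2 * R), (r : ℝ) / Nat.totient r *
    SP (fun f => ‖∑ m ∈ Ioc U ⌊3 * x⌋₊, ∑ k ∈ Ioc U ⌊3 * x⌋₊,
        ((α m * β k * w (Real.log (m * k / x)) : ℝ) : ℂ) * (f m * f k)‖) r ≤
    C * (x + R * x / √U + R ^ 2 * √x) * Real.log x ^ 5

/-- BL: large conductors -/
def StBL : Prop := ∀ w, IsW w → ∃ C : ℝ, 0 < C ∧ ∀ (x : ℝ) (U R Q : ℕ), 3 ≤ x → 1 ≤ U →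
  (U : ℝ) ^ 2 ≤ x → 1 ≤ R → R ≤ Q → (Q : ℝ) ≤ x →
  ∑ r ∈ Ioc R Q, 1 / (Nat.totient r : ℝ) * SP (fun f => ‖TT w x f‖) r ≤
    C * (x / R + x / √U + Q * √x + (Q : ℝ) ^ 2 * U ^ 2) * Real.log x ^ 7

/-! ### Small conductors -/

/-- DJ: derivatives of `L(s, ψ)` near the line `σ = 1` -/
def StDJ : Prop := ∀ k : ℕ, ∃ C : ℝ, 0 < C ∧ ∀ (r : ℕ) [NeZero r] (ψ : DirichletCharacter ℂ r)
  (s : ℂ), ψ ≠ 1 → 1 < s.re → s.re ≤ 2 →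
  ‖LSeries (fun n => ψ (n : ZMod r) * ((Real.log n : ℝ) : ℂ) ^ k) s‖ ≤ C * LL r s ^ (k + 1)

/-- D0: upper bound for all characters -/
def StD0 : Prop := ∃ C : ℝ, 0 < C ∧ ∀ (r : ℕ) [NeZero r] (ψ : DirichletCharacter ℂ r) (s : ℂ),
  1 < s.re → s.re ≤ 2 →
  ‖LSeries (fun n => ψ (n : ZMod r)) s‖ ≤ C * (1 / ‖s - 1‖ + LL r s) * LL r s

/-- LW: lower bound for `L(s, ψ)` -/
def StLW : Prop := ∃ c : ℝ, 0 < c ∧ ∀ (r : ℕ) [NeZero r] (ψ : DirichletCharacter ℂ r) (s : ℂ),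
  ψ ≠ 1 → 1 < s.re → s.re ≤ 2 →
  c * dl ψ / LL r s ^ 12 ≤ ‖LSeries (fun n => ψ (n : ZMod r)) s‖

/-- PK: `∑ ψ(n) Λ(n) (log n)^k n^{-s}` -/
def StPK : Prop := ∀ k : ℕ, ∃ C : ℝ, 0 < C ∧ ∀ (r : ℕ) [NeZero r] (ψ : DirichletCharacter ℂ r)
  (s : ℂ), ψ ≠ 1 → 1 < s.re → s.re ≤ 2 →
  ‖LSeries (fun n => ψ (n : ZMod r) * ((Λ n : ℝ) : ℂ) * ((Real.log n : ℝ) : ℂ) ^ k) s‖ ≤
    C * LL r s ^ (16 * (k + 1)) / dl ψ ^ (k + 1)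

/-- TS: smooth sums over primes of a character of small conductor -/
def StTS : Prop := ∀ w, IsW w → ∀ k : ℕ, ∃ C : ℝ, 0 < C ∧ ∀ (r : ℕ) [NeZero r]
  (ψ : DirichletCharacter ℂ r) (x : ℝ), ψ ≠ 1 → 3 ≤ x →
  ‖TT w x (fun n => ψ (n : ZMod r))‖ ≤
    C * x * Real.log (3 * r) ^ (16 * (k + 1)) / (Real.log x ^ k * dl ψ ^ (k + 1))

/-- EX: at most one exceptional quadratic character -/
def StEX : Prop := ∃ c : ℝ, 0 < c ∧ ∀ (r₁ r₂ R : ℕ) [NeZero r₁] [NeZero r₂]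
  (ψ₁ : DirichletCharacter ℂ r₁) (ψ₂ : DirichletCharacter ℂ r₂), 3 ≤ R → r₁ ≤ R → r₂ ≤ R →
  ψ₁.IsPrimitive → ψ₂.IsPrimitive → ψ₁ ≠ 1 → ψ₂ ≠ 1 → ψ₁ ^ 2 = 1 → ψ₂ ^ 2 = 1 →
  (¬ ∀ n : ℕ, ψ₁ (n : ZMod r₁) = ψ₂ (n : ZMod r₂)) →
  c / Real.log R ^ 6 ≤ max ‖DirichletCharacter.LFunction ψ₁ 1‖ ‖DirichletCharacter.LFunction ψ₂ 1‖

/-- SC: small conductors -/
def StSC : Prop := ∀ w, IsW w → ∀ A B R₁ : ℕ, ∃ x₀ : ℝ, ∀ x : ℝ, x₀ ≤ x →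
  ∃ (r₁ : ℕ) (_ : NeZero r₁) (ψ₁ : DirichletCharacter ℂ r₁), R₁ < r₁ ∧
    ((ψ₁.IsPrimitive ∧ ψ₁ ≠ 1) ∨ (r₁.Prime ∧ x < r₁)) ∧
    ∀ (r : ℕ) [NeZero r] (ψ : DirichletCharacter ℂ r), (r : ℝ) ≤ Real.log x ^ B →
      ψ.IsPrimitive → ψ ≠ 1 → (¬ ∀ n : ℕ, ψ (n : ZMod r) = ψ₁ (n : ZMod r₁)) →
      ‖TT w x (fun n => ψ (n : ZMod r))‖ ≤ x / Real.log x ^ A

/-! ### Assembly of the Bombieri-Vinogradov theorem -/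

/-- PH: sums of `1 / φ(q)` -/
def StPH : Prop := ∃ C : ℝ, 0 < C ∧ ∀ Q r : ℕ, 1 ≤ Q → 1 ≤ r →
  ∑ q ∈ (Icc 1 Q).filter (fun q => r ∣ q), 1 / (Nat.totient q : ℝ) ≤
    C * (1 + Real.log Q) / Nat.totient r

/-- RG: regrouping by conductors -/
def StRG : Prop := ∀ (F : (ℕ → ℂ) → ℝ) (Q : ℕ), (∀ f, 0 ≤ F f) →
  ∑ q ∈ Icc 1 Q, 1 / (Nat.totient q : ℝ) * SN F q ≤
    ∑ r ∈ Ioc 1 Q, (∑ q ∈ (Icc 1 Q).filter (fun q => r ∣ q), 1 / (Nat.totient q : ℝ)) * SP F r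

/-- NP: passing to the primitive character -/
def StNP : Prop := ∀ w, IsW w → ∃ C : ℝ, 0 < C ∧ ∀ (q : ℕ) [NeZero q]
  (χ : DirichletCharacter ℂ q) (x : ℝ), 3 ≤ x → (q : ℝ) ≤ x →
  ‖TT w x (fun n => χ (n : ZMod q)) -
    TT w x (fun n => χ.primitiveCharacter (n : ZMod χ.conductor))‖ ≤ C * Real.log x ^ 2

/-- OR: orthogonality -/
def StOR : Prop := ∀ (w : ℝ → ℝ) (x : ℝ) (q : ℕ) [NeZero q] (b : ℤ), IsCoprime b (q : ℤ) →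
  (∑ n ∈ (Icc 1 ⌊3 * x⌋₊).filter (fun n : ℕ => (q : ℤ) ∣ (n : ℤ) - b),
      ((Λ n * w (Real.log (n / x)) : ℝ) : ℂ)) =
    1 / (Nat.totient q : ℂ) * ∑ χ : DirichletCharacter ℂ q,
      (starRingEnd ℂ) (χ (b : ZMod q)) * TT w x (fun n => χ (n : ZMod q))

open Classical in
/-- the error term in the Bombieri-Vinogradov theorem -/
noncomputable def EE (w : ℝ → ℝ) (x : ℝ) {r : ℕ} (ψ : DirichletCharacter ℂ r) (q : ℕ) (b : ℤ) : ℂ :=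
  (∑ n ∈ (Icc 1 ⌊3 * x⌋₊).filter (fun n : ℕ => (q : ℤ) ∣ (n : ℤ) - b),
      ((Λ n * w (Real.log (n / x)) : ℝ) : ℂ)) -
    1 / (Nat.totient q : ℂ) * ((Th w x : ℂ) + if r ∣ q then
      (starRingEnd ℂ) (ψ (b : ZMod r)) * TT w x (fun n => ψ (n : ZMod r)) else 0)

/-- BV: the Bombieri-Vinogradov theorem with one exceptional character -/
def StBV : Prop := ∀ w, IsW w → ∀ A R₁ : ℕ, ∃ (B : ℕ) (x₀ : ℝ), ∀ x : ℝ, x₀ ≤ x →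
  ∃ (r₁ : ℕ) (_ : NeZero r₁) (ψ₁ : DirichletCharacter ℂ r₁), R₁ < r₁ ∧
    ∀ b : ℕ → ℤ, (∀ q : ℕ, 1 ≤ q → IsCoprime (b q) (q : ℤ)) →
      ∑ q ∈ Icc 1 ⌊√x / Real.log x ^ B⌋₊, ‖EE w x ψ₁ q (b q)‖ ≤ x / Real.log x ^ A

end Pool.Agent.Helper15.AB
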