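import Mathlib
import Pool.Agent.Helper15.AB.StBV

/-!
Project AB, module BL: large conductors.
-/

set_option autoImplicit false

namespace Pool.Agent.Helper15.AB

open Finset ArithmeticFunction

namespace BL

lemma SP_le (F G : (ℕ → ℂ) → ℝ) {r : ℕ} (hr : r ≠ 0) {A : ℝ} (hA : 0 ≤ A)
    (h : ∀ (_ : NeZero r) (ψ : DirichletCharacter ℂ r), ψ.IsPrimitive →
      F (fun n => ψ (n : ZMod r)) ≤ A + G (fun n => ψ (n : ZMod r))) :
    SP F r ≤ (Nat.totient r : ℝ) * A + SP G r := by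
  classical
  have hN : NeZero r := ⟨hr⟩
  rw [SP, SP, dif_neg hr, dif_neg hr]
  set P := (univ : Finset (DirichletCharacter ℂ r)).filter (fun ψ => ψ.IsPrimitive) with hP
  calc ∑ ψ ∈ P, F (fun n => ψ (n : ZMod r))
      ≤ ∑ ψ ∈ P, (A + G (fun n => ψ (n : ZMod r))) :=
        sum_le_sum fun ψ hψ => h hN ψ (mem_filter.1 hψ).2
    _ = (#P : ℝ) * A + ∑ ψ ∈ P, G (fun n => ψ (n : ZMod r)) := by
        rw [sum_add_distrib, sum_const, nsmul_eq_mul]
    _ ≤ _ := by
        have h1 : (#P : ℝ) ≤ Nat.totient r := by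
          have h2 : #P ≤ Fintype.card (DirichletCharacter ℂ r) := by
            rw [← card_univ]
            exact card_le_card (filter_subset _ _)
          rw [← Nat.card_eq_fintype_card,
            DirichletCharacter.card_eq_totient_of_hasEnoughRootsOfUnity] at h2
          exact_mod_cast h2
        gcongr

lemma SP_nonneg (F : (ℕ → ℂ) → ℝ) (hF : ∀ f, 0 ≤ F f) (r : ℕ) : 0 ≤ SP F r := by
  classical
  rw [SP]
  split_ifs with h
  · exact le_rfl
  · exact sum_nonneg fun _ _ => hF _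

/-- dyadic decomposition -/
lemma dyadic (g : ℕ → ℝ) (R : ℕ) (J : ℕ) :
    ∑ r ∈ Ioc R (2 ^ J * R), g r =
      ∑ j ∈ range J, ∑ r ∈ Ioc (2 ^ j * R) (2 * (2 ^ j * R)), g r := by
  induction J with
  | zero => simp
  | succ J ih =>
    rw [sum_range_succ, ← ih]
    have h1 : R ≤ 2 ^ J * R := Nat.le_mul_of_pos_left R (by positivity)
    have h2 : 2 ^ J * R ≤ 2 * (2 ^ J * R) := by omega
    have e : 2 ^ (J + 1) * R = 2 * (2 ^ J * R) := by ring
    rw [e, sum_Ioc_consecutive _ h1 h2]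

lemma primitive_ne_one {r : ℕ} [NeZero r] {ψ : DirichletCharacter ℂ r} (hψ : ψ.IsPrimitive)
    (hr : 2 ≤ r) : ψ ≠ 1 := by
  rintro rfl
  rw [DirichletCharacter.isPrimitive_def] at hψ
  rw [DirichletCharacter.conductor_one] at hψ
  omega

/-- the bilinear part -/
noncomputable def third (w : ℝ → ℝ) (x : ℝ) (U : ℕ) (α : ℕ → ℝ) (f : ℕ → ℂ) : ℂ :=
  ∑ m ∈ Ioc U ⌊3 * x⌋₊, ∑ k ∈ Ioc U ⌊3 * x⌋₊,
        ((α m * Λ k * w (Real.log (m * k / x)) : ℝ) : ℂ) * (f m * f k)

lemma one_le_log {x : ℝ} (hx : 3 ≤ x) : 1 ≤ Real.log x := by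
  have h1 : Real.exp 1 ≤ x := by
    have := Real.exp_one_lt_d9
    linarith
  have := Real.log_le_log (Real.exp_pos 1) h1
  rwa [Real.log_exp] at this

end BL

open BL in
/-- module BL -/
theorem hBL (hVA : StVA) (hT1 : StT1) (hT2 : StT2) : StBL := by
  classical
  intro w hw
  obtain ⟨C1, hC1, h1⟩ := hT1 w hw
  obtain ⟨C2, hC2, h2⟩ := hT2 w hw
  refine ⟨4 * C1 + 3 * C2, by positivity, ?_⟩
  intro x U R Q hx hU hUx hR hRQ hQx
  obtain ⟨c, α, hc, hα, hva⟩ := hVA U hU
  have hx0 : (0 : ℝ) < x := by linarith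
  have hL := one_le_log hx
  set L := Real.log x with hLdef
  have hU1 : (1 : ℝ) ≤ U := by exact_mod_cast hU
  have hUlt : (U : ℝ) < x := by
    rcases eq_or_lt_of_le hU1 with h | h
    · rw [← h]; linarith
    · nlinarith
  have hlog1 : 1 + Real.log (1 + x) ≤ 3 * L := by
    have h3 : Real.log (1 + x) ≤ Real.log (x ^ 2) := by
      apply Real.log_le_log (by linarith)
      nlinarith
    rw [Real.log_pow] at h3
    push_cast at h3
    linarith
  -- pointwise bound
  have hpt : ∀ r : ℕ, 2 ≤ r → ∀ (_ : NeZero r) (ψ : DirichletCharacter ℂ r), ψ.IsPrimitive →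
      ‖TT w x (fun n => ψ (n : ZMod r))‖ ≤ 4 * C1 * (U : ℝ) ^ 2 * r * L +
        ‖third w x U α (fun n => ψ (n : ZMod r))‖ := by
    intro r hr _ ψ hψ
    have hψ1 : ψ ≠ 1 := primitive_ne_one hψ hr
    have hr0 : (0 : ℝ) < r := by
      have : 0 < r := by omega
      exact_mod_cast this
    rw [hva w x (fun n => ψ (n : ZMod r)) hw hUlt (fun m n => by simp)]
    have hK : 3 * x ≤ (⌊3 * x⌋₊ : ℝ) + 1 := (Nat.lt_floor_add_one _).le
    have hnψ : ∀ n : ℕ, ‖ψ (n : ZMod r)‖ ≤ 1 := fun n => ψ.norm_le_one _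
    have hy : ∀ m : ℕ, 1 ≤ m → 0 < x / m ∧ x / m ≤ x ∧ 3 * (x / m) ≤ (⌊3 * x⌋₊ : ℝ) + 1 := by
      intro m hm
      have hm1 : (1 : ℝ) ≤ m := by exact_mod_cast hm
      have : x / m ≤ x := div_le_self hx0.le hm1
      exact ⟨by positivity, this, by linarith⟩
    have harg : ∀ m k : ℕ, 1 ≤ m → (k : ℝ) / (x / m) = m * k / x := by
      intro m k hm
      have hm1 : (0 : ℝ) < m := by exact_mod_cast hm
      field_simp
    have b1 : ‖∑ m ∈ Icc 1 U, ((moebius m : ℤ) : ℂ) * ψ (m : ZMod r) *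
        ∑ k ∈ Icc 1 ⌊3 * x⌋₊, ((Real.log k * w (Real.log (m * k / x)) : ℝ) : ℂ) *
          ψ (k : ZMod r)‖ ≤ 3 * C1 * (U : ℝ) ^ 2 * r * L := by
      calc ‖∑ m ∈ Icc 1 U, ((moebius m : ℤ) : ℂ) * ψ (m : ZMod r) *
            ∑ k ∈ Icc 1 ⌊3 * x⌋₊, ((Real.log k * w (Real.log (m * k / x)) : ℝ) : ℂ) *
              ψ (k : ZMod r)‖
          ≤ ∑ m ∈ Icc 1 U, C1 * r * (3 * L) := by
            refine (norm_sum_le _ _).trans (sum_le_sum fun m hm => ?_)
            rw [mem_Icc] at hm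
            obtain ⟨y0, y1, y2⟩ := hy m hm.1
            have key := (h1 r ψ (x / m) ⌊3 * x⌋₊ hψ1 y0 y2).2
            simp only [harg m _ hm.1] at key
            rw [norm_mul, norm_mul]
            have hμ : ‖((moebius m : ℤ) : ℂ)‖ ≤ 1 := by
              rw [Complex.norm_intCast]
              exact_mod_cast ArithmeticFunction.abs_moebius_le_one
            have hl : 1 + Real.log (1 + x / m) ≤ 3 * L := by
              have : Real.log (1 + x / m) ≤ Real.log (1 + x) :=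
                Real.log_le_log (by linarith) (by linarith)
              linarith
            calc ‖((moebius m : ℤ) : ℂ)‖ * ‖ψ (m : ZMod r)‖ *
                  ‖∑ k ∈ Icc 1 ⌊3 * x⌋₊, ((Real.log k * w (Real.log (m * k / x)) : ℝ) : ℂ) *
                    ψ (k : ZMod r)‖
                ≤ 1 * 1 * (C1 * r * (1 + Real.log (1 + x / m))) := by
                  gcongr
                  exact hnψ m
              _ ≤ C1 * r * (3 * L) := by
                  rw [one_mul, one_mul]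
                  gcongr
        _ = (U : ℝ) * (C1 * r * (3 * L)) := by simp
        _ ≤ (U : ℝ) ^ 2 * (C1 * r * (3 * L)) := by
            gcongr
            nlinarith
        _ = _ := by ring
    have b2 : ‖∑ j ∈ Icc 1 (U ^ 2), (c j : ℂ) * ψ (j : ZMod r) *
        ∑ k ∈ Icc 1 ⌊3 * x⌋₊, ((w (Real.log (j * k / x)) : ℝ) : ℂ) * ψ (k : ZMod r)‖ ≤
        C1 * (U : ℝ) ^ 2 * r * L := by
      calc ‖∑ j ∈ Icc 1 (U ^ 2), (c j : ℂ) * ψ (j : ZMod r) *
            ∑ k ∈ Icc 1 ⌊3 * x⌋₊, ((w (Real.log (j * k / x)) : ℝ) : ℂ) * ψ (k : ZMod r)‖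
          ≤ ∑ j ∈ Icc 1 (U ^ 2), L * (C1 * r) := by
            refine (norm_sum_le _ _).trans (sum_le_sum fun j hj => ?_)
            rw [mem_Icc] at hj
            obtain ⟨y0, y1, y2⟩ := hy j hj.1
            have key := (h1 r ψ (x / j) ⌊3 * x⌋₊ hψ1 y0 y2).1
            simp only [harg j _ hj.1] at key
            rw [norm_mul, norm_mul, Complex.norm_real, Real.norm_eq_abs]
            have hcj : |c j| ≤ L := by
              refine (hc j hj.1).trans ?_
              apply Real.log_le_log (by exact_mod_cast hj.1)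
              have : (j : ℝ) ≤ ((U ^ 2 : ℕ) : ℝ) := by exact_mod_cast hj.2
              push_cast at this
              linarith
            calc |c j| * ‖ψ (j : ZMod r)‖ *
                  ‖∑ k ∈ Icc 1 ⌊3 * x⌋₊, ((w (Real.log (j * k / x)) : ℝ) : ℂ) *
                    ψ (k : ZMod r)‖ ≤ L * 1 * (C1 * r) := by
                  gcongr
                  exact hnψ j
              _ = _ := by ring
        _ = ((U ^ 2 : ℕ) : ℝ) * (L * (C1 * r)) := by simp
        _ = _ := by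
            push_cast
            ring
    calc ‖∑ m ∈ Icc 1 U, ((moebius m : ℤ) : ℂ) * ψ (m : ZMod r) *
            ∑ k ∈ Icc 1 ⌊3 * x⌋₊, ((Real.log k * w (Real.log (m * k / x)) : ℝ) : ℂ) *
              ψ (k : ZMod r) -
          ∑ j ∈ Icc 1 (U ^ 2), (c j : ℂ) * ψ (j : ZMod r) *
            ∑ k ∈ Icc 1 ⌊3 * x⌋₊, ((w (Real.log (j * k / x)) : ℝ) : ℂ) * ψ (k : ZMod r) +
          third w x U α (fun n => ψ (n : ZMod r))‖
        ≤ 3 * C1 * (U : ℝ) ^ 2 * r * L + C1 * (U : ℝ) ^ 2 * r * L +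
          ‖third w x U α (fun n => ψ (n : ZMod r))‖ := by
          refine (norm_add_le _ _).trans ?_
          gcongr
          refine (norm_sub_le _ _).trans ?_
          gcongr
      _ = _ := by ring
  set G : (ℕ → ℂ) → ℝ := fun f => ‖third w x U α f‖ with hG
  have hG0 : ∀ f, 0 ≤ G f := fun f => norm_nonneg _
  -- the sum over r
  have hstep : ∀ r ∈ Ioc R Q, 1 / (Nat.totient r : ℝ) * SP (fun f => ‖TT w x f‖) r ≤
      4 * C1 * (U : ℝ) ^ 2 * Q * L + 1 / (Nat.totient r : ℝ) * SP G r := by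
    intro r hr
    rw [mem_Ioc] at hr
    have hr2 : 2 ≤ r := by omega
    have hφ : (0 : ℝ) < Nat.totient r := by exact_mod_cast Nat.totient_pos.2 (by omega)
    have key := SP_le (fun f => ‖TT w x f‖) G (r := r) (by omega)
      (A := 4 * C1 * (U : ℝ) ^ 2 * r * L) (by positivity) (hpt r hr2)
    have hrQ : (r : ℝ) ≤ Q := by exact_mod_cast hr.2
    calc 1 / (Nat.totient r : ℝ) * SP (fun f => ‖TT w x f‖) r
        ≤ 1 / (Nat.totient r : ℝ) * ((Nat.totient r : ℝ) * (4 * C1 * (U : ℝ) ^ 2 * r * L) +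
          SP G r) := by gcongr
      _ = 4 * C1 * (U : ℝ) ^ 2 * r * L + 1 / (Nat.totient r : ℝ) * SP G r := by
          field_simp
      _ ≤ _ := by gcongr
  have hfirst : ∑ r ∈ Ioc R Q, 4 * C1 * (U : ℝ) ^ 2 * Q * L ≤
      4 * C1 * ((Q : ℝ) ^ 2 * (U : ℝ) ^ 2) * L := by
    rw [sum_const, nsmul_eq_mul, Nat.card_Ioc]
    have : ((Q - R : ℕ) : ℝ) ≤ Q := by exact_mod_cast Nat.sub_le Q R
    calc ((Q - R : ℕ) : ℝ) * (4 * C1 * (U : ℝ) ^ 2 * Q * L)
        ≤ (Q : ℝ) * (4 * C1 * (U : ℝ) ^ 2 * Q * L) := by gcongr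
      _ = _ := by ring
  have hR1 : (1 : ℝ) ≤ R := by exact_mod_cast hR
  have hQ1 : (1 : ℝ) ≤ Q := by
    have : (R : ℝ) ≤ Q := by exact_mod_cast hRQ
    linarith
  set X : ℝ := x / R + x / √U + Q * √x with hX
  have hsU : (0 : ℝ) < √U := Real.sqrt_pos.2 (by linarith)
  have hX0 : 0 ≤ X := by positivity
  have hblock : ∀ R' : ℕ, R ≤ R' → R' < Q →
      ∑ r ∈ Ioc R' (2 * R'), 1 / (Nat.totient r : ℝ) * SP G r ≤ C2 * X * L ^ 5 := by
    intro R' hRR' hR'Q
    have hR'1 : 1 ≤ R' := by omega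
    have hR'0 : (0 : ℝ) < R' := by exact_mod_cast hR'1
    have key := h2 x U R' α (fun k => Λ k) hx hU hR'1 hα (fun k hk => by
      rw [abs_of_nonneg vonMangoldt_nonneg]
      exact vonMangoldt_le_log)
    have e : (fun f : ℕ → ℂ => ‖∑ m ∈ Ioc U ⌊3 * x⌋₊, ∑ k ∈ Ioc U ⌊3 * x⌋₊,
        ((α m * Λ k * w (Real.log (m * k / x)) : ℝ) : ℂ) * (f m * f k)‖) = G := rfl
    rw [e] at key
    calc ∑ r ∈ Ioc R' (2 * R'), 1 / (Nat.totient r : ℝ) * SP G r
        ≤ ∑ r ∈ Ioc R' (2 * R'), 1 / (R' : ℝ) * ((r : ℝ) / Nat.totient r * SP G r) := by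
          refine sum_le_sum fun r hr => ?_
          rw [mem_Ioc] at hr
          have hrR : (R' : ℝ) ≤ r := by exact_mod_cast hr.1.le
          have hφ : (0 : ℝ) < Nat.totient r := by exact_mod_cast Nat.totient_pos.2 (by omega)
          have hS := SP_nonneg G hG0 r
          have : 1 / (R' : ℝ) * ((r : ℝ) / Nat.totient r * SP G r) =
              ((r : ℝ) / R') * (1 / (Nat.totient r : ℝ) * SP G r) := by
            field_simp
          rw [this]
          have h5 : 1 ≤ (r : ℝ) / R' := by rwa [one_le_div hR'0]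
          have h6 : 0 ≤ 1 / (Nat.totient r : ℝ) * SP G r := by positivity
          nlinarith
      _ = 1 / (R' : ℝ) * ∑ r ∈ Ioc R' (2 * R'), (r : ℝ) / Nat.totient r * SP G r := by
          rw [mul_sum]
      _ ≤ 1 / (R' : ℝ) * (C2 * (x + R' * x / √U + (R' : ℝ) ^ 2 * √x) * L ^ 5) := by
          gcongr
      _ = C2 * (x / R' + x / √U + R' * √x) * L ^ 5 := by
          field_simp
      _ ≤ _ := by
          have h7 : x / (R' : ℝ) ≤ x / R := by
            have : (R : ℝ) ≤ R' := by exact_mod_cast hRR'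
            gcongr
          have h8 : (R' : ℝ) * √x ≤ Q * √x := by
            have : (R' : ℝ) ≤ Q := by exact_mod_cast hR'Q.le
            gcongr
          have : x / (R' : ℝ) + x / √U + R' * √x ≤ X := by
            rw [hX]
            linarith
          gcongr
  set J : ℕ := Nat.log 2 Q + 1 with hJ
  have hJQ : Q < 2 ^ J := Nat.lt_pow_succ_log_self (by norm_num) Q
  have hJle : (J : ℝ) ≤ 3 * L := by
    have hlog2' : (0.69 : ℝ) < Real.log 2 := by
      have := Real.log_two_gt_d9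
      linarith
    have h3 : ((Nat.log 2 Q : ℕ) : ℝ) * Real.log 2 ≤ L := by
      rw [← Real.log_pow]
      have hQ0 : Q ≠ 0 := by omega
      have : (2 : ℕ) ^ (Nat.log 2 Q) ≤ Q := Nat.pow_log_le_self 2 hQ0
      have h4 : ((2 : ℝ)) ^ (Nat.log 2 Q) ≤ x := by
        have : ((2 : ℝ)) ^ (Nat.log 2 Q) ≤ Q := by exact_mod_cast this
        linarith
      exact Real.log_le_log (by positivity) h4
    have h5 : ((Nat.log 2 Q : ℕ) : ℝ) * 0.69 ≤ L := by
      refine le_trans ?_ h3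
      gcongr
    have h6 : (J : ℝ) = (Nat.log 2 Q : ℕ) + 1 := by
      rw [hJ]
      push_cast
      ring
    rw [h6]
    linarith
  have hsecond : ∑ r ∈ Ioc R Q, 1 / (Nat.totient r : ℝ) * SP G r ≤
      3 * C2 * X * L ^ 6 := by
    set g : ℕ → ℝ := fun r => 1 / (Nat.totient r : ℝ) * SP G r with hg
    have hg0 : ∀ r, 0 ≤ g r := fun r => by
      have := SP_nonneg G hG0 r
      simp only [hg]
      positivity
    set g' : ℕ → ℝ := fun r => if r ≤ Q then g r else 0 with hg'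
    have hg'0 : ∀ r, 0 ≤ g' r := by
      intro r
      simp only [hg']
      split_ifs
      · exact hg0 r
      · exact le_rfl
    calc ∑ r ∈ Ioc R Q, g r = ∑ r ∈ Ioc R Q, g' r := by
          refine sum_congr rfl fun r hr => ?_
          rw [mem_Ioc] at hr
          simp only [hg', if_pos hr.2]
      _ ≤ ∑ r ∈ Ioc R (2 ^ J * R), g' r := by
          apply sum_le_sum_of_subset_of_nonneg
          · apply Ioc_subset_Ioc le_rfl
            calc Q ≤ 2 ^ J := hJQ.le
              _ ≤ 2 ^ J * R := Nat.le_mul_of_pos_right _ (by omega)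
          · intro r _ _
            exact hg'0 r
      _ = ∑ j ∈ range J, ∑ r ∈ Ioc (2 ^ j * R) (2 * (2 ^ j * R)), g' r := dyadic g' R J
      _ ≤ ∑ j ∈ range J, C2 * X * L ^ 5 := by
          refine sum_le_sum fun j _ => ?_
          by_cases hj : 2 ^ j * R < Q
          · refine le_trans ?_ (hblock (2 ^ j * R) (Nat.le_mul_of_pos_left R (by positivity)) hj)
            refine sum_le_sum fun r _ => ?_
            simp only [hg']
            split_ifs
            · exact le_rfl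
            · exact hg0 r
          · have : ∑ r ∈ Ioc (2 ^ j * R) (2 * (2 ^ j * R)), g' r = 0 := by
              apply sum_eq_zero
              intro r hr
              rw [mem_Ioc] at hr
              simp only [hg']
              rw [if_neg (by omega)]
            rw [this]
            positivity
      _ = (J : ℝ) * (C2 * X * L ^ 5) := by
          rw [sum_const, nsmul_eq_mul, card_range]
      _ ≤ (3 * L) * (C2 * X * L ^ 5) := by gcongr
      _ = _ := by ring
  have hL0 : 0 ≤ L := by linarith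
  calc ∑ r ∈ Ioc R Q, 1 / (Nat.totient r : ℝ) * SP (fun f => ‖TT w x f‖) r
      ≤ ∑ r ∈ Ioc R Q, (4 * C1 * (U : ℝ) ^ 2 * Q * L + 1 / (Nat.totient r : ℝ) * SP G r) :=
        sum_le_sum hstep
    _ = ∑ r ∈ Ioc R Q, 4 * C1 * (U : ℝ) ^ 2 * Q * L +
          ∑ r ∈ Ioc R Q, 1 / (Nat.totient r : ℝ) * SP G r := sum_add_distrib
    _ ≤ 4 * C1 * ((Q : ℝ) ^ 2 * (U : ℝ) ^ 2) * L + 3 * C2 * X * L ^ 6 :=
        add_le_add hfirst hsecond
    _ ≤ 4 * C1 * ((Q : ℝ) ^ 2 * (U : ℝ) ^ 2) * L ^ 7 + 3 * C2 * X * L ^ 7 := by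
        have p1 : L ≤ L ^ 7 := le_self_pow₀ hL (by norm_num)
        have p2 : L ^ 6 ≤ L ^ 7 := pow_le_pow_right₀ hL (by norm_num)
        gcongr
    _ ≤ (4 * C1 + 3 * C2) * (X + (Q : ℝ) ^ 2 * (U : ℝ) ^ 2) * L ^ 7 := by
        have q1 : 0 ≤ 4 * C1 * X * L ^ 7 := by positivity
        have q2 : 0 ≤ 3 * C2 * ((Q : ℝ) ^ 2 * (U : ℝ) ^ 2) * L ^ 7 := by positivity
        nlinarith
    _ = _ := by
        rw [hX]

end Pool.Agent.Helper15.AB
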