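import Mathlib
import Pool.Agent.Helper15.AB.StBV
import Pool.Agent.Helper2.MeanValueFamily

/-!
# Project AB, module T2: bilinear sums over primitive characters
-/

set_option autoImplicit false

namespace Pool.Agent.Helper15.AB

open Finset ArithmeticFunction MeasureTheory

namespace T2aux

theorem SP_mono {F G : (ℕ → ℂ) → ℝ} (h : ∀ f, F f ≤ G f) (r : ℕ) : SP F r ≤ SP G r := by
  unfold SP
  split_ifs with h0
  · exact le_rfl
  · exact Finset.sum_le_sum fun ψ _ => h _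

theorem SP_nonneg {F : (ℕ → ℂ) → ℝ} (h : ∀ f, 0 ≤ F f) (r : ℕ) : 0 ≤ SP F r := by
  unfold SP
  split_ifs with h0
  · exact le_rfl
  · exact Finset.sum_nonneg fun ψ _ => h _

theorem SP_sum {ι : Type*} (s : Finset ι) (F : ι → (ℕ → ℂ) → ℝ) (r : ℕ) :
    SP (fun f => ∑ i ∈ s, F i f) r = ∑ i ∈ s, SP (F i) r := by
  unfold SP
  split_ifs with h0
  · rw [Finset.sum_const_zero]
  · rw [Finset.sum_comm]

theorem SP_lin (a b : ℝ) (F G : (ℕ → ℂ) → ℝ) (r : ℕ) :
    SP (fun f => a * F f + b * G f) r = a * SP F r + b * SP G r := by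
  unfold SP
  split_ifs with h0
  · ring
  · rw [Finset.sum_add_distrib, Finset.mul_sum, Finset.mul_sum]

theorem SP_mul (a : ℝ) (F : (ℕ → ℂ) → ℝ) (r : ℕ) :
    SP (fun f => a * F f) r = a * SP F r := by
  unfold SP
  split_ifs with h0
  · ring
  · rw [Finset.mul_sum]

theorem SP_integral (Φ : ℝ → (ℕ → ℂ) → ℝ) (h : ∀ f, Integrable (fun ξ => Φ ξ f)) (r : ℕ) :
    SP (fun f => ∫ ξ, Φ ξ f) r = ∫ ξ, SP (Φ ξ) r := by
  unfold SP
  split_ifs with h0
  · simp
  · rw [integral_finsetSum]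
    intro ψ _
    exact h _

theorem SP_integrable (Φ : ℝ → (ℕ → ℂ) → ℝ) (h : ∀ f, Integrable (fun ξ => Φ ξ f)) (r : ℕ) :
    Integrable (fun ξ => SP (Φ ξ) r) := by
  unfold SP
  split_ifs with h0
  · simp
  · refine integrable_finsetSum _ ?_
    intro ψ _
    exact h _

/-- twisted polynomial -/
noncomputable def tw (s : Finset ℕ) (a : ℕ → ℝ) (ξ : ℝ) (f : ℕ → ℂ) : ℂ :=
  ∑ m ∈ s, ((a m : ℂ) * Complex.exp ((ξ * Real.log m : ℝ) * Complex.I)) * f m

theorem tw_cont (s : Finset ℕ) (a : ℕ → ℝ) (f : ℕ → ℂ) : Continuous (fun ξ => tw s a ξ f) := by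
  unfold tw
  fun_prop

theorem tw_bound (s : Finset ℕ) (a : ℕ → ℝ) (ξ : ℝ) (f : ℕ → ℂ) :
    ‖tw s a ξ f‖ ≤ ∑ m ∈ s, ‖(a m : ℂ)‖ * ‖f m‖ := by
  unfold tw
  refine (norm_sum_le _ _).trans (Finset.sum_le_sum fun m _ => ?_)
  rw [norm_mul, norm_mul, Complex.norm_exp_ofReal_mul_I, mul_one]

theorem block (C : ℝ) (hC : 0 < C)
    (hML : ∀ (Q N M : ℕ) (a : ℕ → ℂ), ∑ r ∈ Icc 1 Q, (r : ℝ) / Nat.totient r *
      SP (fun f => ‖∑ n ∈ Ioc M (M + N), a n * f n‖ ^ 2) r ≤
      C * (N + Q ^ 2) * ∑ n ∈ Ioc M (M + N), ‖a n‖ ^ 2)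
    (w : ℝ → ℝ) (K : ℝ → ℂ) (hKc : Continuous K) (hKi : Integrable K)
    (hK : ∀ t, ((w t : ℝ) : ℂ) = ∫ ξ, K ξ * Complex.exp ((ξ * t : ℝ) * Complex.I))
    (x : ℝ) (U R M Kk : ℕ) (α β : ℕ → ℝ) (hx : 3 ≤ x) (hU : 1 ≤ U) (hR : 1 ≤ R) (hUM : U ≤ M)
    (hM : (U : ℝ) * M ≤ 3 * x) (hα : ∀ m, |α m| ≤ (m.divisors.card : ℝ))
    (hβ : ∀ k, 1 ≤ k → |β k| ≤ Real.log k) (hUK : U ≤ Kk) (hKk : (Kk : ℝ) * M ≤ 3 * x) :
    ∑ r ∈ Ioc R (2 * R), (r : ℝ) / Nat.totient r *
      SP (fun f => ‖∑ m ∈ Ioc M (2 * M), ∑ k ∈ Ioc U Kk,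
        ((α m * β k * w (Real.log (m * k / x)) : ℝ) : ℂ) * (f m * f k)‖) r ≤
    (∫ ξ, ‖K ξ‖) * (192 * C * (x + R * x / √U + R ^ 2 * √x) * Real.log x ^ 3) := by
  have hx0 : 0 < x := by linarith
  have hM1 : 1 ≤ M := hU.trans hUM
  have hM0 : (0 : ℝ) < M := by exact_mod_cast hM1
  have hU0 : (0 : ℝ) < U := by exact_mod_cast hU
  have hR0 : (0 : ℝ) < R := by exact_mod_cast hR
  have hK0 : (0 : ℝ) < Kk := by
    have : 0 < Kk := by omega
    exact_mod_cast this
  have hl3 : (1 : ℝ) < Real.log 3 := by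
    rw [Real.lt_log_iff_exp_lt (by norm_num)]
    have := Real.exp_one_lt_d9
    linarith
  have hL1 : Real.log 3 ≤ Real.log x := Real.log_le_log (by norm_num) hx
  set L := Real.log x with hL
  have hL0 : 1 < L := by linarith
  -- the functions
  set A : ℝ → (ℕ → ℂ) → ℂ := fun ξ f => tw (Ioc M (2 * M)) α ξ f with hA
  set B : ℝ → (ℕ → ℂ) → ℂ := fun ξ f => tw (Ioc U Kk) β ξ f with hB
  have hint : ∀ f : ℕ → ℂ, Integrable (fun ξ => ‖K ξ‖ * (‖A ξ f‖ * ‖B ξ f‖)) := by
    intro f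
    have hcA := tw_cont (Ioc M (2 * M)) α f
    have hcB := tw_cont (Ioc U Kk) β f
    refine Integrable.mono' (hKi.norm.mul_const ((∑ m ∈ Ioc M (2 * M), ‖(α m : ℂ)‖ * ‖f m‖) *
      (∑ m ∈ Ioc U Kk, ‖(β m : ℂ)‖ * ‖f m‖))) ?_ ?_
    · refine Continuous.aestronglyMeasurable ?_
      exact hKc.norm.mul (hcA.norm.mul hcB.norm)
    · refine Filter.Eventually.of_forall fun ξ => ?_
      rw [Real.norm_of_nonneg (by positivity)]
      refine mul_le_mul_of_nonneg_left ?_ (norm_nonneg _)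
      exact mul_le_mul (tw_bound _ _ _ _) (tw_bound _ _ _ _) (norm_nonneg _)
        (Finset.sum_nonneg fun _ _ => by positivity)
  -- Fourier
  have hfour : ∀ f : ℕ → ℂ, ∑ m ∈ Ioc M (2 * M), ∑ k ∈ Ioc U Kk,
      ((α m * β k * w (Real.log (m * k / x)) : ℝ) : ℂ) * (f m * f k) =
      ∫ ξ, K ξ * Complex.exp ((-(ξ * L) : ℝ) * Complex.I) * (A ξ f * B ξ f) := by
    intro f
    have hti : ∀ m k : ℕ, Integrable (fun ξ => (K ξ *
        Complex.exp ((ξ * Real.log (m * k / x) : ℝ) * Complex.I)) *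
          ((α m * β k : ℝ) * (f m * f k))) := by
      intro m k
      refine Integrable.mul_const ?_ _
      refine Integrable.mono' hKi.norm ?_ ?_
      · refine Continuous.aestronglyMeasurable ?_
        fun_prop
      · refine Filter.Eventually.of_forall fun ξ => ?_
        rw [norm_mul, Complex.norm_exp_ofReal_mul_I, mul_one]
    have h1 : ∀ m k : ℕ, ((α m * β k * w (Real.log (m * k / x)) : ℝ) : ℂ) * (f m * f k) =
        ∫ ξ, (K ξ * Complex.exp ((ξ * Real.log (m * k / x) : ℝ) * Complex.I)) *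
          ((α m * β k : ℝ) * (f m * f k)) := by
      intro m k
      rw [integral_mul_const, ← hK (Real.log (m * k / x))]
      push_cast
      ring
    simp_rw [h1]
    have h2 : ∀ m ∈ Ioc M (2 * M), ∑ k ∈ Ioc U Kk, ∫ ξ, (K ξ *
        Complex.exp ((ξ * Real.log (m * k / x) : ℝ) * Complex.I)) *
          ((α m * β k : ℝ) * (f m * f k)) = ∫ ξ, ∑ k ∈ Ioc U Kk, (K ξ *
        Complex.exp ((ξ * Real.log (m * k / x) : ℝ) * Complex.I)) *
          ((α m * β k : ℝ) * (f m * f k)) := by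
      intro m _
      rw [integral_finsetSum]
      intro k _
      exact hti m k
    rw [Finset.sum_congr rfl h2, ← integral_finsetSum]
    · refine integral_congr_ae (Filter.Eventually.of_forall fun ξ => ?_)
      simp only [hA, hB, tw]
      rw [Finset.sum_mul_sum, Finset.mul_sum]
      refine Finset.sum_congr rfl fun m hm => ?_
      rw [Finset.mul_sum]
      refine Finset.sum_congr rfl fun k hk => ?_
      have hm0 : (0 : ℝ) < m := by
        have := (Finset.mem_Ioc.1 hm).1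
        exact_mod_cast (by omega : 0 < m)
      have hk0 : (0 : ℝ) < k := by
        have := (Finset.mem_Ioc.1 hk).1
        exact_mod_cast (by omega : 0 < k)
      have h3 : Complex.exp ((ξ * Real.log (m * k / x) : ℝ) * Complex.I) =
          Complex.exp ((-(ξ * L) : ℝ) * Complex.I) *
          (Complex.exp ((ξ * Real.log m : ℝ) * Complex.I) *
            Complex.exp ((ξ * Real.log k : ℝ) * Complex.I)) := by
        rw [← Complex.exp_add, ← Complex.exp_add, Real.log_div (by positivity) hx0.ne',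
          Real.log_mul hm0.ne' hk0.ne', hL]
        congr 1
        push_cast
        ring
      rw [h3]
      push_cast
      ring
    · intro m _
      exact integrable_finsetSum _ fun k _ => hti m k
  have hnorm : ∀ f : ℕ → ℂ, ‖∑ m ∈ Ioc M (2 * M), ∑ k ∈ Ioc U Kk,
      ((α m * β k * w (Real.log (m * k / x)) : ℝ) : ℂ) * (f m * f k)‖ ≤
      ∫ ξ, ‖K ξ‖ * (‖A ξ f‖ * ‖B ξ f‖) := by
    intro f
    rw [hfour f]
    refine (norm_integral_le_integral_norm _).trans (le_of_eq ?_)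
    refine integral_congr_ae (Filter.Eventually.of_forall fun ξ => ?_)
    simp only
    rw [norm_mul, norm_mul, norm_mul, Complex.norm_exp_ofReal_mul_I, mul_one]
  -- the two mean squares
  set X0 : ℝ := C * (M + (2 * R) ^ 2) * ((2 * M) * (4 * L) ^ 3) with hX0
  set Y0 : ℝ := C * (Kk + (2 * R) ^ 2) * (Kk * (2 * L) ^ 2) with hY0
  have hX0p : 0 < X0 := by positivity
  have hY0p : 0 < Y0 := by positivity
  have hsub : Ioc R (2 * R) ⊆ Icc 1 (2 * R) := by
    intro r hr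
    rw [Finset.mem_Ioc] at hr
    rw [Finset.mem_Icc]
    omega
  have hcr : ∀ r : ℕ, 0 ≤ (r : ℝ) / Nat.totient r := fun r => by positivity
  have hXb : ∀ ξ, ∑ r ∈ Ioc R (2 * R), (r : ℝ) / Nat.totient r * SP (fun f => ‖A ξ f‖ ^ 2) r ≤
      X0 := by
    intro ξ
    have h1 := hML (2 * R) M M (fun m => (α m : ℂ) * Complex.exp ((ξ * Real.log m : ℝ) * Complex.I))
    rw [← two_mul] at h1
    refine (Finset.sum_le_sum_of_subset_of_nonneg hsub fun r _ _ =>
      mul_nonneg (hcr r) (SP_nonneg (fun f => by positivity) r)).trans (h1.trans ?_)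
    have e2R : ((2 * R : ℕ) : ℝ) = 2 * R := by push_cast; ring
    rw [hX0, e2R]
    refine mul_le_mul_of_nonneg_left ?_ (by positivity)
    calc ∑ n ∈ Ioc M (2 * M), ‖(α n : ℂ) * Complex.exp ((ξ * Real.log n : ℝ) * Complex.I)‖ ^ 2
        ≤ ∑ n ∈ Ioc M (2 * M), ((#n.divisors : ℕ) : ℝ) ^ 2 := by
          refine Finset.sum_le_sum fun n _ => ?_
          rw [norm_mul, Complex.norm_exp_ofReal_mul_I, mul_one, Complex.norm_real,
            Real.norm_eq_abs]
          exact pow_le_pow_left₀ (abs_nonneg _) (hα n) 2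
      _ ≤ ∑ n ∈ Ioc 0 (2 * M), ((#n.divisors : ℕ) : ℝ) ^ 2 := by
          refine Finset.sum_le_sum_of_subset_of_nonneg ?_ fun _ _ _ => by positivity
          exact Finset.Ioc_subset_Ioc_left (Nat.zero_le _)
      _ ≤ (2 * M : ℕ) * (1 + Real.log (2 * M : ℕ)) ^ 3 := Pool.Agent.Helper2.sum_tau_sq_le _
      _ ≤ 2 * M * (4 * L) ^ 3 := by
          have h2 : Real.log (2 * M : ℕ) ≤ L + Real.log 3 + Real.log 3 := by
            have h3 : ((2 * M : ℕ) : ℝ) ≤ x * 3 * 3 := by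
              push_cast
              have : (M : ℝ) ≤ 3 * x := by
                have h4 : (1 : ℝ) ≤ U := by exact_mod_cast hU
                nlinarith
              linarith
            calc Real.log (2 * M : ℕ) ≤ Real.log (x * 3 * 3) :=
                  Real.log_le_log (by positivity) h3
              _ = _ := by
                  rw [Real.log_mul (by positivity) (by norm_num),
                    Real.log_mul (by positivity) (by norm_num)]
          have h5 : 0 ≤ Real.log (2 * M : ℕ) := Real.log_natCast_nonneg _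
          push_cast at h2 h5 ⊢
          gcongr
          linarith
  have hYb : ∀ ξ, ∑ r ∈ Ioc R (2 * R), (r : ℝ) / Nat.totient r * SP (fun f => ‖B ξ f‖ ^ 2) r ≤
      Y0 := by
    intro ξ
    have h1 := hML (2 * R) (Kk - U) U
      (fun m => (β m : ℂ) * Complex.exp ((ξ * Real.log m : ℝ) * Complex.I))
    rw [Nat.add_sub_cancel' hUK] at h1
    refine (Finset.sum_le_sum_of_subset_of_nonneg hsub fun r _ _ =>
      mul_nonneg (hcr r) (SP_nonneg (fun f => by positivity) r)).trans (h1.trans ?_)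
    rw [hY0]
    have h2 : ((Kk - U : ℕ) : ℝ) ≤ Kk := by exact_mod_cast Nat.sub_le _ _
    have h3 : ∑ n ∈ Ioc U Kk, ‖(β n : ℂ) * Complex.exp ((ξ * Real.log n : ℝ) * Complex.I)‖ ^ 2 ≤
        Kk * (2 * L) ^ 2 := by
      calc ∑ n ∈ Ioc U Kk, ‖(β n : ℂ) * Complex.exp ((ξ * Real.log n : ℝ) * Complex.I)‖ ^ 2
          ≤ ∑ n ∈ Ioc U Kk, (2 * L) ^ 2 := by
            refine Finset.sum_le_sum fun n hn => ?_
            rw [norm_mul, Complex.norm_exp_ofReal_mul_I, mul_one, Complex.norm_real,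
              Real.norm_eq_abs]
            refine pow_le_pow_left₀ (abs_nonneg _) ?_ 2
            have hn1 := (Finset.mem_Ioc.1 hn).1
            have hn2 := (Finset.mem_Ioc.1 hn).2
            refine (hβ n (by omega)).trans ?_
            have hn0 : (0 : ℝ) < n := by exact_mod_cast (by omega : 0 < n)
            have h4 : (n : ℝ) ≤ x * 3 := by
              have h5 : (n : ℝ) ≤ Kk := by exact_mod_cast hn2
              have h6 : (1 : ℝ) ≤ M := by exact_mod_cast hM1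
              nlinarith
            calc Real.log n ≤ Real.log (x * 3) := Real.log_le_log hn0 h4
              _ = L + Real.log 3 := Real.log_mul (by positivity) (by norm_num)
              _ ≤ 2 * L := by linarith
        _ = ((Kk - U : ℕ) : ℝ) * (2 * L) ^ 2 := by
            rw [Finset.sum_const, Nat.card_Ioc, nsmul_eq_mul]
        _ ≤ Kk * (2 * L) ^ 2 := by gcongr
    have e2R : ((2 * R : ℕ) : ℝ) = 2 * R := by push_cast; ring
    rw [e2R]
    gcongr
  -- Cauchy-Schwarz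
  set Z : ℝ := 192 * C * (x + R * x / √U + R ^ 2 * √x) * L ^ 3 with hZ
  have hsU : 0 < √(U : ℝ) := Real.sqrt_pos.2 hU0
  have hZ0 : 0 < Z := by positivity
  have hXY : X0 * Y0 ≤ Z ^ 2 := by
    have hsq : x ^ 2 + R ^ 2 * x ^ 2 / U + R ^ 4 * x ≤ (x + R * x / √U + R ^ 2 * √x) ^ 2 := by
      have e1 : (R * x / √U) ^ 2 = R ^ 2 * x ^ 2 / U := by
        rw [div_pow, mul_pow, Real.sq_sqrt hU0.le]
      have e2 : ((R : ℝ) ^ 2 * √x) ^ 2 = R ^ 4 * x := by
        rw [mul_pow, Real.sq_sqrt hx0.le]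
        ring
      rw [← e1, ← e2]
      have a1 : 0 ≤ x * (R * x / √U) := by positivity
      have a2 : 0 ≤ x * ((R : ℝ) ^ 2 * √x) := by positivity
      have a3 : 0 ≤ (R * x / √U) * ((R : ℝ) ^ 2 * √x) := by positivity
      nlinarith
    have hmain : (M + (2 * R) ^ 2) * (Kk + (2 * R) ^ 2) * (2 * M * Kk) ≤
        144 * (x ^ 2 + R ^ 2 * x ^ 2 / U + R ^ 4 * x) := by
      have b1 : (Kk : ℝ) * M ≤ 3 * x := hKk
      have b2 : (M : ℝ) ≤ 3 * x / U := by
        rw [le_div_iff₀ hU0]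
        linarith
      have b3 : (Kk : ℝ) ≤ 3 * x / U := by
        rw [le_div_iff₀ hU0]
        have : (U : ℝ) ≤ M := by exact_mod_cast hUM
        nlinarith
      have hp : 0 ≤ (Kk : ℝ) * M := by positivity
      have hRR : 0 ≤ (R : ℝ) ^ 2 := by positivity
      have e : ((M : ℝ) + (2 * R) ^ 2) * (Kk + (2 * R) ^ 2) * (2 * M * Kk) =
          2 * (Kk * M) * (Kk * M) + 8 * R ^ 2 * (Kk * M) * M + 8 * R ^ 2 * (Kk * M) * Kk
            + 32 * R ^ 4 * (Kk * M) := by ring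
      rw [e]
      have c1 : 2 * ((Kk : ℝ) * M) * (Kk * M) ≤ 2 * (3 * x) * (3 * x) := by gcongr
      have c2 : 8 * (R : ℝ) ^ 2 * (Kk * M) * M ≤ 8 * R ^ 2 * (3 * x) * (3 * x / U) := by gcongr
      have c3 : 8 * (R : ℝ) ^ 2 * (Kk * M) * Kk ≤ 8 * R ^ 2 * (3 * x) * (3 * x / U) := by gcongr
      have c4 : 32 * (R : ℝ) ^ 4 * (Kk * M) ≤ 32 * R ^ 4 * (3 * x) := by gcongr
      have e2 : 8 * (R : ℝ) ^ 2 * (3 * x) * (3 * x / U) = 72 * (R ^ 2 * x ^ 2 / U) := by
        field_simp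
        ring
      rw [e2] at c2 c3
      have d1 : 0 ≤ x ^ 2 := by positivity
      have d2 : 0 ≤ (R : ℝ) ^ 4 * x := by positivity
      nlinarith
    calc X0 * Y0 = C ^ 2 * ((M + (2 * R) ^ 2) * (Kk + (2 * R) ^ 2) * (2 * M * Kk)) * (256 * L ^ 5) := by
          rw [hX0, hY0]; ring
      _ ≤ C ^ 2 * (144 * (x + R * x / √U + R ^ 2 * √x) ^ 2) * (256 * L ^ 6) := by
          have h56 : L ^ 5 ≤ L ^ 6 := pow_le_pow_right₀ hL0.le (by norm_num)
          have := hmain.trans (mul_le_mul_of_nonneg_left hsq (by norm_num : (0 : ℝ) ≤ 144))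
          gcongr
      _ = Z ^ 2 := by rw [hZ]; ring
  have hCS : ∀ ξ, ∑ r ∈ Ioc R (2 * R), (r : ℝ) / Nat.totient r *
      SP (fun f => ‖A ξ f‖ * ‖B ξ f‖) r ≤ Z := by
    intro ξ
    set lam : ℝ := Z / X0 with hlam
    have hlam0 : 0 < lam := by positivity
    have h1 : ∀ f, ‖A ξ f‖ * ‖B ξ f‖ ≤ (lam / 2) * ‖A ξ f‖ ^ 2 + (1 / (2 * lam)) * ‖B ξ f‖ ^ 2 := by
      intro f
      have h2 : 0 ≤ (lam * ‖A ξ f‖ - ‖B ξ f‖) ^ 2 := sq_nonneg _
      have h3 : (lam / 2) * ‖A ξ f‖ ^ 2 + (1 / (2 * lam)) * ‖B ξ f‖ ^ 2 - ‖A ξ f‖ * ‖B ξ f‖ =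
          (lam * ‖A ξ f‖ - ‖B ξ f‖) ^ 2 / (2 * lam) := by
        field_simp
        ring
      have h4 : 0 ≤ (lam * ‖A ξ f‖ - ‖B ξ f‖) ^ 2 / (2 * lam) := by positivity
      linarith
    have h5 : ∑ r ∈ Ioc R (2 * R), (r : ℝ) / Nat.totient r *
        SP (fun f => ‖A ξ f‖ * ‖B ξ f‖) r ≤
        (lam / 2) * X0 + (1 / (2 * lam)) * Y0 := by
      calc ∑ r ∈ Ioc R (2 * R), (r : ℝ) / Nat.totient r * SP (fun f => ‖A ξ f‖ * ‖B ξ f‖) r
          ≤ ∑ r ∈ Ioc R (2 * R), (r : ℝ) / Nat.totient r *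
            ((lam / 2) * SP (fun f => ‖A ξ f‖ ^ 2) r
              + (1 / (2 * lam)) * SP (fun f => ‖B ξ f‖ ^ 2) r) := by
            refine Finset.sum_le_sum fun r _ => mul_le_mul_of_nonneg_left ?_ (hcr r)
            rw [← SP_lin]
            exact SP_mono h1 r
        _ = (lam / 2) * ∑ r ∈ Ioc R (2 * R), (r : ℝ) / Nat.totient r *
              SP (fun f => ‖A ξ f‖ ^ 2) r
            + (1 / (2 * lam)) * ∑ r ∈ Ioc R (2 * R), (r : ℝ) / Nat.totient r *
              SP (fun f => ‖B ξ f‖ ^ 2) r := by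
            rw [Finset.mul_sum, Finset.mul_sum, ← Finset.sum_add_distrib]
            exact Finset.sum_congr rfl fun r _ => by ring
        _ ≤ _ := by
            have a1 := hXb ξ
            have a2 := hYb ξ
            gcongr
    refine h5.trans ?_
    have h6 : (lam / 2) * X0 = Z / 2 := by
      rw [hlam]
      field_simp
    have h7 : (1 / (2 * lam)) * Y0 ≤ Z / 2 := by
      rw [hlam, one_div, mul_comm, ← div_eq_mul_inv, div_le_iff₀ (by positivity)]
      have : Z / 2 * (2 * (Z / X0)) = Z ^ 2 / X0 := by ring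
      rw [this, le_div_iff₀ hX0p, mul_comm]
      exact hXY
    linarith
  -- assembly
  calc ∑ r ∈ Ioc R (2 * R), (r : ℝ) / Nat.totient r *
      SP (fun f => ‖∑ m ∈ Ioc M (2 * M), ∑ k ∈ Ioc U Kk,
        ((α m * β k * w (Real.log (m * k / x)) : ℝ) : ℂ) * (f m * f k)‖) r
      ≤ ∑ r ∈ Ioc R (2 * R), (r : ℝ) / Nat.totient r *
        SP (fun f => ∫ ξ, ‖K ξ‖ * (‖A ξ f‖ * ‖B ξ f‖)) r :=
        Finset.sum_le_sum fun r _ => mul_le_mul_of_nonneg_left (SP_mono hnorm r) (hcr r)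
    _ = ∑ r ∈ Ioc R (2 * R), ∫ ξ, (r : ℝ) / Nat.totient r *
        SP (fun f => ‖K ξ‖ * (‖A ξ f‖ * ‖B ξ f‖)) r := by
        refine Finset.sum_congr rfl fun r _ => ?_
        rw [SP_integral (fun ξ f => ‖K ξ‖ * (‖A ξ f‖ * ‖B ξ f‖)) hint r, integral_const_mul]
    _ = ∫ ξ, ∑ r ∈ Ioc R (2 * R), (r : ℝ) / Nat.totient r *
        SP (fun f => ‖K ξ‖ * (‖A ξ f‖ * ‖B ξ f‖)) r := by
        rw [integral_finsetSum]
        intro r _
        exact (SP_integrable (fun ξ f => ‖K ξ‖ * (‖A ξ f‖ * ‖B ξ f‖)) hint r).const_mul _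
    _ ≤ ∫ ξ, ‖K ξ‖ * Z := by
        refine integral_mono ?_ (hKi.norm.mul_const Z) fun ξ => ?_
        · refine integrable_finsetSum _ fun r _ => ?_
          exact (SP_integrable (fun ξ f => ‖K ξ‖ * (‖A ξ f‖ * ‖B ξ f‖)) hint r).const_mul _
        · have : ∑ r ∈ Ioc R (2 * R), (r : ℝ) / Nat.totient r *
              SP (fun f => ‖K ξ‖ * (‖A ξ f‖ * ‖B ξ f‖)) r =
              ‖K ξ‖ * ∑ r ∈ Ioc R (2 * R), (r : ℝ) / Nat.totient r *
                SP (fun f => ‖A ξ f‖ * ‖B ξ f‖) r := by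
            rw [Finset.mul_sum]
            refine Finset.sum_congr rfl fun r _ => ?_
            rw [SP_mul]
            ring
          simp only
          rw [this]
          exact mul_le_mul_of_nonneg_left (hCS ξ) (norm_nonneg _)
    _ = _ := by rw [integral_mul_const]

end T2aux

theorem hT2 (hFO : StFO) (hML : StML) : StT2 := by
  intro w hw
  obtain ⟨CM, hCM, hML⟩ := hML
  obtain ⟨CF, hCF, hF⟩ := hFO
  have hw2 : ContDiff ℝ 2 w := hw.smooth.of_le (by norm_num)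
  -- bound of the second derivative
  have hsupp : HasCompactSupport w := HasCompactSupport.intro isCompact_Icc hw.supp
  have hc2 : Continuous (iteratedDeriv 2 w) := hw2.continuous_iteratedDeriv 2 le_rfl
  have hs2 : HasCompactSupport (iteratedDeriv 2 w) := by
    rw [iteratedDeriv_succ, iteratedDeriv_one]
    exact hsupp.deriv.deriv
  obtain ⟨M2, hM2⟩ := hc2.bounded_above_of_compact_support hs2
  obtain ⟨K, hKc, hKb, hK⟩ := hF w (max 1 M2) hw2 (by positivity) hw.supp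
    (fun t => by
      rw [abs_of_nonneg (hw.nonneg t)]
      exact (hw.le_one t).trans (le_max_left _ _))
    (fun t => by
      have := hM2 t
      rw [Real.norm_eq_abs] at this
      exact this.trans (le_max_right _ _))
  have hKi : Integrable K := by
    refine Integrable.mono' (integrable_inv_one_add_sq.const_mul (CF * max 1 M2))
      hKc.aestronglyMeasurable (Filter.Eventually.of_forall fun ξ => ?_)
    exact hKb ξ
  set J : ℝ := ∫ ξ, ‖K ξ‖ with hJ
  have hJ0 : 0 ≤ J := integral_nonneg fun ξ => norm_nonneg _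
  refine ⟨J * (192 * CM) * 4 + 1, by positivity, ?_⟩
  intro x U R α β hx hU hR hα hβ
  have hx0 : 0 < x := by linarith
  have hU0 : (0 : ℝ) < U := by exact_mod_cast hU
  have hl3 : (1 : ℝ) < Real.log 3 := by
    rw [Real.lt_log_iff_exp_lt (by norm_num)]
    have := Real.exp_one_lt_d9
    linarith
  have hL1 : Real.log 3 ≤ Real.log x := Real.log_le_log (by norm_num) hx
  set L := Real.log x with hL
  have hL0 : 1 < L := by linarith
  set T := ⌊3 * x⌋₊ with hT
  have hTx : (T : ℝ) ≤ 3 * x := Nat.floor_le (by positivity)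
  have hT1 : T ≠ 0 := by
    have : 1 ≤ T := by
      rw [hT, Nat.one_le_floor_iff]
      linarith
    omega
  set I := Nat.log 2 T + 1 with hI
  have hIT : T < 2 ^ I := Nat.lt_pow_succ_log_self (by norm_num) T
  set α' : ℕ → ℝ := fun m => if m ≤ T then α m else 0 with hα'
  have hα'b : ∀ m, |α' m| ≤ (m.divisors.card : ℝ) := by
    intro m
    simp only [hα']
    split_ifs
    · exact hα m
    · rw [abs_zero]; positivity
  -- dyadic blocks
  set G : ℕ → (ℕ → ℂ) → ℂ := fun i f => ∑ m ∈ Ioc (2 ^ i * U) (2 * (2 ^ i * U)),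
    ∑ k ∈ Ioc U ⌊3 * x / ((2 ^ i * U : ℕ) : ℝ)⌋₊,
      ((α' m * β k * w (Real.log (m * k / x)) : ℝ) : ℂ) * (f m * f k) with hG
  have hsplit : ∀ f : ℕ → ℂ, ∑ m ∈ Ioc U T, ∑ k ∈ Ioc U T,
      ((α m * β k * w (Real.log (m * k / x)) : ℝ) : ℂ) * (f m * f k) =
      ∑ i ∈ range I, G i f := by
    intro f
    set g : ℕ → ℂ := fun m => ∑ k ∈ Ioc U T,
      ((α' m * β k * w (Real.log (m * k / x)) : ℝ) : ℂ) * (f m * f k) with hg
    have h1 : ∀ J : ℕ, ∑ i ∈ range J, ∑ m ∈ Ioc (2 ^ i * U) (2 * (2 ^ i * U)), g m =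
        ∑ m ∈ Ioc U (2 ^ J * U), g m := by
      intro J
      induction J with
      | zero => simp
      | succ J ih =>
        rw [Finset.sum_range_succ, ih]
        have e : 2 * (2 ^ J * U) = 2 ^ (J + 1) * U := by rw [pow_succ]; ring
        rw [e]
        refine Finset.sum_Ioc_consecutive g ?_ ?_
        · exact Nat.le_mul_of_pos_left U (by positivity)
        · exact Nat.mul_le_mul_right U (Nat.pow_le_pow_right (by norm_num) (by omega))
    have h2 : ∑ m ∈ Ioc U (2 ^ I * U), g m = ∑ m ∈ Ioc U T, g m := by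
      symm
      refine Finset.sum_subset ?_ ?_
      · refine Finset.Ioc_subset_Ioc_right ?_
        calc T ≤ 2 ^ I * 1 := by omega
          _ ≤ 2 ^ I * U := Nat.mul_le_mul_left _ hU
      · intro m hm hm2
        have : ¬ m ≤ T := by
          intro h
          exact hm2 (Finset.mem_Ioc.2 ⟨(Finset.mem_Ioc.1 hm).1, h⟩)
        simp only [hg, hα', if_neg this]
        simp
    have h3 : ∀ i ∈ range I, G i f = ∑ m ∈ Ioc (2 ^ i * U) (2 * (2 ^ i * U)), g m := by
      intro i _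
      simp only [hG, hg]
      refine Finset.sum_congr rfl fun m hm => ?_
      have hm1 := (Finset.mem_Ioc.1 hm).1
      have hMi : 1 ≤ 2 ^ i * U := Nat.mul_pos (by positivity) hU
      have hMi0 : (0 : ℝ) < ((2 ^ i * U : ℕ) : ℝ) := by exact_mod_cast hMi
      refine Finset.sum_subset ?_ ?_
      · refine Finset.Ioc_subset_Ioc_right ?_
        rw [hT]
        refine Nat.floor_le_floor ?_
        have h1 : (1 : ℝ) ≤ ((2 ^ i * U : ℕ) : ℝ) := by exact_mod_cast hMi
        exact div_le_self (by positivity) h1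
      · intro k hk hk2
        have hk3 : ⌊3 * x / ((2 ^ i * U : ℕ) : ℝ)⌋₊ < k := by
          by_contra h
          exact hk2 (Finset.mem_Ioc.2 ⟨(Finset.mem_Ioc.1 hk).1, not_lt.1 h⟩)
        have hk4 : 3 * x / ((2 ^ i * U : ℕ) : ℝ) < k := (Nat.floor_lt (by positivity)).1 hk3
        have hk0 : (0 : ℝ) < k := lt_of_le_of_lt (by positivity) hk4
        have h4 : 3 * x < m * k := by
          rw [div_lt_iff₀ hMi0] at hk4
          have h5 : ((2 ^ i * U : ℕ) : ℝ) ≤ m := by exact_mod_cast hm1.le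
          nlinarith
        have h6 : 1 < Real.log (m * k / x) := by
          refine hl3.trans_le (Real.log_le_log (by norm_num) ?_)
          rw [le_div_iff₀ hx0]
          exact h4.le
        rw [hw.supp _ (fun h => absurd h.2 (not_le.2 h6))]
        simp
    rw [Finset.sum_congr rfl h3, h1 I, h2]
    refine Finset.sum_congr rfl fun m hm => ?_
    simp only [hg, hα', if_pos (Finset.mem_Ioc.1 hm).2]
  set E : ℝ := x + R * x / √U + R ^ 2 * √x with hE
  have hE0 : 0 ≤ E := by positivity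
  have hblock : ∀ i ∈ range I, ∑ r ∈ Ioc R (2 * R), (r : ℝ) / Nat.totient r *
      SP (fun f => ‖G i f‖) r ≤ J * (192 * CM * E * L ^ 3) := by
    intro i _
    have hMi : 1 ≤ 2 ^ i * U := Nat.mul_pos (by positivity) hU
    have hMi0 : (0 : ℝ) < ((2 ^ i * U : ℕ) : ℝ) := by exact_mod_cast hMi
    rcases le_or_gt ⌊3 * x / ((2 ^ i * U : ℕ) : ℝ)⌋₊ U with h | h
    · have hz : ∀ f, ‖G i f‖ = 0 := by
        intro f
        simp only [hG]
        rw [Finset.Ioc_eq_empty (by omega : ¬ U < ⌊3 * x / ((2 ^ i * U : ℕ) : ℝ)⌋₊)]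
        simp
      have : ∑ r ∈ Ioc R (2 * R), (r : ℝ) / Nat.totient r * SP (fun f => ‖G i f‖) r ≤ 0 := by
        refine Finset.sum_nonpos fun r _ => ?_
        have h1 : SP (fun f => ‖G i f‖) r ≤ SP (fun f => 0 * (0 : ℝ)) r :=
          T2aux.SP_mono (fun f => by rw [hz f]; simp) r
        rw [T2aux.SP_mul, zero_mul] at h1
        exact mul_nonpos_of_nonneg_of_nonpos (by positivity) h1
      exact this.trans (by positivity)
    · have hKf : ((⌊3 * x / ((2 ^ i * U : ℕ) : ℝ)⌋₊ : ℕ) : ℝ) ≤ 3 * x / ((2 ^ i * U : ℕ) : ℝ) :=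
        Nat.floor_le (by positivity)
      rw [le_div_iff₀ hMi0] at hKf
      refine T2aux.block CM hCM hML w K hKc hKi hK x U R (2 ^ i * U)
        ⌊3 * x / ((2 ^ i * U : ℕ) : ℝ)⌋₊ α' β hx hU hR (Nat.le_mul_of_pos_left U (by positivity))
        ?_ hα'b hβ h.le hKf
      refine le_trans ?_ hKf
      gcongr
  have hIL : (I : ℝ) ≤ 4 * L := by
    have h1 : (2 : ℝ) ^ (Nat.log 2 T) ≤ 3 * x := by
      refine le_trans ?_ hTx
      exact_mod_cast Nat.pow_log_le_self 2 hT1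
    have h2 : (Nat.log 2 T : ℝ) * Real.log 2 ≤ Real.log 3 + L := by
      rw [← Real.log_pow, hL, ← Real.log_mul (by norm_num) hx0.ne']
      exact Real.log_le_log (by positivity) h1
    have h3 := Real.log_two_gt_d9
    have h4 : (Nat.log 2 T : ℝ) * 0.69 ≤ 2 * L := by
      have : (Nat.log 2 T : ℝ) * 0.69 ≤ (Nat.log 2 T : ℝ) * Real.log 2 := by
        gcongr
        linarith
      linarith
    rw [hI]
    push_cast
    linarith
  calc ∑ r ∈ Ioc R (2 * R), (r : ℝ) / Nat.totient r *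
      SP (fun f => ‖∑ m ∈ Ioc U T, ∑ k ∈ Ioc U T,
        ((α m * β k * w (Real.log (m * k / x)) : ℝ) : ℂ) * (f m * f k)‖) r
      ≤ ∑ r ∈ Ioc R (2 * R), (r : ℝ) / Nat.totient r * ∑ i ∈ range I, SP (fun f => ‖G i f‖) r := by
        refine Finset.sum_le_sum fun r _ => mul_le_mul_of_nonneg_left ?_ (by positivity)
        rw [← T2aux.SP_sum]
        refine T2aux.SP_mono (fun f => ?_) r
        rw [hsplit f]
        exact norm_sum_le _ _
    _ = ∑ i ∈ range I, ∑ r ∈ Ioc R (2 * R), (r : ℝ) / Nat.totient r * SP (fun f => ‖G i f‖) r := by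
        simp_rw [Finset.mul_sum]
        rw [Finset.sum_comm]
    _ ≤ ∑ i ∈ range I, J * (192 * CM * E * L ^ 3) := Finset.sum_le_sum hblock
    _ = I * (J * (192 * CM * E * L ^ 3)) := by
        rw [Finset.sum_const, Finset.card_range, nsmul_eq_mul]
    _ ≤ (4 * L) * (J * (192 * CM * E * L ^ 3)) := by gcongr
    _ = (J * (192 * CM) * 4) * E * L ^ 4 := by ring
    _ ≤ (J * (192 * CM) * 4 + 1) * E * L ^ 5 := by
        have h45 : L ^ 4 ≤ L ^ 5 := pow_le_pow_right₀ hL0.le (by norm_num)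
        gcongr
        linarith

end Pool.Agent.Helper15.AB
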