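import Mathlib
import Pool.Agent.Helper15.AB.StBV

/-!
# AB module WE: existence of an admissible weight
-/

set_option autoImplicit false

namespace Pool.Agent.Helper15.AB

theorem hWE : StWE := by
  refine ⟨fun t => Real.smoothTransition (10 * t) * Real.smoothTransition (10 * (1 - t)), ?_⟩
  constructor
  · have h1 : ContDiff ℝ 4 Real.smoothTransition := Real.smoothTransition.contDiff
    have h2 : ContDiff ℝ 4 (fun t : ℝ => 10 * t) := contDiff_const.mul contDiff_id
    have h3 : ContDiff ℝ 4 (fun t : ℝ => 10 * (1 - t)) :=
      contDiff_const.mul (contDiff_const.sub contDiff_id)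
    exact (h1.comp h2).mul (h1.comp h3)
  · intro t
    exact mul_nonneg (Real.smoothTransition.nonneg _) (Real.smoothTransition.nonneg _)
  · intro t
    exact mul_le_one₀ (Real.smoothTransition.le_one _) (Real.smoothTransition.nonneg _)
      (Real.smoothTransition.le_one _)
  · intro t ht
    rw [Set.mem_Icc, not_and_or, not_le, not_le] at ht
    show Real.smoothTransition (10 * t) * Real.smoothTransition (10 * (1 - t)) = 0
    rcases ht with ht | ht
    · rw [Real.smoothTransition.zero_of_nonpos (by linarith : 10 * t ≤ 0), zero_mul]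
    · rw [Real.smoothTransition.zero_of_nonpos (by linarith : 10 * (1 - t) ≤ 0), mul_zero]
  · intro t ht
    obtain ⟨h1, h2⟩ := ht
    show (0.001 : ℝ) ≤ Real.smoothTransition (10 * t) * Real.smoothTransition (10 * (1 - t))
    rw [Real.smoothTransition.one_of_one_le (by norm_num at h1 ⊢; linarith : 1 ≤ 10 * t),
      Real.smoothTransition.one_of_one_le (by norm_num at h2 ⊢; linarith : 1 ≤ 10 * (1 - t))]
    norm_num

end Pool.Agent.Helper15.AB
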