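import Pool.Agent.Helper15.AB.Defs

/-!
# Project AB: sieve estimates, main range, mid range
-/

set_option autoImplicit false

namespace Pool.Agent.Helper15.AB

open Finset ArithmeticFunction Filter Topology

/-! ### Data -/

/-- admissible data: `n = N m - p` with `m ≡ m₁ (mod q)` -/
structure Hyp (N p q m₁ : ℕ) : Prop where
  hp : p.Prime
  hp2 : p ≠ 2
  hN : 1 ≤ N
  hNp : ¬ p ∣ N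
  hq : 4 ∣ q
  hq1 : 1 ≤ q
  hpq : p ∣ q
  hm : Nat.Coprime m₁ q
  hm4 : m₁ % 4 = 1
  hc : IsCoprime ((N : ℤ) * m₁ - p) (q : ℤ)

/-- the range of `m` -/
noncomputable def ms (x : ℝ) (q m₁ : ℕ) : Finset ℕ :=
  (Icc 1 ⌊4 * x⌋₊).filter (fun m => m % q = m₁ % q)

/-- `Λ(N m - p) w(log ((N m - p) / x))` -/
noncomputable def lam (w : ℝ → ℝ) (x : ℝ) (N p m : ℕ) : ℝ :=
  Λ (N * m - p) * w (Real.log (((N * m - p : ℕ) : ℝ) / x))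

/-- partial sums of `c4 e / φ(r e)` over `e` coprime to `q` -/
noncomputable def Kp (q r E : ℕ) : ℝ :=
  ∑ e ∈ (Icc 1 E).filter (fun e => Nat.Coprime e q), c4 e / (Nat.totient (r * e) : ℝ)

/-- the limit of `Kp` -/
noncomputable def KK (q r : ℕ) : ℝ := limUnder atTop (fun E => Kp q r E)

/-- the lower end of the mid range -/
noncomputable def DD (x : ℝ) (B : ℕ) : ℕ := ⌊√x / Real.log x ^ B⌋₊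

/-- number of elements of `P` dividing `m` -/
def om (P : Finset ℕ) (m : ℕ) : ℕ := (P.filter (fun l => l ∣ m)).card

/-- the primes in `(3, exp((log x)^(9/10))]` -/
noncomputable def PP (x : ℝ) : Finset ℕ :=
  (Ioc 3 ⌊Real.exp (Real.log x ^ (0.9 : ℝ))⌋₊).filter Nat.Prime

/-- `∑ 1/l` over `PP x` -/
noncomputable def LP (x : ℝ) : ℝ := ∑ l ∈ PP x, (1 : ℝ) / l

/-! ### Elementary estimates -/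

/-- MT: Mertens -/
def StMT : Prop := ∃ C : ℝ, 0 < C ∧ ∀ y : ℝ, 3 ≤ y →
  |∑ l ∈ (Icc 1 ⌊y⌋₊).filter Nat.Prime, (1 : ℝ) / l - Real.log (Real.log y)| ≤ C

/-- DB: divisor bound -/
def StDB : Prop := ∀ ε : ℝ, 0 < ε → ∃ C : ℝ, 1 ≤ C ∧ ∀ n : ℕ, 1 ≤ n →
  (n.divisors.card : ℝ) ≤ C * (n : ℝ) ^ ε

/-- DP: `n / φ(n)` -/
def StDP : Prop := ∃ C : ℝ, 0 < C ∧ ∀ n : ℕ, 1 ≤ n →
  (n : ℝ) / Nat.totient n ≤ C * (1 + Real.log (1 + Real.log n))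

/-- CS: partial sums of `c4` over integers coprime to `q E` -/
def StCS : Prop := ∀ q E t : ℕ, 1 ≤ q → 1 ≤ E →
  |∑ b ∈ (Icc 1 t).filter (fun b => Nat.Coprime b (q * E)), c4 b| ≤
    (q.divisors.card : ℝ) * E.divisors.card

/-- K0: the series `∑ c4 f / f` over `f` coprime to `q` -/
def StK0 : Prop := ∀ q : ℕ, 4 ∣ q → 1 ≤ q → ∃ L C : ℝ, 0 < L ∧ 0 < C ∧
  (∀ F : ℕ, |∑ f ∈ (Icc 1 F).filter (fun f => Nat.Coprime f q), c4 f / f| ≤ C) ∧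
  Tendsto (fun F : ℕ => ∑ f ∈ (Icc 1 F).filter (fun f => Nat.Coprime f q), c4 f / f) atTop (𝓝 L)

/-- K1: the series `∑ c4 e / φ(r e)` -/
def StK1 : Prop := ∀ q : ℕ, 4 ∣ q → 1 ≤ q → ∃ L C : ℝ, 0 < L ∧ 0 < C ∧ ∀ r : ℕ, 1 ≤ r →
  (∀ E : ℕ, |Kp q r E| ≤ C / Nat.totient r) ∧ Tendsto (fun E => Kp q r E) atTop (𝓝 (KK q r)) ∧
  KK q r = L / Nat.totient r *
    ∑' k : ℕ, if Squarefree k ∧ Nat.Coprime k (r * q) then c4 k / (k * Nat.totient k) else 0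

/-- K2: positivity of the singular series -/
def StK2 : Prop := ∀ N q : ℕ, 1 ≤ N → 4 ∣ q → 1 ≤ q → (∀ l : ℕ, l.Prime → l ∣ N → l ∣ q) →
  ∃ (c : ℝ) (G₀ : ℕ), 0 < c ∧ ∀ G : ℕ, G₀ ≤ G →
    c ≤ ∑ g ∈ (Icc 1 G).filter (fun g => Nat.Coprime g q),
      ((moebius g : ℤ) : ℝ) * KK q (N * g ^ 2 * q)

/-- RR: representations as a sum of two squares -/
def StRR : Prop := ∀ m : ℕ, 1 ≤ m → FF m ≤ rr m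

/-- RP: primitive representations -/
def StRP : Prop := ∀ m : ℕ, m % 2 = 1 → Fst m ≤ rp m

/-! ### Sieve -/

/-- MV: Mertens product over the primes not dividing `k` -/
def StMV : Prop := ∃ C : ℝ, 0 < C ∧ ∀ w k : ℕ, 2 ≤ w → 1 ≤ k →
  ∏ l ∈ (Ioc 3 w).filter (fun l => l.Prime ∧ ¬ l ∣ k), (1 - 1 / (l : ℝ)) ≤
    C / Real.log w * ((k : ℝ) / Nat.totient k)

/-- SU: shifted primes in an interval, weighted by `u^{ω}` -/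
def StSU : Prop := ∀ N p : ℕ, p.Prime → 1 ≤ N → ¬ p ∣ N → ∃ C c₀ : ℝ, 0 < C ∧ 0 < c₀ ∧ c₀ < 1 ∧
  ∀ (u : ℝ) (d E H : ℕ) (P : Finset ℕ), 0 ≤ u → u ≤ 1 → 1 ≤ d → ¬ p ∣ d → 2 ≤ H →
  (∀ l ∈ P, l.Prime ∧ 3 < l ∧ (l : ℝ) ≤ (H : ℝ) ^ c₀) →
  ∑ e ∈ (Ioc E (E + H)).filter (fun e => (N * d * e - p).Prime), u ^ om P e ≤
    C * (H / Real.log H) * (d / Nat.totient d) * ∏ l ∈ P, (1 - (1 - u) / (l : ℝ)) + C * √H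

/-- SD: integers in an interval, weighted by `u^{ω}` -/
def StSD : Prop := ∃ C c₀ : ℝ, 0 < C ∧ 0 < c₀ ∧ c₀ < 1 ∧
  ∀ (u : ℝ) (E H : ℕ) (P : Finset ℕ), 0 ≤ u → u ≤ 1 → 2 ≤ H →
  (∀ l ∈ P, l.Prime ∧ 3 < l ∧ (l : ℝ) ≤ (H : ℝ) ^ c₀) →
  ∑ e ∈ Ioc E (E + H), u ^ om P e ≤ C * H * ∏ l ∈ P, (1 - (1 - u) / (l : ℝ)) + C * √H

/-- S2: two dimensional sieve -/
def StS2 : Prop := ∀ p : ℕ, p.Prime → p ≠ 2 → ∃ C : ℝ, 0 < C ∧ ∀ (c k : ℕ) (v₀ : ℤ × ℤ) (Y : ℝ),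
  1 ≤ c → ¬ p ∣ c → 1 ≤ k → 2 ≤ Y → ((c * k : ℕ) : ℝ) ≤ Y ^ (1 / 20 : ℝ) →
  (Set.ncard {v : ℤ × ℤ | ((v.1 ^ 2 + v.2 ^ 2 : ℤ) : ℝ) ≤ Y ∧ (k : ℤ) ∣ v.1 - v₀.1 ∧
      (k : ℤ) ∣ v.2 - v₀.2 ∧ ((c : ℤ) * (v.1 ^ 2 + v.2 ^ 2) - p).toNat.Prime} : ℝ) ≤
    C * Y / ((k : ℝ) ^ 2 * Real.log Y) * (((c * k : ℕ) : ℝ) / Nat.totient (c * k))

/-! ### Typical and atypical integers -/

/-- TY: divisors in the mid range of typical integers -/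
def StTY : Prop := ∀ N p q m₁ : ℕ, Hyp N p q m₁ → ∀ B : ℕ, ∃ x₀ : ℝ, ∀ x : ℝ, x₀ ≤ x →
  ∑ m ∈ (ms x q m₁).filter (fun m => (N * m - p).Prime ∧ (om (PP x) m : ℝ) ≤ 1.5 * LP x),
    (((Ioc (DD x B) ⌊2 * √x⌋₊).filter (fun d => d ∣ m)).card : ℝ) ≤ x / Real.log x ^ (1.05 : ℝ)

/-- AT: atypical integers are rare -/
def StAT : Prop := ∀ N p q m₁ : ℕ, Hyp N p q m₁ → ∃ x₀ : ℝ, ∀ x : ℝ, x₀ ≤ x →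
  (((ms x q m₁).filter (fun m => (N * m - p).Prime ∧ 1.5 * LP x < (om (PP x) m : ℝ))).card : ℝ) ≤
    x / Real.log x ^ (1.09 : ℝ)

/-- SM: second moment in the mid range -/
def StSM : Prop := ∀ N p q m₁ : ℕ, Hyp N p q m₁ → ∀ B : ℕ, ∃ x₀ : ℝ, ∀ x : ℝ, x₀ ≤ x →
  ∀ X₁ X₂ D₂ : ℕ, p ≤ N * X₁ → X₁ ≤ X₂ → (X₂ : ℝ) ≤ 4 * x → (D₂ : ℝ) ≤ 2 * √x →
  ∑ m ∈ (Ioc X₁ X₂).filter (fun m => m % q = m₁ % q ∧ (N * m - p).Prime),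
    (∑ d ∈ (Ioc (DD x B) D₂).filter (fun d => d ∣ m), c4 d) ^ 2 ≤ x / Real.log x ^ (0.92 : ℝ)

/-- NR: narrow ranges of divisors -/
def StNR : Prop := ∀ N p q m₁ : ℕ, Hyp N p q m₁ → ∃ C : ℝ, 0 < C ∧ ∀ η : ℝ, 0 < η → η ≤ 1 →
  ∃ x₀ : ℝ, ∀ x : ℝ, x₀ ≤ x → ∀ (z : ℝ) (X₁ X₂ : ℕ), x ^ (1 / 4 : ℝ) ≤ z → z ≤ 2 * √x →
  X₁ ≤ X₂ → (X₂ : ℝ) ≤ 4 * x → (X₂ : ℝ) - X₁ ≤ η * x →
  ∑ m ∈ (Ioc X₁ X₂).filter (fun m => m % q = m₁ % q ∧ (N * m - p).Prime),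
    (((Ioc ⌊z⌋₊ ⌊(1 + η) * z⌋₊).filter (fun d => d ∣ m)).card : ℝ) ≤ C * η ^ 2 * x / Real.log x

/-! ### Second moment: the pieces -/

/-- a family of sets of primes defining an upper bound sieve -/
structure Maj (B₀ w : ℕ) (Q : Finset ℕ) (fam : Finset (Finset ℕ)) : Prop where
  hQ : ∀ l ∈ Q, l.Prime ∧ 3 < l ∧ l ≤ w
  sub : ∀ T ∈ fam, T ⊆ Q
  lev : ∀ T ∈ fam, ∏ l ∈ T, l ≤ w ^ B₀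
  maj : ∀ n : ℕ, (if ∀ l ∈ Q, ¬ l ∣ n then (1 : ℝ) else 0) ≤
    ∑ T ∈ fam, (-1 : ℝ) ^ T.card * (if ∀ l ∈ T, l ∣ n then 1 else 0)
  mean : ∀ Q' ⊆ Q, ∑ T ∈ fam.filter (fun T => T ⊆ Q'), (-1 : ℝ) ^ T.card * ∏ l ∈ T, (1 / (l : ℝ)) ≤
    2 * ∏ l ∈ Q', (1 - 1 / (l : ℝ))

/-- the sieve majorant -/
noncomputable def th (fam : Finset (Finset ℕ)) (n : ℕ) : ℝ :=
  ∑ T ∈ fam, (-1 : ℝ) ^ T.card * (if ∀ l ∈ T, l ∣ n then 1 else 0)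

/-- MJ: existence of the majorants -/
def StMJ : Prop := ∃ B₀ : ℕ, 1 ≤ B₀ ∧ ∀ (w : ℕ) (Q : Finset ℕ), 2 ≤ w →
  (∀ l ∈ Q, l.Prime ∧ 3 < l ∧ l ≤ w) → ∃ fam, Maj B₀ w Q fam

/-- TA: the majorant in arithmetic progressions -/
def StTA : Prop := ∀ (N p q m₁ B₀ w k X₁ X₂ : ℕ) (Q : Finset ℕ) (fam : Finset (Finset ℕ)),
  Hyp N p q m₁ → Maj B₀ w Q fam → (∀ l ∈ Q, ¬ l ∣ N * q) → 1 ≤ k → p ≤ N * X₁ → X₁ ≤ X₂ →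
  ∑ m ∈ (Ioc X₁ X₂).filter (fun m => m % q = m₁ % q ∧ k ∣ m), th fam (N * m - p) ≤
    2 * (((X₂ : ℝ) - X₁) / (q * k)) * ∏ l ∈ Q.filter (fun l => ¬ l ∣ k), (1 - 1 / (l : ℝ)) +
      (w : ℝ) ^ B₀

/-- the number of `m` with `k ∣ m`, `m ≡ m₁ (mod q)`, `E ∣ N m - p` -/
noncomputable def cnt (N p q m₁ X₁ X₂ k E : ℕ) : ℕ :=
  ((Ioc X₁ X₂).filter (fun m => m % q = m₁ % q ∧ k ∣ m ∧ (E : ℤ) ∣ (N : ℤ) * m - p)).card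

/-- the inner sum of the second moment for a fixed greatest common divisor `g` -/
noncomputable def AA (N p q m₁ X₁ X₂ D₁ D₂ g E : ℕ) : ℝ :=
  ∑ b ∈ ((Icc 1 D₂) ×ˢ (Icc 1 D₂)).filter (fun b : ℕ × ℕ => Nat.Coprime b.1 b.2 ∧
      D₁ < g * b.1 ∧ g * b.1 ≤ D₂ ∧ D₁ < g * b.2 ∧ g * b.2 ≤ D₂),
    c4 (g * b.1) * c4 (g * b.2) * cnt N p q m₁ X₁ X₂ (g * b.1 * b.2) E

/-- `exp((log x)^0.02)` -/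
noncomputable def YY (x : ℝ) : ℝ := Real.exp (Real.log x ^ (0.02 : ℝ))

/-- R2a: oscillation, large `g` -/
def StR2a : Prop := ∀ N p q m₁ : ℕ, Hyp N p q m₁ → ∀ B : ℕ, ∃ x₀ : ℝ, ∀ x : ℝ, x₀ ≤ x →
  ∀ X₁ X₂ D₂ E : ℕ, X₁ ≤ X₂ → (X₂ : ℝ) ≤ 4 * x → (D₂ : ℝ) ≤ 2 * √x → Squarefree E →
  Nat.Coprime E (N * q) → (E : ℝ) ≤ x ^ (1 / 100 : ℝ) →
  ∑ g ∈ (Icc 1 (DD x B)).filter (fun g : ℕ => x ^ (1 / 4 : ℝ) < g ∧ (g : ℝ) * YY x ≤ DD x B),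
    |AA N p q m₁ X₁ X₂ (DD x B) D₂ g E| ≤
      x / E * (E.divisors.card : ℝ) ^ 2 / √(YY x) + x ^ (9 / 10 : ℝ)

/-- R2b: oscillation, small `g` -/
def StR2b : Prop := ∀ N p q m₁ : ℕ, Hyp N p q m₁ → ∀ B : ℕ, ∃ x₀ : ℝ, ∀ x : ℝ, x₀ ≤ x →
  ∀ X₁ X₂ D₂ E : ℕ, X₁ ≤ X₂ → (X₂ : ℝ) ≤ 4 * x → (D₂ : ℝ) ≤ 2 * √x → Squarefree E →
  Nat.Coprime E (N * q) → (E : ℝ) ≤ x ^ (1 / 100 : ℝ) →
  ∑ g ∈ (Icc 1 (DD x B)).filter (fun g : ℕ => YY x < g ∧ (g : ℝ) ≤ x ^ (1 / 4 : ℝ)),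
    |AA N p q m₁ X₁ X₂ (DD x B) D₂ g E| ≤
      x / E * (E.divisors.card : ℝ) ^ 2 / √(YY x) + x ^ (9 / 10 : ℝ)

/-- the absolute sum for a fixed greatest common divisor `g` -/
noncomputable def Abs (N p q m₁ X₁ X₂ D₁ D₂ g : ℕ) (fam : Finset (Finset ℕ)) : ℝ :=
  ∑ b ∈ ((Icc 1 D₂) ×ˢ (Icc 1 D₂)).filter (fun b : ℕ × ℕ => Nat.Coprime b.1 b.2 ∧
      D₁ < g * b.1 ∧ g * b.1 ≤ D₂ ∧ D₁ < g * b.2 ∧ g * b.2 ≤ D₂),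
    ∑ m ∈ (Ioc X₁ X₂).filter (fun m => m % q = m₁ % q ∧ g * b.1 * b.2 ∣ m), th fam (N * m - p)

/-- R3: large `g`, absolute values -/
def StR3 : Prop := ∀ N p q m₁ B₀ : ℕ, Hyp N p q m₁ → ∀ B : ℕ, ∃ x₀ : ℝ, ∀ x : ℝ, x₀ ≤ x →
  ∀ (X₁ X₂ D₂ w : ℕ) (Q : Finset ℕ) (fam : Finset (Finset ℕ)), p ≤ N * X₁ → X₁ ≤ X₂ →
  (X₂ : ℝ) ≤ 4 * x → (D₂ : ℝ) ≤ 2 * √x → Maj B₀ w Q fam →
  Q = (Ioc 3 w).filter (fun l => l.Prime ∧ ¬ l ∣ N * q) →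
  x ^ (1 / (200 * (B₀ + 1)) : ℝ) ≤ 2 * w → (w : ℝ) ^ (B₀ + 1) ≤ x ^ (1 / 200 : ℝ) →
  ∑ g ∈ (Icc 1 D₂).filter (fun g : ℕ => (DD x B : ℝ) < g * YY x),
    Abs N p q m₁ X₁ X₂ (DD x B) D₂ g fam ≤ x / Real.log x ^ (0.93 : ℝ)

/-- R1: small `g`, absolute values -/
def StR1 : Prop := ∀ N p q m₁ B₀ : ℕ, Hyp N p q m₁ → ∀ B : ℕ, ∃ x₀ : ℝ, ∀ x : ℝ, x₀ ≤ x →
  ∀ (X₁ X₂ D₂ w : ℕ) (Q : Finset ℕ) (fam : Finset (Finset ℕ)), p ≤ N * X₁ → X₁ ≤ X₂ →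
  (X₂ : ℝ) ≤ 4 * x → (D₂ : ℝ) ≤ 2 * √x → Maj B₀ w Q fam →
  Q = (Ioc 3 w).filter (fun l => l.Prime ∧ ¬ l ∣ N * q) →
  x ^ (1 / (200 * (B₀ + 1)) : ℝ) ≤ 2 * w → (w : ℝ) ^ (B₀ + 1) ≤ x ^ (1 / 200 : ℝ) →
  ∑ g ∈ (Icc 1 D₂).filter (fun g : ℕ => (g : ℝ) ≤ YY x),
    Abs N p q m₁ X₁ X₂ (DD x B) D₂ g fam ≤ x / Real.log x ^ (0.93 : ℝ)

/-! ### The analytic theorem -/

/-- MA: the main range -/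
def StMA : Prop := ∀ N p q m₁ : ℕ, Hyp N p q m₁ → ∀ w, IsW w → ∀ ε : ℝ, 0 < ε →
  ∃ B₀ : ℕ, ∀ B : ℕ, B₀ ≤ B → ∃ x₀ : ℝ, ∀ x : ℝ, x₀ ≤ x →
  |∑ m ∈ ms x q m₁, lam w x N p m * ∑ d ∈ (Icc 1 (DD x B)).filter (fun d => d ∣ m), c4 d -
    Th w x * KK q (N * q)| ≤ ε * x

/-- MI: the mid range -/
def StMI : Prop := ∀ N p q m₁ : ℕ, Hyp N p q m₁ → ∀ w, IsW w → ∀ (B : ℕ) (ε : ℝ), 0 < ε →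
  ∃ x₀ : ℝ, ∀ x : ℝ, x₀ ≤ x →
  ∑ m ∈ ms x q m₁, lam w x N p m *
    |∑ d ∈ (Ioc (DD x B) ⌊2 * √x⌋₊).filter (fun d => d ∣ m ∧ d ^ 2 < m), c4 d| ≤ ε * x

/-- SG: the asymptotic formula -/
def StSG : Prop := ∀ N p q m₁ : ℕ, Hyp N p q m₁ → ∀ w, IsW w → ∀ ε : ℝ, 0 < ε →
  ∃ x₀ : ℝ, ∀ x : ℝ, x₀ ≤ x →
  |∑ m ∈ ms x q m₁, lam w x N p m * FF m - 2 * Th w x * KK q (N * q)| ≤ ε * x

/-- TL: the tail over square divisors -/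
def StTL : Prop := ∀ N p q m₁ : ℕ, Hyp N p q m₁ → ∀ w, IsW w → ∃ C : ℝ, 0 < C ∧
  ∀ G : ℕ, 1 ≤ G → ∃ x₀ : ℝ, ∀ x : ℝ, x₀ ≤ x →
  ∑ g ∈ (Ioc G ⌊4 * x⌋₊).filter (fun g => Nat.Coprime g q),
    ∑ m ∈ (ms x q m₁).filter (fun m => g ^ 2 ∣ m), lam w x N p m * FF (m / g ^ 2) ≤ C / G * x

/-- BS: lower bound for shifted primes weighted by primitive representations -/
def StBS : Prop := ∀ N p q m₁ : ℕ, Hyp N p q m₁ → (∀ l : ℕ, l.Prime → l ∣ N → l ∣ q) →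
  ∃ c x₀ : ℝ, 0 < c ∧ ∀ x : ℝ, x₀ ≤ x →
  c * x / Real.log x ≤ ∑ m ∈ (ms x q m₁).filter (fun m => (N * m - p).Prime ∧
    x ≤ ((N * m - p : ℕ) : ℝ) ∧ ((N * m - p : ℕ) : ℝ) ≤ 3 * x), (rp m : ℝ)

end Pool.Agent.Helper15.AB
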