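import Mathlib
import Pool.Agent.Helper15.AB.StMid

/-!
# Project AB, module AT: atypical integers are rare
-/

set_option autoImplicit false

namespace Pool.Agent.Helper15.AB

open Finset ArithmeticFunction Filter Topology

namespace hAT

/-- expansion of `(3/2)^{om P m}` -/
theorem pow_om (P : Finset ℕ) (m : ℕ) : (3 / 2 : ℝ) ^ om P m =
    ∑ A ∈ P.powerset, (1 / 2 : ℝ) ^ A.card * (if ∀ l ∈ A, l ∣ m then 1 else 0) := by
  have h1 : (3 / 2 : ℝ) ^ om P m = ∏ l ∈ P, (1 + if l ∣ m then (1 / 2 : ℝ) else 0) := by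
    unfold om
    rw [← Finset.prod_const, Finset.prod_filter]
    refine Finset.prod_congr rfl fun l _ => ?_
    split_ifs <;> norm_num
  rw [h1, Finset.prod_one_add]
  refine Finset.sum_congr rfl fun A _ => ?_
  rw [Finset.prod_ite_zero]
  split_ifs with h
  · rw [Finset.prod_const, mul_one]
  · rw [mul_zero]

theorem totient_prod (A : Finset ℕ) (hA : ∀ l ∈ A, l.Prime) :
    ((Nat.totient (∏ l ∈ A, l) : ℕ) : ℝ) = ∏ l ∈ A, ((l : ℝ) - 1) := by
  induction A using Finset.induction_on with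
  | empty => simp
  | insert a s ha ih =>
    rw [Finset.prod_insert ha, Finset.prod_insert ha]
    have h1 : Nat.Coprime a (∏ l ∈ s, l) := by
      refine Nat.Coprime.prod_right fun l hl => ?_
      rw [Nat.coprime_primes (hA a (Finset.mem_insert_self _ _))
        (hA l (Finset.mem_insert_of_mem hl))]
      rintro rfl
      exact ha hl
    rw [Nat.totient_mul h1, Nat.totient_prime (hA a (Finset.mem_insert_self _ _))]
    push_cast [Nat.cast_sub (hA a (Finset.mem_insert_self _ _)).one_le]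
    rw [ih fun l hl => hA l (Finset.mem_insert_of_mem hl)]

theorem prod_dvd (A : Finset ℕ) (hA : ∀ l ∈ A, l.Prime) {m : ℕ} (h : ∀ l ∈ A, l ∣ m) :
    (∏ l ∈ A, l) ∣ m := by
  exact Finset.prod_primes_dvd m (fun l hl => (hA l hl).prime) h

/-- `∑ 1/(l(l-1)) ≤ 1` -/
theorem sum_inv_mul (P : Finset ℕ) (hP : ∀ l ∈ P, 2 ≤ l) :
    ∑ l ∈ P, 1 / ((l : ℝ) * ((l : ℝ) - 1)) ≤ 1 := by
  have h0 : ∀ M : ℕ, ∑ l ∈ Icc 2 (M + 1), 1 / ((l : ℝ) * ((l : ℝ) - 1)) = 1 - 1 / ((M : ℝ) + 1) := by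
    intro M
    induction M with
    | zero => simp
    | succ M ih =>
      rw [Finset.sum_Icc_succ_top (by omega), ih]
      push_cast
      field_simp
      ring
  have h1 : P ⊆ Icc 2 (P.sup id + 1) := by
    intro l hl
    rw [Finset.mem_Icc]
    refine ⟨hP l hl, ?_⟩
    have : l ≤ P.sup id := Finset.le_sup (f := id) hl
    omega
  calc ∑ l ∈ P, 1 / ((l : ℝ) * ((l : ℝ) - 1))
      ≤ ∑ l ∈ Icc 2 (P.sup id + 1), 1 / ((l : ℝ) * ((l : ℝ) - 1)) := by
        refine Finset.sum_le_sum_of_subset_of_nonneg h1 fun l hl _ => ?_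
        have h2 : (2 : ℝ) ≤ l := by exact_mod_cast (Finset.mem_Icc.1 hl).1
        have h3 : 0 < (l : ℝ) * ((l : ℝ) - 1) := mul_pos (by linarith) (by linarith)
        positivity
    _ ≤ 1 := by
        rw [h0]
        have : (0 : ℝ) ≤ 1 / (((P.sup id : ℕ) : ℝ) + 1) := by positivity
        linarith

/-- the first product -/
theorem prod1 (P : Finset ℕ) (hP : ∀ l ∈ P, 2 ≤ l) :
    ∑ A ∈ P.powerset, (1 / 2 : ℝ) ^ A.card * ∏ l ∈ A, (1 / ((l : ℝ) - 1)) ≤
      Real.exp (1 / 2) * Real.exp ((∑ l ∈ P, (1 : ℝ) / l) / 2) := by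
  have h1 : ∑ A ∈ P.powerset, (1 / 2 : ℝ) ^ A.card * ∏ l ∈ A, (1 / ((l : ℝ) - 1)) =
      ∏ l ∈ P, (1 + 1 / 2 * (1 / ((l : ℝ) - 1))) := by
    rw [Finset.prod_one_add]
    refine Finset.sum_congr rfl fun A _ => ?_
    rw [Finset.prod_mul_distrib, Finset.prod_const]
  rw [h1, ← Real.exp_add]
  calc ∏ l ∈ P, (1 + 1 / 2 * (1 / ((l : ℝ) - 1)))
      ≤ ∏ l ∈ P, Real.exp (1 / 2 * (1 / ((l : ℝ) - 1))) := by
        refine Finset.prod_le_prod ?_ ?_
        · intro l hl
          have h2 : (2 : ℝ) ≤ l := by exact_mod_cast hP l hl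
          have : 0 < (l : ℝ) - 1 := by linarith
          positivity
        · intro l _
          rw [add_comm]
          exact Real.add_one_le_exp _
    _ = Real.exp (∑ l ∈ P, 1 / 2 * (1 / ((l : ℝ) - 1))) := (Real.exp_sum _ _).symm
    _ ≤ Real.exp (1 / 2 + (∑ l ∈ P, (1 : ℝ) / l) / 2) := by
        rw [Real.exp_le_exp]
        have h3 : ∑ l ∈ P, 1 / 2 * (1 / ((l : ℝ) - 1)) =
            (∑ l ∈ P, (1 : ℝ) / l) / 2 + (∑ l ∈ P, 1 / ((l : ℝ) * ((l : ℝ) - 1))) / 2 := by
          rw [Finset.sum_div, Finset.sum_div, ← Finset.sum_add_distrib]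
          refine Finset.sum_congr rfl fun l hl => ?_
          have h2 : (2 : ℝ) ≤ l := by exact_mod_cast hP l hl
          have h4 : (l : ℝ) - 1 ≠ 0 := by linarith
          have h5 : (l : ℝ) ≠ 0 := by linarith
          field_simp
          ring
        rw [h3]
        have := sum_inv_mul P hP
        linarith

/-- the second product -/
theorem prod2 (P : Finset ℕ) :
    ∑ A ∈ P.powerset, (1 / 2 : ℝ) ^ A.card * (Real.exp A.card * ∏ l ∈ A, (1 / (l : ℝ))) ≤
      Real.exp (1.4 * ∑ l ∈ P, (1 : ℝ) / l) := by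
  have h1 : ∑ A ∈ P.powerset, (1 / 2 : ℝ) ^ A.card * (Real.exp A.card * ∏ l ∈ A, (1 / (l : ℝ))) =
      ∏ l ∈ P, (1 + 1 / 2 * Real.exp 1 * (1 / (l : ℝ))) := by
    rw [Finset.prod_one_add]
    refine Finset.sum_congr rfl fun A _ => ?_
    rw [Finset.prod_mul_distrib, Finset.prod_const, mul_pow, ← Real.exp_nat_mul, mul_one]
    ring
  rw [h1, Finset.mul_sum, Real.exp_sum]
  refine Finset.prod_le_prod ?_ ?_
  · intro l _
    positivity
  · intro l _
    have h2 : 1 / 2 * Real.exp 1 ≤ 1.4 := by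
      have := Real.exp_one_lt_d9
      linarith
    have h3 : 1 / 2 * Real.exp 1 * (1 / (l : ℝ)) ≤ 1.4 * (1 / (l : ℝ)) :=
      mul_le_mul_of_nonneg_right h2 (by positivity)
    have h4 := Real.add_one_le_exp (1.4 * (1 / (l : ℝ)))
    linarith

/-- `m` with a prescribed set of prime divisors -/
noncomputable def cA (x : ℝ) (N p q m₁ : ℕ) (A : Finset ℕ) : ℕ :=
  ((ms x q m₁).filter (fun m => (N * m - p).Prime ∧ ∀ l ∈ A, l ∣ m)).card

theorem cA_trivial {x : ℝ} (hx : 0 ≤ x) (N p q m₁ : ℕ) (A : Finset ℕ) (hA : ∀ l ∈ A, l.Prime) :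
    (cA x N p q m₁ A : ℝ) ≤ 4 * x * ∏ l ∈ A, (1 / (l : ℝ)) := by
  set k := ∏ l ∈ A, l with hk
  have hkpos : 0 < k := Finset.prod_pos fun l hl => (hA l hl).pos
  have h1 : cA x N p q m₁ A ≤ ((Ioc 0 ⌊4 * x⌋₊).filter (fun m => k ∣ m)).card := by
    refine Finset.card_le_card ?_
    intro m hm
    rw [Finset.mem_filter] at hm ⊢
    obtain ⟨hm1, -, hm2⟩ := hm
    unfold ms at hm1
    rw [Finset.mem_filter, Finset.mem_Icc] at hm1
    exact ⟨Finset.mem_Ioc.2 ⟨hm1.1.1, hm1.1.2⟩, prod_dvd A hA hm2⟩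
  rw [Nat.Ioc_filter_dvd_card_eq_div] at h1
  have h2 : ∏ l ∈ A, (1 / (l : ℝ)) = 1 / (k : ℝ) := by
    rw [Finset.prod_div_distrib, Finset.prod_const_one, hk]
    push_cast
    rfl
  rw [h2, mul_one_div]
  calc (cA x N p q m₁ A : ℝ) ≤ ((⌊4 * x⌋₊ / k : ℕ) : ℝ) := by exact_mod_cast h1
    _ ≤ (⌊4 * x⌋₊ : ℝ) / k := Nat.cast_div_le
    _ ≤ 4 * x / k := by
        gcongr
        exact Nat.floor_le (by positivity)

theorem cA_zero {x : ℝ} {N p q m₁ : ℕ} (h : Hyp N p q m₁) {A : Finset ℕ} (hp : p ∈ A) :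
    cA x N p q m₁ A = 0 := by
  unfold cA
  rw [Finset.card_eq_zero, Finset.filter_eq_empty_iff]
  rintro m hm ⟨-, hm2⟩
  unfold ms at hm
  have h1 := (Finset.mem_filter.1 hm).2
  have h2 : p ∣ m := hm2 p hp
  have h3 : p ∣ m₁ := by
    have h4 : m ≡ m₁ [MOD q] := h1
    exact ((h4.of_dvd h.hpq).dvd_iff dvd_rfl).1 h2
  have h5 : p ∣ Nat.gcd m₁ q := Nat.dvd_gcd h3 h.hpq
  rw [h.hm] at h5
  exact h.hp.one_lt.ne' (Nat.dvd_one.1 h5)

theorem cA_sieve (hSU : StSU) {N p q m₁ : ℕ} (h : Hyp N p q m₁) : ∃ C x₀ : ℝ, 0 < C ∧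
    ∀ x : ℝ, x₀ ≤ x → ∀ A : Finset ℕ, (∀ l ∈ A, l.Prime) →
    ((∏ l ∈ A, l : ℕ) : ℝ) ≤ x ^ (1 / 10 : ℝ) →
    (cA x N p q m₁ A : ℝ) ≤ C * (x / Real.log x) * ∏ l ∈ A, (1 / ((l : ℝ) - 1)) := by
  obtain ⟨C, c₀, hC, -, -, hS⟩ := hSU N p h.hp h.hN h.hNp
  have hlog : ∀ᶠ x : ℝ in atTop, Real.log x ≤ x ^ (9 / 20 : ℝ) := by
    have := (isLittleO_log_rpow_atTop (r := 9 / 20) (by norm_num)).bound (c := 1) (by norm_num)
    filter_upwards [this, eventually_ge_atTop 1] with x hx hx1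
    rw [Real.norm_of_nonneg (Real.log_nonneg hx1), Real.norm_of_nonneg (by positivity),
      one_mul] at hx
    exact hx
  obtain ⟨x₁, hx₁⟩ := eventually_atTop.1 hlog
  refine ⟨10 * C, max x₁ 4, by positivity, ?_⟩
  intro x hx A hA hk
  have hx4 : (4 : ℝ) ≤ x := (le_max_right _ _).trans hx
  have hxlog : Real.log x ≤ x ^ (9 / 20 : ℝ) := hx₁ x ((le_max_left _ _).trans hx)
  have hx0 : 0 < x := by linarith
  have hL : 0 < Real.log x := Real.log_pos (by linarith)
  set k := ∏ l ∈ A, l with hkd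
  have hkpos : 0 < k := Finset.prod_pos fun l hl => (hA l hl).pos
  have hk0 : (0 : ℝ) < k := by exact_mod_cast hkpos
  have hφ : (0 : ℝ) < Nat.totient k := by exact_mod_cast Nat.totient_pos.2 hkpos
  have hprod : ∏ l ∈ A, (1 / ((l : ℝ) - 1)) = 1 / (Nat.totient k : ℝ) := by
    rw [hkd, totient_prod A hA, Finset.prod_div_distrib, Finset.prod_const_one]
  rw [hprod]
  by_cases hpA : p ∈ A
  · rw [cA_zero h hpA]
    have : 0 ≤ 10 * C * (x / Real.log x) * (1 / (Nat.totient k : ℝ)) := by positivity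
    simpa using this
  · have hpk : ¬ p ∣ k := by
      intro hd
      rw [hkd, Prime.dvd_finsetProd_iff h.hp.prime] at hd
      obtain ⟨l, hl, hd⟩ := hd
      rw [Nat.prime_dvd_prime_iff_eq h.hp (hA l hl)] at hd
      exact hpA (hd ▸ hl)
    set H := ⌊4 * x / k⌋₊ with hH
    have hq0 : x ^ (9 / 10 : ℝ) ≤ x / k := by
      rw [le_div_iff₀ hk0]
      calc x ^ (9 / 10 : ℝ) * k ≤ x ^ (9 / 10 : ℝ) * x ^ (1 / 10 : ℝ) := by gcongr
        _ = x := by
          rw [← Real.rpow_add hx0]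
          norm_num
    have hx2 : 2 ≤ x ^ (1 / 2 : ℝ) := by
      rw [← Real.sqrt_eq_rpow]
      exact Real.le_sqrt_of_sq_le (by linarith)
    have hq1 : x ^ (1 / 2 : ℝ) ≤ x ^ (9 / 10 : ℝ) :=
      Real.rpow_le_rpow_of_exponent_le (by linarith) (by norm_num)
    have hHup : (H : ℝ) ≤ 4 * x / k := Nat.floor_le (by positivity)
    have hHlow : x ^ (1 / 2 : ℝ) ≤ (H : ℝ) := by
      have := Nat.lt_floor_add_one (4 * x / k)
      rw [← hH] at this
      have h4 : 4 * x / k = 4 * (x / k) := by ring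
      rw [h4] at this
      linarith
    have hH2 : 2 ≤ H := by
      have : (2 : ℝ) ≤ H := hx2.trans hHlow
      exact_mod_cast this
    -- the map
    have h1 : cA x N p q m₁ A ≤ ((Ioc 0 (0 + H)).filter (fun e => (N * k * e - p).Prime)).card := by
      unfold cA
      refine Finset.card_le_card_of_injOn (fun m => m / k) ?_ ?_
      · intro m hm
        rw [Finset.mem_coe, Finset.mem_filter] at hm
        obtain ⟨hm1, hm2, hm3⟩ := hm
        obtain ⟨e, rfl⟩ := prod_dvd A hA hm3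
        unfold ms at hm1
        rw [Finset.mem_filter, Finset.mem_Icc] at hm1
        change k * e / k ∈ _
        rw [Nat.mul_div_cancel_left _ hkpos, Finset.mem_coe, Finset.mem_filter, Finset.mem_Ioc]
        refine ⟨⟨?_, ?_⟩, ?_⟩
        · rcases Nat.eq_zero_or_pos e with h0 | h0
          · rw [h0, mul_zero] at hm1
            omega
          · exact h0
        · rw [zero_add, hH, Nat.le_floor_iff (by positivity), le_div_iff₀ hk0]
          have h5 := (Nat.le_floor_iff (by positivity)).1 hm1.1.2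
          rw [← hkd, Nat.cast_mul] at h5
          linarith
        · rw [mul_assoc]
          exact hm2
      · intro m hm m' hm' he
        rw [Finset.mem_coe, Finset.mem_filter] at hm hm'
        obtain ⟨e, rfl⟩ := prod_dvd A hA hm.2.2
        obtain ⟨e', rfl⟩ := prod_dvd A hA hm'.2.2
        simp only at he
        rw [Nat.mul_div_cancel_left _ hkpos, Nat.mul_div_cancel_left _ hkpos] at he
        rw [he]
    have h2 := hS 1 k 0 H ∅ zero_le_one le_rfl hkpos hpk hH2 (by simp)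
    simp only [one_pow, Finset.sum_const, nsmul_eq_mul, mul_one, Finset.prod_empty] at h2
    have h3 : (cA x N p q m₁ A : ℝ) ≤ C * (H / Real.log H) * (k / (Nat.totient k : ℝ)) + C * √H :=
      le_trans (by exact_mod_cast h1) h2
    have hlogH : Real.log x / 2 ≤ Real.log H := by
      have : Real.log (x ^ (1 / 2 : ℝ)) ≤ Real.log H :=
        Real.log_le_log (by positivity) hHlow
      rw [Real.log_rpow hx0] at this
      linarith
    have h4 : (H : ℝ) / Real.log H ≤ 8 * x / (k * Real.log x) := by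
      calc (H : ℝ) / Real.log H ≤ (4 * x / k) / (Real.log x / 2) := by
            gcongr
        _ = 8 * x / (k * Real.log x) := by
            field_simp
            norm_num
    have h5 : C * (H / Real.log H) * (k / (Nat.totient k : ℝ)) ≤
        8 * C * (x / Real.log x) * (1 / (Nat.totient k : ℝ)) := by
      calc C * (H / Real.log H) * (k / (Nat.totient k : ℝ))
          ≤ C * (8 * x / (k * Real.log x)) * (k / (Nat.totient k : ℝ)) := by gcongr
        _ = 8 * C * (x / Real.log x) * (1 / (Nat.totient k : ℝ)) := by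
            field_simp
    have h6 : √(H : ℝ) ≤ 2 * (x / Real.log x) * (1 / (Nat.totient k : ℝ)) := by
      have h7 : √(H : ℝ) ≤ 2 * √(x / k) := by
        have h8 : √(H : ℝ) ≤ √(4 * (x / k)) := Real.sqrt_le_sqrt (by
          have h9 : 4 * (x / k) = 4 * x / k := by ring
          rw [h9]; exact hHup)
        rw [Real.sqrt_mul (by norm_num)] at h8
        have h10 : √(4 : ℝ) = 2 := by
          rw [show (4 : ℝ) = 2 ^ 2 by norm_num, Real.sqrt_sq (by norm_num)]
        rw [h10] at h8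
        exact h8
      have h11 : Real.log x ≤ √(x / k) := by
        refine hxlog.trans (Real.le_sqrt_of_sq_le ?_)
        refine le_trans ?_ hq0
        rw [← Real.rpow_natCast, ← Real.rpow_mul hx0.le]
        norm_num
      have h12 : √(x / k) * Real.log x ≤ x / k := by
        calc √(x / k) * Real.log x ≤ √(x / k) * √(x / k) := by gcongr
          _ = x / k := Real.mul_self_sqrt (by positivity)
      have h13 : (Nat.totient k : ℝ) ≤ k := by exact_mod_cast Nat.totient_le k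
      calc √(H : ℝ) ≤ 2 * √(x / k) := h7
        _ ≤ 2 * (x / k / Real.log x) := by
            gcongr
            rw [le_div_iff₀ hL]
            exact h12
        _ = 2 * (x / Real.log x) * (1 / (k : ℝ)) := by
            field_simp
        _ ≤ 2 * (x / Real.log x) * (1 / (Nat.totient k : ℝ)) := by
            gcongr
    calc (cA x N p q m₁ A : ℝ) ≤ _ := h3
      _ ≤ 8 * C * (x / Real.log x) * (1 / (Nat.totient k : ℝ)) +
          C * (2 * (x / Real.log x) * (1 / (Nat.totient k : ℝ))) := by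
            gcongr
      _ = 10 * C * (x / Real.log x) * (1 / (Nat.totient k : ℝ)) := by ring

/-- large products have many factors -/
theorem card_large {x : ℝ} (hx : 1 < x) {A : Finset ℕ} (hA : A ⊆ PP x)
    (hk : x ^ (1 / 10 : ℝ) < ((∏ l ∈ A, l : ℕ) : ℝ)) :
    Real.log x ^ (0.1 : ℝ) / 10 ≤ A.card := by
  have hL : 0 < Real.log x := Real.log_pos hx
  have h1 : Real.log x / 10 ≤ A.card * Real.log x ^ (0.9 : ℝ) := by
    have h2 : Real.log (x ^ (1 / 10 : ℝ)) ≤ Real.log ((∏ l ∈ A, l : ℕ) : ℝ) :=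
      Real.log_le_log (by positivity) hk.le
    rw [Real.log_rpow (by linarith)] at h2
    have h3 : Real.log ((∏ l ∈ A, l : ℕ) : ℝ) = ∑ l ∈ A, Real.log (l : ℝ) := by
      push_cast
      rw [Real.log_prod]
      intro l hl
      have := hA hl
      unfold PP at this
      have h4 := (Finset.mem_filter.1 this).2.pos
      positivity
    rw [h3] at h2
    have h5 : ∑ l ∈ A, Real.log (l : ℝ) ≤ ∑ l ∈ A, Real.log x ^ (0.9 : ℝ) := by
      refine Finset.sum_le_sum fun l hl => ?_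
      have := hA hl
      unfold PP at this
      rw [Finset.mem_filter, Finset.mem_Ioc] at this
      have h6 : (l : ℝ) ≤ Real.exp (Real.log x ^ (0.9 : ℝ)) :=
        (Nat.le_floor_iff (by positivity)).1 this.1.2
      have h7 : (0 : ℝ) < l := by
        have := this.2.pos
        positivity
      calc Real.log (l : ℝ) ≤ Real.log (Real.exp (Real.log x ^ (0.9 : ℝ))) :=
            Real.log_le_log h7 h6
        _ = _ := Real.log_exp _
    rw [Finset.sum_const, nsmul_eq_mul] at h5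
    linarith
  have h8 : Real.log x = Real.log x ^ (0.1 : ℝ) * Real.log x ^ (0.9 : ℝ) := by
    rw [← Real.rpow_add hL]
    norm_num
  have h9 : 0 < Real.log x ^ (0.9 : ℝ) := by positivity
  have h10 : Real.log x ^ (0.1 : ℝ) / 10 * Real.log x ^ (0.9 : ℝ) ≤
      A.card * Real.log x ^ (0.9 : ℝ) := by
    rw [div_mul_eq_mul_div, ← h8]
    exact h1
  exact le_of_mul_le_mul_right h10 h9

/-- the main estimate -/
theorem main (hSU : StSU) {N p q m₁ : ℕ} (h : Hyp N p q m₁) : ∃ C x₀ : ℝ, 0 < C ∧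
    ∀ x : ℝ, x₀ ≤ x →
    ∑ m ∈ (ms x q m₁).filter (fun m => (N * m - p).Prime), (3 / 2 : ℝ) ^ om (PP x) m ≤
      C * (x / Real.log x) * Real.exp (LP x / 2) +
        4 * x * Real.exp (1.4 * LP x - Real.log x ^ (0.1 : ℝ) / 10) := by
  obtain ⟨C, x₀, hC, hS⟩ := cA_sieve hSU h
  refine ⟨C * Real.exp (1 / 2), max x₀ 2, by positivity, ?_⟩
  intro x hx
  have hx2 : (2 : ℝ) ≤ x := (le_max_right _ _).trans hx
  have hx0 : 0 < x := by linarith
  have hL : 0 < Real.log x := Real.log_pos (by linarith)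
  have hPP : ∀ l ∈ PP x, l.Prime := by
    intro l hl
    unfold PP at hl
    exact (Finset.mem_filter.1 hl).2
  have h1 : ∑ m ∈ (ms x q m₁).filter (fun m => (N * m - p).Prime), (3 / 2 : ℝ) ^ om (PP x) m =
      ∑ A ∈ (PP x).powerset, (1 / 2 : ℝ) ^ A.card * (cA x N p q m₁ A : ℝ) := by
    simp_rw [pow_om]
    rw [Finset.sum_comm]
    refine Finset.sum_congr rfl fun A _ => ?_
    rw [← Finset.mul_sum]
    congr 1
    unfold cA
    rw [Finset.sum_boole, Finset.filter_filter]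
  rw [h1]
  have h2 : ∀ A ∈ (PP x).powerset, (1 / 2 : ℝ) ^ A.card * (cA x N p q m₁ A : ℝ) ≤
      C * (x / Real.log x) * ((1 / 2 : ℝ) ^ A.card * ∏ l ∈ A, (1 / ((l : ℝ) - 1))) +
      4 * x * Real.exp (- (Real.log x ^ (0.1 : ℝ) / 10)) *
        ((1 / 2 : ℝ) ^ A.card * (Real.exp A.card * ∏ l ∈ A, (1 / (l : ℝ)))) := by
    intro A hA
    have hA' := Finset.mem_powerset.1 hA
    have hAp : ∀ l ∈ A, l.Prime := fun l hl => hPP l (hA' hl)
    have hpos1 : 0 ≤ ∏ l ∈ A, (1 / ((l : ℝ) - 1)) := by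
      refine Finset.prod_nonneg fun l hl => ?_
      have : (2 : ℝ) ≤ l := by exact_mod_cast (hAp l hl).two_le
      have : 0 < (l : ℝ) - 1 := by linarith
      positivity
    have hpos2 : 0 ≤ ∏ l ∈ A, (1 / (l : ℝ)) := Finset.prod_nonneg fun l _ => by positivity
    rcases le_or_gt ((∏ l ∈ A, l : ℕ) : ℝ) (x ^ (1 / 10 : ℝ)) with hk | hk
    · have h3 := hS x ((le_max_left _ _).trans hx) A hAp hk
      calc (1 / 2 : ℝ) ^ A.card * (cA x N p q m₁ A : ℝ)
          ≤ (1 / 2 : ℝ) ^ A.card * (C * (x / Real.log x) * ∏ l ∈ A, (1 / ((l : ℝ) - 1))) := by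
            gcongr
        _ = C * (x / Real.log x) * ((1 / 2 : ℝ) ^ A.card * ∏ l ∈ A, (1 / ((l : ℝ) - 1))) := by ring
        _ ≤ _ := by
            have : 0 ≤ 4 * x * Real.exp (- (Real.log x ^ (0.1 : ℝ) / 10)) *
              ((1 / 2 : ℝ) ^ A.card * (Real.exp A.card * ∏ l ∈ A, (1 / (l : ℝ)))) := by positivity
            linarith
    · have h3 := cA_trivial hx0.le N p q m₁ A hAp
      have h4 := card_large (by linarith) hA' hk
      have h5 : 1 ≤ Real.exp (- (Real.log x ^ (0.1 : ℝ) / 10)) * Real.exp A.card := by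
        rw [← Real.exp_add]
        exact Real.one_le_exp (by linarith)
      calc (1 / 2 : ℝ) ^ A.card * (cA x N p q m₁ A : ℝ)
          ≤ (1 / 2 : ℝ) ^ A.card * (4 * x * ∏ l ∈ A, (1 / (l : ℝ))) * 1 := by
            rw [mul_one]
            gcongr
        _ ≤ (1 / 2 : ℝ) ^ A.card * (4 * x * ∏ l ∈ A, (1 / (l : ℝ))) *
            (Real.exp (- (Real.log x ^ (0.1 : ℝ) / 10)) * Real.exp A.card) := by
            gcongr
        _ = 4 * x * Real.exp (- (Real.log x ^ (0.1 : ℝ) / 10)) *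
        ((1 / 2 : ℝ) ^ A.card * (Real.exp A.card * ∏ l ∈ A, (1 / (l : ℝ)))) := by ring
        _ ≤ _ := by
            have : 0 ≤ C * (x / Real.log x) *
              ((1 / 2 : ℝ) ^ A.card * ∏ l ∈ A, (1 / ((l : ℝ) - 1))) := by positivity
            linarith
  refine (Finset.sum_le_sum h2).trans ?_
  rw [Finset.sum_add_distrib, ← Finset.mul_sum, ← Finset.mul_sum]
  have h6 := prod1 (PP x) fun l hl => (hPP l hl).two_le
  have h7 := prod2 (PP x)
  unfold LP
  calc _ ≤ C * (x / Real.log x) * (Real.exp (1 / 2) * Real.exp ((∑ l ∈ PP x, (1 : ℝ) / l) / 2)) +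
        4 * x * Real.exp (- (Real.log x ^ (0.1 : ℝ) / 10)) *
          Real.exp (1.4 * ∑ l ∈ PP x, (1 : ℝ) / l) := by
        gcongr
    _ = _ := by
        have h8 : Real.exp (- (Real.log x ^ (0.1 : ℝ) / 10)) *
            Real.exp (1.4 * ∑ l ∈ PP x, (1 : ℝ) / l) =
            Real.exp (1.4 * ∑ l ∈ PP x, (1 : ℝ) / l - Real.log x ^ (0.1 : ℝ) / 10) := by
          rw [← Real.exp_add]
          congr 1
          ring
        rw [mul_assoc (4 * x), h8]
        ring

theorem log_three_halves : (0.402 : ℝ) ≤ Real.log (3 / 2) := by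
  have h1 : (5 : ℝ) * Real.log (3 / 2) = Real.log ((3 / 2) ^ 5) := by
    rw [Real.log_pow]; norm_num
  have h2 : (2.01 : ℝ) ≤ Real.log ((3 / 2) ^ 5) := by
    rw [Real.le_log_iff_exp_le (by positivity)]
    have h3 : Real.exp 2.01 = Real.exp 1 ^ 2 * Real.exp 0.01 := by
      rw [← Real.exp_nat_mul, ← Real.exp_add]
      norm_num
    have h4 : Real.exp 0.01 ≤ 1.0102 := by
      have h5 : (0.99 : ℝ) ≤ Real.exp (-0.01) := by
        have := Real.add_one_le_exp (-0.01 : ℝ)
        linarith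
      have h6 : Real.exp 0.01 * Real.exp (-0.01) = 1 := by
        rw [← Real.exp_add]; norm_num
      have h7 : 0 < Real.exp 0.01 := Real.exp_pos _
      nlinarith
    have h8 : Real.exp 1 ≤ 2.7183 := by
      have := Real.exp_one_lt_d9
      linarith
    rw [h3]
    calc Real.exp 1 ^ 2 * Real.exp 0.01 ≤ 2.7183 ^ 2 * 1.0102 := by gcongr
      _ ≤ (3 / 2) ^ 5 := by norm_num
  linarith

/-- size of `LP` -/
theorem LP_size (hMT : StMT) : ∃ C : ℝ, 0 < C ∧ ∀ x : ℝ, Real.exp (Real.exp 1) ≤ x →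
    |LP x - 0.9 * Real.log (Real.log x)| ≤ C := by
  obtain ⟨C, hC, hM⟩ := hMT
  refine ⟨C + 1, by positivity, ?_⟩
  intro x hx
  have he : (2.7 : ℝ) ≤ Real.exp 1 := by
    have := Real.exp_one_gt_d9
    linarith
  have hx0 : 0 < x := (Real.exp_pos _).trans_le hx
  have hL : Real.exp 1 ≤ Real.log x := (Real.le_log_iff_exp_le hx0).2 hx
  have hL0 : 0 < Real.log x := by linarith
  have hL9 : (2 : ℝ) ≤ Real.log x ^ (0.9 : ℝ) := by
    have h1 : (2 : ℝ) ≤ 2.7 ^ (0.9 : ℝ) := by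
      rw [← Real.log_le_log_iff (by norm_num) (by positivity), Real.log_rpow (by norm_num)]
      have h2 : Real.log 2 ≤ 0.7 := by
        have := Real.log_two_lt_d9
        linarith
      have h3 : (0.8 : ℝ) ≤ Real.log 2.7 := by
        rw [Real.le_log_iff_exp_le (by norm_num)]
        have h4 : Real.exp 0.8 ^ 5 = Real.exp 1 ^ 4 := by
          rw [← Real.exp_nat_mul, ← Real.exp_nat_mul]
          norm_num
        by_contra hcon
        push Not at hcon
        have h5 : (2.7 : ℝ) ^ 5 < Real.exp 0.8 ^ 5 := by gcongr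
        rw [h4] at h5
        have h6 : Real.exp 1 ^ 4 ≤ 2.7183 ^ 4 := by
          have := Real.exp_one_lt_d9
          gcongr
          linarith
        norm_num at h5 h6
        linarith
      linarith
    refine h1.trans ?_
    exact Real.rpow_le_rpow (by norm_num) (by linarith) (by norm_num)
  set y := Real.exp (Real.log x ^ (0.9 : ℝ)) with hy
  have hy3 : 3 ≤ y := by
    have := Real.add_one_le_exp (Real.log x ^ (0.9 : ℝ))
    linarith
  have hfl : 3 ≤ ⌊y⌋₊ := Nat.le_floor (by exact_mod_cast hy3)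
  have hM1 := hM y hy3
  have h1 : Real.log (Real.log y) = 0.9 * Real.log (Real.log x) := by
    rw [hy, Real.log_exp, Real.log_rpow hL0]
  rw [h1] at hM1
  have h2 : ∑ l ∈ (Icc 1 ⌊y⌋₊).filter Nat.Prime, (1 : ℝ) / l = LP x + (1 / 2 + 1 / 3) := by
    have h3 : (Icc 1 ⌊y⌋₊).filter Nat.Prime = PP x ∪ {2, 3} := by
      unfold PP
      ext l
      simp only [Finset.mem_filter, Finset.mem_Icc, Finset.mem_union, Finset.mem_Ioc,
        Finset.mem_insert, Finset.mem_singleton]
      constructor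
      · rintro ⟨⟨h4, h5⟩, h6⟩
        by_cases h7 : 3 < l
        · exact Or.inl ⟨⟨h7, h5⟩, h6⟩
        · right
          have := h6.two_le
          omega
      · rintro (⟨⟨h4, h5⟩, h6⟩ | h | h)
        · exact ⟨⟨by omega, h5⟩, h6⟩
        · subst h
          exact ⟨⟨by omega, by omega⟩, Nat.prime_two⟩
        · subst h
          exact ⟨⟨by omega, by omega⟩, Nat.prime_three⟩
    have h4 : Disjoint (PP x) {2, 3} := by
      unfold PP
      rw [Finset.disjoint_left]
      intro l hl hl'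
      simp only [Finset.mem_filter, Finset.mem_Ioc, Finset.mem_insert,
        Finset.mem_singleton] at hl hl'
      omega
    rw [h3, Finset.sum_union h4, Finset.sum_pair (by norm_num)]
    unfold LP
    norm_num
  rw [h2] at hM1
  rw [abs_le] at hM1 ⊢
  constructor <;> linarith [hM1.1, hM1.2]

end hAT

open hAT in
theorem hAT (hMT : StMT) (hSU : StSU) : StAT := by
  intro N p q m₁ hyp
  obtain ⟨C₁, x₁, hC₁, h1⟩ := main hSU hyp
  obtain ⟨C₂, hC₂, h2⟩ := LP_size hMT
  -- eventual inequalities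
  have ev1 : ∀ᶠ L : ℝ in atTop, 2 * (C₁ * Real.exp (0.103 * C₂)) ≤ L ^ (0.0027 : ℝ) :=
    (tendsto_rpow_atTop (by norm_num)).eventually_ge_atTop _
  have ev2 : ∀ᶠ L : ℝ in atTop, 8 * Real.exp (1.4 * C₂) *
      ((L ^ (0.1 : ℝ)) ^ (23.5 : ℝ) * Real.exp (-(1 / 10) * L ^ (0.1 : ℝ))) ≤ 1 := by
    have h3 := (tendsto_rpow_mul_exp_neg_mul_atTop_nhds_zero 23.5 (1 / 10) (by norm_num)).comp
      (tendsto_rpow_atTop (y := (0.1 : ℝ)) (by norm_num))
    have h4 := h3.const_mul (8 * Real.exp (1.4 * C₂))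
    rw [mul_zero] at h4
    exact h4.eventually_le_const (by norm_num)
  have ev : ∀ᶠ x : ℝ in atTop, 2 * (C₁ * Real.exp (0.103 * C₂)) ≤ Real.log x ^ (0.0027 : ℝ) ∧
      8 * Real.exp (1.4 * C₂) *
      ((Real.log x ^ (0.1 : ℝ)) ^ (23.5 : ℝ) *
        Real.exp (-(1 / 10) * Real.log x ^ (0.1 : ℝ))) ≤ 1 :=
    (Real.tendsto_log_atTop.eventually ev1).and (Real.tendsto_log_atTop.eventually ev2)
  obtain ⟨x₂, hx₂⟩ := eventually_atTop.1 ev
  refine ⟨max (max x₁ x₂) (Real.exp (Real.exp 1)), ?_⟩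
  intro x hx
  have hxa : x₁ ≤ x := ((le_max_left _ _).trans (le_max_left _ _)).trans hx
  have hxb : x₂ ≤ x := ((le_max_right _ _).trans (le_max_left _ _)).trans hx
  have hxc : Real.exp (Real.exp 1) ≤ x := (le_max_right _ _).trans hx
  have hx0 : 0 < x := (Real.exp_pos _).trans_le hxc
  have hL : Real.exp 1 ≤ Real.log x := (Real.le_log_iff_exp_le hx0).2 hxc
  have hL0 : 0 < Real.log x := (Real.exp_pos _).trans_le hL
  obtain ⟨hb1, hb2⟩ := hx₂ x hxb
  have hLP := abs_le.1 (h2 x hxc)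
  have hLP0 : 0 ≤ LP x := by
    unfold LP
    exact Finset.sum_nonneg fun l _ => by positivity
  set S := (ms x q m₁).filter (fun m => (N * m - p).Prime ∧ 1.5 * LP x < (om (PP x) m : ℝ)) with hS
  have h3 : (S.card : ℝ) * Real.exp (0.603 * LP x) ≤
      C₁ * (x / Real.log x) * Real.exp (LP x / 2) +
        4 * x * Real.exp (1.4 * LP x - Real.log x ^ (0.1 : ℝ) / 10) := by
    refine le_trans ?_ (h1 x hxa)
    calc (S.card : ℝ) * Real.exp (0.603 * LP x) = ∑ m ∈ S, Real.exp (0.603 * LP x) := by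
          rw [Finset.sum_const, nsmul_eq_mul]
      _ ≤ ∑ m ∈ S, (3 / 2 : ℝ) ^ om (PP x) m := by
          refine Finset.sum_le_sum fun m hm => ?_
          rw [hS, Finset.mem_filter] at hm
          have h4 : (3 / 2 : ℝ) ^ om (PP x) m = Real.exp (Real.log (3 / 2) * om (PP x) m) := by
            rw [← Real.rpow_natCast, Real.rpow_def_of_pos (by norm_num)]
          rw [h4, Real.exp_le_exp]
          have h5 := log_three_halves
          have h6 : 0.402 * (1.5 * LP x) ≤ Real.log (3 / 2) * om (PP x) m :=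
            mul_le_mul h5 hm.2.2.le (by positivity) (by linarith)
          linarith
      _ ≤ _ := by
          refine Finset.sum_le_sum_of_subset_of_nonneg ?_ fun m _ _ => by positivity
          intro m hm
          rw [hS, Finset.mem_filter] at hm
          exact Finset.mem_filter.2 ⟨hm.1, hm.2.1⟩
  have h4 : (S.card : ℝ) ≤ C₁ * (x / Real.log x) * Real.exp (- (0.103 * LP x)) +
        4 * x * Real.exp (1.4 * LP x - Real.log x ^ (0.1 : ℝ) / 10) := by
    have h5 : (S.card : ℝ) = (S.card : ℝ) * Real.exp (0.603 * LP x) *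
        Real.exp (-(0.603 * LP x)) := by
      rw [mul_assoc, ← Real.exp_add, add_neg_cancel, Real.exp_zero, mul_one]
    rw [h5]
    calc _ ≤ (C₁ * (x / Real.log x) * Real.exp (LP x / 2) +
          4 * x * Real.exp (1.4 * LP x - Real.log x ^ (0.1 : ℝ) / 10)) *
          Real.exp (-(0.603 * LP x)) := by gcongr
      _ = C₁ * (x / Real.log x) * (Real.exp (LP x / 2) * Real.exp (-(0.603 * LP x))) +
          4 * x * Real.exp (1.4 * LP x - Real.log x ^ (0.1 : ℝ) / 10) *
          Real.exp (-(0.603 * LP x)) := by ring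
      _ ≤ _ := by
          gcongr ?_ + ?_
          · rw [← Real.exp_add]
            gcongr
            linarith
          · have h6 : Real.exp (-(0.603 * LP x)) ≤ 1 := Real.exp_le_one_iff.2 (by linarith)
            have h7 : 0 ≤ 4 * x * Real.exp (1.4 * LP x - Real.log x ^ (0.1 : ℝ) / 10) := by
              positivity
            nlinarith
  -- first term
  have h5 : Real.log x ^ (-1.09 : ℝ) * (Real.log x ^ (1.09 : ℝ)) = 1 := by
    rw [← Real.rpow_add hL0]
    norm_num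
  have hLexp : ∀ s : ℝ, Real.exp (s * Real.log (Real.log x)) = Real.log x ^ s := by
    intro s
    rw [Real.rpow_def_of_pos hL0, mul_comm]
  have h6 : C₁ * (x / Real.log x) * Real.exp (- (0.103 * LP x)) ≤
      x * Real.log x ^ (-1.09 : ℝ) / 2 := by
    have h7 : Real.exp (- (0.103 * LP x)) ≤
        Real.exp (0.103 * C₂) * Real.log x ^ (-0.0927 : ℝ) := by
      rw [← hLexp, ← Real.exp_add, Real.exp_le_exp]
      linarith [hLP.1]
    have h8 : Real.log x ^ (-1.09 : ℝ) =
        Real.log x ^ (0.0027 : ℝ) * Real.log x ^ (-0.0927 : ℝ) * (Real.log x)⁻¹ := by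
      rw [← Real.rpow_add hL0, ← Real.rpow_neg_one, ← Real.rpow_add hL0]
      norm_num
    rw [h8]
    have h9 : 0 < Real.log x ^ (-0.0927 : ℝ) := by positivity
    calc C₁ * (x / Real.log x) * Real.exp (- (0.103 * LP x))
        ≤ C₁ * (x / Real.log x) * (Real.exp (0.103 * C₂) * Real.log x ^ (-0.0927 : ℝ)) := by
          gcongr
      _ = (2 * (C₁ * Real.exp (0.103 * C₂))) * (x * Real.log x ^ (-0.0927 : ℝ) *
          (Real.log x)⁻¹) / 2 := by
          rw [div_eq_mul_inv x]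
          ring
      _ ≤ (Real.log x ^ (0.0027 : ℝ)) * (x * Real.log x ^ (-0.0927 : ℝ) *
          (Real.log x)⁻¹) / 2 := by
          gcongr
      _ = _ := by ring
  have h7 : 4 * x * Real.exp (1.4 * LP x - Real.log x ^ (0.1 : ℝ) / 10) ≤
      x * Real.log x ^ (-1.09 : ℝ) / 2 := by
    have h8 : Real.exp (1.4 * LP x - Real.log x ^ (0.1 : ℝ) / 10) ≤
        Real.exp (1.4 * C₂) * (Real.log x ^ (1.26 : ℝ) *
          Real.exp (-(1 / 10) * Real.log x ^ (0.1 : ℝ))) := by
      rw [← hLexp 1.26, ← Real.exp_add, ← Real.exp_add, Real.exp_le_exp]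
      linarith [hLP.2]
    have h9 : (Real.log x ^ (0.1 : ℝ)) ^ (23.5 : ℝ) =
        Real.log x ^ (1.26 : ℝ) * Real.log x ^ (1.09 : ℝ) := by
      rw [← Real.rpow_mul hL0.le, ← Real.rpow_add hL0]
      norm_num
    rw [h9] at hb2
    have h10 : 0 < Real.log x ^ (1.09 : ℝ) := by positivity
    have h11 : 0 < Real.log x ^ (-1.09 : ℝ) := by positivity
    calc 4 * x * Real.exp (1.4 * LP x - Real.log x ^ (0.1 : ℝ) / 10)
        ≤ 4 * x * (Real.exp (1.4 * C₂) * (Real.log x ^ (1.26 : ℝ) *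
          Real.exp (-(1 / 10) * Real.log x ^ (0.1 : ℝ)))) := by gcongr
      _ = (x / 2) * (8 * Real.exp (1.4 * C₂) * (Real.log x ^ (1.26 : ℝ) *
          Real.exp (-(1 / 10) * Real.log x ^ (0.1 : ℝ)))) *
          (Real.log x ^ (-1.09 : ℝ) * (Real.log x ^ (1.09 : ℝ))) := by
          rw [h5]; ring
      _ = (x / 2) * (8 * Real.exp (1.4 * C₂) * (Real.log x ^ (1.26 : ℝ) *
          Real.log x ^ (1.09 : ℝ) *
          Real.exp (-(1 / 10) * Real.log x ^ (0.1 : ℝ)))) * Real.log x ^ (-1.09 : ℝ) := by ring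
      _ ≤ (x / 2) * 1 * Real.log x ^ (-1.09 : ℝ) := by gcongr
      _ = _ := by ring
  have h8 : x / Real.log x ^ (1.09 : ℝ) = x * Real.log x ^ (-1.09 : ℝ) := by
    rw [div_eq_mul_inv, ← Real.rpow_neg hL0.le]
  rw [h8]
  linarith

end Pool.Agent.Helper15.AB
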