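import Pool.Agent.Helper15.AB.Defs

/-!
# Project AB: Kloosterman sums, the quaternary counting problem, the second moment over circles
-/

set_option autoImplicit false

namespace Pool.Agent.Helper15.AB

open Finset

/-! ### Kloosterman sums -/

/-- Kloosterman sum -/
noncomputable def Kl (r : ℕ) (α β : ℤ) : ℂ :=
  ∑ u ∈ (range r).filter (fun u => Nat.Coprime u r),
    ee ((α * u + β * ((u : ZMod r)⁻¹).val : ℤ) / (r : ℝ))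

/-- sum over `P Q ≡ h (mod R)` -/
noncomputable def KQ (R : ℕ) (h α β : ℤ) : ℂ :=
  ∑ v ∈ ((range R) ×ˢ (range R)).filter (fun v : ℕ × ℕ => (R : ℤ) ∣ (v.1 : ℤ) * v.2 - h),
    ee ((α * v.1 + β * v.2 : ℤ) / (R : ℝ))

/-- KB: Kloosterman's bound -/
def StKB : Prop := ∀ (r : ℕ) (α β : ℤ), 1 ≤ r →
  ‖Kl r α β‖ ^ 4 * Nat.totient r ≤
    2 * (Int.gcd (Int.gcd α β) r : ℝ) * r ^ 4 * (r.divisors.card : ℝ) ^ 2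

/-- PQ: bound for `KQ` -/
def StPQ : Prop := ∃ C : ℝ, 0 < C ∧ ∀ (R : ℕ) (h α β : ℤ), 1 ≤ R → h ≠ 0 →
  ‖KQ R h α β‖ ≤ C * |(h : ℝ)| ^ 3 * min (Int.gcd α R : ℝ) (Int.gcd β R : ℝ) *
    (R : ℝ) ^ (0.78 : ℝ)

/-- FJ: solutions of `P Q ≡ h (mod R)` in a box and in residue classes modulo `m` -/
def StFJ : Prop := ∃ C : ℝ, 0 < C ∧ ∀ (m R : ℕ) (h P₀ Q₀ : ℤ), 1 ≤ m → 1 ≤ R → Nat.Coprime m R →
  h ≠ 0 →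
  (Set.ncard {v : ℤ × ℤ | |v.1| ≤ R ∧ |v.2| ≤ R ∧ (m : ℤ) ∣ v.1 - P₀ ∧ (m : ℤ) ∣ v.2 - Q₀ ∧
      (R : ℤ) ∣ v.1 * v.2 - h} : ℝ) ≤
    C * ((R : ℝ) * ((R.divisors.filter (fun d : ℕ => (d : ℤ) ∣ h)).card : ℝ) / (m : ℝ) ^ 2 +
      |(h : ℝ)| ^ 3 * m * (R : ℝ) ^ (4 / 5 : ℝ))

/-- SZ: a quadric in a hyperplane over a prime field -/
def StSZ : Prop := ∀ (a : ℕ) (l : Fin 4 → ℤ) (h : ℤ), a.Prime → a ≠ 2 → (∃ i, ¬ (a : ℤ) ∣ l i) →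
  ((Fintype.piFinset (fun _ : Fin 4 => range a)).filter (fun v : Fin 4 → ℕ =>
      (a : ℤ) ∣ (v 0 : ℤ) * v 1 + (v 2 : ℤ) * v 3 - h ∧
      (a : ℤ) ∣ l 0 * v 0 + l 1 * v 1 + l 2 * v 2 + l 3 * v 3)).card ≤ 2 * a ^ 2

/-- LC1: the quaternary counting problem, third coordinate maximal -/
def StLC1 : Prop := ∃ C : ℝ, 0 < C ∧ ∀ (Y a₁ a₂ : ℕ) (h : ℤ) (l₁ l₂ : Fin 4 → ℤ), 1 ≤ Y →
  a₁.Prime → a₂.Prime → a₁ ≠ 2 → a₂ ≠ 2 → a₁ ≠ a₂ → h ≠ 0 → ¬ (a₁ : ℤ) ∣ h → ¬ (a₂ : ℤ) ∣ h →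
  (∃ i, ¬ (a₁ : ℤ) ∣ l₁ i) → (∃ i, ¬ (a₂ : ℤ) ∣ l₂ i) →
  (Set.ncard {v : Fin 4 → ℤ | 1 ≤ v 2 ∧ v 2 ≤ Y ∧ (∀ i, |v i| ≤ v 2) ∧
      v 0 * v 1 + v 2 * v 3 = h ∧
      (a₁ : ℤ) ∣ l₁ 0 * v 0 + l₁ 1 * v 1 + l₁ 2 * v 2 + l₁ 3 * v 3 ∧
      (a₂ : ℤ) ∣ l₂ 0 * v 0 + l₂ 1 * v 1 + l₂ 2 * v 2 + l₂ 3 * v 3} : ℝ) ≤
    C * ((Y : ℝ) ^ 2 / (a₁ * a₂) * ∑ d ∈ h.natAbs.divisors, (1 : ℝ) / d +
      (Y : ℝ) ^ (9 / 5 : ℝ) * (a₁ * a₂ * |(h : ℝ)|) ^ 5)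

/-- LC: the quaternary counting problem -/
def StLC : Prop := ∃ C : ℝ, 0 < C ∧ ∀ (Y a₁ a₂ : ℕ) (h : ℤ) (l₁ l₂ : Fin 4 → ℤ), 1 ≤ Y →
  a₁.Prime → a₂.Prime → a₁ ≠ 2 → a₂ ≠ 2 → a₁ ≠ a₂ → h ≠ 0 → ¬ (a₁ : ℤ) ∣ h → ¬ (a₂ : ℤ) ∣ h →
  (∃ i, ¬ (a₁ : ℤ) ∣ l₁ i) → (∃ i, ¬ (a₂ : ℤ) ∣ l₂ i) →
  (Set.ncard {v : Fin 4 → ℤ | (∀ i, |v i| ≤ Y) ∧ v 0 * v 1 + v 2 * v 3 = h ∧
      (a₁ : ℤ) ∣ l₁ 0 * v 0 + l₁ 1 * v 1 + l₁ 2 * v 2 + l₁ 3 * v 3 ∧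
      (a₂ : ℤ) ∣ l₂ 0 * v 0 + l₂ 1 * v 1 + l₂ 2 * v 2 + l₂ 3 * v 3} : ℝ) ≤
    C * ((Y : ℝ) ^ 2 / (a₁ * a₂) * ∑ d ∈ h.natAbs.divisors, (1 : ℝ) / d +
      (Y : ℝ) ^ (9 / 5 : ℝ) * (a₁ * a₂ * |(h : ℝ)|) ^ 5)

/-! ### Pairs of lattice vectors -/

/-- `u` lies in the lattice attached to `z` modulo `a` -/
def Lat (a : ℕ) (z u : GaussianInt) : Prop := (a : ℤ) ∣ (star z * u).im

/-- OF: pairs over different circles -/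
def StOF : Prop := ∃ C : ℝ, 0 < C ∧ ∀ (T : ℝ) (a₁ a₂ : ℕ) (z₁ z₂ : GaussianInt), 1 ≤ T →
  a₁.Prime → a₂.Prime → a₁ ≠ 2 → a₂ ≠ 2 → a₁ ≠ a₂ →
  ¬ ((a₁ : ℤ) ∣ z₁.re ∧ (a₁ : ℤ) ∣ z₁.im) → ¬ ((a₂ : ℤ) ∣ z₂.re ∧ (a₂ : ℤ) ∣ z₂.im) →
  (Set.ncard {u : GaussianInt × GaussianInt | (u.1.norm : ℝ) ≤ T ∧ (u.2.norm : ℝ) ≤ T ∧
      Lat a₁ z₁ u.1 ∧ Lat a₂ z₂ u.2 ∧ u.1.norm - a₁ = u.2.norm - a₂} : ℝ) ≤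
    C * (T / (a₁ * a₂) * ∑ d ∈ ((a₁ : ℤ) - a₂).natAbs.divisors, (1 : ℝ) / d +
      T ^ (9 / 10 : ℝ) * ((a₁ : ℝ) * a₂) ^ 10)

/-- LP: lattice points of an additive subgroup of `ℤ[i]` with `a ℤ[i] ⊆ M ≠ ℤ[i]`, `a` prime -/
def StLP : Prop := ∃ C : ℝ, 0 < C ∧ ∀ (M : AddSubgroup GaussianInt) (a : ℕ) (S : ℝ), a.Prime →
  (∀ u : GaussianInt, (a : GaussianInt) * u ∈ M) → M ≠ ⊤ → 0 ≤ S →
  (Set.ncard {u : GaussianInt | u ∈ M ∧ u ≠ 0 ∧ (u.norm : ℝ) ≤ S} : ℝ) ≤ C * (S / a + √S)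

/-- NB: number of Gaussian integers of given norm -/
def StNB : Prop := ∀ n : ℕ, 1 ≤ n →
  Set.ncard {w : GaussianInt | w.norm = (n : ℤ)} ≤ 4 * n.divisors.card

/-- primitive Gaussian integers: no rational integer `c ≥ 2` divides `α` -/
def PrA (α : GaussianInt) : Prop := ∀ c : ℕ, (c : GaussianInt) ∣ α → c = 1

open Classical in
/-- the nonzero Gaussian integers of norm at most `S` -/
noncomputable def gb (S : ℝ) : Finset GaussianInt :=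
  (((Icc (-⌈S⌉) ⌈S⌉) ×ˢ (Icc (-⌈S⌉) ⌈S⌉)).image
    (fun v : ℤ × ℤ => (⟨v.1, v.2⟩ : GaussianInt))).filter (fun u => u ≠ 0 ∧ (u.norm : ℝ) ≤ S)

theorem mem_gb (S : ℝ) (u : GaussianInt) : u ∈ gb S ↔ u ≠ 0 ∧ (u.norm : ℝ) ≤ S := by
  unfold gb
  rw [mem_filter]
  refine ⟨fun h => h.2, fun h => ⟨?_, h⟩⟩
  rw [mem_image]
  refine ⟨(u.re, u.im), ?_, rfl⟩
  have hn : u.norm = u.re * u.re + u.im * u.im := by rw [Zsqrtd.norm_def]; ring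
  have h1 : (u.norm : ℝ) ≤ ((⌈S⌉ : ℤ) : ℝ) := h.2.trans (Int.le_ceil S)
  have h2 : u.norm ≤ ⌈S⌉ := by exact_mod_cast h1
  rw [mem_product, mem_Icc, mem_Icc]
  have a1 : |u.re| ≤ u.re * u.re := by
    rcases le_total 0 u.re with h0 | h0
    · rw [abs_of_nonneg h0]; rcases h0.eq_or_lt with h3 | h3
      · rw [← h3]; simp
      · nlinarith
    · rw [abs_of_nonpos h0]; rcases h0.eq_or_lt with h3 | h3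
      · rw [h3]; simp
      · nlinarith
  have a2 : |u.im| ≤ u.im * u.im := by
    rcases le_total 0 u.im with h0 | h0
    · rw [abs_of_nonneg h0]; rcases h0.eq_or_lt with h3 | h3
      · rw [← h3]; simp
      · nlinarith
    · rw [abs_of_nonpos h0]; rcases h0.eq_or_lt with h3 | h3
      · rw [h3]; simp
      · nlinarith
  have b1 := mul_self_nonneg u.re
  have b2 := mul_self_nonneg u.im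
  have c1 : |u.re| ≤ ⌈S⌉ := by linarith
  have c2 : |u.im| ≤ ⌈S⌉ := by linarith
  exact ⟨abs_le.1 c1, abs_le.1 c2⟩

open Classical in
/-- the divisors of `z` -/
noncomputable def dv (z : GaussianInt) : Finset GaussianInt :=
  (gb (z.norm : ℝ)).filter (fun β => β ∣ z)

/-- `∑ 1/norm β` over the divisors of `z` -/
noncomputable def sd (z : GaussianInt) : ℝ := ∑ β ∈ dv z, (1 : ℝ) / β.norm

/-- the units -/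
def U4 : Finset GaussianInt := {1, -1, ⟨0, 1⟩, ⟨0, -1⟩}

/-- G1: small primitive solutions are structured -/
def StG1 : Prop := ∀ (p a : ℕ) (κ α : GaussianInt), 1 ≤ p → a.Prime →
  κ.norm = ((a : ℤ) + p) ^ 2 → α ≠ 0 → 8 * p * α.norm ^ 2 < a → (a : ℤ) ∣ (κ * α ^ 2).im →
  (κ * α ^ 2).im = 0

/-- G2: the quadratic congruence defines two lines -/
def StG2 : Prop := ∀ (p a : ℕ) (κ : GaussianInt), 1 ≤ p → a.Prime → p < a → a ≠ 2 →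
  κ.norm = ((a : ℤ) + p) ^ 2 →
  ∃ M₁ M₂ : AddSubgroup GaussianInt, M₁ ≠ ⊤ ∧ M₂ ≠ ⊤ ∧
    (∀ u : GaussianInt, (a : GaussianInt) * u ∈ M₁) ∧
    (∀ u : GaussianInt, (a : GaussianInt) * u ∈ M₂) ∧
    ∀ α : GaussianInt, (a : ℤ) ∣ (κ * α ^ 2).im → α ∈ M₁ ∨ α ∈ M₂

open Classical in
/-- G3: sum over the primitive solutions -/
def StG3 : Prop := ∀ p : ℕ, 1 ≤ p → ∃ C : ℝ, 0 < C ∧ ∀ (a : ℕ) (κ : GaussianInt) (S : ℝ),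
  a.Prime → p < a → a ≠ 2 → κ.norm = ((a : ℤ) + p) ^ 2 → 1 ≤ S →
  ∑ α ∈ (gb S).filter (fun α => PrA α ∧ (a : ℤ) ∣ (κ * α ^ 2).im), (1 : ℝ) / α.norm ≤
    ∑ α ∈ (gb S).filter (fun α => PrA α ∧ (κ * α ^ 2).im = 0), (1 : ℝ) / α.norm +
      C * (1 / √a + (1 + Real.log S) / a)

open Classical in
/-- G4: structured solutions come from divisors of `z` -/
def StG4 : Prop := ∀ (n : ℕ) (z : GaussianInt) (S : ℝ), 1 ≤ n → z.norm = (n : ℤ) →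
  ∑ w ∈ (gb n).filter (fun w => w.norm = (n : ℤ)), ∑ ε ∈ U4,
    ∑ α ∈ (gb S).filter (fun α => PrA α ∧ (star ε * star z * w * α ^ 2).im = 0),
      (1 : ℝ) / α.norm ≤ 64 * sd z

/-- DG: pairs over circles of the same curvature -/
def StDG : Prop := ∀ p : ℕ, 1 ≤ p → ∃ C : ℝ, 0 < C ∧ ∃ a₀ : ℕ, ∀ (a : ℕ) (T : ℝ) (z : GaussianInt),
  a.Prime → a₀ ≤ a → (a : ℝ) ^ 10 ≤ T → T ≤ (a : ℝ) ^ 1000 → z.norm = a + p →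
  (Set.ncard {t : GaussianInt × GaussianInt × GaussianInt | t.1.norm = a + p ∧ t.2.1 ≠ 0 ∧
      t.2.1.norm = t.2.2.norm ∧ (t.2.1.norm : ℝ) ≤ T ∧ Lat a z t.2.1 ∧ Lat a t.1 t.2.2} : ℝ) ≤
    C * (T / a) * (sd z + 1)

/-! ### Averages over circles -/

/-- Gaussian integers (as pairs) whose norm minus `p` is a prime in `[w, w^2]` -/
noncomputable def Gs (p : ℕ) (w : ℝ) : Finset (ℤ × ℤ) :=
  ((Icc (-((⌈w ^ 2⌉₊ : ℤ) + p)) ((⌈w ^ 2⌉₊ : ℤ) + p)) ×ˢ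
    (Icc (-((⌈w ^ 2⌉₊ : ℤ) + p)) ((⌈w ^ 2⌉₊ : ℤ) + p))).filter
    (fun v => (v.1 ^ 2 + v.2 ^ 2 - (p : ℤ)).toNat.Prime ∧
      w ≤ (((v.1 ^ 2 + v.2 ^ 2 - (p : ℤ)).toNat : ℕ) : ℝ) ∧
      (((v.1 ^ 2 + v.2 ^ 2 - (p : ℤ)).toNat : ℕ) : ℝ) ≤ w ^ 2)

/-- the curvature attached to a pair -/
def av (p : ℕ) (v : ℤ × ℤ) : ℕ := (v.1 ^ 2 + v.2 ^ 2 - (p : ℤ)).toNat

/-- AV: total mass -/
def StAV : Prop := ∀ p : ℕ, p.Prime → p ≠ 2 → ∃ C w₀ : ℝ, 0 < C ∧ ∀ w : ℝ, w₀ ≤ w →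
  ∀ (d : ℕ) (b : ℤ), 1 ≤ d → Squarefree d → (d : ℝ) ≤ w ^ (1 / 40 : ℝ) →
  ∑ v ∈ (Gs p w).filter (fun v => (d : ℤ) ∣ (av p v : ℤ) - b), (1 : ℝ) / av p v ≤
    C * (d.divisors.card : ℝ) / Nat.totient d

/-- DD: the singular series on average -/
def StDD : Prop := ∀ p : ℕ, p.Prime → p ≠ 2 → ∃ C w₀ : ℝ, 0 < C ∧ ∀ w : ℝ, w₀ ≤ w →
  ∑ v ∈ (Gs p w ×ˢ Gs p w).filter (fun v => av p v.1 ≠ av p v.2),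
    (1 : ℝ) / (av p v.1 * av p v.2) *
      ∑ d ∈ ((av p v.1 : ℤ) - av p v.2).natAbs.divisors, (1 : ℝ) / d ≤ C

/-- DA: divisors of `z` on average -/
def StDA : Prop := ∀ p : ℕ, p.Prime → p ≠ 2 → ∃ C w₀ : ℝ, 0 < C ∧ ∀ w : ℝ, w₀ ≤ w →
  ∑ v ∈ Gs p w, (1 : ℝ) / av p v * sd ⟨v.1, v.2⟩ ≤ C

/-- MS: lower bound for the number of circles tangent to a given circle -/
def StMS : Prop := ∃ C : ℝ, 1 ≤ C ∧ ∀ (p a : ℕ) (z z' : GaussianInt) (T : ℝ), 1 ≤ p → p ≤ a →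
  (star z * z').im = p → z.norm = a + p → C * (a : ℝ) ^ 4 ≤ T →
  T / (100 * a) ≤ (Set.ncard {v : ℤ × ℤ | 1 ≤ v.2 ∧ IsCoprime v.1 v.2 ∧
      (a : ℤ) < ((v.1 : GaussianInt) * z + (v.2 : GaussianInt) * (z' - ⟨0, 1⟩ * z)).norm ∧
      ((((v.1 : GaussianInt) * z + (v.2 : GaussianInt) * (z' - ⟨0, 1⟩ * z)).norm : ℤ) : ℝ) ≤ T} : ℝ)

end Pool.Agent.Helper15.AB
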