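import Mathlib
import Pool.Agent.Helper15.AB.StMid
import Pool.Agent.Helper15.AB.StKl

/-!
# Module AV (MP_37d0ef_nt): averages over circles
-/

set_option autoImplicit false

namespace Pool.Agent.Helper15.AB

open Finset ArithmeticFunction

namespace hAV

/-- square roots modulo a squarefree number -/
theorem roots (d : ℕ) (hd : 1 ≤ d) (hsq : Squarefree d) (e : ℤ) :
    ((range d).filter (fun y : ℕ => (d : ℤ) ∣ (y : ℤ) ^ 2 - e)).card ≤ d.divisors.card := by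
  classical
  rcases ((range d).filter (fun y : ℕ => (d : ℤ) ∣ (y : ℤ) ^ 2 - e)).eq_empty_or_nonempty with h | h
  · rw [h, card_empty]; exact Nat.zero_le _
  obtain ⟨y₀, hy₀⟩ := h
  rw [mem_filter] at hy₀
  refine card_le_card_of_injOn (fun y : ℕ => Nat.gcd d ((y : ℤ) - y₀).natAbs) ?_ ?_
  · intro y _
    change Nat.gcd d ((y : ℤ) - y₀).natAbs ∈ (d.divisors : Finset ℕ)
    rw [Nat.mem_divisors]
    exact ⟨Nat.gcd_dvd_left _ _, by omega⟩
  · intro y hy z hz hyz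
    have hy' := (mem_filter.1 (mem_coe.1 hy))
    have hz' := (mem_filter.1 (mem_coe.1 hz))
    have key : ∀ l : ℕ, l.Prime → l ∣ d → (l : ℤ) ∣ (y : ℤ) - z := by
      intro l hl hld
      have hlp : Prime (l : ℤ) := Nat.prime_iff_prime_int.1 hl
      have hfac : ∀ t : ℕ, (d : ℤ) ∣ (t : ℤ) ^ 2 - e →
          (l : ℤ) ∣ (t : ℤ) - y₀ ∨ (l : ℤ) ∣ (t : ℤ) + y₀ := by
        intro t ht
        have h1 : (d : ℤ) ∣ ((t : ℤ) - y₀) * ((t : ℤ) + y₀) := by
          have h2 := dvd_sub ht hy₀.2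
          have h3 : ((t : ℤ) ^ 2 - e) - ((y₀ : ℤ) ^ 2 - e) = ((t : ℤ) - y₀) * ((t : ℤ) + y₀) := by
            ring
          rwa [h3] at h2
        have h4 : (l : ℤ) ∣ ((t : ℤ) - y₀) * ((t : ℤ) + y₀) :=
          (Int.natCast_dvd_natCast.2 hld).trans h1
        exact hlp.dvd_or_dvd h4
      have hg : ∀ t : ℕ, (l : ℤ) ∣ (t : ℤ) - y₀ ↔ l ∣ Nat.gcd d ((t : ℤ) - y₀).natAbs := by
        intro t
        rw [Nat.dvd_gcd_iff, Int.natCast_dvd]
        exact ⟨fun h => ⟨hld, h⟩, fun h => h.2⟩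
      by_cases hc : (l : ℤ) ∣ (y : ℤ) - y₀
      · have h1 : (l : ℤ) ∣ (z : ℤ) - y₀ := by
          rw [hg] at hc ⊢
          have hyz' : Nat.gcd d ((y : ℤ) - y₀).natAbs = Nat.gcd d ((z : ℤ) - y₀).natAbs := hyz
          rwa [← hyz']
        have h2 := dvd_sub hc h1
        have h3 : ((y : ℤ) - y₀) - ((z : ℤ) - y₀) = (y : ℤ) - z := by ring
        rwa [h3] at h2
      · have h1 : ¬ (l : ℤ) ∣ (z : ℤ) - y₀ := by
          rw [hg] at hc ⊢
          have hyz' : Nat.gcd d ((y : ℤ) - y₀).natAbs = Nat.gcd d ((z : ℤ) - y₀).natAbs := hyz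
          rwa [← hyz']
        have h2 := (hfac y hy'.2).resolve_left hc
        have h3 := (hfac z hz'.2).resolve_left h1
        have h4 := dvd_sub h2 h3
        have h5 : ((y : ℤ) + y₀) - ((z : ℤ) + y₀) = (y : ℤ) - z := by ring
        rwa [h5] at h4
    have hdvd : d ∣ ((y : ℤ) - z).natAbs := by
      rw [← Nat.prod_primeFactors_of_squarefree hsq]
      refine Finset.prod_primes_dvd _ (fun l hl => (Nat.prime_of_mem_primeFactors hl).prime) ?_
      intro l hl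
      have h1 := key l (Nat.prime_of_mem_primeFactors hl) (Nat.dvd_of_mem_primeFactors hl)
      exact Int.natCast_dvd.1 h1
    have hy2 := mem_range.1 hy'.1
    have hz2 := mem_range.1 hz'.1
    have h0 : ((y : ℤ) - z).natAbs = 0 := Nat.eq_zero_of_dvd_of_lt hdvd (by omega)
    omega

/-- the residue classes -/
noncomputable def cls (d : ℕ) (e : ℤ) : Finset (ℕ × ℕ) :=
  ((range d) ×ˢ (range d)).filter (fun v : ℕ × ℕ => (d : ℤ) ∣ (v.1 : ℤ) ^ 2 + (v.2 : ℤ) ^ 2 - e)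

theorem card_cls (d : ℕ) (hd : 1 ≤ d) (hsq : Squarefree d) (e : ℤ) :
    (cls d e).card ≤ d * d.divisors.card := by
  classical
  unfold cls
  rw [card_filter, sum_product]
  calc ∑ x ∈ range d, ∑ y ∈ range d, (if (d : ℤ) ∣ (x : ℤ) ^ 2 + (y : ℤ) ^ 2 - e then 1 else 0)
      ≤ ∑ _x ∈ range d, d.divisors.card := by
        refine sum_le_sum fun x _ => ?_
        rw [← card_filter]
        refine le_trans (card_le_card ?_) (roots d hd hsq (e - (x : ℤ) ^ 2))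
        intro y hy
        rw [mem_filter] at hy ⊢
        refine ⟨hy.1, ?_⟩
        have h1 : (y : ℤ) ^ 2 - (e - (x : ℤ) ^ 2) = (x : ℤ) ^ 2 + (y : ℤ) ^ 2 - e := by ring
        rw [h1]
        exact hy.2
    _ = d * d.divisors.card := by rw [sum_const, card_range, smul_eq_mul]

/-- finiteness of discs -/
theorem fin_disc (Y : ℝ) : {v : ℤ × ℤ | ((v.1 ^ 2 + v.2 ^ 2 : ℤ) : ℝ) ≤ Y}.Finite := by
  refine Set.Finite.subset ((Set.finite_Icc (-⌈Y⌉) ⌈Y⌉).prod (Set.finite_Icc (-⌈Y⌉) ⌈Y⌉)) ?_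
  intro v hv
  have h1 : ((v.1 ^ 2 + v.2 ^ 2 : ℤ) : ℝ) ≤ ((⌈Y⌉ : ℤ) : ℝ) := le_trans hv (Int.le_ceil Y)
  have h2 : v.1 ^ 2 + v.2 ^ 2 ≤ ⌈Y⌉ := by exact_mod_cast h1
  have h3 : ∀ t : ℤ, |t| ≤ t ^ 2 := by
    intro t
    rw [← sq_abs]
    nlinarith [abs_nonneg t, Int.emod_two_eq_zero_or_one |t|, sq_nonneg (|t| - 1), Int.one_le_abs
      (z := t)]
  have b1 := sq_nonneg v.1
  have b2 := sq_nonneg v.2
  have c1 := h3 v.1
  have c2 := h3 v.2
  exact ⟨abs_le.1 (by linarith), abs_le.1 (by linarith)⟩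

/-- the dyadic index -/
noncomputable def jj (p : ℕ) (w : ℝ) (v : ℤ × ℤ) : ℕ := Nat.log 2 ⌊(av p v : ℝ) / w⌋₊

/-- the class -/
def cl (d : ℕ) (v : ℤ × ℤ) : ℕ × ℕ := ((v.1 % d).toNat, (v.2 % d).toNat)

theorem cl_spec (d : ℕ) (hd : 1 ≤ d) (x : ℤ) : (((x % d).toNat : ℕ) : ℤ) = x % d :=
  Int.toNat_of_nonneg (Int.emod_nonneg _ (by omega))

theorem cl_dvd (d : ℕ) (hd : 1 ≤ d) (x : ℤ) : (d : ℤ) ∣ x - (((x % d).toNat : ℕ) : ℤ) := by
  rw [cl_spec d hd]
  exact Int.dvd_self_sub_emod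

theorem cl_lt (d : ℕ) (hd : 1 ≤ d) (x : ℤ) : (x % d).toNat < d := by
  have h1 := cl_spec d hd x
  have h2 := Int.emod_lt_of_pos x (show (0 : ℤ) < d by omega)
  omega

theorem jj_spec (p : ℕ) (w : ℝ) (hw : 0 < w) (v : ℤ × ℤ) (h : w ≤ (av p v : ℝ)) :
    2 ^ jj p w v * w ≤ (av p v : ℝ) ∧ (av p v : ℝ) ≤ 2 ^ (jj p w v + 1) * w := by
  have h1 : 1 ≤ (av p v : ℝ) / w := by rwa [one_le_div hw]
  have h2 : 1 ≤ ⌊(av p v : ℝ) / w⌋₊ := Nat.le_floor (by exact_mod_cast h1)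
  have h3 : 2 ^ jj p w v ≤ ⌊(av p v : ℝ) / w⌋₊ := Nat.pow_log_le_self 2 (by omega)
  have h4 : ⌊(av p v : ℝ) / w⌋₊ < 2 ^ (jj p w v + 1) := Nat.lt_pow_succ_log_self (by norm_num) _
  constructor
  · have h5 : ((2 ^ jj p w v : ℕ) : ℝ) ≤ (av p v : ℝ) / w :=
      (Nat.cast_le.2 h3).trans (Nat.floor_le (by linarith))
    rw [le_div_iff₀ hw] at h5
    push_cast at h5
    exact h5
  · have h5 : (av p v : ℝ) / w < ((2 ^ (jj p w v + 1) : ℕ) : ℝ) := by
      refine lt_of_lt_of_le (Nat.lt_floor_add_one _) ?_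
      exact_mod_cast h4
    rw [div_lt_iff₀ hw] at h5
    push_cast at h5
    exact h5.le

theorem jj_lt (p : ℕ) (w : ℝ) (hw : 1 ≤ w) (v : ℤ × ℤ) (h : (av p v : ℝ) ≤ w ^ 2) :
    jj p w v < Nat.log 2 ⌊w⌋₊ + 1 := by
  have h1 : (av p v : ℝ) / w ≤ w := by
    rw [div_le_iff₀ (by linarith)]
    nlinarith
  have h2 : ⌊(av p v : ℝ) / w⌋₊ ≤ ⌊w⌋₊ := Nat.floor_mono h1
  exact Nat.lt_succ_of_le (Nat.log_mono_right h2)

theorem log_bound (w : ℝ) (hw : 3 ≤ w) : ((Nat.log 2 ⌊w⌋₊ + 1 : ℕ) : ℝ) ≤ 3 * Real.log w := by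
  have h0 : ⌊w⌋₊ ≠ 0 := by
    have : 3 ≤ ⌊w⌋₊ := Nat.le_floor (by exact_mod_cast hw)
    omega
  have h1 : 2 ^ Nat.log 2 ⌊w⌋₊ ≤ ⌊w⌋₊ := Nat.pow_log_le_self 2 h0
  have h2 : ((2 ^ Nat.log 2 ⌊w⌋₊ : ℕ) : ℝ) ≤ w :=
    (Nat.cast_le.2 h1).trans (Nat.floor_le (by linarith))
  push_cast at h2
  have h3 : (Nat.log 2 ⌊w⌋₊ : ℝ) * Real.log 2 ≤ Real.log w := by
    rw [← Real.log_pow]
    exact Real.log_le_log (by positivity) h2
  have h4 := Real.log_two_gt_d9
  have h5 : 1 < Real.log w := by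
    rw [Real.lt_log_iff_exp_lt (by linarith)]
    have := Real.exp_one_lt_d9
    linarith
  have h6 : (0 : ℝ) ≤ (Nat.log 2 ⌊w⌋₊ : ℝ) := Nat.cast_nonneg _
  push_cast
  nlinarith

end hAV

open hAV in
theorem hAV (hS2 : StS2) : StAV := by
  classical
  intro p hp hp2
  obtain ⟨C, hC, hS⟩ := hS2 p hp hp2
  refine ⟨9 * C, max p 3, by positivity, ?_⟩
  intro w hw d b hd hsq hdw
  have hw3 : 3 ≤ w := (le_max_right _ _).trans hw
  have hwp : (p : ℝ) ≤ w := (le_max_left _ _).trans hw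
  have hw0 : 0 < w := by linarith
  have hlogw : 1 < Real.log w := by
    rw [Real.lt_log_iff_exp_lt (by linarith)]
    have := Real.exp_one_lt_d9
    linarith
  set F := (Gs p w).filter (fun v => (d : ℤ) ∣ (av p v : ℤ) - b) with hF
  set J := Nat.log 2 ⌊w⌋₊ + 1 with hJ
  set T := (range J) ×ˢ (cls d (p + b)) with hT
  have hd0 : (0 : ℝ) < d := by exact_mod_cast hd
  have hφ0 : (0 : ℝ) < Nat.totient d := by exact_mod_cast Nat.totient_pos.2 hd
  -- facts on the elements of `F`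
  have hFm : ∀ v ∈ F, (v.1 ^ 2 + v.2 ^ 2 - (p : ℤ)).toNat.Prime ∧ w ≤ (av p v : ℝ) ∧
      (av p v : ℝ) ≤ w ^ 2 ∧ (d : ℤ) ∣ (av p v : ℤ) - b ∧ v.1 ^ 2 + v.2 ^ 2 = (av p v : ℤ) + p := by
    intro v hv
    rw [hF, mem_filter, Gs, mem_filter] at hv
    obtain ⟨⟨-, h1, h2, h3⟩, h4⟩ := hv
    refine ⟨h1, h2, h3, h4, ?_⟩
    have h5 := h1.pos
    unfold av
    omega
  have hmap : ∀ v ∈ F, (jj p w v, cl d v) ∈ T := by
    intro v hv
    obtain ⟨h1, h2, h3, h4, h5⟩ := hFm v hv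
    rw [hT, mem_product, mem_range]
    refine ⟨jj_lt p w (by linarith) v h3, ?_⟩
    rw [cls, mem_filter, mem_product, mem_range, mem_range]
    refine ⟨⟨cl_lt d hd _, cl_lt d hd _⟩, ?_⟩
    have e1 := cl_dvd d hd v.1
    have e2 := cl_dvd d hd v.2
    change (d : ℤ) ∣ (((v.1 % d).toNat : ℕ) : ℤ) ^ 2 + (((v.2 % d).toNat : ℕ) : ℤ) ^ 2 - (p + b)
    set x := (((v.1 % d).toNat : ℕ) : ℤ)
    set y := (((v.2 % d).toNat : ℕ) : ℤ)
    have e3 : x ^ 2 + y ^ 2 - (p + b) = ((av p v : ℤ) - b) - (v.1 - x) * (v.1 + x) -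
        (v.2 - y) * (v.2 + y) := by
      linear_combination h5
    rw [e3]
    exact dvd_sub (dvd_sub h4 (Dvd.dvd.mul_right e1 _)) (Dvd.dvd.mul_right e2 _)
  rw [← sum_fiberwise_of_maps_to hmap]
  -- each fibre
  have hfib : ∀ t ∈ T, ∑ v ∈ F with (jj p w v, cl d v) = t, (1 : ℝ) / av p v ≤
      3 * C / ((d : ℝ) ^ 2 * Real.log w) * (d / Nat.totient d) := by
    rintro ⟨j, x, y⟩ -
    have hA : 0 < (2 : ℝ) ^ j * w := by positivity
    have hAw : w ≤ (2 : ℝ) ^ j * w := by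
      have : (1 : ℝ) ≤ 2 ^ j := one_le_pow₀ (by norm_num)
      nlinarith
    set Y : ℝ := 2 ^ (j + 1) * w + p with hY
    have hYw : w ≤ Y := by
      rw [hY, pow_succ]
      have : (0 : ℝ) ≤ p := Nat.cast_nonneg _
      nlinarith
    have hYA : Y ≤ 3 * (2 ^ j * w) := by
      rw [hY, pow_succ]
      nlinarith
    have h1 := hS 1 d ((x : ℤ), (y : ℤ)) Y le_rfl
      (fun h => by have := Nat.le_of_dvd one_pos h; have := hp.two_le; omega) hd
      (by linarith) (by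
        rw [one_mul]
        refine hdw.trans ?_
        refine (Real.rpow_le_rpow_of_exponent_le (by linarith)
          (show (1 / 40 : ℝ) ≤ 1 / 20 by norm_num)).trans ?_
        exact Real.rpow_le_rpow hw0.le hYw (by norm_num))
    rw [one_mul] at h1
    have hcard : ((F.filter (fun v => (jj p w v, cl d v) = (j, x, y))).card : ℝ) ≤
        C * Y / ((d : ℝ) ^ 2 * Real.log Y) * ((d : ℝ) / Nat.totient d) := by
      refine le_trans ?_ h1
      have h2 : (F.filter (fun v => (jj p w v, cl d v) = (j, x, y))).card =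
          Set.ncard ((F.filter (fun v => (jj p w v, cl d v) = (j, x, y)) : Finset (ℤ × ℤ)) :
            Set (ℤ × ℤ)) := (Set.ncard_coe_finset _).symm
      rw [h2]
      refine (Nat.cast_le (α := ℝ)).2 (Set.ncard_le_ncard ?_ ?_)
      · intro v hv
        rw [mem_coe, mem_filter] at hv
        obtain ⟨hvF, hve⟩ := hv
        obtain ⟨hj, hc⟩ := Prod.mk.inj hve
        obtain ⟨hx, hy⟩ := Prod.mk.inj hc
        obtain ⟨g1, g2, g3, g4, g5⟩ := hFm v hvF
        obtain ⟨k1, k2⟩ := jj_spec p w hw0 v g2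
        refine ⟨?_, ?_, ?_, ?_⟩
        · rw [g5, hY]
          push_cast
          rw [hj] at k2
          linarith
        · have := cl_dvd d hd v.1
          rw [hx] at this
          exact this
        · have := cl_dvd d hd v.2
          rw [hy] at this
          exact this
        · simpa using g1
      · refine (fin_disc Y).subset fun v hv => ?_
        exact hv.1
    have hlogY : Real.log w ≤ Real.log Y := Real.log_le_log hw0 hYw
    have hsum : ∑ v ∈ F with (jj p w v, cl d v) = (j, x, y), (1 : ℝ) / av p v ≤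
        ((F.filter (fun v => (jj p w v, cl d v) = (j, x, y))).card : ℝ) * (1 / (2 ^ j * w)) := by
      rw [← nsmul_eq_mul]
      refine sum_le_card_nsmul _ _ _ fun v hv => ?_
      rw [mem_filter] at hv
      obtain ⟨hvF, hve⟩ := hv
      obtain ⟨hj, -⟩ := Prod.mk.inj hve
      obtain ⟨g1, g2, g3, g4, g5⟩ := hFm v hvF
      obtain ⟨k1, k2⟩ := jj_spec p w hw0 v g2
      rw [hj] at k1
      exact one_div_le_one_div_of_le hA k1
    refine hsum.trans ?_
    have hpos : 0 < (d : ℝ) ^ 2 * Real.log w := by positivity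
    calc ((F.filter (fun v => (jj p w v, cl d v) = (j, x, y))).card : ℝ) * (1 / (2 ^ j * w))
        ≤ (C * Y / ((d : ℝ) ^ 2 * Real.log Y) * ((d : ℝ) / Nat.totient d)) * (1 / (2 ^ j * w)) :=
          mul_le_mul_of_nonneg_right hcard (by positivity)
      _ ≤ (C * (3 * (2 ^ j * w)) / ((d : ℝ) ^ 2 * Real.log w) * ((d : ℝ) / Nat.totient d)) *
          (1 / (2 ^ j * w)) := by
          have hY0 : 0 ≤ Y := by linarith
          gcongr
      _ = 3 * C / ((d : ℝ) ^ 2 * Real.log w) * (d / Nat.totient d) := by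
          field_simp
  refine (sum_le_sum hfib).trans ?_
  rw [sum_const, nsmul_eq_mul]
  have hTc : (T.card : ℝ) ≤ 3 * Real.log w * (d * d.divisors.card) := by
    rw [hT, card_product, card_range]
    push_cast
    have h1 := log_bound w hw3
    have h2 : ((cls d (p + b)).card : ℝ) ≤ d * d.divisors.card := by
      exact_mod_cast card_cls d hd hsq (p + b)
    rw [hJ]
    exact mul_le_mul h1 h2 (Nat.cast_nonneg _) (by linarith)
  have hnn : 0 ≤ 3 * C / ((d : ℝ) ^ 2 * Real.log w) * (d / Nat.totient d) := by positivity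
  refine (mul_le_mul_of_nonneg_right hTc hnn).trans (le_of_eq ?_)
  have hl0 : Real.log w ≠ 0 := by linarith
  field_simp
  ring

end Pool.Agent.Helper15.AB
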