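import Mathlib

/-!
# Apollonian circle packings: definitions

A generalized oriented circle is a vector `(co, cu, ct)` with `co, cu : ℝ`, `ct : ℂ` and
`‖ct‖ ^ 2 - co * cu = 1`: `cu` is the (signed) curvature, `ct` is the curvature times the centre
(the unit normal for a line, `cu = 0`), and `co` the curvature of the image under inversion in the
unit circle.
-/

set_option autoImplicit false

namespace Pool.Agent.Helper15.AB

/-- vectors `(co, cu, ct)` -/
abbrev Circ : Type := ℝ × ℝ × ℂ

/-- the curvature -/
def cu (v : Circ) : ℝ := v.2.1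

/-- the invariant bilinear form -/
noncomputable def bil (v w : Circ) : ℝ :=
  v.2.2.re * w.2.2.re + v.2.2.im * w.2.2.im - (v.1 * w.2.1 + w.1 * v.2.1) / 2

/-- `v` is an oriented circle or line -/
def IsCirc (v : Circ) : Prop := bil v v = 1

/-- `v` and `w` are externally tangent (tangent with disjoint interiors) -/
def Tang (v w : Circ) : Prop := bil v w = -1

/-- four pairwise tangent circles -/
structure Desc (q : Fin 4 → Circ) : Prop where
  circ : ∀ i, IsCirc (q i)
  tang : ∀ i j, i ≠ j → Tang (q i) (q j)

/-- the Apollonian packing generated by `b`: for any three pairwise tangent circles of the packing,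
the circles tangent to all three belong to the packing -/
inductive Pack (b : Fin 4 → Circ) : Circ → Prop
  | base (i : Fin 4) : Pack b (b i)
  | step (C₁ C₂ C₃ D : Circ) : Pack b C₁ → Pack b C₂ → Pack b C₃ → Tang C₁ C₂ → Tang C₁ C₃ →
      Tang C₂ C₃ → IsCirc D → Tang D C₁ → Tang D C₂ → Tang D C₃ → Pack b D

/-- the data of a primitive integral Apollonian packing: four pairwise tangent circles with disjoint
interiors, all curvatures of the packing are integers without common prime factor -/
structure PrimPacking (b : Fin 4 → Circ) : Prop where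
  desc : Desc b
  pos : 0 < ∑ i, cu (b i)
  integral : ∀ C, Pack b C → ∃ k : ℤ, cu C = k
  primitive : ∀ l : ℕ, l.Prime → ∃ C, Pack b C ∧ ¬ ∃ k : ℤ, cu C = l * k

/-- the curvature is an odd prime -/
def OddPrimeCu (C : Circ) : Prop := ∃ p : ℕ, p.Prime ∧ p ≠ 2 ∧ cu C = p

/-- the prime component of `C₀` -/
def InPr (b : Fin 4 → Circ) (C₀ C : Circ) : Prop :=
  Relation.ReflTransGen (fun D E => Pack b E ∧ OddPrimeCu E ∧ Tang D E) C₀ C

/-- the thickened prime component of `C₀` -/
def InTh (b : Fin 4 → Circ) (C₀ D : Circ) : Prop :=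
  InPr b C₀ D ∨ (Pack b D ∧ ∃ C, InPr b C₀ C ∧ Tang C D)

end Pool.Agent.Helper15.AB
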