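import Pool.Agent.Helper15.AB.StKl
import Pool.Agent.Helper15.AB.StMid
import Pool.Agent.Helper15.AB.ApDefs

/-!
# Project AB: orbit switching, Apollonian geometry, final theorem
-/

set_option autoImplicit false

namespace Pool.Agent.Helper15.AB

open Finset

/-! ### Orbit switching -/

/-- KF: a family of Gaussian integers in the residue classes modulo `p` -/
def StKF : Prop := ∀ p : ℕ, p.Prime → p ≠ 2 → ∃ κ : ZMod p × ZMod p → GaussianInt,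
  (∀ h : ZMod p × ZMod p, h.1 ^ 2 + h.2 ^ 2 ≠ 0 → (((κ h).re : ℤ) : ZMod p) = h.1 ∧
    (((κ h).im : ℤ) : ZMod p) = h.2 ∧ Odd (κ h).norm ∧ 1 < (κ h).norm ∧
    IsCoprime (κ h) (star (κ h))) ∧
  ∀ h h' : ZMod p × ZMod p, h.1 ^ 2 + h.2 ^ 2 ≠ 0 → h'.1 ^ 2 + h'.2 ^ 2 ≠ 0 → h ≠ h' →
    IsCoprime (κ h).norm (κ h').norm

/-- HN: Hilbert 90 modulo `p` -/
def StHN : Prop := ∀ p : ℕ, p.Prime → p ≠ 2 → ∀ x y : ZMod p, x ^ 2 + y ^ 2 ≠ 0 →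
  IsSquare (x ^ 2 + y ^ 2) → ∃ s t : ZMod p, s ^ 2 + t ^ 2 ≠ 0 ∧
    y * (s ^ 2 - t ^ 2) - 2 * x * s * t = 0

/-- the vector of the lattice `ℤ z₁ + ℤ z₂` with coordinates `v` -/
def zz (z₁ z₂ : GaussianInt) (v : ℤ × ℤ) : GaussianInt :=
  (v.1 : GaussianInt) * z₁ + (v.2 : GaussianInt) * z₂

/-- LL: the lattice `ℤ z₁ + ℤ z₂` of index `p` -/
def StLL : Prop := ∀ (p : ℕ) (z₁ z₂ : GaussianInt), p.Prime → (star z₁ * z₂).im = p →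
  ¬ (p : ℤ) ∣ z₁.norm →
  (∀ v w : ℤ × ℤ, zz z₁ z₂ v = zz z₁ z₂ w → v = w) ∧
  ∀ u : GaussianInt, (p : ℤ) ∣ (star z₁ * u).im → ∃ v : ℤ × ℤ, zz z₁ z₂ v = u ∧
    ((∀ l : ℕ, l.Prime → ¬ (l : GaussianInt) ∣ u) → IsCoprime v.1 v.2)

/-- OB: orbit switching -/
def StOB : Prop := ∀ (p : ℕ) (z₁ z₂ : GaussianInt), p.Prime → p ≠ 2 → (star z₁ * z₂).im = p →
  ¬ (p : ℤ) ∣ z₁.norm → ∃ N q m₁ : ℕ, Hyp N p q m₁ ∧ (∀ l : ℕ, l.Prime → l ∣ N → l ∣ q) ∧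
    ∀ m : ℕ, m % q = m₁ % q →
      rp m ≤ Set.ncard {v : ℤ × ℤ | IsCoprime v.1 v.2 ∧ (zz z₁ z₂ v).norm = ((N * m : ℕ) : ℤ)}

/-- BB: circles of prime curvature tangent to a circle of prime curvature -/
def StBB : Prop := ∀ (p : ℕ) (z₁ z₂ : GaussianInt), p.Prime → p ≠ 2 → (star z₁ * z₂).im = p →
  ¬ (p : ℤ) ∣ z₁.norm → ∃ c x₀ : ℝ, 0 < c ∧ ∀ x : ℝ, x₀ ≤ x →
    c * x / Real.log x ≤ (Set.ncard {v : ℤ × ℤ | IsCoprime v.1 v.2 ∧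
      ((zz z₁ z₂ v).norm - p).toNat.Prime ∧ x ≤ (((zz z₁ z₂ v).norm - p : ℤ) : ℝ) ∧
      (((zz z₁ z₂ v).norm - p : ℤ) : ℝ) ≤ 3 * x} : ℝ)

/-! ### The number theoretic theorem -/

/-- primitive vectors whose circle has prime curvature in `[w, w^2]` -/
def Vs (p : ℕ) (z₁ z₂ : GaussianInt) (w : ℝ) : Set (ℤ × ℤ) :=
  {v | IsCoprime v.1 v.2 ∧ ((zz z₁ z₂ v).norm - p).toNat.Prime ∧
    w ≤ (((zz z₁ z₂ v).norm - p : ℤ) : ℝ) ∧ (((zz z₁ z₂ v).norm - p : ℤ) : ℝ) ≤ w ^ 2}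

/-- curvature of the circle `(x, y)` around the circle `v`; `bz v` completes `v` to a basis -/
def nn (p : ℕ) (z₁ z₂ : GaussianInt) (bz : ℤ × ℤ → ℤ × ℤ) (t : (ℤ × ℤ) × (ℤ × ℤ)) : ℤ :=
  (zz (zz z₁ z₂ t.1) (zz z₁ z₂ (bz t.1) - ⟨0, 1⟩ * zz z₁ z₂ t.1) t.2).norm -
    ((zz z₁ z₂ t.1).norm - p)

/-- the set of pairs of circles -/
def RR (p : ℕ) (z₁ z₂ : GaussianInt) (bz : ℤ × ℤ → ℤ × ℤ) (X : ℝ) : Set ((ℤ × ℤ) × (ℤ × ℤ)) :=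
  {t | t.1 ∈ Vs p z₁ z₂ (X ^ (1 / 500 : ℝ)) ∧ 1 ≤ t.2.2 ∧ IsCoprime t.2.1 t.2.2 ∧
    1 ≤ nn p z₁ z₂ bz t ∧ (nn p z₁ z₂ bz t : ℝ) ≤ X}

/-- `bz v` completes `v` to a basis -/
def Bez (bz : ℤ × ℤ → ℤ × ℤ) : Prop :=
  ∀ v : ℤ × ℤ, IsCoprime v.1 v.2 → v.1 * (bz v).2 - v.2 * (bz v).1 = 1

/-- N1: first moment -/
def StN1 : Prop := ∀ (p : ℕ) (z₁ z₂ : GaussianInt), p.Prime → p ≠ 2 → (star z₁ * z₂).im = p →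
  ¬ (p : ℤ) ∣ z₁.norm → ∃ c X₀ : ℝ, 0 < c ∧ ∀ X : ℝ, X₀ ≤ X → ∀ bz, Bez bz →
    (RR p z₁ z₂ bz X).Finite ∧ c * X ≤ (Set.ncard (RR p z₁ z₂ bz X) : ℝ)

/-- N2: second moment -/
def StN2 : Prop := ∀ (p : ℕ) (z₁ z₂ : GaussianInt), p.Prime → p ≠ 2 → (star z₁ * z₂).im = p →
  ¬ (p : ℤ) ∣ z₁.norm → ∃ C X₀ : ℝ, 0 < C ∧ ∀ X : ℝ, X₀ ≤ X → ∀ bz, Bez bz →
    (Set.ncard {t : ((ℤ × ℤ) × (ℤ × ℤ)) × ((ℤ × ℤ) × (ℤ × ℤ)) | t.1 ∈ RR p z₁ z₂ bz X ∧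
      t.2 ∈ RR p z₁ z₂ bz X ∧ nn p z₁ z₂ bz t.1 = nn p z₁ z₂ bz t.2} : ℝ) ≤ C * X

open Classical in
/-- NT: the number theoretic theorem -/
def StNT : Prop := ∀ (p : ℕ) (z₁ z₂ : GaussianInt), p.Prime → p ≠ 2 → (star z₁ * z₂).im = p →
  ¬ (p : ℤ) ∣ z₁.norm → ∃ c X₀ : ℝ, 0 < c ∧ ∀ X : ℝ, X₀ ≤ X → ∀ bz, Bez bz →
    c * X ≤ (((Icc 1 ⌊X⌋₊).filter (fun n : ℕ => ∃ v x : ℤ × ℤ, IsCoprime v.1 v.2 ∧
      IsCoprime x.1 x.2 ∧ ((zz z₁ z₂ v).norm - p).toNat.Prime ∧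
      2 < (zz z₁ z₂ v).norm - p ∧ nn p z₁ z₂ bz (v, x) = n)).card : ℝ)

/-! ### Apollonian geometry -/

/-- quadruples obtained from `b` by permutations and swaps -/
inductive Orb (b : Fin 4 → Circ) : (Fin 4 → Circ) → Prop
  | base : Orb b b
  | perm (q : Fin 4 → Circ) (σ : Equiv.Perm (Fin 4)) : Orb b q → Orb b (q ∘ σ)
  | swap (q : Fin 4 → Circ) : Orb b q → Orb b ![q 0, q 1, q 2, (2 : ℝ) • (q 0 + q 1 + q 2) - q 3]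

/-- the circle `(x, y)` around the first circle of a quadruple -/
noncomputable def Ec (q : Fin 4 → Circ) (v : ℤ × ℤ) : Circ :=
  ((v.1 : ℝ) ^ 2) • (q 0 + q 1) + ((v.1 : ℝ) * v.2) • (q 0 + q 1 + q 2 - q 3) +
    ((v.2 : ℝ) ^ 2) • (q 0 + q 2) - q 0

/-- XM: expansion in a quadruple -/
def StXM : Prop := ∀ q, Desc q → ∀ v : Circ,
  v = ∑ k, ((2 * bil v (q k) - ∑ j, bil v (q j)) / 4) • q k

/-- XA: orbit quadruples consist of pairwise tangent circles of the packing -/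
def StXA : Prop := ∀ b, Desc b → ∀ q, Orb b q → Desc q ∧ ∀ i, Pack b (q i)

/-- XB: the circles tangent to three pairwise tangent circles -/
def StXB : Prop := ∀ q, Desc q → ∀ D, IsCirc D → Tang D (q 0) → Tang D (q 1) → Tang D (q 2) →
  D = q 3 ∨ D = (2 : ℝ) • (q 0 + q 1 + q 2) - q 3

/-- XC: products of the circles around the first circle -/
def StXC : Prop := ∀ q, Desc q → ∀ v : ℤ × ℤ, IsCirc (Ec q v) ∧ Tang (Ec q v) (q 0) ∧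
  ∀ w : ℤ × ℤ, bil (Ec q v) (Ec q w) = 1 - 2 * ((v.1 : ℝ) * w.2 - v.2 * w.1) ^ 2

/-- XS: the circles around the first circle belong to the orbit -/
def StXS : Prop := ∀ b q, Desc b → Orb b q → ∀ v w : ℤ × ℤ, v.1 * w.2 - v.2 * w.1 = 1 →
  Orb b ![q 0, Ec q v, Ec q w, Ec q (v.1 - w.1, v.2 - w.2)]

/-- XD: the packing property -/
def StXD : Prop := ∀ b, Desc b → ∀ q q', Orb b q → Orb b q' → ∀ i j,
  q i = q' j ∨ bil (q i) (q' j) ≤ -1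

/-- XE: the circles tangent to the first circle -/
def StXE : Prop := ∀ b, Desc b → ∀ q q', Orb b q → Orb b q' → ∀ j, Tang (q' j) (q 0) →
  ∃ v : ℤ × ℤ, IsCoprime v.1 v.2 ∧ q' j = Ec q v

/-- XF: the packing consists of the circles of the orbit quadruples -/
def StXF : Prop := ∀ b, Desc b → ∀ C, Pack b C → ∃ q, Orb b q ∧ q 0 = C

/-- XG: positivity -/
def StXG : Prop := ∀ b, Desc b → 0 < ∑ i, cu (b i) → ∀ q, Orb b q →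
  0 < ∑ i, cu (q i) ∧ ∀ i j, i ≠ j → 0 ≤ cu (q i) + cu (q j)

/-- XH: representation by Gaussian integers -/
def StXH : Prop := ∀ (p A B C : ℤ), 0 < A → A * C - B ^ 2 = p ^ 2 →
  (∀ d : ℤ, d ∣ A → d ∣ B → d ∣ C → d ∣ p → IsUnit d) →
  ∃ z₁ z₂ : GaussianInt, z₁.norm = A ∧ z₂.norm = C ∧ (star z₁ * z₂).re = B ∧ (star z₁ * z₂).im = p

/-- XI: the quadruple around a circle of odd prime curvature -/
def StXI : Prop := ∀ b, PrimPacking b → ∀ C, Pack b C → ∀ p : ℕ, p.Prime → p ≠ 2 → cu C = p →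
  ∃ (q : Fin 4 → Circ) (z₁ z₂ : GaussianInt), Orb b q ∧ q 0 = C ∧ (star z₁ * z₂).im = p ∧
    ¬ (p : ℤ) ∣ z₁.norm ∧ ∀ v : ℤ × ℤ, cu (Ec q v) = (((zz z₁ z₂ v).norm - p : ℤ) : ℝ)

/-- XJ: the circles around a circle tangent to the given one -/
def StXJ : Prop := ∀ b, Desc b → ∀ (q : Fin 4 → Circ) (p : ℕ) (z₁ z₂ : GaussianInt), Orb b q →
  cu (q 0) = p → (star z₁ * z₂).im = p →
  (∀ v : ℤ × ℤ, cu (Ec q v) = (((zz z₁ z₂ v).norm - p : ℤ) : ℝ)) → ∀ bz, Bez bz →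
  ∀ v x : ℤ × ℤ, IsCoprime v.1 v.2 → IsCoprime x.1 x.2 →
    Pack b (Ec q v) ∧ Tang (q 0) (Ec q v) ∧
      ∃ D, Pack b D ∧ Tang (Ec q v) D ∧ cu D = ((nn p z₁ z₂ bz (v, x) : ℤ) : ℝ)

open Classical in
/-- the final theorem -/
def StXX : Prop := ∀ b, PrimPacking b → ∀ C₀, Pack b C₀ → OddPrimeCu C₀ →
  ∃ c X₀ : ℝ, 0 < c ∧ ∀ X : ℝ, X₀ ≤ X →
    c * X ≤ (((Icc 1 ⌊X⌋₊).filter (fun n : ℕ => ∃ D, InTh b C₀ D ∧ cu D = n)).card : ℝ)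

end Pool.Agent.Helper15.AB
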