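import Mathlib
import Pool.Agent.Helper15.AB.StAp

/-!
# Project AB, module BB: circles of prime curvature tangent to a circle of prime curvature
-/

set_option autoImplicit false

namespace Pool.Agent.Helper15.AB

open Finset

namespace hBB

theorem im_r (z₁ z₂ : GaussianInt) (v : ℤ × ℤ) :
    (star z₁ * zz z₁ z₂ v).im = v.2 * (star z₁ * z₂).im := by
  simp only [zz, Zsqrtd.im_mul, Zsqrtd.re_star, Zsqrtd.im_star, Zsqrtd.im_add, Zsqrtd.re_add,
    Zsqrtd.re_mul, Zsqrtd.re_intCast, Zsqrtd.im_intCast]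
  ring

theorem im_l (z₁ z₂ : GaussianInt) (v : ℤ × ℤ) :
    (star (zz z₁ z₂ v) * z₂).im = v.1 * (star z₁ * z₂).im := by
  simp only [zz, Zsqrtd.im_mul, Zsqrtd.re_star, Zsqrtd.im_star, Zsqrtd.im_add, Zsqrtd.re_add,
    Zsqrtd.re_mul, Zsqrtd.re_intCast, Zsqrtd.im_intCast]
  ring

theorem zz_inj (z₁ z₂ : GaussianInt) (h : (star z₁ * z₂).im ≠ 0) {v w : ℤ × ℤ}
    (he : zz z₁ z₂ v = zz z₁ z₂ w) : v = w := by
  have h2 : v.2 = w.2 := by
    have h3 := im_r z₁ z₂ v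
    rw [he, im_r] at h3
    exact (mul_right_cancel₀ h h3).symm
  have h1 : v.1 = w.1 := by
    have h3 := im_l z₁ z₂ v
    rw [he, im_l] at h3
    exact (mul_right_cancel₀ h h3).symm
  exact Prod.ext h1 h2

theorem finite_zz (z₁ z₂ : GaussianInt) (h : (star z₁ * z₂).im ≠ 0) (Y : ℝ) :
    {v : ℤ × ℤ | ((zz z₁ z₂ v).norm : ℝ) ≤ Y}.Finite := by
  classical
  have hf : {u : GaussianInt | (u.norm : ℝ) ≤ Y}.Finite := by
    refine Set.Finite.subset (insert 0 (gb Y)).finite_toSet ?_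
    intro u hu
    rw [mem_coe, mem_insert, mem_gb]
    by_cases h : u = 0
    · exact Or.inl h
    · exact Or.inr ⟨h, hu⟩
  exact Set.Finite.preimage (fun v _ w _ he => zz_inj z₁ z₂ h he) hf

end hBB

open hBB in
theorem hBB (hBS : StBS) (hOB : StOB) : StBB := by
  classical
  intro p z₁ z₂ hp hp2 him hpn
  obtain ⟨N, q, m₁, hyp, hNq, hrp⟩ := hOB p z₁ z₂ hp hp2 him hpn
  obtain ⟨c, x₀, hc, hB⟩ := hBS N p q m₁ hyp hNq
  have hp0 : (0 : ℤ) < p := by exact_mod_cast hp.pos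
  have him0 : (star z₁ * z₂).im ≠ 0 := by rw [him]; omega
  refine ⟨c, x₀, hc, fun x hx => (hB x hx).trans ?_⟩
  obtain ⟨B, hBd⟩ : ∃ B : Set (ℤ × ℤ), B = {v : ℤ × ℤ | IsCoprime v.1 v.2 ∧
      ((zz z₁ z₂ v).norm - p).toNat.Prime ∧ x ≤ (((zz z₁ z₂ v).norm - p : ℤ) : ℝ) ∧
      (((zz z₁ z₂ v).norm - p : ℤ) : ℝ) ≤ 3 * x} := ⟨_, rfl⟩
  rw [← hBd]
  have hBf : B.Finite := by
    refine Set.Finite.subset (finite_zz z₁ z₂ him0 (3 * x + p)) ?_
    intro v hv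
    rw [hBd] at hv
    have h1 := hv.2.2.2
    push_cast at h1
    show ((zz z₁ z₂ v).norm : ℝ) ≤ 3 * x + p
    linarith
  obtain ⟨F, hF⟩ : ∃ F, F = hBf.toFinset := ⟨_, rfl⟩
  have hFm : ∀ v, v ∈ F ↔ v ∈ B := by intro v; rw [hF, Set.Finite.mem_toFinset]
  have hcard : B.ncard = F.card := by rw [hF, Set.ncard_eq_toFinset_card _ hBf]
  rw [hcard]
  obtain ⟨M, hM⟩ : ∃ M, M = (ms x q m₁).filter (fun m => (N * m - p).Prime ∧
    x ≤ ((N * m - p : ℕ) : ℝ) ∧ ((N * m - p : ℕ) : ℝ) ≤ 3 * x) := ⟨_, rfl⟩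
  rw [← hM]
  have h1 : ∀ m ∈ M, (rp m : ℝ) ≤
      ((F.filter (fun v => (zz z₁ z₂ v).norm = ((N * m : ℕ) : ℤ))).card : ℝ) := by
    intro m hm
    rw [hM, mem_filter] at hm
    obtain ⟨hm1, hm2, hm3, hm4⟩ := hm
    have hm5 : m % q = m₁ % q := (mem_filter.1 hm1).2
    refine Nat.cast_le.2 ((hrp m hm5).trans ?_)
    rw [← Set.ncard_coe_finset]
    refine Set.ncard_le_ncard ?_ (finite_toSet _)
    rintro v ⟨hv1, hv2⟩
    rw [mem_coe, mem_filter, hFm, hBd]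
    have h2 := hm2.pos
    have h3 : (zz z₁ z₂ v).norm - p = ((N * m - p : ℕ) : ℤ) := by
      rw [hv2]; omega
    refine ⟨⟨hv1, ?_, ?_, ?_⟩, hv2⟩
    · rw [h3, Int.toNat_natCast]; exact hm2
    · rw [h3, Int.cast_natCast]; exact hm3
    · rw [h3, Int.cast_natCast]; exact hm4
  refine (sum_le_sum h1).trans ?_
  rw [← Nat.cast_sum]
  refine Nat.cast_le.2 ?_
  rw [← card_biUnion]
  · exact card_le_card (biUnion_subset.2 fun m _ => filter_subset _ _)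
  · intro m _ m' _ hne
    rw [Function.onFun, disjoint_left]
    intro v hv hv'
    have h2 := (mem_filter.1 hv).2
    have h3 := (mem_filter.1 hv').2
    rw [h2] at h3
    have h4 : N * m = N * m' := by exact_mod_cast h3
    exact hne (Nat.eq_of_mul_eq_mul_left hyp.hN h4)

end Pool.Agent.Helper15.AB
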