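import Mathlib
import Pool.Agent.Helper15.AB.StBV
import Pool.Agent.Helper15.AB.StMid

/-!
# Project AB, module BS: lower bound for shifted primes weighted by primitive representations
-/

set_option autoImplicit false

namespace Pool.Agent.Helper15.AB

open Finset ArithmeticFunction Filter Topology

namespace hBS

/-! ### The functions `FF` and `Fst` -/

theorem abs_c4_le (d : ℕ) : |c4 d| ≤ 1 := by
  rw [c4]
  split_ifs <;> simp

/-- the character modulo 4 with complex values -/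
noncomputable def chi : DirichletCharacter ℂ 4 := ZMod.χ₄.ringHomComp (Int.castRingHom ℂ)

theorem chi_sq : chi ^ 2 = 1 := by
  rw [chi, MulChar.ringHomComp_pow, ZMod.isQuadratic_χ₄.sq_eq_one, MulChar.ringHomComp_one]

theorem chi_nat (d : ℕ) : chi (d : ZMod 4) = ((c4 d : ℝ) : ℂ) := by
  rw [chi, MulChar.ringHomComp_apply, ZMod.χ₄_nat_eq_if_mod_four, c4]
  have h4 : d % 4 < 4 := Nat.mod_lt _ (by norm_num)
  have h2 : d % 2 = (d % 4) % 2 := by omega
  rw [h2]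
  interval_cases h : d % 4 <;> simp

theorem FF_nonneg (m : ℕ) : 0 ≤ FF m := by
  have h := DirichletCharacter.zetaMul_nonneg chi_sq m
  rcases Nat.eq_zero_or_pos m with rfl | hm
  · simp [FF]
  have h1 : DirichletCharacter.zetaMul chi m = ((FF m : ℝ) : ℂ) := by
    rw [DirichletCharacter.zetaMul, coe_zeta_mul_apply, FF, Complex.ofReal_sum]
    refine Finset.sum_congr rfl fun d hd => ?_
    have hd0 : d ≠ 0 := (Nat.pos_of_mem_divisors hd).ne'
    simp only [toArithmeticFunction, coe_mk, hd0, if_false]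
    exact chi_nat d
  rw [h1] at h
  exact_mod_cast h

theorem abs_FF_le (m : ℕ) : |FF m| ≤ m.divisors.card := by
  rw [FF]
  refine (Finset.abs_sum_le_sum_abs _ _).trans ?_
  refine (Finset.sum_le_sum fun d _ => abs_c4_le d).trans ?_
  simp

theorem abs_moebius_le (g : ℕ) : |((moebius g : ℤ) : ℝ)| ≤ 1 := by
  have h := ArithmeticFunction.abs_moebius_le_one (n := g)
  exact_mod_cast h

theorem abs_Fst_le (m : ℕ) (hm : 1 ≤ m) : |Fst m| ≤ (m.divisors.card : ℝ) ^ 2 := by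
  rw [Fst]
  refine (Finset.abs_sum_le_sum_abs _ _).trans ?_
  have h1 : ∀ g ∈ (Icc 1 m).filter (fun g => g ^ 2 ∣ m),
      |((moebius g : ℤ) : ℝ) * FF (m / g ^ 2)| ≤ (m.divisors.card : ℝ) := by
    intro g hg
    rw [Finset.mem_filter] at hg
    rw [abs_mul]
    have h2 : |FF (m / g ^ 2)| ≤ (m.divisors.card : ℝ) := by
      refine (abs_FF_le _).trans ?_
      exact_mod_cast Finset.card_le_card
        (Nat.divisors_subset_of_dvd (by omega) (Nat.div_dvd_of_dvd hg.2))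
    calc |((moebius g : ℤ) : ℝ)| * |FF (m / g ^ 2)| ≤ 1 * (m.divisors.card : ℝ) :=
          mul_le_mul (abs_moebius_le g) h2 (abs_nonneg _) zero_le_one
      _ = _ := one_mul _
  refine (Finset.sum_le_sum h1).trans ?_
  rw [Finset.sum_const, nsmul_eq_mul, sq]
  refine mul_le_mul_of_nonneg_right ?_ (Nat.cast_nonneg _)
  have h3 : (Icc 1 m).filter (fun g => g ^ 2 ∣ m) ⊆ m.divisors := by
    intro g hg
    rw [Finset.mem_filter] at hg
    rw [Nat.mem_divisors]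
    exact ⟨(dvd_pow_self g (by norm_num)).trans hg.2, by omega⟩
  exact_mod_cast Finset.card_le_card h3

/-! ### The weights `lam` -/

variable {w : ℝ → ℝ}

theorem lam_nonneg (hw : IsW w) (x : ℝ) (N p m : ℕ) : 0 ≤ lam w x N p m :=
  mul_nonneg vonMangoldt_nonneg (hw.nonneg _)

theorem lam_supp (hw : IsW w) {x : ℝ} (hx : 0 < x) {N p m : ℕ} (h : lam w x N p m ≠ 0) :
    1 ≤ N * m - p ∧ x ≤ ((N * m - p : ℕ) : ℝ) ∧ ((N * m - p : ℕ) : ℝ) ≤ 3 * x := by
  rw [lam] at h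
  set n := N * m - p with hn
  have hn0 : n ≠ 0 := by
    rintro h0
    rw [h0] at h
    simp at h
  have hn1 : (0 : ℝ) < n := by exact_mod_cast Nat.pos_of_ne_zero hn0
  have h1 : Real.log ((n : ℝ) / x) ∈ Set.Icc (0 : ℝ) 1 := by
    by_contra hc
    exact h (by rw [hw.supp _ hc, mul_zero])
  have h2 : 0 < (n : ℝ) / x := div_pos hn1 hx
  refine ⟨Nat.pos_of_ne_zero hn0, ?_, ?_⟩
  · have := (Real.log_nonneg_iff h2).1 h1.1
    rwa [one_le_div hx] at this
  · have h3 := (Real.log_le_iff_le_exp h2).1 h1.2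
    rw [div_le_iff₀ hx] at h3
    have h4 := Real.exp_one_lt_d9
    nlinarith

theorem lam_le (hw : IsW w) {x : ℝ} (hx : 1 ≤ x) (N p m : ℕ) :
    lam w x N p m ≤ Real.log (3 * x) := by
  by_cases h : lam w x N p m = 0
  · rw [h]
    exact Real.log_nonneg (by linarith)
  · obtain ⟨h1, _, h3⟩ := lam_supp hw (by linarith) h
    rw [lam]
    have h4 : Λ (N * m - p) ≤ Real.log ((N * m - p : ℕ) : ℝ) := vonMangoldt_le_log
    have h5 : Real.log ((N * m - p : ℕ) : ℝ) ≤ Real.log (3 * x) := by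
      refine Real.log_le_log ?_ h3
      exact_mod_cast h1
    calc Λ (N * m - p) * w _ ≤ Λ (N * m - p) * 1 :=
          mul_le_mul_of_nonneg_left (hw.le_one _) vonMangoldt_nonneg
      _ ≤ _ := by rw [mul_one]; exact h4.trans h5

/-- proper prime powers -/
theorem pp_le (hw : IsW w) {x : ℝ} (hx : 1 ≤ x) (N p q m₁ : ℕ) (hN : 1 ≤ N) :
    ∑ m ∈ (ms x q m₁).filter (fun m => ¬ (N * m - p).Prime), lam w x N p m ≤
      Chebyshev.psi (3 * x) - Chebyshev.theta (3 * x) := by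
  rw [Chebyshev.psi_sub_theta_eq_sum_not_prime]
  rw [← Finset.sum_filter_ne_zero]
  set A := ((ms x q m₁).filter (fun m => ¬ (N * m - p).Prime)).filter
    (fun m => lam w x N p m ≠ 0) with hA
  have hsupp : ∀ m ∈ A, 1 ≤ N * m - p ∧ x ≤ ((N * m - p : ℕ) : ℝ) ∧
      ((N * m - p : ℕ) : ℝ) ≤ 3 * x := by
    intro m hm
    exact lam_supp hw (by linarith) (Finset.mem_filter.1 hm).2
  have h1 : ∑ m ∈ A, lam w x N p m ≤ ∑ m ∈ A, Λ (N * m - p) := by
    refine Finset.sum_le_sum fun m _ => ?_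
    rw [lam]
    exact mul_le_of_le_one_right vonMangoldt_nonneg (hw.le_one _)
  refine h1.trans ?_
  have hinj : Set.InjOn (fun m => N * m - p) (A : Set ℕ) := by
    intro a ha b hb hab
    have h2 := (hsupp a ha).1
    have h3 := (hsupp b hb).1
    simp only at hab
    have h4 : N * a = N * b := by omega
    exact Nat.eq_of_mul_eq_mul_left (by omega) h4
  rw [← Finset.sum_image (f := fun n => Λ n) hinj]
  refine Finset.sum_le_sum_of_subset_of_nonneg ?_ (fun _ _ _ => vonMangoldt_nonneg)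
  intro n hn
  rw [Finset.mem_image] at hn
  obtain ⟨m, hm, rfl⟩ := hn
  obtain ⟨h2, _, h3⟩ := hsupp m hm
  rw [hA, Finset.mem_filter, Finset.mem_filter] at hm
  rw [Finset.mem_filter, Finset.mem_Ioc]
  exact ⟨⟨by omega, Nat.le_floor h3⟩, hm.1.2⟩

/-! ### Exchange of summation -/

theorem mem_ms {x : ℝ} {q m₁ m : ℕ} : m ∈ ms x q m₁ ↔ (1 ≤ m ∧ m ≤ ⌊4 * x⌋₊) ∧
    m % q = m₁ % q := by
  rw [ms, Finset.mem_filter, Finset.mem_Icc]

theorem coprime_of_mod {q m₁ m : ℕ} (hm : Nat.Coprime m₁ q) (h : m % q = m₁ % q) :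
    Nat.Coprime m q := by
  have h1 : m ≡ m₁ [MOD q] := h
  exact (h1.gcd_eq).trans hm

theorem exchange (x : ℝ) (N p q m₁ : ℕ) (hm : Nat.Coprime m₁ q) :
    ∑ m ∈ ms x q m₁, lam w x N p m * Fst m =
      ∑ g ∈ (Icc 1 ⌊4 * x⌋₊).filter (fun g => Nat.Coprime g q), ((moebius g : ℤ) : ℝ) *
        ∑ m ∈ (ms x q m₁).filter (fun m => g ^ 2 ∣ m), lam w x N p m * FF (m / g ^ 2) := by
  have h1 : ∀ m ∈ ms x q m₁, lam w x N p m * Fst m =
      ∑ g ∈ (Icc 1 ⌊4 * x⌋₊).filter (fun g => Nat.Coprime g q),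
        if g ^ 2 ∣ m then ((moebius g : ℤ) : ℝ) * (lam w x N p m * FF (m / g ^ 2)) else 0 := by
    intro m hm'
    rw [mem_ms] at hm'
    rw [← Finset.sum_filter, Fst, Finset.mul_sum]
    have h2 : (Icc 1 m).filter (fun g => g ^ 2 ∣ m) =
        ((Icc 1 ⌊4 * x⌋₊).filter (fun g => Nat.Coprime g q)).filter (fun g => g ^ 2 ∣ m) := by
      ext g
      simp only [Finset.mem_filter, Finset.mem_Icc]
      constructor
      · rintro ⟨⟨h3, h4⟩, h5⟩
        have h6 : g ∣ m := (dvd_pow_self g (by norm_num)).trans h5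
        exact ⟨⟨⟨h3, by omega⟩, Nat.Coprime.coprime_dvd_left h6 (coprime_of_mod hm hm'.2)⟩, h5⟩
      · rintro ⟨⟨⟨h3, h4⟩, _⟩, h5⟩
        have h6 : g ∣ m := (dvd_pow_self g (by norm_num)).trans h5
        exact ⟨⟨h3, Nat.le_of_dvd (by omega) h6⟩, h5⟩
    rw [h2]
    refine Finset.sum_congr rfl fun g _ => ?_
    ring
  rw [Finset.sum_congr rfl h1, Finset.sum_comm]
  refine Finset.sum_congr rfl fun g _ => ?_
  rw [← Finset.sum_filter, Finset.mul_sum]

theorem inner_eq (hw : IsW w) {x : ℝ} (N p q m₁ m₂ g : ℕ) (hN : 1 ≤ N) (hg : 1 ≤ g)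
    (hx : (p : ℝ) < x) (hgq : Nat.Coprime g q) (hm₂ : g ^ 2 * m₂ ≡ m₁ [MOD q]) :
    ∑ m ∈ (ms x q m₁).filter (fun m => g ^ 2 ∣ m), lam w x N p m * FF (m / g ^ 2) =
      ∑ m ∈ ms x q m₂, lam w x (N * g ^ 2) p m * FF m := by
  have hx0 : 0 < x := lt_of_le_of_lt (Nat.cast_nonneg p) hx
  have hg2 : 0 < g ^ 2 := by positivity
  have hcop : Nat.Coprime q (g ^ 2) := (hgq.pow_left 2).symm
  -- the other terms vanish
  have h1 : ∑ m ∈ ms x q m₂, lam w x (N * g ^ 2) p m * FF m =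
      ∑ m ∈ (ms x q m₂).filter (fun m => g ^ 2 * m ≤ ⌊4 * x⌋₊),
        lam w x (N * g ^ 2) p m * FF m := by
    symm
    refine Finset.sum_filter_of_ne ?_
    intro m hm hne
    have h2 : lam w x (N * g ^ 2) p m ≠ 0 := left_ne_zero_of_mul hne
    obtain ⟨_, _, h3⟩ := lam_supp hw hx0 h2
    refine Nat.le_floor ?_
    have h4 : N * g ^ 2 * m ≤ (N * g ^ 2 * m - p) + p := by omega
    have h5 : g ^ 2 * m ≤ N * g ^ 2 * m := by
      rw [mul_assoc]
      exact Nat.le_mul_of_pos_left _ (by omega)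
    have h6 : ((g ^ 2 * m : ℕ) : ℝ) ≤ ((N * g ^ 2 * m - p : ℕ) : ℝ) + p := by
      exact_mod_cast h5.trans h4
    linarith
  rw [h1]
  refine Finset.sum_nbij' (fun m => m / g ^ 2) (fun m => g ^ 2 * m) ?_ ?_ ?_ ?_ ?_
  · intro m hm
    rw [Finset.mem_filter, mem_ms] at hm
    obtain ⟨⟨⟨h2, h3⟩, h4⟩, e, rfl⟩ := hm
    have h5 : g ^ 2 * e / g ^ 2 = e := Nat.mul_div_cancel_left _ hg2
    simp only [Finset.mem_filter, mem_ms, h5]
    have he : 1 ≤ e := by
      rcases Nat.eq_zero_or_pos e with rfl | h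
      · simp at h2
      · exact h
    refine ⟨⟨⟨he, ?_⟩, ?_⟩, h3⟩
    · exact (Nat.le_mul_of_pos_left _ hg2).trans h3
    · have h6 : g ^ 2 * e ≡ g ^ 2 * m₂ [MOD q] := (show g ^ 2 * e ≡ m₁ [MOD q] from h4).trans
        hm₂.symm
      exact Nat.ModEq.cancel_left_of_coprime hcop h6
  · intro m hm
    rw [Finset.mem_filter, mem_ms] at hm
    simp only [Finset.mem_filter, mem_ms]
    refine ⟨⟨⟨?_, hm.2⟩, ?_⟩, dvd_mul_right _ _⟩
    · exact Nat.mul_pos hg2 hm.1.1.1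
    · have h6 : m ≡ m₂ [MOD q] := hm.1.2
      exact (h6.mul_left (g ^ 2)).trans hm₂
  · intro m hm
    rw [Finset.mem_filter] at hm
    exact Nat.mul_div_cancel' hm.2
  · intro m _
    exact Nat.mul_div_cancel_left _ hg2
  · intro m hm
    rw [Finset.mem_filter] at hm
    obtain ⟨_, e, rfl⟩ := hm
    rw [Nat.mul_div_cancel_left _ hg2, lam, lam, mul_assoc N (g ^ 2) e]

/-- data for `N g²` -/
theorem hyp_g {N p q m₁ g : ℕ} (h : Hyp N p q m₁) (hg : 1 ≤ g) (hgq : Nat.Coprime g q) :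
    ∃ m₂ : ℕ, g ^ 2 * m₂ ≡ m₁ [MOD q] ∧ Hyp (N * g ^ 2) p q m₂ := by
  have hcop : Nat.Coprime (g ^ 2) q := hgq.pow_left 2
  have hq4 : 4 ≤ q := Nat.le_of_dvd h.hq1 h.hq
  obtain ⟨t, ht⟩ := Nat.exists_mul_mod_eq_one_of_coprime hcop (by omega)
  have ht' : g ^ 2 * t ≡ 1 [MOD q] := by
    rw [Nat.ModEq, ht.2, Nat.mod_eq_of_lt (by omega)]
  have hmod : g ^ 2 * (t * m₁) ≡ m₁ [MOD q] := by
    have := ht'.mul_right m₁
    rwa [one_mul, mul_assoc] at this
  refine ⟨t * m₁, hmod, ?_⟩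
  have hcm : Nat.Coprime (g ^ 2 * (t * m₁)) q := (hmod.gcd_eq).trans h.hm
  refine
    { hp := h.hp
      hp2 := h.hp2
      hN := Nat.mul_pos h.hN (by positivity)
      hNp := ?_
      hq := h.hq
      hq1 := h.hq1
      hpq := h.hpq
      hm := Nat.Coprime.coprime_mul_left hcm
      hm4 := ?_
      hc := ?_ }
  · intro hd
    rcases (h.hp.dvd_mul).1 hd with h1 | h1
    · exact h.hNp h1
    · have h2 : p ∣ g := h.hp.dvd_of_dvd_pow h1
      have h3 : p ∣ Nat.gcd g q := Nat.dvd_gcd h2 h.hpq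
      rw [hgq] at h3
      exact h.hp.one_lt.ne' (Nat.dvd_one.1 h3)
  · have h4 : g ^ 2 * (t * m₁) ≡ m₁ [MOD 4] := hmod.of_dvd h.hq
    have h5 : g % 2 = 1 := by
      have h6 : Nat.Coprime g 2 := Nat.Coprime.coprime_dvd_right ((by norm_num : 2 ∣ 4).trans h.hq) hgq
      exact Nat.odd_iff.1 (Nat.coprime_two_right.1 h6)
    have h7 : g ^ 2 ≡ 1 [MOD 4] := by
      have h8 : g % 4 = 1 ∨ g % 4 = 3 := by omega
      rcases h8 with h8 | h8
      · exact ((show g ≡ 1 [MOD 4] from h8).pow 2)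
      · exact ((show g ≡ 3 [MOD 4] from h8).pow 2)
    have h9 : t * m₁ ≡ m₁ [MOD 4] := by
      have := (h7.mul_right (t * m₁)).symm.trans h4
      rwa [one_mul] at this
    rw [Nat.ModEq] at h9
    rw [h9]
    exact h.hm4
  · have h10 : (q : ℤ) ∣ ((N * g ^ 2 : ℕ) : ℤ) * ((t * m₁ : ℕ) : ℤ) - p - ((N : ℤ) * m₁ - p) := by
      have h11 : (q : ℤ) ∣ (m₁ : ℤ) - ((g ^ 2 * (t * m₁) : ℕ) : ℤ) := (Nat.modEq_iff_dvd).1 hmod
      have h12 : ((N * g ^ 2 : ℕ) : ℤ) * ((t * m₁ : ℕ) : ℤ) - p - ((N : ℤ) * m₁ - p) =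
          -(N : ℤ) * ((m₁ : ℤ) - ((g ^ 2 * (t * m₁) : ℕ) : ℤ)) := by
        push_cast
        ring
      rw [h12]
      exact h11.mul_left _
    obtain ⟨e, he⟩ := h10
    have h13 : ((N * g ^ 2 : ℕ) : ℤ) * ((t * m₁ : ℕ) : ℤ) - p = ((N : ℤ) * m₁ - p) + q * e := by
      linarith
    rw [h13]
    exact h.hc.add_mul_left_left e

/-- the contribution of the square divisors -/
theorem main_sum (hw : IsW w) {x δ c cK T : ℝ} {N p q m₁ G : ℕ} (hyp : Hyp N p q m₁)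
    (hx1 : 1 ≤ x) (hG1 : 1 ≤ G) (hGx : G ≤ ⌊4 * x⌋₊)
    (hc : 0 < c) (hcK : 0 < cK) (hδ : δ = c * cK) (hth : c * x ≤ Th w x)
    (hK : cK ≤ ∑ g ∈ (Icc 1 G).filter (fun g => Nat.Coprime g q),
      ((moebius g : ℤ) : ℝ) * KK q (N * g ^ 2 * q))
    (hS : ∀ g ∈ (Icc 1 G).filter (fun g => Nat.Coprime g q),
      |∑ m ∈ (ms x q m₁).filter (fun m => g ^ 2 ∣ m), lam w x N p m * FF (m / g ^ 2) -
        2 * Th w x * KK q (N * g ^ 2 * q)| ≤ δ / (4 * G) * x)
    (hT : ∑ g ∈ (Ioc G ⌊4 * x⌋₊).filter (fun g => Nat.Coprime g q),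
      ∑ m ∈ (ms x q m₁).filter (fun m => g ^ 2 ∣ m), lam w x N p m * FF (m / g ^ 2) ≤ T)
    (hT' : T ≤ δ / 4 * x) :
    3 / 2 * δ * x ≤ ∑ m ∈ ms x q m₁, lam w x N p m * Fst m := by
  rw [exchange x N p q m₁ hyp.hm]
  have hδ0 : 0 < δ := by rw [hδ]; exact mul_pos hc hcK
  have hunion : (Icc 1 ⌊4 * x⌋₊).filter (fun g => Nat.Coprime g q) =
      (Icc 1 G).filter (fun g => Nat.Coprime g q) ∪
        (Ioc G ⌊4 * x⌋₊).filter (fun g => Nat.Coprime g q) := by
    ext g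
    simp only [Finset.mem_union, Finset.mem_filter, Finset.mem_Icc, Finset.mem_Ioc]
    constructor
    · rintro ⟨⟨h1, h2⟩, h3⟩
      by_cases h4 : g ≤ G
      · exact Or.inl ⟨⟨h1, h4⟩, h3⟩
      · exact Or.inr ⟨⟨by omega, h2⟩, h3⟩
    · rintro (⟨⟨h1, h2⟩, h3⟩ | ⟨⟨h1, h2⟩, h3⟩)
      · exact ⟨⟨h1, by omega⟩, h3⟩
      · exact ⟨⟨by omega, h2⟩, h3⟩
  have hdisj : Disjoint ((Icc 1 G).filter (fun g => Nat.Coprime g q))
      ((Ioc G ⌊4 * x⌋₊).filter (fun g => Nat.Coprime g q)) := by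
    rw [Finset.disjoint_left]
    intro g h1 h2
    rw [Finset.mem_filter, Finset.mem_Icc] at h1
    rw [Finset.mem_filter, Finset.mem_Ioc] at h2
    omega
  rw [hunion, Finset.sum_union hdisj]
  set I : ℕ → ℝ := fun g =>
    ∑ m ∈ (ms x q m₁).filter (fun m => g ^ 2 ∣ m), lam w x N p m * FF (m / g ^ 2) with hI
  have hI0 : ∀ g, 0 ≤ I g := fun g =>
    Finset.sum_nonneg fun m _ => mul_nonneg (lam_nonneg hw x N p m) (FF_nonneg _)
  have h1 : 2 * Th w x * cK - δ / 4 * x ≤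
      ∑ g ∈ (Icc 1 G).filter (fun g => Nat.Coprime g q), ((moebius g : ℤ) : ℝ) * I g := by
    have h2 : ∀ g ∈ (Icc 1 G).filter (fun g => Nat.Coprime g q),
        2 * Th w x * (((moebius g : ℤ) : ℝ) * KK q (N * g ^ 2 * q)) - δ / (4 * G) * x ≤
          ((moebius g : ℤ) : ℝ) * I g := by
      intro g hg
      have h3 := hS g hg
      have h4 : |((moebius g : ℤ) : ℝ) * (I g - 2 * Th w x * KK q (N * g ^ 2 * q))| ≤
          δ / (4 * G) * x := by
        rw [abs_mul]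
        calc _ ≤ 1 * |I g - 2 * Th w x * KK q (N * g ^ 2 * q)| :=
              mul_le_mul_of_nonneg_right (abs_moebius_le g) (abs_nonneg _)
          _ ≤ _ := by rw [one_mul]; exact h3
      have h5 := (abs_le.1 h4).1
      nlinarith
    refine le_trans ?_ (Finset.sum_le_sum h2)
    rw [Finset.sum_sub_distrib, ← Finset.mul_sum, Finset.sum_const, nsmul_eq_mul]
    have h6 : (((Icc 1 G).filter (fun g => Nat.Coprime g q)).card : ℝ) ≤ G := by
      have := Finset.card_filter_le (Icc 1 G) (fun g => Nat.Coprime g q)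
      rw [Nat.card_Icc] at this
      exact_mod_cast (by omega : _ ≤ G)
    have hGpos : (0 : ℝ) < G := by exact_mod_cast hG1
    have h7 : (((Icc 1 G).filter (fun g => Nat.Coprime g q)).card : ℝ) * (δ / (4 * G) * x) ≤
        δ / 4 * x := by
      calc _ ≤ (G : ℝ) * (δ / (4 * G) * x) :=
            mul_le_mul_of_nonneg_right h6 (by positivity)
        _ = _ := by field_simp
    have hTh : 0 ≤ Th w x := le_trans (by positivity) hth
    have h8 : 2 * Th w x * cK ≤ 2 * Th w x *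
        ∑ g ∈ (Icc 1 G).filter (fun g => Nat.Coprime g q),
          ((moebius g : ℤ) : ℝ) * KK q (N * g ^ 2 * q) :=
      mul_le_mul_of_nonneg_left hK (by positivity)
    linarith
  have h2 : -(δ / 4 * x) ≤
      ∑ g ∈ (Ioc G ⌊4 * x⌋₊).filter (fun g => Nat.Coprime g q), ((moebius g : ℤ) : ℝ) * I g := by
    have h3 : ∀ g ∈ (Ioc G ⌊4 * x⌋₊).filter (fun g => Nat.Coprime g q),
        -I g ≤ ((moebius g : ℤ) : ℝ) * I g := by
      intro g _
      have h4 := (abs_le.1 (abs_moebius_le g)).1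
      nlinarith [hI0 g]
    refine le_trans ?_ (Finset.sum_le_sum h3)
    rw [Finset.sum_neg_distrib]
    linarith
  have h3 : 2 * (c * x) * cK ≤ 2 * Th w x * cK :=
    mul_le_mul_of_nonneg_right (by linarith) hcK.le
  have h4 : 2 * (c * x) * cK = 2 * δ * x := by rw [hδ]; ring
  linarith

/-- the proper prime powers are negligible -/
theorem error_small (K δ : ℝ) (hδ : 0 < δ) : ∀ᶠ x : ℝ in atTop,
    (K * (4 * x) ^ (1 / 8 : ℝ)) ^ 2 * (|K| * √(3 * x)) ≤ δ * x := by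
  have h1 : Tendsto (fun x : ℝ => x ^ (1 / 4 : ℝ)) atTop atTop := tendsto_rpow_atTop (by norm_num)
  set L : ℝ := K ^ 2 * (4 : ℝ) ^ (1 / 4 : ℝ) * (|K| * √3) with hL
  filter_upwards [h1.eventually_ge_atTop (L / δ), eventually_gt_atTop 0] with x hx hx0
  have h2 : (K * (4 * x) ^ (1 / 8 : ℝ)) ^ 2 * (|K| * √(3 * x)) = L * (x ^ (3 / 4 : ℝ)) := by
    have e1 : ((4 * x) ^ (1 / 8 : ℝ)) ^ 2 = (4 : ℝ) ^ (1 / 4 : ℝ) * x ^ (1 / 4 : ℝ) := by
      rw [← Real.rpow_natCast, ← Real.rpow_mul (by positivity), Real.mul_rpow (by norm_num) hx0.le]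
      norm_num
    have e2 : √(3 * x) = √3 * x ^ (1 / 2 : ℝ) := by
      rw [Real.sqrt_mul (by norm_num), Real.sqrt_eq_rpow x]
    have e3 : x ^ (3 / 4 : ℝ) = x ^ (1 / 4 : ℝ) * x ^ (1 / 2 : ℝ) := by
      rw [← Real.rpow_add hx0]
      norm_num
    rw [mul_pow, e1, e2, e3, hL]
    ring
  rw [h2]
  have h3 : x = x ^ (1 / 4 : ℝ) * x ^ (3 / 4 : ℝ) := by
    rw [← Real.rpow_add hx0]
    norm_num
  have h4 : L ≤ δ * x ^ (1 / 4 : ℝ) := by
    rw [div_le_iff₀ hδ] at hx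
    linarith
  calc L * x ^ (3 / 4 : ℝ) ≤ δ * x ^ (1 / 4 : ℝ) * x ^ (3 / 4 : ℝ) :=
        mul_le_mul_of_nonneg_right h4 (by positivity)
    _ = δ * x := by rw [mul_assoc, ← h3]

end hBS

open hBS in
theorem hBS (hWE : StWE) (hTH : StTH) (hSG : StSG) (hK2 : StK2) (hTL : StTL) (hRP : StRP)
    (hDB : StDB) : StBS := by
  intro N p q m₁ hyp hNq
  obtain ⟨w, hw⟩ := hWE
  obtain ⟨c, _, x₁, hc, _, _, hth⟩ := hTH w hw
  obtain ⟨cK, G₀, hcK, hK⟩ := hK2 N q hyp.hN hyp.hq hyp.hq1 hNq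
  obtain ⟨CT, hCT, hTL'⟩ := hTL N p q m₁ hyp w hw
  obtain ⟨D, hD1, hD⟩ := hDB (1 / 8) (by norm_num)
  obtain ⟨C₂, hC₂⟩ := Chebyshev.psi_sub_theta_le_mul_sqrt
  obtain ⟨δ, hδ⟩ : ∃ δ, δ = c * cK := ⟨_, rfl⟩
  have hδ0 : 0 < δ := by rw [hδ]; exact mul_pos hc hcK
  obtain ⟨G, hG⟩ := exists_nat_ge (max (G₀ : ℝ) (max 1 (4 * CT / δ)))
  have hG0 : G₀ ≤ G := by exact_mod_cast (le_max_left _ _).trans hG
  have hG1 : 1 ≤ G := by exact_mod_cast ((le_max_left _ _).trans (le_max_right _ _)).trans hG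
  have hG2 : 4 * CT / δ ≤ G := ((le_max_right _ _).trans (le_max_right _ _)).trans hG
  have hGpos : (0 : ℝ) < G := by exact_mod_cast hG1
  obtain ⟨x₂, hx₂⟩ := hTL' G hG1
  have hSe : ∀ᶠ x : ℝ in atTop, ∀ g ∈ (Icc 1 G).filter (fun g => Nat.Coprime g q),
      |∑ m ∈ (ms x q m₁).filter (fun m => g ^ 2 ∣ m), lam w x N p m * FF (m / g ^ 2) -
        2 * Th w x * KK q (N * g ^ 2 * q)| ≤ δ / (4 * G) * x := by
    rw [Filter.eventually_all_finset]
    intro g hg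
    rw [Finset.mem_filter, Finset.mem_Icc] at hg
    obtain ⟨m₂, hm₂, hyp₂⟩ := hyp_g hyp hg.1.1 hg.2
    obtain ⟨x₀, hx₀⟩ := hSG (N * g ^ 2) p q m₂ hyp₂ w hw (δ / (4 * G)) (by positivity)
    filter_upwards [eventually_ge_atTop x₀, eventually_gt_atTop (p : ℝ)] with x h1 h2
    rw [inner_eq hw N p q m₁ m₂ g hyp.hN hg.1.1 h2 hg.2 hm₂]
    exact hx₀ x h1
  have hEe := error_small (max D |C₂|) (δ / 4) (by positivity)
  have hev : ∀ᶠ x : ℝ in atTop, δ / 2 * x / Real.log x ≤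
      ∑ m ∈ (ms x q m₁).filter (fun m => (N * m - p).Prime ∧
        x ≤ ((N * m - p : ℕ) : ℝ) ∧ ((N * m - p : ℕ) : ℝ) ≤ 3 * x), (rp m : ℝ) := by
    filter_upwards [hSe, hEe, eventually_ge_atTop x₁, eventually_ge_atTop x₂,
      eventually_gt_atTop (p : ℝ), eventually_ge_atTop 3, eventually_ge_atTop (G : ℝ)]
      with x h1 h2 h3 h4 h5 h6 h7
    have hx1 : (1 : ℝ) ≤ x := by linarith
    have hx0 : (0 : ℝ) < x := by linarith
    have hGx : G ≤ ⌊4 * x⌋₊ := Nat.le_floor (by linarith)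
    have hmain := main_sum hw hyp hx1 hG1 hGx hc hcK hδ (hth x h3).1 (hK G hG0) h1 (hx₂ x h4) (by
      have : CT / G ≤ δ / 4 := by
        rw [div_le_iff₀ hδ0] at hG2
        rw [div_le_div_iff₀ hGpos (by norm_num)]
        linarith
      exact mul_le_mul_of_nonneg_right this hx0.le)
    rw [← Finset.sum_filter_add_sum_filter_not (ms x q m₁) (fun m => (N * m - p).Prime)] at hmain
    -- proper prime powers
    have hpp : ∑ m ∈ (ms x q m₁).filter (fun m => ¬ (N * m - p).Prime),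
        lam w x N p m * Fst m ≤ δ / 4 * x := by
      refine le_trans ?_ h2
      have h8 : ∀ m ∈ (ms x q m₁).filter (fun m => ¬ (N * m - p).Prime),
          lam w x N p m * Fst m ≤
            lam w x N p m * (max D |C₂| * (4 * x) ^ (1 / 8 : ℝ)) ^ 2 := by
        intro m hm
        rw [Finset.mem_filter, mem_ms] at hm
        refine mul_le_mul_of_nonneg_left ?_ (lam_nonneg hw x N p m)
        refine (le_abs_self _).trans ((abs_Fst_le m hm.1.1.1).trans ?_)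
        refine pow_le_pow_left₀ (Nat.cast_nonneg _) ?_ 2
        refine (hD m hm.1.1.1).trans ?_
        have h9 : (m : ℝ) ≤ 4 * x := (Nat.cast_le.2 hm.1.1.2).trans (Nat.floor_le (by positivity))
        refine mul_le_mul (le_max_left _ _) ?_ (by positivity) (by positivity)
        exact Real.rpow_le_rpow (Nat.cast_nonneg _) h9 (by norm_num)
      refine (Finset.sum_le_sum h8).trans ?_
      rw [← Finset.sum_mul, mul_comm]
      refine mul_le_mul_of_nonneg_left ?_ (by positivity)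
      refine (pp_le hw hx1 N p q m₁ hyp.hN).trans ((hC₂ _).trans ?_)
      refine mul_le_mul_of_nonneg_right ?_ (Real.sqrt_nonneg _)
      exact (le_abs_self _).trans ((le_max_right _ _).trans (le_abs_self _))
    -- the primes
    have hprime : ∑ m ∈ (ms x q m₁).filter (fun m => (N * m - p).Prime), lam w x N p m * Fst m ≤
        Real.log (3 * x) * ∑ m ∈ (ms x q m₁).filter (fun m => (N * m - p).Prime ∧
          x ≤ ((N * m - p : ℕ) : ℝ) ∧ ((N * m - p : ℕ) : ℝ) ≤ 3 * x), (rp m : ℝ) := by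
      rw [← Finset.filter_filter, Finset.mul_sum]
      conv_rhs => rw [Finset.sum_filter]
      refine Finset.sum_le_sum fun m hm => ?_
      rw [Finset.mem_filter, mem_ms] at hm
      by_cases h8 : lam w x N p m = 0
      · rw [h8, zero_mul]
        split_ifs
        · exact mul_nonneg (Real.log_nonneg (by linarith)) (Nat.cast_nonneg _)
        · exact le_rfl
      · obtain ⟨_, h9, h10⟩ := lam_supp hw hx0 h8
        rw [if_pos ⟨h9, h10⟩]
        have hodd : m % 2 = 1 := by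
          have e1 : m % 4 = m₁ % 4 := (show m ≡ m₁ [MOD q] from hm.1.2).of_dvd hyp.hq
          have e2 := hyp.hm4
          omega
        calc lam w x N p m * Fst m ≤ lam w x N p m * rp m :=
              mul_le_mul_of_nonneg_left (hRP m hodd) (lam_nonneg hw x N p m)
          _ ≤ Real.log (3 * x) * rp m :=
              mul_le_mul_of_nonneg_right (lam_le hw hx1 N p m) (Nat.cast_nonneg _)
    have hlog : 0 < Real.log x := Real.log_pos (by linarith)
    have hlog3 : Real.log (3 * x) ≤ 2 * Real.log x := by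
      rw [Real.log_mul (by norm_num) hx0.ne']
      have := Real.log_le_log (by norm_num) h6
      linarith
    set S := ∑ m ∈ (ms x q m₁).filter (fun m => (N * m - p).Prime ∧
          x ≤ ((N * m - p : ℕ) : ℝ) ∧ ((N * m - p : ℕ) : ℝ) ≤ 3 * x), (rp m : ℝ) with hS
    have hS0 : 0 ≤ S := Finset.sum_nonneg fun m _ => Nat.cast_nonneg _
    rw [div_le_iff₀ hlog]
    have h11 : Real.log (3 * x) * S ≤ 2 * Real.log x * S := mul_le_mul_of_nonneg_right hlog3 hS0
    have h12 : 0 < δ * x := by positivity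
    nlinarith
  obtain ⟨x₀, hx₀⟩ := Filter.eventually_atTop.1 hev
  exact ⟨δ / 2, x₀, by positivity, fun x hx => hx₀ x hx⟩

end Pool.Agent.Helper15.AB
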