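import Mathlib
import Pool.Agent.Helper15.AB.StBV
import Pool.Agent.Helper2.Characters

/-!
# Module BV: assembly of the Bombieri-Vinogradov theorem with one exceptional character
-/

set_option autoImplicit false

namespace Pool.Agent.Helper15.AB

open Finset ArithmeticFunction MeasureTheory

namespace hBV

/-- the function of the primitive character -/
noncomputable def prf {q : ℕ} (χ : DirichletCharacter ℂ q) : ℕ → ℂ :=
  fun n => χ.primitiveCharacter (n : ZMod χ.conductor)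

theorem prf_inj {q : ℕ} [NeZero q] {χ ψ : DirichletCharacter ℂ q} (h : prf χ = prf ψ) : χ = ψ :=
  Pool.Agent.Helper2.prFun_injective h

theorem prim_apply {r : ℕ} [NeZero r] (ψ : DirichletCharacter ℂ r) (h : ψ.IsPrimitive) (a : ℤ) :
    ψ.primitiveCharacter (a : ZMod ψ.conductor) = ψ (a : ZMod r) := by
  have hc : ψ.conductor = r := h
  by_cases ha : IsCoprime a (r : ℤ)
  · exact ψ.primitiveCharacter_apply_of_isCoprime ha
  · rw [(DirichletCharacter.apply_eq_zero_iff _ _).mpr ha,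
      (DirichletCharacter.apply_eq_zero_iff _ _).mpr (by rwa [hc])]

theorem lift_eq {q r : ℕ} [NeZero q] [NeZero r] (χ : DirichletCharacter ℂ q)
    (ψ : DirichletCharacter ℂ r) (h : prf χ = fun n : ℕ => ψ (n : ZMod r)) :
    DirichletCharacter.changeLevel (Dvd.intro r rfl : q ∣ q * r) χ =
      DirichletCharacter.changeLevel (Dvd.intro_left q rfl : r ∣ q * r) ψ := by
  have : NeZero (q * r) := ⟨Nat.mul_ne_zero (NeZero.ne q) (NeZero.ne r)⟩
  apply MulChar.ext
  intro a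
  have hc : (a : ZMod (q * r)).val.Coprime (q * r) := ZMod.val_coe_unit_coprime a
  set n : ℕ := (a : ZMod (q * r)).val with hn
  have ha : (a : ZMod (q * r)) = ((n : ℤ) : ZMod (q * r)) := by
    rw [hn]
    simp
  have h1 : IsCoprime (n : ℤ) ((q * r : ℕ) : ℤ) := Nat.isCoprime_iff_coprime.2 hc
  have h2 : IsCoprime (n : ℤ) (q : ℤ) :=
    Nat.isCoprime_iff_coprime.2 (Nat.Coprime.coprime_mul_right_right hc)
  rw [ha, DirichletCharacter.changeLevel_eq_cast_of_dvd' _ _ h1,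
    DirichletCharacter.changeLevel_eq_cast_of_dvd' _ _ h1,
    ← χ.primitiveCharacter_apply_of_isCoprime h2]
  have h3 := congrFun h n
  unfold prf at h3
  simpa using h3

theorem dvd_of_eq {q r : ℕ} [NeZero q] [NeZero r] (χ : DirichletCharacter ℂ q)
    (ψ : DirichletCharacter ℂ r) (hψ : ψ.IsPrimitive)
    (h : prf χ = fun n : ℕ => ψ (n : ZMod r)) : r ∣ q := by
  have : NeZero (q * r) := ⟨Nat.mul_ne_zero (NeZero.ne q) (NeZero.ne r)⟩
  have h1 := lift_eq χ ψ h
  have h2 := congrArg DirichletCharacter.conductor h1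
  rw [DirichletCharacter.conductor_changeLevel, DirichletCharacter.conductor_changeLevel] at h2
  have h3 : ψ.conductor = r := hψ
  rw [h3] at h2
  rw [← h2]
  exact χ.conductor_dvd_level

theorem prf_change {q r : ℕ} [NeZero q] [NeZero r] (hd : r ∣ q) (ψ : DirichletCharacter ℂ r)
    (hψ : ψ.IsPrimitive) :
    prf (DirichletCharacter.changeLevel hd ψ) = fun n : ℕ => ψ (n : ZMod r) := by
  funext n
  have h1 := DirichletCharacter.primitiveCharacter_changeLevel_apply hd ψ (n : ℤ)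
  rw [prim_apply ψ hψ] at h1
  unfold prf
  simpa using h1

theorem prf_one {q : ℕ} [NeZero q] : prf (1 : DirichletCharacter ℂ q) = fun _ => 1 := by
  funext n
  unfold prf
  rw [DirichletCharacter.primitiveCharacter_one]
  apply MulChar.one_apply
  rw [ZMod.isUnit_iff_coprime, DirichletCharacter.conductor_one]
  exact Nat.coprime_one_right n

theorem cast_emod (b : ℤ) (m d : ℕ) (hm : m ≠ 0) (hd : d ∣ m) :
    (((b % (m : ℤ)).toNat : ℕ) : ZMod d) = (b : ZMod d) := by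
  have h1 : (((b % (m : ℤ)).toNat : ℕ) : ℤ) = b % (m : ℤ) :=
    Int.toNat_of_nonneg (Int.emod_nonneg _ (by exact_mod_cast hm))
  have h2 : (((b % (m : ℤ)).toNat : ℕ) : ZMod d) = ((b % (m : ℤ) : ℤ) : ZMod d) := by
    rw [← h1]
    simp
  rw [h2, Int.emod_def]
  push_cast
  have h3 : ((m : ℕ) : ZMod d) = 0 := (ZMod.natCast_eq_zero_iff m d).2 hd
  rw [h3, zero_mul, sub_zero]

theorem val_eq {q r : ℕ} [NeZero q] [NeZero r] (χ : DirichletCharacter ℂ q)
    (ψ : DirichletCharacter ℂ r) (h : prf χ = fun n : ℕ => ψ (n : ZMod r)) (b : ℤ)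
    (hb : IsCoprime b (q : ℤ)) : χ (b : ZMod q) = ψ (b : ZMod r) := by
  rw [← χ.primitiveCharacter_apply_of_isCoprime hb]
  have h1 := congrFun h ((b % ((q * r : ℕ) : ℤ)).toNat)
  unfold prf at h1
  have hm : q * r ≠ 0 := Nat.mul_ne_zero (NeZero.ne q) (NeZero.ne r)
  rw [cast_emod b (q * r) χ.conductor hm (χ.conductor_dvd_level.trans (Dvd.intro r rfl)),
    cast_emod b (q * r) r hm (Dvd.intro_left q rfl)] at h1
  exact h1

theorem TT_one (w : ℝ → ℝ) (x : ℝ) : TT w x (fun _ => 1) = (Th w x : ℂ) := by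
  unfold TT Th
  push_cast
  simp

open Classical in
/-- the function `F` -/
noncomputable def FF1 (w : ℝ → ℝ) (x : ℝ) {r : ℕ} (ψ : DirichletCharacter ℂ r) (f : ℕ → ℂ) : ℝ :=
  if f = (fun n : ℕ => ψ (n : ZMod r)) then 0 else ‖TT w x f‖

theorem FF1_nonneg (w : ℝ → ℝ) (x : ℝ) {r : ℕ} (ψ : DirichletCharacter ℂ r) (f : ℕ → ℂ) :
    0 ≤ FF1 w x ψ f := by
  unfold FF1
  split_ifs
  · exact le_rfl
  · exact norm_nonneg _

theorem FF1_le (w : ℝ → ℝ) (x : ℝ) {r : ℕ} (ψ : DirichletCharacter ℂ r) (f : ℕ → ℂ) :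
    FF1 w x ψ f ≤ ‖TT w x f‖ := by
  unfold FF1
  split_ifs
  · exact norm_nonneg _
  · exact le_rfl

open Classical in
theorem SN_eq (F : (ℕ → ℂ) → ℝ) (q : ℕ) [NeZero q] :
    SN F q = ∑ χ ∈ (univ : Finset (DirichletCharacter ℂ q)).filter (fun χ => χ ≠ 1), F (prf χ) := by
  unfold SN
  rw [dif_neg (NeZero.ne q)]
  rfl

open Classical in
theorem SP_eq (F : (ℕ → ℂ) → ℝ) (r : ℕ) [NeZero r] :
    SP F r = ∑ ψ ∈ (univ : Finset (DirichletCharacter ℂ r)).filter (fun ψ => ψ.IsPrimitive),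
      F (fun n => ψ (n : ZMod r)) := by
  unfold SP
  rw [dif_neg (NeZero.ne r)]

open Classical in
/-- the model term as a sum over characters -/
theorem sum_ite {x : ℝ} {r₁ : ℕ} [NeZero r₁] (ψ₁ : DirichletCharacter ℂ r₁)
    (h1 : (ψ₁.IsPrimitive ∧ ψ₁ ≠ 1) ∨ (r₁.Prime ∧ x < r₁))
    (q : ℕ) [NeZero q] (hq : (q : ℝ) ≤ x) (Z : ℂ) :
    (∑ χ ∈ (univ : Finset (DirichletCharacter ℂ q)).filter (fun χ => χ ≠ 1),
      if prf χ = (fun n : ℕ => ψ₁ (n : ZMod r₁)) then Z else 0) = if r₁ ∣ q then Z else 0 := by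
  have hq0 : 0 < q := Nat.pos_of_ne_zero (NeZero.ne q)
  split_ifs with hd
  · rcases h1 with ⟨hp, hne⟩ | ⟨hp, hx⟩
    · have e := prf_change hd ψ₁ hp
      rw [Finset.sum_eq_single (DirichletCharacter.changeLevel hd ψ₁), if_pos e]
      · intro χ _ hχ
        rw [if_neg]
        intro h
        exact hχ (prf_inj (h.trans e.symm))
      · intro h
        exfalso
        apply h
        rw [mem_filter]
        exact ⟨mem_univ _, fun h' => hne ((DirichletCharacter.changeLevel_eq_one_iff hd).1 h')⟩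
    · exfalso
      have h2 : (r₁ : ℝ) ≤ q := by exact_mod_cast Nat.le_of_dvd hq0 hd
      linarith
  · apply Finset.sum_eq_zero
    intro χ _
    rw [if_neg]
    intro h
    rcases h1 with ⟨hp, hne⟩ | ⟨hp, hx⟩
    · exact hd (dvd_of_eq χ ψ₁ hp h)
    · have h2 := congrFun h r₁
      unfold prf at h2
      have h3 : ψ₁ ((r₁ : ℕ) : ZMod r₁) = 0 := by
        rw [ZMod.natCast_self]
        exact ψ₁.map_zero' hp.ne_one
      rw [h3] at h2
      have h4 : χ.conductor ≤ q := Nat.le_of_dvd hq0 χ.conductor_dvd_level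
      have h5 : χ.conductor < r₁ := by
        have : (χ.conductor : ℝ) < r₁ := lt_of_le_of_lt
          ((show (χ.conductor : ℝ) ≤ q by exact_mod_cast h4).trans hq) hx
        exact_mod_cast this
      have h6 : 0 < χ.conductor := Nat.pos_of_ne_zero χ.conductor_ne_zero
      have h7 : Nat.Coprime r₁ χ.conductor :=
        (Nat.coprime_of_lt_prime h6.ne' h5 hp)
      have h8 : χ.primitiveCharacter ((r₁ : ℤ) : ZMod χ.conductor) ≠ 0 :=
        (DirichletCharacter.apply_ne_zero_iff _ _).2 (Nat.isCoprime_iff_coprime.2 h7)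
      exact h8 (by simpa using h2)

open Classical in
/-- the bound for one modulus -/
theorem one_q {w : ℝ → ℝ} {x C : ℝ} (hOR : StOR)
    (hC : ∀ (q : ℕ) [NeZero q] (χ : DirichletCharacter ℂ q), (q : ℝ) ≤ x →
      ‖TT w x (fun n => χ (n : ZMod q)) - TT w x (prf χ)‖ ≤ C)
    {r₁ : ℕ} [NeZero r₁] (ψ₁ : DirichletCharacter ℂ r₁)
    (h1 : (ψ₁.IsPrimitive ∧ ψ₁ ≠ 1) ∨ (r₁.Prime ∧ x < r₁))
    (q : ℕ) [NeZero q] (hq : (q : ℝ) ≤ x) (b : ℤ) (hb : IsCoprime b (q : ℤ)) :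
    ‖EE w x ψ₁ q b‖ ≤ 1 / (Nat.totient q : ℝ) * SN (FF1 w x ψ₁) q + C := by
  set Z : ℂ := (starRingEnd ℂ) (ψ₁ (b : ZMod r₁)) * TT w x (fun n => ψ₁ (n : ZMod r₁)) with hZ
  set g : DirichletCharacter ℂ q → ℂ := fun χ =>
    (starRingEnd ℂ) (χ (b : ZMod q)) * TT w x (fun n => χ (n : ZMod q)) with hg
  have hq0 : 0 < q := Nat.pos_of_ne_zero (NeZero.ne q)
  have hφ : (0 : ℝ) < (Nat.totient q : ℝ) := by exact_mod_cast Nat.totient_pos.2 hq0
  have hφc : (Nat.totient q : ℂ) ≠ 0 := by exact_mod_cast hφ.ne'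
  -- splitting of the sum over the characters
  have hsplit : ∑ χ : DirichletCharacter ℂ q, g χ = g 1 +
      ∑ χ ∈ (univ : Finset (DirichletCharacter ℂ q)).filter (fun χ => χ ≠ 1), g χ := by
    rw [Finset.filter_ne', Finset.add_sum_erase _ _ (mem_univ _)]
  have hEE : EE w x ψ₁ q b = 1 / (Nat.totient q : ℂ) * ((g 1 - (Th w x : ℂ)) +
      ∑ χ ∈ (univ : Finset (DirichletCharacter ℂ q)).filter (fun χ => χ ≠ 1),
        (g χ - if prf χ = (fun n : ℕ => ψ₁ (n : ZMod r₁)) then Z else 0)) := by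
    unfold EE
    rw [hOR w x q b hb, Finset.sum_sub_distrib, sum_ite ψ₁ h1 q hq Z]
    show 1 / (Nat.totient q : ℂ) * (∑ χ : DirichletCharacter ℂ q, g χ) - _ = _
    rw [hsplit]
    ring
  have hconj : ∀ (r : ℕ) (χ : DirichletCharacter ℂ r) (a : ZMod r),
      ‖(starRingEnd ℂ) (χ a)‖ ≤ 1 := by
    intro r χ a
    rw [Complex.norm_conj]
    exact χ.norm_le_one a
  -- the principal character
  have hp : ‖g 1 - (Th w x : ℂ)‖ ≤ C := by
    have e1 := hC q (1 : DirichletCharacter ℂ q) hq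
    rw [prf_one, TT_one] at e1
    have e2 : (1 : DirichletCharacter ℂ q) (b : ZMod q) = 1 := by
      apply MulChar.one_apply
      rw [← ZMod.coe_unitOfIsCoprime b hb]
      exact Units.isUnit _
    have e3 : g 1 = TT w x (fun n => (1 : DirichletCharacter ℂ q) (n : ZMod q)) := by
      rw [hg]
      simp only
      rw [e2, map_one, one_mul]
    rw [e3]
    exact e1
  -- the other characters
  have ho : ∀ χ : DirichletCharacter ℂ q,
      ‖g χ - if prf χ = (fun n : ℕ => ψ₁ (n : ZMod r₁)) then Z else 0‖ ≤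
        FF1 w x ψ₁ (prf χ) + C := by
    intro χ
    have e1 := hC q χ hq
    by_cases h : prf χ = (fun n : ℕ => ψ₁ (n : ZMod r₁))
    · rw [if_pos h]
      have e2 : FF1 w x ψ₁ (prf χ) = 0 := by
        unfold FF1
        rw [if_pos h]
      rw [e2, zero_add]
      have e3 : g χ - Z = (starRingEnd ℂ) (χ (b : ZMod q)) *
          (TT w x (fun n => χ (n : ZMod q)) - TT w x (prf χ)) := by
        rw [hg, hZ, h, ← val_eq χ ψ₁ h b hb]
        ring
      rw [e3, norm_mul]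
      calc _ ≤ 1 * C := mul_le_mul (hconj _ _ _) e1 (norm_nonneg _) zero_le_one
        _ = C := one_mul C
    · rw [if_neg h, sub_zero]
      have e2 : FF1 w x ψ₁ (prf χ) = ‖TT w x (prf χ)‖ := by
        unfold FF1
        rw [if_neg h]
      rw [e2]
      have e3 : ‖g χ‖ ≤ ‖TT w x (fun n => χ (n : ZMod q))‖ := by
        rw [hg]
        simp only
        rw [norm_mul]
        calc _ ≤ 1 * ‖TT w x (fun n => χ (n : ZMod q))‖ :=
              mul_le_mul_of_nonneg_right (hconj _ _ _) (norm_nonneg _)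
          _ = _ := one_mul _
      have e4 := norm_sub_norm_le (TT w x (fun n => χ (n : ZMod q))) (TT w x (prf χ))
      linarith
  have hcard : (((univ : Finset (DirichletCharacter ℂ q)).filter (fun χ => χ ≠ 1)).card : ℝ) + 1 =
      (Nat.totient q : ℝ) := by
    have e1 : ((univ : Finset (DirichletCharacter ℂ q)).filter (fun χ => χ ≠ 1)).card + 1 =
        Nat.totient q := by
      rw [Finset.filter_ne', Finset.card_erase_of_mem (mem_univ _), Finset.card_univ,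
        ← Nat.card_eq_fintype_card, DirichletCharacter.card_eq_totient_of_hasEnoughRootsOfUnity ℂ q]
      have := Nat.totient_pos.2 hq0
      omega
    exact_mod_cast e1
  have hsum : ‖(g 1 - (Th w x : ℂ)) +
      ∑ χ ∈ (univ : Finset (DirichletCharacter ℂ q)).filter (fun χ => χ ≠ 1),
        (g χ - if prf χ = (fun n : ℕ => ψ₁ (n : ZMod r₁)) then Z else 0)‖ ≤
      SN (FF1 w x ψ₁) q + Nat.totient q * C := by
    refine (norm_add_le _ _).trans ?_
    have e1 := (norm_sum_le ((univ : Finset (DirichletCharacter ℂ q)).filter (fun χ => χ ≠ 1))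
      (fun χ => g χ - if prf χ = (fun n : ℕ => ψ₁ (n : ZMod r₁)) then Z else 0)).trans
      (Finset.sum_le_sum fun χ _ => ho χ)
    rw [Finset.sum_add_distrib, Finset.sum_const, nsmul_eq_mul, ← SN_eq] at e1
    rw [← hcard]
    linarith
  rw [hEE, norm_mul, norm_div, norm_one, Complex.norm_natCast]
  calc 1 / (Nat.totient q : ℝ) * _ ≤ 1 / (Nat.totient q : ℝ) *
        (SN (FF1 w x ψ₁) q + Nat.totient q * C) := by
        apply mul_le_mul_of_nonneg_left hsum
        positivity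
    _ = _ := by
        rw [mul_add]
        congr 1
        field_simp

theorem ev_log (K : ℝ) (m : ℕ) : ∃ x₀ : ℝ, ∀ x, x₀ ≤ x → K * Real.log x ^ m ≤ √x := by
  have h := (Real.isLittleO_pow_log_id_atTop (n := 2 * m)).def
    (show (0 : ℝ) < 1 / (K ^ 2 + 1) by positivity)
  obtain ⟨x₀, hx₀⟩ := Filter.eventually_atTop.1 h
  refine ⟨max x₀ 1, fun x hx => ?_⟩
  have h1 := hx₀ x ((le_max_left _ _).trans hx)
  have hx1 : 1 ≤ x := (le_max_right _ _).trans hx
  have hl : 0 ≤ Real.log x := Real.log_nonneg hx1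
  simp only [id] at h1
  rw [Real.norm_of_nonneg (by positivity), Real.norm_of_nonneg (by linarith)] at h1
  apply Real.le_sqrt_of_sq_le
  have h2 : (K * Real.log x ^ m) ^ 2 = K ^ 2 * Real.log x ^ (2 * m) := by
    rw [mul_pow, ← pow_mul, mul_comm m 2]
  rw [h2]
  calc K ^ 2 * Real.log x ^ (2 * m) ≤ K ^ 2 * (1 / (K ^ 2 + 1) * x) :=
        mul_le_mul_of_nonneg_left h1 (by positivity)
    _ = K ^ 2 / (K ^ 2 + 1) * x := by ring
    _ ≤ 1 * x := by
        apply mul_le_mul_of_nonneg_right _ (by linarith)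
        rw [div_le_one (by positivity)]
        linarith
    _ = x := one_mul x

theorem SP_mono (F G : (ℕ → ℂ) → ℝ) (h : ∀ f, F f ≤ G f) (r : ℕ) : SP F r ≤ SP G r := by
  classical
  by_cases hr : r = 0
  · unfold SP
    rw [dif_pos hr, dif_pos hr]
  · have : NeZero r := ⟨hr⟩
    rw [SP_eq, SP_eq]
    exact Finset.sum_le_sum fun ψ _ => h _

theorem SP_nonneg (F : (ℕ → ℂ) → ℝ) (h : ∀ f, 0 ≤ F f) (r : ℕ) : 0 ≤ SP F r := by
  classical
  by_cases hr : r = 0
  · unfold SP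
    rw [dif_pos hr]
  · have : NeZero r := ⟨hr⟩
    rw [SP_eq]
    exact Finset.sum_nonneg fun ψ _ => h _

theorem SP_le (F : (ℕ → ℂ) → ℝ) (X : ℝ) (hX : 0 ≤ X) (r : ℕ) [NeZero r]
    (h : ∀ ψ : DirichletCharacter ℂ r, ψ.IsPrimitive → F (fun n => ψ (n : ZMod r)) ≤ X) :
    1 / (Nat.totient r : ℝ) * SP F r ≤ X := by
  classical
  have hr0 : 0 < r := Nat.pos_of_ne_zero (NeZero.ne r)
  have hφ : (0 : ℝ) < (Nat.totient r : ℝ) := by exact_mod_cast Nat.totient_pos.2 hr0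
  have h1 : SP F r ≤ Nat.totient r * X := by
    rw [SP_eq]
    calc _ ≤ ∑ ψ ∈ (univ : Finset (DirichletCharacter ℂ r)).filter (fun ψ => ψ.IsPrimitive), X :=
          Finset.sum_le_sum fun ψ hψ => h ψ (mem_filter.1 hψ).2
      _ ≤ ∑ ψ ∈ (univ : Finset (DirichletCharacter ℂ r)), X :=
          Finset.sum_le_sum_of_subset_of_nonneg (filter_subset _ _) fun _ _ _ => hX
      _ = Nat.totient r * X := by
          rw [Finset.sum_const, nsmul_eq_mul, Finset.card_univ, ← Nat.card_eq_fintype_card,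
            DirichletCharacter.card_eq_totient_of_hasEnoughRootsOfUnity ℂ r]
  calc 1 / (Nat.totient r : ℝ) * SP F r ≤ 1 / (Nat.totient r : ℝ) * (Nat.totient r * X) :=
        mul_le_mul_of_nonneg_left h1 (by positivity)
    _ = X := by field_simp

theorem half_floor (y : ℝ) (hy : 1 ≤ y) : 1 ≤ ⌊y⌋₊ ∧ (⌊y⌋₊ : ℝ) ≤ y ∧ y / 2 ≤ ⌊y⌋₊ := by
  have h1 : 1 ≤ ⌊y⌋₊ := Nat.le_floor (by exact_mod_cast hy)
  have h2 : (1 : ℝ) ≤ ⌊y⌋₊ := by exact_mod_cast h1
  have h3 := Nat.lt_floor_add_one y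
  exact ⟨h1, Nat.floor_le (by linarith), by linarith⟩

/-- the parameters for the large conductors -/
theorem large_par {x L C : ℝ} (hC : 0 < C) (hL : 1 ≤ L) (hx : 0 < x) (A b' : ℕ) (hb : b' = A + 10)
    (R U Q : ℕ) (hR : L ^ b' / 2 ≤ R) (hU : L ^ (2 * b') / 2 ≤ U) (hU' : (U : ℝ) ≤ L ^ (2 * b'))
    (hQ : (Q : ℝ) ≤ √x / L ^ (3 * b')) :
    C * (x / R + x / √U + Q * √x + (Q : ℝ) ^ 2 * U ^ 2) * L ^ 7 ≤ 6 * C * (x / L ^ (A + 3)) := by
  have hL0 : 0 < L := by linarith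
  have hs0 : 0 < √x := Real.sqrt_pos.2 hx
  have hss : √x * √x = x := Real.mul_self_sqrt hx.le
  have hLb : 0 < L ^ b' := by positivity
  have h1 : x / R ≤ 2 * (x / L ^ b') := by
    have : x / R ≤ x / (L ^ b' / 2) := div_le_div_of_nonneg_left hx.le (by positivity) hR
    refine this.trans (le_of_eq ?_)
    field_simp
  have h2 : x / √U ≤ 2 * (x / L ^ b') := by
    have e1 : L ^ b' / 2 ≤ √U := by
      apply Real.le_sqrt_of_sq_le
      have e2 : (L ^ b' / 2) ^ 2 = L ^ (2 * b') / 4 := by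
        rw [div_pow, ← pow_mul, mul_comm b' 2]
        norm_num
      rw [e2]
      have e3 : 0 < L ^ (2 * b') := by positivity
      linarith
    have : x / √U ≤ x / (L ^ b' / 2) := div_le_div_of_nonneg_left hx.le (by positivity) e1
    refine this.trans (le_of_eq ?_)
    field_simp
  have h3 : Q * √x ≤ x / L ^ b' := by
    calc Q * √x ≤ √x / L ^ (3 * b') * √x := mul_le_mul_of_nonneg_right hQ hs0.le
      _ = x / L ^ (3 * b') := by rw [div_mul_eq_mul_div, hss]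
      _ ≤ x / L ^ b' := div_le_div_of_nonneg_left hx.le hLb
          (pow_le_pow_right₀ hL (by omega))
  have h4 : (Q : ℝ) ^ 2 * U ^ 2 ≤ x / L ^ b' := by
    calc (Q : ℝ) ^ 2 * U ^ 2 ≤ (√x / L ^ (3 * b')) ^ 2 * (L ^ (2 * b')) ^ 2 := by gcongr
      _ = x / L ^ (2 * b') := by
          have e1 : (√x / L ^ (3 * b')) ^ 2 = x / (L ^ (2 * b') * L ^ (2 * b') * L ^ (2 * b')) := by
            rw [div_pow, sq, hss, ← pow_mul, ← pow_add, ← pow_add]
            congr 2
            omega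
          rw [e1, sq]
          field_simp
      _ ≤ x / L ^ b' := div_le_div_of_nonneg_left hx.le hLb
          (pow_le_pow_right₀ hL (by omega))
  have h5 : x / R + x / √U + Q * √x + (Q : ℝ) ^ 2 * U ^ 2 ≤ 6 * (x / L ^ b') := by linarith
  calc C * (x / R + x / √U + Q * √x + (Q : ℝ) ^ 2 * U ^ 2) * L ^ 7 ≤
        C * (6 * (x / L ^ b')) * L ^ 7 := by gcongr
    _ = 6 * C * (x / L ^ (A + 3)) := by
        have e1 : L ^ b' = L ^ (A + 3) * L ^ 7 := by
          rw [hb, ← pow_add]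
        rw [e1]
        field_simp

/-- the final inequality -/
theorem final_par {x L C1 C2 C3 K S : ℝ} (hC1 : 0 < C1) (hC2 : 0 < C2) (hC3 : 0 < C3)
    (hL : 1 ≤ L) (hx : 0 < x) (A b' : ℕ) (hb : b' = A + 10)
    (hK : K = 4 * C2 * (1 + 6 * C3) + 2 * C1 + 3) (hKL : K ≤ L) (hKs : K * L ^ (2 * b') ≤ √x)
    (Q : ℕ) (hQ : (Q : ℝ) ≤ √x / L ^ (3 * b')) (hS : S ≤ (1 + 6 * C3) * (x / L ^ (A + 3))) :
    C2 * (2 * L) * S + Q * (C1 * L ^ 2) ≤ x / L ^ A := by
  have hL0 : 0 < L := by linarith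
  have hs0 : 0 < √x := Real.sqrt_pos.2 hx
  have hss : √x * √x = x := Real.mul_self_sqrt hx.le
  have hX : 0 < x / L ^ A := by positivity
  have h1 : C2 * (2 * L) * S ≤ x / L ^ A / 2 := by
    have e0 : x / L ^ (A + 3) = x / L ^ A / L ^ 3 := by
      rw [pow_add, div_div]
    have e1 : C2 * (2 * L) * S ≤ C2 * (2 * L) * ((1 + 6 * C3) * (x / L ^ A / L ^ 3)) := by
      rw [← e0]
      gcongr
    refine e1.trans ?_
    have e2 : C2 * (2 * L) * ((1 + 6 * C3) * (x / L ^ A / L ^ 3)) =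
        (2 * C2 * (1 + 6 * C3)) * (x / L ^ A) / L ^ 2 := by
      field_simp
    rw [e2, div_le_iff₀ (by positivity)]
    have e3 : 2 * C2 * (1 + 6 * C3) ≤ L ^ 2 / 2 := by
      have : K ≤ L ^ 2 := hKL.trans (by nlinarith)
      rw [hK] at this
      nlinarith
    calc 2 * C2 * (1 + 6 * C3) * (x / L ^ A) ≤ L ^ 2 / 2 * (x / L ^ A) := by gcongr
      _ = x / L ^ A / 2 * L ^ 2 := by ring
  have h2 : Q * (C1 * L ^ 2) ≤ x / L ^ A / 2 := by
    have e1 : L ^ 2 ≤ L ^ (3 * b') := pow_le_pow_right₀ hL (by omega)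
    have e2 : Q * (C1 * L ^ 2) ≤ C1 * √x := by
      calc Q * (C1 * L ^ 2) ≤ √x / L ^ (3 * b') * (C1 * L ^ (3 * b')) := by gcongr
        _ = C1 * √x := by field_simp
    refine e2.trans ?_
    have e3 : 2 * C1 * L ^ A ≤ √x := by
      refine le_trans ?_ hKs
      have e4 : 2 * C1 ≤ K := by
        rw [hK]
        have : 0 < 4 * C2 * (1 + 6 * C3) := by positivity
        linarith
      have e5 : L ^ A ≤ L ^ (2 * b') := pow_le_pow_right₀ hL (by omega)
      have e6 : 0 ≤ K := by linarith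
      gcongr
    have e4 : C1 * √x * (2 * L ^ A) ≤ x := by
      calc C1 * √x * (2 * L ^ A) = √x * (2 * C1 * L ^ A) := by ring
        _ ≤ √x * √x := by gcongr
        _ = x := hss
    rw [div_div, le_div_iff₀ (by positivity)]
    calc C1 * √x * (L ^ A * 2) = C1 * √x * (2 * L ^ A) := by ring
      _ ≤ x := e4
  linarith

end hBV

open hBV in
theorem hBV (_hTH : StTH) (hBL : StBL) (hSC : StSC) (hPH : StPH) (hRG : StRG) (hNP : StNP)
    (hOR : StOR) : StBV := by
  classical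
  intro w hw A R₁
  obtain ⟨C1, hC1, NP⟩ := hNP w hw
  obtain ⟨C2, hC2, PH⟩ := hPH
  obtain ⟨C3, hC3, BL⟩ := hBL w hw
  obtain ⟨b', hb'⟩ : ∃ b' : ℕ, b' = A + 10 := ⟨_, rfl⟩
  obtain ⟨x₁, SC⟩ := hSC w hw (A + b' + 3) b' R₁
  obtain ⟨K, hK⟩ : ∃ K : ℝ, K = 4 * C2 * (1 + 6 * C3) + 2 * C1 + 3 := ⟨_, rfl⟩
  have hK3 : 3 ≤ K := by
    rw [hK]
    have : 0 < 4 * C2 * (1 + 6 * C3) := by positivity
    linarith
  obtain ⟨x₂, hx₂⟩ := ev_log K (2 * b')
  refine ⟨3 * b', max x₁ (max x₂ (Real.exp K)), ?_⟩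
  intro x hx
  have hx1 : x₁ ≤ x := (le_max_left _ _).trans hx
  have hx2 : x₂ ≤ x := ((le_max_left _ _).trans (le_max_right _ _)).trans hx
  have hxe : Real.exp K ≤ x := ((le_max_right _ _).trans (le_max_right _ _)).trans hx
  have hx0 : 0 < x := lt_of_lt_of_le (Real.exp_pos K) hxe
  have hx3 : 3 ≤ x := by
    have := Real.add_one_le_exp K
    linarith
  obtain ⟨r₁, hr₁, ψ₁, hR₁, hcase, hsc⟩ := SC x hx1
  refine ⟨r₁, hr₁, ψ₁, hR₁, ?_⟩
  intro b hb
  have hKs : K * Real.log x ^ (2 * b') ≤ √x := hx₂ x hx2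
  have hKL : K ≤ Real.log x := (Real.le_log_iff_exp_le hx0).2 hxe
  obtain ⟨L, hL⟩ : ∃ L : ℝ, L = Real.log x := ⟨_, rfl⟩
  rw [← hL] at hKs hKL ⊢
  have hL1 : 1 ≤ L := by linarith
  have hL0 : 0 < L := by linarith
  have hs0 : 0 < √x := Real.sqrt_pos.2 hx0
  have hss : √x * √x = x := Real.mul_self_sqrt hx0.le
  obtain ⟨Q, hQd⟩ : ∃ Q : ℕ, Q = ⌊√x / L ^ (3 * b')⌋₊ := ⟨_, rfl⟩
  rw [← hQd]
  have hQ : (Q : ℝ) ≤ √x / L ^ (3 * b') := by
    rw [hQd]
    exact Nat.floor_le (by positivity)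
  have hQs : (Q : ℝ) ≤ √x := hQ.trans (div_le_self hs0.le (one_le_pow₀ hL1))
  have hs1 : 1 ≤ √x := by
    refine le_trans ?_ hKs
    have : (1 : ℝ) ≤ L ^ (2 * b') := one_le_pow₀ hL1
    nlinarith
  have hQx : (Q : ℝ) ≤ x := by nlinarith
  set F : (ℕ → ℂ) → ℝ := FF1 w x ψ₁ with hF
  have hF0 : ∀ f, 0 ≤ F f := FF1_nonneg w x ψ₁
  -- one modulus
  have step1 : ∀ q ∈ Icc 1 Q, ‖EE w x ψ₁ q (b q)‖ ≤
      1 / (Nat.totient q : ℝ) * SN F q + C1 * L ^ 2 := by
    intro q hq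
    rw [mem_Icc] at hq
    have : NeZero q := ⟨by omega⟩
    have hqx : (q : ℝ) ≤ x := le_trans (by exact_mod_cast hq.2) hQx
    refine one_q hOR ?_ ψ₁ hcase q hqx (b q) (hb q hq.1)
    intro q' _ χ hq'
    rw [hL]
    exact NP q' χ x hx3 hq'
  have step2 : ∑ q ∈ Icc 1 Q, ‖EE w x ψ₁ q (b q)‖ ≤
      (∑ q ∈ Icc 1 Q, 1 / (Nat.totient q : ℝ) * SN F q) + Q * (C1 * L ^ 2) := by
    refine (Finset.sum_le_sum step1).trans (le_of_eq ?_)
    rw [Finset.sum_add_distrib, Finset.sum_const, nsmul_eq_mul, Nat.card_Icc]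
    simp
  set g : ℕ → ℝ := fun r => 1 / (Nat.totient r : ℝ) * SP F r with hg
  have hg0 : ∀ r, 0 ≤ g r := fun r => mul_nonneg (by positivity) (SP_nonneg F hF0 r)
  have step3 : ∑ q ∈ Icc 1 Q, 1 / (Nat.totient q : ℝ) * SN F q ≤
      C2 * (2 * L) * ∑ r ∈ Ioc 1 Q, g r := by
    refine (hRG F Q hF0).trans ?_
    rw [Finset.mul_sum]
    refine Finset.sum_le_sum fun r hr => ?_
    rw [mem_Ioc] at hr
    have hQ1 : 1 ≤ Q := by omega
    have e1 := PH Q r hQ1 (by omega)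
    have e2 : Real.log Q ≤ L := by
      rw [hL]
      exact Real.log_le_log (by exact_mod_cast (by omega : 0 < Q)) hQx
    have hr0 : (0 : ℝ) < (Nat.totient r : ℝ) := by
      exact_mod_cast Nat.totient_pos.2 (by omega)
    have e3 : C2 * (1 + Real.log Q) / (Nat.totient r : ℝ) ≤
        C2 * (2 * L) / (Nat.totient r : ℝ) := by
      gcongr
      linarith
    calc _ ≤ C2 * (2 * L) / (Nat.totient r : ℝ) * SP F r :=
          mul_le_mul_of_nonneg_right (e1.trans e3) (SP_nonneg F hF0 r)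
      _ = C2 * (2 * L) * g r := by
          rw [hg]
          ring
  obtain ⟨hR1, hRle, hRge⟩ := half_floor (L ^ b') (one_le_pow₀ hL1)
  obtain ⟨hU1, hUle, hUge⟩ := half_floor (L ^ (2 * b')) (one_le_pow₀ hL1)
  obtain ⟨R, hR⟩ : ∃ R : ℕ, R = ⌊L ^ b'⌋₊ := ⟨_, rfl⟩
  obtain ⟨U, hU⟩ : ∃ U : ℕ, U = ⌊L ^ (2 * b')⌋₊ := ⟨_, rfl⟩
  rw [← hR] at hR1 hRle hRge
  rw [← hU] at hU1 hUle hUge
  -- small conductors
  have small : ∑ r ∈ Ioc 1 R, g r ≤ x / L ^ (A + 3) := by
    have hX : 0 ≤ x / L ^ (A + b' + 3) := by positivity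
    have e1 : ∀ r ∈ Ioc 1 R, g r ≤ x / L ^ (A + b' + 3) := by
      intro r hr
      rw [mem_Ioc] at hr
      have : NeZero r := ⟨by omega⟩
      refine SP_le F _ hX r fun ψ hψ => ?_
      rw [hF]
      unfold FF1
      split_ifs with h
      · exact hX
      · rw [hL]
        refine hsc r ψ ?_ hψ ?_ ?_
        · rw [← hL]
          exact le_trans (by exact_mod_cast hr.2) hRle
        · intro h1
          have h2 : ψ.conductor = r := hψ
          rw [h1, DirichletCharacter.conductor_one] at h2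
          omega
        · intro h1
          exact h (funext h1)
    calc ∑ r ∈ Ioc 1 R, g r ≤ ∑ r ∈ Ioc 1 R, x / L ^ (A + b' + 3) := Finset.sum_le_sum e1
      _ = ((R - 1 : ℕ) : ℝ) * (x / L ^ (A + b' + 3)) := by
          rw [Finset.sum_const, nsmul_eq_mul, Nat.card_Ioc]
      _ ≤ L ^ b' * (x / L ^ (A + b' + 3)) := by
          apply mul_le_mul_of_nonneg_right _ hX
          refine le_trans ?_ hRle
          exact_mod_cast Nat.sub_le R 1
      _ = x / L ^ (A + 3) := by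
          have e2 : L ^ (A + b' + 3) = L ^ (A + 3) * L ^ b' := by
            rw [← pow_add]
            congr 1
            omega
          rw [e2]
          field_simp
  -- large conductors
  have large : ∑ r ∈ Ioc R Q, g r ≤ 6 * C3 * (x / L ^ (A + 3)) := by
    rcases le_or_gt R Q with hRQ | hRQ
    · have hU2 : (U : ℝ) ^ 2 ≤ x := by
        have e1 : (U : ℝ) ≤ √x := by
          refine le_trans (hUle.trans ?_) hKs
          have : (0 : ℝ) ≤ L ^ (2 * b') := by positivity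
          nlinarith
        calc (U : ℝ) ^ 2 ≤ √x ^ 2 := by gcongr
          _ = x := by rw [sq, hss]
      have e1 := BL x U R Q hx3 hU1 hU2 hR1 hRQ hQx
      rw [← hL] at e1
      refine le_trans (Finset.sum_le_sum fun r _ => ?_) (e1.trans
        (large_par hC3 hL1 hx0 A b' hb' R U Q hRge hUge hUle hQ))
      exact mul_le_mul_of_nonneg_left (SP_mono _ _ (FF1_le w x ψ₁) r) (by positivity)
    · rw [Finset.Ioc_eq_empty (by omega), Finset.sum_empty]
      positivity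
  have step4 : ∑ r ∈ Ioc 1 Q, g r ≤ (1 + 6 * C3) * (x / L ^ (A + 3)) := by
    have hsub : Ioc 1 Q ⊆ Ioc 1 R ∪ Ioc R Q := by
      intro r hr
      rw [mem_union, mem_Ioc, mem_Ioc]
      rw [mem_Ioc] at hr
      omega
    have hdis : Disjoint (Ioc 1 R) (Ioc R Q) := by
      rw [Finset.disjoint_left]
      intro r h1 h2
      rw [mem_Ioc] at h1 h2
      omega
    calc ∑ r ∈ Ioc 1 Q, g r ≤ ∑ r ∈ Ioc 1 R ∪ Ioc R Q, g r :=
          Finset.sum_le_sum_of_subset_of_nonneg hsub fun r _ _ => hg0 r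
      _ = ∑ r ∈ Ioc 1 R, g r + ∑ r ∈ Ioc R Q, g r := Finset.sum_union hdis
      _ ≤ x / L ^ (A + 3) + 6 * C3 * (x / L ^ (A + 3)) := add_le_add small large
      _ = _ := by ring
  calc ∑ q ∈ Icc 1 Q, ‖EE w x ψ₁ q (b q)‖ ≤
        (∑ q ∈ Icc 1 Q, 1 / (Nat.totient q : ℝ) * SN F q) + Q * (C1 * L ^ 2) := step2
    _ ≤ C2 * (2 * L) * (∑ r ∈ Ioc 1 Q, g r) + Q * (C1 * L ^ 2) := by gcongr
    _ ≤ x / L ^ A := final_par hC1 hC2 hC3 hL1 hx0 A b' hb' hK hKL hKs Q hQ step4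

end Pool.Agent.Helper15.AB
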