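import Mathlib
import Pool.Agent.Helper15.AB.StMid

/-!
# Project AB, module CS: partial sums of `c4` over integers coprime to `q E`
-/

set_option autoImplicit false

namespace Pool.Agent.Helper15.AB

open Finset ArithmeticFunction Filter Topology

namespace hCS

theorem c4_mul (a b : ℕ) : c4 (a * b) = c4 a * c4 b := by
  unfold c4
  rw [Nat.mul_mod]
  have ha := Nat.mod_lt a (by norm_num : 0 < 4)
  have hb := Nat.mod_lt b (by norm_num : 0 < 4)
  generalize a % 4 = u at ha ⊢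
  generalize b % 4 = v at hb ⊢
  interval_cases u <;> interval_cases v <;> norm_num

theorem c4_sum (t : ℕ) : ∑ b ∈ Icc 1 t, c4 b = if t % 4 = 1 ∨ t % 4 = 2 then 1 else 0 := by
  induction t with
  | zero => simp
  | succ t ih =>
    rw [Finset.sum_Icc_succ_top (by omega), ih]
    unfold c4
    have h4 : t % 4 = 0 ∨ t % 4 = 1 ∨ t % 4 = 2 ∨ t % 4 = 3 := by omega
    rcases h4 with h | h | h | h
    · have h1 : (t + 1) % 4 = 1 := by omega
      simp [h, h1]
    · have h1 : (t + 1) % 4 = 2 := by omega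
      simp [h, h1]
    · have h1 : (t + 1) % 4 = 3 := by omega
      simp [h, h1]
    · have h1 : (t + 1) % 4 = 0 := by omega
      simp [h, h1]

theorem c4_sum_abs (t : ℕ) : |∑ b ∈ Icc 1 t, c4 b| ≤ 1 := by
  rw [c4_sum]
  split_ifs <;> norm_num

theorem c4_abs (n : ℕ) : |c4 n| ≤ 1 := by
  unfold c4
  split_ifs <;> norm_num

theorem mu_sum (n : ℕ) : ∑ e ∈ n.divisors, moebius e = if n = 1 then 1 else 0 := by
  rw [← coe_mul_zeta_apply, moebius_mul_coe_zeta, one_apply]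

theorem sum_dvd (t e : ℕ) (he : 1 ≤ e) :
    ∑ b ∈ (Icc 1 t).filter (fun b => e ∣ b), c4 b = c4 e * ∑ b ∈ Icc 1 (t / e), c4 b := by
  rw [mul_sum]
  symm
  refine sum_bij (fun b _ => e * b) ?_ ?_ ?_ ?_
  · intro b hb
    rw [mem_Icc] at hb
    rw [mem_filter, mem_Icc]
    refine ⟨⟨Nat.mul_pos he hb.1, ?_⟩, dvd_mul_right e b⟩
    have := (Nat.le_div_iff_mul_le he).1 hb.2
    rwa [mul_comm] at this
  · intro b _ b' _ h
    exact Nat.eq_of_mul_eq_mul_left he h
  · intro b hb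
    rw [mem_filter, mem_Icc] at hb
    obtain ⟨⟨h1, h2⟩, c, rfl⟩ := hb
    refine ⟨c, ?_, rfl⟩
    rw [mem_Icc]
    refine ⟨?_, ?_⟩
    · rcases Nat.eq_zero_or_pos c with h | h
      · rw [h] at h1
        omega
      · exact h
    · rw [Nat.le_div_iff_mul_le he, mul_comm]
      exact h2
  · intro b _
    rw [c4_mul]

theorem cop_sum (M t : ℕ) (hM : 1 ≤ M) :
    ∑ b ∈ (Icc 1 t).filter (fun b => Nat.Coprime b M), c4 b =
      ∑ e ∈ M.divisors, ((moebius e : ℤ) : ℝ) * (c4 e * ∑ b ∈ Icc 1 (t / e), c4 b) := by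
  have h1 : ∀ b ∈ Icc 1 t, (if Nat.Coprime b M then c4 b else 0) =
      ∑ e ∈ M.divisors, if e ∣ b then ((moebius e : ℤ) : ℝ) * c4 b else 0 := by
    intro b hb
    have hb1 : 1 ≤ b := (mem_Icc.1 hb).1
    rw [← sum_filter]
    have h2 : M.divisors.filter (fun e => e ∣ b) = (Nat.gcd b M).divisors := by
      ext e
      rw [mem_filter, Nat.mem_divisors, Nat.mem_divisors, Nat.dvd_gcd_iff]
      constructor
      · rintro ⟨⟨h3, _⟩, h4⟩
        exact ⟨⟨h4, h3⟩, (Nat.gcd_pos_of_pos_left M hb1).ne'⟩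
      · rintro ⟨⟨h3, h4⟩, _⟩
        exact ⟨⟨h4, by omega⟩, h3⟩
    rw [h2, ← sum_mul]
    have h3 := mu_sum (Nat.gcd b M)
    have h4 : ∑ e ∈ (Nat.gcd b M).divisors, ((moebius e : ℤ) : ℝ) =
        if Nat.gcd b M = 1 then 1 else 0 := by
      have := congrArg (fun z : ℤ => (z : ℝ)) h3
      push_cast at this
      exact this
    rw [h4]
    by_cases h5 : Nat.gcd b M = 1
    · rw [if_pos h5, if_pos h5, one_mul]
    · rw [if_neg h5, if_neg h5, zero_mul]
  rw [sum_filter, sum_congr rfl h1, sum_comm]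
  refine sum_congr rfl fun e he => ?_
  have he1 : 1 ≤ e := Nat.pos_of_mem_divisors he
  rw [← sum_dvd t e he1, mul_sum, sum_filter]

end hCS

theorem hCS : StCS := by
  intro q E t hq hE
  have hM : 1 ≤ q * E := Nat.mul_pos hq hE
  rw [hCS.cop_sum (q * E) t hM]
  have h1 : |∑ e ∈ (q * E).divisors, ((moebius e : ℤ) : ℝ) *
      (c4 e * ∑ b ∈ Icc 1 (t / e), c4 b)| ≤ ∑ e ∈ (q * E).divisors, (1 : ℝ) := by
    refine (abs_sum_le_sum_abs _ _).trans (sum_le_sum fun e _ => ?_)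
    rw [abs_mul, abs_mul]
    have h2 : |((moebius e : ℤ) : ℝ)| ≤ 1 := by
      have := @abs_moebius_le_one e
      exact_mod_cast this
    have h3 := hCS.c4_abs e
    have h4 := hCS.c4_sum_abs (t / e)
    calc |((moebius e : ℤ) : ℝ)| * (|c4 e| * |∑ b ∈ Icc 1 (t / e), c4 b|) ≤ 1 * (1 * 1) := by
          gcongr
      _ = 1 := by norm_num
  refine h1.trans ?_
  rw [sum_const, nsmul_eq_mul, mul_one]
  have h5 : (q * E).divisors.card ≤ q.divisors.card * E.divisors.card := by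
    rw [Nat.divisors_mul]
    exact Finset.card_mul_le
  exact_mod_cast h5

end Pool.Agent.Helper15.AB
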