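import Mathlib
import Pool.Agent.Helper15.AB.StBV
import Pool.Agent.Helper90.MT.A0
import Pool.Agent.Helper52.MTC

/-!
# Module D0: upper bound for `L(s, ψ)`, all characters
-/

set_option autoImplicit false

namespace Pool.Agent.Helper15.AB

open Finset ArithmeticFunction MeasureTheory

theorem hD0 (hDJ : StDJ) : StD0 := by
  obtain ⟨C, hC, H⟩ := hDJ 0
  obtain ⟨C', hC', H'⟩ := Pool.Agent.Helper90.MT.a0
  have hlog3 : (1 : ℝ) ≤ Real.log 3 := by
    rw [Real.le_log_iff_exp_le (by norm_num)]
    linarith [Real.exp_one_lt_d9]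
  refine ⟨C + 2 * C' + 4, by positivity, ?_⟩
  intro r _ ψ s h1 h2
  have hr1 : (1 : ℝ) ≤ r := by exact_mod_cast Nat.one_le_iff_ne_zero.2 (NeZero.ne r)
  have hLL : 1 ≤ LL r s := by
    unfold LL
    refine hlog3.trans (Real.log_le_log (by norm_num) ?_)
    have := abs_nonneg s.im
    nlinarith
  have hs1 : 0 < ‖s - 1‖ := by
    rw [norm_pos_iff, sub_ne_zero]
    intro h
    rw [h] at h1
    simp at h1
  have hinv : 0 < 1 / ‖s - 1‖ := by positivity
  have hbase : 1 / ‖s - 1‖ + LL r s ≤ (1 / ‖s - 1‖ + LL r s) * LL r s := by nlinarith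
  by_cases hψ : ψ = 1
  · -- the principal character
    have hD : ‖s - 1‖ ≤ (s.re - 1) + |s.im| := by
      have e := Complex.norm_le_abs_re_add_abs_im (s - 1)
      simp only [Complex.sub_re, Complex.one_re, Complex.sub_im, Complex.one_im, sub_zero] at e
      rwa [abs_of_pos (by linarith : 0 < s.re - 1)] at e
    have hfun : (fun n : ℕ => ψ (n : ZMod r)) =
        Pool.Agent.Helper90.MT.Lk (1 : DirichletCharacter ℂ r) 0 := by
      funext n
      rw [hψ]
      simp [Pool.Agent.Helper90.MT.Lk]
    rw [hfun]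
    have key : ‖LSeries (Pool.Agent.Helper90.MT.Lk (1 : DirichletCharacter ℂ r) 0) s‖ ≤
        (2 * C' + 4) * (1 / ‖s - 1‖ + LL r s) := by
      rcases le_or_gt (‖s - 1‖ / 2) |s.im| with h | h
      · have hi : 0 < |s.im| := lt_of_lt_of_le (by positivity) h
        have e := H' r s.re s.im h1 h2 (abs_pos.1 hi)
        rw [Complex.re_add_im] at e
        have e2 : 1 / |s.im| ≤ 2 * (1 / ‖s - 1‖) := by
          have : 1 / |s.im| ≤ 1 / (‖s - 1‖ / 2) := one_div_le_one_div_of_le (by positivity) h
          refine this.trans (le_of_eq ?_)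
          field_simp
        refine e.trans ?_
        have e3 : Real.log (r * (|s.im| + 3)) = LL r s := rfl
        rw [e3]
        have e4 : C' * (LL r s + 1 / |s.im|) ≤ C' * (LL r s + 2 * (1 / ‖s - 1‖)) := by gcongr
        nlinarith
      · have hre : ‖s - 1‖ / 2 ≤ s.re - 1 := by linarith
        have e := Pool.Agent.Helper52.MTC.norm_Lk_zero_le (1 : DirichletCharacter ℂ r) s h1 h2
        refine e.trans ?_
        have e2 : 2 / (s.re - 1) ≤ 4 * (1 / ‖s - 1‖) := by
          have : 2 / (s.re - 1) ≤ 2 / (‖s - 1‖ / 2) :=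
            div_le_div_of_nonneg_left (by norm_num) (by positivity) hre
          refine this.trans (le_of_eq ?_)
          field_simp
          norm_num
        refine e2.trans ?_
        have e5 : 0 ≤ C' * (1 / ‖s - 1‖ + LL r s) := by positivity
        nlinarith
    calc _ ≤ (2 * C' + 4) * (1 / ‖s - 1‖ + LL r s) := key
      _ ≤ (C + 2 * C' + 4) * ((1 / ‖s - 1‖ + LL r s) * LL r s) := by
          gcongr
          linarith
      _ = _ := by ring
  · have e := H r ψ s hψ h1 h2
    have hfun : (fun n : ℕ => ψ (n : ZMod r) * ((Real.log n : ℝ) : ℂ) ^ 0) =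
        fun n : ℕ => ψ (n : ZMod r) := by
      funext n
      rw [pow_zero, mul_one]
    rw [hfun, zero_add, pow_one] at e
    calc _ ≤ C * LL r s := e
      _ ≤ (C + 2 * C' + 4) * ((1 / ‖s - 1‖ + LL r s) * LL r s) := by
          gcongr
          · linarith
          · nlinarith
      _ = _ := by ring

end Pool.Agent.Helper15.AB
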