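import Mathlib
import Pool.Agent.Helper15.AB.StMid
import Pool.Agent.Helper15.AB.StKl

/-!
# Project AB, module DD: the singular series on average
-/

set_option autoImplicit false

namespace Pool.Agent.Helper15.AB

open Finset

namespace hDD

theorem two_pow_le (n : ℕ) (hn : n ≠ 0) : 2 ^ n.primeFactors.card ≤ n.divisors.card := by
  rw [Nat.card_divisors hn]
  calc 2 ^ n.primeFactors.card = ∏ _x ∈ n.primeFactors, 2 := by rw [prod_const]
    _ ≤ _ := prod_le_prod' fun x hx => by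
      have h := Nat.mem_primeFactors.1 hx
      have := h.1.factorization_pos_of_dvd h.2.2 h.2.1
      omega

theorem tot_le (q : ℕ) : q ≤ 2 ^ q.primeFactors.card * q.totient := by
  have h := Nat.totient_mul_prod_primeFactors q
  have h1 : ∏ p ∈ q.primeFactors, p ≤ ∏ p ∈ q.primeFactors, (2 * (p - 1)) := by
    refine prod_le_prod' fun p hp => ?_
    have := (Nat.prime_of_mem_primeFactors hp).two_le
    omega
  rw [prod_mul_distrib, prod_const] at h1
  have hpos : 0 < ∏ p ∈ q.primeFactors, (p - 1) := by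
    refine prod_pos fun p hp => ?_
    have := (Nat.prime_of_mem_primeFactors hp).two_le
    omega
  -- `φ q * ∏ p = q * ∏ (p - 1)`
  refine Nat.le_of_mul_le_mul_right ?_ hpos
  rw [← h]
  calc q.totient * ∏ p ∈ q.primeFactors, p
      ≤ q.totient * (2 ^ q.primeFactors.card * ∏ p ∈ q.primeFactors, (p - 1)) :=
        Nat.mul_le_mul_left _ h1
    _ = _ := by ring

theorem le_card_mul_tot (n : ℕ) (hn : 1 ≤ n) :
    (n : ℝ) ≤ n.divisors.card * (Nat.totient n : ℝ) := by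
  have h := (tot_le n).trans (Nat.mul_le_mul_right n.totient (two_pow_le n (by omega)))
  exact_mod_cast h

theorem series (hDB : StDB) : ∃ K : ℝ, 0 < K ∧ ∀ D : ℕ,
    ∑ d ∈ Icc 1 D, (d.divisors.card : ℝ) / (d * Nat.totient d) ≤ K := by
  obtain ⟨C, hC, h⟩ := hDB (1 / 8) (by norm_num)
  have hs : Summable fun n : ℕ => 1 / (n : ℝ) ^ (7 / 4 : ℝ) :=
    Real.summable_one_div_nat_rpow.2 (by norm_num)
  refine ⟨C ^ 2 * ∑' n : ℕ, 1 / (n : ℝ) ^ (7 / 4 : ℝ) + 1, ?_, ?_⟩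
  · have : 0 ≤ ∑' n : ℕ, 1 / (n : ℝ) ^ (7 / 4 : ℝ) := tsum_nonneg fun n => by positivity
    positivity
  intro D
  have h1 : ∀ d ∈ Icc 1 D, (d.divisors.card : ℝ) / (d * Nat.totient d) ≤
      C ^ 2 * (1 / (d : ℝ) ^ (7 / 4 : ℝ)) := by
    intro d hd
    have hd1 := (mem_Icc.1 hd).1
    have hd0 : (0 : ℝ) < d := by exact_mod_cast hd1
    have ht : (0 : ℝ) < Nat.totient d := by exact_mod_cast Nat.totient_pos.2 hd1
    have a1 := le_card_mul_tot d hd1
    have a2 := h d hd1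
    have hc0 : (0 : ℝ) ≤ d.divisors.card := by positivity
    have a3 : (d.divisors.card : ℝ) / (d * Nat.totient d) ≤ (d.divisors.card : ℝ) ^ 2 / d ^ 2 := by
      rw [div_le_div_iff₀ (by positivity) (by positivity)]
      nlinarith [mul_le_mul_of_nonneg_left a1 (mul_nonneg hc0 hd0.le)]
    have a4 : (d.divisors.card : ℝ) ^ 2 ≤ C ^ 2 * (d : ℝ) ^ (1 / 4 : ℝ) := by
      have : ((d : ℝ) ^ (1 / 8 : ℝ)) ^ 2 = (d : ℝ) ^ (1 / 4 : ℝ) := by
        rw [← Real.rpow_natCast, ← Real.rpow_mul hd0.le]; norm_num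
      rw [← this, ← mul_pow]
      exact pow_le_pow_left₀ hc0 a2 2
    have a5 : (d : ℝ) ^ 2 = (d : ℝ) ^ (1 / 4 : ℝ) * (d : ℝ) ^ (7 / 4 : ℝ) := by
      rw [← Real.rpow_natCast, ← Real.rpow_add hd0]; norm_num
    have h4 : (0 : ℝ) < (d : ℝ) ^ (1 / 4 : ℝ) := Real.rpow_pos_of_pos hd0 _
    have h7 : (0 : ℝ) < (d : ℝ) ^ (7 / 4 : ℝ) := Real.rpow_pos_of_pos hd0 _
    refine a3.trans ?_
    rw [a5, div_le_iff₀ (by positivity)]
    refine a4.trans (le_of_eq ?_)
    field_simp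
  refine (sum_le_sum h1).trans ?_
  rw [← mul_sum]
  have h2 : ∑ d ∈ Icc 1 D, 1 / (d : ℝ) ^ (7 / 4 : ℝ) ≤ ∑' n : ℕ, 1 / (n : ℝ) ^ (7 / 4 : ℝ) :=
    hs.sum_le_tsum _ fun n _ => by positivity
  nlinarith [mul_le_mul_of_nonneg_left h2 (sq_nonneg C)]

theorem sqf_sum (n : ℕ) :
    ∑ d ∈ n.divisors, (1 : ℝ) / d ≤ 2 * ∑ d ∈ n.divisors.filter Squarefree, (1 : ℝ) / d := by
  choose a b hab hsq using Nat.sq_mul_squarefree
  have h1 : ∑ d ∈ n.divisors, (1 : ℝ) / d =
      ∑ x ∈ n.divisors.image (fun d => (a d, b d)), (1 : ℝ) / (x.1 * (x.2 : ℝ) ^ 2) := by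
    rw [sum_image]
    · refine sum_congr rfl fun d _ => ?_
      have h := hab d
      have h' : (d : ℝ) = (b d : ℝ) ^ 2 * a d := by exact_mod_cast h.symm
      rw [h', mul_comm]
    · intro d _ e _ hde
      simp only [Prod.mk.injEq] at hde
      rw [← hab d, ← hab e, hde.1, hde.2]
  rw [h1]
  have h2 : n.divisors.image (fun d => (a d, b d)) ⊆
      n.divisors.filter Squarefree ×ˢ Icc 1 n := by
    intro x hx
    obtain ⟨d, hd, rfl⟩ := mem_image.1 hx
    obtain ⟨hdn, hn⟩ := Nat.mem_divisors.1 hd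
    have hd0 : d ≠ 0 := fun h => hn (by rw [h] at hdn; exact zero_dvd_iff.1 hdn)
    rw [mem_product, mem_filter, Nat.mem_divisors, mem_Icc]
    refine ⟨⟨⟨(Dvd.intro_left _ (hab d)).trans hdn, hn⟩, hsq d⟩, ?_, ?_⟩
    · by_contra hc
      have : b d = 0 := by omega
      have h := hab d
      rw [this] at h
      exact hd0 (by rw [← h]; simp)
    · have h3 : b d ∣ n := by
        refine dvd_trans ?_ hdn
        refine Dvd.intro (b d * a d) ?_
        show b d * (b d * a d) = d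
        rw [← mul_assoc, ← sq]; exact hab d
      exact Nat.le_of_dvd (Nat.pos_of_ne_zero hn) h3
  refine (sum_le_sum_of_subset_of_nonneg h2 fun _ _ _ => by positivity).trans ?_
  rw [sum_product, mul_sum]
  refine sum_le_sum fun s _ => ?_
  have h3 : ∑ k ∈ Icc 1 n, (1 : ℝ) / (s * (k : ℝ) ^ 2) = 1 / s * ∑ k ∈ Icc 1 n, ((k : ℝ) ^ 2)⁻¹ := by
    rw [mul_sum]
    refine sum_congr rfl fun k _ => ?_
    rw [one_div, mul_inv, one_div]
  have h4 : ∑ k ∈ Icc 1 n, ((k : ℝ) ^ 2)⁻¹ ≤ 2 := by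
    have h5 := sum_Ioo_inv_sq_le (α := ℝ) 0 (n + 1)
    have h6 : Ioo 0 (n + 1) = Icc 1 n := by
      ext k; simp only [mem_Ioo, mem_Icc]; omega
    rw [h6] at h5
    simpa using h5
  simp only
  rw [h3]
  have : (0 : ℝ) ≤ 1 / s := by positivity
  nlinarith

theorem mem_Gs {p : ℕ} {w : ℝ} {v : ℤ × ℤ} (hv : v ∈ Gs p w) :
    (av p v).Prime ∧ w ≤ (av p v : ℝ) ∧ (av p v : ℝ) ≤ w ^ 2 := (mem_filter.1 hv).2

end hDD

open hDD in
theorem hDD (hAV : StAV) (hDB : StDB) : StDD := by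
  intro p hp hp2
  obtain ⟨C1, w1, hC1, h1⟩ := hAV p hp hp2
  obtain ⟨C2, hC2, h2⟩ := hDB (1 / 80) (by norm_num)
  obtain ⟨K, hK, h3⟩ := series hDB
  refine ⟨2 * (C1 ^ 2 * K + C2 * C1 ^ 2), max w1 2, by positivity, ?_⟩
  intro w hw
  have hw1 : w1 ≤ w := (le_max_left _ _).trans hw
  have hw2 : 2 ≤ w := (le_max_right _ _).trans hw
  have hw0 : 0 < w := by linarith
  have hW : (1 : ℝ) ≤ w ^ (1 / 40 : ℝ) := Real.one_le_rpow (by linarith) (by norm_num)
  obtain ⟨G, hG⟩ : ∃ G, G = Gs p w := ⟨_, rfl⟩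
  have hmem : ∀ v ∈ G, (av p v).Prime ∧ w ≤ (av p v : ℝ) ∧ (av p v : ℝ) ≤ w ^ 2 := by
    intro v hv; rw [hG] at hv; exact mem_Gs hv
  have hS : ∑ v ∈ G, (1 : ℝ) / av p v ≤ C1 := by
    have h := h1 w hw1 1 0 le_rfl squarefree_one (by rw [Nat.cast_one]; exact hW)
    simp only [Nat.cast_one, isUnit_one, IsUnit.dvd, filter_true, Nat.divisors_one,
      card_singleton, mul_one, Nat.totient_one, div_one] at h
    rw [hG]; exact h
  have hS0 : 0 ≤ ∑ v ∈ G, (1 : ℝ) / av p v := sum_nonneg fun v _ => by positivity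
  obtain ⟨D, hD⟩ : ∃ D, D = ⌊w ^ (1 / 40 : ℝ)⌋₊ := ⟨_, rfl⟩
  -- pointwise bound
  have key : ∀ v ∈ G ×ˢ G, av p v.1 ≠ av p v.2 →
      ∑ d ∈ ((av p v.1 : ℤ) - av p v.2).natAbs.divisors, (1 : ℝ) / d ≤
      2 * (∑ d ∈ (Icc 1 D).filter Squarefree,
        (if (d : ℤ) ∣ (av p v.2 : ℤ) - av p v.1 then (1 : ℝ) / d else 0) + C2) := by
    intro v hv hne
    obtain ⟨hv1, hv2⟩ := mem_product.1 hv
    obtain ⟨n, hn⟩ : ∃ n, n = ((av p v.1 : ℤ) - av p v.2).natAbs := ⟨_, rfl⟩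
    rw [← hn]
    have hn1 : 1 ≤ n := by
      rw [hn]
      have : (av p v.1 : ℤ) - av p v.2 ≠ 0 := by
        intro h; apply hne; omega
      omega
    have hnw : (n : ℝ) ≤ w ^ 2 := by
      obtain ⟨-, b1, b2⟩ := hmem _ hv1
      obtain ⟨-, b3, b4⟩ := hmem _ hv2
      have b5 : (n : ℝ) = |(av p v.1 : ℝ) - av p v.2| := by
        rw [hn, Nat.cast_natAbs]; push_cast; rfl
      rw [b5, abs_le]
      constructor <;> linarith
    refine (sqf_sum n).trans ?_
    refine mul_le_mul_of_nonneg_left ?_ zero_le_two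
    rw [← sum_filter_add_sum_filter_not (n.divisors.filter Squarefree) (fun d => d ≤ D)]
    refine add_le_add ?_ ?_
    · rw [← sum_filter]
      refine sum_le_sum_of_subset_of_nonneg ?_ fun _ _ _ => by positivity
      intro d hd
      rw [mem_filter, mem_filter, Nat.mem_divisors] at hd
      obtain ⟨⟨⟨hdn, hn0⟩, hsq⟩, hdD⟩ := hd
      rw [mem_filter, mem_filter, mem_Icc]
      refine ⟨⟨⟨Nat.pos_of_dvd_of_pos hdn (by omega), hdD⟩, hsq⟩, ?_⟩
      rw [hn] at hdn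
      have h := Int.natCast_dvd.2 hdn
      rw [← neg_sub]
      exact (dvd_neg.2 h)
    · have hb : ∀ d ∈ (n.divisors.filter Squarefree).filter (fun d => ¬ d ≤ D),
          (1 : ℝ) / d ≤ 1 / w ^ (1 / 40 : ℝ) := by
        intro d hd
        have hdD : D < d := by
          have := (mem_filter.1 hd).2
          omega
        rw [hD] at hdD
        have := Nat.lt_of_floor_lt hdD
        exact one_div_le_one_div_of_le (by linarith) this.le
      refine (sum_le_card_nsmul _ _ _ hb).trans ?_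
      rw [nsmul_eq_mul]
      have hc : ((((n.divisors.filter Squarefree).filter (fun d => ¬ d ≤ D)).card : ℕ) : ℝ) ≤
          C2 * w ^ (1 / 40 : ℝ) := by
        refine le_trans ?_ ((h2 n hn1).trans ?_)
        · exact_mod_cast card_le_card ((filter_subset _ _).trans (filter_subset _ _))
        · refine mul_le_mul_of_nonneg_left ?_ (by linarith)
          have : w ^ (1 / 40 : ℝ) = (w ^ 2) ^ (1 / 80 : ℝ) := by
            rw [← Real.rpow_natCast, ← Real.rpow_mul hw0.le]; norm_num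
          rw [this]
          exact Real.rpow_le_rpow (by positivity) hnw (by norm_num)
      calc _ ≤ C2 * w ^ (1 / 40 : ℝ) * (1 / w ^ (1 / 40 : ℝ)) :=
            mul_le_mul_of_nonneg_right hc (by positivity)
        _ = C2 := by field_simp
  rw [← hG]
  have e1 : ∑ v ∈ (G ×ˢ G).filter (fun v => av p v.1 ≠ av p v.2),
      (1 : ℝ) / (av p v.1 * av p v.2) *
        ∑ d ∈ ((av p v.1 : ℤ) - av p v.2).natAbs.divisors, (1 : ℝ) / d ≤
      ∑ v ∈ G ×ˢ G, (1 : ℝ) / (av p v.1 * av p v.2) *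
      (2 * (∑ d ∈ (Icc 1 D).filter Squarefree,
        (if (d : ℤ) ∣ (av p v.2 : ℤ) - av p v.1 then (1 : ℝ) / d else 0) + C2)) := by
    refine (sum_le_sum fun v hv => ?_).trans
      (sum_le_sum_of_subset_of_nonneg (filter_subset _ _) fun v _ _ => ?_)
    · exact mul_le_mul_of_nonneg_left (key v (mem_filter.1 hv).1 (mem_filter.1 hv).2)
        (by positivity)
    · have : 0 ≤ ∑ d ∈ (Icc 1 D).filter Squarefree,
        (if (d : ℤ) ∣ (av p v.2 : ℤ) - av p v.1 then (1 : ℝ) / d else 0) :=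
        sum_nonneg fun d _ => by split_ifs <;> positivity
      positivity
  refine e1.trans ?_
  have e2 : ∑ v ∈ G ×ˢ G, (1 : ℝ) / (av p v.1 * av p v.2) *
      (2 * (∑ d ∈ (Icc 1 D).filter Squarefree,
        (if (d : ℤ) ∣ (av p v.2 : ℤ) - av p v.1 then (1 : ℝ) / d else 0) + C2)) =
      2 * (∑ x ∈ G, (1 : ℝ) / av p x * ∑ d ∈ (Icc 1 D).filter Squarefree, (1 : ℝ) / d *
        ∑ y ∈ G.filter (fun y => (d : ℤ) ∣ (av p y : ℤ) - av p x), (1 : ℝ) / av p y) +
      2 * C2 * (∑ x ∈ G, (1 : ℝ) / av p x) ^ 2 := by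
    rw [sum_product, sq, sum_mul_sum, mul_sum, mul_sum, ← sum_add_distrib]
    refine sum_congr rfl fun x _ => ?_
    have e3 : ∑ d ∈ (Icc 1 D).filter Squarefree, (1 : ℝ) / d *
        ∑ y ∈ G.filter (fun y => (d : ℤ) ∣ (av p y : ℤ) - av p x), (1 : ℝ) / av p y =
        ∑ y ∈ G, (1 : ℝ) / av p y * ∑ d ∈ (Icc 1 D).filter Squarefree,
          (if (d : ℤ) ∣ (av p y : ℤ) - av p x then (1 : ℝ) / d else 0) := by
      simp only [mul_sum]
      rw [sum_comm]
      refine sum_congr rfl fun d _ => ?_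
      rw [sum_filter]
      refine sum_congr rfl fun y _ => ?_
      split_ifs <;> ring
    rw [e3]
    simp only [mul_sum, ← sum_add_distrib]
    refine sum_congr rfl fun y _ => ?_
    rw [one_div, mul_inv, one_div, one_div, ← mul_sum, ← mul_sum, ← mul_sum]
    ring
  rw [e2]
  have e4 : ∑ x ∈ G, (1 : ℝ) / av p x * ∑ d ∈ (Icc 1 D).filter Squarefree, (1 : ℝ) / d *
      ∑ y ∈ G.filter (fun y => (d : ℤ) ∣ (av p y : ℤ) - av p x), (1 : ℝ) / av p y ≤
      ∑ x ∈ G, (1 : ℝ) / av p x * (C1 * K) := by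
    refine sum_le_sum fun x _ => mul_le_mul_of_nonneg_left ?_ (by positivity)
    have e5 : ∀ d ∈ (Icc 1 D).filter Squarefree, (1 : ℝ) / d *
        ∑ y ∈ G.filter (fun y => (d : ℤ) ∣ (av p y : ℤ) - av p x), (1 : ℝ) / av p y ≤
        C1 * ((d.divisors.card : ℝ) / (d * Nat.totient d)) := by
      intro d hd
      obtain ⟨hd1, hd2⟩ := mem_filter.1 hd
      obtain ⟨hd3, hd4⟩ := mem_Icc.1 hd1
      have hdw : (d : ℝ) ≤ w ^ (1 / 40 : ℝ) := by
        rw [hD] at hd4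
        exact (Nat.le_floor_iff (by positivity)).1 hd4
      have h := h1 w hw1 d (av p x) hd3 hd2 hdw
      rw [← hG] at h
      have hd0 : (0 : ℝ) < d := by exact_mod_cast hd3
      refine (mul_le_mul_of_nonneg_left h (by positivity)).trans (le_of_eq ?_)
      have ht : (0 : ℝ) < Nat.totient d := by exact_mod_cast Nat.totient_pos.2 hd3
      field_simp
    refine (sum_le_sum e5).trans ?_
    rw [← mul_sum]
    refine mul_le_mul_of_nonneg_left ?_ hC1.le
    exact (sum_le_sum_of_subset_of_nonneg (filter_subset _ _)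
      fun _ _ _ => by positivity).trans (h3 D)
  rw [← sum_mul] at e4
  have e6 : (∑ x ∈ G, (1 : ℝ) / av p x) * (C1 * K) ≤ C1 * (C1 * K) :=
    mul_le_mul_of_nonneg_right hS (by positivity)
  have e7 : (∑ x ∈ G, (1 : ℝ) / av p x) ^ 2 ≤ C1 ^ 2 := pow_le_pow_left₀ hS0 hS 2
  have e8 : 2 * C2 * (∑ x ∈ G, (1 : ℝ) / av p x) ^ 2 ≤ 2 * C2 * C1 ^ 2 :=
    mul_le_mul_of_nonneg_left e7 (by positivity)
  nlinarith

end Pool.Agent.Helper15.AB
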