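import Mathlib
import Pool.Agent.Helper15.AB.StMid
import Pool.Agent.Helper15.AB.StKl
import Pool.Agent.Helper15.AB.M_DD

/-!
# Project AB, module DA: Gaussian divisors on average
-/

set_option autoImplicit false

namespace Pool.Agent.Helper15.AB

open Finset

namespace hDA

theorem abs_le_sq (a : ℤ) : |a| ≤ a ^ 2 := by
  obtain h | h | h : a ≤ -1 ∨ a = 0 ∨ 1 ≤ a := by omega
  · rw [abs_of_neg (by omega)]; nlinarith
  · rw [h]; simp
  · rw [abs_of_pos (by omega)]; nlinarith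

theorem finite_le (Y : ℝ) : {v : ℤ × ℤ | ((v.1 ^ 2 + v.2 ^ 2 : ℤ) : ℝ) ≤ Y}.Finite := by
  refine Set.Finite.subset ((Icc (-⌈Y⌉) ⌈Y⌉) ×ˢ (Icc (-⌈Y⌉) ⌈Y⌉)).finite_toSet ?_
  intro v hv
  have h1 : ((v.1 ^ 2 + v.2 ^ 2 : ℤ) : ℝ) ≤ ((⌈Y⌉ : ℤ) : ℝ) := le_trans hv (Int.le_ceil Y)
  have h2 : v.1 ^ 2 + v.2 ^ 2 ≤ ⌈Y⌉ := by exact_mod_cast h1
  have h3 := abs_le_sq v.1
  have h4 := abs_le_sq v.2
  have h5 := sq_nonneg v.1
  have h6 := sq_nonneg v.2
  rw [coe_product, Set.mem_prod, mem_coe, mem_coe, mem_Icc, mem_Icc]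
  exact ⟨abs_le.1 (by linarith), abs_le.1 (by linarith)⟩

theorem norm_eq (z : GaussianInt) : z.norm = z.re ^ 2 + z.im ^ 2 := by
  rw [Zsqrtd.norm_def]; ring

theorem norm_mk (v : ℤ × ℤ) : (⟨v.1, v.2⟩ : GaussianInt).norm = v.1 ^ 2 + v.2 ^ 2 := norm_eq _

theorem norm_pos {z : GaussianInt} (hz : z ≠ 0) : 0 < z.norm := by
  have h1 := GaussianInt.norm_nonneg z
  have h2 : z.norm ≠ 0 := by
    intro h
    exact hz ((Zsqrtd.norm_eq_zero_iff (by norm_num) z).1 h)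
  omega

/-- data of an element of `Gs` -/
theorem norm_Gs {p : ℕ} {w : ℝ} {v : ℤ × ℤ} (hv : v ∈ Gs p w) :
    (⟨v.1, v.2⟩ : GaussianInt).norm = av p v + p := by
  obtain ⟨h1, -, -⟩ := hDD.mem_Gs hv
  rw [norm_mk]
  have h2 := h1.pos
  unfold av at h2 ⊢
  omega

open Classical in
/-- the number of divisors -/
theorem card_dv (hNB : StNB) (z : GaussianInt) (hz : z ≠ 0) :
    (dv z).card ≤ 4 * z.norm.natAbs.divisors.card ^ 2 := by
  have hn := norm_pos hz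
  have hmap : ∀ β ∈ dv z, β.norm.natAbs ∈ z.norm.natAbs.divisors := by
    intro β hβ
    obtain ⟨-, hd⟩ := mem_filter.1 hβ
    rw [Nat.mem_divisors]
    refine ⟨?_, by omega⟩
    obtain ⟨γ, hγ⟩ := hd
    rw [hγ, Zsqrtd.norm_mul, Int.natAbs_mul]
    exact Dvd.intro _ rfl
  rw [card_eq_sum_card_fiberwise hmap]
  have h1 : ∀ m ∈ z.norm.natAbs.divisors,
      ((dv z).filter (fun β => β.norm.natAbs = m)).card ≤ 4 * z.norm.natAbs.divisors.card := by
    intro m hm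
    obtain ⟨hm1, hm2⟩ := Nat.mem_divisors.1 hm
    have hm0 : 1 ≤ m := Nat.pos_of_dvd_of_pos hm1 (by omega)
    refine le_trans ?_ ((hNB m hm0).trans (Nat.mul_le_mul_left _
      (card_le_card (Nat.divisors_subset_of_dvd hm2 hm1))))
    rw [← Set.ncard_coe_finset]
    refine Set.ncard_le_ncard ?_ ?_
    · intro β hβ
      have h2 := (mem_filter.1 (mem_coe.1 hβ)).2
      have h3 := GaussianInt.norm_nonneg β
      show β.norm = (m : ℤ)
      omega
    · refine Set.Finite.subset (gb (m : ℝ)).finite_toSet ?_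
      intro β hβ
      have hβ' : β.norm = (m : ℤ) := hβ
      rw [mem_coe, mem_gb]
      refine ⟨?_, by rw [hβ']; simp⟩
      intro h0
      rw [h0, Zsqrtd.norm_zero] at hβ'
      omega
  refine (sum_le_card_nsmul _ _ _ h1).trans (le_of_eq ?_)
  rw [smul_eq_mul]; ring

/-- the sieve bound in a dyadic block -/
theorem block (p : ℕ) (C : ℝ) (hC : 0 < C)
    (hS : ∀ (c k : ℕ) (v₀ : ℤ × ℤ) (Y : ℝ),
      1 ≤ c → ¬ p ∣ c → 1 ≤ k → 2 ≤ Y → ((c * k : ℕ) : ℝ) ≤ Y ^ (1 / 20 : ℝ) →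
      (Set.ncard {v : ℤ × ℤ | ((v.1 ^ 2 + v.2 ^ 2 : ℤ) : ℝ) ≤ Y ∧ (k : ℤ) ∣ v.1 - v₀.1 ∧
        (k : ℤ) ∣ v.2 - v₀.2 ∧ ((c : ℤ) * (v.1 ^ 2 + v.2 ^ 2) - p).toNat.Prime} : ℝ) ≤
      C * Y / ((k : ℝ) ^ 2 * Real.log Y) * (((c * k : ℕ) : ℝ) / Nat.totient (c * k)))
    (w A : ℝ) (hw : 4 ≤ w) (hwp : (p : ℝ) ≤ w) (hA : w ≤ A) (β : GaussianInt) (n : ℕ)
    (hn : β.norm = (n : ℤ)) (hn1 : 1 ≤ n) (hpn : ¬ p ∣ n) (hnw : (n : ℝ) ≤ w ^ (1 / 40 : ℝ))
    (T : Finset (ℤ × ℤ)) (hT : ∀ v ∈ T, v ∈ Gs p w ∧ β ∣ (⟨v.1, v.2⟩ : GaussianInt) ∧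
      (av p v : ℝ) ≤ 2 * A) :
    (T.card : ℝ) ≤ 6 * C * A / (Nat.totient n * Real.log w) := by
  have hw0 : 0 < w := by linarith
  have hn0 : (0 : ℝ) < n := by exact_mod_cast hn1
  have hwl : 0 < Real.log w := Real.log_pos (by linarith)
  have ht : (0 : ℝ) < Nat.totient n := by exact_mod_cast Nat.totient_pos.2 hn1
  obtain ⟨Y, hY⟩ : ∃ Y, Y = 3 * A / n := ⟨_, rfl⟩
  have hYw : w ^ (1 / 2 : ℝ) ≤ Y := by
    rw [hY, le_div_iff₀ hn0]
    calc w ^ (1 / 2 : ℝ) * n ≤ w ^ (1 / 2 : ℝ) * w ^ (1 / 40 : ℝ) :=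
          mul_le_mul_of_nonneg_left hnw (by positivity)
      _ = w ^ (1 / 2 + 1 / 40 : ℝ) := by rw [Real.rpow_add hw0]
      _ ≤ w ^ (1 : ℝ) := Real.rpow_le_rpow_of_exponent_le (by linarith) (by norm_num)
      _ = w := Real.rpow_one w
      _ ≤ 3 * A := by linarith
  have hw2 : 2 ≤ w ^ (1 / 2 : ℝ) := by
    rw [← Real.sqrt_eq_rpow]
    refine Real.le_sqrt_of_sq_le ?_
    linarith
  have hY2 : 2 ≤ Y := hw2.trans hYw
  have hY20 : w ^ (1 / 40 : ℝ) ≤ Y ^ (1 / 20 : ℝ) := by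
    calc w ^ (1 / 40 : ℝ) = (w ^ (1 / 2 : ℝ)) ^ (1 / 20 : ℝ) := by
          rw [← Real.rpow_mul hw0.le]; norm_num
      _ ≤ _ := Real.rpow_le_rpow (by positivity) hYw (by norm_num)
  have hlog : 1 / 2 * Real.log w ≤ Real.log Y := by
    rw [← Real.log_rpow hw0]
    exact Real.log_le_log (by positivity) hYw
  have h := hS n 1 (0, 0) Y hn1 hpn le_rfl hY2 (by rw [mul_one]; exact hnw.trans hY20)
  choose! γ hγ using fun v (hv : v ∈ T) => (hT v hv).2.1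
  have hinj : Set.InjOn (fun v => ((γ v).re, (γ v).im)) (T : Set (ℤ × ℤ)) := by
    intro v hv v' hv' he
    simp only [Prod.mk.injEq] at he
    have h1 : γ v = γ v' := Zsqrtd.ext he.1 he.2
    have h2 := hγ v hv
    have h3 := hγ v' hv'
    rw [h1] at h2
    rw [← h3] at h2
    have h4 := congrArg Zsqrtd.re h2
    have h5 := congrArg Zsqrtd.im h2
    exact Prod.ext h4 h5
  have hcard : (T.card : ℝ) ≤ (Set.ncard {v : ℤ × ℤ | ((v.1 ^ 2 + v.2 ^ 2 : ℤ) : ℝ) ≤ Y ∧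
      ((1 : ℕ) : ℤ) ∣ v.1 - ((0, 0) : ℤ × ℤ).1 ∧ ((1 : ℕ) : ℤ) ∣ v.2 - ((0, 0) : ℤ × ℤ).2 ∧
      ((n : ℤ) * (v.1 ^ 2 + v.2 ^ 2) - p).toNat.Prime} : ℝ) := by
    rw [← card_image_of_injOn hinj, ← Set.ncard_coe_finset]
    refine Nat.cast_le.2 ?_
    refine Set.ncard_le_ncard ?_ (Set.Finite.subset (finite_le Y) (by intro v hv; exact hv.1))
    intro u hu
    obtain ⟨v, hv, rfl⟩ := mem_image.1 (mem_coe.1 hu)
    obtain ⟨hvG, -, hvA⟩ := hT v hv
    have h1 := norm_Gs hvG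
    have h2 : (n : ℤ) * ((γ v).re ^ 2 + (γ v).im ^ 2) = av p v + p := by
      rw [← norm_eq, ← hn, ← Zsqrtd.norm_mul, ← hγ v hv, h1]
    have h3 := hDD.mem_Gs hvG
    refine ⟨?_, ?_, ?_, ?_⟩
    · rw [hY, le_div_iff₀ hn0]
      have h4 : (((n : ℤ) * ((γ v).re ^ 2 + (γ v).im ^ 2) : ℤ) : ℝ) = (av p v : ℝ) + p := by
        rw [h2]; push_cast; rfl
      push_cast at h4 ⊢
      rw [mul_comm, h4]
      linarith
    · simp
    · simp
    · show ((n : ℤ) * ((γ v).re ^ 2 + (γ v).im ^ 2) - p).toNat.Prime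
      rw [h2]
      have h5 : ((av p v : ℤ) + p - p).toNat = av p v := by omega
      rw [h5]
      exact h3.1
  refine (hcard.trans h).trans ?_
  rw [mul_one, Nat.cast_one, one_pow, one_mul]
  calc C * Y / Real.log Y * ((n : ℝ) / Nat.totient n) ≤
      C * Y / (1 / 2 * Real.log w) * ((n : ℝ) / Nat.totient n) := by
        refine mul_le_mul_of_nonneg_right ?_ (by positivity)
        exact div_le_div_of_nonneg_left (by positivity) (by positivity) hlog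
    _ = 6 * C * A / (Nat.totient n * Real.log w) := by
        rw [hY]; field_simp; ring

open Classical in
/-- fixed divisor -/
theorem fixed (p : ℕ) (hp : p.Prime) (C : ℝ) (hC : 0 < C)
    (hS : ∀ (c k : ℕ) (v₀ : ℤ × ℤ) (Y : ℝ),
      1 ≤ c → ¬ p ∣ c → 1 ≤ k → 2 ≤ Y → ((c * k : ℕ) : ℝ) ≤ Y ^ (1 / 20 : ℝ) →
      (Set.ncard {v : ℤ × ℤ | ((v.1 ^ 2 + v.2 ^ 2 : ℤ) : ℝ) ≤ Y ∧ (k : ℤ) ∣ v.1 - v₀.1 ∧
        (k : ℤ) ∣ v.2 - v₀.2 ∧ ((c : ℤ) * (v.1 ^ 2 + v.2 ^ 2) - p).toNat.Prime} : ℝ) ≤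
      C * Y / ((k : ℝ) ^ 2 * Real.log Y) * (((c * k : ℕ) : ℝ) / Nat.totient (c * k)))
    (w : ℝ) (hw : 4 ≤ w) (hwp : (p : ℝ) < w) (β : GaussianInt) (n : ℕ)
    (hn : β.norm = (n : ℤ)) (hn1 : 1 ≤ n) (hnw : (n : ℝ) ≤ w ^ (1 / 40 : ℝ)) :
    ∑ v ∈ (Gs p w).filter (fun v => β ∣ (⟨v.1, v.2⟩ : GaussianInt)), (1 : ℝ) / av p v ≤
      18 * C / Nat.totient n := by
  have hw0 : 0 < w := by linarith
  have ht : (0 : ℝ) < Nat.totient n := by exact_mod_cast Nat.totient_pos.2 hn1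
  by_cases hpn : p ∣ n
  · rw [sum_eq_zero]
    · positivity
    · intro v hv
      exfalso
      obtain ⟨hvG, γ, hγ⟩ := mem_filter.1 hv
      have h1 := norm_Gs hvG
      obtain ⟨h2, h3, -⟩ := hDD.mem_Gs hvG
      rw [hγ, Zsqrtd.norm_mul, hn] at h1
      have h4 : (p : ℤ) ∣ (av p v : ℤ) := by
        have h5 : (p : ℤ) ∣ (av p v : ℤ) + p := by
          rw [← h1]; exact (Int.natCast_dvd_natCast.2 hpn).mul_right _
        exact (Int.dvd_add_left (dvd_refl _)).1 h5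
      have h5 : p ∣ av p v := Int.natCast_dvd_natCast.1 h4
      have h6 := (Nat.prime_dvd_prime_iff_eq hp h2).1 h5
      rw [← h6] at h3
      linarith
  obtain ⟨J, hJ⟩ : ∃ J, J = Nat.log 2 ⌊w⌋₊ + 1 := ⟨_, rfl⟩
  obtain ⟨jj, hjj⟩ : ∃ jj : ℤ × ℤ → ℕ, ∀ v, jj v = Nat.log 2 ⌊(av p v : ℝ) / w⌋₊ :=
    ⟨_, fun _ => rfl⟩
  have hwl : 1 ≤ Real.log w := by
    rw [Real.le_log_iff_exp_le hw0]
    exact (Real.exp_one_lt_d9.le.trans (by norm_num)).trans hw
  obtain ⟨S, hSS⟩ : ∃ S, S = (Gs p w).filter (fun v => β ∣ (⟨v.1, v.2⟩ : GaussianInt)) :=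
    ⟨_, rfl⟩
  rw [← hSS]
  have hfac : ∀ v ∈ S, (1 : ℕ) ≤ ⌊(av p v : ℝ) / w⌋₊ := by
    intro v hv
    rw [hSS] at hv
    obtain ⟨-, h3, -⟩ := hDD.mem_Gs (mem_filter.1 hv).1
    refine Nat.le_floor ?_
    rw [Nat.cast_one, le_div_iff₀ hw0]; linarith
  have hmap : ∀ v ∈ S, jj v ∈ range J := by
    intro v hv
    rw [hSS] at hv
    obtain ⟨-, -, h3⟩ := hDD.mem_Gs (mem_filter.1 hv).1
    rw [mem_range, hJ, hjj, Nat.lt_succ_iff]
    refine Nat.log_mono_right (Nat.floor_le_floor ?_)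
    rw [div_le_iff₀ hw0]; nlinarith
  rw [← sum_fiberwise_of_maps_to hmap]
  have hb : ∀ j ∈ range J, ∑ v ∈ S.filter (fun v => jj v = j), (1 : ℝ) / av p v ≤
      6 * C / (Nat.totient n * Real.log w) := by
    intro j _
    obtain ⟨A, hA⟩ : ∃ A, A = 2 ^ j * w := ⟨_, rfl⟩
    have hA0 : 0 < A := by rw [hA]; positivity
    have hwA : w ≤ A := by
      rw [hA]
      have : (1 : ℝ) ≤ 2 ^ j := one_le_pow₀ (by norm_num)
      nlinarith
    have hlow : ∀ v ∈ S.filter (fun v => jj v = j), A ≤ (av p v : ℝ) := by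
      intro v hv
      obtain ⟨hv1, hv2⟩ := mem_filter.1 hv
      have h1 := hfac v hv1
      have h2 : 2 ^ j ≤ ⌊(av p v : ℝ) / w⌋₊ := by
        rw [← hv2, hjj]
        exact Nat.pow_log_le_self 2 (by omega)
      have h3 : ((2 ^ j : ℕ) : ℝ) ≤ (av p v : ℝ) / w :=
        (Nat.cast_le.2 h2).trans (Nat.floor_le (by positivity))
      rw [le_div_iff₀ hw0] at h3
      rw [hA]; push_cast at h3; exact h3
    have hup : ∀ v ∈ S.filter (fun v => jj v = j), v ∈ Gs p w ∧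
        β ∣ (⟨v.1, v.2⟩ : GaussianInt) ∧ (av p v : ℝ) ≤ 2 * A := by
      intro v hv
      obtain ⟨hv1, hv2⟩ := mem_filter.1 hv
      have hv3 := hv1
      rw [hSS] at hv3
      obtain ⟨hv4, hv5⟩ := mem_filter.1 hv3
      refine ⟨hv4, hv5, ?_⟩
      have h2 : ⌊(av p v : ℝ) / w⌋₊ < 2 ^ (j + 1) := by
        rw [← hv2, hjj]
        exact Nat.lt_pow_succ_log_self (by norm_num) _
      have h3 : (av p v : ℝ) / w < ((2 ^ (j + 1) : ℕ) : ℝ) := (Nat.floor_lt (by positivity)).1 h2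
      rw [div_lt_iff₀ hw0] at h3
      rw [hA]; push_cast at h3; rw [pow_succ] at h3
      linarith
    have h1 := block p C hC hS w A hw hwp.le hwA β n hn hn1 hpn hnw _ hup
    have h2 : ∑ v ∈ S.filter (fun v => jj v = j), (1 : ℝ) / av p v ≤
        (S.filter (fun v => jj v = j)).card • (1 / A) :=
      sum_le_card_nsmul _ _ _ fun v hv => one_div_le_one_div_of_le hA0 (hlow v hv)
    refine h2.trans ?_
    rw [nsmul_eq_mul, mul_one_div, div_le_iff₀ hA0]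
    refine h1.trans (le_of_eq ?_)
    ring
  refine (sum_le_card_nsmul _ _ _ hb).trans ?_
  rw [card_range, nsmul_eq_mul]
  have hJl : (J : ℝ) ≤ 3 * Real.log w := by
    have h1 : (2 : ℝ) ^ Nat.log 2 ⌊w⌋₊ ≤ w := by
      have h2 : 2 ^ Nat.log 2 ⌊w⌋₊ ≤ ⌊w⌋₊ :=
        Nat.pow_log_le_self 2 (Nat.pos_iff_ne_zero.1 (Nat.floor_pos.2 (by linarith)))
      have h3 : ((2 ^ Nat.log 2 ⌊w⌋₊ : ℕ) : ℝ) ≤ w :=
        (Nat.cast_le.2 h2).trans (Nat.floor_le hw0.le)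
      push_cast at h3; exact h3
    have h2 := Real.log_le_log (by positivity) h1
    rw [Real.log_pow] at h2
    have h3 := Real.log_two_gt_d9
    rw [hJ]; push_cast
    have h4 : (0 : ℝ) ≤ (Nat.log 2 ⌊w⌋₊ : ℝ) := by positivity
    nlinarith
  have hl0 : 0 < Real.log w := by linarith
  calc (J : ℝ) * (6 * C / (Nat.totient n * Real.log w)) ≤
      3 * Real.log w * (6 * C / (Nat.totient n * Real.log w)) :=
        mul_le_mul_of_nonneg_right hJl (by positivity)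
    _ = _ := by field_simp; ring

end hDA

open hDA in
open Classical in
theorem hDA (hS2 : StS2) (hAV : StAV) (hNB : StNB) (hDB : StDB) : StDA := by
  intro p hp hp2
  obtain ⟨C0, hC0, h0⟩ := hS2 p hp hp2
  obtain ⟨C1, w1, hC1, h1⟩ := hAV p hp hp2
  obtain ⟨C2, hC2, h2⟩ := hDB (1 / 160) (by norm_num)
  obtain ⟨K, hK, h3⟩ := hDD.series hDB
  refine ⟨72 * C0 * K + 8 * C2 ^ 2 * C1, max w1 (max 4 (p + 1)), by positivity, ?_⟩
  intro w hw
  have hw1 : w1 ≤ w := (le_max_left _ _).trans hw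
  have hw4 : 4 ≤ w := (le_max_left _ _).trans ((le_max_right _ _).trans hw)
  have hwp : (p : ℝ) + 1 ≤ w := (le_max_right _ _).trans ((le_max_right _ _).trans hw)
  have hw0 : 0 < w := by linarith
  have hp0 : (0 : ℝ) ≤ p := by positivity
  obtain ⟨D, hD⟩ : ∃ D, D = w ^ (1 / 40 : ℝ) := ⟨_, rfl⟩
  have hD1 : 1 ≤ D := by rw [hD]; exact Real.one_le_rpow (by linarith) (by norm_num)
  obtain ⟨G, hG⟩ : ∃ G, G = Gs p w := ⟨_, rfl⟩
  have hS : ∑ v ∈ G, (1 : ℝ) / av p v ≤ C1 := by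
    have h := h1 w hw1 1 0 le_rfl squarefree_one (by rw [Nat.cast_one, ← hD]; exact hD1)
    simp only [Nat.cast_one, isUnit_one, IsUnit.dvd, filter_true, Nat.divisors_one,
      card_singleton, mul_one, Nat.totient_one, div_one] at h
    rw [hG]; exact h
  have hz0 : ∀ v ∈ G, (⟨v.1, v.2⟩ : GaussianInt) ≠ 0 := by
    intro v hv h
    rw [hG] at hv
    have h4 := norm_Gs hv
    rw [h, Zsqrtd.norm_zero] at h4
    have := (hDD.mem_Gs hv).1.pos
    omega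
  rw [← hG]
  -- pointwise bound
  have key : ∀ v ∈ G, sd ⟨v.1, v.2⟩ ≤
      ∑ β ∈ gb D, (if β ∣ (⟨v.1, v.2⟩ : GaussianInt) then (1 : ℝ) / β.norm else 0) +
        8 * C2 ^ 2 := by
    intro v hv
    obtain ⟨z, hz⟩ : ∃ z : GaussianInt, z = ⟨v.1, v.2⟩ := ⟨_, rfl⟩
    have hz1 : z ≠ 0 := by rw [hz]; exact hz0 v hv
    rw [← hz]
    unfold sd
    rw [← sum_filter_add_sum_filter_not (dv z) (fun β => (β.norm : ℝ) ≤ D)]
    refine add_le_add ?_ ?_
    · rw [← sum_filter]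
      refine sum_le_sum_of_subset_of_nonneg ?_ fun β _ _ => ?_
      · intro β hβ
        obtain ⟨h4, h5⟩ := mem_filter.1 hβ
        obtain ⟨h6, h7⟩ := mem_filter.1 h4
        rw [mem_filter, mem_gb]
        exact ⟨⟨((mem_gb _ _).1 h6).1, h5⟩, h7⟩
      · have := GaussianInt.norm_nonneg β
        have h8 : (0 : ℝ) ≤ β.norm := by exact_mod_cast this
        positivity
    · have hb : ∀ β ∈ (dv z).filter (fun β => ¬ (β.norm : ℝ) ≤ D), (1 : ℝ) / β.norm ≤ 1 / D := by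
        intro β hβ
        have := (mem_filter.1 hβ).2
        push Not at this
        exact one_div_le_one_div_of_le (by linarith) this.le
      refine (sum_le_card_nsmul _ _ _ hb).trans ?_
      rw [nsmul_eq_mul, mul_one_div, div_le_iff₀ (by linarith)]
      have hc1 : (((dv z).filter (fun β => ¬ (β.norm : ℝ) ≤ D)).card : ℝ) ≤
          4 * (z.norm.natAbs.divisors.card : ℝ) ^ 2 := by
        refine le_trans (Nat.cast_le.2 (card_le_card (filter_subset _ _))) ?_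
        exact_mod_cast card_dv hNB z hz1
      have hzn : ((z.norm.natAbs : ℕ) : ℝ) ≤ 2 * w ^ 2 := by
        rw [hG] at hv
        have h4 := norm_Gs hv
        obtain ⟨-, -, h5⟩ := hDD.mem_Gs hv
        rw [← hz] at h4
        have h6 : ((z.norm.natAbs : ℕ) : ℝ) = (av p v : ℝ) + p := by
          rw [h4]
          have : ((av p v : ℤ) + p).natAbs = av p v + p := by omega
          rw [this]; push_cast; rfl
        rw [h6]
        nlinarith
      have hzn1 : 1 ≤ z.norm.natAbs := by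
        have := norm_pos hz1
        omega
      have h4 := h2 z.norm.natAbs hzn1
      have h5 : ((z.norm.natAbs : ℕ) : ℝ) ^ (1 / 160 : ℝ) ≤ (2 * w ^ 2) ^ (1 / 160 : ℝ) :=
        Real.rpow_le_rpow (by positivity) hzn (by norm_num)
      have h6 : ((2 * w ^ 2) ^ (1 / 160 : ℝ)) ^ 2 = 2 ^ (1 / 80 : ℝ) * D := by
        rw [← Real.rpow_natCast, ← Real.rpow_mul (by positivity), Real.mul_rpow (by norm_num)
          (by positivity), hD, ← Real.rpow_natCast w, ← Real.rpow_mul hw0.le]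
        norm_num
      have h7 : (2 : ℝ) ^ (1 / 80 : ℝ) ≤ 2 := by
        calc (2 : ℝ) ^ (1 / 80 : ℝ) ≤ 2 ^ (1 : ℝ) :=
              Real.rpow_le_rpow_of_exponent_le (by norm_num) (by norm_num)
          _ = 2 := Real.rpow_one 2
      have h8 : (z.norm.natAbs.divisors.card : ℝ) ≤ C2 * (2 * w ^ 2) ^ (1 / 160 : ℝ) :=
        h4.trans (mul_le_mul_of_nonneg_left h5 (by linarith))
      have h9 : (z.norm.natAbs.divisors.card : ℝ) ^ 2 ≤ C2 ^ 2 * (2 * D) := by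
        refine (pow_le_pow_left₀ (by positivity) h8 2).trans ?_
        rw [mul_pow, h6]
        refine mul_le_mul_of_nonneg_left ?_ (by positivity)
        exact mul_le_mul_of_nonneg_right h7 (by linarith)
      nlinarith
  have e1 : ∑ v ∈ G, (1 : ℝ) / av p v * sd ⟨v.1, v.2⟩ ≤
      ∑ v ∈ G, (1 : ℝ) / av p v * (∑ β ∈ gb D,
        (if β ∣ (⟨v.1, v.2⟩ : GaussianInt) then (1 : ℝ) / β.norm else 0) + 8 * C2 ^ 2) :=
    sum_le_sum fun v hv => mul_le_mul_of_nonneg_left (key v hv) (by positivity)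
  refine e1.trans ?_
  have e2 : ∑ v ∈ G, (1 : ℝ) / av p v * (∑ β ∈ gb D,
        (if β ∣ (⟨v.1, v.2⟩ : GaussianInt) then (1 : ℝ) / β.norm else 0) + 8 * C2 ^ 2) =
      ∑ β ∈ gb D, (1 : ℝ) / β.norm *
        ∑ v ∈ G.filter (fun v => β ∣ (⟨v.1, v.2⟩ : GaussianInt)), (1 : ℝ) / av p v +
      8 * C2 ^ 2 * ∑ v ∈ G, (1 : ℝ) / av p v := by
    simp only [mul_add, sum_add_distrib, mul_sum]
    rw [sum_comm]
    congr 1
    · refine sum_congr rfl fun β _ => ?_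
      rw [sum_filter]
      refine sum_congr rfl fun v _ => ?_
      split_ifs <;> ring
    · refine sum_congr rfl fun v _ => ?_
      ring
  rw [e2]
  refine add_le_add ?_ (mul_le_mul_of_nonneg_left hS (by positivity))
  have e3 : ∀ β ∈ gb D, (1 : ℝ) / β.norm *
        ∑ v ∈ G.filter (fun v => β ∣ (⟨v.1, v.2⟩ : GaussianInt)), (1 : ℝ) / av p v ≤
      18 * C0 * (1 / ((β.norm.natAbs : ℕ) * (Nat.totient β.norm.natAbs : ℝ))) := by
    intro β hβ
    obtain ⟨hβ0, hβD⟩ := (mem_gb _ _).1 hβ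
    have hn := norm_pos hβ0
    obtain ⟨n, hn'⟩ : ∃ n : ℕ, n = β.norm.natAbs := ⟨_, rfl⟩
    have hn1 : 1 ≤ n := by omega
    have hn2 : β.norm = (n : ℤ) := by omega
    have hn3 : (β.norm : ℝ) = n := by rw [hn2]; simp
    have hn4 : (n : ℝ) ≤ w ^ (1 / 40 : ℝ) := by rw [← hn3, ← hD]; exact hβD
    have h4 := fixed p hp C0 hC0 h0 w hw4 (by linarith) β n hn2 hn1 hn4
    rw [← hn', hn3, hG]
    have hn0 : (0 : ℝ) < n := by exact_mod_cast hn1
    have ht : (0 : ℝ) < Nat.totient n := by exact_mod_cast Nat.totient_pos.2 hn1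
    refine (mul_le_mul_of_nonneg_left h4 (by positivity)).trans (le_of_eq ?_)
    field_simp
  refine (sum_le_sum e3).trans ?_
  rw [← mul_sum]
  have hmap : ∀ β ∈ gb D, β.norm.natAbs ∈ Icc 1 ⌊D⌋₊ := by
    intro β hβ
    obtain ⟨hβ0, hβD⟩ := (mem_gb _ _).1 hβ
    have hn := norm_pos hβ0
    rw [mem_Icc]
    refine ⟨by omega, Nat.le_floor ?_⟩
    have : ((β.norm.natAbs : ℕ) : ℝ) = (β.norm : ℝ) := by
      rw [Nat.cast_natAbs, abs_of_pos hn]
    rw [this]; exact hβD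
  rw [← sum_fiberwise_of_maps_to hmap]
  have e4 : ∀ n ∈ Icc 1 ⌊D⌋₊, ∑ β ∈ (gb D).filter (fun β => β.norm.natAbs = n),
      (1 / ((β.norm.natAbs : ℕ) * (Nat.totient β.norm.natAbs : ℝ))) ≤
      4 * ((n.divisors.card : ℝ) / (n * Nat.totient n)) := by
    intro n hn
    obtain ⟨hn1, -⟩ := mem_Icc.1 hn
    have hn0 : (0 : ℝ) < n := by exact_mod_cast hn1
    have ht : (0 : ℝ) < Nat.totient n := by exact_mod_cast Nat.totient_pos.2 hn1
    have h4 : ∑ β ∈ (gb D).filter (fun β => β.norm.natAbs = n),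
        (1 / ((β.norm.natAbs : ℕ) * (Nat.totient β.norm.natAbs : ℝ))) =
        ((gb D).filter (fun β => β.norm.natAbs = n)).card * (1 / ((n : ℝ) * Nat.totient n)) := by
      rw [← nsmul_eq_mul, ← sum_const]
      refine sum_congr rfl fun β hβ => ?_
      rw [(mem_filter.1 hβ).2]
    rw [h4]
    have h5 : (((gb D).filter (fun β => β.norm.natAbs = n)).card : ℝ) ≤
        4 * (n.divisors.card : ℝ) := by
      have h6 : ((gb D).filter (fun β => β.norm.natAbs = n)).card ≤ 4 * n.divisors.card := by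
        refine le_trans ?_ (hNB n hn1)
        rw [← Set.ncard_coe_finset]
        refine Set.ncard_le_ncard ?_ ?_
        · intro β hβ
          have h2 := (mem_filter.1 (mem_coe.1 hβ)).2
          have h3 := GaussianInt.norm_nonneg β
          show β.norm = (n : ℤ)
          omega
        · refine Set.Finite.subset (gb (n : ℝ)).finite_toSet ?_
          intro β hβ
          have hβ' : β.norm = (n : ℤ) := hβ
          rw [mem_coe, mem_gb]
          refine ⟨?_, by rw [hβ']; simp⟩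
          intro h0
          rw [h0, Zsqrtd.norm_zero] at hβ'
          omega
      exact_mod_cast h6
    refine (mul_le_mul_of_nonneg_right h5 (by positivity)).trans (le_of_eq ?_)
    field_simp
  refine (mul_le_mul_of_nonneg_left (sum_le_sum e4) (by positivity)).trans ?_
  rw [← mul_sum]
  have e5 := h3 ⌊D⌋₊
  have e6 : 18 * C0 * (4 * ∑ d ∈ Icc 1 ⌊D⌋₊, (d.divisors.card : ℝ) / (d * Nat.totient d)) ≤
      18 * C0 * (4 * K) :=
    mul_le_mul_of_nonneg_left (mul_le_mul_of_nonneg_left e5 (by norm_num)) (by positivity)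
  linarith

end Pool.Agent.Helper15.AB
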