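import Mathlib
import Pool.Agent.Helper15.AB.StMid
import Pool.Agent.Helper28.PC.N3

/-!
# AB module DB: the divisor bound
-/

set_option autoImplicit false

namespace Pool.Agent.Helper15.AB

theorem hDB : StDB := by
  intro ε hε
  obtain ⟨C, hC, h⟩ := Pool.Agent.Helper28.PC.N3 ε hε
  exact ⟨C, hC, h⟩

end Pool.Agent.Helper15.AB
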