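import Mathlib
import Pool.Agent.Helper15.AB.StMid
import Pool.Agent.Helper15.AB.StKl

set_option autoImplicit false

namespace Pool.Agent.Helper15.AB

open Finset

namespace hDG

theorem norm_eq (u : GaussianInt) : u.norm = u.re * u.re + u.im * u.im := by
  rw [Zsqrtd.norm_def]; ring

theorem norm_nonneg (u : GaussianInt) : 0 ≤ u.norm := GaussianInt.norm_nonneg u

theorem norm_pos {u : GaussianInt} (h : u ≠ 0) : 0 < u.norm := GaussianInt.norm_pos.2 h

theorem norm_mul (u v : GaussianInt) : (u * v).norm = u.norm * v.norm := Zsqrtd.norm_mul u v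

theorem norm_star (u : GaussianInt) : (star u).norm = u.norm := by
  rw [norm_eq, norm_eq]; simp

theorem mul_star_self' (u : GaussianInt) : u * star u = ((u.norm : ℤ) : GaussianInt) := by
  rw [Zsqrtd.norm_eq_mul_conj]

theorem norm_natCast (c : ℕ) : (c : GaussianInt).norm = (c : ℤ) ^ 2 := by
  rw [norm_eq]; simp; ring

theorem star_natCast (c : ℕ) : star (c : GaussianInt) = (c : GaussianInt) := by
  ext <;> simp

theorem natCast_dvd (c : ℕ) (u : GaussianInt) :
    (c : GaussianInt) ∣ u ↔ (c : ℤ) ∣ u.re ∧ (c : ℤ) ∣ u.im := by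
  have h : ((c : ℤ) : GaussianInt) = (c : GaussianInt) := by push_cast; rfl
  rw [← h]
  exact Zsqrtd.intCast_dvd (c : ℤ) u

theorem mem_U4_of_norm {u : GaussianInt} (h : u.norm = 1) : u ∈ U4 := by
  rw [norm_eq] at h
  have h1 : u.re ≤ 1 := by nlinarith
  have h2 : -1 ≤ u.re := by nlinarith
  have h3 : u.im ≤ 1 := by nlinarith
  have h4 : -1 ≤ u.im := by nlinarith
  unfold U4
  simp only [mem_insert, mem_singleton]
  obtain ⟨x, y⟩ := u
  simp only at h h1 h2 h3 h4
  interval_cases x <;> interval_cases y <;> simp_all [Zsqrtd.ext_iff]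

theorem U4_norm {u : GaussianInt} (h : u ∈ U4) : u.norm = 1 := by
  unfold U4 at h
  simp only [mem_insert, mem_singleton] at h
  rcases h with h | h | h | h <;> rw [h, norm_eq] <;> simp

theorem star_mem_U4 {u : GaussianInt} (h : u ∈ U4) : star u ∈ U4 := by
  apply mem_U4_of_norm
  rw [norm_star, U4_norm h]

/-- decomposition of pairs of equal norm -/
theorem dec (u u' : GaussianInt) (hu : u ≠ 0) (h : u.norm = u'.norm) :
    ∃ δ α ε : GaussianInt, ε ∈ U4 ∧ PrA α ∧ u = δ * α ∧ u' = ε * δ * star α ∧ δ ≠ 0 ∧ α ≠ 0 := by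
  classical
  obtain ⟨α, hα⟩ := EuclideanDomain.gcd_dvd_left u u'
  obtain ⟨β, hβ⟩ := EuclideanDomain.gcd_dvd_right u u'
  set δ := EuclideanDomain.gcd u u' with hδ
  have hδ0 : δ ≠ 0 := by
    intro h0
    rw [h0, zero_mul] at hα
    exact hu hα
  have hcop : IsCoprime α β := by
    have := EuclideanDomain.gcd_eq_gcd_ab u u'
    rw [← hδ] at this
    refine ⟨EuclideanDomain.gcdA u u', EuclideanDomain.gcdB u u', ?_⟩
    apply mul_left_cancel₀ hδ0
    rw [mul_one]
    calc δ * (EuclideanDomain.gcdA u u' * α + EuclideanDomain.gcdB u u' * β)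
        = (δ * α) * EuclideanDomain.gcdA u u' + (δ * β) * EuclideanDomain.gcdB u u' := by ring
      _ = δ := by rw [← hα, ← hβ]; exact this.symm
  have hα0 : α ≠ 0 := by
    intro h0
    rw [h0, mul_zero] at hα
    exact hu hα
  have hnn : α.norm = β.norm := by
    have h1 : δ.norm * α.norm = δ.norm * β.norm := by
      rw [← norm_mul, ← norm_mul, ← hα, ← hβ]; exact h
    exact mul_left_cancel₀ (norm_pos hδ0).ne' h1
  have hβ0 : β ≠ 0 := by
    intro h0
    have := norm_pos hα0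
    rw [hnn, h0] at this
    simp at this
  have hmul : α * star α = β * star β := by
    rw [mul_star_self', mul_star_self', hnn]
  have d1 : α ∣ star β := by
    apply hcop.dvd_of_dvd_mul_left
    rw [← hmul]
    exact dvd_mul_right _ _
  obtain ⟨e, he⟩ := d1
  have hen : e.norm = 1 := by
    have h1 : (star β).norm = α.norm * e.norm := by rw [he, norm_mul]
    rw [norm_star, ← hnn] at h1
    have h2 := norm_pos hα0
    have h3 : α.norm * 1 = α.norm * e.norm := by rw [mul_one]; exact h1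
    exact (mul_left_cancel₀ h2.ne' h3).symm
  have hβ' : β = star e * star α := by
    have : star (star β) = star (α * e) := by rw [he]
    rw [star_star, star_mul] at this
    exact this
  refine ⟨δ, α, star e, star_mem_U4 (mem_U4_of_norm hen), ?_, hα, ?_, hδ0, hα0⟩
  · intro c hc
    have hc2 : (c : GaussianInt) ∣ β := by
      rw [hβ']
      apply Dvd.dvd.mul_left
      obtain ⟨k, hk⟩ := hc
      refine ⟨star k, ?_⟩
      rw [hk, star_mul, star_natCast, mul_comm]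
    have hu' : IsUnit (c : GaussianInt) := hcop.isUnit_of_dvd' hc hc2
    have hn1 : (c : GaussianInt).norm.natAbs = 1 := Zsqrtd.norm_eq_one_iff.2 hu'
    rw [norm_natCast] at hn1
    have h3 : (c : ℤ) ^ 2 = 1 := by
      have h4 : 0 ≤ (c : ℤ) ^ 2 := by positivity
      omega
    have : c ^ 2 = 1 := by exact_mod_cast h3
    exact (Nat.pow_eq_one.1 this).resolve_right (by norm_num)
  · rw [hβ, hβ']; ring

/-- the subgroup attached to `β` -/
def Mb (a : ℕ) (β : GaussianInt) : AddSubgroup GaussianInt where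
  carrier := {δ | (a : ℤ) ∣ (star β * δ).im}
  add_mem' := by
    intro x y hx hy
    simp only [Set.mem_ofPred_eq] at *
    rw [mul_add, Zsqrtd.im_add]
    exact dvd_add hx hy
  zero_mem' := by simp
  neg_mem' := by
    intro x hx
    simp only [Set.mem_ofPred_eq] at *
    rw [mul_neg, Zsqrtd.im_neg]
    exact (dvd_neg).2 hx

theorem mem_Mb {a : ℕ} {β δ : GaussianInt} : δ ∈ Mb a β ↔ (a : ℤ) ∣ (star β * δ).im := Iff.rfl

theorem Mb_ne_top {a : ℕ} {β : GaussianInt} (h : ¬ (a : GaussianInt) ∣ β) : Mb a β ≠ ⊤ := by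
  intro ht
  apply h
  rw [natCast_dvd]
  have h1 : (1 : GaussianInt) ∈ Mb a β := by rw [ht]; trivial
  have h2 : (⟨0, 1⟩ : GaussianInt) ∈ Mb a β := by rw [ht]; trivial
  rw [mem_Mb] at h1 h2
  constructor
  · simpa using h2
  · simpa using h1

theorem Mb_mul {a : ℕ} {β : GaussianInt} (u : GaussianInt) : (a : GaussianInt) * u ∈ Mb a β := by
  rw [mem_Mb]
  have : star β * ((a : GaussianInt) * u) = (a : GaussianInt) * (star β * u) := by ring
  rw [this]
  exact ((natCast_dvd a _).1 (dvd_mul_right _ _)).2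

/-- two functionals -/
theorem two_fun {a : ℕ} (ha : a.Prime) {β γ δ : GaussianInt} (h1 : δ ∈ Mb a β) (h2 : δ ∈ Mb a γ)
    (h3 : ¬ (a : GaussianInt) ∣ δ) : (a : ℤ) ∣ (star β * γ).im := by
  rw [mem_Mb] at h1 h2
  by_contra hcon
  apply h3
  have hp : Prime (a : ℤ) := Nat.prime_iff_prime_int.1 ha
  rw [natCast_dvd]
  simp only [Zsqrtd.im_mul, Zsqrtd.re_star, Zsqrtd.im_star] at h1 h2 hcon
  obtain ⟨k, hk⟩ := h1
  obtain ⟨l, hl⟩ := h2
  constructor
  · have : (a : ℤ) ∣ (β.re * γ.im + -β.im * γ.re) * δ.re := by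
      refine ⟨k * γ.re - l * β.re, ?_⟩
      linear_combination γ.re * hk - β.re * hl
    exact (hp.dvd_or_dvd this).resolve_left hcon
  · have : (a : ℤ) ∣ (β.re * γ.im + -β.im * γ.re) * δ.im := by
      refine ⟨k * γ.im - l * β.im, ?_⟩
      linear_combination γ.im * hk - β.im * hl
    exact (hp.dvd_or_dvd this).resolve_left hcon

open Classical in
theorem coe_filter_gb (S : ℝ) (P : GaussianInt → Prop) :
    (((gb S).filter P : Finset GaussianInt) : Set GaussianInt) =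
      {u | P u ∧ u ≠ 0 ∧ (u.norm : ℝ) ≤ S} := by
  ext u
  rw [mem_coe, mem_filter, mem_gb]
  constructor
  · rintro ⟨h1, h2⟩; exact ⟨h2, h1⟩
  · rintro ⟨h1, h2⟩; exact ⟨h2, h1⟩

open Classical in
theorem cnt_LP (hLP : StLP) : ∃ C : ℝ, 0 < C ∧ ∀ (a : ℕ) (β : GaussianInt) (S : ℝ), a.Prime →
    ¬ (a : GaussianInt) ∣ β → 0 ≤ S →
    (((gb S).filter (fun δ => δ ∈ Mb a β)).card : ℝ) ≤ C * (S / a + √S) := by
  obtain ⟨C, hC, h⟩ := hLP
  refine ⟨C, hC, fun a β S ha hβ hS => ?_⟩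
  have h1 := h (Mb a β) a S ha (fun u => Mb_mul u) (Mb_ne_top hβ) hS
  rw [← Set.ncard_coe_finset, coe_filter_gb]
  exact h1

theorem norm_ge_one {u : GaussianInt} (h : u ≠ 0) : (1 : ℝ) ≤ (u.norm : ℝ) := by
  have := norm_pos h
  exact_mod_cast this

theorem card_gb (S : ℝ) (hS : 0 ≤ S) : ((gb S).card : ℝ) ≤ 9 * S := by
  classical
  rcases lt_or_ge S 1 with h1 | h1
  · have : gb S = ∅ := by
      rw [Finset.eq_empty_iff_forall_notMem]
      intro u hu
      rw [mem_gb] at hu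
      have := norm_ge_one hu.1
      linarith [hu.2]
    rw [this]; simp; exact hS
  · set R : ℤ := ⌊√S⌋ with hR
    have hR0 : 0 ≤ R := Int.floor_nonneg.2 (Real.sqrt_nonneg _)
    have hsub : gb S ⊆ ((Icc (-R) R) ×ˢ (Icc (-R) R)).image
        (fun v : ℤ × ℤ => (⟨v.1, v.2⟩ : GaussianInt)) := by
      intro u hu
      rw [mem_gb] at hu
      rw [mem_image]
      refine ⟨(u.re, u.im), ?_, rfl⟩
      have hn := norm_eq u
      have hnr : (u.norm : ℝ) = (u.re : ℝ) * u.re + (u.im : ℝ) * u.im := by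
        rw [hn]; push_cast; ring
      have k1 : |(u.re : ℝ)| ≤ √S := by
        apply Real.abs_le_sqrt
        nlinarith [hu.2, mul_self_nonneg (u.im : ℝ)]
      have k2 : |(u.im : ℝ)| ≤ √S := by
        apply Real.abs_le_sqrt
        nlinarith [hu.2, mul_self_nonneg (u.re : ℝ)]
      have m1 : |u.re| ≤ R := by
        rw [hR, Int.le_floor]; push_cast; exact k1
      have m2 : |u.im| ≤ R := by
        rw [hR, Int.le_floor]; push_cast; exact k2
      rw [mem_product, mem_Icc, mem_Icc]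
      exact ⟨abs_le.1 m1, abs_le.1 m2⟩
    have hc := (card_le_card hsub).trans card_image_le
    rw [card_product, Int.card_Icc] at hc
    have e1 : (((R + 1 - -R).toNat : ℕ) : ℝ) = 2 * (R : ℝ) + 1 := by
      have : (((R + 1 - -R).toNat : ℕ) : ℤ) = 2 * R + 1 := by omega
      rw [← Int.cast_natCast (R + 1 - -R).toNat, this]
      push_cast; ring
    have hc' : ((gb S).card : ℝ) ≤ (2 * (R : ℝ) + 1) * (2 * (R : ℝ) + 1) := by
      rw [← e1]; exact_mod_cast hc
    have h2 : (R : ℝ) ≤ √S := Int.floor_le _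
    have h3 : (0 : ℝ) ≤ R := by exact_mod_cast hR0
    have h4 : (1 : ℝ) ≤ √S := Real.one_le_sqrt.2 h1
    have h5 : √S * √S = S := Real.mul_self_sqrt hS
    nlinarith

/-- layer cake -/
theorem layer (N K : ℕ) (hN : 1 ≤ N) (hNK : N ≤ K) :
    (1 : ℝ) / N = 1 / ((K : ℝ) + 1) + ∑ k ∈ Icc N K, 1 / ((k : ℝ) * (k + 1)) := by
  induction K, hNK using Nat.le_induction with
  | base =>
    have : (0 : ℝ) < N := by exact_mod_cast hN
    rw [Icc_self, sum_singleton]; field_simp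
  | succ K hK ih =>
    rw [ih, ← Finset.insert_Icc_right_eq_Icc_add_one (by omega), sum_insert (by simp)]
    have : (0 : ℝ) < K := by exact_mod_cast (by omega : 0 < K)
    push_cast
    field_simp
    ring

theorem harm (K : ℕ) (hK : 1 ≤ K) : ∑ k ∈ Icc 1 K, (1 : ℝ) / ((k : ℝ) + 1) ≤ Real.log (K + 1) := by
  induction K, hK using Nat.le_induction with
  | base =>
    rw [Icc_self, sum_singleton]
    have := Real.log_two_gt_d9
    norm_num; linarith
  | succ K hK ih =>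
    rw [← Finset.insert_Icc_right_eq_Icc_add_one (by omega), sum_insert (by simp)]
    have hpos : (0 : ℝ) < K + 1 := by positivity
    have h1 : Real.log ((K : ℝ) + 1) - Real.log ((K : ℝ) + 1 + 1) ≤ -(1 / ((K : ℝ) + 1 + 1)) := by
      rw [← Real.log_div (by positivity) (by positivity)]
      have := Real.log_le_sub_one_of_pos (x := ((K : ℝ) + 1) / ((K : ℝ) + 1 + 1)) (by positivity)
      refine this.trans (le_of_eq ?_)
      field_simp; ring
    push_cast
    linarith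

theorem sum_inv_gb (S : ℝ) (hS : 1 ≤ S) :
    ∑ α ∈ gb S, (1 : ℝ) / α.norm ≤ 9 * (2 + Real.log S) := by
  classical
  set K : ℕ := ⌊S⌋₊ with hK
  have hK1 : 1 ≤ K := Nat.le_floor (by simpa using hS)
  have hKS : (K : ℝ) ≤ S := Nat.floor_le (by linarith)
  have e1 : ∑ α ∈ gb S, (1 : ℝ) / α.norm = ∑ α ∈ gb S, (1 / ((K : ℝ) + 1) +
      ∑ k ∈ Icc 1 K, if α ∈ gb (k : ℝ) then 1 / ((k : ℝ) * (k + 1)) else 0) := by
    refine Finset.sum_congr rfl fun α hα => ?_
    rw [mem_gb] at hα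
    have hn0 := norm_pos hα.1
    have hnn : ((α.norm.toNat : ℕ) : ℤ) = α.norm := Int.toNat_of_nonneg hn0.le
    have hnr : ((α.norm.toNat : ℕ) : ℝ) = (α.norm : ℝ) := by
      have : (((α.norm.toNat : ℕ) : ℤ) : ℝ) = ((α.norm : ℤ) : ℝ) := by rw [hnn]
      exact_mod_cast this
    have h1 : 1 ≤ α.norm.toNat := by omega
    have h2 : α.norm.toNat ≤ K := by
      apply Nat.le_floor
      rw [hnr]; exact hα.2
    rw [← hnr, layer α.norm.toNat K h1 h2]
    congr 1
    rw [← Finset.sum_filter]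
    refine Finset.sum_congr ?_ fun _ _ => rfl
    ext k
    simp only [mem_Icc, mem_filter, mem_gb]
    constructor
    · rintro ⟨h3, h4⟩
      refine ⟨⟨by omega, h4⟩, hα.1, ?_⟩
      rw [← hnr]; exact_mod_cast h3
    · rintro ⟨⟨h3, h4⟩, -, h5⟩
      refine ⟨?_, h4⟩
      rw [← hnr] at h5; exact_mod_cast h5
  rw [e1, Finset.sum_add_distrib, Finset.sum_const, nsmul_eq_mul, Finset.sum_comm]
  have h1 : ((gb S).card : ℝ) * (1 / ((K : ℝ) + 1)) ≤ 9 := by
    have := card_gb S (by linarith)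
    have h2 : S < K + 1 := Nat.lt_floor_add_one S
    rw [mul_one_div, div_le_iff₀ (by positivity)]
    linarith
  have h2 : ∑ k ∈ Icc 1 K, ∑ α ∈ gb S, (if α ∈ gb (k : ℝ) then 1 / ((k : ℝ) * (k + 1)) else 0) ≤
      ∑ k ∈ Icc 1 K, 9 * ((1 : ℝ) / ((k : ℝ) + 1)) := by
    refine Finset.sum_le_sum fun k hk => ?_
    have hk1 := (mem_Icc.1 hk).1
    have hk0 : (0 : ℝ) < k := by exact_mod_cast hk1
    rw [← Finset.sum_filter, Finset.sum_const, nsmul_eq_mul]
    have h3 : (((gb S).filter (fun α => α ∈ gb (k : ℝ))).card : ℝ) ≤ 9 * k := by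
      refine le_trans ?_ (card_gb (k : ℝ) hk0.le)
      exact_mod_cast card_le_card (fun x hx => (mem_filter.1 hx).2)
    calc (((gb S).filter (fun α => α ∈ gb (k : ℝ))).card : ℝ) * (1 / ((k : ℝ) * (k + 1)))
        ≤ (9 * k) * (1 / ((k : ℝ) * (k + 1))) := by
          apply mul_le_mul_of_nonneg_right h3; positivity
      _ = 9 * (1 / ((k : ℝ) + 1)) := by field_simp
  rw [← Finset.mul_sum] at h2
  have h3 := harm K hK1
  have h4 : Real.log ((K : ℝ) + 1) ≤ 1 + Real.log S := by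
    have : (K : ℝ) + 1 ≤ 2 * S := by linarith
    calc Real.log ((K : ℝ) + 1) ≤ Real.log (2 * S) := Real.log_le_log (by positivity) this
      _ = Real.log 2 + Real.log S := Real.log_mul (by norm_num) (by linarith)
      _ ≤ 1 + Real.log S := by have := Real.log_two_lt_d9; linarith
  linarith

theorem sum_sqrt_gb (S : ℝ) (hS : 1 ≤ S) :
    ∑ α ∈ gb S, (1 : ℝ) / √(α.norm : ℝ) ≤ 9 * √(S * (2 + Real.log S)) := by
  have h1 : (∑ α ∈ gb S, (1 : ℝ) / √(α.norm : ℝ)) ^ 2 ≤
      ((gb S).card : ℝ) * ∑ α ∈ gb S, (1 : ℝ) / α.norm := by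
    have := Finset.sum_mul_sq_le_sq_mul_sq (gb S) (fun _ => (1 : ℝ))
      (fun α => (1 : ℝ) / √(α.norm : ℝ))
    simp only [one_mul, one_pow, Finset.sum_const, nsmul_eq_mul, mul_one] at this
    refine this.trans (le_of_eq ?_)
    congr 1
    refine Finset.sum_congr rfl fun α _ => ?_
    rw [div_pow, one_pow, Real.sq_sqrt]
    exact_mod_cast norm_nonneg α
  have hlog : 0 ≤ Real.log S := Real.log_nonneg hS
  have h2 : (∑ α ∈ gb S, (1 : ℝ) / √(α.norm : ℝ)) ^ 2 ≤ (9 * √(S * (2 + Real.log S))) ^ 2 := by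
    rw [mul_pow, Real.sq_sqrt (by positivity)]
    refine h1.trans ?_
    calc ((gb S).card : ℝ) * ∑ α ∈ gb S, (1 : ℝ) / α.norm
        ≤ (9 * S) * (9 * (2 + Real.log S)) := by
          apply mul_le_mul (card_gb S (by linarith)) (sum_inv_gb S hS)
          · exact Finset.sum_nonneg fun α _ => by
              have : (0 : ℝ) ≤ (α.norm : ℝ) := by exact_mod_cast norm_nonneg α
              positivity
          · positivity
      _ = 9 ^ 2 * (S * (2 + Real.log S)) := by ring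
  exact (abs_le_of_sq_le_sq' h2 (by positivity)).2

theorem sum_c (K : ℕ) : ∑ c ∈ Icc 1 K, (1 : ℝ) / (c : ℝ) ^ 2 ≤ 2 := by
  have : ∀ K : ℕ, 1 ≤ K → ∑ c ∈ Icc 1 K, (1 : ℝ) / (c : ℝ) ^ 2 ≤ 2 - 1 / (K : ℝ) := by
    intro K hK
    induction K, hK using Nat.le_induction with
    | base => norm_num
    | succ K hK ih =>
      rw [← Finset.insert_Icc_right_eq_Icc_add_one (by omega), sum_insert (by simp)]
      have hpos : (0 : ℝ) < (K : ℝ) := by exact_mod_cast (by omega : 0 < K)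
      have h1 : (1 : ℝ) / ((K : ℝ) + 1) ^ 2 ≤ 1 / (K : ℝ) - 1 / ((K : ℝ) + 1) := by
        rw [div_sub_div _ _ (by positivity) (by positivity), div_le_div_iff₀ (by positivity) (by positivity)]
        nlinarith
      push_cast
      linarith
  rcases Nat.eq_zero_or_pos K with h | h
  · subst h; norm_num
  · refine (this K h).trans ?_
    have : (0 : ℝ) ≤ 1 / (K : ℝ) := by positivity
    linarith

/-- every nonzero Gaussian integer is a natural number times a primitive one -/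
theorem prim_dec (δ : GaussianInt) (h : δ ≠ 0) : ∃ (c : ℕ) (δ₀ : GaussianInt), 1 ≤ c ∧ PrA δ₀ ∧
    δ = (c : GaussianInt) * δ₀ ∧ δ₀ ≠ 0 := by
  have hg : 0 < Int.gcd δ.re δ.im := by
    rw [Nat.pos_iff_ne_zero]
    intro h0
    rw [Int.gcd_eq_zero_iff] at h0
    exact h (Zsqrtd.ext h0.1 h0.2)
  set c := Int.gcd δ.re δ.im with hc
  obtain ⟨δ₀, hδ₀⟩ := (natCast_dvd c δ).2 ⟨Int.gcd_dvd_left _ _, Int.gcd_dvd_right _ _⟩
  have h0 : δ₀ ≠ 0 := by
    intro h0; rw [h0, mul_zero] at hδ₀; exact h hδ₀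
  refine ⟨c, δ₀, hg, ?_, hδ₀, h0⟩
  intro k hk
  have h1 : ((c * k : ℕ) : GaussianInt) ∣ δ := by
    rw [hδ₀]; push_cast
    exact mul_dvd_mul_left _ hk
  rw [natCast_dvd] at h1
  have h2 : (c * k) ∣ c := by
    rw [hc]
    exact Int.dvd_gcd h1.1 h1.2
  have h3 := Nat.le_of_dvd hg h2
  have h4 : k ≠ 0 := by
    intro hk0
    subst hk0
    simp at h2
    omega
  nlinarith [Nat.pos_of_ne_zero h4]

theorem im_natCast_mul (c : ℕ) (u : GaussianInt) : ((c : GaussianInt) * u).im = (c : ℤ) * u.im := by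
  simp

open Classical in
theorem prim_sum (a : ℕ) (ha : a.Prime) (κ : GaussianInt) (S : ℝ) :
    ∑ δ ∈ (gb S).filter (fun δ => ¬ (a : GaussianInt) ∣ δ ∧ (a : ℤ) ∣ (κ * δ ^ 2).im),
      (1 : ℝ) / δ.norm ≤
    2 * ∑ α ∈ (gb S).filter (fun α => PrA α ∧ (a : ℤ) ∣ (κ * α ^ 2).im), (1 : ℝ) / α.norm := by
  set F := (gb S).filter (fun δ => ¬ (a : GaussianInt) ∣ δ ∧ (a : ℤ) ∣ (κ * δ ^ 2).im) with hF
  set G := (gb S).filter (fun α => PrA α ∧ (a : ℤ) ∣ (κ * α ^ 2).im) with hG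
  set K : ℕ := ⌈S⌉₊ with hK
  have hdec : ∀ δ : GaussianInt, ∃ x : ℕ × GaussianInt, δ ≠ 0 → 1 ≤ x.1 ∧ PrA x.2 ∧
      δ = (x.1 : GaussianInt) * x.2 ∧ x.2 ≠ 0 := by
    intro δ
    by_cases h : δ = 0
    · exact ⟨(0, 0), fun h' => absurd h h'⟩
    · obtain ⟨c, δ₀, h1, h2, h3, h4⟩ := prim_dec δ h
      exact ⟨(c, δ₀), fun _ => ⟨h1, h2, h3, h4⟩⟩
  choose f hf using hdec
  have hmaps : ∀ δ ∈ F, f δ ∈ (Icc 1 K) ×ˢ G := by
    intro δ hδ
    rw [hF, mem_filter, mem_gb] at hδ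
    obtain ⟨⟨h0, hS⟩, h1, h2⟩ := hδ
    obtain ⟨g1, g2, g3, g4⟩ := hf δ h0
    have hn : δ.norm = ((f δ).1 : ℤ) ^ 2 * (f δ).2.norm := by
      conv_lhs => rw [g3]
      rw [norm_mul, norm_natCast]
    have hnr : (δ.norm : ℝ) = ((f δ).1 : ℝ) ^ 2 * ((f δ).2.norm : ℝ) := by
      rw [hn]; push_cast; ring
    have hc1 : (1 : ℝ) ≤ ((f δ).1 : ℝ) := by exact_mod_cast g1
    have hn1 : (1 : ℝ) ≤ ((f δ).2.norm : ℝ) := norm_ge_one g4
    have hc2 : (1 : ℝ) ≤ ((f δ).1 : ℝ) ^ 2 := one_le_pow₀ hc1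
    have hle : ((f δ).1 : ℝ) ≤ S := by nlinarith
    have hle2 : ((f δ).2.norm : ℝ) ≤ S := by nlinarith
    rw [mem_product, mem_Icc, hG, mem_filter, mem_gb]
    refine ⟨⟨g1, ?_⟩, ⟨g4, hle2⟩, g2, ?_⟩
    · have : ((f δ).1 : ℝ) ≤ K := hle.trans (Nat.le_ceil S)
      exact_mod_cast this
    · have hac : ¬ a ∣ (f δ).1 := by
        intro hac
        apply h1
        rw [g3]
        exact Dvd.dvd.mul_right (Nat.cast_dvd_cast hac) _
      rw [g3] at h2
      have e : κ * ((((f δ).1 : ℕ) : GaussianInt) * (f δ).2) ^ 2 =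
          (((f δ).1 ^ 2 : ℕ) : GaussianInt) * (κ * (f δ).2 ^ 2) := by push_cast; ring
      rw [e, im_natCast_mul] at h2
      have hp : Prime (a : ℤ) := Nat.prime_iff_prime_int.1 ha
      rcases hp.dvd_or_dvd h2 with h3 | h3
      · exfalso
        apply hac
        have : a ∣ (f δ).1 ^ 2 := by exact_mod_cast h3
        exact ha.dvd_of_dvd_pow this
      · exact h3
  have hinj : Set.InjOn f (F : Set GaussianInt) := by
    intro δ hδ δ' hδ' h
    rw [mem_coe, hF, mem_filter, mem_gb] at hδ hδ'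
    rw [(hf δ hδ.1.1).2.2.1, (hf δ' hδ'.1.1).2.2.1, h]
  have hval : ∀ δ ∈ F, (1 : ℝ) / δ.norm = 1 / ((f δ).1 : ℝ) ^ 2 * (1 / ((f δ).2.norm : ℝ)) := by
    intro δ hδ
    rw [hF, mem_filter, mem_gb] at hδ
    obtain ⟨g1, g2, g3, g4⟩ := hf δ hδ.1.1
    have hn : δ.norm = ((f δ).1 : ℤ) ^ 2 * (f δ).2.norm := by
      conv_lhs => rw [g3]
      rw [norm_mul, norm_natCast]
    rw [hn]; push_cast
    rw [one_div_mul_one_div]
  have hnn : ∀ u : GaussianInt, (0 : ℝ) ≤ 1 / (u.norm : ℝ) := fun u => by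
    have : (0 : ℝ) ≤ (u.norm : ℝ) := by exact_mod_cast norm_nonneg u
    positivity
  calc ∑ δ ∈ F, (1 : ℝ) / δ.norm
      = ∑ δ ∈ F, 1 / ((f δ).1 : ℝ) ^ 2 * (1 / ((f δ).2.norm : ℝ)) := Finset.sum_congr rfl hval
    _ = ∑ x ∈ F.image f, 1 / (x.1 : ℝ) ^ 2 * (1 / (x.2.norm : ℝ)) := by
        rw [Finset.sum_image hinj]
    _ ≤ ∑ x ∈ (Icc 1 K) ×ˢ G, 1 / (x.1 : ℝ) ^ 2 * (1 / (x.2.norm : ℝ)) := by
        apply Finset.sum_le_sum_of_subset_of_nonneg
        · intro x hx
          obtain ⟨δ, hδ, rfl⟩ := mem_image.1 hx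
          exact hmaps δ hδ
        · intro x _ _
          exact mul_nonneg (by positivity) (hnn _)
    _ = (∑ c ∈ Icc 1 K, 1 / (c : ℝ) ^ 2) * ∑ α ∈ G, (1 : ℝ) / α.norm := by
        rw [Finset.sum_product, Finset.sum_mul_sum]
    _ ≤ 2 * ∑ α ∈ G, (1 : ℝ) / α.norm := by
        apply mul_le_mul_of_nonneg_right (sum_c K)
        exact Finset.sum_nonneg fun α _ => hnn α

open Classical in
theorem mult_sum (a : ℕ) (ha : a.Prime) (S : ℝ) :
    ∑ δ ∈ (gb S).filter (fun δ => (a : GaussianInt) ∣ δ), (1 : ℝ) / δ.norm ≤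
      1 / (a : ℝ) ^ 2 * ∑ α ∈ gb S, (1 : ℝ) / α.norm := by
  have ha1 : (1 : ℝ) ≤ a := by exact_mod_cast ha.one_lt.le
  have hdec : ∀ δ : GaussianInt, ∃ x : GaussianInt, (a : GaussianInt) ∣ δ →
      δ = (a : GaussianInt) * x := by
    intro δ
    by_cases h : (a : GaussianInt) ∣ δ
    · obtain ⟨x, hx⟩ := h
      exact ⟨x, fun _ => hx⟩
    · exact ⟨0, fun h' => absurd h' h⟩
  choose f hf using hdec
  rw [Finset.mul_sum]
  have hnn : ∀ u : GaussianInt, (0 : ℝ) ≤ 1 / (u.norm : ℝ) := fun u => by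
    have : (0 : ℝ) ≤ (u.norm : ℝ) := by exact_mod_cast norm_nonneg u
    positivity
  have key : ∀ δ ∈ (gb S).filter (fun δ => (a : GaussianInt) ∣ δ), f δ ∈ gb S ∧
      (1 : ℝ) / δ.norm = 1 / (a : ℝ) ^ 2 * (1 / ((f δ).norm : ℝ)) := by
    intro δ hδ
    rw [mem_filter, mem_gb] at hδ
    have h1 := hf δ hδ.2
    have h0 : f δ ≠ 0 := by
      intro h0; rw [h0, mul_zero] at h1; exact hδ.1.1 h1
    have hn : δ.norm = (a : ℤ) ^ 2 * (f δ).norm := by
      conv_lhs => rw [h1]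
      rw [norm_mul, norm_natCast]
    have hnr : (δ.norm : ℝ) = (a : ℝ) ^ 2 * ((f δ).norm : ℝ) := by
      rw [hn]; push_cast; ring
    constructor
    · rw [mem_gb]
      refine ⟨h0, ?_⟩
      have := norm_ge_one h0
      have ha2 : (1 : ℝ) ≤ (a : ℝ) ^ 2 := one_le_pow₀ ha1
      nlinarith [hδ.1.2]
    · rw [hnr, one_div_mul_one_div]
  rw [Finset.sum_congr rfl (fun δ hδ => (key δ hδ).2)]
  rw [← Finset.sum_image (f := fun x : GaussianInt => 1 / (a : ℝ) ^ 2 * (1 / (x.norm : ℝ)))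
    (g := f) (s := (gb S).filter (fun δ => (a : GaussianInt) ∣ δ))]
  · apply Finset.sum_le_sum_of_subset_of_nonneg
    · intro x hx
      obtain ⟨δ, hδ, rfl⟩ := mem_image.1 hx
      exact (key δ hδ).1
    · intro x _ _
      exact mul_nonneg (by positivity) (hnn _)
  · intro δ hδ δ' hδ' h
    rw [mem_coe, mem_filter] at hδ hδ'
    rw [hf δ hδ.2, hf δ' hδ'.2, h]

open Classical in
theorem card_mult (a : ℕ) (ha : a.Prime) (S : ℝ) (hS : 0 ≤ S) :
    (((gb S).filter (fun δ => (a : GaussianInt) ∣ δ)).card : ℝ) ≤ 9 * (S / (a : ℝ) ^ 2) := by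
  have ha1 : (1 : ℝ) ≤ a := by exact_mod_cast ha.one_lt.le
  have ha2 : (0 : ℝ) < (a : ℝ) ^ 2 := by positivity
  refine le_trans ?_ (card_gb (S / (a : ℝ) ^ 2) (by positivity))
  have hdec : ∀ δ : GaussianInt, ∃ x : GaussianInt, (a : GaussianInt) ∣ δ →
      δ = (a : GaussianInt) * x := by
    intro δ
    by_cases h : (a : GaussianInt) ∣ δ
    · obtain ⟨x, hx⟩ := h
      exact ⟨x, fun _ => hx⟩
    · exact ⟨0, fun h' => absurd h' h⟩
  choose f hf using hdec
  norm_cast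
  apply Finset.card_le_card_of_injOn f
  · intro δ hδ
    rw [mem_coe, mem_filter, mem_gb] at hδ
    have h1 := hf δ hδ.2
    have h0 : f δ ≠ 0 := by
      intro h0; rw [h0, mul_zero] at h1; exact hδ.1.1 h1
    have hn : δ.norm = (a : ℤ) ^ 2 * (f δ).norm := by
      conv_lhs => rw [h1]
      rw [norm_mul, norm_natCast]
    have hnr : (δ.norm : ℝ) = (a : ℝ) ^ 2 * ((f δ).norm : ℝ) := by
      rw [hn]; push_cast; ring
    rw [mem_coe, mem_gb]
    refine ⟨h0, ?_⟩
    push_cast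
    rw [le_div_iff₀ ha2]
    linarith [hδ.1.2]
  · intro δ hδ δ' hδ' h
    rw [mem_coe, mem_filter] at hδ hδ'
    rw [hf δ hδ.2, hf δ' hδ'.2, h]

theorem not_dvd_mul {a p : ℕ} (ha : a.Prime) (hp : 1 ≤ p) (hpa : p < a) {z x : GaussianInt}
    (hz : z.norm = a + p) (hx : ¬ (a : GaussianInt) ∣ x) : ¬ (a : GaussianInt) ∣ z * x := by
  intro h
  apply hx
  have h1 : (a : GaussianInt) ∣ star z * (z * x) := Dvd.dvd.mul_left h _
  have h2 : star z * (z * x) = ((z.norm : ℤ) : GaussianInt) * x := by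
    rw [← mul_star_self']; ring
  rw [h2, natCast_dvd] at h1
  have hpr : Prime (a : ℤ) := Nat.prime_iff_prime_int.1 ha
  have hap : ¬ (a : ℤ) ∣ z.norm := by
    rw [hz]
    intro h3
    have h4 : (a : ℤ) ∣ (p : ℤ) := by
      have := dvd_sub h3 (dvd_refl (a : ℤ))
      simpa using this
    have h5 : a ∣ p := by exact_mod_cast h4
    have := Nat.le_of_dvd (by omega) h5
    omega
  rw [natCast_dvd]
  have e1 : (((z.norm : ℤ) : GaussianInt) * x).re = z.norm * x.re := by simp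
  have e2 : (((z.norm : ℤ) : GaussianInt) * x).im = z.norm * x.im := by simp
  rw [e1, e2] at h1
  exact ⟨(hpr.dvd_or_dvd h1.1).resolve_left hap, (hpr.dvd_or_dvd h1.2).resolve_left hap⟩

theorem natCast_dvd_star {a : ℕ} {x : GaussianInt} :
    (a : GaussianInt) ∣ star x ↔ (a : GaussianInt) ∣ x := by
  rw [natCast_dvd, natCast_dvd]; simp

theorem PrA_not_dvd {a : ℕ} (ha : a.Prime) {α : GaussianInt} (h : PrA α) :
    ¬ (a : GaussianInt) ∣ α := by
  intro h1
  exact ha.one_lt.ne' (h a h1)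

/-- the conditions -/
def Cd (a : ℕ) (z w ε δ α : GaussianInt) : Prop :=
  (a : ℤ) ∣ (star z * (δ * α)).im ∧ (a : ℤ) ∣ (star w * (ε * δ * star α)).im

open Classical in
theorem innerA {C₁ : ℝ} (hC₁ : 0 < C₁) (hC : ∀ (a : ℕ) (β : GaussianInt) (S : ℝ), a.Prime →
    ¬ (a : GaussianInt) ∣ β → 0 ≤ S →
    (((gb S).filter (fun δ => δ ∈ Mb a β)).card : ℝ) ≤ C₁ * (S / a + √S))
    {a p : ℕ} (ha : a.Prime) (hp : 1 ≤ p) (hpa : p < a) {z : GaussianInt} (hz : z.norm = a + p)
    {T : ℝ} (hT : 1 ≤ T) (w ε α : GaussianInt) (hα : α ≠ 0) :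
    (((gb T).filter (fun δ => PrA α ∧ (δ.norm : ℝ) * α.norm ≤ T ∧ Cd a z w ε δ α)).card : ℝ) ≤
      (if PrA α ∧ (a : ℤ) ∣ (star ε * star z * w * α ^ 2).im then
        C₁ * (T / a) * (1 / (α.norm : ℝ)) else 0) + C₁ * √T * (1 / √(α.norm : ℝ)) +
        9 * (T / (a : ℝ) ^ 2) * (1 / (α.norm : ℝ)) := by
  have hn1 := norm_ge_one hα
  have hn0 : (0 : ℝ) < (α.norm : ℝ) := by linarith
  have ha0 : (0 : ℝ) < a := by exact_mod_cast ha.pos
  by_cases hP : PrA α
  swap
  · have : (gb T).filter (fun δ => PrA α ∧ (δ.norm : ℝ) * α.norm ≤ T ∧ Cd a z w ε δ α) = ∅ := by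
      apply Finset.filter_eq_empty_iff.2
      intro δ _ h
      exact hP h.1
    rw [this, if_neg (fun h => hP h.1)]
    simp only [card_empty, Nat.cast_zero]
    positivity
  have hS0 : 0 ≤ T / (α.norm : ℝ) := by positivity
  have hβ : ¬ (a : GaussianInt) ∣ z * star α := by
    apply not_dvd_mul ha hp hpa hz
    rw [natCast_dvd_star]
    exact PrA_not_dvd ha hP
  by_cases hk : (a : ℤ) ∣ (star ε * star z * w * α ^ 2).im
  · have h1 := hC a (z * star α) (T / (α.norm : ℝ)) ha hβ hS0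
    have hsub : (gb T).filter (fun δ => PrA α ∧ (δ.norm : ℝ) * α.norm ≤ T ∧ Cd a z w ε δ α) ⊆
        (gb (T / (α.norm : ℝ))).filter (fun δ => δ ∈ Mb a (z * star α)) := by
      intro δ hδ
      rw [mem_filter, mem_gb] at hδ
      rw [mem_filter, mem_gb]
      refine ⟨⟨hδ.1.1, ?_⟩, ?_⟩
      · rw [le_div_iff₀ hn0]; exact hδ.2.2.1
      · rw [mem_Mb]
        have : star (z * star α) * δ = star z * (δ * α) := by
          rw [star_mul, star_star]; ring
        rw [this]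
        exact hδ.2.2.2.1
    have h2 : (((gb T).filter (fun δ => PrA α ∧ (δ.norm : ℝ) * α.norm ≤ T ∧
        Cd a z w ε δ α)).card : ℝ) ≤ C₁ * (T / (α.norm : ℝ) / a + √(T / (α.norm : ℝ))) :=
      le_trans (by exact_mod_cast card_le_card hsub) h1
    rw [if_pos ⟨hP, hk⟩]
    have e : C₁ * (T / (α.norm : ℝ) / a + √(T / (α.norm : ℝ))) =
        C₁ * (T / a) * (1 / (α.norm : ℝ)) + C₁ * √T * (1 / √(α.norm : ℝ)) := by
      rw [Real.sqrt_div (by linarith)]; ring
    rw [e] at h2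
    have : 0 ≤ 9 * (T / (a : ℝ) ^ 2) * (1 / (α.norm : ℝ)) := by positivity
    linarith
  · have hsub : (gb T).filter (fun δ => PrA α ∧ (δ.norm : ℝ) * α.norm ≤ T ∧ Cd a z w ε δ α) ⊆
        (gb (T / (α.norm : ℝ))).filter (fun δ => (a : GaussianInt) ∣ δ) := by
      intro δ hδ
      rw [mem_filter, mem_gb] at hδ
      rw [mem_filter, mem_gb]
      refine ⟨⟨hδ.1.1, ?_⟩, ?_⟩
      · rw [le_div_iff₀ hn0]; exact hδ.2.2.1
      · by_contra hd
        apply hk
        have m1 : δ ∈ Mb a (z * star α) := by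
          rw [mem_Mb]
          have : star (z * star α) * δ = star z * (δ * α) := by
            rw [star_mul, star_star]; ring
          rw [this]
          exact hδ.2.2.2.1
        have m2 : δ ∈ Mb a (w * star ε * α) := by
          rw [mem_Mb]
          have : star (w * star ε * α) * δ = star w * (ε * δ * star α) := by
            rw [star_mul, star_mul, star_star]; ring
          rw [this]
          exact hδ.2.2.2.2
        have := two_fun ha m1 m2 hd
        have e : star (z * star α) * (w * star ε * α) = star ε * star z * w * α ^ 2 := by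
          rw [star_mul, star_star]; ring
        rwa [e] at this
    have h2 : (((gb T).filter (fun δ => PrA α ∧ (δ.norm : ℝ) * α.norm ≤ T ∧
        Cd a z w ε δ α)).card : ℝ) ≤ 9 * (T / (α.norm : ℝ) / (a : ℝ) ^ 2) :=
      le_trans (by exact_mod_cast card_le_card hsub) (card_mult a ha _ hS0)
    rw [if_neg (fun h => hk h.2)]
    have e : 9 * (T / (α.norm : ℝ) / (a : ℝ) ^ 2) = 9 * (T / (a : ℝ) ^ 2) * (1 / (α.norm : ℝ)) := by
      ring
    rw [e] at h2
    have : 0 ≤ C₁ * √T * (1 / √(α.norm : ℝ)) := by positivity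
    linarith

open Classical in
theorem innerB {C₁ : ℝ} (hC₁ : 0 < C₁) (hC : ∀ (a : ℕ) (β : GaussianInt) (S : ℝ), a.Prime →
    ¬ (a : GaussianInt) ∣ β → 0 ≤ S →
    (((gb S).filter (fun δ => δ ∈ Mb a β)).card : ℝ) ≤ C₁ * (S / a + √S))
    {a p : ℕ} (ha : a.Prime) (hp : 1 ≤ p) (hpa : p < a) {z : GaussianInt} (hz : z.norm = a + p)
    {T : ℝ} (hT : 1 ≤ T) (w ε δ : GaussianInt) (hδ0 : δ ≠ 0) :
    (((gb T).filter (fun α => PrA α ∧ (δ.norm : ℝ) * α.norm ≤ T ∧ Cd a z w ε δ α)).card : ℝ) ≤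
      (if ¬ (a : GaussianInt) ∣ δ ∧ (a : ℤ) ∣ (star (star ε) * star z * star w * δ ^ 2).im then
        C₁ * (T / a) * (1 / (δ.norm : ℝ)) else 0) + C₁ * √T * (1 / √(δ.norm : ℝ)) +
        (if (a : GaussianInt) ∣ δ then 9 * T * (1 / (δ.norm : ℝ)) else 0) := by
  have hn1 := norm_ge_one hδ0
  have hn0 : (0 : ℝ) < (δ.norm : ℝ) := by linarith
  have ha0 : (0 : ℝ) < a := by exact_mod_cast ha.pos
  have hS0 : 0 ≤ T / (δ.norm : ℝ) := by positivity
  have hpos : 0 ≤ C₁ * √T * (1 / √(δ.norm : ℝ)) := by positivity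
  by_cases hd : (a : GaussianInt) ∣ δ
  · rw [if_neg (fun h => h.1 hd), if_pos hd]
    have hsub : (gb T).filter (fun α => PrA α ∧ (δ.norm : ℝ) * α.norm ≤ T ∧ Cd a z w ε δ α) ⊆
        gb (T / (δ.norm : ℝ)) := by
      intro α hα
      rw [mem_filter, mem_gb] at hα
      rw [mem_gb]
      refine ⟨hα.1.1, ?_⟩
      rw [le_div_iff₀ hn0]; linarith [hα.2.2.1]
    have h2 : (((gb T).filter (fun α => PrA α ∧ (δ.norm : ℝ) * α.norm ≤ T ∧
        Cd a z w ε δ α)).card : ℝ) ≤ 9 * (T / (δ.norm : ℝ)) :=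
      le_trans (by exact_mod_cast card_le_card hsub) (card_gb _ hS0)
    have e : 9 * (T / (δ.norm : ℝ)) = 9 * T * (1 / (δ.norm : ℝ)) := by ring
    linarith
  · have hβ : ¬ (a : GaussianInt) ∣ z * star δ := by
      apply not_dvd_mul ha hp hpa hz
      rw [natCast_dvd_star]
      exact hd
    rw [if_neg hd]
    by_cases hk : (a : ℤ) ∣ (star (star ε) * star z * star w * δ ^ 2).im
    · rw [if_pos ⟨hd, hk⟩]
      have h1 := hC a (z * star δ) (T / (δ.norm : ℝ)) ha hβ hS0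
      have hsub : (gb T).filter (fun α => PrA α ∧ (δ.norm : ℝ) * α.norm ≤ T ∧ Cd a z w ε δ α) ⊆
          (gb (T / (δ.norm : ℝ))).filter (fun α => α ∈ Mb a (z * star δ)) := by
        intro α hα
        rw [mem_filter, mem_gb] at hα
        rw [mem_filter, mem_gb]
        refine ⟨⟨hα.1.1, ?_⟩, ?_⟩
        · rw [le_div_iff₀ hn0]; linarith [hα.2.2.1]
        · rw [mem_Mb]
          have : star (z * star δ) * α = star z * (δ * α) := by
            rw [star_mul, star_star]; ring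
          rw [this]
          exact hα.2.2.2.1
      have h2 : (((gb T).filter (fun α => PrA α ∧ (δ.norm : ℝ) * α.norm ≤ T ∧
          Cd a z w ε δ α)).card : ℝ) ≤ C₁ * (T / (δ.norm : ℝ) / a + √(T / (δ.norm : ℝ))) :=
        le_trans (by exact_mod_cast card_le_card hsub) h1
      have e : C₁ * (T / (δ.norm : ℝ) / a + √(T / (δ.norm : ℝ))) =
          C₁ * (T / a) * (1 / (δ.norm : ℝ)) + C₁ * √T * (1 / √(δ.norm : ℝ)) := by
        rw [Real.sqrt_div (by linarith)]; ring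
      rw [e] at h2
      linarith
    · have : (gb T).filter (fun α => PrA α ∧ (δ.norm : ℝ) * α.norm ≤ T ∧ Cd a z w ε δ α) = ∅ := by
        apply Finset.filter_eq_empty_iff.2
        intro α _ h
        apply hk
        have hPα := PrA_not_dvd ha h.1
        have m1 : α ∈ Mb a (z * star δ) := by
          rw [mem_Mb]
          have : star (z * star δ) * α = star z * (δ * α) := by
            rw [star_mul, star_star]; ring
          rw [this]
          exact h.2.2.1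
        have m2 : α ∈ Mb a (star w * ε * δ) := by
          rw [mem_Mb]
          have h5 : star (star w * ε * δ) * α = star (star w * (ε * δ * star α)) := by
            simp only [star_mul, star_star]; ring
          rw [h5, Zsqrtd.im_star, dvd_neg]
          exact h.2.2.2
        have := two_fun ha m1 m2 hPα
        have e : star (z * star δ) * (star w * ε * δ) = star (star ε) * star z * star w * δ ^ 2 := by
          rw [star_mul, star_star, star_star]; ring
        rwa [e] at this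
      rw [this, if_neg (fun h => hk h.2)]
      simp only [card_empty, Nat.cast_zero]
      linarith

open Classical in
/-- the Gaussian integers of norm `n` -/
noncomputable def WW (n : ℕ) : Finset GaussianInt := (gb (n : ℝ)).filter (fun w => w.norm = (n : ℤ))

theorem mem_WW {n : ℕ} (hn : 1 ≤ n) {w : GaussianInt} : w ∈ WW n ↔ w.norm = (n : ℤ) := by
  unfold WW
  rw [mem_filter, mem_gb]
  constructor
  · exact fun h => h.2
  · intro h
    refine ⟨⟨?_, ?_⟩, h⟩
    · rintro rfl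
      simp at h; omega
    · rw [h]; simp

theorem card_WW (hNB : StNB) {n : ℕ} (hn : 1 ≤ n) : (WW n).card ≤ 4 * n.divisors.card := by
  have := hNB n hn
  rw [← Set.ncard_coe_finset]
  have e : ((WW n : Finset GaussianInt) : Set GaussianInt) = {w : GaussianInt | w.norm = (n : ℤ)} := by
    ext w
    rw [mem_coe, mem_WW hn]; rfl
  rw [e]; exact this

theorem sum_U4_star (f : GaussianInt → ℝ) : ∑ ε ∈ U4, f (star ε) = ∑ ε ∈ U4, f ε := by
  refine Finset.sum_bij' (fun x _ => star x) (fun x _ => star x) ?_ ?_ ?_ ?_ ?_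
  · exact fun x hx => star_mem_U4 hx
  · exact fun x hx => star_mem_U4 hx
  · intro x _; simp
  · intro x _; simp
  · intro x _; rfl

theorem sum_WW_star {n : ℕ} (hn : 1 ≤ n) (f : GaussianInt → ℝ) :
    ∑ w ∈ WW n, f (star w) = ∑ w ∈ WW n, f w := by
  refine Finset.sum_bij' (fun x _ => star x) (fun x _ => star x) ?_ ?_ ?_ ?_ ?_
  · intro x hx
    rw [mem_WW hn] at hx ⊢
    rw [norm_star, hx]
  · intro x hx
    rw [mem_WW hn] at hx ⊢
    rw [norm_star, hx]
  · intro x _; simp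
  · intro x _; simp
  · intro x _; rfl

theorem card_U4 : U4.card ≤ 4 := by
  unfold U4
  exact Finset.card_le_four

/-- counting by iterated sums -/
theorem card_iter (W : Finset GaussianInt) (A B : Finset GaussianInt)
    (P : GaussianInt → GaussianInt → GaussianInt → GaussianInt → Prop)
    [∀ w ε α δ, Decidable (P w ε α δ)] :
    ((((W ×ˢ U4 ×ˢ A ×ˢ B).filter (fun x => P x.1 x.2.1 x.2.2.1 x.2.2.2)).card : ℕ) : ℝ) =
      ∑ w ∈ W, ∑ ε ∈ U4, ∑ α ∈ A, ((B.filter (fun δ => P w ε α δ)).card : ℝ) := by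
  rw [Finset.card_filter]
  push_cast
  rw [Finset.sum_product]
  refine Finset.sum_congr rfl fun w _ => ?_
  rw [Finset.sum_product]
  refine Finset.sum_congr rfl fun ε _ => ?_
  rw [Finset.sum_product]
  refine Finset.sum_congr rfl fun α _ => ?_
  rw [Finset.card_filter]
  push_cast
  rfl

end hDG

open hDG in
open Classical in
theorem hDG (hLP : StLP) (hG3 : StG3) (hG4 : StG4) (hNB : StNB) (hDB : StDB) : StDG := by
  intro p hp
  obtain ⟨C₁, hC₁, hC⟩ := cnt_LP hLP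
  obtain ⟨C₂, hC₂, h3⟩ := hG3 p hp
  obtain ⟨C₃, hC₃, hdb⟩ := hDB (1 / 2) (by norm_num)
  refine ⟨C₁ * 3 * (64 + 4 * (8 * C₃) * (1004 * C₂)) + 8 * (8 * C₃) * (9 * C₁ * 32 + 81 * 1002),
    by positivity, p + 3, ?_⟩
  intro a T z ha hap hT1 hT2 hz
  have hpa : p < a := by omega
  have ha2 : a ≠ 2 := by omega
  have ha1' : (1 : ℝ) ≤ a := by exact_mod_cast ha.one_lt.le
  have ha0 : (0 : ℝ) < a := by linarith
  have hT : 1 ≤ T := le_trans (one_le_pow₀ ha1') hT1
  have hT0 : (0 : ℝ) < T := by linarith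
  set R : ℝ := √T with hR
  have hR1 : 1 ≤ R := Real.one_le_sqrt.2 hT
  have hRR : R * R = T := Real.mul_self_sqrt hT0.le
  set n : ℕ := a + p with hn
  have hn1 : 1 ≤ n := by omega
  have hzn : z.norm = (n : ℤ) := by rw [hz, hn]; push_cast; ring
  have hsa1 : 1 ≤ √(a : ℝ) := Real.one_le_sqrt.2 ha1'
  have hsa : √(a : ℝ) * √(a : ℝ) = a := Real.mul_self_sqrt ha0.le
  -- logs
  have hloga : Real.log a ≤ 2 * √(a : ℝ) := by
    have h1 : Real.log (√(a : ℝ)) ≤ √(a : ℝ) - 1 := Real.log_le_sub_one_of_pos (by positivity)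
    rw [Real.log_sqrt ha0.le] at h1
    linarith
  have hlogT : Real.log T ≤ 1000 * Real.log a := by
    have := Real.log_le_log hT0 hT2
    rw [Real.log_pow] at this
    push_cast at this
    linarith
  clear hT2
  -- number of w
  have hW : ((WW n).card : ℝ) ≤ 8 * C₃ * √(a : ℝ) := by
    have h1 : ((WW n).card : ℝ) ≤ 4 * (n.divisors.card : ℝ) := by
      exact_mod_cast card_WW hNB hn1
    have h2 := hdb n hn1
    rw [← Real.sqrt_eq_rpow] at h2
    have h3 : √(n : ℝ) ≤ 2 * √(a : ℝ) := by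
      rw [Real.sqrt_le_left (by positivity)]
      have : (n : ℝ) ≤ 2 * a := by
        rw [hn]; push_cast
        have : (p : ℝ) ≤ a := by exact_mod_cast hpa.le
        linarith
      nlinarith
    calc ((WW n).card : ℝ) ≤ 4 * (C₃ * √(n : ℝ)) := h1.trans (by linarith)
      _ ≤ 4 * (C₃ * (2 * √(a : ℝ))) := by
          have := mul_le_mul_of_nonneg_left h3 (by linarith : (0 : ℝ) ≤ C₃)
          linarith
      _ = 8 * C₃ * √(a : ℝ) := by ring
  have hlogR : Real.log R ≤ 1000 * √(a : ℝ) := by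
    rw [hR, Real.log_sqrt hT0.le]; linarith
  have hlogR0 : 0 ≤ Real.log R := Real.log_nonneg hR1
  have hL : 2 + Real.log R ≤ 1002 * √(a : ℝ) := by linarith
  -- the main sum
  set Sk : GaussianInt → GaussianInt → ℝ := fun w ε =>
    ∑ α ∈ (gb R).filter (fun α => PrA α ∧ (a : ℤ) ∣ (star ε * star z * w * α ^ 2).im),
      (1 : ℝ) / α.norm with hSk
  have hSk0 : ∀ w ε, 0 ≤ Sk w ε := fun w ε => Finset.sum_nonneg fun α _ => by
    have : (0 : ℝ) ≤ (α.norm : ℝ) := by exact_mod_cast norm_nonneg α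
    positivity
  set M : ℝ := ∑ w ∈ WW n, ∑ ε ∈ U4, Sk w ε with hM
  have hM0 : 0 ≤ M := Finset.sum_nonneg fun w _ => Finset.sum_nonneg fun ε _ => hSk0 w ε
  have hE2 : C₂ * (1 / √(a : ℝ) + (1 + Real.log R) / a) ≤ 1002 * C₂ / √(a : ℝ) := by
    have h1 : (1 + Real.log R) / a ≤ 1001 / √(a : ℝ) := by
      rw [div_le_div_iff₀ ha0 (by positivity)]
      nlinarith
    calc C₂ * (1 / √(a : ℝ) + (1 + Real.log R) / a) ≤ C₂ * (1 / √(a : ℝ) + 1001 / √(a : ℝ)) := by
          apply mul_le_mul_of_nonneg_left _ hC₂.le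
          linarith
      _ = 1002 * C₂ / √(a : ℝ) := by ring
  have hMle : M ≤ 64 * sd z + 4 * (8 * C₃) * (1004 * C₂) := by
    have h1 : M ≤ ∑ w ∈ WW n, ∑ ε ∈ U4,
        (∑ α ∈ (gb R).filter (fun α => PrA α ∧ (star ε * star z * w * α ^ 2).im = 0),
          (1 : ℝ) / α.norm + 1002 * C₂ / √(a : ℝ)) := by
      refine Finset.sum_le_sum fun w hw => Finset.sum_le_sum fun ε hε => ?_
      have hκ : (star ε * star z * w).norm = ((a : ℤ) + p) ^ 2 := by
        rw [norm_mul, norm_mul, norm_star, norm_star, U4_norm hε, hz, (mem_WW hn1).1 hw, hn]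
        push_cast; ring
      have := h3 a (star ε * star z * w) R ha hpa ha2 hκ hR1
      exact this.trans (by linarith)
    have h2 : ∑ w ∈ WW n, ∑ ε ∈ U4,
        (∑ α ∈ (gb R).filter (fun α => PrA α ∧ (star ε * star z * w * α ^ 2).im = 0),
          (1 : ℝ) / α.norm + 1002 * C₂ / √(a : ℝ)) =
        ∑ w ∈ WW n, ∑ ε ∈ U4,
          ∑ α ∈ (gb R).filter (fun α => PrA α ∧ (star ε * star z * w * α ^ 2).im = 0),
          (1 : ℝ) / α.norm + (WW n).card * (U4.card * (1002 * C₂ / √(a : ℝ))) := by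
      simp only [Finset.sum_add_distrib, Finset.sum_const, nsmul_eq_mul]
    have h4 := hG4 n z R hn1 hzn
    have h5 : ((WW n).card : ℝ) * (U4.card * (1002 * C₂ / √(a : ℝ))) ≤
        4 * (8 * C₃) * (1004 * C₂) := by
      have hu : ((U4.card : ℕ) : ℝ) ≤ 4 := by exact_mod_cast card_U4
      calc ((WW n).card : ℝ) * (U4.card * (1002 * C₂ / √(a : ℝ)))
          ≤ (8 * C₃ * √(a : ℝ)) * (4 * (1002 * C₂ / √(a : ℝ))) := by
            apply mul_le_mul hW
            · apply mul_le_mul_of_nonneg_right hu; positivity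
            · positivity
            · positivity
        _ = 4 * (8 * C₃) * (1002 * C₂) := by field_simp
        _ ≤ 4 * (8 * C₃) * (1004 * C₂) := by
            apply mul_le_mul_of_nonneg_left
            · linarith
            · positivity
    have h6 : ∑ w ∈ WW n, ∑ ε ∈ U4,
          ∑ α ∈ (gb R).filter (fun α => PrA α ∧ (star ε * star z * w * α ^ 2).im = 0),
          (1 : ℝ) / α.norm ≤ 64 * sd z := h4
    linarith
  -- error sums
  have hE1 : √T * √(R * (2 + Real.log R)) ≤ 32 * (T / (a : ℝ) ^ 2) := by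
    rw [← Real.sqrt_mul hT0.le]
    rw [Real.sqrt_le_left (by positivity)]
    have h1 : (a : ℝ) ^ 5 ≤ R := by
      rw [hR]
      apply Real.le_sqrt_of_sq_le
      rw [← pow_mul]; exact hT1
    have h2 : (2 + Real.log R) * (a : ℝ) ^ 4 ≤ 1002 * R := by
      have hsa2 : √(a : ℝ) ≤ a := by nlinarith
      calc (2 + Real.log R) * (a : ℝ) ^ 4 ≤ (1002 * a) * (a : ℝ) ^ 4 := by
            apply mul_le_mul_of_nonneg_right _ (by positivity)
            linarith
        _ = 1002 * (a : ℝ) ^ 5 := by ring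
        _ ≤ 1002 * R := by linarith
    have h3 : (32 * (T / (a : ℝ) ^ 2)) ^ 2 = 1024 * (T * T) / (a : ℝ) ^ 4 := by
      field_simp; ring
    rw [h3, le_div_iff₀ (by positivity)]
    calc T * (R * (2 + Real.log R)) * (a : ℝ) ^ 4 = T * R * ((2 + Real.log R) * (a : ℝ) ^ 4) := by ring
      _ ≤ T * R * (1002 * R) := by
          apply mul_le_mul_of_nonneg_left h2; positivity
      _ = 1002 * (T * (R * R)) := by ring
      _ ≤ 1024 * (T * T) := by rw [hRR]; nlinarith
  have hsq := sum_sqrt_gb R hR1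
  have hinv := sum_inv_gb R hR1
  have hinv0 : 0 ≤ ∑ α ∈ gb R, (1 : ℝ) / α.norm := Finset.sum_nonneg fun α _ => by
    have : (0 : ℝ) ≤ (α.norm : ℝ) := by exact_mod_cast norm_nonneg α
    positivity
  set E : ℝ := 9 * C₁ * (32 * (T / (a : ℝ) ^ 2)) + 81 * (T / (a : ℝ) ^ 2) * (1002 * √(a : ℝ)) with hE
  have hEA : C₁ * √T * (∑ α ∈ gb R, (1 : ℝ) / √(α.norm : ℝ)) ≤ 9 * C₁ * (32 * (T / (a : ℝ) ^ 2)) := by
    calc C₁ * √T * (∑ α ∈ gb R, (1 : ℝ) / √(α.norm : ℝ)) ≤ C₁ * √T * (9 * √(R * (2 + Real.log R))) := by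
          apply mul_le_mul_of_nonneg_left hsq; positivity
      _ = 9 * C₁ * (√T * √(R * (2 + Real.log R))) := by ring
      _ ≤ _ := by apply mul_le_mul_of_nonneg_left hE1; positivity
  have hEB : 9 * (T / (a : ℝ) ^ 2) * (∑ α ∈ gb R, (1 : ℝ) / α.norm) ≤
      81 * (T / (a : ℝ) ^ 2) * (1002 * √(a : ℝ)) := by
    calc 9 * (T / (a : ℝ) ^ 2) * (∑ α ∈ gb R, (1 : ℝ) / α.norm)
        ≤ 9 * (T / (a : ℝ) ^ 2) * (9 * (1002 * √(a : ℝ))) := by
          apply mul_le_mul_of_nonneg_left _ (by positivity)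
          exact hinv.trans (by linarith)
      _ = _ := by ring
  -- the two finite sets
  set PA : GaussianInt → GaussianInt → GaussianInt → GaussianInt → Prop := fun w ε α δ =>
    PrA α ∧ (δ.norm : ℝ) * α.norm ≤ T ∧ Cd a z w ε δ α with hPA
  set PB : GaussianInt → GaussianInt → GaussianInt → GaussianInt → Prop := fun w ε δ α =>
    PrA α ∧ (δ.norm : ℝ) * α.norm ≤ T ∧ Cd a z w ε δ α with hPB
  set ΘA := (WW n ×ˢ U4 ×ˢ gb R ×ˢ gb T).filter (fun x => PA x.1 x.2.1 x.2.2.1 x.2.2.2) with hΘA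
  set ΘB := (WW n ×ˢ U4 ×ˢ gb R ×ˢ gb T).filter (fun x => PB x.1 x.2.1 x.2.2.1 x.2.2.2) with hΘB
  have hA : ((ΘA.card : ℕ) : ℝ) ≤ C₁ * (T / a) * M + (WW n).card * (4 * E) := by
    rw [hΘA, card_iter (WW n) (gb R) (gb T) PA]
    have h1 : ∀ w ∈ WW n, ∀ ε ∈ U4, ∑ α ∈ gb R, (((gb T).filter (fun δ => PA w ε α δ)).card : ℝ) ≤
        C₁ * (T / a) * Sk w ε + E := by
      intro w hw ε hε
      have h2 : ∑ α ∈ gb R, (((gb T).filter (fun δ => PA w ε α δ)).card : ℝ) ≤
          ∑ α ∈ gb R, ((if PrA α ∧ (a : ℤ) ∣ (star ε * star z * w * α ^ 2).im then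
            C₁ * (T / a) * (1 / (α.norm : ℝ)) else 0) + C₁ * √T * (1 / √(α.norm : ℝ)) +
            9 * (T / (a : ℝ) ^ 2) * (1 / (α.norm : ℝ))) := by
        refine Finset.sum_le_sum fun α hα => ?_
        rw [mem_gb] at hα
        exact innerA hC₁ hC ha hp hpa hz hT w ε α hα.1
      rw [Finset.sum_add_distrib, Finset.sum_add_distrib, ← Finset.sum_filter, ← Finset.mul_sum,
        ← Finset.mul_sum, ← Finset.mul_sum] at h2
      rw [hE]
      have h3 : ∑ α ∈ (gb R).filter (fun α => PrA α ∧ (a : ℤ) ∣ (star ε * star z * w * α ^ 2).im),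
          (1 : ℝ) / α.norm = Sk w ε := rfl
      rw [h3] at h2
      linarith
    calc ∑ w ∈ WW n, ∑ ε ∈ U4, ∑ α ∈ gb R, (((gb T).filter (fun δ => PA w ε α δ)).card : ℝ)
        ≤ ∑ w ∈ WW n, ∑ ε ∈ U4, (C₁ * (T / a) * Sk w ε + E) :=
          Finset.sum_le_sum fun w hw => Finset.sum_le_sum fun ε hε => h1 w hw ε hε
      _ = C₁ * (T / a) * M + (WW n).card * (U4.card * E) := by
          simp only [Finset.sum_add_distrib, Finset.sum_const, nsmul_eq_mul, hM, Finset.mul_sum]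
      _ ≤ C₁ * (T / a) * M + (WW n).card * (4 * E) := by
          have hu : ((U4.card : ℕ) : ℝ) ≤ 4 := by exact_mod_cast card_U4
          have hE0 : 0 ≤ E := by rw [hE]; positivity
          have : ((WW n).card : ℝ) * (U4.card * E) ≤ (WW n).card * (4 * E) :=
            mul_le_mul_of_nonneg_left (mul_le_mul_of_nonneg_right hu hE0) (by positivity)
          linarith
  have hB : ((ΘB.card : ℕ) : ℝ) ≤ 2 * (C₁ * (T / a) * M) + (WW n).card * (4 * E) := by
    rw [hΘB, card_iter (WW n) (gb R) (gb T) PB]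
    have h1 : ∀ w ∈ WW n, ∀ ε ∈ U4, ∑ δ ∈ gb R, (((gb T).filter (fun α => PB w ε δ α)).card : ℝ) ≤
        2 * (C₁ * (T / a) * Sk (star w) (star ε)) + E := by
      intro w hw ε hε
      have h2 : ∑ δ ∈ gb R, (((gb T).filter (fun α => PB w ε δ α)).card : ℝ) ≤
          ∑ δ ∈ gb R, ((if ¬ (a : GaussianInt) ∣ δ ∧
              (a : ℤ) ∣ (star (star ε) * star z * star w * δ ^ 2).im then
            C₁ * (T / a) * (1 / (δ.norm : ℝ)) else 0) + C₁ * √T * (1 / √(δ.norm : ℝ)) +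
            (if (a : GaussianInt) ∣ δ then 9 * T * (1 / (δ.norm : ℝ)) else 0)) := by
        refine Finset.sum_le_sum fun δ hδ => ?_
        rw [mem_gb] at hδ
        exact innerB hC₁ hC ha hp hpa hz hT w ε δ hδ.1
      rw [Finset.sum_add_distrib, Finset.sum_add_distrib, ← Finset.sum_filter, ← Finset.sum_filter,
        ← Finset.mul_sum, ← Finset.mul_sum, ← Finset.mul_sum] at h2
      have h3 := prim_sum a ha (star (star ε) * star z * star w) R
      have h4 := mult_sum a ha R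
      have h5 : ∑ α ∈ (gb R).filter (fun α => PrA α ∧
          (a : ℤ) ∣ (star (star ε) * star z * star w * α ^ 2).im),
          (1 : ℝ) / α.norm = Sk (star w) (star ε) := rfl
      rw [h5] at h3
      have h6 : C₁ * (T / a) * ∑ δ ∈ (gb R).filter (fun δ => ¬ (a : GaussianInt) ∣ δ ∧
          (a : ℤ) ∣ (star (star ε) * star z * star w * δ ^ 2).im), (1 : ℝ) / δ.norm ≤
          C₁ * (T / a) * (2 * Sk (star w) (star ε)) :=
        mul_le_mul_of_nonneg_left h3 (by positivity)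
      have h7 : 9 * T * ∑ δ ∈ (gb R).filter (fun δ => (a : GaussianInt) ∣ δ), (1 : ℝ) / δ.norm ≤
          9 * T * (1 / (a : ℝ) ^ 2 * ∑ α ∈ gb R, (1 : ℝ) / α.norm) :=
        mul_le_mul_of_nonneg_left h4 (by positivity)
      have h8 : 9 * T * (1 / (a : ℝ) ^ 2 * ∑ α ∈ gb R, (1 : ℝ) / α.norm) =
          9 * (T / (a : ℝ) ^ 2) * (∑ α ∈ gb R, (1 : ℝ) / α.norm) := by ring
      rw [h8] at h7
      rw [hE]
      linarith
    calc ∑ w ∈ WW n, ∑ ε ∈ U4, ∑ δ ∈ gb R, (((gb T).filter (fun α => PB w ε δ α)).card : ℝ)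
        ≤ ∑ w ∈ WW n, ∑ ε ∈ U4, (2 * (C₁ * (T / a) * Sk (star w) (star ε)) + E) :=
          Finset.sum_le_sum fun w hw => Finset.sum_le_sum fun ε hε => h1 w hw ε hε
      _ = 2 * (C₁ * (T / a) * ∑ w ∈ WW n, ∑ ε ∈ U4, Sk (star w) (star ε)) +
          (WW n).card * (U4.card * E) := by
          simp only [Finset.sum_add_distrib, Finset.sum_const, nsmul_eq_mul, Finset.mul_sum]
      _ = 2 * (C₁ * (T / a) * M) + (WW n).card * (U4.card * E) := by
          congr 3
          rw [hM, ← sum_WW_star hn1 (fun w => ∑ ε ∈ U4, Sk w ε)]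
          refine Finset.sum_congr rfl fun w _ => ?_
          exact sum_U4_star (fun ε => Sk (star w) ε)
      _ ≤ 2 * (C₁ * (T / a) * M) + (WW n).card * (4 * E) := by
          have hu : ((U4.card : ℕ) : ℝ) ≤ 4 := by exact_mod_cast card_U4
          have hE0 : 0 ≤ E := by rw [hE]; positivity
          have : ((WW n).card : ℝ) * (U4.card * E) ≤ (WW n).card * (4 * E) :=
            mul_le_mul_of_nonneg_left (mul_le_mul_of_nonneg_right hu hE0) (by positivity)
          linarith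
  -- the cover
  set fA : GaussianInt × GaussianInt × GaussianInt × GaussianInt →
      GaussianInt × GaussianInt × GaussianInt := fun x =>
    (x.1, x.2.2.2 * x.2.2.1, x.2.1 * x.2.2.2 * star x.2.2.1) with hfA
  set fB : GaussianInt × GaussianInt × GaussianInt × GaussianInt →
      GaussianInt × GaussianInt × GaussianInt := fun x =>
    (x.1, x.2.2.1 * x.2.2.2, x.2.1 * x.2.2.1 * star x.2.2.2) with hfB
  have hcov : {t : GaussianInt × GaussianInt × GaussianInt | t.1.norm = a + p ∧ t.2.1 ≠ 0 ∧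
      t.2.1.norm = t.2.2.norm ∧ (t.2.1.norm : ℝ) ≤ T ∧ Lat a z t.2.1 ∧ Lat a t.1 t.2.2} ⊆
      ((ΘA.image fA ∪ ΘB.image fB : Finset _) :
        Set (GaussianInt × GaussianInt × GaussianInt)) := by
    rintro ⟨w, u, u'⟩ ⟨h1, h2, h3, h4, h5, h6⟩
    simp only at h1 h2 h3 h4 h5 h6
    obtain ⟨δ, α, ε, hε, hPr, hu, hu', hδ0, hα0⟩ := dec u u' h2 h3
    have hw : w ∈ WW n := by
      rw [mem_WW hn1, h1, hn]; push_cast; ring
    have hnu : (u.norm : ℝ) = (δ.norm : ℝ) * α.norm := by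
      rw [hu, hDG.norm_mul]; push_cast; ring
    have hle : (δ.norm : ℝ) * α.norm ≤ T := by rw [← hnu]; exact h4
    have hδ1 := norm_ge_one hδ0
    have hα1 := norm_ge_one hα0
    have hcd : Cd a z w ε δ α := by
      refine ⟨?_, ?_⟩
      · rw [← hu]; exact h5
      · rw [← hu']; exact h6
    have hδT : (δ.norm : ℝ) ≤ T := by nlinarith
    have hαT : (α.norm : ℝ) ≤ T := by nlinarith
    rw [coe_union, coe_image, coe_image]
    by_cases hc : (α.norm : ℝ) ≤ R
    · left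
      refine ⟨(w, ε, α, δ), ?_, ?_⟩
      · rw [mem_coe, hΘA, mem_filter, mem_product, mem_product, mem_product, mem_gb, mem_gb]
        exact ⟨⟨hw, hε, ⟨hα0, hc⟩, hδ0, hδT⟩, hPr, hle, hcd⟩
      · simp only [hfA]; rw [← hu, ← hu']
    · right
      have hc' : (δ.norm : ℝ) ≤ R := by
        by_contra hc2
        push Not at hc hc2
        nlinarith
      refine ⟨(w, ε, δ, α), ?_, ?_⟩
      · rw [mem_coe, hΘB, mem_filter, mem_product, mem_product, mem_product, mem_gb, mem_gb]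
        exact ⟨⟨hw, hε, ⟨hδ0, hc'⟩, hα0, hαT⟩, hPr, hle, hcd⟩
      · simp only [hfB]; rw [← hu, ← hu']
  have hfin := Set.ncard_le_ncard hcov (Finset.finite_toSet _)
  rw [Set.ncard_coe_finset] at hfin
  have hcard : (ΘA.image fA ∪ ΘB.image fB).card ≤ ΘA.card + ΘB.card :=
    (card_union_le _ _).trans (add_le_add card_image_le card_image_le)
  have hfin' : (Set.ncard {t : GaussianInt × GaussianInt × GaussianInt | t.1.norm = a + p ∧
      t.2.1 ≠ 0 ∧ t.2.1.norm = t.2.2.norm ∧ (t.2.1.norm : ℝ) ≤ T ∧ Lat a z t.2.1 ∧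
      Lat a t.1 t.2.2} : ℝ) ≤ (ΘA.card : ℝ) + ΘB.card := by exact_mod_cast hfin.trans hcard
  refine hfin'.trans ?_
  have hsd0 : 0 ≤ sd z := Finset.sum_nonneg fun α _ => by
    have : (0 : ℝ) ≤ (α.norm : ℝ) := by exact_mod_cast norm_nonneg α
    positivity
  have hTa0 : 0 ≤ T / a := by positivity
  have hWE : ((WW n).card : ℝ) * E ≤ (8 * C₃) * (9 * C₁ * 32 + 81 * 1002) * (T / a) := by
    have hE0 : 0 ≤ E := by rw [hE]; positivity
    have h1 : √(a : ℝ) * E ≤ (9 * C₁ * 32 + 81 * 1002) * (T / a) := by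
      have e1 : √(a : ℝ) * (T / (a : ℝ) ^ 2) ≤ T / a := by
        rw [mul_div_assoc', div_le_div_iff₀ (by positivity) ha0]
        have : √(a : ℝ) ≤ a := by nlinarith
        nlinarith [mul_le_mul_of_nonneg_left this (by positivity : (0 : ℝ) ≤ T * a)]
      have e2 : √(a : ℝ) * (T / (a : ℝ) ^ 2) * √(a : ℝ) = T / a := by
        have : √(a : ℝ) * (T / (a : ℝ) ^ 2) * √(a : ℝ) = (√(a : ℝ) * √(a : ℝ)) * T / (a : ℝ) ^ 2 := by
          ring
        rw [this, hsa]; field_simp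
      calc √(a : ℝ) * E = 9 * C₁ * 32 * (√(a : ℝ) * (T / (a : ℝ) ^ 2)) +
            81 * 1002 * (√(a : ℝ) * (T / (a : ℝ) ^ 2) * √(a : ℝ)) := by rw [hE]; ring
        _ ≤ 9 * C₁ * 32 * (T / a) + 81 * 1002 * (T / a) := by
            rw [e2]
            have := mul_le_mul_of_nonneg_left e1 (by positivity : (0 : ℝ) ≤ 9 * C₁ * 32)
            linarith
        _ = _ := by ring
    calc ((WW n).card : ℝ) * E ≤ (8 * C₃ * √(a : ℝ)) * E := mul_le_mul_of_nonneg_right hW hE0
      _ = 8 * C₃ * (√(a : ℝ) * E) := by ring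
      _ ≤ 8 * C₃ * ((9 * C₁ * 32 + 81 * 1002) * (T / a)) := by
          apply mul_le_mul_of_nonneg_left h1; positivity
      _ = _ := by ring
  have hMM : C₁ * (T / a) * M ≤ C₁ * (T / a) * (64 * sd z + 4 * (8 * C₃) * (1004 * C₂)) :=
    mul_le_mul_of_nonneg_left hMle (by positivity)
  have hX : 4 * (8 * C₃) * (1004 * C₂) ≤ 4 * (8 * C₃) * (1004 * C₂) * (sd z + 1) := by
    have : 0 ≤ 4 * (8 * C₃) * (1004 * C₂) := by positivity
    nlinarith
  have hMM2 : 64 * sd z + 4 * (8 * C₃) * (1004 * C₂) ≤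
      (64 + 4 * (8 * C₃) * (1004 * C₂)) * (sd z + 1) := by
    have : (64 + 4 * (8 * C₃) * (1004 * C₂)) * (sd z + 1) =
      64 * sd z + 64 + 4 * (8 * C₃) * (1004 * C₂) * (sd z + 1) := by ring
    linarith
  have hMM3 : C₁ * (T / a) * (64 * sd z + 4 * (8 * C₃) * (1004 * C₂)) ≤
      C₁ * (T / a) * ((64 + 4 * (8 * C₃) * (1004 * C₂)) * (sd z + 1)) :=
    mul_le_mul_of_nonneg_left hMM2 (by positivity)
  have hZ : (8 * C₃) * (9 * C₁ * 32 + 81 * 1002) * (T / a) ≤
      (8 * C₃) * (9 * C₁ * 32 + 81 * 1002) * (T / a) * (sd z + 1) := by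
    have : 0 ≤ (8 * C₃) * (9 * C₁ * 32 + 81 * 1002) * (T / a) := by positivity
    nlinarith
  calc (ΘA.card : ℝ) + ΘB.card ≤ 3 * (C₁ * (T / a) * M) + 8 * ((WW n).card * E) := by linarith
    _ ≤ 3 * (C₁ * (T / a) * ((64 + 4 * (8 * C₃) * (1004 * C₂)) * (sd z + 1))) +
        8 * ((8 * C₃) * (9 * C₁ * 32 + 81 * 1002) * (T / a) * (sd z + 1)) := by linarith
    _ = _ := by ring

end Pool.Agent.Helper15.AB
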