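import Mathlib
import Pool.Agent.Helper15.AB.StMid

/-!
# Module DP (MP_37d0ef_nt): upper bound of `n / φ(n)`
-/

set_option autoImplicit false

namespace Pool.Agent.Helper15.AB

open Finset ArithmeticFunction Filter Topology

namespace hDP

theorem tel (n : ℕ) : ∑ l ∈ Icc 2 n, 1 / ((l : ℝ) * (l - 1)) ≤ 1 := by
  have key : ∀ m : ℕ, ∑ l ∈ Icc 2 (m + 1), 1 / ((l : ℝ) * (l - 1)) = 1 - 1 / ((m : ℝ) + 1) := by
    intro m
    induction m with
    | zero => simp
    | succ m ih =>
      rw [Finset.sum_Icc_succ_top (by omega), ih]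
      push_cast
      have h1 : (m : ℝ) + 1 ≠ 0 := by positivity
      have h2 : (m : ℝ) + 1 + 1 ≠ 0 := by positivity
      have h3 : (m : ℝ) + 1 + 1 - 1 ≠ 0 := by
        have : (m : ℝ) + 1 + 1 - 1 = m + 1 := by ring
        rw [this]; exact h1
      field_simp
      ring
  rcases Nat.eq_zero_or_pos n with h | h
  · subst h; simp
  · obtain ⟨m, rfl⟩ : ∃ m, n = m + 1 := ⟨n - 1, by omega⟩
    rw [key m]
    have : 0 ≤ 1 / ((m : ℝ) + 1) := by positivity
    linarith

theorem tot (k : ℕ) : (Nat.totient k : ℝ) = k * ∏ l ∈ k.primeFactors,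
    (1 - 1 / (l : ℝ)) := by
  have h := Nat.totient_eq_mul_prod_factors k
  have h3 : (((Nat.totient k : ℕ) : ℚ) : ℝ) =
      (((k : ℚ) * ∏ l ∈ k.primeFactors, (1 - (l : ℚ)⁻¹) : ℚ) : ℝ) := by rw [h]
  push_cast at h3
  simp only [one_div]
  exact h3

/-- `n / φ(n) ≤ exp(1 + ∑_{l | n} 1/l)` -/
theorem step1 (n : ℕ) (hn : 1 ≤ n) :
    (n : ℝ) / Nat.totient n ≤ Real.exp (∑ l ∈ n.primeFactors, 1 / (l : ℝ) + 1) := by
  have hn' : (0 : ℝ) < n := by exact_mod_cast hn
  have hφ : (0 : ℝ) < Nat.totient n := by exact_mod_cast Nat.totient_pos.2 hn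
  have hterm : ∀ l ∈ n.primeFactors, Real.exp (-(1 / (l : ℝ) + 1 / ((l : ℝ) * (l - 1)))) ≤
      1 - 1 / (l : ℝ) := by
    intro l hl
    have hl2 : (2 : ℝ) ≤ l := by exact_mod_cast (Nat.prime_of_mem_primeFactors hl).two_le
    have h1 : (0 : ℝ) < l - 1 := by linarith
    have h2 : 1 / (l : ℝ) + 1 / ((l : ℝ) * (l - 1)) = 1 / (l - 1) := by
      field_simp
      ring
    rw [h2, Real.exp_neg, inv_le_comm₀ (Real.exp_pos _)]
    · have h3 := Real.add_one_le_exp (1 / ((l : ℝ) - 1))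
      refine le_trans (le_of_eq ?_) h3
      field_simp
      ring
    · rw [sub_pos, div_lt_one (by linarith)]
      linarith
  have hprod : Real.exp (-(∑ l ∈ n.primeFactors, 1 / (l : ℝ) + 1)) ≤
      ∏ l ∈ n.primeFactors, (1 - 1 / (l : ℝ)) := by
    refine le_trans ?_ (Finset.prod_le_prod (fun l _ => (Real.exp_pos _).le) hterm)
    rw [← Real.exp_sum, Real.exp_le_exp, Finset.sum_neg_distrib, Finset.sum_add_distrib,
      neg_le_neg_iff]
    refine add_le_add le_rfl ?_
    refine le_trans (Finset.sum_le_sum_of_subset_of_nonneg ?_ ?_) (tel n)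
    · intro l hl
      rw [Finset.mem_Icc]
      exact ⟨(Nat.prime_of_mem_primeFactors hl).two_le, Nat.le_of_mem_primeFactors hl⟩
    · intro l hl _
      have hl2 : (2 : ℝ) ≤ l := by exact_mod_cast (Finset.mem_Icc.1 hl).1
      have h1 : (0 : ℝ) < l - 1 := by linarith
      positivity
  rw [div_le_iff₀ hφ, tot n]
  rw [Real.exp_neg, inv_le_iff_one_le_mul₀ (Real.exp_pos _)] at hprod
  nlinarith

/-- the primes dividing `n` -/
theorem step2 (C : ℝ) (h : ∀ y : ℝ, 3 ≤ y →
    |∑ l ∈ (Icc 1 ⌊y⌋₊).filter Nat.Prime, (1 : ℝ) / l - Real.log (Real.log y)| ≤ C)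
    (n : ℕ) (hn : 1 ≤ n) (y : ℝ) (hy : 3 ≤ y) (hyn : Real.log n ≤ y) :
    ∑ l ∈ n.primeFactors, 1 / (l : ℝ) ≤ Real.log (Real.log y) + C + 1 := by
  have hn' : (0 : ℝ) < n := by exact_mod_cast hn
  have hy0 : 0 < y := by linarith
  have h1 := (abs_le.1 (h y hy)).2
  rw [← Finset.sum_filter_add_sum_filter_not n.primeFactors (fun l : ℕ => (l : ℝ) ≤ y)]
  have h2 : ∑ l ∈ n.primeFactors.filter (fun l : ℕ => (l : ℝ) ≤ y), 1 / (l : ℝ) ≤
      ∑ l ∈ (Icc 1 ⌊y⌋₊).filter Nat.Prime, (1 : ℝ) / l := by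
    refine Finset.sum_le_sum_of_subset_of_nonneg ?_ fun l _ _ => by positivity
    intro l hl
    rw [Finset.mem_filter] at hl ⊢
    have hlp := Nat.prime_of_mem_primeFactors hl.1
    exact ⟨Finset.mem_Icc.2 ⟨hlp.one_le, Nat.le_floor hl.2⟩, hlp⟩
  set B := n.primeFactors.filter (fun l : ℕ => ¬ (l : ℝ) ≤ y) with hB
  have h3 : ∑ l ∈ B, 1 / (l : ℝ) ≤ B.card * (1 / y) := by
    have : ∑ l ∈ B, 1 / (l : ℝ) ≤ ∑ l ∈ B, 1 / y := by
      refine Finset.sum_le_sum fun l hl => ?_
      have := (Finset.mem_filter.1 hl).2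
      push Not at this
      exact one_div_le_one_div_of_le hy0 this.le
    rwa [Finset.sum_const, nsmul_eq_mul] at this
  have h4 : y ^ B.card ≤ n := by
    have h5 : y ^ B.card ≤ ∏ l ∈ B, (l : ℝ) := by
      rw [← Finset.prod_const]
      refine Finset.prod_le_prod (fun _ _ => hy0.le) fun l hl => ?_
      have := (Finset.mem_filter.1 hl).2
      push Not at this
      exact this.le
    have h6 : ∏ l ∈ B, l ≤ n := by
      have h7 : ∏ l ∈ B, l ∣ n := by
        refine (Finset.prod_dvd_prod_of_subset B n.primeFactors (fun l => l)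
          (Finset.filter_subset _ _)).trans ?_
        exact Nat.prod_primeFactors_dvd n
      exact Nat.le_of_dvd hn h7
    have h7 : ((∏ l ∈ B, l : ℕ) : ℝ) ≤ (n : ℝ) := Nat.cast_le.2 h6
    rw [Nat.cast_prod] at h7
    exact h5.trans h7
  have h5 : (B.card : ℝ) * Real.log y ≤ Real.log n := by
    rw [← Real.log_pow]
    exact Real.log_le_log (by positivity) h4
  have h6 : 1 ≤ Real.log y := by
    rw [Real.le_log_iff_exp_le hy0]
    exact (Real.exp_one_lt_d9.le.trans (by norm_num)).trans hy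
  have h7 : (B.card : ℝ) ≤ y := by
    have : (0 : ℝ) ≤ B.card := by positivity
    nlinarith
  have h8 : (B.card : ℝ) * (1 / y) ≤ 1 := by
    rw [mul_one_div, div_le_one hy0]
    exact h7
  linarith

end hDP

theorem hDP (hMT : StMT) : StDP := by
  obtain ⟨C, hC, h⟩ := hMT
  refine ⟨2 * Real.exp (C + 2), by positivity, fun n hn => ?_⟩
  set y : ℝ := max 3 (Real.log n) with hy
  have hy3 : 3 ≤ y := le_max_left _ _
  have hy0 : 0 < y := by linarith
  have hly : 1 ≤ Real.log y := by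
    rw [Real.le_log_iff_exp_le hy0]
    exact (Real.exp_one_lt_d9.le.trans (by norm_num)).trans hy3
  have h1 := hDP.step1 n hn
  have h2 := hDP.step2 C h n hn y hy3 (le_max_right _ _)
  have h3 : Real.exp (∑ l ∈ n.primeFactors, 1 / (l : ℝ) + 1) ≤ Real.exp (C + 2) * Real.log y := by
    have h4 : Real.exp (C + 2) * Real.log y = Real.exp (Real.log (Real.log y) + C + 1 + 1) := by
      rw [← Real.exp_log (by linarith : 0 < Real.log y), ← Real.exp_add, Real.exp_log (by linarith)]
      congr 1; ring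
    rw [h4, Real.exp_le_exp]
    linarith
  have hlogn : 0 ≤ Real.log n := Real.log_nonneg (by exact_mod_cast hn)
  have h5 : 0 ≤ Real.log (1 + Real.log n) := Real.log_nonneg (by linarith)
  have h4 : Real.log y ≤ 2 * (1 + Real.log (1 + Real.log n)) := by
    rcases max_choice 3 (Real.log n) with hm | hm
    · rw [hy, hm]
      have : Real.log 3 ≤ 2 := by
        rw [Real.log_le_iff_le_exp (by norm_num)]
        have h6 := Real.add_one_le_exp (2 : ℝ)
        linarith
      linarith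
    · have h6 : 3 ≤ Real.log n := by
        rw [← hm]; exact le_max_left _ _
      rw [hy, hm]
      have : Real.log (Real.log n) ≤ Real.log (1 + Real.log n) :=
        Real.log_le_log (by linarith) (by linarith)
      linarith
  calc (n : ℝ) / Nat.totient n ≤ Real.exp (C + 2) * Real.log y := h1.trans h3
    _ ≤ Real.exp (C + 2) * (2 * (1 + Real.log (1 + Real.log n))) :=
        mul_le_mul_of_nonneg_left h4 (Real.exp_pos _).le
    _ = _ := by ring

end Pool.Agent.Helper15.AB
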