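import Mathlib
import Pool.Agent.Helper15.AB.StBV
import Pool.Agent.Helper90.MT.A1
import Pool.Agent.Helper90.MT.A7

/-!
# Module EX: at most one exceptional quadratic character
-/

set_option autoImplicit false

namespace Pool.Agent.Helper15.AB

open Finset ArithmeticFunction MeasureTheory

namespace hEX

open Pool.Agent.Helper90.MT in
theorem near_one {r : ℕ} [NeZero r] (ψ : DirichletCharacter ℂ r) (hψ : ψ ≠ 1) (ε : ℝ)
    (h : ‖DirichletCharacter.LFunction ψ 1‖ < ε) :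
    ∃ σ : ℝ, 1 < σ ∧ σ ≤ 2 ∧ ‖LSeries (Lk ψ 0) (σ : ℂ)‖ < ε := by
  have hc : Continuous fun σ : ℝ => ‖DirichletCharacter.LFunction ψ (σ : ℂ)‖ :=
    ((DirichletCharacter.differentiable_LFunction hψ).continuous.comp
      Complex.continuous_ofReal).norm
  have h1 : ∀ᶠ σ : ℝ in nhds 1, ‖DirichletCharacter.LFunction ψ (σ : ℂ)‖ < ε := by
    refine hc.continuousAt.eventually_lt continuousAt_const ?_
    simpa using h
  have h2 : ∀ᶠ σ : ℝ in nhdsWithin 1 (Set.Ioi 1), ‖DirichletCharacter.LFunction ψ (σ : ℂ)‖ < ε :=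
    h1.filter_mono nhdsWithin_le_nhds
  have h3 : ∀ᶠ σ : ℝ in nhdsWithin 1 (Set.Ioi 1), σ ∈ Set.Ioc (1 : ℝ) 2 :=
    Ioc_mem_nhdsGT (by norm_num)
  obtain ⟨σ, h4, h5⟩ := (h2.and h3).exists
  refine ⟨σ, h5.1, h5.2, ?_⟩
  have h6 : Lk ψ 0 = fun n : ℕ => ψ (n : ZMod r) := by
    funext n
    simp [Lk]
  rw [h6, ← DirichletCharacter.LFunction_eq_LSeries ψ (by simpa using h5.1)]
  exact h4

end hEX

theorem hEX (_hDJ : StDJ) : StEX := by
  obtain ⟨c, hc, Q₀, H⟩ := Pool.Agent.Helper90.MT.a7 Pool.Agent.Helper90.MT.a1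
  set Q₁ : ℕ := max Q₀ 3 with hQ₁
  have hlog3 : (1 : ℝ) ≤ Real.log 3 := by
    rw [Real.le_log_iff_exp_le (by norm_num)]
    linarith [Real.exp_one_lt_d9]
  have h3 : (3 : ℝ) ≤ Q₁ := by exact_mod_cast le_max_right Q₀ 3
  have hl : 1 ≤ Real.log Q₁ := hlog3.trans (Real.log_le_log (by norm_num) h3)
  have hl0 : 0 < Real.log Q₁ := by linarith
  refine ⟨c / Real.log Q₁ ^ 5, by positivity, ?_⟩
  intro r₁ r₂ R _ _ ψ₁ ψ₂ hR h1 h2 hp1 hp2 hn1 hn2 hs1 hs2 hne
  have hR3 : (3 : ℝ) ≤ R := by exact_mod_cast hR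
  have hlR : 1 ≤ Real.log R := hlog3.trans (Real.log_le_log (by norm_num) hR3)
  set Q : ℕ := max R Q₁ with hQ
  have hQ3 : (3 : ℝ) ≤ Q := h3.trans (by exact_mod_cast le_max_right R Q₁)
  have hlQ : 1 ≤ Real.log Q := hlog3.trans (Real.log_le_log (by norm_num) hQ3)
  have key : c / Real.log Q ^ 5 ≤
      max ‖DirichletCharacter.LFunction ψ₁ 1‖ ‖DirichletCharacter.LFunction ψ₂ 1‖ := by
    by_contra hcon
    rw [not_le, max_lt_iff] at hcon
    apply hne
    have e1 := hEX.near_one ψ₁ hn1 _ hcon.1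
    have e2 := hEX.near_one ψ₂ hn2 _ hcon.2
    have e3 := H Q ((le_max_left _ _).trans (le_max_right _ _)) r₁ r₂ ψ₁ ψ₂
      (h1.trans (le_max_left _ _)) (h2.trans (le_max_left _ _)) hp1 hp2 hn1 hn2 hs1 hs2 e1 e2
    intro n
    exact congrFun e3 n
  refine le_trans ?_ key
  rcases le_total R Q₁ with h | h
  · have e : Q = Q₁ := max_eq_right h
    rw [e]
    exact div_le_self (by positivity) (one_le_pow₀ hlR)
  · have e : Q = R := max_eq_left h
    rw [e]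
    have h5 : Real.log R ^ 5 ≤ Real.log R ^ 6 := pow_le_pow_right₀ hlR (by norm_num)
    have h6 : c / Real.log Q₁ ^ 5 ≤ c := div_le_self hc.le (one_le_pow₀ hl)
    exact div_le_div₀ hc.le h6 (by positivity) h5

end Pool.Agent.Helper15.AB
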