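import Mathlib
import Pool.Agent.Helper15.AB.StBV

/-!
Project AB, module GA: the additive large sieve for separated points, by duality.
-/

set_option autoImplicit false

namespace Pool.Agent.Helper15.AB

open Finset

namespace GA

/-- distance to the nearest integer -/
noncomputable def nd (x : ℝ) : ℝ := |x - round x|

lemma nd_nonneg (x : ℝ) : 0 ≤ nd x := abs_nonneg _

lemma nd_le_half (x : ℝ) : nd x ≤ 1 / 2 := abs_sub_round x

lemma nd_le (x : ℝ) (n : ℤ) : nd x ≤ |x - n| := round_le x n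

lemma ee_add (x y : ℝ) : ee (x + y) = ee x * ee y := by
  unfold ee
  rw [← Complex.exp_add]
  congr 1
  push_cast
  ring

lemma ee_conj (x : ℝ) : (starRingEnd ℂ) (ee x) = ee (-x) := by
  unfold ee
  rw [← Complex.exp_conj]
  congr 1
  simp only [map_mul, Complex.conj_I, Complex.conj_ofReal, map_ofNat]
  push_cast
  ring

lemma ee_norm (x : ℝ) : ‖ee x‖ = 1 := by
  unfold ee
  have : (2 * Real.pi * x * Complex.I : ℂ) = ((2 * Real.pi * x : ℝ) : ℂ) * Complex.I := by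
    push_cast; ring
  rw [this, Complex.norm_exp_ofReal_mul_I]

lemma ee_int (k : ℤ) : ee (k : ℝ) = 1 := by
  unfold ee
  have : (2 * Real.pi * ((k : ℝ) : ℂ) * Complex.I : ℂ) = (k : ℂ) * (2 * Real.pi * Complex.I) := by
    push_cast; ring
  rw [this, Complex.exp_int_mul_two_pi_mul_I]

lemma ee_nat_mul (n : ℕ) (x : ℝ) : ee (n * x) = ee x ^ n := by
  unfold ee
  rw [← Complex.exp_nat_mul]
  congr 1
  push_cast
  ring

lemma ee_sub_one (x : ℝ) : 4 * nd x ≤ ‖ee x - 1‖ := by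
  set u : ℝ := x - round x with hu
  have hx : ee x = ee u := by
    have : x = u + ((round x : ℤ) : ℝ) := by rw [hu]; ring
    rw [this, ee_add, ee_int, mul_one]
  have hnd : nd x = |u| := rfl
  have hu2 : |u| ≤ 1 / 2 := abs_sub_round x
  have he : ee u = Complex.exp (Complex.I * ((2 * Real.pi * u : ℝ) : ℂ)) := by
    unfold ee
    congr 1
    push_cast
    ring
  rw [hx, he, Complex.norm_exp_I_mul_ofReal_sub_one, hnd, norm_mul, Real.norm_eq_abs,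
    Real.norm_eq_abs, abs_of_pos (by norm_num : (0 : ℝ) < 2)]
  have h1 : |Real.sin (2 * Real.pi * u / 2)| = |Real.sin (Real.pi * |u|)| := by
    have : 2 * Real.pi * u / 2 = Real.pi * u := by ring
    rw [this]
    rcases abs_cases u with ⟨h, _⟩ | ⟨h, _⟩
    · rw [h]
    · rw [h, mul_neg, Real.sin_neg, abs_neg]
  have h2 : 2 / Real.pi * (Real.pi * |u|) ≤ Real.sin (Real.pi * |u|) := by
    apply Real.mul_le_sin
    · positivity
    · have := Real.pi_pos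
      nlinarith
  have h3 : 2 / Real.pi * (Real.pi * |u|) = 2 * |u| := by
    field_simp
  rw [h1]
  have := le_abs_self (Real.sin (Real.pi * |u|))
  linarith

/-- the geometric sum -/
noncomputable def gg (H : ℕ) (x : ℝ) : ℂ := ∑ h ∈ range H, ee (h * x)

lemma gg_le (H : ℕ) (x : ℝ) : ‖gg H x‖ ≤ H := by
  unfold gg
  refine (norm_sum_le _ _).trans ?_
  simp [ee_norm]

lemma gg_le' (H : ℕ) (x : ℝ) : ‖gg H x‖ * (2 * nd x) ≤ 1 := by
  have h1 : gg H x * (ee x - 1) = ee (H * x) - 1 := by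
    unfold gg
    rw [ee_nat_mul, ← geom_sum_mul]
    congr 1
    exact sum_congr rfl fun h _ => ee_nat_mul h x
  have h2 : ‖gg H x‖ * ‖ee x - 1‖ ≤ 2 := by
    rw [← norm_mul, h1]
    refine (norm_sub_le _ _).trans ?_
    rw [ee_norm]
    norm_num
  have h3 := ee_sub_one x
  have h4 := mul_le_mul_of_nonneg_left h3 (norm_nonneg (gg H x))
  linarith

lemma norm_sq_sum (t : Finset ℝ) (b : ℝ → ℂ) (k : ℝ) :
    ((‖∑ x ∈ t, b x * ee (k * x)‖ ^ 2 : ℝ) : ℂ) =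
      ∑ x ∈ t, ∑ y ∈ t, b x * (starRingEnd ℂ) (b y) * ee (k * (x - y)) := by
  rw [← Complex.normSq_eq_norm_sq, ← Complex.mul_conj, map_sum, sum_mul_sum]
  refine sum_congr rfl fun x _ => sum_congr rfl fun y _ => ?_
  rw [map_mul, ee_conj]
  have : ee (k * (x - y)) = ee (k * x) * ee (-(k * y)) := by
    rw [← ee_add]
    congr 1
    ring
  rw [this]
  ring

lemma norm_sq_gg (H : ℕ) (x : ℝ) :
    ((‖gg H x‖ ^ 2 : ℝ) : ℂ) = ∑ h ∈ range H, ∑ h' ∈ range H, ee (((h : ℝ) - h') * x) := by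
  unfold gg
  rw [← Complex.normSq_eq_norm_sq, ← Complex.mul_conj, map_sum, sum_mul_sum]
  refine sum_congr rfl fun a _ => sum_congr rfl fun b _ => ?_
  rw [ee_conj, ← ee_add]
  congr 1
  ring

lemma dual (t : Finset ℝ) (b : ℝ → ℂ) (M : ℝ) (H : ℕ) :
    ((∑ h ∈ range H, ∑ h' ∈ range H, ‖∑ x ∈ t, b x * ee ((M + ((h : ℝ) - h')) * x)‖ ^ 2 : ℝ) : ℂ) =
      ∑ x ∈ t, ∑ y ∈ t, b x * (starRingEnd ℂ) (b y) * ee (M * (x - y)) *
        ((‖gg H (x - y)‖ ^ 2 : ℝ) : ℂ) := by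
  rw [Complex.ofReal_sum]
  simp_rw [Complex.ofReal_sum, norm_sq_sum, norm_sq_gg, mul_sum]
  calc ∑ h ∈ range H, ∑ h' ∈ range H, ∑ x ∈ t, ∑ y ∈ t,
        b x * (starRingEnd ℂ) (b y) * ee ((M + ((h : ℝ) - h')) * (x - y))
      = ∑ h ∈ range H, ∑ x ∈ t, ∑ h' ∈ range H, ∑ y ∈ t,
        b x * (starRingEnd ℂ) (b y) * ee ((M + ((h : ℝ) - h')) * (x - y)) :=
        sum_congr rfl fun _ _ => sum_comm
    _ = ∑ h ∈ range H, ∑ x ∈ t, ∑ y ∈ t, ∑ h' ∈ range H,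
        b x * (starRingEnd ℂ) (b y) * ee ((M + ((h : ℝ) - h')) * (x - y)) :=
        sum_congr rfl fun _ _ => sum_congr rfl fun _ _ => sum_comm
    _ = ∑ x ∈ t, ∑ h ∈ range H, ∑ y ∈ t, ∑ h' ∈ range H,
        b x * (starRingEnd ℂ) (b y) * ee ((M + ((h : ℝ) - h')) * (x - y)) := sum_comm
    _ = ∑ x ∈ t, ∑ y ∈ t, ∑ h ∈ range H, ∑ h' ∈ range H,
        b x * (starRingEnd ℂ) (b y) * ee ((M + ((h : ℝ) - h')) * (x - y)) :=
        sum_congr rfl fun _ _ => sum_comm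
    _ = _ := by
        refine sum_congr rfl fun x _ => sum_congr rfl fun y _ => sum_congr rfl fun h _ =>
          sum_congr rfl fun h' _ => ?_
        rw [mul_assoc (b x * (starRingEnd ℂ) (b y)), ← ee_add]
        congr 2
        ring

lemma lower (a : ℤ → ℝ) (ha : ∀ k, 0 ≤ a k) (K H : ℕ) (hKH : K ≤ H) :
    ((H - K : ℕ) : ℝ) * ∑ k ∈ Icc (-K : ℤ) K, a k ≤
      ∑ h ∈ range H, ∑ h' ∈ range H, a ((h : ℤ) - h') := by
  rw [← sum_product', mul_sum]
  have h1 : ∀ k ∈ Icc (-K : ℤ) K, ((H - K : ℕ) : ℝ) * a k = ∑ j ∈ range (H - K), a k := by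
    intro k _
    simp
  rw [sum_congr rfl h1, ← sum_product' (f := fun (k : ℤ) (_ : ℕ) => a k)]
  set φ : ℤ × ℕ → ℕ × ℕ := fun z => (z.2 + z.1.toNat, z.2 + (-z.1).toNat) with hφ
  have hd : ∀ z : ℤ × ℕ, (((φ z).1 : ℤ) - (φ z).2) = z.1 := by
    intro z
    simp only [hφ]
    push_cast
    omega
  have hinj : Set.InjOn φ (↑(Icc (-K : ℤ) K ×ˢ range (H - K)) : Set (ℤ × ℕ)) := by
    rintro ⟨k, j⟩ _ ⟨k', j'⟩ _ h
    have e1 := hd (k, j)
    have e2 := hd (k', j')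
    rw [h] at e1
    have hk : k = k' := by rw [← show (k, j).1 = k from rfl, ← e1, e2]
    subst hk
    simp only [hφ, Prod.mk.injEq] at h
    have : j = j' := by omega
    rw [this]
  calc ∑ z ∈ Icc (-K : ℤ) K ×ˢ range (H - K), a z.1
      = ∑ z ∈ Icc (-K : ℤ) K ×ˢ range (H - K), a (((φ z).1 : ℤ) - (φ z).2) :=
        sum_congr rfl fun z _ => by rw [hd]
    _ = ∑ w ∈ (Icc (-K : ℤ) K ×ˢ range (H - K)).image φ, a ((w.1 : ℤ) - w.2) :=
        (sum_image (f := fun w : ℕ × ℕ => a ((w.1 : ℤ) - w.2)) hinj).symm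
    _ ≤ _ := by
        apply sum_le_sum_of_subset_of_nonneg
        · intro w hw
          rw [mem_image] at hw
          obtain ⟨⟨k, j⟩, hz, rfl⟩ := hw
          rw [mem_product, mem_Icc, mem_range] at hz
          rw [mem_product, mem_range, mem_range]
          simp only [hφ] at hz ⊢
          omega
        · intro w _ _
          exact ha _

lemma inv_sq_le (M : ℕ) : ∑ l ∈ Icc 1 M, ((l : ℝ) ^ 2)⁻¹ ≤ 2 := by
  have h := sum_Ioo_inv_sq_le (α := ℝ) 0 (M + 1)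
  have e : Ioo 0 (M + 1) = Icc 1 M := by
    ext x
    simp only [mem_Ioo, mem_Icc]
    omega
  rw [e] at h
  simpa using h

/-- the sum over the points different from x -/
lemma row (δ : ℝ) (H : ℕ) (t : Finset ℝ) (hδ : 0 < δ)
    (hsep : ∀ x ∈ t, ∀ y ∈ t, x ≠ y → δ ≤ nd (x - y)) (x : ℝ) (hx : x ∈ t) :
    ∑ y ∈ t, ‖gg H (x - y)‖ ^ 2 ≤ (H : ℝ) ^ 2 + 1 / δ ^ 2 := by
  classical
  rw [← add_sum_erase _ _ hx]
  have h0 : ‖gg H (x - x)‖ ^ 2 ≤ (H : ℝ) ^ 2 := by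
    have := gg_le H (x - x)
    gcongr
  refine add_le_add h0 ?_
  -- labels
  set M : ℕ := ⌊1 / δ⌋₊ with hM
  set lab : ℝ → ℕ × Bool := fun y => (⌊nd (x - y) / δ⌋₊, decide (0 ≤ (x - y) - round (x - y)))
    with hlab
  have hge : ∀ y ∈ t.erase x, δ ≤ nd (x - y) := by
    intro y hy
    rw [mem_erase] at hy
    exact hsep x hx y hy.2 (Ne.symm hy.1)
  have hl1 : ∀ y ∈ t.erase x, 1 ≤ ⌊nd (x - y) / δ⌋₊ := by
    intro y hy
    rw [Nat.one_le_floor_iff, one_le_div hδ]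
    exact hge y hy
  have hlM : ∀ y ∈ t.erase x, ⌊nd (x - y) / δ⌋₊ ≤ M := by
    intro y hy
    apply Nat.floor_le_floor
    have := nd_le_half (x - y)
    gcongr
    linarith
  have hinj : Set.InjOn lab (↑(t.erase x) : Set ℝ) := by
    intro y hy y' hy' h
    simp only [hlab, Prod.mk.injEq, decide_eq_decide] at h
    obtain ⟨h1, h2⟩ := h
    by_contra hne
    rw [mem_coe, mem_erase] at hy hy'
    have hs := hsep y' hy'.2 y hy.2 (Ne.symm hne)
    set u := (x - y) - round (x - y) with hu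
    set u' := (x - y') - round (x - y') with hu'
    have e1 : nd (x - y) = |u| := rfl
    have e2 : nd (x - y') = |u'| := rfl
    have f1 : (⌊nd (x - y) / δ⌋₊ : ℝ) * δ ≤ |u| := by
      rw [← e1, ← le_div_iff₀ hδ]
      exact Nat.floor_le (div_nonneg (nd_nonneg _) hδ.le)
    have f2 : |u| < ((⌊nd (x - y) / δ⌋₊ : ℝ) + 1) * δ := by
      rw [← e1, ← div_lt_iff₀ hδ]
      exact Nat.lt_floor_add_one _
    have f1' : (⌊nd (x - y) / δ⌋₊ : ℝ) * δ ≤ |u'| := by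
      rw [h1, ← e2, ← le_div_iff₀ hδ]
      exact Nat.floor_le (div_nonneg (nd_nonneg _) hδ.le)
    have f2' : |u'| < ((⌊nd (x - y) / δ⌋₊ : ℝ) + 1) * δ := by
      rw [h1, ← e2, ← div_lt_iff₀ hδ]
      exact Nat.lt_floor_add_one _
    have f3 : nd (y' - y) ≤ |u - u'| := by
      have := nd_le (y' - y) (round (x - y) - round (x - y'))
      refine this.trans (le_of_eq ?_)
      congr 1
      push_cast
      rw [hu, hu']
      ring
    have f4 : |u - u'| < δ := by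
      by_cases hp : 0 ≤ u
      · have hp' : 0 ≤ u' := h2.1 hp
        rw [abs_of_nonneg hp] at f1 f2
        rw [abs_of_nonneg hp'] at f1' f2'
        rw [abs_lt]
        constructor <;> linarith
      · have hp' : ¬ 0 ≤ u' := fun hc => hp (h2.2 hc)
        push Not at hp hp'
        rw [abs_of_neg hp] at f1 f2
        rw [abs_of_neg hp'] at f1' f2'
        rw [abs_lt]
        constructor <;> linarith
    linarith
  have hb : ∀ y ∈ t.erase x, ‖gg H (x - y)‖ ^ 2 ≤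
      1 / (4 * δ ^ 2) * (((lab y).1 : ℝ) ^ 2)⁻¹ := by
    intro y hy
    have g1 := gg_le' H (x - y)
    have g2 : (((lab y).1 : ℕ) : ℝ) * δ ≤ nd (x - y) := by
      rw [← le_div_iff₀ hδ]
      exact Nat.floor_le (div_nonneg (nd_nonneg _) hδ.le)
    have g3 : (1 : ℝ) ≤ ((lab y).1 : ℕ) := by exact_mod_cast hl1 y hy
    have g4 : ‖gg H (x - y)‖ * (2 * (((lab y).1 : ℕ) * δ)) ≤ 1 := by
      refine le_trans ?_ g1
      gcongr
    have g5 : ‖gg H (x - y)‖ ≤ 1 / (2 * (((lab y).1 : ℕ) * δ)) := by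
      rw [le_div_iff₀ (by positivity)]
      exact g4
    calc ‖gg H (x - y)‖ ^ 2 ≤ (1 / (2 * (((lab y).1 : ℕ) * δ))) ^ 2 := by
          gcongr
      _ = _ := by
          field_simp
          ring
  calc ∑ y ∈ t.erase x, ‖gg H (x - y)‖ ^ 2
      ≤ ∑ y ∈ t.erase x, 1 / (4 * δ ^ 2) * (((lab y).1 : ℝ) ^ 2)⁻¹ := sum_le_sum hb
    _ = ∑ w ∈ (t.erase x).image lab, 1 / (4 * δ ^ 2) * ((w.1 : ℝ) ^ 2)⁻¹ :=
        (sum_image (f := fun w : ℕ × Bool => 1 / (4 * δ ^ 2) * ((w.1 : ℝ) ^ 2)⁻¹) hinj).symm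
    _ ≤ ∑ w ∈ Icc 1 M ×ˢ (univ : Finset Bool), 1 / (4 * δ ^ 2) * ((w.1 : ℝ) ^ 2)⁻¹ := by
        apply sum_le_sum_of_subset_of_nonneg
        · intro w hw
          rw [mem_image] at hw
          obtain ⟨y, hy, rfl⟩ := hw
          rw [mem_product, mem_Icc]
          exact ⟨⟨hl1 y hy, hlM y hy⟩, mem_univ _⟩
        · intro w _ _
          positivity
    _ = 1 / (4 * δ ^ 2) * (2 * ∑ l ∈ Icc 1 M, ((l : ℝ) ^ 2)⁻¹) := by
        rw [sum_product]
        simp only [sum_const, card_univ, Fintype.card_bool, nsmul_eq_mul]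
        rw [mul_sum, mul_sum]
        refine sum_congr rfl fun l _ => ?_
        push_cast
        ring
    _ ≤ 1 / (4 * δ ^ 2) * (2 * 2) := by
        have := inv_sq_le M
        gcongr
    _ = 1 / δ ^ 2 := by
        field_simp
        ring

lemma gg_symm (H : ℕ) (x y : ℝ) : ‖gg H (x - y)‖ = ‖gg H (y - x)‖ := by
  have : gg H (y - x) = (starRingEnd ℂ) (gg H (x - y)) := by
    unfold gg
    rw [map_sum]
    refine sum_congr rfl fun h _ => ?_
    rw [ee_conj]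
    congr 1
    ring
  rw [this, RCLike.norm_conj]

/-- the dual large sieve inequality -/
lemma dual_sieve (δ : ℝ) (N M : ℕ) (t : Finset ℝ) (b : ℝ → ℂ) (hδ : 0 < δ) (hδ1 : δ ≤ 1)
    (hsep : ∀ x ∈ t, ∀ y ∈ t, x ≠ y → δ ≤ nd (x - y)) :
    ∑ n ∈ Ioc M (M + N), ‖∑ x ∈ t, b x * ee (n * x)‖ ^ 2 ≤
      12 * (N + 1 / δ) * ∑ x ∈ t, ‖b x‖ ^ 2 := by
  set H : ℕ := 2 * N + 1 + ⌈1 / δ⌉₊ with hH
  have hone : (1 : ℝ) ≤ 1 / δ := by
    rw [one_le_div hδ]
    exact hδ1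
  have hHle : (H : ℝ) ≤ 2 * N + 3 * (1 / δ) := by
    have := (Nat.ceil_lt_add_one (by positivity : (0 : ℝ) ≤ 1 / δ)).le
    rw [hH]
    push_cast
    linarith
  have hN0 : (0 : ℝ) ≤ N := Nat.cast_nonneg N
  have hHge : 1 / δ ≤ (H : ℝ) := by
    have := Nat.le_ceil (1 / δ)
    rw [hH]
    push_cast
    linarith
  have hNH : N ≤ H := by omega
  have hHpos : (0 : ℝ) < H := by linarith
  have hHN : (H : ℝ) / 2 ≤ ((H - N : ℕ) : ℝ) := by
    rw [Nat.cast_sub hNH]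
    have : (2 * N : ℝ) ≤ H := by
      have : 2 * N ≤ H := by omega
      exact_mod_cast this
    linarith
  set a : ℤ → ℝ := fun k => ‖∑ x ∈ t, b x * ee (((M : ℝ) + k) * x)‖ ^ 2 with ha
  have ha0 : ∀ k, 0 ≤ a k := fun k => by simp only [ha]; positivity
  have h0 : ∑ n ∈ Ioc M (M + N), ‖∑ x ∈ t, b x * ee (n * x)‖ ^ 2 ≤
      ∑ k ∈ Icc (-N : ℤ) N, a k := by
    have hinj : Set.InjOn (fun n : ℕ => (n : ℤ) - M) (↑(Ioc M (M + N)) : Set ℕ) := by
      intro x _ y _ h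
      simp only at h
      omega
    calc ∑ n ∈ Ioc M (M + N), ‖∑ x ∈ t, b x * ee (n * x)‖ ^ 2
        = ∑ n ∈ Ioc M (M + N), a ((n : ℤ) - M) := by
          refine sum_congr rfl fun n _ => ?_
          simp only [ha]
          push_cast
          rw [add_sub_cancel]
      _ = ∑ k ∈ (Ioc M (M + N)).image (fun n : ℕ => (n : ℤ) - M), a k :=
          (sum_image hinj).symm
      _ ≤ _ := by
          apply sum_le_sum_of_subset_of_nonneg
          · intro k hk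
            rw [mem_image] at hk
            obtain ⟨n, hn, rfl⟩ := hk
            rw [mem_Ioc] at hn
            rw [mem_Icc]
            omega
          · intro k _ _
            exact ha0 k
  have h1 := lower a ha0 N H hNH
  have h2 : ∑ h ∈ range H, ∑ h' ∈ range H, a ((h : ℤ) - h') ≤
      ∑ x ∈ t, ‖b x‖ ^ 2 * ((H : ℝ) ^ 2 + 1 / δ ^ 2) := by
    have e1 := dual t b M H
    have e2 : ∑ h ∈ range H, ∑ h' ∈ range H, a ((h : ℤ) - h') =
        ∑ h ∈ range H, ∑ h' ∈ range H, ‖∑ x ∈ t, b x * ee (((M : ℝ) + ((h : ℝ) - h')) * x)‖ ^ 2 := by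
      refine sum_congr rfl fun h _ => sum_congr rfl fun h' _ => ?_
      simp only [ha]
      push_cast
      rfl
    have hnn : 0 ≤ ∑ h ∈ range H, ∑ h' ∈ range H, a ((h : ℤ) - h') :=
      sum_nonneg fun _ _ => sum_nonneg fun _ _ => ha0 _
    have e3 : ∑ h ∈ range H, ∑ h' ∈ range H, a ((h : ℤ) - h') =
        ‖((∑ h ∈ range H, ∑ h' ∈ range H, a ((h : ℤ) - h') : ℝ) : ℂ)‖ := by
      rw [Complex.norm_real, Real.norm_eq_abs, abs_of_nonneg hnn]
    rw [e3, e2, e1]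
    calc ‖∑ x ∈ t, ∑ y ∈ t, b x * (starRingEnd ℂ) (b y) * ee (M * (x - y)) *
        ((‖gg H (x - y)‖ ^ 2 : ℝ) : ℂ)‖
        ≤ ∑ x ∈ t, ∑ y ∈ t, ‖b x‖ * ‖b y‖ * ‖gg H (x - y)‖ ^ 2 := by
          refine (norm_sum_le _ _).trans (sum_le_sum fun x _ => ?_)
          refine (norm_sum_le _ _).trans (sum_le_sum fun y _ => ?_)
          rw [norm_mul, norm_mul, norm_mul, ee_norm, RCLike.norm_conj, Complex.norm_real,
            Real.norm_eq_abs, abs_of_nonneg (by positivity), mul_one]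
      _ ≤ ∑ x ∈ t, ∑ y ∈ t, ((‖b x‖ ^ 2 * ‖gg H (x - y)‖ ^ 2) / 2 +
            (‖b y‖ ^ 2 * ‖gg H (x - y)‖ ^ 2) / 2) := by
          refine sum_le_sum fun x _ => sum_le_sum fun y _ => ?_
          have : ‖b x‖ * ‖b y‖ ≤ ‖b x‖ ^ 2 / 2 + ‖b y‖ ^ 2 / 2 := by
            nlinarith [sq_nonneg (‖b x‖ - ‖b y‖)]
          have h3 := mul_le_mul_of_nonneg_right this (sq_nonneg ‖gg H (x - y)‖)
          linarith
      _ = (∑ x ∈ t, ∑ y ∈ t, (‖b x‖ ^ 2 * ‖gg H (x - y)‖ ^ 2) / 2) +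
            ∑ x ∈ t, ∑ y ∈ t, (‖b y‖ ^ 2 * ‖gg H (x - y)‖ ^ 2) / 2 := by
          rw [← sum_add_distrib]
          refine sum_congr rfl fun x _ => ?_
          rw [← sum_add_distrib]
      _ = (∑ x ∈ t, ∑ y ∈ t, (‖b x‖ ^ 2 * ‖gg H (x - y)‖ ^ 2) / 2) +
            ∑ x ∈ t, ∑ y ∈ t, (‖b x‖ ^ 2 * ‖gg H (x - y)‖ ^ 2) / 2 := by
          congr 1
          rw [sum_comm]
          refine sum_congr rfl fun x _ => sum_congr rfl fun y _ => ?_
          rw [gg_symm]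
      _ = ∑ x ∈ t, ‖b x‖ ^ 2 * ∑ y ∈ t, ‖gg H (x - y)‖ ^ 2 := by
          rw [← sum_add_distrib]
          refine sum_congr rfl fun x _ => ?_
          rw [← sum_add_distrib, mul_sum]
          refine sum_congr rfl fun y _ => ?_
          ring
      _ ≤ _ := by
          refine sum_le_sum fun x hx => ?_
          have := row δ H t hδ hsep x hx
          gcongr
  have h3 : ∑ x ∈ t, ‖b x‖ ^ 2 * ((H : ℝ) ^ 2 + 1 / δ ^ 2) ≤
      (2 * (H : ℝ) ^ 2) * ∑ x ∈ t, ‖b x‖ ^ 2 := by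
    rw [← sum_mul, mul_comm]
    have : 1 / δ ^ 2 ≤ (H : ℝ) ^ 2 := by
      have : 1 / δ ^ 2 = (1 / δ) ^ 2 := by rw [div_pow, one_pow]
      rw [this]
      gcongr
    have hs : 0 ≤ ∑ x ∈ t, ‖b x‖ ^ 2 := sum_nonneg fun _ _ => by positivity
    exact mul_le_mul_of_nonneg_right (by linarith) hs
  have hS0 : 0 ≤ ∑ k ∈ Icc (-N : ℤ) N, a k := sum_nonneg fun k _ => ha0 k
  have h4 : (H : ℝ) / 2 * ∑ k ∈ Icc (-N : ℤ) N, a k ≤
      (H : ℝ) / 2 * (4 * H * ∑ x ∈ t, ‖b x‖ ^ 2) := by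
    calc (H : ℝ) / 2 * ∑ k ∈ Icc (-N : ℤ) N, a k
        ≤ ((H - N : ℕ) : ℝ) * ∑ k ∈ Icc (-N : ℤ) N, a k := by gcongr
      _ ≤ (2 * (H : ℝ) ^ 2) * ∑ x ∈ t, ‖b x‖ ^ 2 := h1.trans (h2.trans h3)
      _ = _ := by ring
  have h5 : ∑ k ∈ Icc (-N : ℤ) N, a k ≤ 4 * H * ∑ x ∈ t, ‖b x‖ ^ 2 :=
    le_of_mul_le_mul_left h4 (by positivity)
  refine h0.trans (h5.trans ?_)
  have hs : 0 ≤ ∑ x ∈ t, ‖b x‖ ^ 2 := sum_nonneg fun _ _ => by positivity
  refine mul_le_mul_of_nonneg_right ?_ hs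
  have hd : 0 ≤ 1 / δ := by positivity
  linarith

end GA

open GA in
/-- module GA -/
theorem hGA : StGA := by
  refine ⟨12, by norm_num, ?_⟩
  intro P δ N M a hδ hδ1 _ hsep
  have hsep' : ∀ x ∈ P, ∀ y ∈ P, x ≠ y → δ ≤ nd (x - y) := fun x hx y hy hxy =>
    hsep x hx y hy hxy (round (x - y))
  set S : ℝ → ℂ := fun α => ∑ n ∈ Ioc M (M + N), a n * ee (n * α) with hS
  set X : ℝ := ∑ α ∈ P, ‖S α‖ ^ 2 with hX
  have hX0 : 0 ≤ X := sum_nonneg fun _ _ => by positivity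
  set A : ℝ := ∑ n ∈ Ioc M (M + N), ‖a n‖ ^ 2 with hA
  have hA0 : 0 ≤ A := sum_nonneg fun _ _ => by positivity
  have hd := dual_sieve δ N M P (fun x => (starRingEnd ℂ) (S x)) hδ hδ1 hsep'
  simp only [RCLike.norm_conj] at hd
  set B : ℕ → ℂ := fun n => ∑ x ∈ P, (starRingEnd ℂ) (S x) * ee (n * x) with hB
  have h1 : ((X : ℝ) : ℂ) = ∑ n ∈ Ioc M (M + N), a n * B n := by
    rw [hX, Complex.ofReal_sum]
    calc ∑ α ∈ P, ((‖S α‖ ^ 2 : ℝ) : ℂ)
        = ∑ α ∈ P, ∑ n ∈ Ioc M (M + N), a n * ((starRingEnd ℂ) (S α) * ee (n * α)) := by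
          refine sum_congr rfl fun α _ => ?_
          rw [← Complex.normSq_eq_norm_sq, ← Complex.mul_conj]
          conv_lhs => rw [hS]
          simp only
          rw [sum_mul]
          refine sum_congr rfl fun n _ => ?_
          ring
      _ = ∑ n ∈ Ioc M (M + N), ∑ α ∈ P, a n * ((starRingEnd ℂ) (S α) * ee (n * α)) := sum_comm
      _ = _ := by
          refine sum_congr rfl fun n _ => ?_
          rw [hB, mul_sum]
  have h2 : X ≤ ∑ n ∈ Ioc M (M + N), ‖a n‖ * ‖B n‖ := by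
    have : X = ‖((X : ℝ) : ℂ)‖ := by
      rw [Complex.norm_real, Real.norm_eq_abs, abs_of_nonneg hX0]
    rw [this, h1]
    refine (norm_sum_le _ _).trans (sum_le_sum fun n _ => ?_)
    rw [norm_mul]
  have h3 : X ^ 2 ≤ A * (12 * (N + 1 / δ) * X) := by
    calc X ^ 2 ≤ (∑ n ∈ Ioc M (M + N), ‖a n‖ * ‖B n‖) ^ 2 := by gcongr
      _ ≤ (∑ n ∈ Ioc M (M + N), ‖a n‖ ^ 2) * ∑ n ∈ Ioc M (M + N), ‖B n‖ ^ 2 :=
          sum_mul_sq_le_sq_mul_sq _ _ _
      _ ≤ _ := by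
          rw [← hA]
          exact mul_le_mul_of_nonneg_left hd hA0
  rcases eq_or_lt_of_le hX0 with h | h
  · rw [← h]
    positivity
  · have h4 : X * X ≤ X * (12 * (N + 1 / δ) * A) := by
      calc X * X = X ^ 2 := by ring
        _ ≤ A * (12 * (N + 1 / δ) * X) := h3
        _ = _ := by ring
    exact le_of_mul_le_mul_left h4 h

end Pool.Agent.Helper15.AB
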