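import Mathlib
import Pool.Agent.Helper15.AB.StMid
import Pool.Agent.Helper15.AB.StKl
import Pool.Agent.Helper15.AB.M_GA

/-!
# AB module FJ: solutions of `P Q ≡ h (mod R)` in a box and in residue classes modulo `m`
-/

set_option autoImplicit false

namespace Pool.Agent.Helper15.AB

namespace hFJ

open Finset GA

/-- the progression `P ≡ P₀ (mod m)` in `[-R, R]` -/
noncomputable def PA (m R : ℕ) (P₀ : ℤ) : Finset ℤ :=
  (Icc (-(R : ℤ)) R).filter (fun P => (m : ℤ) ∣ P - P₀)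

/-- exponential sum over a finite set of integers -/
noncomputable def SA (R : ℕ) (A : Finset ℤ) (α : ℕ) : ℂ :=
  ∑ P ∈ A, ee (-((α * P : ℤ) : ℝ) / R)

theorem PA_eq (m R : ℕ) (P₀ : ℤ) (hm : 1 ≤ m) :
    ∃ (a : ℤ) (n : ℕ), n * m ≤ 2 * R + m ∧
      PA m R P₀ = (range n).image (fun j : ℕ => a + m * (j : ℤ)) := by
  have hm0 : (0 : ℤ) < m := by exact_mod_cast hm
  set t : ℤ := (P₀ + R) % m with ht
  have ht0 : 0 ≤ t := Int.emod_nonneg _ hm0.ne'
  have ht1 : t < m := Int.emod_lt_of_pos _ hm0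
  have htd : (m : ℤ) ∣ (P₀ + R) - t := Int.dvd_self_sub_emod
  set s : ℤ := (R - (-(R : ℤ) + t)) / m with hs
  have hs0 : -1 ≤ s := by
    rw [hs, Int.le_ediv_iff_mul_le hm0]
    have : (0 : ℤ) ≤ R := by positivity
    linarith
  have hs1 : s * m ≤ R - (-(R : ℤ) + t) := Int.ediv_mul_le _ hm0.ne'
  refine ⟨-(R : ℤ) + t, (s + 1).toNat, ?_, ?_⟩
  · have h1 : (((s + 1).toNat : ℕ) : ℤ) = s + 1 := Int.toNat_of_nonneg (by linarith)
    have h2 : ((((s + 1).toNat * m : ℕ)) : ℤ) ≤ ((2 * R + m : ℕ) : ℤ) := by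
      push_cast
      rw [h1]
      nlinarith
    exact_mod_cast h2
  · ext P
    unfold PA
    rw [mem_filter, mem_Icc, mem_image]
    constructor
    · rintro ⟨⟨h1, h2⟩, h3⟩
      have h4 : (m : ℤ) ∣ P + R - t := by
        have : P + R - t = (P - P₀) + ((P₀ + R) - t) := by ring
        rw [this]
        exact dvd_add h3 htd
      obtain ⟨j, hj⟩ := h4
      have hj0 : 0 ≤ j := by
        by_contra hneg
        have : j ≤ -1 := by omega
        nlinarith
      refine ⟨j.toNat, ?_, ?_⟩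
      · rw [mem_range]
        have h5 : j ≤ s := by
          rw [hs, Int.le_ediv_iff_mul_le hm0]
          linarith
        omega
      · rw [Int.toNat_of_nonneg hj0]
        linarith
    · rintro ⟨j, hj, rfl⟩
      rw [mem_range] at hj
      have h5 : (j : ℤ) ≤ s := by omega
      have h6 : (j : ℤ) * m ≤ s * m := mul_le_mul_of_nonneg_right h5 hm0.le
      have h7 : 0 ≤ (m : ℤ) * j := by positivity
      refine ⟨⟨by linarith, by linarith⟩, ?_⟩
      have : -(R : ℤ) + t + m * j - P₀ = m * j - ((P₀ + R) - t) := by ring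
      rw [this]
      exact dvd_sub (dvd_mul_right _ _) htd

theorem SA_PA (m R : ℕ) (P₀ : ℤ) (hm : 1 ≤ m) :
    ∃ n : ℕ, n * m ≤ 2 * R + m ∧ (PA m R P₀).card ≤ n ∧
      ∀ α : ℕ, ‖SA R (PA m R P₀) α‖ = ‖gg n (-((α * m : ℕ) : ℝ) / R)‖ := by
  obtain ⟨a, n, hn, he⟩ := PA_eq m R P₀ hm
  have hm0 : (0 : ℤ) < m := by exact_mod_cast hm
  refine ⟨n, hn, ?_, ?_⟩
  · rw [he]
    exact card_image_le.trans (by rw [card_range])
  · intro α
    have h1 : SA R (PA m R P₀) α =
        ee (-((α * a : ℤ) : ℝ) / R) * gg n (-((α * m : ℕ) : ℝ) / R) := by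
      unfold SA gg
      rw [he, sum_image, mul_sum]
      · refine sum_congr rfl fun j _ => ?_
        rw [← ee_add]
        congr 1
        push_cast
        ring
      · intro x _ y _ hxy
        simp only [add_right_inj, mul_eq_mul_left_iff, Nat.cast_inj] at hxy
        rcases hxy with h | h
        · exact h
        · exfalso; omega
    rw [h1, norm_mul, ee_norm, one_mul]

theorem gg_bound (n R M : ℕ) (hR : 1 ≤ R) (hM : M % R ≠ 0) :
    ‖gg n (-((M : ℕ) : ℝ) / R)‖ ≤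
      R / 2 * (1 / ((M % R : ℕ) : ℝ) + 1 / ((R : ℝ) - (M % R : ℕ))) := by
  have hR0 : (0 : ℝ) < R := by exact_mod_cast hR
  set x : ℝ := -((M : ℕ) : ℝ) / R with hx
  set r : ℕ := M % R with hr
  have hrR : r < R := Nat.mod_lt _ hR
  have hr0 : (0 : ℝ) < r := by
    have : 0 < r := Nat.pos_of_ne_zero hM
    exact_mod_cast this
  have hrR' : (0 : ℝ) < (R : ℝ) - r := by
    have : (r : ℝ) < R := by exact_mod_cast hrR
    linarith
  have h0 := gg_le' n x
  obtain ⟨q, hq⟩ : ∃ q : ℕ, M = r + R * q := ⟨M / R, (Nat.mod_add_div M R).symm⟩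
  have hMR : (M : ℝ) = r + R * (q : ℝ) := by exact_mod_cast hq
  have hxe : x = -((r : ℝ) + R * q) / R := by rw [hx, hMR]
  obtain ⟨w, hw⟩ : ∃ w : ℤ, round x = w := ⟨_, rfl⟩
  have hnd : nd x = |((r : ℝ) + R * (((q : ℤ) + w : ℤ) : ℝ)) / R| := by
    unfold nd
    rw [← abs_neg, hw]
    congr 1
    rw [hxe]
    push_cast
    field_simp
    ring
  set k : ℤ := (q : ℤ) + w with hk
  have hg := norm_nonneg (gg n x)
  rcases le_or_gt 0 k with hk0 | hk0
  · have hk' : (0 : ℝ) ≤ k := by exact_mod_cast hk0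
    have h1 : (r : ℝ) / R ≤ nd x := by
      rw [hnd]
      refine le_trans ?_ (le_abs_self _)
      gcongr
      nlinarith
    have h2 : ‖gg n x‖ * (2 * ((r : ℝ) / R)) ≤ 1 :=
      (mul_le_mul_of_nonneg_left (by linarith) hg).trans h0
    have h3 : ‖gg n x‖ ≤ R / 2 * (1 / (r : ℝ)) := by
      have h4 : R / 2 * (1 / (r : ℝ)) = 1 / (2 * ((r : ℝ) / R)) := by
        field_simp
      rw [h4, le_div_iff₀ (by positivity)]
      exact h2
    refine h3.trans ?_
    gcongr
    have : 0 ≤ 1 / ((R : ℝ) - r) := by positivity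
    linarith
  · have hk1 : k ≤ -1 := by omega
    have hk' : (k : ℝ) ≤ -1 := by exact_mod_cast hk1
    have h1 : ((R : ℝ) - r) / R ≤ nd x := by
      rw [hnd]
      refine le_trans ?_ (neg_le_abs _)
      rw [← neg_div]
      gcongr
      nlinarith
    have h2 : ‖gg n x‖ * (2 * (((R : ℝ) - r) / R)) ≤ 1 :=
      (mul_le_mul_of_nonneg_left (by linarith) hg).trans h0
    have h3 : ‖gg n x‖ ≤ R / 2 * (1 / ((R : ℝ) - r)) := by
      have h4 : R / 2 * (1 / ((R : ℝ) - r)) = 1 / (2 * (((R : ℝ) - r) / R)) := by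
        field_simp
      rw [h4, le_div_iff₀ (by positivity)]
      exact h2
    refine h3.trans ?_
    gcongr
    have : 0 ≤ 1 / (r : ℝ) := by positivity
    linarith

theorem harm_le (N : ℕ) :
    ∑ k ∈ Icc 1 N, (1 : ℝ) / k ≤ 1 + Real.log N := by
  have h := harmonic_le_one_add_log N
  have h2 : ((harmonic N : ℚ) : ℝ) = ∑ k ∈ Icc 1 N, (1 : ℝ) / k := by
    rw [harmonic_eq_sum_Icc]
    push_cast
    exact sum_congr rfl fun k _ => by rw [one_div]
  rw [← h2]
  exact h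

theorem gcd_sum (R : ℕ) (hR : 1 ≤ R) :
    ∑ k ∈ Icc 1 (R - 1), (Nat.gcd k R : ℝ) / k ≤ (R.divisors.card : ℝ) * (1 + Real.log R) := by
  have h1 : ∀ k ∈ Icc 1 (R - 1), (Nat.gcd k R : ℝ) / k ≤
      ∑ d ∈ R.divisors, if d ∣ k then (d : ℝ) / k else 0 := by
    intro k hk
    have hmem : Nat.gcd k R ∈ R.divisors := by
      rw [Nat.mem_divisors]
      exact ⟨Nat.gcd_dvd_right _ _, by omega⟩
    have h2 := single_le_sum (f := fun d : ℕ => if d ∣ k then (d : ℝ) / k else 0)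
      (s := R.divisors) (fun d _ => by split_ifs <;> positivity) hmem
    simp only [Nat.gcd_dvd_left, if_true] at h2
    exact h2
  refine (sum_le_sum h1).trans ?_
  rw [sum_comm]
  have h3 : ∀ d ∈ R.divisors, ∑ k ∈ Icc 1 (R - 1), (if d ∣ k then (d : ℝ) / k else 0) ≤
      1 + Real.log R := by
    intro d hd
    have hd0 : 0 < d := Nat.pos_of_mem_divisors hd
    have h4 : ∑ k ∈ Icc 1 (R - 1), (if d ∣ k then (d : ℝ) / k else 0) ≤
        ∑ j ∈ Icc 1 R, (1 : ℝ) / j := by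
      rw [← sum_filter]
      have h5 : (Icc 1 (R - 1)).filter (fun k => d ∣ k) ⊆ (Icc 1 R).image (fun j => d * j) := by
        intro k hk
        rw [mem_filter, mem_Icc] at hk
        obtain ⟨⟨ha, hb⟩, j, rfl⟩ := hk
        rw [mem_image]
        refine ⟨j, ?_, rfl⟩
        rw [mem_Icc]
        constructor
        · rcases Nat.eq_zero_or_pos j with h | h
          · rw [h] at ha; omega
          · exact h
        · have : j ≤ d * j := Nat.le_mul_of_pos_left j hd0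
          omega
      refine (sum_le_sum_of_subset_of_nonneg h5 fun _ _ _ => by positivity).trans ?_
      rw [sum_image]
      · refine le_of_eq (sum_congr rfl fun j hj => ?_)
        rw [mem_Icc] at hj
        have hj0 : (0 : ℝ) < j := by exact_mod_cast hj.1
        have hd0' : (0 : ℝ) < d := by exact_mod_cast hd0
        push_cast
        field_simp
      · intro x _ y _ hxy
        exact Nat.eq_of_mul_eq_mul_left hd0 hxy
    exact h4.trans (harm_le R)
  refine (sum_le_sum h3).trans ?_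
  rw [sum_const, nsmul_eq_mul]

theorem gcd_sum' (R : ℕ) (hR : 1 ≤ R) :
    ∑ k ∈ Icc 1 (R - 1), (Nat.gcd k R : ℝ) / ((R : ℝ) - k) ≤
      (R.divisors.card : ℝ) * (1 + Real.log R) := by
  refine le_trans (le_of_eq ?_) (gcd_sum R hR)
  refine sum_nbij' (fun k => R - k) (fun k => R - k) ?_ ?_ ?_ ?_ ?_
  · intro k hk; rw [mem_Icc] at hk ⊢; omega
  · intro k hk; rw [mem_Icc] at hk ⊢; omega
  · intro k hk; rw [mem_Icc] at hk; omega
  · intro k hk; rw [mem_Icc] at hk; omega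
  · intro k hk
    rw [mem_Icc] at hk
    have hkR : k ≤ R := by omega
    rw [Nat.cast_sub hkR]
    congr 2
    have h := Nat.gcd_self_sub_left hkR
    exact h.symm

/-- the weighted sum over nonzero frequencies -/
theorem SA_sum (m R : ℕ) (P₀ : ℤ) (hm : 1 ≤ m) (hR : 1 ≤ R) (hc : Nat.Coprime m R) :
    ∑ α ∈ Icc 1 (R - 1), (Nat.gcd α R : ℝ) * ‖SA R (PA m R P₀) α‖ ≤
      R * ((R.divisors.card : ℝ) * (1 + Real.log R)) := by
  obtain ⟨n, hn, -, hS⟩ := SA_PA m R P₀ hm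
  have hmod : ∀ α ∈ Icc 1 (R - 1), (α * m) % R ∈ Icc 1 (R - 1) := by
    intro α hα
    rw [mem_Icc] at hα ⊢
    have h1 : (α * m) % R < R := Nat.mod_lt _ hR
    have h2 : (α * m) % R ≠ 0 := by
      intro h
      have h3 : R ∣ α * m := Nat.dvd_of_mod_eq_zero h
      have h4 : R ∣ α := (Nat.Coprime.symm hc).dvd_of_dvd_mul_right h3
      have := Nat.le_of_dvd (by omega) h4
      omega
    omega
  have h1 : ∀ α ∈ Icc 1 (R - 1), (Nat.gcd α R : ℝ) * ‖SA R (PA m R P₀) α‖ ≤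
      (Nat.gcd ((α * m) % R) R : ℝ) * (R / 2 * (1 / (((α * m) % R : ℕ) : ℝ) +
        1 / ((R : ℝ) - ((α * m) % R : ℕ)))) := by
    intro α hα
    have h2 := hmod α hα
    rw [mem_Icc] at h2
    rw [hS α]
    have h3 : Nat.gcd ((α * m) % R) R = Nat.gcd α R := by
      rw [← Nat.gcd_rec R (α * m), Nat.gcd_comm]
      exact Nat.Coprime.gcd_mul_right_cancel α hc
    rw [h3]
    exact mul_le_mul_of_nonneg_left (gg_bound n R (α * m) hR (by omega)) (by positivity)
  refine (sum_le_sum h1).trans ?_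
  have hinj : Set.InjOn (fun α => (α * m) % R) (Icc 1 (R - 1) : Finset ℕ) := by
    intro x hx y hy hxy
    rw [mem_coe, mem_Icc] at hx hy
    have h2 : x * m ≡ y * m [MOD R] := hxy
    have h3 : x ≡ y [MOD R] := Nat.ModEq.cancel_right_of_coprime (by
      rw [Nat.gcd_comm]; exact hc) h2
    exact Nat.ModEq.eq_of_lt_of_lt h3 (by omega) (by omega)
  have h4 : ∑ α ∈ Icc 1 (R - 1), (Nat.gcd ((α * m) % R) R : ℝ) *
      (R / 2 * (1 / (((α * m) % R : ℕ) : ℝ) + 1 / ((R : ℝ) - ((α * m) % R : ℕ)))) =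
      ∑ k ∈ (Icc 1 (R - 1)).image (fun α => (α * m) % R), (Nat.gcd k R : ℝ) *
        (R / 2 * (1 / (k : ℝ) + 1 / ((R : ℝ) - k))) := by
    rw [sum_image hinj]
  rw [h4]
  have h5 : (Icc 1 (R - 1)).image (fun α => (α * m) % R) ⊆ Icc 1 (R - 1) := by
    intro k hk
    rw [mem_image] at hk
    obtain ⟨α, hα, rfl⟩ := hk
    exact hmod α hα
  refine (sum_le_sum_of_subset_of_nonneg h5 fun k hk _ => ?_).trans ?_
  · rw [mem_Icc] at hk
    have : (0 : ℝ) < (R : ℝ) - k := by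
      have : (k : ℝ) < R := by exact_mod_cast (by omega : k < R)
      linarith
    positivity
  · have h6 : ∑ k ∈ Icc 1 (R - 1), (Nat.gcd k R : ℝ) *
        (R / 2 * (1 / (k : ℝ) + 1 / ((R : ℝ) - k))) =
        R / 2 * (∑ k ∈ Icc 1 (R - 1), (Nat.gcd k R : ℝ) / k +
          ∑ k ∈ Icc 1 (R - 1), (Nat.gcd k R : ℝ) / ((R : ℝ) - k)) := by
      rw [← sum_add_distrib, mul_sum]
      exact sum_congr rfl fun k _ => by ring
    rw [h6]
    have h7 := gcd_sum R hR
    have h8 := gcd_sum' R hR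
    have h9 : (0 : ℝ) ≤ R / 2 := by positivity
    calc R / 2 * (∑ k ∈ Icc 1 (R - 1), (Nat.gcd k R : ℝ) / k +
          ∑ k ∈ Icc 1 (R - 1), (Nat.gcd k R : ℝ) / ((R : ℝ) - k))
        ≤ R / 2 * ((R.divisors.card : ℝ) * (1 + Real.log R) +
          (R.divisors.card : ℝ) * (1 + Real.log R)) :=
          mul_le_mul_of_nonneg_left (add_le_add h7 h8) h9
      _ = _ := by ring

/-- orthogonality -/
theorem orth (R : ℕ) (hR : 1 ≤ R) (n : ℤ) :
    ∑ α ∈ range R, ee (((α * n : ℤ) : ℝ) / R) = if (R : ℤ) ∣ n then (R : ℂ) else 0 := by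
  have hR0 : (R : ℝ) ≠ 0 := by
    have : (0 : ℝ) < R := by exact_mod_cast hR
    exact this.ne'
  split_ifs with h
  · obtain ⟨k, rfl⟩ := h
    have h1 : ∀ α ∈ range R, ee (((α * (R * k) : ℤ) : ℝ) / R) = 1 := by
      intro α _
      have : (((α * (R * k) : ℤ) : ℝ) / R) = ((α * k : ℤ) : ℝ) := by
        push_cast
        field_simp
      rw [this, ee_int]
    rw [sum_congr rfl h1]
    simp
  · set x : ℝ := (n : ℝ) / R with hx
    have h1 : ∑ α ∈ range R, ee (((α * n : ℤ) : ℝ) / R) = ∑ α ∈ range R, ee x ^ α := by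
      refine sum_congr rfl fun α _ => ?_
      rw [← ee_nat_mul]
      congr 1
      rw [hx]
      push_cast
      ring
    have h2 : ee x ≠ 1 := by
      intro h3
      have h4 := ee_sub_one x
      rw [h3, sub_self, norm_zero] at h4
      have h5 : nd x = 0 := le_antisymm (by linarith) (nd_nonneg x)
      unfold nd at h5
      rw [abs_eq_zero, sub_eq_zero] at h5
      apply h
      refine ⟨round x, ?_⟩
      have h6 : (n : ℝ) = R * (round x : ℤ) := by
        rw [← h5, hx]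
        field_simp
      exact_mod_cast h6
    have h3 : ee x ^ R = 1 := by
      rw [← ee_nat_mul]
      have : (R : ℝ) * x = ((n : ℤ) : ℝ) := by rw [hx]; field_simp
      rw [this, ee_int]
    rw [h1, geom_sum_eq h2, h3, sub_self, zero_div]

/-- the exact formula for the number of solutions -/
theorem count_eq (R : ℕ) (hR : 1 ≤ R) (h : ℤ) (A B : Finset ℤ) :
    ((((A ×ˢ B).filter (fun v : ℤ × ℤ => (R : ℤ) ∣ v.1 * v.2 - h)).card : ℂ)) * (R : ℂ) ^ 2 =
      ∑ α ∈ range R, ∑ β ∈ range R, KQ R h α β * (SA R A α * SA R B β) := by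
  have hR0 : (0 : ℤ) < R := by exact_mod_cast hR
  have hRne : (R : ℤ) ≠ 0 := hR0.ne'
  -- pointwise identity
  have key : ∀ P Q : ℤ, ∑ α ∈ range R, ∑ β ∈ range R, KQ R h α β *
      (ee (-((α * P : ℤ) : ℝ) / R) * ee (-((β * Q : ℤ) : ℝ) / R)) =
      if (R : ℤ) ∣ P * Q - h then (R : ℂ) ^ 2 else 0 := by
    intro P Q
    set V := ((range R) ×ˢ (range R)).filter (fun v : ℕ × ℕ => (R : ℤ) ∣ (v.1 : ℤ) * v.2 - h)
      with hV
    have h1 : ∑ α ∈ range R, ∑ β ∈ range R, KQ R h α β *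
        (ee (-((α * P : ℤ) : ℝ) / R) * ee (-((β * Q : ℤ) : ℝ) / R)) =
        ∑ v ∈ V, (∑ α ∈ range R, ee (((α * (v.1 - P) : ℤ) : ℝ) / R)) *
          (∑ β ∈ range R, ee (((β * (v.2 - Q) : ℤ) : ℝ) / R)) := by
      have h2 : ∀ v ∈ V, (∑ α ∈ range R, ee (((α * (v.1 - P) : ℤ) : ℝ) / R)) *
          (∑ β ∈ range R, ee (((β * (v.2 - Q) : ℤ) : ℝ) / R)) =
          ∑ α ∈ range R, ∑ β ∈ range R, ee (((α * v.1 + β * v.2 : ℤ) : ℝ) / R) *
            (ee (-((α * P : ℤ) : ℝ) / R) * ee (-((β * Q : ℤ) : ℝ) / R)) := by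
        intro v _
        rw [sum_mul_sum]
        refine sum_congr rfl fun α _ => sum_congr rfl fun β _ => ?_
        rw [← ee_add, ← ee_add, ← ee_add]
        congr 1
        push_cast
        ring
      rw [sum_congr rfl h2, sum_comm (s := V)]
      refine sum_congr rfl fun α _ => ?_
      rw [sum_comm (s := V)]
      refine sum_congr rfl fun β _ => ?_
      unfold KQ
      rw [sum_mul]
    rw [h1]
    simp_rw [orth R hR]
    -- the unique residue
    set p : ℕ := (P % R).toNat with hp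
    set q : ℕ := (Q % R).toNat with hq
    have hp1 : (p : ℤ) = P % R := Int.toNat_of_nonneg (Int.emod_nonneg _ hRne)
    have hq1 : (q : ℤ) = Q % R := Int.toNat_of_nonneg (Int.emod_nonneg _ hRne)
    have hpR : p < R := by
      have := Int.emod_lt_of_pos P hR0
      omega
    have hqR : q < R := by
      have := Int.emod_lt_of_pos Q hR0
      omega
    have hpd : (R : ℤ) ∣ (p : ℤ) - P := by
      rw [hp1, ← dvd_neg, neg_sub]
      exact Int.dvd_self_sub_emod
    have hqd : (R : ℤ) ∣ (q : ℤ) - Q := by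
      rw [hq1, ← dvd_neg, neg_sub]
      exact Int.dvd_self_sub_emod
    have huniq : ∀ a b : ℕ, a < R → b < R → (R : ℤ) ∣ (a : ℤ) - b → a = b := by
      intro a b ha hb hd
      have h2 : (a : ℤ) ≡ b [ZMOD R] := (Int.modEq_iff_dvd.2 (by
        rw [← dvd_neg, neg_sub]; exact hd))
      have h3 : a ≡ b [MOD R] := (Int.natCast_modEq_iff).1 h2
      exact Nat.ModEq.eq_of_lt_of_lt h3 ha hb
    have h5 : (R : ℤ) ∣ P * Q - h ↔ (p, q) ∈ V := by
      rw [hV, mem_filter, mem_product, mem_range, mem_range]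
      have h6 : (R : ℤ) ∣ (p : ℤ) * q - P * Q := by
        have : (p : ℤ) * q - P * Q = (p - P) * q + P * (q - Q) := by ring
        rw [this]
        exact dvd_add (Dvd.dvd.mul_right hpd _) (Dvd.dvd.mul_left hqd _)
      constructor
      · intro h7
        refine ⟨⟨hpR, hqR⟩, ?_⟩
        have : (p : ℤ) * q - h = ((p : ℤ) * q - P * Q) + (P * Q - h) := by ring
        simp only
        rw [this]
        exact dvd_add h6 h7
      · rintro ⟨-, h7⟩
        have : P * Q - h = ((p : ℤ) * q - h) - ((p : ℤ) * q - P * Q) := by ring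
        rw [this]
        exact dvd_sub h7 h6
    have h8 : ∀ v ∈ V, ((if (R : ℤ) ∣ (v.1 : ℤ) - P then (R : ℂ) else 0) *
        (if (R : ℤ) ∣ (v.2 : ℤ) - Q then (R : ℂ) else 0)) =
        if v = (p, q) then (R : ℂ) ^ 2 else 0 := by
      intro v hv
      have hv' : v.1 < R ∧ v.2 < R := by
        rw [hV, mem_filter, mem_product, mem_range, mem_range] at hv
        exact hv.1
      by_cases hvpq : v = (p, q)
      · rw [if_pos hvpq, hvpq]
        simp only
        rw [if_pos hpd, if_pos hqd]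
        ring
      · rw [if_neg hvpq]
        by_cases ha : (R : ℤ) ∣ (v.1 : ℤ) - P
        · by_cases hb : (R : ℤ) ∣ (v.2 : ℤ) - Q
          · exfalso
            apply hvpq
            have e1 : v.1 = p := huniq _ _ hv'.1 hpR (by
              have : (v.1 : ℤ) - p = (v.1 - P) - (p - P) := by ring
              rw [this]
              exact dvd_sub ha hpd)
            have e2 : v.2 = q := huniq _ _ hv'.2 hqR (by
              have : (v.2 : ℤ) - q = (v.2 - Q) - (q - Q) := by ring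
              rw [this]
              exact dvd_sub hb hqd)
            exact Prod.ext e1 e2
          · rw [if_neg hb, mul_zero]
        · rw [if_neg ha, zero_mul]
    rw [sum_congr rfl h8, sum_ite_eq']
    by_cases h9 : (R : ℤ) ∣ P * Q - h
    · rw [if_pos h9, if_pos (h5.1 h9)]
    · rw [if_neg h9, if_neg (fun h10 => h9 (h5.2 h10))]
  have h2 : ∀ α ∈ range R, ∀ β ∈ range R, KQ R h α β * (SA R A α * SA R B β) =
      ∑ v ∈ A ×ˢ B, KQ R h α β *
        (ee (-((α * v.1 : ℤ) : ℝ) / R) * ee (-((β * v.2 : ℤ) : ℝ) / R)) := by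
    intro α _ β _
    unfold SA
    rw [sum_mul_sum, ← sum_product', mul_sum]
  rw [sum_congr rfl fun α hα => sum_congr rfl fun β hβ => h2 α hα β hβ]
  have h3 : ∑ α ∈ range R, ∑ β ∈ range R, ∑ v ∈ A ×ˢ B, KQ R h α β *
      (ee (-((α * v.1 : ℤ) : ℝ) / R) * ee (-((β * v.2 : ℤ) : ℝ) / R)) =
      ∑ v ∈ A ×ˢ B, if (R : ℤ) ∣ v.1 * v.2 - h then (R : ℂ) ^ 2 else 0 := by
    have h4 : ∀ v ∈ A ×ˢ B, (if (R : ℤ) ∣ v.1 * v.2 - h then (R : ℂ) ^ 2 else 0) =
        ∑ α ∈ range R, ∑ β ∈ range R, KQ R h α β *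
        (ee (-((α * v.1 : ℤ) : ℝ) / R) * ee (-((β * v.2 : ℤ) : ℝ) / R)) :=
      fun v _ => (key v.1 v.2).symm
    rw [sum_congr rfl h4, sum_comm (s := A ×ˢ B)]
    refine sum_congr rfl fun α _ => ?_
    rw [sum_comm]
  rw [h3, ← sum_filter, sum_const, nsmul_eq_mul]

/-- the zero frequency -/
theorem KQ_zero (R : ℕ) (hR : 1 ≤ R) (h : ℤ) :
    ‖KQ R h 0 0‖ ≤ R * ((R.divisors.filter (fun d : ℕ => (d : ℤ) ∣ h)).card : ℝ) := by
  set V := ((range R) ×ˢ (range R)).filter (fun v : ℕ × ℕ => (R : ℤ) ∣ (v.1 : ℤ) * v.2 - h)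
    with hV
  have h1 : ‖KQ R h 0 0‖ ≤ (V.card : ℝ) := by
    unfold KQ
    refine (norm_sum_le _ _).trans ?_
    simp [ee_norm, hV]
  refine h1.trans ?_
  set D := R.divisors.filter (fun d : ℕ => (d : ℤ) ∣ h) with hD
  -- fibre over gcd (u, R)
  have h2 : V.card ≤ ∑ d ∈ D, R := by
    have hmaps : ∀ v ∈ V, Nat.gcd v.1 R ∈ D := by
      intro v hv
      rw [hV, mem_filter] at hv
      rw [hD, mem_filter, Nat.mem_divisors]
      refine ⟨⟨Nat.gcd_dvd_right _ _, by omega⟩, ?_⟩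
      have h3 : ((Nat.gcd v.1 R : ℕ) : ℤ) ∣ (v.1 : ℤ) * v.2 - h :=
        (Int.natCast_dvd_natCast.2 (Nat.gcd_dvd_right v.1 R)).trans hv.2
      have h4 : ((Nat.gcd v.1 R : ℕ) : ℤ) ∣ (v.1 : ℤ) * v.2 :=
        Dvd.dvd.mul_right (Int.natCast_dvd_natCast.2 (Nat.gcd_dvd_left v.1 R)) _
      have h5 := dvd_sub h4 h3
      rwa [sub_sub_cancel] at h5
    rw [card_eq_sum_card_fiberwise hmaps]
    refine sum_le_sum fun d hd => ?_
    rw [hD, mem_filter, Nat.mem_divisors] at hd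
    obtain ⟨⟨hdR, hR0⟩, hdh⟩ := hd
    have hd0 : 0 < d := Nat.pos_of_dvd_of_pos hdR (by omega)
    obtain ⟨e, he⟩ := hdR
    have he0 : 0 < e := by
      rcases Nat.eq_zero_or_pos e with h | h
      · rw [h] at he; omega
      · exact h
    -- fibre over u
    set U := (range e).image (fun j => d * j) with hU
    have hUc : U.card ≤ e := by
      rw [hU]; exact card_image_le.trans (by rw [card_range])
    have hm2 : ∀ v ∈ V.filter (fun v : ℕ × ℕ => Nat.gcd v.1 R = d), v.1 ∈ U := by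
      intro v hv
      rw [mem_filter, hV, mem_filter, mem_product, mem_range, mem_range] at hv
      obtain ⟨⟨⟨hv1, hv2⟩, hv3⟩, hv4⟩ := hv
      have : d ∣ v.1 := by rw [← hv4]; exact Nat.gcd_dvd_left _ _
      obtain ⟨j, hj⟩ := this
      rw [hU, mem_image]
      refine ⟨j, ?_, hj.symm⟩
      rw [mem_range]
      rw [hj, he] at hv1
      exact lt_of_mul_lt_mul_left hv1 (Nat.zero_le d)
    rw [card_eq_sum_card_fiberwise hm2]
    have hfib : ∀ u ∈ U, ((V.filter (fun v : ℕ × ℕ => Nat.gcd v.1 R = d)).filter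
        (fun v : ℕ × ℕ => v.1 = u)).card ≤ d := by
      intro u _
      by_cases hu : Nat.gcd u R = d
      · -- all solutions v of u v = h mod R are congruent mod e
        have hinj : Set.InjOn (fun v : ℕ × ℕ => v.2 / e)
            ((V.filter (fun v : ℕ × ℕ => Nat.gcd v.1 R = d)).filter (fun v : ℕ × ℕ => v.1 = u) :
              Finset (ℕ × ℕ)) := by
          intro x hx y hy hxy
          rw [mem_coe, mem_filter, mem_filter, hV, mem_filter, mem_product, mem_range,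
            mem_range] at hx hy
          obtain ⟨⟨⟨⟨hx1, hx2⟩, hx3⟩, hx4⟩, hx5⟩ := hx
          obtain ⟨⟨⟨⟨hy1, hy2⟩, hy3⟩, hy4⟩, hy5⟩ := hy
          have h6 : (R : ℤ) ∣ (u : ℤ) * ((x.2 : ℤ) - y.2) := by
            have : (u : ℤ) * ((x.2 : ℤ) - y.2) =
                ((x.1 : ℤ) * x.2 - h) - ((y.1 : ℤ) * y.2 - h) := by
              rw [hx5, hy5]; ring
            rw [this]
            exact dvd_sub hx3 hy3
          obtain ⟨u', hu'⟩ : d ∣ u := by rw [← hu]; exact Nat.gcd_dvd_left _ _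
          have hcop : Nat.Coprime e u' := by
            have h7 : Nat.gcd (d * u') (d * e) = d := by rw [← hu', ← he]; exact hu
            rw [Nat.gcd_mul_left] at h7
            have h8 : Nat.gcd u' e = 1 := by
              have : d * Nat.gcd u' e = d * 1 := by rw [h7, mul_one]
              exact Nat.eq_of_mul_eq_mul_left hd0 this
            rw [Nat.gcd_comm] at h8
            exact h8
          have h9 : (e : ℤ) ∣ (u' : ℤ) * ((x.2 : ℤ) - y.2) := by
            rw [he, hu'] at h6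
            push_cast at h6
            rw [mul_assoc] at h6
            exact (mul_dvd_mul_iff_left (by exact_mod_cast hd0.ne' : (d : ℤ) ≠ 0)).1 h6
          have h10 : (e : ℤ) ∣ (x.2 : ℤ) - y.2 := by
            refine IsCoprime.dvd_of_dvd_mul_left ?_ h9
            exact Nat.isCoprime_iff_coprime.2 hcop
          have h11 : x.2 ≡ y.2 [MOD e] := by
            refine (Int.natCast_modEq_iff).1 (Int.modEq_iff_dvd.2 ?_)
            rw [← dvd_neg, neg_sub]
            exact h10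
          have h12 : x.2 = y.2 := by
            have e1 := Nat.mod_add_div x.2 e
            have e2 := Nat.mod_add_div y.2 e
            simp only at hxy
            have e3 : x.2 % e = y.2 % e := h11
            rw [← e1, ← e2, e3, hxy]
          exact Prod.ext (hx5.trans hy5.symm) h12
        rw [← card_image_of_injOn hinj]
        refine (card_le_card (t := range d) ?_).trans (by rw [card_range])
        intro w hw
        rw [mem_image] at hw
        obtain ⟨v, hv, rfl⟩ := hw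
        rw [mem_filter, mem_filter, hV, mem_filter, mem_product, mem_range, mem_range] at hv
        rw [mem_range]
        have : v.2 < R := hv.1.1.1.2
        rw [he, mul_comm] at this
        exact Nat.div_lt_of_lt_mul this
      · have : ((V.filter (fun v : ℕ × ℕ => Nat.gcd v.1 R = d)).filter (fun v : ℕ × ℕ => v.1 = u)) = ∅ := by
          rw [eq_empty_iff_forall_notMem]
          intro v hv
          rw [mem_filter, mem_filter] at hv
          apply hu
          rw [← hv.2]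
          exact hv.1.2
        rw [this]
        simp
    refine (sum_le_sum hfib).trans ?_
    rw [sum_const, smul_eq_mul, he]
    calc U.card * d ≤ e * d := Nat.mul_le_mul_right d hUc
      _ = d * e := mul_comm _ _
  have h3 : (V.card : ℝ) ≤ ((∑ d ∈ D, R : ℕ) : ℝ) := by exact_mod_cast h2
  refine h3.trans (le_of_eq ?_)
  rw [sum_const, smul_eq_mul]
  push_cast
  ring

theorem range_split {M : Type*} [AddCommMonoid M] (R : ℕ) (hR : 1 ≤ R) (f : ℕ → M) :
    ∑ α ∈ range R, f α = f 0 + ∑ α ∈ Icc 1 (R - 1), f α := by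
  have h1 : range R = insert 0 (Icc 1 (R - 1)) := by
    ext x
    rw [mem_range, mem_insert, mem_Icc]
    omega
  rw [h1, sum_insert]
  rw [mem_Icc]
  omega

theorem SA_le_card (R : ℕ) (A : Finset ℤ) (α : ℕ) : ‖SA R A α‖ ≤ (A.card : ℝ) := by
  unfold SA
  refine (norm_sum_le _ _).trans ?_
  simp [ee_norm]

/-- the main estimate -/
theorem main_bound (m R : ℕ) (h P₀ Q₀ : ℤ) (hm : 1 ≤ m) (hR : 1 ≤ R) (hc : Nat.Coprime m R)
    (hmR : m ≤ R) (E : ℝ) (hE : 0 ≤ E)
    (hK : ∀ α β : ℤ, ‖KQ R h α β‖ ≤ E * min (Int.gcd α R : ℝ) (Int.gcd β R : ℝ)) :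
    ((((PA m R P₀) ×ˢ (PA m R Q₀)).filter
      (fun v : ℤ × ℤ => (R : ℤ) ∣ v.1 * v.2 - h)).card : ℝ) ≤
      9 * (R * ((R.divisors.filter (fun d : ℕ => (d : ℤ) ∣ h)).card : ℝ) / (m : ℝ) ^ 2) +
        7 * (E * ((R.divisors.card : ℝ) * (1 + Real.log R)) ^ 2) := by
  set A := PA m R P₀ with hA
  set B := PA m R Q₀ with hB
  set N : ℝ := (((A ×ˢ B).filter (fun v : ℤ × ℤ => (R : ℤ) ∣ v.1 * v.2 - h)).card : ℝ) with hN
  set D : ℝ := ((R.divisors.filter (fun d : ℕ => (d : ℤ) ∣ h)).card : ℝ) with hD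
  set L : ℝ := (R.divisors.card : ℝ) * (1 + Real.log R) with hL
  have hR0 : (0 : ℝ) < R := by exact_mod_cast hR
  have hR1 : (1 : ℝ) ≤ R := by exact_mod_cast hR
  have hm0 : (0 : ℝ) < m := by exact_mod_cast hm
  have hm1 : (1 : ℝ) ≤ m := by exact_mod_cast hm
  have hlog : 0 ≤ Real.log R := Real.log_nonneg hR1
  have hL1 : 1 ≤ L := by
    have h1 : (1 : ℝ) ≤ R.divisors.card := by
      have : 0 < R.divisors.card := card_pos.2 ⟨1, Nat.one_mem_divisors.2 (by omega)⟩
      exact_mod_cast this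
    rw [hL]
    nlinarith
  have hD0 : 0 ≤ D := by positivity
  have hcard : ∀ Z : ℤ, ((PA m R Z).card : ℝ) ≤ 3 * R / m := by
    intro Z
    obtain ⟨n, hn, hn2, -⟩ := SA_PA m R Z hm
    have h1 : ((PA m R Z).card : ℝ) ≤ n := by exact_mod_cast hn2
    refine h1.trans ?_
    rw [le_div_iff₀ hm0]
    have h2 : n * m ≤ 3 * R := by omega
    exact_mod_cast h2
  have ha0 : ‖SA R A 0‖ ≤ 3 * R / m := (SA_le_card R A 0).trans (hcard P₀)
  have hb0 : ‖SA R B 0‖ ≤ 3 * R / m := (SA_le_card R B 0).trans (hcard Q₀)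
  have hsA : ∑ α ∈ Icc 1 (R - 1), (Nat.gcd α R : ℝ) * ‖SA R A α‖ ≤ R * L :=
    SA_sum m R P₀ hm hR hc
  have hsB : ∑ α ∈ Icc 1 (R - 1), (Nat.gcd α R : ℝ) * ‖SA R B α‖ ≤ R * L :=
    SA_sum m R Q₀ hm hR hc
  set sA : ℝ := ∑ α ∈ Icc 1 (R - 1), (Nat.gcd α R : ℝ) * ‖SA R A α‖ with hsAd
  set sB : ℝ := ∑ α ∈ Icc 1 (R - 1), (Nat.gcd α R : ℝ) * ‖SA R B α‖ with hsBd
  have hsA0 : 0 ≤ sA := by positivity
  have hsB0 : 0 ≤ sB := by positivity
  have hnorm : N * (R : ℝ) ^ 2 ≤ ∑ α ∈ range R, ∑ β ∈ range R,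
      ‖KQ R h α β‖ * (‖SA R A α‖ * ‖SA R B β‖) := by
    have h1 := count_eq R hR h A B
    have h2 : N * (R : ℝ) ^ 2 = ‖∑ α ∈ range R, ∑ β ∈ range R,
        KQ R h α β * (SA R A α * SA R B β)‖ := by
      rw [← h1, norm_mul, norm_pow, Complex.norm_natCast, Complex.norm_natCast]
    rw [h2]
    refine (norm_sum_le _ _).trans (sum_le_sum fun α _ => ?_)
    refine (norm_sum_le _ _).trans (sum_le_sum fun β _ => ?_)
    rw [norm_mul, norm_mul]
  have hgc : ∀ α : ℕ, (Int.gcd (α : ℤ) R : ℝ) = (Nat.gcd α R : ℝ) := by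
    intro α
    rw [Int.gcd_natCast_natCast]
  have hg1 : ∀ α : ℕ, (1 : ℝ) ≤ Nat.gcd α R := by
    intro α
    have : 0 < Nat.gcd α R := Nat.gcd_pos_of_pos_right _ hR
    exact_mod_cast this
  have hsplit : ∑ α ∈ range R, ∑ β ∈ range R, ‖KQ R h α β‖ * (‖SA R A α‖ * ‖SA R B β‖) ≤
      (R * D) * ((3 * R / m) * (3 * R / m)) + (3 * R / m) * (E * (R * L)) +
        (3 * R / m) * (E * (R * L)) + E * ((R * L) * (R * L)) := by
    rw [range_split R hR, range_split R hR]
    have t1 : ‖KQ R h (0 : ℕ) (0 : ℕ)‖ * (‖SA R A 0‖ * ‖SA R B 0‖) ≤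
        (R * D) * ((3 * R / m) * (3 * R / m)) := by
      refine mul_le_mul ?_ (mul_le_mul ha0 hb0 (norm_nonneg _) (by positivity))
        (by positivity) (by positivity)
      have := KQ_zero R hR h
      simpa using this
    have t2 : ∑ β ∈ Icc 1 (R - 1), ‖KQ R h (0 : ℕ) β‖ * (‖SA R A 0‖ * ‖SA R B β‖) ≤
        (3 * R / m) * (E * (R * L)) := by
      have h1 : ∀ β ∈ Icc 1 (R - 1), ‖KQ R h (0 : ℕ) β‖ * (‖SA R A 0‖ * ‖SA R B β‖) ≤
          (3 * R / m) * (E * ((Nat.gcd β R : ℝ) * ‖SA R B β‖)) := by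
        intro β _
        have h2 := hK (0 : ℕ) β
        rw [hgc, hgc] at h2
        have h3 : ‖KQ R h (0 : ℕ) β‖ ≤ E * (Nat.gcd β R : ℝ) :=
          h2.trans (mul_le_mul_of_nonneg_left (min_le_right _ _) hE)
        calc ‖KQ R h (0 : ℕ) β‖ * (‖SA R A 0‖ * ‖SA R B β‖)
            ≤ (E * (Nat.gcd β R : ℝ)) * ((3 * R / m) * ‖SA R B β‖) := by
              refine mul_le_mul h3 (mul_le_mul_of_nonneg_right ha0 (norm_nonneg _))
                (by positivity) (by positivity)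
          _ = _ := by ring
      refine (sum_le_sum h1).trans ?_
      rw [← mul_sum, ← mul_sum]
      gcongr
    have t3 : ∑ α ∈ Icc 1 (R - 1), ∑ β ∈ range R,
        ‖KQ R h α β‖ * (‖SA R A α‖ * ‖SA R B β‖) ≤
        (3 * R / m) * (E * (R * L)) + E * ((R * L) * (R * L)) := by
      have h1 : ∀ α ∈ Icc 1 (R - 1), ∑ β ∈ range R,
          ‖KQ R h α β‖ * (‖SA R A α‖ * ‖SA R B β‖) ≤
          (3 * R / m) * (E * ((Nat.gcd α R : ℝ) * ‖SA R A α‖)) +
            E * (((Nat.gcd α R : ℝ) * ‖SA R A α‖) * (R * L)) := by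
        intro α _
        rw [range_split R hR]
        have u1 : ‖KQ R h α (0 : ℕ)‖ * (‖SA R A α‖ * ‖SA R B 0‖) ≤
            (3 * R / m) * (E * ((Nat.gcd α R : ℝ) * ‖SA R A α‖)) := by
          have h2 := hK α (0 : ℕ)
          rw [hgc, hgc] at h2
          have h3 : ‖KQ R h α (0 : ℕ)‖ ≤ E * (Nat.gcd α R : ℝ) :=
            h2.trans (mul_le_mul_of_nonneg_left (min_le_left _ _) hE)
          calc ‖KQ R h α (0 : ℕ)‖ * (‖SA R A α‖ * ‖SA R B 0‖)
              ≤ (E * (Nat.gcd α R : ℝ)) * (‖SA R A α‖ * (3 * R / m)) := by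
                refine mul_le_mul h3 (mul_le_mul_of_nonneg_left hb0 (norm_nonneg _))
                  (by positivity) (by positivity)
            _ = _ := by ring
        have u2 : ∑ β ∈ Icc 1 (R - 1), ‖KQ R h α β‖ * (‖SA R A α‖ * ‖SA R B β‖) ≤
            E * (((Nat.gcd α R : ℝ) * ‖SA R A α‖) * (R * L)) := by
          have h2 : ∀ β ∈ Icc 1 (R - 1), ‖KQ R h α β‖ * (‖SA R A α‖ * ‖SA R B β‖) ≤
              E * (((Nat.gcd α R : ℝ) * ‖SA R A α‖) * ((Nat.gcd β R : ℝ) * ‖SA R B β‖)) := by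
            intro β _
            have h3 := hK α β
            rw [hgc, hgc] at h3
            have h4 : min (Nat.gcd α R : ℝ) (Nat.gcd β R : ℝ) ≤
                (Nat.gcd α R : ℝ) * (Nat.gcd β R : ℝ) := by
              refine (min_le_left _ _).trans ?_
              have := hg1 α
              have := hg1 β
              nlinarith
            have h5 : ‖KQ R h α β‖ ≤ E * ((Nat.gcd α R : ℝ) * (Nat.gcd β R : ℝ)) :=
              h3.trans (mul_le_mul_of_nonneg_left h4 hE)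
            calc ‖KQ R h α β‖ * (‖SA R A α‖ * ‖SA R B β‖)
                ≤ (E * ((Nat.gcd α R : ℝ) * (Nat.gcd β R : ℝ))) *
                  (‖SA R A α‖ * ‖SA R B β‖) := mul_le_mul_of_nonneg_right h5 (by positivity)
              _ = _ := by ring
          refine (sum_le_sum h2).trans ?_
          rw [← mul_sum, ← mul_sum]
          gcongr
        exact add_le_add u1 u2
      refine (sum_le_sum h1).trans ?_
      rw [sum_add_distrib]
      refine add_le_add ?_ ?_
      · rw [← mul_sum, ← mul_sum]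
        gcongr
      · rw [← mul_sum, ← sum_mul]
        gcongr
    linarith
  have h1 := hnorm.trans hsplit
  have hR2 : (0 : ℝ) < (R : ℝ) ^ 2 := by positivity
  have h2 : (R * D) * ((3 * R / m) * (3 * R / m)) + (3 * R / m) * (E * (R * L)) +
        (3 * R / m) * (E * (R * L)) + E * ((R * L) * (R * L)) =
      (9 * (R * D / (m : ℝ) ^ 2) + 6 * (E * L / m) + E * L ^ 2) * (R : ℝ) ^ 2 := by
    field_simp
    ring
  rw [h2] at h1
  have h3 := le_of_mul_le_mul_right h1 hR2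
  refine h3.trans ?_
  have h4 : E * L / m ≤ E * L ^ 2 := by
    have h5 : E * L / m ≤ E * L := by
      refine div_le_self (by positivity) hm1
    have h6 : E * L ≤ E * L ^ 2 := by
      refine mul_le_mul_of_nonneg_left ?_ hE
      nlinarith
    exact h5.trans h6
  linarith

end hFJ

open Finset hFJ in
theorem hFJ (hPQ : StPQ) (hDB : StDB) : StFJ := by
  obtain ⟨C0, hC0, hK⟩ := hPQ
  obtain ⟨C1, hC1, hD⟩ := hDB 0.005 (by norm_num)
  refine ⟨13 + 7 * C0 * (201 * C1) ^ 2, by positivity, ?_⟩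
  intro m R h P₀ Q₀ hm hR hc hh
  have hR0 : (0 : ℝ) < R := by exact_mod_cast hR
  have hR1 : (1 : ℝ) ≤ R := by exact_mod_cast hR
  have hm0 : (0 : ℝ) < m := by exact_mod_cast hm
  have hm1 : (1 : ℝ) ≤ m := by exact_mod_cast hm
  have hh1 : (1 : ℝ) ≤ |(h : ℝ)| := by
    have : (1 : ℤ) ≤ |h| := Int.one_le_abs hh
    exact_mod_cast this
  have hh3 : (1 : ℝ) ≤ |(h : ℝ)| ^ 3 := one_le_pow₀ hh1
  have hset : {v : ℤ × ℤ | |v.1| ≤ R ∧ |v.2| ≤ R ∧ (m : ℤ) ∣ v.1 - P₀ ∧ (m : ℤ) ∣ v.2 - Q₀ ∧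
      (R : ℤ) ∣ v.1 * v.2 - h} = (((PA m R P₀) ×ˢ (PA m R Q₀)).filter
      (fun v : ℤ × ℤ => (R : ℤ) ∣ v.1 * v.2 - h) : Finset (ℤ × ℤ)) := by
    ext v
    rw [Set.mem_setOf_eq, mem_coe, mem_filter, mem_product]
    unfold PA
    rw [mem_filter, mem_filter, mem_Icc, mem_Icc, abs_le, abs_le]
    tauto
  rw [hset, Set.ncard_coe_finset]
  set D : ℝ := ((R.divisors.filter (fun d : ℕ => (d : ℤ) ∣ h)).card : ℝ) with hDd
  have hD0 : 0 ≤ D := by positivity
  have hX : (1 : ℝ) ≤ (R : ℝ) ^ (4 / 5 : ℝ) := Real.one_le_rpow hR1 (by norm_num)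
  have hX2 : 0 ≤ |(h : ℝ)| ^ 3 * m * (R : ℝ) ^ (4 / 5 : ℝ) := by positivity
  have hX1 : 0 ≤ (R : ℝ) * D / (m : ℝ) ^ 2 := by positivity
  rcases le_or_gt m R with hmR | hmR
  · have hmain := main_bound m R h P₀ Q₀ hm hR hc hmR
      (C0 * |(h : ℝ)| ^ 3 * (R : ℝ) ^ (0.78 : ℝ)) (by positivity) (by
        intro α β
        refine (hK R h α β hR hh).trans (le_of_eq ?_)
        ring)
    refine hmain.trans ?_
    have hlog : 1 + Real.log R ≤ 201 * (R : ℝ) ^ (0.005 : ℝ) := by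
      have h1 := Real.log_le_rpow_div hR0.le (by norm_num : (0 : ℝ) < 0.005)
      have h2 : (1 : ℝ) ≤ (R : ℝ) ^ (0.005 : ℝ) := Real.one_le_rpow hR1 (by norm_num)
      have h3 : (R : ℝ) ^ (0.005 : ℝ) / 0.005 = 200 * (R : ℝ) ^ (0.005 : ℝ) := by ring
      rw [h3] at h1
      linarith
    have hlog0 : 0 ≤ Real.log R := Real.log_nonneg hR1
    have hL : (R.divisors.card : ℝ) * (1 + Real.log R) ≤ (201 * C1) * (R : ℝ) ^ (0.01 : ℝ) := by
      have h1 := hD R hR
      calc (R.divisors.card : ℝ) * (1 + Real.log R)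
          ≤ (C1 * (R : ℝ) ^ (0.005 : ℝ)) * (201 * (R : ℝ) ^ (0.005 : ℝ)) :=
            mul_le_mul h1 hlog (by positivity) (by positivity)
        _ = (201 * C1) * ((R : ℝ) ^ (0.005 : ℝ) * (R : ℝ) ^ (0.005 : ℝ)) := by ring
        _ = (201 * C1) * (R : ℝ) ^ (0.01 : ℝ) := by
            rw [← Real.rpow_add hR0]
            norm_num
    have hL2 : ((R.divisors.card : ℝ) * (1 + Real.log R)) ^ 2 ≤
        (201 * C1) ^ 2 * (R : ℝ) ^ (0.02 : ℝ) := by
      calc ((R.divisors.card : ℝ) * (1 + Real.log R)) ^ 2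
          ≤ ((201 * C1) * (R : ℝ) ^ (0.01 : ℝ)) ^ 2 := pow_le_pow_left₀ (by positivity) hL 2
        _ = (201 * C1) ^ 2 * ((R : ℝ) ^ (0.01 : ℝ) * (R : ℝ) ^ (0.01 : ℝ)) := by ring
        _ = (201 * C1) ^ 2 * (R : ℝ) ^ (0.02 : ℝ) := by
            rw [← Real.rpow_add hR0]
            norm_num
    have h5 : C0 * |(h : ℝ)| ^ 3 * (R : ℝ) ^ (0.78 : ℝ) *
        ((R.divisors.card : ℝ) * (1 + Real.log R)) ^ 2 ≤
        C0 * (201 * C1) ^ 2 * (|(h : ℝ)| ^ 3 * m * (R : ℝ) ^ (4 / 5 : ℝ)) := by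
      calc C0 * |(h : ℝ)| ^ 3 * (R : ℝ) ^ (0.78 : ℝ) *
          ((R.divisors.card : ℝ) * (1 + Real.log R)) ^ 2
          ≤ C0 * |(h : ℝ)| ^ 3 * (R : ℝ) ^ (0.78 : ℝ) *
            ((201 * C1) ^ 2 * (R : ℝ) ^ (0.02 : ℝ)) :=
            mul_le_mul_of_nonneg_left hL2 (by positivity)
        _ = C0 * (201 * C1) ^ 2 * (|(h : ℝ)| ^ 3 *
            ((R : ℝ) ^ (0.78 : ℝ) * (R : ℝ) ^ (0.02 : ℝ))) := by ring
        _ = C0 * (201 * C1) ^ 2 * (|(h : ℝ)| ^ 3 * 1 * (R : ℝ) ^ (4 / 5 : ℝ)) := by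
            rw [← Real.rpow_add hR0]
            norm_num
        _ ≤ _ := by gcongr
    have h6 : 0 ≤ C0 * (201 * C1) ^ 2 := by positivity
    nlinarith [mul_nonneg h6 hX1]
  · have hcard : ∀ Z : ℤ, (PA m R Z).card ≤ 2 := by
      intro Z
      obtain ⟨n, hn, hn2, -⟩ := SA_PA m R Z hm
      refine hn2.trans ?_
      by_contra hcon
      have : 3 ≤ n := by omega
      nlinarith
    have h1 : (((PA m R P₀) ×ˢ (PA m R Q₀)).filter
      (fun v : ℤ × ℤ => (R : ℤ) ∣ v.1 * v.2 - h)).card ≤ 4 := by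
      refine (card_filter_le _ _).trans ?_
      rw [card_product]
      exact Nat.mul_le_mul (hcard P₀) (hcard Q₀)
    have h2 : ((((PA m R P₀) ×ˢ (PA m R Q₀)).filter
      (fun v : ℤ × ℤ => (R : ℤ) ∣ v.1 * v.2 - h)).card : ℝ) ≤ 4 := by exact_mod_cast h1
    refine h2.trans ?_
    have h3 : 1 ≤ |(h : ℝ)| ^ 3 * m * (R : ℝ) ^ (4 / 5 : ℝ) := by
      have h4 : (1 : ℝ) ≤ |(h : ℝ)| ^ 3 * m := by nlinarith
      nlinarith
    have h6 : 0 ≤ C0 * (201 * C1) ^ 2 := by positivity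
    nlinarith [mul_nonneg h6 hX1, mul_nonneg h6 hX2]

end Pool.Agent.Helper15.AB
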