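import Mathlib
import Pool.Agent.Helper15.AB.StBV

/-!
# AB module FO: Fourier representation of a C^2 function supported on `[0,1]`
-/

set_option autoImplicit false

namespace Pool.Agent.Helper15.AB

open Finset ArithmeticFunction MeasureTheory

open scoped FourierTransform RealInnerProductSpace

theorem integrable_FO {g : ℝ → ℂ} (hg : Continuous g)
    (hs : ∀ t, t ∉ Set.Icc (0 : ℝ) 1 → g t = 0) : Integrable g := by
  refine hg.integrable_of_hasCompactSupport ?_
  exact HasCompactSupport.intro isCompact_Icc fun x hx => hs x hx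

theorem norm_fourier_le_FO {g : ℝ → ℂ} {M : ℝ} (hb : ∀ t, ‖g t‖ ≤ M)
    (hs : ∀ t, t ∉ Set.Icc (0 : ℝ) 1 → g t = 0) (w : ℝ) : ‖𝓕 g w‖ ≤ M := by
  rw [Real.fourier_real_eq_integral_exp_smul]
  rw [← setIntegral_eq_integral_of_forall_compl_eq_zero (s := Set.Icc (0 : ℝ) 1)
    (fun x hx => by rw [hs x hx, smul_zero])]
  refine (norm_setIntegral_le_of_norm_le_const (C := M) ?_ ?_).trans ?_
  · simp
  · intro x _
    rw [norm_smul, Complex.norm_exp_ofReal_mul_I, one_mul]
    exact hb x
  · simp [Measure.real]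

theorem deriv_zero_FO {g : ℝ → ℂ} (hs : ∀ t, t ∉ Set.Icc (0 : ℝ) 1 → g t = 0) :
    ∀ t, t ∉ Set.Icc (0 : ℝ) 1 → deriv g t = 0 := by
  intro t ht
  have h1 : g =ᶠ[nhds t] fun _ => 0 := by
    filter_upwards [isClosed_Icc.isOpen_compl.mem_nhds ht] with x hx
    exact hs x hx
  rw [h1.deriv_eq, deriv_const]

theorem hFO : StFO := by
  refine ⟨1, one_pos, ?_⟩
  intro φ M hφ hM hsupp hb hb2
  set f : ℝ → ℂ := fun t => ((φ t : ℝ) : ℂ) with hf
  have hd1 : ∀ t, HasDerivAt φ (deriv φ t) t := fun t =>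
    (hφ.differentiable (by norm_num) t).hasDerivAt
  have hC1 : ContDiff ℝ 1 (deriv φ) := by
    have h2 : ContDiff ℝ (1 + 1) φ := by
      norm_num
      exact hφ
    exact (contDiff_succ_iff_deriv.1 h2).2.2
  have hd2 : ∀ t, HasDerivAt (deriv φ) (deriv (deriv φ) t) t := fun t =>
    (hC1.differentiable (by norm_num) t).hasDerivAt
  have hf1 : deriv f = fun t => ((deriv φ t : ℝ) : ℂ) := by
    funext t
    exact (hd1 t).ofReal_comp.deriv
  have hf2 : deriv (deriv f) = fun t => ((deriv (deriv φ) t : ℝ) : ℂ) := by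
    rw [hf1]
    funext t
    exact (hd2 t).ofReal_comp.deriv
  have hfc : Continuous f := Complex.continuous_ofReal.comp hφ.continuous
  have hf1c : Continuous (deriv f) := by
    rw [hf1]
    exact Complex.continuous_ofReal.comp hC1.continuous
  have hf2c : Continuous (deriv (deriv f)) := by
    rw [hf2]
    exact Complex.continuous_ofReal.comp (contDiff_one_iff_deriv.1 hC1).2
  have hs0 : ∀ t, t ∉ Set.Icc (0 : ℝ) 1 → f t = 0 := fun t ht => by
    rw [hf]; simp [hsupp t ht]
  have hs1 := deriv_zero_FO hs0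
  have hs2 := deriv_zero_FO hs1
  have hb0 : ∀ t, ‖f t‖ ≤ M := fun t => by
    rw [hf]; simp only [Complex.norm_real, Real.norm_eq_abs]; exact hb t
  have hb2' : ∀ t, ‖deriv (deriv f) t‖ ≤ M := fun t => by
    rw [hf2]
    simp only [Complex.norm_real, Real.norm_eq_abs]
    have h := hb2 t
    rwa [iteratedDeriv_succ, iteratedDeriv_one] at h
  have hi0 := integrable_FO hfc hs0
  have hi1 := integrable_FO hf1c hs1
  have hi2 := integrable_FO hf2c hs2
  have hfd : Differentiable ℝ f := fun t => (hd1 t).ofReal_comp.differentiableAt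
  have hf1d : Differentiable ℝ (deriv f) := by
    rw [hf1]
    exact fun t => (hd2 t).ofReal_comp.differentiableAt
  have hF1 := Real.fourier_deriv hi0 hfd hi1
  have hF2 := Real.fourier_deriv hi1 hf1d hi2
  have hbound : ∀ w, ‖𝓕 f w‖ ≤ 2 * M / (1 + (2 * Real.pi * w) ^ 2) := by
    intro w
    have e1 := norm_fourier_le_FO hb0 hs0 w
    have e2 := norm_fourier_le_FO hb2' hs2 w
    rw [hF2] at e2
    simp only at e2
    rw [hF1] at e2
    simp only [norm_smul, norm_mul, Complex.norm_I, Complex.norm_real, Complex.norm_ofNat,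
      Real.norm_eq_abs, mul_one] at e2
    have hpi : |Real.pi| = Real.pi := abs_of_pos Real.pi_pos
    rw [hpi] at e2
    rw [le_div_iff₀ (by positivity)]
    have e3 : 2 * Real.pi * |w| * (2 * Real.pi * |w| * ‖𝓕 f w‖) =
        (2 * Real.pi * w) ^ 2 * ‖𝓕 f w‖ := by
      have : |w| ^ 2 = w ^ 2 := sq_abs w
      calc _ = (2 * Real.pi) ^ 2 * |w| ^ 2 * ‖𝓕 f w‖ := by ring
        _ = _ := by rw [this]; ring
    rw [e3] at e2
    linarith
  have hFc : Continuous (𝓕 f) := by
    exact VectorFourier.fourierIntegral_continuous Real.continuous_fourierChar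
      (by exact continuous_inner) hi0
  have hFi : Integrable (𝓕 f) := by
    have h1 : Integrable (fun w : ℝ => 2 * M * (1 + (2 * Real.pi * w) ^ 2)⁻¹) := by
      refine Integrable.const_mul ?_ _
      exact integrable_inv_one_add_sq.comp_mul_left' (by positivity)
    refine h1.mono' hFc.aestronglyMeasurable ?_
    refine Filter.Eventually.of_forall fun w => ?_
    rw [← div_eq_mul_inv]
    exact hbound w
  have hinv := hfc.fourierInv_fourier_eq hi0 hFi
  refine ⟨fun ξ => (1 / (2 * Real.pi) : ℝ) * 𝓕 f (ξ / (2 * Real.pi)), ?_, ?_, ?_⟩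
  · exact continuous_const.mul (hFc.comp (continuous_id.div_const _))
  · intro ξ
    rw [norm_mul, Complex.norm_real, Real.norm_eq_abs, abs_of_pos (by positivity)]
    have h1 := hbound (ξ / (2 * Real.pi))
    have h2 : 2 * Real.pi * (ξ / (2 * Real.pi)) = ξ := by
      field_simp
    rw [h2] at h1
    have h3 : (1 : ℝ) / (2 * Real.pi) ≤ 1 / 2 := by
      apply one_div_le_one_div_of_le (by norm_num)
      have := Real.pi_gt_three
      linarith
    calc 1 / (2 * Real.pi) * ‖𝓕 f (ξ / (2 * Real.pi))‖ ≤ 1 / 2 * (2 * M / (1 + ξ ^ 2)) := by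
          gcongr
      _ = 1 * M / (1 + ξ ^ 2) := by ring
  · intro t
    have h1 : f t = 𝓕⁻ (𝓕 f) t := by rw [hinv]
    have h2 : 𝓕⁻ (𝓕 f) t = ∫ v : ℝ, Complex.exp ((2 * Real.pi * v * t : ℝ) * Complex.I) * 𝓕 f v := by
      rw [Real.fourierInv_eq']
      congr 1
      funext v
      rw [smul_eq_mul]
      congr 2
      have : inner ℝ v t = v * t := by
        simp [mul_comm]
      rw [this]
      push_cast
      ring
    have h3 := Measure.integral_comp_div
      (fun v : ℝ => Complex.exp ((2 * Real.pi * v * t : ℝ) * Complex.I) * 𝓕 f v) (2 * Real.pi)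
    rw [abs_of_pos (by positivity : (0 : ℝ) < 2 * Real.pi)] at h3
    change f t = _
    rw [h1, h2]
    have h4 : ∀ ξ : ℝ, (1 / (2 * Real.pi) : ℝ) * 𝓕 f (ξ / (2 * Real.pi)) *
        Complex.exp ((ξ * t : ℝ) * Complex.I) = (1 / (2 * Real.pi) : ℝ) *
        (Complex.exp ((2 * Real.pi * (ξ / (2 * Real.pi)) * t : ℝ) * Complex.I) *
          𝓕 f (ξ / (2 * Real.pi))) := by
      intro ξ
      have h5 : 2 * Real.pi * (ξ / (2 * Real.pi)) = ξ := by
        field_simp
      rw [h5]
      ring
    simp only [h4]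
    rw [integral_const_mul, h3]
    rw [Complex.real_smul, ← mul_assoc]
    have h6 : (((1 / (2 * Real.pi) : ℝ)) : ℂ) * ((2 * Real.pi : ℝ) : ℂ) = 1 := by
      rw [← Complex.ofReal_mul]
      have : (1 / (2 * Real.pi) : ℝ) * (2 * Real.pi) = 1 := by
        field_simp
      rw [this, Complex.ofReal_one]
    rw [h6, one_mul]

end Pool.Agent.Helper15.AB
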