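import Mathlib
import Pool.Agent.Helper15.AB.StKl

/-!
# Project AB, module G1: small primitive solutions are structured
-/

set_option autoImplicit false

namespace Pool.Agent.Helper15.AB

namespace hG1

theorem core (a p n x j k s : ℤ) (ha : 0 < a) (hp : 1 ≤ p) (hn : 1 ≤ n) (hs : s = 1 ∨ s = -1)
    (h1 : x ^ 2 + (a * j) ^ 2 = (a + p) ^ 2 * n ^ 2) (hx : x = s * (p * n) + a * k)
    (hb : 8 * p * n ^ 2 < a) : j = 0 := by
  have hs2 : s ^ 2 = 1 := by rcases hs with h | h <;> rw [h] <;> norm_num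
  have hpn : 0 < p * n := by positivity
  have h2 : a * (k ^ 2 + j ^ 2 - n ^ 2) = 2 * (p * n) * (n - s * k) := by
    have h3 : a * (a * (k ^ 2 + j ^ 2 - n ^ 2)) = a * (2 * (p * n) * (n - s * k)) := by
      rw [hx] at h1
      linear_combination h1 - p ^ 2 * n ^ 2 * hs2
    exact mul_left_cancel₀ ha.ne' h3
  -- bound for `x`
  have hxb : |x| ≤ (a + p) * n := by
    apply abs_le_of_sq_le_sq _ (by positivity)
    have := sq_nonneg (a * j)
    nlinarith
  have hspn : |s * (p * n)| = p * n := by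
    rcases hs with h | h <;> rw [h]
    · rw [one_mul, abs_of_pos hpn]
    · rw [neg_one_mul, abs_neg, abs_of_pos hpn]
  have hk : a * |k| ≤ (a + 2 * p) * n := by
    have e1 : a * k = x - s * (p * n) := by rw [hx]; ring
    have e2 : a * |k| = |a * k| := by rw [abs_mul, abs_of_pos ha]
    rw [e2, e1]
    have := abs_sub x (s * (p * n))
    rw [hspn] at this
    linarith
  have hp2 : 8 * p ≤ a := by nlinarith
  have hk2 : 4 * |k| ≤ 5 * n := by
    have h4 : a * (4 * |k|) ≤ a * (5 * n) := by nlinarith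
    exact le_of_mul_le_mul_left h4 ha
  have hsk : |n - s * k| ≤ n + |k| := by
    have h5 : |s * k| = |k| := by
      rcases hs with h | h <;> rw [h]
      · rw [one_mul]
      · rw [neg_one_mul, abs_neg]
    have := abs_sub n (s * k)
    rw [h5, abs_of_pos (by linarith : (0 : ℤ) < n)] at this
    exact this
  have h6 : |a * (k ^ 2 + j ^ 2 - n ^ 2)| < a := by
    rw [h2, abs_mul, abs_of_pos (by linarith : (0 : ℤ) < 2 * (p * n))]
    calc 2 * (p * n) * |n - s * k| ≤ 2 * (p * n) * (n + |k|) :=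
          mul_le_mul_of_nonneg_left hsk (by linarith)
      _ ≤ 8 * p * n ^ 2 := by
          have : (p * n) * (4 * |k|) ≤ (p * n) * (5 * n) :=
            mul_le_mul_of_nonneg_left hk2 hpn.le
          have h7 : 0 ≤ p * n * n := by positivity
          nlinarith
      _ < a := hb
  have h7 : k ^ 2 + j ^ 2 - n ^ 2 = 0 := by
    by_contra h8
    have h9 : 1 ≤ |k ^ 2 + j ^ 2 - n ^ 2| := Int.one_le_abs h8
    rw [abs_mul, abs_of_pos ha] at h6
    nlinarith
  have h8 : n - s * k = 0 := by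
    rw [h7, mul_zero] at h2
    rcases mul_eq_zero.1 h2.symm with h | h
    · linarith
    · exact h
  have h9 : k ^ 2 = n ^ 2 := by
    have : n = s * k := by linarith
    rw [this, mul_pow, hs2, one_mul]
  have h10 : j ^ 2 = 0 := by linarith
  exact pow_eq_zero_iff (two_ne_zero) |>.1 h10

end hG1

theorem hG1 : StG1 := by
  intro p a κ α hp ha hκ hα hb hd
  obtain ⟨j, hj⟩ := hd
  have hn0 : 0 < α.norm := GaussianInt.norm_pos.2 hα
  have h0 : (κ * α ^ 2).norm = ((a : ℤ) + p) ^ 2 * α.norm ^ 2 := by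
    rw [Zsqrtd.norm_mul, hκ, pow_two α, Zsqrtd.norm_mul]
    ring
  have h1 : (κ * α ^ 2).re ^ 2 + ((a : ℤ) * j) ^ 2 = ((a : ℤ) + p) ^ 2 * α.norm ^ 2 := by
    rw [← h0, Zsqrtd.norm_def, ← hj]
    ring
  have hap : Prime (a : ℤ) := Nat.prime_iff_prime_int.1 ha
  have h2 : (a : ℤ) ∣ ((κ * α ^ 2).re - p * α.norm) * ((κ * α ^ 2).re + p * α.norm) := by
    refine ⟨((a : ℤ) + 2 * p) * α.norm ^ 2 - a * j ^ 2, ?_⟩
    linear_combination h1
  have ha0 : (0 : ℤ) < a := by exact_mod_cast ha.pos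
  have hp' : (1 : ℤ) ≤ p := by exact_mod_cast hp
  have h3 : j = 0 := by
    rcases hap.dvd_or_dvd h2 with ⟨k, hk⟩ | ⟨k, hk⟩
    · exact hG1.core a p α.norm (κ * α ^ 2).re j k 1 ha0 hp' hn0 (Or.inl rfl) h1
        (by linear_combination hk) hb
    · exact hG1.core a p α.norm (κ * α ^ 2).re j k (-1) ha0 hp' hn0 (Or.inr rfl) h1
        (by linear_combination hk) hb
  rw [hj, h3, mul_zero]

end Pool.Agent.Helper15.AB
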