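import Mathlib
import Pool.Agent.Helper15.AB.StKl

/-!
# Module G2 (MP_37d0ef_nt): the quadratic congruence defines two lines
-/

set_option autoImplicit false

namespace Pool.Agent.Helper15.AB

open Finset

namespace hG2

/-- a line modulo `a` -/
def ln (a : ℕ) (x y : ℤ) : AddSubgroup GaussianInt where
  carrier := {u | (a : ℤ) ∣ x * u.re + y * u.im}
  add_mem' := by
    intro u v hu hv
    change (a : ℤ) ∣ x * (u + v).re + y * (u + v).im
    have h1 : x * (u + v).re + y * (u + v).im = (x * u.re + y * u.im) + (x * v.re + y * v.im) := by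
      rw [Zsqrtd.re_add, Zsqrtd.im_add]; ring
    rw [h1]
    exact dvd_add hu hv
  zero_mem' := by
    change (a : ℤ) ∣ x * (0 : GaussianInt).re + y * (0 : GaussianInt).im
    simp
  neg_mem' := by
    intro u hu
    change (a : ℤ) ∣ x * (-u).re + y * (-u).im
    have h1 : x * (-u).re + y * (-u).im = -(x * u.re + y * u.im) := by
      rw [Zsqrtd.re_neg, Zsqrtd.im_neg]; ring
    rw [h1]
    exact (dvd_neg).2 hu

theorem mem_ln {a : ℕ} {x y : ℤ} {u : GaussianInt} : u ∈ ln a x y ↔
    (a : ℤ) ∣ x * u.re + y * u.im := Iff.rfl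

theorem mul_mem (a : ℕ) (x y : ℤ) (u : GaussianInt) : (a : GaussianInt) * u ∈ ln a x y := by
  rw [mem_ln]
  have h1 : ((a : GaussianInt) * u).re = a * u.re := by simp [Zsqrtd.re_mul]
  have h2 : ((a : GaussianInt) * u).im = a * u.im := by simp [Zsqrtd.im_mul]
  rw [h1, h2]
  exact ⟨x * u.re + y * u.im, by ring⟩

theorem ne_top {a : ℕ} {x y : ℤ} (h : ¬ (a : ℤ) ∣ x ∨ ¬ (a : ℤ) ∣ y) : ln a x y ≠ ⊤ := by
  intro htop
  rcases h with h | h
  · apply h
    have h1 : (⟨1, 0⟩ : GaussianInt) ∈ ln a x y := by rw [htop]; trivial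
    rw [mem_ln] at h1
    simpa using h1
  · apply h
    have h1 : (⟨0, 1⟩ : GaussianInt) ∈ ln a x y := by rw [htop]; trivial
    rw [mem_ln] at h1
    simpa using h1

end hG2

open hG2 in
theorem hG2 : StG2 := by
  intro p a κ hp ha hpa ha2 hκ
  have hap : Prime (a : ℤ) := Nat.prime_iff_prime_int.1 ha
  have hκ' : κ.re * κ.re + κ.im * κ.im = ((a : ℤ) + p) ^ 2 := by
    rw [← hκ, Zsqrtd.norm_def]; ring
  have hQ : ∀ α : GaussianInt, (κ * α ^ 2).im =
      κ.im * (α.re * α.re - α.im * α.im) + 2 * κ.re * α.re * α.im := by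
    intro α
    rw [pow_two, Zsqrtd.im_mul, Zsqrtd.re_mul, Zsqrtd.im_mul]
    ring
  by_cases h : (a : ℤ) ∣ κ.im
  · refine ⟨ln a 1 0, ln a 0 1, ne_top (Or.inl ?_), ne_top (Or.inr ?_), mul_mem a _ _,
      mul_mem a _ _, ?_⟩
    · exact hap.not_dvd_one
    · exact hap.not_dvd_one
    · intro α hα
      rw [hQ] at hα
      have h1 : (a : ℤ) ∣ 2 * κ.re * α.re * α.im := by
        have h2 : (a : ℤ) ∣ κ.im * (α.re * α.re - α.im * α.im) := Dvd.dvd.mul_right h _
        exact (dvd_add_right h2).1 hα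
      have h2 : ¬ (a : ℤ) ∣ 2 := by
        intro h3
        have h4 : a ∣ 2 := by exact_mod_cast h3
        exact ha2 ((Nat.prime_dvd_prime_iff_eq ha Nat.prime_two).1 h4)
      have h3 : ¬ (a : ℤ) ∣ κ.re := by
        intro h4
        have h5 : (a : ℤ) ∣ ((a : ℤ) + p) ^ 2 := by
          rw [← hκ']
          exact dvd_add (Dvd.dvd.mul_right h4 _) (Dvd.dvd.mul_right h _)
        have h6 : (a : ℤ) ∣ (a : ℤ) + p := hap.dvd_of_dvd_pow h5
        have h7 : (a : ℤ) ∣ (p : ℤ) := (dvd_add_right (dvd_refl _)).1 h6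
        have h8 : a ∣ p := by exact_mod_cast h7
        exact absurd (Nat.le_of_dvd (by omega) h8) (by omega)
      rcases hap.dvd_or_dvd h1 with h4 | h4
      · rcases hap.dvd_or_dvd h4 with h5 | h5
        · rcases hap.dvd_or_dvd h5 with h6 | h6
          · exact absurd h6 h2
          · exact absurd h6 h3
        · left
          rw [mem_ln]
          simpa using h5
      · right
        rw [mem_ln]
        simpa using h4
  · refine ⟨ln a κ.im (κ.re - (a + p)), ln a κ.im (κ.re + (a + p)), ne_top (Or.inl h),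
      ne_top (Or.inl h), mul_mem a _ _, mul_mem a _ _, ?_⟩
    intro α hα
    rw [hQ] at hα
    have h1 : (κ.im * α.re + (κ.re - (a + p)) * α.im) * (κ.im * α.re + (κ.re + (a + p)) * α.im) =
        κ.im * (κ.im * (α.re * α.re - α.im * α.im) + 2 * κ.re * α.re * α.im) := by
      linear_combination (α.im ^ 2) * hκ'
    have h2 := Dvd.dvd.mul_left hα κ.im
    rw [← h1] at h2
    rcases hap.dvd_or_dvd h2 with h3 | h3
    · left
      rw [mem_ln]
      exact h3
    · right
      rw [mem_ln]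
      exact h3

end Pool.Agent.Helper15.AB
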