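import Mathlib
import Pool.Agent.Helper15.AB.StKl

/-!
# Project AB, module G3: sum over the primitive solutions
-/

set_option autoImplicit false

namespace Pool.Agent.Helper15.AB

open Finset

namespace hG3

/-- imaginary part of `star α₀ * α` -/
def D (α₀ α : GaussianInt) : ℤ := α₀.re * α.im - α₀.im * α.re

/-- real part of `star α₀ * α` -/
def R (α₀ α : GaussianInt) : ℤ := α₀.re * α.re + α₀.im * α.im

theorem norm_def' (α : GaussianInt) : α.norm = α.re ^ 2 + α.im ^ 2 := by
  rw [Zsqrtd.norm_def]; ring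

theorem sq_add_sq (α₀ α : GaussianInt) : R α₀ α ^ 2 + D α₀ α ^ 2 = α₀.norm * α.norm := by
  rw [norm_def', norm_def']
  unfold R D
  ring

theorem norm_pos' {α : GaussianInt} (h : α ≠ 0) : 0 < α.norm := by
  rw [norm_def']
  by_contra hcon
  push Not at hcon
  apply h
  have h1 : α.re = 0 := by nlinarith [sq_nonneg α.re, sq_nonneg α.im]
  have h2 : α.im = 0 := by nlinarith [sq_nonneg α.re, sq_nonneg α.im]
  exact Zsqrtd.ext h1 h2

/-- divisibility in a proper subgroup -/
theorem dvd_D (M : AddSubgroup GaussianInt) (a : ℕ) (ha : a.Prime)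
    (hM : ∀ u : GaussianInt, (a : GaussianInt) * u ∈ M) (hne : M ≠ ⊤) {α₀ α : GaussianInt}
    (h0 : α₀ ∈ M) (h : α ∈ M) : (a : ℤ) ∣ D α₀ α := by
  by_contra hcon
  apply hne
  rw [eq_top_iff]
  intro u _
  have hcop : IsCoprime (D α₀ α) (a : ℤ) := by
    rw [isCoprime_comm]
    exact (Nat.prime_iff_prime_int.1 ha).irreducible.coprime_iff_not_dvd.2 hcon
  obtain ⟨s, t, hst⟩ := hcop
  have h1 : (D α₀ α) • u = (u.re * α.im - u.im * α.re) • α₀ +
      (u.im * α₀.re - u.re * α₀.im) • α := by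
    apply Zsqrtd.ext
    · simp [D]; ring
    · simp [D]; ring
  have h2 : (D α₀ α) • u ∈ M := by
    rw [h1]
    exact M.add_mem (M.zsmul_mem h0 _) (M.zsmul_mem h _)
  have h3 : u = s • ((D α₀ α) • u) + t • ((a : GaussianInt) * u) := by
    have e1 : (a : GaussianInt) * u = (a : ℤ) • u := by simp
    rw [e1, smul_smul, smul_smul, ← add_smul, hst, one_smul]
  rw [h3]
  exact M.add_mem (M.zsmul_mem h2 _) (M.zsmul_mem (hM u) _)

/-- primitive vectors have coprime coordinates -/
theorem coprime_of_PrA {α : GaussianInt} (h : PrA α) : IsCoprime α.re α.im := by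
  rw [Int.isCoprime_iff_gcd_eq_one]
  apply h
  obtain ⟨x, hx⟩ := Int.gcd_dvd_left α.re α.im
  obtain ⟨y, hy⟩ := Int.gcd_dvd_right α.re α.im
  refine ⟨⟨x, y⟩, ?_⟩
  apply Zsqrtd.ext
  · simp; exact hx
  · simp; exact hy

/-- parallel primitive vectors -/
theorem eq_or_neg {α₀ α β : GaussianInt} (h0 : α₀ ≠ 0) (hα : PrA α) (hβ : PrA β)
    (h1 : D α₀ α = 0) (h2 : D α₀ β = 0) : β = α ∨ β = -α := by
  have hc := coprime_of_PrA hα
  have hc' := coprime_of_PrA hβ
  have hpar : α.re * β.im = β.re * α.im := by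
    unfold D at h1 h2
    have h3 : α₀.re ≠ 0 ∨ α₀.im ≠ 0 := by
      by_contra hcon
      push Not at hcon
      exact h0 (Zsqrtd.ext hcon.1 hcon.2)
    rcases h3 with h3 | h3
    · apply mul_left_cancel₀ h3
      linear_combination α.re * h2 - β.re * h1
    · apply mul_left_cancel₀ h3
      linear_combination α.im * h2 - β.im * h1
  obtain ⟨c, hc1, hc2⟩ : ∃ c : ℤ, β.re = c * α.re ∧ β.im = c * α.im := by
    obtain ⟨s, t, hst⟩ := hc
    refine ⟨s * β.re + t * β.im, ?_, ?_⟩
    · linear_combination (-β.re) * hst - t * hpar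
    · linear_combination (-β.im) * hst + s * hpar
  have hcu : IsUnit c := by
    rw [hc1, hc2] at hc'
    obtain ⟨s, t, hst⟩ := hc'
    refine IsUnit.of_mul_eq_one (s * α.re + t * α.im) ?_
    linear_combination hst
  rcases Int.isUnit_iff.1 hcu with h | h
  · left
    apply Zsqrtd.ext
    · rw [hc1, h, one_mul]
    · rw [hc2, h, one_mul]
  · right
    apply Zsqrtd.ext
    · rw [hc1, h]; simp
    · rw [hc2, h]; simp

/-- counting the elements off the line through a shortest vector -/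
theorem count (M : AddSubgroup GaussianInt) (a : ℕ) (ha : a.Prime)
    (hM : ∀ u : GaussianInt, (a : GaussianInt) * u ∈ M) (hne : M ≠ ⊤) {α₀ : GaussianInt}
    (h0 : α₀ ∈ M) (hα₀ : α₀ ≠ 0) (hmin : ∀ β ∈ M, β ≠ 0 → α₀.norm ≤ β.norm)
    (F : Finset GaussianInt) (A : ℝ) (hA : 0 ≤ A)
    (hF : ∀ α ∈ F, α ∈ M ∧ D α₀ α ≠ 0 ∧ (α.norm : ℝ) ≤ A) : (F.card : ℝ) ≤ 8 * A / a := by
  have hapos : (0 : ℝ) < a := by exact_mod_cast ha.pos
  rcases F.eq_empty_or_nonempty with rfl | ⟨α₁, hα₁⟩
  · simp only [Finset.card_empty, Nat.cast_zero]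
    positivity
  have hlpos : 0 < α₀.norm := norm_pos' hα₀
  set l : ℤ := α₀.norm with hl
  have hlR : (0 : ℝ) < l := by exact_mod_cast hlpos
  have hne0 : ∀ α ∈ F, α ≠ 0 := by
    rintro α hα rfl
    exact (hF 0 hα).2.1 (by simp [D])
  have hlA : (l : ℝ) ≤ A := by
    have h1 := hmin α₁ (hF α₁ hα₁).1 (hne0 α₁ hα₁)
    have h2 : (l : ℝ) ≤ (α₁.norm : ℝ) := by exact_mod_cast h1
    exact h2.trans (hF α₁ hα₁).2.2
  set s : ℝ := √(l * A) with hs
  have hs0 : 0 ≤ s := Real.sqrt_nonneg _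
  have hs2 : s ^ 2 = l * A := Real.sq_sqrt (by positivity)
  have hbd : ∀ α ∈ F, |(R α₀ α : ℝ)| ≤ s ∧ |(D α₀ α : ℝ)| ≤ s := by
    intro α hα
    have h1 : ((R α₀ α : ℝ)) ^ 2 + (D α₀ α : ℝ) ^ 2 = l * α.norm := by
      exact_mod_cast sq_add_sq α₀ α
    have h2 : (l : ℝ) * α.norm ≤ l * A := mul_le_mul_of_nonneg_left (hF α hα).2.2 hlR.le
    constructor
    · apply abs_le_of_sq_le_sq _ hs0
      nlinarith [sq_nonneg (D α₀ α : ℝ)]
    · apply abs_le_of_sq_le_sq _ hs0
      nlinarith [sq_nonneg (R α₀ α : ℝ)]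
  -- the target set
  set J : ℤ := ⌊s / a⌋ with hJ
  have hJ0 : 0 ≤ J := Int.floor_nonneg.2 (by positivity)
  set T : Finset (ℤ × ℤ) := ((Icc (-J) J).erase 0) ×ˢ (Icc ⌊-(s / l)⌋ ⌊s / l⌋) with hT
  have hcard : F.card ≤ T.card := by
    refine Finset.card_le_card_of_injOn (fun α => (D α₀ α / a, R α₀ α / l)) ?_ ?_
    · intro α hα
      have hα' : α ∈ F := hα
      obtain ⟨k, hk⟩ := dvd_D M a ha hM hne h0 (hF α hα').1
      have hb := hbd α hα'
      have hD : D α₀ α / (a : ℤ) = k := by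
        rw [hk]
        exact Int.mul_ediv_cancel_left _ (by exact_mod_cast ha.ne_zero)
      rw [hT, Finset.mem_coe, Finset.mem_product]
      dsimp only
      rw [hD, Finset.mem_erase, Finset.mem_Icc, Finset.mem_Icc]
      have hka : |(k : ℝ)| ≤ s / a := by
        rw [le_div_iff₀ hapos]
        have h3 := hb.2
        rw [hk] at h3
        push_cast at h3
        rw [abs_mul, abs_of_pos hapos] at h3
        linarith
      rw [abs_le] at hka
      have hbR := abs_le.1 hb.1
      refine ⟨⟨?_, ?_, ?_⟩, ?_, ?_⟩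
      · rintro rfl
        exact (hF α hα').2.1 (by rw [hk, mul_zero])
      · have h4 : -k ≤ J := Int.le_floor.2 (by push_cast; linarith)
        linarith
      · exact Int.le_floor.2 hka.2
      · rw [Int.le_ediv_iff_mul_le hlpos]
        have h5 : ((⌊-(s / l)⌋ : ℤ) : ℝ) ≤ -(s / l) := Int.floor_le _
        have h6 : ((⌊-(s / l)⌋ : ℤ) : ℝ) * l ≤ R α₀ α := by
          calc ((⌊-(s / l)⌋ : ℤ) : ℝ) * l ≤ -(s / l) * l := mul_le_mul_of_nonneg_right h5 hlR.le
            _ = -s := by field_simp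
            _ ≤ _ := hbR.1
        exact_mod_cast h6
      · apply Int.le_floor.2
        have h5 : ((R α₀ α / l : ℤ) : ℝ) * l ≤ R α₀ α := by
          exact_mod_cast Int.ediv_mul_le _ hlpos.ne'
        rw [le_div_iff₀ hlR]
        linarith [hbR.2]
    · intro α hα β hβ he
      have hα' : α ∈ F := hα
      have hβ' : β ∈ F := hβ
      have he' : (D α₀ α / (a : ℤ), R α₀ α / l) = (D α₀ β / (a : ℤ), R α₀ β / l) := he
      rw [Prod.mk.injEq] at he'
      obtain ⟨k, hk⟩ := dvd_D M a ha hM hne h0 (hF α hα').1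
      obtain ⟨k', hk'⟩ := dvd_D M a ha hM hne h0 (hF β hβ').1
      have ha0 : (a : ℤ) ≠ 0 := by exact_mod_cast ha.ne_zero
      have hDD : D α₀ α = D α₀ β := by
        have h7 := he'.1
        rw [hk, hk', Int.mul_ediv_cancel_left _ ha0, Int.mul_ediv_cancel_left _ ha0] at h7
        rw [hk, hk', h7]
      by_contra hne'
      have hsub : α - β ≠ 0 := sub_ne_zero.2 hne'
      have h8 := hmin (α - β) (M.sub_mem (hF α hα').1 (hF β hβ').1) hsub
      have h9 : D α₀ (α - β) = 0 := by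
        have : D α₀ (α - β) = D α₀ α - D α₀ β := by
          unfold D
          simp
          ring
        rw [this, hDD, sub_self]
      have h10 : R α₀ (α - β) = R α₀ α - R α₀ β := by
        unfold R
        simp
        ring
      have h11 := sq_add_sq α₀ (α - β)
      rw [h9, h10] at h11
      have h12 : |R α₀ α - R α₀ β| < l := by
        have e1 := Int.emod_add_mul_ediv (R α₀ α) l
        have e2 := Int.emod_add_mul_ediv (R α₀ β) l
        have e3 := Int.emod_nonneg (R α₀ α) hlpos.ne'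
        have e4 := Int.emod_nonneg (R α₀ β) hlpos.ne'
        have e5 := Int.emod_lt_of_pos (R α₀ α) hlpos
        have e6 := Int.emod_lt_of_pos (R α₀ β) hlpos
        rw [he'.2] at e1
        rw [abs_lt]
        constructor <;> linarith
      have h13 : (R α₀ α - R α₀ β) ^ 2 < l ^ 2 := by
        rw [← sq_abs]
        exact pow_lt_pow_left₀ h12 (abs_nonneg _) two_ne_zero
      have h14 : l ^ 2 ≤ l * (α - β).norm := by
        rw [sq]
        exact mul_le_mul_of_nonneg_left h8 hlpos.le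
      rw [← hl] at h11
      linarith
  -- size of the target
  have hTcard : (T.card : ℝ) ≤ 8 * A / a := by
    rw [hT, Finset.card_product]
    have c1 : (((Icc (-J) J).erase 0).card : ℝ) ≤ 2 * (s / a) := by
      have h15 : ((Icc (-J) J).erase 0).card = (Icc (-J) J).card - 1 :=
        Finset.card_erase_of_mem (by rw [Finset.mem_Icc]; omega)
      have h16 : ((Icc (-J) J).erase 0).card = (2 * J).toNat := by
        rw [h15, Int.card_Icc]
        omega
      rw [h16]
      have h17 : (((2 * J).toNat : ℕ) : ℝ) = 2 * J := by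
        have : (((2 * J).toNat : ℕ) : ℤ) = 2 * J := Int.toNat_of_nonneg (by omega)
        exact_mod_cast congrArg (Int.cast (R := ℝ)) this
      rw [h17]
      have : (J : ℝ) ≤ s / a := Int.floor_le _
      linarith
    have c2 : ((Icc ⌊-(s / l)⌋ ⌊s / l⌋).card : ℝ) ≤ 4 * (s / l) := by
      have h18 : 1 ≤ s / l := by
        rw [one_le_div hlR]
        apply Real.le_sqrt_of_sq_le
        rw [sq]
        exact mul_le_mul_of_nonneg_left hlA hlR.le
      rw [Int.card_Icc]
      have h19 : (⌊s / l⌋ : ℝ) ≤ s / l := Int.floor_le _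
      have h20 : -(s / l) - 1 < (⌊-(s / l)⌋ : ℝ) := Int.sub_one_lt_floor _
      have h21 : 0 ≤ ⌊s / l⌋ + 1 - ⌊-(s / l)⌋ := by
        have : ⌊-(s / l)⌋ ≤ ⌊s / l⌋ := Int.floor_le_floor (by linarith)
        omega
      have h22 : (((⌊s / l⌋ + 1 - ⌊-(s / l)⌋).toNat : ℕ) : ℝ) =
          (⌊s / l⌋ : ℝ) + 1 - (⌊-(s / l)⌋ : ℝ) := by
        have : (((⌊s / l⌋ + 1 - ⌊-(s / l)⌋).toNat : ℕ) : ℤ) = ⌊s / l⌋ + 1 - ⌊-(s / l)⌋ :=
          Int.toNat_of_nonneg h21
        exact_mod_cast congrArg (Int.cast (R := ℝ)) this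
      rw [h22]
      linarith
    push_cast
    calc (((Icc (-J) J).erase 0).card : ℝ) * ((Icc ⌊-(s / l)⌋ ⌊s / l⌋).card : ℝ)
        ≤ (2 * (s / a)) * (4 * (s / l)) := mul_le_mul c1 c2 (by positivity) (by positivity)
      _ = 8 * s ^ 2 / (a * l) := by field_simp; ring
      _ = 8 * A / a := by rw [hs2]; field_simp
  exact le_trans (by exact_mod_cast hcard) hTcard

/-- shortest vectors -/
theorem exists_short (M : AddSubgroup GaussianInt) (a : ℕ) (ha : a.Prime)
    (hM : ∀ u : GaussianInt, (a : GaussianInt) * u ∈ M) :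
    ∃ α₀ ∈ M, α₀ ≠ 0 ∧ ∀ β ∈ M, β ≠ 0 → α₀.norm ≤ β.norm := by
  classical
  have hex : ∃ n : ℕ, ∃ β ∈ M, β ≠ 0 ∧ β.norm.toNat = n := by
    refine ⟨_, (a : GaussianInt) * 1, hM 1, ?_, rfl⟩
    rw [mul_one]
    intro h
    have h1 := congrArg Zsqrtd.re h
    simp only [Zsqrtd.re_natCast, Zsqrtd.re_zero] at h1
    exact ha.ne_zero (by exact_mod_cast h1)
  obtain ⟨α₀, h1, h2, h3⟩ := Nat.find_spec hex
  refine ⟨α₀, h1, h2, fun β hβ hβ0 => ?_⟩
  have h4 := Nat.find_min' hex ⟨β, hβ, hβ0, rfl⟩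
  rw [← h3] at h4
  have h5 := norm_pos' h2
  have h6 := norm_pos' hβ0
  omega

/-- the sum over the solutions in one of the two subgroups -/
theorem part (M : AddSubgroup GaussianInt) (a : ℕ) (ha : a.Prime) (p : ℕ) (hp : 1 ≤ p)
    (hM : ∀ u : GaussianInt, (a : GaussianInt) * u ∈ M) (hne : M ≠ ⊤) (S : ℝ) (hS : 1 ≤ S)
    (F : Finset GaussianInt)
    (hF : ∀ α ∈ F, α ∈ M ∧ PrA α ∧ α ≠ 0 ∧ (α.norm : ℝ) ≤ S ∧ (a : ℤ) ≤ 8 * p * α.norm ^ 2) :
    ∑ α ∈ F, (1 : ℝ) / α.norm ≤ 2 * √(8 * p) / √a + 32 * (1 + Real.log S) / a := by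
  classical
  have hapos : (0 : ℝ) < a := by exact_mod_cast ha.pos
  have hppos : (0 : ℝ) < p := by exact_mod_cast hp
  obtain ⟨α₀, h0, hα₀, hmin⟩ := exists_short M a ha hM
  rw [← Finset.sum_filter_add_sum_filter_not F (fun α => D α₀ α = 0)]
  refine add_le_add ?_ ?_
  · -- the line
    have hterm : ∀ α ∈ F.filter (fun α => D α₀ α = 0), (1 : ℝ) / α.norm ≤ √(8 * p) / √a := by
      intro α hα
      rw [Finset.mem_filter] at hα
      obtain ⟨-, -, hα0, -, hbig⟩ := hF α hα.1
      have hn : (0 : ℝ) < α.norm := by exact_mod_cast norm_pos' hα0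
      have hbig' : (a : ℝ) ≤ 8 * p * (α.norm : ℝ) ^ 2 := by exact_mod_cast hbig
      have h1 : √(a : ℝ) ≤ √(8 * p) * α.norm := by
        rw [← Real.sqrt_sq hn.le, ← Real.sqrt_mul (by positivity)]
        exact Real.sqrt_le_sqrt hbig'
      rw [div_le_div_iff₀ hn (Real.sqrt_pos.2 hapos), one_mul]
      exact h1
    have hcard : (F.filter (fun α => D α₀ α = 0)).card ≤ 2 := by
      rcases (F.filter (fun α => D α₀ α = 0)).eq_empty_or_nonempty with h | ⟨α, hα⟩
      · rw [h]; simp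
      · have hsub : F.filter (fun α => D α₀ α = 0) ⊆ {α, -α} := by
          intro β hβ
          rw [Finset.mem_filter] at hα hβ
          rw [Finset.mem_insert, Finset.mem_singleton]
          exact eq_or_neg hα₀ (hF α hα.1).2.1 (hF β hβ.1).2.1 hα.2 hβ.2
        exact (Finset.card_le_card hsub).trans Finset.card_le_two
    refine (Finset.sum_le_card_nsmul _ _ _ hterm).trans ?_
    rw [nsmul_eq_mul]
    have h2 : ((F.filter (fun α => D α₀ α = 0)).card : ℝ) ≤ 2 := by exact_mod_cast hcard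
    calc ((F.filter (fun α => D α₀ α = 0)).card : ℝ) * (√(8 * p) / √a)
        ≤ 2 * (√(8 * p) / √a) := mul_le_mul_of_nonneg_right h2 (by positivity)
      _ = 2 * √(8 * p) / √a := by ring
  · -- off the line
    set F₁ := F.filter (fun α => ¬ D α₀ α = 0) with hF₁
    set K : ℕ := Nat.log 2 ⌊S⌋₊ with hK
    have hS1 : 1 ≤ ⌊S⌋₊ := Nat.le_floor (by simpa using hS)
    have hmaps : ∀ α ∈ F₁, Nat.log 2 α.norm.toNat ∈ range (K + 1) := by
      intro α hα
      rw [hF₁, Finset.mem_filter] at hα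
      obtain ⟨-, -, hα0, hαS, -⟩ := hF α hα.1
      have hpos := norm_pos' hα0
      rw [Finset.mem_range, Nat.lt_succ_iff, hK]
      apply Nat.log_mono_right
      apply Nat.le_floor
      have : ((α.norm.toNat : ℕ) : ℤ) = α.norm := Int.toNat_of_nonneg hpos.le
      have h3 : ((α.norm.toNat : ℕ) : ℝ) = (α.norm : ℝ) := by exact_mod_cast congrArg (Int.cast (R := ℝ)) this
      rw [h3]
      exact hαS
    rw [← Finset.sum_fiberwise_of_maps_to hmaps]
    have hk : ∀ k ∈ range (K + 1), ∑ α ∈ F₁.filter (fun α => Nat.log 2 α.norm.toNat = k),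
        (1 : ℝ) / α.norm ≤ 16 / a := by
      intro k _
      have hterm : ∀ α ∈ F₁.filter (fun α => Nat.log 2 α.norm.toNat = k),
          (1 : ℝ) / α.norm ≤ 1 / 2 ^ k := by
        intro α hα
        rw [Finset.mem_filter, hF₁, Finset.mem_filter] at hα
        obtain ⟨-, -, hα0, -, -⟩ := hF α hα.1.1
        have hpos := norm_pos' hα0
        have h4 : 2 ^ k ≤ α.norm.toNat := by
          rw [← hα.2]
          apply Nat.pow_log_le_self
          omega
        have h5 : ((2 : ℤ) ^ k) ≤ α.norm := by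
          have : ((α.norm.toNat : ℕ) : ℤ) = α.norm := Int.toNat_of_nonneg hpos.le
          rw [← this]
          exact_mod_cast h4
        have h6 : ((2 : ℝ) ^ k) ≤ α.norm := by exact_mod_cast h5
        exact one_div_le_one_div_of_le (by positivity) h6
      have hcount := count M a ha hM hne h0 hα₀ hmin
        (F₁.filter (fun α => Nat.log 2 α.norm.toNat = k)) (2 ^ (k + 1)) (by positivity) (by
          intro α hα
          rw [Finset.mem_filter, hF₁, Finset.mem_filter] at hα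
          obtain ⟨hαM, -, hα0, -, -⟩ := hF α hα.1.1
          have hpos := norm_pos' hα0
          refine ⟨hαM, hα.1.2, ?_⟩
          have h4 : α.norm.toNat < 2 ^ (k + 1) := by
            rw [← hα.2]
            exact Nat.lt_pow_succ_log_self (by norm_num) _
          have h5 : α.norm < (2 : ℤ) ^ (k + 1) := by
            have : ((α.norm.toNat : ℕ) : ℤ) = α.norm := Int.toNat_of_nonneg hpos.le
            rw [← this]
            exact_mod_cast h4
          have h6 : (α.norm : ℝ) < (2 : ℝ) ^ (k + 1) := by exact_mod_cast h5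
          exact h6.le)
      refine (Finset.sum_le_card_nsmul _ _ _ hterm).trans ?_
      rw [nsmul_eq_mul]
      calc ((F₁.filter (fun α => Nat.log 2 α.norm.toNat = k)).card : ℝ) * (1 / 2 ^ k)
          ≤ (8 * 2 ^ (k + 1) / a) * (1 / 2 ^ k) := mul_le_mul_of_nonneg_right hcount (by positivity)
        _ = 16 / a := by
            rw [pow_succ]
            field_simp
            norm_num
    refine (Finset.sum_le_card_nsmul _ _ _ hk).trans ?_
    rw [Finset.card_range, nsmul_eq_mul]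
    have hKS : (K : ℝ) * Real.log 2 ≤ Real.log S := by
      rw [← Real.log_pow]
      apply Real.log_le_log (by positivity)
      have h7 : 2 ^ K ≤ ⌊S⌋₊ := Nat.pow_log_le_self 2 (by omega)
      have h8 : ((⌊S⌋₊ : ℕ) : ℝ) ≤ S := Nat.floor_le (by linarith)
      have h9 : ((2 ^ K : ℕ) : ℝ) ≤ ((⌊S⌋₊ : ℕ) : ℝ) := by exact_mod_cast h7
      push_cast at h9
      linarith
    have hlog2 : (1 / 2 : ℝ) ≤ Real.log 2 := by
      have := Real.log_two_gt_d9
      linarith
    have hK2 : (K : ℝ) ≤ 2 * Real.log S := by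
      have : (K : ℝ) * (1 / 2) ≤ K * Real.log 2 := mul_le_mul_of_nonneg_left hlog2 (Nat.cast_nonneg _)
      linarith
    have hlogS : 0 ≤ Real.log S := Real.log_nonneg hS
    rw [mul_div_assoc', div_le_div_iff_of_pos_right hapos]
    push_cast
    nlinarith

end hG3

open hG3 in
open Classical in
theorem hG3 (hG1 : StG1) (hG2 : StG2) : StG3 := by
  intro p hp
  refine ⟨4 * √(8 * p) + 64, by positivity, ?_⟩
  intro a κ S ha hpa ha2 hκ hS
  have hapos : (0 : ℝ) < a := by exact_mod_cast ha.pos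
  obtain ⟨M₁, M₂, hne₁, hne₂, hM₁, hM₂, hcov⟩ := hG2 p a κ hp ha hpa ha2 hκ
  set F := (gb S).filter (fun α => PrA α ∧ (a : ℤ) ∣ (κ * α ^ 2).im) with hF
  rw [← Finset.sum_filter_add_sum_filter_not F (fun α => (κ * α ^ 2).im = 0)]
  refine add_le_add ?_ ?_
  · refine Finset.sum_le_sum_of_subset_of_nonneg ?_ ?_
    · intro α hα
      rw [Finset.mem_filter, hF, Finset.mem_filter] at hα
      rw [Finset.mem_filter]
      exact ⟨hα.1.1, hα.1.2.1, hα.2⟩
    · intro α hα _
      rw [Finset.mem_filter, mem_gb] at hα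
      have := norm_pos' hα.1.1
      have h1 : (0 : ℝ) < α.norm := by exact_mod_cast this
      positivity
  · set F' := F.filter (fun α => ¬ (κ * α ^ 2).im = 0) with hF'
    have hmem : ∀ α ∈ F', PrA α ∧ α ≠ 0 ∧ (α.norm : ℝ) ≤ S ∧ (a : ℤ) ≤ 8 * p * α.norm ^ 2 ∧
        (a : ℤ) ∣ (κ * α ^ 2).im := by
      intro α hα
      rw [hF', Finset.mem_filter, hF, Finset.mem_filter, mem_gb] at hα
      refine ⟨hα.1.2.1, hα.1.1.1, hα.1.1.2, ?_, hα.1.2.2⟩
      by_contra hcon
      push Not at hcon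
      exact hα.2 (hG1 p a κ α hp ha hκ hα.1.1.1 hcon hα.1.2.2)
    have hsub : F' ⊆ F'.filter (fun α => α ∈ M₁) ∪ F'.filter (fun α => α ∈ M₂) := by
      intro α hα
      rcases hcov α (hmem α hα).2.2.2.2 with h | h
      · exact Finset.mem_union_left _ (Finset.mem_filter.2 ⟨hα, h⟩)
      · exact Finset.mem_union_right _ (Finset.mem_filter.2 ⟨hα, h⟩)
    have hnn : ∀ α ∈ F', (0 : ℝ) ≤ 1 / α.norm := by
      intro α hα
      have := norm_pos' (hmem α hα).2.1
      have h1 : (0 : ℝ) < α.norm := by exact_mod_cast this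
      positivity
    have h1 := part M₁ a ha p hp hM₁ hne₁ S hS (F'.filter (fun α => α ∈ M₁)) (by
      intro α hα
      have hα := Finset.mem_filter.1 hα
      have h := hmem α hα.1
      exact ⟨hα.2, h.1, h.2.1, h.2.2.1, h.2.2.2.1⟩)
    have h2 := part M₂ a ha p hp hM₂ hne₂ S hS (F'.filter (fun α => α ∈ M₂)) (by
      intro α hα
      have hα := Finset.mem_filter.1 hα
      have h := hmem α hα.1
      exact ⟨hα.2, h.1, h.2.1, h.2.2.1, h.2.2.2.1⟩)
    have h3 : ∑ α ∈ F', (1 : ℝ) / α.norm ≤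
        ∑ α ∈ F'.filter (fun α => α ∈ M₁), (1 : ℝ) / α.norm +
          ∑ α ∈ F'.filter (fun α => α ∈ M₂), (1 : ℝ) / α.norm := by
      rw [← Finset.sum_union_inter]
      refine le_trans (Finset.sum_le_sum_of_subset_of_nonneg hsub ?_) (le_add_of_nonneg_right ?_)
      · intro α hα _
        rcases Finset.mem_union.1 hα with h | h
        · exact hnn α (Finset.mem_filter.1 h).1
        · exact hnn α (Finset.mem_filter.1 h).1
      · refine Finset.sum_nonneg fun α hα => ?_
        exact hnn α (Finset.mem_filter.1 (Finset.mem_inter.1 hα).1).1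
    refine h3.trans ((add_le_add h1 h2).trans ?_)
    have hlogS : 0 ≤ Real.log S := Real.log_nonneg hS
    have h4 : 2 * √(8 * (p : ℝ)) / √a + 32 * (1 + Real.log S) / a +
        (2 * √(8 * (p : ℝ)) / √a + 32 * (1 + Real.log S) / a) =
        (4 * √(8 * (p : ℝ))) * (1 / √a) + 64 * ((1 + Real.log S) / a) := by ring
    rw [h4, mul_add]
    have h5 : (0 : ℝ) ≤ 1 / √a := by positivity
    have h6 : (0 : ℝ) ≤ (1 + Real.log S) / a := by positivity
    have h7 : (0 : ℝ) ≤ √(8 * (p : ℝ)) := Real.sqrt_nonneg _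
    refine add_le_add (mul_le_mul_of_nonneg_right ?_ h5) (mul_le_mul_of_nonneg_right ?_ h6)
    · linarith
    · linarith

end Pool.Agent.Helper15.AB
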