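import Mathlib
import Pool.Agent.Helper15.AB.StKl

/-!
# Project AB, module G4: structured solutions come from divisors
-/

set_option autoImplicit false

namespace Pool.Agent.Helper15.AB

open Finset

namespace hG4

theorem norm_pos' {α : GaussianInt} (h : α ≠ 0) : 0 < α.norm := by
  have h1 : 0 ≤ α.norm := GaussianInt.norm_nonneg α
  rcases h1.eq_or_lt with h2 | h2
  · exact absurd ((Zsqrtd.norm_eq_zero_iff (by norm_num) α).mp h2.symm) h
  · exact h2

/-- real and imaginary part of a primitive element are coprime -/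
theorem prA_gcd {α : GaussianInt} (h : PrA α) : Int.gcd α.re α.im = 1 := by
  apply h
  have h1 : (((Int.gcd α.re α.im : ℕ) : ℤ) : GaussianInt) ∣ α := by
    rw [Zsqrtd.intCast_dvd]
    exact ⟨Int.gcd_dvd_left _ _, Int.gcd_dvd_right _ _⟩
  have h2 : (((Int.gcd α.re α.im : ℕ) : ℤ) : GaussianInt) =
      ((Int.gcd α.re α.im : ℕ) : GaussianInt) := Int.cast_natCast _
  rw [h2] at h1
  exact h1

/-- a common divisor of a primitive element and its conjugate has norm at most two -/
theorem norm_gcd_le {α g : GaussianInt} (hα : PrA α) (h1 : g ∣ α) (h2 : g ∣ star α) :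
    g.norm ∣ 2 := by
  have hg : PrA g := fun c hc => hα c (hc.trans h1)
  have hbz := Int.gcd_eq_gcd_ab g.re g.im
  rw [prA_gcd hg] at hbz
  set x := Int.gcdA g.re g.im
  set y := Int.gcdB g.re g.im
  have hbz' : g.re * x + g.im * y = 1 := by
    rw [← hbz]; rfl
  -- 2 = g (x - i y) + conj g (x + i y)
  have e1 : (2 : GaussianInt) = g * ⟨x, -y⟩ + star g * ⟨x, y⟩ := by
    apply Zsqrtd.ext
    · simp only [Zsqrtd.re_add, Zsqrtd.re_mul, Zsqrtd.re_star, Zsqrtd.im_star]
      have : (2 : GaussianInt).re = 2 := rfl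
      rw [this]
      linear_combination -2 * hbz'
    · simp only [Zsqrtd.im_add, Zsqrtd.im_mul, Zsqrtd.re_star, Zsqrtd.im_star]
      have : (2 : GaussianInt).im = 0 := rfl
      rw [this]
      ring
  obtain ⟨c, hc⟩ := h1
  have h3 : star g ∣ α := by
    obtain ⟨d, hd⟩ := h2
    refine ⟨star d, ?_⟩
    have := congrArg star hd
    rw [star_star, star_mul, mul_comm] at this
    exact this
  obtain ⟨d, hd⟩ := h3
  have h4 : ((g.norm : ℤ) : GaussianInt) ∣ 2 * α := by
    rw [Zsqrtd.norm_eq_mul_conj]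
    refine ⟨⟨x, -y⟩ * d + ⟨x, y⟩ * c, ?_⟩
    calc 2 * α = g * ⟨x, -y⟩ * α + star g * ⟨x, y⟩ * α := by rw [e1]; ring
      _ = g * ⟨x, -y⟩ * (star g * d) + star g * ⟨x, y⟩ * (g * c) := by rw [← hd, ← hc]
      _ = _ := by ring
  rw [Zsqrtd.intCast_dvd] at h4
  have e2 : (2 * α).re = 2 * α.re := by
    have h2r : (2 : GaussianInt).re = 2 := rfl
    have h2i : (2 : GaussianInt).im = 0 := rfl
    rw [Zsqrtd.re_mul, h2r, h2i]; ring
  have e3 : (2 * α).im = 2 * α.im := by
    have h2r : (2 : GaussianInt).re = 2 := rfl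
    have h2i : (2 : GaussianInt).im = 0 := rfl
    rw [Zsqrtd.im_mul, h2r, h2i]; ring
  rw [e2, e3] at h4
  have hbα := Int.gcd_eq_gcd_ab α.re α.im
  rw [prA_gcd hα] at hbα
  have h5 : (2 : ℤ) = 2 * α.re * Int.gcdA α.re α.im + 2 * α.im * Int.gcdB α.re α.im := by
    have : (1 : ℤ) = α.re * Int.gcdA α.re α.im + α.im * Int.gcdB α.re α.im := by
      rw [← hbα]; rfl
    linear_combination 2 * this
  rw [h5]
  exact dvd_add (Dvd.dvd.mul_right h4.1 _) (Dvd.dvd.mul_right h4.2 _)

/-- the elements of norm one or two -/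
def G8 : Finset GaussianInt :=
  {1, -1, ⟨0, 1⟩, ⟨0, -1⟩, ⟨1, 1⟩, ⟨1, -1⟩, ⟨-1, 1⟩, ⟨-1, -1⟩}

theorem mem_G8 {g : GaussianInt} (h : g.norm ∣ 2) (h0 : g ≠ 0) : g ∈ G8 := by
  have h1 : g.norm ≤ 2 := Int.le_of_dvd (by norm_num) h
  have hn : g.norm = g.re * g.re + g.im * g.im := by rw [Zsqrtd.norm_def]; ring
  have hp := norm_pos' h0
  obtain ⟨a, b⟩ := g
  simp only at hn
  rw [hn] at h1 hp
  have ha1 : -1 ≤ a := by nlinarith
  have ha2 : a ≤ 1 := by nlinarith
  have hb1 : -1 ≤ b := by nlinarith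
  have hb2 : b ≤ 1 := by nlinarith
  unfold G8
  interval_cases a <;> interval_cases b <;> first | (exfalso; revert hp; norm_num; done) | decide

theorem sum_le_of_section {T D : Type*} [DecidableEq D] (s : Finset T) (d : Finset D)
    (h : T → ℝ) (k : D → ℝ) (hk : ∀ x ∈ d, 0 ≤ k x) (Φ : D → T)
    (hs : ∀ t ∈ s, ∃ x ∈ d, Φ x = t ∧ h t ≤ k x) : ∑ t ∈ s, h t ≤ ∑ x ∈ d, k x := by
  classical
  rcases s.eq_empty_or_nonempty with rfl | ⟨t0, ht0⟩
  · rw [sum_empty]; exact sum_nonneg hk
  haveI : Nonempty D := ⟨(hs t0 ht0).choose⟩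
  choose! σ hσ using hs
  calc ∑ t ∈ s, h t ≤ ∑ t ∈ s, k (σ t) := sum_le_sum fun t ht => (hσ t ht).2.2
    _ = ∑ x ∈ s.image σ, k x := by
      rw [sum_image]
      intro t ht t' ht' hh
      rw [← (hσ t ht).2.1, ← (hσ t' ht').2.1, hh]
    _ ≤ ∑ x ∈ d, k x := by
      refine sum_le_sum_of_subset_of_nonneg ?_ fun x hx _ => hk x hx
      intro x hx
      obtain ⟨t, ht, rfl⟩ := mem_image.mp hx
      exact (hσ t ht).1

end hG4

open hG4 in
theorem hG4 : StG4 := by
  classical
  intro n z S hn hz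
  have hz0 : z ≠ 0 := by
    rintro rfl
    rw [Zsqrtd.norm_zero] at hz
    omega
  -- the left side as one sum
  have hL : ∑ w ∈ (gb n).filter (fun w => w.norm = (n : ℤ)), ∑ ε ∈ U4,
      ∑ α ∈ (gb S).filter (fun α => PrA α ∧ (star ε * star z * w * α ^ 2).im = 0),
        (1 : ℝ) / α.norm =
      ∑ t ∈ (((gb n).filter (fun w => w.norm = (n : ℤ))) ×ˢ (U4 ×ˢ gb S)).filter
        (fun t : GaussianInt × (GaussianInt × GaussianInt) => PrA t.2.2 ∧
          (star t.2.1 * star z * t.1 * t.2.2 ^ 2).im = 0), (1 : ℝ) / t.2.2.norm := by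
    conv_rhs => rw [sum_filter, sum_product]
    refine sum_congr rfl fun w _ => ?_
    rw [sum_product]
    refine sum_congr rfl fun ε _ => ?_
    rw [sum_filter]
  rw [hL]
  -- the right side
  have hR : 64 * sd z = ∑ x ∈ (U4 ×ˢ ({1, -1} : Finset GaussianInt)) ×ˢ (G8 ×ˢ dv z),
      (1 : ℝ) / x.2.2.norm := by
    rw [sum_product]
    have hc1 : (U4 ×ˢ ({1, -1} : Finset GaussianInt)).card = 8 := by
      rw [card_product]
      decide
    have hc2 : G8.card = 8 := by decide
    have e1 : ∀ x ∈ (U4 ×ˢ ({1, -1} : Finset GaussianInt)),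
        ∑ y ∈ G8 ×ˢ dv z, (1 : ℝ) / ((x, y) : (GaussianInt × GaussianInt) ×
          (GaussianInt × GaussianInt)).2.2.norm = 8 * sd z := by
      intro x _
      rw [sum_product]
      simp only
      rw [sum_const, hc2]
      unfold sd
      rw [nsmul_eq_mul]
      norm_num
    rw [sum_congr rfl e1, sum_const, hc1, nsmul_eq_mul]
    norm_num
    ring
  rw [hR]
  refine sum_le_of_section _ _ _ _ ?_
    (fun x => (x.1.2 * x.1.1 * z * star (x.2.1 * x.2.2) / (x.2.1 * x.2.2),
      (x.1.1, x.2.1 * x.2.2))) ?_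
  · intro x _
    have : (0 : ℤ) ≤ x.2.2.norm := GaussianInt.norm_nonneg _
    have : (0 : ℝ) ≤ (x.2.2.norm : ℝ) := by exact_mod_cast this
    positivity
  · rintro ⟨w, ε, α⟩ ht
    rw [mem_filter, mem_product, mem_product, mem_filter] at ht
    obtain ⟨⟨⟨-, hw⟩, hε, hα⟩, hPr, him⟩ := ht
    simp only at hw hε hα hPr him
    rw [mem_gb] at hα
    have hα0 : α ≠ 0 := hα.1
    have hε1 : ε * star ε = 1 := by
      have : ∀ e ∈ U4, e * star e = 1 := by decide
      exact this ε hε
    have hεn : (star ε).norm = 1 := by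
      have : ∀ e ∈ U4, (star e).norm = 1 := by decide
      exact this ε hε
    -- the real number
    set u := star ε * star z * w * α ^ 2 with hu
    have hu1 : u.norm = ((n : ℤ) * α.norm) ^ 2 := by
      rw [hu, Zsqrtd.norm_mul, Zsqrtd.norm_mul, Zsqrtd.norm_mul, hεn, Zsqrtd.norm_conj, hz, hw,
        pow_two, Zsqrtd.norm_mul]
      ring
    have hu2 : u.norm = u.re ^ 2 := by
      rw [Zsqrtd.norm_def, him]; ring
    have hu3 : u.re = (n : ℤ) * α.norm ∨ u.re = -((n : ℤ) * α.norm) := by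
      rw [← sq_eq_sq_iff_eq_or_eq_neg, ← hu2, hu1]
    have hu4 : u = ((u.re : ℤ) : GaussianInt) := by
      apply Zsqrtd.ext
      · simp
      · rw [him]; simp
    have hprod : (((n : ℤ) * α.norm : ℤ) : GaussianInt) = z * star z * (α * star α) := by
      rw [Int.cast_mul, ← hz, Zsqrtd.norm_eq_mul_conj, Zsqrtd.norm_eq_mul_conj]
    obtain ⟨s, hs, hus⟩ : ∃ s ∈ ({1, -1} : Finset GaussianInt),
        u = s * (z * star z * (α * star α)) := by
      rcases hu3 with h | h
      · exact ⟨1, by simp, by rw [hu4, h, hprod, one_mul]⟩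
      · exact ⟨-1, by simp, by rw [hu4, h, Int.cast_neg, hprod]; ring⟩
    have hkey : w * α = s * ε * z * star α := by
      have hz' : star z ≠ 0 := fun h => hz0 (star_eq_zero.mp h)
      apply mul_left_cancel₀ (mul_ne_zero hz' hα0)
      have h1 : star ε * (star z * α * (w * α)) = star ε * (star z * α * (s * ε * z * star α)) := by
        have : star ε * (star z * α * (w * α)) = u := by rw [hu]; ring
        rw [this, hus]
        linear_combination (-(s * (z * star z * (α * star α)))) * hε1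
      have hε0 : star ε ≠ 0 := by
        intro h
        rw [h, mul_zero] at hε1
        exact one_ne_zero hε1.symm
      exact mul_left_cancel₀ hε0 h1
    -- the divisor
    set g := EuclideanDomain.gcd α (star α) with hg
    have hg1 : g ∣ α := EuclideanDomain.gcd_dvd_left _ _
    have hg2 : g ∣ star α := EuclideanDomain.gcd_dvd_right _ _
    have hg0 : g ≠ 0 := by
      rintro h
      rw [h, zero_dvd_iff] at hg1
      exact hα0 hg1
    have hgG := mem_G8 (norm_gcd_le hPr hg1 hg2) hg0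
    have hab := EuclideanDomain.gcd_eq_gcd_ab α (star α)
    rw [← hg] at hab
    obtain ⟨β, hβ⟩ := hg1
    obtain ⟨β', hβ'⟩ := hg2
    have hcop : IsCoprime β β' := by
      refine ⟨EuclideanDomain.gcdA α (star α), EuclideanDomain.gcdB α (star α), ?_⟩
      apply mul_left_cancel₀ hg0
      rw [mul_one]
      calc g * (EuclideanDomain.gcdA α (star α) * β + EuclideanDomain.gcdB α (star α) * β')
          = (g * β) * EuclideanDomain.gcdA α (star α) +
            (g * β') * EuclideanDomain.gcdB α (star α) := by ring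
        _ = g := by rw [← hβ, ← hβ', ← hab]
    have hβ0 : β ≠ 0 := by
      rintro rfl
      rw [mul_zero] at hβ
      exact hα0 hβ
    have hs1 : s * s = 1 := by
      have : ∀ s ∈ ({1, -1} : Finset GaussianInt), s * s = 1 := by decide
      exact this s hs
    have hβz : β ∣ z := by
      have h1 : w * β = s * ε * z * β' := by
        apply mul_left_cancel₀ hg0
        calc g * (w * β) = w * (g * β) := by ring
          _ = s * ε * z * (g * β') := by rw [← hβ, ← hβ', hkey]
          _ = _ := by ring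
      have h2 : β ∣ s * ε * z * β' := ⟨w, by rw [← h1]; ring⟩
      have h3 : β ∣ s * ε * z := hcop.dvd_of_dvd_mul_right h2
      have h4 : z = (s * star ε) * (s * ε * z) := by
        linear_combination (-z) * hs1 - (z * s * s) * hε1
      rw [h4]
      exact Dvd.dvd.mul_left h3 _
    have hβdv : β ∈ dv z := by
      unfold dv
      rw [mem_filter, mem_gb]
      refine ⟨⟨hβ0, ?_⟩, hβz⟩
      obtain ⟨c, hc⟩ := hβz
      have hc0 : c ≠ 0 := by
        rintro rfl
        rw [mul_zero] at hc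
        exact hz0 hc
      have h5 : z.norm = β.norm * c.norm := by rw [hc, Zsqrtd.norm_mul]
      have h6 := norm_pos' hβ0
      have h7 := norm_pos' hc0
      have h8 : β.norm ≤ z.norm := by rw [h5]; nlinarith
      exact_mod_cast h8
    refine ⟨((ε, s), (g, β)), ?_, ?_, ?_⟩
    · rw [mem_product, mem_product, mem_product]
      exact ⟨⟨hε, hs⟩, hgG, hβdv⟩
    · simp only
      rw [← hβ]
      congr 1
      rw [← hkey]
      exact mul_div_cancel_right₀ w hα0
    · simp only
      have h6 := norm_pos' hβ0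
      have h7 := norm_pos' hg0
      have h8 : α.norm = g.norm * β.norm := by rw [← Zsqrtd.norm_mul, ← hβ]
      have h9 : β.norm ≤ α.norm := by rw [h8]; nlinarith
      have h10 : (0 : ℝ) < (β.norm : ℝ) := by exact_mod_cast h6
      have h11 : (β.norm : ℝ) ≤ (α.norm : ℝ) := by exact_mod_cast h9
      exact one_div_le_one_div_of_le h10 h11

end Pool.Agent.Helper15.AB
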