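import Mathlib
import Pool.Agent.Helper15.AB.StBV

/-!
Project AB, module GS: primitive characters and Gauss sums.
-/

set_option autoImplicit false

namespace Pool.Agent.Helper15.AB

open Finset

namespace GS

variable {r : ℕ} [NeZero r]

lemma normSq_sum_eq {ι : Type} (s : Finset ι) (f : ι → ℂ) :
    ((‖∑ x ∈ s, f x‖ ^ 2 : ℝ) : ℂ) = ∑ x ∈ s, ∑ y ∈ s, f x * (starRingEnd ℂ) (f y) := by
  rw [← Complex.normSq_eq_norm_sq, ← Complex.mul_conj, map_sum, sum_mul_sum]

lemma conj_e (x : ZMod r) :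
    (starRingEnd ℂ) (ZMod.stdAddChar (N := r) x) = ZMod.stdAddChar (N := r) (-x) := by
  rw [AddChar.map_neg_eq_conj]

/-- Parseval for the additive characters -/
lemma parseval (g : ZMod r → ℂ) :
    ∑ n : ZMod r, ‖∑ b : ZMod r, g b * ZMod.stdAddChar (N := r) (n * b)‖ ^ 2 =
      (r : ℝ) * ∑ b : ZMod r, ‖g b‖ ^ 2 := by
  have h : ((∑ n : ZMod r, ‖∑ b : ZMod r, g b * ZMod.stdAddChar (N := r) (n * b)‖ ^ 2 : ℝ) : ℂ) =
      (((r : ℝ) * ∑ b : ZMod r, ‖g b‖ ^ 2 : ℝ) : ℂ) := by
    rw [Complex.ofReal_sum]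
    simp_rw [normSq_sum_eq]
    calc ∑ n : ZMod r, ∑ x : ZMod r, ∑ y : ZMod r, g x * ZMod.stdAddChar (N := r) (n * x) *
          (starRingEnd ℂ) (g y * ZMod.stdAddChar (N := r) (n * y))
        = ∑ x : ZMod r, ∑ n : ZMod r, ∑ y : ZMod r, g x * ZMod.stdAddChar (N := r) (n * x) *
          (starRingEnd ℂ) (g y * ZMod.stdAddChar (N := r) (n * y)) := sum_comm
      _ = ∑ x : ZMod r, ∑ y : ZMod r, ∑ n : ZMod r, g x * ZMod.stdAddChar (N := r) (n * x) *
          (starRingEnd ℂ) (g y * ZMod.stdAddChar (N := r) (n * y)) :=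
          sum_congr rfl fun _ _ => sum_comm
      _ = ∑ x : ZMod r, ∑ y : ZMod r, g x * (starRingEnd ℂ) (g y) *
            ∑ n : ZMod r, ZMod.stdAddChar (N := r) (n * (x - y)) := by
          refine sum_congr rfl fun x _ => sum_congr rfl fun y _ => ?_
          rw [mul_sum]
          refine sum_congr rfl fun n _ => ?_
          rw [map_mul (starRingEnd ℂ), conj_e]
          have : ZMod.stdAddChar (N := r) (n * (x - y)) =
              ZMod.stdAddChar (N := r) (n * x) * ZMod.stdAddChar (N := r) (-(n * y)) := by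
            rw [← AddChar.map_add_eq_mul]
            congr 1
            ring
          rw [this]
          ring
      _ = ∑ x : ZMod r, ∑ y : ZMod r, (if y = x then (r : ℂ) * (g x * (starRingEnd ℂ) (g y))
            else 0) := by
          refine sum_congr rfl fun x _ => sum_congr rfl fun y _ => ?_
          rw [AddChar.sum_mulShift _ (ZMod.isPrimitive_stdAddChar r)]
          by_cases hxy : x = y
          · rw [if_pos (sub_eq_zero.2 hxy), if_pos hxy.symm, ZMod.card]
            ring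
          · rw [if_neg (fun h => hxy (sub_eq_zero.1 h)), if_neg (Ne.symm hxy)]
            simp
      _ = _ := by
          push_cast
          rw [mul_sum]
          refine sum_congr rfl fun x _ => ?_
          rw [sum_ite_eq' univ x, if_pos (mem_univ _), Complex.mul_conj,
            Complex.normSq_eq_norm_sq]
          push_cast
          ring
  exact_mod_cast h

omit [NeZero r] in
lemma conj_char (χ : DirichletCharacter ℂ r) {b : ZMod r} (hb : IsUnit b) :
    (starRingEnd ℂ) (χ b) = χ b⁻¹ := by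
  have h := MulChar.star_apply' χ b
  rw [RCLike.star_def] at h
  rw [h]
  have h1 : χ b * χ b⁻¹ = 1 := by
    rw [← map_mul, ZMod.mul_inv_of_unit b hb, map_one]
  have h2 : χ b * χ⁻¹ b = 1 := by
    rw [← MulChar.mul_apply, mul_inv_cancel, MulChar.one_apply hb]
  have h3 : χ b ≠ 0 := fun h0 => by rw [h0, zero_mul] at h1; exact zero_ne_one h1
  exact mul_left_cancel₀ h3 (h2.trans h1.symm)

open Classical in
/-- Parseval for the multiplicative characters -/
lemma parseval_mul (g : ZMod r → ℂ) :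
    ∑ χ : DirichletCharacter ℂ r, ‖∑ b : ZMod r, χ b * g b‖ ^ 2 =
      (Nat.totient r : ℝ) * ∑ b ∈ (univ : Finset (ZMod r)).filter IsUnit, ‖g b‖ ^ 2 := by
  have h : ((∑ χ : DirichletCharacter ℂ r, ‖∑ b : ZMod r, χ b * g b‖ ^ 2 : ℝ) : ℂ) =
      (((Nat.totient r : ℝ) * ∑ b ∈ (univ : Finset (ZMod r)).filter IsUnit,
        ‖g b‖ ^ 2 : ℝ) : ℂ) := by
    rw [Complex.ofReal_sum]
    have e1 : ∀ χ : DirichletCharacter ℂ r, ∑ b : ZMod r, χ b * g b =
        ∑ b ∈ (univ : Finset (ZMod r)).filter IsUnit, χ b * g b := by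
      intro χ
      symm
      apply sum_subset (filter_subset _ _)
      intro b _ hb
      rw [mem_filter, not_and] at hb
      rw [MulChar.map_nonunit χ (hb (mem_univ _)), zero_mul]
    simp_rw [e1, normSq_sum_eq]
    set U := (univ : Finset (ZMod r)).filter IsUnit with hU
    calc ∑ χ : DirichletCharacter ℂ r, ∑ x ∈ U, ∑ y ∈ U, χ x * g x * (starRingEnd ℂ) (χ y * g y)
        = ∑ x ∈ U, ∑ χ : DirichletCharacter ℂ r, ∑ y ∈ U,
            χ x * g x * (starRingEnd ℂ) (χ y * g y) := sum_comm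
      _ = ∑ x ∈ U, ∑ y ∈ U, ∑ χ : DirichletCharacter ℂ r,
            χ x * g x * (starRingEnd ℂ) (χ y * g y) := sum_congr rfl fun _ _ => sum_comm
      _ = ∑ x ∈ U, ∑ y ∈ U, g x * (starRingEnd ℂ) (g y) *
            ∑ χ : DirichletCharacter ℂ r, χ y⁻¹ * χ x := by
          refine sum_congr rfl fun x _ => sum_congr rfl fun y hy => ?_
          rw [mul_sum]
          refine sum_congr rfl fun χ _ => ?_
          rw [map_mul, conj_char χ (mem_filter.1 hy).2]
          ring
      _ = ∑ x ∈ U, ∑ y ∈ U, (if y = x then (Nat.totient r : ℂ) * (g x * (starRingEnd ℂ) (g y))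
            else 0) := by
          refine sum_congr rfl fun x _ => sum_congr rfl fun y hy => ?_
          rw [DirichletCharacter.sum_char_inv_mul_char_eq ℂ (mem_filter.1 hy).2]
          by_cases hxy : y = x
          · rw [if_pos hxy, if_pos hxy]
            ring
          · rw [if_neg hxy, if_neg hxy, mul_zero]
      _ = _ := by
          push_cast
          rw [mul_sum]
          refine sum_congr rfl fun x hx => ?_
          rw [sum_ite_eq' U x, if_pos hx, Complex.mul_conj,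
            Complex.normSq_eq_norm_sq]
          push_cast
          ring
  exact_mod_cast h

omit [NeZero r] in
lemma norm_inv (χ : DirichletCharacter ℂ r) (b : ZMod r) : ‖χ⁻¹ b‖ = ‖χ b‖ := by
  have h := MulChar.star_apply' χ b
  rw [← h, norm_star]

lemma primitive_inv {χ : DirichletCharacter ℂ r} (hχ : χ.IsPrimitive) : χ⁻¹.IsPrimitive := by
  rw [DirichletCharacter.isPrimitive_def] at hχ ⊢
  apply le_antisymm
  · have := DirichletCharacter.conductor_dvd_level χ⁻¹
    exact Nat.le_of_dvd (Nat.pos_of_ne_zero (NeZero.ne r)) this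
  · -- the conductor of the inverse is a level for `χ`
    have h1 : χ⁻¹.FactorsThrough χ⁻¹.conductor := DirichletCharacter.factorsThrough_conductor χ⁻¹
    have h2 : χ.FactorsThrough χ⁻¹.conductor := by
      obtain ⟨hd, χ₀, h0⟩ := h1
      refine ⟨hd, χ₀⁻¹, ?_⟩
      rw [map_inv, ← h0, inv_inv]
    have h3 : χ.conductor ≤ χ⁻¹.conductor := Nat.sInf_le h2
    rw [hχ] at h3
    exact h3

/-- the absolute value of the Gauss sum of a primitive character -/
lemma norm_gauss {χ : DirichletCharacter ℂ r} (hχ : χ.IsPrimitive) :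
    ‖gaussSum χ (ZMod.stdAddChar (N := r))‖ ^ 2 = r := by
  have h1 := parseval (fun b => χ b)
  have h2 : ∀ n : ZMod r, ∑ b : ZMod r, χ b * ZMod.stdAddChar (N := r) (n * b) =
      χ⁻¹ n * gaussSum χ (ZMod.stdAddChar (N := r)) := by
    intro n
    rw [← gaussSum_mulShift_of_isPrimitive _ hχ]
    rfl
  simp_rw [h2, norm_mul, mul_pow, norm_inv] at h1
  rw [← sum_mul, mul_comm] at h1
  have h3 : 0 < ∑ b : ZMod r, ‖χ b‖ ^ 2 := by
    have : ‖χ 1‖ ^ 2 ≤ ∑ b : ZMod r, ‖χ b‖ ^ 2 :=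
      single_le_sum (f := fun b => ‖χ b‖ ^ 2) (fun _ _ => by positivity) (mem_univ 1)
    rw [map_one, norm_one] at this
    linarith
  exact mul_right_cancel₀ h3.ne' h1

lemma key {ψ : DirichletCharacter ℂ r} (hψ : ψ.IsPrimitive) (s : Finset ℕ) (a : ℕ → ℂ) :
    (r : ℝ) * ‖∑ n ∈ s, a n * ψ (n : ZMod r)‖ ^ 2 =
      ‖∑ b : ZMod r, ψ⁻¹ b * ∑ n ∈ s, a n * ZMod.stdAddChar (N := r) ((n : ZMod r) * b)‖ ^ 2 := by
  have hp := primitive_inv hψ
  rw [← norm_gauss hp, ← mul_pow, ← norm_mul]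
  congr 2
  simp_rw [mul_sum]
  rw [sum_comm]
  refine sum_congr rfl fun n _ => ?_
  have h2 : ∑ b : ZMod r, ψ⁻¹ b * ZMod.stdAddChar (N := r) ((n : ZMod r) * b) =
      ψ (n : ZMod r) * gaussSum ψ⁻¹ (ZMod.stdAddChar (N := r)) := by
    have := gaussSum_mulShift_of_isPrimitive (ZMod.stdAddChar (N := r)) hp (n : ZMod r)
    rw [inv_inv] at this
    rw [← this]
    rfl
  calc gaussSum ψ⁻¹ (ZMod.stdAddChar (N := r)) * (a n * ψ (n : ZMod r))
      = a n * (ψ (n : ZMod r) * gaussSum ψ⁻¹ (ZMod.stdAddChar (N := r))) := by ring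
    _ = a n * ∑ b : ZMod r, ψ⁻¹ b * ZMod.stdAddChar (N := r) ((n : ZMod r) * b) := by rw [h2]
    _ = _ := by
        rw [mul_sum]
        refine sum_congr rfl fun b _ => ?_
        ring

lemma std_eq (n b : ℕ) :
    ZMod.stdAddChar (N := r) ((n : ZMod r) * (b : ZMod r)) = ee (n * (b / r)) := by
  have h := ZMod.stdAddChar_coe (N := r) ((n * b : ℕ) : ℤ)
  have e1 : (((n * b : ℕ) : ℤ) : ZMod r) = (n : ZMod r) * (b : ZMod r) := by
    push_cast
    ring
  rw [e1] at h
  rw [h]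
  unfold ee
  congr 1
  push_cast
  ring

open Classical in
lemma sum_units (g : ZMod r → ℝ) :
    ∑ b ∈ (univ : Finset (ZMod r)).filter IsUnit, g b =
      ∑ b ∈ (range r).filter (fun b => Nat.Coprime b r), g (b : ZMod r) := by
  refine sum_bij' (fun b _ => b.val) (fun b _ => (b : ZMod r)) ?_ ?_ ?_ ?_ ?_
  · intro b hb
    rw [mem_filter] at hb
    rw [mem_filter, mem_range]
    refine ⟨ZMod.val_lt b, ?_⟩
    rw [← ZMod.isUnit_iff_coprime, ZMod.natCast_zmod_val]
    exact hb.2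
  · intro b hb
    rw [mem_filter] at hb
    rw [mem_filter]
    exact ⟨mem_univ _, (ZMod.isUnit_iff_coprime b r).2 hb.2⟩
  · intro b _
    exact ZMod.natCast_zmod_val b
  · intro b hb
    rw [mem_filter, mem_range] at hb
    exact ZMod.val_cast_of_lt hb.1
  · intro b _
    rw [ZMod.natCast_zmod_val]

end GS

open GS in
/-- module GS -/
theorem hGS : StGS := by
  classical
  intro r s a hr
  have hr0 : r ≠ 0 := by omega
  have hN : NeZero r := ⟨hr0⟩
  have hrpos : (0 : ℝ) < r := by exact_mod_cast hr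
  rw [SP, dif_neg hr0]
  set S : ZMod r → ℂ := fun b => ∑ n ∈ s, a n * ZMod.stdAddChar (N := r) ((n : ZMod r) * b) with hS
  have h1 : (r : ℝ) * ∑ ψ ∈ (univ : Finset (DirichletCharacter ℂ r)).filter
      (fun ψ => ψ.IsPrimitive), ‖∑ n ∈ s, a n * ψ (n : ZMod r)‖ ^ 2 ≤
      (Nat.totient r : ℝ) * ∑ b ∈ (univ : Finset (ZMod r)).filter IsUnit, ‖S b‖ ^ 2 := by
    rw [mul_sum]
    calc ∑ ψ ∈ (univ : Finset (DirichletCharacter ℂ r)).filter (fun ψ => ψ.IsPrimitive),
          (r : ℝ) * ‖∑ n ∈ s, a n * ψ (n : ZMod r)‖ ^ 2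
        = ∑ ψ ∈ (univ : Finset (DirichletCharacter ℂ r)).filter (fun ψ => ψ.IsPrimitive),
          ‖∑ b : ZMod r, ψ⁻¹ b * S b‖ ^ 2 := by
          refine sum_congr rfl fun ψ hψ => ?_
          exact key (mem_filter.1 hψ).2 s a
      _ ≤ ∑ ψ : DirichletCharacter ℂ r, ‖∑ b : ZMod r, ψ⁻¹ b * S b‖ ^ 2 :=
          sum_le_sum_of_subset_of_nonneg (filter_subset _ _) fun _ _ _ => by positivity
      _ = ∑ χ : DirichletCharacter ℂ r, ‖∑ b : ZMod r, χ b * S b‖ ^ 2 :=
          Equiv.sum_comp (Equiv.inv (DirichletCharacter ℂ r))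
            (fun χ => ‖∑ b : ZMod r, χ b * S b‖ ^ 2)
      _ = _ := parseval_mul S
  have h2 : ∑ b ∈ (univ : Finset (ZMod r)).filter IsUnit, ‖S b‖ ^ 2 =
      ∑ b ∈ (range r).filter (fun b => Nat.Coprime b r),
        ‖∑ n ∈ s, a n * ee (n * (b / r))‖ ^ 2 := by
    rw [sum_units (fun b => ‖S b‖ ^ 2)]
    refine sum_congr rfl fun b _ => ?_
    rw [hS]
    simp only [std_eq]
  rw [h2] at h1
  rw [div_mul_eq_mul_div, le_div_iff₀ hrpos, mul_comm]
  exact h1

end Pool.Agent.Helper15.AB
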