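import Mathlib
import Pool.Agent.Helper15.AB.StAp

/-! # Project AB, module HN -/

set_option autoImplicit false

namespace Pool.Agent.Helper15.AB

theorem hHN : StHN := by
  intro p hp hp2 x y hxy hsq
  haveI : Fact p.Prime := ⟨hp⟩
  obtain ⟨r, hr⟩ := hsq
  have h2 : (2 : ZMod p) ≠ 0 := by
    intro h
    have h3 : ((2 : ℕ) : ZMod p) = 0 := by exact_mod_cast h
    rw [ZMod.natCast_eq_zero_iff] at h3
    exact hp2 ((Nat.prime_dvd_prime_iff_eq hp Nat.prime_two).1 h3)
  have hr0 : r ≠ 0 := by
    rintro rfl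
    exact hxy (by rw [hr]; ring)
  by_cases h : r + x = 0
  · have hx : x = -r := by linear_combination h
    have hy : y = 0 := by
      have : y ^ 2 = 0 := by
        rw [hx] at hr
        linear_combination hr
      exact pow_eq_zero_iff (two_ne_zero) |>.1 this
    refine ⟨1, 0, ?_, ?_⟩
    · simp
    · rw [hy]; ring
  · refine ⟨r + x, y, ?_, ?_⟩
    · have h4 : (r + x) ^ 2 + y ^ 2 = 2 * r * (r + x) := by linear_combination hr
      rw [h4]
      exact mul_ne_zero (mul_ne_zero h2 hr0) h
    · linear_combination (-y) * hr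

end Pool.Agent.Helper15.AB
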