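import Mathlib
import Pool.Agent.Helper15.AB.StMid

/-!
# AB module K0: the series `∑ c4 f / f` over `f` coprime to `q`
-/

set_option autoImplicit false

namespace Pool.Agent.Helper15.AB

open Finset Filter Topology

namespace hK0

theorem c4_even {n : ℕ} (h : n % 2 = 0) : c4 n = 0 := by
  unfold c4
  rw [if_neg (by omega), if_neg (by omega)]

theorem c4_odd (j : ℕ) : c4 (2 * j + 1) = (-1) ^ j := by
  unfold c4
  rcases Nat.even_or_odd j with ⟨i, hi⟩ | ⟨i, hi⟩
  · rw [if_pos (by omega), hi, ← two_mul, pow_mul]; norm_num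
  · rw [if_neg (by omega), if_pos (by omega), hi, pow_succ, pow_mul]; norm_num

theorem c4_mul (a b : ℕ) : c4 (a * b) = c4 a * c4 b := by
  have h := Nat.mul_mod a b 4
  have ha : a % 4 < 4 := Nat.mod_lt _ (by norm_num)
  have hb : b % 4 < 4 := Nat.mod_lt _ (by norm_num)
  unfold c4
  rw [h]
  generalize a % 4 = x at ha
  generalize b % 4 = y at hb
  interval_cases x <;> interval_cases y <;> norm_num

theorem abs_c4_le (n : ℕ) : |c4 n| ≤ 1 := by
  unfold c4
  split_ifs <;> norm_num

/-- the partial sums over integers without prime factors in `S` -/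
noncomputable def PS (S : Finset ℕ) (F : ℕ) : ℝ :=
  ∑ f ∈ (Icc 1 F).filter (fun f => ∀ l ∈ S, ¬ l ∣ f), c4 f / f

theorem PS_empty (F : ℕ) : PS ∅ F =
    ∑ i ∈ range ((F + 1) / 2), (-1 : ℝ) ^ i / (2 * i + 1) := by
  induction F with
  | zero => simp [PS]
  | succ F ih =>
    have h1 : PS ∅ (F + 1) = PS ∅ F + c4 (F + 1) / ((F + 1 : ℕ) : ℝ) := by
      unfold PS
      simp only [notMem_empty, IsEmpty.forall_iff, implies_true, filter_true]
      rw [← Finset.insert_Icc_right_eq_Icc_add_one (by omega : 1 ≤ F + 1), sum_insert (by simp)]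
      ring
    rw [h1, ih]
    rcases Nat.even_or_odd F with ⟨j, hj⟩ | ⟨j, hj⟩
    · have h2 : F + 1 = 2 * j + 1 := by omega
      have h3 : (F + 1) / 2 = j := by omega
      have h4 : (F + 1 + 1) / 2 = j + 1 := by omega
      rw [h4, h3, sum_range_succ, h2, c4_odd]
      push_cast
      ring
    · have h2 : (F + 1) % 2 = 0 := by omega
      have h3 : (F + 1) / 2 = j + 1 := by omega
      have h4 : (F + 1 + 1) / 2 = j + 1 := by omega
      rw [h4, h3, c4_even h2]
      simp

theorem PS_insert (S : Finset ℕ) (l : ℕ) (hl : l.Prime) (hS : ∀ p ∈ S, p.Prime) (hlS : l ∉ S)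
    (F : ℕ) : PS (insert l S) F = PS S F - c4 l / l * PS S (F / l) := by
  have hl0 : 0 < l := hl.pos
  have h1 : PS S F = PS (insert l S) F +
      ∑ f ∈ (Icc 1 F).filter (fun f => (∀ p ∈ S, ¬ p ∣ f) ∧ l ∣ f), c4 f / f := by
    unfold PS
    rw [← sum_filter_add_sum_filter_not ((Icc 1 F).filter (fun f => ∀ p ∈ S, ¬ p ∣ f))
      (fun f => ¬ l ∣ f), filter_filter, filter_filter]
    congr 1
    · refine sum_congr (filter_congr fun f _ => ?_) fun _ _ => rfl
      rw [forall_mem_insert, and_comm]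
    · refine sum_congr (filter_congr fun f _ => ?_) fun _ _ => rfl
      rw [not_not]
  have h2 : ∑ f ∈ (Icc 1 F).filter (fun f => (∀ p ∈ S, ¬ p ∣ f) ∧ l ∣ f), c4 f / f =
      c4 l / l * PS S (F / l) := by
    unfold PS
    rw [mul_sum]
    symm
    refine sum_nbij (fun f => l * f) ?_ ?_ ?_ ?_
    · intro f hf
      rw [mem_filter, mem_Icc] at hf ⊢
      obtain ⟨⟨hf1, hf2⟩, hf3⟩ := hf
      refine ⟨⟨Nat.mul_pos hl0 hf1, ?_⟩, ?_, dvd_mul_right _ _⟩
      · rw [Nat.le_div_iff_mul_le hl0] at hf2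
        rwa [mul_comm]
      · intro p hp hpf
        rcases (hS p hp).dvd_mul.1 hpf with h | h
        · rw [(Nat.prime_dvd_prime_iff_eq (hS p hp) hl).1 h] at hp
          exact hlS hp
        · exact hf3 p hp h
    · intro a _ b _ hab
      exact Nat.eq_of_mul_eq_mul_left hl0 hab
    · intro f hf
      rw [coe_filter, Set.mem_ofPred_eq, mem_Icc] at hf
      obtain ⟨⟨hf1, hf2⟩, hf3, ⟨g, rfl⟩⟩ := hf
      refine ⟨g, ?_, rfl⟩
      rw [coe_filter, Set.mem_ofPred_eq, mem_Icc]
      refine ⟨⟨Nat.pos_of_mul_pos_left hf1, ?_⟩, ?_⟩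
      · rw [Nat.le_div_iff_mul_le hl0, mul_comm]; exact hf2
      · intro p hp hpg
        exact hf3 p hp (hpg.mul_left l)
    · intro f _
      rw [c4_mul]
      push_cast
      rw [div_mul_div_comm]
  rw [h1, h2]
  ring

theorem PS_lim (S : Finset ℕ) (hS : ∀ p ∈ S, p.Prime) :
    ∃ L : ℝ, 0 < L ∧ Tendsto (PS S) atTop (𝓝 L) := by
  induction S using Finset.induction_on with
  | empty =>
    refine ⟨Real.pi / 4, by positivity, ?_⟩
    have h1 : Tendsto (fun F : ℕ => (F + 1) / 2) atTop atTop :=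
      (Nat.tendsto_div_const_atTop (by norm_num)).comp (tendsto_add_atTop_nat 1)
    have h2 := Real.tendsto_sum_pi_div_four.comp h1
    refine h2.congr fun F => ?_
    rw [PS_empty]
    rfl
  | insert l S hl ih =>
    obtain ⟨L, hL, hlim⟩ := ih fun p hp => hS p (mem_insert_of_mem hp)
    have hlp : l.Prime := hS l (mem_insert_self _ _)
    refine ⟨L - c4 l / l * L, ?_, ?_⟩
    · have h1 : c4 l / l < 1 := by
        have h2 : (2 : ℝ) ≤ l := by exact_mod_cast hlp.two_le
        rw [div_lt_one (by linarith)]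
        have := (abs_le.1 (abs_c4_le l)).2
        linarith
      have : L - c4 l / l * L = (1 - c4 l / l) * L := by ring
      rw [this]
      exact mul_pos (by linarith) hL
    · have h1 : PS (insert l S) = fun F => PS S F - c4 l / l * PS S (F / l) := by
        funext F
        exact PS_insert S l hlp (fun p hp => hS p (mem_insert_of_mem hp)) hl F
      rw [h1]
      exact hlim.sub ((hlim.comp (Nat.tendsto_div_const_atTop hlp.ne_zero)).const_mul _)

theorem coprime_iff {q : ℕ} (hq : 1 ≤ q) (f : ℕ) :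
    Nat.Coprime f q ↔ ∀ l ∈ q.primeFactors, ¬ l ∣ f := by
  constructor
  · intro h l hl hlf
    have h1 := Nat.dvd_gcd hlf (Nat.dvd_of_mem_primeFactors hl)
    rw [h] at h1
    exact (Nat.prime_of_mem_primeFactors hl).one_lt.ne' (Nat.dvd_one.1 h1)
  · intro h
    apply Nat.coprime_of_dvd
    intro p hp hpf hpq
    exact h p (Nat.mem_primeFactors.2 ⟨hp, hpq, by omega⟩) hpf

end hK0

open hK0 in
theorem hK0 : StK0 := by
  intro q _ hq
  obtain ⟨L, hL, hlim⟩ := PS_lim q.primeFactors fun p hp => Nat.prime_of_mem_primeFactors hp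
  have h1 : (fun F : ℕ => ∑ f ∈ (Icc 1 F).filter (fun f => Nat.Coprime f q), c4 f / f) =
      PS q.primeFactors := by
    funext F
    unfold PS
    exact sum_congr (filter_congr fun f _ => coprime_iff hq f) fun _ _ => rfl
  obtain ⟨C, hC⟩ := (Metric.isBounded_range_of_tendsto _ hlim).exists_norm_le
  refine ⟨L, max C 1, hL, by positivity, ?_, ?_⟩
  · intro F
    have h2 := hC (PS q.primeFactors F) ⟨F, rfl⟩
    rw [← h1, Real.norm_eq_abs] at h2
    exact h2.trans (le_max_left _ _)
  · rw [h1]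
    exact hlim

end Pool.Agent.Helper15.AB
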