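import Mathlib
import Pool.Agent.Helper15.AB.StMid
import Pool.Agent.Helper15.AB.M_K0

/-!
# AB module K1: the series `∑ c4 e / φ(r e)`
-/

set_option autoImplicit false

namespace Pool.Agent.Helper15.AB

open Finset Filter Topology

namespace hK1

/-- `1 / (k φ(k))` on the odd squarefree integers -/
noncomputable def bb (k : ℕ) : ℝ :=
  if Squarefree k ∧ ¬ 2 ∣ k then 1 / ((k : ℝ) * Nat.totient k) else 0

theorem bb_nonneg (k : ℕ) : 0 ≤ bb k := by
  unfold bb
  split_ifs
  · positivity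
  · exact le_rfl

theorem totient_sqf {k : ℕ} (hk : Squarefree k) :
    (Nat.totient k : ℝ) = ∏ p ∈ k.primeFactors, ((p : ℝ) - 1) := by
  have h1 := Nat.totient_mul_prod_primeFactors k
  rw [Nat.prod_primeFactors_of_squarefree hk, mul_comm k] at h1
  have h2 : Nat.totient k = ∏ p ∈ k.primeFactors, (p - 1) :=
    Nat.eq_of_mul_eq_mul_right (Nat.pos_of_ne_zero hk.ne_zero) h1
  rw [h2, Nat.cast_prod]
  refine prod_congr rfl fun p hp => ?_
  rw [Nat.cast_sub (Nat.prime_of_mem_primeFactors hp).one_le, Nat.cast_one]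

theorem odd_sum (J : ℕ) : ∑ j ∈ range (J + 1), (1 : ℝ) / ((2 * j + 3) * (2 * j + 2)) ≤
    1 / 6 + 1 / 7 - (1 / 2) / (2 * J + 7 / 2) := by
  induction J with
  | zero => norm_num
  | succ J ih =>
    rw [sum_range_succ]
    have h0 : (0 : ℝ) ≤ J := by positivity
    have h1 : (1 : ℝ) / ((2 * (J + 1 : ℕ) + 3) * (2 * (J + 1 : ℕ) + 2)) ≤
        (1 / 2) / (2 * J + 7 / 2) - (1 / 2) / (2 * (J + 1 : ℕ) + 7 / 2) := by
      push_cast
      rw [div_sub_div _ _ (by positivity) (by positivity),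
        div_le_div_iff₀ (by positivity) (by positivity)]
      nlinarith
    linarith

theorem prime_sum (M : ℕ) : ∑ p ∈ (range M).filter (fun p => p.Prime ∧ ¬ 2 ∣ p),
    (1 : ℝ) / ((p : ℝ) * (p - 1)) ≤ 0.31 := by
  have h1 : ∑ p ∈ (range M).filter (fun p => p.Prime ∧ ¬ 2 ∣ p), (1 : ℝ) / ((p : ℝ) * (p - 1)) ≤
      ∑ j ∈ range (M + 1), (1 : ℝ) / ((2 * j + 3) * (2 * j + 2)) := by
    have h2 : ∑ p ∈ (range M).filter (fun p => p.Prime ∧ ¬ 2 ∣ p),
        (1 : ℝ) / ((p : ℝ) * (p - 1)) =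
        ∑ j ∈ ((range M).filter (fun p => p.Prime ∧ ¬ 2 ∣ p)).image (fun p : ℕ => (p - 3) / 2),
          (1 : ℝ) / ((2 * (j : ℝ) + 3) * (2 * (j : ℝ) + 2)) := by
      rw [sum_image]
      · refine sum_congr rfl fun p hp => ?_
        rw [mem_filter, mem_range] at hp
        have h3 := hp.2.1.two_le
        obtain ⟨j, rfl⟩ : ∃ j, p = 2 * j + 3 := ⟨(p - 3) / 2, by omega⟩
        have h4 : (2 * j + 3 - 3) / 2 = j := by omega
        rw [h4]
        push_cast
        congr 1
        ring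
      · intro a ha b hb hab
        rw [mem_coe, mem_filter, mem_range] at ha hb
        have h3 := ha.2.1.two_le
        have h4 := hb.2.1.two_le
        have h5 := ha.2.2
        have h6 := hb.2.2
        simp only at hab
        omega
    rw [h2]
    refine sum_le_sum_of_subset_of_nonneg ?_ fun j _ _ => by positivity
    intro j hj
    rw [mem_image] at hj
    obtain ⟨p, hp, rfl⟩ := hj
    rw [mem_filter, mem_range] at hp
    rw [mem_range]
    omega
  have h2 := odd_sum M
  have h3 : (0 : ℝ) ≤ (1 / 2) / (2 * M + 7 / 2) := by positivity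
  have h4 : (1 : ℝ) / 6 + 1 / 7 ≤ 0.31 := by norm_num
  linarith

theorem sum_bb (M : ℕ) : ∑ k ∈ range M, bb k ≤ Real.exp 0.31 := by
  have h1 : ∑ k ∈ range M, bb k =
      ∑ k ∈ (range M).filter (fun k => Squarefree k ∧ ¬ 2 ∣ k), 1 / ((k : ℝ) * Nat.totient k) := by
    rw [sum_filter]
    rfl
  have h2 : ∑ k ∈ (range M).filter (fun k => Squarefree k ∧ ¬ 2 ∣ k),
      1 / ((k : ℝ) * Nat.totient k) =
      ∑ T ∈ ((range M).filter (fun k => Squarefree k ∧ ¬ 2 ∣ k)).image Nat.primeFactors,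
        ∏ p ∈ T, (1 : ℝ) / ((p : ℝ) * (p - 1)) := by
    rw [sum_image]
    · refine sum_congr rfl fun k hk => ?_
      rw [mem_filter] at hk
      have e1 : (k : ℝ) = ∏ p ∈ k.primeFactors, (p : ℝ) := by
        conv_lhs => rw [← Nat.prod_primeFactors_of_squarefree hk.2.1]
        rw [Nat.cast_prod]
      rw [totient_sqf hk.2.1]
      nth_rewrite 1 [e1]
      rw [← prod_mul_distrib, one_div, ← prod_inv_distrib]
      exact prod_congr rfl fun p _ => (one_div _).symm
    · intro a ha b hb hab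
      rw [mem_coe, mem_filter] at ha hb
      rw [← Nat.prod_primeFactors_of_squarefree ha.2.1, hab,
        Nat.prod_primeFactors_of_squarefree hb.2.1]
  have hpos : ∀ p : ℕ, p.Prime → (0 : ℝ) ≤ 1 / ((p : ℝ) * (p - 1)) := by
    intro p hp
    have : (2 : ℝ) ≤ p := by exact_mod_cast hp.two_le
    have : (0 : ℝ) ≤ (p : ℝ) - 1 := by linarith
    positivity
  have h3 : ∑ T ∈ ((range M).filter (fun k => Squarefree k ∧ ¬ 2 ∣ k)).image Nat.primeFactors,
        ∏ p ∈ T, (1 : ℝ) / ((p : ℝ) * (p - 1)) ≤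
      ∑ T ∈ ((range M).filter (fun p => p.Prime ∧ ¬ 2 ∣ p)).powerset,
        ∏ p ∈ T, (1 : ℝ) / ((p : ℝ) * (p - 1)) := by
    refine sum_le_sum_of_subset_of_nonneg ?_ ?_
    · intro T hT
      rw [mem_image] at hT
      obtain ⟨k, hk, rfl⟩ := hT
      rw [mem_filter, mem_range] at hk
      rw [mem_powerset]
      intro p hp
      have hp' := Nat.dvd_of_mem_primeFactors hp
      rw [mem_filter, mem_range]
      refine ⟨lt_of_le_of_lt (Nat.le_of_dvd (Nat.pos_of_ne_zero hk.2.1.ne_zero) hp') hk.1,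
        Nat.prime_of_mem_primeFactors hp, fun h => hk.2.2 (h.trans hp')⟩
    · intro T hT _
      rw [mem_powerset] at hT
      refine prod_nonneg fun p hp => hpos p ?_
      exact (mem_filter.1 (hT hp)).2.1
  have h4 : ∑ T ∈ ((range M).filter (fun p => p.Prime ∧ ¬ 2 ∣ p)).powerset,
        ∏ p ∈ T, (1 : ℝ) / ((p : ℝ) * (p - 1)) =
      ∏ p ∈ (range M).filter (fun p => p.Prime ∧ ¬ 2 ∣ p), (1 + 1 / ((p : ℝ) * (p - 1))) :=
    (prod_one_add _).symm
  have h5 : ∏ p ∈ (range M).filter (fun p => p.Prime ∧ ¬ 2 ∣ p), (1 + 1 / ((p : ℝ) * (p - 1))) ≤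
      Real.exp (∑ p ∈ (range M).filter (fun p => p.Prime ∧ ¬ 2 ∣ p),
        (1 : ℝ) / ((p : ℝ) * (p - 1))) := by
    rw [Real.exp_sum]
    refine prod_le_prod ?_ ?_
    · intro p hp
      have := hpos p (mem_filter.1 hp).2.1
      linarith
    · intro p _
      rw [add_comm]
      exact Real.add_one_le_exp _
  rw [h1, h2]
  refine h3.trans ?_
  rw [h4]
  exact h5.trans (Real.exp_le_exp.2 (prime_sum M))

theorem summable_bb : Summable bb := summable_of_sum_range_le bb_nonneg sum_bb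

theorem tsum_bb : ∑' k, bb k ≤ Real.exp 0.31 := Real.tsum_le_of_sum_range_le bb_nonneg sum_bb

/-- the coefficients -/
noncomputable def aa (m k : ℕ) : ℝ :=
  if Squarefree k ∧ Nat.Coprime k m then c4 k / (k * Nat.totient k) else 0

theorem abs_aa_le {m : ℕ} (hm : 2 ∣ m) (k : ℕ) : |aa m k| ≤ bb k := by
  unfold aa bb
  by_cases h : Squarefree k ∧ Nat.Coprime k m
  · have h2 : ¬ 2 ∣ k := by
      intro h2
      have := Nat.dvd_gcd h2 hm
      rw [h.2] at this
      omega
    rw [if_pos h, if_pos ⟨h.1, h2⟩, abs_div, abs_of_nonneg (by positivity :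
      (0 : ℝ) ≤ (k : ℝ) * Nat.totient k)]
    exact div_le_div_of_nonneg_right (hK0.abs_c4_le k) (by positivity)
  · rw [if_neg h, abs_zero]
    exact bb_nonneg k

theorem summable_aa {m : ℕ} (hm : 2 ∣ m) : Summable (aa m) :=
  Summable.of_norm_bounded summable_bb fun k => by
    rw [Real.norm_eq_abs]; exact abs_aa_le hm k

/-- `φ(r) e / φ(r e)` -/
theorem tot_ident (r e : ℕ) (hr : 1 ≤ r) (he : 1 ≤ e) :
    ∑ k ∈ e.divisors.filter (fun k => Squarefree k ∧ Nat.Coprime k r), 1 / (Nat.totient k : ℝ) =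
      Nat.totient r * e / Nat.totient (r * e) := by
  set S := e.primeFactors.filter (fun p => ¬ p ∣ r) with hS
  have hSp : ∀ p ∈ S, p.Prime := fun p hp => Nat.prime_of_mem_primeFactors (mem_filter.1 hp).1
  have h1 : ∑ k ∈ e.divisors.filter (fun k => Squarefree k ∧ Nat.Coprime k r),
      1 / (Nat.totient k : ℝ) = ∑ T ∈ S.powerset, ∏ p ∈ T, 1 / ((p : ℝ) - 1) := by
    refine sum_nbij' Nat.primeFactors (fun T => ∏ p ∈ T, p) ?_ ?_ ?_ ?_ ?_
    · intro k hk
      rw [mem_filter, Nat.mem_divisors] at hk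
      rw [mem_powerset]
      intro p hp
      have hpk := Nat.dvd_of_mem_primeFactors hp
      have hpp := Nat.prime_of_mem_primeFactors hp
      rw [hS, mem_filter, Nat.mem_primeFactors]
      refine ⟨⟨hpp, hpk.trans hk.1.1, hk.1.2⟩, fun h => ?_⟩
      have := Nat.dvd_gcd hpk h
      rw [hk.2.2] at this
      exact hpp.one_lt.ne' (Nat.dvd_one.1 this)
    · intro T hT
      rw [mem_powerset] at hT
      rw [mem_filter, Nat.mem_divisors]
      refine ⟨⟨?_, by omega⟩, ?_, ?_⟩
      · exact prod_primes_dvd _ (fun p hp => (hSp p (hT hp)).prime) fun p hp =>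
          Nat.dvd_of_mem_primeFactors (mem_filter.1 (hT hp)).1
      · refine squarefree_prod_of_pairwise_isCoprime ?_ ?_
        · intro p hp p' hp' hne
          exact Nat.coprime_iff_isRelPrime.1
            ((Nat.coprime_primes (hSp p (hT hp)) (hSp p' (hT hp'))).2 hne)
        · intro p hp
          exact (hSp p (hT hp)).prime.irreducible.squarefree
      · refine Nat.Coprime.prod_left fun p hp => ?_
        exact ((hSp p (hT hp)).coprime_iff_not_dvd).2 (mem_filter.1 (hT hp)).2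
    · intro k hk
      rw [mem_filter] at hk
      exact Nat.prod_primeFactors_of_squarefree hk.2.1
    · intro T hT
      rw [mem_powerset] at hT
      exact Nat.primeFactors_prod fun p hp => hSp p (hT hp)
    · intro k hk
      rw [mem_filter] at hk
      rw [totient_sqf hk.2.1, one_div, ← prod_inv_distrib]
      exact prod_congr rfl fun p _ => (one_div _).symm
  have tot : ∀ n : ℕ, (Nat.totient n : ℝ) = n * ∏ p ∈ n.primeFactors, (1 - (p : ℝ)⁻¹) := by
    intro n
    have := Nat.totient_eq_mul_prod_factors n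
    have h2 := congrArg (fun x : ℚ => (x : ℝ)) this
    push_cast at h2
    exact h2
  have h2 : (r * e).primeFactors = r.primeFactors ∪ S := by
    rw [Nat.primeFactors_mul (by omega) (by omega)]
    ext p
    rw [mem_union, mem_union, hS, mem_filter, Nat.mem_primeFactors, Nat.mem_primeFactors]
    constructor
    · rintro (h | h)
      · exact Or.inl h
      · by_cases hpr : p ∣ r
        · exact Or.inl ⟨h.1, hpr, by omega⟩
        · exact Or.inr ⟨h, hpr⟩
    · rintro (h | h)
      · exact Or.inl h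
      · exact Or.inr h.1
  have hdisj : Disjoint r.primeFactors S := by
    rw [Finset.disjoint_left]
    intro p hp hpS
    exact (mem_filter.1 hpS).2 (Nat.dvd_of_mem_primeFactors hp)
  have h3 : (Nat.totient (r * e) : ℝ) = e * Nat.totient r * ∏ p ∈ S, (1 - (p : ℝ)⁻¹) := by
    rw [tot (r * e), tot r, h2, prod_union hdisj]
    push_cast
    ring
  have h4 : (∏ p ∈ S, (1 - (p : ℝ)⁻¹)) * ∏ p ∈ S, (1 + 1 / ((p : ℝ) - 1)) = 1 := by
    rw [← prod_mul_distrib]
    refine prod_eq_one fun p hp => ?_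
    have hp2 : (2 : ℝ) ≤ p := by exact_mod_cast (hSp p hp).two_le
    have : (p : ℝ) - 1 ≠ 0 := by linarith
    have : (p : ℝ) ≠ 0 := by linarith
    field_simp
    ring
  have h5 : (0 : ℝ) < Nat.totient (r * e) := by
    exact_mod_cast Nat.totient_pos.2 (Nat.mul_pos hr he)
  rw [h1, ← prod_one_add, eq_div_iff h5.ne', h3]
  calc (∏ p ∈ S, (1 + 1 / ((p : ℝ) - 1))) * (e * Nat.totient r * ∏ p ∈ S, (1 - (p : ℝ)⁻¹))
      = ((∏ p ∈ S, (1 - (p : ℝ)⁻¹)) * ∏ p ∈ S, (1 + 1 / ((p : ℝ) - 1))) *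
        (Nat.totient r * e) := by ring
    _ = _ := by rw [h4, one_mul]

theorem aa_zero (m : ℕ) : aa m 0 = 0 := by
  unfold aa
  simp

/-- the partial sums over integers coprime to `q` -/
noncomputable def A (q F : ℕ) : ℝ :=
  ∑ f ∈ (Icc 1 F).filter (fun f => Nat.Coprime f q), c4 f / f

theorem A_zero (q : ℕ) : A q 0 = 0 := by simp [A]

/-- arithmetic function with values `aa m` -/
noncomputable def fA (m : ℕ) : ArithmeticFunction ℝ := ⟨aa m, aa_zero m⟩

/-- arithmetic function with values `c4 f / f` on integers coprime to `q` -/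
noncomputable def gA (q : ℕ) : ArithmeticFunction ℝ :=
  ⟨fun f => if Nat.Coprime f q then c4 f / f else 0, by simp⟩

theorem conv_eq (q r e : ℕ) (hr : 1 ≤ r) (he : 1 ≤ e) :
    (fA (r * q) * gA q) e =
      if Nat.Coprime e q then c4 e * (Nat.totient r / Nat.totient (r * e)) else 0 := by
  rw [ArithmeticFunction.mul_apply]
  have h0 : ∑ x ∈ e.divisorsAntidiagonal, (fA (r * q)) x.1 * (gA q) x.2 =
      ∑ k ∈ e.divisors, (fA (r * q)) k * (gA q) (e / k) :=
    Nat.sum_divisorsAntidiagonal (fun a b => (fA (r * q)) a * (gA q) b)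
  rw [h0]
  have hf : ∀ k, (fA (r * q)) k = aa (r * q) k := fun _ => rfl
  have hg : ∀ f, (gA q) f = if Nat.Coprime f q then c4 f / f else 0 := fun _ => rfl
  by_cases hc : Nat.Coprime e q
  · rw [if_pos hc]
    have h1 : ∑ k ∈ e.divisors, (fA (r * q)) k * (gA q) (e / k) =
        ∑ k ∈ e.divisors, if Squarefree k ∧ Nat.Coprime k r then
          c4 e / e * (1 / (Nat.totient k : ℝ)) else 0 := by
      refine sum_congr rfl fun k hk => ?_
      rw [Nat.mem_divisors] at hk
      obtain ⟨⟨f, rfl⟩, -⟩ := hk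
      have hk0 : 0 < k := Nat.pos_of_mul_pos_right he
      have hf0 : 0 < f := Nat.pos_of_mul_pos_left he
      rw [Nat.mul_div_cancel_left _ hk0, hf, hg, if_pos hc.coprime_mul_left]
      unfold aa
      have h2 : (Squarefree k ∧ Nat.Coprime k (r * q)) ↔ (Squarefree k ∧ Nat.Coprime k r) := by
        rw [Nat.coprime_mul_iff_right]
        constructor
        · rintro ⟨h, h', -⟩; exact ⟨h, h'⟩
        · rintro ⟨h, h'⟩; exact ⟨h, h', hc.coprime_mul_right⟩
      by_cases h3 : Squarefree k ∧ Nat.Coprime k r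
      · rw [if_pos (h2.2 h3), if_pos h3, hK0.c4_mul]
        have hk1 : (0 : ℝ) < k := by exact_mod_cast hk0
        have hf1 : (0 : ℝ) < f := by exact_mod_cast hf0
        have ht : (0 : ℝ) < Nat.totient k := by exact_mod_cast Nat.totient_pos.2 hk0
        push_cast
        field_simp
      · rw [if_neg (fun h => h3 (h2.1 h)), if_neg h3, zero_mul]
    rw [h1, ← sum_filter, ← mul_sum, tot_ident r e hr he]
    have he1 : (0 : ℝ) < e := by exact_mod_cast he
    field_simp
  · rw [if_neg hc]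
    refine sum_eq_zero fun k hk => ?_
    rw [Nat.mem_divisors] at hk
    obtain ⟨⟨f, rfl⟩, -⟩ := hk
    have hk0 : 0 < k := Nat.pos_of_mul_pos_right he
    rw [Nat.mul_div_cancel_left _ hk0, hf, hg]
    by_cases h1 : Nat.Coprime f q
    · have h2 : ¬ (Squarefree k ∧ Nat.Coprime k (r * q)) := by
        rintro ⟨-, h2⟩
        exact hc (Nat.Coprime.mul_left (Nat.Coprime.coprime_mul_left_right h2) h1)
      unfold aa
      rw [if_neg h2, zero_mul]
    · rw [if_neg h1, mul_zero]

theorem Kp_eq (q r : ℕ) (hr : 1 ≤ r) (E : ℕ) :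
    Kp q r E = 1 / (Nat.totient r : ℝ) * ∑' k, aa (r * q) k * A q (E / k) := by
  have hIcc : ∀ n, Icc 1 n = Ioc 0 n := fun n => by ext; simp; omega
  have ht : (0 : ℝ) < Nat.totient r := by exact_mod_cast Nat.totient_pos.2 hr
  have h1 : Kp q r E = 1 / (Nat.totient r : ℝ) * ∑ e ∈ Ioc 0 E, (fA (r * q) * gA q) e := by
    unfold Kp
    rw [sum_filter, hIcc, mul_sum]
    refine sum_congr rfl fun e he => ?_
    rw [mem_Ioc] at he
    rw [conv_eq q r e hr he.1]
    split_ifs
    · field_simp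
    · rw [mul_zero]
  rw [h1, ArithmeticFunction.sum_Ioc_mul_eq_sum_sum]
  congr 1
  have h2 : ∀ k, ∑ m ∈ Ioc 0 (E / k), (gA q) m = A q (E / k) := by
    intro k
    unfold A
    rw [sum_filter, hIcc]
    rfl
  rw [tsum_eq_sum (s := Ioc 0 E)]
  · exact sum_congr rfl fun k _ => by rw [h2]; rfl
  · intro k hk
    rw [mem_Ioc] at hk
    by_cases hk0 : k = 0
    · rw [hk0, aa_zero, zero_mul]
    · have : E / k = 0 := Nat.div_eq_of_lt (by omega)
      rw [this, A_zero, mul_zero]

end hK1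

open hK1 in
theorem hK1 (hK0 : StK0) : StK1 := by
  intro q h4 hq
  obtain ⟨L, C, hL, hC, hb, hlim⟩ := hK0 q h4 hq
  refine ⟨L, C * Real.exp 0.31, hL, by positivity, ?_⟩
  intro r hr
  have ht : (0 : ℝ) < Nat.totient r := by exact_mod_cast Nat.totient_pos.2 hr
  have h2 : 2 ∣ r * q := ((by norm_num : (2 : ℕ) ∣ 4).trans h4).mul_left r
  have hbd : ∀ E k, ‖aa (r * q) k * A q (E / k)‖ ≤ bb k * C := by
    intro E k
    rw [norm_mul, Real.norm_eq_abs, Real.norm_eq_abs]
    exact mul_le_mul (abs_aa_le h2 k) (hb _) (abs_nonneg _) (bb_nonneg k)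
  have hsum : Summable (fun k => bb k * C) := summable_bb.mul_right C
  have hlim2 : Tendsto (fun E => Kp q r E) atTop
      (𝓝 (1 / (Nat.totient r : ℝ) * ∑' k, aa (r * q) k * L)) := by
    have h3 : Tendsto (fun E => ∑' k, aa (r * q) k * A q (E / k)) atTop
        (𝓝 (∑' k, aa (r * q) k * L)) := by
      refine tendsto_tsum_of_dominated_convergence hsum ?_ (Eventually.of_forall hbd)
      intro k
      by_cases hk : k = 0
      · simp only [hk, aa_zero, zero_mul]
        exact tendsto_const_nhds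
      · exact (hlim.comp (Nat.tendsto_div_const_atTop hk)).const_mul _
    refine (h3.const_mul (1 / (Nat.totient r : ℝ))).congr fun E => ?_
    rw [Kp_eq q r hr E]
  have hKK : KK q r = 1 / (Nat.totient r : ℝ) * ∑' k, aa (r * q) k * L := hlim2.limUnder_eq
  refine ⟨?_, ?_, ?_⟩
  · intro E
    rw [Kp_eq q r hr E, abs_mul, abs_of_nonneg (by positivity : (0 : ℝ) ≤ 1 / (Nat.totient r : ℝ)),
      one_div, inv_mul_eq_div]
    refine div_le_div_of_nonneg_right ?_ ht.le
    rw [← Real.norm_eq_abs]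
    refine (tsum_of_norm_bounded hsum.hasSum (hbd E)).trans ?_
    rw [tsum_mul_right, mul_comm]
    exact mul_le_mul_of_nonneg_left tsum_bb hC.le
  · rw [hKK]
    exact hlim2
  · rw [hKK, tsum_mul_right]
    have : ∀ k, aa (r * q) k =
      if Squarefree k ∧ Nat.Coprime k (r * q) then c4 k / (k * Nat.totient k) else 0 :=
      fun _ => rfl
    simp_rw [← this]
    ring

end Pool.Agent.Helper15.AB
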