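import Mathlib
import Pool.Agent.Helper15.AB.StKl

/-!
# Project AB: module KB (Kloosterman's fourth moment bound, composite moduli)
-/

set_option autoImplicit false

namespace Pool.Agent.Helper15.AB

namespace hKB

open Finset

variable {r : ℕ} [NeZero r]

/-- Kloosterman sum over the units of `ZMod r` -/
noncomputable def KK (a b : ZMod r) : ℂ :=
  ∑ u : (ZMod r)ˣ, ZMod.stdAddChar (a * (u : ZMod r) + b * ((u⁻¹ : (ZMod r)ˣ) : ZMod r))

theorem Kl_eq (α β : ℤ) : Kl r α β = KK (r := r) (α : ZMod r) (β : ZMod r) := by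
  unfold Kl KK
  symm
  refine Finset.sum_bij (fun (u : (ZMod r)ˣ) _ => (u : ZMod r).val) ?_ ?_ ?_ ?_
  · intro u _
    rw [mem_filter, mem_range]
    exact ⟨ZMod.val_lt _, ZMod.val_coe_unit_coprime u⟩
  · intro u _ v _ h
    exact Units.ext (ZMod.val_injective r h)
  · intro n hn
    rw [mem_filter, mem_range] at hn
    refine ⟨ZMod.unitOfCoprime n hn.2, mem_univ _, ?_⟩
    rw [ZMod.coe_unitOfCoprime, ZMod.val_natCast, Nat.mod_eq_of_lt hn.1]
  · intro u _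
    have h1 : (((u : ZMod r).val : ℕ) : ZMod r) = u := ZMod.natCast_zmod_val _
    rw [h1, ZMod.inv_coe_unit]
    have h2 : ((α : ZMod r) * (u : ZMod r) + (β : ZMod r) * ((u⁻¹ : (ZMod r)ˣ) : ZMod r)) =
        (((α * ((u : ZMod r).val : ℤ) + β * ((((u⁻¹ : (ZMod r)ˣ) : ZMod r)).val : ℤ) : ℤ)) :
          ZMod r) := by
      push_cast
      rw [ZMod.natCast_zmod_val, ZMod.natCast_zmod_val]
    rw [h2, ZMod.stdAddChar_coe]
    unfold ee
    congr 1
    push_cast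
    ring

/-- the number of solutions of `b z = 0` -/
theorem card_ann (b : ZMod r) (g : ℕ) (hg : 0 < g) (h : ∀ z : ZMod r, b * z = 0 → (g : ZMod r) * z = 0) :
    (univ.filter (fun z : ZMod r => b * z = 0)).card ≤ g := by
  have h1 := IsAddCyclic.card_nsmul_eq_zero_le (α := ZMod r) hg
  refine le_trans (card_le_card ?_) h1
  intro z hz
  rw [mem_filter] at hz ⊢
  refine ⟨mem_univ _, ?_⟩
  rw [nsmul_eq_mul]
  exact h z hz.2

/-- gcd as a combination -/
theorem gcd_ann (b : ZMod r) (z : ZMod r) (h : b * z = 0) :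
    ((Nat.gcd b.val r : ℕ) : ZMod r) * z = 0 := by
  have h1 := Nat.gcd_eq_gcd_ab b.val r
  have h2 : ((Nat.gcd b.val r : ℕ) : ZMod r) = b * (Nat.gcdA b.val r : ZMod r) := by
    have h3 := congrArg (fun t : ℤ => (t : ZMod r)) h1
    push_cast at h3
    rw [ZMod.natCast_zmod_val, ZMod.natCast_self, zero_mul, add_zero] at h3
    exact h3
  rw [h2, mul_comm b, mul_assoc, h, mul_zero]

theorem gcd_pos (b : ZMod r) : 0 < Nat.gcd b.val r :=
  Nat.gcd_pos_of_pos_right _ (NeZero.pos r)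

/-- number of solutions of `b (c - 2 w) = 0` -/
theorem card_two (b c : ZMod r) :
    (univ.filter (fun w : ZMod r => b * (c - 2 * w) = 0)).card ≤ 2 * Nat.gcd b.val r := by
  have h1 := card_ann b _ (gcd_pos b) (gcd_ann b)
  refine le_trans (card_le_mul_card_image_of_maps_to
    (t := univ.filter (fun z : ZMod r => b * z = 0)) (f := fun w => c - 2 * w) ?_ 2 ?_)
    (Nat.mul_le_mul_left 2 h1)
  · intro w hw
    rw [mem_filter] at hw ⊢
    exact ⟨mem_univ _, hw.2⟩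
  · intro z _
    rcases (filter (fun w => c - 2 * w = z) (univ.filter (fun w : ZMod r => b * (c - 2 * w) = 0))).eq_empty_or_nonempty
      with h0 | ⟨w₀, hw₀⟩
    · rw [h0]; simp
    · have h2 := IsAddCyclic.card_nsmul_eq_zero_le (α := ZMod r) (n := 2) (by norm_num)
      refine le_trans (card_le_card_of_injOn (fun w => w - w₀) ?_ ?_) h2
      · intro w hw
        rw [mem_coe, mem_filter] at hw
        rw [mem_filter] at hw₀
        rw [mem_coe, mem_filter]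
        refine ⟨mem_univ _, ?_⟩
        rw [nsmul_eq_mul]
        push_cast
        have e1 := hw.2
        have e2 := hw₀.2
        linear_combination e2 - e1
      · intro w _ w' _ h
        exact sub_left_injective h

/-- the number of solutions of the system of the fourth moment -/
noncomputable def N4 (r : ℕ) [NeZero r] : ℕ :=
  (univ.filter (fun u : (ZMod r)ˣ × (ZMod r)ˣ × (ZMod r)ˣ × (ZMod r)ˣ =>
    (u.1 : ZMod r) + u.2.1 - u.2.2.1 - u.2.2.2 = 0 ∧
    ((u.1⁻¹ : (ZMod r)ˣ) : ZMod r) + ((u.2.1⁻¹ : (ZMod r)ˣ) : ZMod r) -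
      ((u.2.2.1⁻¹ : (ZMod r)ˣ) : ZMod r) - ((u.2.2.2⁻¹ : (ZMod r)ˣ) : ZMod r) = 0)).card

theorem sum_gcd (r : ℕ) [NeZero r] :
    ∑ s : ZMod r, Nat.gcd s.val r ≤ r * r.divisors.card := by
  have hr : 0 < r := NeZero.pos r
  have h1 : ∀ s : ZMod r, Nat.gcd s.val r ≤ ∑ d ∈ r.divisors, if d ∣ s.val then d else 0 := by
    intro s
    have h2 : Nat.gcd s.val r ∈ r.divisors := by
      rw [Nat.mem_divisors]
      exact ⟨Nat.gcd_dvd_right _ _, hr.ne'⟩
    have h3 := Finset.single_le_sum (f := fun d => if d ∣ s.val then d else 0)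
      (fun d _ => Nat.zero_le _) h2
    simp only [Nat.gcd_dvd_left, if_true] at h3
    exact h3
  calc ∑ s : ZMod r, Nat.gcd s.val r
      ≤ ∑ s : ZMod r, ∑ d ∈ r.divisors, (if d ∣ s.val then d else 0) :=
        Finset.sum_le_sum fun s _ => h1 s
    _ = ∑ d ∈ r.divisors, ∑ s : ZMod r, (if d ∣ s.val then d else 0) := Finset.sum_comm
    _ ≤ ∑ d ∈ r.divisors, r := by
        refine Finset.sum_le_sum fun d hd => ?_
        rw [← Finset.sum_filter, Finset.sum_const, smul_eq_mul]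
        have hd' : d ∣ r := Nat.dvd_of_mem_divisors hd
        obtain ⟨m, hm⟩ := hd'
        have hd0 : 0 < d := Nat.pos_of_mem_divisors hd
        have h4 : (univ.filter (fun s : ZMod r => d ∣ s.val)).card ≤ m := by
          have h5 : (univ.filter (fun s : ZMod r => d ∣ s.val)).card ≤ (range m).card := by
            refine card_le_card_of_injOn (fun s => s.val / d) ?_ ?_
            · intro s _
              rw [mem_coe, mem_range]
              apply Nat.div_lt_of_lt_mul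
              rw [← hm]
              exact ZMod.val_lt s
            · intro s hs s' hs' h
              rw [mem_coe, mem_filter] at hs hs'
              apply ZMod.val_injective r
              have e1 := Nat.div_mul_cancel hs.2
              have e2 := Nat.div_mul_cancel hs'.2
              have h' : s.val / d = s'.val / d := h
              rw [← e1, ← e2, h']
          rwa [card_range] at h5
        calc (univ.filter (fun s : ZMod r => d ∣ s.val)).card * d ≤ m * d :=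
              Nat.mul_le_mul_right _ h4
          _ = r := by rw [hm]; ring
    _ = r * r.divisors.card := by rw [Finset.sum_const, smul_eq_mul, mul_comm]

theorem gcd_mul_le (s y : ZMod r) : Nat.gcd (s * y).val r ≤ Nat.gcd s.val r * Nat.gcd y.val r := by
  have h1 : Nat.gcd (s * y).val r = Nat.gcd (s.val * y.val) r := by
    rw [ZMod.val_mul]
    exact (Nat.gcd_rec r _).symm.trans (Nat.gcd_comm r _)
  rw [h1]
  exact Nat.le_of_dvd (Nat.mul_pos (gcd_pos s) (gcd_pos y)) (Nat.gcd_mul_left_dvd_mul_gcd _ _ _)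

theorem N4_le (r : ℕ) [NeZero r] : N4 r ≤ 2 * r ^ 2 * r.divisors.card ^ 2 := by
  -- injection into the solutions of `s y (s - y - 2 w) = 0`
  have h1 : N4 r ≤ (univ.filter (fun t : ZMod r × ZMod r × ZMod r =>
      (t.1 * t.2.1) * ((t.1 - t.2.1) - 2 * t.2.2) = 0)).card := by
    unfold N4
    refine card_le_card_of_injOn (fun u => ((u.1 : ZMod r) + u.2.1, (u.1 : ZMod r) - u.2.2.1,
      (u.2.2.1 : ZMod r))) ?_ ?_
    · rintro ⟨u1, u2, u3, u4⟩ hu
      rw [mem_coe, mem_filter] at hu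
      obtain ⟨-, e1, e2⟩ := hu
      rw [mem_coe, mem_filter]
      refine ⟨mem_univ _, ?_⟩
      simp only at e1 e2 ⊢
      have i1 : (u1 : ZMod r) * ((u1⁻¹ : (ZMod r)ˣ) : ZMod r) = 1 := Units.mul_inv u1
      have i2 : (u2 : ZMod r) * ((u2⁻¹ : (ZMod r)ˣ) : ZMod r) = 1 := Units.mul_inv u2
      have i3 : (u3 : ZMod r) * ((u3⁻¹ : (ZMod r)ˣ) : ZMod r) = 1 := Units.mul_inv u3
      have i4 : (u4 : ZMod r) * ((u4⁻¹ : (ZMod r)ˣ) : ZMod r) = 1 := Units.mul_inv u4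
      generalize ((u1⁻¹ : (ZMod r)ˣ) : ZMod r) = v1 at *
      generalize ((u2⁻¹ : (ZMod r)ˣ) : ZMod r) = v2 at *
      generalize ((u3⁻¹ : (ZMod r)ˣ) : ZMod r) = v3 at *
      generalize ((u4⁻¹ : (ZMod r)ˣ) : ZMod r) = v4 at *
      generalize (u1 : ZMod r) = x1 at *
      generalize (u2 : ZMod r) = x2 at *
      generalize (u3 : ZMod r) = x3 at *
      generalize (u4 : ZMod r) = x4 at *
      have h4 : x4 = x1 + x2 - x3 := by linear_combination -e1
      -- `(x1 + x2) x3 x4 = (x3 + x4) x1 x2`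
      have h5 : (x1 + x2) * x3 * x4 = (x3 + x4) * x1 * x2 := by
        linear_combination (x1 * x2 * x3 * x4) * e2 - (x2 * x3 * x4) * i1 - (x1 * x3 * x4) * i2 +
          (x1 * x2 * x4) * i3 + (x1 * x2 * x3) * i4
      subst h4
      linear_combination (-1 : ZMod r) * h5
    · rintro ⟨u1, u2, u3, u4⟩ hu ⟨w1, w2, w3, w4⟩ hw he
      rw [mem_coe, mem_filter] at hu hw
      obtain ⟨-, e1, -⟩ := hu
      obtain ⟨-, e2, -⟩ := hw
      simp only [Prod.mk.injEq] at e1 e2 he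
      obtain ⟨a1, a2, a3⟩ := he
      have b1 : (u1 : ZMod r) = w1 := by linear_combination a2 + a3
      have b2 : (u2 : ZMod r) = w2 := by linear_combination a1 - b1
      have b4 : (u4 : ZMod r) = w4 := by linear_combination a1 - a3 - e1 + e2
      rw [Units.ext b1, Units.ext b2, Units.ext a3, Units.ext b4]
  have h2 : (univ.filter (fun t : ZMod r × ZMod r × ZMod r =>
      (t.1 * t.2.1) * ((t.1 - t.2.1) - 2 * t.2.2) = 0)).card ≤
      ∑ s : ZMod r, ∑ y : ZMod r, 2 * (Nat.gcd s.val r * Nat.gcd y.val r) := by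
    rw [Finset.card_filter, Fintype.sum_prod_type]
    refine Finset.sum_le_sum fun s _ => ?_
    rw [Fintype.sum_prod_type]
    refine Finset.sum_le_sum fun y _ => ?_
    rw [← Finset.card_filter]
    exact (card_two (s * y) (s - y)).trans (Nat.mul_le_mul_left 2 (gcd_mul_le s y))
  refine h1.trans (h2.trans ?_)
  have h3 : ∑ s : ZMod r, ∑ y : ZMod r, 2 * (Nat.gcd s.val r * Nat.gcd y.val r) =
      2 * ((∑ s : ZMod r, Nat.gcd s.val r) * (∑ y : ZMod r, Nat.gcd y.val r)) := by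
    rw [Finset.sum_mul_sum, Finset.mul_sum]
    refine Finset.sum_congr rfl fun s _ => ?_
    rw [Finset.mul_sum]
  rw [h3]
  have h4 := sum_gcd r
  calc 2 * ((∑ s : ZMod r, Nat.gcd s.val r) * (∑ y : ZMod r, Nat.gcd y.val r))
      ≤ 2 * ((r * r.divisors.card) * (r * r.divisors.card)) := by gcongr
    _ = 2 * r ^ 2 * r.divisors.card ^ 2 := by ring

/-- the fourth moment -/
theorem moment (r : ℕ) [NeZero r] :
    ∑ p : ZMod r × ZMod r, ‖KK p.1 p.2‖ ^ 4 = (r : ℝ) ^ 2 * N4 r := by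
  classical
  have hψ := ZMod.isPrimitive_stdAddChar r
  set ψ : AddChar (ZMod r) ℂ := ZMod.stdAddChar with hψd
  have hconj : ∀ x : ZMod r, (starRingEnd ℂ) (ψ x) = ψ (-x) := by
    intro x
    rw [AddChar.map_neg_eq_conj]
  have h4 : ∀ z : ℂ, ((‖z‖ ^ 4 : ℝ) : ℂ) = z * z * ((starRingEnd ℂ) z * (starRingEnd ℂ) z) := by
    intro z
    have h5 := Complex.mul_conj z
    have h6 : Complex.normSq z = ‖z‖ ^ 2 := by rw [Complex.normSq_eq_norm_sq]
    rw [h6] at h5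
    calc ((‖z‖ ^ 4 : ℝ) : ℂ) = ((‖z‖ ^ 2 : ℝ) : ℂ) * ((‖z‖ ^ 2 : ℝ) : ℂ) := by push_cast; ring
      _ = (z * (starRingEnd ℂ) z) * (z * (starRingEnd ℂ) z) := by rw [h5]
      _ = _ := by ring
  have hexp : ∀ p : ZMod r × ZMod r, ((‖KK p.1 p.2‖ ^ 4 : ℝ) : ℂ) =
      ∑ u : (ZMod r)ˣ × (ZMod r)ˣ × (ZMod r)ˣ × (ZMod r)ˣ,
        ψ (p.1 * ((u.1 : ZMod r) + u.2.1 - u.2.2.1 - u.2.2.2)) *
        ψ (p.2 * (((u.1⁻¹ : (ZMod r)ˣ) : ZMod r) + ((u.2.1⁻¹ : (ZMod r)ˣ) : ZMod r) -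
          ((u.2.2.1⁻¹ : (ZMod r)ˣ) : ZMod r) - ((u.2.2.2⁻¹ : (ZMod r)ˣ) : ZMod r))) := by
    intro p
    rw [h4]
    unfold KK
    rw [map_sum, Fintype.sum_prod_type, mul_assoc, Finset.sum_mul]
    refine Finset.sum_congr rfl fun u1 _ => ?_
    rw [Fintype.sum_prod_type, Finset.sum_mul, Finset.mul_sum]
    refine Finset.sum_congr rfl fun u2 _ => ?_
    rw [Fintype.sum_prod_type, Finset.sum_mul_sum, Finset.mul_sum, Finset.mul_sum]
    refine Finset.sum_congr rfl fun u3 _ => ?_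
    rw [Finset.mul_sum, Finset.mul_sum]
    refine Finset.sum_congr rfl fun u4 _ => ?_
    rw [hconj, hconj, ← AddChar.map_add_eq_mul, ← AddChar.map_add_eq_mul,
      ← AddChar.map_add_eq_mul, ← AddChar.map_add_eq_mul]
    congr 1
    ring
  have hC : ((∑ p : ZMod r × ZMod r, ‖KK p.1 p.2‖ ^ 4 : ℝ) : ℂ) =
      (((r : ℝ) ^ 2 * N4 r : ℝ) : ℂ) := by
    rw [Complex.ofReal_sum]
    calc ∑ p : ZMod r × ZMod r, ((‖KK p.1 p.2‖ ^ 4 : ℝ) : ℂ)
        = ∑ p : ZMod r × ZMod r, ∑ u : (ZMod r)ˣ × (ZMod r)ˣ × (ZMod r)ˣ × (ZMod r)ˣ,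
        ψ (p.1 * ((u.1 : ZMod r) + u.2.1 - u.2.2.1 - u.2.2.2)) *
        ψ (p.2 * (((u.1⁻¹ : (ZMod r)ˣ) : ZMod r) + ((u.2.1⁻¹ : (ZMod r)ˣ) : ZMod r) -
          ((u.2.2.1⁻¹ : (ZMod r)ˣ) : ZMod r) - ((u.2.2.2⁻¹ : (ZMod r)ˣ) : ZMod r))) :=
          Finset.sum_congr rfl fun p _ => hexp p
      _ = ∑ u : (ZMod r)ˣ × (ZMod r)ˣ × (ZMod r)ˣ × (ZMod r)ˣ, ∑ p : ZMod r × ZMod r,
        ψ (p.1 * ((u.1 : ZMod r) + u.2.1 - u.2.2.1 - u.2.2.2)) *
        ψ (p.2 * (((u.1⁻¹ : (ZMod r)ˣ) : ZMod r) + ((u.2.1⁻¹ : (ZMod r)ˣ) : ZMod r) -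
          ((u.2.2.1⁻¹ : (ZMod r)ˣ) : ZMod r) - ((u.2.2.2⁻¹ : (ZMod r)ˣ) : ZMod r))) :=
          Finset.sum_comm
      _ = ∑ u : (ZMod r)ˣ × (ZMod r)ˣ × (ZMod r)ˣ × (ZMod r)ˣ,
          (if ((u.1 : ZMod r) + u.2.1 - u.2.2.1 - u.2.2.2 = 0 ∧
            ((u.1⁻¹ : (ZMod r)ˣ) : ZMod r) + ((u.2.1⁻¹ : (ZMod r)ˣ) : ZMod r) -
            ((u.2.2.1⁻¹ : (ZMod r)ˣ) : ZMod r) - ((u.2.2.2⁻¹ : (ZMod r)ˣ) : ZMod r) = 0)
            then (r : ℂ) ^ 2 else 0) := by
          refine Finset.sum_congr rfl fun u _ => ?_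
          rw [Fintype.sum_prod_type]
          simp only
          rw [← Finset.sum_mul_sum, AddChar.sum_mulShift _ hψ, AddChar.sum_mulShift _ hψ]
          rw [ZMod.card]
          split_ifs with e1 e2 e3 e4 e5 <;> first | (exfalso; tauto) | (push_cast; ring)
      _ = (((r : ℝ) ^ 2 * N4 r : ℝ) : ℂ) := by
          rw [← Finset.sum_filter, Finset.sum_const, nsmul_eq_mul]
          unfold N4
          push_cast
          ring
  exact_mod_cast hC

/-- invariance -/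
theorem KK_shift (a b : ZMod r) (t : (ZMod r)ˣ) :
    KK (a * (t : ZMod r)) (b * ((t⁻¹ : (ZMod r)ˣ) : ZMod r)) = KK a b := by
  unfold KK
  refine Fintype.sum_equiv (Equiv.mulLeft t) _ _ fun u => ?_
  congr 1
  rw [Equiv.coe_mulLeft, mul_inv]
  push_cast
  ring

theorem fiber (a b : ZMod r) (g : ℕ) (hg : 0 < g)
    (h : ∀ z : ZMod r, a * z = 0 → b * z = 0 → (g : ZMod r) * z = 0) (p : ZMod r × ZMod r) :
    (univ.filter (fun t : (ZMod r)ˣ =>
      (a * (t : ZMod r), b * ((t⁻¹ : (ZMod r)ˣ) : ZMod r)) = p)).card ≤ g := by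
  rcases (univ.filter (fun t : (ZMod r)ˣ =>
      (a * (t : ZMod r), b * ((t⁻¹ : (ZMod r)ˣ) : ZMod r)) = p)).eq_empty_or_nonempty with h0 | ⟨t₀, ht₀⟩
  · rw [h0]; simp
  · rw [mem_filter] at ht₀
    have h2 := IsAddCyclic.card_nsmul_eq_zero_le (α := ZMod r) hg
    refine le_trans (card_le_card_of_injOn (fun t => (t : ZMod r) - t₀) ?_ ?_) h2
    · intro t ht
      rw [mem_coe, mem_filter] at ht
      rw [mem_coe, mem_filter]
      refine ⟨mem_univ _, ?_⟩
      rw [nsmul_eq_mul]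
      have h3 := ht.2.trans ht₀.2.symm
      have e1 : a * (t : ZMod r) = a * t₀ := congrArg Prod.fst h3
      have e2 : b * ((t⁻¹ : (ZMod r)ˣ) : ZMod r) = b * ((t₀⁻¹ : (ZMod r)ˣ) : ZMod r) :=
        congrArg Prod.snd h3
      apply h
      · linear_combination e1
      · have i1 : (t : ZMod r) * ((t⁻¹ : (ZMod r)ˣ) : ZMod r) = 1 := Units.mul_inv t
        have i2 : (t₀ : ZMod r) * ((t₀⁻¹ : (ZMod r)ˣ) : ZMod r) = 1 := Units.mul_inv t₀
        linear_combination (-(t : ZMod r) * t₀) * e2 + (b * t₀) * i1 - (b * t) * i2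
    · intro t _ t' _ he
      exact Units.ext (sub_left_injective he)

theorem bound (a b : ZMod r) (g : ℕ) (hg : 0 < g)
    (h : ∀ z : ZMod r, a * z = 0 → b * z = 0 → (g : ZMod r) * z = 0) :
    ‖KK a b‖ ^ 4 * Nat.totient r ≤ g * ((r : ℝ) ^ 2 * N4 r) := by
  classical
  have h1 : ‖KK a b‖ ^ 4 * Nat.totient r = ∑ t : (ZMod r)ˣ,
      ‖KK (a * (t : ZMod r)) (b * ((t⁻¹ : (ZMod r)ˣ) : ZMod r))‖ ^ 4 := by
    simp only [KK_shift]
    rw [Finset.sum_const, nsmul_eq_mul, card_univ, ZMod.card_units_eq_totient, mul_comm]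
  rw [h1, ← moment, Finset.mul_sum]
  rw [← Finset.sum_fiberwise (s := (univ : Finset (ZMod r)ˣ))
    (g := fun t => (a * (t : ZMod r), b * ((t⁻¹ : (ZMod r)ˣ) : ZMod r)))]
  refine Finset.sum_le_sum fun p _ => ?_
  calc ∑ t ∈ univ.filter (fun t : (ZMod r)ˣ =>
          (a * (t : ZMod r), b * ((t⁻¹ : (ZMod r)ˣ) : ZMod r)) = p),
        ‖KK (a * (t : ZMod r)) (b * ((t⁻¹ : (ZMod r)ˣ) : ZMod r))‖ ^ 4
      = ∑ t ∈ univ.filter (fun t : (ZMod r)ˣ =>
          (a * (t : ZMod r), b * ((t⁻¹ : (ZMod r)ˣ) : ZMod r)) = p),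
        ‖KK p.1 p.2‖ ^ 4 := by
        refine Finset.sum_congr rfl fun t ht => ?_
        rw [mem_filter] at ht
        rw [← ht.2]
    _ = ((univ.filter (fun t : (ZMod r)ˣ =>
      (a * (t : ZMod r), b * ((t⁻¹ : (ZMod r)ˣ) : ZMod r)) = p)).card : ℝ) * ‖KK p.1 p.2‖ ^ 4 := by
        rw [Finset.sum_const, nsmul_eq_mul]
    _ ≤ g * ‖KK p.1 p.2‖ ^ 4 := by
        have h5 := fiber a b g hg h p
        have h6 : ((univ.filter (fun t : (ZMod r)ˣ =>
          (a * (t : ZMod r), b * ((t⁻¹ : (ZMod r)ˣ) : ZMod r)) = p)).card : ℝ) ≤ g := by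
          exact_mod_cast h5
        exact mul_le_mul_of_nonneg_right h6 (by positivity)

end hKB

theorem hKB : StKB := by
  intro r α β hr
  have : NeZero r := ⟨by omega⟩
  rw [hKB.Kl_eq α β]
  set g : ℕ := Int.gcd (Int.gcd α β) r with hg
  have hg0 : 0 < g := by
    rw [hg]
    apply Nat.pos_of_ne_zero
    intro h0
    rw [Int.gcd_eq_zero_iff] at h0
    have := h0.2
    omega
  have hb := hKB.bound (α : ZMod r) (β : ZMod r) g hg0 (by
    intro z h1 h2
    have e1 := Int.gcd_eq_gcd_ab (Int.gcd α β : ℤ) (r : ℤ)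
    have e2 := Int.gcd_eq_gcd_ab α β
    have e3 := congrArg (fun t : ℤ => (t : ZMod r)) e1
    have e4 := congrArg (fun t : ℤ => (t : ZMod r)) e2
    simp only [Int.cast_add, Int.cast_mul, Int.cast_natCast, ZMod.natCast_self, zero_mul,
      add_zero] at e3 e4
    rw [hg, e3, e4]
    linear_combination ((Int.gcdA (Int.gcd α β : ℤ) (r : ℤ) : ℤ) : ZMod r) *
      (((Int.gcdA α β : ℤ) : ZMod r) * h1 + ((Int.gcdB α β : ℤ) : ZMod r) * h2))
  refine hb.trans ?_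
  have h1 := hKB.N4_le r
  have h2 : (hKB.N4 r : ℝ) ≤ 2 * (r : ℝ) ^ 2 * (r.divisors.card : ℝ) ^ 2 := by exact_mod_cast h1
  calc (g : ℝ) * ((r : ℝ) ^ 2 * hKB.N4 r)
      ≤ (g : ℝ) * ((r : ℝ) ^ 2 * (2 * (r : ℝ) ^ 2 * (r.divisors.card : ℝ) ^ 2)) := by gcongr
    _ = 2 * (g : ℝ) * r ^ 4 * (r.divisors.card : ℝ) ^ 2 := by ring

end Pool.Agent.Helper15.AB
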