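import Mathlib
import Pool.Agent.Helper15.AB.StAp

/-!
# Project AB, module KF: a family of Gaussian integers in the residue classes modulo `p`
-/

set_option autoImplicit false

namespace Pool.Agent.Helper15.AB

open Finset

namespace hKF

/-- the properties of one element -/
def Good (p : ℕ) (h : ZMod p × ZMod p) (z : GaussianInt) : Prop :=
  ((z.re : ℤ) : ZMod p) = h.1 ∧ ((z.im : ℤ) : ZMod p) = h.2 ∧ Odd z.norm ∧ 1 < z.norm ∧
    IsCoprime z (star z)

theorem coprime_star (x y : ℤ) (hxy : IsCoprime x y) (hodd : Odd (x ^ 2 + y ^ 2)) :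
    IsCoprime (⟨x, y⟩ : GaussianInt) (star (⟨x, y⟩ : GaussianInt)) := by
  obtain ⟨a, b, hab⟩ := hxy
  obtain ⟨k, hk⟩ := hodd
  refine ⟨⟨x, -y⟩ - (k : GaussianInt) * ⟨a, -b⟩, -((k : GaussianInt) * ⟨a, b⟩), ?_⟩
  have h1 : k * (a * x + b * y) = k := by rw [hab, mul_one]
  refine Zsqrtd.ext ?_ ?_
  · simp only [Zsqrtd.re_add, Zsqrtd.re_mul, Zsqrtd.re_sub, Zsqrtd.im_sub, Zsqrtd.im_mul,
      Zsqrtd.re_intCast, Zsqrtd.im_intCast, Zsqrtd.re_neg, Zsqrtd.im_neg, Zsqrtd.re_star,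
      Zsqrtd.im_star, Zsqrtd.re_one]
    linear_combination hk - 2 * h1
  · simp only [Zsqrtd.im_add, Zsqrtd.re_mul, Zsqrtd.re_sub, Zsqrtd.im_sub, Zsqrtd.im_mul,
      Zsqrtd.re_intCast, Zsqrtd.im_intCast, Zsqrtd.re_neg, Zsqrtd.im_neg, Zsqrtd.re_star,
      Zsqrtd.im_star, Zsqrtd.im_one]
    ring

theorem single (p : ℕ) (hp : p.Prime) (M : ℕ) (hM : 1 ≤ M) (h2M : 2 ∣ M)
    (hMp : Nat.Coprime M p) (h : ZMod p × ZMod p) (hh : h.1 ^ 2 + h.2 ^ 2 ≠ 0) :
    ∃ z : GaussianInt, Good p h z ∧ (M : ℤ) ∣ z.norm - 1 := by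
  have : NeZero p := ⟨hp.ne_zero⟩
  have hM2 : 2 ≤ M := Nat.le_of_dvd (by omega) h2M
  obtain ⟨k, hk1, hk2⟩ := Nat.chineseRemainder hMp.symm h.2.val 0
  obtain ⟨y, hy⟩ : ∃ y, y = k + p * M := ⟨_, rfl⟩
  have hyp : ((y : ℕ) : ZMod p) = h.2 := by
    rw [hy]
    push_cast
    rw [(ZMod.natCast_eq_natCast_iff _ _ _).2 hk1, ZMod.natCast_zmod_val]
    simp
  have hMy : M ∣ y := by
    rw [hy]
    exact (Nat.dvd_add_right ((Nat.modEq_zero_iff_dvd).1 hk2)).2 (Dvd.intro_left _ rfl)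
  have hy2 : 2 ≤ y := by
    rw [hy]
    have : 1 * M ≤ p * M := Nat.mul_le_mul_right M hp.one_le
    omega
  obtain ⟨e, y', hy'1, hy'2⟩ := Nat.exists_eq_pow_mul_and_not_dvd (by omega : y ≠ 0) p hp.ne_one
  have hcp : Nat.Coprime p y' := (Nat.Prime.coprime_iff_not_dvd hp).2 hy'1
  have hMy' : M ∣ y' := by
    have h1 : M ∣ p ^ e * y' := by rw [← hy'2]; exact hMy
    exact (Nat.Coprime.dvd_mul_left (Nat.Coprime.pow_right e hMp)).1 h1
  obtain ⟨x, hx1, hx2⟩ := Nat.chineseRemainder hcp h.1.val 1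
  have hxp : ((x : ℕ) : ZMod p) = h.1 := by
    rw [(ZMod.natCast_eq_natCast_iff _ _ _).2 hx1, ZMod.natCast_zmod_val]
  have hco : Nat.Coprime x y := by
    rw [Nat.coprime_iff_gcd_eq_one]
    by_contra hc
    obtain ⟨l, hl, hld⟩ := Nat.exists_prime_and_dvd hc
    have hlx := hld.trans (Nat.gcd_dvd_left x y)
    have hly := hld.trans (Nat.gcd_dvd_right x y)
    rw [hy'2] at hly
    rcases (Nat.Prime.dvd_mul hl).1 hly with h1 | h1
    · have h3 := (Nat.prime_dvd_prime_iff_eq hl hp).1 (hl.dvd_of_dvd_pow h1)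
      rw [h3] at hlx
      have h4 : p ∣ y := by
        rw [← h3, hy'2]; exact hly
      have h5 : h.1 = 0 := by rw [← hxp]; exact (ZMod.natCast_eq_zero_iff _ _).2 hlx
      have h6 : h.2 = 0 := by rw [← hyp]; exact (ZMod.natCast_eq_zero_iff _ _).2 h4
      exact hh (by rw [h5, h6]; simp)
    · have h3 : x ≡ 1 [MOD l] := hx2.of_dvd h1
      have h4 : x ≡ 0 [MOD l] := (Nat.modEq_zero_iff_dvd).2 hlx
      have h5 : l ∣ 1 := (Nat.modEq_zero_iff_dvd).1 (h3.symm.trans h4)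
      exact hl.one_lt.ne' (Nat.dvd_one.1 h5)
  have hMn : (M : ℤ) ∣ ((x : ℤ) ^ 2 + (y : ℤ) ^ 2) - 1 := by
    have h1 : (M : ℤ) ∣ (x : ℤ) - 1 := by
      have h3 : x ≡ 1 [MOD M] := hx2.of_dvd hMy'
      have h4 := (Nat.modEq_iff_dvd).1 h3.symm
      simpa using h4
    have h2 : (M : ℤ) ∣ (y : ℤ) := Int.natCast_dvd_natCast.2 hMy
    have h3 : ((x : ℤ) ^ 2 + (y : ℤ) ^ 2) - 1 = ((x : ℤ) - 1) * (x + 1) + y * y := by ring
    rw [h3]
    exact dvd_add (h1.mul_right _) (h2.mul_right _)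
  have hodd : Odd ((x : ℤ) ^ 2 + (y : ℤ) ^ 2) := by
    have h1 : (2 : ℤ) ∣ ((x : ℤ) ^ 2 + (y : ℤ) ^ 2) - 1 :=
      (by exact_mod_cast h2M : (2 : ℤ) ∣ (M : ℤ)).trans hMn
    obtain ⟨t, ht⟩ := h1
    exact ⟨t, by linarith⟩
  have hnorm : (⟨(x : ℤ), (y : ℤ)⟩ : GaussianInt).norm = (x : ℤ) ^ 2 + (y : ℤ) ^ 2 := by
    rw [Zsqrtd.norm_def]; ring
  refine ⟨⟨(x : ℤ), (y : ℤ)⟩, ⟨?_, ?_, ?_, ?_, ?_⟩, ?_⟩
  · show (((x : ℤ)) : ZMod p) = h.1
    rw [Int.cast_natCast]; exact hxp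
  · show (((y : ℤ)) : ZMod p) = h.2
    rw [Int.cast_natCast]; exact hyp
  · rw [hnorm]; exact hodd
  · rw [hnorm]
    have h1 : (2 : ℤ) ≤ y := by exact_mod_cast hy2
    nlinarith [sq_nonneg (x : ℤ)]
  · exact coprime_star x y (Nat.isCoprime_iff_coprime.2 hco) hodd
  · rw [hnorm]; exact hMn

theorem norm_ne (p : ℕ) (h : ZMod p × ZMod p) (hh : h.1 ^ 2 + h.2 ^ 2 ≠ 0) (z : GaussianInt)
    (hz : Good p h z) : ¬ (p : ℤ) ∣ z.norm := by
  intro hd
  obtain ⟨h1, h2, -⟩ := hz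
  have h3 := (ZMod.intCast_zmod_eq_zero_iff_dvd z.norm p).2 hd
  rw [Zsqrtd.norm_def] at h3
  push_cast at h3
  rw [h1, h2] at h3
  apply hh
  rw [← h3]; ring

open Classical in
theorem family (p : ℕ) (hp : p.Prime) (hp2 : p ≠ 2) (S : Finset (ZMod p × ZMod p)) :
    ∃ κ : ZMod p × ZMod p → GaussianInt,
      (∀ h ∈ S, h.1 ^ 2 + h.2 ^ 2 ≠ 0 → Good p h (κ h)) ∧
      ∀ h ∈ S, ∀ h' ∈ S, h.1 ^ 2 + h.2 ^ 2 ≠ 0 → h'.1 ^ 2 + h'.2 ^ 2 ≠ 0 → h ≠ h' →
        IsCoprime (κ h).norm (κ h').norm := by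
  induction S using Finset.induction_on with
  | empty => exact ⟨fun _ => 0, by simp, by simp⟩
  | insert a S ha ih =>
    obtain ⟨κ, h1, h2⟩ := ih
    by_cases haa : a.1 ^ 2 + a.2 ^ 2 = 0
    · refine ⟨κ, ?_, ?_⟩
      · intro h hh hn
        rcases mem_insert.1 hh with h3 | h3
        · rw [h3] at hn; exact absurd haa hn
        · exact h1 h h3 hn
      · intro h hh h' hh' hn hn' hne
        rcases mem_insert.1 hh with h3 | h3
        · rw [h3] at hn; exact absurd haa hn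
        rcases mem_insert.1 hh' with h4 | h4
        · rw [h4] at hn'; exact absurd haa hn'
        exact h2 h h3 h' h4 hn hn' hne
    · obtain ⟨T, hT⟩ : ∃ T, T = S.filter (fun h => h.1 ^ 2 + h.2 ^ 2 ≠ 0) := ⟨_, rfl⟩
      obtain ⟨M, hM⟩ : ∃ M, M = 2 * ∏ h ∈ T, (κ h).norm.natAbs := ⟨_, rfl⟩
      have hTm : ∀ h ∈ T, Good p h (κ h) ∧ h.1 ^ 2 + h.2 ^ 2 ≠ 0 := by
        intro h hh
        rw [hT, mem_filter] at hh
        exact ⟨h1 h hh.1 hh.2, hh.2⟩
      have hM1 : 1 ≤ M := by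
        rw [hM]
        have : 0 < ∏ h ∈ T, (κ h).norm.natAbs := by
          refine prod_pos fun h hh => ?_
          have := (hTm h hh).1.2.2.2.1
          omega
        omega
      have hMp : Nat.Coprime M p := by
        rw [hM]
        refine Nat.Coprime.mul_left ?_ (Nat.Coprime.prod_left fun h hh => ?_)
        · exact (Nat.coprime_primes Nat.prime_two hp).2 (Ne.symm hp2)
        · rw [Nat.coprime_comm, Nat.Prime.coprime_iff_not_dvd hp]
          intro hd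
          exact norm_ne p h (hTm h hh).2 _ (hTm h hh).1 (Int.natCast_dvd.2 hd)
      obtain ⟨z, hz1, hz2⟩ := single p hp M hM1 (by rw [hM]; exact Dvd.intro _ rfl) hMp a haa
      have hcop : ∀ h ∈ S, h.1 ^ 2 + h.2 ^ 2 ≠ 0 → IsCoprime z.norm (κ h).norm := by
        intro h hh hn
        have h3 : (κ h).norm ∣ z.norm - 1 := by
          refine dvd_trans ?_ hz2
          rw [hM]
          have h4 : (κ h).norm.natAbs ∣ 2 * ∏ h ∈ T, (κ h).norm.natAbs :=
            (dvd_prod_of_mem (fun h => (κ h).norm.natAbs)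
              (by rw [hT, mem_filter]; exact ⟨hh, hn⟩ : h ∈ T)).mul_left _
          exact Int.natAbs_dvd_natAbs.1 (by rwa [Int.natAbs_natCast])
        obtain ⟨t, ht⟩ := h3
        exact ⟨1, -t, by linarith⟩
      refine ⟨Function.update κ a z, ?_, ?_⟩
      · intro h hh hn
        rcases mem_insert.1 hh with h3 | h3
        · rw [h3, Function.update_self]; exact hz1
        · have h4 : h ≠ a := fun h5 => ha (h5 ▸ h3)
          rw [Function.update_of_ne h4]; exact h1 h h3 hn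
      · intro h hh h' hh' hn hn' hne
        rcases mem_insert.1 hh with h3 | h3
        · rcases mem_insert.1 hh' with h4 | h4
          · exact absurd (h3.trans h4.symm) hne
          · have h5 : h' ≠ a := fun h5 => ha (h5 ▸ h4)
            rw [h3, Function.update_self, Function.update_of_ne h5]
            exact hcop h' h4 hn'
        · have h6 : h ≠ a := fun h5 => ha (h5 ▸ h3)
          rcases mem_insert.1 hh' with h4 | h4
          · rw [h4, Function.update_self, Function.update_of_ne h6]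
            exact (hcop h h3 hn).symm
          · have h5 : h' ≠ a := fun h5 => ha (h5 ▸ h4)
            rw [Function.update_of_ne h5, Function.update_of_ne h6]
            exact h2 h h3 h' h4 hn hn' hne

end hKF

theorem hKF : StKF := by
  intro p hp hp2
  have : NeZero p := ⟨hp.ne_zero⟩
  obtain ⟨κ, h1, h2⟩ := hKF.family p hp hp2 univ
  exact ⟨κ, fun h hh => h1 h (mem_univ _) hh, fun h h' hh hh' hne =>
    h2 h (mem_univ _) h' (mem_univ _) hh hh' hne⟩

end Pool.Agent.Helper15.AB
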