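import Mathlib
import Pool.Agent.Helper15.AB.StKl

/-! AB module LC: the quaternary counting problem, all cases. -/

set_option autoImplicit false

namespace Pool.Agent.Helper15.AB

open Finset

namespace hLC

/-- the involution of coordinates moving coordinate `i` to place `2` -/
def e (i k : Fin 4) : Fin 4 :=
  (![![2, 3, 0, 1], ![3, 2, 1, 0], ![0, 1, 2, 3], ![0, 1, 3, 2]] : Fin 4 → Fin 4 → Fin 4) i k

theorem e_invol : ∀ i k : Fin 4, e i (e i k) = k := by decide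

theorem e_two : ∀ i : Fin 4, e i 2 = i := by decide

/-- a sign -/
def sg (b : Bool) : ℤ := if b then 1 else -1

theorem sg_sq (b : Bool) : sg b * sg b = 1 := by cases b <;> simp [sg]

theorem sg_abs (b : Bool) : |sg b| = 1 := by cases b <;> simp [sg]

/-- permuted and signed vector -/
def g (j : Fin 4 × Bool) (v : Fin 4 → ℤ) : Fin 4 → ℤ := fun k => sg j.2 * v (e j.1 k)

theorem g_invol (j : Fin 4 × Bool) (v : Fin 4 → ℤ) : g j (g j v) = v := by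
  funext k
  unfold g
  rw [e_invol, ← mul_assoc, sg_sq, one_mul]

theorem lin (j : Fin 4 × Bool) (l v : Fin 4 → ℤ) :
    l (e j.1 0) * g j v 0 + l (e j.1 1) * g j v 1 + l (e j.1 2) * g j v 2 +
      l (e j.1 3) * g j v 3 = sg j.2 * (l 0 * v 0 + l 1 * v 1 + l 2 * v 2 + l 3 * v 3) := by
  obtain ⟨i, b⟩ := j
  unfold g
  fin_cases i <;> simp [e] <;> ring

theorem quad (j : Fin 4 × Bool) (v : Fin 4 → ℤ) :
    g j v 0 * g j v 1 + g j v 2 * g j v 3 = v 0 * v 1 + v 2 * v 3 := by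
  obtain ⟨i, b⟩ := j
  have h := sg_sq b
  unfold g
  fin_cases i <;> simp [e] <;> linear_combination (v 0 * v 1 + v 2 * v 3) * h

theorem ncard_bound {ι α : Type} [Fintype ι] (s : Set α) (f : ι → Set α)
    (hf : ∀ i, (f i).Finite) (h : s ⊆ ⋃ i, f i) (B : ℝ) (hB : ∀ i, ((f i).ncard : ℝ) ≤ B) :
    (s.ncard : ℝ) ≤ Fintype.card ι * B := by
  classical
  have h1 : s ⊆ ((univ.biUnion fun i => (hf i).toFinset : Finset α) : Set α) := by
    intro x hx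
    obtain ⟨i, hi⟩ := Set.mem_iUnion.mp (h hx)
    rw [mem_coe, mem_biUnion]
    exact ⟨i, mem_univ _, (hf i).mem_toFinset.mpr hi⟩
  have h2 := Set.ncard_le_ncard h1 (Finset.finite_toSet _)
  rw [Set.ncard_coe_finset] at h2
  have h3 := h2.trans card_biUnion_le
  have h4 : (s.ncard : ℝ) ≤ ∑ i, ((hf i).toFinset.card : ℝ) := by exact_mod_cast h3
  refine h4.trans ?_
  have h5 : ∀ i ∈ (univ : Finset ι), ((hf i).toFinset.card : ℝ) ≤ B := by
    intro i _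
    have := hB i
    rwa [Set.ncard_eq_toFinset_card _ (hf i)] at this
  refine (Finset.sum_le_sum h5).trans ?_
  rw [sum_const, nsmul_eq_mul, Finset.card_univ]

end hLC

open hLC in
theorem hLC (hLC1 : StLC1) : StLC := by
  obtain ⟨C, hC, H⟩ := hLC1
  refine ⟨8 * C, by positivity, ?_⟩
  intro Y a₁ a₂ h l₁ l₂ hY hp₁ hp₂ h₁ h₂ h₁₂ hh hd₁ hd₂ hl₁ hl₂
  set T : Fin 4 → Set (Fin 4 → ℤ) := fun i => {v : Fin 4 → ℤ | 1 ≤ v 2 ∧ v 2 ≤ Y ∧
      (∀ i, |v i| ≤ v 2) ∧ v 0 * v 1 + v 2 * v 3 = h ∧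
      (a₁ : ℤ) ∣ l₁ (e i 0) * v 0 + l₁ (e i 1) * v 1 + l₁ (e i 2) * v 2 + l₁ (e i 3) * v 3 ∧
      (a₂ : ℤ) ∣ l₂ (e i 0) * v 0 + l₂ (e i 1) * v 1 + l₂ (e i 2) * v 2 + l₂ (e i 3) * v 3}
    with hT
  have hTfin : ∀ i, (T i).Finite := by
    intro i
    refine Set.Finite.subset (Set.finite_Icc (fun _ : Fin 4 => (-(Y : ℤ))) (fun _ => (Y : ℤ))) ?_
    intro v hv
    obtain ⟨_, hv2, hv3, _⟩ := hv
    exact ⟨fun k => (abs_le.mp ((hv3 k).trans hv2)).1, fun k => (abs_le.mp ((hv3 k).trans hv2)).2⟩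
  have hTcard : ∀ i, ((T i).ncard : ℝ) ≤ C * ((Y : ℝ) ^ 2 / (a₁ * a₂) *
      ∑ d ∈ h.natAbs.divisors, (1 : ℝ) / d +
      (Y : ℝ) ^ (9 / 5 : ℝ) * (a₁ * a₂ * |(h : ℝ)|) ^ 5) := by
    intro i
    refine H Y a₁ a₂ h (fun k => l₁ (e i k)) (fun k => l₂ (e i k)) hY hp₁ hp₂ h₁ h₂ h₁₂ hh hd₁ hd₂
      ?_ ?_
    · obtain ⟨k, hk⟩ := hl₁
      exact ⟨e i k, by rw [e_invol]; exact hk⟩
    · obtain ⟨k, hk⟩ := hl₂
      exact ⟨e i k, by rw [e_invol]; exact hk⟩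
  have key := ncard_bound
    {v : Fin 4 → ℤ | (∀ i, |v i| ≤ Y) ∧ v 0 * v 1 + v 2 * v 3 = h ∧
      (a₁ : ℤ) ∣ l₁ 0 * v 0 + l₁ 1 * v 1 + l₁ 2 * v 2 + l₁ 3 * v 3 ∧
      (a₂ : ℤ) ∣ l₂ 0 * v 0 + l₂ 1 * v 1 + l₂ 2 * v 2 + l₂ 3 * v 3}
    (fun j : Fin 4 × Bool => g j '' T j.1) (fun j => (hTfin j.1).image _) ?_ _
    (fun j => le_trans (by exact_mod_cast Set.ncard_image_le (hTfin j.1)) (hTcard j.1))
  · refine key.trans (le_of_eq ?_)
    have : (Fintype.card (Fin 4 × Bool) : ℝ) = 8 := by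
      rw [Fintype.card_prod, Fintype.card_fin, Fintype.card_bool]
      norm_num
    rw [this]
    ring
  · rintro v ⟨hv1, hv2, hv3, hv4⟩
    rw [Set.mem_iUnion]
    obtain ⟨i, -, hi⟩ := Finset.exists_max_image (univ : Finset (Fin 4)) (fun i => |v i|)
      ⟨0, mem_univ _⟩
    have hi' : ∀ k, |v k| ≤ |v i| := fun k => hi k (mem_univ _)
    have hpos : v i ≠ 0 := by
      intro h0
      apply hh
      have hz : ∀ k, v k = 0 := by
        intro k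
        have := hi' k
        rw [h0, abs_zero] at this
        exact abs_nonpos_iff.mp this
      rw [← hv2, hz 0, hz 2]
      ring
    obtain ⟨b, hb⟩ : ∃ b : Bool, sg b * v i = |v i| := by
      rcases le_total 0 (v i) with h0 | h0
      · exact ⟨true, by rw [abs_of_nonneg h0]; simp [sg]⟩
      · exact ⟨false, by rw [abs_of_nonpos h0]; simp [sg]⟩
    refine ⟨(i, b), g (i, b) v, ?_, g_invol _ _⟩
    have hg2 : g (i, b) v 2 = |v i| := by
      show sg b * v (e i 2) = |v i|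
      rw [e_two, hb]
    refine ⟨?_, ?_, ?_, ?_, ?_, ?_⟩
    · rw [hg2]
      exact Int.one_le_abs hpos
    · rw [hg2]
      exact hv1 i
    · intro k
      rw [hg2]
      show |sg b * v (e i k)| ≤ |v i|
      rw [abs_mul, sg_abs, one_mul]
      exact hi' _
    · rw [quad]
      exact hv2
    · have := lin (i, b) l₁ v
      show (a₁ : ℤ) ∣ l₁ (e i 0) * g (i, b) v 0 + l₁ (e i 1) * g (i, b) v 1 +
        l₁ (e i 2) * g (i, b) v 2 + l₁ (e i 3) * g (i, b) v 3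
      rw [this]
      exact Dvd.dvd.mul_left hv3 _
    · have := lin (i, b) l₂ v
      show (a₂ : ℤ) ∣ l₂ (e i 0) * g (i, b) v 0 + l₂ (e i 1) * g (i, b) v 1 +
        l₂ (e i 2) * g (i, b) v 2 + l₂ (e i 3) * g (i, b) v 3
      rw [this]
      exact Dvd.dvd.mul_left hv4 _

end Pool.Agent.Helper15.AB
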