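import Mathlib
import Pool.Agent.Helper15.AB.StMid
import Pool.Agent.Helper15.AB.StKl

/-!
# Project AB, module LC1: the quaternary counting problem, third coordinate maximal
-/

set_option autoImplicit false

namespace Pool.Agent.Helper15.AB

open Finset

namespace LC1m

theorem card_cong (M Y : ℕ) (hM : 1 ≤ M) (F : Finset ℕ) (hF : ∀ a ∈ F, a ≤ Y)
    (hd : ∀ a ∈ F, ∀ b ∈ F, (M : ℤ) ∣ (a : ℤ) - b) : (F.card : ℝ) ≤ (Y : ℝ) / M + 1 := by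
  have h1 : F.card ≤ (range (Y / M + 1)).card := by
    refine card_le_card_of_injOn (fun a => a / M) ?_ ?_
    · intro a ha
      have := Nat.div_le_div_right (c := M) (hF a (mem_coe.1 ha))
      simp only [coe_range, Set.mem_Iio]
      omega
    · intro a ha b hb hab
      simp only at hab
      have h2 : (a : ℤ) ≡ b [ZMOD M] := (Int.modEq_iff_dvd.2 (hd b (mem_coe.1 hb) a (mem_coe.1 ha)))
      have h3 : a ≡ b [MOD M] := (Int.natCast_modEq_iff).1 h2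
      have h4 : a % M = b % M := h3
      rw [← Nat.div_add_mod a M, ← Nat.div_add_mod b M, hab, h4]
  rw [card_range] at h1
  have h2 : ((Y / M : ℕ) : ℝ) ≤ (Y : ℝ) / M := Nat.cast_div_le
  have h3 : (F.card : ℝ) ≤ ((Y / M + 1 : ℕ) : ℝ) := by exact_mod_cast h1
  push_cast at h3
  linarith

/-- reduction of the coordinates -/
def red (m : ℕ) (v : Fin 4 → ℤ) : Fin 4 → ℕ := fun i => (v i % m).toNat

theorem red_modEq (m : ℕ) (hm : 1 ≤ m) (v : Fin 4 → ℤ) (i : Fin 4) :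
    ((red m v i : ℕ) : ℤ) ≡ v i [ZMOD m] := by
  unfold red
  rw [Int.toNat_of_nonneg (Int.emod_nonneg _ (by omega))]
  exact Int.mod_modEq _ _

/-- the solutions modulo `m` -/
def W (m : ℕ) (l : Fin 4 → ℤ) (h : ℤ) : Finset (Fin 4 → ℕ) :=
  (Fintype.piFinset (fun _ : Fin 4 => range m)).filter (fun v : Fin 4 → ℕ =>
      (m : ℤ) ∣ (v 0 : ℤ) * v 1 + (v 2 : ℤ) * v 3 - h ∧
      (m : ℤ) ∣ l 0 * v 0 + l 1 * v 1 + l 2 * v 2 + l 3 * v 3)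

theorem red_mem (m : ℕ) (hm : 1 ≤ m) (l : Fin 4 → ℤ) (h : ℤ) (v : Fin 4 → ℤ)
    (h1 : v 0 * v 1 + v 2 * v 3 = h)
    (h2 : (m : ℤ) ∣ l 0 * v 0 + l 1 * v 1 + l 2 * v 2 + l 3 * v 3) : red m v ∈ W m l h := by
  have e := red_modEq m hm v
  unfold W
  rw [mem_filter, Fintype.mem_piFinset]
  refine ⟨fun i => ?_, ?_, ?_⟩
  · rw [mem_range]
    unfold red
    have a1 := Int.emod_nonneg (v i) (show (m : ℤ) ≠ 0 by omega)
    have a2 := Int.emod_lt_of_pos (v i) (show (0 : ℤ) < m by omega)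
    omega
  · apply Int.modEq_zero_iff_dvd.1
    have h3 : ((red m v 0 : ℕ) : ℤ) * (red m v 1 : ℕ) + ((red m v 2 : ℕ) : ℤ) * (red m v 3 : ℕ) - h ≡
        v 0 * v 1 + v 2 * v 3 - h [ZMOD m] :=
      (((e 0).mul (e 1)).add ((e 2).mul (e 3))).sub_right h
    rw [h1, sub_self] at h3
    exact h3
  · apply Int.modEq_zero_iff_dvd.1
    have h3 : l 0 * (red m v 0 : ℕ) + l 1 * (red m v 1 : ℕ) + l 2 * (red m v 2 : ℕ) +
        l 3 * (red m v 3 : ℕ) ≡ l 0 * v 0 + l 1 * v 1 + l 2 * v 2 + l 3 * v 3 [ZMOD m] :=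
      ((((e 0).mul_left _).add ((e 1).mul_left _)).add ((e 2).mul_left _)).add ((e 3).mul_left _)
    exact h3.trans (Int.modEq_zero_iff_dvd.2 h2)

theorem W_one (l : Fin 4 → ℤ) (h : ℤ) : (W 1 l h).card ≤ 2 * 1 ^ 2 := by
  unfold W
  refine (card_filter_le _ _).trans ?_
  rw [Fintype.card_piFinset]
  simp

theorem red_eq_dvd (m : ℕ) (hm : 1 ≤ m) (v w : Fin 4 → ℤ) (i : Fin 4)
    (h : red m v = red m w) : (m : ℤ) ∣ v i - w i := by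
  have h1 := red_modEq m hm v i
  have h2 := red_modEq m hm w i
  rw [h] at h1
  exact (h2.symm.trans h1).dvd

/-- the fibre bound -/
theorem fibre (C : ℝ) (hC : 0 < C)
    (hFJ : ∀ (m R : ℕ) (h P₀ Q₀ : ℤ), 1 ≤ m → 1 ≤ R → Nat.Coprime m R → h ≠ 0 →
      (Set.ncard {v : ℤ × ℤ | |v.1| ≤ R ∧ |v.2| ≤ R ∧ (m : ℤ) ∣ v.1 - P₀ ∧ (m : ℤ) ∣ v.2 - Q₀ ∧
        (R : ℤ) ∣ v.1 * v.2 - h} : ℝ) ≤
      C * ((R : ℝ) * ((R.divisors.filter (fun d : ℕ => (d : ℤ) ∣ h)).card : ℝ) / (m : ℝ) ^ 2 +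
        |(h : ℝ)| ^ 3 * m * (R : ℝ) ^ (4 / 5 : ℝ)))
    (m₁ m₂ R : ℕ) (h : ℤ) (hm₁ : 1 ≤ m₁) (hm₂ : 1 ≤ m₂) (hR : 1 ≤ R) (hcop : Nat.Coprime m₁ m₂)
    (hmR : Nat.Coprime (m₁ * m₂) R) (hh : h ≠ 0) (w₁ w₂ : Fin 4 → ℕ)
    (G : Finset (Fin 4 → ℤ)) (hG : ∀ v ∈ G, v 2 = R ∧ (∀ i, |v i| ≤ v 2) ∧
      v 0 * v 1 + v 2 * v 3 = h ∧ red m₁ v = w₁ ∧ red m₂ v = w₂) :
    (G.card : ℝ) ≤ C * ((R : ℝ) * ((R.divisors.filter (fun d : ℕ => (d : ℤ) ∣ h)).card : ℝ) /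
      ((m₁ * m₂ : ℕ) : ℝ) ^ 2 + |(h : ℝ)| ^ 3 * ((m₁ * m₂ : ℕ) : ℝ) * (R : ℝ) ^ (4 / 5 : ℝ)) := by
  rcases G.eq_empty_or_nonempty with hE | ⟨v₀, hv₀⟩
  · rw [hE, card_empty, Nat.cast_zero]
    positivity
  obtain ⟨a1, a2, a3, a4, a5⟩ := hG v₀ hv₀
  refine le_trans ?_ (hFJ (m₁ * m₂) R h (v₀ 0) (v₀ 1) (Nat.mul_pos hm₁ hm₂) hR hmR hh)
  set T : Set (ℤ × ℤ) := {v : ℤ × ℤ | |v.1| ≤ R ∧ |v.2| ≤ R ∧
    ((m₁ * m₂ : ℕ) : ℤ) ∣ v.1 - v₀ 0 ∧ ((m₁ * m₂ : ℕ) : ℤ) ∣ v.2 - v₀ 1 ∧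
        (R : ℤ) ∣ v.1 * v.2 - h} with hT
  have hTf : T.Finite := by
    refine (((Set.finite_Icc (-(R : ℤ)) R)).prod (Set.finite_Icc (-(R : ℤ)) R)).subset ?_
    rintro ⟨x, y⟩ ⟨h1, h2, -⟩
    exact ⟨abs_le.1 h1, abs_le.1 h2⟩
  have hcop' : IsCoprime (m₁ : ℤ) (m₂ : ℤ) := Nat.isCoprime_iff_coprime.2 hcop
  have key : (G : Set (Fin 4 → ℤ)).ncard ≤ T.ncard := by
    refine Set.ncard_le_ncard_of_injOn (fun v => (v 0, v 1)) ?_ ?_ hTf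
    · intro v hv
      obtain ⟨b1, b2, b3, b4, b5⟩ := hG v (mem_coe.1 hv)
      refine ⟨?_, ?_, ?_, ?_, ?_⟩
      · rw [← b1]; exact b2 0
      · rw [← b1]; exact b2 1
      · push_cast
        exact hcop'.mul_dvd (red_eq_dvd m₁ hm₁ v v₀ 0 (b4.trans a4.symm))
          (red_eq_dvd m₂ hm₂ v v₀ 0 (b5.trans a5.symm))
      · push_cast
        exact hcop'.mul_dvd (red_eq_dvd m₁ hm₁ v v₀ 1 (b4.trans a4.symm))
          (red_eq_dvd m₂ hm₂ v v₀ 1 (b5.trans a5.symm))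
      · refine ⟨- v 3, ?_⟩
        rw [← b3, b1]; ring
    · intro v hv w hw hvw
      obtain ⟨b1, b2, b3, b4, b5⟩ := hG v (mem_coe.1 hv)
      obtain ⟨c1, c2, c3, c4, c5⟩ := hG w (mem_coe.1 hw)
      simp only [Prod.mk.injEq] at hvw
      have hR0 : (R : ℤ) ≠ 0 := by omega
      have h3 : v 3 = w 3 := by
        apply mul_left_cancel₀ hR0
        rw [b1, hvw.1, hvw.2] at b3
        rw [c1] at c3
        linarith
      funext i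
      fin_cases i
      · exact hvw.1
      · exact hvw.2
      · exact b1.trans c1.symm
      · exact h3
  rw [Set.ncard_coe_finset] at key
  exact_mod_cast key

/-- the bound for one type -/
theorem type_bound (C : ℝ) (hC : 0 < C)
    (hFJ : ∀ (m R : ℕ) (h P₀ Q₀ : ℤ), 1 ≤ m → 1 ≤ R → Nat.Coprime m R → h ≠ 0 →
      (Set.ncard {v : ℤ × ℤ | |v.1| ≤ R ∧ |v.2| ≤ R ∧ (m : ℤ) ∣ v.1 - P₀ ∧ (m : ℤ) ∣ v.2 - Q₀ ∧
        (R : ℤ) ∣ v.1 * v.2 - h} : ℝ) ≤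
      C * ((R : ℝ) * ((R.divisors.filter (fun d : ℕ => (d : ℤ) ∣ h)).card : ℝ) / (m : ℝ) ^ 2 +
        |(h : ℝ)| ^ 3 * m * (R : ℝ) ^ (4 / 5 : ℝ)))
    (Y m₁ m₂ k : ℕ) (h : ℤ) (l₁ l₂ : Fin 4 → ℤ) (hY : 1 ≤ Y) (hm₁ : 1 ≤ m₁) (hm₂ : 1 ≤ m₂)
    (hk : 1 ≤ k) (hcop : Nat.Coprime m₁ m₂) (hkm : Nat.Coprime k (m₁ * m₂)) (hh : h ≠ 0)
    (hdk : ∀ d ∈ h.natAbs.divisors, Nat.Coprime k d ∧ Nat.Coprime d (m₁ * m₂))
    (hW₁ : (W m₁ l₁ h).card ≤ 2 * m₁ ^ 2) (hW₂ : (W m₂ l₂ h).card ≤ 2 * m₂ ^ 2)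
    (F : Finset (Fin 4 → ℤ)) (hF : ∀ v ∈ F, 1 ≤ v 2 ∧ v 2 ≤ Y ∧ (∀ i, |v i| ≤ v 2) ∧
      v 0 * v 1 + v 2 * v 3 = h ∧
      (m₁ : ℤ) ∣ l₁ 0 * v 0 + l₁ 1 * v 1 + l₁ 2 * v 2 + l₁ 3 * v 3 ∧
      (m₂ : ℤ) ∣ l₂ 0 * v 0 + l₂ 1 * v 1 + l₂ 2 * v 2 + l₂ 3 * v 3 ∧
      (k : ℤ) ∣ v 2 ∧ IsCoprime ((m₁ * m₂ : ℕ) : ℤ) (v 2)) :
    (F.card : ℝ) ≤ C * (4 * ((Y : ℝ) ^ 2 / ((m₁ * m₂ * k : ℕ) : ℝ) *
        ∑ d ∈ h.natAbs.divisors, (1 : ℝ) / d + Y * (h.natAbs.divisors.card : ℝ)) +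
      4 * ((m₁ * m₂ : ℕ) : ℝ) ^ 3 * |(h : ℝ)| ^ 3 * (Y : ℝ) ^ (9 / 5 : ℝ)) := by
  classical
  set m := m₁ * m₂ with hm
  have hm0 : 1 ≤ m := Nat.mul_pos hm₁ hm₂
  have hmr : (0 : ℝ) < m := by exact_mod_cast hm0
  have hkr : (0 : ℝ) < k := by exact_mod_cast hk
  have hYr : (1 : ℝ) ≤ Y := by exact_mod_cast hY
  -- the third coordinates
  let Rs : (Fin 4 → ℕ) × (Fin 4 → ℕ) → Finset ℕ := fun w => (Icc 1 Y).filter fun R =>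
    k ∣ R ∧ Nat.Coprime m R ∧ (R : ℤ) ≡ (w.1 2 : ℕ) [ZMOD m₁] ∧ (R : ℤ) ≡ (w.2 2 : ℕ) [ZMOD m₂]
  set B : ℕ → ℝ := fun R => C * ((R : ℝ) *
    ((R.divisors.filter (fun d : ℕ => (d : ℤ) ∣ h)).card : ℝ) / (m : ℝ) ^ 2 +
      |(h : ℝ)| ^ 3 * m * (R : ℝ) ^ (4 / 5 : ℝ)) with hB
  -- for fixed residues
  have hw : ∀ w ∈ W m₁ l₁ h ×ˢ W m₂ l₂ h,
      ((F.filter fun v => (red m₁ v, red m₂ v) = w).card : ℝ) ≤ ∑ R ∈ Rs w, B R := by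
    intro w _
    have hmap : ∀ v ∈ F.filter (fun v => (red m₁ v, red m₂ v) = w), (v 2).toNat ∈ Rs w := by
      intro v hv
      obtain ⟨hvF, hvw⟩ := mem_filter.1 hv
      obtain ⟨b1, b2, b3, b4, b5, b6, b7, b8⟩ := hF v hvF
      have hc : (((v 2).toNat : ℕ) : ℤ) = v 2 := Int.toNat_of_nonneg (by omega)
      refine mem_filter.2 ⟨mem_Icc.2 ⟨by omega, by omega⟩, ?_, ?_, ?_, ?_⟩
      · rw [← hc] at b7; exact_mod_cast b7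
      · rw [← hc] at b8; exact Nat.isCoprime_iff_coprime.1 b8
      · rw [hc, ← hvw]; exact (red_modEq m₁ hm₁ v 2).symm
      · rw [hc, ← hvw]; exact (red_modEq m₂ hm₂ v 2).symm
    rw [card_eq_sum_card_fiberwise hmap]
    push_cast
    refine sum_le_sum fun R hR => ?_
    obtain ⟨hR1, hR2, hR3, hR4, hR5⟩ := mem_filter.1 hR
    refine fibre C hC hFJ m₁ m₂ R h hm₁ hm₂ (mem_Icc.1 hR1).1 hcop hR3 hh w.1 w.2 _ ?_
    intro v hv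
    obtain ⟨hv1, hv2⟩ := mem_filter.1 hv
    obtain ⟨hvF, hvw⟩ := mem_filter.1 hv1
    obtain ⟨b1, b2, b3, b4, b5, b6, b7, b8⟩ := hF v hvF
    have hc : (((v 2).toNat : ℕ) : ℤ) = v 2 := Int.toNat_of_nonneg (by omega)
    exact ⟨by rw [← hc, hv2], b3, b4, by rw [← hvw], by rw [← hvw]⟩
  -- the sum over the third coordinates
  have hsum : ∀ w, ∑ R ∈ Rs w, B R ≤ C * ((Y : ℝ) / (m : ℝ) ^ 2 *
      ∑ d ∈ h.natAbs.divisors, ((Y : ℝ) / (k * d * m) + 1) +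
        Y * (|(h : ℝ)| ^ 3 * m * (Y : ℝ) ^ (4 / 5 : ℝ))) := by
    intro w
    have hRY : ∀ R ∈ Rs w, R ≤ Y ∧ 1 ≤ R := fun R hR =>
      ⟨(mem_Icc.1 (mem_filter.1 hR).1).2, (mem_Icc.1 (mem_filter.1 hR).1).1⟩
    have h1 : ∑ R ∈ Rs w, B R ≤ ∑ R ∈ Rs w, C * ((Y : ℝ) / (m : ℝ) ^ 2 *
        ((R.divisors.filter (fun d : ℕ => (d : ℤ) ∣ h)).card : ℝ) +
          |(h : ℝ)| ^ 3 * m * (Y : ℝ) ^ (4 / 5 : ℝ)) := by
      refine sum_le_sum fun R hR => ?_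
      have hRr : (R : ℝ) ≤ Y := by exact_mod_cast (hRY R hR).1
      simp only [hB]
      refine mul_le_mul_of_nonneg_left (add_le_add ?_ ?_) hC.le
      · rw [mul_div_right_comm]
        gcongr
      · gcongr
    refine h1.trans ?_
    rw [← mul_sum, sum_add_distrib, ← mul_sum, sum_const, nsmul_eq_mul]
    refine mul_le_mul_of_nonneg_left (add_le_add ?_ ?_) hC.le
    · refine mul_le_mul_of_nonneg_left ?_ (by positivity)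
      have h2 : ∀ R ∈ Rs w, (R.divisors.filter (fun d : ℕ => (d : ℤ) ∣ h)).card =
          ∑ d ∈ h.natAbs.divisors, if d ∣ R then 1 else 0 := by
        intro R hR
        rw [← card_filter]
        congr 1
        ext d
        simp only [mem_filter, Nat.mem_divisors]
        have hR1 := (hRY R hR).2
        constructor
        · rintro ⟨⟨c1, c2⟩, c3⟩
          exact ⟨⟨Int.natCast_dvd.1 c3, Int.natAbs_ne_zero.2 hh⟩, c1⟩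
        · rintro ⟨⟨c1, c2⟩, c3⟩
          exact ⟨⟨c3, by omega⟩, Int.natCast_dvd.2 c1⟩
      have h3 : ∑ R ∈ Rs w, ((R.divisors.filter (fun d : ℕ => (d : ℤ) ∣ h)).card : ℝ) =
          ∑ d ∈ h.natAbs.divisors, (((Rs w).filter fun R => d ∣ R).card : ℝ) := by
        rw [sum_congr rfl fun R hR => by rw [h2 R hR]]
        push_cast
        rw [sum_comm]
        refine sum_congr rfl fun d _ => ?_
        rw [card_filter]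
        push_cast
        rfl
      rw [h3]
      refine sum_le_sum fun d hd => ?_
      obtain ⟨hkd, hdm⟩ := hdk d hd
      have hd1 : 1 ≤ d := Nat.pos_of_mem_divisors hd
      have h4 := card_cong (k * d * m) Y (Nat.mul_pos (Nat.mul_pos hk hd1) hm0)
        ((Rs w).filter fun R => d ∣ R) (fun R hR => (hRY R (mem_filter.1 hR).1).1) ?_
      · push_cast at h4 ⊢
        exact h4
      · intro a ha b hb
        obtain ⟨ha1, ha2⟩ := mem_filter.1 ha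
        obtain ⟨hb1, hb2⟩ := mem_filter.1 hb
        obtain ⟨-, ha3, -, ha4, ha5⟩ := mem_filter.1 ha1
        obtain ⟨-, hb3, -, hb4, hb5⟩ := mem_filter.1 hb1
        have e1 : (m₁ : ℤ) ∣ (a : ℤ) - b := (hb4.trans ha4.symm).dvd
        have e2 : (m₂ : ℤ) ∣ (a : ℤ) - b := (hb5.trans ha5.symm).dvd
        have e3 : (m : ℤ) ∣ (a : ℤ) - b := by
          rw [hm]; push_cast
          exact (Nat.isCoprime_iff_coprime.2 hcop).mul_dvd e1 e2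
        have e4 : ((k * d : ℕ) : ℤ) ∣ (a : ℤ) - b := by
          refine dvd_sub ?_ ?_
          · exact_mod_cast hkd.mul_dvd_of_dvd_of_dvd ha3 ha2
          · exact_mod_cast hkd.mul_dvd_of_dvd_of_dvd hb3 hb2
        have e5 : IsCoprime ((k * d : ℕ) : ℤ) (m : ℤ) :=
          Nat.isCoprime_iff_coprime.2 (Nat.Coprime.mul_left hkm hdm)
        have := e5.mul_dvd e4 e3
        exact_mod_cast this
    · have h5 : (Rs w).card ≤ Y := by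
        calc (Rs w).card ≤ (Icc 1 Y).card := card_filter_le _ _
          _ = Y := by rw [Nat.card_Icc]; omega
      have h6 : ((Rs w).card : ℝ) ≤ Y := by exact_mod_cast h5
      exact mul_le_mul_of_nonneg_right h6 (by positivity)
  -- all residues
  have hmapW : ∀ v ∈ F, (red m₁ v, red m₂ v) ∈ W m₁ l₁ h ×ˢ W m₂ l₂ h := by
    intro v hv
    obtain ⟨b1, b2, b3, b4, b5, b6, b7, b8⟩ := hF v hv
    exact mem_product.2 ⟨red_mem m₁ hm₁ l₁ h v b4 b5, red_mem m₂ hm₂ l₂ h v b4 b6⟩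
  have hcardW : ((W m₁ l₁ h ×ˢ W m₂ l₂ h).card : ℝ) ≤ 4 * (m : ℝ) ^ 2 := by
    rw [card_product]
    have h1 : (W m₁ l₁ h).card * (W m₂ l₂ h).card ≤ 4 * m ^ 2 := by
      calc (W m₁ l₁ h).card * (W m₂ l₂ h).card ≤ (2 * m₁ ^ 2) * (2 * m₂ ^ 2) :=
            Nat.mul_le_mul hW₁ hW₂
        _ = 4 * m ^ 2 := by rw [hm]; ring
    exact_mod_cast h1
  set U : ℝ := C * ((Y : ℝ) / (m : ℝ) ^ 2 *
      ∑ d ∈ h.natAbs.divisors, ((Y : ℝ) / (k * d * m) + 1) +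
        Y * (|(h : ℝ)| ^ 3 * m * (Y : ℝ) ^ (4 / 5 : ℝ))) with hU
  have hU0 : 0 ≤ U := by
    rw [hU]
    have : 0 ≤ ∑ d ∈ h.natAbs.divisors, ((Y : ℝ) / (k * d * m) + 1) :=
      sum_nonneg fun d _ => by positivity
    positivity
  have hfin : (F.card : ℝ) ≤ 4 * (m : ℝ) ^ 2 * U := by
    rw [card_eq_sum_card_fiberwise hmapW]
    push_cast
    calc ∑ w ∈ W m₁ l₁ h ×ˢ W m₂ l₂ h,
          ((F.filter fun v => (red m₁ v, red m₂ v) = w).card : ℝ)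
        ≤ ∑ _w ∈ W m₁ l₁ h ×ˢ W m₂ l₂ h, U :=
          sum_le_sum fun w hw' => (hw w hw').trans (hsum w)
      _ = ((W m₁ l₁ h ×ˢ W m₂ l₂ h).card : ℝ) * U := by rw [sum_const, nsmul_eq_mul]
      _ ≤ 4 * (m : ℝ) ^ 2 * U := mul_le_mul_of_nonneg_right hcardW hU0
  refine hfin.trans (le_of_eq ?_)
  have hpow : (Y : ℝ) * (Y : ℝ) ^ (4 / 5 : ℝ) = (Y : ℝ) ^ (9 / 5 : ℝ) := by
    rw [← Real.rpow_one_add' (by positivity) (by norm_num)]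
    norm_num
  have hsplit : ∑ d ∈ h.natAbs.divisors, ((Y : ℝ) / (k * d * m) + 1) =
      (Y : ℝ) / (k * m) * ∑ d ∈ h.natAbs.divisors, (1 : ℝ) / d + (h.natAbs.divisors.card : ℝ) := by
    rw [sum_add_distrib, mul_sum]
    congr 1
    · refine sum_congr rfl fun d hd => ?_
      have hd1 : (0 : ℝ) < d := by exact_mod_cast Nat.pos_of_mem_divisors hd
      field_simp
    · simp
  rw [hU, hsplit, ← hpow]
  push_cast
  field_simp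

end LC1m

open LC1m in
theorem hLC1 (hFJ : StFJ) (hSZ : StSZ) : StLC1 := by
  classical
  obtain ⟨C, hC, hFJ⟩ := hFJ
  refine ⟨32 * C, by positivity, ?_⟩
  intro Y a₁ a₂ h l₁ l₂ hY hp₁ hp₂ h2₁ h2₂ hne hh hh₁ hh₂ hl₁ hl₂
  have hYr : (1 : ℝ) ≤ Y := by exact_mod_cast hY
  set S : Set (Fin 4 → ℤ) := {v : Fin 4 → ℤ | 1 ≤ v 2 ∧ v 2 ≤ Y ∧ (∀ i, |v i| ≤ v 2) ∧
      v 0 * v 1 + v 2 * v 3 = h ∧
      (a₁ : ℤ) ∣ l₁ 0 * v 0 + l₁ 1 * v 1 + l₁ 2 * v 2 + l₁ 3 * v 3 ∧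
      (a₂ : ℤ) ∣ l₂ 0 * v 0 + l₂ 1 * v 1 + l₂ 2 * v 2 + l₂ 3 * v 3} with hS
  have hSf : S.Finite := by
    refine (Set.Finite.pi' (t := fun _ : Fin 4 => Set.Icc (-(Y : ℤ)) Y)
      fun _ => Set.finite_Icc _ _).subset ?_
    rintro v ⟨h1, h2, h3, -⟩ i
    exact abs_le.1 ((h3 i).trans h2)
  set F := hSf.toFinset with hFd
  have hcardF : S.ncard = F.card := Set.ncard_eq_toFinset_card S hSf
  rw [hcardF]
  have hcop12 : Nat.Coprime a₁ a₂ := (Nat.coprime_primes hp₁ hp₂).2 hne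
  have hdiv : ∀ d ∈ h.natAbs.divisors, Nat.Coprime a₁ d ∧ Nat.Coprime a₂ d := by
    intro d hd
    have h1 : d ∣ h.natAbs := Nat.dvd_of_mem_divisors hd
    refine ⟨(Nat.Prime.coprime_iff_not_dvd hp₁).2 fun h2 => hh₁ ?_,
      (Nat.Prime.coprime_iff_not_dvd hp₂).2 fun h2 => hh₂ ?_⟩
    · exact Int.natCast_dvd.2 (h2.trans h1)
    · exact Int.natCast_dvd.2 (h2.trans h1)
  have hA₁ : (W a₁ l₁ h).card ≤ 2 * a₁ ^ 2 := hSZ a₁ l₁ h hp₁ h2₁ hl₁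
  have hA₂ : (W a₂ l₂ h).card ≤ 2 * a₂ ^ 2 := hSZ a₂ l₂ h hp₂ h2₂ hl₂
  have hcopv : ∀ (a : ℕ) (x : ℤ), a.Prime → ¬ (a : ℤ) ∣ x → IsCoprime (a : ℤ) x := by
    intro a x ha hx
    exact (Nat.prime_iff_prime_int.1 ha).coprime_iff_not_dvd.2 hx
  set E₁ : ℝ := (Y : ℝ) ^ 2 / (a₁ * a₂) * ∑ d ∈ h.natAbs.divisors, (1 : ℝ) / d with hE₁
  set E₂ : ℝ := (Y : ℝ) ^ (9 / 5 : ℝ) * (a₁ * a₂ * |(h : ℝ)|) ^ 5 with hE₂
  have ha₁r : (1 : ℝ) ≤ a₁ := by exact_mod_cast hp₁.one_le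
  have ha₂r : (1 : ℝ) ≤ a₂ := by exact_mod_cast hp₂.one_le
  have hhr : (1 : ℝ) ≤ |(h : ℝ)| := by
    have : 1 ≤ |h| := Int.one_le_abs hh
    exact_mod_cast this
  -- common estimate
  have hcommon : ∀ m k : ℕ, 1 ≤ m → m ≤ a₁ * a₂ → m * k = a₁ * a₂ →
      C * (4 * ((Y : ℝ) ^ 2 / ((m * k : ℕ) : ℝ) *
        ∑ d ∈ h.natAbs.divisors, (1 : ℝ) / d + Y * (h.natAbs.divisors.card : ℝ)) +
      4 * ((m : ℕ) : ℝ) ^ 3 * |(h : ℝ)| ^ 3 * (Y : ℝ) ^ (9 / 5 : ℝ)) ≤ C * (4 * E₁ + 8 * E₂) := by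
    intro m k hm1 hm hmk
    rw [hmk]
    push_cast
    refine mul_le_mul_of_nonneg_left ?_ hC.le
    have hY95 : (Y : ℝ) ≤ (Y : ℝ) ^ (9 / 5 : ℝ) := by
      calc (Y : ℝ) = (Y : ℝ) ^ (1 : ℝ) := (Real.rpow_one _).symm
        _ ≤ (Y : ℝ) ^ (9 / 5 : ℝ) := Real.rpow_le_rpow_of_exponent_le hYr (by norm_num)
    have hcard : (h.natAbs.divisors.card : ℝ) ≤ |(h : ℝ)| := by
      have h1 : h.natAbs.divisors.card ≤ h.natAbs := Nat.card_divisors_le_self _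
      have h2 : ((h.natAbs : ℕ) : ℝ) = |(h : ℝ)| := by
        rw [Nat.cast_natAbs]; push_cast; rfl
      rw [← h2]
      exact_mod_cast h1
    have hX : (1 : ℝ) ≤ a₁ * a₂ := by nlinarith
    have hXh : |(h : ℝ)| ≤ a₁ * a₂ * |(h : ℝ)| := by nlinarith
    have hXh1 : (1 : ℝ) ≤ a₁ * a₂ * |(h : ℝ)| := hhr.trans hXh
    have hcard5 : (h.natAbs.divisors.card : ℝ) ≤ (a₁ * a₂ * |(h : ℝ)|) ^ 5 := by
      calc (h.natAbs.divisors.card : ℝ) ≤ a₁ * a₂ * |(h : ℝ)| := hcard.trans hXh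
        _ = (a₁ * a₂ * |(h : ℝ)|) ^ 1 := (pow_one _).symm
        _ ≤ (a₁ * a₂ * |(h : ℝ)|) ^ 5 := pow_le_pow_right₀ hXh1 (by norm_num)
    have t1 : Y * (h.natAbs.divisors.card : ℝ) ≤ E₂ :=
      mul_le_mul hY95 hcard5 (by positivity) (by positivity)
    have hmr : (m : ℝ) ≤ a₁ * a₂ := by exact_mod_cast hm
    have t2 : (m : ℝ) ^ 3 * |(h : ℝ)| ^ 3 * (Y : ℝ) ^ (9 / 5 : ℝ) ≤ E₂ := by
      rw [hE₂, mul_comm]
      refine mul_le_mul_of_nonneg_left ?_ (by positivity)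
      calc (m : ℝ) ^ 3 * |(h : ℝ)| ^ 3 = (m * |(h : ℝ)|) ^ 3 := by ring
        _ ≤ (a₁ * a₂ * |(h : ℝ)|) ^ 3 := by gcongr
        _ ≤ (a₁ * a₂ * |(h : ℝ)|) ^ 5 := pow_le_pow_right₀ hXh1 (by norm_num)
    rw [hE₁]
    linarith
  -- the four types
  have T1 := type_bound C hC hFJ Y a₁ a₂ 1 h l₁ l₂ hY hp₁.one_le hp₂.one_le le_rfl hcop12
    (Nat.coprime_one_left _) hh
    (fun d hd => ⟨Nat.coprime_one_left _, Nat.Coprime.mul_right (hdiv d hd).1.symm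
      (hdiv d hd).2.symm⟩) hA₁ hA₂
    (F.filter fun v => ¬ (a₁ : ℤ) ∣ v 2 ∧ ¬ (a₂ : ℤ) ∣ v 2) (by
      intro v hv
      obtain ⟨hv1, hv2, hv3⟩ := mem_filter.1 hv
      obtain ⟨b1, b2, b3, b4, b5, b6⟩ := (Set.Finite.mem_toFinset hSf).1 hv1
      refine ⟨b1, b2, b3, b4, b5, b6, by simp, ?_⟩
      push_cast
      exact (hcopv a₁ _ hp₁ hv2).mul_left (hcopv a₂ _ hp₂ hv3))
  have T2 := type_bound C hC hFJ Y 1 a₂ a₁ h l₁ l₂ hY le_rfl hp₂.one_le hp₁.one_le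
    (Nat.coprime_one_left _) (by rw [one_mul]; exact hcop12) hh
    (fun d hd => ⟨(hdiv d hd).1, by rw [one_mul]; exact (hdiv d hd).2.symm⟩)
    (W_one l₁ h) hA₂
    (F.filter fun v => (a₁ : ℤ) ∣ v 2 ∧ ¬ (a₂ : ℤ) ∣ v 2) (by
      intro v hv
      obtain ⟨hv1, hv2, hv3⟩ := mem_filter.1 hv
      obtain ⟨b1, b2, b3, b4, b5, b6⟩ := (Set.Finite.mem_toFinset hSf).1 hv1
      refine ⟨b1, b2, b3, b4, by simp, b6, hv2, ?_⟩
      push_cast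
      rw [one_mul]
      exact hcopv a₂ _ hp₂ hv3)
  have T3 := type_bound C hC hFJ Y a₁ 1 a₂ h l₁ l₂ hY hp₁.one_le le_rfl hp₂.one_le
    (Nat.coprime_one_right _) (by rw [mul_one]; exact hcop12.symm) hh
    (fun d hd => ⟨(hdiv d hd).2, by rw [mul_one]; exact (hdiv d hd).1.symm⟩)
    hA₁ (W_one l₂ h)
    (F.filter fun v => ¬ (a₁ : ℤ) ∣ v 2 ∧ (a₂ : ℤ) ∣ v 2) (by
      intro v hv
      obtain ⟨hv1, hv2, hv3⟩ := mem_filter.1 hv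
      obtain ⟨b1, b2, b3, b4, b5, b6⟩ := (Set.Finite.mem_toFinset hSf).1 hv1
      refine ⟨b1, b2, b3, b4, b5, by simp, hv3, ?_⟩
      push_cast
      rw [mul_one]
      exact hcopv a₁ _ hp₁ hv2)
  have T4 := type_bound C hC hFJ Y 1 1 (a₁ * a₂) h l₁ l₂ hY le_rfl le_rfl
    (Nat.mul_pos hp₁.pos hp₂.pos) (Nat.coprime_one_left _)
    (by rw [one_mul]; exact Nat.coprime_one_right _) hh
    (fun d hd => ⟨Nat.Coprime.mul_left (hdiv d hd).1 (hdiv d hd).2,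
      by rw [one_mul]; exact Nat.coprime_one_right _⟩)
    (W_one l₁ h) (W_one l₂ h)
    (F.filter fun v => (a₁ : ℤ) ∣ v 2 ∧ (a₂ : ℤ) ∣ v 2) (by
      intro v hv
      obtain ⟨hv1, hv2, hv3⟩ := mem_filter.1 hv
      obtain ⟨b1, b2, b3, b4, b5, b6⟩ := (Set.Finite.mem_toFinset hSf).1 hv1
      refine ⟨b1, b2, b3, b4, by simp, by simp, ?_, by rw [mul_one, Nat.cast_one]; exact isCoprime_one_left⟩
      push_cast
      exact (Nat.isCoprime_iff_coprime.2 hcop12).mul_dvd hv2 hv3)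
  have hpos : 1 ≤ a₁ * a₂ := Nat.mul_pos hp₁.pos hp₂.pos
  have U1 := T1.trans (hcommon (a₁ * a₂) 1 hpos le_rfl (mul_one _))
  have U2 := T2.trans (hcommon (1 * a₂) a₁ (by rw [one_mul]; exact hp₂.one_le)
    (by rw [one_mul]; exact Nat.le_mul_of_pos_left _ hp₁.pos) (by ring))
  have U3 := T3.trans (hcommon (a₁ * 1) a₂ (by rw [mul_one]; exact hp₁.one_le)
    (by rw [mul_one]; exact Nat.le_mul_of_pos_right _ hp₂.pos) (by ring))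
  have U4' := T4.trans (hcommon (1 * 1) (a₁ * a₂) le_rfl (by simpa using hpos) (by ring))
  have hunion : F.card ≤ (F.filter fun v => ¬ (a₁ : ℤ) ∣ v 2 ∧ ¬ (a₂ : ℤ) ∣ v 2).card +
      (F.filter fun v => (a₁ : ℤ) ∣ v 2 ∧ ¬ (a₂ : ℤ) ∣ v 2).card +
      (F.filter fun v => ¬ (a₁ : ℤ) ∣ v 2 ∧ (a₂ : ℤ) ∣ v 2).card +
      (F.filter fun v => (a₁ : ℤ) ∣ v 2 ∧ (a₂ : ℤ) ∣ v 2).card := by
    rw [← card_filter_add_card_filter_not (s := F) (p := fun v : Fin 4 → ℤ => (a₁ : ℤ) ∣ v 2),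
      ← card_filter_add_card_filter_not (s := F.filter fun v : Fin 4 → ℤ => (a₁ : ℤ) ∣ v 2)
        (p := fun v : Fin 4 → ℤ => (a₂ : ℤ) ∣ v 2),
      ← card_filter_add_card_filter_not (s := F.filter fun v : Fin 4 → ℤ => ¬ (a₁ : ℤ) ∣ v 2)
        (p := fun v : Fin 4 → ℤ => (a₂ : ℤ) ∣ v 2)]
    simp only [filter_filter]
    omega
  have hunion' : (F.card : ℝ) ≤ (F.filter fun v => ¬ (a₁ : ℤ) ∣ v 2 ∧ ¬ (a₂ : ℤ) ∣ v 2).card +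
      (F.filter fun v => (a₁ : ℤ) ∣ v 2 ∧ ¬ (a₂ : ℤ) ∣ v 2).card +
      (F.filter fun v => ¬ (a₁ : ℤ) ∣ v 2 ∧ (a₂ : ℤ) ∣ v 2).card +
      (F.filter fun v => (a₁ : ℤ) ∣ v 2 ∧ (a₂ : ℤ) ∣ v 2).card := by exact_mod_cast hunion
  have hE₁0 : 0 ≤ E₁ := by
    rw [hE₁]
    have : 0 ≤ ∑ d ∈ h.natAbs.divisors, (1 : ℝ) / d := sum_nonneg fun d _ => by positivity
    positivity
  have hE₂0 : 0 ≤ E₂ := by rw [hE₂]; positivity
  nlinarith [mul_nonneg hC.le hE₁0, mul_nonneg hC.le hE₂0]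

end Pool.Agent.Helper15.AB
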