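import Mathlib
import Pool.Agent.Helper15.AB.StAp

/-! # Project AB, module LL -/

set_option autoImplicit false

namespace Pool.Agent.Helper15.AB

theorem isCoprime_LL {a b : ℤ} (h : ∀ l : ℕ, l.Prime → (l : ℤ) ∣ a → (l : ℤ) ∣ b → False) :
    IsCoprime a b := by
  rw [Int.isCoprime_iff_gcd_eq_one]
  by_contra h1
  obtain ⟨l, hl, hl'⟩ := Nat.exists_prime_and_dvd h1
  refine h l hl ?_ ?_
  · exact (Int.natCast_dvd_natCast.2 hl').trans (Int.gcd_dvd_left ..)
  · exact (Int.natCast_dvd_natCast.2 hl').trans (Int.gcd_dvd_right ..)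

theorem im_LL (z w : GaussianInt) : (star z * w).im = z.re * w.im - z.im * w.re := by
  rw [Zsqrtd.im_mul, Zsqrtd.re_star, Zsqrtd.im_star]
  ring

theorem re_zz_LL (z₁ z₂ : GaussianInt) (v : ℤ × ℤ) :
    (zz z₁ z₂ v).re = v.1 * z₁.re + v.2 * z₂.re := by
  simp [zz]

theorem im_zz_LL (z₁ z₂ : GaussianInt) (v : ℤ × ℤ) :
    (zz z₁ z₂ v).im = v.1 * z₁.im + v.2 * z₂.im := by
  simp [zz]

theorem hLL : StLL := by
  intro p z₁ z₂ hp him hn
  rw [im_LL] at him
  have hp0 : (p : ℤ) ≠ 0 := by exact_mod_cast hp.ne_zero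
  have hcop : IsCoprime z₁.re z₁.im := by
    refine isCoprime_LL fun l hl h1 h2 => ?_
    have h3 : (l : ℤ) ∣ p := by
      rw [← him]
      exact dvd_sub (h1.mul_right _) (h2.mul_right _)
    have h4 : l = p := (Nat.prime_dvd_prime_iff_eq hl hp).1 (by exact_mod_cast h3)
    subst h4
    apply hn
    rw [Zsqrtd.norm_def]
    exact dvd_sub (h1.mul_right _) (Dvd.dvd.mul_right (h2.mul_left _) _)
  obtain ⟨s, t, hst⟩ := hcop
  constructor
  · rintro ⟨v1, v2⟩ ⟨w1, w2⟩ h
    have hre := congrArg Zsqrtd.re h
    have him' := congrArg Zsqrtd.im h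
    rw [re_zz_LL, re_zz_LL] at hre
    rw [im_zz_LL, im_zz_LL] at him'
    dsimp only at hre him'
    have h2 : (v2 - w2) * (p : ℤ) = 0 := by
      rw [← him]
      linear_combination z₁.re * him' - z₁.im * hre
    have h3 : v2 = w2 := by
      rcases mul_eq_zero.1 h2 with h4 | h4
      · linear_combination h4
      · exact absurd h4 hp0
    subst h3
    have h5 : v1 = w1 := by
      linear_combination s * hre + t * him' - (v1 - w1) * hst
    rw [h5]
  · intro u hu
    rw [im_LL] at hu
    obtain ⟨v2, hv2⟩ := hu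
    set a := u.re - v2 * z₂.re with ha
    set b := u.im - v2 * z₂.im with hb
    have hab : z₁.re * b - z₁.im * a = 0 := by
      rw [ha, hb]
      linear_combination hv2 - v2 * him
    refine ⟨(s * a + t * b, v2), ?_, ?_⟩
    · apply Zsqrtd.ext
      · rw [re_zz_LL]
        dsimp only
        have : (s * a + t * b) * z₁.re = a := by
          linear_combination a * hst + t * hab
        rw [this, ha]; ring
      · rw [im_zz_LL]
        dsimp only
        have : (s * a + t * b) * z₁.im = b := by
          linear_combination b * hst - s * hab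
        rw [this, hb]; ring
    · intro hl
      refine isCoprime_LL fun l hlp h1 h2 => hl l hlp ?_
      dsimp only at h1 h2
      obtain ⟨c, hc⟩ := h1
      obtain ⟨d, hd⟩ := h2
      refine ⟨⟨c * z₁.re + d * z₂.re, c * z₁.im + d * z₂.im⟩, ?_⟩
      apply Zsqrtd.ext
      · rw [Zsqrtd.re_mul]
        simp only [Zsqrtd.re_natCast, Zsqrtd.im_natCast]
        have : (s * a + t * b) * z₁.re = a := by
          linear_combination a * hst + t * hab
        linear_combination (-1 : ℤ) * this + z₁.re * hc + z₂.re * hd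
      · rw [Zsqrtd.im_mul]
        simp only [Zsqrtd.re_natCast, Zsqrtd.im_natCast]
        have : (s * a + t * b) * z₁.im = b := by
          linear_combination b * hst - s * hab
        linear_combination (-1 : ℤ) * this + z₁.im * hc + z₂.im * hd

end Pool.Agent.Helper15.AB
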