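import Mathlib
import Pool.Agent.Helper15.AB.StKl

/-!
# Project AB: module LP (lattice points of a proper subgroup containing `a ℤ[i]`)
-/

set_option autoImplicit false

namespace Pool.Agent.Helper15.AB

namespace hLP

open Finset

/-- counting lemma: rows in one residue class -/
theorem count (T : Set GaussianInt) (a R : ℕ) (ha : 1 ≤ a) (f g : GaussianInt → ℤ)
    (hinj : ∀ u v, f u = f v → g u = g v → u = v) (hf : ∀ u ∈ T, |f u| ≤ R)
    (hg : ∀ u ∈ T, |g u| ≤ R) (hmod : ∀ u ∈ T, ∀ v ∈ T, f u = f v → (a : ℤ) ∣ g u - g v) :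
    T.ncard ≤ (2 * R + 1) * (2 * R / a + 1) := by
  have h1 : T.ncard ≤ ((range (2 * R + 1) ×ˢ range (2 * R / a + 1) : Finset (ℕ × ℕ)) :
      Set (ℕ × ℕ)).ncard := by
    refine Set.ncard_le_ncard_of_injOn (fun u => ((f u + R).toNat, ((g u + R) / a).toNat)) ?_ ?_
      (Finset.finite_toSet _)
    · intro u hu
      have h2 := abs_le.1 (hf u hu)
      have h3 := abs_le.1 (hg u hu)
      have ha' : (0 : ℤ) < a := by exact_mod_cast ha
      simp only [coe_product, coe_range, Set.mem_prod, Set.mem_Iio]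
      have h4 : (g u + R) / a ≤ (2 * R : ℤ) / a := Int.ediv_le_ediv ha' (by linarith)
      have h5 : (0 : ℤ) ≤ (g u + R) / a := Int.ediv_nonneg (by linarith) (by linarith)
      constructor
      · omega
      · have h6 : (((2 * R / a : ℕ)) : ℤ) = (2 * R : ℤ) / a := by push_cast; rfl
        omega
    · intro u hu v hv he
      have h2 := abs_le.1 (hf u hu)
      have h3 := abs_le.1 (hg u hu)
      have h2' := abs_le.1 (hf v hv)
      have h3' := abs_le.1 (hg v hv)
      have ha' : (0 : ℤ) < a := by exact_mod_cast ha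
      have e1 : (f u + R).toNat = (f v + R).toNat := congrArg Prod.fst he
      have e2 : ((g u + R) / a).toNat = ((g v + R) / a).toNat := congrArg Prod.snd he
      have e3 : f u = f v := by omega
      have h5 : (0 : ℤ) ≤ (g u + R) / a := Int.ediv_nonneg (by linarith) (by linarith)
      have h5' : (0 : ℤ) ≤ (g v + R) / a := Int.ediv_nonneg (by linarith) (by linarith)
      have e4 : (g u + R) / a = (g v + R) / a := by omega
      refine hinj u v e3 ?_
      obtain ⟨c, hc⟩ := hmod u hu v hv e3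
      have e5 : g u + R = (g v + R) + a * c := by linarith
      rw [e5, Int.add_mul_ediv_left _ _ ha'.ne'] at e4
      have hc0 : c = 0 := by linarith
      rw [hc0, mul_zero] at hc
      linarith
  rw [Set.ncard_coe_finset, card_product, card_range, card_range] at h1
  exact h1

end hLP

theorem hLP : StLP := by
  refine ⟨5, by norm_num, ?_⟩
  intro M a S ha haM hM hS
  have hnn : (0 : ℝ) ≤ S / a + √S := add_nonneg (div_nonneg hS (Nat.cast_nonneg _)) (Real.sqrt_nonneg _)
  have hnd : ∀ u : GaussianInt, u.norm = u.re * u.re + u.im * u.im := by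
    intro u
    rw [Zsqrtd.norm_def]; ring
  rcases lt_or_ge S 1 with hS1 | hS1
  · have h0 : {u : GaussianInt | u ∈ M ∧ u ≠ 0 ∧ (u.norm : ℝ) ≤ S} = ∅ := by
      rw [Set.eq_empty_iff_forall_notMem]
      rintro u ⟨-, hu0, hu⟩
      have h1 : (0 : ℤ) < u.norm := GaussianInt.norm_pos.2 hu0
      have h2 : (1 : ℝ) ≤ u.norm := by exact_mod_cast h1
      linarith
    rw [h0, Set.ncard_empty]
    simpa using mul_nonneg (by norm_num : (0 : ℝ) ≤ 5) hnn
  have hapos : 1 ≤ a := ha.one_le
  set R := ⌊√S⌋₊ with hR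
  have hsq1 : (1 : ℝ) ≤ √S := by rw [Real.one_le_sqrt]; exact hS1
  have hRle : (R : ℝ) ≤ √S := Nat.floor_le (Real.sqrt_nonneg _)
  have hbd : ∀ x : ℤ, ((x * x : ℤ) : ℝ) ≤ S → |x| ≤ (R : ℤ) := by
    intro x hx
    have h1 : |(x : ℝ)| ≤ √S := by
      apply Real.abs_le_sqrt
      push_cast at hx
      rw [pow_two]; exact hx
    have h2 : ((x.natAbs : ℕ) : ℝ) ≤ √S := by
      rw [Nat.cast_natAbs]
      push_cast
      exact h1
    have h3 : x.natAbs ≤ R := Nat.le_floor h2
    rw [Int.abs_eq_natAbs]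
    exact_mod_cast h3
  set T : Set GaussianInt := {u : GaussianInt | u ∈ M ∧ u ≠ 0 ∧ (u.norm : ℝ) ≤ S} with hT
  have hre : ∀ u ∈ T, |u.re| ≤ (R : ℤ) := by
    rintro u ⟨-, -, hu⟩
    apply hbd
    have h1 : u.re * u.re ≤ u.norm := by rw [hnd]; nlinarith [mul_self_nonneg u.im]
    exact le_trans (by exact_mod_cast h1) hu
  have him : ∀ u ∈ T, |u.im| ≤ (R : ℤ) := by
    rintro u ⟨-, -, hu⟩
    apply hbd
    have h1 : u.im * u.im ≤ u.norm := by rw [hnd]; nlinarith [mul_self_nonneg u.re]
    exact le_trans (by exact_mod_cast h1) hu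
  have hcount : T.ncard ≤ (2 * R + 1) * (2 * R / a + 1) := by
    by_cases h01 : (⟨0, 1⟩ : GaussianInt) ∈ M
    · -- the real parts are divisible by `a`
      have hdvd : ∀ u ∈ T, (a : ℤ) ∣ u.re := by
        rintro u ⟨hu, -⟩
        by_contra hnd'
        apply hM
        have hcop : IsCoprime (a : ℤ) u.re :=
          (Prime.coprime_iff_not_dvd (Nat.prime_iff_prime_int.1 ha)).2 hnd'
        obtain ⟨s, t, hst⟩ := hcop
        have him' : ∀ y : ℤ, (⟨0, y⟩ : GaussianInt) ∈ M := by
          intro y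
          have h1 := M.zsmul_mem h01 y
          have h2 : y • (⟨0, 1⟩ : GaussianInt) = ⟨0, y⟩ := by
            rw [zsmul_eq_mul, Zsqrtd.ext_iff]
            simp
          rwa [h2] at h1
        have h10 : (⟨1, 0⟩ : GaussianInt) ∈ M := by
          have h1 : (⟨u.re, 0⟩ : GaussianInt) ∈ M := by
            have h2 := M.sub_mem hu (him' u.im)
            have h3 : u - ⟨0, u.im⟩ = (⟨u.re, 0⟩ : GaussianInt) := by
              rw [Zsqrtd.ext_iff]; simp
            rwa [h3] at h2
          have h2 := M.add_mem (M.zsmul_mem (haM 1) s) (M.zsmul_mem h1 t)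
          have h3 : s • ((a : GaussianInt) * 1) + t • (⟨u.re, 0⟩ : GaussianInt) = ⟨1, 0⟩ := by
            rw [zsmul_eq_mul, zsmul_eq_mul, Zsqrtd.ext_iff]
            constructor
            · simp
              linarith
            · simp
          rwa [h3] at h2
        rw [AddSubgroup.eq_top_iff']
        intro v
        have h2 := M.add_mem (M.zsmul_mem h10 v.re) (him' v.im)
        have h3 : v.re • (⟨1, 0⟩ : GaussianInt) + ⟨0, v.im⟩ = v := by
          rw [zsmul_eq_mul, Zsqrtd.ext_iff]
          simp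
        rwa [h3] at h2
      refine hLP.count T a R hapos (fun u => u.im) (fun u => u.re) ?_ him hre ?_
      · intro u v h1 h2
        exact Zsqrtd.ext h2 h1
      · intro u hu v hv _
        exact dvd_sub (hdvd u hu) (hdvd v hv)
    · refine hLP.count T a R hapos (fun u => u.re) (fun u => u.im) ?_ hre him ?_
      · intro u v h1 h2
        exact Zsqrtd.ext h1 h2
      · intro u hu v hv he
        by_contra hnd'
        apply h01
        have hcop : IsCoprime (a : ℤ) (u.im - v.im) :=
          (Prime.coprime_iff_not_dvd (Nat.prime_iff_prime_int.1 ha)).2 hnd'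
        obtain ⟨s, t, hst⟩ := hcop
        have h2 := M.add_mem (M.zsmul_mem (haM ⟨0, 1⟩) s) (M.zsmul_mem (M.sub_mem hu.1 hv.1) t)
        have he' : u.re = v.re := he
        have h3 : s • ((a : GaussianInt) * ⟨0, 1⟩) + t • (u - v) = ⟨0, 1⟩ := by
          rw [zsmul_eq_mul, zsmul_eq_mul, Zsqrtd.ext_iff]
          constructor
          · simp [he']
          · simp
            linarith
        rwa [h3] at h2
  have ha1 : (1 : ℝ) ≤ a := by exact_mod_cast hapos
  have ha0 : (0 : ℝ) < a := by linarith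
  have h1 : (T.ncard : ℝ) ≤ (2 * √S + 1) * (2 * √S / a + 1) := by
    have h2 : (T.ncard : ℝ) ≤ (((2 * R + 1) * (2 * R / a + 1) : ℕ) : ℝ) := by exact_mod_cast hcount
    refine h2.trans ?_
    push_cast
    have h3 : (((2 * R / a : ℕ)) : ℝ) ≤ 2 * √S / a := by
      refine (Nat.cast_div_le).trans ?_
      push_cast
      gcongr
    have h4 : (0 : ℝ) ≤ ((2 * R / a : ℕ) : ℝ) := Nat.cast_nonneg _
    gcongr
  have hSS : √S * √S = S := Real.mul_self_sqrt hS
  have h5 : (2 * √S + 1) * (2 * √S / a + 1) = 4 * (S / a) + 2 * √S + 2 * (√S / a) + 1 := by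
    have : 2 * √S * (2 * √S / a) = 4 * (S / a) := by
      calc 2 * √S * (2 * √S / a) = 4 * ((√S * √S) / a) := by ring
        _ = 4 * (S / a) := by rw [hSS]
    linear_combination this
  have h6 : √S / a ≤ √S := div_le_self (Real.sqrt_nonneg _) ha1
  have h7 : 0 ≤ S / a := div_nonneg hS ha0.le
  rw [h5] at h1
  linarith

end Pool.Agent.Helper15.AB
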