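import Mathlib
import Pool.Agent.Helper15.AB.StBV
import Pool.Agent.Helper90.MT.A2

/-!
# Project AB, module LW: lower bound for `L(s, ψ)`
-/

set_option autoImplicit false

namespace Pool.Agent.Helper15.AB

open Finset ArithmeticFunction MeasureTheory Complex
open Pool.Agent.Helper90.MT (Lk a2_core)
open Pool.Agent.Helper52.MTC

namespace LWaux

theorem log3 : (1 : ℝ) < Real.log 3 := by
  rw [Real.lt_log_iff_exp_lt (by norm_num)]
  have := Real.exp_one_lt_d9
  linarith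

/-- values near `s = 1` -/
theorem near_one {r : ℕ} [NeZero r] (χ : DirichletCharacter ℂ r) (hχ : χ ≠ 1) (D : ℝ)
    (hD : ∀ σ : ℝ, 1 < σ → σ ≤ 2 → ‖LSeries (Lk χ 1) (σ + (0 : ℝ) * I)‖ ≤ D)
    (σ : ℝ) (hσ : 1 < σ) (hσ2 : σ ≤ 2) :
    ‖LSeries (Lk χ 0) (σ : ℂ) - DirichletCharacter.LFunction χ 1‖ ≤ D * (σ - 1) := by
  have hc : Filter.Tendsto (fun a : ℝ => DirichletCharacter.LFunction χ (a : ℂ))
      (nhdsWithin 1 (Set.Ioi 1)) (nhds (DirichletCharacter.LFunction χ 1)) := by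
    have h1 : Continuous (fun a : ℝ => DirichletCharacter.LFunction χ (a : ℂ)) :=
      (DirichletCharacter.differentiable_LFunction hχ).continuous.comp continuous_ofReal
    have h2 := h1.tendsto 1
    rw [ofReal_one] at h2
    exact h2.mono_left nhdsWithin_le_nhds
  have h3 : Filter.Tendsto (fun a : ℝ => D * |σ - a| -
      ‖LSeries (Lk χ 0) (σ : ℂ) - DirichletCharacter.LFunction χ (a : ℂ)‖)
      (nhdsWithin 1 (Set.Ioi 1)) (nhds (D * |σ - 1| -
        ‖LSeries (Lk χ 0) (σ : ℂ) - DirichletCharacter.LFunction χ 1‖)) := by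
    refine Filter.Tendsto.sub ?_ (Filter.Tendsto.norm (Filter.Tendsto.sub tendsto_const_nhds hc))
    have : Continuous (fun a : ℝ => D * |σ - a|) := by fun_prop
    exact (this.tendsto 1).mono_left nhdsWithin_le_nhds
  have h4 : 0 ≤ D * |σ - 1| -
      ‖LSeries (Lk χ 0) (σ : ℂ) - DirichletCharacter.LFunction χ 1‖ := by
    refine ge_of_tendsto h3 ?_
    have h5 : ∀ᶠ a : ℝ in nhdsWithin 1 (Set.Ioi 1), a ∈ Set.Ioo (1 : ℝ) 2 :=
      Ioo_mem_nhdsGT (by norm_num)
    filter_upwards [h5] with a ha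
    have h6 := lip_sigma χ 0 D hD a σ ha.1 ha.2.le hσ hσ2
    have h7 : DirichletCharacter.LFunction χ (a : ℂ) = LSeries (Lk χ 0) (a : ℂ) := by
      rw [Lk_zero, DirichletCharacter.LFunction_eq_LSeries]
      rw [ofReal_re]
      exact ha.1
    rw [h7]
    simp only [ofReal_zero, zero_mul, add_zero] at h6
    linarith
  rw [abs_of_pos (by linarith)] at h4
  linarith

end LWaux

theorem hLW (hDJ : StDJ) (hD0 : StD0) : StLW := by
  obtain ⟨C0, hC0, H0⟩ := hDJ 0
  obtain ⟨C1, hC1, H1⟩ := hDJ 1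
  obtain ⟨C2, hC2, H2⟩ := hD0
  set K0 := max 1 C0 with hK0
  set K1 := max 1 C1 with hK1
  set K2 := max 1 C2 with hK2
  have k0 : 1 ≤ K0 := le_max_left _ _
  have k1 : 1 ≤ K1 := le_max_left _ _
  have k2 : 1 ≤ K2 := le_max_left _ _
  have c0 : C0 ≤ K0 := le_max_right _ _
  have c1 : C1 ≤ K1 := le_max_right _ _
  have c2 : C2 ≤ K2 := le_max_right _ _
  have p0 : 0 < K0 := by linarith
  have p1 : 0 < K1 := by linarith
  have p2 : 0 < K2 := by linarith
  refine ⟨1 / (1024 * K1 ^ 4 * K0 * K2), by positivity, ?_⟩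
  intro r _ ψ s hψ hs1 hs2
  have hr : 1 ≤ r := Nat.one_le_iff_ne_zero.2 (NeZero.ne r)
  have hr1 : (1 : ℝ) ≤ r := by exact_mod_cast hr
  obtain ⟨σ, t, rfl⟩ : ∃ σ t : ℝ, s = σ + t * I := ⟨s.re, s.im, (re_add_im s).symm⟩
  have hre : ((σ : ℂ) + t * I).re = σ := by simp
  have him : ((σ : ℂ) + t * I).im = t := by simp
  rw [hre] at hs1 hs2
  have hl3 := LWaux.log3
  have hLL : ∀ u v : ℝ, LL r ((u : ℂ) + v * I) = Real.log (r * (|v| + 3)) := by
    intro u v
    unfold LL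
    simp
  rw [hLL, ← Lk_zero ψ]
  set Y := Real.log (r * (|t| + 3)) with hY
  have ht0 := abs_nonneg t
  have hY1 : 1 ≤ Y := hl3.le.trans (Real.log_le_log (by norm_num) (by nlinarith))
  have hY0 : 0 < Y := by linarith
  have hLmono : ∀ u : ℝ, |u| ≤ |t| → Real.log (r * (|u| + 3)) ≤ Y := fun u hu =>
    Real.log_le_log (by positivity) (by gcongr)
  have hLnn : ∀ u : ℝ, 0 ≤ Real.log (r * (|u| + 3)) := fun u =>
    Real.log_nonneg (by have := abs_nonneg u; nlinarith)
  have hL2 : Real.log (r * (|2 * t| + 3)) ≤ 2 * Y := by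
    have h1 : (r : ℝ) * (|2 * t| + 3) ≤ (r * (|t| + 3)) ^ 2 := by
      rw [abs_mul, abs_two]
      have h2 : (r : ℝ) * (2 * |t| + 3) ≤ r * (|t| + 3) ^ 2 := by
        gcongr
        nlinarith
      have h3 : (r : ℝ) * (|t| + 3) ^ 2 ≤ r ^ 2 * (|t| + 3) ^ 2 := by
        gcongr
        nlinarith
      calc (r : ℝ) * (2 * |t| + 3) ≤ r ^ 2 * (|t| + 3) ^ 2 := h2.trans h3
        _ = _ := by ring
    calc Real.log (r * (|2 * t| + 3)) ≤ Real.log ((r * (|t| + 3)) ^ 2) :=
          Real.log_le_log (by positivity) h1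
      _ = 2 * Y := by rw [Real.log_pow, hY]; norm_num
  have B1 : ∀ u v : ℝ, |v| ≤ |t| → 1 < u → u ≤ 2 → ‖LSeries (Lk ψ 1) (u + v * I)‖ ≤ K1 * Y ^ 2 := by
    intro u v hv hu hu2
    have h1 := H1 r ψ ((u : ℂ) + v * I) hψ (by simpa using hu) (by simpa using hu2)
    rw [hLL] at h1
    refine h1.trans ?_
    exact mul_le_mul c1 (pow_le_pow_left₀ (hLnn v) (hLmono v hv) 2) (pow_nonneg (hLnn v) _) p1.le
  have hdl : 0 ≤ dl ψ := by
    unfold dl
    split_ifs
    · exact le_min zero_le_one (norm_nonneg _)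
    · exact zero_le_one
  have hdl1 : dl ψ ≤ 1 := by
    unfold dl
    split_ifs
    · exact min_le_left _ _
    · exact le_rfl
  have hc0 : 1 / (1024 * K1 ^ 4 * K0 * K2) * dl ψ / Y ^ 12 =
      dl ψ / (1024 * K1 ^ 4 * K0 * K2 * Y ^ 12) := by
    rw [one_div, div_eq_mul_inv, div_eq_mul_inv, mul_inv]
    ring
  rw [hc0]
  by_cases hψ2 : ψ ^ 2 = 1
  · have hdle : dl ψ ≤ ‖DirichletCharacter.LFunction ψ 1‖ := by
      unfold dl
      rw [if_pos hψ2]
      exact min_le_right _ _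
    rcases hdl.eq_or_lt with hd0 | hd0
    · rw [← hd0, zero_div]
      exact norm_nonneg _
    by_cases ht : dl ψ / (4 * K1 * Y ^ 2) ≤ |t|
    · have ht' : 0 < |t| := lt_of_lt_of_le (by positivity) ht
      set D : ℝ := 8 * K1 * K2 * Y ^ 3 / dl ψ with hD
      have hD1 : 1 ≤ D := by
        rw [hD, le_div_iff₀ hd0]
        have h1 : 1 ≤ Y ^ 3 := one_le_pow₀ hY1
        have h2 : 1 ≤ K1 * K2 := one_le_mul_of_one_le_of_one_le k1 k2
        have h3 : 1 ≤ K1 * K2 * Y ^ 3 := one_le_mul_of_one_le_of_one_le h2 h1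
        nlinarith
      have hc := a2_core ψ t K1 D Y k1 hD1 hY1 (fun u hu hu2 => B1 u t le_rfl hu hu2) ?_ σ hs1 hs2
      · refine le_trans ?_ hc
        have h1 : 1 / (128 * K1 ^ 3 * D * Y ^ 6) = dl ψ / (1024 * K1 ^ 4 * K2 * Y ^ 9) := by
          rw [hD]
          field_simp
          norm_num
        rw [h1]
        refine div_le_div_of_nonneg_left hdl (by positivity) ?_
        have h2 : Y ^ 9 ≤ Y ^ 12 := pow_le_pow_right₀ hY1 (by norm_num)
        calc 1024 * K1 ^ 4 * K2 * Y ^ 9 ≤ 1024 * K1 ^ 4 * K2 * Y ^ 12 := by gcongr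
          _ = 1024 * K1 ^ 4 * 1 * K2 * Y ^ 12 := by ring
          _ ≤ 1024 * K1 ^ 4 * K0 * K2 * Y ^ 12 := by gcongr
      · intro δ hδ hδ1
        have h1 := H2 r (ψ ^ 2) (((1 + δ : ℝ) : ℂ) + ((2 * t : ℝ) : ℂ) * I)
          (by simp only [add_re, ofReal_re, mul_re, I_re, mul_zero, ofReal_im, I_im, mul_one,
                sub_self, add_zero]; linarith)
          (by simp only [add_re, ofReal_re, mul_re, I_re, mul_zero, ofReal_im, I_im, mul_one,
                sub_self, add_zero]; linarith)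
        rw [hLL, ← Lk_zero (ψ ^ 2)] at h1
        refine h1.trans ?_
        have h2 : 2 * |t| ≤ ‖((1 + δ : ℝ) : ℂ) + ((2 * t : ℝ) : ℂ) * I - 1‖ := by
          have h3 := abs_im_le_norm (((1 + δ : ℝ) : ℂ) + ((2 * t : ℝ) : ℂ) * I - 1)
          have h4 : (((1 + δ : ℝ) : ℂ) + ((2 * t : ℝ) : ℂ) * I - 1).im = 2 * t := by simp
          rw [h4, abs_mul, abs_two] at h3
          exact h3
        have h5 : 1 / ‖((1 + δ : ℝ) : ℂ) + ((2 * t : ℝ) : ℂ) * I - 1‖ ≤ 2 * K1 * Y ^ 2 / dl ψ := by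
          refine (one_div_le_one_div_of_le (by positivity) h2).trans ?_
          rw [div_le_div_iff₀ (by positivity) hd0, one_mul]
          rw [div_le_iff₀ (by positivity)] at ht
          nlinarith
        have h6 : 2 * Y ≤ 2 * K1 * Y ^ 2 / dl ψ := by
          rw [le_div_iff₀ hd0]
          calc 2 * Y * dl ψ ≤ 2 * Y * 1 := by gcongr
            _ = 2 * 1 * (Y * 1) := by ring
            _ ≤ 2 * K1 * (Y * Y) := by gcongr
            _ = 2 * K1 * Y ^ 2 := by ring
        calc C2 * (1 / ‖((1 + δ : ℝ) : ℂ) + ((2 * t : ℝ) : ℂ) * I - 1‖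
              + Real.log (r * (|2 * t| + 3))) * Real.log (r * (|2 * t| + 3))
            ≤ K2 * (2 * K1 * Y ^ 2 / dl ψ + 2 * K1 * Y ^ 2 / dl ψ) * (2 * Y) := by
              have := hLnn (2 * t)
              have h7 := hL2.trans h6
              gcongr
          _ = D := by rw [hD]; ring
    · rw [not_le] at ht
      by_cases hσ : dl ψ / (4 * K1 * Y ^ 2) ≤ σ - 1
      · have h1 := le_norm_Lk_zero ψ ((σ : ℂ) + t * I) (by rw [hre]; exact hs1)
          (by rw [hre]; exact hs2)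
        rw [hre] at h1
        refine le_trans ?_ h1
        have h2 : dl ψ / (8 * K1 * Y ^ 2) ≤ (σ - 1) / 2 := by
          have : dl ψ / (8 * K1 * Y ^ 2) = dl ψ / (4 * K1 * Y ^ 2) / 2 := by
            rw [div_div]; ring_nf
          rw [this]
          linarith
        refine le_trans ?_ h2
        refine div_le_div_of_nonneg_left hdl (by positivity) ?_
        have h3 : Y ^ 2 ≤ Y ^ 12 := pow_le_pow_right₀ hY1 (by norm_num)
        have h4 : K1 ^ 1 ≤ K1 ^ 4 := pow_le_pow_right₀ k1 (by norm_num)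
        rw [pow_one] at h4
        calc 8 * K1 * Y ^ 2 = 8 * K1 * 1 * 1 * Y ^ 2 := by ring
          _ ≤ 1024 * K1 ^ 4 * K0 * K2 * Y ^ 12 := by
            gcongr
            norm_num
      · rw [not_le] at hσ
        have h1 := LWaux.near_one ψ hψ (K1 * Y ^ 2)
          (fun u hu hu2 => B1 u 0 (by rw [abs_zero]; exact ht0) hu hu2) σ hs1 hs2
        have h2 := lip_t ψ σ t (K1 * Y ^ 2) hs1 (fun u hu => B1 σ u hu hs1 hs2)
        have h3 : K1 * Y ^ 2 * (σ - 1) ≤ dl ψ / 4 := by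
          rw [lt_div_iff₀ (by positivity)] at hσ
          nlinarith
        have h4 : K1 * Y ^ 2 * |t| ≤ dl ψ / 4 := by
          rw [lt_div_iff₀ (by positivity)] at ht
          nlinarith
        have h5 : ‖DirichletCharacter.LFunction ψ 1‖ ≤
            ‖LSeries (Lk ψ 0) ((σ : ℂ) + t * I)‖ + dl ψ / 4 + dl ψ / 4 := by
          have e : DirichletCharacter.LFunction ψ 1 = LSeries (Lk ψ 0) ((σ : ℂ) + t * I)
              - (LSeries (Lk ψ 0) ((σ : ℂ) + t * I) - LSeries (Lk ψ 0) (σ : ℂ))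
              - (LSeries (Lk ψ 0) (σ : ℂ) - DirichletCharacter.LFunction ψ 1) := by ring
          calc ‖DirichletCharacter.LFunction ψ 1‖ = ‖LSeries (Lk ψ 0) ((σ : ℂ) + t * I)
              - (LSeries (Lk ψ 0) ((σ : ℂ) + t * I) - LSeries (Lk ψ 0) (σ : ℂ))
              - (LSeries (Lk ψ 0) (σ : ℂ) - DirichletCharacter.LFunction ψ 1)‖ := by rw [← e]
            _ ≤ ‖LSeries (Lk ψ 0) ((σ : ℂ) + t * I)‖
              + ‖LSeries (Lk ψ 0) ((σ : ℂ) + t * I) - LSeries (Lk ψ 0) (σ : ℂ)‖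
              + ‖LSeries (Lk ψ 0) (σ : ℂ) - DirichletCharacter.LFunction ψ 1‖ := by
                refine (norm_sub_le _ _).trans ?_
                gcongr
                exact norm_sub_le _ _
            _ ≤ _ := by
                gcongr
                · exact h2.trans h4
                · exact h1.trans h3
        have h6 : dl ψ / 2 ≤ ‖LSeries (Lk ψ 0) ((σ : ℂ) + t * I)‖ := by linarith
        refine le_trans ?_ h6
        refine div_le_div_of_nonneg_left hdl (by norm_num) ?_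
        have h7 : 1 ≤ K1 ^ 4 := one_le_pow₀ k1
        have h8 : 1 ≤ Y ^ 12 := one_le_pow₀ hY1
        calc (2 : ℝ) ≤ 1024 * 1 * 1 * 1 * 1 := by norm_num
          _ ≤ 1024 * K1 ^ 4 * K0 * K2 * Y ^ 12 := by gcongr
  · have hc := a2_core ψ t K1 (2 * K0 * Y) Y k1 (by
        have := one_le_mul_of_one_le_of_one_le k0 hY1
        nlinarith) hY1 (fun u hu hu2 => B1 u t le_rfl hu hu2) ?_ σ hs1 hs2
    · refine le_trans ?_ hc
      rw [div_le_div_iff₀ (by positivity) (by positivity)]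
      have h2 : Y ^ 7 ≤ Y ^ 12 := pow_le_pow_right₀ hY1 (by norm_num)
      have h4 : K1 ^ 3 ≤ K1 ^ 4 := pow_le_pow_right₀ k1 (by norm_num)
      calc dl ψ * (128 * K1 ^ 3 * (2 * K0 * Y) * Y ^ 6) ≤ 1 * (128 * K1 ^ 3 * (2 * K0 * Y) * Y ^ 6) := by
            gcongr
        _ = 1 * (256 * K1 ^ 3 * K0 * 1 * Y ^ 7) := by ring
        _ ≤ 1 * (1024 * K1 ^ 4 * K0 * K2 * Y ^ 12) := by
            gcongr
            norm_num
    · intro δ hδ hδ1
      have h1 := H0 r (ψ ^ 2) (((1 + δ : ℝ) : ℂ) + ((2 * t : ℝ) : ℂ) * I) hψ2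
          (by simp only [add_re, ofReal_re, mul_re, I_re, mul_zero, ofReal_im, I_im, mul_one,
                sub_self, add_zero]; linarith)
          (by simp only [add_re, ofReal_re, mul_re, I_re, mul_zero, ofReal_im, I_im, mul_one,
                sub_self, add_zero]; linarith)
      rw [hLL, zero_add, pow_one] at h1
      refine h1.trans ?_
      have := hLnn (2 * t)
      calc C0 * Real.log (r * (|2 * t| + 3)) ≤ K0 * (2 * Y) := by gcongr
        _ = 2 * K0 * Y := by ring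

end Pool.Agent.Helper15.AB
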