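import Mathlib
import Pool.Agent.Helper15.AB.StBV
import Pool.Agent.Helper2.MeanValueFamily

set_option autoImplicit false

namespace Pool.Agent.Helper15.AB

open Finset ArithmeticFunction

namespace hVA

open Pool.Agent.Helper2

theorem w_zero_low (w : ℝ → ℝ) (hw : IsW w) (x t : ℝ) (hx : 0 < x) (ht0 : 0 < t) (ht : t < x) :
    w (Real.log (t / x)) = 0 := by
  apply hw.supp
  intro h
  have h1 : Real.log (t / x) < 0 := Real.log_neg (by positivity) (by rw [div_lt_one hx]; exact ht)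
  exact absurd h.1 (not_le.mpr h1)

theorem w_zero_high (w : ℝ → ℝ) (hw : IsW w) (x t : ℝ) (hx : 0 < x) (ht : 3 * x < t) :
    w (Real.log (t / x)) = 0 := by
  apply hw.supp
  intro h
  have h1 : Real.log (Real.exp 1) < Real.log (t / x) := by
    apply Real.log_lt_log (Real.exp_pos 1)
    rw [lt_div_iff₀ hx]
    have := Real.exp_one_lt_d9
    nlinarith
  rw [Real.log_exp] at h1
  exact absurd h.2 (not_le.mpr h1)

end hVA

open Pool.Agent.Helper2 hVA in
theorem hVA : StVA := by
  intro U hU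
  refine ⟨fun j => (lo vonMangoldt U * lo mob U) j, fun m => (hi mob U * zet) m,
    fun j _ => abs_lo_mul_lo_le U j, fun m => abs_hi_mob_zet_le U m, ?_⟩
  intro w x f hw hUx hf
  have hx : 0 < x := lt_of_le_of_lt (Nat.cast_nonneg U) hUx
  set N := ⌊3 * x⌋₊ with hN
  have hUN : U ≤ N := Nat.le_floor (by linarith)
  have hI : ∀ k : ℕ, Icc 1 k = Ioc 0 k := fun k => by ext n; simp [Nat.lt_iff_add_one_le]
  have hNx : ∀ n : ℕ, N < n → 3 * x < n := by
    intro n hn
    exact (Nat.floor_lt (by positivity)).mp hn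
  set G : ℕ → ℂ := fun n => ((w (Real.log (n / x)) : ℝ) : ℂ) * f n with hG
  have hG0 : ∀ n, N < n → G n = 0 := by
    intro n hn
    simp only [hG, w_zero_high w hw x n hx (hNx n hn)]
    simp
  have hS : TT w x f = ∑ n ∈ Ioc 0 N, ((lo vonMangoldt U n : ℝ) : ℂ) * G n +
      ∑ n ∈ Ioc 0 N, (((lo mob U * log) n : ℝ) : ℂ) * G n -
      ∑ n ∈ Ioc 0 N, ((((lo vonMangoldt U * lo mob U) * zet) n : ℝ) : ℂ) * G n +
      ∑ n ∈ Ioc 0 N, (((hi vonMangoldt U * (hi mob U * zet)) n : ℝ) : ℂ) * G n := by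
    unfold TT
    rw [← hN, hI N, ← Finset.sum_add_distrib, ← Finset.sum_sub_distrib, ← Finset.sum_add_distrib]
    refine Finset.sum_congr rfl fun n _ => ?_
    have h := congrArg (fun f : ArithmeticFunction ℝ => f n) (vaughan U)
    simp only [sub_eq_add_neg, ArithmeticFunction.add_apply, ArithmeticFunction.neg_apply] at h
    rw [h]
    push_cast
    simp only [hG]
    ring
  -- first term
  have t1 : ∑ n ∈ Ioc 0 N, ((lo vonMangoldt U n : ℝ) : ℂ) * G n = 0 := by
    refine Finset.sum_eq_zero fun n hn => ?_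
    rw [lo_apply]
    split_ifs with h
    · have hn0 : (0 : ℝ) < n := by exact_mod_cast (mem_Ioc.1 hn).1
      have hnx : (n : ℝ) < x := lt_of_le_of_lt (by exact_mod_cast h) hUx
      simp only [hG, w_zero_low w hw x n hx hn0 hnx]
      simp
    · simp
  -- second term
  have t2 : ∑ n ∈ Ioc 0 N, (((lo mob U * log) n : ℝ) : ℂ) * G n =
      ∑ m ∈ Icc 1 U, ((moebius m : ℤ) : ℂ) * f m *
        ∑ k ∈ Icc 1 N, ((Real.log k * w (Real.log (m * k / x)) : ℝ) : ℂ) * f k := by
    rw [sum_conv _ _ N G hG0, hI U, hI N]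
    have hsub : Ioc 0 U ⊆ Ioc 0 N := Ioc_subset_Ioc_right hUN
    rw [← Finset.sum_subset hsub]
    · refine Finset.sum_congr rfl fun m hm => ?_
      rw [Finset.mul_sum]
      refine Finset.sum_congr rfl fun k _ => ?_
      rw [lo_apply, if_pos (mem_Ioc.1 hm).2, log_apply]
      simp only [hG]
      rw [hf]
      have hmob : ((mob m : ℝ) : ℂ) = ((moebius m : ℤ) : ℂ) := by
        have h : mob m = ((moebius m : ℤ) : ℝ) := rfl
        rw [h]
        push_cast
        rfl
      rw [hmob]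
      push_cast
      ring
    · intro m hm' hm
      refine Finset.sum_eq_zero fun k _ => ?_
      have hmU : ¬ m ≤ U := by
        intro h
        apply hm
        exact mem_Ioc.2 ⟨(mem_Ioc.1 hm').1, h⟩
      rw [lo_apply, if_neg hmU]
      simp
  -- third term
  have t3 : ∑ n ∈ Ioc 0 N, ((((lo vonMangoldt U * lo mob U) * zet) n : ℝ) : ℂ) * G n =
      ∑ j ∈ Icc 1 (U ^ 2), (((lo vonMangoldt U * lo mob U) j : ℝ) : ℂ) * f j *
        ∑ k ∈ Icc 1 N, ((w (Real.log (j * k / x)) : ℝ) : ℂ) * f k := by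
    rw [sum_conv _ _ N G hG0, hI (U ^ 2), hI N]
    set T : ℕ → ℂ := fun j => (((lo vonMangoldt U * lo mob U) j : ℝ) : ℂ) * f j *
        ∑ k ∈ Ioc 0 N, ((w (Real.log (j * k / x)) : ℝ) : ℂ) * f k with hT
    have e : ∀ a ∈ Ioc 0 N, ∑ b ∈ Ioc 0 N,
        (((lo vonMangoldt U * lo mob U) a : ℝ) : ℂ) * ((zet b : ℝ) : ℂ) * G (a * b) = T a := by
      intro a _
      simp only [hT]
      rw [Finset.mul_sum]
      refine Finset.sum_congr rfl fun b hb => ?_
      rw [zet_apply (mem_Ioc.1 hb).1]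
      simp only [hG]
      rw [hf]
      push_cast
      ring
    rw [Finset.sum_congr rfl e]
    have hs1 : ∑ a ∈ Ioc 0 N, T a = ∑ a ∈ Ioc 0 (max N (U ^ 2)), T a := by
      apply Finset.sum_subset (Ioc_subset_Ioc_right (le_max_left _ _))
      intro a ha ha'
      have haN : N < a := by
        by_contra h
        exact ha' (mem_Ioc.2 ⟨(mem_Ioc.1 ha).1, not_lt.mp h⟩)
      simp only [hT]
      rw [Finset.sum_eq_zero, mul_zero]
      intro k hk
      have hk1 : (1 : ℝ) ≤ k := by exact_mod_cast (mem_Ioc.1 hk).1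
      have ha3 := hNx a haN
      have : 3 * x < (a : ℝ) * k := by nlinarith
      rw [w_zero_high w hw x _ hx this]
      simp
    have hs2 : ∑ a ∈ Ioc 0 (U ^ 2), T a = ∑ a ∈ Ioc 0 (max N (U ^ 2)), T a := by
      apply Finset.sum_subset (Ioc_subset_Ioc_right (le_max_right _ _))
      intro a ha ha'
      have haU : U ^ 2 < a := by
        by_contra h
        exact ha' (mem_Ioc.2 ⟨(mem_Ioc.1 ha).1, not_lt.mp h⟩)
      simp only [hT]
      rw [lo_mul_lo_eq_zero _ _ U a (by rw [← sq]; exact haU)]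
      simp
    rw [hs1, hs2]
  -- fourth term
  have t4 : ∑ n ∈ Ioc 0 N, (((hi vonMangoldt U * (hi mob U * zet)) n : ℝ) : ℂ) * G n =
      ∑ m ∈ Ioc U N, ∑ k ∈ Ioc U N,
        (((hi mob U * zet) m * Λ k * w (Real.log (m * k / x)) : ℝ) : ℂ) * (f m * f k) := by
    rw [sum_conv _ _ N G hG0, Finset.sum_comm]
    have hsub : Ioc U N ⊆ Ioc 0 N := Ioc_subset_Ioc_left (Nat.zero_le U)
    rw [← Finset.sum_subset hsub]
    · refine Finset.sum_congr rfl fun m hm => ?_
      rw [← Finset.sum_subset hsub]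
      · refine Finset.sum_congr rfl fun k hk => ?_
        rw [hi_apply, if_neg (not_le.mpr (mem_Ioc.1 hk).1)]
        simp only [hG]
        rw [mul_comm k m, hf]
        push_cast
        ring
      · intro k hk hk'
        have hkU : k ≤ U := by
          by_contra h
          exact hk' (mem_Ioc.2 ⟨not_le.mp h, (mem_Ioc.1 hk).2⟩)
        rw [hi_apply, if_pos hkU]
        simp
    · intro m hm hm'
      refine Finset.sum_eq_zero fun k _ => ?_
      have hmU : m ≤ U := by
        by_contra h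
        exact hm' (mem_Ioc.2 ⟨not_le.mp h, (mem_Ioc.1 hm).2⟩)
      rw [hi_mob_zet_eq_zero U m hmU]
      simp
  rw [hS, t1, t2, t3, t4, zero_add]

end Pool.Agent.Helper15.AB
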