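import Mathlib
import Pool.Agent.Helper15.AB.StBV
import Pool.Agent.Helper15.AB.StMid
import Pool.Agent.Helper15.AB.M_VA

set_option autoImplicit false

namespace Pool.Agent.Helper15.AB

open Finset ArithmeticFunction Filter Topology

namespace hMA

theorem c4_mul (m n : ℕ) : c4 (m * n) = c4 m * c4 n := by
  unfold c4
  have hm : m % 4 = 0 ∨ m % 4 = 1 ∨ m % 4 = 2 ∨ m % 4 = 3 := by omega
  have hn : n % 4 = 0 ∨ n % 4 = 1 ∨ n % 4 = 2 ∨ n % 4 = 3 := by omega
  rcases hm with h | h | h | h <;> rcases hn with h' | h' | h' | h' <;>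
    simp [Nat.mul_mod, h, h']

theorem c4_abs (n : ℕ) : |c4 n| ≤ 1 := by
  unfold c4
  split_ifs <;> simp

theorem phi_lower (hDP : StDP) (K : ℝ) : ∃ R : ℕ, ∀ r : ℕ, R < r → K ≤ (Nat.totient r : ℝ) := by
  obtain ⟨C, hC, h⟩ := hDP
  refine ⟨⌈(2 * C * K) ^ 2⌉₊, ?_⟩
  intro r hr
  have hr1 : 1 ≤ r := by omega
  have hr1' : (1 : ℝ) ≤ r := by exact_mod_cast hr1
  have hr2 : (2 * C * K) ^ 2 ≤ r := by
    have h1 : (⌈(2 * C * K) ^ 2⌉₊ : ℝ) ≤ r := by exact_mod_cast hr.le
    exact (Nat.le_ceil _).trans h1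
  have hphi : (0 : ℝ) < Nat.totient r := by
    have := Nat.totient_pos.2 hr1
    exact_mod_cast this
  have h1 := h r hr1
  have hlr : 0 ≤ Real.log (r : ℝ) := Real.log_natCast_nonneg r
  have h2 : Real.log (1 + Real.log r) ≤ Real.log r := by
    have := Real.log_le_sub_one_of_pos (show 0 < 1 + Real.log (r : ℝ) by linarith)
    linarith
  have hs : 1 ≤ √(r : ℝ) := by
    rw [Real.le_sqrt' one_pos]
    linarith
  have h3 : Real.log (r : ℝ) ≤ 2 * (√(r : ℝ) - 1) := by
    have h4 := Real.log_le_sub_one_of_pos (show 0 < √(r : ℝ) by linarith)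
    rw [Real.log_sqrt (by linarith)] at h4
    linarith
  have h5 : 1 + Real.log (1 + Real.log (r : ℝ)) ≤ 2 * √(r : ℝ) := by linarith
  have h6 : (r : ℝ) / Nat.totient r ≤ C * (2 * √(r : ℝ)) :=
    h1.trans (mul_le_mul_of_nonneg_left h5 hC.le)
  rw [div_le_iff₀ hphi] at h6
  have h7 : √(r : ℝ) * √(r : ℝ) = r := Real.mul_self_sqrt (by linarith)
  have h8 : √(r : ℝ) ≤ 2 * C * Nat.totient r := by
    by_contra hcon
    push Not at hcon
    nlinarith
  have h9 : 2 * C * K ≤ √(r : ℝ) := Real.le_sqrt_of_sq_le hr2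
  by_contra hcon
  push Not at hcon
  have : 2 * C * (Nat.totient r : ℝ) < 2 * C * K := mul_lt_mul_of_pos_left hcon (by positivity)
  linarith

/-- the change of variables `n = N m - p` -/
theorem T_bij (w : ℝ → ℝ) (hw : IsW w) (N p q m₁ : ℕ) (hH : Hyp N p q m₁) (x : ℝ) (hx : 1 ≤ x)
    (hpx : (p : ℝ) ≤ x) (d m' : ℕ) (hd : 1 ≤ d) (hdq : Nat.Coprime d q) (h1 : d ∣ m')
    (h2 : m' % q = m₁ % q) :
    ∑ m ∈ (ms x q m₁).filter (fun m => d ∣ m), lam w x N p m =
    ∑ n ∈ (Icc 1 ⌊3 * x⌋₊).filter (fun n : ℕ => ((N * q * d : ℕ) : ℤ) ∣ (n : ℤ) - ((N : ℤ) * m' - p)),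
      Λ n * w (Real.log (n / x)) := by
  have hN := hH.hN
  have hx0 : 0 < x := by linarith
  rw [← Finset.sum_filter_of_ne (p := fun m => p < N * m ∧ N * m - p ≤ ⌊3 * x⌋₊)]
  · apply Finset.sum_bij (fun m _ => N * m - p)
    · intro m hm
      simp only [ms, mem_filter, mem_Icc] at hm ⊢
      obtain ⟨⟨⟨⟨hm1, hm2⟩, hmq⟩, hdm⟩, hpm, hmx⟩ := hm
      refine ⟨⟨by omega, hmx⟩, ?_⟩
      have e : ((N * m - p : ℕ) : ℤ) - ((N : ℤ) * m' - p) = (N : ℤ) * ((m : ℤ) - m') := by
        rw [Nat.cast_sub hpm.le]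
        push_cast
        ring
      rw [e]
      have hq : (q : ℤ) ∣ (m : ℤ) - m' := by
        have : m' ≡ m [MOD q] := h2.trans hmq.symm
        exact Nat.modEq_iff_dvd.1 this
      have hdd : (d : ℤ) ∣ (m : ℤ) - m' :=
        dvd_sub (Int.natCast_dvd_natCast.2 hdm) (Int.natCast_dvd_natCast.2 h1)
      have hco : IsCoprime (q : ℤ) (d : ℤ) := Nat.isCoprime_iff_coprime.2 hdq.symm
      have := hco.mul_dvd hq hdd
      push_cast
      rw [mul_assoc]
      exact mul_dvd_mul_left _ this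
    · intro m hm m'' hm'' h
      simp only [mem_filter] at hm hm''
      have h3 : N * m = N * m'' := by
        have := hm.2.1
        have := hm''.2.1
        omega
      exact Nat.eq_of_mul_eq_mul_left (by omega) h3
    · intro n hn
      simp only [mem_filter, mem_Icc] at hn
      obtain ⟨⟨hn1, hn2⟩, t, ht⟩ := hn
      have h3 : (n : ℤ) + p = (N : ℤ) * ((m' : ℤ) + q * d * t) := by
        push_cast at ht
        linarith [ht]
      have hmpos : 0 < (m' : ℤ) + q * d * t := by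
        by_contra hcon
        push Not at hcon
        have hN0 : (0 : ℤ) ≤ N := Int.natCast_nonneg N
        have := mul_nonpos_of_nonneg_of_nonpos hN0 hcon
        have h5 : (1 : ℤ) ≤ n := by exact_mod_cast hn1
        have h6 : (0 : ℤ) ≤ p := Int.natCast_nonneg p
        linarith
      obtain ⟨m, hm⟩ := Int.eq_ofNat_of_zero_le hmpos.le
      rw [hm] at h3 hmpos
      have h4 : n + p = N * m := by exact_mod_cast h3
      have hm0 : 0 < m := by exact_mod_cast hmpos
      refine ⟨m, ?_, by omega⟩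
      simp only [ms, mem_filter, mem_Icc]
      refine ⟨⟨⟨⟨by omega, ?_⟩, ?_⟩, ?_⟩, by omega, by omega⟩
      · apply Nat.le_floor
        have h5 : (m : ℝ) ≤ n + p := by
          have : m ≤ n + p := by rw [h4]; exact Nat.le_mul_of_pos_left m (by omega)
          exact_mod_cast this
        have h6 : (n : ℝ) ≤ 3 * x := (Nat.le_floor_iff (by positivity)).1 hn2
        linarith
      · have h5 : m' ≡ m [MOD q] := by
          rw [Nat.modEq_iff_dvd]
          rw [← hm, add_sub_cancel_left, mul_assoc]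
          exact dvd_mul_right _ _
        exact h5.symm.trans h2
      · have h5 : (d : ℤ) ∣ (m : ℤ) := by
          rw [← hm]
          refine dvd_add (Int.natCast_dvd_natCast.2 h1) ?_
          exact Dvd.dvd.mul_right (dvd_mul_left _ _) _
        exact Int.natCast_dvd_natCast.1 h5
    · intro m hm
      rfl
  · intro m hm hne
    unfold lam at hne
    constructor
    · by_contra hcon
      apply hne
      have : N * m - p = 0 := by omega
      rw [this]
      simp
    · by_contra hcon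
      apply hne
      have h3 : 3 * x < ((N * m - p : ℕ) : ℝ) := (Nat.floor_lt (by positivity)).1 (not_le.1 hcon)
      rw [hVA.w_zero_high w hw x _ hx0 h3, mul_zero]

theorem S_eq (w : ℝ → ℝ) (N p q m₁ : ℕ) (hH : Hyp N p q m₁) (x : ℝ) (D : ℕ) :
    ∑ m ∈ ms x q m₁, lam w x N p m * ∑ d ∈ (Icc 1 D).filter (fun d => d ∣ m), c4 d =
    ∑ d ∈ (Icc 1 D).filter (fun d => Nat.Coprime d q), c4 d *
      ∑ m ∈ (ms x q m₁).filter (fun m => d ∣ m), lam w x N p m := by
  have h1 : ∀ m ∈ ms x q m₁, lam w x N p m * ∑ d ∈ (Icc 1 D).filter (fun d => d ∣ m), c4 d =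
      ∑ d ∈ (Icc 1 D).filter (fun d => Nat.Coprime d q), if d ∣ m then c4 d * lam w x N p m else 0 := by
    intro m hm
    rw [← Finset.sum_filter, Finset.filter_filter, Finset.mul_sum]
    have e : (Icc 1 D).filter (fun d => Nat.Coprime d q ∧ d ∣ m) = (Icc 1 D).filter (fun d => d ∣ m) := by
      apply Finset.filter_congr
      intro d _
      constructor
      · exact fun h => h.2
      · intro h
        refine ⟨?_, h⟩
        simp only [ms, mem_filter] at hm
        have h2 : Nat.gcd m q = Nat.gcd m₁ q := Nat.ModEq.gcd_eq hm.2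
        have h3 : Nat.Coprime m q := by rw [Nat.Coprime, h2]; exact hH.hm
        exact Nat.Coprime.coprime_dvd_left h h3
    rw [e]
    refine Finset.sum_congr rfl fun d _ => mul_comm _ _
  rw [Finset.sum_congr rfl h1, Finset.sum_comm]
  refine Finset.sum_congr rfl fun d _ => ?_
  rw [← Finset.sum_filter, Finset.mul_sum]

theorem TT_bound (w : ℝ → ℝ) (hw : IsW w) (x : ℝ) {r : ℕ} (ψ : DirichletCharacter ℂ r) :
    ‖TT w x (fun n => ψ (n : ZMod r))‖ ≤ Th w x := by
  unfold TT Th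
  refine (norm_sum_le _ _).trans (Finset.sum_le_sum fun n _ => ?_)
  rw [norm_mul, Complex.norm_real, Real.norm_of_nonneg (mul_nonneg vonMangoldt_nonneg (hw.nonneg _))]
  calc _ ≤ (Λ n * w (Real.log (n / x))) * 1 :=
        mul_le_mul_of_nonneg_left (ψ.norm_le_one _) (mul_nonneg vonMangoldt_nonneg (hw.nonneg _))
    _ = _ := mul_one _

/-- the exceptional term -/
theorem exc (N q r₁ D : ℕ) (hN : 1 ≤ N) (hq : 1 ≤ q) (hr : 1 ≤ r₁) (g : ℕ → ℂ) (C : ℝ) (hC : 0 < C)
    (hK : ∀ r : ℕ, 1 ≤ r → ∀ E : ℕ, |Kp q r E| ≤ C / Nat.totient r) (T : ℝ) (hT : 0 ≤ T)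
    (hg : ∀ d, ‖g d‖ ≤ T)
    (hgc : ∀ d d', Nat.Coprime d q → Nat.Coprime d' q → r₁ ∣ N * q * d → d ∣ d' → g d' = g d) :
    ‖∑ d ∈ (Icc 1 D).filter (fun d => Nat.Coprime d q), ((c4 d / (Nat.totient (N * q * d) : ℝ) : ℝ) : ℂ) *
      (if r₁ ∣ N * q * d then g d else 0)‖ ≤ T * (C / Nat.totient r₁) := by
  set G := Nat.gcd r₁ (N * q) with hG
  set ρ := r₁ / G with hρ
  have hGpos : 0 < G := Nat.gcd_pos_of_pos_left _ (by omega)
  have hGρ : G * ρ = r₁ := Nat.mul_div_cancel' (Nat.gcd_dvd_left _ _)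
  have hρpos : 0 < ρ := by
    rcases Nat.eq_zero_or_pos ρ with h | h
    · rw [h, mul_zero] at hGρ; omega
    · exact h
  have hφ1 : (0 : ℝ) < Nat.totient r₁ := by exact_mod_cast Nat.totient_pos.2 hr
  have hiff : ∀ d, r₁ ∣ N * q * d ↔ ρ ∣ d := by
    intro d
    constructor
    · intro h
      have hco : Nat.Coprime ρ (N * q / G) := by
        have := Nat.coprime_div_gcd_div_gcd (m := r₁) (n := N * q) hGpos
        exact this
      apply Nat.Coprime.dvd_of_dvd_mul_left hco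
      have h2 : G * ρ ∣ G * (N * q / G * d) := by
        rw [hGρ, ← mul_assoc, Nat.mul_div_cancel' (Nat.gcd_dvd_right _ _)]
        exact h
      exact Nat.dvd_of_mul_dvd_mul_left hGpos h2
    · intro h
      rw [← hGρ]
      exact mul_dvd_mul (Nat.gcd_dvd_right _ _) h
  have hr₁ρ : r₁ ∣ N * q * ρ := (hiff ρ).2 dvd_rfl
  by_cases hco : Nat.Coprime ρ q
  · have hsum : ∑ d ∈ (Icc 1 D).filter (fun d => Nat.Coprime d q),
        ((c4 d / (Nat.totient (N * q * d) : ℝ) : ℝ) : ℂ) * (if r₁ ∣ N * q * d then g d else 0) =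
        ((c4 ρ * Kp q (N * q * ρ) (D / ρ) : ℝ) : ℂ) * g ρ := by
      have e1 : ∑ d ∈ (Icc 1 D).filter (fun d => Nat.Coprime d q),
        ((c4 d / (Nat.totient (N * q * d) : ℝ) : ℝ) : ℂ) * (if r₁ ∣ N * q * d then g d else 0) =
        ∑ d ∈ ((Icc 1 D).filter (fun d => Nat.Coprime d q)).filter (fun d => ρ ∣ d),
          ((c4 d / (Nat.totient (N * q * d) : ℝ) : ℝ) : ℂ) * g ρ := by
        rw [Finset.sum_filter (s := (Icc 1 D).filter (fun d => Nat.Coprime d q))]
        refine Finset.sum_congr rfl fun d hd => ?_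
        rw [mem_filter] at hd
        by_cases h : ρ ∣ d
        · rw [if_pos h, if_pos ((hiff d).2 h), hgc ρ d hco hd.2 hr₁ρ h]
        · rw [if_neg h, if_neg (fun h' => h ((hiff d).1 h')), mul_zero]
      rw [e1, ← Finset.sum_mul]
      congr 1
      unfold Kp
      rw [Finset.mul_sum]
      push_cast
      symm
      apply Finset.sum_bij (fun e _ => ρ * e)
      · intro e he
        simp only [mem_filter, mem_Icc] at he ⊢
        refine ⟨⟨⟨Nat.mul_pos hρpos he.1.1, ?_⟩, Nat.Coprime.mul_left hco he.2⟩, dvd_mul_right _ _⟩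
        rw [mul_comm]
        exact (Nat.le_div_iff_mul_le hρpos).1 he.1.2
      · intro e _ e' _ h
        exact Nat.eq_of_mul_eq_mul_left hρpos h
      · intro d hd
        simp only [mem_filter, mem_Icc] at hd
        obtain ⟨⟨⟨h1, h2⟩, h3⟩, e, rfl⟩ := hd
        refine ⟨e, ?_, rfl⟩
        simp only [mem_filter, mem_Icc]
        refine ⟨⟨?_, ?_⟩, Nat.Coprime.coprime_mul_left h3⟩
        · rcases Nat.eq_zero_or_pos e with h | h
          · subst h; simp at h1
          · exact h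
        · rw [Nat.le_div_iff_mul_le hρpos, mul_comm]
          exact h2
      · intro e _
        rw [c4_mul, mul_assoc (N * q) ρ e]
        push_cast
        ring
    rw [hsum, norm_mul, Complex.norm_real, Real.norm_eq_abs, abs_mul]
    have h1 := hK (N * q * ρ) (Nat.mul_pos (Nat.mul_pos hN hq) hρpos) (D / ρ)
    have h2 : (Nat.totient r₁ : ℝ) ≤ Nat.totient (N * q * ρ) := by
      have h3 : Nat.totient r₁ ≤ Nat.totient (N * q * ρ) :=
        Nat.le_of_dvd (Nat.totient_pos.2 (Nat.mul_pos (Nat.mul_pos hN hq) hρpos))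
          (Nat.totient_dvd_of_dvd hr₁ρ)
      exact_mod_cast h3
    have h3 : |Kp q (N * q * ρ) (D / ρ)| ≤ C / Nat.totient r₁ := by
      refine h1.trans ?_
      gcongr
    calc |c4 ρ| * |Kp q (N * q * ρ) (D / ρ)| * ‖g ρ‖ ≤ (1 * (C / Nat.totient r₁)) * T := by
          apply mul_le_mul _ (hg ρ) (norm_nonneg _) (by positivity)
          exact mul_le_mul (c4_abs ρ) h3 (abs_nonneg _) zero_le_one
      _ = T * (C / Nat.totient r₁) := by ring
  · rw [Finset.sum_eq_zero]
    · rw [norm_zero]; positivity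
    · intro d hd
      rw [mem_filter] at hd
      rw [if_neg, mul_zero]
      intro h
      exact hco (Nat.Coprime.coprime_dvd_left ((hiff d).1 h) hd.2)

end hMA

open hMA in
theorem hMA (hBV : StBV) (hTH : StTH) (hK1 : StK1) (hDP : StDP) : StMA := by
  intro N p q m₁ hH w hw ε hε
  obtain ⟨_, C, x₁, _, hC, hx₁, hTh⟩ := hTH w hw
  obtain ⟨_, Cq, _, hCq, hKall⟩ := hK1 q hH.hq hH.hq1
  have hNq1 : 1 ≤ N * q := Nat.mul_pos hH.hN hH.hq1
  obtain ⟨R₁, hR₁⟩ := phi_lower hDP (3 * C * Cq / ε)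
  obtain ⟨B', x₂, hBVx⟩ := hBV w hw 1 R₁
  refine ⟨B' + 1, ?_⟩
  intro B hB
  -- convergence of `Kp`
  have hconv := (hKall (N * q) hNq1).2.1
  obtain ⟨E₀, hE₀⟩ := Metric.tendsto_atTop.1 hconv (ε / (3 * C)) (by positivity)
  have ev1 : ∀ᶠ x : ℝ in atTop, Real.log x ^ B * (E₀ + 1) ≤ √x := by
    have h := (isLittleO_log_rpow_rpow_atTop (s := 1 / 2) (B : ℝ) (by norm_num)).bound
      (show (0 : ℝ) < 1 / (E₀ + 1) by positivity)
    filter_upwards [h, eventually_ge_atTop (1 : ℝ)] with x hx hx1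
    have hl : 0 ≤ Real.log x := Real.log_nonneg hx1
    rw [Real.rpow_natCast, Real.norm_of_nonneg (pow_nonneg hl _), Real.norm_of_nonneg (by positivity),
      ← Real.sqrt_eq_rpow] at hx
    have hE : (0 : ℝ) < (E₀ : ℝ) + 1 := by positivity
    calc Real.log x ^ B * (E₀ + 1) ≤ (1 / (E₀ + 1) * √x) * (E₀ + 1) := by gcongr
      _ = √x := by field_simp
  obtain ⟨x₀, hx₀⟩ := Filter.eventually_atTop.mp
    ((ev1.and (Real.tendsto_log_atTop.eventually_ge_atTop (N * q + 3 / ε + 1))).and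
      (eventually_ge_atTop (max (max x₁ x₂) (p + 1))))
  refine ⟨x₀, ?_⟩
  intro x hx
  obtain ⟨⟨hev1, hL⟩, hxmax⟩ := hx₀ x hx
  have hxx1 : x₁ ≤ x := (le_max_left _ _).trans ((le_max_left _ _).trans hxmax)
  have hxx2 : x₂ ≤ x := (le_max_right _ _).trans ((le_max_left _ _).trans hxmax)
  have hxp : (p : ℝ) + 1 ≤ x := (le_max_right _ _).trans hxmax
  have hx1 : 1 ≤ x := hx₁.trans hxx1
  have hx0 : 0 < x := by linarith
  set L := Real.log x with hLdef
  have hNq0 : (0 : ℝ) < N * q := by exact_mod_cast hNq1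
  have h3ε : 0 < 3 / ε := by positivity
  have hL1 : 1 ≤ L := by linarith
  have hL0 : 0 < L := by linarith
  obtain ⟨r₁, hr₁0, ψ₁, hr₁, hBVb⟩ := hBVx x hxx2
  set D₁ := DD x B with hD₁
  have hD₁E : E₀ ≤ D₁ := by
    rw [hD₁]
    unfold DD
    apply Nat.le_floor
    rw [le_div_iff₀ (by positivity)]
    have h1 : 0 ≤ L ^ B := by positivity
    nlinarith
  -- the classes
  have hex : ∀ d : ℕ, ∃ m' : ℕ, Nat.Coprime d q → (d ∣ m' ∧ m' % q = m₁ % q) := by
    intro d
    by_cases hd : Nat.Coprime d q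
    · have hc := Nat.chineseRemainder hd 0 m₁
      exact ⟨hc.1, fun _ => ⟨Nat.modEq_zero_iff_dvd.1 hc.2.1, hc.2.2⟩⟩
    · exact ⟨0, fun h => absurd h hd⟩
  choose m' hm' using hex
  set bd : ℕ → ℤ := fun d => (N : ℤ) * m' d - p with hbd
  have hcop : ∀ d, 1 ≤ d → Nat.Coprime d q → IsCoprime (bd d) ((N * q * d : ℕ) : ℤ) := by
    intro d hd hdq
    obtain ⟨h1, h2⟩ := hm' d hdq
    push_cast
    have hpp := hH.hp
    refine IsCoprime.mul_right (IsCoprime.mul_right ?_ ?_) ?_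
    · -- coprime to `N`
      have h3 : IsCoprime ((p : ℤ)) (N : ℤ) :=
        Nat.isCoprime_iff_coprime.2 ((Nat.Prime.coprime_iff_not_dvd hpp).2 hH.hNp)
      have h4 : IsCoprime (-(p : ℤ) + (N : ℤ) * m' d) (N : ℤ) :=
        IsCoprime.add_mul_left_left h3.neg_left _
      have e : bd d = -(p : ℤ) + (N : ℤ) * m' d := by simp only [hbd]; ring
      rw [e]
      exact h4
    · -- coprime to `q`
      have h3 : (q : ℤ) ∣ (m' d : ℤ) - m₁ := by
        have : m₁ ≡ m' d [MOD q] := h2.symm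
        exact Nat.modEq_iff_dvd.1 this
      obtain ⟨t, ht⟩ := h3
      have e : bd d = ((N : ℤ) * m₁ - p) + (q : ℤ) * (N * t) := by
        simp only [hbd]
        have : (m' d : ℤ) = m₁ + q * t := by linarith
        rw [this]
        ring
      rw [e]
      exact IsCoprime.add_mul_left_left hH.hc _
    · -- coprime to `d`
      obtain ⟨t, ht⟩ := h1
      have h3 : Nat.Coprime p d := by
        rw [Nat.Prime.coprime_iff_not_dvd hpp]
        intro h
        exact (Nat.Prime.not_coprime_iff_dvd.2 ⟨p, hpp, h, hH.hpq⟩) hdq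
      have h4 : IsCoprime ((p : ℤ)) (d : ℤ) := Nat.isCoprime_iff_coprime.2 h3
      have h5 : IsCoprime (-(p : ℤ) + (d : ℤ) * (N * t)) (d : ℤ) :=
        IsCoprime.add_mul_left_left h4.neg_left _
      have e : bd d = -(p : ℤ) + (d : ℤ) * (N * t) := by
        simp only [hbd]
        rw [ht]
        push_cast
        ring
      rw [e]
      exact h5
  set b : ℕ → ℤ := fun Q => if (N * q ∣ Q ∧ Nat.Coprime (Q / (N * q)) q) then bd (Q / (N * q)) else 1
    with hb
  have hb1 : ∀ Q : ℕ, 1 ≤ Q → IsCoprime (b Q) (Q : ℤ) := by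
    intro Q hQ
    simp only [hb]
    split_ifs with h
    · obtain ⟨⟨d, rfl⟩, h2⟩ := h
      rw [Nat.mul_div_cancel_left d (by omega)] at h2 ⊢
      have hd : 1 ≤ d := by
        rcases Nat.eq_zero_or_pos d with h0 | h0
        · subst h0; simp at hQ
        · exact h0
      exact hcop d hd h2
    · exact isCoprime_one_left
  have hb2 : ∀ d, Nat.Coprime d q → b (N * q * d) = bd d := by
    intro d hd
    simp only [hb]
    rw [Nat.mul_div_cancel_left d (by omega), if_pos ⟨dvd_mul_right _ _, hd⟩]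
  have hBVs := hBVb b hb1
  set Dset := (Icc 1 D₁).filter (fun d => Nat.Coprime d q) with hDset
  -- the error term
  have herr : ∑ d ∈ Dset, ‖EE w x ψ₁ (N * q * d) (bd d)‖ ≤ ε / 3 * x := by
    have h1 : ∑ d ∈ Dset, ‖EE w x ψ₁ (N * q * d) (bd d)‖ =
        ∑ Q ∈ Dset.image (fun d => N * q * d), ‖EE w x ψ₁ Q (b Q)‖ := by
      rw [Finset.sum_image]
      · refine Finset.sum_congr rfl fun d hd => ?_
        rw [hDset, mem_filter] at hd
        rw [hb2 d hd.2]
      · intro d _ d' _ h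
        exact Nat.eq_of_mul_eq_mul_left (by omega) h
    rw [h1]
    have h2 : Dset.image (fun d => N * q * d) ⊆ Icc 1 ⌊√x / Real.log x ^ B'⌋₊ := by
      intro Q hQ
      rw [mem_image] at hQ
      obtain ⟨d, hd, rfl⟩ := hQ
      rw [hDset, mem_filter, mem_Icc] at hd
      rw [mem_Icc]
      refine ⟨Nat.mul_pos (by omega) hd.1.1, ?_⟩
      apply Nat.le_floor
      have hdD : (d : ℝ) ≤ √x / L ^ B := by
        have h3 : (d : ℝ) ≤ D₁ := by exact_mod_cast hd.1.2
        refine h3.trans ?_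
        rw [hD₁]
        unfold DD
        exact Nat.floor_le (by positivity)
      rw [← hLdef]
      push_cast
      calc (N : ℝ) * q * d ≤ L * (√x / L ^ B) := by
            apply mul_le_mul _ hdD (Nat.cast_nonneg _) hL0.le
            linarith
        _ ≤ L * (√x / L ^ (B' + 1)) := by
            apply mul_le_mul_of_nonneg_left _ hL0.le
            apply div_le_div_of_nonneg_left (by positivity) (by positivity)
            exact pow_le_pow_right₀ hL1 hB
        _ = √x / L ^ B' := by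
            rw [pow_succ]
            field_simp
    refine (Finset.sum_le_sum_of_subset_of_nonneg h2 (fun _ _ _ => norm_nonneg _)).trans ?_
    refine hBVs.trans ?_
    rw [pow_one, div_le_iff₀ hL0]
    have h3 : 1 ≤ ε / 3 * L := by
      have h4 : 3 / ε ≤ L := by linarith
      calc (1 : ℝ) = ε / 3 * (3 / ε) := by field_simp
        _ ≤ ε / 3 * L := by gcongr
    nlinarith
  -- the main identity
  have hThx := (hTh x hxx1).2
  have hTh0 : 0 ≤ Th w x := by
    unfold Th
    exact Finset.sum_nonneg fun n _ => mul_nonneg vonMangoldt_nonneg (hw.nonneg _)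
  have hr₁1 : 1 ≤ r₁ := by omega
  set g : ℕ → ℂ := fun d => (starRingEnd ℂ) (ψ₁ ((bd d : ℤ) : ZMod r₁)) * TT w x (fun n => ψ₁ (n : ZMod r₁))
    with hg
  have hgle : ∀ d, ‖g d‖ ≤ C * x := by
    intro d
    simp only [hg]
    rw [norm_mul, RCLike.norm_conj]
    calc _ ≤ 1 * Th w x := mul_le_mul (ψ₁.norm_le_one _) (TT_bound w hw x ψ₁) (norm_nonneg _) zero_le_one
      _ ≤ C * x := by linarith
  have hgc : ∀ d d', Nat.Coprime d q → Nat.Coprime d' q → r₁ ∣ N * q * d → d ∣ d' → g d' = g d := by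
    intro d d' hd hd' hr hdd
    simp only [hg]
    have h1 : ((bd d' : ℤ) : ZMod r₁) = ((bd d : ℤ) : ZMod r₁) := by
      rw [ZMod.intCast_eq_intCast_iff_dvd_sub]
      have e : bd d - bd d' = (N : ℤ) * ((m' d : ℤ) - m' d') := by
        simp only [hbd]; ring
      rw [e]
      have h2 : (q : ℤ) ∣ (m' d : ℤ) - m' d' := by
        have : m' d' ≡ m' d [MOD q] := (hm' d' hd').2.trans (hm' d hd).2.symm
        exact Nat.modEq_iff_dvd.1 this
      have h3 : (d : ℤ) ∣ (m' d : ℤ) - m' d' :=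
        dvd_sub (Int.natCast_dvd_natCast.2 (hm' d hd).1)
          (Int.natCast_dvd_natCast.2 (hdd.trans (hm' d' hd').1))
      have hco : IsCoprime (q : ℤ) (d : ℤ) := Nat.isCoprime_iff_coprime.2 hd.symm
      have h4 : (N : ℤ) * ((q : ℤ) * d) ∣ (N : ℤ) * ((m' d : ℤ) - m' d') :=
        mul_dvd_mul_left _ (hco.mul_dvd h2 h3)
      refine dvd_trans ?_ h4
      have h5 : (r₁ : ℤ) ∣ ((N * q * d : ℕ) : ℤ) := Int.natCast_dvd_natCast.2 hr
      push_cast at h5
      rwa [mul_assoc] at h5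
    rw [h1]
  have hexc := exc N q r₁ D₁ hH.hN hH.hq1 hr₁1 g Cq hCq (fun r hr E => (hKall r hr).1 E) (C * x)
    (by positivity) hgle hgc
  have hid : ((∑ m ∈ ms x q m₁, lam w x N p m * ∑ d ∈ (Icc 1 D₁).filter (fun d => d ∣ m), c4 d -
      Th w x * KK q (N * q) : ℝ) : ℂ) =
      ∑ d ∈ Dset, (c4 d : ℂ) * EE w x ψ₁ (N * q * d) (bd d) +
      ((Th w x * (Kp q (N * q) D₁ - KK q (N * q)) : ℝ) : ℂ) +
      ∑ d ∈ Dset, ((c4 d / (Nat.totient (N * q * d) : ℝ) : ℝ) : ℂ) *
        (if r₁ ∣ N * q * d then g d else 0) := by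
    rw [S_eq w N p q m₁ hH x D₁]
    have h1 : ∀ d ∈ Dset, c4 d * ∑ m ∈ (ms x q m₁).filter (fun m => d ∣ m), lam w x N p m =
        c4 d * ∑ n ∈ (Icc 1 ⌊3 * x⌋₊).filter (fun n : ℕ => ((N * q * d : ℕ) : ℤ) ∣ (n : ℤ) - bd d),
          Λ n * w (Real.log (n / x)) := by
      intro d hd
      rw [hDset, mem_filter, mem_Icc] at hd
      rw [T_bij w hw N p q m₁ hH x hx1 (by linarith) d (m' d) hd.1.1 hd.2 (hm' d hd.2).1 (hm' d hd.2).2]
    rw [Finset.sum_congr rfl h1]
    have h2 : Kp q (N * q) D₁ = ∑ d ∈ Dset, c4 d / (Nat.totient (N * q * d) : ℝ) := rfl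
    rw [mul_sub, h2, Finset.mul_sum]
    push_cast
    rw [add_assoc, sub_eq_add_neg, sub_eq_add_neg]
    have h3 : ∀ A B C D E : ℂ, A = B + C + D → A + -E = B + (C + -E + D) := by
      intro A B C D E h
      rw [h]; ring
    apply h3
    rw [← Finset.sum_add_distrib, ← Finset.sum_add_distrib]
    refine Finset.sum_congr rfl fun d _ => ?_
    unfold EE
    simp only [hg]
    push_cast
    split_ifs <;> ring
  have hfin : |∑ m ∈ ms x q m₁, lam w x N p m * ∑ d ∈ (Icc 1 D₁).filter (fun d => d ∣ m), c4 d -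
      Th w x * KK q (N * q)| ≤ ε / 3 * x + C * x * (ε / (3 * C)) + C * x * (Cq / Nat.totient r₁) := by
    rw [← Real.norm_eq_abs, ← Complex.norm_real, hid]
    refine (norm_add_le _ _).trans (add_le_add ((norm_add_le _ _).trans (add_le_add ?_ ?_)) hexc)
    · refine (norm_sum_le _ _).trans ((Finset.sum_le_sum fun d _ => ?_).trans herr)
      rw [norm_mul, Complex.norm_real, Real.norm_eq_abs]
      calc |c4 d| * _ ≤ 1 * _ := mul_le_mul_of_nonneg_right (c4_abs d) (norm_nonneg _)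
        _ = _ := one_mul _
    · rw [Complex.norm_real, Real.norm_eq_abs, abs_mul, abs_of_nonneg hTh0]
      have h1 := hE₀ D₁ hD₁E
      rw [Real.dist_eq] at h1
      exact mul_le_mul hThx h1.le (abs_nonneg _) (by positivity)
  refine hfin.trans ?_
  have hφ := hR₁ r₁ hr₁
  have hφ0 : (0 : ℝ) < Nat.totient r₁ := by exact_mod_cast Nat.totient_pos.2 hr₁1
  have h1 : C * x * (Cq / Nat.totient r₁) ≤ ε / 3 * x := by
    rw [div_le_iff₀ hε] at hφ
    rw [← mul_div_assoc, div_le_iff₀ hφ0]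
    nlinarith
  have h2 : C * x * (ε / (3 * C)) = ε / 3 * x := by field_simp
  linarith

end Pool.Agent.Helper15.AB
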