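import Mathlib
import Pool.Agent.Helper15.AB.StMid

/-!
# Module MI: the mid range
-/

set_option autoImplicit false

namespace Pool.Agent.Helper15.AB

open Finset ArithmeticFunction Filter Topology

namespace hMI

theorem c4_abs (n : ℕ) : |c4 n| ≤ 1 := by
  unfold c4
  split_ifs <;> norm_num

/-- the divisor sum -/
noncomputable def DS (x : ℝ) (B m : ℕ) : ℝ :=
  ∑ d ∈ (Ioc (DD x B) ⌊2 * √x⌋₊).filter (fun d => d ∣ m ∧ d ^ 2 < m), c4 d

/-- the number of divisors in the mid range -/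
noncomputable def CN (x : ℝ) (B m : ℕ) : ℝ :=
  (((Ioc (DD x B) ⌊2 * √x⌋₊).filter (fun d => d ∣ m)).card : ℝ)

theorem abs_sum_c4_le (s : Finset ℕ) : |∑ d ∈ s, c4 d| ≤ s.card := by
  refine (Finset.abs_sum_le_sum_abs _ _).trans ?_
  calc ∑ d ∈ s, |c4 d| ≤ ∑ d ∈ s, (1 : ℝ) := Finset.sum_le_sum fun d _ => c4_abs d
    _ = s.card := by simp

theorem DS_le (x : ℝ) (B m : ℕ) : |DS x B m| ≤ CN x B m := by
  unfold DS CN
  refine (abs_sum_c4_le _).trans ?_
  have h : ((Ioc (DD x B) ⌊2 * √x⌋₊).filter (fun d => d ∣ m ∧ d ^ 2 < m)).card ≤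
      ((Ioc (DD x B) ⌊2 * √x⌋₊).filter (fun d => d ∣ m)).card := by
    apply card_le_card
    intro d hd
    rw [mem_filter] at hd ⊢
    exact ⟨hd.1, hd.2.1⟩
  exact_mod_cast h

theorem CN_nonneg (x : ℝ) (B m : ℕ) : 0 ≤ CN x B m := Nat.cast_nonneg _

theorem CN_le (x : ℝ) (B m : ℕ) (hm : 1 ≤ m) : CN x B m ≤ m.divisors.card := by
  unfold CN
  have h : ((Ioc (DD x B) ⌊2 * √x⌋₊).filter (fun d => d ∣ m)).card ≤ m.divisors.card := by
    apply card_le_card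
    intro d hd
    rw [mem_filter] at hd
    rw [Nat.mem_divisors]
    exact ⟨hd.2, by omega⟩
  exact_mod_cast h

theorem lam_nonneg {w : ℝ → ℝ} (hw : IsW w) (x : ℝ) (N p m : ℕ) : 0 ≤ lam w x N p m :=
  mul_nonneg vonMangoldt_nonneg (hw.nonneg _)

theorem lam_supp {w : ℝ → ℝ} (hw : IsW w) {x : ℝ} (hx : 0 < x) (N p m : ℕ)
    (h : lam w x N p m ≠ 0) : x ≤ ((N * m - p : ℕ) : ℝ) ∧ ((N * m - p : ℕ) : ℝ) ≤ 3 * x ∧
      1 ≤ N * m - p := by
  unfold lam at h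
  have h1 : Λ (N * m - p) ≠ 0 := left_ne_zero_of_mul h
  have h2 : w (Real.log (((N * m - p : ℕ) : ℝ) / x)) ≠ 0 := right_ne_zero_of_mul h
  have h3 : 1 ≤ N * m - p := by
    by_contra hc
    have : N * m - p = 0 := by omega
    rw [this] at h1
    simp at h1
  have h4 : Real.log (((N * m - p : ℕ) : ℝ) / x) ∈ Set.Icc (0 : ℝ) 1 := by
    by_contra hc
    exact h2 (hw.supp _ hc)
  have hn : (0 : ℝ) < ((N * m - p : ℕ) : ℝ) := by exact_mod_cast h3
  have hpos : 0 < ((N * m - p : ℕ) : ℝ) / x := by positivity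
  have h5 : 1 ≤ ((N * m - p : ℕ) : ℝ) / x := by
    by_contra hc
    rw [not_le] at hc
    have := Real.log_neg hpos hc
    linarith [h4.1]
  have h6 : ((N * m - p : ℕ) : ℝ) / x ≤ 3 := by
    have := (Real.log_le_iff_le_exp hpos).1 h4.2
    linarith [Real.exp_one_lt_d9]
  rw [le_div_iff₀ hx] at h5
  rw [div_le_iff₀ hx] at h6
  exact ⟨by linarith, h6, h3⟩

theorem lam_le {w : ℝ → ℝ} (hw : IsW w) {x : ℝ} (hx : 3 ≤ x) (N p m : ℕ) :
    lam w x N p m ≤ 2 * Real.log x := by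
  have hx0 : 0 < x := by linarith
  have hl : 0 ≤ Real.log x := Real.log_nonneg (by linarith)
  by_cases h : lam w x N p m = 0
  · rw [h]
    linarith
  · obtain ⟨h1, h2, h3⟩ := lam_supp hw hx0 N p m h
    have hn : (0 : ℝ) < ((N * m - p : ℕ) : ℝ) := by exact_mod_cast h3
    have e1 : Λ (N * m - p) ≤ 2 * Real.log x := by
      refine vonMangoldt_le_log.trans ?_
      have e2 : Real.log ((N * m - p : ℕ) : ℝ) ≤ Real.log (x * x) :=
        Real.log_le_log hn (by nlinarith)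
      rw [Real.log_mul hx0.ne' hx0.ne'] at e2
      linarith
    unfold lam
    calc Λ (N * m - p) * w (Real.log (((N * m - p : ℕ) : ℝ) / x)) ≤ Λ (N * m - p) * 1 :=
          mul_le_mul_of_nonneg_left (hw.le_one _) vonMangoldt_nonneg
      _ ≤ 2 * Real.log x := by rwa [mul_one]

/-- the composite values -/
theorem partA {w : ℝ → ℝ} (hw : IsW w) {x : ℝ} (hx : 3 ≤ x) (N p q m₁ : ℕ) (hN : 1 ≤ N) :
    ∑ m ∈ (ms x q m₁).filter (fun m => ¬ (N * m - p).Prime), lam w x N p m ≤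
      2 * √(3 * x) * Real.log (3 * x) := by
  have hx0 : 0 < x := by linarith
  set T' := ((ms x q m₁).filter (fun m => ¬ (N * m - p).Prime)).filter
    (fun m => lam w x N p m ≠ 0) with hT'
  have hinj : Set.InjOn (fun m : ℕ => N * m - p) (T' : Set ℕ) := by
    intro m hm m' hm' h
    have h1 := (lam_supp hw hx0 N p m (mem_filter.1 hm).2).2.2
    have h2 := (lam_supp hw hx0 N p m' (mem_filter.1 hm').2).2.2
    simp only [] at h
    have h3 : N * m = N * m' := by omega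
    exact Nat.eq_of_mul_eq_mul_left hN h3
  calc ∑ m ∈ (ms x q m₁).filter (fun m => ¬ (N * m - p).Prime), lam w x N p m
      = ∑ m ∈ T', lam w x N p m := by
        rw [hT', sum_filter_ne_zero]
    _ ≤ ∑ m ∈ T', Λ (N * m - p) := by
        refine sum_le_sum fun m _ => ?_
        unfold lam
        calc Λ (N * m - p) * w (Real.log (((N * m - p : ℕ) : ℝ) / x)) ≤ Λ (N * m - p) * 1 :=
              mul_le_mul_of_nonneg_left (hw.le_one _) vonMangoldt_nonneg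
          _ = _ := mul_one _
    _ = ∑ n ∈ T'.image (fun m : ℕ => N * m - p), Λ n := by rw [sum_image hinj]
    _ ≤ ∑ n ∈ (Ioc 0 ⌊3 * x⌋₊).filter (fun n => ¬ n.Prime), Λ n := by
        refine sum_le_sum_of_subset_of_nonneg ?_ fun n _ _ => vonMangoldt_nonneg
        intro n hn
        obtain ⟨m, hm, rfl⟩ := mem_image.1 hn
        rw [hT', mem_filter, mem_filter] at hm
        obtain ⟨h1, h2, h3⟩ := lam_supp hw hx0 N p m hm.2
        rw [mem_filter, mem_Ioc]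
        exact ⟨⟨h3, Nat.le_floor h2⟩, hm.1.2⟩
    _ = Chebyshev.psi (3 * x) - Chebyshev.theta (3 * x) :=
        (Chebyshev.psi_sub_theta_eq_sum_not_prime (3 * x)).symm
    _ ≤ 2 * √(3 * x) * Real.log (3 * x) := Chebyshev.psi_sub_theta_le (by linarith)

/-- splitting of the divisor sum on a short interval -/
theorem split {x η : ℝ} (hη : 0 < η) (B X₁ X₂ m : ℕ) (h1 : X₁ < m) (h2 : m ≤ X₂)
    (h3 : (X₂ : ℝ) ≤ (1 + η) ^ 2 * X₁) (h4 : (X₁ : ℝ) ≤ 4 * x) :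
    |DS x B m| ≤ |∑ d ∈ (Ioc (DD x B) ⌊√(X₁ : ℝ)⌋₊).filter (fun d => d ∣ m), c4 d| +
      (((Ioc ⌊√(X₁ : ℝ)⌋₊ ⌊(1 + η) * √(X₁ : ℝ)⌋₊).filter (fun d => d ∣ m)).card : ℝ) := by
  set F := (Ioc (DD x B) ⌊2 * √x⌋₊).filter (fun d => d ∣ m ∧ d ^ 2 < m) with hF
  set D₂ := ⌊√(X₁ : ℝ)⌋₊ with hD₂
  have hX0 : (0 : ℝ) ≤ X₁ := Nat.cast_nonneg _
  have hs0 : 0 ≤ √(X₁ : ℝ) := Real.sqrt_nonneg _
  have hss : √(X₁ : ℝ) ^ 2 = X₁ := Real.sq_sqrt hX0
  have hsx : √(X₁ : ℝ) ≤ 2 * √x := by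
    have e : 2 * √x = √(4 * x) := by
      rw [Real.sqrt_mul (by norm_num), show (4 : ℝ) = 2 ^ 2 by norm_num, Real.sqrt_sq (by norm_num)]
    rw [e]
    exact Real.sqrt_le_sqrt h4
  have hD2 : D₂ ^ 2 ≤ X₁ := by
    have e : (D₂ : ℝ) ≤ √(X₁ : ℝ) := Nat.floor_le hs0
    have : ((D₂ ^ 2 : ℕ) : ℝ) ≤ X₁ := by
      push_cast
      rw [← hss]
      gcongr
    exact_mod_cast this
  have e1 : F.filter (fun d => d ≤ D₂) = (Ioc (DD x B) D₂).filter (fun d => d ∣ m) := by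
    ext d
    rw [mem_filter, hF, mem_filter, mem_filter, mem_Ioc, mem_Ioc]
    constructor
    · rintro ⟨⟨⟨h5, h6⟩, h7, h8⟩, h9⟩
      exact ⟨⟨h5, h9⟩, h7⟩
    · rintro ⟨⟨h5, h6⟩, h7⟩
      refine ⟨⟨⟨h5, ?_⟩, h7, ?_⟩, h6⟩
      · exact h6.trans (Nat.floor_le_floor hsx)
      · calc d ^ 2 ≤ D₂ ^ 2 := Nat.pow_le_pow_left h6 2
          _ ≤ X₁ := hD2
          _ < m := h1
  have e2 : F.filter (fun d => ¬ d ≤ D₂) ⊆
      (Ioc D₂ ⌊(1 + η) * √(X₁ : ℝ)⌋₊).filter (fun d => d ∣ m) := by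
    intro d hd
    rw [mem_filter, hF, mem_filter, mem_Ioc] at hd
    obtain ⟨⟨⟨h5, h6⟩, h7, h8⟩, h9⟩ := hd
    rw [mem_filter, mem_Ioc]
    refine ⟨⟨by omega, ?_⟩, h7⟩
    apply Nat.le_floor
    have h10 : (d : ℝ) ^ 2 ≤ ((1 + η) * √(X₁ : ℝ)) ^ 2 := by
      have : ((d ^ 2 : ℕ) : ℝ) ≤ X₂ := by exact_mod_cast (h8.le.trans h2)
      push_cast at this
      calc (d : ℝ) ^ 2 ≤ X₂ := this
        _ ≤ (1 + η) ^ 2 * X₁ := h3
        _ = ((1 + η) * √(X₁ : ℝ)) ^ 2 := by rw [mul_pow, hss]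
    exact (pow_le_pow_iff_left₀ (by positivity) (by positivity) (by norm_num)).1 h10
  have e3 : DS x B m = ∑ d ∈ F.filter (fun d => d ≤ D₂), c4 d +
      ∑ d ∈ F.filter (fun d => ¬ d ≤ D₂), c4 d := by
    unfold DS
    rw [sum_filter_add_sum_filter_not]
  rw [e3, e1]
  refine (abs_add_le _ _).trans ?_
  have e4 : |∑ d ∈ F.filter (fun d => ¬ d ≤ D₂), c4 d| ≤
      (((Ioc D₂ ⌊(1 + η) * √(X₁ : ℝ)⌋₊).filter (fun d => d ∣ m)).card : ℝ) := by
    refine (abs_sum_c4_le _).trans ?_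
    exact_mod_cast card_le_card e2
  linarith

theorem sum_blocks (f : ℕ → ℝ) (X : ℕ → ℕ) (hX : Monotone X) (J : ℕ) :
    ∑ j ∈ range J, ∑ m ∈ Ioc (X j) (X (j + 1)), f m = ∑ m ∈ Ioc (X 0) (X J), f m := by
  induction J with
  | zero => simp
  | succ J ih =>
    rw [sum_range_succ, ih, Finset.sum_Ioc_consecutive f (hX (Nat.zero_le J)) (hX (Nat.le_succ J))]

theorem min_add_add_right_helper (a b c : ℕ) : min a b + c = min (a + c) (b + c) := by
  omega

/-- one block -/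
theorem block {x η a b c : ℝ} (N p q m₁ B X₁ X₂ : ℕ) (hη : 0 < η)
    (h3 : (X₂ : ℝ) ≤ (1 + η) ^ 2 * X₁) (h4 : (X₂ : ℝ) ≤ 4 * x) (h12 : X₁ ≤ X₂)
    (ha : (((ms x q m₁).filter (fun m => (N * m - p).Prime ∧
      1.5 * LP x < (om (PP x) m : ℝ))).card : ℝ) ≤ a)
    (hb : ∑ m ∈ (Ioc X₁ X₂).filter (fun m => m % q = m₁ % q ∧ (N * m - p).Prime),
      (∑ d ∈ (Ioc (DD x B) ⌊√(X₁ : ℝ)⌋₊).filter (fun d => d ∣ m), c4 d) ^ 2 ≤ b)
    (hc : ∑ m ∈ (Ioc X₁ X₂).filter (fun m => m % q = m₁ % q ∧ (N * m - p).Prime),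
      (((Ioc ⌊√(X₁ : ℝ)⌋₊ ⌊(1 + η) * √(X₁ : ℝ)⌋₊).filter (fun d => d ∣ m)).card : ℝ) ≤ c) :
    ∑ m ∈ (Ioc X₁ X₂).filter (fun m => m % q = m₁ % q ∧ (N * m - p).Prime ∧
      1.5 * LP x < (om (PP x) m : ℝ)), |DS x B m| ≤ √(a * b) + c := by
  set A := (Ioc X₁ X₂).filter (fun m => m % q = m₁ % q ∧ (N * m - p).Prime ∧
      1.5 * LP x < (om (PP x) m : ℝ)) with hA
  set S : ℕ → ℝ := fun m => ∑ d ∈ (Ioc (DD x B) ⌊√(X₁ : ℝ)⌋₊).filter (fun d => d ∣ m), c4 d with hS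
  set n : ℕ → ℝ := fun m =>
    (((Ioc ⌊√(X₁ : ℝ)⌋₊ ⌊(1 + η) * √(X₁ : ℝ)⌋₊).filter (fun d => d ∣ m)).card : ℝ) with hn
  have hX1 : (X₁ : ℝ) ≤ 4 * x := le_trans (by exact_mod_cast h12) h4
  have hsub : A ⊆ (Ioc X₁ X₂).filter (fun m => m % q = m₁ % q ∧ (N * m - p).Prime) := by
    intro m hm
    rw [hA, mem_filter] at hm
    rw [mem_filter]
    exact ⟨hm.1, hm.2.1, hm.2.2.1⟩
  have h5 : ∑ m ∈ A, |DS x B m| ≤ ∑ m ∈ A, |S m| + ∑ m ∈ A, n m := by
    rw [← sum_add_distrib]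
    refine sum_le_sum fun m hm => ?_
    rw [hA, mem_filter, mem_Ioc] at hm
    exact split hη B X₁ X₂ m hm.1.1 hm.1.2 h3 hX1
  have h6 : ∑ m ∈ A, n m ≤ c :=
    (sum_le_sum_of_subset_of_nonneg hsub fun m _ _ => Nat.cast_nonneg _).trans hc
  have h7 : ∑ m ∈ A, |S m| ≤ √(a * b) := by
    apply Real.le_sqrt_of_sq_le
    have e1 : (∑ m ∈ A, |S m|) ^ 2 ≤ A.card * ∑ m ∈ A, |S m| ^ 2 := sq_sum_le_card_mul_sum_sq
    have e2 : (A.card : ℝ) ≤ a := by
      refine le_trans ?_ ha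
      have : A.card ≤ ((ms x q m₁).filter (fun m => (N * m - p).Prime ∧
          1.5 * LP x < (om (PP x) m : ℝ))).card := by
        apply card_le_card
        intro m hm
        rw [hA, mem_filter, mem_Ioc] at hm
        rw [mem_filter, ms, mem_filter, mem_Icc]
        refine ⟨⟨⟨by omega, ?_⟩, hm.2.1⟩, hm.2.2⟩
        exact hm.1.2.trans (Nat.le_floor h4)
      exact_mod_cast this
    have e3 : ∑ m ∈ A, |S m| ^ 2 ≤ b := by
      refine le_trans ?_ hb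
      simp only [sq_abs]
      exact sum_le_sum_of_subset_of_nonneg hsub fun m _ _ => sq_nonneg _
    have e4 : 0 ≤ ∑ m ∈ A, |S m| ^ 2 := sum_nonneg fun m _ => by positivity
    calc (∑ m ∈ A, |S m|) ^ 2 ≤ A.card * ∑ m ∈ A, |S m| ^ 2 := e1
      _ ≤ a * b := mul_le_mul e2 e3 e4 (le_trans (Nat.cast_nonneg _) e2)
  linarith

/-- the term with composite values is small -/
theorem small_par {x ε C₄ : ℝ} (hx : 3 ≤ x) (hε : 0 < ε) (hC : 0 < C₄)
    (h : 512 * C₄ / ε ≤ x ^ (1 / 8 : ℝ)) :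
    C₄ * (4 * x) ^ (1 / 4 : ℝ) * (2 * √(3 * x) * Real.log (3 * x)) ≤ ε / 4 * x := by
  have hx0 : 0 < x := by linarith
  have e1 : (4 * x) ^ (1 / 4 : ℝ) ≤ 2 * x ^ (1 / 4 : ℝ) := by
    rw [Real.mul_rpow (by norm_num) hx0.le]
    have : (4 : ℝ) ^ (1 / 4 : ℝ) ≤ 4 ^ (1 / 2 : ℝ) :=
      Real.rpow_le_rpow_of_exponent_le (by norm_num) (by norm_num)
    have e : (4 : ℝ) ^ (1 / 2 : ℝ) = 2 := by
      rw [← Real.sqrt_eq_rpow, show (4 : ℝ) = 2 ^ 2 by norm_num, Real.sqrt_sq (by norm_num)]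
    rw [e] at this
    gcongr
  have e2 : √(3 * x) ≤ 2 * x ^ (1 / 2 : ℝ) := by
    have e : 2 * x ^ (1 / 2 : ℝ) = √(4 * x) := by
      rw [← Real.sqrt_eq_rpow, Real.sqrt_mul (by norm_num), show (4 : ℝ) = 2 ^ 2 by norm_num,
        Real.sqrt_sq (by norm_num)]
    rw [e]
    exact Real.sqrt_le_sqrt (by linarith)
  have e3 : Real.log (3 * x) ≤ 16 * x ^ (1 / 8 : ℝ) := by
    have h1 : Real.log (3 * x) ≤ Real.log (x * x) :=
      Real.log_le_log (by positivity) (by nlinarith)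
    rw [Real.log_mul hx0.ne' hx0.ne'] at h1
    have h2 := Real.log_le_rpow_div hx0.le (show (0 : ℝ) < 1 / 8 by norm_num)
    have h3 : x ^ (1 / 8 : ℝ) / (1 / 8) = 8 * x ^ (1 / 8 : ℝ) := by ring
    rw [h3] at h2
    linarith
  have hl : 0 ≤ Real.log (3 * x) := Real.log_nonneg (by linarith)
  have p1 : 0 < x ^ (1 / 4 : ℝ) := Real.rpow_pos_of_pos hx0 _
  have p2 : 0 < x ^ (1 / 2 : ℝ) := Real.rpow_pos_of_pos hx0 _
  have p3 : 0 < x ^ (1 / 8 : ℝ) := Real.rpow_pos_of_pos hx0 _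
  have e4 : x ^ (1 / 4 : ℝ) * x ^ (1 / 2 : ℝ) * x ^ (1 / 8 : ℝ) * x ^ (1 / 8 : ℝ) = x := by
    rw [← Real.rpow_add hx0, ← Real.rpow_add hx0, ← Real.rpow_add hx0]
    norm_num
  calc C₄ * (4 * x) ^ (1 / 4 : ℝ) * (2 * √(3 * x) * Real.log (3 * x)) ≤
        C₄ * (2 * x ^ (1 / 4 : ℝ)) * (2 * (2 * x ^ (1 / 2 : ℝ)) * (16 * x ^ (1 / 8 : ℝ))) := by
        gcongr
    _ = ε / 4 * (512 * C₄ / ε) * (x ^ (1 / 4 : ℝ) * x ^ (1 / 2 : ℝ) * x ^ (1 / 8 : ℝ)) := by
        field_simp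
        ring
    _ ≤ ε / 4 * x ^ (1 / 8 : ℝ) * (x ^ (1 / 4 : ℝ) * x ^ (1 / 2 : ℝ) * x ^ (1 / 8 : ℝ)) := by
        gcongr
    _ = ε / 4 * (x ^ (1 / 4 : ℝ) * x ^ (1 / 2 : ℝ) * x ^ (1 / 8 : ℝ) * x ^ (1 / 8 : ℝ)) := by ring
    _ = ε / 4 * x := by rw [e4]

end hMI

open hMI in
theorem hMI (hTY : StTY) (hAT : StAT) (hSM : StSM) (hNR : StNR) (hDB : StDB) : StMI := by
  intro N p q m₁ H w hw B ε hε
  obtain ⟨xTY, TY⟩ := hTY N p q m₁ H B
  obtain ⟨xAT, AT⟩ := hAT N p q m₁ H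
  obtain ⟨xSM, SM⟩ := hSM N p q m₁ H B
  obtain ⟨C, hC, NR⟩ := hNR N p q m₁ H
  obtain ⟨C₄, hC₄, DBd⟩ := hDB (1 / 4) (by norm_num)
  have hC₄0 : 0 < C₄ := by linarith
  have hN1 : (1 : ℝ) ≤ N := by exact_mod_cast H.hN
  have hN0 : (0 : ℝ) < N := by linarith
  obtain ⟨η, hη0, hη1, hηε⟩ : ∃ η : ℝ, 0 < η ∧ η ≤ 1 ∧ 18 * N * C * η ≤ ε / 4 := by
    refine ⟨min 1 (ε / (72 * N * C)), by positivity, min_le_left _ _, ?_⟩
    calc 18 * N * C * min 1 (ε / (72 * N * C)) ≤ 18 * N * C * (ε / (72 * N * C)) := by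
          gcongr
          exact min_le_right _ _
      _ = ε / 4 := by
          field_simp
          norm_num
  obtain ⟨xNR, NR'⟩ := NR η hη0 hη1
  obtain ⟨J, hJ1, hJ2⟩ : ∃ J : ℕ, 8 * N / η ≤ J ∧ (J : ℝ) ≤ 9 * N / η := by
    refine ⟨⌈8 * N / η⌉₊, Nat.le_ceil _, ?_⟩
    have h1 := Nat.ceil_lt_add_one (show 0 ≤ 8 * N / η by positivity)
    have h2 : 1 ≤ N / η := by
      rw [le_div_iff₀ hη0]
      linarith
    have h3 : 9 * N / η = 8 * N / η + N / η := by ring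
    rw [h3]
    linarith
  have E1 : ∀ᶠ x : ℝ in atTop, 2 * Real.log x ^ (-0.05 : ℝ) ≤ ε / 4 := by
    have h := ((tendsto_rpow_neg_atTop (show (0 : ℝ) < 0.05 by norm_num)).comp
      Real.tendsto_log_atTop).const_mul 2
    rw [mul_zero] at h
    exact h.eventually_le_const (by positivity)
  have E2 : ∀ᶠ x : ℝ in atTop, 2 * J * Real.log x ^ (-0.005 : ℝ) ≤ ε / 4 := by
    have h := ((tendsto_rpow_neg_atTop (show (0 : ℝ) < 0.005 by norm_num)).comp
      Real.tendsto_log_atTop).const_mul (2 * (J : ℝ))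
    rw [mul_zero] at h
    exact h.eventually_le_const (by positivity)
  have E3 : ∀ᶠ x : ℝ in atTop, 512 * C₄ / ε ≤ x ^ (1 / 8 : ℝ) :=
    (tendsto_rpow_atTop (by norm_num)).eventually_ge_atTop _
  have E4 : ∀ᶠ x : ℝ in atTop, max xTY (max xAT (max xSM (max xNR (max 3 (max (N + p)
      (max (N / η) (4 * N ^ 2))))))) ≤ x := eventually_ge_atTop _
  obtain ⟨x₀, hx₀⟩ := eventually_atTop.1 (E1.and (E2.and (E3.and E4)))
  refine ⟨x₀, fun x hx => ?_⟩
  obtain ⟨g1, g2, g3, g4⟩ := hx₀ x hx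
  simp only [max_le_iff] at g4
  obtain ⟨k1, k2, k3, k4, k5, k6, k7, k8⟩ := g4
  have hx0 : 0 < x := by linarith
  have hL1 : 1 < Real.log x := by
    rw [Real.lt_log_iff_exp_lt hx0]
    linarith [Real.exp_one_lt_d9]
  obtain ⟨L, hL⟩ : ∃ L : ℝ, L = Real.log x := ⟨_, rfl⟩
  have TY' := TY x k1
  have AT' := AT x k2
  rw [← hL] at TY' AT' g1 g2 hL1
  have hL0 : 0 < L := by linarith
  -- the geometry of the blocks
  obtain ⟨M₀, hM₀⟩ : ∃ M₀ : ℕ, M₀ = ⌊x / N⌋₊ := ⟨_, rfl⟩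
  obtain ⟨h, hh⟩ : ∃ h : ℕ, h = ⌊η * x / N⌋₊ := ⟨_, rfl⟩
  have half : ∀ y : ℝ, 1 ≤ y → (⌊y⌋₊ : ℝ) ≤ y ∧ y / 2 ≤ ⌊y⌋₊ ∧ y - 1 ≤ ⌊y⌋₊ := by
    intro y hy
    have h1 : 1 ≤ ⌊y⌋₊ := Nat.le_floor (by exact_mod_cast hy)
    have h2 : (1 : ℝ) ≤ ⌊y⌋₊ := by exact_mod_cast h1
    have h3 := Nat.lt_floor_add_one y
    exact ⟨Nat.floor_le (by linarith), by linarith, by linarith⟩
  have hp0 : (0 : ℝ) ≤ p := Nat.cast_nonneg _
  obtain ⟨m1, m2, m3⟩ := half (x / N) (by rw [le_div_iff₀ hN0]; linarith)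
  obtain ⟨n1, n2, _⟩ := half (η * x / N) (by
    rw [le_div_iff₀ hN0, one_mul]
    rw [div_le_iff₀ hη0] at k7
    linarith)
  rw [← hM₀] at m1 m2 m3
  rw [← hh] at n1 n2
  have hx4 : x / N ≤ 4 * x := by
    rw [div_le_iff₀ hN0]
    nlinarith
  have hfl : (⌊4 * x⌋₊ : ℝ) ≤ 4 * x := Nat.floor_le (by positivity)
  have hM4 : M₀ ≤ ⌊4 * x⌋₊ := Nat.le_floor (m1.trans hx4)
  set X : ℕ → ℕ := fun j => min (M₀ + j * h) ⌊4 * x⌋₊ with hX
  have hXmono : Monotone X := by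
    intro j j' hj
    exact min_le_min_right _ (Nat.add_le_add_left (Nat.mul_le_mul_right h hj) _)
  have hX0 : X 0 = M₀ := by
    rw [hX]
    simp only [zero_mul, add_zero]
    exact min_eq_left hM4
  have hXJ : X J = ⌊4 * x⌋₊ := by
    rw [hX]
    simp only
    apply min_eq_right
    have h1 : (⌊4 * x⌋₊ : ℝ) ≤ ((M₀ + J * h : ℕ) : ℝ) := by
      push_cast
      have h2 : (0 : ℝ) ≤ M₀ := Nat.cast_nonneg _
      have h3 : 4 * x ≤ J * h := by
        calc 4 * x = 8 * N / η * (η * x / N / 2) := by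
              field_simp
              norm_num
          _ ≤ J * h := by gcongr
      linarith
    exact_mod_cast h1
  have hXge : ∀ j, M₀ ≤ X j := fun j => by
    rw [← hX0]
    exact hXmono (Nat.zero_le j)
  have hXle : ∀ j, (X j : ℝ) ≤ 4 * x := fun j => by
    refine le_trans ?_ hfl
    exact_mod_cast min_le_right _ _
  have hXstep : ∀ j, (X (j + 1) : ℝ) ≤ X j + h := by
    intro j
    have h1 : X (j + 1) ≤ X j + h := by
      rw [hX]
      simp only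
      rw [min_add_add_right_helper (M₀ + j * h) ⌊4 * x⌋₊ h]
      have : M₀ + (j + 1) * h = M₀ + j * h + h := by ring
      rw [this]
      exact min_le_min_left _ (Nat.le_add_right _ _)
    exact_mod_cast h1
  -- one block
  have hblock : ∀ j, ∑ m ∈ (Ioc (X j) (X (j + 1))).filter (fun m => m % q = m₁ % q ∧
      (N * m - p).Prime ∧ 1.5 * LP x < (om (PP x) m : ℝ)), |DS x B m| ≤
      √(x / L ^ (1.09 : ℝ) * (x / L ^ (0.92 : ℝ))) + C * η ^ 2 * x / L := by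
    intro j
    have hXj : x / N / 2 ≤ X j := m2.trans (by exact_mod_cast hXge j)
    have hstep : (X (j + 1) : ℝ) - X j ≤ η * x / N := by
      have := hXstep j
      linarith
    have hηx : η * x / N ≤ η * x := div_le_self (by positivity) hN1
    have c1 : (X (j + 1) : ℝ) ≤ (1 + η) ^ 2 * X j := by
      have e1 : η * x / N = 2 * η * (x / N / 2) := by ring
      have e2 : 2 * η * (x / N / 2) ≤ 2 * η * X j := by gcongr
      have e3 : 0 ≤ η ^ 2 * (X j : ℝ) := by positivity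
      nlinarith
    have hsq4 : √(X j : ℝ) ≤ 2 * √x := by
      have e : 2 * √x = √(4 * x) := by
        rw [Real.sqrt_mul (by norm_num), show (4 : ℝ) = 2 ^ 2 by norm_num,
          Real.sqrt_sq (by norm_num)]
      rw [e]
      exact Real.sqrt_le_sqrt (hXle j)
    have hsqx : x ^ (1 / 4 : ℝ) ≤ √(X j : ℝ) := by
      have e1 : √x ≤ X j := by
        refine le_trans ?_ hXj
        have e2 : 2 * N ≤ √x := by
          apply Real.le_sqrt_of_sq_le
          nlinarith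
        rw [div_div, le_div_iff₀ (by positivity)]
        calc √x * (N * 2) = √x * (2 * N) := by ring
          _ ≤ √x * √x := by gcongr
          _ = x := Real.mul_self_sqrt hx0.le
      have e3 : x ^ (1 / 4 : ℝ) = √(√x) := by
        rw [Real.sqrt_eq_rpow, Real.sqrt_eq_rpow, ← Real.rpow_mul hx0.le]
        norm_num
      rw [e3]
      exact Real.sqrt_le_sqrt e1
    have hpN : p ≤ N * X j := by
      have e1 : (p : ℝ) ≤ ((N * X j : ℕ) : ℝ) := by
        push_cast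
        have e2 : x / N - 1 ≤ X j := m3.trans (by exact_mod_cast hXge j)
        have e3 : N * (x / N - 1) ≤ N * (X j : ℝ) := by gcongr
        have e4 : N * (x / N - 1) = x - N := by field_simp
        linarith
      exact_mod_cast e1
    refine block N p q m₁ B (X j) (X (j + 1)) hη0 c1 (hXle (j + 1)) (hXmono (Nat.le_succ j))
      AT' ?_ ?_
    · have := SM x k3 (X j) (X (j + 1)) ⌊√(X j : ℝ)⌋₊ hpN (hXmono (Nat.le_succ j))
        (hXle (j + 1)) ((Nat.floor_le (Real.sqrt_nonneg _)).trans hsq4)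
      rwa [← hL] at this
    · have := NR' x k4 (√(X j : ℝ)) (X j) (X (j + 1)) hsqx hsq4 (hXmono (Nat.le_succ j))
        (hXle (j + 1)) (hstep.trans hηx)
      rwa [← hL] at this
  have hsqrt : √(x / L ^ (1.09 : ℝ) * (x / L ^ (0.92 : ℝ))) = x * L ^ (-1.005 : ℝ) := by
    have e1 : x / L ^ (1.09 : ℝ) * (x / L ^ (0.92 : ℝ)) = (x * L ^ (-1.005 : ℝ)) ^ 2 := by
      rw [mul_pow, ← Real.rpow_natCast (L ^ (-1.005 : ℝ)) 2, ← Real.rpow_mul hL0.le,
        div_mul_div_comm, ← Real.rpow_add hL0, sq, div_eq_mul_inv, ← Real.rpow_neg hL0.le]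
      norm_num
    rw [e1, Real.sqrt_sq (by positivity)]
  -- atypical part
  set f : ℕ → ℝ := fun m => if m % q = m₁ % q ∧ (N * m - p).Prime ∧
      1.5 * LP x < (om (PP x) m : ℝ) then |DS x B m| else 0 with hf
  have hatyp : ∑ m ∈ Ioc M₀ ⌊4 * x⌋₊, f m ≤
      J * (x * L ^ (-1.005 : ℝ) + C * η ^ 2 * x / L) := by
    have e1 := sum_blocks f X hXmono J
    rw [hX0, hXJ] at e1
    rw [← e1]
    calc ∑ j ∈ range J, ∑ m ∈ Ioc (X j) (X (j + 1)), f m ≤
          ∑ j ∈ range J, (x * L ^ (-1.005 : ℝ) + C * η ^ 2 * x / L) := by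
          refine sum_le_sum fun j _ => ?_
          have e2 := hblock j
          rw [hsqrt, sum_filter] at e2
          exact e2
      _ = _ := by rw [sum_const, nsmul_eq_mul, card_range]
  -- the three parts
  set K : ℝ := C₄ * (4 * x) ^ (1 / 4 : ℝ) with hK
  have hK0 : 0 ≤ K := by positivity
  have hpt : ∀ m ∈ ms x q m₁, lam w x N p m * |DS x B m| ≤
      (if ¬ (N * m - p).Prime then lam w x N p m * K else 0) +
      (if (N * m - p).Prime ∧ (om (PP x) m : ℝ) ≤ 1.5 * LP x then 2 * L * CN x B m else 0) +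
      (if M₀ < m then 2 * L * f m else 0) := by
    intro m hm
    rw [ms, mem_filter, mem_Icc] at hm
    have hlam0 := lam_nonneg hw x N p m
    have hlam1 := lam_le hw k5 N p m
    rw [← hL] at hlam1
    have hDS0 : 0 ≤ |DS x B m| := abs_nonneg _
    have hf0 : 0 ≤ f m := by
      rw [hf]
      simp only
      split_ifs
      · exact hDS0
      · exact le_rfl
    have hCN0 := CN_nonneg x B m
    have hlast : 0 ≤ (if M₀ < m then 2 * L * f m else 0) := by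
      split_ifs
      · positivity
      · exact le_rfl
    by_cases hpr : (N * m - p).Prime
    · rw [if_neg (not_not.2 hpr), zero_add]
      by_cases hty : (om (PP x) m : ℝ) ≤ 1.5 * LP x
      · rw [if_pos ⟨hpr, hty⟩]
        have : lam w x N p m * |DS x B m| ≤ 2 * L * CN x B m :=
          mul_le_mul hlam1 (DS_le x B m) hDS0 (by positivity)
        linarith
      · rw [if_neg (fun h => hty h.2), zero_add]
        by_cases hM : M₀ < m
        · rw [if_pos hM]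
          have e1 : f m = |DS x B m| := if_pos ⟨hm.2, hpr, not_le.1 hty⟩
          rw [e1]
          exact mul_le_mul_of_nonneg_right hlam1 hDS0
        · rw [if_neg hM]
          have e1 : lam w x N p m = 0 := by
            by_contra hne
            obtain ⟨s1, _, s3⟩ := lam_supp hw hx0 N p m hne
            apply hM
            have s4 : x / N < m := by
              rw [div_lt_iff₀ hN0]
              have s5 : ((N * m - p : ℕ) : ℝ) + 1 ≤ (m : ℝ) * N := by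
                have hp1 := H.hp.pos
                have : N * m - p + 1 ≤ m * N := by
                  rw [mul_comm m N]
                  omega
                exact_mod_cast this
              linarith
            rw [hM₀]
            exact (Nat.floor_lt (by positivity)).2 s4
          rw [e1, zero_mul]
    · rw [if_pos hpr, if_neg (fun h => hpr h.1), add_zero]
      have e1 : |DS x B m| ≤ K := by
        refine (DS_le x B m).trans ((CN_le x B m hm.1.1).trans ((DBd m hm.1.1).trans ?_))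
        rw [hK]
        have e2 : (m : ℝ) ≤ 4 * x := le_trans (by exact_mod_cast hm.1.2) hfl
        gcongr
      have : lam w x N p m * |DS x B m| ≤ lam w x N p m * K :=
        mul_le_mul_of_nonneg_left e1 hlam0
      linarith
  have hmain : ∑ m ∈ ms x q m₁, lam w x N p m * |DS x B m| ≤
      (2 * √(3 * x) * Real.log (3 * x)) * K + 2 * L * (x / L ^ (1.05 : ℝ)) +
        2 * L * (J * (x * L ^ (-1.005 : ℝ) + C * η ^ 2 * x / L)) := by
    refine (sum_le_sum hpt).trans ?_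
    rw [sum_add_distrib, sum_add_distrib]
    refine add_le_add (add_le_add ?_ ?_) ?_
    · rw [← sum_filter, ← sum_mul]
      exact mul_le_mul_of_nonneg_right (partA hw k5 N p q m₁ H.hN) hK0
    · rw [← sum_filter, ← mul_sum]
      exact mul_le_mul_of_nonneg_left TY' (by positivity)
    · rw [← sum_filter, ← mul_sum]
      refine mul_le_mul_of_nonneg_left (le_trans ?_ hatyp) (by positivity)
      refine sum_le_sum_of_subset_of_nonneg ?_ ?_
      · intro m hm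
        rw [mem_filter, ms, mem_filter, mem_Icc] at hm
        rw [mem_Ioc]
        exact ⟨hm.2, hm.1.1.2⟩
      · intro m _ _
        rw [hf]
        simp only
        split_ifs
        · exact abs_nonneg _
        · exact le_rfl
  have r1 : (2 * √(3 * x) * Real.log (3 * x)) * K ≤ ε / 4 * x := by
    have := small_par k5 hε hC₄0 g3
    rw [hK]
    linarith
  have r2 : 2 * L * (x / L ^ (1.05 : ℝ)) ≤ ε / 4 * x := by
    have e1 : L / L ^ (1.05 : ℝ) = L ^ (-0.05 : ℝ) := by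
      nth_rewrite 1 [← Real.rpow_one L]
      rw [← Real.rpow_sub hL0]
      norm_num
    calc 2 * L * (x / L ^ (1.05 : ℝ)) = 2 * (L / L ^ (1.05 : ℝ)) * x := by ring
      _ = 2 * L ^ (-0.05 : ℝ) * x := by rw [e1]
      _ ≤ ε / 4 * x := by gcongr
  have r3 : 2 * L * (J * (x * L ^ (-1.005 : ℝ) + C * η ^ 2 * x / L)) ≤
      ε / 4 * x + ε / 4 * x := by
    have e1 : L * L ^ (-1.005 : ℝ) = L ^ (-0.005 : ℝ) := by
      nth_rewrite 1 [← Real.rpow_one L]
      rw [← Real.rpow_add hL0]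
      norm_num
    have e2 : 2 * L * (J * (x * L ^ (-1.005 : ℝ) + C * η ^ 2 * x / L)) =
        2 * J * (L * L ^ (-1.005 : ℝ)) * x + 2 * J * C * η ^ 2 * x := by
      field_simp
    rw [e2, e1]
    have e3 : 2 * J * C * η ^ 2 ≤ ε / 4 := by
      calc 2 * J * C * η ^ 2 ≤ 2 * (9 * N / η) * C * η ^ 2 := by gcongr
        _ = 18 * N * C * η := by
            field_simp
            norm_num
        _ ≤ ε / 4 := hηε
    have e4 : 2 * J * L ^ (-0.005 : ℝ) * x ≤ ε / 4 * x := by gcongr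
    have e5 : 2 * J * C * η ^ 2 * x ≤ ε / 4 * x := by gcongr
    linarith
  have hgoal : ∑ m ∈ ms x q m₁, lam w x N p m * |DS x B m| ≤ ε * x := by linarith
  exact hgoal

end Pool.Agent.Helper15.AB
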