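import Mathlib
import Pool.Agent.Helper15.AB.StMid
import Pool.Agent.Helper18.TR.Final

/-!
# Project AB, module MJ: sieve majorants
-/

set_option autoImplicit false

namespace Pool.Agent.Helper15.AB

open Finset ArithmeticFunction Filter Topology

theorem hMJ_fam (w b : ℕ) (Q Q' : Finset ℕ) (h : Q' ⊆ Q) :
    (Helper18.TR.fam0 w b Q).filter (fun T => T ⊆ Q') = Helper18.TR.fam0 w b Q' := by
  ext T
  simp only [Helper18.TR.fam0, Finset.mem_filter, Finset.mem_powerset]
  constructor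
  · rintro ⟨⟨_, h2⟩, h3⟩
    exact ⟨h3, h2⟩
  · rintro ⟨h1, h2⟩
    exact ⟨⟨h1.trans h, h2⟩, h1⟩

theorem hMJ : StMJ := by
  obtain ⟨b, hb, hmain⟩ := Helper18.TR.flMain 1 1 one_pos one_pos
  obtain ⟨B, hB⟩ := Helper18.TR.pf_Level b
  refine ⟨max B 1, le_max_right _ _, ?_⟩
  intro w Q hw hQ
  refine ⟨Helper18.TR.fam0 w b Q, hQ, ?_, ?_, ?_, ?_⟩
  · intro T hT
    unfold Helper18.TR.fam0 at hT
    simp only [Finset.mem_filter, Finset.mem_powerset] at hT
    exact hT.1
  · intro T hT
    refine (hB w (by omega) Q (fun p hp => ⟨(hQ p hp).1, (hQ p hp).2.2⟩) T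
      (Finset.mem_union_left _ hT)).trans ?_
    exact Nat.pow_le_pow_right (by omega) (le_max_left _ _)
  · intro n
    have h := (Helper18.TR.bonf w b Q (fun l => if l ∣ n then (1 : ℝ) else 0) hb (by
      intro p _
      split_ifs <;> norm_num)).2
    have e1 : ∏ p ∈ Q, (1 - (if p ∣ n then (1 : ℝ) else 0)) =
        if ∀ l ∈ Q, ¬ l ∣ n then (1 : ℝ) else 0 := by
      have e2 := Finset.prod_ite_zero (s := Q) (p := fun l => ¬ l ∣ n) (f := fun _ => (1 : ℝ))
      rw [Finset.prod_const_one] at e2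
      rw [← e2]
      refine Finset.prod_congr rfl fun l _ => ?_
      by_cases hl : l ∣ n <;> simp [hl]
    rw [e1] at h
    refine h.trans (le_of_eq ?_)
    refine Finset.sum_congr rfl fun T _ => ?_
    congr 1
    rw [Finset.prod_ite_zero]
    simp
  · intro Q' hQ'
    rw [hMJ_fam w b Q Q' hQ']
    have h := (hmain w Q' (fun p hp => ⟨(hQ p (hQ' hp)).1, (hQ p (hQ' hp)).2.2⟩)
      (fun l => 1 / (l : ℝ)) (by
        intro p hp
        have h3 : 3 < p := (hQ p (hQ' hp)).2.1
        have h3' : (3 : ℝ) < p := by exact_mod_cast h3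
        refine ⟨by positivity, le_rfl, ?_⟩
        rw [div_le_div_iff₀ (by linarith) (by norm_num)]
        linarith)).1
    refine h.trans (le_of_eq ?_)
    norm_num

end Pool.Agent.Helper15.AB
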