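import Mathlib
import Pool.Agent.Helper15.AB.StBV

/-!
Project AB, module ML: the multiplicative large sieve.
-/

set_option autoImplicit false

namespace Pool.Agent.Helper15.AB

open Finset

/-- module ML -/
theorem hML (hAL : StAL) (hGS : StGS) : StML := by
  obtain ⟨C, hC, h⟩ := hAL
  refine ⟨C, hC, ?_⟩
  intro Q N M a
  refine le_trans (sum_le_sum fun r hr => ?_) (h Q N M a)
  rw [mem_Icc] at hr
  have hr0 : (0 : ℝ) < r := by exact_mod_cast hr.1
  have hp : (0 : ℝ) < Nat.totient r := by exact_mod_cast Nat.totient_pos.2 hr.1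
  have key := hGS r (Ioc M (M + N)) a hr.1
  calc (r : ℝ) / Nat.totient r * SP (fun f => ‖∑ n ∈ Ioc M (M + N), a n * f n‖ ^ 2) r
      ≤ (r : ℝ) / Nat.totient r * ((Nat.totient r : ℝ) / r *
        ∑ b ∈ (range r).filter (fun b => Nat.Coprime b r),
          ‖∑ n ∈ Ioc M (M + N), a n * ee (n * (b / r))‖ ^ 2) := by
        gcongr
    _ = _ := by
        rw [← mul_assoc, div_mul_div_comm, mul_comm (r : ℝ), div_self (by positivity), one_mul]

end Pool.Agent.Helper15.AB
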