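import Mathlib
import Pool.Agent.Helper15.AB.StKl

/-!
# Module MS: lower bound for the number of circles around a given circle
-/

set_option autoImplicit false

namespace Pool.Agent.Helper15.AB

namespace hMS

open Finset

/-- integers in an interval of length `X` with centre `c * y` -/
noncomputable def Ix (c X : ℝ) (y : ℤ) : Finset ℤ := Icc ⌈c * y - X / 2⌉ ⌊c * y + X / 2⌋

/-- lattice points `(x, y)` with `1 ≤ y ≤ Y` and `|x - c y| ≤ X / 2` -/
noncomputable def box (c Y X : ℝ) : Finset (ℤ × ℤ) :=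
  ((Icc (1 : ℤ) ⌊Y⌋).sigma (fun y => Ix c X y)).image (fun s => (s.2, s.1))

theorem mem_Ix (c X : ℝ) (y x : ℤ) : x ∈ Ix c X y ↔ c * y - X / 2 ≤ x ∧ (x : ℝ) ≤ c * y + X / 2 := by
  simp [Ix, Int.ceil_le, Int.le_floor]

theorem mem_box (c Y X : ℝ) (v : ℤ × ℤ) : v ∈ box c Y X ↔
    1 ≤ v.2 ∧ (v.2 : ℝ) ≤ Y ∧ c * v.2 - X / 2 ≤ v.1 ∧ (v.1 : ℝ) ≤ c * v.2 + X / 2 := by
  obtain ⟨x, y⟩ := v
  simp only [box, mem_image, mem_sigma, mem_Icc, mem_Ix, Int.le_floor, Prod.mk.injEq, Sigma.exists]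
  constructor
  · rintro ⟨a, b, ⟨⟨h1, h2⟩, h3, h4⟩, h5, h6⟩
    subst h5; subst h6
    exact ⟨h1, h2, h3, h4⟩
  · rintro ⟨h1, h2, h3, h4⟩
    exact ⟨y, x, ⟨⟨h1, h2⟩, h3, h4⟩, rfl, rfl⟩

theorem card_Ix_ge (c X : ℝ) (y : ℤ) : X - 1 ≤ ((Ix c X y).card : ℝ) := by
  rw [Ix, Int.card_Icc]
  have h1 := Int.lt_floor_add_one (c * y + X / 2)
  have h2 := Int.ceil_lt_add_one (c * y - X / 2)
  have h3 : (((⌊c * y + X / 2⌋ + 1 - ⌈c * y - X / 2⌉ : ℤ)) : ℝ) ≤
      (((⌊c * y + X / 2⌋ + 1 - ⌈c * y - X / 2⌉).toNat : ℕ) : ℝ) := by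
    exact_mod_cast Int.self_le_toNat _
  push_cast at h3
  linarith

theorem card_Ix_le (c X : ℝ) (y : ℤ) (hX : 0 ≤ X) : ((Ix c X y).card : ℝ) ≤ X + 1 := by
  rw [Ix, Int.card_Icc]
  have h1 := Int.floor_le (c * y + X / 2)
  have h2 := Int.le_ceil (c * y - X / 2)
  rcases le_total 0 (⌊c * y + X / 2⌋ + 1 - ⌈c * y - X / 2⌉) with h | h
  · have h3 : (((⌊c * y + X / 2⌋ + 1 - ⌈c * y - X / 2⌉).toNat : ℕ) : ℝ) =
        (((⌊c * y + X / 2⌋ + 1 - ⌈c * y - X / 2⌉ : ℤ)) : ℝ) := by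
      have := Int.toNat_of_nonneg h
      exact_mod_cast this
    rw [h3]
    push_cast
    linarith
  · rw [Int.toNat_of_nonpos h]
    push_cast
    linarith

theorem card_box (c Y X : ℝ) :
    (box c Y X).card = ∑ y ∈ Icc (1 : ℤ) ⌊Y⌋, (Ix c X y).card := by
  rw [box, card_image_of_injective, card_sigma]
  rintro ⟨a, b⟩ ⟨a', b'⟩ h
  simp only [Prod.mk.injEq] at h
  obtain ⟨h1, h2⟩ := h
  subst h1; subst h2; rfl

theorem card_box_ge (c Y X : ℝ) (hX : 1 ≤ X) :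
    (Y - 1) * (X - 1) ≤ ((box c Y X).card : ℝ) := by
  rw [card_box]
  push_cast
  calc (Y - 1) * (X - 1) ≤ ((Icc (1 : ℤ) ⌊Y⌋).card : ℝ) * (X - 1) := by
        apply mul_le_mul_of_nonneg_right _ (by linarith)
        rw [Int.card_Icc]
        have h1 := Int.lt_floor_add_one Y
        have h3 : (((⌊Y⌋ + 1 - 1 : ℤ)) : ℝ) ≤ (((⌊Y⌋ + 1 - 1).toNat : ℕ) : ℝ) := by
          exact_mod_cast Int.self_le_toNat _
        push_cast at h3
        linarith
    _ = ∑ y ∈ Icc (1 : ℤ) ⌊Y⌋, (X - 1) := by rw [sum_const, nsmul_eq_mul]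
    _ ≤ _ := sum_le_sum (fun y _ => card_Ix_ge c X y)

theorem card_box_le (c Y X : ℝ) (hX : 0 ≤ X) (hY : 0 ≤ Y) :
    ((box c Y X).card : ℝ) ≤ Y * (X + 1) := by
  rw [card_box]
  push_cast
  calc ∑ y ∈ Icc (1 : ℤ) ⌊Y⌋, ((Ix c X y).card : ℝ) ≤ ∑ y ∈ Icc (1 : ℤ) ⌊Y⌋, (X + 1) :=
        sum_le_sum (fun y _ => card_Ix_le c X y hX)
    _ = ((Icc (1 : ℤ) ⌊Y⌋).card : ℝ) * (X + 1) := by rw [sum_const, nsmul_eq_mul]
    _ ≤ Y * (X + 1) := by
        apply mul_le_mul_of_nonneg_right _ (by linarith)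
        rw [Int.card_Icc]
        have h0 : 0 ≤ ⌊Y⌋ + 1 - 1 := by simpa using Int.floor_nonneg.mpr hY
        have h3 : (((⌊Y⌋ + 1 - 1).toNat : ℕ) : ℝ) = (((⌊Y⌋ + 1 - 1 : ℤ)) : ℝ) := by
          have := Int.toNat_of_nonneg h0
          exact_mod_cast this
        rw [h3]
        push_cast
        have := Int.floor_le Y
        linarith

theorem sum_sq (L : ℕ) (hL : 1 ≤ L) :
    ∑ l ∈ Icc 2 L, (1 : ℝ) / (l : ℝ) ^ 2 ≤ 2 / 3 - 1 / ((L : ℝ) + 1 / 2) := by
  induction L, hL using Nat.le_induction with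
  | base => simp; norm_num
  | succ n hn ih =>
    rw [Finset.sum_Icc_succ_top (by omega)]
    have hn' : (1 : ℝ) ≤ n := by exact_mod_cast hn
    have key : (1 : ℝ) / ((n + 1 : ℕ) : ℝ) ^ 2 ≤
        1 / ((n : ℝ) + 1 / 2) - 1 / (((n + 1 : ℕ) : ℝ) + 1 / 2) := by
      push_cast
      rw [div_sub_div _ _ (by positivity) (by positivity), div_le_div_iff₀ (by positivity)
        (by positivity)]
      nlinarith
    linarith

theorem sum_inv (L : ℕ) (hL : 1 ≤ L) :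
    ∑ l ∈ Icc 2 L, (1 : ℝ) / (l : ℝ) ≤ 2 * Real.sqrt L := by
  induction L, hL using Nat.le_induction with
  | base => simp
  | succ n hn ih =>
    rw [Finset.sum_Icc_succ_top (by omega)]
    have hn' : (1 : ℝ) ≤ n := by exact_mod_cast hn
    have h0 : (0 : ℝ) < Real.sqrt ((n + 1 : ℕ) : ℝ) := Real.sqrt_pos.mpr (by positivity)
    have h1 : Real.sqrt (n : ℝ) ^ 2 = n := Real.sq_sqrt (by positivity)
    have h2 : Real.sqrt ((n + 1 : ℕ) : ℝ) ^ 2 = n + 1 := by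
      rw [Real.sq_sqrt (by positivity)]; push_cast; ring
    have h3 : 0 ≤ Real.sqrt (n : ℝ) := Real.sqrt_nonneg _
    have h4 : Real.sqrt (n : ℝ) ≤ Real.sqrt ((n + 1 : ℕ) : ℝ) := Real.sqrt_le_sqrt (by push_cast; linarith)
    have h5 : 1 ≤ Real.sqrt ((n + 1 : ℕ) : ℝ) := by
      rw [show (1 : ℝ) = Real.sqrt 1 by simp]; exact Real.sqrt_le_sqrt (by push_cast; linarith)
    have key : (1 : ℝ) / ((n + 1 : ℕ) : ℝ) ≤
        2 * Real.sqrt ((n + 1 : ℕ) : ℝ) - 2 * Real.sqrt (n : ℝ) := by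
      rw [div_le_iff₀ (by positivity)]
      have h6 : ((n + 1 : ℕ) : ℝ) = Real.sqrt ((n + 1 : ℕ) : ℝ) ^ 2 := by rw [h2]; push_cast; ring
      rw [h6, Real.sqrt_sq h0.le]
      set s := Real.sqrt ((n + 1 : ℕ) : ℝ)
      set t := Real.sqrt (n : ℝ)
      have h7 : s ^ 2 - t ^ 2 = 1 := by rw [h1, h2]; ring
      have h8 : (s - t) * (s + t) = 1 := by linarith [h7, sq_sub_sq s t]
      nlinarith [mul_nonneg (sub_nonneg.mpr h4) h3, mul_nonneg (sub_nonneg.mpr h4) h0.le, mul_nonneg (sub_nonneg.mpr h5) (mul_nonneg (sub_nonneg.mpr h4) h0.le)]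
    linarith

theorem card_bad (c Y X : ℝ) (hX : 0 ≤ X) (hY : 1 ≤ Y) :
    (((box c Y X).filter (fun v => ¬ IsCoprime v.1 v.2)).card : ℝ) ≤
      2 / 3 * (X * Y) + 2 * Y * Real.sqrt Y := by
  classical
  have hsub : (box c Y X).filter (fun v => ¬ IsCoprime v.1 v.2) ⊆
      (Icc 2 ⌊Y⌋₊).biUnion (fun l : ℕ =>
        (box c (Y / l) (X / l)).image (fun v => ((l : ℤ) * v.1, (l : ℤ) * v.2))) := by
    rintro ⟨x, y⟩ hv
    rw [mem_filter, mem_box] at hv
    obtain ⟨⟨h1, h2, h3, h4⟩, h5⟩ := hv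
    simp only at h1 h2 h3 h4 h5
    rw [Int.isCoprime_iff_gcd_eq_one] at h5
    set g := Int.gcd x y with hg
    have hg0 : 0 < g := Int.gcd_pos_of_ne_zero_right _ (by omega)
    have hg2 : 2 ≤ g := by omega
    obtain ⟨y', hy'⟩ : (g : ℤ) ∣ y := Int.gcd_dvd_right ..
    obtain ⟨x', hx'⟩ : (g : ℤ) ∣ x := Int.gcd_dvd_left ..
    have hgR : (0 : ℝ) < g := by exact_mod_cast hg0
    have hgZ : (0 : ℤ) < g := by exact_mod_cast hg0
    have hy1 : 1 ≤ y' := by
      by_contra hcon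
      push Not at hcon
      have : (g : ℤ) * y' ≤ 0 := mul_nonpos_of_nonneg_of_nonpos hgZ.le (by omega)
      omega
    have hyR : (y : ℝ) = g * y' := by rw [hy']; push_cast; ring
    have hxR : (x : ℝ) = g * x' := by rw [hx']; push_cast; ring
    rw [mem_biUnion]
    refine ⟨g, ?_, ?_⟩
    · rw [mem_Icc]
      refine ⟨hg2, ?_⟩
      rw [Nat.le_floor_iff (by linarith)]
      have hy1R : (1 : ℝ) ≤ y' := by exact_mod_cast hy1
      calc (g : ℝ) = g * 1 := by ring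
        _ ≤ g * y' := by gcongr
        _ = y := hyR.symm
        _ ≤ Y := h2
    · rw [mem_image]
      refine ⟨(x', y'), ?_, ?_⟩
      · rw [mem_box]
        refine ⟨hy1, ?_, ?_, ?_⟩
        · rw [le_div_iff₀ hgR]; simp only; rw [mul_comm, ← hyR]; exact h2
        · simp only
          have e : (x' : ℝ) = x / g := by rw [hxR]; field_simp
          have e2 : (y' : ℝ) = y / g := by rw [hyR]; field_simp
          rw [e, e2]
          have : c * (↑y / ↑g) - X / ↑g / 2 = (c * y - X / 2) / g := by field_simp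
          rw [this]
          gcongr
        · simp only
          have e : (x' : ℝ) = x / g := by rw [hxR]; field_simp
          have e2 : (y' : ℝ) = y / g := by rw [hyR]; field_simp
          rw [e, e2]
          have : c * (↑y / ↑g) + X / ↑g / 2 = (c * y + X / 2) / g := by field_simp
          rw [this]
          gcongr
      · simp only [Prod.mk.injEq]
        exact ⟨hx'.symm, hy'.symm⟩
  have hcard := (card_le_card hsub).trans card_biUnion_le
  have hL1 : 1 ≤ ⌊Y⌋₊ := by rw [Nat.le_floor_iff (by linarith)]; simpa using hY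
  have hstep : ∀ l ∈ Icc 2 ⌊Y⌋₊, (((box c (Y / l) (X / l)).image
      (fun v => ((l : ℤ) * v.1, (l : ℤ) * v.2))).card : ℝ) ≤
      (X * Y) * (1 / (l : ℝ) ^ 2) + Y * (1 / (l : ℝ)) := by
    intro l hl
    rw [mem_Icc] at hl
    have hlR : (2 : ℝ) ≤ l := by exact_mod_cast hl.1
    calc (((box c (Y / l) (X / l)).image (fun v => ((l : ℤ) * v.1, (l : ℤ) * v.2))).card : ℝ)
        ≤ ((box c (Y / l) (X / l)).card : ℝ) := by exact_mod_cast card_image_le
      _ ≤ (Y / l) * (X / l + 1) := card_box_le _ _ _ (by positivity) (by positivity)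
      _ = _ := by field_simp
  calc (((box c Y X).filter (fun v => ¬ IsCoprime v.1 v.2)).card : ℝ)
      ≤ ((∑ l ∈ Icc 2 ⌊Y⌋₊, ((box c (Y / l) (X / l)).image
      (fun v => ((l : ℤ) * v.1, (l : ℤ) * v.2))).card : ℕ) : ℝ) := by exact_mod_cast hcard
    _ = ∑ l ∈ Icc 2 ⌊Y⌋₊, (((box c (Y / l) (X / l)).image
      (fun v => ((l : ℤ) * v.1, (l : ℤ) * v.2))).card : ℝ) := by push_cast; rfl
    _ ≤ ∑ l ∈ Icc 2 ⌊Y⌋₊, ((X * Y) * (1 / (l : ℝ) ^ 2) + Y * (1 / (l : ℝ))) := sum_le_sum hstep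
    _ = (X * Y) * ∑ l ∈ Icc 2 ⌊Y⌋₊, 1 / (l : ℝ) ^ 2 + Y * ∑ l ∈ Icc 2 ⌊Y⌋₊, 1 / (l : ℝ) := by
        rw [sum_add_distrib, mul_sum, mul_sum]
    _ ≤ (X * Y) * (2 / 3) + Y * (2 * Real.sqrt Y) := by
        have a1 := sum_sq ⌊Y⌋₊ hL1
        have a2 := sum_inv ⌊Y⌋₊ hL1
        have a3 : (0 : ℝ) ≤ 1 / ((⌊Y⌋₊ : ℝ) + 1 / 2) := by positivity
        have a4 : Real.sqrt (⌊Y⌋₊ : ℝ) ≤ Real.sqrt Y := Real.sqrt_le_sqrt (Nat.floor_le (by linarith))
        have a5 : 0 ≤ X * Y := mul_nonneg hX (by linarith)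
        gcongr
        · linarith
        · linarith
    _ = _ := by ring

theorem card_good (c Y X : ℝ) (hX : 10000 ≤ X) (hY : 1000 ≤ Y) (hYX : Y ≤ X) :
    3 / 10 * (X * Y) ≤ (((box c Y X).filter (fun v => IsCoprime v.1 v.2)).card : ℝ) := by
  classical
  have h1 := card_box_ge c Y X (by linarith)
  have h2 := card_bad c Y X (by linarith) (by linarith)
  have h3 : (((box c Y X).filter (fun v => IsCoprime v.1 v.2)).card : ℝ) +
      (((box c Y X).filter (fun v => ¬ IsCoprime v.1 v.2)).card : ℝ) = ((box c Y X).card : ℝ) := by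
    exact_mod_cast card_filter_add_card_filter_not _
  have h4 : Real.sqrt Y ≤ X / 100 := by
    rw [Real.sqrt_le_left (by linarith)]
    nlinarith
  have h5 : Y * Real.sqrt Y ≤ Y * (X / 100) := by gcongr
  nlinarith [mul_le_mul_of_nonneg_left hY (by linarith : (0 : ℝ) ≤ X),
    mul_le_mul_of_nonneg_left hX (by linarith : (0 : ℝ) ≤ Y)]

end hMS

open hMS Finset in
theorem hMS : StMS := by
  classical
  refine ⟨10 ^ 9, by norm_num, ?_⟩
  intro p a z z' T hp hpa hdet hnorm hT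
  set w1 : ℤ := z'.re + z.im with hw1
  set w2 : ℤ := z'.im - z.re with hw2
  have hN : ∀ v : ℤ × ℤ, ((v.1 : GaussianInt) * z + (v.2 : GaussianInt) * (z' - ⟨0, 1⟩ * z)).norm =
      (v.1 * z.re + v.2 * w1) ^ 2 + (v.1 * z.im + v.2 * w2) ^ 2 := by
    intro v
    simp only [Zsqrtd.norm_def, Zsqrtd.re_add, Zsqrtd.im_add, Zsqrtd.re_mul, Zsqrtd.im_mul,
      Zsqrtd.re_sub, Zsqrtd.im_sub, Zsqrtd.re_intCast, Zsqrtd.im_intCast, hw1, hw2]
    ring
  have hdet' : z.re * z'.im - z.im * z'.re = p := by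
    have := hdet
    simp only [Zsqrtd.im_mul, Zsqrtd.re_star, Zsqrtd.im_star] at this
    linarith
  have hnorm' : z.re ^ 2 + z.im ^ 2 = a + p := by
    have := hnorm
    simp only [Zsqrtd.norm_def] at this
    linarith
  have hcross : z.re * w2 - z.im * w1 = -a := by
    rw [hw1, hw2]; linarith
  set R : ℤ := z.re * w1 + z.im * w2 with hR
  set N : ℤ × ℤ → ℤ := fun v => (v.1 * z.re + v.2 * w1) ^ 2 + (v.1 * z.im + v.2 * w2) ^ 2 with hNdef
  have hkey : ∀ v : ℤ × ℤ, ((a : ℤ) + p) * N v = (((a : ℤ) + p) * v.1 + R * v.2) ^ 2 + a ^ 2 * v.2 ^ 2 := by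
    intro v
    have e : (z.re ^ 2 + z.im ^ 2) * ((v.1 * z.re + v.2 * w1) ^ 2 + (v.1 * z.im + v.2 * w2) ^ 2) =
      ((z.re ^ 2 + z.im ^ 2) * v.1 + (z.re * w1 + z.im * w2) * v.2) ^ 2 +
        (z.re * w2 - z.im * w1) ^ 2 * v.2 ^ 2 := by ring
    rw [hnorm', hcross] at e
    rw [hNdef, hR]
    simp only
    rw [e]; ring
  -- real parameters
  have haR : (1 : ℝ) ≤ a := by exact_mod_cast hp.trans hpa
  have hpR : (1 : ℝ) ≤ p := by exact_mod_cast hp
  have hpaR : (p : ℝ) ≤ a := by exact_mod_cast hpa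
  set n : ℝ := (a : ℝ) + p with hn
  have hn0 : 0 < n := by positivity
  have hn2 : n ≤ 2 * a := by rw [hn]; linarith
  have hn1 : (a : ℝ) ≤ n := by rw [hn]; linarith
  set c : ℝ := -(R : ℝ) / n with hc
  have hkeyR : ∀ v : ℤ × ℤ, n * (N v : ℝ) = (n * (v.1 - c * v.2)) ^ 2 + (a : ℝ) ^ 2 * (v.2 : ℝ) ^ 2 := by
    intro v
    have := congrArg (fun t : ℤ => (t : ℝ)) (hkey v)
    push_cast at this
    rw [← hn] at this
    rw [this]
    have : n * ((v.1 : ℝ) - c * v.2) = n * v.1 + R * v.2 := by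
      rw [hc]; field_simp; ring
    rw [this]
  have hTa4 : (10 : ℝ) ^ 9 * a ≤ T := by
    refine le_trans ?_ hT
    have : (a : ℝ) ≤ (a : ℝ) ^ 4 := le_self_pow₀ haR (by norm_num)
    gcongr
  have hT0 : 0 < T := by linarith
  set X : ℝ := Real.sqrt (3 * T / n) with hX
  set Y : ℝ := Real.sqrt (T * n / (4 * a ^ 2)) with hY
  have hX2 : X ^ 2 = 3 * T / n := Real.sq_sqrt (by positivity)
  have hY2 : Y ^ 2 = T * n / (4 * a ^ 2) := Real.sq_sqrt (by positivity)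
  have hX0 : 0 ≤ X := Real.sqrt_nonneg _
  have hY0 : 0 ≤ Y := Real.sqrt_nonneg _
  have hXb : 10000 ≤ X := by
    apply Real.le_sqrt_of_sq_le
    rw [le_div_iff₀ hn0]
    linarith
  have hYb : 1000 ≤ Y := by
    apply Real.le_sqrt_of_sq_le
    rw [le_div_iff₀ (by positivity)]
    have h1 := mul_le_mul hTa4 hn1 (by positivity) hT0.le
    linarith [sq_nonneg (a : ℝ)]
  have hYX : Y ≤ X := by
    apply Real.sqrt_le_sqrt
    rw [div_le_div_iff₀ (by positivity) hn0]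
    have h1 : n * n ≤ (2 * a) * (2 * a) := mul_le_mul hn2 hn2 hn0.le (by positivity)
    have h2 := mul_le_mul_of_nonneg_left h1 hT0.le
    have h3 : 0 ≤ T * (a : ℝ) ^ 2 := by positivity
    linarith
  have hXY : 4 / 5 * (T / a) ≤ X * Y := by
    have e : (X * Y) ^ 2 = 3 / 4 * (T / a) ^ 2 := by
      rw [mul_pow, hX2, hY2]; field_simp
    have h0 : 0 ≤ X * Y := mul_nonneg hX0 hY0
    have h1 : 0 < T / a := by positivity
    nlinarith only [e, h0, h1]
  have hgood := card_good c Y X hXb hYb hYX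
  -- the set is finite
  set S : Set (ℤ × ℤ) := {v : ℤ × ℤ | 1 ≤ v.2 ∧ IsCoprime v.1 v.2 ∧
      (a : ℤ) < ((v.1 : GaussianInt) * z + (v.2 : GaussianInt) * (z' - ⟨0, 1⟩ * z)).norm ∧
      ((((v.1 : GaussianInt) * z + (v.2 : GaussianInt) * (z' - ⟨0, 1⟩ * z)).norm : ℤ) : ℝ) ≤ T}
    with hS
  have hSf : S.Finite := by
    apply (box c (Real.sqrt (n * T) / a) (2 * (Real.sqrt (n * T) / n))).finite_toSet.subset
    intro v hv
    rw [hS, Set.mem_ofPred_eq, hN v] at hv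
    obtain ⟨h1, h2, h3, h4⟩ := hv
    have h5 : (N v : ℝ) ≤ T := h4
    have h6 := hkeyR v
    have h7 : n * (N v : ℝ) ≤ n * T := by gcongr
    rw [mem_coe, mem_box]
    have hv2 : (1 : ℝ) ≤ v.2 := by exact_mod_cast h1
    refine ⟨h1, ?_, ?_, ?_⟩
    · rw [le_div_iff₀ (by linarith)]
      apply Real.le_sqrt_of_sq_le
      linarith [sq_nonneg (n * ((v.1 : ℝ) - c * v.2))]
    · have h8 : |n * ((v.1 : ℝ) - c * v.2)| ≤ Real.sqrt (n * T) := by
        apply Real.abs_le_sqrt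
        linarith [mul_nonneg (sq_nonneg (a : ℝ)) (sq_nonneg (v.2 : ℝ))]
      have h9 := (abs_le.mp h8).1
      have : -(Real.sqrt (n * T) / n) ≤ (v.1 : ℝ) - c * v.2 := by
        rw [← neg_div, div_le_iff₀ hn0]; linarith
      linarith
    · have h8 : |n * ((v.1 : ℝ) - c * v.2)| ≤ Real.sqrt (n * T) := by
        apply Real.abs_le_sqrt
        linarith [mul_nonneg (sq_nonneg (a : ℝ)) (sq_nonneg (v.2 : ℝ))]
      have h9 := (abs_le.mp h8).2
      have : (v.1 : ℝ) - c * v.2 ≤ (Real.sqrt (n * T) / n) := by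
        rw [le_div_iff₀ hn0]; linarith
      linarith
  -- the few points of small norm
  set H : Finset (ℤ × ℤ) := (Ix c 1 1).image (fun x => (x, (1 : ℤ))) with hH
  have hHc : (H.card : ℝ) ≤ 2 := by
    calc (H.card : ℝ) ≤ ((Ix c 1 1).card : ℝ) := by exact_mod_cast card_image_le
      _ ≤ 1 + 1 := card_Ix_le c 1 1 (by norm_num)
      _ = 2 := by norm_num
  set G := (box c Y X).filter (fun v => IsCoprime v.1 v.2) with hG
  have hsub : ((G \ H : Finset (ℤ × ℤ)) : Set (ℤ × ℤ)) ⊆ S := by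
    intro v hv
    rw [mem_coe, mem_sdiff, hG, mem_filter, mem_box] at hv
    obtain ⟨⟨⟨h1, h2, h3, h4⟩, h5⟩, h6⟩ := hv
    have hk := hkeyR v
    have hv2 : (1 : ℝ) ≤ v.2 := by exact_mod_cast h1
    rw [hS, Set.mem_ofPred_eq, hN v]
    refine ⟨h1, h5, ?_, ?_⟩
    · by_contra hcon
      push Not at hcon
      have hNa : (N v : ℝ) ≤ a := by exact_mod_cast hcon
      have h7 : n * (N v : ℝ) ≤ n * a := by gcongr
      have hv21 : v.2 = 1 := by
        by_contra hne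
        have : (2 : ℝ) ≤ v.2 := by
          have : (2 : ℤ) ≤ v.2 := by omega
          exact_mod_cast this
        have h22 : (4 : ℝ) ≤ (v.2 : ℝ) ^ 2 := by nlinarith only [this]
        have h23 : (a : ℝ) ^ 2 * 4 ≤ (a : ℝ) ^ 2 * (v.2 : ℝ) ^ 2 :=
          mul_le_mul_of_nonneg_left h22 (sq_nonneg _)
        have h24 : n * (a : ℝ) ≤ 2 * a * a := mul_le_mul_of_nonneg_right hn2 (by linarith)
        have h25 := sq_nonneg (n * ((v.1 : ℝ) - c * v.2))
        have h26 : (0 : ℝ) < (a : ℝ) ^ 2 := by positivity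
        have h27 : (2 : ℝ) * a * a = 2 * (a : ℝ) ^ 2 := by ring
        linarith
      apply h6
      rw [hH, mem_image]
      refine ⟨v.1, ?_, ?_⟩
      · rw [mem_Ix]
        rw [hv21] at hk
        have h8 : (n * ((v.1 : ℝ) - c * 1)) ^ 2 ≤ (n / 2) ^ 2 := by
          push_cast at hk
          have hk2 : (n * ((v.1 : ℝ) - c * 1)) ^ 2 = n * (N v : ℝ) - a ^ 2 := by linarith
          have h9 : n * a - (a : ℝ) ^ 2 ≤ (n / 2) ^ 2 := by linarith [sq_nonneg (n / 2 - a)]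
          rw [hk2]
          linarith
        have h9 := abs_le_of_sq_le_sq' h8 (by positivity)
        push_cast
        constructor
        · have : -(1 / 2) ≤ (v.1 : ℝ) - c * 1 := by
            by_contra hc2
            push Not at hc2
            have h31 := mul_lt_mul_of_pos_left hc2 hn0
            linarith [h9.1]
          linarith
        · have : (v.1 : ℝ) - c * 1 ≤ 1 / 2 := by
            by_contra hc2
            push Not at hc2
            have h31 := mul_lt_mul_of_pos_left hc2 hn0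
            linarith [h9.2]
          linarith
      · rw [← hv21]
    · have h7 : |(v.1 : ℝ) - c * v.2| ≤ X / 2 := by
        rw [abs_le]; constructor <;> linarith
      have h8 : (n * ((v.1 : ℝ) - c * v.2)) ^ 2 ≤ n ^ 2 * (X ^ 2 / 4) := by
        have : ((v.1 : ℝ) - c * v.2) ^ 2 ≤ (X / 2) ^ 2 := sq_le_sq' (by linarith [(abs_le.mp h7).1]) (abs_le.mp h7).2
        calc (n * ((v.1 : ℝ) - c * v.2)) ^ 2 = n ^ 2 * ((v.1 : ℝ) - c * v.2) ^ 2 := by ring
          _ ≤ n ^ 2 * (X / 2) ^ 2 := by gcongr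
          _ = _ := by ring
      have h9 : (a : ℝ) ^ 2 * (v.2 : ℝ) ^ 2 ≤ a ^ 2 * Y ^ 2 := by gcongr
      have h10 : n ^ 2 * (X ^ 2 / 4) + a ^ 2 * Y ^ 2 = n * T := by
        rw [hX2, hY2]; field_simp; ring
      have h11 : n * (N v : ℝ) ≤ n * T := by linarith
      have h12 : (N v : ℝ) ≤ T := le_of_mul_le_mul_left h11 hn0
      exact h12
  have hcardS : ((G \ H).card : ℝ) ≤ (S.ncard : ℝ) := by
    have := Set.ncard_le_ncard hsub hSf
    rw [Set.ncard_coe_finset] at this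
    exact_mod_cast this
  have hsd : (G.card : ℝ) ≤ ((G \ H).card : ℝ) + (H.card : ℝ) := by
    exact_mod_cast card_le_card_sdiff_add_card
  have hTa : (10 : ℝ) ^ 9 ≤ T / a := by rw [le_div_iff₀ (by linarith)]; exact hTa4
  have e : T / (100 * a) = (T / a) / 100 := by field_simp
  rw [e]
  linarith

end Pool.Agent.Helper15.AB
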