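import Mathlib
import Pool.Agent.Helper15.AB.StMid
import Pool.Agent.Helper28.PC.Mert
import Pool.Agent.Helper96.TR.VL

/-!
# Module MT (MP_37d0ef_nt): Mertens
-/

set_option autoImplicit false

namespace Pool.Agent.Helper15.AB

open Finset ArithmeticFunction Filter Topology

namespace hMT

/-- the homomorphism `n ↦ 1 / n` -/
noncomputable def iv : ℕ →* ℝ where
  toFun n := (n : ℝ)⁻¹
  map_one' := by simp
  map_mul' a b := by push_cast; rw [mul_inv]

theorem iv_lt {p : ℕ} (hp : p.Prime) : ‖iv p‖ < 1 := by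
  have h1 : (1 : ℝ) < p := by exact_mod_cast hp.one_lt
  change ‖((p : ℝ)⁻¹)‖ < 1
  rw [Real.norm_of_nonneg (by positivity)]
  exact inv_lt_one_of_one_lt₀ h1

/-- harmonic sums are bounded by the Euler product -/
theorem harm_le (n : ℕ) : ∑ i ∈ range n, ((i + 1 : ℕ) : ℝ)⁻¹ ≤
    ∏ p ∈ n.primesLE, (1 - (p : ℝ)⁻¹)⁻¹ := by
  obtain ⟨h1, h2⟩ := EulerProduct.summable_and_hasSum_smoothNumbers_prod_primesBelow_geometric
    (f := iv) (fun {p} hp => iv_lt hp) (n + 1)
  have h3 : ∀ i ∈ range n, i + 1 ∈ (n + 1).smoothNumbers := by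
    intro i hi
    rw [mem_range] at hi
    exact Nat.mem_smoothNumbers_of_lt (by omega) (by omega)
  have hs : ∑ i ∈ range n, ((i + 1 : ℕ) : ℝ)⁻¹ =
      ∑ i ∈ (range n).attach, iv ((⟨i.1 + 1, h3 i.1 i.2⟩ : (n + 1).smoothNumbers) : ℕ) := by
    rw [← Finset.sum_attach]
    rfl
  rw [hs]
  have h4 : ∑ i ∈ (range n).attach, iv ((⟨i.1 + 1, h3 i.1 i.2⟩ : (n + 1).smoothNumbers) : ℕ) =
      ∑ m ∈ (range n).attach.image (fun i => (⟨i.1 + 1, h3 i.1 i.2⟩ : (n + 1).smoothNumbers)),
        iv (m : ℕ) := by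
    rw [Finset.sum_image]
    intro a _ b _ hab
    have := congrArg Subtype.val hab
    apply Subtype.ext
    simpa using this
  rw [h4]
  exact sum_le_hasSum _ (fun m _ => inv_nonneg.2 (Nat.cast_nonneg _)) h2

end hMT

open hMT in
theorem hMT : StMT := by
  refine ⟨5, by norm_num, fun y hy => ?_⟩
  set n := ⌊y⌋₊ with hn
  have hn3 : 3 ≤ n := Nat.le_floor (by exact_mod_cast hy)
  have hset : (Icc 1 n).filter Nat.Prime = n.primesLE := by
    ext p
    rw [mem_filter, mem_Icc, Nat.mem_primesLE]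
    constructor
    · rintro ⟨h1, h2⟩
      exact ⟨h1.2, h2⟩
    · rintro ⟨h1, h2⟩
      exact ⟨⟨h2.one_le, h1⟩, h2⟩
  rw [hset]
  have hy1 : 1 < y := by linarith
  have hlogy : 1 < Real.log y := by
    rw [Real.lt_log_iff_exp_lt (by linarith)]
    have := Real.exp_one_lt_d9
    linarith
  have hnr : (3 : ℝ) ≤ n := by exact_mod_cast hn3
  have hny : (n : ℝ) ≤ y := Nat.floor_le (by linarith)
  have hyn : y < n + 1 := Nat.lt_floor_add_one y
  rw [abs_le]
  constructor
  · -- lower bound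
    have h1 := harm_le n
    have h2 : Real.log y ≤ ∑ i ∈ range n, ((i + 1 : ℕ) : ℝ)⁻¹ := by
      have h3 := log_add_one_le_harmonic n
      have h4 : ((harmonic n : ℚ) : ℝ) = ∑ i ∈ range n, ((i + 1 : ℕ) : ℝ)⁻¹ := by
        rw [harmonic]
        push_cast
        rfl
      rw [h4] at h3
      refine le_trans ?_ h3
      refine Real.log_le_log (by linarith) ?_
      push_cast
      exact hyn.le
    have h3 : Real.log (Real.log y) ≤ Real.log (∏ p ∈ n.primesLE, (1 - (p : ℝ)⁻¹)⁻¹) :=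
      Real.log_le_log (by linarith) (h2.trans h1)
    have hfac : ∀ p ∈ n.primesLE, (0 : ℝ) < 1 - (p : ℝ)⁻¹ := by
      intro p hp
      rw [Nat.mem_primesLE] at hp
      have h2 : (1 : ℝ) < p := by exact_mod_cast hp.2.one_lt
      have := inv_lt_one_of_one_lt₀ h2
      linarith
    rw [Real.log_prod (fun p hp => (inv_pos.2 (hfac p hp)).ne')] at h3
    have h6 : ∀ p ∈ n.primesLE, Real.log ((1 - (p : ℝ)⁻¹)⁻¹) ≤
        1 / (p : ℝ) + 1 / ((p : ℝ) * (p - 1)) := by
      intro p hp
      have h7 := Real.one_sub_inv_le_log_of_pos (hfac p hp)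
      rw [Nat.mem_primesLE] at hp
      have h2 : (2 : ℝ) ≤ p := by exact_mod_cast hp.2.two_le
      rw [Real.log_inv]
      have h8 : (p : ℝ) ≠ 0 := by linarith
      have h9 : (p : ℝ) - 1 ≠ 0 := by linarith
      have h10 : (1 : ℝ) - (p : ℝ)⁻¹ = (p - 1) / p := by field_simp
      rw [h10, inv_div] at h7
      rw [h10]
      have h11 : 1 - (p : ℝ) / (p - 1) = -(1 / (p : ℝ) + 1 / ((p : ℝ) * (p - 1))) := by
        field_simp
        ring
      linarith
    have h7 := Finset.sum_le_sum h6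
    rw [sum_add_distrib] at h7
    have h12 := Pool.Agent.Helper18.TR.vl_sum n
    linarith
  · have h1 := Pool.Agent.Helper28.PC.sum_inv_le (n := n) (by omega)
    have h2 : Real.log (Real.log n) ≤ Real.log (Real.log y) := by
      apply Real.log_le_log
      · exact Real.log_pos (by linarith)
      · exact Real.log_le_log (by linarith) hny
    linarith

end Pool.Agent.Helper15.AB
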