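import Mathlib
import Pool.Agent.Helper15.AB.StAp

/-!
# Project AB, module N1: first moment
-/

set_option autoImplicit false

namespace Pool.Agent.Helper15.AB

open Finset

namespace hN1

theorem im_zz_right (z₁ z₂ : GaussianInt) (v : ℤ × ℤ) :
    (star z₁ * zz z₁ z₂ v).im = v.2 * (star z₁ * z₂).im := by
  simp only [zz, Zsqrtd.im_mul, Zsqrtd.re_star, Zsqrtd.im_star, Zsqrtd.im_add, Zsqrtd.re_add,
    Zsqrtd.re_mul, Zsqrtd.re_intCast, Zsqrtd.im_intCast]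
  ring

theorem im_zz_zz (z₁ z₂ : GaussianInt) (v w : ℤ × ℤ) :
    (star (zz z₁ z₂ v) * zz z₁ z₂ w).im = (v.1 * w.2 - v.2 * w.1) * (star z₁ * z₂).im := by
  simp only [zz, Zsqrtd.im_mul, Zsqrtd.re_star, Zsqrtd.im_star, Zsqrtd.im_add, Zsqrtd.re_add,
    Zsqrtd.re_mul, Zsqrtd.re_intCast, Zsqrtd.im_intCast]
  ring

theorem zz_inj (z₁ z₂ : GaussianInt) (h : (star z₁ * z₂).im ≠ 0) {v w : ℤ × ℤ}
    (he : zz z₁ z₂ v = zz z₁ z₂ w) : v = w := by
  have h2 : v.2 = w.2 := by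
    have h3 := im_zz_right z₁ z₂ v
    rw [he, im_zz_right] at h3
    exact (mul_right_cancel₀ h h3).symm
  have h1 : v.1 = w.1 := by
    have h3 := im_zz_zz z₁ z₂ v (0, 1)
    rw [he, im_zz_zz] at h3
    have h4 := mul_right_cancel₀ h h3
    simpa using h4.symm
  exact Prod.ext h1 h2

theorem finite_norm (Y : ℝ) : {u : GaussianInt | (u.norm : ℝ) ≤ Y}.Finite := by
  classical
  refine Set.Finite.subset (insert 0 (gb Y)).finite_toSet ?_
  intro u hu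
  rw [mem_coe, mem_insert, mem_gb]
  by_cases h : u = 0
  · exact Or.inl h
  · exact Or.inr ⟨h, hu⟩

theorem finite_zz (z₁ z₂ : GaussianInt) (h : (star z₁ * z₂).im ≠ 0) (Y : ℝ) :
    {v : ℤ × ℤ | ((zz z₁ z₂ v).norm : ℝ) ≤ Y}.Finite :=
  Set.Finite.preimage (fun v _ w _ he => zz_inj z₁ z₂ h he) (finite_norm Y)

theorem finite_Vs (p : ℕ) (z₁ z₂ : GaussianInt) (h : (star z₁ * z₂).im ≠ 0) (w : ℝ) :
    (Vs p z₁ z₂ w).Finite := by
  refine Set.Finite.subset (finite_zz z₁ z₂ h (w ^ 2 + p)) ?_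
  intro v hv
  have h1 := hv.2.2.2
  push_cast at h1
  show ((zz z₁ z₂ v).norm : ℝ) ≤ w ^ 2 + p
  linarith

/-- `∑ 1 / a ≥ c` -/
theorem mass (p : ℕ) (z₁ z₂ : GaussianInt) (him : (star z₁ * z₂).im ≠ 0) (c x₀ : ℝ) (hc : 0 < c)
    (hBB : ∀ x : ℝ, x₀ ≤ x →
      c * x / Real.log x ≤ (Set.ncard {v : ℤ × ℤ | IsCoprime v.1 v.2 ∧
      ((zz z₁ z₂ v).norm - p).toNat.Prime ∧ x ≤ (((zz z₁ z₂ v).norm - p : ℤ) : ℝ) ∧
      (((zz z₁ z₂ v).norm - p : ℤ) : ℝ) ≤ 3 * x} : ℝ)) (w : ℝ) (hw : x₀ ≤ w) (hw81 : 81 ≤ w)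
    (V : Finset (ℤ × ℤ)) (hV : ∀ v, v ∈ V ↔ v ∈ Vs p z₁ z₂ w) :
    c / 36 ≤ ∑ v ∈ V, (1 : ℝ) / (((zz z₁ z₂ v).norm - p : ℤ) : ℝ) := by
  classical
  have hw0 : 0 < w := by linarith
  obtain ⟨I, hI⟩ : ∃ I, I = Nat.log 9 ⌊w⌋₊ := ⟨_, rfl⟩
  have hI9 : (9 : ℝ) ^ I ≤ w := by
    have h2 : 9 ^ Nat.log 9 ⌊w⌋₊ ≤ ⌊w⌋₊ :=
      Nat.pow_log_le_self 9 (Nat.pos_iff_ne_zero.1 (Nat.floor_pos.2 (by linarith)))
    have h3 : ((9 ^ Nat.log 9 ⌊w⌋₊ : ℕ) : ℝ) ≤ w :=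
      (Nat.cast_le.2 h2).trans (Nat.floor_le hw0.le)
    rw [hI]; push_cast at h3; exact h3
  have hIl : w < (9 : ℝ) ^ (I + 1) := by
    have h2 : ⌊w⌋₊ < 9 ^ (Nat.log 9 ⌊w⌋₊ + 1) := Nat.lt_pow_succ_log_self (by norm_num) _
    have h3 := (Nat.floor_lt hw0.le).1 h2
    rw [hI]; push_cast at h3; exact h3
  have hI2 : 2 ≤ I := by
    rw [hI]
    refine (Nat.le_log_iff_pow_le (by norm_num) (Nat.pos_iff_ne_zero.1
      (Nat.floor_pos.2 (by linarith)))).2 ?_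
    refine Nat.le_floor ?_
    push_cast; linarith
  have hwl : 0 < Real.log w := Real.log_pos (by linarith)
  have hlog : Real.log w ≤ 6 * I := by
    have h1 := Real.log_le_log hw0 hIl.le
    rw [Real.log_pow] at h1
    have h9 : Real.log 9 ≤ 3 := by
      have h2 : Real.log 9 ≤ Real.log (Real.exp 3) := by
        refine Real.log_le_log (by norm_num) ?_
        have h3 : (2.7182818283 : ℝ) < Real.exp 1 := Real.exp_one_gt_d9
        have h4 : Real.exp 3 = Real.exp 1 ^ 3 := by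
          rw [← Real.exp_nat_mul]; norm_num
        rw [h4]
        calc (9 : ℝ) ≤ 2.7182818283 ^ 3 := by norm_num
          _ ≤ Real.exp 1 ^ 3 := pow_le_pow_left₀ (by norm_num) h3.le 3
      rwa [Real.log_exp] at h2
    have hI2' : (2 : ℝ) ≤ I := by exact_mod_cast hI2
    push_cast at h1
    nlinarith
  obtain ⟨a, ha⟩ : ∃ a : ℤ × ℤ → ℝ, ∀ v, a v = (((zz z₁ z₂ v).norm - p : ℤ) : ℝ) :=
    ⟨_, fun _ => rfl⟩
  have hVa : ∀ v ∈ V, w ≤ a v ∧ a v ≤ w ^ 2 := by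
    intro v hv
    rw [hV] at hv
    rw [ha]
    exact hv.2.2
  obtain ⟨B, hB⟩ : ∃ B : ℕ → Finset (ℤ × ℤ), ∀ i,
      B i = V.filter (fun v => 9 ^ i * w ≤ a v ∧ a v ≤ 3 * (9 ^ i * w)) := ⟨_, fun _ => rfl⟩
  have hdisj : Set.PairwiseDisjoint ((range I : Finset ℕ) : Set ℕ) B := by
    intro i _ j _ hij
    show Disjoint (B i) (B j)
    rw [disjoint_left]
    intro v hv hv'
    rw [hB, mem_filter] at hv hv'
    obtain ⟨-, h1, h2⟩ := hv
    obtain ⟨-, h3, h4⟩ := hv'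
    have aux : ∀ k l : ℕ, k < l → 9 ^ l * w ≤ a v → a v ≤ 3 * (9 ^ k * w) → False := by
      intro k l hkl h5 h6
      have h7 : (9 : ℝ) ^ (k + 1) ≤ 9 ^ l := pow_le_pow_right₀ (by norm_num) hkl
      have h8 : (9 : ℝ) ^ (k + 1) * w ≤ 9 ^ l * w := mul_le_mul_of_nonneg_right h7 hw0.le
      have h9 : (0 : ℝ) < 9 ^ k * w := by positivity
      rw [pow_succ] at h8
      nlinarith
    rcases lt_or_gt_of_ne hij with h | h
    · exact aux i j h h3 h2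
    · exact aux j i h h1 h4
  have hsub : (range I).biUnion B ⊆ V := by
    intro v hv
    obtain ⟨i, -, hi⟩ := mem_biUnion.1 hv
    rw [hB] at hi
    exact (mem_filter.1 hi).1
  have e1 : ∑ v ∈ (range I).biUnion B, (1 : ℝ) / a v ≤ ∑ v ∈ V, (1 : ℝ) / a v := by
    refine sum_le_sum_of_subset_of_nonneg hsub fun v hv _ => ?_
    have := (hVa v hv).1
    have : 0 < a v := by linarith
    positivity
  rw [sum_biUnion hdisj] at e1
  have e2 : ∀ i ∈ range I, c / (6 * Real.log w) ≤ ∑ v ∈ B i, (1 : ℝ) / a v := by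
    intro i hi
    obtain ⟨x, hx⟩ : ∃ x, x = 9 ^ i * w := ⟨_, rfl⟩
    have hxw : w ≤ x := by
      rw [hx]
      have : (1 : ℝ) ≤ 9 ^ i := one_le_pow₀ (by norm_num)
      nlinarith
    have hx0 : 0 < x := by linarith
    have hx9 : 9 * x ≤ w ^ 2 := by
      have h1 : (9 : ℝ) ^ (i + 1) ≤ 9 ^ I :=
        pow_le_pow_right₀ (by norm_num) (mem_range.1 hi)
      rw [pow_succ] at h1
      rw [hx]; nlinarith
    have hxl : Real.log x ≤ 2 * Real.log w := by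
      have h1 : x ≤ w ^ 2 := by linarith
      have h2 := Real.log_le_log hx0 h1
      rwa [Real.log_pow] at h2
    have hxl0 : 0 < Real.log x := Real.log_pos (by linarith)
    have h1 := hBB x (hw.trans hxw)
    have h2 : {v : ℤ × ℤ | IsCoprime v.1 v.2 ∧
      ((zz z₁ z₂ v).norm - p).toNat.Prime ∧ x ≤ (((zz z₁ z₂ v).norm - p : ℤ) : ℝ) ∧
      (((zz z₁ z₂ v).norm - p : ℤ) : ℝ) ≤ 3 * x} = (B i : Set (ℤ × ℤ)) := by
      ext v
      rw [hB, mem_coe, mem_filter, hV, ← hx, ha]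
      constructor
      · rintro ⟨b1, b2, b3, b4⟩
        exact ⟨⟨b1, b2, hxw.trans b3, b4.trans (by linarith)⟩, b3, b4⟩
      · rintro ⟨⟨b1, b2, -, -⟩, b3, b4⟩
        exact ⟨b1, b2, b3, b4⟩
    rw [h2, Set.ncard_coe_finset] at h1
    have h3 : (B i).card • (1 / (3 * x)) ≤ ∑ v ∈ B i, (1 : ℝ) / a v := by
      refine card_nsmul_le_sum _ _ _ fun v hv => ?_
      rw [hB, mem_filter, ← hx] at hv
      exact one_div_le_one_div_of_le (by linarith) hv.2.2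
    refine le_trans ?_ h3
    rw [nsmul_eq_mul]
    calc c / (6 * Real.log w) ≤ c / (3 * Real.log x) :=
          div_le_div_of_nonneg_left hc.le (by positivity) (by linarith)
      _ = c * x / Real.log x * (1 / (3 * x)) := by field_simp
      _ ≤ _ := mul_le_mul_of_nonneg_right h1 (by positivity)
  have e3 := card_nsmul_le_sum _ _ _ e2
  rw [card_range, nsmul_eq_mul] at e3
  have e4 : c / 36 ≤ (I : ℝ) * (c / (6 * Real.log w)) := by
    rw [mul_div_assoc', div_le_div_iff₀ (by norm_num) (by positivity)]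
    nlinarith
  simp only [ha] at e1 e3
  linarith

end hN1

open hN1 in
theorem hN1 (hBB : StBB) (hMS : StMS) : StN1 := by
  classical
  intro p z₁ z₂ hp hp2 him hpn
  obtain ⟨c, x₀, hc, hB⟩ := hBB p z₁ z₂ hp hp2 him hpn
  obtain ⟨C, hC, hM⟩ := hMS
  have hp0 : (0 : ℤ) < p := by exact_mod_cast hp.pos
  have him0 : (star z₁ * z₂).im ≠ 0 := by rw [him]; omega
  obtain ⟨M, hMdef⟩ : ∃ M : ℝ, M = max x₀ (max 81 (max C (p + 1))) := ⟨_, rfl⟩
  have hM1 : x₀ ≤ M := by rw [hMdef]; exact le_max_left _ _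
  have hM2 : 81 ≤ M := by rw [hMdef]; exact (le_max_left _ _).trans (le_max_right _ _)
  have hM3 : C ≤ M := by
    rw [hMdef]
    exact (le_max_left _ _).trans ((le_max_right _ _).trans (le_max_right _ _))
  have hM4 : (p : ℝ) + 1 ≤ M := by
    rw [hMdef]
    exact (le_max_right _ _).trans ((le_max_right _ _).trans (le_max_right _ _))
  refine ⟨c / 36 / 100, M ^ (500 : ℝ), by positivity, ?_⟩
  intro X hX bz hbz
  have hM0 : 0 < M := by linarith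
  obtain ⟨w, hw⟩ : ∃ w : ℝ, w = X ^ (1 / 500 : ℝ) := ⟨_, rfl⟩
  have hX0 : 0 < X := lt_of_lt_of_le (Real.rpow_pos_of_pos hM0 _) hX
  have hwM : M ≤ w := by
    have h1 := Real.rpow_le_rpow (by positivity) hX (by norm_num : (0 : ℝ) ≤ 1 / 500)
    rw [← Real.rpow_mul hM0.le] at h1
    norm_num at h1
    rw [hw]
    norm_num
    exact h1
  have hw0 : 0 < w := by linarith
  have hwX : w ^ 500 = X := by
    rw [hw, ← Real.rpow_natCast, ← Real.rpow_mul hX0.le]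
    norm_num
  have hVf := finite_Vs p z₁ z₂ him0 w
  have hVa : ∀ v ∈ Vs p z₁ z₂ w, ∃ a : ℕ, (zz z₁ z₂ v).norm = a + p ∧ w ≤ a ∧ (a : ℝ) ≤ w ^ 2 := by
    intro v hv
    obtain ⟨-, -, h1, h2⟩ := hv
    have h3 : (0 : ℝ) < (((zz z₁ z₂ v).norm - p : ℤ) : ℝ) := by linarith
    have h4 : 0 < (zz z₁ z₂ v).norm - p := by exact_mod_cast h3
    refine ⟨((zz z₁ z₂ v).norm - p).toNat, by omega, ?_, ?_⟩
    · have h5 : ((((zz z₁ z₂ v).norm - p).toNat : ℕ) : ℝ) = (((zz z₁ z₂ v).norm - p : ℤ) : ℝ) := by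
        rw [← Int.cast_natCast, Int.toNat_of_nonneg h4.le]
      rw [h5]; exact h1
    · have h5 : ((((zz z₁ z₂ v).norm - p).toNat : ℕ) : ℝ) = (((zz z₁ z₂ v).norm - p : ℤ) : ℝ) := by
        rw [← Int.cast_natCast, Int.toNat_of_nonneg h4.le]
      rw [h5]; exact h2
  -- the determinant of the lattice of a circle
  have hdet : ∀ v : ℤ × ℤ, IsCoprime v.1 v.2 →
      (star (zz z₁ z₂ v) * zz z₁ z₂ (bz v)).im = p := by
    intro v hv
    rw [im_zz_zz, hbz v hv, one_mul, him]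
  have hdet2 : ∀ z z' : GaussianInt, (star z * (z' - ⟨0, 1⟩ * z)).im =
      (star z * z').im - z.norm := by
    intro z z'
    rw [Zsqrtd.norm_def]
    simp only [Zsqrtd.im_mul, Zsqrtd.re_star, Zsqrtd.im_star, Zsqrtd.im_sub, Zsqrtd.re_sub,
      Zsqrtd.re_mul]
    ring
  have hfin : (RR p z₁ z₂ bz X).Finite := by
    have h1 : ∀ v ∈ Vs p z₁ z₂ w, ((({v} : Set (ℤ × ℤ))) ×ˢ
        {x : ℤ × ℤ | ((zz (zz z₁ z₂ v) (zz z₁ z₂ (bz v) - ⟨0, 1⟩ * zz z₁ z₂ v) x).norm : ℝ) ≤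
          X + w ^ 2}).Finite := by
      intro v hv
      refine (Set.finite_singleton v).prod (finite_zz _ _ ?_ _)
      obtain ⟨a, h2, h3, h4⟩ := hVa v hv
      rw [hdet2, hdet v hv.1, h2]
      have : (0 : ℝ) < a := by linarith
      have : 0 < a := by exact_mod_cast this
      omega
    refine Set.Finite.subset (hVf.biUnion h1) ?_
    rintro ⟨v, x⟩ ⟨h2, h3, h4, h5, h6⟩
    rw [← hw] at h2
    rw [Set.mem_iUnion₂]
    refine ⟨v, h2, ?_⟩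
    rw [Set.mem_prod]
    refine ⟨rfl, ?_⟩
    obtain ⟨a, h7, h8, h9⟩ := hVa v h2
    show ((zz (zz z₁ z₂ v) (zz z₁ z₂ (bz v) - ⟨0, 1⟩ * zz z₁ z₂ v) x).norm : ℝ) ≤ X + w ^ 2
    unfold nn at h6
    rw [h7] at h6
    push_cast at h6
    linarith
  refine ⟨hfin, ?_⟩
  obtain ⟨R, hR⟩ : ∃ R, R = hfin.toFinset := ⟨_, rfl⟩
  obtain ⟨V, hV⟩ : ∃ V, V = hVf.toFinset := ⟨_, rfl⟩
  have hRm : ∀ t, t ∈ R ↔ t ∈ RR p z₁ z₂ bz X := by intro t; rw [hR, Set.Finite.mem_toFinset]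
  have hVm : ∀ v, v ∈ V ↔ v ∈ Vs p z₁ z₂ w := by intro v; rw [hV, Set.Finite.mem_toFinset]
  have hcardR : Set.ncard (RR p z₁ z₂ bz X) = R.card := by
    rw [hR, Set.ncard_eq_toFinset_card _ hfin]
  have hmap : ∀ t ∈ R, t.1 ∈ V := by
    intro t ht
    rw [hRm] at ht
    rw [hVm, hw]
    exact ht.1
  rw [hcardR, card_eq_sum_card_fiberwise hmap]
  have hfib : ∀ v ∈ V, X / 100 * (1 / (((zz z₁ z₂ v).norm - p : ℤ) : ℝ)) ≤
      ((R.filter (fun t => t.1 = v)).card : ℝ) := by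
    intro v hv
    rw [hVm] at hv
    obtain ⟨a, h2, h3, h4⟩ := hVa v hv
    have ha0 : (0 : ℝ) < a := by linarith
    have hpa : (p : ℝ) ≤ a := by linarith
    have hT : C * (a : ℝ) ^ 4 ≤ X + a := by
      have h5 : (a : ℝ) ^ 4 ≤ (w ^ 2) ^ 4 := pow_le_pow_left₀ ha0.le h4 4
      have h6 : C * (a : ℝ) ^ 4 ≤ w * (w ^ 2) ^ 4 :=
        mul_le_mul (by linarith) h5 (by positivity) hw0.le
      have h7 : w * (w ^ 2) ^ 4 = w ^ 9 := by ring
      have h8 : w ^ 9 ≤ w ^ 500 := pow_le_pow_right₀ (by linarith) (by norm_num)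
      rw [hwX] at h8
      linarith
    have h5 := hM p a (zz z₁ z₂ v) (zz z₁ z₂ (bz v)) (X + a) hp.one_le (by exact_mod_cast hpa)
      (hdet v hv.1) h2 hT
    have h6 : (((zz z₁ z₂ v).norm - p : ℤ) : ℝ) = a := by
      rw [h2]; push_cast; ring
    rw [h6]
    have h7 : X / 100 * (1 / (a : ℝ)) ≤ (X + a) / (100 * a) := by
      rw [div_mul_div_comm, mul_one]
      exact div_le_div_of_nonneg_right (by linarith) (by positivity)
    refine h7.trans (h5.trans ?_)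
    refine Nat.cast_le.2 ?_
    obtain ⟨S, hS⟩ : ∃ S : Set (ℤ × ℤ), S = {x : ℤ × ℤ | 1 ≤ x.2 ∧ IsCoprime x.1 x.2 ∧
      (a : ℤ) < ((x.1 : GaussianInt) * zz z₁ z₂ v +
        (x.2 : GaussianInt) * (zz z₁ z₂ (bz v) - ⟨0, 1⟩ * zz z₁ z₂ v)).norm ∧
      ((((x.1 : GaussianInt) * zz z₁ z₂ v +
        (x.2 : GaussianInt) * (zz z₁ z₂ (bz v) - ⟨0, 1⟩ * zz z₁ z₂ v)).norm : ℤ) : ℝ) ≤ X + a} :=
      ⟨_, rfl⟩
    rw [← hS]
    have h8 : Set.ncard S = Set.ncard ((fun x => (v, x)) '' S) :=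
      (Set.ncard_image_of_injective S (fun x y h => (Prod.mk.inj h).2)).symm
    rw [h8, ← Set.ncard_coe_finset]
    refine Set.ncard_le_ncard ?_ (finite_toSet _)
    rintro _ ⟨x, hx, rfl⟩
    rw [hS] at hx
    obtain ⟨b1, b2, b3, b4⟩ := hx
    rw [mem_coe, mem_filter, hRm]
    refine ⟨⟨?_, b1, b2, ?_, ?_⟩, rfl⟩
    · show v ∈ Vs p z₁ z₂ (X ^ (1 / 500 : ℝ))
      rw [← hw]; exact hv
    · show 1 ≤ nn p z₁ z₂ bz (v, x)
      unfold nn
      simp only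
      rw [h2]
      unfold zz at b3 ⊢
      omega
    · show ((nn p z₁ z₂ bz (v, x) : ℤ) : ℝ) ≤ X
      unfold nn
      simp only
      rw [h2]
      push_cast
      have b5 : (((zz (zz z₁ z₂ v) (zz z₁ z₂ (bz v) - ⟨0, 1⟩ * zz z₁ z₂ v) x).norm : ℤ) : ℝ) ≤
        X + a := b4
      linarith
  have h1 := sum_le_sum hfib
  rw [← mul_sum] at h1
  have h2 := mass p z₁ z₂ him0 c x₀ hc hB w (hM1.trans hwM) (hM2.trans hwM) V hVm
  push_cast at h1 ⊢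
  have h3 := mul_le_mul_of_nonneg_left h2 (by positivity : (0 : ℝ) ≤ X / 100)
  push_cast at h3
  calc c / 36 / 100 * X = X / 100 * (c / 36) := by ring
    _ ≤ _ := h3.trans h1

end Pool.Agent.Helper15.AB
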