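import Mathlib
import Pool.Agent.Helper15.AB.StAp

/-!
# Project AB: module N2 (second moment)
-/

set_option autoImplicit false

namespace Pool.Agent.Helper15.AB

open Finset

namespace hN2

theorem norm_eq (z : GaussianInt) : z.norm = z.re ^ 2 + z.im ^ 2 := by
  rw [Zsqrtd.norm_def]
  ring

theorem im_star_mul (z w : GaussianInt) : (star z * w).im = z.re * w.im - z.im * w.re := by
  simp only [Zsqrtd.im_mul, Zsqrtd.re_star, Zsqrtd.im_star]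
  ring

theorem zz_re (z₁ z₂ : GaussianInt) (v : ℤ × ℤ) : (zz z₁ z₂ v).re = v.1 * z₁.re + v.2 * z₂.re := by
  simp [zz]

theorem zz_im (z₁ z₂ : GaussianInt) (v : ℤ × ℤ) : (zz z₁ z₂ v).im = v.1 * z₁.im + v.2 * z₂.im := by
  simp [zz]

theorem zz_inj {z₁ z₂ : GaussianInt} (h : (star z₁ * z₂).im ≠ 0) {v w : ℤ × ℤ}
    (hvw : zz z₁ z₂ v = zz z₁ z₂ w) : v = w := by
  have h1 := congrArg Zsqrtd.re hvw
  have h2 := congrArg Zsqrtd.im hvw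
  rw [zz_re, zz_re] at h1
  rw [zz_im, zz_im] at h2
  rw [im_star_mul] at h
  have h3 : (v.2 - w.2) * (z₁.re * z₂.im - z₁.im * z₂.re) = 0 := by
    linear_combination z₁.re * h2 - z₁.im * h1
  have h4 : (v.1 - w.1) * (z₁.re * z₂.im - z₁.im * z₂.re) = 0 := by
    linear_combination z₂.im * h1 - z₂.re * h2
  have h5 := (mul_eq_zero.1 h3).resolve_right h
  have h6 := (mul_eq_zero.1 h4).resolve_right h
  exact Prod.ext (by linarith) (by linarith)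

/-- the second vector -/
noncomputable def z2 (z₁ z₂ : GaussianInt) (bz : ℤ × ℤ → ℤ × ℤ) (v : ℤ × ℤ) : GaussianInt :=
  zz z₁ z₂ (bz v) - ⟨0, 1⟩ * zz z₁ z₂ v

theorem im_z2 {p : ℕ} {z₁ z₂ : GaussianInt} (h : (star z₁ * z₂).im = p) {bz : ℤ × ℤ → ℤ × ℤ}
    {v : ℤ × ℤ} (hv : v.1 * (bz v).2 - v.2 * (bz v).1 = 1) :
    (star (zz z₁ z₂ v) * z2 z₁ z₂ bz v).im = p - (zz z₁ z₂ v).norm := by
  rw [im_star_mul] at h ⊢
  rw [norm_eq]
  have h1 : (z2 z₁ z₂ bz v).re = (zz z₁ z₂ (bz v)).re + (zz z₁ z₂ v).im := by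
    simp [z2]
  have h2 : (z2 z₁ z₂ bz v).im = (zz z₁ z₂ (bz v)).im - (zz z₁ z₂ v).re := by
    simp [z2]
  rw [h1, h2]
  simp only [zz_re, zz_im]
  linear_combination (z₁.re * z₂.im - z₁.im * z₂.re) * hv + h

theorem im_zz (z z' : GaussianInt) (x : ℤ × ℤ) :
    (star z * zz z z' x).im = x.2 * (star z * z').im := by
  rw [im_star_mul, im_star_mul, zz_re, zz_im]
  ring

theorem fin_norm (S : ℝ) : {u : GaussianInt | (u.norm : ℝ) ≤ S}.Finite := by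
  refine ((gb S).finite_toSet.union (Set.finite_singleton 0)).subset fun u hu => ?_
  by_cases h : u = 0
  · exact Or.inr h
  · exact Or.inl ((mem_gb S u).2 ⟨h, hu⟩)

/-- the map to pairs of Gaussian integers -/
noncomputable def ph (z₁ z₂ : GaussianInt) (bz : ℤ × ℤ → ℤ × ℤ) (t : (ℤ × ℤ) × (ℤ × ℤ)) :
    (ℤ × ℤ) × GaussianInt :=
  (((zz z₁ z₂ t.1).re, (zz z₁ z₂ t.1).im), zz (zz z₁ z₂ t.1) (z2 z₁ z₂ bz t.1) t.2)

/-- the condition on pairs -/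
def cnd (p : ℕ) (g : (ℤ × ℤ) × (ℤ × ℤ)) (u : GaussianInt × GaussianInt) : Prop :=
  Lat (av p g.1) ⟨g.1.1, g.1.2⟩ u.1 ∧ Lat (av p g.2) ⟨g.2.1, g.2.2⟩ u.2 ∧
    u.1.norm - av p g.1 = u.2.norm - av p g.2

theorem av_eq {p : ℕ} {g : ℤ × ℤ} (h : (av p g).Prime) :
    (⟨g.1, g.2⟩ : GaussianInt).norm = (av p g : ℤ) + p := by
  rw [norm_eq]
  have h1 : 0 < av p g := h.pos
  unfold av at h1 ⊢
  have h2 : 0 < g.1 ^ 2 + g.2 ^ 2 - (p : ℤ) := Int.lt_toNat.1 (by simpa using h1)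
  rw [Int.toNat_of_nonneg h2.le]
  ring

section one
variable {p : ℕ} {z₁ z₂ : GaussianInt} {bz : ℤ × ℤ → ℤ × ℤ} {X : ℝ}

theorem ph_mem (h : (star z₁ * z₂).im = p) (hbz : Bez bz) (hw : 0 < X ^ (1 / 500 : ℝ))
    (hX : (X ^ (1 / 500 : ℝ)) ^ 2 ≤ X)
    {t : (ℤ × ℤ) × (ℤ × ℤ)} (ht : t ∈ RR p z₁ z₂ bz X) :
    (ph z₁ z₂ bz t).1 ∈ Gs p (X ^ (1 / 500 : ℝ)) ∧ (ph z₁ z₂ bz t).2 ∈ gb (2 * X) ∧
      Lat (av p (ph z₁ z₂ bz t).1) ⟨(ph z₁ z₂ bz t).1.1, (ph z₁ z₂ bz t).1.2⟩ (ph z₁ z₂ bz t).2 ∧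
      (ph z₁ z₂ bz t).2.norm - av p (ph z₁ z₂ bz t).1 = nn p z₁ z₂ bz t := by
  obtain ⟨⟨hv1, hv2, hv3, hv4⟩, hy, hc, hn1, hn2⟩ := ht
  set w := X ^ (1 / 500 : ℝ) with hwdef
  have e1 : (zz z₁ z₂ t.1).re ^ 2 + (zz z₁ z₂ t.1).im ^ 2 = (zz z₁ z₂ t.1).norm :=
    (norm_eq _).symm
  have hpos : (0 : ℝ) < (((zz z₁ z₂ t.1).norm - p : ℤ) : ℝ) := hw.trans_le hv3
  have hpos' : 0 < (zz z₁ z₂ t.1).norm - p := by exact_mod_cast hpos
  have hav : ((av p (ph z₁ z₂ bz t).1 : ℕ) : ℤ) = (zz z₁ z₂ t.1).norm - p := by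
    unfold av ph
    rw [e1, Int.toNat_of_nonneg hpos'.le]
  have hnn : nn p z₁ z₂ bz t = (ph z₁ z₂ bz t).2.norm - ((zz z₁ z₂ t.1).norm - p) := rfl
  refine ⟨?_, ?_, ?_, ?_⟩
  · unfold Gs
    rw [mem_filter, mem_product, mem_Icc, mem_Icc]
    have hb : ∀ r s : ℤ, r ^ 2 + s ^ 2 = (zz z₁ z₂ t.1).norm →
        -((⌈w ^ 2⌉₊ : ℤ) + p) ≤ r ∧ r ≤ (⌈w ^ 2⌉₊ : ℤ) + p := by
      intro r s hrs
      have h1 : (((zz z₁ z₂ t.1).norm - p : ℤ) : ℝ) ≤ ((⌈w ^ 2⌉₊ : ℤ) : ℝ) := by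
        have := Nat.le_ceil (w ^ 2)
        push_cast at hv4 ⊢
        linarith
      have h2 : (zz z₁ z₂ t.1).norm - p ≤ (⌈w ^ 2⌉₊ : ℤ) := by exact_mod_cast h1
      constructor
      · nlinarith [sq_nonneg s, sq_nonneg (r + 1), sq_nonneg r]
      · nlinarith [sq_nonneg s, sq_nonneg (r - 1), sq_nonneg r]
    refine ⟨⟨hb _ _ e1, hb _ (zz z₁ z₂ t.1).re (by rw [add_comm]; exact e1)⟩, ?_, ?_, ?_⟩
    · unfold ph
      rw [e1]
      exact hv2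
    · have h3 : ((((zz z₁ z₂ t.1).re ^ 2 + (zz z₁ z₂ t.1).im ^ 2 - (p : ℤ)).toNat : ℕ) : ℝ) =
          (((zz z₁ z₂ t.1).norm - p : ℤ) : ℝ) := by
        rw [e1]
        exact_mod_cast Int.toNat_of_nonneg hpos'.le
      unfold ph
      rw [h3]
      exact hv3
    · have h3 : ((((zz z₁ z₂ t.1).re ^ 2 + (zz z₁ z₂ t.1).im ^ 2 - (p : ℤ)).toNat : ℕ) : ℝ) =
          (((zz z₁ z₂ t.1).norm - p : ℤ) : ℝ) := by
        rw [e1]
        exact_mod_cast Int.toNat_of_nonneg hpos'.le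
      unfold ph
      rw [h3]
      exact hv4
  · rw [mem_gb]
    constructor
    · intro h0
      rw [hnn, h0, Zsqrtd.norm_zero] at hn1
      omega
    · have h1 : (ph z₁ z₂ bz t).2.norm = nn p z₁ z₂ bz t + ((zz z₁ z₂ t.1).norm - p) := by
        rw [hnn]
        ring
      rw [h1, Int.cast_add]
      linarith
  · unfold Lat
    have h1 : (star (⟨(ph z₁ z₂ bz t).1.1, (ph z₁ z₂ bz t).1.2⟩ : GaussianInt) *
        (ph z₁ z₂ bz t).2).im = t.2.2 * (p - (zz z₁ z₂ t.1).norm) := by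
      rw [← im_z2 h (hbz t.1 hv1)]
      exact im_zz _ _ _
    rw [h1, hav]
    exact ⟨-t.2.2, by ring⟩
  · rw [hav, hnn]

theorem ph_inj (hp : p ≠ 0) (h : (star z₁ * z₂).im = p) (hbz : Bez bz)
    (hw : 0 < X ^ (1 / 500 : ℝ)) : Set.InjOn (ph z₁ z₂ bz) (RR p z₁ z₂ bz X) := by
  intro t ht t' ht' htt
  obtain ⟨⟨hv1, hv2, hv3, hv4⟩, hy, hc, hn1, hn2⟩ := ht
  have hpos : (0 : ℝ) < (((zz z₁ z₂ t.1).norm - p : ℤ) : ℝ) := hw.trans_le hv3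
  have hpos' : 0 < (zz z₁ z₂ t.1).norm - p := by exact_mod_cast hpos
  have h1 : (zz z₁ z₂ t.1).re = (zz z₁ z₂ t'.1).re := congrArg (fun s => s.1.1) htt
  have h2 : (zz z₁ z₂ t.1).im = (zz z₁ z₂ t'.1).im := congrArg (fun s => s.1.2) htt
  have h3 : t.1 = t'.1 := zz_inj (by rw [h]; exact_mod_cast hp) (Zsqrtd.ext h1 h2)
  have h4 : zz (zz z₁ z₂ t.1) (z2 z₁ z₂ bz t.1) t.2 =
      zz (zz z₁ z₂ t'.1) (z2 z₁ z₂ bz t'.1) t'.2 := congrArg (fun s => s.2) htt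
  rw [← h3] at h4
  refine Prod.ext h3 (zz_inj ?_ h4)
  rw [im_z2 h (hbz t.1 hv1)]
  omega

end one

open Classical in
/-- number of pairs over two given circles -/
noncomputable def NN (p : ℕ) (T : ℝ) (g : (ℤ × ℤ) × (ℤ × ℤ)) : ℕ :=
  ((gb T ×ˢ gb T).filter (fun u => cnd p g u)).card

theorem card_le {p : ℕ} {z₁ z₂ : GaussianInt} {bz : ℤ × ℤ → ℤ × ℤ} {X : ℝ} (hp : p ≠ 0)
    (h : (star z₁ * z₂).im = p) (hbz : Bez bz) (hw : 0 < X ^ (1 / 500 : ℝ))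
    (hX : (X ^ (1 / 500 : ℝ)) ^ 2 ≤ X) :
    (Set.ncard {t : ((ℤ × ℤ) × (ℤ × ℤ)) × ((ℤ × ℤ) × (ℤ × ℤ)) | t.1 ∈ RR p z₁ z₂ bz X ∧
      t.2 ∈ RR p z₁ z₂ bz X ∧ nn p z₁ z₂ bz t.1 = nn p z₁ z₂ bz t.2} : ℝ) ≤
    ∑ g ∈ Gs p (X ^ (1 / 500 : ℝ)) ×ˢ Gs p (X ^ (1 / 500 : ℝ)), (NN p (2 * X) g : ℝ) := by
  classical
  set G := Gs p (X ^ (1 / 500 : ℝ)) with hG
  set B : Finset (((ℤ × ℤ) × (ℤ × ℤ)) × (GaussianInt × GaussianInt)) :=
    ((G ×ˢ G) ×ˢ (gb (2 * X) ×ˢ gb (2 * X))).filter (fun b => cnd p b.1 b.2) with hB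
  have hcard : B.card = ∑ g ∈ G ×ˢ G, NN p (2 * X) g := by
    rw [hB, card_filter, sum_product]
    refine sum_congr rfl fun g _ => ?_
    rw [NN, card_filter]
  have h1 : Set.ncard {t : ((ℤ × ℤ) × (ℤ × ℤ)) × ((ℤ × ℤ) × (ℤ × ℤ)) | t.1 ∈ RR p z₁ z₂ bz X ∧
      t.2 ∈ RR p z₁ z₂ bz X ∧ nn p z₁ z₂ bz t.1 = nn p z₁ z₂ bz t.2} ≤
      (B : Set (((ℤ × ℤ) × (ℤ × ℤ)) × (GaussianInt × GaussianInt))).ncard := by
    refine Set.ncard_le_ncard_of_injOn (fun t => (((ph z₁ z₂ bz t.1).1, (ph z₁ z₂ bz t.2).1),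
      ((ph z₁ z₂ bz t.1).2, (ph z₁ z₂ bz t.2).2))) ?_ ?_ B.finite_toSet
    · rintro t ⟨ht1, ht2, ht3⟩
      obtain ⟨a1, a2, a3, a4⟩ := ph_mem h hbz hw hX ht1
      obtain ⟨b1, b2, b3, b4⟩ := ph_mem h hbz hw hX ht2
      rw [mem_coe, hB, mem_filter, mem_product, mem_product, mem_product]
      exact ⟨⟨⟨a1, b1⟩, a2, b2⟩, a3, b3, by rw [a4, b4, ht3]⟩
    · rintro t ⟨ht1, ht2, ht3⟩ t' ⟨ht1', ht2', ht3'⟩ htt
      have e1 : ph z₁ z₂ bz t.1 = ph z₁ z₂ bz t'.1 :=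
        Prod.ext (congrArg (fun s => s.1.1) htt) (congrArg (fun s => s.2.1) htt)
      have e2 : ph z₁ z₂ bz t.2 = ph z₁ z₂ bz t'.2 :=
        Prod.ext (congrArg (fun s => s.1.2) htt) (congrArg (fun s => s.2.2) htt)
      exact Prod.ext (ph_inj hp h hbz hw ht1 ht1' e1) (ph_inj hp h hbz hw ht2 ht2' e2)
  rw [Set.ncard_coe_finset, hcard] at h1
  exact_mod_cast h1

/-- pairs over different circles -/
theorem NN_ne {C : ℝ} (hOF : ∀ (T : ℝ) (a₁ a₂ : ℕ) (z₁ z₂ : GaussianInt), 1 ≤ T →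
      a₁.Prime → a₂.Prime → a₁ ≠ 2 → a₂ ≠ 2 → a₁ ≠ a₂ →
      ¬ ((a₁ : ℤ) ∣ z₁.re ∧ (a₁ : ℤ) ∣ z₁.im) → ¬ ((a₂ : ℤ) ∣ z₂.re ∧ (a₂ : ℤ) ∣ z₂.im) →
      (Set.ncard {u : GaussianInt × GaussianInt | (u.1.norm : ℝ) ≤ T ∧ (u.2.norm : ℝ) ≤ T ∧
          Lat a₁ z₁ u.1 ∧ Lat a₂ z₂ u.2 ∧ u.1.norm - a₁ = u.2.norm - a₂} : ℝ) ≤
        C * (T / (a₁ * a₂) * ∑ d ∈ ((a₁ : ℤ) - a₂).natAbs.divisors, (1 : ℝ) / d +
          T ^ (9 / 10 : ℝ) * ((a₁ : ℝ) * a₂) ^ 10)) {p : ℕ} {w T : ℝ} (hT : 1 ≤ T)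
    (hw : (p : ℝ) + 3 ≤ w) {g : (ℤ × ℤ) × (ℤ × ℤ)} (h1 : g.1 ∈ Gs p w) (h2 : g.2 ∈ Gs p w)
    (hne : av p g.1 ≠ av p g.2) :
    (NN p T g : ℝ) ≤ C * (T / ((av p g.1 : ℝ) * av p g.2) *
      ∑ d ∈ ((av p g.1 : ℤ) - av p g.2).natAbs.divisors, (1 : ℝ) / d +
          T ^ (9 / 10 : ℝ) * ((av p g.1 : ℝ) * av p g.2) ^ 10) := by
  classical
  have key : ∀ v ∈ Gs p w, (av p v).Prime ∧ av p v ≠ 2 ∧
      ¬ ((av p v : ℤ) ∣ (⟨v.1, v.2⟩ : GaussianInt).re ∧ (av p v : ℤ) ∣ (⟨v.1, v.2⟩ : GaussianInt).im) := by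
    intro v hv
    obtain ⟨_, hpr, hlo, _⟩ := mem_filter.1 hv
    have hlo' : w ≤ (av p v : ℝ) := hlo
    have hpr' : (av p v).Prime := hpr
    have h3 : p + 3 ≤ av p v := by
      have : (p : ℝ) + 3 ≤ (av p v : ℝ) := hw.trans hlo'
      exact_mod_cast this
    refine ⟨hpr', by omega, ?_⟩
    rintro ⟨⟨r, hr⟩, s, hs⟩
    have h4 := av_eq hpr'
    rw [norm_eq, hr, hs] at h4
    have h5 : (av p v : ℤ) ∣ (p : ℤ) := ⟨av p v * (r ^ 2 + s ^ 2) - 1, by linear_combination -h4⟩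
    by_cases hp0 : p = 0
    · subst hp0
      have h6 : (av 0 v : ℤ) * (av 0 v * (r ^ 2 + s ^ 2) - 1) = 0 := by
        push_cast at h4
        linear_combination h4
      have h7 : (av 0 v : ℤ) ≠ 0 := by exact_mod_cast hpr'.ne_zero
      have h8 : (av 0 v : ℤ) * (r ^ 2 + s ^ 2) = 1 := by
        have := (mul_eq_zero.1 h6).resolve_left h7
        linarith
      have h9 : (av 0 v : ℤ) ∣ 1 := ⟨_, h8.symm⟩
      have h10 : av 0 v ∣ 1 := by exact_mod_cast h9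
      exact hpr'.one_lt.ne' (Nat.dvd_one.1 h10)
    · have h6 : av p v ∣ p := by exact_mod_cast h5
      have := Nat.le_of_dvd (Nat.pos_of_ne_zero hp0) h6
      omega
  obtain ⟨a1, a2, a3⟩ := key g.1 h1
  obtain ⟨b1, b2, b3⟩ := key g.2 h2
  refine le_trans ?_ (hOF T (av p g.1) (av p g.2) ⟨g.1.1, g.1.2⟩ ⟨g.2.1, g.2.2⟩ hT a1 b1 a2 b2
    hne a3 b3)
  rw [NN, ← Set.ncard_coe_finset]
  refine Nat.cast_le.2 (Set.ncard_le_ncard (fun u hu => ?_) ?_)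
  · rw [mem_coe, mem_filter, mem_product, mem_gb, mem_gb] at hu
    exact ⟨hu.1.1.2, hu.1.2.2, hu.2.1, hu.2.2.1, hu.2.2.2⟩
  · exact ((fin_norm T).prod (fin_norm T)).subset fun u hu => ⟨hu.1, hu.2.1⟩

/-- pairs over circles of equal curvature -/
theorem NN_eq {C : ℝ} {p : ℕ} {a₀ : ℕ} (hDG : ∀ (a : ℕ) (T : ℝ) (z : GaussianInt),
      a.Prime → a₀ ≤ a → (a : ℝ) ^ 10 ≤ T → T ≤ (a : ℝ) ^ 1000 → z.norm = a + p →
      (Set.ncard {t : GaussianInt × GaussianInt × GaussianInt | t.1.norm = a + p ∧ t.2.1 ≠ 0 ∧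
          t.2.1.norm = t.2.2.norm ∧ (t.2.1.norm : ℝ) ≤ T ∧ Lat a z t.2.1 ∧ Lat a t.1 t.2.2} : ℝ) ≤
        C * (T / a) * (sd z + 1)) {w T : ℝ} {g : ℤ × ℤ} (h1 : g ∈ Gs p w)
    (ha0 : a₀ ≤ av p g) (hT1 : (av p g : ℝ) ^ 10 ≤ T) (hT2 : T ≤ (av p g : ℝ) ^ 1000) :
    ∑ g' ∈ (Gs p w).filter (fun g' => av p g = av p g'), (NN p T (g, g') : ℝ) ≤
      C * (T / av p g) * (sd ⟨g.1, g.2⟩ + 1) := by
  classical
  obtain ⟨_, hpr, _, _⟩ := mem_filter.1 h1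
  have hpr' : (av p g).Prime := hpr
  refine le_trans ?_ (hDG (av p g) T ⟨g.1, g.2⟩ hpr' ha0 hT1 hT2 (av_eq hpr'))
  set D : Finset ((ℤ × ℤ) × (GaussianInt × GaussianInt)) :=
    (((Gs p w).filter (fun g' => av p g = av p g')) ×ˢ (gb T ×ˢ gb T)).filter
      (fun b => cnd p (g, b.1) b.2) with hD
  have hcard : D.card = ∑ g' ∈ (Gs p w).filter (fun g' => av p g = av p g'), NN p T (g, g') := by
    rw [hD, card_filter, sum_product]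
    refine sum_congr rfl fun g' _ => ?_
    rw [NN, card_filter]
  have h2 : (D : Set ((ℤ × ℤ) × (GaussianInt × GaussianInt))).ncard ≤
      Set.ncard {t : GaussianInt × GaussianInt × GaussianInt | t.1.norm = (av p g : ℤ) + p ∧
        t.2.1 ≠ 0 ∧ t.2.1.norm = t.2.2.norm ∧ (t.2.1.norm : ℝ) ≤ T ∧
        Lat (av p g) ⟨g.1, g.2⟩ t.2.1 ∧ Lat (av p g) t.1 t.2.2} := by
    refine Set.ncard_le_ncard_of_injOn (fun b => (⟨b.1.1, b.1.2⟩, b.2.1, b.2.2)) ?_ ?_ ?_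
    · intro b hb
      rw [mem_coe, hD, mem_filter, mem_product, mem_filter, mem_product, mem_gb, mem_gb] at hb
      obtain ⟨⟨⟨hb1, hb2⟩, ⟨hb3, hb4⟩, hb5, hb6⟩, hb7, hb8, hb9⟩ := hb
      have hb10 : (av p b.1).Prime := by rw [← hb2]; exact hpr'
      have hb8' : Lat (av p b.1) ⟨b.1.1, b.1.2⟩ b.2.2 := hb8
      have hb9' : b.2.1.norm - av p g = b.2.2.norm - av p b.1 := hb9
      refine ⟨?_, hb3, ?_, hb4, hb7, ?_⟩
      · rw [hb2]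
        exact av_eq hb10
      · rw [← hb2] at hb9'
        change b.2.1.norm = b.2.2.norm
        linarith
      · rw [hb2]
        exact hb8'
    · intro b _ b' _ hbb
      have e1 : (⟨b.1.1, b.1.2⟩ : GaussianInt) = ⟨b'.1.1, b'.1.2⟩ := congrArg (fun s => s.1) hbb
      have e2 : b.2.1 = b'.2.1 := congrArg (fun s => s.2.1) hbb
      have e3 : b.2.2 = b'.2.2 := congrArg (fun s => s.2.2) hbb
      exact Prod.ext (Prod.ext (congrArg Zsqrtd.re e1) (congrArg Zsqrtd.im e1)) (Prod.ext e2 e3)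
    · refine ((fin_norm ((av p g : ℝ) + p)).prod ((fin_norm T).prod (fin_norm T))).subset
        fun t ht => ⟨?_, ht.2.2.2.1, ?_⟩
      · have := ht.1
        change (t.1.norm : ℝ) ≤ (av p g : ℝ) + p
        rw [this]
        push_cast
        exact le_rfl
      · change (t.2.2.norm : ℝ) ≤ T
        rw [← ht.2.2.1]
        exact ht.2.2.2.1
  rw [Set.ncard_coe_finset, hcard] at h2
  exact_mod_cast h2

theorem card_Gs {p : ℕ} {w : ℝ} (hw : (p : ℝ) + 3 ≤ w) : ((Gs p w).card : ℝ) ≤ 25 * w ^ 4 := by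
  have h1 : (Gs p w).card ≤ (2 * (⌈w ^ 2⌉₊ + p) + 1) * (2 * (⌈w ^ 2⌉₊ + p) + 1) := by
    refine (card_filter_le _ _).trans ?_
    rw [card_product, Int.card_Icc]
    have : ((⌈w ^ 2⌉₊ : ℤ) + p + 1 - -((⌈w ^ 2⌉₊ : ℤ) + p)).toNat = 2 * (⌈w ^ 2⌉₊ + p) + 1 := by
      omega
    rw [this]
  have h2 : ((Gs p w).card : ℝ) ≤ (2 * ((⌈w ^ 2⌉₊ : ℝ) + p) + 1) * (2 * ((⌈w ^ 2⌉₊ : ℝ) + p) + 1) := by
    exact_mod_cast h1
  have hp : (0 : ℝ) ≤ p := Nat.cast_nonneg p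
  have h3 : (⌈w ^ 2⌉₊ : ℝ) ≤ w ^ 2 + 1 := (Nat.ceil_lt_add_one (by positivity)).le
  have h4 : 2 * ((⌈w ^ 2⌉₊ : ℝ) + p) + 1 ≤ 5 * w ^ 2 := by nlinarith
  have h5 : (0 : ℝ) ≤ 2 * ((⌈w ^ 2⌉₊ : ℝ) + p) + 1 := by positivity
  calc ((Gs p w).card : ℝ) ≤ _ := h2
    _ ≤ (5 * w ^ 2) * (5 * w ^ 2) := mul_le_mul h4 h4 h5 (by positivity)
    _ = 25 * w ^ 4 := by ring

theorem final_pow {X : ℝ} (hX : 1 ≤ X) :
    (2 * X) ^ (9 / 10 : ℝ) * (X ^ (1 / 500 : ℝ)) ^ 48 ≤ 2 * X := by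
  have h0 : 0 ≤ X := by linarith
  have h1 : (X ^ (1 / 500 : ℝ)) ^ 48 = X ^ (48 / 500 : ℝ) := by
    rw [← Real.rpow_natCast, ← Real.rpow_mul h0]
    norm_num
  have h2 : (2 * X) ^ (9 / 10 : ℝ) = 2 ^ (9 / 10 : ℝ) * X ^ (9 / 10 : ℝ) :=
    Real.mul_rpow (by norm_num) h0
  have h3 : (2 : ℝ) ^ (9 / 10 : ℝ) ≤ 2 := by
    calc (2 : ℝ) ^ (9 / 10 : ℝ) ≤ 2 ^ (1 : ℝ) :=
          Real.rpow_le_rpow_of_exponent_le (by norm_num) (by norm_num)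
      _ = 2 := Real.rpow_one 2
  have h4 : X ^ (9 / 10 : ℝ) * X ^ (48 / 500 : ℝ) ≤ X := by
    rw [← Real.rpow_add (by linarith)]
    calc X ^ (9 / 10 + 48 / 500 : ℝ) ≤ X ^ (1 : ℝ) :=
          Real.rpow_le_rpow_of_exponent_le hX (by norm_num)
      _ = X := Real.rpow_one X
  rw [h1, h2, mul_assoc]
  exact mul_le_mul h3 h4 (by positivity) (by norm_num)

end hN2

open hN2 in
theorem hN2 (hOF : StOF) (hDG : StDG) (hDD : StDD) (hDA : StDA) (hAV : StAV) : StN2 := by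
  classical
  intro p z₁ z₂ hp hp2 him _
  obtain ⟨C1, hC1, hOF⟩ := hOF
  obtain ⟨C2, hC2, a₀, hDG⟩ := hDG p hp.one_lt.le
  obtain ⟨C3, w3, hC3, hDD⟩ := hDD p hp hp2
  obtain ⟨C4, w4, hC4, hDA⟩ := hDA p hp hp2
  obtain ⟨C5, w5, hC5, hAV⟩ := hAV p hp hp2
  obtain ⟨W, hWp, hWa, hW3, hW4, hW5⟩ : ∃ W : ℝ, (p : ℝ) + 3 ≤ W ∧ (a₀ : ℝ) ≤ W ∧ w3 ≤ W ∧
      w4 ≤ W ∧ w5 ≤ W :=
    ⟨max ((p : ℝ) + 3) (max a₀ (max w3 (max w4 w5))), by simp, by simp, by simp, by simp, by simp⟩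
  refine ⟨C1 * (2 * C3 + 1250) + C2 * (2 * (C4 + C5)), W ^ 500, by positivity, ?_⟩
  intro X hX bz hbz
  have hp0 : (0 : ℝ) ≤ p := Nat.cast_nonneg p
  have hW0 : 0 < W := by linarith
  have hX1 : 1 ≤ X := le_trans (one_le_pow₀ (by linarith)) hX
  have hX0 : 0 < X := by linarith
  set w := X ^ (1 / 500 : ℝ) with hw
  have hwW : W ≤ w := by
    have h1 : W = (W ^ 500) ^ (1 / 500 : ℝ) := by
      rw [← Real.rpow_natCast, ← Real.rpow_mul hW0.le]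
      norm_num
    rw [h1, hw]
    exact Real.rpow_le_rpow (by positivity) hX (by norm_num)
  have hw0 : 0 < w := by linarith
  have hw1 : 1 ≤ w := by linarith
  have hw500 : w ^ 500 = X := by
    rw [hw, ← Real.rpow_natCast, ← Real.rpow_mul hX0.le]
    norm_num
  have hw2 : w ^ 2 ≤ X := by
    rw [← hw500]
    exact pow_le_pow_right₀ hw1 (by norm_num)
  have hX2 : 2 ≤ X := by
    have : w ^ 1 ≤ w ^ 500 := pow_le_pow_right₀ hw1 (by norm_num)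
    rw [hw500, pow_one] at this
    linarith
  refine (card_le hp.ne_zero him hbz hw0 hw2).trans ?_
  rw [← hw]
  rw [← sum_filter_add_sum_filter_not (Gs p w ×ˢ Gs p w) (fun g => av p g.1 ≠ av p g.2)]
  have hav : ∀ v ∈ Gs p w, w ≤ (av p v : ℝ) ∧ (av p v : ℝ) ≤ w ^ 2 := by
    intro v hv
    obtain ⟨_, _, h1, h2⟩ := mem_filter.1 hv
    exact ⟨h1, h2⟩
  -- different curvatures
  have hA : ∑ g ∈ (Gs p w ×ˢ Gs p w).filter (fun g => av p g.1 ≠ av p g.2),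
      (NN p (2 * X) g : ℝ) ≤ C1 * (2 * C3 + 1250) * X := by
    have h1 : ∀ g ∈ (Gs p w ×ˢ Gs p w).filter (fun g => av p g.1 ≠ av p g.2),
        (NN p (2 * X) g : ℝ) ≤ C1 * (2 * X) * ((1 : ℝ) / (av p g.1 * av p g.2) *
          ∑ d ∈ ((av p g.1 : ℤ) - av p g.2).natAbs.divisors, (1 : ℝ) / d) +
          C1 * ((2 * X) ^ (9 / 10 : ℝ) * w ^ 40) := by
      intro g hg
      obtain ⟨hg1, hg2⟩ := mem_filter.1 hg
      obtain ⟨hg3, hg4⟩ := mem_product.1 hg1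
      refine (NN_ne hOF (by linarith) (by linarith) hg3 hg4 hg2).trans ?_
      have h2 : ((av p g.1 : ℝ) * av p g.2) ^ 10 ≤ w ^ 40 := by
        have h3 : (av p g.1 : ℝ) * av p g.2 ≤ w ^ 2 * w ^ 2 :=
          mul_le_mul (hav _ hg3).2 (hav _ hg4).2 (Nat.cast_nonneg _) (by positivity)
        calc ((av p g.1 : ℝ) * av p g.2) ^ 10 ≤ (w ^ 2 * w ^ 2) ^ 10 :=
              pow_le_pow_left₀ (by positivity) h3 10
          _ = w ^ 40 := by ring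
      have h3 : (2 * X) ^ (9 / 10 : ℝ) * ((av p g.1 : ℝ) * av p g.2) ^ 10 ≤
          (2 * X) ^ (9 / 10 : ℝ) * w ^ 40 := mul_le_mul_of_nonneg_left h2 (by positivity)
      rw [mul_add]
      refine add_le_add (le_of_eq ?_) (mul_le_mul_of_nonneg_left h3 hC1.le)
      ring
    refine (sum_le_sum h1).trans ?_
    rw [sum_add_distrib, ← mul_sum, sum_const, nsmul_eq_mul]
    have h2 := hDD w (by linarith)
    have h3 : (((Gs p w ×ˢ Gs p w).filter (fun g => av p g.1 ≠ av p g.2)).card : ℝ) ≤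
        625 * w ^ 8 := by
      have h4 : ((Gs p w ×ˢ Gs p w).filter (fun g => av p g.1 ≠ av p g.2)).card ≤
          (Gs p w).card * (Gs p w).card := by
        refine (card_filter_le _ _).trans ?_
        rw [card_product]
      have h5 : (((Gs p w ×ˢ Gs p w).filter (fun g => av p g.1 ≠ av p g.2)).card : ℝ) ≤
          ((Gs p w).card : ℝ) * (Gs p w).card := by exact_mod_cast h4
      have h6 := card_Gs (p := p) (w := w) (by linarith)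
      calc _ ≤ _ := h5
        _ ≤ (25 * w ^ 4) * (25 * w ^ 4) := mul_le_mul h6 h6 (Nat.cast_nonneg _) (by positivity)
        _ = 625 * w ^ 8 := by ring
    have h4 := final_pow hX1
    rw [← hw] at h4
    have h5 : (((Gs p w ×ˢ Gs p w).filter (fun g => av p g.1 ≠ av p g.2)).card : ℝ) *
        (C1 * ((2 * X) ^ (9 / 10 : ℝ) * w ^ 40)) ≤ C1 * 1250 * X := by
      calc _ ≤ (625 * w ^ 8) * (C1 * ((2 * X) ^ (9 / 10 : ℝ) * w ^ 40)) :=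
            mul_le_mul_of_nonneg_right h3 (by positivity)
        _ = 625 * C1 * ((2 * X) ^ (9 / 10 : ℝ) * w ^ 48) := by ring
        _ ≤ 625 * C1 * (2 * X) := mul_le_mul_of_nonneg_left h4 (by positivity)
        _ = C1 * 1250 * X := by ring
    have h6 : C1 * (2 * X) * ∑ i ∈ (Gs p w ×ˢ Gs p w).filter (fun g => av p g.1 ≠ av p g.2),
        ((1 : ℝ) / (av p i.1 * av p i.2) *
          ∑ d ∈ ((av p i.1 : ℤ) - av p i.2).natAbs.divisors, (1 : ℝ) / d) ≤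
        C1 * (2 * X) * C3 := mul_le_mul_of_nonneg_left h2 (by positivity)
    calc _ ≤ C1 * (2 * X) * C3 + C1 * 1250 * X := add_le_add h6 h5
      _ = C1 * (2 * C3 + 1250) * X := by ring
  -- equal curvatures
  have hB : ∑ g ∈ (Gs p w ×ˢ Gs p w).filter (fun g => ¬ av p g.1 ≠ av p g.2),
      (NN p (2 * X) g : ℝ) ≤ C2 * (2 * (C4 + C5)) * X := by
    have h1 : ∑ g ∈ (Gs p w ×ˢ Gs p w).filter (fun g => ¬ av p g.1 ≠ av p g.2),
        (NN p (2 * X) g : ℝ) = ∑ g ∈ Gs p w, ∑ g' ∈ (Gs p w).filter (fun g' => av p g = av p g'),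
          (NN p (2 * X) (g, g') : ℝ) := by
      rw [sum_filter, sum_product]
      refine sum_congr rfl fun g _ => ?_
      rw [sum_filter]
      refine sum_congr rfl fun g' _ => ?_
      simp only [ne_eq, not_not]
    rw [h1]
    have h2 : ∀ g ∈ Gs p w, ∑ g' ∈ (Gs p w).filter (fun g' => av p g = av p g'),
        (NN p (2 * X) (g, g') : ℝ) ≤ C2 * (2 * X) * ((1 : ℝ) / av p g * sd ⟨g.1, g.2⟩) +
          C2 * (2 * X) * ((1 : ℝ) / av p g) := by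
      intro g hg
      obtain ⟨h3, h4⟩ := hav g hg
      refine (NN_eq hDG hg ?_ ?_ ?_).trans (le_of_eq ?_)
      · have : (a₀ : ℝ) ≤ av p g := by linarith
        exact_mod_cast this
      · calc (av p g : ℝ) ^ 10 ≤ (w ^ 2) ^ 10 := pow_le_pow_left₀ (Nat.cast_nonneg _) h4 10
          _ = w ^ 20 := by ring
          _ ≤ w ^ 500 := pow_le_pow_right₀ hw1 (by norm_num)
          _ = X := hw500
          _ ≤ 2 * X := by linarith
      · calc 2 * X ≤ X * X := by nlinarith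
          _ = w ^ 1000 := by
            rw [← hw500, ← pow_add]
          _ ≤ (av p g : ℝ) ^ 1000 := pow_le_pow_left₀ hw0.le h3 1000
      · ring
    refine (sum_le_sum h2).trans ?_
    rw [sum_add_distrib, ← mul_sum, ← mul_sum]
    have h3 := hDA w (by linarith)
    have h4 := hAV w (by linarith) 1 0 le_rfl squarefree_one (by
      rw [Nat.cast_one]
      exact Real.one_le_rpow hw1 (by norm_num))
    have h5 : ∑ v ∈ Gs p w, (1 : ℝ) / av p v ≤ C5 := by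
      have h6 : (Gs p w).filter (fun v => ((1 : ℕ) : ℤ) ∣ (av p v : ℤ) - 0) = Gs p w := by
        refine filter_true_of_mem fun v _ => ?_
        simp
      rw [h6] at h4
      simpa using h4
    calc _ ≤ C2 * (2 * X) * C4 + C2 * (2 * X) * C5 :=
          add_le_add (mul_le_mul_of_nonneg_left h3 (by positivity))
            (mul_le_mul_of_nonneg_left h5 (by positivity))
      _ = C2 * (2 * (C4 + C5)) * X := by ring
  calc _ ≤ C1 * (2 * C3 + 1250) * X + C2 * (2 * (C4 + C5)) * X := add_le_add hA hB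
    _ = _ := by ring

end Pool.Agent.Helper15.AB
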