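import Mathlib
import Pool.Agent.Helper15.AB.StKl

/-!
# Project AB: module NB (number of Gaussian integers of given norm)
-/

set_option autoImplicit false

namespace Pool.Agent.Helper15.AB

namespace hNB

open Finset

theorem norm_mul_star (w : GaussianInt) : w * star w = ((w.norm : ℤ) : GaussianInt) :=
  (Zsqrtd.norm_eq_mul_conj w).symm

theorem norm_star (w : GaussianInt) : (star w).norm = w.norm := by
  rw [Zsqrtd.norm_def, Zsqrtd.norm_def]
  simp

/-- a Gaussian integer whose norm is a prime number is prime -/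
theorem prime_of_norm {l : ℕ} (hl : l.Prime) {π : GaussianInt} (h : π.norm = l) : Prime π := by
  rw [← irreducible_iff_prime]
  constructor
  · intro hu
    rw [← Zsqrtd.norm_eq_one_iff, h] at hu
    simp at hu
    exact hl.one_lt.ne' hu
  · intro a b hab
    have h1 : a.norm.natAbs * b.norm.natAbs = l := by
      rw [← Int.natAbs_mul, ← Zsqrtd.norm_mul, ← hab, h]
      simp
    rcases Nat.Prime.eq_one_or_self_of_dvd hl a.norm.natAbs ⟨_, h1.symm⟩ with h2 | h2
    · exact Or.inl (Zsqrtd.norm_eq_one_iff.1 h2)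
    · right
      apply Zsqrtd.norm_eq_one_iff.1
      rw [h2] at h1
      exact Nat.eq_of_mul_eq_mul_left hl.pos (by rw [h1, mul_one])

/-- covering of the elements of norm `l ^ k m`, split case -/
theorem cover_split {l : ℕ} (hl : l.Prime) {π : GaussianInt} (h : π.norm = l) (m : ℕ) (k : ℕ) :
    ∀ w : GaussianInt, w.norm = ((l ^ k * m : ℕ) : ℤ) →
      ∃ i ≤ k, ∃ w' : GaussianInt, w'.norm = (m : ℤ) ∧ w = (π ^ i * star π ^ (k - i)) * w' := by
  have hπ := prime_of_norm hl h
  have hπ' : Prime (star π) := prime_of_norm hl (by rw [norm_star, h])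
  induction k with
  | zero => intro w hw; exact ⟨0, le_rfl, w, by simpa using hw, by simp⟩
  | succ k ih =>
    intro w hw
    have hdiv : π ∣ w * star w := by
      rw [norm_mul_star, hw]
      have h1 : π ∣ ((l : ℤ) : GaussianInt) := by
        rw [← h, ← norm_mul_star]
        exact dvd_mul_right _ _
      refine h1.trans ?_
      refine ⟨((l ^ k * m : ℕ) : GaussianInt), ?_⟩
      push_cast
      ring
    have hcan : ∀ a b : ℤ, (l : ℤ) * a = ((l ^ (k + 1) * m : ℕ) : ℤ) → a = ((l ^ k * m : ℕ) : ℤ) := by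
      intro a _ ha
      have hl0 : (l : ℤ) ≠ 0 := by exact_mod_cast hl.ne_zero
      apply mul_left_cancel₀ hl0
      rw [ha]
      push_cast
      ring
    rcases hπ.dvd_or_dvd hdiv with h1 | h1
    · obtain ⟨v, rfl⟩ := h1
      rw [Zsqrtd.norm_mul, h] at hw
      obtain ⟨i, hi, w', hw', he⟩ := ih v (hcan _ 0 hw)
      refine ⟨i + 1, by omega, w', hw', ?_⟩
      rw [he, Nat.add_sub_add_right]
      ring
    · obtain ⟨v, hv⟩ := h1
      have h2 : w = star π * star v := by
        rw [← star_star w, hv, star_mul']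
      rw [h2, Zsqrtd.norm_mul, norm_star, h] at hw
      obtain ⟨i, hi, w', hw', he⟩ := ih (star v) (hcan _ 0 hw)
      refine ⟨i, by omega, w', hw', ?_⟩
      rw [h2, he, Nat.sub_add_comm hi]
      ring

/-- covering of the elements of norm `l ^ k m`, inert case -/
theorem cover_inert {l : ℕ} (hl : l.Prime) (h : Prime (l : GaussianInt)) (m : ℕ) (hm : ¬ l ∣ m)
    (k : ℕ) : ∀ w : GaussianInt, w.norm = ((l ^ k * m : ℕ) : ℤ) →
      ∃ w' : GaussianInt, w'.norm = (m : ℤ) ∧ w = (l : GaussianInt) ^ (k / 2) * w' := by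
  induction k using Nat.strong_induction_on with
  | _ k ih =>
    intro w hw
    rcases Nat.eq_zero_or_pos k with rfl | hk
    · exact ⟨w, by simpa using hw, by simp⟩
    have hl0 : (l : ℤ) ≠ 0 := by exact_mod_cast hl.ne_zero
    have hdiv : (l : GaussianInt) ∣ w * star w := by
      rw [norm_mul_star, hw]
      refine ⟨((l ^ (k - 1) * m : ℕ) : GaussianInt), ?_⟩
      obtain ⟨j, rfl⟩ : ∃ j, k = j + 1 := ⟨k - 1, by omega⟩
      push_cast
      ring_nf
    have hw' : (l : GaussianInt) ∣ w := by
      rcases h.dvd_or_dvd hdiv with h1 | h1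
      · exact h1
      · obtain ⟨v, hv⟩ := h1
        refine ⟨star v, ?_⟩
        rw [← star_star w, hv, star_mul']
        simp
    obtain ⟨v, rfl⟩ := hw'
    have hn : (l : GaussianInt).norm = (l : ℤ) * l := by
      rw [Zsqrtd.norm_natCast]
    rw [Zsqrtd.norm_mul, hn] at hw
    have hk2 : 2 ≤ k := by
      by_contra h2
      have hk1 : k = 1 := by omega
      subst hk1
      apply hm
      have h3 : (l : ℤ) * v.norm = m := by
        apply mul_left_cancel₀ hl0
        rw [← mul_assoc, hw]
        push_cast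
        ring
      exact Int.natCast_dvd_natCast.1 ⟨_, h3.symm⟩
    obtain ⟨j, rfl⟩ : ∃ j, k = j + 2 := ⟨k - 2, by omega⟩
    obtain ⟨w', hw', he⟩ := ih j (by omega) v (by
      apply mul_left_cancel₀ (mul_ne_zero hl0 hl0)
      rw [hw]
      push_cast
      ring)
    refine ⟨w', hw', ?_⟩
    have h3 : (j + 2) / 2 = j / 2 + 1 := by omega
    rw [h3, he]
    ring

theorem cover (l k m : ℕ) (hl : l.Prime) (hm : ¬ l ∣ m) : ∃ F : ℕ → GaussianInt,
    ∀ w : GaussianInt, w.norm = ((l ^ k * m : ℕ) : ℤ) →
      ∃ i ≤ k, ∃ w' : GaussianInt, w'.norm = (m : ℤ) ∧ w = F i * w' := by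
  by_cases h : Prime (l : GaussianInt)
  · refine ⟨fun _ => (l : GaussianInt) ^ (k / 2), fun w hw => ?_⟩
    obtain ⟨w', h1, h2⟩ := cover_inert hl h m hm k w hw
    exact ⟨0, Nat.zero_le _, w', h1, h2⟩
  · have : Fact l.Prime := ⟨hl⟩
    obtain ⟨a, b, hab⟩ := GaussianInt.sq_add_sq_of_nat_prime_of_not_irreducible l
      (fun h1 => h (irreducible_iff_prime.1 h1))
    have hπ : (⟨a, b⟩ : GaussianInt).norm = l := by
      rw [Zsqrtd.norm_def, ← hab]
      push_cast
      ring
    exact ⟨fun i => (⟨a, b⟩ : GaussianInt) ^ i * star (⟨a, b⟩ : GaussianInt) ^ (k - i),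
      cover_split hl hπ m k⟩

theorem main (n : ℕ) : 1 ≤ n → {w : GaussianInt | w.norm = (n : ℤ)}.Finite ∧
    Set.ncard {w : GaussianInt | w.norm = (n : ℤ)} ≤ 4 * n.divisors.card := by
  classical
  induction n using Nat.recOnPrimePow with
  | zero => intro h; omega
  | one =>
    intro _
    have h1 : {w : GaussianInt | w.norm = ((1 : ℕ) : ℤ)} ⊆
        (({1, -1, ⟨0, 1⟩, ⟨0, -1⟩} : Finset GaussianInt) : Set GaussianInt) := by
      intro w hw
      have hw : w.norm = ((1 : ℕ) : ℤ) := hw
      rw [Zsqrtd.norm_def] at hw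
      push_cast at hw
      have h2 : w.re * w.re + w.im * w.im = 1 := by linarith
      have hre : w.re ≤ 1 ∧ -1 ≤ w.re := by
        constructor <;> nlinarith [mul_self_nonneg w.im, mul_self_nonneg (w.re - 1),
          mul_self_nonneg (w.re + 1)]
      have him : w.im ≤ 1 ∧ -1 ≤ w.im := by
        constructor <;> nlinarith [mul_self_nonneg w.re, mul_self_nonneg (w.im - 1),
          mul_self_nonneg (w.im + 1)]
      obtain ⟨x, y⟩ := w
      simp only at h2 hre him
      have hx : x = -1 ∨ x = 0 ∨ x = 1 := by omega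
      have hy : y = -1 ∨ y = 0 ∨ y = 1 := by omega
      rw [Finset.mem_coe]
      simp only [Finset.mem_insert, Finset.mem_singleton, Zsqrtd.ext_iff, Zsqrtd.re_one,
        Zsqrtd.im_one, Zsqrtd.re_neg, Zsqrtd.im_neg]
      rcases hx with rfl | rfl | rfl <;> rcases hy with rfl | rfl | rfl <;> simp at h2 ⊢
    refine ⟨(Finset.finite_toSet _).subset h1, ?_⟩
    refine (Set.ncard_le_ncard h1 (Finset.finite_toSet _)).trans ?_
    rw [Set.ncard_coe_finset]
    refine (Finset.card_le_four).trans ?_
    simp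
  | prime_pow_mul a p k hp hpa hk ih =>
    intro hn
    have ha : 1 ≤ a := by
      rcases Nat.eq_zero_or_pos a with rfl | h
      · exact absurd (dvd_zero p) hpa
      · exact h
    obtain ⟨hfin, hcard⟩ := ih ha
    obtain ⟨F, hF⟩ := cover p k a hp hpa
    set S : Finset GaussianInt := hfin.toFinset with hS
    set T : Finset GaussianInt := (Finset.range (k + 1)).biUnion (fun i => S.image (F i * ·)) with hT
    have hsub : {w : GaussianInt | w.norm = ((p ^ k * a : ℕ) : ℤ)} ⊆ (T : Set GaussianInt) := by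
      intro w hw
      obtain ⟨i, hi, w', hw', he⟩ := hF w hw
      rw [Finset.mem_coe, hT, Finset.mem_biUnion]
      refine ⟨i, Finset.mem_range.2 (by omega), ?_⟩
      rw [Finset.mem_image]
      exact ⟨w', by rw [hS, Set.Finite.mem_toFinset]; exact hw', he.symm⟩
    refine ⟨(Finset.finite_toSet _).subset hsub, ?_⟩
    have hTc : T.card ≤ (k + 1) * S.card := by
      have h1 := Finset.card_biUnion_le_card_mul (Finset.range (k + 1))
        (fun i => S.image (F i * ·)) S.card (fun i _ => Finset.card_image_le)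
      rwa [Finset.card_range] at h1
    have hSc : S.card = Set.ncard {w : GaussianInt | w.norm = (a : ℤ)} := by
      rw [Set.ncard_eq_toFinset_card _ hfin]
    have hcop : Nat.Coprime (p ^ k) a := Nat.Coprime.pow_left _ ((Nat.Prime.coprime_iff_not_dvd hp).2 hpa)
    have hdiv : (p ^ k * a).divisors.card = (k + 1) * a.divisors.card := by
      rw [hcop.card_divisors_mul, Nat.divisors_prime_pow hp, Finset.card_map, Finset.card_range]
    refine (Set.ncard_le_ncard hsub (Finset.finite_toSet _)).trans ?_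
    rw [Set.ncard_coe_finset, hdiv]
    refine hTc.trans ?_
    rw [hSc]
    calc (k + 1) * Set.ncard {w : GaussianInt | w.norm = (a : ℤ)} ≤
        (k + 1) * (4 * a.divisors.card) := Nat.mul_le_mul_left _ hcard
      _ = 4 * ((k + 1) * a.divisors.card) := by ring

end hNB

theorem hNB : StNB := fun n hn => (hNB.main n hn).2

end Pool.Agent.Helper15.AB
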