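import Mathlib
import Pool.Agent.Helper15.AB.StBV
import Pool.Agent.Helper2.Average

/-!
Project AB, module NP: passing to the primitive character.
-/

set_option autoImplicit false

namespace Pool.Agent.Helper15.AB

open Finset ArithmeticFunction

namespace NP

lemma card_primeFactors_le {q : ℕ} (hq : q ≠ 0) :
    (#q.primeFactors : ℝ) * Real.log 2 ≤ Real.log q := by
  have h1 : 2 ^ (#q.primeFactors) ≤ q := by
    calc 2 ^ (#q.primeFactors) ≤ ∏ p ∈ q.primeFactors, p :=
          pow_card_le_prod _ _ _ fun p hp => (Nat.prime_of_mem_primeFactors hp).two_le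
      _ ≤ q := Nat.le_of_dvd (Nat.pos_of_ne_zero hq) (Nat.prod_primeFactors_dvd q)
  rw [← Real.log_pow]
  apply Real.log_le_log (by positivity)
  exact_mod_cast h1

end NP

open NP Pool.Agent.Helper2 in
/-- module NP -/
theorem hNP : StNP := by
  classical
  intro w hw
  refine ⟨3, by norm_num, ?_⟩
  intro q _ χ x hx hqx
  have hq : 0 < q := Nat.pos_of_ne_zero (NeZero.ne q)
  have hx0 : (0 : ℝ) < x := by linarith
  have h1 : TT w x (fun n => χ (n : ZMod q)) -
      TT w x (fun n => χ.primitiveCharacter (n : ZMod χ.conductor)) =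
      ∑ n ∈ Icc 1 ⌊3 * x⌋₊, ((Λ n * w (Real.log (n / x)) : ℝ) : ℂ) *
        (chFun χ n - prFun χ n) := by
    rw [TT, TT, ← sum_sub_distrib]
    refine sum_congr rfl fun n _ => ?_
    rw [← mul_sub]
    rfl
  rw [h1]
  have h2 : ‖∑ n ∈ Icc 1 ⌊3 * x⌋₊, ((Λ n * w (Real.log (n / x)) : ℝ) : ℂ) *
        (chFun χ n - prFun χ n)‖ ≤
      ∑ n ∈ (Ioc 0 ⌊3 * x⌋₊).filter (fun n => ¬ n.Coprime q), vonMangoldt n := by
    rw [sum_filter]
    have e : Icc 1 ⌊3 * x⌋₊ = Ioc 0 ⌊3 * x⌋₊ := by
      ext n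
      simp only [mem_Icc, mem_Ioc]
      omega
    rw [e]
    refine (norm_sum_le _ _).trans (sum_le_sum fun n _ => ?_)
    rw [norm_mul, Complex.norm_real, Real.norm_eq_abs,
      abs_of_nonneg (mul_nonneg vonMangoldt_nonneg (hw.nonneg _))]
    by_cases h : n.Coprime q
    · rw [prFun_eq_chFun χ n h, sub_self, norm_zero, mul_zero, if_neg (not_not.2 h)]
    · rw [(chFun_eq_zero_iff χ n).2 h, zero_sub, norm_neg, if_pos h]
      have a1 : Λ n * w (Real.log (n / x)) ≤ Λ n * 1 :=
        mul_le_mul_of_nonneg_left (hw.le_one _) vonMangoldt_nonneg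
      have a2 : ‖prFun χ n‖ ≤ 1 := norm_chFun_le _ n
      calc Λ n * w (Real.log (n / x)) * ‖prFun χ n‖ ≤ (Λ n * 1) * 1 := by
            gcongr
        _ = Λ n := by ring
  refine h2.trans ((sum_noncoprime_le ⌊3 * x⌋₊ q hq.ne').trans ?_)
  have hlog2 : 0 < Real.log 2 := Real.log_pos (by norm_num)
  have hlog2' : (0.69 : ℝ) < Real.log 2 := by
    have := Real.log_two_gt_d9
    linarith
  have hc := card_primeFactors_le hq.ne'
  have hlq : Real.log q ≤ Real.log x := Real.log_le_log (by exact_mod_cast hq) hqx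
  have hlx : 0 < Real.log x := Real.log_pos (by linarith)
  have hl3 : Real.log ⌊3 * x⌋₊ ≤ 2 * Real.log x := by
    have h3 : (1 : ℝ) ≤ ⌊3 * x⌋₊ := by
      have : 1 ≤ ⌊3 * x⌋₊ := by
        rw [Nat.one_le_floor_iff]
        linarith
      exact_mod_cast this
    calc Real.log ⌊3 * x⌋₊ ≤ Real.log (3 * x) :=
          Real.log_le_log (by linarith) (Nat.floor_le (by linarith))
      _ = Real.log 3 + Real.log x := Real.log_mul (by norm_num) hx0.ne'
      _ ≤ Real.log x + Real.log x := by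
          gcongr
      _ = _ := by ring
  have hcard : (#q.primeFactors : ℝ) ≤ Real.log x / 0.69 := by
    rw [le_div_iff₀ (by norm_num)]
    calc (#q.primeFactors : ℝ) * 0.69 ≤ (#q.primeFactors : ℝ) * Real.log 2 := by gcongr
      _ ≤ Real.log x := hc.trans hlq
  calc (#q.primeFactors : ℝ) * Real.log ⌊3 * x⌋₊ ≤ (Real.log x / 0.69) * (2 * Real.log x) := by
        gcongr
    _ ≤ 3 * Real.log x ^ 2 := by
        have : 0 ≤ Real.log x ^ 2 := by positivity
        have e : (Real.log x / 0.69) * (2 * Real.log x) = (2 / 0.69) * Real.log x ^ 2 := by ring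
        rw [e]
        apply mul_le_mul_of_nonneg_right _ this
        norm_num

end Pool.Agent.Helper15.AB
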