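import Mathlib
import Pool.Agent.Helper15.AB.StMid

/-!
# Module NR (MP_37d0ef_nt): narrow ranges of divisors
-/

set_option autoImplicit false

namespace Pool.Agent.Helper15.AB

open Finset ArithmeticFunction Filter Topology

namespace hNR

theorem tot (k : ℕ) : (Nat.totient k : ℝ) = k * ∏ l ∈ k.primeFactors,
    (1 - 1 / (l : ℝ)) := by
  have h := Nat.totient_eq_mul_prod_factors k
  have h3 : (((Nat.totient k : ℕ) : ℚ) : ℝ) =
      (((k : ℚ) * ∏ l ∈ k.primeFactors, (1 - (l : ℚ)⁻¹) : ℚ) : ℝ) := by rw [h]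
  push_cast at h3
  simp only [one_div]
  exact h3

/-- `∏ (1 - 1/l²) ≥ 1/2` -/
theorem half (n : ℕ) : (1 : ℝ) / 2 ≤ ∏ l ∈ Icc 2 n, (1 - 1 / (l : ℝ) ^ 2) := by
  have key : ∀ m : ℕ, ∏ l ∈ Icc 2 (m + 1), (1 - 1 / (l : ℝ) ^ 2) =
      ((m : ℝ) + 2) / (2 * ((m : ℝ) + 1)) := by
    intro m
    induction m with
    | zero => simp
    | succ m ih =>
      rw [Finset.prod_Icc_succ_top (by omega), ih]
      push_cast
      have h1 : (m : ℝ) + 1 ≠ 0 := by positivity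
      have h2 : (m : ℝ) + 1 + 1 ≠ 0 := by positivity
      field_simp
      ring
  rcases Nat.eq_zero_or_pos n with h | h
  · subst h; simp; norm_num
  · obtain ⟨m, rfl⟩ : ∃ m, n = m + 1 := ⟨n - 1, by omega⟩
    rw [key m, div_le_div_iff₀ (by norm_num) (by positivity)]
    have : (0 : ℝ) ≤ m := by positivity
    linarith

theorem half' (d : ℕ) : (1 : ℝ) / 2 ≤ ∏ l ∈ d.primeFactors, (1 - 1 / (l : ℝ) ^ 2) := by
  have hf : ∀ l : ℕ, 2 ≤ l → 0 ≤ 1 - 1 / (l : ℝ) ^ 2 ∧ 1 - 1 / (l : ℝ) ^ 2 ≤ 1 := by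
    intro l hl
    have h2 : (2 : ℝ) ≤ l := by exact_mod_cast hl
    have h1 : 1 / (l : ℝ) ^ 2 ≤ 1 := by
      rw [div_le_one (by positivity)]
      nlinarith
    have h3 : 0 ≤ 1 / (l : ℝ) ^ 2 := by positivity
    constructor <;> linarith
  have hsub : d.primeFactors ⊆ Icc 2 d := by
    intro l hl
    rw [Finset.mem_Icc]
    exact ⟨(Nat.prime_of_mem_primeFactors hl).two_le, Nat.le_of_mem_primeFactors hl⟩
  refine (half d).trans ?_
  rw [← Finset.prod_sdiff hsub]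
  refine mul_le_of_le_one_left ?_ ?_
  · exact Finset.prod_nonneg fun l hl => (hf l (Nat.prime_of_mem_primeFactors hl).two_le).1
  · refine Finset.prod_le_one (fun l hl => ?_) (fun l hl => ?_)
    · exact (hf l (Finset.mem_Icc.1 (Finset.mem_sdiff.1 hl).1).1).1
    · exact (hf l (Finset.mem_Icc.1 (Finset.mem_sdiff.1 hl).1).1).2

theorem prod_le_sum (d : ℕ) (hd : 1 ≤ d) :
    ∏ l ∈ d.primeFactors, (1 + 1 / (l : ℝ)) ≤ ∑ k ∈ d.divisors, 1 / (k : ℝ) := by
  rw [Finset.prod_one_add]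
  have h1 : ∀ T ∈ d.primeFactors.powerset, ∏ l ∈ T, 1 / (l : ℝ) =
      (fun k : ℕ => 1 / (k : ℝ)) (∏ l ∈ T, l) := by
    intro T _
    simp only [one_div, Nat.cast_prod, Finset.prod_inv_distrib]
  rw [Finset.sum_congr rfl h1]
  have hinj : Set.InjOn (fun T : Finset ℕ => ∏ l ∈ T, l) (d.primeFactors.powerset : Set (Finset ℕ)) := by
    intro T hT T' hT' h
    have hT1 : ∀ l ∈ T, l.Prime := fun l hl =>
      Nat.prime_of_mem_primeFactors (Finset.mem_powerset.1 (Finset.mem_coe.1 hT) hl)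
    have hT2 : ∀ l ∈ T', l.Prime := fun l hl =>
      Nat.prime_of_mem_primeFactors (Finset.mem_powerset.1 (Finset.mem_coe.1 hT') hl)
    rw [← Nat.primeFactors_prod hT1, ← Nat.primeFactors_prod hT2]
    exact congrArg Nat.primeFactors h
  rw [← Finset.sum_image (f := fun k : ℕ => 1 / (k : ℝ)) hinj]
  refine Finset.sum_le_sum_of_subset_of_nonneg ?_ fun _ _ _ => by positivity
  intro k hk
  obtain ⟨T, hT, rfl⟩ := Finset.mem_image.1 hk
  rw [Nat.mem_divisors]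
  refine ⟨?_, by omega⟩
  refine (Finset.prod_dvd_prod_of_subset T d.primeFactors (fun l => l)
    (Finset.mem_powerset.1 hT)).trans ?_
  exact Nat.prod_primeFactors_dvd d

theorem ratio_le (d : ℕ) (hd : 1 ≤ d) :
    (d : ℝ) / Nat.totient d ≤ 2 * ∑ k ∈ d.divisors, 1 / (k : ℝ) := by
  have hd' : (0 : ℝ) < d := by exact_mod_cast hd
  have hφ : (0 : ℝ) < Nat.totient d := by exact_mod_cast Nat.totient_pos.2 hd
  have h1 := half' d
  have h2 : ∏ l ∈ d.primeFactors, (1 - 1 / (l : ℝ) ^ 2) =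
      (∏ l ∈ d.primeFactors, (1 - 1 / (l : ℝ))) * ∏ l ∈ d.primeFactors, (1 + 1 / (l : ℝ)) := by
    rw [← Finset.prod_mul_distrib]
    refine Finset.prod_congr rfl fun l _ => ?_
    ring
  rw [h2] at h1
  have h3 := tot d
  have h4 := prod_le_sum d hd
  set A := ∏ l ∈ d.primeFactors, (1 - 1 / (l : ℝ)) with hA
  set B := ∏ l ∈ d.primeFactors, (1 + 1 / (l : ℝ)) with hB
  have hA0 : 0 < A := by
    rw [h3] at hφ
    exact (pos_iff_pos_of_mul_pos hφ).1 hd'
  rw [h3, div_le_iff₀ (by positivity)]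
  have h5 : 1 ≤ 2 * (A * ∑ k ∈ d.divisors, 1 / (k : ℝ)) := by
    have : A * B ≤ A * ∑ k ∈ d.divisors, 1 / (k : ℝ) := mul_le_mul_of_nonneg_left h4 hA0.le
    linarith
  calc (d : ℝ) = d * 1 := (mul_one _).symm
    _ ≤ d * (2 * (A * ∑ k ∈ d.divisors, 1 / (k : ℝ))) := mul_le_mul_of_nonneg_left h5 hd'.le
    _ = _ := by ring

/-- number of multiples of `k` in `(a, b]` -/
theorem mult_card (a b k : ℕ) (hk : 1 ≤ k) (hab : a ≤ b) :
    (((Ioc a b).filter (fun d => k ∣ d)).card : ℝ) ≤ ((b : ℝ) - a) / k + 1 := by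
  have hk' : (0 : ℝ) < k := by exact_mod_cast hk
  have h1 : ((Ioc a b).filter (fun d => k ∣ d)).card ≤ (Ioc (a / k) (b / k)).card := by
    refine Finset.card_le_card_of_injOn (fun d => d / k) ?_ ?_
    · intro d hd
      obtain ⟨hd1, hd2⟩ := Finset.mem_filter.1 (Finset.mem_coe.1 hd)
      obtain ⟨c, rfl⟩ := hd2
      rw [Finset.mem_Ioc] at hd1
      rw [Finset.mem_coe, Finset.mem_Ioc]
      dsimp only
      rw [Nat.mul_div_cancel_left _ hk]
      constructor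
      · rw [Nat.div_lt_iff_lt_mul hk, mul_comm]
        exact hd1.1
      · rw [Nat.le_div_iff_mul_le hk, mul_comm]
        exact hd1.2
    · intro d hd d' hd' h
      obtain ⟨-, c, rfl⟩ := Finset.mem_filter.1 (Finset.mem_coe.1 hd)
      obtain ⟨-, c', rfl⟩ := Finset.mem_filter.1 (Finset.mem_coe.1 hd')
      dsimp only at h
      rw [Nat.mul_div_cancel_left _ hk, Nat.mul_div_cancel_left _ hk] at h
      rw [h]
  rw [Nat.card_Ioc] at h1
  have h2 : (((Ioc a b).filter (fun d => k ∣ d)).card : ℝ) ≤ ((b / k - a / k : ℕ) : ℝ) := by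
    exact_mod_cast h1
  refine h2.trans ?_
  rw [Nat.cast_sub (Nat.div_le_div_right hab)]
  have h3 : ((b / k : ℕ) : ℝ) ≤ (b : ℝ) / k := Nat.cast_div_le
  have h4 : (a : ℝ) / k - 1 ≤ ((a / k : ℕ) : ℝ) := by
    have h5 : a < (a / k + 1) * k := by
      have := Nat.lt_div_mul_add hk (a := a)
      rw [add_mul, one_mul]
      exact this
    have h6 : (a : ℝ) < (((a / k : ℕ) : ℝ) + 1) * k := by exact_mod_cast h5
    have h7 : (a : ℝ) / k < ((a / k : ℕ) : ℝ) + 1 := by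
      rw [div_lt_iff₀ hk']
      exact h6
    linarith
  rw [sub_div]
  linarith

theorem sum_sq (b : ℕ) : ∑ k ∈ Icc 1 b, 1 / (k : ℝ) ^ 2 ≤ 2 := by
  have key : ∀ m : ℕ, ∑ k ∈ Icc 1 (m + 1), 1 / (k : ℝ) ^ 2 ≤ 2 - 1 / ((m : ℝ) + 1) := by
    intro m
    induction m with
    | zero => simp; norm_num
    | succ m ih =>
      rw [Finset.sum_Icc_succ_top (by omega)]
      refine (add_le_add ih le_rfl).trans ?_
      push_cast
      have h1 : (0 : ℝ) < (m : ℝ) + 1 := by positivity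
      have h2 : (0 : ℝ) < (m : ℝ) + 1 + 1 := by positivity
      have h3 : 1 / ((m : ℝ) + 1 + 1) ^ 2 ≤ 1 / ((m : ℝ) + 1) - 1 / ((m : ℝ) + 1 + 1) := by
        rw [div_sub_div _ _ h1.ne' h2.ne', div_le_div_iff₀ (by positivity) (by positivity)]
        nlinarith
      linarith
  rcases Nat.eq_zero_or_pos b with h | h
  · subst h; simp
  · obtain ⟨m, rfl⟩ : ∃ m, b = m + 1 := ⟨b - 1, by omega⟩
    refine (key m).trans ?_
    have : 0 ≤ 1 / ((m : ℝ) + 1) := by positivity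
    linarith

theorem sum_ratio (a b : ℕ) (hab : a ≤ b) :
    ∑ d ∈ Ioc a b, (d : ℝ) / Nat.totient d ≤ 2 * (2 * ((b : ℝ) - a) + (1 + Real.log b)) := by
  have h1 : ∀ d ∈ Ioc a b, (d : ℝ) / Nat.totient d ≤
      2 * ∑ k ∈ Icc 1 b, (if k ∣ d then 1 / (k : ℝ) else 0) := by
    intro d hd
    rw [Finset.mem_Ioc] at hd
    have hd1 : 1 ≤ d := by omega
    refine (ratio_le d hd1).trans ?_
    refine mul_le_mul_of_nonneg_left ?_ (by norm_num)
    rw [← Finset.sum_filter]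
    refine Finset.sum_le_sum_of_subset_of_nonneg ?_ fun _ _ _ => by positivity
    intro k hk
    have hkd := Nat.dvd_of_mem_divisors hk
    rw [Finset.mem_filter, Finset.mem_Icc]
    exact ⟨⟨Nat.pos_of_mem_divisors hk, (Nat.le_of_dvd hd1 hkd).trans hd.2⟩, hkd⟩
  refine (Finset.sum_le_sum h1).trans ?_
  rw [← Finset.mul_sum]
  refine mul_le_mul_of_nonneg_left ?_ (by norm_num)
  rw [Finset.sum_comm]
  have h2 : ∀ k ∈ Icc 1 b, ∑ d ∈ Ioc a b, (if k ∣ d then 1 / (k : ℝ) else 0) ≤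
      ((b : ℝ) - a) * (1 / (k : ℝ) ^ 2) + (k : ℝ)⁻¹ := by
    intro k hk
    have hk1 := (Finset.mem_Icc.1 hk).1
    have hk' : (0 : ℝ) < k := by exact_mod_cast hk1
    rw [← Finset.sum_filter, Finset.sum_const, nsmul_eq_mul]
    have h3 := mult_card a b k hk1 hab
    calc _ ≤ (((b : ℝ) - a) / k + 1) * (1 / k) := mul_le_mul_of_nonneg_right h3 (by positivity)
      _ = _ := by field_simp
  refine (Finset.sum_le_sum h2).trans ?_
  rw [Finset.sum_add_distrib, ← Finset.mul_sum]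
  have h4 : ∑ k ∈ Icc 1 b, ((k : ℝ))⁻¹ ≤ 1 + Real.log b := by
    have := harmonic_le_one_add_log b
    rw [harmonic_eq_sum_Icc] at this
    push_cast at this
    exact this
  have h5 : (0 : ℝ) ≤ (b : ℝ) - a := by
    have : (a : ℝ) ≤ b := by exact_mod_cast hab
    linarith
  have h6 := mul_le_mul_of_nonneg_left (sum_sq b) h5
  linarith

/-- the count for a fixed divisor `d` -/
theorem inner (N p q m₁ : ℕ) (hyp : Hyp N p q m₁) (C c₀ : ℝ) (hC : 0 < C)
    (hS : ∀ (u : ℝ) (d E H : ℕ) (P : Finset ℕ), 0 ≤ u → u ≤ 1 → 1 ≤ d → ¬ p ∣ d → 2 ≤ H →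
      (∀ l ∈ P, l.Prime ∧ 3 < l ∧ (l : ℝ) ≤ (H : ℝ) ^ c₀) →
      ∑ e ∈ (Ioc E (E + H)).filter (fun e => (N * d * e - p).Prime), u ^ om P e ≤
        C * (H / Real.log H) * (d / Nat.totient d) * ∏ l ∈ P, (1 - (1 - u) / (l : ℝ)) + C * √H)
    (d H X₁ X₂ : ℕ) (hd : 1 ≤ d) (hH : 2 ≤ H) (hX : X₂ / d ≤ X₁ / d + H) :
    (((Ioc X₁ X₂).filter (fun m => (m % q = m₁ % q ∧ (N * m - p).Prime) ∧ d ∣ m)).card : ℝ) ≤
      C * (H / Real.log H) * (d / Nat.totient d) + C * √H := by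
  have hH' : (2 : ℝ) ≤ H := by exact_mod_cast hH
  have hlog : 0 < Real.log H := Real.log_pos (by linarith)
  by_cases hpd : p ∣ d
  · have h0 : (Ioc X₁ X₂).filter (fun m => (m % q = m₁ % q ∧ (N * m - p).Prime) ∧ d ∣ m) = ∅ := by
      rw [Finset.filter_eq_empty_iff]
      rintro m - ⟨⟨h1, -⟩, h2⟩
      have hpm : p ∣ m := hpd.trans h2
      have h3 : m ≡ m₁ [MOD q] := h1
      have h4 : m ≡ m₁ [MOD p] := h3.of_dvd hyp.hpq
      have h5 : p ∣ m₁ := (Nat.ModEq.dvd_iff h4 dvd_rfl).1 hpm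
      have h6 : p ∣ Nat.gcd m₁ q := Nat.dvd_gcd h5 hyp.hpq
      rw [hyp.hm] at h6
      exact hyp.hp.one_lt.ne' (Nat.dvd_one.1 h6)
    rw [h0, Finset.card_empty, Nat.cast_zero]
    positivity
  · have h1 := hS 1 d (X₁ / d) H ∅ zero_le_one le_rfl hd hpd hH (by simp)
    simp only [one_pow, Finset.prod_empty, mul_one, Finset.sum_const, nsmul_eq_mul] at h1
    refine le_trans ?_ h1
    have h2 : ((Ioc X₁ X₂).filter (fun m => (m % q = m₁ % q ∧ (N * m - p).Prime) ∧ d ∣ m)).card ≤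
        ((Ioc (X₁ / d) (X₁ / d + H)).filter (fun e => (N * d * e - p).Prime)).card := by
      refine Finset.card_le_card_of_injOn (fun m => m / d) ?_ ?_
      · intro m hm
        obtain ⟨hm1, ⟨-, hm2⟩, c, rfl⟩ := Finset.mem_filter.1 (Finset.mem_coe.1 hm)
        rw [Finset.mem_Ioc] at hm1
        rw [Finset.mem_coe, Finset.mem_filter, Finset.mem_Ioc]
        dsimp only
        rw [Nat.mul_div_cancel_left _ hd, mul_assoc]
        refine ⟨⟨?_, ?_⟩, hm2⟩
        · rw [Nat.div_lt_iff_lt_mul hd, mul_comm]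
          exact hm1.1
        · refine le_trans ?_ hX
          rw [Nat.le_div_iff_mul_le hd, mul_comm]
          exact hm1.2
      · intro m hm m' hm' h
        obtain ⟨-, -, c, rfl⟩ := Finset.mem_filter.1 (Finset.mem_coe.1 hm)
        obtain ⟨-, -, c', rfl⟩ := Finset.mem_filter.1 (Finset.mem_coe.1 hm')
        dsimp only at h
        rw [Nat.mul_div_cancel_left _ hd, Nat.mul_div_cancel_left _ hd] at h
        rw [h]
    exact_mod_cast h2

theorem ev1 (η : ℝ) (hη : 0 < η) : ∀ᶠ z : ℝ in atTop, 6 + 2 * Real.log (2 * z) ≤ η * z := by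
  have h1 : (fun z : ℝ => Real.log z) =o[atTop] (fun z => z) := Real.isLittleO_log_id_atTop
  have h2 := (Asymptotics.isLittleO_iff.1 h1) (show 0 < η / 4 by positivity)
  filter_upwards [h2, eventually_ge_atTop 1, eventually_ge_atTop ((6 + 2 * Real.log 2) * 2 / η)]
    with z h3 h4 h5
  rw [Real.norm_of_nonneg (Real.log_nonneg h4), Real.norm_of_nonneg (by linarith)] at h3
  rw [Real.log_mul (by norm_num) (by linarith)]
  rw [div_le_iff₀ hη] at h5
  linarith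

theorem ev2 (η : ℝ) (hη : 0 < η) : ∀ᶠ x : ℝ in atTop,
    Real.log x / 4 ≤ Real.log (η * √x / 4) := by
  filter_upwards [eventually_gt_atTop 0,
    Real.tendsto_log_atTop.eventually_ge_atTop (-4 * Real.log (η / 4))] with x h1 h2
  have h3 : η * √x / 4 = (η / 4) * √x := by ring
  rw [h3, Real.log_mul (by positivity) (by positivity), Real.log_sqrt h1.le]
  linarith

theorem ev3 (η : ℝ) (hη : 0 < η) : ∀ᶠ x : ℝ in atTop,
    x ^ (7 / 8 : ℝ) ≤ η ^ 2 * x / Real.log x := by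
  have h1 : (fun x : ℝ => Real.log x) =o[atTop] (fun x => x ^ (1 / 8 : ℝ)) :=
    isLittleO_log_rpow_atTop (by norm_num)
  have h2 := (Asymptotics.isLittleO_iff.1 h1) (show 0 < η ^ 2 by positivity)
  filter_upwards [h2, eventually_gt_atTop 1] with x h3 h4
  have hx : 0 < x := by linarith
  have hl : 0 < Real.log x := Real.log_pos h4
  rw [Real.norm_of_nonneg hl.le, Real.norm_of_nonneg (by positivity)] at h3
  rw [le_div_iff₀ hl]
  calc x ^ (7 / 8 : ℝ) * Real.log x ≤ x ^ (7 / 8 : ℝ) * (η ^ 2 * x ^ (1 / 8 : ℝ)) := by gcongr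
    _ = η ^ 2 * (x ^ (7 / 8 : ℝ) * x ^ (1 / 8 : ℝ)) := by ring
    _ = η ^ 2 * x := by
        rw [← Real.rpow_add hx]; norm_num

end hNR

theorem hNR (hSU : StSU) : StNR := by
  intro N p q m₁ hyp
  obtain ⟨C, c₀, hC, hc₀, hc₁, hS⟩ := hSU N p hyp.hp hyp.hN hyp.hNp
  refine ⟨48 * C, by positivity, fun η hη hη1 => ?_⟩
  obtain ⟨z₀, hz₀⟩ := eventually_atTop.1 (hNR.ev1 η hη)
  have hev : ∀ᶠ x : ℝ in atTop, z₀ ≤ x ^ (1 / 4 : ℝ) ∧ Real.log x / 4 ≤ Real.log (η * √x / 4) ∧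
      x ^ (7 / 8 : ℝ) ≤ η ^ 2 * x / Real.log x ∧ 2 ≤ x ∧ (16 / η ^ 2) ≤ x := by
    filter_upwards [(tendsto_rpow_atTop (by norm_num : (0 : ℝ) < 1 / 4)).eventually_ge_atTop z₀,
      hNR.ev2 η hη, hNR.ev3 η hη, eventually_ge_atTop 2, eventually_ge_atTop (16 / η ^ 2)]
      with x h1 h2 h3 h4 h5
    exact ⟨h1, h2, h3, h4, h5⟩
  obtain ⟨x₀, hx₀⟩ := eventually_atTop.1 hev
  refine ⟨x₀, fun x hx z X₁ X₂ hz1 hz2 hX hX4 hXη => ?_⟩
  obtain ⟨e1, e2, e3, e4, e5⟩ := hx₀ x hx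
  have hx0 : 0 < x := by linarith
  have hsx : 0 < √x := Real.sqrt_pos.2 hx0
  have hlx : 0 < Real.log x := Real.log_pos (by linarith)
  have hz1' : 1 ≤ x ^ (1 / 4 : ℝ) := Real.one_le_rpow (by linarith) (by norm_num)
  have hz1'' : 1 ≤ z := hz1'.trans hz1
  have hz0 : 0 < z := by linarith
  have hlogz := hz₀ z (e1.trans hz1)
  -- `η √x ≥ 4`
  have hηx : 4 ≤ η * √x := by
    have h1 : 16 ≤ x * η ^ 2 := by rwa [div_le_iff₀ (by positivity)] at e5
    have h2 : (4 : ℝ) ^ 2 ≤ (η * √x) ^ 2 := by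
      rw [mul_pow, Real.sq_sqrt hx0.le]
      linarith
    exact (pow_le_pow_iff_left₀ (by norm_num) (by positivity) two_ne_zero).1 h2
  set a := ⌊z⌋₊ with ha
  set b := ⌊(1 + η) * z⌋₊ with hb
  have hab : a ≤ b := Nat.floor_le_floor (by nlinarith)
  have hb1 : 1 ≤ b := Nat.le_floor (by push_cast; nlinarith)
  have hbz : (b : ℝ) ≤ (1 + η) * z := Nat.floor_le (by positivity)
  have hb2z : (b : ℝ) ≤ 2 * z := by nlinarith
  have hba : (b : ℝ) - a ≤ η * z + 1 := by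
    have := Nat.lt_floor_add_one z
    rw [← ha] at this
    linarith
  -- interchange of the sums
  have hswap : ∑ m ∈ (Ioc X₁ X₂).filter (fun m => m % q = m₁ % q ∧ (N * m - p).Prime),
      (((Ioc a b).filter (fun d => d ∣ m)).card : ℝ) =
      ∑ d ∈ Ioc a b, (((Ioc X₁ X₂).filter
        (fun m => (m % q = m₁ % q ∧ (N * m - p).Prime) ∧ d ∣ m)).card : ℝ) := by
    simp only [Finset.card_filter, Nat.cast_sum]
    rw [Finset.sum_filter]
    conv_rhs => rw [Finset.sum_comm]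
    refine Finset.sum_congr rfl fun m _ => ?_
    by_cases h1 : m % q = m₁ % q ∧ (N * m - p).Prime
    · simp [h1]
    · simp [h1]
  rw [hswap]
  -- bound for a single divisor
  have hsingle : ∀ d ∈ Ioc a b, (((Ioc X₁ X₂).filter
        (fun m => (m % q = m₁ % q ∧ (N * m - p).Prime) ∧ d ∣ m)).card : ℝ) ≤
      8 * C * η * x / (z * Real.log x) * (d / Nat.totient d) + 2 * C * x ^ (3 / 8 : ℝ) := by
    intro d hd
    rw [Finset.mem_Ioc] at hd
    have hd1 : 1 ≤ d := by omega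
    have hd0 : (0 : ℝ) < d := by exact_mod_cast hd1
    have hdz : z < d := Nat.lt_of_floor_lt hd.1
    have hdb : (d : ℝ) ≤ b := by exact_mod_cast hd.2
    have hd4 : (d : ℝ) ≤ 4 * √x := by linarith
    have hηxd : 1 ≤ η * x / d := by
      rw [le_div_iff₀ hd0, one_mul]
      calc (d : ℝ) ≤ 4 * √x := hd4
        _ ≤ (η * √x) * √x := mul_le_mul_of_nonneg_right hηx hsx.le
        _ = η * x := by rw [mul_assoc, Real.mul_self_sqrt hx0.le]
    set H := ⌊η * x / d⌋₊ + 1 with hH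
    have hH2 : 2 ≤ H := by
      have : 1 ≤ ⌊η * x / d⌋₊ := Nat.le_floor (by push_cast; exact hηxd)
      omega
    have hHlow : η * x / d ≤ H := by
      have := (Nat.lt_floor_add_one (η * x / d)).le
      rw [hH]; push_cast; exact this
    have hHup : (H : ℝ) ≤ 2 * (η * x / d) := by
      have := Nat.floor_le (show 0 ≤ η * x / d by positivity)
      rw [hH]; push_cast; linarith
    have hXd : X₂ / d ≤ X₁ / d + H := by
      have h1 : (X₂ : ℝ) / d ≤ X₁ / d + η * x / d := by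
        rw [← add_div]
        exact div_le_div_of_nonneg_right (by linarith) hd0.le
      have h2 : ((X₂ / d : ℕ) : ℝ) ≤ (X₂ : ℝ) / d := Nat.cast_div_le
      have h3 : (X₁ : ℝ) / d < ((X₁ / d : ℕ) : ℝ) + 1 := by
        rw [div_lt_iff₀ hd0]
        have := Nat.lt_div_mul_add hd1 (a := X₁)
        have h4 : X₁ < (X₁ / d + 1) * d := by rw [add_mul, one_mul]; exact this
        exact_mod_cast h4
      have h4 : η * x / d < (⌊η * x / d⌋₊ : ℝ) + 1 := Nat.lt_floor_add_one _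
      have h5 : ((X₂ / d : ℕ) : ℝ) < ((X₁ / d : ℕ) : ℝ) + H + 1 := by
        rw [hH]; push_cast; linarith
      have h6 : X₂ / d < X₁ / d + H + 1 := by exact_mod_cast h5
      omega
    refine (hNR.inner N p q m₁ hyp C c₀ hC hS d H X₁ X₂ hd1 hH2 hXd).trans ?_
    have hlogH : Real.log x / 4 ≤ Real.log H := by
      refine e2.trans (Real.log_le_log (by positivity) (le_trans ?_ hHlow))
      rw [le_div_iff₀ hd0]
      calc η * √x / 4 * d ≤ η * √x / 4 * (4 * √x) := by gcongr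
        _ = η * (√x * √x) := by ring
        _ = η * x := by rw [Real.mul_self_sqrt hx0.le]
    have hφ : (0 : ℝ) < Nat.totient d := by exact_mod_cast Nat.totient_pos.2 hd1
    have hHz : (H : ℝ) ≤ 2 * (η * x / z) := by
      refine hHup.trans ?_
      gcongr
    refine add_le_add ?_ ?_
    · refine mul_le_mul_of_nonneg_right ?_ (by positivity)
      calc C * ((H : ℝ) / Real.log H) ≤ C * (2 * (η * x / z) / (Real.log x / 4)) := by gcongr
        _ = 8 * C * η * x / (z * Real.log x) := by field_simp; ring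
    · have h1 : (H : ℝ) ≤ (2 * x ^ (3 / 8 : ℝ)) ^ 2 := by
        have h2 : x ^ (3 / 8 : ℝ) * x ^ (3 / 8 : ℝ) * x ^ (1 / 4 : ℝ) = x := by
          rw [← Real.rpow_add hx0, ← Real.rpow_add hx0]; norm_num
        have h3 : η * x / z ≤ x ^ (3 / 8 : ℝ) * x ^ (3 / 8 : ℝ) := by
          rw [div_le_iff₀ hz0]
          calc η * x ≤ 1 * x := by gcongr
            _ = x ^ (3 / 8 : ℝ) * x ^ (3 / 8 : ℝ) * x ^ (1 / 4 : ℝ) := by rw [h2, one_mul]
            _ ≤ _ := by gcongr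
        have h4 : 0 ≤ x ^ (3 / 8 : ℝ) * x ^ (3 / 8 : ℝ) := by positivity
        calc (H : ℝ) ≤ 2 * (η * x / z) := hHz
          _ ≤ 2 * (x ^ (3 / 8 : ℝ) * x ^ (3 / 8 : ℝ)) := by gcongr
          _ ≤ _ := by nlinarith
      have h2 : √(H : ℝ) ≤ 2 * x ^ (3 / 8 : ℝ) := by
        rw [Real.sqrt_le_left (by positivity)]
        exact h1
      calc C * √(H : ℝ) ≤ C * (2 * x ^ (3 / 8 : ℝ)) := by gcongr
        _ = _ := by ring
  refine (Finset.sum_le_sum hsingle).trans ?_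
  rw [Finset.sum_add_distrib, ← Finset.mul_sum, Finset.sum_const, nsmul_eq_mul, Nat.card_Ioc]
  have hratio := hNR.sum_ratio a b hab
  have hlogb : Real.log b ≤ Real.log (2 * z) :=
    Real.log_le_log (by exact_mod_cast hb1) hb2z
  have hratio' : ∑ d ∈ Ioc a b, (d : ℝ) / Nat.totient d ≤ 5 * η * z := by
    refine hratio.trans ?_
    linarith
  have hcard : ((b - a : ℕ) : ℝ) ≤ 4 * √x := by
    have h1 : ((b - a : ℕ) : ℝ) ≤ b := by exact_mod_cast Nat.sub_le b a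
    linarith
  have hmain : 8 * C * η * x / (z * Real.log x) * ∑ d ∈ Ioc a b, (d : ℝ) / Nat.totient d ≤
      40 * C * (η ^ 2 * x / Real.log x) := by
    calc 8 * C * η * x / (z * Real.log x) * ∑ d ∈ Ioc a b, (d : ℝ) / Nat.totient d ≤
          8 * C * η * x / (z * Real.log x) * (5 * η * z) :=
            mul_le_mul_of_nonneg_left hratio' (by positivity)
      _ = 40 * C * (η ^ 2 * x / Real.log x) := by field_simp; ring
  have herr : ((b - a : ℕ) : ℝ) * (2 * C * x ^ (3 / 8 : ℝ)) ≤ 8 * C * (η ^ 2 * x / Real.log x) := by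
    calc ((b - a : ℕ) : ℝ) * (2 * C * x ^ (3 / 8 : ℝ)) ≤ 4 * √x * (2 * C * x ^ (3 / 8 : ℝ)) := by
          gcongr
      _ = 8 * C * (√x * x ^ (3 / 8 : ℝ)) := by ring
      _ = 8 * C * x ^ (7 / 8 : ℝ) := by
          rw [Real.sqrt_eq_rpow, ← Real.rpow_add hx0]; norm_num
      _ ≤ _ := by gcongr
  calc _ ≤ 40 * C * (η ^ 2 * x / Real.log x) + 8 * C * (η ^ 2 * x / Real.log x) :=
        add_le_add hmain herr
    _ = 48 * C * η ^ 2 * x / Real.log x := by ring

end Pool.Agent.Helper15.AB
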