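import Mathlib
import Pool.Agent.Helper15.AB.StAp

/-!
# Project AB, module NT: the number theoretic theorem from the two moments
-/

set_option autoImplicit false

namespace Pool.Agent.Helper15.AB

open Finset

namespace hNT

/-- Cauchy-Schwarz for the fibres of a map -/
theorem cs {α : Type*} [DecidableEq α] (F : Finset α) (A : Finset ℕ) (f : α → ℕ)
    (hf : ∀ t ∈ F, f t ∈ A) :
    F.card ^ 2 ≤ A.card * ((F ×ˢ F).filter (fun t => f t.1 = f t.2)).card := by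
  have h1 : F.card = ∑ b ∈ A, (F.filter (fun t => f t = b)).card :=
    card_eq_sum_card_fiberwise hf
  have h2 : ((F ×ˢ F).filter (fun t => f t.1 = f t.2)).card =
      ∑ b ∈ A, (F.filter (fun t => f t = b)).card ^ 2 := by
    rw [card_eq_sum_card_fiberwise (f := fun t : α × α => f t.1) (t := A)]
    · refine sum_congr rfl fun b _ => ?_
      rw [sq, ← card_product]
      congr 1
      ext ⟨t, t'⟩
      simp only [mem_filter, mem_product]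
      constructor
      · rintro ⟨⟨⟨h3, h4⟩, h5⟩, h6⟩
        exact ⟨⟨h3, h6⟩, h4, h5 ▸ h6⟩
      · rintro ⟨⟨h3, h4⟩, h5, h6⟩
        exact ⟨⟨⟨h3, h5⟩, h4.trans h6.symm⟩, h4⟩
    · intro t ht
      exact hf t.1 (mem_product.1 (mem_filter.1 ht).1).1
  rw [h2, h1]
  exact sq_sum_le_card_mul_sum_sq

end hNT

theorem hNT (hN1 : StN1) (hN2 : StN2) : StNT := by
  classical
  intro p z₁ z₂ hp hp2 hz hpz
  obtain ⟨c, X₁, hc, h1⟩ := hN1 p z₁ z₂ hp hp2 hz hpz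
  obtain ⟨C, X₂, hC, h2⟩ := hN2 p z₁ z₂ hp hp2 hz hpz
  refine ⟨c ^ 2 / C, max (max X₁ X₂) (3 ^ 500), by positivity, fun X hX bz hbz => ?_⟩
  have hX1 : X₁ ≤ X := (le_max_left _ _).trans ((le_max_left _ _).trans hX)
  have hX2 : X₂ ≤ X := (le_max_right _ _).trans ((le_max_left _ _).trans hX)
  have hX3 : (3 : ℝ) ^ 500 ≤ X := (le_max_right _ _).trans hX
  have hX0 : 0 < X := lt_of_lt_of_le (by positivity) hX3
  obtain ⟨hfin, hcard⟩ := h1 X hX1 bz hbz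
  have hpair := h2 X hX2 bz hbz
  have hw : (3 : ℝ) ≤ X ^ (1 / 500 : ℝ) := by
    calc (3 : ℝ) = ((3 : ℝ) ^ 500) ^ (1 / 500 : ℝ) := by
          rw [← Real.rpow_natCast, ← Real.rpow_mul (by norm_num)]
          norm_num
      _ ≤ X ^ (1 / 500 : ℝ) := Real.rpow_le_rpow (by positivity) hX3 (by norm_num)
  set A := (Icc 1 ⌊X⌋₊).filter (fun n : ℕ => ∃ v x : ℤ × ℤ, IsCoprime v.1 v.2 ∧
      IsCoprime x.1 x.2 ∧ ((zz z₁ z₂ v).norm - p).toNat.Prime ∧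
      2 < (zz z₁ z₂ v).norm - p ∧ nn p z₁ z₂ bz (v, x) = n) with hA
  set F := hfin.toFinset with hF
  have hmem : ∀ t, t ∈ F ↔ t ∈ RR p z₁ z₂ bz X := fun t => hfin.mem_toFinset
  have hmap : ∀ t ∈ F, (nn p z₁ z₂ bz t).toNat ∈ A := by
    intro t ht
    obtain ⟨⟨g1, g2, g3, g4⟩, g5, g6, g7, g8⟩ := (hmem t).1 ht
    have g9 : (((nn p z₁ z₂ bz t).toNat : ℕ) : ℤ) = nn p z₁ z₂ bz t :=
      Int.toNat_of_nonneg (by linarith)
    rw [hA, mem_filter, mem_Icc]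
    refine ⟨⟨?_, ?_⟩, t.1, t.2, g1, g6, g2, ?_, g9.symm⟩
    · have : (1 : ℤ) ≤ ((nn p z₁ z₂ bz t).toNat : ℕ) := by rw [g9]; exact g7
      exact_mod_cast this
    · apply Nat.le_floor
      have : ((((nn p z₁ z₂ bz t).toNat : ℕ) : ℤ) : ℝ) ≤ X := by rw [g9]; exact g8
      exact_mod_cast this
    · have g10 : (3 : ℝ) ≤ (((zz z₁ z₂ t.1).norm - p : ℤ) : ℝ) := hw.trans g3
      have g11 : (3 : ℤ) ≤ (zz z₁ z₂ t.1).norm - p := by exact_mod_cast g10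
      linarith
  have hcs := hNT.cs F A (fun t => (nn p z₁ z₂ bz t).toNat) hmap
  have hset : {t : ((ℤ × ℤ) × (ℤ × ℤ)) × ((ℤ × ℤ) × (ℤ × ℤ)) | t.1 ∈ RR p z₁ z₂ bz X ∧
      t.2 ∈ RR p z₁ z₂ bz X ∧ nn p z₁ z₂ bz t.1 = nn p z₁ z₂ bz t.2} =
      (((F ×ˢ F).filter (fun t => (nn p z₁ z₂ bz t.1).toNat = (nn p z₁ z₂ bz t.2).toNat) :
        Finset _) : Set (((ℤ × ℤ) × (ℤ × ℤ)) × ((ℤ × ℤ) × (ℤ × ℤ)))) := by
    ext t
    rw [Finset.mem_coe, mem_filter, mem_product, hmem, hmem]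
    constructor
    · rintro ⟨h3, h4, h5⟩
      exact ⟨⟨h3, h4⟩, by rw [h5]⟩
    · rintro ⟨⟨h3, h4⟩, h5⟩
      refine ⟨h3, h4, ?_⟩
      obtain ⟨_, _, _, g7, _⟩ := h3
      obtain ⟨_, _, _, g7', _⟩ := h4
      have e1 := Int.toNat_of_nonneg (by linarith : 0 ≤ nn p z₁ z₂ bz t.1)
      have e2 := Int.toNat_of_nonneg (by linarith : 0 ≤ nn p z₁ z₂ bz t.2)
      rw [← e1, ← e2, h5]
  rw [hset, Set.ncard_coe_finset] at hpair
  rw [Set.ncard_eq_toFinset_card _ hfin] at hcard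
  have hcs' : (F.card : ℝ) ^ 2 ≤ A.card * ((F ×ˢ F).filter (fun t =>
      (nn p z₁ z₂ bz t.1).toNat = (nn p z₁ z₂ bz t.2).toNat)).card := by exact_mod_cast hcs
  have h3 : (c * X) ^ 2 ≤ A.card * (C * X) := by
    calc (c * X) ^ 2 ≤ (F.card : ℝ) ^ 2 := pow_le_pow_left₀ (by positivity) hcard 2
      _ ≤ _ := hcs'
      _ ≤ A.card * (C * X) := mul_le_mul_of_nonneg_left hpair (Nat.cast_nonneg _)
  have h4 : X * (c ^ 2 * X) ≤ X * (A.card * C) := by nlinarith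
  have h5 := le_of_mul_le_mul_left h4 hX0
  rw [div_mul_eq_mul_div, div_le_iff₀ hC]
  exact h5

end Pool.Agent.Helper15.AB
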