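import Mathlib
import Pool.Agent.Helper15.AB.StAp

/-!
# Project AB, module OB: orbit switching
-/

set_option autoImplicit false

namespace Pool.Agent.Helper15.AB

open Finset

namespace hOB

theorem cop_of_norm {a b : GaussianInt} (h : IsCoprime a.norm b.norm) : IsCoprime a b := by
  have h1 : IsCoprime ((a.norm : ℤ) : GaussianInt) ((b.norm : ℤ) : GaussianInt) :=
    h.map (Int.castRingHom GaussianInt)
  rw [Zsqrtd.norm_eq_mul_conj, Zsqrtd.norm_eq_mul_conj] at h1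
  exact h1.of_mul_left_left.of_mul_right_left

theorem norm_prodG {ι : Type*} (s : Finset ι) (f : ι → GaussianInt) :
    (∏ i ∈ s, f i).norm = ∏ i ∈ s, (f i).norm :=
  map_prod (Zsqrtd.normMonoidHom (d := -1)) f s

theorem norm_star' (a : GaussianInt) : (star a).norm = a.norm := Zsqrtd.norm_conj a

theorem norm_nat (l : ℕ) : ((l : GaussianInt)).norm = (l : ℤ) ^ 2 := by
  have := Zsqrtd.norm_natCast (d := -1) l
  rw [this, sq]

/-- the switched product -/
noncomputable def K {ι : Type*} [DecidableEq ι] (κ : ι → GaussianInt) (H : Finset ι) (s : ι) :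
    GaussianInt := star (κ s) * ∏ h ∈ H.erase s, κ h

section

variable {ι : Type*} [DecidableEq ι] (κ : ι → GaussianInt) (H : Finset ι)

theorem norm_K {s : ι} (hs : s ∈ H) : (K κ H s).norm = ∏ h ∈ H, (κ h).norm := by
  rw [K, Zsqrtd.norm_mul, norm_star', norm_prodG, Finset.mul_prod_erase H (fun h => (κ h).norm) hs]

theorem K_mul {s : ι} (hs : s ∈ H) :
    K κ H s * (((κ s).norm : ℤ) : GaussianInt) = star (κ s) ^ 2 * ∏ h ∈ H, κ h := by
  rw [K, Zsqrtd.norm_eq_mul_conj, ← Finset.mul_prod_erase H κ hs]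
  ring

/-- a factor is coprime to its switched product -/
theorem cop_K {s : ι} (hs : s ∈ H) (h2 : IsCoprime (κ s) (star (κ s)))
    (h3 : ∀ h ∈ H, h ≠ s → IsCoprime (κ s).norm (κ h).norm) : IsCoprime (κ s) (K κ H s) := by
  have _ := hs
  refine h2.mul_right (IsCoprime.prod_right fun h hh => ?_)
  rw [Finset.mem_erase] at hh
  exact cop_of_norm (h3 h hh.2 hh.1)

theorem K_inj {s₁ s₂ : ι} (h₁ : s₁ ∈ H) (h₂ : s₂ ∈ H) (hgt : 1 < (κ s₁).norm)
    (h2 : IsCoprime (κ s₁) (star (κ s₁)))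
    (h3 : ∀ h ∈ H, h ≠ s₁ → IsCoprime (κ s₁).norm (κ h).norm) (a b : GaussianInt)
    (ha : IsCoprime a.norm (∏ h ∈ H, (κ h).norm)) (hab : a * K κ H s₁ = b * K κ H s₂) :
    s₁ = s₂ := by
  have _ := h₂
  by_contra hne
  have hd : κ s₁ ∣ K κ H s₂ := by
    rw [K]
    exact Dvd.dvd.mul_left (Finset.dvd_prod_of_mem κ (Finset.mem_erase.2 ⟨hne, h₁⟩)) _
  have hd2 : κ s₁ ∣ a * K κ H s₁ := by
    rw [hab]
    exact hd.mul_left _
  have hca : IsCoprime (κ s₁) a := by
    apply cop_of_norm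
    exact (ha.symm).of_isCoprime_of_dvd_left (Finset.dvd_prod_of_mem (fun h => (κ h).norm) h₁)
  have hd3 : κ s₁ ∣ K κ H s₁ := hca.dvd_of_dvd_mul_left hd2
  have hu : IsUnit (κ s₁) := (cop_K κ H h₁ h2 h3).isUnit_of_dvd' dvd_rfl hd3
  have hn := (Zsqrtd.norm_eq_one_iff).2 hu
  omega

theorem unit_absurd {l : ℕ} (hl : l.Prime) (h : IsUnit (l : GaussianInt)) : False := by
  have hn := (Zsqrtd.norm_eq_one_iff).2 h
  rw [norm_nat] at hn
  have h2 := hl.two_le
  have : (2 : ℤ) ≤ l := by exact_mod_cast h2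
  have h4 : ((l : ℤ) ^ 2).natAbs = l ^ 2 := by
    rw [Int.natAbs_pow, Int.natAbs_natCast]
  rw [h4] at hn
  nlinarith

theorem not_dvd_K {s : ι} (hs : s ∈ H) (h2 : ∀ h ∈ H, IsCoprime (κ h) (star (κ h)))
    (h3 : ∀ h ∈ H, ∀ h' ∈ H, h ≠ h' → IsCoprime (κ h).norm (κ h').norm) {l : ℕ}
    (hl : l.Prime) (hd : (l : GaussianInt) ∣ K κ H s) : False := by
  have hlp : Prime (l : ℤ) := Nat.prime_iff_prime_int.1 hl
  -- `l` divides the product of the norms
  have h4 : (l : ℤ) ∣ ∏ h ∈ H, (κ h).norm := by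
    rw [← norm_K κ H hs]
    obtain ⟨c, hc⟩ := hd
    rw [hc, Zsqrtd.norm_mul, norm_nat, sq, mul_assoc]
    exact dvd_mul_right _ _
  obtain ⟨h₀, hh₀, hd₀⟩ := (Prime.dvd_finset_prod_iff hlp _).1 h4
  -- coprime to the other factors
  have hcop : ∀ h ∈ H, h ≠ h₀ → IsCoprime (l : ℤ) (κ h).norm := fun h hh hne =>
    (h3 h₀ hh₀ h hh hne.symm).of_isCoprime_of_dvd_left hd₀
  have hcop2 : ∀ h ∈ H, h ≠ h₀ → IsCoprime (l : GaussianInt) (κ h) := by
    intro h hh hne
    apply cop_of_norm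
    rw [norm_nat]
    exact (hcop h hh hne).pow_left
  have hcop3 : ∀ h ∈ H, h ≠ h₀ → IsCoprime (l : GaussianInt) (star (κ h)) := by
    intro h hh hne
    apply cop_of_norm
    rw [norm_nat, norm_star']
    exact (hcop h hh hne).pow_left
  have hstar : ∀ w : GaussianInt, (l : GaussianInt) ∣ w → (l : GaussianInt) ∣ star w := by
    rintro w ⟨c, rfl⟩
    refine ⟨star c, ?_⟩
    rw [star_mul, star_natCast, mul_comm]
  have hfin : (l : GaussianInt) ∣ κ h₀ ∨ (l : GaussianInt) ∣ star (κ h₀) := by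
    by_cases hsh : s = h₀
    · right
      subst hsh
      rw [K] at hd
      refine IsCoprime.dvd_of_dvd_mul_right ?_ hd
      refine IsCoprime.prod_right fun h hh => ?_
      rw [Finset.mem_erase] at hh
      exact hcop2 h hh.2 hh.1
    · left
      rw [K, ← Finset.mul_prod_erase (H.erase s) κ (Finset.mem_erase.2 ⟨fun h => hsh h.symm, hh₀⟩)]
        at hd
      have hd1 := (hcop3 s hs hsh).dvd_of_dvd_mul_left hd
      refine IsCoprime.dvd_of_dvd_mul_right ?_ hd1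
      refine IsCoprime.prod_right fun h hh => ?_
      rw [Finset.mem_erase, Finset.mem_erase] at hh
      exact hcop2 h hh.2.2 hh.1
  have hboth : (l : GaussianInt) ∣ κ h₀ ∧ (l : GaussianInt) ∣ star (κ h₀) := by
    rcases hfin with h | h
    · exact ⟨h, hstar _ h⟩
    · refine ⟨?_, h⟩
      have := hstar _ h
      rwa [star_star] at this
  exact unit_absurd hl ((h2 h₀ hh₀).isUnit_of_dvd' hboth.1 hboth.2)

end

/-- a prime that divides a product divides a factor of coprime complement -/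
theorem dvd_left_of {l : ℕ} {w r : GaussianInt} (h : (l : GaussianInt) ∣ w * r)
    (hr : IsCoprime (l : ℤ) r.norm) : (l : GaussianInt) ∣ w := by
  refine IsCoprime.dvd_of_dvd_mul_right ?_ h
  apply cop_of_norm
  rw [norm_nat]
  exact hr.pow_left

/-- `u` is not divisible by a prime number -/
theorem not_dvd_u {l : ℕ} (hl : l.Prime) {M N₀ : ℤ} (hM : Odd M) (hN₀ : Odd N₀)
    (hMN : IsCoprime M N₀) {a b : ℤ} (hab : IsCoprime a b) {k : GaussianInt}
    (hv : (⟨a, b⟩ : GaussianInt).norm = M) (hk : k.norm = N₀)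
    (hk2 : ¬ (l : GaussianInt) ∣ k) :
    ¬ (l : GaussianInt) ∣ (⟨1, 1⟩ * ⟨a, b⟩ * k) := by
  intro hd
  have hlp : Prime (l : ℤ) := Nat.prime_iff_prime_int.1 hl
  have h2 : (⟨1, 1⟩ : GaussianInt).norm = 2 := by
    rw [Zsqrtd.norm_def]; norm_num
  have hnorm : (l : ℤ) ^ 2 ∣ 2 * M * N₀ := by
    obtain ⟨c, hc⟩ := hd
    have := congrArg Zsqrtd.norm hc
    rw [Zsqrtd.norm_mul, Zsqrtd.norm_mul, Zsqrtd.norm_mul, h2, hv, hk, norm_nat] at this
    exact ⟨_, this⟩
  have hodd : IsCoprime (2 : ℤ) (M * N₀) := by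
    rw [Int.isCoprime_iff_gcd_eq_one]
    have h5 : Odd (M * N₀) := hM.mul hN₀
    rcases h5 with ⟨t, ht⟩
    rw [ht]
    have : Int.gcd 2 (2 * t + 1) = 1 := by
      rw [← Int.isCoprime_iff_gcd_eq_one]
      exact ⟨-t, 1, by ring⟩
    exact this
  have hl1 : (l : ℤ) ∣ 2 * M * N₀ := (dvd_pow_self _ two_ne_zero).trans hnorm
  rcases hlp.dvd_or_dvd hl1 with h | h
  · rcases hlp.dvd_or_dvd h with h | h
    · -- l = 2
      have hl2 : l = 2 := (Nat.prime_dvd_prime_iff_eq hl Nat.prime_two).1 (by exact_mod_cast h)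
      subst hl2
      have h6 : (2 : ℤ) * 2 ∣ 2 * (M * N₀) := by
        have h7 := hnorm
        rw [mul_assoc 2 M N₀, sq] at h7
        exact_mod_cast h7
      have h8 : (2 : ℤ) ∣ M * N₀ := (mul_dvd_mul_iff_left (by norm_num)).1 h6
      have h9 : IsUnit (2 : ℤ) := hodd.isUnit_of_dvd' dvd_rfl h8
      rw [Int.isUnit_iff] at h9
      omega
    · -- l divides M
      have hc1 : IsCoprime (l : ℤ) (2 * N₀) := by
        refine IsCoprime.of_isCoprime_of_dvd_left ?_ h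
        exact ((hodd.of_mul_right_left).symm).mul_right hMN
      have hd2 : (l : GaussianInt) ∣ ⟨a, b⟩ * (⟨1, 1⟩ * k) := by
        have : (⟨a, b⟩ : GaussianInt) * (⟨1, 1⟩ * k) = ⟨1, 1⟩ * ⟨a, b⟩ * k := by ring
        rwa [this]
      have hd3 := dvd_left_of hd2 (by rw [Zsqrtd.norm_mul, h2, hk]; exact hc1)
      have hd4 : ((l : ℤ) : GaussianInt) ∣ ⟨a, b⟩ := by exact_mod_cast hd3
      rw [Zsqrtd.intCast_dvd] at hd4
      exact hlp.not_unit (hab.isUnit_of_dvd' hd4.1 hd4.2)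
  · have hc1 : IsCoprime (l : ℤ) (2 * M) := by
      refine IsCoprime.of_isCoprime_of_dvd_left ?_ h
      exact ((hodd.of_mul_right_right).symm).mul_right hMN.symm
    have hd2 : (l : GaussianInt) ∣ k * (⟨1, 1⟩ * ⟨a, b⟩) := by
      rwa [mul_comm k]
    exact hk2 (dvd_left_of hd2 (by rw [Zsqrtd.norm_mul, h2, hv]; exact hc1))

/-- the Gaussian integers of given norm are finitely many -/
theorem finite_norm (M : ℤ) : {u : GaussianInt | u.norm = M}.Finite := by
  have hfin : (Set.Icc (-|M|) |M| ×ˢ Set.Icc (-|M|) |M| : Set (ℤ × ℤ)).Finite :=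
    (Set.finite_Icc _ _).prod (Set.finite_Icc _ _)
  refine Set.Finite.of_finite_image (f := fun u : GaussianInt => (u.re, u.im)) (hfin.subset ?_) ?_
  · rintro _ ⟨u, hu, rfl⟩
    have hu' : u.norm = M := hu
    have h1 : u.re * u.re + u.im * u.im = M := by
      rw [← hu', Zsqrtd.norm_def]; ring
    have hM : 0 ≤ M := by nlinarith
    rw [abs_of_nonneg hM]
    simp only [Set.mem_prod, Set.mem_Icc]
    have key : ∀ x : ℤ, x * x ≤ M → -M ≤ x ∧ x ≤ M := by
      intro x hx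
      constructor
      · by_contra hc
        push Not at hc
        nlinarith
      · by_contra hc
        push Not at hc
        nlinarith
    exact ⟨key _ (by nlinarith [mul_self_nonneg u.im]), key _ (by nlinarith [mul_self_nonneg u.re])⟩
  · intro u _ w _ h
    simp only [Prod.mk.injEq] at h
    exact Zsqrtd.ext h.1 h.2

/-- the switching condition modulo `p` -/
theorem im_dvd {p : ℕ} (hp : p.Prime) (g s k : GaussianInt)
    (hs : ¬ (p : ℤ) ∣ s.norm) (hk : ((g * star s ^ 2).im : ZMod p) = 0)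
    (u : GaussianInt) (hu : u * ((s.norm : ℤ) : GaussianInt) = g * star s ^ 2) :
    (p : ℤ) ∣ u.im := by
  have _ := k
  have h1 : (p : ℤ) ∣ (g * star s ^ 2).im := (ZMod.intCast_zmod_eq_zero_iff_dvd _ p).1 hk
  rw [← hu] at h1
  have h2 : (u * ((s.norm : ℤ) : GaussianInt)).im = u.im * s.norm := by
    simp [Zsqrtd.im_mul]
  rw [h2] at h1
  exact ((Nat.prime_iff_prime_int.1 hp).dvd_or_dvd h1).resolve_right hs

end hOB

open hOB in
theorem hOB (hKF : StKF) (hHN : StHN) (hLL : StLL) : StOB := by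
  classical
  intro p z₁ z₂ hp hp2 him hz₁
  haveI : Fact p.Prime := ⟨hp⟩
  haveI : NeZero p := ⟨hp.ne_zero⟩
  obtain ⟨κ, hκ, hκ2⟩ := hKF p hp hp2
  obtain ⟨hinj, hlat⟩ := hLL p z₁ z₂ hp him hz₁
  have hpp : Prime (p : ℤ) := Nat.prime_iff_prime_int.1 hp
  obtain ⟨H, hHm⟩ : ∃ H : Finset (ZMod p × ZMod p), ∀ h, h ∈ H ↔ h.1 ^ 2 + h.2 ^ 2 ≠ 0 :=
    ⟨Finset.univ.filter (fun h => h.1 ^ 2 + h.2 ^ 2 ≠ 0), fun h => by simp⟩
  have h1 : ∀ h ∈ H, 1 < (κ h).norm := fun h hh => (hκ h ((hHm h).1 hh)).2.2.2.1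
  have h1o : ∀ h ∈ H, Odd (κ h).norm := fun h hh => (hκ h ((hHm h).1 hh)).2.2.1
  have h2 : ∀ h ∈ H, IsCoprime (κ h) (star (κ h)) := fun h hh => (hκ h ((hHm h).1 hh)).2.2.2.2
  have h3 : ∀ h ∈ H, ∀ h' ∈ H, h ≠ h' → IsCoprime (κ h).norm (κ h').norm :=
    fun h hh h' hh' hne => hκ2 h h' ((hHm h).1 hh) ((hHm h').1 hh') hne
  have hpn : ∀ h ∈ H, ¬ (p : ℤ) ∣ (κ h).norm := by
    intro h hh hd
    obtain ⟨e1, e2, -⟩ := hκ h ((hHm h).1 hh)
    apply (hHm h).1 hh
    have h5 := (ZMod.intCast_zmod_eq_zero_iff_dvd (κ h).norm p).2 hd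
    rw [Zsqrtd.norm_def] at h5
    push_cast at h5
    rw [e1, e2] at h5
    linear_combination h5
  obtain ⟨N₀, hN₀⟩ : ∃ N₀ : ℕ, (N₀ : ℤ) = ∏ h ∈ H, (κ h).norm :=
    ⟨(∏ h ∈ H, (κ h).norm).toNat, Int.toNat_of_nonneg
      (Finset.prod_nonneg fun h hh => by have := h1 h hh; omega)⟩
  have hoddZ : Odd (N₀ : ℤ) := by
    rw [hN₀]
    exact Finset.prod_induction _ Odd (fun a b ha hb => ha.mul hb) odd_one h1o
  have hodd : Odd N₀ := by exact_mod_cast hoddZ
  have hpos : 0 < N₀ := hodd.pos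
  have hpN₀ : ¬ p ∣ N₀ := by
    intro hd
    have h4 : (p : ℤ) ∣ ∏ h ∈ H, (κ h).norm := by
      rw [← hN₀]
      exact_mod_cast hd
    obtain ⟨h, hh, hd⟩ := (Prime.dvd_finset_prod_iff hpp _).1 h4
    exact hpn h hh hd
  have hp2' : ¬ p ∣ 2 := fun h => hp2 ((Nat.prime_dvd_prime_iff_eq hp Nat.prime_two).1 h)
  have hp4 : ¬ p ∣ 4 := fun h => hp2' ((hp.dvd_mul (m := 2) (n := 2)).1 h |>.elim id id)
  have hcop : Nat.Coprime (4 * N₀) p := by
    rw [Nat.coprime_comm, hp.coprime_iff_not_dvd]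
    intro h
    rcases hp.dvd_mul.1 h with h | h
    · exact hp4 h
    · exact hpN₀ h
  have hz₁n : ((z₁.norm.natAbs : ℕ) : ℤ) = z₁.norm :=
    Int.natAbs_of_nonneg (GaussianInt.norm_nonneg z₁)
  have hz₁p : ¬ p ∣ z₁.norm.natAbs := fun h => hz₁ (by
    rw [← hz₁n]
    exact_mod_cast h)
  obtain ⟨m₁, hm4, hmp⟩ := Nat.chineseRemainder hcop 1 (2 * z₁.norm.natAbs * N₀)
  have hnp : ¬ p ∣ 2 * z₁.norm.natAbs * N₀ := by
    intro h
    rcases hp.dvd_mul.1 h with h | h
    · rcases hp.dvd_mul.1 h with h | h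
      · exact hp2' h
      · exact hz₁p h
    · exact hpN₀ h
  have hm₁p : ¬ p ∣ m₁ := fun h => hnp ((hmp.dvd_iff dvd_rfl).1 h)
  have hcm : Nat.Coprime m₁ (4 * N₀) := by
    have h5 := hm4.gcd_eq
    rw [Nat.gcd_one_left] at h5
    exact h5
  have hcm2 : Nat.Coprime m₁ (4 * N₀ * p) :=
    Nat.Coprime.mul_right hcm (Nat.coprime_comm.1 ((hp.coprime_iff_not_dvd).2 hm₁p))
  have hm14 : m₁ % 4 = 1 := by
    have h5 : m₁ ≡ 1 [MOD 4] := hm4.of_mul_right _
    exact h5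
  refine ⟨2 * N₀, 4 * N₀ * p, m₁, ?_, ?_, ?_⟩
  · refine ⟨hp, hp2, by omega, ?_, ?_, ?_, ?_, hcm2, hm14, ?_⟩
    · intro h
      rcases hp.dvd_mul.1 h with h | h
      · exact hp2' h
      · exact hpN₀ h
    · exact ⟨N₀ * p, by ring⟩
    · have := hp.pos
      have h6 : 0 < 4 * N₀ * p := by positivity
      omega
    · exact dvd_mul_left _ _
    · -- coprimality
      have hpo : Odd (p : ℤ) := by
        exact_mod_cast hp.odd_of_ne_two hp2
      have hcNp : IsCoprime (N₀ : ℤ) (p : ℤ) := by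
        have h7 : Nat.Coprime N₀ p := Nat.coprime_comm.1 ((hp.coprime_iff_not_dvd).2 hpN₀)
        exact Nat.isCoprime_iff_coprime.2 h7
      have hA : IsCoprime ((((2 * N₀ : ℕ) : ℤ) * m₁ - p)) (2 : ℤ) := by
        obtain ⟨t, ht⟩ := hpo
        refine ⟨-1, (N₀ : ℤ) * m₁ - t, ?_⟩
        push_cast
        rw [ht]
        ring
      have hB : IsCoprime ((((2 * N₀ : ℕ) : ℤ) * m₁ - p)) (N₀ : ℤ) := by
        obtain ⟨a, b, hab⟩ := hcNp
        refine ⟨-b, 2 * m₁ * b + a, ?_⟩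
        push_cast
        linear_combination hab
      have hC : IsCoprime ((((2 * N₀ : ℕ) : ℤ) * m₁ - p)) (p : ℤ) := by
        have h7 : Nat.Coprime (2 * N₀ * m₁) p := by
          rw [Nat.coprime_comm, hp.coprime_iff_not_dvd]
          intro h
          rcases hp.dvd_mul.1 h with h | h
          · rcases hp.dvd_mul.1 h with h | h
            · exact hp2' h
            · exact hpN₀ h
          · exact hm₁p h
        obtain ⟨a, b, hab⟩ := Nat.isCoprime_iff_coprime.2 h7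
        refine ⟨a, a + b, ?_⟩
        push_cast at hab ⊢
        linear_combination hab
      have h8 : (((4 * N₀ * p : ℕ)) : ℤ) = 2 * 2 * N₀ * p := by
        push_cast
        ring
      rw [h8]
      exact ((hA.mul_right hA).mul_right hB).mul_right hC
  · intro l _ hl
    exact hl.trans ⟨2 * p, by ring⟩
  · intro m hm
    have hmm : m ≡ m₁ [MOD 4 * N₀ * p] := hm
    have hm4' : m ≡ 1 [MOD 4 * N₀] := (hmm.of_mul_right _).trans hm4
    have hmp' : m ≡ 2 * z₁.norm.natAbs * N₀ [MOD p] := (hmm.of_mul_left _).trans hmp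
    have hmodd : Odd m := by
      have h5 : m ≡ 1 [MOD 4] := hm4'.of_mul_right _
      have h6 : m % 4 = 1 := h5
      rw [Nat.odd_iff]
      omega
    have hmoddZ : Odd (m : ℤ) := by exact_mod_cast hmodd
    have hcmN : Nat.Coprime m (4 * N₀) := by
      have h5 := hm4'.gcd_eq
      rw [Nat.gcd_one_left] at h5
      exact h5
    have hcmNZ : IsCoprime (m : ℤ) (N₀ : ℤ) :=
      Nat.isCoprime_iff_coprime.2 (Nat.Coprime.coprime_mul_left_right hcmN)
    have hmZ : ((m : ℕ) : ZMod p) = 2 * (z₁.norm : ZMod p) * (N₀ : ZMod p) := by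
      rw [(ZMod.natCast_eq_natCast_iff _ _ p).2 hmp']
      push_cast
      congr 2
      rw [← Int.cast_natCast z₁.norm.natAbs, hz₁n]
    have hm0 : ((m : ℕ) : ZMod p) ≠ 0 := by
      intro h
      rw [ZMod.natCast_eq_zero_iff] at h
      exact hnp ((hmp'.dvd_iff dvd_rfl).1 h)
    have h11 : (⟨1, 1⟩ : GaussianInt).norm = 2 := by
      rw [Zsqrtd.norm_def]
      norm_num
    -- the switched vectors
    have key : ∀ v' : ℤ × ℤ, v'.1 ^ 2 + v'.2 ^ 2 = m ∧ IsCoprime v'.1 v'.2 →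
        ∃ (s : ZMod p × ZMod p) (v : ℤ × ℤ), s ∈ H ∧ IsCoprime v.1 v.2 ∧
          zz z₁ z₂ v = ⟨1, 1⟩ * ⟨v'.1, v'.2⟩ * K κ H s := by
      rintro ⟨a, b⟩ ⟨hab, hc⟩
      simp only at hab hc ⊢
      have hnab : (⟨a, b⟩ : GaussianInt).norm = m := by
        rw [Zsqrtd.norm_def, ← hab]
        ring
      set g : GaussianInt := ⟨1, 1⟩ * ⟨a, b⟩ * star z₁ * ∏ h ∈ H, κ h with hg
      have hgn : g.norm = 2 * m * z₁.norm * N₀ := by
        rw [hg, Zsqrtd.norm_mul, Zsqrtd.norm_mul, Zsqrtd.norm_mul, h11, hnab, norm_star',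
          norm_prodG, hN₀]
      have hxy : ((g.re : ℤ) : ZMod p) ^ 2 + ((g.im : ℤ) : ZMod p) ^ 2 =
          ((m : ℕ) : ZMod p) * ((m : ℕ) : ZMod p) := by
        have h5 : ((g.norm : ℤ) : ZMod p) = ((g.re : ℤ) : ZMod p) ^ 2 + ((g.im : ℤ) : ZMod p) ^ 2 := by
          rw [Zsqrtd.norm_def]
          push_cast
          ring
        rw [← h5, hgn]
        push_cast
        rw [hmZ]
        ring
      obtain ⟨s, t, hst, heq⟩ := hHN p hp hp2 _ _ (by rw [hxy]; exact mul_ne_zero hm0 hm0)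
        (by rw [hxy]; exact ⟨_, rfl⟩)
      have hsH : (s, t) ∈ H := (hHm (s, t)).2 hst
      obtain ⟨e1, e2, -⟩ := hκ (s, t) hst
      simp only at e1 e2
      have him2 : (((g * star (κ (s, t)) ^ 2).im : ℤ) : ZMod p) = 0 := by
        have h6 : (g * star (κ (s, t)) ^ 2).im =
            g.im * ((κ (s, t)).re ^ 2 - (κ (s, t)).im ^ 2) -
              2 * g.re * (κ (s, t)).re * (κ (s, t)).im := by
          rw [sq]
          simp only [Zsqrtd.im_mul, Zsqrtd.re_mul, Zsqrtd.re_star, Zsqrtd.im_star]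
          ring
        rw [h6]
        push_cast
        rw [e1, e2]
        exact heq
      have hu := K_mul κ H hsH
      have hdvd : (p : ℤ) ∣ (star z₁ * (⟨1, 1⟩ * ⟨a, b⟩ * K κ H (s, t))).im := by
        refine im_dvd hp g (κ (s, t)) 0 (hpn _ hsH) him2 _ ?_
        have h7 : star z₁ * (⟨1, 1⟩ * ⟨a, b⟩ * K κ H (s, t)) *
            (((κ (s, t)).norm : ℤ) : GaussianInt) =
            star z₁ * (⟨1, 1⟩ * ⟨a, b⟩) * (K κ H (s, t) *
              (((κ (s, t)).norm : ℤ) : GaussianInt)) := by ring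
        rw [h7, hu, hg]
        ring
      obtain ⟨v, hv, hvc⟩ := hlat _ hdvd
      refine ⟨(s, t), v, hsH, hvc ?_, hv⟩
      intro l hl
      exact not_dvd_u hl hmoddZ hoddZ hcmNZ hc hnab (by rw [norm_K κ H hsH, hN₀])
        (fun h => not_dvd_K κ H hsH h2 h3 hl h)
    choose! σ f hσ hfc hf using key
    have hTf : {v : ℤ × ℤ | IsCoprime v.1 v.2 ∧
        (zz z₁ z₂ v).norm = ((2 * N₀ * m : ℕ) : ℤ)}.Finite := by
      refine Set.Finite.of_finite_image (f := zz z₁ z₂)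
        ((finite_norm ((2 * N₀ * m : ℕ) : ℤ)).subset ?_) ?_
      · rintro _ ⟨v, hv, rfl⟩
        exact hv.2
      · intro v _ w _ h
        exact hinj v w h
    rw [rp]
    refine Set.ncard_le_ncard_of_injOn f ?_ ?_ hTf
    · intro v' hv'
      refine ⟨hfc v' hv', ?_⟩
      rw [hf v' hv', Zsqrtd.norm_mul, Zsqrtd.norm_mul, h11, norm_K κ H (hσ v' hv'), ← hN₀]
      have hnab : (⟨v'.1, v'.2⟩ : GaussianInt).norm = m := by
        rw [Zsqrtd.norm_def, ← hv'.1]
        ring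
      rw [hnab]
      push_cast
      ring
    · intro a ha b hb hab
      have h12 : (⟨1, 1⟩ : GaussianInt) * ⟨a.1, a.2⟩ * K κ H (σ a) =
          ⟨1, 1⟩ * ⟨b.1, b.2⟩ * K κ H (σ b) := by
        rw [← hf a ha, ← hf b hb, hab]
      have h110 : (⟨1, 1⟩ : GaussianInt) ≠ 0 := by
        intro h
        rw [h] at h11
        simp at h11
      rw [mul_assoc, mul_assoc] at h12
      have h13 := mul_left_cancel₀ h110 h12
      have hna : (⟨a.1, a.2⟩ : GaussianInt).norm = m := by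
        rw [Zsqrtd.norm_def, ← ha.1]
        ring
      have hs : σ a = σ b := by
        refine K_inj κ H (hσ a ha) (hσ b hb) (h1 _ (hσ a ha)) (h2 _ (hσ a ha))
          (fun h hh hne => h3 _ (hσ a ha) h hh hne.symm) _ _ ?_ h13
        rw [hna, ← hN₀]
        exact hcmNZ
      rw [← hs] at h13
      have hK0 : K κ H (σ a) ≠ 0 := by
        intro h
        have h14 := norm_K κ H (hσ a ha)
        rw [h, ← hN₀] at h14
        simp at h14
        omega
      have h15 := mul_right_cancel₀ hK0 h13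
      have h16 := congrArg Zsqrtd.re h15
      have h17 := congrArg Zsqrtd.im h15
      exact Prod.ext h16 h17

end Pool.Agent.Helper15.AB
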