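import Mathlib
import Pool.Agent.Helper15.AB.StKl

/-!
# Project AB: module OF (pairs over different circles)
-/

set_option autoImplicit false

namespace Pool.Agent.Helper15.AB

namespace hOF

open Finset

/-- sums and differences of the coordinates of a pair -/
def vv (u : GaussianInt × GaussianInt) : Fin 4 → ℤ :=
  ![u.1.re - u.2.re, u.1.re + u.2.re, u.1.im - u.2.im, u.1.im + u.2.im]

theorem vv_inj : Function.Injective vv := by
  intro u v h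
  have h0 := congrFun h 0
  have h1 := congrFun h 1
  have h2 := congrFun h 2
  have h3 := congrFun h 3
  simp only [vv, Matrix.cons_val] at h0 h1 h2 h3
  refine Prod.ext (Zsqrtd.ext ?_ ?_) (Zsqrtd.ext ?_ ?_) <;> omega

theorem lat_im (a : ℕ) (z u : GaussianInt) (h : Lat a z u) :
    (a : ℤ) ∣ z.re * u.im - z.im * u.re := by
  unfold Lat at h
  have h1 : (star z * u).im = z.re * u.im - z.im * u.re := by
    rw [Zsqrtd.im_mul]
    simp
    ring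
  rwa [h1] at h

theorem not_dvd_sub {a b : ℕ} (ha : a.Prime) (hb : b.Prime) (h : a ≠ b) :
    ¬ (a : ℤ) ∣ (a : ℤ) - b := by
  intro h1
  have h2 : (a : ℤ) ∣ b := by
    have h3 := dvd_sub (dvd_refl (a : ℤ)) h1
    rwa [sub_sub_cancel] at h3
  exact h ((Nat.prime_dvd_prime_iff_eq ha hb).1 (Int.natCast_dvd_natCast.1 h2))

end hOF

open Finset in
theorem hOF (hLC : StLC) : StOF := by
  obtain ⟨C, hC, hmain⟩ := hLC
  refine ⟨4 * C, by linarith, ?_⟩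
  intro T a₁ a₂ z₁ z₂ hT ha₁ ha₂ h1 h2 h12 hz₁ hz₂
  have hnd : ∀ u : GaussianInt, u.norm = u.re * u.re + u.im * u.im := by
    intro u
    rw [Zsqrtd.norm_def]; ring
  set Y : ℕ := ⌊2 * √T⌋₊ with hY
  have hsq : 1 ≤ √T := by rw [Real.one_le_sqrt]; exact hT
  have hYle : (Y : ℝ) ≤ 2 * √T := Nat.floor_le (by positivity)
  have hY1 : 1 ≤ Y := by
    rw [hY]
    apply Nat.le_floor
    push_cast
    linarith
  set h : ℤ := (a₁ : ℤ) - a₂ with hh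
  have hh0 : h ≠ 0 := by
    rw [hh, sub_ne_zero]
    exact_mod_cast h12
  have hd₁ : ¬ (a₁ : ℤ) ∣ h := hOF.not_dvd_sub ha₁ ha₂ h12
  have hd₂ : ¬ (a₂ : ℤ) ∣ h := by
    have h3 := hOF.not_dvd_sub ha₂ ha₁ h12.symm
    rw [hh]
    intro h4
    apply h3
    have h5 := (dvd_neg (a := (a₂ : ℤ))).2 h4
    rwa [neg_sub] at h5
  set l₁ : Fin 4 → ℤ := ![-z₁.im, -z₁.im, z₁.re, z₁.re] with hl₁
  set l₂ : Fin 4 → ℤ := ![z₂.im, -z₂.im, -z₂.re, z₂.re] with hl₂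
  have hl₁' : ∃ i, ¬ (a₁ : ℤ) ∣ l₁ i := by
    by_contra hcon
    push Not at hcon
    apply hz₁
    have e0 := hcon 0
    have e2 := hcon 2
    simp only [hl₁, Matrix.cons_val] at e0 e2
    exact ⟨e2, (dvd_neg).1 e0⟩
  have hl₂' : ∃ i, ¬ (a₂ : ℤ) ∣ l₂ i := by
    by_contra hcon
    push Not at hcon
    apply hz₂
    have e0 := hcon 0
    have e3 := hcon 3
    simp only [hl₂, Matrix.cons_val] at e0 e3
    exact ⟨e3, e0⟩
  have hLC := hmain Y a₁ a₂ h l₁ l₂ hY1 ha₁ ha₂ h1 h2 h12 hh0 hd₁ hd₂ hl₁' hl₂'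
  set TS : Set (Fin 4 → ℤ) := {v : Fin 4 → ℤ | (∀ i, |v i| ≤ Y) ∧ v 0 * v 1 + v 2 * v 3 = h ∧
      (a₁ : ℤ) ∣ l₁ 0 * v 0 + l₁ 1 * v 1 + l₁ 2 * v 2 + l₁ 3 * v 3 ∧
      (a₂ : ℤ) ∣ l₂ 0 * v 0 + l₂ 1 * v 1 + l₂ 2 * v 2 + l₂ 3 * v 3} with hTS
  have hfin : TS.Finite := by
    refine (Set.finite_Icc (fun _ : Fin 4 => -(Y : ℤ)) (fun _ => (Y : ℤ))).subset ?_
    rintro v ⟨hv, -⟩
    exact ⟨fun i => (abs_le.1 (hv i)).1, fun i => (abs_le.1 (hv i)).2⟩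
  have hle : (Set.ncard {u : GaussianInt × GaussianInt | (u.1.norm : ℝ) ≤ T ∧ (u.2.norm : ℝ) ≤ T ∧
      Lat a₁ z₁ u.1 ∧ Lat a₂ z₂ u.2 ∧ u.1.norm - a₁ = u.2.norm - a₂}) ≤ TS.ncard := by
    refine Set.ncard_le_ncard_of_injOn hOF.vv ?_ (hOF.vv_inj.injOn) hfin
    rintro u ⟨hu1, hu2, hL1, hL2, hN⟩
    have habs : ∀ x y : ℤ, ((x * x : ℤ) : ℝ) ≤ T → ((y * y : ℤ) : ℝ) ≤ T →
        |x + y| ≤ (Y : ℤ) ∧ |x - y| ≤ (Y : ℤ) := by
      intro x y hx hy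
      have e1 : |(x : ℝ)| ≤ √T := by
        apply Real.abs_le_sqrt
        push_cast at hx
        rw [pow_two]; exact hx
      have e2 : |(y : ℝ)| ≤ √T := by
        apply Real.abs_le_sqrt
        push_cast at hy
        rw [pow_two]; exact hy
      have e3 : ∀ w : ℤ, |(w : ℝ)| ≤ 2 * √T → |w| ≤ (Y : ℤ) := by
        intro w hw
        have e4 : ((w.natAbs : ℕ) : ℝ) ≤ 2 * √T := by
          rw [Nat.cast_natAbs]
          push_cast
          exact hw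
        have e5 : w.natAbs ≤ Y := Nat.le_floor e4
        rw [Int.abs_eq_natAbs]
        exact_mod_cast e5
      constructor
      · apply e3
        push_cast
        exact (abs_add_le _ _).trans (by linarith)
      · apply e3
        push_cast
        exact (abs_sub _ _).trans (by linarith)
    have hr1 : ((u.1.re * u.1.re : ℤ) : ℝ) ≤ T := by
      refine le_trans ?_ hu1
      have : u.1.re * u.1.re ≤ u.1.norm := by rw [hnd]; nlinarith [mul_self_nonneg u.1.im]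
      exact_mod_cast this
    have hi1 : ((u.1.im * u.1.im : ℤ) : ℝ) ≤ T := by
      refine le_trans ?_ hu1
      have : u.1.im * u.1.im ≤ u.1.norm := by rw [hnd]; nlinarith [mul_self_nonneg u.1.re]
      exact_mod_cast this
    have hr2 : ((u.2.re * u.2.re : ℤ) : ℝ) ≤ T := by
      refine le_trans ?_ hu2
      have : u.2.re * u.2.re ≤ u.2.norm := by rw [hnd]; nlinarith [mul_self_nonneg u.2.im]
      exact_mod_cast this
    have hi2 : ((u.2.im * u.2.im : ℤ) : ℝ) ≤ T := by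
      refine le_trans ?_ hu2
      have : u.2.im * u.2.im ≤ u.2.norm := by rw [hnd]; nlinarith [mul_self_nonneg u.2.re]
      exact_mod_cast this
    refine ⟨?_, ?_, ?_, ?_⟩
    · intro i
      fin_cases i
      · exact (habs _ _ hr1 hr2).2
      · exact (habs _ _ hr1 hr2).1
      · exact (habs _ _ hi1 hi2).2
      · exact (habs _ _ hi1 hi2).1
    · change (u.1.re - u.2.re) * (u.1.re + u.2.re) + (u.1.im - u.2.im) * (u.1.im + u.2.im) = h
      rw [hnd, hnd] at hN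
      rw [hh]
      linarith
    · change (a₁ : ℤ) ∣ -z₁.im * (u.1.re - u.2.re) + -z₁.im * (u.1.re + u.2.re) +
        z₁.re * (u.1.im - u.2.im) + z₁.re * (u.1.im + u.2.im)
      have e := hOF.lat_im a₁ z₁ u.1 hL1
      have e' := Dvd.dvd.mul_left e 2
      have e'' : -z₁.im * (u.1.re - u.2.re) + -z₁.im * (u.1.re + u.2.re) +
        z₁.re * (u.1.im - u.2.im) + z₁.re * (u.1.im + u.2.im) =
        2 * (z₁.re * u.1.im - z₁.im * u.1.re) := by ring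
      rw [e'']
      exact e'
    · change (a₂ : ℤ) ∣ z₂.im * (u.1.re - u.2.re) + -z₂.im * (u.1.re + u.2.re) +
        -z₂.re * (u.1.im - u.2.im) + z₂.re * (u.1.im + u.2.im)
      have e := hOF.lat_im a₂ z₂ u.2 hL2
      have e' := Dvd.dvd.mul_left e 2
      have e'' : z₂.im * (u.1.re - u.2.re) + -z₂.im * (u.1.re + u.2.re) +
        -z₂.re * (u.1.im - u.2.im) + z₂.re * (u.1.im + u.2.im) =
        2 * (z₂.re * u.2.im - z₂.im * u.2.re) := by ring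
      rw [e'']
      exact e'
  have hle' : (Set.ncard {u : GaussianInt × GaussianInt | (u.1.norm : ℝ) ≤ T ∧
      (u.2.norm : ℝ) ≤ T ∧ Lat a₁ z₁ u.1 ∧ Lat a₂ z₂ u.2 ∧
      u.1.norm - a₁ = u.2.norm - a₂} : ℝ) ≤ TS.ncard := by exact_mod_cast hle
  refine hle'.trans (hLC.trans ?_)
  have ha₁' : (1 : ℝ) ≤ a₁ := by exact_mod_cast ha₁.one_le
  have ha₂' : (1 : ℝ) ≤ a₂ := by exact_mod_cast ha₂.one_le
  have hY0 : (0 : ℝ) ≤ Y := Nat.cast_nonneg _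
  have hTT : √T * √T = T := Real.mul_self_sqrt (by linarith)
  have hY2 : (Y : ℝ) ^ 2 ≤ 4 * T := by
    calc (Y : ℝ) ^ 2 ≤ (2 * √T) ^ 2 := by gcongr
      _ = 4 * (√T * √T) := by ring
      _ = 4 * T := by rw [hTT]
  have hY95 : (Y : ℝ) ^ (9 / 5 : ℝ) ≤ 4 * T ^ (9 / 10 : ℝ) := by
    calc (Y : ℝ) ^ (9 / 5 : ℝ) ≤ (2 * √T) ^ (9 / 5 : ℝ) := by gcongr
      _ = 2 ^ (9 / 5 : ℝ) * (√T) ^ (9 / 5 : ℝ) := by
          rw [Real.mul_rpow (by norm_num) (Real.sqrt_nonneg _)]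
      _ = 2 ^ (9 / 5 : ℝ) * T ^ (9 / 10 : ℝ) := by
          rw [Real.sqrt_eq_rpow, ← Real.rpow_mul (by linarith)]
          norm_num
      _ ≤ 4 * T ^ (9 / 10 : ℝ) := by
          have : (2 : ℝ) ^ (9 / 5 : ℝ) ≤ 4 := by
            calc (2 : ℝ) ^ (9 / 5 : ℝ) ≤ (2 : ℝ) ^ (2 : ℝ) :=
                  Real.rpow_le_rpow_of_exponent_le (by norm_num) (by norm_num)
              _ = 4 := by norm_num
          gcongr
  have hhab : |(h : ℝ)| ≤ a₁ * a₂ := by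
    rw [hh]
    push_cast
    rw [abs_le]
    constructor <;> nlinarith
  have hpow : ((a₁ : ℝ) * a₂ * |(h : ℝ)|) ^ 5 ≤ ((a₁ : ℝ) * a₂) ^ 10 := by
    calc ((a₁ : ℝ) * a₂ * |(h : ℝ)|) ^ 5 ≤ ((a₁ : ℝ) * a₂ * (a₁ * a₂)) ^ 5 := by gcongr
      _ = ((a₁ : ℝ) * a₂) ^ 10 := by ring
  have hsum : 0 ≤ ∑ d ∈ h.natAbs.divisors, (1 : ℝ) / d :=
    Finset.sum_nonneg fun d _ => by positivity
  have hT0 : 0 ≤ T := by linarith
  calc C * ((Y : ℝ) ^ 2 / (a₁ * a₂) * ∑ d ∈ h.natAbs.divisors, (1 : ℝ) / d +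
        (Y : ℝ) ^ (9 / 5 : ℝ) * (a₁ * a₂ * |(h : ℝ)|) ^ 5)
      ≤ C * ((4 * T) / (a₁ * a₂) * ∑ d ∈ h.natAbs.divisors, (1 : ℝ) / d +
        (4 * T ^ (9 / 10 : ℝ)) * ((a₁ : ℝ) * a₂) ^ 10) := by gcongr
    _ = 4 * C * (T / (a₁ * a₂) * ∑ d ∈ h.natAbs.divisors, (1 : ℝ) / d +
        T ^ (9 / 10 : ℝ) * ((a₁ : ℝ) * a₂) ^ 10) := by ring

end Pool.Agent.Helper15.AB
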