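import Mathlib
import Pool.Agent.Helper15.AB.StBV

/-!
Project AB, module OR: orthogonality of the Dirichlet characters.
-/

set_option autoImplicit false

namespace Pool.Agent.Helper15.AB

open Finset ArithmeticFunction

namespace OR

lemma conj_char {r : ℕ} (χ : DirichletCharacter ℂ r) {b : ZMod r} (hb : IsUnit b) :
    (starRingEnd ℂ) (χ b) = χ b⁻¹ := by
  have h := MulChar.star_apply' χ b
  rw [RCLike.star_def] at h
  rw [h]
  have h1 : χ b * χ b⁻¹ = 1 := by
    rw [← map_mul, ZMod.mul_inv_of_unit b hb, map_one]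
  have h2 : χ b * χ⁻¹ b = 1 := by
    rw [← MulChar.mul_apply, mul_inv_cancel, MulChar.one_apply hb]
  have h3 : χ b ≠ 0 := fun h0 => by rw [h0, zero_mul] at h1; exact zero_ne_one h1
  exact mul_left_cancel₀ h3 (h2.trans h1.symm)

end OR

open OR in
/-- module OR -/
theorem hOR : StOR := by
  classical
  intro w x q _ b hb
  have hq : 0 < q := Nat.pos_of_ne_zero (NeZero.ne q)
  have hφ : (Nat.totient q : ℂ) ≠ 0 := by
    exact_mod_cast (Nat.totient_pos.2 hq).ne'
  have hu : IsUnit (b : ZMod q) := by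
    obtain ⟨u, v, huv⟩ := hb
    apply IsUnit.of_mul_eq_one_right (u : ZMod q)
    have := congrArg (Int.cast : ℤ → ZMod q) huv
    push_cast at this
    rw [ZMod.natCast_self, mul_zero, add_zero] at this
    exact this
  symm
  calc 1 / (Nat.totient q : ℂ) * ∑ χ : DirichletCharacter ℂ q,
        (starRingEnd ℂ) (χ (b : ZMod q)) * TT w x (fun n => χ (n : ZMod q))
      = 1 / (Nat.totient q : ℂ) * ∑ χ : DirichletCharacter ℂ q, ∑ n ∈ Icc 1 ⌊3 * x⌋₊,
        ((Λ n * w (Real.log (n / x)) : ℝ) : ℂ) * (χ (b : ZMod q)⁻¹ * χ (n : ZMod q)) := by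
        congr 1
        refine sum_congr rfl fun χ _ => ?_
        rw [TT, mul_sum]
        refine sum_congr rfl fun n _ => ?_
        rw [conj_char χ hu]
        ring
    _ = 1 / (Nat.totient q : ℂ) * ∑ n ∈ Icc 1 ⌊3 * x⌋₊,
        ((Λ n * w (Real.log (n / x)) : ℝ) : ℂ) *
          (if (b : ZMod q) = (n : ZMod q) then (Nat.totient q : ℂ) else 0) := by
        rw [sum_comm]
        congr 1
        refine sum_congr rfl fun n _ => ?_
        rw [← mul_sum, DirichletCharacter.sum_char_inv_mul_char_eq ℂ hu]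
    _ = ∑ n ∈ Icc 1 ⌊3 * x⌋₊, (if (q : ℤ) ∣ (n : ℤ) - b then
          ((Λ n * w (Real.log (n / x)) : ℝ) : ℂ) else 0) := by
        rw [mul_sum]
        refine sum_congr rfl fun n _ => ?_
        have e : ((b : ZMod q) = (n : ZMod q)) ↔ (q : ℤ) ∣ (n : ℤ) - b := by
          rw [← ZMod.intCast_eq_intCast_iff_dvd_sub, Int.cast_natCast]
        by_cases h : (q : ℤ) ∣ (n : ℤ) - b
        · rw [if_pos h, if_pos (e.2 h)]
          field_simp
        · rw [if_neg h, if_neg (fun h' => h (e.1 h'))]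
          simp
    _ = _ := by
        rw [sum_filter]

end Pool.Agent.Helper15.AB
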