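import Mathlib
import Pool.Agent.Helper15.AB.StBV
import Pool.Agent.Helper90.MT.A13a

/-!
# Module PH: sums of `1 / φ(q)`
-/

set_option autoImplicit false

namespace Pool.Agent.Helper15.AB

open Finset ArithmeticFunction MeasureTheory

namespace hPH

/-- weights of the squarefree divisors -/
noncomputable def g (d : ℕ) : ℝ :=
  if Squarefree d then ∏ p ∈ d.primeFactors, (1 : ℝ) / ((p : ℝ) - 1) else 0

theorem pf (p : ℕ) (hp : p.Prime) : (0 : ℝ) < (p : ℝ) - 1 := by
  have : (2 : ℝ) ≤ p := by exact_mod_cast hp.two_le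
  linarith

theorem g_nonneg (d : ℕ) : 0 ≤ g d := by
  unfold g
  split_ifs
  · refine prod_nonneg fun p hp => ?_
    have := pf p (Nat.prime_of_mem_primeFactors hp)
    positivity
  · exact le_rfl

theorem castprod (s : Finset ℕ) : ∏ p ∈ s, (p : ℝ) = ((∏ p ∈ s, p : ℕ) : ℝ) := by
  push_cast
  rfl

/-- `q / φ(q)` as a sum over divisors -/
theorem ratio (q : ℕ) (hq : 1 ≤ q) : (q : ℝ) / (Nat.totient q : ℝ) ≤ ∑ d ∈ q.divisors, g d := by
  have hφ : (0 : ℝ) < (Nat.totient q : ℝ) := by exact_mod_cast Nat.totient_pos.2 hq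
  have hpr : ∀ t ∈ q.primeFactors.powerset, ∀ p ∈ t, p.Prime := by
    intro t ht p hp
    exact Nat.prime_of_mem_primeFactors (mem_powerset.mp ht hp)
  have hinj : Set.InjOn (fun t : Finset ℕ => ∏ p ∈ t, p)
      (q.primeFactors.powerset : Set (Finset ℕ)) := by
    intro t ht t' ht' h
    have h1 := congrArg Nat.primeFactors h
    simp only [] at h1
    rw [Nat.primeFactors_prod (hpr t ht), Nat.primeFactors_prod (hpr t' ht')] at h1
    exact h1
  have e1 : (q : ℝ) / (Nat.totient q : ℝ) =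
      ∏ p ∈ q.primeFactors, (1 / ((p : ℝ) - 1) + 1) := by
    have h1 := Nat.totient_mul_prod_primeFactors q
    have h2 : (Nat.totient q : ℝ) * ∏ p ∈ q.primeFactors, (p : ℝ) =
        q * ∏ p ∈ q.primeFactors, ((p : ℝ) - 1) := by
      have h3 : ((∏ p ∈ q.primeFactors, (p - 1) : ℕ) : ℝ) =
          ∏ p ∈ q.primeFactors, ((p : ℝ) - 1) := by
        push_cast
        refine prod_congr rfl fun p hp => ?_
        rw [Nat.cast_sub (Nat.prime_of_mem_primeFactors hp).one_lt.le, Nat.cast_one]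
      rw [← h3, castprod, ← Nat.cast_mul, ← Nat.cast_mul, h1]
    have h4 : 0 < ∏ p ∈ q.primeFactors, ((p : ℝ) - 1) :=
      prod_pos fun p hp => pf p (Nat.prime_of_mem_primeFactors hp)
    have h5 : ∏ p ∈ q.primeFactors, (1 / ((p : ℝ) - 1) + 1) =
        (∏ p ∈ q.primeFactors, (p : ℝ)) / ∏ p ∈ q.primeFactors, ((p : ℝ) - 1) := by
      rw [← prod_div_distrib]
      refine prod_congr rfl fun p hp => ?_
      have := pf p (Nat.prime_of_mem_primeFactors hp)
      field_simp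
      ring
    rw [h5, div_eq_div_iff hφ.ne' h4.ne']
    linarith
  rw [e1, prod_add]
  calc ∑ t ∈ q.primeFactors.powerset, (∏ p ∈ t, 1 / ((p : ℝ) - 1)) * ∏ p ∈ q.primeFactors \ t, 1
      = ∑ t ∈ q.primeFactors.powerset, g (∏ p ∈ t, p) := by
        refine sum_congr rfl fun t ht => ?_
        rw [prod_const_one, mul_one]
        unfold g
        have hs : Squarefree (∏ p ∈ t, p) := by
          refine Finset.squarefree_prod_of_pairwise_isCoprime ?_ fun p hp =>
            (hpr t ht p hp).squarefree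
          intro p hp p' hp' hne
          exact Nat.coprime_iff_isRelPrime.1
            ((Nat.coprime_primes (hpr t ht p hp) (hpr t ht p' hp')).2 hne)
        rw [if_pos hs, Nat.primeFactors_prod (hpr t ht)]
    _ = ∑ d ∈ q.primeFactors.powerset.image (fun t => ∏ p ∈ t, p), g d := by
        rw [sum_image hinj]
    _ ≤ ∑ d ∈ q.divisors, g d := by
        refine sum_le_sum_of_subset_of_nonneg ?_ fun d _ _ => g_nonneg d
        intro d hd
        obtain ⟨t, ht, rfl⟩ := mem_image.mp hd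
        rw [Nat.mem_divisors]
        refine ⟨?_, by omega⟩
        exact (prod_dvd_prod_of_subset _ _ _ (mem_powerset.mp ht)).trans
          (Nat.prod_primeFactors_dvd q)

theorem tele (Q : ℕ) (hQ : 1 ≤ Q) : ∑ n ∈ Icc 2 Q, (1 : ℝ) / (n * (n - 1)) ≤ 1 - 1 / Q := by
  induction Q, hQ using Nat.le_induction with
  | base => simp
  | succ Q hQ ih =>
    rw [Finset.sum_Icc_succ_top (by omega)]
    have h1 : (1 : ℝ) ≤ Q := by exact_mod_cast hQ
    have h2 : (1 : ℝ) / (((Q + 1 : ℕ) : ℝ) * (((Q + 1 : ℕ) : ℝ) - 1)) =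
        1 / Q - 1 / ((Q + 1 : ℕ) : ℝ) := by
      have e : ((Q + 1 : ℕ) : ℝ) - 1 = Q := by
        push_cast
        ring
      have hQ0 : (Q : ℝ) ≠ 0 := by linarith
      have hQ1 : ((Q + 1 : ℕ) : ℝ) ≠ 0 := by positivity
      have e2 : ((Q + 1 : ℕ) : ℝ) - Q = 1 := by
        push_cast
        ring
      rw [e, div_sub_div _ _ hQ0 hQ1, one_mul, mul_one, e2, mul_comm]
    rw [h2]
    linarith

theorem sum_g (Q : ℕ) (hQ : 1 ≤ Q) : ∑ d ∈ Icc 1 Q, g d / d ≤ 3 := by
  set S : Finset ℕ := (Icc 2 Q).filter Nat.Prime with hS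
  set f : ℕ → ℝ := fun p => 1 / ((p : ℝ) * ((p : ℝ) - 1)) with hf
  have hf0 : ∀ n ∈ Icc 2 Q, 0 ≤ f n := by
    intro n hn
    rw [mem_Icc] at hn
    have : (2 : ℝ) ≤ n := by exact_mod_cast hn.1
    have h1 : 0 < (n : ℝ) - 1 := by linarith
    rw [hf]
    positivity
  have h1 : ∑ d ∈ Icc 1 Q, g d / d ≤ ∑ d ∈ (Icc 1 Q).filter Squarefree, ∏ p ∈ d.primeFactors, f p := by
    rw [sum_filter]
    refine sum_le_sum fun d hd => ?_
    rw [mem_Icc] at hd
    unfold g
    split_ifs with h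
    · have e : (d : ℝ) = ∏ p ∈ d.primeFactors, (p : ℝ) := by
        rw [castprod, Nat.prod_primeFactors_of_squarefree h]
      have e2 : (∏ p ∈ d.primeFactors, 1 / ((p : ℝ) - 1)) / (d : ℝ) =
          ∏ p ∈ d.primeFactors, f p := by
        rw [e, ← prod_div_distrib]
        refine prod_congr rfl fun p _ => ?_
        rw [hf]
        simp only
        rw [div_div, mul_comm]
      exact e2.le
    · rw [zero_div]
  have hinj : Set.InjOn (fun d : ℕ => d.primeFactors)
      (((Icc 1 Q).filter Squarefree : Finset ℕ) : Set ℕ) := by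
    intro d hd d' hd' h
    have h2 := Nat.prod_primeFactors_of_squarefree (mem_filter.1 hd).2
    have h3 := Nat.prod_primeFactors_of_squarefree (mem_filter.1 hd').2
    simp only [] at h
    rw [← h2, ← h3, h]
  have h2 : ∑ d ∈ (Icc 1 Q).filter Squarefree, ∏ p ∈ d.primeFactors, f p ≤
      ∑ t ∈ S.powerset, ∏ p ∈ t, f p := by
    rw [← sum_image (f := fun t : Finset ℕ => ∏ p ∈ t, f p) hinj]
    refine sum_le_sum_of_subset_of_nonneg ?_ ?_
    · intro t ht
      obtain ⟨d, hd, rfl⟩ := mem_image.mp ht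
      rw [mem_powerset]
      intro p hp
      rw [mem_filter, mem_Icc] at hd
      rw [hS, mem_filter, mem_Icc]
      have hpp := Nat.prime_of_mem_primeFactors hp
      refine ⟨⟨hpp.two_le, le_trans (Nat.le_of_dvd (by omega) (Nat.dvd_of_mem_primeFactors hp))
        hd.1.2⟩, hpp⟩
    · intro t ht _
      rw [mem_powerset] at ht
      refine prod_nonneg fun p hp => hf0 p ?_
      exact (mem_filter.1 (ht hp)).1
  have h3 : ∑ t ∈ S.powerset, ∏ p ∈ t, f p = ∏ p ∈ S, (f p + 1) := by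
    rw [prod_add]
    refine sum_congr rfl fun t _ => ?_
    rw [prod_const_one, mul_one]
  have h4 : ∏ p ∈ S, (f p + 1) ≤ Real.exp (∑ p ∈ S, f p) := by
    rw [Real.exp_sum]
    refine prod_le_prod (fun p hp => ?_) fun p _ => Real.add_one_le_exp _
    have := hf0 p (mem_filter.1 hp).1
    linarith
  have h5 : ∑ p ∈ S, f p ≤ 1 := by
    have e1 : ∑ p ∈ S, f p ≤ ∑ p ∈ Icc 2 Q, f p :=
      sum_le_sum_of_subset_of_nonneg (filter_subset _ _) fun p hp _ => hf0 p hp
    have e2 := tele Q hQ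
    have e3 : (0 : ℝ) ≤ 1 / Q := by positivity
    have e4 : ∑ p ∈ Icc 2 Q, f p = ∑ n ∈ Icc 2 Q, (1 : ℝ) / (n * (n - 1)) := rfl
    linarith
  have h6 : Real.exp (∑ p ∈ S, f p) ≤ 3 := by
    have e1 := Real.exp_le_exp.2 h5
    have e2 := Real.exp_one_lt_d9
    linarith
  linarith

/-- all moduli -/
theorem all (Q : ℕ) (hQ : 1 ≤ Q) :
    ∑ k ∈ Icc 1 Q, 1 / (Nat.totient k : ℝ) ≤ 3 * (1 + Real.log Q) := by
  have hH : ∑ e ∈ Icc 1 Q, 1 / (e : ℝ) ≤ 1 + Real.log Q := by
    have h1 := harmonic_le_one_add_log Q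
    rw [harmonic_eq_sum_Icc] at h1
    push_cast at h1
    have h2 : ∑ e ∈ Icc 1 Q, 1 / (e : ℝ) = ∑ e ∈ Icc 1 Q, ((e : ℝ))⁻¹ :=
      sum_congr rfl fun e _ => one_div _
    rw [h2]
    exact h1
  calc ∑ k ∈ Icc 1 Q, 1 / (Nat.totient k : ℝ) ≤ ∑ k ∈ Icc 1 Q, (∑ d ∈ k.divisors, g d) / k := by
        refine sum_le_sum fun k hk => ?_
        rw [mem_Icc] at hk
        have hk0 : (0 : ℝ) < k := by exact_mod_cast hk.1
        have hφ : (0 : ℝ) < (Nat.totient k : ℝ) := by exact_mod_cast Nat.totient_pos.2 hk.1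
        rw [le_div_iff₀ hk0]
        refine le_trans (le_of_eq ?_) (ratio k hk.1)
        ring
    _ ≤ (∑ d ∈ Icc 1 Q, g d / d) * ∑ e ∈ Icc 1 Q, 1 / (e : ℝ) :=
        Pool.Agent.Helper90.MT.a13a_conv g g_nonneg Q
    _ ≤ 3 * (1 + Real.log Q) := by
        have h0 : 0 ≤ ∑ e ∈ Icc 1 Q, 1 / (e : ℝ) := sum_nonneg fun e _ => by positivity
        exact mul_le_mul (sum_g Q hQ) hH h0 (by norm_num)

end hPH

theorem hPH : StPH := by
  refine ⟨3, by norm_num, ?_⟩
  intro Q r hQ hr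
  have hinj : Set.InjOn (fun e : ℕ => r * e) (Icc 1 Q : Set ℕ) := by
    intro e _ e' _ h
    exact Nat.eq_of_mul_eq_mul_left hr h
  have hφr : (0 : ℝ) < (Nat.totient r : ℝ) := by exact_mod_cast Nat.totient_pos.2 hr
  calc ∑ q ∈ (Icc 1 Q).filter (fun q => r ∣ q), 1 / (Nat.totient q : ℝ)
      ≤ ∑ q ∈ (Icc 1 Q).image (fun e => r * e), 1 / (Nat.totient q : ℝ) := by
        refine sum_le_sum_of_subset_of_nonneg ?_ fun q _ _ => by positivity
        intro q hq
        rw [mem_filter, mem_Icc] at hq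
        obtain ⟨⟨hq1, hq2⟩, e, rfl⟩ := hq
        refine mem_image.mpr ⟨e, ?_, rfl⟩
        rw [mem_Icc]
        have he : 0 < e := Nat.pos_of_mul_pos_left hq1
        refine ⟨he, le_trans ?_ hq2⟩
        exact Nat.le_mul_of_pos_left e hr
    _ = ∑ e ∈ Icc 1 Q, 1 / (Nat.totient (r * e) : ℝ) := by
        rw [sum_image hinj]
    _ ≤ ∑ e ∈ Icc 1 Q, 1 / (Nat.totient r : ℝ) * (1 / (Nat.totient e : ℝ)) := by
        refine sum_le_sum fun e he => ?_
        rw [mem_Icc] at he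
        have hφe : (0 : ℝ) < (Nat.totient e : ℝ) := by exact_mod_cast Nat.totient_pos.2 he.1
        have h1 : (Nat.totient r : ℝ) * Nat.totient e ≤ Nat.totient (r * e) := by
          exact_mod_cast Nat.totient_super_multiplicative r e
        rw [one_div_mul_one_div]
        exact one_div_le_one_div_of_le (by positivity) h1
    _ = 1 / (Nat.totient r : ℝ) * ∑ e ∈ Icc 1 Q, 1 / (Nat.totient e : ℝ) := by rw [mul_sum]
    _ ≤ 1 / (Nat.totient r : ℝ) * (3 * (1 + Real.log Q)) :=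
        mul_le_mul_of_nonneg_left (hPH.all Q hQ) (by positivity)
    _ = 3 * (1 + Real.log Q) / (Nat.totient r : ℝ) := by ring

end Pool.Agent.Helper15.AB
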