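import Mathlib
import Pool.Agent.Helper15.AB.StBV
import Pool.Agent.Helper90.MT.A3i

/-!
# AB module PK: sums `ψ Λ log^k`
-/

set_option autoImplicit false

namespace Pool.Agent.Helper15.AB

open Finset ArithmeticFunction MeasureTheory

theorem one_le_LL_PK (r : ℕ) [NeZero r] (s : ℂ) : 1 ≤ LL r s := by
  unfold LL
  have hr : (1 : ℝ) ≤ r := by
    exact_mod_cast Nat.one_le_iff_ne_zero.2 (NeZero.ne r)
  have h0 := abs_nonneg s.im
  rw [Real.le_log_iff_exp_le (by positivity)]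
  have h1 := Real.exp_one_lt_d9
  nlinarith

theorem dl_pos_PK {r : ℕ} [NeZero r] (ψ : DirichletCharacter ℂ r) (h : ψ ≠ 1) : 0 < dl ψ := by
  unfold dl
  split_ifs with h1
  · refine lt_min one_pos ?_
    rw [norm_pos_iff]
    exact DirichletCharacter.LFunction_apply_one_ne_zero h
  · exact one_pos

theorem dl_le_one_PK {r : ℕ} [NeZero r] (ψ : DirichletCharacter ℂ r) : dl ψ ≤ 1 := by
  unfold dl
  split_ifs with h1
  · exact min_le_left _ _
  · exact le_rfl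

theorem hPK (hDJ : StDJ) (hLW : StLW) : StPK := by
  obtain ⟨c, hc, hLW⟩ := hLW
  choose CA hCA hA using hDJ
  intro k
  induction k using Nat.strong_induction_on with
  | _ k ih =>
  have ih' : ∀ i : ℕ, ∃ C : ℝ, 0 < C ∧ (i < k → ∀ (r : ℕ) [NeZero r]
      (ψ : DirichletCharacter ℂ r) (s : ℂ), ψ ≠ 1 → 1 < s.re → s.re ≤ 2 →
      ‖LSeries (fun n => ψ (n : ZMod r) * ((Λ n : ℝ) : ℂ) * ((Real.log n : ℝ) : ℂ) ^ i) s‖ ≤
        C * LL r s ^ (16 * (i + 1)) / dl ψ ^ (i + 1)) := by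
    intro i
    by_cases h : i < k
    · obtain ⟨C, hC, hm⟩ := ih i h
      exact ⟨C, hC, fun _ => hm⟩
    · exact ⟨1, one_pos, fun h' => absurd h' h⟩
  choose CD hCD hD using ih'
  set S : ℝ := CA (k + 1) + ∑ i ∈ range k, (k.choose i : ℝ) * CD i * CA (k - i) with hS
  have hS0 : 0 < S := by
    have : 0 ≤ ∑ i ∈ range k, (k.choose i : ℝ) * CD i * CA (k - i) :=
      sum_nonneg fun i _ => mul_nonneg (mul_nonneg (Nat.cast_nonneg _) (hCD i).le) (hCA _).le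
    have := hCA (k + 1)
    linarith
  refine ⟨S / c, div_pos hS0 hc, ?_⟩
  intro r _ ψ s hψ hs1 hs2
  set Y : ℝ := LL r s with hY
  have hY1 : 1 ≤ Y := one_le_LL_PK r s
  set δ : ℝ := dl ψ with hδ
  have hδ0 : 0 < δ := dl_pos_PK ψ hψ
  have hδ1 : δ ≤ 1 := dl_le_one_PK ψ
  have hLj : ∀ j : ℕ, ‖LSeries (Helper90.MT.Lk ψ j) s‖ ≤ CA j * Y ^ (j + 1) := fun j =>
    hA j r ψ s hψ hs1 hs2
  have hDi : ∀ i : ℕ, LSeries (Helper90.MT.Dk ψ i) s =
      LSeries (fun n => ψ (n : ZMod r) * ((Λ n : ℝ) : ℂ) * ((Real.log n : ℝ) : ℂ) ^ i) s := by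
    intro i
    congr 1
    funext n
    unfold Helper90.MT.Dk
    ring
  have hL0 : c * δ / Y ^ 12 ≤ ‖LSeries (Helper90.MT.Lk ψ 0) s‖ := by
    have h1 := hLW r ψ s hψ hs1 hs2
    have h2 : Helper90.MT.Lk ψ 0 = fun n : ℕ => ψ (n : ZMod r) := by
      funext n
      unfold Helper90.MT.Lk
      simp
    rw [h2]
    exact h1
  have hY0 : 0 < Y := by linarith
  have hid := Helper90.MT.a3i r ψ k s hs1
  rw [sum_range_succ, Nat.choose_self, Nat.sub_self, Nat.cast_one, one_mul] at hid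
  have hDL : LSeries (Helper90.MT.Dk ψ k) s * LSeries (Helper90.MT.Lk ψ 0) s =
      LSeries (Helper90.MT.Lk ψ (k + 1)) s -
      ∑ i ∈ range k, (k.choose i : ℂ) * LSeries (Helper90.MT.Dk ψ i) s *
        LSeries (Helper90.MT.Lk ψ (k - i)) s := by
    rw [hid]
    ring
  have hδk : 0 < δ ^ k := pow_pos hδ0 _
  have hbound : ‖LSeries (Helper90.MT.Dk ψ k) s‖ * ‖LSeries (Helper90.MT.Lk ψ 0) s‖ ≤
      S * Y ^ (16 * k + 4) / δ ^ k := by
    rw [← norm_mul, hDL]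
    refine (norm_sub_le _ _).trans ?_
    have e1 : ‖LSeries (Helper90.MT.Lk ψ (k + 1)) s‖ ≤ CA (k + 1) * Y ^ (16 * k + 4) / δ ^ k := by
      refine (hLj (k + 1)).trans ?_
      rw [le_div_iff₀ hδk]
      have h1 : Y ^ (k + 1 + 1) ≤ Y ^ (16 * k + 4) := pow_le_pow_right₀ hY1 (by omega)
      have h2 : δ ^ k ≤ 1 := pow_le_one₀ hδ0.le hδ1
      have h3 := hCA (k + 1)
      calc CA (k + 1) * Y ^ (k + 1 + 1) * δ ^ k ≤ CA (k + 1) * Y ^ (16 * k + 4) * 1 := by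
            gcongr
        _ = _ := mul_one _
    have e2 : ‖∑ i ∈ range k, (k.choose i : ℂ) * LSeries (Helper90.MT.Dk ψ i) s *
        LSeries (Helper90.MT.Lk ψ (k - i)) s‖ ≤
        (∑ i ∈ range k, (k.choose i : ℝ) * CD i * CA (k - i)) * Y ^ (16 * k + 4) / δ ^ k := by
      rw [sum_mul, sum_div]
      refine (norm_sum_le _ _).trans (sum_le_sum fun i hi => ?_)
      have hik : i < k := mem_range.1 hi
      rw [norm_mul, norm_mul, Complex.norm_natCast]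
      have f1 := hD i hik r ψ s hψ hs1 hs2
      rw [← hDi i] at f1
      have f2 := hLj (k - i)
      have f4 : Y ^ (16 * (i + 1)) * Y ^ (k - i + 1) ≤ Y ^ (16 * k + 4) := by
        rw [← pow_add]
        exact pow_le_pow_right₀ hY1 (by omega)
      have f7 : δ ^ k ≤ δ ^ (i + 1) := pow_le_pow_of_le_one hδ0.le hδ1 (by omega)
      have f5 : ‖LSeries (Helper90.MT.Dk ψ i) s‖ * ‖LSeries (Helper90.MT.Lk ψ (k - i)) s‖ ≤
          (CD i * Y ^ (16 * (i + 1)) / δ ^ (i + 1)) * (CA (k - i) * Y ^ (k - i + 1)) :=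
        mul_le_mul f1 f2 (norm_nonneg _) (div_nonneg
          (mul_nonneg (hCD i).le (pow_nonneg (by linarith) _)) (pow_nonneg hδ0.le _))
      have f6 : (CD i * Y ^ (16 * (i + 1)) / δ ^ (i + 1)) * (CA (k - i) * Y ^ (k - i + 1)) ≤
          CD i * CA (k - i) * Y ^ (16 * k + 4) / δ ^ k := by
        have h1 : (CD i * Y ^ (16 * (i + 1)) / δ ^ (i + 1)) * (CA (k - i) * Y ^ (k - i + 1)) =
            (CD i * CA (k - i)) * (Y ^ (16 * (i + 1)) * Y ^ (k - i + 1)) / δ ^ (i + 1) := by ring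
        rw [h1]
        have h2 := hCD i
        have h3 := hCA (k - i)
        gcongr
      calc (k.choose i : ℝ) * ‖LSeries (Helper90.MT.Dk ψ i) s‖ *
            ‖LSeries (Helper90.MT.Lk ψ (k - i)) s‖
          = (k.choose i : ℝ) * (‖LSeries (Helper90.MT.Dk ψ i) s‖ *
            ‖LSeries (Helper90.MT.Lk ψ (k - i)) s‖) := by ring
        _ ≤ (k.choose i : ℝ) * (CD i * CA (k - i) * Y ^ (16 * k + 4) / δ ^ k) :=
            mul_le_mul_of_nonneg_left (f5.trans f6) (Nat.cast_nonneg _)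
        _ = _ := by ring
    calc _ ≤ CA (k + 1) * Y ^ (16 * k + 4) / δ ^ k +
          (∑ i ∈ range k, (k.choose i : ℝ) * CD i * CA (k - i)) * Y ^ (16 * k + 4) / δ ^ k :=
            add_le_add e1 e2
      _ = S * Y ^ (16 * k + 4) / δ ^ k := by rw [hS]; ring
  have h4 : ‖LSeries (Helper90.MT.Dk ψ k) s‖ * (c * δ / Y ^ 12) ≤
      S * Y ^ (16 * k + 4) / δ ^ k :=
    (mul_le_mul_of_nonneg_left hL0 (norm_nonneg _)).trans hbound
  rw [← hDi k]
  have hY12 : 0 < Y ^ 12 := pow_pos hY0 _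
  have h5 : ‖LSeries (Helper90.MT.Dk ψ k) s‖ ≤
      (S * Y ^ (16 * k + 4) / δ ^ k) / (c * δ / Y ^ 12) := by
    rw [le_div_iff₀ (by positivity)]
    exact h4
  refine h5.trans (le_of_eq ?_)
  have h6 : Y ^ (16 * (k + 1)) = Y ^ (16 * k + 4) * Y ^ 12 := by
    rw [← pow_add]
    congr 1
  have h7 : δ ^ (k + 1) = δ ^ k * δ := pow_succ _ _
  rw [h6, h7]
  generalize Y ^ (16 * k + 4) = a
  generalize Y ^ 12 = b at hY12 ⊢
  generalize δ ^ k = d at hδk ⊢
  field_simp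

end Pool.Agent.Helper15.AB
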