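import Mathlib
import Pool.Agent.Helper15.AB.StMid
import Pool.Agent.Helper15.AB.StKl

/-!
# Module PQ (MP_37d0ef_nt): bound for the sum over `P Q ≡ h (mod R)`
-/

set_option autoImplicit false

namespace Pool.Agent.Helper15.AB

open Finset

namespace hPQ

/-! ### Additive characters -/

theorem ee_add (s t : ℝ) : ee (s + t) = ee s * ee t := by
  unfold ee
  rw [← Complex.exp_add]
  congr 1
  push_cast
  ring

theorem ee_int (n : ℤ) : ee n = 1 := by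
  unfold ee
  have h := Complex.exp_int_mul_two_pi_mul_I n
  rw [← h]
  congr 1
  push_cast
  ring

theorem ee_pow (t : ℝ) (j : ℕ) : ee (j * t) = ee t ^ j := by
  unfold ee
  rw [← Complex.exp_nat_mul]
  congr 1
  push_cast
  ring

theorem ee_norm (t : ℝ) : ‖ee t‖ = 1 := by
  unfold ee
  have h : (2 * (Real.pi : ℂ) * (t : ℂ) * Complex.I) = ((2 * Real.pi * t : ℝ) : ℂ) * Complex.I := by
    push_cast; ring
  rw [h, Complex.norm_exp_ofReal_mul_I]

theorem ee_congr (r : ℕ) (hr : 1 ≤ r) (a b : ℤ) (h : (r : ℤ) ∣ a - b) :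
    ee ((a : ℝ) / r) = ee ((b : ℝ) / r) := by
  obtain ⟨k, hk⟩ := h
  have hr0 : (r : ℝ) ≠ 0 := by
    have : (0 : ℝ) < r := by exact_mod_cast hr
    exact this.ne'
  have h1 : (a : ℝ) / r = b / r + k := by
    have h2 : (a : ℝ) = b + r * k := by
      have h3 : a = b + r * k := by linarith
      exact_mod_cast h3
    rw [h2]
    field_simp
  rw [h1, ee_add, ee_int, mul_one]

theorem ee_eq_one (d : ℕ) (hd : 1 ≤ d) (β : ℤ) (h : ee ((β : ℝ) / d) = 1) : (d : ℤ) ∣ β := by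
  unfold ee at h
  obtain ⟨n, hn⟩ := Complex.exp_eq_one_iff.1 h
  have hd0 : (d : ℂ) ≠ 0 := by
    have : d ≠ 0 := by omega
    exact_mod_cast this
  have h1 : (((β : ℝ) / d : ℝ) : ℂ) = n := by
    have h2 : (2 * (Real.pi : ℂ) * Complex.I) ≠ 0 := Complex.two_pi_I_ne_zero
    have h3 : (((β : ℝ) / d : ℝ) : ℂ) * (2 * (Real.pi : ℂ) * Complex.I) =
        n * (2 * (Real.pi : ℂ) * Complex.I) := by
      rw [← hn]; ring
    exact mul_right_cancel₀ h2 h3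
  refine ⟨n, ?_⟩
  push_cast at h1
  rw [div_eq_iff hd0] at h1
  have h4 : (β : ℂ) = ((d * n : ℤ) : ℂ) := by
    rw [h1]; push_cast; ring
  exact_mod_cast h4

theorem geom (d : ℕ) (hd : 1 ≤ d) (β : ℤ) :
    ∑ j ∈ range d, ee ((β : ℝ) / d) ^ j = if (d : ℤ) ∣ β then (d : ℂ) else 0 := by
  have hd0 : (d : ℝ) ≠ 0 := by
    have : (0 : ℝ) < d := by exact_mod_cast hd
    exact this.ne'
  split_ifs with h
  · obtain ⟨b, rfl⟩ := h
    have h1 : ee ((((d : ℤ) * b : ℤ) : ℝ) / d) = 1 := by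
      rw [← ee_int b]
      congr 1
      push_cast
      field_simp
    rw [h1]
    simp
  · have h1 : ee ((β : ℝ) / d) ≠ 1 := fun h2 => h (ee_eq_one d hd β h2)
    rw [geom_sum_eq h1, ← ee_pow]
    have h2 : (d : ℝ) * ((β : ℝ) / d) = (β : ℤ) := by field_simp
    rw [h2, ee_int, sub_self, zero_div]

/-! ### The structure of the sum -/

theorem sum_range_mul (F : ℕ → ℂ) (d r : ℕ) :
    ∑ Q ∈ range (d * r), F Q = ∑ j ∈ range d, ∑ s ∈ range r, F (s + r * j) := by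
  induction d with
  | zero => simp
  | succ d ih =>
    rw [Nat.succ_mul, Finset.sum_range_add, ih, Finset.sum_range_succ]
    congr 1
    refine Finset.sum_congr rfl fun s _ => ?_
    congr 1
    ring

theorem inner_eq (d r u : ℕ) (hd : 1 ≤ d) (hr : 1 ≤ r) (hu : Nat.Coprime u r) (h' α β : ℤ) :
    ∑ Q ∈ (range (d * r)).filter (fun Q : ℕ => ((d * r : ℕ) : ℤ) ∣ ((d * u : ℕ) : ℤ) * Q - d * h'),
      ee ((α * (d * u : ℕ) + β * Q : ℤ) / ((d * r : ℕ) : ℝ)) =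
    if (d : ℤ) ∣ β then
      (d : ℂ) * ee ((α * u + (β / d * h') * ((u : ZMod r)⁻¹).val : ℤ) / (r : ℝ)) else 0 := by
  haveI : NeZero r := ⟨by omega⟩
  have hd0 : (d : ℝ) ≠ 0 := by
    have : (0 : ℝ) < d := by exact_mod_cast hd
    exact this.ne'
  have hr0 : (r : ℝ) ≠ 0 := by
    have : (0 : ℝ) < r := by exact_mod_cast hr
    exact this.ne'
  have hdZ : (d : ℤ) ≠ 0 := by
    have : d ≠ 0 := by omega
    exact_mod_cast this
  set s₀ := ((h' : ZMod r) * (u : ZMod r)⁻¹).val with hs₀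
  have hs₀r : s₀ < r := ZMod.val_lt _
  have huu : (u : ZMod r) * (u : ZMod r)⁻¹ = 1 := ZMod.coe_mul_inv_eq_one u hu
  have hs₀c : (s₀ : ZMod r) = (h' : ZMod r) * (u : ZMod r)⁻¹ := by
    rw [hs₀, ZMod.natCast_val, ZMod.cast_id', id]
  have hcond : ∀ s j : ℕ, (((d * r : ℕ) : ℤ) ∣ ((d * u : ℕ) : ℤ) * ((s + r * j : ℕ) : ℤ) - d * h') ↔
      (s : ZMod r) = (h' : ZMod r) * (u : ZMod r)⁻¹ := by
    intro s j
    have e : ((d * u : ℕ) : ℤ) * ((s + r * j : ℕ) : ℤ) - d * h' =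
        d * ((u : ℤ) * (s + r * j) - h') := by push_cast; ring
    rw [e, Nat.cast_mul, mul_dvd_mul_iff_left hdZ, ← ZMod.intCast_eq_intCast_iff_dvd_sub]
    push_cast
    rw [ZMod.natCast_self, zero_mul, add_zero]
    constructor
    · intro h
      rw [h, mul_comm (u : ZMod r), mul_assoc, huu, mul_one]
    · intro h
      rw [h, mul_comm (h' : ZMod r), ← mul_assoc, huu, one_mul]
  rw [Finset.sum_filter, sum_range_mul]
  have hin : ∀ j ∈ range d, ∑ s ∈ range r,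
      (if (((d * r : ℕ) : ℤ) ∣ ((d * u : ℕ) : ℤ) * ((s + r * j : ℕ) : ℤ) - d * h') then
        ee ((α * (d * u : ℕ) + β * ((s + r * j : ℕ) : ℤ) : ℤ) / ((d * r : ℕ) : ℝ)) else 0) =
      ee ((α * (d * u : ℕ) + β * s₀ : ℤ) / ((d * r : ℕ) : ℝ)) * ee ((β : ℝ) / d) ^ j := by
    intro j _
    rw [Finset.sum_eq_single s₀]
    · rw [if_pos ((hcond s₀ j).2 hs₀c), ← ee_pow, ← ee_add]
      congr 1
      push_cast
      field_simp
      ring
    · intro s hs hne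
      rw [if_neg]
      intro h
      have h2 := (hcond s j).1 h
      apply hne
      rw [← hs₀c] at h2
      have h3 := congrArg ZMod.val h2
      rwa [ZMod.val_cast_of_lt (Finset.mem_range.1 hs), ZMod.val_cast_of_lt hs₀r] at h3
    · intro h
      exact absurd (Finset.mem_range.2 hs₀r) h
  rw [Finset.sum_congr rfl hin, ← Finset.mul_sum, geom d hd β]
  split_ifs with hβ
  · obtain ⟨b, rfl⟩ := hβ
    rw [mul_comm, Int.mul_ediv_cancel_left _ hdZ]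
    congr 1
    have e : (((α * (d * u : ℕ) + (d : ℤ) * b * s₀ : ℤ) : ℝ) / ((d * r : ℕ) : ℝ)) =
        ((α * u + b * s₀ : ℤ) : ℝ) / r := by
      push_cast
      field_simp
    rw [e]
    apply ee_congr r hr
    have e2 : (α * u + b * s₀ : ℤ) - (α * u + (b * h') * ((u : ZMod r)⁻¹).val) =
        b * ((s₀ : ℤ) - h' * ((u : ZMod r)⁻¹).val) := by ring
    rw [e2]
    apply Dvd.dvd.mul_left
    rw [← ZMod.intCast_eq_intCast_iff_dvd_sub]
    push_cast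
    rw [hs₀c, ZMod.natCast_val, ZMod.cast_id', id]
  · rw [mul_zero]

theorem fibre (R d r : ℕ) (hR : R = d * r) (hR1 : 1 ≤ R) (F : ℕ → ℂ) :
    ∑ P ∈ (range R).filter (fun P => Nat.gcd P R = d), F P =
      ∑ u ∈ (range r).filter (fun u => Nat.Coprime u r), F (d * u) := by
  subst hR
  have hd : 0 < d := Nat.pos_of_mul_pos_right hR1
  symm
  refine Finset.sum_bij (fun u _ => d * u) ?_ ?_ ?_ (fun _ _ => rfl)
  · intro u hu
    rw [Finset.mem_filter, Finset.mem_range] at hu ⊢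
    refine ⟨Nat.mul_lt_mul_of_pos_left hu.1 hd, ?_⟩
    rw [Nat.gcd_mul_left, hu.2, mul_one]
  · intro a _ b _ hab
    exact Nat.eq_of_mul_eq_mul_left hd hab
  · intro P hP
    rw [Finset.mem_filter, Finset.mem_range] at hP
    have h1 : d ∣ P := by
      rw [← hP.2]
      exact Nat.gcd_dvd_left _ _
    obtain ⟨u, rfl⟩ := h1
    refine ⟨u, ?_, rfl⟩
    rw [Finset.mem_filter, Finset.mem_range]
    refine ⟨Nat.lt_of_mul_lt_mul_left hP.1, ?_⟩
    have h2 := hP.2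
    rw [Nat.gcd_mul_left] at h2
    exact Nat.eq_of_mul_eq_mul_left hd (by rw [h2, mul_one])

/-- the part of `KQ` with `gcd(P, R) = d` -/
theorem part_eq (R d r : ℕ) (hR : R = d * r) (hR1 : 1 ≤ R) (h α β : ℤ) :
    ∑ P ∈ (range R).filter (fun P => Nat.gcd P R = d),
      ∑ Q ∈ (range R).filter (fun Q : ℕ => (R : ℤ) ∣ (P : ℤ) * Q - h),
        ee ((α * P + β * Q : ℤ) / (R : ℝ)) =
    if (d : ℤ) ∣ h ∧ (d : ℤ) ∣ β then (d : ℂ) * Kl r α (β / d * (h / d)) else 0 := by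
  have hd : 0 < d := by
    rw [hR] at hR1
    exact Nat.pos_of_mul_pos_right hR1
  have hr : 0 < r := by
    rw [hR] at hR1
    exact Nat.pos_of_mul_pos_left hR1
  have hdZ : (d : ℤ) ≠ 0 := by
    have : d ≠ 0 := by omega
    exact_mod_cast this
  rw [fibre R d r hR hR1]
  subst hR
  by_cases hdh : (d : ℤ) ∣ h
  · obtain ⟨h', rfl⟩ := hdh
    rw [Int.mul_ediv_cancel_left _ hdZ]
    by_cases hβ : (d : ℤ) ∣ β
    · rw [if_pos ⟨Dvd.intro _ rfl, hβ⟩, Kl, Finset.mul_sum]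
      refine Finset.sum_congr rfl fun u hu => ?_
      rw [inner_eq d r u hd hr (Finset.mem_filter.1 hu).2 h' α β, if_pos hβ]
    · rw [if_neg (fun h => hβ h.2)]
      refine Finset.sum_eq_zero fun u hu => ?_
      rw [inner_eq d r u hd hr (Finset.mem_filter.1 hu).2 h' α β, if_neg hβ]
  · rw [if_neg (fun h => hdh h.1)]
    refine Finset.sum_eq_zero fun u hu => Finset.sum_eq_zero fun Q hQ => ?_
    exfalso
    have h1 := (Finset.mem_filter.1 hQ).2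
    apply hdh
    have h2 : (d : ℤ) ∣ ((d * u : ℕ) : ℤ) * Q - h := (Dvd.intro (r : ℤ) (by push_cast; ring)).trans h1
    have h3 : (d : ℤ) ∣ ((d * u : ℕ) : ℤ) * Q := ⟨u * Q, by push_cast; ring⟩
    have h4 := dvd_sub h3 h2
    rwa [sub_sub_cancel] at h4

theorem KQ_eq (R : ℕ) (hR1 : 1 ≤ R) (h α β : ℤ) :
    KQ R h α β = ∑ d ∈ R.divisors,
      if (d : ℤ) ∣ h ∧ (d : ℤ) ∣ β then (d : ℂ) * Kl (R / d) α (β / d * (h / d)) else 0 := by
  have h1 : KQ R h α β = ∑ P ∈ range R,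
      ∑ Q ∈ (range R).filter (fun Q : ℕ => (R : ℤ) ∣ (P : ℤ) * Q - h),
        ee ((α * P + β * Q : ℤ) / (R : ℝ)) := by
    unfold KQ
    rw [Finset.sum_filter, Finset.sum_product]
    refine Finset.sum_congr rfl fun P _ => ?_
    rw [Finset.sum_filter]
  rw [h1, ← Finset.sum_fiberwise_of_maps_to (s := range R) (t := R.divisors)
    (g := fun P => Nat.gcd P R)
    (fun P _ => Nat.mem_divisors.2 ⟨Nat.gcd_dvd_right _ _, by omega⟩)]
  refine Finset.sum_congr rfl fun d hd => ?_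
  exact part_eq R d (R / d) (Nat.mul_div_cancel' (Nat.dvd_of_mem_divisors hd)).symm hR1 h α β

/-! ### Bounds -/

theorem le_tot_mul (r : ℕ) : r ≤ Nat.totient r * r.divisors.card := by
  rcases Nat.eq_zero_or_pos r with h0 | h0
  · subst h0; simp
  · calc r = ∑ d ∈ r.divisors, Nat.totient d := (Nat.sum_totient r).symm
      _ ≤ ∑ d ∈ r.divisors, Nat.totient r := by
          refine Finset.sum_le_sum fun d hd => ?_
          exact Nat.le_of_dvd (Nat.totient_pos.2 h0)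
            (Nat.totient_dvd_of_dvd (Nat.dvd_of_mem_divisors hd))
      _ = _ := by rw [Finset.sum_const, smul_eq_mul, mul_comm]

theorem Kl_bound (hKB : StKB) (C : ℝ) (hC : 1 ≤ C)
    (hDB : ∀ n : ℕ, 1 ≤ n → (n.divisors.card : ℝ) ≤ C * (n : ℝ) ^ (0.04 : ℝ)) (r : ℕ) (hr : 1 ≤ r)
    (α β : ℤ) (g : ℝ) (hg1 : 1 ≤ g) (hg : (Int.gcd (Int.gcd α β) r : ℝ) ≤ g) :
    ‖Kl r α β‖ ≤ 2 * C ^ 3 * g * (r : ℝ) ^ (0.78 : ℝ) := by
  have hr0 : (0 : ℝ) < r := by exact_mod_cast hr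
  have h1 := hKB r α β hr
  set X := ‖Kl r α β‖ with hX
  have hX0 : 0 ≤ X := norm_nonneg _
  set τ := (r.divisors.card : ℝ) with hτ
  have hτ0 : 0 ≤ τ := Nat.cast_nonneg _
  have h2 : (r : ℝ) ≤ Nat.totient r * τ := by
    rw [hτ]
    exact_mod_cast le_tot_mul r
  have h3 := hDB r hr
  rw [← hτ] at h3
  have hCg : 1 ≤ 2 * C ^ 3 * g := by
    have : 1 ≤ C ^ 3 := one_le_pow₀ hC
    nlinarith
  have h4 : X ^ 4 * r ≤ 2 * g * r ^ 4 * (C * (r : ℝ) ^ (0.04 : ℝ)) ^ 3 := by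
    calc X ^ 4 * r ≤ X ^ 4 * (Nat.totient r * τ) := mul_le_mul_of_nonneg_left h2 (by positivity)
      _ = (X ^ 4 * Nat.totient r) * τ := by ring
      _ ≤ (2 * (Int.gcd (Int.gcd α β) r : ℝ) * r ^ 4 * τ ^ 2) * τ :=
          mul_le_mul_of_nonneg_right h1 hτ0
      _ = 2 * (Int.gcd (Int.gcd α β) r : ℝ) * r ^ 4 * τ ^ 3 := by ring
      _ ≤ 2 * g * r ^ 4 * (C * (r : ℝ) ^ (0.04 : ℝ)) ^ 3 := by gcongr
  have h5 : X ^ 4 ≤ (2 * C ^ 3 * g * (r : ℝ) ^ (0.78 : ℝ)) ^ 4 := by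
    have e1 : ((r : ℝ) ^ (0.04 : ℝ)) ^ 3 = (r : ℝ) ^ (0.12 : ℝ) := by
      rw [← Real.rpow_natCast, ← Real.rpow_mul hr0.le]
      norm_num
    have e2 : ((r : ℝ) ^ (0.78 : ℝ)) ^ 4 = (r : ℝ) ^ 3 * (r : ℝ) ^ (0.12 : ℝ) := by
      rw [← Real.rpow_natCast, ← Real.rpow_mul hr0.le, ← Real.rpow_natCast (r : ℝ) 3,
        ← Real.rpow_add hr0]
      norm_num
    have h6 : X ^ 4 * r ≤ (2 * C ^ 3 * g * (r : ℝ) ^ (0.78 : ℝ)) ^ 4 * r := by
      calc X ^ 4 * r ≤ 2 * g * r ^ 4 * (C * (r : ℝ) ^ (0.04 : ℝ)) ^ 3 := h4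
        _ = (2 * C ^ 3 * g) ^ 1 * ((r : ℝ) ^ 3 * (r : ℝ) ^ (0.12 : ℝ)) * r := by
            rw [mul_pow, e1]; ring
        _ ≤ (2 * C ^ 3 * g) ^ 4 * ((r : ℝ) ^ 3 * (r : ℝ) ^ (0.12 : ℝ)) * r := by
            have : (2 * C ^ 3 * g) ^ 1 ≤ (2 * C ^ 3 * g) ^ 4 :=
              pow_le_pow_right₀ hCg (by norm_num)
            gcongr
        _ = _ := by rw [mul_pow (2 * C ^ 3 * g) ((r : ℝ) ^ (0.78 : ℝ)), e2]
    exact le_of_mul_le_mul_right h6 hr0
  exact le_of_pow_le_pow_left₀ (by norm_num) (by positivity) h5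

theorem gcd_bound (R d r : ℕ) (hR : R = d * r) (hR1 : 1 ≤ R) (h α β : ℤ) (hh : h ≠ 0)
    (hdh : (d : ℤ) ∣ h) (hdβ : (d : ℤ) ∣ β) :
    (Int.gcd (Int.gcd α (β / d * (h / d))) r : ℝ) ≤
      |(h : ℝ)| * min (Int.gcd α R : ℝ) (Int.gcd β R : ℝ) := by
  have hd : 0 < d := by
    rw [hR] at hR1
    exact Nat.pos_of_mul_pos_right hR1
  have hdZ : (d : ℤ) ≠ 0 := by
    have : d ≠ 0 := by omega
    exact_mod_cast this
  obtain ⟨b, rfl⟩ := hdh
  obtain ⟨a, rfl⟩ := hdβ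
  rw [Int.mul_ediv_cancel_left _ hdZ, Int.mul_ediv_cancel_left _ hdZ]
  have hb : b ≠ 0 := by
    rintro rfl
    exact hh (mul_zero _)
  set g := Int.gcd (Int.gcd α (a * b)) r with hg
  have hR0 : (R : ℤ) ≠ 0 := by
    have : R ≠ 0 := by omega
    exact_mod_cast this
  have hgr : (g : ℤ) ∣ (r : ℤ) := Int.gcd_dvd_right _ _
  have hrR : (r : ℤ) ∣ (R : ℤ) := ⟨d, by rw [hR]; push_cast; ring⟩
  have hgα : (g : ℤ) ∣ α := (Int.gcd_dvd_left _ _).trans (Int.gcd_dvd_left _ _)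
  have hgab : (g : ℤ) ∣ a * b := (Int.gcd_dvd_left _ _).trans (Int.gcd_dvd_right _ _)
  have hh1 : (1 : ℝ) ≤ |(((d : ℤ) * b : ℤ) : ℝ)| := by
    rw [← Int.cast_abs]
    exact_mod_cast Int.one_le_abs hh
  -- first
  have h1 : g ≤ Int.gcd α R := by
    refine Nat.le_of_dvd (Int.gcd_pos_of_ne_zero_right _ hR0) ?_
    exact Int.dvd_gcd hgα (hgr.trans hrR)
  have h2 : g ≤ b.natAbs * Int.gcd ((d : ℤ) * a) R := by
    have h3 : g ∣ b.natAbs * Int.gcd a r := by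
      rw [← Int.gcd_mul_left]
      refine Int.dvd_gcd ?_ (hgr.mul_left _)
      rw [mul_comm]
      exact hgab
    have h4 : Int.gcd a r ∣ Int.gcd ((d : ℤ) * a) R := by
      refine Int.dvd_gcd ((Int.gcd_dvd_left _ _).mul_left _) ((Int.gcd_dvd_right _ _).trans hrR)
    refine Nat.le_of_dvd (Nat.mul_pos (Int.natAbs_pos.2 hb) (Int.gcd_pos_of_ne_zero_right _ hR0)) ?_
    exact h3.trans (Nat.mul_dvd_mul_left _ h4)
  have h1' : (g : ℝ) ≤ Int.gcd α R := by exact_mod_cast h1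
  have h2' : (g : ℝ) ≤ |(b : ℝ)| * Int.gcd ((d : ℤ) * a) R := by
    have : (g : ℝ) ≤ ((b.natAbs * Int.gcd ((d : ℤ) * a) R : ℕ) : ℝ) := by exact_mod_cast h2
    rw [Nat.cast_mul, Nat.cast_natAbs, Int.cast_abs] at this
    exact this
  have hb1 : |(b : ℝ)| ≤ |(((d : ℤ) * b : ℤ) : ℝ)| := by
    push_cast
    rw [abs_mul]
    have : (1 : ℝ) ≤ |(d : ℝ)| := by
      rw [abs_of_nonneg (Nat.cast_nonneg _)]
      exact_mod_cast hd
    nlinarith [abs_nonneg (b : ℝ)]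
  rcases le_total (Int.gcd α R : ℝ) (Int.gcd ((d : ℤ) * a) R : ℝ) with hm | hm
  · rw [min_eq_left hm]
    calc (g : ℝ) ≤ 1 * Int.gcd α R := by rw [one_mul]; exact h1'
      _ ≤ _ := mul_le_mul_of_nonneg_right hh1 (Nat.cast_nonneg _)
  · rw [min_eq_right hm]
    exact h2'.trans (mul_le_mul_of_nonneg_right hb1 (Nat.cast_nonneg _))

theorem sum_div_le (R : ℕ) (h : ℤ) (hh : h ≠ 0) :
    ∑ d ∈ R.divisors, (if (d : ℤ) ∣ h then (d : ℝ) else 0) ≤ |(h : ℝ)| ^ 2 := by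
  have hn : h.natAbs ≠ 0 := Int.natAbs_ne_zero.2 hh
  have e : |(h : ℝ)| = (h.natAbs : ℝ) := by
    rw [Nat.cast_natAbs, Int.cast_abs]
  rw [e, ← Finset.sum_filter]
  calc ∑ d ∈ R.divisors.filter (fun d : ℕ => (d : ℤ) ∣ h), (d : ℝ)
      ≤ ∑ d ∈ Icc 1 h.natAbs, (d : ℝ) := by
        refine Finset.sum_le_sum_of_subset_of_nonneg ?_ fun d _ _ => Nat.cast_nonneg d
        intro d hd
        rw [Finset.mem_filter] at hd
        have h1 := Int.natCast_dvd.1 hd.2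
        rw [Finset.mem_Icc]
        exact ⟨Nat.pos_of_dvd_of_pos h1 (by omega), Nat.le_of_dvd (by omega) h1⟩
    _ ≤ ∑ d ∈ Icc 1 h.natAbs, (h.natAbs : ℝ) := by
        refine Finset.sum_le_sum fun d hd => ?_
        exact_mod_cast (Finset.mem_Icc.1 hd).2
    _ = (h.natAbs : ℝ) ^ 2 := by
        rw [Finset.sum_const, Nat.card_Icc, nsmul_eq_mul, Nat.add_sub_cancel, pow_two]

end hPQ

/-- PQ: bound for `KQ` -/
theorem hPQ (hKB : StKB) (hDB : StDB) : StPQ := by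
  obtain ⟨C, hC, hdiv⟩ := hDB (0.04 : ℝ) (by norm_num)
  refine ⟨2 * C ^ 3, by positivity, fun R h α β hR hh => ?_⟩
  have hR0 : (0 : ℝ) < R := by exact_mod_cast hR
  have hRZ : (R : ℤ) ≠ 0 := by
    have : R ≠ 0 := by omega
    exact_mod_cast this
  set m := min (Int.gcd α R : ℝ) (Int.gcd β R : ℝ) with hm
  have hm1 : 1 ≤ m := by
    refine le_min ?_ ?_
    · exact_mod_cast Int.gcd_pos_of_ne_zero_right _ hRZ
    · exact_mod_cast Int.gcd_pos_of_ne_zero_right _ hRZ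
  have hh1 : 1 ≤ |(h : ℝ)| := by
    rw [← Int.cast_abs]
    exact_mod_cast Int.one_le_abs hh
  have hg1 : 1 ≤ |(h : ℝ)| * m := by nlinarith
  rw [hPQ.KQ_eq R hR h α β]
  calc ‖∑ d ∈ R.divisors, if (d : ℤ) ∣ h ∧ (d : ℤ) ∣ β then
        (d : ℂ) * Kl (R / d) α (β / d * (h / d)) else 0‖
      ≤ ∑ d ∈ R.divisors, ‖if (d : ℤ) ∣ h ∧ (d : ℤ) ∣ β then
        (d : ℂ) * Kl (R / d) α (β / d * (h / d)) else 0‖ := norm_sum_le _ _
    _ ≤ ∑ d ∈ R.divisors, (if (d : ℤ) ∣ h then (d : ℝ) else 0) *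
        (2 * C ^ 3 * (|(h : ℝ)| * m) * (R : ℝ) ^ (0.78 : ℝ)) := by
        refine Finset.sum_le_sum fun d hd => ?_
        have hdR := Nat.dvd_of_mem_divisors hd
        have hRd : R = d * (R / d) := (Nat.mul_div_cancel' hdR).symm
        have hd1 : 1 ≤ d := Nat.pos_of_mem_divisors hd
        have hr1 : 1 ≤ R / d := Nat.div_pos (Nat.le_of_dvd (by omega) hdR) hd1
        by_cases h1 : (d : ℤ) ∣ h ∧ (d : ℤ) ∣ β
        · rw [if_pos h1, if_pos h1.1, norm_mul, Complex.norm_natCast]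
          refine mul_le_mul_of_nonneg_left ?_ (Nat.cast_nonneg _)
          refine (hPQ.Kl_bound hKB C hC hdiv (R / d) hr1 α _ (|(h : ℝ)| * m) hg1
            (hPQ.gcd_bound R d (R / d) hRd hR h α β hh h1.1 h1.2)).trans ?_
          refine mul_le_mul_of_nonneg_left ?_ (by positivity)
          refine Real.rpow_le_rpow (Nat.cast_nonneg _) ?_ (by norm_num)
          exact_mod_cast Nat.div_le_self R d
        · rw [if_neg h1, norm_zero]
          refine mul_nonneg ?_ (by positivity)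
          split_ifs
          · exact Nat.cast_nonneg _
          · exact le_rfl
    _ = (∑ d ∈ R.divisors, (if (d : ℤ) ∣ h then (d : ℝ) else 0)) *
        (2 * C ^ 3 * (|(h : ℝ)| * m) * (R : ℝ) ^ (0.78 : ℝ)) := by rw [Finset.sum_mul]
    _ ≤ |(h : ℝ)| ^ 2 * (2 * C ^ 3 * (|(h : ℝ)| * m) * (R : ℝ) ^ (0.78 : ℝ)) :=
        mul_le_mul_of_nonneg_right (hPQ.sum_div_le R h hh) (by positivity)
    _ = 2 * C ^ 3 * |(h : ℝ)| ^ 3 * m * (R : ℝ) ^ (0.78 : ℝ) := by ring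

end Pool.Agent.Helper15.AB
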