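import Mathlib
import Pool.Agent.Helper15.AB.StMid

/-!
# Project AB: common lemmas for the modules R1 and R3
-/

set_option autoImplicit false

namespace Pool.Agent.Helper15.AB.R13

open Finset ArithmeticFunction Filter Topology

lemma th_nonneg {B₀ w : ℕ} {Q : Finset ℕ} {fam : Finset (Finset ℕ)} (h : Maj B₀ w Q fam) (n : ℕ) :
    0 ≤ th fam n := by
  have h1 := h.maj n
  unfold th
  refine le_trans ?_ h1
  split_ifs <;> norm_num

lemma sum_Icc_inv (a : ℕ) (ha : 1 ≤ a) (n : ℕ) (hn : a ≤ n) :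
    ∑ b ∈ Icc a n, (1 : ℝ) / b ≤ 1 / a + Real.log (n / a) := by
  induction n, hn using Nat.le_induction with
  | base =>
    have : (a : ℝ) ≠ 0 := by positivity
    simp [this]
  | succ n hn ih =>
    rw [Finset.sum_Icc_succ_top (by omega)]
    have hn0 : (0 : ℝ) < n := by exact_mod_cast (by omega : 0 < n)
    have ha0 : (0 : ℝ) < a := by exact_mod_cast (by omega : 0 < a)
    have h1 := Real.one_sub_inv_le_log_of_pos (x := ((n + 1 : ℕ) : ℝ) / n) (by positivity)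
    have h2 : Real.log (((n + 1 : ℕ) : ℝ) / a) = Real.log (((n + 1 : ℕ) : ℝ) / n) + Real.log (n / a) := by
      rw [← Real.log_mul (by positivity) (by positivity)]
      congr 1
      field_simp
    have h3 : 1 - (((n + 1 : ℕ) : ℝ) / n)⁻¹ = 1 / ((n + 1 : ℕ) : ℝ) := by
      rw [inv_div]
      field_simp
      push_cast
      ring
    rw [h3] at h1
    rw [h2]
    linarith

/-- `∑_{u < b ≤ v} 1 / b ≤ 1 + log (v / u)` -/
lemma sum_inv_le {u v : ℝ} (hu : 0 < u) (huv : u ≤ v) (S : Finset ℕ)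
    (hS : ∀ b ∈ S, 1 ≤ b ∧ u < b ∧ (b : ℝ) ≤ v) :
    ∑ b ∈ S, (1 : ℝ) / b ≤ 1 + Real.log (v / u) := by
  have hlog0 : 0 ≤ Real.log (v / u) := Real.log_nonneg (by rw [le_div_iff₀ hu]; linarith)
  by_cases hne : S = ∅
  · subst hne; simp only [sum_empty]; linarith
  have hne' : S.Nonempty := Finset.nonempty_iff_ne_empty.mpr hne
  set a := S.min' hne' with ha
  have haS : a ∈ S := S.min'_mem hne'
  obtain ⟨ha1, hau, hav⟩ := hS a haS
  have hv0 : 0 < v := lt_of_lt_of_le hu huv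
  have hsub : S ⊆ Icc a ⌊v⌋₊ := by
    intro b hb
    rw [mem_Icc]
    exact ⟨S.min'_le b hb, Nat.le_floor (hS b hb).2.2⟩
  have hle : a ≤ ⌊v⌋₊ := Nat.le_floor hav
  have h1 : ∑ b ∈ S, (1 : ℝ) / b ≤ ∑ b ∈ Icc a ⌊v⌋₊, (1 : ℝ) / b :=
    sum_le_sum_of_subset_of_nonneg hsub (fun i _ _ => by positivity)
  have h2 := sum_Icc_inv a ha1 _ hle
  have ha1' : (1 : ℝ) ≤ a := by exact_mod_cast ha1
  have h3 : (1 : ℝ) / a ≤ 1 := by
    rw [div_le_one (by linarith)]; exact ha1'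
  have h4 : Real.log ((⌊v⌋₊ : ℝ) / a) ≤ Real.log (v / u) := by
    apply Real.log_le_log
    · have : (0 : ℝ) < (⌊v⌋₊ : ℝ) := by exact_mod_cast (by omega : 0 < ⌊v⌋₊)
      positivity
    · have hf : (⌊v⌋₊ : ℝ) ≤ v := Nat.floor_le hv0.le
      exact div_le_div₀ hv0.le hf hu hau.le
  linarith

lemma sum_Icc_one_inv {v : ℝ} (hv : 1 ≤ v) (S : Finset ℕ) (hS : ∀ b ∈ S, 1 ≤ b ∧ (b : ℝ) ≤ v) :
    ∑ b ∈ S, (1 : ℝ) / b ≤ 1 + Real.log v := by
  have hsub : S ⊆ Icc 1 ⌊v⌋₊ := by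
    intro b hb
    rw [mem_Icc]
    exact ⟨(hS b hb).1, Nat.le_floor (hS b hb).2⟩
  have h1 : ∑ b ∈ S, (1 : ℝ) / b ≤ ∑ b ∈ Icc 1 ⌊v⌋₊, (1 : ℝ) / b :=
    sum_le_sum_of_subset_of_nonneg hsub (fun i _ _ => by positivity)
  have h2 := sum_Icc_inv 1 le_rfl ⌊v⌋₊ (Nat.le_floor (by simpa using hv))
  have h4 : Real.log ((⌊v⌋₊ : ℝ) / (1 : ℕ)) ≤ Real.log v := by
    have hf1 : 1 ≤ ⌊v⌋₊ := Nat.le_floor (by simpa using hv)
    have hf : (⌊v⌋₊ : ℝ) ≤ v := Nat.floor_le (by linarith)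
    have hf1' : (1 : ℝ) ≤ ⌊v⌋₊ := by exact_mod_cast hf1
    apply Real.log_le_log
    · simp only [Nat.cast_one, div_one]; linarith
    · simpa using hf
  simp only [Nat.cast_one, div_one] at h2 h4
  linarith

/-! ### Asymptotic facts -/

lemma ev_log_log (A a : ℝ) (ha : 0 < a) :
    ∀ᶠ x : ℝ in atTop, A + A * Real.log (Real.log x) ≤ Real.log x ^ a := by
  have h1 : Tendsto (fun x : ℝ => Real.log x) atTop atTop := Real.tendsto_log_atTop
  have h2 : ∀ᶠ y : ℝ in atTop, A + A * Real.log y ≤ y ^ a := by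
    have h3 : (fun y : ℝ => Real.log y) =o[atTop] fun y => y ^ a := isLittleO_log_rpow_atTop ha
    have h4 : (fun y : ℝ => (1 : ℝ)) =o[atTop] fun y => y ^ a := by
      rw [Asymptotics.isLittleO_const_left]
      right
      exact tendsto_norm_atTop_atTop.comp (tendsto_rpow_atTop ha)
    have h5 : (fun y : ℝ => A * 1 + A * Real.log y) =o[atTop] fun y => y ^ a :=
      (h4.const_mul_left A).add (h3.const_mul_left A)
    filter_upwards [h5.bound (by norm_num : (0 : ℝ) < 1), eventually_ge_atTop (0 : ℝ)] with y hy hy0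
    rw [one_mul, Real.norm_eq_abs, Real.norm_eq_abs, abs_of_nonneg (Real.rpow_nonneg hy0 a)] at hy
    have := le_abs_self (A * 1 + A * Real.log y)
    linarith
  exact h1.eventually h2

lemma ev_log_ge (A : ℝ) : ∀ᶠ x : ℝ in atTop, A ≤ Real.log x :=
  Real.tendsto_log_atTop.eventually_ge_atTop A

lemma ev_log_pow (A a : ℝ) (ha : 0 < a) : ∀ᶠ x : ℝ in atTop, A ≤ Real.log x ^ a :=
  ((tendsto_rpow_atTop ha).comp Real.tendsto_log_atTop).eventually_ge_atTop A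

/-- `A (log x)^B ≤ x^a` eventually -/
lemma ev_pow_log (A a : ℝ) (B : ℕ) (ha : 0 < a) :
    ∀ᶠ x : ℝ in atTop, A * Real.log x ^ B ≤ x ^ a := by
  have h3 : (fun y : ℝ => Real.log y ^ (B : ℝ)) =o[atTop] fun y => y ^ a :=
    isLittleO_log_rpow_rpow_atTop B ha
  have h5 := h3.const_mul_left A
  filter_upwards [h5.bound (by norm_num : (0 : ℝ) < 1), eventually_ge_atTop (1 : ℝ)] with y hy hy0
  rw [one_mul, Real.norm_eq_abs, Real.norm_eq_abs,
    abs_of_nonneg (Real.rpow_nonneg (by linarith) a), Real.rpow_natCast] at hy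
  have := le_abs_self (A * Real.log y ^ B)
  linarith

lemma ev_YY (a : ℝ) (ha : 0 < a) : ∀ᶠ x : ℝ in atTop, YY x ≤ x ^ a := by
  have h1 : ∀ᶠ y : ℝ in atTop, y ^ (0.02 : ℝ) ≤ a * y := by
    filter_upwards [(tendsto_rpow_atTop (y := (0.98 : ℝ)) (by norm_num)).eventually_ge_atTop (1 / a),
      eventually_gt_atTop (0 : ℝ)] with y hy hy0
    have h3 : y ^ (0.02 : ℝ) * y ^ (0.98 : ℝ) = y := by
      rw [← Real.rpow_add hy0]
      norm_num
    have h4 : 1 ≤ a * y ^ (0.98 : ℝ) := by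
      rw [div_le_iff₀ ha] at hy
      linarith
    have h5 : 0 ≤ y ^ (0.02 : ℝ) := Real.rpow_nonneg hy0.le _
    calc y ^ (0.02 : ℝ) ≤ y ^ (0.02 : ℝ) * (a * y ^ (0.98 : ℝ)) := by nlinarith
      _ = a * (y ^ (0.02 : ℝ) * y ^ (0.98 : ℝ)) := by ring
      _ = a * y := by rw [h3]
  filter_upwards [Real.tendsto_log_atTop.eventually h1, eventually_gt_atTop (0 : ℝ)] with x hx hx0
  unfold YY
  rw [Real.rpow_def_of_pos hx0]
  apply Real.exp_le_exp.mpr
  linarith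

lemma YY_ge_one {x : ℝ} (hx : 1 ≤ x) : 1 ≤ YY x := by
  unfold YY
  exact Real.one_le_exp (Real.rpow_nonneg (Real.log_nonneg hx) _)

lemma log_YY (x : ℝ) : Real.log (YY x) = Real.log x ^ (0.02 : ℝ) := by
  unfold YY
  rw [Real.log_exp]

/-- `DD x B` is comparable with `√x / (log x)^B` -/
lemma ev_DD (B : ℕ) : ∀ᶠ x : ℝ in atTop, √x / (2 * Real.log x ^ B) ≤ (DD x B : ℝ) ∧
    (DD x B : ℝ) ≤ √x / Real.log x ^ B ∧ 1 ≤ DD x B := by
  filter_upwards [ev_pow_log 1 (1 / 2) B (by norm_num), eventually_ge_atTop (1 : ℝ), ev_log_ge 1] with x hx hx1 hx2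
  have hlp : 0 < Real.log x ^ B := by positivity
  have h1 : 1 ≤ √x / Real.log x ^ B := by
    rw [le_div_iff₀ hlp, Real.sqrt_eq_rpow]
    exact hx
  have h2 : (DD x B : ℝ) ≤ √x / Real.log x ^ B := Nat.floor_le (by positivity)
  have h3 : √x / Real.log x ^ B < (DD x B : ℝ) + 1 := Nat.lt_floor_add_one _
  have h4 : 1 ≤ DD x B := Nat.le_floor (by simpa using h1)
  have h4' : (1 : ℝ) ≤ DD x B := by exact_mod_cast h4
  refine ⟨?_, h2, h4⟩
  have : √x / (2 * Real.log x ^ B) = (√x / Real.log x ^ B) / 2 := by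
    rw [mul_comm, ← div_div]
  rw [this]
  linarith

/-- the sieve product -/
lemma prod_bound (hMV : StMV) (hDP : StDP) (N q B₀ : ℕ) (hN : 1 ≤ N) (hq : 1 ≤ q) :
    ∃ C : ℝ, 0 < C ∧ ∀ᶠ x : ℝ in atTop, ∀ w k : ℕ,
      x ^ (1 / (200 * (B₀ + 1)) : ℝ) ≤ 2 * w → 1 ≤ k → (k : ℝ) ≤ x ^ 3 →
      ∏ l ∈ ((Ioc 3 w).filter (fun l => l.Prime ∧ ¬ l ∣ N * q)).filter (fun l => ¬ l ∣ k),
        (1 - 1 / (l : ℝ)) ≤ C * Real.log (Real.log x) / Real.log x := by
  obtain ⟨C₁, hC₁, h₁⟩ := hMV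
  obtain ⟨C₂, hC₂, h₂⟩ := hDP
  set b : ℝ := 1 / (200 * (B₀ + 1)) with hb
  have hb0 : 0 < b := by positivity
  refine ⟨C₁ * (C₂ * 3) / (b / 2), by positivity, ?_⟩
  filter_upwards [ev_log_ge (2 * Real.log 2 / b), ev_log_ge 8, eventually_ge_atTop ((N * q : ℕ) : ℝ),
    eventually_ge_atTop (1 : ℝ), (tendsto_rpow_atTop hb0).eventually_ge_atTop 4]
    with x hx1 hx2 hx3 hx4 hx5 w k hw hk hkx
  have hx0 : 0 < x := by linarith
  have hL : 0 < Real.log x := by linarith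
  have hll : 1 ≤ Real.log (Real.log x) := by
    have : Real.log (Real.exp 1) ≤ Real.log (Real.log x) := by
      apply Real.log_le_log (Real.exp_pos 1)
      have := Real.exp_one_lt_d9
      linarith
    rwa [Real.log_exp] at this
  have hw2 : 2 ≤ w := by
    have : (4 : ℝ) ≤ 2 * w := by linarith
    have : (2 : ℝ) ≤ w := by linarith
    exact_mod_cast this
  have hNqk : 1 ≤ N * q * k := Nat.mul_pos (Nat.mul_pos hN hq) hk
  have hset : ((Ioc 3 w).filter (fun l => l.Prime ∧ ¬ l ∣ N * q)).filter (fun l => ¬ l ∣ k) =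
      (Ioc 3 w).filter (fun l => l.Prime ∧ ¬ l ∣ N * q * k) := by
    ext l
    simp only [mem_filter]
    constructor
    · rintro ⟨⟨h1, h2, h3⟩, h4⟩
      exact ⟨h1, h2, fun h => (h2.dvd_mul.mp h).elim h3 h4⟩
    · rintro ⟨h1, h2, h3⟩
      exact ⟨⟨h1, h2, fun h => h3 (Dvd.dvd.mul_right h k)⟩, fun h => h3 (Dvd.dvd.mul_left h _)⟩
  rw [hset]
  refine (h₁ w (N * q * k) hw2 hNqk).trans ?_
  have h3 := h₂ (N * q * k) hNqk
  -- `log w ≥ (b / 2) log x`
  have hlw : b / 2 * Real.log x ≤ Real.log w := by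
    have h4 : Real.log (x ^ b) ≤ Real.log (2 * w) := Real.log_le_log (by positivity) hw
    rw [Real.log_rpow hx0, Real.log_mul (by norm_num) (by positivity)] at h4
    have h5 : Real.log 2 ≤ b / 2 * Real.log x := by
      rw [div_le_iff₀ hb0] at hx1
      linarith
    linarith
  -- `log (1 + log (N q k)) ≤ 2 log log x`
  have hlK : Real.log ((N * q * k : ℕ) : ℝ) ≤ 4 * Real.log x := by
    have : ((N * q * k : ℕ) : ℝ) ≤ x ^ 4 := by
      calc ((N * q * k : ℕ) : ℝ) = ((N * q : ℕ) : ℝ) * k := by push_cast; ring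
        _ ≤ x * x ^ 3 := by gcongr
        _ = x ^ 4 := by ring
    calc Real.log ((N * q * k : ℕ) : ℝ) ≤ Real.log (x ^ 4) :=
          Real.log_le_log (by exact_mod_cast hNqk) this
      _ = 4 * Real.log x := by rw [Real.log_pow]; norm_num
  have hlK0 : 0 ≤ Real.log ((N * q * k : ℕ) : ℝ) := Real.log_natCast_nonneg _
  have hll2 : Real.log (1 + Real.log ((N * q * k : ℕ) : ℝ)) ≤ 2 * Real.log (Real.log x) := by
    have h6 : 1 + Real.log ((N * q * k : ℕ) : ℝ) ≤ Real.log x ^ 2 := by nlinarith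
    calc Real.log (1 + Real.log ((N * q * k : ℕ) : ℝ)) ≤ Real.log (Real.log x ^ 2) :=
          Real.log_le_log (by linarith) h6
      _ = 2 * Real.log (Real.log x) := by rw [Real.log_pow]; norm_num
  have h7 : ((N * q * k : ℕ) : ℝ) / Nat.totient (N * q * k) ≤ C₂ * 3 * Real.log (Real.log x) := by
    refine h3.trans ?_
    have : 1 + Real.log (1 + Real.log ((N * q * k : ℕ) : ℝ)) ≤ 3 * Real.log (Real.log x) := by linarith
    calc C₂ * (1 + Real.log (1 + Real.log ((N * q * k : ℕ) : ℝ))) ≤ C₂ * (3 * Real.log (Real.log x)) := by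
          gcongr
      _ = _ := by ring
  have h8 : C₁ / Real.log w ≤ C₁ / (b / 2 * Real.log x) := by
    apply div_le_div_of_nonneg_left hC₁.le (by positivity) hlw
  calc C₁ / Real.log w * (((N * q * k : ℕ) : ℝ) / Nat.totient (N * q * k))
      ≤ C₁ / (b / 2 * Real.log x) * (C₂ * 3 * Real.log (Real.log x)) := by
        apply mul_le_mul h8 h7 (by positivity) (by positivity)
    _ = C₁ * (C₂ * 3) / (b / 2) * Real.log (Real.log x) / Real.log x := by
        field_simp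

/-- final step for the main terms -/
lemma main_final {x L M : ℝ} (hx : 0 < x) (hL1 : 1 ≤ L) (h4 : 4 ≤ L ^ (0.002 : ℝ))
    (hM : M ≤ x * (L ^ (0.06 : ℝ) / L)) : M ≤ x / L ^ (0.93 : ℝ) / 2 := by
  have hL0 : 0 < L := by linarith
  refine hM.trans ?_
  have h1 : L ^ (0.93 : ℝ) * L ^ (0.06 : ℝ) * L ^ (0.01 : ℝ) = L := by
    rw [← Real.rpow_add hL0, ← Real.rpow_add hL0]
    norm_num
  have h2 : (2 : ℝ) ≤ L ^ (0.01 : ℝ) := by
    have : L ^ (0.002 : ℝ) ≤ L ^ (0.01 : ℝ) := Real.rpow_le_rpow_of_exponent_le hL1 (by norm_num)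
    linarith
  have h3 : 0 < L ^ (0.93 : ℝ) := by positivity
  have h4 : 0 < L ^ (0.06 : ℝ) := by positivity
  rw [div_div, ← mul_div_assoc, div_le_div_iff₀ hL0 (by positivity)]
  calc x * L ^ (0.06 : ℝ) * (L ^ (0.93 : ℝ) * 2) = x * (L ^ (0.93 : ℝ) * L ^ (0.06 : ℝ) * 2) := by ring
    _ ≤ x * (L ^ (0.93 : ℝ) * L ^ (0.06 : ℝ) * L ^ (0.01 : ℝ)) := by gcongr
    _ = x * L := by rw [h1]

/-- final step for the error terms -/
lemma err_final {x L M : ℝ} (hx : 16 ≤ x) (hL1 : 1 ≤ L)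
    (hM : M ≤ x ^ (3 / 4 : ℝ) / L) : M ≤ x / L ^ (0.93 : ℝ) / 2 := by
  have hL0 : 0 < L := by linarith
  have hx0 : 0 < x := by linarith
  have hLr0 : 0 < L ^ (0.93 : ℝ) := by positivity
  have h7 : (2 : ℝ) ≤ x ^ (1 / 4 : ℝ) := by
    calc (2 : ℝ) = (16 : ℝ) ^ (1 / 4 : ℝ) := by
          rw [show (16 : ℝ) = 2 ^ (4 : ℝ) by norm_num, ← Real.rpow_mul (by norm_num)]
          norm_num
      _ ≤ x ^ (1 / 4 : ℝ) := Real.rpow_le_rpow (by norm_num) hx (by norm_num)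
  have h8 : x ^ (3 / 4 : ℝ) * x ^ (1 / 4 : ℝ) = x := by
    rw [← Real.rpow_add hx0]
    norm_num
  have h9 : 0 < x ^ (3 / 4 : ℝ) := by positivity
  have h10 : x ^ (3 / 4 : ℝ) ≤ x / 2 := by nlinarith
  calc M ≤ x ^ (3 / 4 : ℝ) / L := hM
    _ ≤ (x / 2) / L := by gcongr
    _ ≤ (x / 2) / L ^ (0.93 : ℝ) := by
        apply div_le_div_of_nonneg_left (by positivity) hLr0
        calc L ^ (0.93 : ℝ) ≤ L ^ (1 : ℝ) := Real.rpow_le_rpow_of_exponent_le hL1 (by norm_num)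
          _ = L := Real.rpow_one L
    _ = _ := by ring

end Pool.Agent.Helper15.AB.R13
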