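import Mathlib
import Pool.Agent.Helper15.AB.StMid
import Pool.Agent.Helper15.AB.R13

/-!
# Project AB, module R1: small `g`, absolute values
-/

set_option autoImplicit false

namespace Pool.Agent.Helper15.AB

open Finset ArithmeticFunction Filter Topology

namespace hR1

open R13

/-- the range of `b` for a given `g` -/
def Ag (D₁ D₂ g : ℕ) : Finset ℕ := (Icc 1 D₂).filter (fun b => D₁ < g * b ∧ g * b ≤ D₂)

/-- one pair `(b, c)` -/
lemma one_le {N p q m₁ B₀ w X₁ X₂ D₁ D₂ g b c : ℕ} {Q : Finset ℕ} {fam : Finset (Finset ℕ)}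
    {x P W : ℝ} (hTA : StTA) (hyp : Hyp N p q m₁) (hm : Maj B₀ w Q fam)
    (hQ : ∀ l ∈ Q, ¬ l ∣ N * q) (hp : p ≤ N * X₁) (hX2 : (X₂ : ℝ) ≤ 4 * x)
    (hx : 0 ≤ x) (hg : 1 ≤ g) (hb : 1 ≤ b) (hc : 1 ≤ c) (hP0 : 0 ≤ P)
    (hP : ∀ k : ℕ, 1 ≤ k → (k : ℝ) ≤ 4 * x → ∏ l ∈ Q.filter (fun l => ¬ l ∣ k), (1 - 1 / (l : ℝ)) ≤ P)
    (hW : (w : ℝ) ^ B₀ ≤ W) :
    ∑ m ∈ (Ioc X₁ X₂).filter (fun m => m % q = m₁ % q ∧ g * b * c ∣ m ∧ b * c * D₁ < m ∧
      m ≤ b * c * D₂), th fam (N * m - p) ≤ 8 * x * P / g * ((1 : ℝ) / b * (1 / c)) + W := by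
  have hg0 : (0 : ℝ) < g := by exact_mod_cast hg
  have hb0 : (0 : ℝ) < b := by exact_mod_cast hb
  have hc0 : (0 : ℝ) < c := by exact_mod_cast hc
  have hW0 : 0 ≤ W := le_trans (by positivity) hW
  have hq1 : (1 : ℝ) ≤ q := by exact_mod_cast hyp.hq1
  rcases Finset.eq_empty_or_nonempty ((Ioc X₁ X₂).filter (fun m => m % q = m₁ % q ∧ g * b * c ∣ m ∧
      b * c * D₁ < m ∧ m ≤ b * c * D₂)) with he | ⟨m₀, hm₀⟩
  · rw [he, sum_empty]
    positivity
  rw [mem_filter, mem_Ioc] at hm₀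
  obtain ⟨⟨hm1, hm2⟩, hm3, hm4, hm5, hm6⟩ := hm₀
  have hk1 : 1 ≤ g * b * c := Nat.mul_pos (Nat.mul_pos hg hb) hc
  have hkm : g * b * c ≤ m₀ := Nat.le_of_dvd (by omega) hm4
  have hk4 : ((g * b * c : ℕ) : ℝ) ≤ 4 * x := by
    have h1 : ((g * b * c : ℕ) : ℝ) ≤ (X₂ : ℝ) := by exact_mod_cast hkm.trans hm2
    linarith
  set Y₁ := max X₁ (b * c * D₁) with hY₁
  set Y₂ := min X₂ (b * c * D₂) with hY₂
  have hset : (Ioc X₁ X₂).filter (fun m => m % q = m₁ % q ∧ g * b * c ∣ m ∧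
      b * c * D₁ < m ∧ m ≤ b * c * D₂) =
      (Ioc Y₁ Y₂).filter (fun m => m % q = m₁ % q ∧ g * b * c ∣ m) := by
    ext m
    simp only [mem_filter, mem_Ioc, hY₁, hY₂, max_lt_iff, le_min_iff]
    tauto
  rw [hset]
  have hY12 : Y₁ ≤ Y₂ := by
    have h1 : Y₁ < m₀ := max_lt hm1 hm5
    have h2 : m₀ ≤ Y₂ := le_min hm2 hm6
    omega
  have hpY : p ≤ N * Y₁ := hp.trans (Nat.mul_le_mul_left N (le_max_left _ _))
  have h5 := hTA N p q m₁ B₀ w (g * b * c) Y₁ Y₂ Q fam hyp hm hQ hk1 hpY hY12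
  refine h5.trans (add_le_add ?_ hW)
  have hY2x : (Y₂ : ℝ) ≤ 4 * x := by
    have : (Y₂ : ℝ) ≤ X₂ := by exact_mod_cast min_le_left _ _
    linarith
  have hY10 : (0 : ℝ) ≤ Y₁ := Nat.cast_nonneg _
  have h6 : ((Y₂ : ℝ) - Y₁) / (q * ((g * b * c : ℕ) : ℝ)) ≤ 4 * x / (g * b * c) := by
    apply div_le_div₀ (by positivity) (by linarith) (by positivity)
    push_cast
    have : (0 : ℝ) < g * b * c := by positivity
    nlinarith
  have h60 : 0 ≤ ((Y₂ : ℝ) - Y₁) / (q * ((g * b * c : ℕ) : ℝ)) := by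
    apply div_nonneg _ (by positivity)
    have : (Y₁ : ℝ) ≤ Y₂ := by exact_mod_cast hY12
    linarith
  have h7 := hP _ hk1 hk4
  calc 2 * (((Y₂ : ℝ) - Y₁) / (q * ((g * b * c : ℕ) : ℝ))) *
        ∏ l ∈ Q.filter (fun l => ¬ l ∣ g * b * c), (1 - 1 / (l : ℝ))
      ≤ 2 * (((Y₂ : ℝ) - Y₁) / (q * ((g * b * c : ℕ) : ℝ))) * P := by
        apply mul_le_mul_of_nonneg_left h7 (by positivity)
    _ ≤ 2 * (4 * x / (g * b * c)) * P := by gcongr
    _ = 8 * x * P / g * ((1 : ℝ) / b * (1 / c)) := by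
        field_simp
        ring

/-- rearrangement -/
lemma rearr {N p q m₁ X₁ X₂ D₁ D₂ g M : ℕ} {fam : Finset (Finset ℕ)}
    (hg : 1 ≤ g) (hth : ∀ n, 0 ≤ th fam n)
    (hM : ∀ c : ℕ, c * D₁ ^ 2 ≤ X₂ * g → c ≤ M) :
    Abs N p q m₁ X₁ X₂ D₁ D₂ g fam ≤
      ∑ b ∈ Ag D₁ D₂ g, ∑ c ∈ Icc 1 M,
        ∑ m ∈ (Ioc X₁ X₂).filter (fun m => m % q = m₁ % q ∧ g * b * c ∣ m ∧ b * c * D₁ < m ∧
          m ≤ b * c * D₂), th fam (N * m - p) := by
  classical
  unfold Abs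
  rw [← sum_product', Finset.sum_sigma', Finset.sum_sigma']
  set T₁ := (((Icc 1 D₂) ×ˢ (Icc 1 D₂)).filter (fun b : ℕ × ℕ => Nat.Coprime b.1 b.2 ∧
      D₁ < g * b.1 ∧ g * b.1 ≤ D₂ ∧ D₁ < g * b.2 ∧ g * b.2 ≤ D₂)).sigma
      (fun b => (Ioc X₁ X₂).filter (fun m => m % q = m₁ % q ∧ g * b.1 * b.2 ∣ m)) with hT₁
  set T₂ := ((Ag D₁ D₂ g) ×ˢ (Icc 1 M)).sigma
      (fun b => (Ioc X₁ X₂).filter (fun m => m % q = m₁ % q ∧ g * b.1 * b.2 ∣ m ∧ b.1 * b.2 * D₁ < m ∧
          m ≤ b.1 * b.2 * D₂)) with hT₂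
  set e : (Σ _ : ℕ × ℕ, ℕ) → (Σ _ : ℕ × ℕ, ℕ) :=
    fun t => ⟨(t.1.2, t.2 / (g * t.1.1 * t.1.2)), t.2⟩ with he
  have hinj : Set.InjOn e T₁ := by
    rintro ⟨⟨b1, b2⟩, m⟩ ht ⟨⟨b1', b2'⟩, m'⟩ ht' hee
    simp only [hT₁, Finset.mem_coe, mem_sigma, mem_filter, mem_product, mem_Icc, mem_Ioc] at ht ht'
    simp only [he, Sigma.mk.injEq, Prod.mk.injEq, heq_eq_eq] at hee
    obtain ⟨⟨h1, h2⟩, h3⟩ := hee
    subst h1
    subst h3
    obtain ⟨k, hk⟩ := ht.2.2.2
    obtain ⟨k', hk'⟩ := ht'.2.2.2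
    have hb1 : 0 < b1 := ht.1.1.1.1
    have hb2 : 0 < b2 := ht.1.1.2.1
    have hb1' : 0 < b1' := ht'.1.1.1.1
    have hm0 : 0 < m := by omega
    rw [hk, Nat.mul_div_cancel_left _ (by positivity)] at h2
    rw [← hk, hk', Nat.mul_div_cancel_left _ (by positivity)] at h2
    subst h2
    have hk0 : 0 < k := by
      rcases Nat.eq_zero_or_pos k with h | h
      · subst h; omega
      · exact h
    have h4 : g * b1 * b2 * k = g * b1' * b2 * k := by rw [← hk, ← hk']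
    have h5 : b1 = b1' := by
      have h6 : (g * b2 * k) * b1 = (g * b2 * k) * b1' := by linarith
      exact Nat.eq_of_mul_eq_mul_left (by positivity) h6
    subst h5
    rfl
  calc ∑ t ∈ T₁, th fam (N * t.2 - p) = ∑ t ∈ T₁, th fam (N * (e t).2 - p) := rfl
    _ = ∑ u ∈ T₁.image e, th fam (N * u.2 - p) := by
        rw [sum_image (f := fun u : (Σ _ : ℕ × ℕ, ℕ) => th fam (N * u.2 - p)) hinj]
    _ ≤ ∑ u ∈ T₂, th fam (N * u.2 - p) := by
        apply sum_le_sum_of_subset_of_nonneg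
        · intro u hu
          rw [mem_image] at hu
          obtain ⟨⟨⟨b1, b2⟩, m⟩, ht, rfl⟩ := hu
          simp only [hT₁, mem_sigma, mem_filter, mem_product, mem_Icc, mem_Ioc] at ht
          obtain ⟨⟨⟨⟨hb1, hb1'⟩, hb2, hb2'⟩, -, h1, h2, h3, h4⟩, ⟨h5, h6⟩, h7, k, hk⟩ := ht
          have hpos : 0 < g * b1 * b2 := by positivity
          have hdiv : m / (g * b1 * b2) = k := by rw [hk, Nat.mul_div_cancel_left _ hpos]
          simp only [hT₂, he, mem_sigma, mem_filter, mem_product, mem_Icc, mem_Ioc, hdiv, Ag]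
          have hk0 : 0 < k := by
            rcases Nat.eq_zero_or_pos k with h | h
            · subst h; omega
            · exact h
          refine ⟨⟨⟨⟨hb2, hb2'⟩, h3, h4⟩, hk0, ?_⟩, ⟨h5, h6⟩, h7, ?_, ?_, ?_⟩
          · apply hM
            calc k * D₁ ^ 2 = k * (D₁ * D₁) := by ring
              _ ≤ k * ((g * b1) * (g * b2)) := by gcongr
              _ = g * b1 * b2 * k * g := by ring
              _ = m * g := by rw [← hk]
              _ ≤ X₂ * g := by gcongr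
          · exact ⟨b1, by rw [hk]; ring⟩
          · rw [hk]
            calc b2 * k * D₁ < b2 * k * (g * b1) := by
                  apply Nat.mul_lt_mul_of_pos_left h1 (by positivity)
              _ = g * b1 * b2 * k := by ring
          · rw [hk]
            calc g * b1 * b2 * k = b2 * k * (g * b1) := by ring
              _ ≤ b2 * k * D₂ := by gcongr
        · intro u _ _
          exact hth _

end hR1

open R13 in
theorem hR1 (hTA : StTA) (hMV : StMV) (hDP : StDP) : StR1 := by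
  intro N p q m₁ B₀ hyp B
  obtain ⟨C, hC, hprod⟩ := prod_bound hMV hDP N q B₀ hyp.hN hyp.hq1
  have hT := ev_log_log (1 + Real.log 4 + B) 0.002 (by norm_num)
  have key : ∀ᶠ x : ℝ in atTop, ∀ (X₁ X₂ D₂ w : ℕ) (Q : Finset ℕ) (fam : Finset (Finset ℕ)),
      p ≤ N * X₁ → X₁ ≤ X₂ →
      (X₂ : ℝ) ≤ 4 * x → (D₂ : ℝ) ≤ 2 * √x → Maj B₀ w Q fam →
      Q = (Ioc 3 w).filter (fun l => l.Prime ∧ ¬ l ∣ N * q) →
      x ^ (1 / (200 * (B₀ + 1)) : ℝ) ≤ 2 * w → (w : ℝ) ^ (B₀ + 1) ≤ x ^ (1 / 200 : ℝ) →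
      ∑ g ∈ (Icc 1 D₂).filter (fun g : ℕ => (g : ℝ) ≤ YY x),
        Abs N p q m₁ X₁ X₂ (DD x B) D₂ g fam ≤ x / Real.log x ^ (0.93 : ℝ) := by
    filter_upwards [hprod, hT, ev_DD B, ev_log_pow 4 0.002 (by norm_num),
      ev_log_pow (8 * C) 0.002 (by norm_num), ev_log_log 1 0.002 (by norm_num), ev_log_ge 8,
      eventually_ge_atTop (16 : ℝ), ev_YY 0.01 (by norm_num), ev_pow_log 32 0.01 (2 * B + 1) (by norm_num)]
      with x hprod hT hDD h4 h8C hll hL8 hx16 hYY hpl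
      X₁ X₂ D₂ w Q fam hp hX hX2 hD2 hmaj hQ hw hw'
    obtain ⟨hD1, hD1u, hD1'⟩ := hDD
    set L : ℝ := Real.log x with hL
    set D₁ : ℕ := DD x B with hD₁
    clear_value L D₁
    have hx0 : 0 < x := by linarith
    have hL0 : 0 < L := by linarith
    have hL1 : 1 ≤ L := by linarith
    have hs0 : 0 < √x := Real.sqrt_pos.mpr hx0
    have hss : √x * √x = x := Real.mul_self_sqrt hx0.le
    have hll0 : 0 ≤ Real.log L := Real.log_nonneg hL1
    have hD10 : (0 : ℝ) < D₁ := by exact_mod_cast hD1'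
    have hlog4 : 0 ≤ Real.log 4 := Real.log_nonneg (by norm_num)
    have hY0 : 0 < YY x := Real.exp_pos _
    have hY1 : 1 ≤ YY x := YY_ge_one (by linarith)
    set T : ℝ := 1 + Real.log 4 + B * Real.log L with hTdef
    clear_value T
    have hB0 : (0 : ℝ) ≤ B := Nat.cast_nonneg _
    have hT0 : 0 ≤ T := by rw [hTdef]; positivity
    have hT1 : T ≤ L ^ (0.002 : ℝ) := by
      refine le_trans ?_ hT
      rw [hTdef]
      nlinarith [mul_nonneg hB0 hll0, mul_nonneg hlog4 hll0]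
    -- the ratio `2 √x / D₁`
    have hlogr : 1 + Real.log (2 * √x / D₁) ≤ T := by
      have h1 : 2 * √x / D₁ ≤ 4 * L ^ B := by
        rw [div_le_iff₀ hD10]
        rw [div_le_iff₀ (by positivity)] at hD1
        linarith
      have h2 : Real.log (2 * √x / D₁) ≤ Real.log (4 * L ^ B) :=
        Real.log_le_log (by positivity) h1
      rw [Real.log_mul (by norm_num) (by positivity), Real.log_pow] at h2
      rw [hTdef]
      linarith
    have hD1s : (D₁ : ℝ) ≤ 2 * √x := by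
      have h2 : √x / L ^ B ≤ √x := div_le_self hs0.le (one_le_pow₀ hL1)
      linarith
    -- the sieve bound
    set P : ℝ := C * Real.log L / L with hPdef
    have hP0 : 0 ≤ P := by positivity
    clear_value P
    have hP : ∀ k : ℕ, 1 ≤ k → (k : ℝ) ≤ 4 * x →
        ∏ l ∈ Q.filter (fun l => ¬ l ∣ k), (1 - 1 / (l : ℝ)) ≤ P := by
      intro k hk1 hk2
      rw [hQ]
      apply hprod w k hw hk1
      have h4 : 4 * x ≤ x ^ 3 := by nlinarith [mul_pos hx0 hx0]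
      linarith
    have hw1 : 1 ≤ w := by
      rcases Nat.eq_zero_or_pos w with h | h
      · subst h
        have : 0 < x ^ (1 / (200 * (B₀ + 1)) : ℝ) := by positivity
        rw [Nat.cast_zero, mul_zero] at hw
        exact absurd hw (not_le.mpr this)
      · exact h
    set W : ℝ := x ^ (1 / 200 : ℝ) with hWdef
    have hW0 : 0 < W := by positivity
    have hWle : W ≤ x ^ (1 / 200 : ℝ) := le_of_eq hWdef
    clear_value W
    have hW : (w : ℝ) ^ B₀ ≤ W := by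
      refine le_trans ?_ hw'
      exact pow_le_pow_right₀ (by exact_mod_cast hw1) (Nat.le_succ _)
    have hQ' : ∀ l ∈ Q, ¬ l ∣ N * q := by
      intro l hl
      rw [hQ, mem_filter] at hl
      exact hl.2.2
    set S := (Icc 1 D₂).filter (fun g : ℕ => (g : ℝ) ≤ YY x) with hS
    -- sums over `g`
    have hsg : ∑ g ∈ S, (1 : ℝ) / g ≤ 1 + L ^ (0.02 : ℝ) := by
      have h1 := sum_Icc_one_inv hY1 S (by
        intro g hg
        rw [hS, mem_filter, mem_Icc] at hg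
        exact ⟨hg.1.1, hg.2⟩)
      rwa [log_YY, ← hL] at h1
    have hcardS : (S.card : ℝ) ≤ YY x := by
      have hsub : S ⊆ Icc 1 ⌊YY x⌋₊ := by
        intro g hg
        rw [hS, mem_filter, mem_Icc] at hg
        rw [mem_Icc]
        exact ⟨hg.1.1, Nat.le_floor hg.2⟩
      have h6 := card_le_card hsub
      rw [Nat.card_Icc, Nat.add_sub_cancel] at h6
      have h7 : (S.card : ℝ) ≤ (⌊YY x⌋₊ : ℝ) := by exact_mod_cast h6
      exact h7.trans (Nat.floor_le hY0.le)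
    set T₂ : ℝ := 2 * T + L ^ (0.02 : ℝ) with hT₂
    have hT₂0 : 0 ≤ T₂ := by positivity
    clear_value T₂
    -- each `g`
    have hone : ∀ g ∈ S, Abs N p q m₁ X₁ X₂ D₁ D₂ g fam ≤
        8 * x * P * T * T₂ * (1 / g) + W * (8 * x * √x / (D₁ : ℝ) ^ 2) := by
      intro g hg
      rw [hS, mem_filter, mem_Icc] at hg
      obtain ⟨⟨hg1, hg2⟩, hg3⟩ := hg
      have hg0 : (0 : ℝ) < g := by exact_mod_cast hg1
      set M : ℕ := ⌊4 * x * g / (D₁ : ℝ) ^ 2⌋₊ with hM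
      have hMc : ∀ c : ℕ, c * D₁ ^ 2 ≤ X₂ * g → c ≤ M := by
        intro c hc
        rw [hM]
        apply Nat.le_floor
        rw [le_div_iff₀ (by positivity)]
        have h1 : (c : ℝ) * (D₁ : ℝ) ^ 2 ≤ (X₂ : ℝ) * g := by exact_mod_cast hc
        have h2 : (X₂ : ℝ) * g ≤ 4 * x * g := by gcongr
        linarith
      have h1 := hR1.rearr (N := N) (p := p) (q := q) (m₁ := m₁) (X₁ := X₁) (D₂ := D₂) (fam := fam)
        hg1 (th_nonneg hmaj) hMc
      have h2 : ∑ b ∈ hR1.Ag D₁ D₂ g, (1 : ℝ) / b ≤ T := by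
        have h3 := sum_inv_le (u := D₁ / g) (v := 2 * √x / g) (by positivity)
          (by gcongr) (hR1.Ag D₁ D₂ g) (by
            intro b hb
            rw [hR1.Ag, mem_filter, mem_Icc] at hb
            refine ⟨hb.1.1, ?_, ?_⟩
            · rw [div_lt_iff₀ hg0]
              have : (D₁ : ℝ) < ((g * b : ℕ) : ℝ) := by exact_mod_cast hb.2.1
              push_cast at this
              linarith
            · rw [le_div_iff₀ hg0]
              have : ((g * b : ℕ) : ℝ) ≤ D₂ := by exact_mod_cast hb.2.2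
              push_cast at this
              linarith)
        have h4 : 2 * √x / g / (D₁ / g) = 2 * √x / D₁ := by field_simp
        rw [h4] at h3
        linarith
      have h20 : 0 ≤ ∑ b ∈ hR1.Ag D₁ D₂ g, (1 : ℝ) / b := sum_nonneg (fun _ _ => by positivity)
      have h5 : ((hR1.Ag D₁ D₂ g).card : ℝ) ≤ 2 * √x / g := by
        have hsub : hR1.Ag D₁ D₂ g ⊆ Icc 1 ⌊2 * √x / g⌋₊ := by
          intro b hb
          rw [hR1.Ag, mem_filter, mem_Icc] at hb
          rw [mem_Icc]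
          refine ⟨hb.1.1, Nat.le_floor ?_⟩
          rw [le_div_iff₀ hg0]
          have : ((g * b : ℕ) : ℝ) ≤ D₂ := by exact_mod_cast hb.2.2
          push_cast at this
          linarith
        have h6 := card_le_card hsub
        rw [Nat.card_Icc, Nat.add_sub_cancel] at h6
        have h7 : ((hR1.Ag D₁ D₂ g).card : ℝ) ≤ (⌊2 * √x / g⌋₊ : ℝ) := by exact_mod_cast h6
        exact h7.trans (Nat.floor_le (by positivity))
      have hM1 : (1 : ℝ) ≤ 4 * x * g / (D₁ : ℝ) ^ 2 := by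
        rw [le_div_iff₀ (by positivity), one_mul]
        have h6 : (D₁ : ℝ) ^ 2 ≤ (2 * √x) ^ 2 := by gcongr
        have h7 : (2 * √x) ^ 2 = 4 * x := by linear_combination 4 * hss
        have h8 : (1 : ℝ) ≤ g := by exact_mod_cast hg1
        nlinarith
      have h6 : ∑ c ∈ Icc 1 M, (1 : ℝ) / c ≤ T₂ := by
        have h7 := sum_Icc_one_inv hM1 (Icc 1 M) (by
          intro c hc
          rw [mem_Icc] at hc
          refine ⟨hc.1, ?_⟩
          have h8 : (c : ℝ) ≤ (M : ℝ) := by exact_mod_cast hc.2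
          exact h8.trans (Nat.floor_le (by positivity)))
        have h8 : 4 * x * g / (D₁ : ℝ) ^ 2 = (2 * √x / D₁) ^ 2 * g := by
          field_simp
          linear_combination (-4) * hss
        rw [h8, Real.log_mul (by positivity) (by positivity), Real.log_pow] at h7
        have h9 : Real.log g ≤ L ^ (0.02 : ℝ) := by
          rw [hL, ← log_YY]
          exact Real.log_le_log hg0 hg3
        rw [hT₂]
        push_cast at h7
        linarith
      have h60 : 0 ≤ ∑ c ∈ Icc 1 M, (1 : ℝ) / c := sum_nonneg (fun _ _ => by positivity)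
      have hM2 : (M : ℝ) ≤ 4 * x * g / (D₁ : ℝ) ^ 2 := Nat.floor_le (by positivity)
      calc Abs N p q m₁ X₁ X₂ D₁ D₂ g fam
          ≤ ∑ b ∈ hR1.Ag D₁ D₂ g, ∑ c ∈ Icc 1 M,
              (8 * x * P / g * ((1 : ℝ) / b * (1 / c)) + W) := by
            refine h1.trans (sum_le_sum fun b hb => sum_le_sum fun c hc => ?_)
            rw [hR1.Ag, mem_filter, mem_Icc] at hb
            rw [mem_Icc] at hc
            exact hR1.one_le hTA hyp hmaj hQ' hp hX2 hx0.le hg1 hb.1.1 hc.1 hP0 hP hW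
        _ = 8 * x * P / g * ((∑ b ∈ hR1.Ag D₁ D₂ g, (1 : ℝ) / b) * ∑ c ∈ Icc 1 M, (1 : ℝ) / c) +
              W * (((hR1.Ag D₁ D₂ g).card : ℝ) * M) := by
            rw [sum_mul_sum, mul_sum]
            simp only [sum_add_distrib, sum_const, Nat.card_Icc, Nat.add_sub_cancel, nsmul_eq_mul,
              mul_sum]
            ring
        _ ≤ 8 * x * P / g * (T * T₂) + W * ((2 * √x / g) * (4 * x * g / (D₁ : ℝ) ^ 2)) := by
            gcongr
        _ = _ := by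
            field_simp
            ring
    have hsum : ∑ g ∈ S, Abs N p q m₁ X₁ X₂ D₁ D₂ g fam ≤
        8 * x * P * T * T₂ * (1 + L ^ (0.02 : ℝ)) + W * (8 * x * √x / (D₁ : ℝ) ^ 2) * YY x := by
      calc ∑ g ∈ S, Abs N p q m₁ X₁ X₂ D₁ D₂ g fam
          ≤ ∑ g ∈ S, (8 * x * P * T * T₂ * (1 / g) + W * (8 * x * √x / (D₁ : ℝ) ^ 2)) :=
            sum_le_sum hone
        _ = 8 * x * P * T * T₂ * (∑ g ∈ S, (1 : ℝ) / g) + W * (8 * x * √x / (D₁ : ℝ) ^ 2) * S.card := by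
            rw [sum_add_distrib, ← mul_sum, sum_const, nsmul_eq_mul]
            ring
        _ ≤ _ := by gcongr
    refine hsum.trans ?_
    -- main term
    have hmain : 8 * x * P * T * T₂ * (1 + L ^ (0.02 : ℝ)) ≤ x / L ^ (0.93 : ℝ) / 2 := by
      apply main_final hx0 hL1 h4
      have hll' : Real.log L ≤ L ^ (0.002 : ℝ) := by linarith
      have hp2 : L ^ (0.002 : ℝ) * L ^ (0.002 : ℝ) = L ^ (0.004 : ℝ) := by
        rw [← Real.rpow_add hL0]; norm_num
      have hp3 : L ^ (0.022 : ℝ) = L ^ (0.002 : ℝ) * L ^ (0.02 : ℝ) := by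
        rw [← Real.rpow_add hL0]; norm_num
      have h1 : 8 * C * Real.log L ≤ L ^ (0.004 : ℝ) := by
        rw [← hp2]
        gcongr
      have h001 : L ^ (0.002 : ℝ) ≤ L ^ (0.02 : ℝ) := Real.rpow_le_rpow_of_exponent_le hL1 (by norm_num)
      have h002 : 1 ≤ L ^ (0.02 : ℝ) := by linarith
      have h3 : T₂ ≤ L ^ (0.022 : ℝ) := by
        rw [hp3, hT₂]
        nlinarith
      have h5 : 1 + L ^ (0.02 : ℝ) ≤ L ^ (0.022 : ℝ) := by
        rw [hp3]
        nlinarith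
      calc 8 * x * P * T * T₂ * (1 + L ^ (0.02 : ℝ)) =
            x * (8 * C * Real.log L * T * T₂ * (1 + L ^ (0.02 : ℝ)) / L) := by
            rw [hPdef]; ring
        _ ≤ x * (L ^ (0.004 : ℝ) * L ^ (0.002 : ℝ) * L ^ (0.022 : ℝ) * L ^ (0.022 : ℝ) / L) := by
            gcongr
        _ = x * (L ^ (0.05 : ℝ) / L) := by
            rw [← Real.rpow_add hL0, ← Real.rpow_add hL0, ← Real.rpow_add hL0]
            norm_num
        _ ≤ x * (L ^ (0.06 : ℝ) / L) := by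
            have := Real.rpow_le_rpow_of_exponent_le hL1 (by norm_num : (0.05 : ℝ) ≤ 0.06)
            gcongr
    -- error term
    have herr : W * (8 * x * √x / (D₁ : ℝ) ^ 2) * YY x ≤ x / L ^ (0.93 : ℝ) / 2 := by
      have h1 : x / (D₁ : ℝ) ^ 2 ≤ 4 * L ^ (2 * B) := by
        rw [div_le_iff₀ (by positivity)]
        rw [div_le_iff₀ (by positivity)] at hD1
        calc x = √x ^ 2 := by rw [pow_two, hss]
          _ ≤ (D₁ * (2 * L ^ B)) ^ 2 := by gcongr
          _ = _ := by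
            rw [pow_mul']
            ring
      apply err_final hx16 hL1
      have h6 : x ^ (1 / 200 : ℝ) * x ^ (0.01 : ℝ) * √x * (32 * L ^ (2 * B + 1)) ≤ x ^ (3 / 4 : ℝ) := by
        calc x ^ (1 / 200 : ℝ) * x ^ (0.01 : ℝ) * √x * (32 * L ^ (2 * B + 1))
            ≤ x ^ (1 / 200 : ℝ) * x ^ (0.01 : ℝ) * √x * x ^ (0.01 : ℝ) := by gcongr
          _ = x ^ ((1 / 200 : ℝ) + 0.01 + 1 / 2 + 0.01) := by
              rw [Real.rpow_add hx0, Real.rpow_add hx0, Real.rpow_add hx0, Real.sqrt_eq_rpow]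
          _ ≤ x ^ (3 / 4 : ℝ) := Real.rpow_le_rpow_of_exponent_le (by linarith) (by norm_num)
      calc W * (8 * x * √x / (D₁ : ℝ) ^ 2) * YY x = W * (8 * √x * (x / (D₁ : ℝ) ^ 2)) * YY x := by ring
        _ ≤ x ^ (1 / 200 : ℝ) * (8 * √x * (4 * L ^ (2 * B))) * x ^ (0.01 : ℝ) := by gcongr
        _ = x ^ (1 / 200 : ℝ) * x ^ (0.01 : ℝ) * √x * (32 * L ^ (2 * B + 1)) / L := by
            field_simp
            ring
        _ ≤ x ^ (3 / 4 : ℝ) / L := by gcongr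
    linarith
  exact eventually_atTop.mp key

end Pool.Agent.Helper15.AB
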