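import Mathlib
import Pool.Agent.Helper15.AB.StBV
import Pool.Agent.Helper2.Characters
import Pool.Agent.Helper2.Bilinear

set_option autoImplicit false

namespace Pool.Agent.Helper15.AB

open Finset ArithmeticFunction

namespace hT1

theorem w_zero_of_le (w : ℝ → ℝ) (hw : IsW w) (t : ℝ) (ht : t ≤ 0) : w t = 0 := by
  have h : Set.Iic (0 : ℝ) ⊆ {t | w t = 0} := by
    rw [← closure_Iio]
    refine closure_minimal (fun s hs => hw.supp s ?_) (isClosed_eq hw.smooth.continuous continuous_const)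
    intro h
    exact absurd h.1 (not_le.mpr hs)
  exact h ht

theorem w_zero_of_ge (w : ℝ → ℝ) (hw : IsW w) (t : ℝ) (ht : 1 ≤ t) : w t = 0 := by
  have h : Set.Ici (1 : ℝ) ⊆ {t | w t = 0} := by
    rw [← closure_Ioi]
    refine closure_minimal (fun s hs => hw.supp s ?_) (isClosed_eq hw.smooth.continuous continuous_const)
    intro h
    exact absurd h.2 (not_le.mpr hs)
  exact h ht

/-- projection to `[0, c]` -/
noncomputable def cl (c t : ℝ) : ℝ := max 0 (min c t)

theorem cl_mono (c : ℝ) {s t : ℝ} (h : s ≤ t) : cl c s ≤ cl c t :=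
  max_le_max le_rfl (min_le_min le_rfl h)

theorem cl_nonneg (c t : ℝ) : 0 ≤ cl c t := le_max_left _ _

theorem cl_le (c t : ℝ) (hc : 0 ≤ c) : cl c t ≤ c := max_le hc (min_le_left _ _)

theorem cl_eq (c t : ℝ) (h0 : 0 ≤ t) (h1 : t ≤ c) : cl c t = t := by
  unfold cl
  rw [min_eq_right h1, max_eq_right h0]

theorem w_cl (w : ℝ → ℝ) (hw : IsW w) (t : ℝ) : w t = w (cl 1 t) := by
  unfold cl
  rcases le_total t 0 with h | h
  · rw [min_eq_right (h.trans zero_le_one), max_eq_left h, w_zero_of_le w hw t h,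
      w_zero_of_le w hw 0 le_rfl]
  · rcases le_total 1 t with h1 | h1
    · rw [min_eq_left h1, max_eq_right zero_le_one, w_zero_of_ge w hw t h1,
        w_zero_of_ge w hw 1 le_rfl]
    · rw [min_eq_right h1, max_eq_right h]

theorem exists_lip (w : ℝ → ℝ) (hw : IsW w) : ∃ M : ℝ, 0 ≤ M ∧ ∀ s t : ℝ, s ≤ t →
    |w s - w t| ≤ M * (cl 1 t - cl 1 s) := by
  have hc : Continuous (deriv w) := hw.smooth.continuous_deriv (by norm_num)
  obtain ⟨M, hM⟩ := (isCompact_Icc (a := (0 : ℝ)) (b := 1)).exists_bound_of_continuousOn hc.continuousOn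
  have hM0 : 0 ≤ M := (norm_nonneg _).trans (hM 0 ⟨le_rfl, zero_le_one⟩)
  refine ⟨M, hM0, ?_⟩
  intro s t hst
  rw [w_cl w hw s, w_cl w hw t]
  have hs : cl 1 s ∈ Set.Icc (0 : ℝ) 1 := ⟨cl_nonneg _ _, cl_le _ _ zero_le_one⟩
  have ht : cl 1 t ∈ Set.Icc (0 : ℝ) 1 := ⟨cl_nonneg _ _, cl_le _ _ zero_le_one⟩
  have h := Convex.norm_image_sub_le_of_norm_deriv_le (f := w) (s := Set.Icc (0 : ℝ) 1) (C := M)
    (fun x _ => (hw.smooth.differentiable (by norm_num)).differentiableAt) hM (convex_Icc 0 1) ht hs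
  rw [Real.norm_eq_abs, Real.norm_eq_abs] at h
  rw [abs_sub_comm (cl 1 s) (cl 1 t), abs_of_nonneg (sub_nonneg.mpr (cl_mono 1 hst))] at h
  exact h

/-- Abel summation -/
theorem norm_abel (c : ℕ → ℂ) (F : ℝ) (hF : ∀ k, ‖∑ n ∈ Ioc 0 k, c n‖ ≤ F) (g : ℕ → ℝ) (V W : ℝ)
    (hW : 0 ≤ W) (hg : ∀ N, 1 ≤ N → |g N| ≤ W)
    (h : ℕ → ℝ) (hh : ∀ k, 1 ≤ k → |g k - g (k + 1)| ≤ h (k + 1) - h k)
    (hV : ∀ N, 1 ≤ N → h N - h 1 ≤ V) (hV0 : 0 ≤ V) (N : ℕ) :
    ‖∑ n ∈ Ioc 0 N, (g n : ℂ) * c n‖ ≤ F * (W + V) := by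
  have hF0 : 0 ≤ F := (norm_nonneg _).trans (hF 0)
  rcases Nat.eq_zero_or_pos N with h0 | hN
  · subst h0
    simp only [Ioc_self, sum_empty, norm_zero]
    positivity
  have e : ∑ n ∈ Ioc 0 N, (g n : ℂ) * c n = ∑ n ∈ Ioc 0 N, c n * (g n : ℂ) :=
    Finset.sum_congr rfl fun n _ => mul_comm _ _
  rw [e, Pool.Agent.Helper2.abel_identity c g N hN]
  have h1 : ‖(∑ n ∈ Ioc 0 N, c n) * (g N : ℂ)‖ ≤ F * W := by
    rw [norm_mul, Complex.norm_real, Real.norm_eq_abs]
    exact mul_le_mul (hF N) (hg N hN) (abs_nonneg _) hF0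
  have h2 : ‖∑ k ∈ Ico 1 N, (∑ n ∈ Ioc 0 k, c n) * ((g k - g (k + 1) : ℝ) : ℂ)‖ ≤ F * V := by
    refine (norm_sum_le _ _).trans ?_
    calc ∑ k ∈ Ico 1 N, ‖(∑ n ∈ Ioc 0 k, c n) * ((g k - g (k + 1) : ℝ) : ℂ)‖
        ≤ ∑ k ∈ Ico 1 N, F * (h (k + 1) - h k) := by
          refine Finset.sum_le_sum fun k hk => ?_
          rw [norm_mul, Complex.norm_real, Real.norm_eq_abs]
          exact mul_le_mul (hF k) (hh k (Finset.mem_Ico.1 hk).1) (abs_nonneg _) hF0
      _ = F * (h N - h 1) := by
          rw [← Finset.mul_sum, Finset.sum_Ico_sub h hN]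
      _ ≤ F * V := mul_le_mul_of_nonneg_left (hV N hN) hF0
  calc _ ≤ _ := norm_add_le _ _
    _ ≤ F * W + F * V := add_le_add h1 h2
    _ = F * (W + V) := by ring

end hT1

open hT1 in
theorem hT1 : StT1 := by
  intro w hw
  obtain ⟨M, hM0, hM⟩ := exists_lip w hw
  refine ⟨3 + 2 * M, by positivity, ?_⟩
  intro r hr ψ y K hψ hy _
  have hpart : ∀ k : ℕ, ‖∑ n ∈ Ioc 0 k, ψ (n : ZMod r)‖ ≤ r := fun k =>
    Pool.Agent.Helper2.norm_sum_char_le ψ hψ k
  have hIcc : Icc 1 K = Ioc 0 K := by ext n; simp [Nat.lt_iff_add_one_le]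
  have hr0 : (0 : ℝ) ≤ r := Nat.cast_nonneg r
  have hlogmono : ∀ k : ℕ, 1 ≤ k → Real.log (k / y) ≤ Real.log ((k + 1 : ℕ) / y) := by
    intro k hk
    have hk0 : (0 : ℝ) < k := by exact_mod_cast hk
    apply Real.log_le_log (by positivity)
    push_cast
    gcongr
    linarith
  have hdiv : ∀ k : ℕ, 1 ≤ k → Real.log (k / y) = Real.log k - Real.log y := by
    intro k hk
    have hk0 : (k : ℝ) ≠ 0 := by positivity
    rw [Real.log_div hk0 hy.ne']
  have hstep : ∀ k : ℕ, 1 ≤ k → Real.log ((k + 1 : ℕ) : ℝ) ≤ Real.log k + 1 := by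
    intro k hk
    have hk0 : (1 : ℝ) ≤ k := by exact_mod_cast hk
    have h1 : ((k + 1 : ℕ) : ℝ) ≤ k * Real.exp 1 := by
      have := Real.add_one_le_exp (1 : ℝ)
      push_cast
      nlinarith
    calc Real.log ((k + 1 : ℕ) : ℝ) ≤ Real.log (k * Real.exp 1) := Real.log_le_log (by positivity) h1
      _ = Real.log k + 1 := by rw [Real.log_mul (by positivity) (Real.exp_pos 1).ne', Real.log_exp]
  have hly : Real.log y ≤ Real.log (1 + y) := Real.log_le_log hy (by linarith)
  have hly0 : 0 ≤ Real.log (1 + y) := Real.log_nonneg (by linarith)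
  constructor
  · rw [hIcc]
    have h := norm_abel (fun n => ψ (n : ZMod r)) r hpart (fun k => w (Real.log (k / y))) M 1
      zero_le_one
      (fun N hN => by
        show |w (Real.log (N / y))| ≤ 1
        rw [abs_of_nonneg (hw.nonneg _)]
        exact hw.le_one _)
      (fun k => M * cl 1 (Real.log (k / y)))
      (fun k hk => by
        have := hM _ _ (hlogmono k hk)
        show |w (Real.log (k / y)) - w (Real.log ((k + 1 : ℕ) / y))| ≤
          M * cl 1 (Real.log ((k + 1 : ℕ) / y)) - M * cl 1 (Real.log (k / y))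
        linarith)
      (fun N hN => by
        have h1 := cl_le 1 (Real.log (N / y)) zero_le_one
        have h2 := cl_nonneg 1 (Real.log ((1 : ℕ) / y))
        show M * cl 1 (Real.log (N / y)) - M * cl 1 (Real.log ((1 : ℕ) / y)) ≤ M
        nlinarith) hM0 K
    refine h.trans ?_
    rw [mul_comm (3 + 2 * M)]
    apply mul_le_mul_of_nonneg_left _ hr0
    linarith
  · rw [hIcc]
    have hsupp : ∀ k : ℕ, 1 ≤ k → w (Real.log (k / y)) ≠ 0 → 0 ≤ Real.log k - Real.log y ∧
        Real.log k - Real.log y ≤ 1 := by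
      intro k hk hne
      have : Real.log (k / y) ∈ Set.Icc (0 : ℝ) 1 := by
        by_contra hcon
        exact hne (hw.supp _ hcon)
      rw [hdiv k hk] at this
      exact this
    have h := norm_abel (fun n => ψ (n : ZMod r)) r hpart
      (fun k => Real.log k * w (Real.log (k / y)))
      (2 * (1 + Real.log (1 + y)) * M + 2) (1 + Real.log (1 + y))
      (by linarith)
      (fun N hN => by
        show |Real.log N * w (Real.log (N / y))| ≤ 1 + Real.log (1 + y)
        have hlN : 0 ≤ Real.log (N : ℝ) := Real.log_natCast_nonneg N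
        rw [abs_of_nonneg (mul_nonneg hlN (hw.nonneg _))]
        by_cases h0 : w (Real.log (N / y)) = 0
        · rw [h0, mul_zero]; linarith
        · have h1 := hsupp N hN h0
          have h2 := hw.le_one (Real.log (N / y))
          have h3 := hw.nonneg (Real.log (N / y))
          calc Real.log N * w (Real.log (N / y)) ≤ Real.log N * 1 :=
                mul_le_mul_of_nonneg_left h2 hlN
            _ ≤ 1 + Real.log (1 + y) := by linarith)
      (fun k => 2 * (1 + Real.log (1 + y)) * (M * cl 1 (Real.log (k / y))) + cl 2 (Real.log (k / y)))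
      (fun k hk => by
        show |Real.log k * w (Real.log (k / y)) -
            Real.log ((k + 1 : ℕ) : ℝ) * w (Real.log ((k + 1 : ℕ) / y))| ≤
          (2 * (1 + Real.log (1 + y)) * (M * cl 1 (Real.log ((k + 1 : ℕ) / y))) +
            cl 2 (Real.log ((k + 1 : ℕ) / y))) -
          (2 * (1 + Real.log (1 + y)) * (M * cl 1 (Real.log (k / y))) + cl 2 (Real.log (k / y)))
        have hm := hlogmono k hk
        have h1 := hM _ _ hm
        have h2 := cl_mono 2 hm
        have h2' := cl_mono 1 hm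
        have hs := hstep k hk
        have hk1 : 1 ≤ k + 1 := by omega
        have hlk : 0 ≤ Real.log (k : ℝ) := Real.log_natCast_nonneg k
        have hlk1 : 0 ≤ Real.log ((k + 1 : ℕ) : ℝ) := Real.log_natCast_nonneg (k + 1)
        have hlkk : Real.log (k : ℝ) ≤ Real.log ((k + 1 : ℕ) : ℝ) := by
          apply Real.log_le_log (by exact_mod_cast hk)
          push_cast; linarith
        have hd : Real.log ((k + 1 : ℕ) / y) = Real.log ((k + 1 : ℕ) : ℝ) - Real.log y := hdiv (k + 1) hk1
        have hd0 := hdiv k hk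
        set a := w (Real.log (k / y)) with ha
        set b := w (Real.log ((k + 1 : ℕ) / y)) with hb
        have ha0 : 0 ≤ a := hw.nonneg _
        have ha1 : a ≤ 1 := hw.le_one _
        have e : Real.log k * a - Real.log ((k + 1 : ℕ) : ℝ) * b =
            Real.log ((k + 1 : ℕ) : ℝ) * (a - b) - (Real.log ((k + 1 : ℕ) : ℝ) - Real.log k) * a := by
          ring
        rw [e]
        have p1 : |Real.log ((k + 1 : ℕ) : ℝ) * (a - b)| ≤ 2 * (1 + Real.log (1 + y)) *
            (M * (cl 1 (Real.log ((k + 1 : ℕ) / y)) - cl 1 (Real.log (k / y)))) := by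
          rw [abs_mul, abs_of_nonneg hlk1]
          by_cases hab : a = 0 ∧ b = 0
          · rw [hab.1, hab.2, sub_zero, abs_zero, mul_zero]
            have : 0 ≤ cl 1 (Real.log ((k + 1 : ℕ) / y)) - cl 1 (Real.log (k / y)) := by linarith
            positivity
          · have hle : Real.log ((k + 1 : ℕ) : ℝ) ≤ 2 * (1 + Real.log (1 + y)) := by
              by_cases ha' : a = 0
              · have hb' : b ≠ 0 := fun h => hab ⟨ha', h⟩
                have := hsupp (k + 1) hk1 hb'
                linarith [this.2]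
              · have := hsupp k hk ha'
                linarith [this.2]
            exact mul_le_mul hle h1 (abs_nonneg _) (by linarith)
        have p2 : |(Real.log ((k + 1 : ℕ) : ℝ) - Real.log k) * a| ≤
            cl 2 (Real.log ((k + 1 : ℕ) / y)) - cl 2 (Real.log (k / y)) := by
          rw [abs_of_nonneg (mul_nonneg (sub_nonneg.mpr hlkk) ha0)]
          by_cases ha' : a = 0
          · rw [ha', mul_zero]; linarith
          · have hz := hsupp k hk ha'
            rw [hd, hd0, cl_eq 2 (Real.log ((k + 1 : ℕ) : ℝ) - Real.log y) (by linarith [hz.1]) (by linarith [hz.2]),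
              cl_eq 2 (Real.log (k : ℝ) - Real.log y) hz.1 (by linarith [hz.2])]
            have : (Real.log ((k + 1 : ℕ) : ℝ) - Real.log k) * a ≤
                (Real.log ((k + 1 : ℕ) : ℝ) - Real.log k) * 1 :=
              mul_le_mul_of_nonneg_left ha1 (sub_nonneg.mpr hlkk)
            linarith
        have p3 := abs_sub (Real.log ((k + 1 : ℕ) : ℝ) * (a - b))
          ((Real.log ((k + 1 : ℕ) : ℝ) - Real.log k) * a)
        calc _ ≤ _ := p3
          _ ≤ _ := add_le_add p1 p2
          _ = _ := by ring)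
      (fun N hN => by
        show (2 * (1 + Real.log (1 + y)) * (M * cl 1 (Real.log (N / y))) + cl 2 (Real.log (N / y))) -
          (2 * (1 + Real.log (1 + y)) * (M * cl 1 (Real.log ((1 : ℕ) / y))) + cl 2 (Real.log ((1 : ℕ) / y))) ≤
          2 * (1 + Real.log (1 + y)) * M + 2
        have h1 := cl_le 1 (Real.log (N / y)) zero_le_one
        have h2 := cl_nonneg 1 (Real.log ((1 : ℕ) / y))
        have h3 := cl_le 2 (Real.log (N / y)) zero_le_two
        have h4 := cl_nonneg 2 (Real.log ((1 : ℕ) / y))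
        have h5 : 0 ≤ 2 * (1 + Real.log (1 + y)) * M := by
          have : 0 ≤ 1 + Real.log (1 + y) := by linarith
          positivity
        have h6 : 2 * (1 + Real.log (1 + y)) * (M * cl 1 (Real.log (N / y))) ≤
            2 * (1 + Real.log (1 + y)) * M := by
          calc 2 * (1 + Real.log (1 + y)) * (M * cl 1 (Real.log (N / y))) =
                2 * (1 + Real.log (1 + y)) * M * cl 1 (Real.log (N / y)) := by ring
            _ ≤ 2 * (1 + Real.log (1 + y)) * M * 1 := mul_le_mul_of_nonneg_left h1 h5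
            _ = _ := mul_one _
        have h7 : 0 ≤ 2 * (1 + Real.log (1 + y)) * (M * cl 1 (Real.log ((1 : ℕ) / y))) := by
          have := mul_nonneg h5 h2
          linarith [this, show 2 * (1 + Real.log (1 + y)) * (M * cl 1 (Real.log ((1 : ℕ) / y))) =
            2 * (1 + Real.log (1 + y)) * M * cl 1 (Real.log ((1 : ℕ) / y)) by ring]
        linarith)
      (by
        have : 0 ≤ 1 + Real.log (1 + y) := by linarith
        positivity) K
    refine h.trans ?_
    have e : (3 + 2 * M) * r * (1 + Real.log (1 + y)) = r * ((3 + 2 * M) * (1 + Real.log (1 + y))) := by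
      ring
    rw [e]
    apply mul_le_mul_of_nonneg_left _ hr0
    nlinarith

end Pool.Agent.Helper15.AB
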