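import Mathlib
import Pool.Agent.Helper15.AB.StMid
import Pool.Agent.Helper2.DivisorSum
import Pool.Agent.Helper15.AB.M_T1

set_option autoImplicit false

namespace Pool.Agent.Helper15.AB

open Finset ArithmeticFunction

namespace hR2b

/-- `∑_{δ ∣ b} μ(δ)/δ` -/
noncomputable def kap (b : ℕ) : ℝ := ∑ δ ∈ b.divisors, ((moebius δ : ℤ) : ℝ) / δ

theorem sum_mob (n : ℕ) : ∑ δ ∈ n.divisors, ((moebius δ : ℤ) : ℝ) = if n = 1 then 1 else 0 := by
  have h := congrArg (fun f : ArithmeticFunction ℝ => f n) (coe_moebius_mul_coe_zeta (R := ℝ))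
  simp only [coe_mul_zeta_apply, one_apply] at h
  simpa using h

theorem sum_cop (S : Finset ℕ) (b : ℕ) (hb : 1 ≤ b) :
    ((S.filter (fun n => Nat.Coprime n b)).card : ℝ) =
      ∑ δ ∈ b.divisors, ((moebius δ : ℤ) : ℝ) * ((S.filter (fun n => δ ∣ n)).card : ℝ) := by
  have h1 : ∀ n : ℕ, (if Nat.Coprime n b then (1 : ℝ) else 0) =
      ∑ δ ∈ b.divisors, if δ ∣ n then ((moebius δ : ℤ) : ℝ) else 0 := by
    intro n
    rw [← Finset.sum_filter]
    have e : b.divisors.filter (fun δ => δ ∣ n) = (Nat.gcd n b).divisors := by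
      ext δ
      simp only [mem_filter, Nat.mem_divisors]
      constructor
      · rintro ⟨⟨h1, h2⟩, h3⟩
        exact ⟨Nat.dvd_gcd h3 h1, (Nat.gcd_pos_of_pos_right n hb).ne'⟩
      · rintro ⟨h1, _⟩
        exact ⟨⟨h1.trans (Nat.gcd_dvd_right n b), by omega⟩, h1.trans (Nat.gcd_dvd_left n b)⟩
    rw [e, sum_mob]
  have h2 : ((S.filter (fun n => Nat.Coprime n b)).card : ℝ) =
      ∑ n ∈ S, (if Nat.Coprime n b then (1 : ℝ) else 0) := by
    rw [Finset.sum_ite, Finset.sum_const_zero, add_zero, Finset.sum_const, nsmul_eq_mul, mul_one]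
  rw [h2, Finset.sum_congr rfl (fun n _ => h1 n), Finset.sum_comm]
  refine Finset.sum_congr rfl fun δ _ => ?_
  rw [Finset.sum_ite, Finset.sum_const_zero, add_zero, Finset.sum_const, nsmul_eq_mul, mul_comm]

theorem kap_mul (b : ℕ) (hb : 1 ≤ b) : kap b * b = (((Ioc 0 b).filter (fun n => Nat.Coprime n b)).card : ℝ) := by
  rw [sum_cop _ b hb, kap, Finset.sum_mul]
  refine Finset.sum_congr rfl fun δ hδ => ?_
  have hd := (Nat.mem_divisors.1 hδ).1
  have hδ0 : 0 < δ := Nat.pos_of_mem_divisors hδ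
  have h : ((Ioc 0 b).filter (fun n => δ ∣ n)).card = b / δ := Nat.Ioc_filter_dvd_card_eq_div b δ
  rw [h, Nat.cast_div hd (by positivity)]
  have : (δ : ℝ) ≠ 0 := by positivity
  field_simp

theorem kap_nonneg (b : ℕ) (hb : 1 ≤ b) : 0 ≤ kap b := by
  have h := kap_mul b hb
  have hb' : (0 : ℝ) < b := by exact_mod_cast hb
  by_contra hcon
  push Not at hcon
  have h1 : kap b * b < 0 := mul_neg_of_neg_of_pos hcon hb'
  rw [h] at h1
  exact absurd h1 (not_lt.mpr (Nat.cast_nonneg _))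

theorem kap_le_one (b : ℕ) (hb : 1 ≤ b) : kap b ≤ 1 := by
  have h := kap_mul b hb
  have hb' : (0 : ℝ) < b := by exact_mod_cast hb
  have h1 : (((Ioc 0 b).filter (fun n => Nat.Coprime n b)).card : ℝ) ≤ b := by
    have := Finset.card_filter_le (Ioc 0 b) (fun n => Nat.Coprime n b)
    rw [Nat.card_Ioc, Nat.sub_zero] at this
    exact_mod_cast this
  rw [← h] at h1
  by_contra hcon
  push Not at hcon
  nlinarith

/-- integers in an interval in a residue class -/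
theorem cntAP (S : Finset ℕ) (s t : ℝ) (hs : 0 ≤ s) (hst : s ≤ t) (r v : ℕ) (hr : 0 < r)
    (hS : ∀ n, n ∈ S ↔ s < n ∧ (n : ℝ) ≤ t ∧ n % r = v % r) : |(S.card : ℝ) - (t - s) / r| ≤ 1 := by
  have hr0 : (0 : ℝ) < r := by exact_mod_cast hr
  have hcard : S.card = (Ioc ⌊(s - v) / r⌋ ⌊(t - v) / r⌋).card := by
    apply Finset.card_bij' (fun (n : ℕ) _ => ((n : ℤ) - v) / r) (fun (z : ℤ) _ => (v + r * z).toNat)
    · intro n hn
      obtain ⟨h1, h2, h3⟩ := (hS n).1 hn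
      have hd : (r : ℤ) ∣ (n : ℤ) - v := (Nat.modEq_iff_dvd.1 (show v ≡ n [MOD r] from h3.symm))
      obtain ⟨z, hz⟩ := hd
      rw [hz, Int.mul_ediv_cancel_left _ (by omega : (r : ℤ) ≠ 0)]
      have hz' : (n : ℝ) - v = r * z := by exact_mod_cast hz
      rw [mem_Ioc]
      constructor
      · rw [Int.floor_lt, div_lt_iff₀ hr0]
        linarith
      · rw [Int.le_floor, le_div_iff₀ hr0]
        linarith
    · intro z hz
      rw [mem_Ioc, Int.floor_lt, Int.le_floor, div_lt_iff₀ hr0, le_div_iff₀ hr0] at hz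
      have h0 : (0 : ℝ) < v + r * z := by linarith [hz.1]
      have h0' : (0 : ℤ) < v + r * z := by exact_mod_cast h0
      have hcast : (((v + r * z).toNat : ℕ) : ℤ) = v + r * z := Int.toNat_of_nonneg h0'.le
      have hcastR : (((v + r * z : ℤ).toNat : ℕ) : ℝ) = v + r * z := by
        have := congrArg (fun y : ℤ => (y : ℝ)) hcast
        push_cast at this
        exact_mod_cast this
      apply (hS _).2
      refine ⟨by rw [hcastR]; linarith [hz.1], by rw [hcastR]; linarith [hz.2], ?_⟩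
      have : ((v + r * z : ℤ).toNat) ≡ v [MOD r] := by
        rw [← Int.natCast_modEq_iff, hcast]
        have : (v : ℤ) + r * z ≡ v + 0 [ZMOD r] := Int.ModEq.add_left _ (Int.modEq_zero_iff_dvd.2 (dvd_mul_right _ _))
        simp
      exact this
    · intro n hn
      obtain ⟨h1, h2, h3⟩ := (hS n).1 hn
      have hd : (r : ℤ) ∣ (n : ℤ) - v := (Nat.modEq_iff_dvd.1 (show v ≡ n [MOD r] from h3.symm))
      simp only [Int.mul_ediv_cancel' hd]
      simp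
    · intro z hz
      rw [mem_Ioc, Int.floor_lt, Int.le_floor, div_lt_iff₀ hr0, le_div_iff₀ hr0] at hz
      have h0 : (0 : ℝ) < v + r * z := by linarith [hz.1]
      have h0' : (0 : ℤ) < v + r * z := by exact_mod_cast h0
      simp only [Int.toNat_of_nonneg h0'.le, add_sub_cancel_left]
      exact Int.mul_ediv_cancel_left _ (by omega)
  have hle : ⌊(s - v) / r⌋ ≤ ⌊(t - v) / r⌋ := by
    apply Int.floor_le_floor
    gcongr
  have hcard2 : (S.card : ℝ) = (⌊(t - v) / r⌋ : ℝ) - ⌊(s - v) / r⌋ := by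
    rw [hcard, Int.card_Ioc]
    have : (((⌊(t - v) / r⌋ - ⌊(s - v) / r⌋).toNat : ℕ) : ℤ) = ⌊(t - v) / r⌋ - ⌊(s - v) / r⌋ :=
      Int.toNat_of_nonneg (by linarith)
    have h2 := congrArg (fun y : ℤ => (y : ℝ)) this
    push_cast at h2
    exact_mod_cast h2
  rw [hcard2]
  have e : (t - s) / r = (t - v) / r - (s - v) / r := by ring
  rw [e, abs_le]
  have f1 := Int.floor_le ((t - v) / r)
  have f2 := Int.lt_floor_add_one ((t - v) / r)
  have f3 := Int.floor_le ((s - v) / r)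
  have f4 := Int.lt_floor_add_one ((s - v) / r)
  constructor <;> linarith

/-- integers in an interval in a residue class, coprime to `b` -/
theorem cntCop (S : Finset ℕ) (s t : ℝ) (hs : 0 ≤ s) (hst : s ≤ t) (r v b : ℕ) (hr : 0 < r) (hb : 1 ≤ b)
    (hbr : Nat.Coprime r b)
    (hS : ∀ n, n ∈ S ↔ s < n ∧ (n : ℝ) ≤ t ∧ n % r = v % r) :
    |((S.filter (fun n => Nat.Coprime n b)).card : ℝ) - (t - s) * kap b / r| ≤ (b.divisors.card : ℝ) := by
  rw [sum_cop S b hb, kap, Finset.mul_sum, Finset.sum_div, ← Finset.sum_sub_distrib]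
  refine (Finset.abs_sum_le_sum_abs _ _).trans ?_
  calc _ ≤ ∑ δ ∈ b.divisors, (1 : ℝ) := by
        refine Finset.sum_le_sum fun δ hδ => ?_
        have hd := (Nat.mem_divisors.1 hδ).1
        have hδ0 : 0 < δ := Nat.pos_of_mem_divisors hδ
        have hco : Nat.Coprime r δ := Nat.Coprime.coprime_dvd_right hd hbr
        have hc := Nat.chineseRemainder hco v 0
        have h := cntAP (S.filter (fun n => δ ∣ n)) s t hs hst (r * δ) hc.1 (by positivity) (by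
          intro n
          rw [mem_filter, hS n]
          have h1 := hc.2.1
          have h2 := hc.2.2
          have key : (n % r = v % r ∧ δ ∣ n) ↔ n % (r * δ) = (hc.1 : ℕ) % (r * δ) := by
            have k1 : (n ≡ hc.1 [MOD r] ∧ n ≡ hc.1 [MOD δ]) ↔ n ≡ hc.1 [MOD (r * δ)] :=
              Nat.modEq_and_modEq_iff_modEq_mul hco
            constructor
            · rintro ⟨ha, hb'⟩
              exact k1.1 ⟨(show n ≡ v [MOD r] from ha).trans h1.symm,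
                ((Nat.modEq_zero_iff_dvd.2 hb').trans h2.symm)⟩
            · intro hh
              obtain ⟨ha, hb'⟩ := k1.2 hh
              exact ⟨ha.trans h1, Nat.modEq_zero_iff_dvd.1 (hb'.trans h2)⟩
          constructor
          · rintro ⟨⟨h1', h2', h3'⟩, h4'⟩
            exact ⟨h1', h2', key.1 ⟨h3', h4'⟩⟩
          · rintro ⟨h1', h2', h3'⟩
            have := key.2 h3'
            exact ⟨⟨h1', h2', this.1⟩, this.2⟩)
        have e : ((moebius δ : ℤ) : ℝ) * ((S.filter (fun n => δ ∣ n)).card : ℝ) -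
            (t - s) * (((moebius δ : ℤ) : ℝ) / δ) / r =
            ((moebius δ : ℤ) : ℝ) * (((S.filter (fun n => δ ∣ n)).card : ℝ) - (t - s) / ((r * δ : ℕ) : ℝ)) := by
          push_cast
          have : (δ : ℝ) ≠ 0 := by positivity
          have : (r : ℝ) ≠ 0 := by positivity
          field_simp
        rw [e, abs_mul]
        have hmob : |((moebius δ : ℤ) : ℝ)| ≤ 1 := by
          have : |moebius δ| ≤ 1 := abs_moebius_le_one
          rw [← Int.cast_abs]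
          exact_mod_cast this
        calc |((moebius δ : ℤ) : ℝ)| * _ ≤ 1 * 1 := mul_le_mul hmob h (abs_nonneg _) zero_le_one
          _ = 1 := one_mul _
    _ = (b.divisors.card : ℝ) := by simp

/-- one residue class -/
theorem cls (N p q m₁ E k : ℕ) (hq : 1 ≤ q) (hE : 1 ≤ E) (hqE : Nat.Coprime q E)
    (hkq : Nat.Coprime k q) (hkE : Nat.Coprime (N * k) E) :
    ∃ v : ℕ, ∀ b : ℕ, ((k * b) % q = m₁ % q ∧ (E : ℤ) ∣ (N : ℤ) * ((k * b : ℕ) : ℤ) - p) ↔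
      b % (q * E) = v % (q * E) := by
  haveI : NeZero q := ⟨by omega⟩
  haveI : NeZero E := ⟨by omega⟩
  obtain ⟨u, hu⟩ : ∃ u : (ZMod q)ˣ, (u : ZMod q) = (k : ZMod q) := ⟨ZMod.unitOfCoprime k hkq, rfl⟩
  obtain ⟨u', hu'⟩ : ∃ u : (ZMod E)ˣ, (u : ZMod E) = ((N * k : ℕ) : ZMod E) :=
    ⟨ZMod.unitOfCoprime (N * k) hkE, rfl⟩
  have h1 : ∀ b : ℕ, (k * b) % q = m₁ % q ↔ b ≡ ((↑u⁻¹ : ZMod q) * (m₁ : ZMod q)).val [MOD q] := by
    intro b
    rw [← ZMod.natCast_eq_natCast_iff' (k * b) m₁ q, ← ZMod.natCast_eq_natCast_iff, ZMod.natCast_zmod_val]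
    push_cast
    rw [← hu]
    constructor
    · intro h
      rw [← h, ← mul_assoc, Units.inv_mul, one_mul]
    · intro h
      rw [h, ← mul_assoc, Units.mul_inv, one_mul]
  have h2 : ∀ b : ℕ, (E : ℤ) ∣ (N : ℤ) * ((k * b : ℕ) : ℤ) - p ↔
      b ≡ ((↑u'⁻¹ : ZMod E) * (p : ZMod E)).val [MOD E] := by
    intro b
    rw [← ZMod.intCast_zmod_eq_zero_iff_dvd, ← ZMod.natCast_eq_natCast_iff, ZMod.natCast_zmod_val]
    have e : (((N : ℤ) * ((k * b : ℕ) : ℤ) - p : ℤ) : ZMod E) = (u' : ZMod E) * (b : ZMod E) - p := by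
      rw [hu']
      push_cast
      ring
    rw [e, sub_eq_zero]
    constructor
    · intro h
      rw [← h, ← mul_assoc, Units.inv_mul, one_mul]
    · intro h
      rw [h, ← mul_assoc, Units.mul_inv, one_mul]
  have hc := Nat.chineseRemainder hqE ((↑u⁻¹ : ZMod q) * (m₁ : ZMod q)).val
    ((↑u'⁻¹ : ZMod E) * (p : ZMod E)).val
  refine ⟨hc.1, fun b => ?_⟩
  rw [h1, h2]
  have k1 : (b ≡ hc.1 [MOD q] ∧ b ≡ hc.1 [MOD E]) ↔ b ≡ hc.1 [MOD (q * E)] :=
    Nat.modEq_and_modEq_iff_modEq_mul hqE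
  constructor
  · rintro ⟨ha, hb⟩
    exact k1.1 ⟨ha.trans hc.2.1.symm, hb.trans hc.2.2.symm⟩
  · intro hh
    obtain ⟨ha, hb⟩ := k1.2 hh
    exact ⟨ha.trans hc.2.1, hb.trans hc.2.2⟩

theorem cop_of_mod (m₁ q k b : ℕ) (hm : Nat.Coprime m₁ q) (h : (k * b) % q = m₁ % q) :
    Nat.Coprime k q := by
  have h1 : Nat.gcd (k * b) q = Nat.gcd m₁ q := Nat.ModEq.gcd_eq h
  have h2 : Nat.Coprime (k * b) q := by rw [Nat.Coprime, h1]; exact hm
  exact Nat.Coprime.coprime_mul_right h2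

theorem cop_of_dvd (N p q E k b : ℕ) (hp : p.Prime) (hpq : p ∣ q) (hEq : Nat.Coprime E q)
    (h : (E : ℤ) ∣ (N : ℤ) * ((k * b : ℕ) : ℤ) - p) : Nat.Coprime k E := by
  by_contra hcon
  obtain ⟨l, hl, hlk, hlE⟩ := Nat.Prime.not_coprime_iff_dvd.1 hcon
  have h1 : (l : ℤ) ∣ (N : ℤ) * ((k * b : ℕ) : ℤ) - p := (Int.natCast_dvd_natCast.2 hlE).trans h
  have h2 : (l : ℤ) ∣ (N : ℤ) * ((k * b : ℕ) : ℤ) := by
    apply Dvd.dvd.mul_left
    exact Int.natCast_dvd_natCast.2 (hlk.mul_right b)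
  have h3 : (l : ℤ) ∣ (p : ℤ) := by
    have := dvd_sub h2 h1
    simpa using this
  have h4 : l ∣ p := Int.natCast_dvd_natCast.1 h3
  have h5 : l = p := (Nat.prime_dvd_prime_iff_eq hl hp).1 h4
  have h6 : l ∣ q := h5 ▸ hpq
  exact (Nat.Prime.not_coprime_iff_dvd.2 ⟨l, hl, hlE, h6⟩) hEq

theorem c4_mul (m n : ℕ) : c4 (m * n) = c4 m * c4 n := by
  unfold c4
  have hm : m % 4 = 0 ∨ m % 4 = 1 ∨ m % 4 = 2 ∨ m % 4 = 3 := by omega
  have hn : n % 4 = 0 ∨ n % 4 = 1 ∨ n % 4 = 2 ∨ n % 4 = 3 := by omega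
  rcases hm with h | h | h | h <;> rcases hn with h' | h' | h' | h' <;>
    simp [Nat.mul_mod, h, h']

theorem c4_abs (n : ℕ) : |c4 n| ≤ 1 := by
  unfold c4
  split_ifs <;> simp

theorem c4_of_one (n : ℕ) (h : n % 4 = 1) : c4 n = 1 := by
  unfold c4
  rw [if_pos h]

theorem c4_sq (n : ℕ) (h : c4 n ≠ 0) : c4 n * c4 n = 1 := by
  unfold c4 at *
  split_ifs at * <;> simp_all

theorem c4_key (g b₁ b₂ c : ℕ) (h : (g * b₁ * b₂ * c) % 4 = 1) :
    c4 (g * b₁) * c4 (g * b₂) = c4 g * c4 c := by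
  have h1 := c4_of_one _ h
  rw [c4_mul, c4_mul, c4_mul] at h1
  have hc : c4 c ≠ 0 := by
    intro h0
    rw [h0] at h1
    simp at h1
  have hc2 := c4_sq c hc
  rw [c4_mul, c4_mul]
  calc c4 g * c4 b₁ * (c4 g * c4 b₂) = c4 g * (c4 g * c4 b₁ * c4 b₂) * (c4 c * c4 c) := by
        rw [hc2]; ring
    _ = c4 g * (c4 g * c4 b₁ * c4 b₂ * c4 c) * c4 c := by ring
    _ = c4 g * c4 c := by rw [h1]; ring

/-- length of the interval of `b₁` -/
noncomputable def II (D₁ D₂ X₁ X₂ g b₂ c : ℕ) : ℝ :=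
  max 0 (min ((D₂ : ℝ) / g) ((X₂ : ℝ) / (g * b₂ * c)) - max ((D₁ : ℝ) / g) ((X₁ : ℝ) / (g * b₂ * c)))

theorem II_abel (D₁ D₂ X₁ X₂ g b₂ : ℕ) (hg : 1 ≤ g) (hb : 1 ≤ b₂) (a : ℕ → ℝ) (F : ℝ)
    (hF : ∀ n, |∑ c ∈ Icc 1 n, a c| ≤ F) (n : ℕ) :
    |∑ c ∈ Icc 1 n, a c * II D₁ D₂ X₁ X₂ g b₂ c| ≤ F * (3 * ((D₂ : ℝ) / g)) := by
  set W : ℝ := (D₂ : ℝ) / g with hW
  have hg0 : (0 : ℝ) < g := by exact_mod_cast hg
  have hb0 : (0 : ℝ) < b₂ := by exact_mod_cast hb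
  have hW0 : 0 ≤ W := by positivity
  set u : ℕ → ℝ := fun c => min W ((X₂ : ℝ) / (g * b₂ * c)) with hu
  set v : ℕ → ℝ := fun c => min W (max ((D₁ : ℝ) / g) ((X₁ : ℝ) / (g * b₂ * c))) with hv
  have hu0 : ∀ c, 0 ≤ u c := fun c => le_min hW0 (by positivity)
  have hv0 : ∀ c, 0 ≤ v c := fun c => le_min hW0 (le_max_of_le_left (by positivity))
  have huW : ∀ c, u c ≤ W := fun c => min_le_left _ _
  have hvW : ∀ c, v c ≤ W := fun c => min_le_left _ _
  have hmono : ∀ (X c : ℕ), 1 ≤ c → (X : ℝ) / (g * b₂ * ((c + 1 : ℕ) : ℝ)) ≤ (X : ℝ) / (g * b₂ * c) := by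
    intro X c hc
    have hc0 : (0 : ℝ) < c := by exact_mod_cast hc
    push_cast
    gcongr
    linarith
  have hua : ∀ c, 1 ≤ c → u (c + 1) ≤ u c := fun c hc => min_le_min le_rfl (hmono X₂ c hc)
  have hva : ∀ c, 1 ≤ c → v (c + 1) ≤ v c := fun c hc =>
    min_le_min le_rfl (max_le_max le_rfl (hmono X₁ c hc))
  have hII : ∀ c, II D₁ D₂ X₁ X₂ g b₂ c = max 0 (u c - v c) := by
    intro c
    simp only [II, hu, hv]
    rcases le_total W (max ((D₁ : ℝ) / g) ((X₁ : ℝ) / (g * b₂ * c))) with h | h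
    · rw [min_eq_left h, max_eq_left, max_eq_left]
      · have := min_le_left W ((X₂ : ℝ) / (g * b₂ * c))
        linarith
      · have := min_le_left W ((X₂ : ℝ) / (g * b₂ * c))
        linarith
    · rw [min_eq_right h]
  have hpart : ∀ k : ℕ, ‖∑ c ∈ Ioc 0 k, ((a c : ℝ) : ℂ)‖ ≤ F := by
    intro k
    rw [← Complex.ofReal_sum, Complex.norm_real, Real.norm_eq_abs]
    have := hF k
    have e : Icc 1 k = Ioc 0 k := by ext m; simp [Nat.lt_iff_add_one_le]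
    rwa [e] at this
  have h := hT1.norm_abel (fun c => ((a c : ℝ) : ℂ)) F hpart (fun c => II D₁ D₂ X₁ X₂ g b₂ c) (2 * W) W
    hW0
    (fun N _ => by
      show |II D₁ D₂ X₁ X₂ g b₂ N| ≤ W
      rw [hII, abs_of_nonneg (le_max_left _ _)]
      refine max_le hW0 ?_
      have h1 := huW N
      have h2 := hv0 N
      linarith)
    (fun c => -(u c + v c))
    (fun c hc => by
      show |II D₁ D₂ X₁ X₂ g b₂ c - II D₁ D₂ X₁ X₂ g b₂ (c + 1)| ≤ -(u (c + 1) + v (c + 1)) - -(u c + v c)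
      rw [hII, hII, max_comm 0, max_comm 0]
      refine (abs_max_sub_max_le_abs _ _ _).trans ?_
      have h1 := hua c hc
      have h2 := hva c hc
      rw [abs_le]
      constructor <;> linarith)
    (fun N _ => by
      show -(u N + v N) - -(u 1 + v 1) ≤ 2 * W
      have h1 := huW 1
      have h2 := hvW 1
      have h3 := hu0 N
      have h4 := hv0 N
      linarith) (by linarith) n
  have e : Icc 1 n = Ioc 0 n := by ext m; simp [Nat.lt_iff_add_one_le]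
  rw [e]
  have e2 : ‖∑ c ∈ Ioc 0 n, ((II D₁ D₂ X₁ X₂ g b₂ c : ℝ) : ℂ) * ((a c : ℝ) : ℂ)‖ =
      |∑ c ∈ Ioc 0 n, a c * II D₁ D₂ X₁ X₂ g b₂ c| := by
    rw [← Real.norm_eq_abs, ← Complex.norm_real]
    congr 1
    push_cast
    refine Finset.sum_congr rfl fun c _ => mul_comm _ _
  rw [e2] at h
  calc _ ≤ F * (W + 2 * W) := h
    _ = F * (3 * W) := by ring

/-- the set of `b₁` -/
noncomputable def SB (N p q m₁ X₁ X₂ D₁ D₂ g E b₂ c : ℕ) : Finset ℕ :=
  (Icc 1 D₂).filter (fun b₁ : ℕ => D₁ < g * b₁ ∧ g * b₁ ≤ D₂ ∧ X₁ < g * b₁ * b₂ * c ∧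
    g * b₁ * b₂ * c ≤ X₂ ∧ (g * b₁ * b₂ * c) % q = m₁ % q ∧
    (E : ℤ) ∣ (N : ℤ) * ((g * b₁ * b₂ * c : ℕ) : ℤ) - p)

theorem SB_count (N p q m₁ X₁ X₂ D₁ D₂ g E b₂ c : ℕ) (hg : 1 ≤ g) (hb : 1 ≤ b₂) (hc : 1 ≤ c)
    (hq : 1 ≤ q) (hE : 1 ≤ E) (hqE : Nat.Coprime q E) (hNE : Nat.Coprime N E)
    (hk : Nat.Coprime (g * b₂ * c) (q * E)) :
    |(((SB N p q m₁ X₁ X₂ D₁ D₂ g E b₂ c).filter (fun n => Nat.Coprime n b₂)).card : ℝ) -
      II D₁ D₂ X₁ X₂ g b₂ c * kap b₂ / (q * E : ℕ)| ≤ (b₂.divisors.card : ℝ) := by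
  have hkq : Nat.Coprime (g * b₂ * c) q := Nat.Coprime.coprime_mul_right_right hk
  have hkE : Nat.Coprime (g * b₂ * c) E := Nat.Coprime.coprime_mul_left_right hk
  obtain ⟨v, hv⟩ := cls N p q m₁ E (g * b₂ * c) hq hE hqE hkq (Nat.Coprime.mul_left hNE hkE)
  have hg0 : (0 : ℝ) < g := by exact_mod_cast hg
  have hb0 : (0 : ℝ) < b₂ := by exact_mod_cast hb
  have hc0 : (0 : ℝ) < c := by exact_mod_cast hc
  have hk0 : (0 : ℝ) < g * b₂ * c := by positivity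
  set s : ℝ := max ((D₁ : ℝ) / g) ((X₁ : ℝ) / (g * b₂ * c)) with hs
  set t : ℝ := min ((D₂ : ℝ) / g) ((X₂ : ℝ) / (g * b₂ * c)) with ht
  have hmem : ∀ n, n ∈ SB N p q m₁ X₁ X₂ D₁ D₂ g E b₂ c ↔ s < n ∧ (n : ℝ) ≤ t ∧ n % (q * E) = v % (q * E) := by
    intro n
    have e1 : g * n * b₂ * c = g * b₂ * c * n := by ring
    simp only [SB, mem_filter, mem_Icc]
    rw [e1]
    rw [← hv n, hs, ht, max_lt_iff, le_min_iff, div_lt_iff₀ hg0, div_lt_iff₀ hk0, le_div_iff₀ hg0,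
      le_div_iff₀ hk0]
    constructor
    · rintro ⟨⟨h1, h2⟩, h3, h4, h5, h6, h7, h8⟩
      refine ⟨⟨?_, ?_⟩, ⟨?_, ?_⟩, h7, h8⟩
      · have : (D₁ : ℝ) < g * n := by exact_mod_cast h3
        linarith
      · have : (X₁ : ℝ) < g * b₂ * c * n := by exact_mod_cast h5
        linarith
      · have : (g : ℝ) * n ≤ D₂ := by exact_mod_cast h4
        linarith
      · have : (g : ℝ) * b₂ * c * n ≤ X₂ := by exact_mod_cast h6
        linarith
    · rintro ⟨⟨h1, h2⟩, ⟨h3, h4⟩, h7, h8⟩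
      have h1' : D₁ < g * n := by
        have : (D₁ : ℝ) < ((g * n : ℕ) : ℝ) := by push_cast; linarith
        exact_mod_cast this
      have h2' : X₁ < g * b₂ * c * n := by
        have : (X₁ : ℝ) < ((g * b₂ * c * n : ℕ) : ℝ) := by push_cast; linarith
        exact_mod_cast this
      have h3' : g * n ≤ D₂ := by
        have : ((g * n : ℕ) : ℝ) ≤ D₂ := by push_cast; linarith
        exact_mod_cast this
      have h4' : g * b₂ * c * n ≤ X₂ := by
        have : ((g * b₂ * c * n : ℕ) : ℝ) ≤ X₂ := by push_cast; linarith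
        exact_mod_cast this
      have hn1 : 1 ≤ n := by
        rcases Nat.eq_zero_or_pos n with h0 | h0
        · subst h0; omega
        · exact h0
      refine ⟨⟨hn1, ?_⟩, h1', h3', h2', h4', h7, h8⟩
      calc n = 1 * n := (one_mul n).symm
        _ ≤ g * n := Nat.mul_le_mul_right n hg
        _ ≤ D₂ := h3'
  rcases le_or_gt s t with hst | hst
  · have hs0 : 0 ≤ s := le_max_of_le_left (by positivity)
    have h := cntCop (SB N p q m₁ X₁ X₂ D₁ D₂ g E b₂ c) s t hs0 hst (q * E) v b₂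
      (Nat.mul_pos hq hE) hb ?_ hmem
    · have e : II D₁ D₂ X₁ X₂ g b₂ c = t - s := by
        simp only [II]
        rw [← hs, ← ht, max_eq_right (by linarith)]
      rw [e]
      exact h
    · have : Nat.Coprime b₂ (q * E) :=
        Nat.Coprime.coprime_mul_left (Nat.Coprime.coprime_mul_right hk)
      exact this.symm
  · have e : II D₁ D₂ X₁ X₂ g b₂ c = 0 := by
      simp only [II]
      rw [← hs, ← ht, max_eq_left (by linarith)]
    have e2 : SB N p q m₁ X₁ X₂ D₁ D₂ g E b₂ c = ∅ := by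
      rw [Finset.eq_empty_iff_forall_notMem]
      intro n hn
      obtain ⟨h1, h2, _⟩ := (hmem n).1 hn
      linarith
    rw [e, e2]
    simp

theorem SB_empty (N p q m₁ X₁ X₂ D₁ D₂ g E b₂ c : ℕ) (hp : p.Prime) (hpq : p ∣ q)
    (hEq : Nat.Coprime E q) (hm : Nat.Coprime m₁ q)
    (hk : ¬ Nat.Coprime (g * b₂ * c) (q * E)) : SB N p q m₁ X₁ X₂ D₁ D₂ g E b₂ c = ∅ := by
  rw [Finset.eq_empty_iff_forall_notMem]
  intro n hn
  apply hk
  simp only [SB, mem_filter] at hn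
  obtain ⟨_, _, _, _, _, h7, h8⟩ := hn
  have e1 : g * n * b₂ * c = g * b₂ * c * n := by ring
  rw [e1] at h7 h8
  exact Nat.Coprime.mul_right (cop_of_mod m₁ q _ n hm h7) (cop_of_dvd N p q E _ n hp hpq hEq h8)

theorem cnt_eq (N p q m₁ X₁ X₂ E k Cm : ℕ) (hk : 1 ≤ k) (hC : ∀ c, k * c ≤ X₂ → c ≤ Cm) :
    cnt N p q m₁ X₁ X₂ k E = ((Icc 1 Cm).filter (fun c : ℕ => X₁ < k * c ∧ k * c ≤ X₂ ∧
      (k * c) % q = m₁ % q ∧ (E : ℤ) ∣ (N : ℤ) * ((k * c : ℕ) : ℤ) - p)).card := by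
  unfold cnt
  symm
  apply Finset.card_bij (fun c _ => k * c)
  · intro c hc
    simp only [mem_filter, mem_Icc, mem_Ioc] at hc ⊢
    obtain ⟨_, h1, h2, h3, h4⟩ := hc
    exact ⟨⟨h1, h2⟩, h3, dvd_mul_right _ _, h4⟩
  · intro c _ c' _ h
    exact Nat.eq_of_mul_eq_mul_left (by omega) h
  · intro m hm
    simp only [mem_filter, mem_Ioc] at hm
    obtain ⟨⟨h1, h2⟩, h3, ⟨c, rfl⟩, h4⟩ := hm
    refine ⟨c, ?_, rfl⟩
    simp only [mem_filter, mem_Icc]
    refine ⟨⟨?_, hC c h2⟩, h1, h2, h3, h4⟩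
    rcases Nat.eq_zero_or_pos c with h0 | h0
    · subst h0; simp at h1
    · exact h0

theorem AA_eq (N p q m₁ X₁ X₂ D₁ D₂ g E Cm : ℕ) (hg : 1 ≤ g) (hq4 : 4 ∣ q) (hm4 : m₁ % 4 = 1)
    (hC : ∀ b₁ b₂ c, D₁ < g * b₁ → D₁ < g * b₂ → g * b₁ * b₂ * c ≤ X₂ → c ≤ Cm) :
    AA N p q m₁ X₁ X₂ D₁ D₂ g E = c4 g *
      ∑ b₂ ∈ (Icc 1 D₂).filter (fun b₂ => D₁ < g * b₂ ∧ g * b₂ ≤ D₂), ∑ c ∈ Icc 1 Cm, c4 c *
        (((SB N p q m₁ X₁ X₂ D₁ D₂ g E b₂ c).filter (fun n => Nat.Coprime n b₂)).card : ℝ) := by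
  set T : ℕ → ℕ → ℕ → ℝ := fun b₁ b₂ c => if (Nat.Coprime b₁ b₂ ∧ D₁ < g * b₁ ∧ g * b₁ ≤ D₂ ∧
    D₁ < g * b₂ ∧ g * b₂ ≤ D₂) ∧ (X₁ < g * b₁ * b₂ * c ∧ g * b₁ * b₂ * c ≤ X₂ ∧
    (g * b₁ * b₂ * c) % q = m₁ % q ∧ (E : ℤ) ∣ (N : ℤ) * ((g * b₁ * b₂ * c : ℕ) : ℤ) - p) then
    c4 g * c4 c else 0 with hT
  have hL : AA N p q m₁ X₁ X₂ D₁ D₂ g E = ∑ b₁ ∈ Icc 1 D₂, ∑ b₂ ∈ Icc 1 D₂, ∑ c ∈ Icc 1 Cm, T b₁ b₂ c := by
    unfold AA
    rw [Finset.sum_filter, Finset.sum_product]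
    refine Finset.sum_congr rfl fun b₁ hb₁ => Finset.sum_congr rfl fun b₂ hb₂ => ?_
    rw [mem_Icc] at hb₁ hb₂
    simp only []
    split_ifs with h
    · rw [cnt_eq N p q m₁ X₁ X₂ E (g * b₁ * b₂) Cm
        (Nat.mul_pos (Nat.mul_pos hg hb₁.1) hb₂.1) (fun c hc => hC b₁ b₂ c h.2.1 h.2.2.2.1 hc)]
      rw [Finset.card_filter]
      push_cast
      rw [Finset.mul_sum]
      refine Finset.sum_congr rfl fun c _ => ?_
      simp only [hT]
      by_cases hP : (X₁ < g * b₁ * b₂ * c ∧ g * b₁ * b₂ * c ≤ X₂ ∧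
        (g * b₁ * b₂ * c) % q = m₁ % q ∧ (E : ℤ) ∣ (N : ℤ) * ((g * b₁ * b₂ * c : ℕ) : ℤ) - p)
      · have hP' := hP
        push_cast at hP'
        rw [if_pos hP', if_pos ⟨h, hP⟩, mul_one]
        apply c4_key
        have h1 : (g * b₁ * b₂ * c) % 4 = m₁ % 4 := by
          have := hP.2.2.1
          have h2 : (g * b₁ * b₂ * c) ≡ m₁ [MOD q] := this
          exact h2.of_dvd hq4
        omega
      · have hP' := hP
        push_cast at hP'
        rw [if_neg hP', if_neg (fun hh => hP hh.2), mul_zero]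
    · symm
      apply Finset.sum_eq_zero
      intro c _
      simp only [hT]
      rw [if_neg (fun hh => h hh.1)]
  have hR : c4 g *
      ∑ b₂ ∈ (Icc 1 D₂).filter (fun b₂ => D₁ < g * b₂ ∧ g * b₂ ≤ D₂), ∑ c ∈ Icc 1 Cm, c4 c *
        (((SB N p q m₁ X₁ X₂ D₁ D₂ g E b₂ c).filter (fun n => Nat.Coprime n b₂)).card : ℝ) =
      ∑ b₂ ∈ Icc 1 D₂, ∑ c ∈ Icc 1 Cm, ∑ b₁ ∈ Icc 1 D₂, T b₁ b₂ c := by
    rw [Finset.sum_filter, Finset.mul_sum]
    refine Finset.sum_congr rfl fun b₂ _ => ?_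
    split_ifs with h
    · rw [Finset.mul_sum]
      refine Finset.sum_congr rfl fun c _ => ?_
      rw [SB, Finset.filter_filter, Finset.card_filter]
      push_cast
      rw [Finset.mul_sum, Finset.mul_sum]
      refine Finset.sum_congr rfl fun b₁ _ => ?_
      simp only [hT]
      by_cases hP : (Nat.Coprime b₁ b₂ ∧ D₁ < g * b₁ ∧ g * b₁ ≤ D₂ ∧
        D₁ < g * b₂ ∧ g * b₂ ≤ D₂) ∧ (X₁ < g * b₁ * b₂ * c ∧ g * b₁ * b₂ * c ≤ X₂ ∧
        (g * b₁ * b₂ * c) % q = m₁ % q ∧ (E : ℤ) ∣ (N : ℤ) * ((g * b₁ * b₂ * c : ℕ) : ℤ) - p)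
      · rw [if_pos hP]
        obtain ⟨⟨h1, h2, h3, h4, h5⟩, h6, h7, h8, h9⟩ := hP
        push_cast at h9
        rw [if_pos ⟨⟨h2, h3, h6, h7, h8, h9⟩, h1⟩, mul_one]
      · rw [if_neg hP, if_neg, mul_zero, mul_zero]
        rintro ⟨⟨h2, h3, h6, h7, h8, h9⟩, h1⟩
        apply hP
        refine ⟨⟨h1, h2, h3, h.1, h.2⟩, h6, h7, h8, ?_⟩
        push_cast
        exact h9
    · rw [mul_zero]
      symm
      apply Finset.sum_eq_zero
      intro c _
      apply Finset.sum_eq_zero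
      intro b₁ _
      simp only [hT]
      rw [if_neg]
      rintro ⟨⟨_, _, _, h4, h5⟩, _⟩
      exact h ⟨h4, h5⟩
  rw [hL, hR, Finset.sum_comm]
  refine Finset.sum_congr rfl fun b₂ _ => ?_
  rw [Finset.sum_comm]

/-- the bound for fixed `g` -/
theorem AA_bound (hCS : StCS) (N p q m₁ X₁ X₂ D₁ D₂ g E Cm : ℕ) (hH : Hyp N p q m₁) (hg : 1 ≤ g)
    (hE : 1 ≤ E) (hEN : Nat.Coprime E (N * q))
    (hC : ∀ b₁ b₂ c, D₁ < g * b₁ → D₁ < g * b₂ → g * b₁ * b₂ * c ≤ X₂ → c ≤ Cm) :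
    |AA N p q m₁ X₁ X₂ D₁ D₂ g E| ≤
      3 * ((q.divisors.card : ℝ) * E.divisors.card) / (q * E) * ((D₂ : ℝ) / g) ^ 2 +
      Cm * ∑ b ∈ Ioc 0 D₂, if g * b ≤ D₂ then (b.divisors.card : ℝ) else 0 := by
  have hEq : Nat.Coprime E q := Nat.Coprime.coprime_mul_left_right hEN
  have hEN' : Nat.Coprime E N := Nat.Coprime.coprime_mul_right_right hEN
  set F : ℝ := (q.divisors.card : ℝ) * E.divisors.card with hF
  have hF0 : 0 ≤ F := by positivity
  have hq0 : (0 : ℝ) < q := by exact_mod_cast hH.hq1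
  have hE0 : (0 : ℝ) < E := by exact_mod_cast hE
  have hg0 : (0 : ℝ) < g := by exact_mod_cast hg
  rw [AA_eq N p q m₁ X₁ X₂ D₁ D₂ g E Cm hg hH.hq hH.hm4 hC, abs_mul]
  have hone : ∀ b₂ ∈ (Icc 1 D₂).filter (fun b₂ => D₁ < g * b₂ ∧ g * b₂ ≤ D₂),
      |∑ c ∈ Icc 1 Cm, c4 c *
        (((SB N p q m₁ X₁ X₂ D₁ D₂ g E b₂ c).filter (fun n => Nat.Coprime n b₂)).card : ℝ)| ≤
      F * (3 * ((D₂ : ℝ) / g)) / (q * E) + Cm * (b₂.divisors.card : ℝ) := by
    intro b₂ hb₂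
    rw [mem_filter, mem_Icc] at hb₂
    have hb1 : 1 ≤ b₂ := hb₂.1.1
    set n : ℕ → ℝ := fun c =>
      (((SB N p q m₁ X₁ X₂ D₁ D₂ g E b₂ c).filter (fun n => Nat.Coprime n b₂)).card : ℝ) with hn
    by_cases hco : Nat.Coprime (g * b₂) (q * E)
    · set a : ℕ → ℝ := fun c => if Nat.Coprime c (q * E) then c4 c else 0 with ha
      have hterm : ∀ c ∈ Icc 1 Cm, |c4 c * n c - a c * II D₁ D₂ X₁ X₂ g b₂ c * (kap b₂ / (q * E : ℕ))| ≤
          (b₂.divisors.card : ℝ) := by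
        intro c hc
        rw [mem_Icc] at hc
        simp only [ha]
        split_ifs with hcc
        · have hk : Nat.Coprime (g * b₂ * c) (q * E) := Nat.Coprime.mul_left hco hcc
          have h := SB_count N p q m₁ X₁ X₂ D₁ D₂ g E b₂ c hg hb1 hc.1 hH.hq1 hE hEq.symm hEN'.symm hk
          have e : c4 c * n c - c4 c * II D₁ D₂ X₁ X₂ g b₂ c * (kap b₂ / (q * E : ℕ)) =
              c4 c * (n c - II D₁ D₂ X₁ X₂ g b₂ c * kap b₂ / (q * E : ℕ)) := by ring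
          rw [e, abs_mul]
          calc |c4 c| * _ ≤ 1 * (b₂.divisors.card : ℝ) :=
                mul_le_mul (c4_abs c) h (abs_nonneg _) zero_le_one
            _ = _ := one_mul _
        · have hk : ¬ Nat.Coprime (g * b₂ * c) (q * E) := fun hh =>
            hcc (Nat.Coprime.coprime_mul_left hh)
          have h := SB_empty N p q m₁ X₁ X₂ D₁ D₂ g E b₂ c hH.hp hH.hpq hEq hH.hm hk
          simp only [hn, h]
          simp
      have hmain : |∑ c ∈ Icc 1 Cm, a c * II D₁ D₂ X₁ X₂ g b₂ c| ≤ F * (3 * ((D₂ : ℝ) / g)) := by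
        apply II_abel D₁ D₂ X₁ X₂ g b₂ hg hb1 a F
        intro t
        have := hCS q E t hH.hq1 hE
        rw [Finset.sum_filter] at this
        exact this
      have hk0 := kap_nonneg b₂ hb1
      have hk1 := kap_le_one b₂ hb1
      have e : ∑ c ∈ Icc 1 Cm, c4 c * n c = (∑ c ∈ Icc 1 Cm, a c * II D₁ D₂ X₁ X₂ g b₂ c) *
          (kap b₂ / (q * E : ℕ)) + ∑ c ∈ Icc 1 Cm, (c4 c * n c -
            a c * II D₁ D₂ X₁ X₂ g b₂ c * (kap b₂ / (q * E : ℕ))) := by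
        rw [Finset.sum_sub_distrib, Finset.sum_mul]
        ring
      rw [e]
      refine (abs_add_le _ _).trans (add_le_add ?_ ?_)
      · rw [abs_mul]
        have hkk : |kap b₂ / ((q * E : ℕ) : ℝ)| ≤ 1 / (q * E) := by
          push_cast
          rw [abs_of_nonneg (by positivity)]
          gcongr
        calc _ ≤ (F * (3 * ((D₂ : ℝ) / g))) * (1 / (q * E)) :=
              mul_le_mul hmain hkk (abs_nonneg _) (by positivity)
          _ = _ := by ring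
      · refine (Finset.abs_sum_le_sum_abs _ _).trans ((Finset.sum_le_sum hterm).trans ?_)
        rw [Finset.sum_const, Nat.card_Icc, nsmul_eq_mul]
        simp
    · have hz : ∀ c ∈ Icc 1 Cm, c4 c * n c = 0 := by
        intro c _
        have hk : ¬ Nat.Coprime (g * b₂ * c) (q * E) := fun hh =>
          hco (Nat.Coprime.coprime_mul_right hh)
        have h := SB_empty N p q m₁ X₁ X₂ D₁ D₂ g E b₂ c hH.hp hH.hpq hEq hH.hm hk
        simp only [hn, h]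
        simp
      rw [Finset.sum_eq_zero hz, abs_zero]
      positivity
  have hsum : |∑ b₂ ∈ (Icc 1 D₂).filter (fun b₂ => D₁ < g * b₂ ∧ g * b₂ ≤ D₂), ∑ c ∈ Icc 1 Cm, c4 c *
        (((SB N p q m₁ X₁ X₂ D₁ D₂ g E b₂ c).filter (fun n => Nat.Coprime n b₂)).card : ℝ)| ≤
      3 * F / (q * E) * ((D₂ : ℝ) / g) ^ 2 +
      Cm * ∑ b ∈ Ioc 0 D₂, if g * b ≤ D₂ then (b.divisors.card : ℝ) else 0 := by
    refine (Finset.abs_sum_le_sum_abs _ _).trans ((Finset.sum_le_sum hone).trans ?_)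
    rw [Finset.sum_add_distrib]
    apply add_le_add
    · rw [Finset.sum_const, nsmul_eq_mul]
      have hcard : (((Icc 1 D₂).filter (fun b₂ => D₁ < g * b₂ ∧ g * b₂ ≤ D₂)).card : ℝ) ≤ (D₂ : ℝ) / g := by
        have h1 : (Icc 1 D₂).filter (fun b₂ => D₁ < g * b₂ ∧ g * b₂ ≤ D₂) ⊆ Icc 1 (D₂ / g) := by
          intro b hb
          rw [mem_filter, mem_Icc] at hb
          rw [mem_Icc]
          refine ⟨hb.1.1, ?_⟩
          rw [Nat.le_div_iff_mul_le (by omega), mul_comm]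
          exact hb.2.2
        have h2 := Finset.card_le_card h1
        rw [Nat.card_Icc, Nat.add_sub_cancel] at h2
        calc (((Icc 1 D₂).filter (fun b₂ => D₁ < g * b₂ ∧ g * b₂ ≤ D₂)).card : ℝ) ≤ ((D₂ / g : ℕ) : ℝ) := by
              exact_mod_cast h2
          _ ≤ (D₂ : ℝ) / g := Nat.cast_div_le
      calc _ ≤ (D₂ : ℝ) / g * (F * (3 * ((D₂ : ℝ) / g)) / (q * E)) :=
            mul_le_mul_of_nonneg_right hcard (by positivity)
        _ = _ := by ring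
    · rw [← Finset.mul_sum]
      apply mul_le_mul_of_nonneg_left _ (Nat.cast_nonneg _)
      rw [← Finset.sum_filter]
      apply Finset.sum_le_sum_of_subset_of_nonneg
      · intro b hb
        rw [mem_filter, mem_Icc] at hb
        rw [mem_filter, mem_Ioc]
        exact ⟨⟨by omega, hb.1.2⟩, hb.2.2⟩
      · intro b _ _
        positivity
  calc |c4 g| * _ ≤ 1 * _ := mul_le_mul (c4_abs g) hsum (abs_nonneg _) zero_le_one
    _ = _ := one_mul _

theorem sum_inv_sq (Y : ℝ) (hY : 1 ≤ Y) (S : Finset ℕ) (hS : ∀ g ∈ S, Y < (g : ℝ)) :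
    ∑ g ∈ S, 1 / (g : ℝ) ^ 2 ≤ 2 / Y := by
  have hk : 1 ≤ ⌊Y⌋₊ := Nat.le_floor (by simpa using hY)
  obtain ⟨n, hn⟩ : ∃ n, S ⊆ Ioc ⌊Y⌋₊ n := by
    refine ⟨S.sup id, fun g hg => ?_⟩
    rw [mem_Ioc]
    exact ⟨(Nat.floor_lt (by linarith)).2 (hS g hg), Finset.le_sup (f := id) hg⟩
  have h1 : ∑ g ∈ S, 1 / (g : ℝ) ^ 2 ≤ ∑ g ∈ Ioc ⌊Y⌋₊ (max n ⌊Y⌋₊), 1 / (g : ℝ) ^ 2 := by
    apply Finset.sum_le_sum_of_subset_of_nonneg
    · exact hn.trans (Ioc_subset_Ioc_right (le_max_left _ _))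
    · intro _ _ _; positivity
  have h2 := sum_Ioc_inv_sq_le_sub (α := ℝ) (k := ⌊Y⌋₊) (n := max n ⌊Y⌋₊) (by omega) (le_max_right _ _)
  have h3 : ∑ g ∈ Ioc ⌊Y⌋₊ (max n ⌊Y⌋₊), 1 / (g : ℝ) ^ 2 ≤ (⌊Y⌋₊ : ℝ)⁻¹ := by
    have h4 : (0 : ℝ) ≤ ((max n ⌊Y⌋₊ : ℕ) : ℝ)⁻¹ := by positivity
    simp only [one_div]
    linarith
  refine h1.trans (h3.trans ?_)
  have hk0 : (1 : ℝ) ≤ ⌊Y⌋₊ := by exact_mod_cast hk
  have h5 := Nat.lt_floor_add_one Y
  rw [← one_div, div_le_div_iff₀ (by linarith) (by linarith)]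
  linarith

theorem tau_sum (D₂ g : ℕ) (hg : 1 ≤ g) :
    ∑ b ∈ Ioc 0 D₂, (if g * b ≤ D₂ then (b.divisors.card : ℝ) else 0) ≤
      (D₂ : ℝ) / g * (1 + Real.log D₂) ^ 3 := by
  have hg0 : (0 : ℝ) < g := by exact_mod_cast hg
  rcases Nat.eq_zero_or_pos (D₂ / g) with h0 | h0
  · have : ∑ b ∈ Ioc 0 D₂, (if g * b ≤ D₂ then (b.divisors.card : ℝ) else 0) = 0 := by
      apply Finset.sum_eq_zero
      intro b hb
      rw [mem_Ioc] at hb
      rw [if_neg]
      intro h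
      have : 1 ≤ D₂ / g := by
        rw [Nat.le_div_iff_mul_le (by omega)]
        nlinarith
      omega
    rw [this]
    have h1 : 0 ≤ Real.log (D₂ : ℝ) := Real.log_natCast_nonneg _
    positivity
  · calc ∑ b ∈ Ioc 0 D₂, (if g * b ≤ D₂ then (b.divisors.card : ℝ) else 0)
        = ∑ b ∈ (Ioc 0 D₂).filter (fun b => g * b ≤ D₂), (b.divisors.card : ℝ) := by
          rw [Finset.sum_filter]
      _ ≤ ∑ b ∈ Ioc 0 (D₂ / g), (b.divisors.card : ℝ) := by
          apply Finset.sum_le_sum_of_subset_of_nonneg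
          · intro b hb
            rw [mem_filter, mem_Ioc] at hb
            rw [mem_Ioc, Nat.le_div_iff_mul_le (by omega), mul_comm]
            exact ⟨hb.1.1, hb.2⟩
          · intro b _ _; positivity
      _ ≤ ∑ b ∈ Ioc 0 (D₂ / g), (b.divisors.card : ℝ) ^ 2 := by
          refine Finset.sum_le_sum fun b hb => ?_
          have h1 : (1 : ℝ) ≤ (b.divisors.card : ℝ) := by
            have : 0 < b.divisors.card := Finset.card_pos.2 ⟨1, Nat.one_mem_divisors.2 (by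
              rw [mem_Ioc] at hb; omega)⟩
            exact_mod_cast this
          nlinarith
      _ ≤ ((D₂ / g : ℕ) : ℝ) * (1 + Real.log ((D₂ / g : ℕ) : ℝ)) ^ 3 :=
          Pool.Agent.Helper2.sum_tau_sq_le (D₂ / g)
      _ ≤ (D₂ : ℝ) / g * (1 + Real.log D₂) ^ 3 := by
          have h1 : ((D₂ / g : ℕ) : ℝ) ≤ (D₂ : ℝ) / g := Nat.cast_div_le
          have h2 : Real.log ((D₂ / g : ℕ) : ℝ) ≤ Real.log (D₂ : ℝ) := by
            apply Real.log_le_log (by exact_mod_cast h0)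
            exact_mod_cast Nat.div_le_self D₂ g
          have h3 : 0 ≤ Real.log ((D₂ / g : ℕ) : ℝ) := Real.log_natCast_nonneg _
          apply mul_le_mul h1 _ (by positivity) (by positivity)
          exact pow_le_pow_left₀ (by linarith) (by linarith) 3

end hR2b

open hR2b Filter in
theorem hR2b (hCS : StCS) : StR2b := by
  intro N p q m₁ hH B
  have ev1 : ∀ᶠ x : ℝ in atTop, 256 * Real.log x ^ (2 * B + 3) ≤ x ^ (3 / 20 : ℝ) := by
    have h := (isLittleO_log_rpow_rpow_atTop (s := 3 / 20) ((2 * B + 3 : ℕ) : ℝ) (by norm_num)).bound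
      (show (0 : ℝ) < 1 / 256 by norm_num)
    filter_upwards [h, eventually_ge_atTop (1 : ℝ)] with x hx hx1
    have hl : 0 ≤ Real.log x := Real.log_nonneg hx1
    rw [Real.rpow_natCast, Real.norm_of_nonneg (pow_nonneg hl _), Real.norm_of_nonneg (by positivity)] at hx
    linarith
  have ev2 : ∀ᶠ x : ℝ in atTop, Real.log x ^ B ≤ √x := by
    have h := (isLittleO_log_rpow_rpow_atTop (s := 1 / 2) (B : ℝ) (by norm_num)).bound
      (show (0 : ℝ) < 1 by norm_num)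
    filter_upwards [h, eventually_ge_atTop (1 : ℝ)] with x hx hx1
    have hl : 0 ≤ Real.log x := Real.log_nonneg hx1
    rw [Real.rpow_natCast, Real.norm_of_nonneg (pow_nonneg hl _), Real.norm_of_nonneg (by positivity),
      ← Real.sqrt_eq_rpow, one_mul] at hx
    exact hx
  have ev3 : ∀ᶠ x : ℝ in atTop, (24 * (q.divisors.card : ℝ)) ^ 2 ≤ YY x := by
    have h : Tendsto YY atTop atTop := by
      unfold YY
      exact Real.tendsto_exp_atTop.comp ((tendsto_rpow_atTop (by norm_num)).comp Real.tendsto_log_atTop)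
    exact h.eventually_ge_atTop _
  obtain ⟨x₀, hx₀⟩ := Filter.eventually_atTop.mp
    (((ev1.and ev2).and ev3).and ((Real.tendsto_log_atTop.eventually_ge_atTop 2).and (eventually_ge_atTop 1)))
  refine ⟨x₀, ?_⟩
  intro x hx X₁ X₂ D₂ E hX hX2 hD2 hEsq hEN hEx
  obtain ⟨⟨⟨h1, h2⟩, h3⟩, hL, hx1⟩ := hx₀ x hx
  set L := Real.log x with hLdef
  have hL0 : 0 < L := by linarith
  have hx0 : 0 < x := by linarith
  have hE1 : 1 ≤ E := Nat.one_le_iff_ne_zero.2 hEsq.ne_zero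
  have hE0 : (0 : ℝ) < E := by exact_mod_cast hE1
  have hq0 : (1 : ℝ) ≤ q := by exact_mod_cast hH.hq1
  have hYpos : 0 < YY x := Real.exp_pos _
  have hY1 : 1 ≤ YY x := Real.one_le_exp (by positivity)
  set D₁ := DD x B with hD₁
  have hy1 : 1 ≤ √x / L ^ B := by
    rw [le_div_iff₀ (by positivity), one_mul]
    exact h2
  have hD1 : √x / L ^ B / 2 ≤ D₁ := by
    have ha : (1 : ℝ) ≤ D₁ := by
      have : 1 ≤ ⌊√x / L ^ B⌋₊ := Nat.le_floor (by simpa using hy1)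
      rw [hD₁]
      unfold DD
      exact_mod_cast this
    have hb : √x / L ^ B < (D₁ : ℝ) + 1 := by
      rw [hD₁]
      unfold DD
      exact Nat.lt_floor_add_one _
    linarith
  have hD1pos : (0 : ℝ) < D₁ := by linarith
  have hD1nat : 0 < D₁ := by exact_mod_cast hD1pos
  have hD1sq : x / (4 * L ^ (2 * B)) ≤ (D₁ : ℝ) ^ 2 := by
    calc x / (4 * L ^ (2 * B)) = (√x / L ^ B / 2) ^ 2 := by
          rw [div_pow, div_pow, Real.sq_sqrt hx0.le, ← pow_mul, mul_comm B 2]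
          ring
      _ ≤ (D₁ : ℝ) ^ 2 := pow_le_pow_left₀ (by positivity) hD1 2
  have hlogD2 : 1 + Real.log (D₂ : ℝ) ≤ 2 * L := by
    rcases Nat.eq_zero_or_pos D₂ with h0 | h0
    · rw [h0]; simp; linarith
    · have hD2pos : (0 : ℝ) < D₂ := by exact_mod_cast h0
      have : Real.log D₂ ≤ Real.log (2 * √x) := Real.log_le_log hD2pos hD2
      rw [Real.log_mul (by norm_num) (by positivity), Real.log_sqrt hx0.le] at this
      have hl2 := Real.log_two_lt_d9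
      linarith
  have hlogD2' : 0 ≤ 1 + Real.log (D₂ : ℝ) := by
    have := Real.log_natCast_nonneg D₂
    linarith
  -- bound for each `g`
  have hg : ∀ g ∈ (Icc 1 D₁).filter (fun g : ℕ => YY x < g ∧ (g : ℝ) ≤ x ^ (1 / 4 : ℝ)),
      |AA N p q m₁ X₁ X₂ D₁ D₂ g E| ≤
        (3 * ((q.divisors.card : ℝ) * E.divisors.card) / (q * E) * (D₂ : ℝ) ^ 2) * (1 / (g : ℝ) ^ 2) +
        X₂ * D₂ * (2 * L) ^ 3 / (D₁ : ℝ) ^ 2 := by
    intro g hgm
    rw [mem_filter, mem_Icc] at hgm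
    have hg1 : 1 ≤ g := hgm.1.1
    have hg0 : (0 : ℝ) < g := by exact_mod_cast hg1
    have h := AA_bound hCS N p q m₁ X₁ X₂ D₁ D₂ g E (X₂ * g / D₁ ^ 2) hH hg1 hE1 hEN (by
      intro b₁ b₂ c ha hb hc
      rw [Nat.le_div_iff_mul_le (by positivity)]
      calc c * D₁ ^ 2 ≤ c * ((g * b₁) * (g * b₂)) := by
            apply Nat.mul_le_mul_left
            rw [sq]
            exact Nat.mul_le_mul ha.le hb.le
        _ = (g * b₁ * b₂ * c) * g := by ring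
        _ ≤ X₂ * g := Nat.mul_le_mul_right g hc)
    refine h.trans (add_le_add ?_ ?_)
    · apply le_of_eq
      rw [div_pow]
      ring
    · have hCm : ((X₂ * g / D₁ ^ 2 : ℕ) : ℝ) ≤ X₂ * g / (D₁ : ℝ) ^ 2 := by
        refine Nat.cast_div_le.trans ?_
        push_cast
        exact le_rfl
      calc _ ≤ (X₂ * g / (D₁ : ℝ) ^ 2) * ((D₂ : ℝ) / g * (1 + Real.log D₂) ^ 3) :=
            mul_le_mul hCm (tau_sum D₂ g hg1) (Finset.sum_nonneg fun b _ => by positivity) (by positivity)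
        _ = X₂ * D₂ * (1 + Real.log D₂) ^ 3 / (D₁ : ℝ) ^ 2 := by
            field_simp
        _ ≤ X₂ * D₂ * (2 * L) ^ 3 / (D₁ : ℝ) ^ 2 := by
            gcongr
  refine (Finset.sum_le_sum hg).trans ?_
  rw [Finset.sum_add_distrib, ← Finset.mul_sum]
  apply add_le_add
  · have hs := sum_inv_sq (YY x) hY1
      ((Icc 1 D₁).filter (fun g : ℕ => YY x < g ∧ (g : ℝ) ≤ x ^ (1 / 4 : ℝ)))
      (fun g hg => (mem_filter.1 hg).2.1)
    have hD2sq : (D₂ : ℝ) ^ 2 ≤ 4 * x := by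
      calc (D₂ : ℝ) ^ 2 ≤ (2 * √x) ^ 2 := pow_le_pow_left₀ (Nat.cast_nonneg _) hD2 2
        _ = 4 * x := by rw [mul_pow, Real.sq_sqrt hx0.le]; norm_num
    have htE : (1 : ℝ) ≤ E.divisors.card := by
      have : 0 < E.divisors.card := Finset.card_pos.2 ⟨1, Nat.one_mem_divisors.2 (by omega)⟩
      exact_mod_cast this
    have htq : (1 : ℝ) ≤ q.divisors.card := by
      have : 0 < q.divisors.card := Finset.card_pos.2 ⟨1, Nat.one_mem_divisors.2 (by
        have := hH.hq1; omega)⟩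
      exact_mod_cast this
    have hsq : 24 * (q.divisors.card : ℝ) ≤ √(YY x) := Real.le_sqrt_of_sq_le h3
    have hsqpos : 0 < √(YY x) := Real.sqrt_pos.2 hYpos
    calc _ ≤ (3 * ((q.divisors.card : ℝ) * E.divisors.card) / (q * E) * (4 * x)) * (2 / YY x) := by
          gcongr
      _ = (x / E * (E.divisors.card : ℝ)) * (24 * (q.divisors.card : ℝ) / (q * YY x)) := by
          field_simp
          ring
      _ ≤ (x / E * (E.divisors.card : ℝ) ^ 2) * (1 / √(YY x)) := by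
          apply mul_le_mul
          · apply mul_le_mul_of_nonneg_left _ (by positivity)
            nlinarith
          · rw [div_le_div_iff₀ (by positivity) hsqpos, one_mul]
            have hYY : √(YY x) * √(YY x) = YY x := Real.mul_self_sqrt hYpos.le
            calc 24 * (q.divisors.card : ℝ) * √(YY x) ≤ √(YY x) * √(YY x) :=
                  mul_le_mul_of_nonneg_right hsq hsqpos.le
              _ = 1 * YY x := by rw [hYY, one_mul]
              _ ≤ q * YY x := mul_le_mul_of_nonneg_right hq0 hYpos.le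
          · positivity
          · positivity
      _ = x / E * (E.divisors.card : ℝ) ^ 2 / √(YY x) := by ring
  · rw [Finset.sum_const, nsmul_eq_mul]
    have hcard : (((Icc 1 D₁).filter (fun g : ℕ => YY x < g ∧ (g : ℝ) ≤ x ^ (1 / 4 : ℝ))).card : ℝ) ≤
        x ^ (1 / 4 : ℝ) := by
      have h1 : (Icc 1 D₁).filter (fun g : ℕ => YY x < g ∧ (g : ℝ) ≤ x ^ (1 / 4 : ℝ)) ⊆
          Icc 1 ⌊x ^ (1 / 4 : ℝ)⌋₊ := by
        intro g hg
        rw [mem_filter, mem_Icc] at hg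
        rw [mem_Icc]
        exact ⟨hg.1.1, Nat.le_floor hg.2.2⟩
      have h2 := Finset.card_le_card h1
      rw [Nat.card_Icc, Nat.add_sub_cancel] at h2
      calc _ ≤ ((⌊x ^ (1 / 4 : ℝ)⌋₊ : ℕ) : ℝ) := by exact_mod_cast h2
        _ ≤ x ^ (1 / 4 : ℝ) := Nat.floor_le (by positivity)
    have hterm : X₂ * D₂ * (2 * L) ^ 3 / (D₁ : ℝ) ^ 2 ≤ 256 * √x * L ^ (2 * B + 3) := by
      rw [div_le_iff₀ (by positivity)]
      calc (X₂ : ℝ) * D₂ * (2 * L) ^ 3 ≤ (4 * x) * (2 * √x) * (2 * L) ^ 3 := by gcongr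
        _ = 256 * √x * L ^ (2 * B + 3) * (x / (4 * L ^ (2 * B))) := by
            rw [pow_add]
            field_simp
            ring
        _ ≤ 256 * √x * L ^ (2 * B + 3) * (D₁ : ℝ) ^ 2 := by gcongr
    calc _ ≤ x ^ (1 / 4 : ℝ) * (256 * √x * L ^ (2 * B + 3)) := by gcongr
      _ = x ^ (1 / 4 : ℝ) * x ^ (1 / 2 : ℝ) * (256 * L ^ (2 * B + 3)) := by
          rw [Real.sqrt_eq_rpow]; ring
      _ ≤ x ^ (1 / 4 : ℝ) * x ^ (1 / 2 : ℝ) * x ^ (3 / 20 : ℝ) := by gcongr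
      _ = x ^ (9 / 10 : ℝ) := by
          rw [← Real.rpow_add hx0, ← Real.rpow_add hx0]
          norm_num

end Pool.Agent.Helper15.AB
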