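import Mathlib
import Pool.Agent.Helper15.AB.StMid
import Pool.Agent.Helper15.AB.R13

/-!
# Project AB, module R3: large `g`, absolute values
-/

set_option autoImplicit false

namespace Pool.Agent.Helper15.AB

open Finset ArithmeticFunction Filter Topology

namespace hR3

open R13

/-- the range of `b` for a given `g` -/
def Ag (D₁ D₂ g : ℕ) : Finset ℕ := (Icc 1 D₂).filter (fun b => D₁ < g * b ∧ g * b ≤ D₂)

lemma abs_le {N p q m₁ B₀ w X₁ X₂ D₁ D₂ g : ℕ} {Q : Finset ℕ} {fam : Finset (Finset ℕ)}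
    {x P W : ℝ} (hTA : StTA) (hyp : Hyp N p q m₁) (hm : Maj B₀ w Q fam)
    (hQ : ∀ l ∈ Q, ¬ l ∣ N * q) (hp : p ≤ N * X₁) (hX : X₁ ≤ X₂) (hX2 : (X₂ : ℝ) ≤ 4 * x)
    (hx : 0 ≤ x) (hg : 1 ≤ g) (hP0 : 0 ≤ P)
    (hP : ∀ k : ℕ, 1 ≤ k → k ≤ D₂ * D₂ → ∏ l ∈ Q.filter (fun l => ¬ l ∣ k), (1 - 1 / (l : ℝ)) ≤ P)
    (hW : (w : ℝ) ^ B₀ ≤ W) :
    Abs N p q m₁ X₁ X₂ D₁ D₂ g fam ≤
      8 * x * P / g * (∑ b ∈ Ag D₁ D₂ g, (1 : ℝ) / b) ^ 2 + W * ((Ag D₁ D₂ g).card : ℝ) ^ 2 := by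
  have hg0 : (0 : ℝ) < g := by exact_mod_cast hg
  have hW0 : 0 ≤ W := le_trans (by positivity) hW
  have hq1 : (1 : ℝ) ≤ q := by exact_mod_cast hyp.hq1
  unfold Abs
  calc ∑ b ∈ ((Icc 1 D₂) ×ˢ (Icc 1 D₂)).filter (fun b : ℕ × ℕ => Nat.Coprime b.1 b.2 ∧
      D₁ < g * b.1 ∧ g * b.1 ≤ D₂ ∧ D₁ < g * b.2 ∧ g * b.2 ≤ D₂),
      ∑ m ∈ (Ioc X₁ X₂).filter (fun m => m % q = m₁ % q ∧ g * b.1 * b.2 ∣ m), th fam (N * m - p)
      ≤ ∑ b ∈ ((Icc 1 D₂) ×ˢ (Icc 1 D₂)).filter (fun b : ℕ × ℕ => Nat.Coprime b.1 b.2 ∧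
      D₁ < g * b.1 ∧ g * b.1 ≤ D₂ ∧ D₁ < g * b.2 ∧ g * b.2 ≤ D₂),
        (8 * x * P / g * ((1 : ℝ) / b.1 * (1 / b.2)) + W) := by
        apply sum_le_sum
        intro b hb
        rw [mem_filter, mem_product, mem_Icc, mem_Icc] at hb
        obtain ⟨⟨⟨hb1, hb1'⟩, hb2, hb2'⟩, -, h1, h2, h3, h4⟩ := hb
        have hb10 : (0 : ℝ) < b.1 := by exact_mod_cast hb1
        have hb20 : (0 : ℝ) < b.2 := by exact_mod_cast hb2
        have hk1 : 1 ≤ g * b.1 * b.2 := Nat.mul_pos (Nat.mul_pos hg hb1) hb2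
        have hk2 : g * b.1 * b.2 ≤ D₂ * D₂ := Nat.mul_le_mul h2 hb2'
        have h5 := hTA N p q m₁ B₀ w (g * b.1 * b.2) X₁ X₂ Q fam hyp hm hQ hk1 hp hX
        refine h5.trans (add_le_add ?_ hW)
        have h6 : ((X₂ : ℝ) - X₁) / (q * ((g * b.1 * b.2 : ℕ) : ℝ)) ≤ 4 * x / (g * b.1 * b.2) := by
          have hX10 : (0 : ℝ) ≤ X₁ := Nat.cast_nonneg _
          apply div_le_div₀ (by positivity) (by linarith) (by positivity)
          push_cast
          have : (0 : ℝ) < g * b.1 * b.2 := by positivity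
          nlinarith
        have h60 : 0 ≤ ((X₂ : ℝ) - X₁) / (q * ((g * b.1 * b.2 : ℕ) : ℝ)) := by
          apply div_nonneg _ (by positivity)
          have : (X₁ : ℝ) ≤ X₂ := by exact_mod_cast hX
          linarith
        have h7 := hP _ hk1 hk2
        calc 2 * (((X₂ : ℝ) - X₁) / (q * ((g * b.1 * b.2 : ℕ) : ℝ))) *
              ∏ l ∈ Q.filter (fun l => ¬ l ∣ g * b.1 * b.2), (1 - 1 / (l : ℝ))
            ≤ 2 * (((X₂ : ℝ) - X₁) / (q * ((g * b.1 * b.2 : ℕ) : ℝ))) * P := by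
              apply mul_le_mul_of_nonneg_left h7 (by positivity)
          _ ≤ 2 * (4 * x / (g * b.1 * b.2)) * P := by gcongr
          _ = 8 * x * P / g * ((1 : ℝ) / b.1 * (1 / b.2)) := by
              field_simp
              ring
    _ ≤ ∑ b ∈ (Ag D₁ D₂ g) ×ˢ (Ag D₁ D₂ g), (8 * x * P / g * ((1 : ℝ) / b.1 * (1 / b.2)) + W) := by
        apply sum_le_sum_of_subset_of_nonneg
        · intro b hb
          rw [mem_filter, mem_product, mem_Icc, mem_Icc] at hb
          obtain ⟨⟨⟨hb1, hb1'⟩, hb2, hb2'⟩, -, h1, h2, h3, h4⟩ := hb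
          simp only [mem_product, Ag, mem_filter, mem_Icc]
          exact ⟨⟨⟨hb1, hb1'⟩, h1, h2⟩, ⟨hb2, hb2'⟩, h3, h4⟩
        · intro b _ _
          positivity
    _ = 8 * x * P / g * (∑ b ∈ Ag D₁ D₂ g, (1 : ℝ) / b) ^ 2 + W * ((Ag D₁ D₂ g).card : ℝ) ^ 2 := by
        rw [sum_add_distrib, ← mul_sum, sum_product, pow_two (∑ b ∈ Ag D₁ D₂ g, (1 : ℝ) / b),
          sum_mul_sum, sum_const, card_product, nsmul_eq_mul]
        push_cast
        ring

end hR3

open R13 in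
theorem hR3 (hTA : StTA) (hMV : StMV) (hDP : StDP) : StR3 := by
  intro N p q m₁ B₀ hyp B
  obtain ⟨C, hC, hprod⟩ := prod_bound hMV hDP N q B₀ hyp.hN hyp.hq1
  have hT := ev_log_log (1 + Real.log 4 + B) 0.002 (by norm_num)
  have key : ∀ᶠ x : ℝ in atTop, ∀ (X₁ X₂ D₂ w : ℕ) (Q : Finset ℕ) (fam : Finset (Finset ℕ)),
      p ≤ N * X₁ → X₁ ≤ X₂ →
      (X₂ : ℝ) ≤ 4 * x → (D₂ : ℝ) ≤ 2 * √x → Maj B₀ w Q fam →
      Q = (Ioc 3 w).filter (fun l => l.Prime ∧ ¬ l ∣ N * q) →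
      x ^ (1 / (200 * (B₀ + 1)) : ℝ) ≤ 2 * w → (w : ℝ) ^ (B₀ + 1) ≤ x ^ (1 / 200 : ℝ) →
      ∑ g ∈ (Icc 1 D₂).filter (fun g : ℕ => (DD x B : ℝ) < g * YY x),
        Abs N p q m₁ X₁ X₂ (DD x B) D₂ g fam ≤ x / Real.log x ^ (0.93 : ℝ) := by
    filter_upwards [hprod, hT, ev_DD B, ev_log_pow 4 0.002 (by norm_num),
      ev_log_pow (8 * C) 0.002 (by norm_num), ev_log_log 1 0.002 (by norm_num), ev_log_ge 8,
      eventually_ge_atTop (16 : ℝ), ev_YY 0.01 (by norm_num), ev_pow_log 16 0.01 (B + 2) (by norm_num)]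
      with x hprod hT hDD h4 h8C hll hL8 hx16 hYY hpl
      X₁ X₂ D₂ w Q fam hp hX hX2 hD2 hmaj hQ hw hw'
    obtain ⟨hD1, hD1u, hD1'⟩ := hDD
    set L : ℝ := Real.log x with hL
    set D₁ : ℕ := DD x B with hD₁
    clear_value L D₁
    have hx0 : 0 < x := by linarith
    have hL0 : 0 < L := by linarith
    have hL1 : 1 ≤ L := by linarith
    have hs0 : 0 < √x := Real.sqrt_pos.mpr hx0
    have hss : √x * √x = x := Real.mul_self_sqrt hx0.le
    have hll0 : 0 ≤ Real.log L := Real.log_nonneg hL1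
    have hD10 : (0 : ℝ) < D₁ := by exact_mod_cast hD1'
    have hlog4 : 0 ≤ Real.log 4 := Real.log_nonneg (by norm_num)
    have hY0 : 0 < YY x := Real.exp_pos _
    set T : ℝ := 1 + Real.log 4 + B * Real.log L with hTdef
    clear_value T
    have hB0 : (0 : ℝ) ≤ B := Nat.cast_nonneg _
    have hT0 : 0 ≤ T := by rw [hTdef]; positivity
    have hT1 : T ≤ L ^ (0.002 : ℝ) := by
      refine le_trans ?_ hT
      rw [hTdef]
      nlinarith [mul_nonneg hB0 hll0, mul_nonneg hlog4 hll0]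
    -- the ratio `2 √x / D₁`
    have hlogr : 1 + Real.log (2 * √x / D₁) ≤ T := by
      have h1 : 2 * √x / D₁ ≤ 4 * L ^ B := by
        rw [div_le_iff₀ hD10]
        rw [div_le_iff₀ (by positivity)] at hD1
        linarith
      have h2 : Real.log (2 * √x / D₁) ≤ Real.log (4 * L ^ B) :=
        Real.log_le_log (by positivity) h1
      rw [Real.log_mul (by norm_num) (by positivity), Real.log_pow] at h2
      rw [hTdef]
      linarith
    have hD1s : (D₁ : ℝ) ≤ 2 * √x := by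
      have h2 : √x / L ^ B ≤ √x := div_le_self hs0.le (one_le_pow₀ hL1)
      linarith
    -- the sieve bound
    set P : ℝ := C * Real.log L / L with hPdef
    have hP0 : 0 ≤ P := by positivity
    clear_value P
    have hP : ∀ k : ℕ, 1 ≤ k → k ≤ D₂ * D₂ →
        ∏ l ∈ Q.filter (fun l => ¬ l ∣ k), (1 - 1 / (l : ℝ)) ≤ P := by
      intro k hk1 hk2
      rw [hQ]
      apply hprod w k hw hk1
      have h1 : (k : ℝ) ≤ (D₂ : ℝ) * D₂ := by exact_mod_cast hk2
      have h2 : (D₂ : ℝ) * D₂ ≤ (2 * √x) * (2 * √x) := by gcongr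
      have h3 : (2 * √x) * (2 * √x) = 4 * x := by linear_combination 4 * hss
      have h4 : 4 * x ≤ x ^ 3 := by nlinarith [mul_pos hx0 hx0]
      linarith
    have hw1 : 1 ≤ w := by
      rcases Nat.eq_zero_or_pos w with h | h
      · subst h
        have : 0 < x ^ (1 / (200 * (B₀ + 1)) : ℝ) := by positivity
        rw [Nat.cast_zero, mul_zero] at hw
        exact absurd hw (not_le.mpr this)
      · exact h
    set W : ℝ := x ^ (1 / 200 : ℝ) with hWdef
    have hW0 : 0 < W := by positivity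
    have hWle : W ≤ x ^ (1 / 200 : ℝ) := le_of_eq hWdef
    clear_value W
    have hW : (w : ℝ) ^ B₀ ≤ W := by
      refine le_trans ?_ hw'
      exact pow_le_pow_right₀ (by exact_mod_cast hw1) (Nat.le_succ _)
    have hQ' : ∀ l ∈ Q, ¬ l ∣ N * q := by
      intro l hl
      rw [hQ, mem_filter] at hl
      exact hl.2.2
    set S := (Icc 1 D₂).filter (fun g : ℕ => (D₁ : ℝ) < g * YY x) with hS
    -- sum over `g`
    set U : ℝ := T + L ^ (0.02 : ℝ) with hU
    have hsg : ∑ g ∈ S, (1 : ℝ) / g ≤ U := by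
      have hu : (0 : ℝ) < D₁ / YY x := by positivity
      have hY1 : 1 ≤ YY x := YY_ge_one (by linarith)
      have huv : (D₁ : ℝ) / YY x ≤ 2 * √x := (div_le_self hD10.le hY1).trans hD1s
      have h1 := sum_inv_le hu huv S (by
        intro g hg
        rw [hS, mem_filter, mem_Icc] at hg
        refine ⟨hg.1.1, ?_, ?_⟩
        · rw [div_lt_iff₀ hY0]
          exact hg.2
        · have : (g : ℝ) ≤ D₂ := by exact_mod_cast hg.1.2
          linarith)
      have h2 : 2 * √x / (D₁ / YY x) = 2 * √x / D₁ * YY x := by field_simp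
      rw [h2, Real.log_mul (by positivity) (by positivity), log_YY, ← hL] at h1
      rw [hU]
      linarith
    have hU0 : 0 ≤ U := by positivity
    clear_value U
    have hUle : U ≤ 2 * L ^ (0.02 : ℝ) := by
      have : L ^ (0.002 : ℝ) ≤ L ^ (0.02 : ℝ) := Real.rpow_le_rpow_of_exponent_le hL1 (by norm_num)
      rw [hU]
      linarith
    -- each `g`
    have hone : ∀ g ∈ S, Abs N p q m₁ X₁ X₂ D₁ D₂ g fam ≤
        8 * x * P * T ^ 2 * (1 / g) + W * (4 * x) * (YY x / D₁) * (1 / g) := by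
      intro g hg
      rw [hS, mem_filter, mem_Icc] at hg
      obtain ⟨⟨hg1, hg2⟩, hg3⟩ := hg
      have hg0 : (0 : ℝ) < g := by exact_mod_cast hg1
      have h1 := hR3.abs_le (D₁ := D₁) (D₂ := D₂) (x := x) (P := P) (W := W) hTA hyp hmaj hQ' hp hX hX2
        hx0.le hg1 hP0 hP hW
      have h2 : ∑ b ∈ hR3.Ag D₁ D₂ g, (1 : ℝ) / b ≤ T := by
        have h3 := sum_inv_le (u := D₁ / g) (v := 2 * √x / g) (by positivity)
          (by gcongr) (hR3.Ag D₁ D₂ g) (by
            intro b hb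
            rw [hR3.Ag, mem_filter, mem_Icc] at hb
            refine ⟨hb.1.1, ?_, ?_⟩
            · rw [div_lt_iff₀ hg0]
              have : (D₁ : ℝ) < ((g * b : ℕ) : ℝ) := by exact_mod_cast hb.2.1
              push_cast at this
              linarith
            · rw [le_div_iff₀ hg0]
              have : ((g * b : ℕ) : ℝ) ≤ D₂ := by exact_mod_cast hb.2.2
              push_cast at this
              linarith)
        have h4 : 2 * √x / g / (D₁ / g) = 2 * √x / D₁ := by field_simp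
        rw [h4] at h3
        linarith
      have h20 : 0 ≤ ∑ b ∈ hR3.Ag D₁ D₂ g, (1 : ℝ) / b := sum_nonneg (fun _ _ => by positivity)
      have h5 : ((hR3.Ag D₁ D₂ g).card : ℝ) ≤ 2 * √x / g := by
        have hsub : hR3.Ag D₁ D₂ g ⊆ Icc 1 ⌊2 * √x / g⌋₊ := by
          intro b hb
          rw [hR3.Ag, mem_filter, mem_Icc] at hb
          rw [mem_Icc]
          refine ⟨hb.1.1, Nat.le_floor ?_⟩
          rw [le_div_iff₀ hg0]
          have : ((g * b : ℕ) : ℝ) ≤ D₂ := by exact_mod_cast hb.2.2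
          push_cast at this
          linarith
        have h6 := card_le_card hsub
        rw [Nat.card_Icc, Nat.add_sub_cancel] at h6
        have h7 : ((hR3.Ag D₁ D₂ g).card : ℝ) ≤ (⌊2 * √x / g⌋₊ : ℝ) := by exact_mod_cast h6
        exact h7.trans (Nat.floor_le (by positivity))
      refine h1.trans (add_le_add ?_ ?_)
      · calc 8 * x * P / g * (∑ b ∈ hR3.Ag D₁ D₂ g, (1 : ℝ) / b) ^ 2 ≤ 8 * x * P / g * T ^ 2 := by
              gcongr
          _ = _ := by ring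
      · have h8 : 1 / (g : ℝ) ≤ YY x / D₁ := by
          rw [div_le_div_iff₀ hg0 hD10]
          linarith
        calc W * ((hR3.Ag D₁ D₂ g).card : ℝ) ^ 2 ≤ W * (2 * √x / g) ^ 2 := by gcongr
          _ = W * (4 * x) * (1 / g) * (1 / g) := by
              field_simp
              linear_combination 4 * hss
          _ ≤ W * (4 * x) * (YY x / D₁) * (1 / g) := by gcongr
    have hsum : ∑ g ∈ S, Abs N p q m₁ X₁ X₂ D₁ D₂ g fam ≤
        8 * x * P * T ^ 2 * U + W * (4 * x) * (YY x / D₁) * U := by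
      calc ∑ g ∈ S, Abs N p q m₁ X₁ X₂ D₁ D₂ g fam
          ≤ ∑ g ∈ S, (8 * x * P * T ^ 2 * (1 / g) + W * (4 * x) * (YY x / D₁) * (1 / g)) :=
            sum_le_sum hone
        _ = (8 * x * P * T ^ 2 + W * (4 * x) * (YY x / D₁)) * ∑ g ∈ S, (1 : ℝ) / g := by
            rw [mul_sum]
            apply sum_congr rfl
            intro g _
            ring
        _ ≤ (8 * x * P * T ^ 2 + W * (4 * x) * (YY x / D₁)) * U := by gcongr
        _ = _ := by ring
    refine hsum.trans ?_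
    have hLr0 : 0 < L ^ (0.93 : ℝ) := by positivity
    -- main term
    have hmain : 8 * x * P * T ^ 2 * U ≤ x / L ^ (0.93 : ℝ) / 2 := by
      apply main_final hx0 hL1 h4
      have hll' : Real.log L ≤ L ^ (0.002 : ℝ) := by linarith
      have hp2 : L ^ (0.002 : ℝ) * L ^ (0.002 : ℝ) = L ^ (0.004 : ℝ) := by
        rw [← Real.rpow_add hL0]; norm_num
      have h1 : 8 * C * Real.log L ≤ L ^ (0.004 : ℝ) := by
        rw [← hp2]
        gcongr
      have h2 : T ^ 2 ≤ L ^ (0.004 : ℝ) := by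
        rw [← hp2, pow_two]
        gcongr
      have h3 : U ≤ L ^ (0.022 : ℝ) := by
        refine hUle.trans ?_
        have : L ^ (0.022 : ℝ) = L ^ (0.002 : ℝ) * L ^ (0.02 : ℝ) := by
          rw [← Real.rpow_add hL0]; norm_num
        rw [this]
        gcongr
        linarith
      calc 8 * x * P * T ^ 2 * U = x * (8 * C * Real.log L * T ^ 2 * U / L) := by
            rw [hPdef]; ring
        _ ≤ x * (L ^ (0.004 : ℝ) * L ^ (0.004 : ℝ) * L ^ (0.022 : ℝ) / L) := by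
            gcongr
        _ = x * (L ^ (0.03 : ℝ) / L) := by
            rw [← Real.rpow_add hL0, ← Real.rpow_add hL0]
            norm_num
        _ ≤ x * (L ^ (0.06 : ℝ) / L) := by
            have := Real.rpow_le_rpow_of_exponent_le hL1 (by norm_num : (0.03 : ℝ) ≤ 0.06)
            gcongr
    -- error term
    have herr : W * (4 * x) * (YY x / D₁) * U ≤ x / L ^ (0.93 : ℝ) / 2 := by
      have h1 : YY x / D₁ ≤ x ^ (0.01 : ℝ) * (2 * L ^ B) / √x := by
        rw [div_le_div_iff₀ hD10 hs0]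
        rw [div_le_iff₀ (by positivity)] at hD1
        calc YY x * √x ≤ x ^ (0.01 : ℝ) * √x := by gcongr
          _ ≤ x ^ (0.01 : ℝ) * (D₁ * (2 * L ^ B)) := by gcongr
          _ = _ := by ring
      have h2 : U ≤ 2 * L := by
        refine hUle.trans ?_
        have : L ^ (0.02 : ℝ) ≤ L ^ (1 : ℝ) := Real.rpow_le_rpow_of_exponent_le hL1 (by norm_num)
        rw [Real.rpow_one] at this
        linarith
      have h3 : W * (4 * x) * (YY x / D₁) * U ≤
          x ^ (1 / 200 : ℝ) * (4 * x) * (x ^ (0.01 : ℝ) * (2 * L ^ B) / √x) * (2 * L) := by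
        gcongr
      have h4 : x ^ (1 / 200 : ℝ) * (4 * x) * (x ^ (0.01 : ℝ) * (2 * L ^ B) / √x) * (2 * L) =
          x ^ (1 / 200 : ℝ) * x ^ (0.01 : ℝ) * √x * (16 * L ^ (B + 2)) / L := by
        have h5 : x / √x = √x := by rw [div_eq_iff hs0.ne', hss]
        calc x ^ (1 / 200 : ℝ) * (4 * x) * (x ^ (0.01 : ℝ) * (2 * L ^ B) / √x) * (2 * L)
            = x ^ (1 / 200 : ℝ) * x ^ (0.01 : ℝ) * (x / √x) * (16 * (L ^ B * L)) := by ring
          _ = x ^ (1 / 200 : ℝ) * x ^ (0.01 : ℝ) * √x * (16 * (L ^ B * L)) := by rw [h5]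
          _ = _ := by
            field_simp
            ring
      have h6 : x ^ (1 / 200 : ℝ) * x ^ (0.01 : ℝ) * √x * (16 * L ^ (B + 2)) ≤ x ^ (3 / 4 : ℝ) := by
        calc x ^ (1 / 200 : ℝ) * x ^ (0.01 : ℝ) * √x * (16 * L ^ (B + 2))
            ≤ x ^ (1 / 200 : ℝ) * x ^ (0.01 : ℝ) * √x * x ^ (0.01 : ℝ) := by gcongr
          _ = x ^ ((1 / 200 : ℝ) + 0.01 + 1 / 2 + 0.01) := by
              rw [Real.rpow_add hx0, Real.rpow_add hx0, Real.rpow_add hx0, Real.sqrt_eq_rpow]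
          _ ≤ x ^ (3 / 4 : ℝ) := Real.rpow_le_rpow_of_exponent_le (by linarith) (by norm_num)
      apply err_final hx16 hL1
      calc W * (4 * x) * (YY x / D₁) * U
          ≤ x ^ (1 / 200 : ℝ) * x ^ (0.01 : ℝ) * √x * (16 * L ^ (B + 2)) / L := by
            rw [← h4]; exact h3
        _ ≤ x ^ (3 / 4 : ℝ) / L := by gcongr
    linarith
  exact eventually_atTop.mp key

end Pool.Agent.Helper15.AB
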