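import Mathlib
import Pool.Agent.Helper15.AB.StBV
import Pool.Agent.Helper2.Characters

/-!
Project AB, module RG: regrouping by conductors.
-/

set_option autoImplicit false

namespace Pool.Agent.Helper15.AB

open Finset

namespace RG

open Classical in
/-- the characters of a given conductor -/
lemma cond_le (F : (ℕ → ℂ) → ℝ) (hF : ∀ f, 0 ≤ F f) {q : ℕ} [NeZero q] {r : ℕ} (hr : r ≠ 0) :
    ∑ χ ∈ (univ : Finset (DirichletCharacter ℂ q)).filter (fun χ => χ ≠ 1 ∧ χ.conductor = r),
      F (fun n => χ.primitiveCharacter (n : ZMod χ.conductor)) ≤ SP F r := by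
  have hN : NeZero r := ⟨hr⟩
  rw [SP, dif_neg hr]
  set S := (univ : Finset (DirichletCharacter ℂ q)).filter (fun χ => χ ≠ 1 ∧ χ.conductor = r)
    with hS
  have hex : ∀ χ : DirichletCharacter ℂ q, ∃ ψ : DirichletCharacter ℂ r, χ.conductor = r →
      ψ.IsPrimitive ∧ (fun n : ℕ => ψ (n : ZMod r)) =
        fun n : ℕ => χ.primitiveCharacter (n : ZMod χ.conductor) := by
    intro χ
    by_cases h : χ.conductor = r
    · subst h
      exact ⟨χ.primitiveCharacter, fun _ => ⟨χ.primitiveCharacter_isPrimitive, rfl⟩⟩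
    · exact ⟨1, fun h' => absurd h' h⟩
  choose g hg using hex
  have hinj : Set.InjOn g (↑S : Set (DirichletCharacter ℂ q)) := by
    intro χ hχ χ' hχ' h
    rw [mem_coe, hS, mem_filter] at hχ hχ'
    apply Pool.Agent.Helper2.prFun_injective
    have e1 := (hg χ hχ.2.2).2
    have e2 := (hg χ' hχ'.2.2).2
    rw [h] at e1
    exact e1.symm.trans e2
  calc ∑ χ ∈ S, F (fun n => χ.primitiveCharacter (n : ZMod χ.conductor))
      = ∑ χ ∈ S, F (fun n => (g χ) (n : ZMod r)) := by
        refine sum_congr rfl fun χ hχ => ?_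
        rw [hS, mem_filter] at hχ
        rw [(hg χ hχ.2.2).2]
    _ = ∑ ψ ∈ S.image g, F (fun n => ψ (n : ZMod r)) :=
        (sum_image (f := fun ψ : DirichletCharacter ℂ r => F (fun n => ψ (n : ZMod r))) hinj).symm
    _ ≤ _ := by
        apply sum_le_sum_of_subset_of_nonneg
        · intro ψ hψ
          rw [mem_image] at hψ
          obtain ⟨χ, hχ, rfl⟩ := hψ
          rw [hS, mem_filter] at hχ
          rw [mem_filter]
          exact ⟨mem_univ _, (hg χ hχ.2.2).1⟩
        · intro ψ _ _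
          exact hF _

/-- the nonprincipal characters modulo `q` -/
lemma SN_le (F : (ℕ → ℂ) → ℝ) (hF : ∀ f, 0 ≤ F f) {q Q : ℕ} (hq : q ∈ Icc 1 Q) :
    SN F q ≤ ∑ r ∈ Ioc 1 Q, (if r ∣ q then SP F r else 0) := by
  classical
  rw [mem_Icc] at hq
  have hq0 : q ≠ 0 := by omega
  have hN : NeZero q := ⟨hq0⟩
  rw [SN, dif_neg hq0]
  rw [← sum_fiberwise_of_maps_to (s := (univ : Finset (DirichletCharacter ℂ q)).filter
    (fun χ => χ ≠ 1)) (t := Ioc 1 Q) (g := fun χ => χ.conductor)
    (f := fun χ => F (fun n => χ.primitiveCharacter (n : ZMod χ.conductor))) ?_]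
  · refine sum_le_sum fun r hr => ?_
    rw [mem_Ioc] at hr
    rw [filter_filter]
    by_cases h : r ∣ q
    · rw [if_pos h]
      exact cond_le F hF (by omega)
    · rw [if_neg h]
      apply le_of_eq
      apply sum_eq_zero
      intro χ hχ
      rw [mem_filter] at hχ
      exact absurd (hχ.2.2 ▸ χ.conductor_dvd_level) h
  · intro χ hχ
    rw [mem_filter] at hχ
    rw [mem_Ioc]
    have h1 : χ.conductor ≠ 0 := DirichletCharacter.conductor_ne_zero χ
    have h2 : χ.conductor ≠ 1 := Pool.Agent.Helper2.conductor_ne_one χ hχ.2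
    have h3 : χ.conductor ≤ q := Nat.le_of_dvd (by omega) χ.conductor_dvd_level
    omega

end RG

open RG in
/-- module RG -/
theorem hRG : StRG := by
  classical
  intro F Q hF
  calc ∑ q ∈ Icc 1 Q, 1 / (Nat.totient q : ℝ) * SN F q
      ≤ ∑ q ∈ Icc 1 Q, 1 / (Nat.totient q : ℝ) *
          ∑ r ∈ Ioc 1 Q, (if r ∣ q then SP F r else 0) := by
        refine sum_le_sum fun q hq => ?_
        have := SN_le F hF hq
        gcongr
    _ = ∑ r ∈ Ioc 1 Q, ∑ q ∈ Icc 1 Q, (if r ∣ q then 1 / (Nat.totient q : ℝ) * SP F r else 0) := by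
        simp_rw [mul_sum]
        rw [sum_comm]
        refine sum_congr rfl fun r _ => sum_congr rfl fun q _ => ?_
        split_ifs
        · rfl
        · rw [mul_zero]
    _ = _ := by
        refine sum_congr rfl fun r _ => ?_
        rw [← sum_filter, ← sum_mul]

end Pool.Agent.Helper15.AB
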