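import Mathlib
import Pool.Agent.Helper15.AB.StMid

set_option autoImplicit false

namespace Pool.Agent.Helper15.AB.RPh

open Finset ArithmeticFunction

/-! ### the character and `FF` -/

theorem c4_mul (a b : ℕ) : c4 (a * b) = c4 a * c4 b := by
  unfold c4
  have ha : a % 4 < 4 := Nat.mod_lt _ (by norm_num)
  have hb : b % 4 < 4 := Nat.mod_lt _ (by norm_num)
  rw [Nat.mul_mod]
  generalize a % 4 = x at *
  generalize b % 4 = y at *
  interval_cases x <;> interval_cases y <;> norm_num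

theorem c4_one : c4 1 = 1 := by simp [c4]

theorem c4_pow (p j : ℕ) : c4 (p ^ j) = c4 p ^ j := by
  induction j with
  | zero => simp [c4_one]
  | succ j ih => rw [pow_succ, c4_mul, ih, pow_succ]

/-- the character as an arithmetic function -/
noncomputable def C4 : ArithmeticFunction ℝ := ⟨c4, by simp [c4]⟩

theorem C4_mult : C4.IsMultiplicative :=
  ⟨c4_one, fun {m n} _ => c4_mul m n⟩

/-- `FF` as an arithmetic function -/
noncomputable def FFa : ArithmeticFunction ℝ :=
  ((zeta : ArithmeticFunction ℕ) : ArithmeticFunction ℝ) * C4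

theorem FFa_mult : FFa.IsMultiplicative :=
  (isMultiplicative_zeta.natCast).mul C4_mult

theorem FFa_apply (m : ℕ) : FFa m = FF m := by
  unfold FFa FF
  rw [coe_zeta_mul_apply]
  rfl

theorem FF_prime_pow (p : ℕ) (hp : p.Prime) (e : ℕ) :
    FF (p ^ e) = ∑ j ∈ range (e + 1), c4 p ^ j := by
  unfold FF
  rw [Nat.divisors_prime_pow hp, sum_map]
  exact sum_congr rfl fun j _ => c4_pow p j

/-! ### `Fst` -/

/-- `μ(g)` at the square `g ^ 2` -/
noncomputable def msq : ArithmeticFunction ℝ :=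
  ⟨fun n => if IsSquare n then ((moebius (Nat.sqrt n) : ℤ) : ℝ) else 0, by simp⟩

theorem msq_sq (g : ℕ) : msq (g ^ 2) = ((moebius g : ℤ) : ℝ) := by
  change (if IsSquare (g ^ 2) then ((moebius (Nat.sqrt (g ^ 2)) : ℤ) : ℝ) else 0) = _
  rw [if_pos ⟨g, pow_two g⟩, Nat.sqrt_eq']

theorem msq_not {n : ℕ} (h : ¬ IsSquare n) : msq n = 0 := if_neg h

theorem sq_of_coprime {a b c : ℕ} (h : Nat.Coprime a b) (hc : a * b = c ^ 2) :
    ∃ d, a = d ^ 2 := exists_eq_pow_of_mul_eq_pow (by
      have : gcd a b = 1 := h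
      rw [this]; exact isUnit_one) hc

theorem msq_mult : msq.IsMultiplicative := by
  refine ⟨?_, ?_⟩
  · have := msq_sq 1
    simpa using this
  · intro a b hab
    by_cases ha : IsSquare a
    · by_cases hb : IsSquare b
      · obtain ⟨x, rfl⟩ := ha
        obtain ⟨y, rfl⟩ := hb
        rw [← pow_two, ← pow_two, ← mul_pow, msq_sq, msq_sq, msq_sq]
        have h1 : Nat.Coprime x y := Nat.Coprime.coprime_mul_left (Nat.Coprime.coprime_mul_left_right hab)
        rw [isMultiplicative_moebius.map_mul_of_coprime h1]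
        push_cast
        ring
      · rw [msq_not hb, mul_zero]
        apply msq_not
        rintro ⟨c, hc⟩
        obtain ⟨d, hd⟩ := sq_of_coprime (a := b) (b := a) hab.symm (c := c) (by rw [mul_comm, hc, pow_two])
        exact hb ⟨d, by rw [hd, pow_two]⟩
    · rw [msq_not ha, zero_mul]
      apply msq_not
      rintro ⟨c, hc⟩
      obtain ⟨d, hd⟩ := sq_of_coprime (a := a) (b := b) hab (c := c) (by rw [hc, pow_two])
      exact ha ⟨d, by rw [hd, pow_two]⟩

/-- sums over the square divisors -/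
theorem msq_mul_apply (f : ArithmeticFunction ℝ) (m : ℕ) (hm : 1 ≤ m) :
    (msq * f) m = ∑ g ∈ (Icc 1 m).filter (fun g => g ^ 2 ∣ m),
      ((moebius g : ℤ) : ℝ) * f (m / g ^ 2) := by
  rw [mul_apply, Nat.sum_divisorsAntidiagonal (fun a b => msq a * f b)]
  have h1 : ∑ i ∈ m.divisors, msq i * f (m / i) =
      ∑ i ∈ m.divisors.filter (fun i => IsSquare i), msq i * f (m / i) := by
    rw [sum_filter]
    refine sum_congr rfl fun i _ => ?_
    split_ifs with h
    · rfl
    · rw [msq_not h, zero_mul]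
  rw [h1]
  refine sum_nbij' (fun i => Nat.sqrt i) (fun g => g ^ 2) ?_ ?_ ?_ ?_ ?_
  · intro i hi
    rw [mem_filter, Nat.mem_divisors] at hi
    obtain ⟨⟨hi1, _⟩, c, rfl⟩ := hi
    rw [mem_filter, mem_Icc, Nat.sqrt_eq]
    have hc : c ≠ 0 := by rintro rfl; simp at hi1; omega
    refine ⟨⟨by omega, ?_⟩, by rw [pow_two]; exact hi1⟩
    exact Nat.le_of_dvd hm ((Dvd.intro _ rfl : c ∣ c * c).trans hi1)
  · intro g hg
    rw [mem_filter] at hg
    rw [mem_filter, Nat.mem_divisors]
    exact ⟨⟨hg.2, by omega⟩, g, pow_two g⟩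
  · intro i hi
    rw [mem_filter] at hi
    obtain ⟨_, c, rfl⟩ := hi
    change (Nat.sqrt (c * c)) ^ 2 = c * c
    rw [Nat.sqrt_eq, pow_two]
  · intro g _
    exact Nat.sqrt_eq' g
  · intro i hi
    rw [mem_filter] at hi
    obtain ⟨_, c, rfl⟩ := hi
    change msq (c * c) * f (m / (c * c)) = ((moebius (Nat.sqrt (c * c)) : ℤ) : ℝ) *
      f (m / (Nat.sqrt (c * c)) ^ 2)
    rw [Nat.sqrt_eq, ← pow_two, msq_sq]

theorem Fst_eq (m : ℕ) (hm : 1 ≤ m) : Fst m = (msq * FFa) m := by
  rw [msq_mul_apply _ _ hm]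
  unfold Fst
  refine sum_congr rfl fun g _ => ?_
  rw [FFa_apply]

theorem Fst_mul {a b : ℕ} (ha : 1 ≤ a) (hb : 1 ≤ b) (hab : Nat.Coprime a b) :
    Fst (a * b) = Fst a * Fst b := by
  rw [Fst_eq _ ha, Fst_eq _ hb, Fst_eq _ (Nat.mul_pos ha hb)]
  exact (msq_mult.mul FFa_mult).map_mul_of_coprime hab

theorem Fst_one : Fst 1 = 1 := by
  rw [Fst_eq _ le_rfl]
  exact (msq_mult.mul FFa_mult).map_one

theorem Fst_prime (p : ℕ) (hp : p.Prime) : Fst p = 1 + c4 p := by
  unfold Fst
  have h1 : (Icc 1 p).filter (fun g => g ^ 2 ∣ p) = {1} := by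
    ext g
    rw [mem_filter, mem_Icc, mem_singleton]
    constructor
    · rintro ⟨_, h⟩
      have h2 : g ∣ p := (Dvd.intro_left (g ^ 1) (by rw [← pow_succ])).trans h
      rcases (Nat.dvd_prime hp).1 h2 with h3 | h3
      · exact h3
      · exfalso
        subst h3
        have h4 := Nat.le_of_dvd hp.pos h
        have := hp.two_le
        nlinarith
    · rintro rfl
      exact ⟨⟨le_rfl, hp.one_lt.le⟩, by simp⟩
  rw [h1, sum_singleton]
  have h2 := FF_prime_pow p hp 1
  rw [pow_one] at h2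
  simp [h2, sum_range_succ]

theorem Fst_prime_pow (p : ℕ) (hp : p.Prime) (e : ℕ) :
    Fst (p ^ (e + 2)) = c4 p ^ (e + 1) * (1 + c4 p) := by
  unfold Fst
  have hp1 : 1 < p := hp.one_lt
  have h1 : ({1, p} : Finset ℕ) ⊆ (Icc 1 (p ^ (e + 2))).filter (fun g => g ^ 2 ∣ p ^ (e + 2)) := by
    intro g hg
    rw [mem_insert, mem_singleton] at hg
    rw [mem_filter, mem_Icc]
    rcases hg with rfl | rfl
    · exact ⟨⟨le_rfl, Nat.one_le_pow _ _ hp.pos⟩, by simp⟩
    · exact ⟨⟨hp.pos, Nat.le_self_pow (by omega) _⟩, pow_dvd_pow _ (by omega)⟩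
  rw [← sum_subset h1]
  · rw [sum_pair hp.one_lt.ne]
    have h2 : p ^ (e + 2) / p ^ 2 = p ^ e := by
      rw [pow_add, Nat.mul_div_cancel _ (pow_pos hp.pos 2)]
    have h3 : moebius p = -1 := moebius_apply_prime hp
    rw [one_pow, Nat.div_one, h2, h3, moebius_apply_one, FF_prime_pow p hp, FF_prime_pow p hp,
      sum_range_succ, sum_range_succ]
    push_cast
    ring
  · intro g hg hg2
    rw [mem_filter, mem_Icc] at hg
    rw [mem_insert, mem_singleton] at hg2
    push Not at hg2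
    have h2 : g ∣ p ^ (e + 2) := (Dvd.intro_left (g ^ 1) (by rw [← pow_succ])).trans hg.2
    obtain ⟨i, _, rfl⟩ := (Nat.dvd_prime_pow hp).1 h2
    have hi : 2 ≤ i := by
      by_contra hi
      push Not at hi
      interval_cases i
      · exact hg2.1 (by simp)
      · exact hg2.2 (by simp)
    have h3 : moebius (p ^ i) = 0 := by
      rw [moebius_apply_prime_pow hp (by omega), if_neg (by omega)]
    rw [h3]
    simp

/-! ### square roots of `-1` -/

/-- number of square roots of `-1` modulo `m` -/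
noncomputable def rho (m : ℕ) : ℕ := Nat.card {x : ZMod m // x ^ 2 = -1}

theorem rho_mul {a b : ℕ} (hab : Nat.Coprime a b) : rho (a * b) = rho a * rho b := by
  unfold rho
  rw [← Nat.card_prod]
  refine Nat.card_congr ?_
  let e := ZMod.chineseRemainder hab
  have key : ∀ x : ZMod (a * b), x ^ 2 = -1 ↔ (e x).1 ^ 2 = -1 ∧ (e x).2 ^ 2 = -1 := by
    intro x
    rw [← e.injective.eq_iff, map_pow, map_neg, map_one, Prod.ext_iff]
    rfl
  exact
    { toFun := fun x => (⟨(e x.1).1, ((key x.1).1 x.2).1⟩, ⟨(e x.1).2, ((key x.1).1 x.2).2⟩)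
      invFun := fun y => ⟨e.symm (y.1.1, y.2.1), by
        rw [key, e.apply_symm_apply]
        exact ⟨y.1.2, y.2.2⟩⟩
      left_inv := by
        rintro ⟨x, hx⟩
        apply Subtype.ext
        change e.symm ((e x).1, (e x).2) = x
        rw [Prod.mk.eta, e.symm_apply_apply]
      right_inv := by
        rintro ⟨⟨y, hy⟩, ⟨z, hz⟩⟩
        apply Prod.ext
        · apply Subtype.ext
          change (e (e.symm (y, z))).1 = y
          rw [e.apply_symm_apply]
        · apply Subtype.ext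
          change (e (e.symm (y, z))).2 = z
          rw [e.apply_symm_apply] }

/-- lifting of square roots of `-1` modulo prime powers -/
theorem exists_root (p : ℕ) (hp : p.Prime) (h1 : p % 4 = 1) (e : ℕ) :
    ∃ x : ℤ, ((p : ℤ) ^ (e + 1)) ∣ x ^ 2 + 1 := by
  have : Fact p.Prime := ⟨hp⟩
  induction e with
  | zero =>
    obtain ⟨y, hy⟩ := ZMod.exists_sq_eq_neg_one_iff.2 (show p % 4 ≠ 3 by omega)
    refine ⟨y.val, ?_⟩
    rw [zero_add, pow_one, ← ZMod.intCast_zmod_eq_zero_iff_dvd]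
    push_cast
    rw [ZMod.natCast_zmod_val, pow_two, ← hy]
    ring
  | succ e ih =>
    obtain ⟨x, k, hk⟩ := ih
    have hp2 : IsCoprime (2 * x) (p : ℤ) := by
      rw [isCoprime_comm]
      rw [Prime.coprime_iff_not_dvd (Nat.prime_iff_prime_int.1 hp)]
      intro h
      rcases (Nat.prime_iff_prime_int.1 hp).dvd_or_dvd h with h | h
      · have h2 : p ∣ 2 := by exact_mod_cast h
        have := (Nat.prime_dvd_prime_iff_eq hp Nat.prime_two).1 h2
        omega
      · have h3 : (p : ℤ) ∣ x ^ 2 + 1 := by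
          rw [hk]; exact Dvd.dvd.mul_right (dvd_pow_self _ (by omega)) _
        have h4 : (p : ℤ) ∣ 1 := by
          have := dvd_sub h3 (Dvd.dvd.mul_left h x)
          have h5 : x ^ 2 + 1 - x * x = 1 := by ring
          rwa [h5] at this
        have h6 : p ∣ 1 := by exact_mod_cast h4
        exact hp.one_lt.ne' (Nat.dvd_one.1 h6)
    obtain ⟨u, v, huv⟩ := hp2
    refine ⟨x - k * u * (p : ℤ) ^ (e + 1), ?_⟩
    have h5 : (x - k * u * (p : ℤ) ^ (e + 1)) ^ 2 + 1 =
        (p : ℤ) ^ (e + 1 + 1) * (k * v + k ^ 2 * u ^ 2 * (p : ℤ) ^ e) := by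
      linear_combination hk + (-(k * (p : ℤ) ^ (e + 1))) * huv
    rw [h5]
    exact Dvd.intro _ rfl

theorem two_le_rho (p : ℕ) (hp : p.Prime) (h1 : p % 4 = 1) (e : ℕ) : 2 ≤ rho (p ^ (e + 1)) := by
  obtain ⟨x, hx⟩ := exists_root p hp h1 e
  have hp0 : p ^ (e + 1) ≠ 0 := pow_ne_zero _ hp.ne_zero
  have : NeZero (p ^ (e + 1)) := ⟨hp0⟩
  have hx' : ((x : ZMod (p ^ (e + 1))) ^ 2 = -1) := by
    rw [eq_neg_iff_add_eq_zero]
    have := (ZMod.intCast_zmod_eq_zero_iff_dvd (x ^ 2 + 1) (p ^ (e + 1))).2 (by exact_mod_cast hx)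
    exact_mod_cast this
  have hne : (x : ZMod (p ^ (e + 1))) ≠ -x := by
    intro h
    have h2 : ((2 * x : ℤ) : ZMod (p ^ (e + 1))) = 0 := by
      push_cast
      rw [two_mul]
      nth_rewrite 2 [h]
      ring
    rw [ZMod.intCast_zmod_eq_zero_iff_dvd] at h2
    have h3 : (p : ℤ) ∣ 2 * x := (by
      push_cast at h2
      exact (dvd_pow_self _ (by omega)).trans h2)
    rcases (Nat.prime_iff_prime_int.1 hp).dvd_or_dvd h3 with h | h
    · have h2 : p ∣ 2 := by exact_mod_cast h
      have := (Nat.prime_dvd_prime_iff_eq hp Nat.prime_two).1 h2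
      omega
    · have h3 : (p : ℤ) ∣ x ^ 2 + 1 := (dvd_pow_self _ (by omega)).trans hx
      have h4 : (p : ℤ) ∣ 1 := by
        have := dvd_sub h3 (Dvd.dvd.mul_left h x)
        have h5 : x ^ 2 + 1 - x * x = 1 := by ring
        rwa [h5] at this
      have h6 : p ∣ 1 := by exact_mod_cast h4
      exact hp.one_lt.ne' (Nat.dvd_one.1 h6)
  unfold rho
  have h3 : Nat.card (Fin 2) ≤ Nat.card {x : ZMod (p ^ (e + 1)) // x ^ 2 = -1} := by
    refine Nat.card_le_card_of_injective
      (fun i : Fin 2 => if i = 0 then ⟨(x : ZMod (p ^ (e + 1))), hx'⟩ else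
        ⟨-(x : ZMod (p ^ (e + 1))), by rw [neg_sq]; exact hx'⟩) ?_
    intro i j hij
    fin_cases i <;> fin_cases j <;> simp at hij ⊢
    · exact hne hij
    · exact hne hij.symm
  simpa using h3

theorem Fst_le_rho (m : ℕ) (hm : 1 ≤ m) : 0 ≤ Fst m ∧ Fst m ≤ rho m := by
  induction m using Nat.recOnPosPrimePosCoprime with
  | prime_pow p n hp hn =>
    have hc : c4 p = 1 ∨ c4 p = -1 ∨ c4 p = 0 := by
      unfold c4; split_ifs <;> simp
    obtain ⟨e, rfl⟩ : ∃ e, n = e + 1 := ⟨n - 1, by omega⟩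
    rcases e with _ | e
    · rw [zero_add, pow_one, Fst_prime p hp]
      rcases hc with hc | hc | hc
      · have h1 : p % 4 = 1 := by
          by_contra h
          unfold c4 at hc
          rw [if_neg h] at hc
          split_ifs at hc <;> norm_num at hc
        have h2 := two_le_rho p hp h1 0
        rw [zero_add, pow_one] at h2
        rw [hc]
        refine ⟨by norm_num, ?_⟩
        have : (2 : ℝ) ≤ rho p := by exact_mod_cast h2
        linarith
      · rw [hc]
        refine ⟨by norm_num, ?_⟩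
        have : (0 : ℝ) ≤ rho p := Nat.cast_nonneg _
        linarith
      · rw [hc]
        refine ⟨by norm_num, ?_⟩
        have hp2 : p = 2 := by
          rcases hp.eq_two_or_odd with h | h
          · exact h
          · exfalso
            unfold c4 at hc
            have : p % 4 = 1 ∨ p % 4 = 3 := by omega
            rcases this with h | h <;> simp [h] at hc
        subst hp2
        have : 1 ≤ rho 2 := by
          unfold rho
          have : Nonempty {x : ZMod 2 // x ^ 2 = -1} := ⟨⟨1, by decide⟩⟩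
          exact Nat.card_pos
        have : (1 : ℝ) ≤ rho 2 := by exact_mod_cast this
        linarith
    · rw [Fst_prime_pow p hp]
      rcases hc with hc | hc | hc
      · have h1 : p % 4 = 1 := by
          by_contra h
          unfold c4 at hc
          rw [if_neg h] at hc
          split_ifs at hc <;> norm_num at hc
        have h2 := two_le_rho p hp h1 (e + 1)
        rw [hc, one_pow]
        refine ⟨by norm_num, ?_⟩
        have : (2 : ℝ) ≤ rho (p ^ (e + 1 + 1)) := by exact_mod_cast h2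
        linarith
      · rw [hc]
        have : (0 : ℝ) ≤ rho (p ^ (e + 1 + 1)) := Nat.cast_nonneg _
        constructor <;> simp
      · rw [hc]
        have : (0 : ℝ) ≤ rho (p ^ (e + 1 + 1)) := Nat.cast_nonneg _
        constructor <;> simp
  | zero => omega
  | one =>
    rw [Fst_one]
    refine ⟨by norm_num, ?_⟩
    have : 1 ≤ rho 1 := by
      unfold rho
      have : Nonempty {x : ZMod 1 // x ^ 2 = -1} := ⟨⟨0, by decide⟩⟩
      exact Nat.card_pos
    exact_mod_cast this
  | coprime a b ha hb hab iha ihb =>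
    obtain ⟨h1, h2⟩ := iha (by omega)
    obtain ⟨h3, h4⟩ := ihb (by omega)
    rw [Fst_mul (by omega) (by omega) hab, rho_mul hab]
    refine ⟨mul_nonneg h1 h3, ?_⟩
    push_cast
    exact mul_le_mul h2 h4 h3 (Nat.cast_nonneg _)

/-! ### primitive representations -/

theorem exists_rep (m : ℕ) (hm : 1 ≤ m) (x : ℤ) (hx : (m : ℤ) ∣ x ^ 2 + 1) :
    ∃ a b : ℤ, a ^ 2 + b ^ 2 = m ∧ IsCoprime a b ∧ (m : ℤ) ∣ a - x * b := by
  let z : GaussianInt := ⟨x, 1⟩
  let M : GaussianInt := ((m : ℤ) : GaussianInt)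
  let g : GaussianInt := EuclideanDomain.gcd M z
  have hM0 : M ≠ 0 := by
    intro h
    have := congrArg Zsqrtd.re h
    simp [M] at this
    omega
  have hgM : g ∣ M := EuclideanDomain.gcd_dvd_left _ _
  have hgz : g ∣ z := EuclideanDomain.gcd_dvd_right _ _
  have hg0 : g ≠ 0 := by
    intro h
    rw [h, zero_dvd_iff] at hgM
    exact hM0 hgM
  -- integers dividing `g` are units
  have hunit : ∀ d : ℤ, ((d : GaussianInt) ∣ g) → d ∣ 1 := by
    intro d hd
    have h1 : (d : GaussianInt) ∣ z := hd.trans hgz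
    exact ((Zsqrtd.intCast_dvd d z).1 h1).2
  -- congruence
  have hcong : (m : ℤ) ∣ g.re - x * g.im := by
    have hb := EuclideanDomain.gcd_eq_gcd_ab M z
    have h1 : g = M * EuclideanDomain.gcdA M z + z * EuclideanDomain.gcdB M z := hb
    set c := EuclideanDomain.gcdA M z
    set d := EuclideanDomain.gcdB M z
    have hre : g.re = m * c.re + (x * d.re - d.im) := by
      rw [h1]
      simp [M, z, Zsqrtd.re_add, Zsqrtd.re_mul]
      ring
    have him : g.im = m * c.im + (x * d.im + d.re) := by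
      rw [h1]
      simp [M, z, Zsqrtd.im_add, Zsqrtd.im_mul]
    obtain ⟨t, ht⟩ := hx
    refine ⟨c.re - x * c.im - t * d.im, ?_⟩
    rw [hre, him]
    linear_combination (-d.im) * ht
  obtain ⟨h, hh⟩ := hgM
  have hh0 : h ≠ 0 := by
    rintro rfl
    rw [mul_zero] at hh
    exact hM0 hh
  have hnorm : ∀ w : GaussianInt, w * star w = ((w.norm : ℤ) : GaussianInt) := by
    intro w
    exact (Zsqrtd.norm_eq_mul_conj w).symm
  have hmN : (m : ℤ) ∣ g.norm := by
    have h1 : g.norm = g.re ^ 2 + g.im ^ 2 := by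
      rw [Zsqrtd.norm_def]; ring
    rw [h1]
    obtain ⟨t, ht⟩ := hx
    obtain ⟨s, hs⟩ := hcong
    refine ⟨s * (g.re + x * g.im) + t * g.im ^ 2, ?_⟩
    linear_combination (g.re + x * g.im) * hs + g.im ^ 2 * ht
  -- `h ∣ star g`
  have hhg : h ∣ star g := by
    obtain ⟨t, ht⟩ := hmN
    refine ⟨(t : GaussianInt), ?_⟩
    have h1 : g * star g = g * (h * (t : GaussianInt)) := by
      rw [hnorm, ht]
      push_cast
      rw [← mul_assoc, ← hh]
      simp [M]
    exact mul_left_cancel₀ hg0 h1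
  obtain ⟨s, hs⟩ := hhg
  have hg' : g = star h * star s := by
    have := congrArg star hs
    rw [star_star, star_mul'] at this
    exact this
  have hMs : M = ((h.norm : ℤ) : GaussianInt) * star s := by
    rw [← hnorm h, hh, hg']
    ring
  have hhn : h.norm ≠ 0 := by
    intro h0
    rw [h0] at hMs
    simp at hMs
    exact hM0 hMs
  have hsim : s.im = 0 := by
    have h1 := congrArg Zsqrtd.im hMs
    simp [M] at h1
    rcases h1 with h1 | h1
    · exact absurd h1 hh0
    · exact h1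
  have hsre : (m : ℤ) = h.norm * s.re := by
    have h1 := congrArg Zsqrtd.re hMs
    simp [M] at h1
    exact h1
  have hs1 : s = ((s.re : ℤ) : GaussianInt) := by
    apply Zsqrtd.ext
    · simp
    · simp [hsim]
  have hsd : s.re ∣ 1 := by
    apply hunit
    rw [hg', ← hs1]
    have : star s = s := by
      rw [hs1]; simp
    rw [this]
    exact Dvd.intro_left _ rfl
  have hhpos : 0 < h.norm := lt_of_le_of_ne (GaussianInt.norm_nonneg h) (Ne.symm hhn)
  have hspos : 0 < s.re := by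
    have hm' : (0 : ℤ) < m := by exact_mod_cast hm
    rw [hsre] at hm'
    exact (pos_iff_pos_of_mul_pos hm').1 hhpos
  have hs2 : s.re = 1 := by
    have := Int.le_of_dvd (by norm_num) hsd
    omega
  have hgn : g.norm = m := by
    have h1 : (g.norm : ℤ) * h.norm = (m : ℤ) * m := by
      rw [← Zsqrtd.norm_mul, ← hh]
      simp [M, Zsqrtd.norm_def]
    rw [hs2, mul_one] at hsre
    rw [← hsre] at h1
    have hm' : (m : ℤ) ≠ 0 := by exact_mod_cast (by omega : m ≠ 0)
    exact mul_right_cancel₀ hm' h1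
  refine ⟨g.re, g.im, ?_, ?_, hcong⟩
  · rw [← hgn, Zsqrtd.norm_def]; ring
  · rw [Int.isCoprime_iff_gcd_eq_one]
    have h1 : ((Int.gcd g.re g.im : ℤ) : GaussianInt) ∣ g := by
      rw [Zsqrtd.intCast_dvd]
      exact ⟨Int.gcd_dvd_left _ _, Int.gcd_dvd_right _ _⟩
    have h2 := hunit _ h1
    have h3 : Int.gcd g.re g.im ∣ 1 := by exact_mod_cast h2
    exact Nat.dvd_one.1 h3

theorem finite_rep (m : ℕ) : {v : ℤ × ℤ | v.1 ^ 2 + v.2 ^ 2 = m}.Finite := by
  refine Set.Finite.subset (Set.Finite.prod (Set.finite_Icc (-(m : ℤ)) m)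
    (Set.finite_Icc (-(m : ℤ)) m)) ?_
  rintro ⟨a, b⟩ h
  simp only [Set.mem_ofPred_eq] at h
  have ha : a ^ 2 ≤ m := by nlinarith [sq_nonneg b]
  have hb : b ^ 2 ≤ m := by nlinarith [sq_nonneg a]
  have key : ∀ c : ℤ, c ^ 2 ≤ m → -(m : ℤ) ≤ c ∧ c ≤ m := by
    intro c hc
    have h1 : |c| ≤ c ^ 2 := by
      rcases eq_or_ne c 0 with rfl | h0
      · simp
      · have h2 : 1 ≤ |c| := Int.one_le_abs h0
        rw [← sq_abs]
        nlinarith
    have h3 : |c| ≤ m := h1.trans hc
    exact abs_le.1 h3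
  exact ⟨key a ha, key b hb⟩

theorem rho_le_rp (m : ℕ) (hm : 1 ≤ m) : rho m ≤ rp m := by
  have : NeZero m := ⟨by omega⟩
  have h1 : ∀ x : {x : ZMod m // x ^ 2 = -1}, ∃ v : ℤ × ℤ, (v.1 ^ 2 + v.2 ^ 2 = m ∧
      IsCoprime v.1 v.2) ∧ (v.1 : ZMod m) = x.1 * v.2 := by
    rintro ⟨x, hx⟩
    obtain ⟨a, b, h1, h2, h3⟩ := exists_rep m hm (x.val : ℤ) (by
      rw [← ZMod.intCast_zmod_eq_zero_iff_dvd]
      push_cast
      rw [ZMod.natCast_zmod_val, hx]
      ring)
    refine ⟨(a, b), ⟨h1, h2⟩, ?_⟩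
    rw [← ZMod.intCast_zmod_eq_zero_iff_dvd] at h3
    push_cast at h3
    rw [ZMod.natCast_zmod_val] at h3
    exact sub_eq_zero.1 h3
  choose F hF1 hF2 using h1
  have hinj : Function.Injective F := by
    intro x y hxy
    have h2 := hF2 x
    have h3 := hF2 y
    rw [← hxy] at h3
    rw [h2] at h3
    obtain ⟨hn, hc⟩ := hF1 x
    have hcop : IsCoprime ((F x).2) (m : ℤ) := by
      rw [← hn]
      have h5 : (F x).1 ^ 2 + (F x).2 ^ 2 = (F x).1 ^ 2 + (F x).2 * (F x).2 := by ring
      rw [h5]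
      exact (IsCoprime.pow_right hc.symm).add_mul_left_right (F x).2
    obtain ⟨u, v, huv⟩ := hcop
    have h6 : ((u : ZMod m)) * ((F x).2 : ZMod m) = 1 := by
      have := congrArg (fun t : ℤ => (t : ZMod m)) huv
      simpa using this
    apply Subtype.ext
    calc x.1 = x.1 * (((F x).2 : ZMod m)) * u := by rw [mul_assoc, mul_comm _ (u : ZMod m), h6, mul_one]
      _ = y.1 * (((F x).2 : ZMod m)) * u := by rw [h3]
      _ = y.1 := by rw [mul_assoc, mul_comm _ (u : ZMod m), h6, mul_one]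
  unfold rho rp
  have hfin : {v : ℤ × ℤ | v.1 ^ 2 + v.2 ^ 2 = m ∧ IsCoprime v.1 v.2}.Finite :=
    (finite_rep m).subset fun v hv => hv.1
  rw [← Set.ncard_univ, ← Set.ncard_image_of_injective _ hinj]
  refine Set.ncard_le_ncard ?_ hfin
  rintro _ ⟨x, -, rfl⟩
  exact hF1 x

theorem Fst_le_rp (m : ℕ) (hm : 1 ≤ m) : Fst m ≤ rp m :=
  (Fst_le_rho m hm).2.trans (by exact_mod_cast rho_le_rp m hm)

end Pool.Agent.Helper15.AB.RPh

namespace Pool.Agent.Helper15.AB

theorem hRP : StRP := fun m hm => RPh.Fst_le_rp m (by omega)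

end Pool.Agent.Helper15.AB
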