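import Mathlib
import Pool.Agent.Helper15.AB.M_RP

set_option autoImplicit false

namespace Pool.Agent.Helper15.AB.RRh

open Finset ArithmeticFunction Pool.Agent.Helper15.AB.RPh

/-- indicator of the squares as an arithmetic function -/
noncomputable def sqi : ArithmeticFunction ℝ :=
  ⟨fun n => if IsSquare n ∧ n ≠ 0 then 1 else 0, by simp⟩

theorem sqi_mul_msq_apply (n : ℕ) : (sqi * msq) n = (1 : ArithmeticFunction ℝ) n := by
  classical
  by_cases hn : n = 0
  · subst hn; simp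
  by_cases hsq : IsSquare n
  · obtain ⟨N, rfl⟩ := hsq
    have hN : N ≠ 0 := by rintro rfl; simp at hn
    rw [mul_apply, Nat.sum_divisorsAntidiagonal (fun a b => sqi a * msq b)]
    have h1 : ∑ i ∈ (N * N).divisors, sqi i * msq (N * N / i) =
        ∑ d ∈ N.divisors, ((moebius (N / d) : ℤ) : ℝ) := by
      have h2 : ∑ i ∈ (N * N).divisors, sqi i * msq (N * N / i) =
          ∑ i ∈ (N * N).divisors.filter (fun i => IsSquare i), msq (N * N / i) := by
        rw [sum_filter]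
        refine sum_congr rfl fun i hi => ?_
        have hi0 : i ≠ 0 := (Nat.pos_of_mem_divisors hi).ne'
        split_ifs with h
        · have : sqi i = 1 := if_pos ⟨h, hi0⟩
          rw [this, one_mul]
        · have : sqi i = 0 := if_neg (fun h' => h h'.1)
          rw [this, zero_mul]
      rw [h2]
      refine sum_nbij' (fun i => Nat.sqrt i) (fun g => g ^ 2) ?_ ?_ ?_ ?_ ?_
      · intro i hi
        rw [mem_filter, Nat.mem_divisors] at hi
        obtain ⟨⟨hi1, _⟩, c, rfl⟩ := hi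
        rw [Nat.mem_divisors, Nat.sqrt_eq]
        refine ⟨?_, hN⟩
        rw [← pow_two, ← pow_two] at hi1
        exact (Nat.pow_dvd_pow_iff (by norm_num)).1 hi1
      · intro g hg
        rw [Nat.mem_divisors] at hg
        rw [mem_filter, Nat.mem_divisors]
        refine ⟨⟨?_, mul_ne_zero hN hN⟩, g, pow_two g⟩
        rw [← pow_two]
        exact pow_dvd_pow_of_dvd hg.1 2
      · intro i hi
        rw [mem_filter] at hi
        obtain ⟨_, c, rfl⟩ := hi
        change (Nat.sqrt (c * c)) ^ 2 = c * c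
        rw [Nat.sqrt_eq, pow_two]
      · intro g _
        exact Nat.sqrt_eq' g
      · intro i hi
        rw [mem_filter, Nat.mem_divisors] at hi
        obtain ⟨⟨hi1, _⟩, c, rfl⟩ := hi
        rw [← pow_two, ← pow_two] at hi1
        have hc : c ∣ N := (Nat.pow_dvd_pow_iff (by norm_num)).1 hi1
        change msq (N * N / (c * c)) = ((moebius (N / (Nat.sqrt (c * c))) : ℤ) : ℝ)
        rw [Nat.sqrt_eq, ← pow_two, ← pow_two, ← Nat.div_pow hc, msq_sq]
    rw [h1]
    have h3 : ∑ d ∈ N.divisors, ((moebius (N / d) : ℤ) : ℝ) =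
        ((∑ d ∈ N.divisors, moebius d : ℤ) : ℝ) := by
      rw [← Nat.sum_div_divisors N (fun d => ((moebius (N / d) : ℤ) : ℝ))]
      push_cast
      refine sum_congr rfl fun d hd => ?_
      rw [Nat.div_div_self (Nat.dvd_of_mem_divisors hd) hN]
    rw [h3]
    have h4 : (∑ d ∈ N.divisors, moebius d) = if N = 1 then 1 else 0 := by
      have := congrArg (fun f : ArithmeticFunction ℤ => f N) coe_zeta_mul_moebius
      simp only [coe_zeta_mul_apply] at this
      rw [this, one_apply]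
    rw [h4, one_apply]
    by_cases h : N = 1
    · subst h; simp
    · rw [if_neg h, if_neg (fun h' => h (Nat.eq_one_of_mul_eq_one_right h'))]
      simp
  · have h1 : n ≠ 1 := by rintro rfl; exact hsq ⟨1, rfl⟩
    rw [one_apply_ne h1, mul_apply]
    refine sum_eq_zero fun x hx => ?_
    by_cases h2 : IsSquare x.1
    · by_cases h3 : IsSquare x.2
      · exfalso
        apply hsq
        rw [← (Nat.mem_divisorsAntidiagonal.1 hx).1]
        exact h2.mul h3
      · rw [msq_not h3, mul_zero]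
    · have : sqi x.1 = 0 := if_neg (fun h' => h2 h'.1)
      rw [this, zero_mul]

theorem sqi_mul_Fst (m : ℕ) (hm : 1 ≤ m) :
    FF m = ∑ g ∈ (Icc 1 m).filter (fun g => g ^ 2 ∣ m), Fst (m / g ^ 2) := by
  classical
  have h1 : sqi * (msq * FFa) = FFa := by
    have : sqi * msq = 1 := by ext n; exact sqi_mul_msq_apply n
    rw [← mul_assoc, this, one_mul]
  have h2 : FF m = (sqi * (msq * FFa)) m := by rw [h1, FFa_apply]
  rw [h2, mul_apply, Nat.sum_divisorsAntidiagonal (fun a b => sqi a * (msq * FFa) b)]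
  have h3 : ∑ i ∈ m.divisors, sqi i * (msq * FFa) (m / i) =
      ∑ i ∈ m.divisors.filter (fun i => IsSquare i), Fst (m / i) := by
    rw [sum_filter]
    refine sum_congr rfl fun i hi => ?_
    have hi0 : i ≠ 0 := (Nat.pos_of_mem_divisors hi).ne'
    have hdi : 1 ≤ m / i := Nat.div_pos (Nat.divisor_le hi) (Nat.pos_of_ne_zero hi0)
    split_ifs with h
    · have : sqi i = 1 := if_pos ⟨h, hi0⟩
      rw [this, one_mul, Fst_eq _ hdi]
    · have : sqi i = 0 := if_neg (fun h' => h h'.1)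
      rw [this, zero_mul]
  rw [h3]
  refine sum_nbij' (fun i => Nat.sqrt i) (fun g => g ^ 2) ?_ ?_ ?_ ?_ ?_
  · intro i hi
    rw [mem_filter, Nat.mem_divisors] at hi
    obtain ⟨⟨hi1, _⟩, c, rfl⟩ := hi
    rw [mem_filter, mem_Icc, Nat.sqrt_eq]
    have hc : c ≠ 0 := by rintro rfl; simp at hi1; omega
    refine ⟨⟨by omega, ?_⟩, by rw [pow_two]; exact hi1⟩
    exact Nat.le_of_dvd hm ((Dvd.intro _ rfl : c ∣ c * c).trans hi1)
  · intro g hg
    rw [mem_filter] at hg
    rw [mem_filter, Nat.mem_divisors]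
    exact ⟨⟨hg.2, by omega⟩, g, pow_two g⟩
  · intro i hi
    rw [mem_filter] at hi
    obtain ⟨_, c, rfl⟩ := hi
    change (Nat.sqrt (c * c)) ^ 2 = c * c
    rw [Nat.sqrt_eq, pow_two]
  · intro g _
    exact Nat.sqrt_eq' g
  · intro i hi
    rw [mem_filter] at hi
    obtain ⟨_, c, rfl⟩ := hi
    change Fst (m / (c * c)) = Fst (m / (Nat.sqrt (c * c)) ^ 2)
    rw [Nat.sqrt_eq, ← pow_two]

theorem sum_rp_le (m : ℕ) (hm : 1 ≤ m) :
    ∑ g ∈ (Icc 1 m).filter (fun g => g ^ 2 ∣ m), rp (m / g ^ 2) ≤ rr m := by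
  classical
  have hfin : ∀ n : ℕ, {v : ℤ × ℤ | v.1 ^ 2 + v.2 ^ 2 = n ∧ IsCoprime v.1 v.2}.Finite :=
    fun n => (finite_rep n).subset fun v hv => hv.1
  let P : ℕ → Finset (ℤ × ℤ) := fun n => (hfin n).toFinset
  have hP : ∀ n v, v ∈ P n ↔ (v.1 ^ 2 + v.2 ^ 2 = n ∧ IsCoprime v.1 v.2) := by
    intro n v
    simp [P]
  have hrp : ∀ n, rp n = (P n).card := by
    intro n
    unfold rp
    rw [Set.ncard_eq_toFinset_card _ (hfin n)]
  let Q : Finset (ℤ × ℤ) := (finite_rep m).toFinset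
  have hrr : rr m = Q.card := by
    unfold rr
    rw [Set.ncard_eq_toFinset_card _ (finite_rep m)]
  have hQ : ∀ v, v ∈ Q ↔ v.1 ^ 2 + v.2 ^ 2 = m := by
    intro v
    simp [Q]
  let S := (Icc 1 m).filter (fun g => g ^ 2 ∣ m)
  let I : ℕ → Finset (ℤ × ℤ) := fun g => (P (m / g ^ 2)).image (fun v => ((g : ℤ) * v.1, (g : ℤ) * v.2))
  have hS : ∀ g ∈ S, 1 ≤ g ∧ g ^ 2 ∣ m := by
    intro g hg
    rw [mem_filter, mem_Icc] at hg
    exact ⟨hg.1.1, hg.2⟩
  have hI : ∀ g ∈ S, ∀ v ∈ I g, Int.gcd v.1 v.2 = g := by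
    intro g hg v hv
    rw [mem_image] at hv
    obtain ⟨w, hw, rfl⟩ := hv
    rw [hP] at hw
    change Int.gcd ((g : ℤ) * w.1) ((g : ℤ) * w.2) = g
    rw [Int.gcd_mul_left, Int.isCoprime_iff_gcd_eq_one.1 hw.2]
    simp
  have hcard : ∀ g ∈ S, (I g).card = rp (m / g ^ 2) := by
    intro g hg
    rw [hrp]
    refine card_image_of_injective _ ?_
    intro v w h
    have hg0 : (g : ℤ) ≠ 0 := by have := (hS g hg).1; omega
    rw [Prod.mk.injEq] at h
    exact Prod.ext (mul_left_cancel₀ hg0 h.1) (mul_left_cancel₀ hg0 h.2)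
  rw [hrr]
  change ∑ g ∈ S, rp (m / g ^ 2) ≤ _
  rw [← sum_congr rfl hcard, ← card_biUnion]
  · apply card_le_card
    intro v hv
    rw [mem_biUnion] at hv
    obtain ⟨g, hg, hv⟩ := hv
    rw [mem_image] at hv
    obtain ⟨w, hw, rfl⟩ := hv
    rw [hP] at hw
    rw [hQ]
    change ((g : ℤ) * w.1) ^ 2 + ((g : ℤ) * w.2) ^ 2 = m
    have h1 := Nat.div_mul_cancel (hS g hg).2
    have h2 : ((g : ℤ) * w.1) ^ 2 + ((g : ℤ) * w.2) ^ 2 = (w.1 ^ 2 + w.2 ^ 2) * (g : ℤ) ^ 2 := by ring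
    rw [h2, hw.1]
    exact_mod_cast h1
  · intro g hg g' hg' hne
    rw [Function.onFun, disjoint_left]
    intro v hv hv'
    exact hne ((hI g hg v hv).symm.trans (hI g' hg' v hv'))

end Pool.Agent.Helper15.AB.RRh

namespace Pool.Agent.Helper15.AB

open Finset in
theorem hRR : StRR := by
  intro m hm
  rw [RRh.sqi_mul_Fst m hm]
  have h1 : ∑ g ∈ (Icc 1 m).filter (fun g => g ^ 2 ∣ m), Fst (m / g ^ 2) ≤
      ∑ g ∈ (Icc 1 m).filter (fun g => g ^ 2 ∣ m), (rp (m / g ^ 2) : ℝ) := by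
    refine sum_le_sum fun g hg => ?_
    rw [mem_filter, mem_Icc] at hg
    refine RPh.Fst_le_rp _ ?_
    exact Nat.div_pos (Nat.le_of_dvd hm hg.2) (pow_pos hg.1.1 2)
  refine h1.trans ?_
  exact_mod_cast RRh.sum_rp_le m hm

end Pool.Agent.Helper15.AB
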