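import Mathlib
import Pool.Agent.Helper15.AB.StMid
import Pool.Agent.Helper18.TR.Final

/-!
# Project AB, module S2: two dimensional sieve
-/

set_option autoImplicit false

namespace Pool.Agent.Helper15.AB

open Finset ArithmeticFunction Filter Topology

namespace hS2

/-! ### Local count -/

section local_count

variable (l : ℕ) [Fact l.Prime]

/-- number of solutions of `x ^ 2 + y ^ 2 = a` modulo `l` -/
def Nn (a : ZMod l) : ℕ :=
  ((univ : Finset (ZMod l × ZMod l)).filter (fun v => v.1 ^ 2 + v.2 ^ 2 = a)).card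

lemma Nn_le (a b : ZMod l) (hb : b ≠ 0) : Nn l a ≤ Nn l (b * a) := by
  obtain ⟨s, t, hst⟩ := ZMod.sq_add_sq l b
  unfold Nn
  refine Finset.card_le_card_of_injOn (fun v => (s * v.1 - t * v.2, s * v.2 + t * v.1)) ?_ ?_
  · intro v hv
    simp only [Finset.coe_filter, Finset.mem_univ, true_and, Set.mem_ofPred_eq] at hv ⊢
    rw [← hv, ← hst]
    ring
  · intro v _ u _ h
    simp only [Prod.mk.injEq] at h
    obtain ⟨h1, h2⟩ := h
    have e1 : b * v.1 = b * u.1 := by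
      rw [← hst]
      linear_combination s * h1 + t * h2
    have e2 : b * v.2 = b * u.2 := by
      rw [← hst]
      linear_combination s * h2 - t * h1
    exact Prod.ext (mul_left_cancel₀ hb e1) (mul_left_cancel₀ hb e2)

lemma Nn_eq (a b : ZMod l) (ha : a ≠ 0) (hb : b ≠ 0) : Nn l a = Nn l b := by
  refine le_antisymm ?_ ?_
  · have := Nn_le l a (b / a) (div_ne_zero hb ha)
    rwa [div_mul_cancel₀ _ ha] at this
  · have := Nn_le l b (a / b) (div_ne_zero ha hb)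
    rwa [div_mul_cancel₀ _ hb] at this

lemma card_sqrt (c : ZMod l) : ((univ : Finset (ZMod l)).filter (fun t => t ^ 2 = c)).card ≤ 2 := by
  by_cases h : ∃ t : ZMod l, t ^ 2 = c
  · obtain ⟨t, ht⟩ := h
    have : (univ : Finset (ZMod l)).filter (fun t => t ^ 2 = c) ⊆ {t, -t} := by
      intro u hu
      rw [Finset.mem_filter] at hu
      rw [Finset.mem_insert, Finset.mem_singleton]
      exact sq_eq_sq_iff_eq_or_eq_neg.1 (hu.2.trans ht.symm)
    exact (Finset.card_le_card this).trans Finset.card_le_two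
  · have : (univ : Finset (ZMod l)).filter (fun t => t ^ 2 = c) = ∅ := by
      rw [Finset.filter_eq_empty_iff]
      intro t _ ht
      exact h ⟨t, ht⟩
    rw [this]
    simp

lemma Nn_zero_le : Nn l 0 ≤ 1 + 2 * (l - 1) := by
  have h1 : (univ : Finset (ZMod l × ZMod l)).filter (fun v => v.1 ^ 2 + v.2 ^ 2 = 0) ⊆
      {(0, 0)} ∪ (((univ : Finset (ZMod l)).filter (fun t => t ^ 2 = -1)) ×ˢ
        ((univ : Finset (ZMod l)).erase 0)).image (fun u => (u.1 * u.2, u.2)) := by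
    intro v hv
    rw [Finset.mem_filter] at hv
    rw [Finset.mem_union, Finset.mem_singleton, Finset.mem_image]
    by_cases h : v.2 = 0
    · left
      have h2 := hv.2
      rw [h] at h2
      have h3 : v.1 = 0 := by
        have : v.1 ^ 2 = 0 := by linear_combination h2
        exact pow_eq_zero_iff (two_ne_zero) |>.1 this
      exact Prod.ext h3 h
    · right
      refine ⟨(v.1 / v.2, v.2), ?_, ?_⟩
      · rw [Finset.mem_product, Finset.mem_filter, Finset.mem_erase]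
        refine ⟨⟨Finset.mem_univ _, ?_⟩, h, Finset.mem_univ _⟩
        rw [div_pow, div_eq_iff (pow_ne_zero 2 h)]
        linear_combination hv.2
      · simp only
        rw [div_mul_cancel₀ _ h]
  unfold Nn
  refine (Finset.card_le_card h1).trans ((Finset.card_union_le _ _).trans ?_)
  rw [Finset.card_singleton]
  refine Nat.add_le_add_left (Finset.card_image_le.trans ?_) _
  rw [Finset.card_product, Finset.card_erase_of_mem (Finset.mem_univ _), Finset.card_univ,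
    ZMod.card]
  exact Nat.mul_le_mul_right _ (card_sqrt l _)

lemma Nn_zero_ge : 1 ≤ Nn l 0 := by
  unfold Nn
  refine Finset.card_pos.2 ⟨(0, 0), ?_⟩
  simp

lemma Nn_sum (a : ZMod l) (ha : a ≠ 0) : l ^ 2 = Nn l 0 + (l - 1) * Nn l a := by
  have h1 : (univ : Finset (ZMod l × ZMod l)).card =
      ∑ b ∈ (univ : Finset (ZMod l)), Nn l b :=
    Finset.card_eq_sum_card_fiberwise (f := fun v : ZMod l × ZMod l => v.1 ^ 2 + v.2 ^ 2)
      (t := univ) (fun _ _ => Finset.mem_coe.2 (Finset.mem_univ _))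
  rw [Finset.card_univ, Fintype.card_prod, ZMod.card, ← Finset.add_sum_erase _ _
    (Finset.mem_univ (0 : ZMod l)), ← sq] at h1
  rw [h1]
  congr 1
  have : ∀ b ∈ (univ : Finset (ZMod l)).erase 0, Nn l b = Nn l a := fun b hb =>
    Nn_eq l b a (Finset.ne_of_mem_erase hb) ha
  rw [Finset.sum_congr rfl this, Finset.sum_const, Finset.card_erase_of_mem (Finset.mem_univ _),
    Finset.card_univ, ZMod.card, smul_eq_mul]

lemma Nn_bounds (a : ZMod l) (ha : a ≠ 0) : l - 1 ≤ Nn l a ∧ Nn l a ≤ l + 1 := by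
  have h1 := Nn_sum l a ha
  have h2 := Nn_zero_le l
  have h3 := Nn_zero_ge l
  have hl : 2 ≤ l := (Fact.out : l.Prime).two_le
  obtain ⟨k, hk⟩ : ∃ k, l = k + 1 := ⟨l - 1, by omega⟩
  have hk' : l - 1 = k := by omega
  rw [hk'] at h1 h2 ⊢
  have hl2 : l ^ 2 = k ^ 2 + 2 * k + 1 := by rw [hk]; ring
  rw [hl2] at h1
  have hk0 : 0 < k := by omega
  constructor
  · have : k * k ≤ k * Nn l a := by nlinarith
    exact Nat.le_of_mul_le_mul_left this hk0
  · have : k * Nn l a ≤ k * (k + 2) := by nlinarith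
    have := Nat.le_of_mul_le_mul_left this hk0
    omega

end local_count

/-- the event -/
def Ev (c p l : ℕ) (v : ℤ × ℤ) : Prop := (l : ℤ) ∣ (c : ℤ) * (v.1 ^ 2 + v.2 ^ 2) - p

instance (c p l : ℕ) : DecidablePred (Ev c p l) := fun v => by unfold Ev; infer_instance

/-- the box `[0, q)^2` -/
noncomputable def bx (q : ℕ) : Finset (ℤ × ℤ) := Ico (0 : ℤ) q ×ˢ Ico (0 : ℤ) q

lemma mem_bx {q : ℕ} {v : ℤ × ℤ} : v ∈ bx q ↔ (0 ≤ v.1 ∧ v.1 < q) ∧ (0 ≤ v.2 ∧ v.2 < q) := by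
  simp [bx]

/-- local count over the integers -/
lemma local_int (c p l : ℕ) (hl : l.Prime) (hc : ¬ l ∣ c) (hp : ¬ l ∣ p) :
    l - 1 ≤ ((bx l).filter (Ev c p l)).card ∧ ((bx l).filter (Ev c p l)).card ≤ l + 1 := by
  have : Fact l.Prime := ⟨hl⟩
  have hc' : (c : ZMod l) ≠ 0 := by rwa [Ne, ZMod.natCast_eq_zero_iff]
  have hp' : (p : ZMod l) ≠ 0 := by rwa [Ne, ZMod.natCast_eq_zero_iff]
  have hE : ∀ v : ℤ × ℤ, Ev c p l v ↔ ((v.1 : ZMod l)) ^ 2 + (v.2 : ZMod l) ^ 2 = p / c := by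
    intro v
    unfold Ev
    rw [← ZMod.intCast_zmod_eq_zero_iff_dvd, eq_div_iff hc', sub_eq_zero.symm]
    push_cast
    constructor
    · intro h
      linear_combination h
    · intro h
      linear_combination h
  have hcard : ((bx l).filter (Ev c p l)).card = Nn l ((p : ZMod l) / c) := by
    unfold Nn
    have hl0 : (0 : ℤ) < l := by exact_mod_cast hl.pos
    refine Finset.card_nbij' (fun v => ((v.1 : ZMod l), (v.2 : ZMod l)))
      (fun u => ((u.1.val : ℤ), (u.2.val : ℤ))) ?_ ?_ ?_ ?_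
    · intro v hv
      simp only [Finset.coe_filter, Set.mem_ofPred_eq] at hv ⊢
      exact ⟨Finset.mem_univ _, (hE v).1 hv.2⟩
    · intro u hu
      simp only [Finset.coe_filter, Set.mem_ofPred_eq] at hu ⊢
      have hu1 : ((u.1.val : ℕ) : ℤ) < l := by exact_mod_cast ZMod.val_lt u.1
      have hu2 : ((u.2.val : ℕ) : ℤ) < l := by exact_mod_cast ZMod.val_lt u.2
      refine ⟨mem_bx.2 ⟨⟨Int.natCast_nonneg _, hu1⟩, Int.natCast_nonneg _, hu2⟩, (hE _).2 ?_⟩
      push_cast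
      rw [ZMod.natCast_zmod_val, ZMod.natCast_zmod_val]
      exact hu.2
    · intro v hv
      simp only [Finset.coe_filter, Set.mem_ofPred_eq, mem_bx] at hv
      refine Prod.ext ?_ ?_
      · simp only
        rw [ZMod.val_intCast, Int.emod_eq_of_lt hv.1.1.1 hv.1.1.2]
      · simp only
        rw [ZMod.val_intCast, Int.emod_eq_of_lt hv.1.2.1 hv.1.2.2]
    · intro u _
      refine Prod.ext ?_ ?_
      · simp only
        rw [Int.cast_natCast, ZMod.natCast_zmod_val]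
      · simp only
        rw [Int.cast_natCast, ZMod.natCast_zmod_val]
  rw [hcard]
  exact Nn_bounds l _ (div_ne_zero hp' hc')

/-! ### Chinese remainder theorem -/

open Pool.Agent.Helper18.TR in
lemma crt_two {m n : ℕ} (hmn : Nat.Coprime m n) (hm : 0 < m) (hn : 0 < n)
    (P R : ℤ × ℤ → Prop) [DecidablePred P] [DecidablePred R]
    (hP : ∀ x, P (x.1 % m, x.2 % m) ↔ P x) (hR : ∀ x, R (x.1 % n, x.2 % n) ↔ R x) :
    ((bx (m * n)).filter (fun x => P x ∧ R x)).card =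
      ((bx m).filter P).card * ((bx n).filter R).card := by
  have hm' : (0 : ℤ) < m := by exact_mod_cast hm
  have hn' : (0 : ℤ) < n := by exact_mod_cast hn
  rw [← Finset.card_product]
  refine Finset.card_bij (fun x _ => ((x.1 % m, x.2 % m), (x.1 % n, x.2 % n))) ?_ ?_ ?_
  · intro x hx
    rw [mem_filter] at hx
    rw [mem_product, mem_filter, mem_filter, mem_bx, mem_bx]
    exact ⟨⟨⟨⟨Int.emod_nonneg _ hm'.ne', Int.emod_lt_of_pos _ hm'⟩,
      Int.emod_nonneg _ hm'.ne', Int.emod_lt_of_pos _ hm'⟩, (hP x).2 hx.2.1⟩,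
      ⟨⟨Int.emod_nonneg _ hn'.ne', Int.emod_lt_of_pos _ hn'⟩,
      Int.emod_nonneg _ hn'.ne', Int.emod_lt_of_pos _ hn'⟩, (hR x).2 hx.2.2⟩
  · intro x hx y hy hxy
    rw [mem_filter, mem_bx] at hx hy
    simp only [Prod.mk.injEq] at hxy
    obtain ⟨⟨h1, h2⟩, ⟨h3, h4⟩⟩ := hxy
    refine Prod.ext ?_ ?_
    · exact cr_uniq hmn hx.1.1 hy.1.1 h1 h3
    · exact cr_uniq hmn hx.1.2 hy.1.2 h2 h4
  · intro y hy
    obtain ⟨a, c⟩ := y
    rw [mem_product, mem_filter, mem_filter, mem_bx, mem_bx] at hy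
    obtain ⟨⟨⟨ha1, ha2⟩, hPa⟩, ⟨⟨hc1, hc2⟩, hRc⟩⟩ := hy
    obtain ⟨f, hf1, hf2, hf3⟩ := cr_exist hmn hm hn ha1 hc1
    obtain ⟨z, hz1, hz2, hz3⟩ := cr_exist hmn hm hn ha2 hc2
    have e1 : (f % (m : ℤ), z % (m : ℤ)) = a := Prod.ext hf2 hz2
    have e2 : (f % (n : ℤ), z % (n : ℤ)) = c := Prod.ext hf3 hz3
    refine ⟨(f, z), ?_, ?_⟩
    · rw [mem_filter, mem_bx]
      refine ⟨⟨hf1, hz1⟩, (hP _).1 ?_, (hR _).1 ?_⟩
      · simp only
        rw [e1]
        exact hPa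
      · simp only
        rw [e2]
        exact hRc
    · simp only
      rw [e1, e2]

lemma Ev_congr {c p l : ℕ} {v u : ℤ × ℤ} (h1 : (l : ℤ) ∣ v.1 - u.1) (h2 : (l : ℤ) ∣ v.2 - u.2) :
    Ev c p l v ↔ Ev c p l u := by
  unfold Ev
  have h3 : (l : ℤ) ∣ ((c : ℤ) * (v.1 ^ 2 + v.2 ^ 2) - p) - ((c : ℤ) * (u.1 ^ 2 + u.2 ^ 2) - p) := by
    have e : ((c : ℤ) * (v.1 ^ 2 + v.2 ^ 2) - p) - ((c : ℤ) * (u.1 ^ 2 + u.2 ^ 2) - p) =
      (v.1 - u.1) * (c * (v.1 + u.1)) + (v.2 - u.2) * (c * (v.2 + u.2)) := by ring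
    rw [e]
    exact dvd_add (h1.mul_right _) (h2.mul_right _)
  exact (Int.dvd_iff_dvd_of_dvd_sub h3)

lemma Ev_mod {c p l q : ℕ} (h : l ∣ q) (v : ℤ × ℤ) :
    Ev c p l (v.1 % q, v.2 % q) ↔ Ev c p l v := by
  have hlq : (l : ℤ) ∣ (q : ℤ) := Int.natCast_dvd_natCast.2 h
  refine Ev_congr ?_ ?_
  · simp only
    refine hlq.trans ?_
    rw [← dvd_neg, neg_sub]
    exact Int.dvd_self_sub_emod
  · simp only
    refine hlq.trans ?_
    rw [← dvd_neg, neg_sub]
    exact Int.dvd_self_sub_emod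

lemma crt (c p : ℕ) (T : Finset ℕ) (hT : ∀ l ∈ T, l.Prime) :
    ((bx (∏ l ∈ T, l)).filter (fun v => ∀ l ∈ T, Ev c p l v)).card =
      ∏ l ∈ T, ((bx l).filter (Ev c p l)).card := by
  classical
  induction T using Finset.induction_on with
  | empty =>
    have : bx 1 = {(0, 0)} := by
      ext x
      rw [mem_bx, mem_singleton]
      constructor
      · rintro ⟨⟨h1, h2⟩, h3, h4⟩
        push_cast at h2 h4
        refine Prod.ext ?_ ?_
        · show x.1 = 0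
          omega
        · show x.2 = 0
          omega
      · rintro rfl
        simp
    simp [this]
  | insert a T ha ih =>
    have hpp := hT a (mem_insert_self _ _)
    have hT' : ∀ q ∈ T, q.Prime := fun q hq => hT q (mem_insert_of_mem hq)
    have hpos : 0 < ∏ q ∈ T, q := Finset.prod_pos fun q hq => (hT' q hq).pos
    have hcop : Nat.Coprime a (∏ q ∈ T, q) :=
      Nat.Coprime.prod_right fun q hq =>
        (Nat.coprime_primes hpp (hT' q hq)).2 (fun h => ha (h ▸ hq))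
    rw [prod_insert ha, prod_insert ha, ← ih hT',
      ← crt_two hcop hpp.pos hpos (Ev c p a) (fun x => ∀ q ∈ T, Ev c p q x)
      (fun x => Ev_mod dvd_rfl x) (fun x => forall₂_congr fun q hq =>
        Ev_mod (Finset.dvd_prod_of_mem (fun q => q) hq) x)]
    congr 1
    apply Finset.filter_congr
    intro x _
    simp [mem_insert, forall_eq_or_imp]

/-! ### Equidistribution -/

/-- number of integers in an interval in a residue class -/
lemma cnt_class {q : ℕ} (hq : 0 < q) (u v r : ℤ) (huv : u ≤ v) :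
    |(((Ico u v).filter (fun x => (q : ℤ) ∣ x - r)).card : ℝ) - ((v - u : ℤ) : ℝ) / q| ≤ 1 := by
  have hq' : (0 : ℤ) < q := by exact_mod_cast hq
  have h1 : (Ico u v).filter (fun x => (q : ℤ) ∣ x - r) =
      (Ico u v).filter (fun x => x ≡ r [ZMOD q]) := by
    apply Finset.filter_congr
    intro x _
    rw [Int.modEq_iff_dvd, ← dvd_neg, neg_sub]
  have h2 := Int.Ico_filter_modEq_card (a := u) (b := v) hq' r
  have hqq : (0 : ℚ) < ((q : ℤ) : ℚ) := by exact_mod_cast hq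
  rw [h1]
  have h3 : |((((Ico u v).filter (fun x => x ≡ r [ZMOD q])).card : ℤ) : ℚ) -
      ((v - u : ℤ) : ℚ) / (q : ℤ)| ≤ 1 := by
    rw [h2]
    push_cast
    have h4 := Int.ceil_lt_add_one (((v - r : ℤ) : ℚ) / ((q : ℤ) : ℚ))
    have h4' := Int.le_ceil (((v - r : ℤ) : ℚ) / ((q : ℤ) : ℚ))
    have h5 := Int.le_ceil (((u - r : ℤ) : ℚ) / ((q : ℤ) : ℚ))
    have h5' := Int.ceil_lt_add_one (((u - r : ℤ) : ℚ) / ((q : ℤ) : ℚ))
    push_cast at h4 h5 h4' h5'
    have h6 : ((v : ℚ) - r) / (q : ℚ) - ((u : ℚ) - r) / (q : ℚ) = ((v : ℚ) - u) / q := by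
      ring
    have h7 : (0 : ℚ) ≤ ((v : ℚ) - u) / q := by
      apply div_nonneg
      · have : (u : ℚ) ≤ v := by exact_mod_cast huv
        linarith
      · positivity
    rw [abs_le]
    constructor
    · have := le_max_left ((⌈((v : ℚ) - r) / (q : ℚ)⌉ : ℚ) - (⌈((u : ℚ) - r) / (q : ℚ)⌉ : ℚ)) 0
      linarith
    · have : max ((⌈((v : ℚ) - r) / (q : ℚ)⌉ : ℚ) - (⌈((u : ℚ) - r) / (q : ℚ)⌉ : ℚ)) 0 ≤
        ((v : ℚ) - u) / q + 1 := max_le (by linarith) (by linarith)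
      linarith
  have h8 : (((|((((Ico u v).filter (fun x => x ≡ r [ZMOD q])).card : ℤ) : ℚ) -
      ((v - u : ℤ) : ℚ) / (q : ℤ)| : ℚ)) : ℝ) ≤ ((1 : ℚ) : ℝ) := by exact_mod_cast h3
  push_cast at h8 ⊢
  exact h8

/-- the points of the box in the class modulo `k` -/
noncomputable def AA' (k : ℕ) (v₀ : ℤ × ℤ) (M : ℕ) : Finset (ℤ × ℤ) :=
  ((Ico (-(M : ℤ)) (M + 1)).filter (fun x => (k : ℤ) ∣ x - v₀.1)) ×ˢ
    ((Ico (-(M : ℤ)) (M + 1)).filter (fun x => (k : ℤ) ∣ x - v₀.2))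

lemma class_two {k D : ℕ} (hk : 0 < k) (hD : 0 < D) (hkD : Nat.Coprime k D) (M : ℕ) (a r : ℤ) :
    |((((Ico (-(M : ℤ)) (M + 1)).filter (fun x => (k : ℤ) ∣ x - a)).filter
      (fun x => (D : ℤ) ∣ x - r)).card : ℝ) - (2 * M + 1) / (k * D)| ≤ 1 := by
  obtain ⟨u, v, huv⟩ := Nat.isCoprime_iff_coprime.2 hkD
  -- z = a mod k, r mod D
  set z : ℤ := a * (v * D) + r * (u * k) with hz
  have h1 : ∀ x : ℤ, ((k : ℤ) ∣ x - a ∧ (D : ℤ) ∣ x - r) ↔ (((k * D : ℕ) : ℤ) ∣ x - z) := by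
    intro x
    have e1 : z - a = k * ((r - a) * u) := by
      have : v * (D : ℤ) = 1 - u * k := by linarith
      rw [hz, this]
      ring
    have e2 : z - r = D * ((a - r) * v) := by
      have : u * (k : ℤ) = 1 - v * D := by linarith
      rw [hz, this]
      ring
    push_cast
    constructor
    · rintro ⟨h1, h2⟩
      refine IsCoprime.mul_dvd (Nat.isCoprime_iff_coprime.2 hkD) ?_ ?_
      · have : x - z = (x - a) - (z - a) := by ring
        rw [this, e1]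
        exact dvd_sub h1 (dvd_mul_right _ _)
      · have : x - z = (x - r) - (z - r) := by ring
        rw [this, e2]
        exact dvd_sub h2 (dvd_mul_right _ _)
    · intro h
      constructor
      · have : x - a = (x - z) + (z - a) := by ring
        rw [this, e1]
        exact dvd_add ((dvd_mul_right _ _).trans h) (dvd_mul_right _ _)
      · have : x - r = (x - z) + (z - r) := by ring
        rw [this, e2]
        exact dvd_add ((dvd_mul_left _ _).trans h) (dvd_mul_right _ _)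
  rw [Finset.filter_filter]
  have h2 : (Ico (-(M : ℤ)) (M + 1)).filter (fun x => (k : ℤ) ∣ x - a ∧ (D : ℤ) ∣ x - r) =
      (Ico (-(M : ℤ)) (M + 1)).filter (fun x => (((k * D : ℕ) : ℤ) ∣ x - z)) :=
    Finset.filter_congr fun x _ => h1 x
  rw [h2]
  have h3 := cnt_class (Nat.mul_pos hk hD) (-(M : ℤ)) (M + 1) z (by omega)
  push_cast at h3 ⊢
  have e : ((M : ℝ) + 1 + M) = 2 * M + 1 := by ring
  rw [sub_neg_eq_add, e] at h3
  exact h3

/-- local density -/
noncomputable def gd (c p l : ℕ) : ℝ := (((bx l).filter (Ev c p l)).card : ℝ) / (l : ℝ) ^ 2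

lemma card_bx (q : ℕ) : (bx q).card = q ^ 2 := by
  simp [bx, sq]

lemma equi (c p k M : ℕ) (v₀ : ℤ × ℤ) (T : Finset ℕ) (hk : 0 < k)
    (hT : ∀ l ∈ T, l.Prime ∧ ¬ l ∣ k) :
    |(((AA' k v₀ M).filter (fun v => ∀ l ∈ T, Ev c p l v)).card : ℝ) -
      ((2 * M + 1) / k) ^ 2 * ∏ l ∈ T, gd c p l| ≤ ((∏ l ∈ T, l : ℕ) : ℝ) ^ 2 * (4 * M + 3) := by
  set D : ℕ := ∏ l ∈ T, l with hD
  have hD0 : 0 < D := Finset.prod_pos fun l hl => (hT l hl).1.pos
  have hDz : (0 : ℤ) < D := by exact_mod_cast hD0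
  have hkD : Nat.Coprime k D := Nat.Coprime.prod_right fun l hl =>
    ((Nat.Prime.coprime_iff_not_dvd (hT l hl).1).2 (hT l hl).2).symm
  set RT := (bx D).filter (fun v => ∀ l ∈ T, Ev c p l v) with hRT
  set S := (AA' k v₀ M).filter (fun v => ∀ l ∈ T, Ev c p l v) with hS
  set cc : ℝ := (2 * M + 1) / (k * D) with hcc
  have hEmod : ∀ v : ℤ × ℤ, (∀ l ∈ T, Ev c p l (v.1 % (D : ℤ), v.2 % (D : ℤ))) ↔
      ∀ l ∈ T, Ev c p l v := fun v =>
    forall₂_congr fun l hl => Ev_mod (Finset.dvd_prod_of_mem (fun l => l) hl) v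
  have h1 : S.card = ∑ r ∈ RT, (S.filter (fun v => (v.1 % (D : ℤ), v.2 % (D : ℤ)) = r)).card := by
    refine Finset.card_eq_sum_card_fiberwise ?_
    intro v hv
    have hv' : v ∈ S := hv
    rw [hS, mem_filter] at hv'
    show (v.1 % (D : ℤ), v.2 % (D : ℤ)) ∈ RT
    rw [hRT, mem_filter, mem_bx]
    exact ⟨⟨⟨Int.emod_nonneg _ hDz.ne', Int.emod_lt_of_pos _ hDz⟩,
      Int.emod_nonneg _ hDz.ne', Int.emod_lt_of_pos _ hDz⟩, (hEmod v).2 hv'.2⟩
  have h2 : ∀ r ∈ RT, |((S.filter (fun v => (v.1 % (D : ℤ), v.2 % (D : ℤ)) = r)).card : ℝ) -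
      cc ^ 2| ≤ 4 * M + 3 := by
    intro r hr
    rw [hRT, mem_filter, mem_bx] at hr
    obtain ⟨⟨hr1, hr2⟩, hr3⟩ := hr
    have e1 : ∀ x a : ℤ, 0 ≤ a → a < D → (x % (D : ℤ) = a ↔ (D : ℤ) ∣ x - a) := by
      intro x a ha0 ha1
      constructor
      · intro h
        rw [← h]
        exact Int.dvd_self_sub_emod
      · intro h
        have : x % (D : ℤ) = a % (D : ℤ) :=
          Int.emod_eq_emod_iff_emod_sub_eq_zero.2 (Int.emod_eq_zero_of_dvd h)
        rwa [Int.emod_eq_of_lt ha0 ha1] at this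
    have e2 : S.filter (fun v => (v.1 % (D : ℤ), v.2 % (D : ℤ)) = r) =
        (((Ico (-(M : ℤ)) (M + 1)).filter (fun x => (k : ℤ) ∣ x - v₀.1)).filter
          (fun x => (D : ℤ) ∣ x - r.1)) ×ˢ
        (((Ico (-(M : ℤ)) (M + 1)).filter (fun x => (k : ℤ) ∣ x - v₀.2)).filter
          (fun x => (D : ℤ) ∣ x - r.2)) := by
      ext v
      rw [mem_filter, hS, mem_filter, AA', mem_product, mem_product, mem_filter (p := fun x =>
        (D : ℤ) ∣ x - r.1), mem_filter (p := fun x => (D : ℤ) ∣ x - r.2), Prod.ext_iff,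
        e1 _ _ hr1.1 hr1.2, e1 _ _ hr2.1 hr2.2]
      constructor
      · rintro ⟨⟨⟨h1, h2⟩, h3⟩, h4, h5⟩
        exact ⟨⟨h1, h4⟩, h2, h5⟩
      · rintro ⟨⟨h1, h4⟩, h2, h5⟩
        refine ⟨⟨⟨h1, h2⟩, fun l hl => ?_⟩, h4, h5⟩
        have hlD : (l : ℤ) ∣ (D : ℤ) :=
          Int.natCast_dvd_natCast.2 (Finset.dvd_prod_of_mem (fun l => l) hl)
        exact (Ev_congr (hlD.trans h4) (hlD.trans h5)).2 (hr3 l hl)
    rw [e2, Finset.card_product]
    have c1 := class_two hk hD0 hkD M v₀.1 r.1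
    have c2 := class_two hk hD0 hkD M v₀.2 r.2
    rw [← hcc] at c1 c2
    have hcc0 : 0 ≤ cc := by positivity
    have hcc1 : cc ≤ 2 * M + 1 := by
      rw [hcc]
      refine div_le_self (by positivity) ?_
      have a1 : (1 : ℝ) ≤ k := by exact_mod_cast hk
      have a2 : (1 : ℝ) ≤ D := by exact_mod_cast hD0
      nlinarith
    push_cast
    generalize ((((Ico (-(M : ℤ)) (M + 1)).filter (fun x => (k : ℤ) ∣ x - v₀.1)).filter
      (fun x => (D : ℤ) ∣ x - r.1)).card : ℝ) = a at c1 ⊢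
    generalize ((((Ico (-(M : ℤ)) (M + 1)).filter (fun x => (k : ℤ) ∣ x - v₀.2)).filter
      (fun x => (D : ℤ) ∣ x - r.2)).card : ℝ) = b at c2 ⊢
    have e3 : a * b - cc ^ 2 = (a - cc) * (b - cc) + cc * (a - cc) + cc * (b - cc) := by ring
    rw [e3]
    have c3 : |(a - cc) * (b - cc)| ≤ 1 := by
      rw [abs_mul]
      exact mul_le_one₀ c1 (abs_nonneg _) c2
    have c4 : |cc * (a - cc)| ≤ cc := by
      rw [abs_mul, abs_of_nonneg hcc0]
      exact mul_le_of_le_one_right hcc0 c1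
    have c5 : |cc * (b - cc)| ≤ cc := by
      rw [abs_mul, abs_of_nonneg hcc0]
      exact mul_le_of_le_one_right hcc0 c2
    have c6 := abs_add_three ((a - cc) * (b - cc)) (cc * (a - cc)) (cc * (b - cc))
    linarith
  have h3 : (RT.card : ℝ) * cc ^ 2 = ((2 * M + 1) / k) ^ 2 * ∏ l ∈ T, gd c p l := by
    rw [hRT, crt c p T (fun l hl => (hT l hl).1)]
    unfold gd
    rw [Finset.prod_div_distrib, hcc, Finset.prod_pow]
    have : ∏ l ∈ T, (l : ℝ) = D := by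
      rw [hD]
      push_cast
      rfl
    rw [this, Nat.cast_prod]
    generalize ∏ x ∈ T, (((bx x).filter (Ev c p x)).card : ℝ) = P
    generalize (D : ℝ) = d
    ring
  rw [← h3, h1]
  push_cast
  have h4 : (RT.card : ℝ) * cc ^ 2 = ∑ r ∈ RT, cc ^ 2 := by
    rw [Finset.sum_const, nsmul_eq_mul]
  rw [h4, ← Finset.sum_sub_distrib]
  refine (Finset.abs_sum_le_sum_abs _ _).trans ((Finset.sum_le_sum h2).trans ?_)
  rw [Finset.sum_const, nsmul_eq_mul]
  refine mul_le_mul_of_nonneg_right ?_ (by positivity)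
  have : RT.card ≤ D ^ 2 := by
    rw [← card_bx D]
    exact Finset.card_filter_le _ _
  exact_mod_cast this

lemma gd_bounds {c p l : ℕ} (hl : l.Prime) (h3 : 3 < l) (hc : ¬ l ∣ c) (hp : ¬ l ∣ p) :
    (0 ≤ gd c p l ∧ gd c p l ≤ 2 / l ∧ gd c p l ≤ 1 / 2) ∧
      1 - gd c p l ≤ (1 - 1 / (l : ℝ)) * (1 + 2 / (l : ℝ) ^ 2) := by
  obtain ⟨h1, h2⟩ := local_int c p l hl hc hp
  have hl3 : (4 : ℝ) ≤ l := by exact_mod_cast h3
  have h1' : (l : ℝ) - 1 ≤ (((bx l).filter (Ev c p l)).card : ℝ) := by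
    have : l ≤ ((bx l).filter (Ev c p l)).card + 1 := by omega
    have h : (l : ℝ) ≤ (((bx l).filter (Ev c p l)).card : ℝ) + 1 := by exact_mod_cast this
    linarith
  have h2' : (((bx l).filter (Ev c p l)).card : ℝ) ≤ l + 1 := by exact_mod_cast h2
  unfold gd
  generalize (((bx l).filter (Ev c p l)).card : ℝ) = n at h1' h2' ⊢
  have hl0 : (0 : ℝ) < l := by linarith
  refine ⟨⟨by apply div_nonneg <;> nlinarith, ?_, ?_⟩, ?_⟩
  · rw [div_le_div_iff₀ (by positivity) hl0]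
    nlinarith
  · rw [div_le_div_iff₀ (by positivity) (by norm_num)]
    nlinarith
  · have e1 : (1 - 1 / (l : ℝ)) * (1 + 2 / (l : ℝ) ^ 2) =
        1 - ((l : ℝ) ^ 2 - 2 * l + 2) / (l : ℝ) ^ 3 := by
      field_simp
      ring
    rw [e1]
    have : ((l : ℝ) ^ 2 - 2 * l + 2) / (l : ℝ) ^ 3 ≤ n / (l : ℝ) ^ 2 := by
      rw [div_le_div_iff₀ (by positivity) (by positivity)]
      have e2 : n * (l : ℝ) ^ 3 - ((l : ℝ) ^ 2 - 2 * l + 2) * (l : ℝ) ^ 2 =
        (l : ℝ) ^ 2 * ((n - (l - 1)) * l + (l - 2)) := by ring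
      have e3 : 0 ≤ (n - (l - 1)) * (l : ℝ) + (l - 2) := by
        have : 0 ≤ (n - (l - 1)) * (l : ℝ) := mul_nonneg (by linarith) hl0.le
        linarith
      have e4 : 0 ≤ (l : ℝ) ^ 2 * ((n - (l - 1)) * l + (l - 2)) := by positivity
      linarith
    linarith

/-- `∑ 2 / l ^ 2 ≤ 4` -/
lemma sum_sq (w : ℕ) : ∑ l ∈ Ioc 3 w, 2 / (l : ℝ) ^ 2 ≤ 4 := by
  have : ∀ w : ℕ, 1 ≤ w → ∑ l ∈ Ioc 1 w, 2 / (l : ℝ) ^ 2 ≤ 2 - 2 / (w : ℝ) := by
    intro w hw
    induction w, hw using Nat.le_induction with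
    | base => simp
    | succ n hn ih =>
      rw [← Finset.insert_Ioc_right_eq_Ioc_add_one (by omega), Finset.sum_insert (by simp)]
      have hn' : (1 : ℝ) ≤ n := by exact_mod_cast hn
      have : 2 / ((n + 1 : ℕ) : ℝ) ^ 2 ≤ 2 / (n : ℝ) - 2 / ((n + 1 : ℕ) : ℝ) := by
        push_cast
        rw [div_sub_div _ _ (by positivity) (by positivity), div_le_div_iff₀ (by positivity)
          (by positivity)]
        nlinarith
      linarith
  rcases Nat.lt_or_ge w 1 with h | h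
  · have : Ioc 3 w = ∅ := Finset.Ioc_eq_empty (by omega)
    rw [this]
    simp
  · have h1 : ∑ l ∈ Ioc 3 w, 2 / (l : ℝ) ^ 2 ≤ ∑ l ∈ Ioc 1 w, 2 / (l : ℝ) ^ 2 := by
      refine Finset.sum_le_sum_of_subset_of_nonneg ?_ fun _ _ _ => by positivity
      exact Finset.Ioc_subset_Ioc_left (by norm_num)
    have h2 := this w h
    have h3 : (0 : ℝ) ≤ 2 / w := by positivity
    linarith

lemma prod_gd {c p k w : ℕ} {Q : Finset ℕ}
    (hQ : Q = (Ioc 3 w).filter (fun l => l.Prime ∧ ¬ l ∣ c * k * p)) :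
    ∏ l ∈ Q, (1 - gd c p l) ≤ Real.exp 4 * ∏ l ∈ Q, (1 - 1 / (l : ℝ)) := by
  have hQ' : ∀ l ∈ Q, 3 < l ∧ l.Prime ∧ ¬ l ∣ c ∧ ¬ l ∣ p := by
    intro l hl
    rw [hQ, mem_filter, mem_Ioc] at hl
    exact ⟨hl.1.1, hl.2.1, fun h => hl.2.2 ((h.mul_right k).mul_right p),
      fun h => hl.2.2 (h.mul_left _)⟩
  have h1 : ∏ l ∈ Q, (1 - gd c p l) ≤ ∏ l ∈ Q, ((1 - 1 / (l : ℝ)) * (1 + 2 / (l : ℝ) ^ 2)) := by
    refine Finset.prod_le_prod (fun l hl => ?_) fun l hl => ?_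
    · obtain ⟨a, b, c', d⟩ := hQ' l hl
      have := (gd_bounds b a c' d).1.2.2
      linarith
    · obtain ⟨a, b, c', d⟩ := hQ' l hl
      exact (gd_bounds b a c' d).2
  rw [Finset.prod_mul_distrib, mul_comm] at h1
  refine h1.trans (mul_le_mul_of_nonneg_right ?_ ?_)
  · have h2 : ∏ l ∈ Q, (1 + 2 / (l : ℝ) ^ 2) ≤ Real.exp (∑ l ∈ Q, 2 / (l : ℝ) ^ 2) := by
      rw [Real.exp_sum]
      refine Finset.prod_le_prod (fun l _ => by positivity) fun l _ => ?_
      have := Real.add_one_le_exp (2 / (l : ℝ) ^ 2)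
      linarith
    refine h2.trans (Real.exp_le_exp.2 ?_)
    refine le_trans ?_ (sum_sq w)
    refine Finset.sum_le_sum_of_subset_of_nonneg ?_ fun _ _ _ => by positivity
    rw [hQ]
    exact Finset.filter_subset _ _
  · refine Finset.prod_nonneg fun l hl => ?_
    have h3 : (3 : ℝ) < l := by exact_mod_cast (hQ' l hl).1
    have : 1 / (l : ℝ) ≤ 1 := by
      rw [div_le_one (by linarith)]
      linarith
    linarith

lemma asym (p : ℝ) (e : ℝ) (he : 0 < e) : ∃ Y₀ : ℝ, 2 ≤ Y₀ ∧ ∀ Y : ℝ, Y₀ ≤ Y →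
    4 ≤ Y ^ e ∧ p + 1 ≤ Y ^ (1 / 40 : ℝ) ∧ 32 * Real.log Y ≤ Y ^ (13 / 40 : ℝ) := by
  have t1 : Tendsto (fun x : ℝ => x ^ e) atTop atTop := tendsto_rpow_atTop he
  have t2 : Tendsto (fun x : ℝ => x ^ (1 / 40 : ℝ)) atTop atTop := tendsto_rpow_atTop (by norm_num)
  have t3 := (isLittleO_log_rpow_atTop (r := 13 / 40) (by norm_num)).bound
    (show (0 : ℝ) < 1 / 32 by norm_num)
  have t8 : ∀ᶠ x : ℝ in atTop, 1 ≤ Real.log x := Real.tendsto_log_atTop.eventually_ge_atTop 1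
  have : ∀ᶠ Y : ℝ in atTop,
      4 ≤ Y ^ e ∧ p + 1 ≤ Y ^ (1 / 40 : ℝ) ∧ 32 * Real.log Y ≤ Y ^ (13 / 40 : ℝ) := by
    filter_upwards [t1.eventually_ge_atTop 4, t2.eventually_ge_atTop (p + 1), t3, t8,
      eventually_ge_atTop (3 : ℝ)] with x a1 a2 a3 a4 a5
    refine ⟨a1, a2, ?_⟩
    rw [Real.norm_eq_abs, Real.norm_eq_abs, abs_of_nonneg (by linarith),
        abs_of_nonneg (by positivity)] at a3
    linarith
  obtain ⟨x₀, hx₀⟩ := Filter.eventually_atTop.1 this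
  exact ⟨max 2 x₀, le_max_left _ _, fun x hx => hx₀ x ((le_max_right _ _).trans hx)⟩

/-- the set to be counted -/
def SS (p c k : ℕ) (v₀ : ℤ × ℤ) (Y : ℝ) : Set (ℤ × ℤ) :=
  {v : ℤ × ℤ | ((v.1 ^ 2 + v.2 ^ 2 : ℤ) : ℝ) ≤ Y ∧ (k : ℤ) ∣ v.1 - v₀.1 ∧
      (k : ℤ) ∣ v.2 - v₀.2 ∧ ((c : ℤ) * (v.1 ^ 2 + v.2 ^ 2) - p).toNat.Prime}

lemma abs_le_M {Y : ℝ} {a b : ℤ} (h : ((a ^ 2 + b ^ 2 : ℤ) : ℝ) ≤ Y) :
    -(⌊√Y⌋₊ : ℤ) ≤ a ∧ a ≤ (⌊√Y⌋₊ : ℤ) := by
  have h1 : ((a.natAbs : ℕ) : ℝ) ≤ √Y := by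
    refine Real.le_sqrt_of_sq_le ?_
    have e : ((a.natAbs : ℕ) : ℝ) ^ 2 = ((a ^ 2 : ℤ) : ℝ) := by
      rw [Nat.cast_natAbs, Int.cast_abs, sq_abs, Int.cast_pow]
    rw [e]
    refine le_trans ?_ h
    have : a ^ 2 ≤ a ^ 2 + b ^ 2 := by nlinarith [sq_nonneg b]
    exact_mod_cast this
  have h2 : a.natAbs ≤ ⌊√Y⌋₊ := Nat.le_floor h1
  omega

lemma SS_trivial (p c k : ℕ) (v₀ : ℤ × ℤ) (Y : ℝ) :
    ((SS p c k v₀ Y).ncard : ℝ) ≤ (2 * ⌊√Y⌋₊ + 1) ^ 2 := by
  set M := ⌊√Y⌋₊ with hM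
  have h1 : SS p c k v₀ Y ⊆ ((Icc (-(M : ℤ)) M ×ˢ Icc (-(M : ℤ)) M : Finset (ℤ × ℤ)) :
      Set (ℤ × ℤ)) := by
    rintro v ⟨h1, -, -, -⟩
    rw [Finset.mem_coe, mem_product, mem_Icc, mem_Icc]
    have h1' : ((v.2 ^ 2 + v.1 ^ 2 : ℤ) : ℝ) ≤ Y := by rw [add_comm]; exact h1
    exact ⟨abs_le_M h1, abs_le_M h1'⟩
  have h2 := Set.ncard_le_ncard h1 (Finset.finite_toSet _)
  rw [Set.ncard_coe_finset, card_product, Int.card_Icc] at h2
  have e : ((M : ℤ) + 1 - -(M : ℤ)).toNat = 2 * M + 1 := by omega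
  rw [e] at h2
  have h3 : ((SS p c k v₀ Y).ncard : ℝ) ≤ (((2 * M + 1) * (2 * M + 1) : ℕ) : ℝ) := by
    exact_mod_cast h2
  refine h3.trans (le_of_eq ?_)
  push_cast
  ring

lemma SS_le (p c k : ℕ) (hc : 1 ≤ c) (v₀ : ℤ × ℤ) (Y : ℝ) (w : ℕ) (Q : Finset ℕ)
    (hQ : ∀ l ∈ Q, l.Prime ∧ l ≤ w) :
    ((SS p c k v₀ Y).ncard : ℝ) ≤
      (((AA' k v₀ ⌊√Y⌋₊).filter (fun v => ∀ l ∈ Q, ¬ Ev c p l v)).card : ℝ) +
        (2 * (w + p) + 1) ^ 2 := by
  set M := ⌊√Y⌋₊ with hM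
  set F1 := (AA' k v₀ M).filter (fun v => ∀ l ∈ Q, ¬ Ev c p l v) with hF1
  set F2 : Finset (ℤ × ℤ) := Icc (-((w + p : ℕ) : ℤ)) ((w + p : ℕ) : ℤ) ×ˢ
    Icc (-((w + p : ℕ) : ℤ)) ((w + p : ℕ) : ℤ) with hF2
  have h1 : SS p c k v₀ Y ⊆ ((F1 ∪ F2 : Finset (ℤ × ℤ)) : Set (ℤ × ℤ)) := by
    rintro v ⟨h1, h2, h3, h4⟩
    have h1' : ((v.2 ^ 2 + v.1 ^ 2 : ℤ) : ℝ) ≤ Y := by rw [add_comm]; exact h1
    rw [Finset.mem_coe, mem_union]
    set z : ℤ := (c : ℤ) * (v.1 ^ 2 + v.2 ^ 2) - p with hz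
    have hz0 : z = (z.toNat : ℤ) := by
      have := h4.pos
      omega
    by_cases h5 : z.toNat ≤ w
    · right
      have hz1 : (c : ℤ) * (v.1 ^ 2 + v.2 ^ 2) ≤ w + p := by
        have : z ≤ w := by omega
        linarith
      have hc' : (1 : ℤ) ≤ c := by exact_mod_cast hc
      have hs : v.1 ^ 2 + v.2 ^ 2 ≤ w + p := by nlinarith [sq_nonneg v.1, sq_nonneg v.2]
      have key : ∀ a b : ℤ, a ^ 2 + b ^ 2 ≤ w + p → -((w + p : ℕ) : ℤ) ≤ a ∧
          a ≤ ((w + p : ℕ) : ℤ) := by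
        intro a b hab
        have h0 : a ^ 2 ≤ w + p := by nlinarith [sq_nonneg b]
        have h00 : (0 : ℤ) ≤ w + p := by positivity
        push_cast
        constructor
        · by_contra hcon
          push Not at hcon
          nlinarith
        · by_contra hcon
          push Not at hcon
          nlinarith
      rw [hF2, mem_product, mem_Icc, mem_Icc]
      exact ⟨key _ _ hs, key _ v.1 (by linarith)⟩
    · left
      rw [hF1, mem_filter, AA', mem_product, mem_filter, mem_filter, mem_Ico, mem_Ico]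
      have b1 := abs_le_M h1
      have b2 := abs_le_M h1'
      rw [← hM] at b1 b2
      refine ⟨⟨⟨⟨b1.1, by omega⟩, h2⟩, ⟨b2.1, by omega⟩, h3⟩, fun l hl hE => ?_⟩
      have hE' : (l : ℤ) ∣ z := hE
      rw [hz0, Int.natCast_dvd_natCast] at hE'
      obtain ⟨hl1, hl2⟩ := hQ l hl
      rcases (Nat.dvd_prime h4).1 hE' with e | e
      · exact hl1.one_lt.ne' e
      · omega
  have h2 := Set.ncard_le_ncard h1 (Finset.finite_toSet _)
  rw [Set.ncard_coe_finset] at h2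
  have h3 := h2.trans (Finset.card_union_le _ _)
  have h4 : F2.card = (2 * (w + p) + 1) * (2 * (w + p) + 1) := by
    rw [hF2, card_product, Int.card_Icc]
    have e : (((w + p : ℕ) : ℤ) + 1 - -((w + p : ℕ) : ℤ)).toNat = 2 * (w + p) + 1 := by omega
    rw [e]
  rw [h4] at h3
  have h5 : ((SS p c k v₀ Y).ncard : ℝ) ≤
      ((F1.card + (2 * (w + p) + 1) * (2 * (w + p) + 1) : ℕ) : ℝ) := by exact_mod_cast h3
  refine h5.trans (le_of_eq ?_)
  push_cast
  ring

end hS2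

open hS2 in
/-- S2: two dimensional sieve -/
theorem hS2 (hMV : StMV) : StS2 := by
  intro p hp hp2
  obtain ⟨CM, hCM, hMV⟩ := hMV
  obtain ⟨B, hB⟩ := Pool.Agent.Helper18.TR.fl 2 1 (by norm_num) (by norm_num)
  set e : ℝ := 1 / (40 * ((B : ℝ) + 1)) with he
  have he0 : 0 < e := by positivity
  obtain ⟨Y₀, hY₀2, hY₀⟩ := asym p e he0
  set K1 : ℝ := 36 * (Real.exp 4 * (CM * (2 / e) * 1)) + 1 with hK1
  set K2 : ℝ := 9 * (Y₀ ^ (1 / 10 : ℝ) * Real.log Y₀) with hK2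
  have hlogY₀ : 0 < Real.log Y₀ := Real.log_pos (by linarith)
  have hK1p : 0 < K1 := by positivity
  have hK2p : 0 ≤ K2 := by positivity
  refine ⟨K1 + K2, by linarith, ?_⟩
  intro c k v₀ Y hc hpc hk hY hck
  change ((SS p c k v₀ Y).ncard : ℝ) ≤ _
  have hY0 : 0 < Y := by linarith
  have hlogY : 0 < Real.log Y := Real.log_pos (by linarith)
  have hk1 : (1 : ℝ) ≤ k := by exact_mod_cast hk
  have hc1 : (1 : ℝ) ≤ c := by exact_mod_cast hc
  have hck0 : 0 < c * k := Nat.mul_pos hc hk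
  have htot : 0 < Nat.totient (c * k) := Nat.totient_pos.2 hck0
  have htotr : (0 : ℝ) < Nat.totient (c * k) := by exact_mod_cast htot
  have hratio : 1 ≤ ((c * k : ℕ) : ℝ) / Nat.totient (c * k) := by
    rw [le_div_iff₀ htotr, one_mul]
    exact_mod_cast Nat.totient_le _
  have hk2 : (k : ℝ) ^ 2 ≤ Y ^ (1 / 10 : ℝ) := by
    have h1 : (k : ℝ) ≤ Y ^ (1 / 20 : ℝ) := by
      refine le_trans ?_ hck
      push_cast
      nlinarith
    calc (k : ℝ) ^ 2 ≤ (Y ^ (1 / 20 : ℝ)) ^ 2 := pow_le_pow_left₀ (by positivity) h1 2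
      _ = Y ^ (1 / 10 : ℝ) := by
        rw [← Real.rpow_natCast, ← Real.rpow_mul hY0.le]
        norm_num
  have hsq1 : 1 ≤ √Y := by
    rw [Real.one_le_sqrt]
    linarith
  have hM : (⌊√Y⌋₊ : ℝ) ≤ √Y := Nat.floor_le (Real.sqrt_nonneg _)
  have hM2 : (2 * (⌊√Y⌋₊ : ℝ) + 1) ^ 2 ≤ 9 * Y := by
    calc (2 * (⌊√Y⌋₊ : ℝ) + 1) ^ 2 ≤ (3 * √Y) ^ 2 :=
          pow_le_pow_left₀ (by positivity) (by linarith) 2
      _ = 9 * Y := by rw [mul_pow, Real.sq_sqrt hY0.le]; norm_num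
  have hbase : 0 ≤ Y / ((k : ℝ) ^ 2 * Real.log Y) := by positivity
  by_cases hYY : Y₀ ≤ Y
  · -- large `Y`
    obtain ⟨a1, a2, a3⟩ := hY₀ Y hYY
    set w : ℕ := ⌊Y ^ e⌋₊ with hw
    have hw4 : 4 ≤ w := Nat.le_floor (by exact_mod_cast a1)
    have hwle : (w : ℝ) ≤ Y ^ e := Nat.floor_le (by positivity)
    have hwlt : Y ^ e < (w : ℝ) + 1 := Nat.lt_floor_add_one _
    have hw4r : (4 : ℝ) ≤ w := by exact_mod_cast hw4
    set Q : Finset ℕ := (Ioc 3 w).filter (fun l => l.Prime ∧ ¬ l ∣ c * k * p) with hQ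
    have hQ1 : ∀ l ∈ Q, l.Prime ∧ l ≤ w := by
      intro l hl
      rw [hQ, mem_filter, mem_Ioc] at hl
      exact ⟨hl.2.1, hl.1.2⟩
    have hQ2 : ∀ l ∈ Q, 3 < l ∧ l.Prime ∧ ¬ l ∣ c ∧ ¬ l ∣ k ∧ ¬ l ∣ p := by
      intro l hl
      rw [hQ, mem_filter, mem_Ioc] at hl
      exact ⟨hl.1.1, hl.2.1, fun h => hl.2.2 ((h.mul_right k).mul_right p),
        fun h => hl.2.2 ((h.mul_left c).mul_right p), fun h => hl.2.2 (h.mul_left _)⟩
    have s1 := SS_le p c k hc v₀ Y w Q hQ1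
    set M : ℕ := ⌊√Y⌋₊ with hMdef
    have s2 := hB w (by omega) Q hQ1 (gd c p) (fun l hl => by
      obtain ⟨b1, b2, b3, b4, b5⟩ := hQ2 l hl
      exact (gd_bounds b2 b1 b3 b5).1) (ℤ × ℤ) (AA' k v₀ M) (Ev c p)
      (((2 * (M : ℝ) + 1) / k) ^ 2) (((w : ℝ) ^ B) ^ 2 * (4 * M + 3)) (by positivity)
      (by positivity) (by
        intro T hT hTw
        have h1 := equi c p k M v₀ T hk (fun l hl => ⟨(hQ2 l (hT hl)).2.1,
          (hQ2 l (hT hl)).2.2.2.1⟩)
        refine h1.trans (mul_le_mul_of_nonneg_right ?_ (by positivity))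
        refine pow_le_pow_left₀ (by positivity) ?_ 2
        exact_mod_cast hTw)
    have s3 := (abs_le.1 s2).2
    have s4 := prod_gd (c := c) (p := p) (k := k) hQ
    have s5 := hMV w (c * k * p) (by omega) (Nat.mul_pos hck0 hp.pos)
    rw [← hQ] at s5
    -- the logarithm of `w`
    have hlogw : e / 2 * Real.log Y ≤ Real.log w := by
      have h1 : Y ^ (e / 2) ≤ w := by
        have h2 : (Y ^ (e / 2)) * (Y ^ (e / 2)) = Y ^ e := by
          rw [← Real.rpow_add hY0]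
          congr 1
          ring
        have h3 : 0 < Y ^ (e / 2) := by positivity
        have h4 : 2 ≤ Y ^ (e / 2) := by
          by_contra hcon
          push Not at hcon
          nlinarith
        nlinarith
      rw [← Real.log_rpow hY0]
      exact Real.log_le_log (by positivity) h1
    have hlogw0 : 0 < Real.log w := lt_of_lt_of_le (by positivity) hlogw
    have hratio2 : ((c * k * p : ℕ) : ℝ) / Nat.totient (c * k * p) ≤
        2 * (((c * k : ℕ) : ℝ) / Nat.totient (c * k)) := by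
      have h1 : Nat.totient (c * k) * Nat.totient p ≤ Nat.totient (c * k * p) :=
        Nat.totient_super_multiplicative _ _
      have h2 : (Nat.totient p : ℝ) = p - 1 := by
        rw [Nat.totient_prime hp, Nat.cast_sub hp.one_lt.le, Nat.cast_one]
      have h3 : ((Nat.totient (c * k) : ℝ)) * (p - 1) ≤ Nat.totient (c * k * p) := by
        rw [← h2]
        exact_mod_cast h1
      have hp2' : (2 : ℝ) ≤ p := by exact_mod_cast hp.two_le
      have h4 : (0 : ℝ) < Nat.totient (c * k * p) :=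
        lt_of_lt_of_le (mul_pos htotr (by linarith)) h3
      rw [mul_div_assoc', div_le_div_iff₀ h4 htotr]
      push_cast
      have hck' : (0 : ℝ) ≤ (c : ℝ) * k := by positivity
      calc (c : ℝ) * k * p * Nat.totient (c * k) ≤
            (c : ℝ) * k * (2 * (p - 1)) * Nat.totient (c * k) := by
            refine mul_le_mul_of_nonneg_right ?_ htotr.le
            refine mul_le_mul_of_nonneg_left ?_ hck'
            linarith
        _ = 2 * ((c : ℝ) * k) * (Nat.totient (c * k) * (p - 1)) := by ring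
        _ ≤ 2 * ((c : ℝ) * k) * Nat.totient (c * k * p) :=
            mul_le_mul_of_nonneg_left h3 (by positivity)
    -- the main term
    have hprod0 : 0 ≤ ∏ l ∈ Q, (1 - 1 / (l : ℝ)) := by
      refine Finset.prod_nonneg fun l hl => ?_
      have h3 : (3 : ℝ) < l := by exact_mod_cast (hQ2 l hl).1
      have : 1 / (l : ℝ) ≤ 1 := by
        rw [div_le_one (by linarith)]
        linarith
      linarith
    have s6 : ∏ l ∈ Q, (1 - gd c p l) ≤ Real.exp 4 * (CM * (2 / e) * 1) / Real.log Y *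
        (2 * (((c * k : ℕ) : ℝ) / Nat.totient (c * k))) := by
      refine s4.trans ?_
      have h1 : CM / Real.log w ≤ CM * (2 / e) * 1 / Real.log Y := by
        rw [div_le_div_iff₀ hlogw0 hlogY]
        have : Real.log Y ≤ 2 / e * Real.log w := by
          have h2 : 2 / e * (e / 2 * Real.log Y) = Real.log Y := by
            field_simp
          rw [← h2]
          exact mul_le_mul_of_nonneg_left hlogw (by positivity)
        calc CM * Real.log Y ≤ CM * (2 / e * Real.log w) :=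
              mul_le_mul_of_nonneg_left this hCM.le
          _ = _ := by ring
      calc Real.exp 4 * ∏ l ∈ Q, (1 - 1 / (l : ℝ))
          ≤ Real.exp 4 * (CM / Real.log w * (((c * k * p : ℕ) : ℝ) /
            Nat.totient (c * k * p))) := mul_le_mul_of_nonneg_left s5 (Real.exp_pos _).le
        _ ≤ Real.exp 4 * ((CM * (2 / e) * 1 / Real.log Y) *
            (2 * (((c * k : ℕ) : ℝ) / Nat.totient (c * k)))) := by
            refine mul_le_mul_of_nonneg_left ?_ (Real.exp_pos _).le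
            exact mul_le_mul h1 hratio2 (by positivity) (by positivity)
        _ = _ := by ring
    have s7 : ((2 * (M : ℝ) + 1) / k) ^ 2 * ∏ l ∈ Q, (1 - gd c p l) ≤
        18 * (Real.exp 4 * (CM * (2 / e) * 1)) * (Y / ((k : ℝ) ^ 2 * Real.log Y)) *
        (((c * k : ℕ) : ℝ) / Nat.totient (c * k)) := by
      calc ((2 * (M : ℝ) + 1) / k) ^ 2 * ∏ l ∈ Q, (1 - gd c p l) ≤
            (9 * Y / (k : ℝ) ^ 2) * (Real.exp 4 * (CM * (2 / e) * 1) / Real.log Y *
            (2 * (((c * k : ℕ) : ℝ) / Nat.totient (c * k)))) := by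
            refine mul_le_mul ?_ s6 ?_ (by positivity)
            · rw [div_pow]
              exact div_le_div_of_nonneg_right hM2 (by positivity)
            · refine Finset.prod_nonneg fun l hl => ?_
              obtain ⟨b1, b2, b3, b4, b5⟩ := hQ2 l hl
              have := (gd_bounds b2 b1 b3 b5).1.2.2
              linarith
        _ = _ := by
            field_simp
            ring
    -- the error terms
    have hwB : ((w : ℝ) ^ B) ^ 2 * (w : ℝ) ^ B ≤ Y ^ (3 / 40 : ℝ) := by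
      have h1 : ((w : ℝ) ^ B) ^ 2 * (w : ℝ) ^ B = (w : ℝ) ^ (3 * B) := by
        rw [← pow_mul, ← pow_add]
        congr 1
        ring
      rw [h1]
      calc (w : ℝ) ^ (3 * B) ≤ (Y ^ e) ^ (3 * B) := pow_le_pow_left₀ (by positivity) hwle _
        _ = Y ^ (e * (3 * B : ℕ)) := by
            rw [← Real.rpow_natCast, ← Real.rpow_mul hY0.le]
        _ ≤ Y ^ (3 / 40 : ℝ) := by
            refine Real.rpow_le_rpow_of_exponent_le (by linarith) ?_
            rw [he]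
            push_cast
            rw [div_mul_eq_mul_div, one_mul, div_le_div_iff₀ (by positivity) (by norm_num)]
            have : (0 : ℝ) ≤ B := by positivity
            nlinarith
    have hsqY : √Y = Y ^ (1 / 2 : ℝ) := Real.sqrt_eq_rpow Y
    have s8 : (w : ℝ) ^ B * (((w : ℝ) ^ B) ^ 2 * (4 * M + 3)) ≤ 7 * Y ^ (23 / 40 : ℝ) := by
      calc (w : ℝ) ^ B * (((w : ℝ) ^ B) ^ 2 * (4 * M + 3)) =
            (((w : ℝ) ^ B) ^ 2 * (w : ℝ) ^ B) * (4 * M + 3) := by ring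
        _ ≤ Y ^ (3 / 40 : ℝ) * (7 * √Y) :=
            mul_le_mul hwB (by linarith) (by positivity) (by positivity)
        _ = 7 * (Y ^ (3 / 40 : ℝ) * Y ^ (1 / 2 : ℝ)) := by rw [hsqY]; ring
        _ = 7 * Y ^ (23 / 40 : ℝ) := by
            rw [← Real.rpow_add hY0]
            norm_num
    have hw40 : (w : ℝ) ≤ Y ^ (1 / 40 : ℝ) := by
      refine hwle.trans (Real.rpow_le_rpow_of_exponent_le (by linarith) ?_)
      rw [he]
      refine one_div_le_one_div_of_le (by norm_num) ?_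
      have : (0 : ℝ) ≤ B := by positivity
      nlinarith
    have s9 : (2 * ((w : ℝ) + p) + 1) ^ 2 ≤ 16 * Y ^ (23 / 40 : ℝ) := by
      calc (2 * ((w : ℝ) + p) + 1) ^ 2 ≤ (4 * Y ^ (1 / 40 : ℝ)) ^ 2 :=
            pow_le_pow_left₀ (by positivity) (by linarith) 2
        _ = 16 * (Y ^ (1 / 40 : ℝ)) ^ 2 := by ring
        _ = 16 * Y ^ (1 / 20 : ℝ) := by
            rw [← Real.rpow_natCast, ← Real.rpow_mul hY0.le]
            norm_num
        _ ≤ 16 * Y ^ (23 / 40 : ℝ) := by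
            have := Real.rpow_le_rpow_of_exponent_le (x := Y) (by linarith)
              (show (1 / 20 : ℝ) ≤ 23 / 40 by norm_num)
            linarith
    have s10 : 23 * Y ^ (23 / 40 : ℝ) ≤ Y / ((k : ℝ) ^ 2 * Real.log Y) := by
      rw [le_div_iff₀ (by positivity)]
      calc 23 * Y ^ (23 / 40 : ℝ) * ((k : ℝ) ^ 2 * Real.log Y) ≤
            23 * Y ^ (23 / 40 : ℝ) * (Y ^ (1 / 10 : ℝ) * (1 / 32 * Y ^ (13 / 40 : ℝ))) := by
            refine mul_le_mul_of_nonneg_left ?_ (by positivity)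
            exact mul_le_mul hk2 (by linarith) hlogY.le (by positivity)
        _ = 23 / 32 * (Y ^ (23 / 40 : ℝ) * (Y ^ (1 / 10 : ℝ) * Y ^ (13 / 40 : ℝ))) := by ring
        _ = 23 / 32 * Y := by
            rw [← Real.rpow_add hY0, ← Real.rpow_add hY0]
            norm_num
        _ ≤ Y := by linarith
    have s11 : Y / ((k : ℝ) ^ 2 * Real.log Y) ≤ Y / ((k : ℝ) ^ 2 * Real.log Y) *
        (((c * k : ℕ) : ℝ) / Nat.totient (c * k)) := le_mul_of_one_le_right hbase hratio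
    have s12 : (K1 + K2) * Y / ((k : ℝ) ^ 2 * Real.log Y) *
        (((c * k : ℕ) : ℝ) / Nat.totient (c * k)) =
        (K1 + K2) * (Y / ((k : ℝ) ^ 2 * Real.log Y) *
        (((c * k : ℕ) : ℝ) / Nat.totient (c * k))) := by ring
    rw [s12]
    have s13 : 0 ≤ Y / ((k : ℝ) ^ 2 * Real.log Y) *
        (((c * k : ℕ) : ℝ) / Nat.totient (c * k)) := by positivity
    set Z := Y / ((k : ℝ) ^ 2 * Real.log Y) * (((c * k : ℕ) : ℝ) / Nat.totient (c * k)) with hZ
    have s14 : ((2 * (M : ℝ) + 1) / k) ^ 2 * ∏ l ∈ Q, (1 - gd c p l) ≤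
        18 * (Real.exp 4 * (CM * (2 / e) * 1)) * Z := by
      rw [hZ]
      linarith [s7]
    have s15 : 0 ≤ K2 * Z := mul_nonneg hK2p s13
    have s16 : (K1 + K2) * Z = 2 * (18 * (Real.exp 4 * (CM * (2 / e) * 1)) * Z) + Z + K2 * Z := by
      rw [hK1]
      ring
    rw [s16]
    linarith
  · -- small `Y`
    push Not at hYY
    have s1 := SS_trivial p c k v₀ Y
    have h1 : 9 * Y ≤ K2 * (Y / ((k : ℝ) ^ 2 * Real.log Y)) := by
      rw [mul_div_assoc', le_div_iff₀ (by positivity)]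
      have h2 : (k : ℝ) ^ 2 * Real.log Y ≤ Y₀ ^ (1 / 10 : ℝ) * Real.log Y₀ := by
        refine mul_le_mul (hk2.trans ?_) (Real.log_le_log hY0 hYY.le) hlogY.le (by positivity)
        exact Real.rpow_le_rpow hY0.le hYY.le (by norm_num)
      calc 9 * Y * ((k : ℝ) ^ 2 * Real.log Y) ≤ 9 * Y * (Y₀ ^ (1 / 10 : ℝ) * Real.log Y₀) :=
            mul_le_mul_of_nonneg_left h2 (by positivity)
        _ = K2 * Y := by rw [hK2]; ring
    calc ((SS p c k v₀ Y).ncard : ℝ) ≤ (2 * (⌊√Y⌋₊ : ℝ) + 1) ^ 2 := s1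
      _ ≤ 9 * Y := hM2
      _ ≤ K2 * (Y / ((k : ℝ) ^ 2 * Real.log Y)) := h1
      _ ≤ (K1 + K2) * (Y / ((k : ℝ) ^ 2 * Real.log Y)) :=
          mul_le_mul_of_nonneg_right (by linarith) hbase
      _ ≤ (K1 + K2) * (Y / ((k : ℝ) ^ 2 * Real.log Y)) *
          (((c * k : ℕ) : ℝ) / Nat.totient (c * k)) := le_mul_of_one_le_right
            (mul_nonneg (by linarith) hbase) hratio
      _ = _ := by ring

end Pool.Agent.Helper15.AB
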