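import Mathlib
import Pool.Agent.Helper15.AB.StBV

set_option autoImplicit false

namespace Pool.Agent.Helper15.AB

open Finset ArithmeticFunction Filter

namespace hSC

theorem dl_pos {r : ℕ} [NeZero r] (ψ : DirichletCharacter ℂ r) (h : ψ ≠ 1) : 0 < dl ψ := by
  unfold dl
  split_ifs with h2
  · refine lt_min one_pos (norm_pos_iff.mpr ?_)
    exact DirichletCharacter.LFunction_apply_one_ne_zero h
  · exact one_pos

theorem dl_lower_one (r : ℕ) [NeZero r] : ∃ c : ℝ, 0 < c ∧ ∀ ψ : DirichletCharacter ℂ r, ψ ≠ 1 → c ≤ dl ψ := by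
  classical
  haveI : Finite (DirichletCharacter ℂ r) := inferInstance
  haveI := Fintype.ofFinite (DirichletCharacter ℂ r)
  by_cases hne : ((univ : Finset (DirichletCharacter ℂ r)).filter (fun ψ => ψ ≠ 1)).Nonempty
  · obtain ⟨ψ, hψ, hm⟩ := Finset.exists_min_image _ (fun ψ : DirichletCharacter ℂ r => dl ψ) hne
    refine ⟨dl ψ, dl_pos ψ (Finset.mem_filter.mp hψ).2, ?_⟩
    intro ψ' h'
    exact hm ψ' (Finset.mem_filter.mpr ⟨Finset.mem_univ _, h'⟩)
  · refine ⟨1, one_pos, ?_⟩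
    intro ψ h
    exact absurd ⟨ψ, Finset.mem_filter.mpr ⟨Finset.mem_univ _, h⟩⟩ hne

theorem dl_lower (R : ℕ) : ∃ c : ℝ, 0 < c ∧ ∀ (r : ℕ) [NeZero r] (ψ : DirichletCharacter ℂ r), r ≤ R → ψ ≠ 1 →
    c ≤ dl ψ := by
  induction R with
  | zero =>
    refine ⟨1, one_pos, ?_⟩
    intro r hr ψ h
    exact absurd (Nat.le_zero.mp h) (NeZero.ne r)
  | succ R ih =>
    obtain ⟨c, hc, h⟩ := ih
    obtain ⟨c', hc', h'⟩ := dl_lower_one (R + 1)
    refine ⟨min c c', lt_min hc hc', ?_⟩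
    intro r hr ψ hrR hψ
    rcases Nat.lt_or_ge R r with h1 | h1
    · have : r = R + 1 := by omega
      subst this
      exact le_trans (min_le_right _ _) (h' ψ hψ)
    · exact le_trans (min_le_left _ _) (h r ψ h1 hψ)

theorem key (w : ℝ → ℝ) (A B : ℕ) (C c2 : ℝ) (hC : 0 < C) (hc2 : 0 < c2)
    (hT : ∀ (r : ℕ) [NeZero r]
      (ψ : DirichletCharacter ℂ r) (x : ℝ), ψ ≠ 1 → 3 ≤ x →
      ‖TT w x (fun n => ψ (n : ZMod r))‖ ≤
        C * x * Real.log (3 * r) ^ (16 * (A + 1 + 1)) / (Real.log x ^ (A + 1) * dl ψ ^ (A + 1 + 1)))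
    (x : ℝ) (hx : 3 ≤ x) (hL : 2 ≤ Real.log x)
    (hbig : C * ((B + 2 : ℕ) : ℝ) ^ (22 * (A + 2)) / c2 ^ (A + 2) * Real.log (Real.log x) ^ (22 * (A + 2)) ≤
      Real.log x)
    (r : ℕ) [NeZero r] (ψ : DirichletCharacter ℂ r) (hψ : ψ ≠ 1) (hr : (r : ℝ) ≤ Real.log x ^ B)
    (hdl : c2 / (((B + 2 : ℕ) : ℝ) * Real.log (Real.log x)) ^ 6 ≤ dl ψ) :
    ‖TT w x (fun n => ψ (n : ZMod r))‖ ≤ x / Real.log x ^ A := by
  have h0 := hT r ψ x hψ hx
  refine h0.trans ?_
  set L := Real.log x with hLdef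
  set l := Real.log L with hldef
  have hLpos : 0 < L := by linarith
  have hl : 0 < l := Real.log_pos (by linarith)
  have hr1 : (1 : ℝ) ≤ r := by exact_mod_cast Nat.one_le_iff_ne_zero.mpr (NeZero.ne r)
  have hlog3r : Real.log (3 * r) ≤ ((B + 2 : ℕ) : ℝ) * l := by
    have h1 : (3 : ℝ) * r ≤ L ^ (B + 2) := by
      calc (3 : ℝ) * r ≤ 4 * L ^ B := by
            have : 0 ≤ (r : ℝ) := by linarith
            nlinarith
        _ ≤ L ^ 2 * L ^ B := by
            apply mul_le_mul_of_nonneg_right _ (by positivity)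
            nlinarith
        _ = L ^ (B + 2) := by ring
    calc Real.log (3 * r) ≤ Real.log (L ^ (B + 2)) := Real.log_le_log (by positivity) h1
      _ = ((B + 2 : ℕ) : ℝ) * l := by rw [Real.log_pow]
  have hlog3r0 : 0 ≤ Real.log (3 * r) := Real.log_nonneg (by linarith)
  set b : ℝ := ((B + 2 : ℕ) : ℝ) with hb
  have hb0 : 0 < b := by rw [hb]; positivity
  have hbl : 0 < b * l := by positivity
  have hdl0 : 0 < c2 / (b * l) ^ 6 := by positivity
  calc C * x * Real.log (3 * r) ^ (16 * (A + 1 + 1)) / (L ^ (A + 1) * dl ψ ^ (A + 1 + 1))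
      ≤ C * x * (b * l) ^ (16 * (A + 1 + 1)) / (L ^ (A + 1) * (c2 / (b * l) ^ 6) ^ (A + 1 + 1)) := by
        gcongr
    _ = (C * b ^ (22 * (A + 2)) / c2 ^ (A + 2) * l ^ (22 * (A + 2))) / L * (x / L ^ A) := by
        have e1 : (c2 / (b * l) ^ 6) ^ (A + 1 + 1) = c2 ^ (A + 2) / (b * l) ^ (6 * (A + 2)) := by
          rw [div_pow, ← pow_mul]
        rw [e1]
        have e2 : (22 * (A + 2)) = 16 * (A + 1 + 1) + 6 * (A + 2) := by ring
        rw [e2]
        have hbl' : (b * l) ^ (6 * (A + 2)) ≠ 0 := by positivity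
        have hc' : c2 ^ (A + 2) ≠ 0 := by positivity
        have hL' : L ≠ 0 := by positivity
        field_simp
        ring
    _ ≤ 1 * (x / L ^ A) := by
        apply mul_le_mul_of_nonneg_right _ (by positivity)
        rw [div_le_one hLpos]
        exact hbig
    _ = x / L ^ A := one_mul _

end hSC

open hSC in
theorem hSC (hTS : StTS) (hEX : StEX) : StSC := by
  intro w hw A B R₁
  obtain ⟨C, hC, hT⟩ := hTS w hw (A + 1)
  obtain ⟨c, hc, hE⟩ := hEX
  obtain ⟨c1, hc1, hc1'⟩ := dl_lower R₁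
  obtain ⟨c2, hc2def⟩ : ∃ c2, c2 = min (min 1 c) c1 := ⟨_, rfl⟩
  have hc2 : 0 < c2 := by rw [hc2def]; exact lt_min (lt_min one_pos hc) hc1
  have hc2a : c2 ≤ 1 := by rw [hc2def]; exact (min_le_left _ _).trans (min_le_left _ _)
  have hc2b : c2 ≤ c := by rw [hc2def]; exact (min_le_left _ _).trans (min_le_right _ _)
  have hc2c : c2 ≤ c1 := by rw [hc2def]; exact min_le_right _ _
  -- eventually large
  set m := 22 * (A + 2) with hm
  set K : ℝ := C * ((B + 2 : ℕ) : ℝ) ^ m / c2 ^ (A + 2) with hK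
  have hKpos : 0 < K := by
    rw [hK]
    have : (0 : ℝ) < ((B + 2 : ℕ) : ℝ) := by positivity
    positivity
  have hlim : Tendsto Real.log atTop atTop := Real.tendsto_log_atTop
  have hev : ∀ᶠ y : ℝ in atTop, K * Real.log y ^ m ≤ y := by
    have h1 : (fun y : ℝ => Real.log y ^ m) =o[atTop] (id : ℝ → ℝ) := Real.isLittleO_pow_log_id_atTop
    have h2 := h1.bound (show (0 : ℝ) < 1 / K by positivity)
    filter_upwards [h2, eventually_ge_atTop (1 : ℝ)] with y hy hy1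
    have hlog : 0 ≤ Real.log y := Real.log_nonneg hy1
    rw [Real.norm_of_nonneg (pow_nonneg hlog _), id, Real.norm_of_nonneg (by linarith)] at hy
    have := mul_le_mul_of_nonneg_left hy hKpos.le
    calc K * Real.log y ^ m ≤ K * (1 / K * y) := this
      _ = y := by field_simp
  have hev2 : ∀ᶠ x : ℝ in atTop, K * Real.log (Real.log x) ^ m ≤ Real.log x ∧ 3 ≤ Real.log x ∧ 3 ≤ x := by
    filter_upwards [hlim.eventually hev, hlim.eventually_ge_atTop 3, eventually_ge_atTop (3 : ℝ)] with x h1 h2 h3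
    exact ⟨h1, h2, h3⟩
  obtain ⟨x₀, hx₀⟩ := Filter.eventually_atTop.mp hev2
  refine ⟨x₀, ?_⟩
  intro x hx
  obtain ⟨hbig, hL3, hx3⟩ := hx₀ x hx
  set L := Real.log x with hLdef
  have hLpos : 0 < L := by linarith
  have hl : 1 < Real.log L := by
    have h1 : Real.log (Real.exp 1) < Real.log L := by
      apply Real.log_lt_log (Real.exp_pos 1)
      have := Real.exp_one_lt_d9
      linarith
    rwa [Real.log_exp] at h1
  set b : ℝ := ((B + 2 : ℕ) : ℝ) with hb
  have hb2 : 2 ≤ b := by rw [hb]; push_cast; have : (0 : ℝ) ≤ B := Nat.cast_nonneg B; linarith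
  have hbl1 : 1 ≤ b * Real.log L := by nlinarith
  -- R
  set R : ℕ := max 3 ⌊L ^ B⌋₊ with hR
  have hR3 : 3 ≤ R := le_max_left _ _
  have hLB : (1 : ℝ) ≤ L ^ B := one_le_pow₀ (by linarith)
  have hRle : (R : ℝ) ≤ L ^ (B + 2) := by
    have h1 : (R : ℝ) ≤ 3 * L ^ B := by
      rw [hR]
      push_cast
      apply max_le
      · linarith
      · have := Nat.floor_le (show 0 ≤ L ^ B by positivity)
        linarith
    calc (R : ℝ) ≤ 3 * L ^ B := h1
      _ ≤ L ^ 2 * L ^ B := by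
          apply mul_le_mul_of_nonneg_right _ (by positivity)
          nlinarith
      _ = L ^ (B + 2) := by ring
  have hlogR : Real.log R ≤ b * Real.log L := by
    have hRpos : (0 : ℝ) < R := by
      have : 0 < R := by omega
      exact_mod_cast this
    calc Real.log R ≤ Real.log (L ^ (B + 2)) := Real.log_le_log hRpos hRle
      _ = b * Real.log L := by rw [Real.log_pow]
  have hlogR1 : 1 ≤ Real.log R := by
    have h1 : Real.log (Real.exp 1) ≤ Real.log R := by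
      apply Real.log_le_log (Real.exp_pos 1)
      have := Real.exp_one_lt_d9
      have h3 : (3 : ℝ) ≤ R := by exact_mod_cast hR3
      linarith
    rwa [Real.log_exp] at h1
  have hdlA : c2 / (b * Real.log L) ^ 6 ≤ c2 / Real.log R ^ 6 := by gcongr
  have hdlB : c2 / (b * Real.log L) ^ 6 ≤ c2 := by
    apply div_le_self hc2.le
    exact one_le_pow₀ hbl1
  have hkey := key w A B C c2 hC hc2 hT x hx3 (by linarith) hbig
  have hrR : ∀ r : ℕ, (r : ℝ) ≤ L ^ B → r ≤ R := by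
    intro r hr
    exact (Nat.le_floor hr).trans (le_max_right _ _)
  -- dl lower bound from L(1) lower bound
  have hdlq : ∀ (r : ℕ) [NeZero r] (ψ : DirichletCharacter ℂ r),
      (ψ ^ 2 = 1 → c / Real.log R ^ 6 ≤ ‖DirichletCharacter.LFunction ψ 1‖) →
      c2 / (b * Real.log L) ^ 6 ≤ dl ψ := by
    intro r hr0 ψ h
    unfold dl
    split_ifs with h2
    · apply le_min
      · exact hdlB.trans hc2a
      · refine hdlA.trans (le_trans ?_ (h h2))
        gcongr
    · exact hdlB.trans hc2a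
  by_cases hex : ∃ (r₁ : ℕ) (_ : NeZero r₁) (ψ₁ : DirichletCharacter ℂ r₁), R₁ < r₁ ∧ r₁ ≤ R ∧
      ψ₁.IsPrimitive ∧ ψ₁ ≠ 1 ∧ ψ₁ ^ 2 = 1 ∧ ‖DirichletCharacter.LFunction ψ₁ 1‖ < c / Real.log R ^ 6
  · obtain ⟨r₁, hr₁, ψ₁, h1, h2, h3, h4, h5, h6⟩ := hex
    refine ⟨r₁, hr₁, ψ₁, h1, Or.inl ⟨h3, h4⟩, ?_⟩
    intro r hr0 ψ hr hprim hψ hne
    apply hkey r ψ hψ hr
    apply hdlq
    intro hsq
    by_contra hcon
    push Not at hcon
    have := hE r r₁ R ψ ψ₁ hR3 (hrR r hr) h2 hprim h3 hψ h4 hsq h5 hne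
    rcases le_max_iff.mp this with h | h
    · linarith
    · linarith
  · push Not at hex
    obtain ⟨p, hp, hpp⟩ := Nat.exists_infinite_primes (max (⌊x⌋₊ + 1) (R₁ + 1))
    haveI : NeZero p := ⟨hpp.ne_zero⟩
    have hp1 : ⌊x⌋₊ + 1 ≤ p := (le_max_left _ _).trans hp
    have hp2 : R₁ + 1 ≤ p := (le_max_right _ _).trans hp
    refine ⟨p, inferInstance, 1, by omega, Or.inr ⟨hpp, ?_⟩, ?_⟩
    · have : x < (⌊x⌋₊ : ℝ) + 1 := Nat.lt_floor_add_one x
      have h' : ((⌊x⌋₊ + 1 : ℕ) : ℝ) ≤ p := by exact_mod_cast hp1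
      push_cast at h'
      linarith
    · intro r hr0 ψ hr hprim hψ hne
      apply hkey r ψ hψ hr
      rcases Nat.lt_or_ge R₁ r with h | h
      · apply hdlq
        intro hsq
        exact hex r hr0 ψ h (hrR r hr) hprim hψ hsq
      · exact (hdlB.trans hc2c).trans (hc1' r ψ h hψ)

end Pool.Agent.Helper15.AB
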