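import Mathlib
import Pool.Agent.Helper15.AB.StMid

/-!
# Project AB, module SD: weighted sieve for integers in an interval
-/

set_option autoImplicit false

namespace Pool.Agent.Helper15.AB

open Finset ArithmeticFunction Filter Topology

namespace hSD

/-- number of multiples in an interval -/
theorem count (E H m : ℕ) (hm : 1 ≤ m) :
    |(((Ioc E (E + H)).filter (fun e => m ∣ e)).card : ℝ) - H / m| ≤ 1 := by
  have h1 : ((Ioc 0 E).filter (fun e => m ∣ e)).card = E / m := Nat.Ioc_filter_dvd_card_eq_div E m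
  have h2 : ((Ioc 0 (E + H)).filter (fun e => m ∣ e)).card = (E + H) / m :=
    Nat.Ioc_filter_dvd_card_eq_div (E + H) m
  have h3 : ((Ioc 0 (E + H)).filter (fun e => m ∣ e)).card =
      ((Ioc 0 E).filter (fun e => m ∣ e)).card + ((Ioc E (E + H)).filter (fun e => m ∣ e)).card := by
    rw [← Finset.card_union_of_disjoint, ← Finset.filter_union,
      Finset.Ioc_union_Ioc_eq_Ioc (Nat.zero_le _) (Nat.le_add_right _ _)]
    refine Finset.disjoint_filter_filter ?_
    rw [Finset.disjoint_left]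
    intro x hx hx'
    rw [Finset.mem_Ioc] at hx hx'
    omega
  have h4 : (((Ioc E (E + H)).filter (fun e => m ∣ e)).card : ℝ) =
      ((E + H) / m : ℕ) - (E / m : ℕ) := by
    rw [← h1, ← h2, h3]
    push_cast
    ring
  have hm' : (0 : ℝ) < m := by exact_mod_cast hm
  have a1 : (((E + H) / m : ℕ) : ℝ) ≤ ((E + H : ℕ) : ℝ) / m := Nat.cast_div_le
  have a2 : ((E / m : ℕ) : ℝ) ≤ (E : ℝ) / m := Nat.cast_div_le
  have a3 : ((E + H : ℕ) : ℝ) / m < (((E + H) / m : ℕ) : ℝ) + 1 := by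
    rw [div_lt_iff₀ hm']
    have h5 := Nat.lt_mul_div_succ (E + H) (show 0 < m by omega)
    rw [mul_comm] at h5
    exact_mod_cast h5
  have a4 : (E : ℝ) / m < ((E / m : ℕ) : ℝ) + 1 := by
    rw [div_lt_iff₀ hm']
    have h5 := Nat.lt_mul_div_succ E (show 0 < m by omega)
    rw [mul_comm] at h5
    exact_mod_cast h5
  rw [h4, abs_le]
  push_cast at a1 a3 ⊢
  have a5 : ((E : ℝ) + H) / m = E / m + H / m := add_div _ _ _
  constructor <;> linarith

/-- the sieve bound for one set of primes -/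
theorem sieve (B₀ : ℕ) (hfam : ∀ (w : ℕ) (Q : Finset ℕ), 2 ≤ w →
    (∀ l ∈ Q, l.Prime ∧ 3 < l ∧ l ≤ w) → ∃ fam, Maj B₀ w Q fam) (E H : ℕ) (hH : 2 ≤ H)
    (A : Finset ℕ)
    (hA : ∀ l ∈ A, l.Prime ∧ 3 < l ∧ (l : ℝ) ≤ (H : ℝ) ^ (1 / (2 * ((B₀ : ℝ) + 1)))) :
    (((Ioc E (E + H)).filter (fun e => ∀ l ∈ A, ¬ l ∣ e)).card : ℝ) ≤
      2 * H * ∏ l ∈ A, (1 - 1 / (l : ℝ)) + √H := by
  have hH1 : (1 : ℝ) ≤ H := by
    have : 1 ≤ H := by omega
    exact_mod_cast this
  rcases A.eq_empty_or_nonempty with rfl | ⟨l₀, hl₀⟩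
  · have h1 : (((Ioc E (E + H)).filter (fun e => ∀ l ∈ (∅ : Finset ℕ), ¬ l ∣ e)).card : ℝ) ≤ H := by
      have : ((Ioc E (E + H)).filter (fun e => ∀ l ∈ (∅ : Finset ℕ), ¬ l ∣ e)).card ≤ H := by
        refine (Finset.card_filter_le _ _).trans ?_
        rw [Nat.card_Ioc]
        omega
      exact_mod_cast this
    refine h1.trans ?_
    rw [Finset.prod_empty]
    have := Real.sqrt_nonneg (H : ℝ)
    linarith
  set c₀ : ℝ := 1 / (2 * ((B₀ : ℝ) + 1)) with hc₀
  have hc0 : 0 < c₀ := by positivity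
  set w : ℕ := ⌊(H : ℝ) ^ c₀⌋₊ with hw
  have hAw : ∀ l ∈ A, l.Prime ∧ 3 < l ∧ l ≤ w := fun l hl =>
    ⟨(hA l hl).1, (hA l hl).2.1, Nat.le_floor (hA l hl).2.2⟩
  have hw2 : 2 ≤ w := by
    have := hAw l₀ hl₀
    omega
  obtain ⟨fam, hM⟩ := hfam w A hw2 hAw
  have hprime : ∀ T ∈ fam, ∀ l ∈ T, l.Prime := fun T hT l hl => (hAw l (hM.sub T hT hl)).1
  -- size of the family
  have hcard : (fam.card : ℝ) ≤ √H := by
    have h1 : fam.card ≤ w ^ B₀ := by
      have h2 : fam.card ≤ (Icc 1 (w ^ B₀)).card := by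
        refine Finset.card_le_card_of_injOn (fun T => ∏ l ∈ T, l) ?_ ?_
        · intro T hT
          rw [Finset.mem_coe, Finset.mem_Icc]
          exact ⟨Nat.pos_of_ne_zero (Finset.prod_ne_zero_iff.2 fun l hl =>
            (hprime T hT l hl).ne_zero), hM.lev T hT⟩
        · intro T hT T' hT' he
          have e1 := Nat.primeFactors_prod (hprime T hT)
          have e2 := Nat.primeFactors_prod (hprime T' hT')
          rw [← e1, ← e2]
          exact congrArg Nat.primeFactors he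
      simpa using h2
    have h2 : ((w ^ B₀ : ℕ) : ℝ) ≤ √H := by
      push_cast
      have h3 : (w : ℝ) ≤ (H : ℝ) ^ c₀ := Nat.floor_le (by positivity)
      calc (w : ℝ) ^ B₀ ≤ ((H : ℝ) ^ c₀) ^ B₀ := pow_le_pow_left₀ (by positivity) h3 _
        _ = (H : ℝ) ^ (c₀ * B₀) := by
            rw [← Real.rpow_natCast, ← Real.rpow_mul (by positivity)]
        _ ≤ (H : ℝ) ^ (1 / 2 : ℝ) := by
            apply Real.rpow_le_rpow_of_exponent_le hH1
            rw [hc₀, div_mul_eq_mul_div, one_mul, div_le_div_iff₀ (by positivity) (by norm_num)]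
            have : (0 : ℝ) ≤ B₀ := Nat.cast_nonneg _
            linarith
        _ = √H := by rw [Real.sqrt_eq_rpow]
    exact le_trans (by exact_mod_cast h1) h2
  -- expansion
  have h1 : (((Ioc E (E + H)).filter (fun e => ∀ l ∈ A, ¬ l ∣ e)).card : ℝ) ≤
      ∑ T ∈ fam, (-1 : ℝ) ^ T.card *
        (((Ioc E (E + H)).filter (fun e => ∀ l ∈ T, l ∣ e)).card : ℝ) := by
    rw [Finset.card_filter]
    push_cast
    refine (Finset.sum_le_sum fun e _ => hM.maj e).trans (le_of_eq ?_)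
    rw [Finset.sum_comm]
    refine Finset.sum_congr rfl fun T _ => ?_
    rw [← Finset.mul_sum, Finset.card_filter]
    push_cast
    rfl
  have h2 : ∀ T ∈ fam, (-1 : ℝ) ^ T.card *
      (((Ioc E (E + H)).filter (fun e => ∀ l ∈ T, l ∣ e)).card : ℝ) ≤
      (-1 : ℝ) ^ T.card * ((H : ℝ) * ∏ l ∈ T, (1 / (l : ℝ))) + 1 := by
    intro T hT
    have e1 : ((Ioc E (E + H)).filter (fun e => ∀ l ∈ T, l ∣ e)) =
        (Ioc E (E + H)).filter (fun e => (∏ l ∈ T, l) ∣ e) := by
      apply Finset.filter_congr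
      intro e _
      constructor
      · intro h
        exact Finset.prod_primes_dvd e (fun l hl => (hprime T hT l hl).prime) h
      · intro h l hl
        exact (Finset.dvd_prod_of_mem _ hl).trans h
    rw [e1]
    have e2 := count E H (∏ l ∈ T, l) (Nat.pos_of_ne_zero (Finset.prod_ne_zero_iff.2 fun l hl =>
            (hprime T hT l hl).ne_zero))
    have e3 : (H : ℝ) / ((∏ l ∈ T, l : ℕ) : ℝ) = H * ∏ l ∈ T, (1 / (l : ℝ)) := by
      rw [Finset.prod_div_distrib, Finset.prod_const_one]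
      push_cast
      ring
    rw [e3] at e2
    rw [abs_le] at e2
    rcases neg_one_pow_eq_or ℝ T.card with h | h <;> rw [h] <;> linarith
  refine h1.trans ((Finset.sum_le_sum h2).trans ?_)
  rw [Finset.sum_add_distrib, Finset.sum_const, nsmul_eq_mul, mul_one]
  have h3 : ∑ T ∈ fam, (-1 : ℝ) ^ T.card * ((H : ℝ) * ∏ l ∈ T, (1 / (l : ℝ))) =
      H * ∑ T ∈ fam, (-1 : ℝ) ^ T.card * ∏ l ∈ T, (1 / (l : ℝ)) := by
    rw [Finset.mul_sum]
    refine Finset.sum_congr rfl fun T _ => ?_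
    ring
  have h4 := hM.mean A (Finset.Subset.refl A)
  rw [Finset.filter_true_of_mem (fun T hT => hM.sub T hT)] at h4
  rw [h3]
  have h5 := mul_le_mul_of_nonneg_left h4 (by positivity : (0 : ℝ) ≤ H)
  linarith

end hSD

theorem hSD (hMJ : StMJ) : StSD := by
  obtain ⟨B₀, hB, hfam⟩ := hMJ
  refine ⟨2, 1 / (2 * ((B₀ : ℝ) + 1)), by norm_num, by positivity, ?_, ?_⟩
  · rw [div_lt_one (by positivity)]
    have : (0 : ℝ) ≤ B₀ := Nat.cast_nonneg _
    linarith
  intro u E H P hu0 hu1 hH hP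
  have hexp : ∀ e : ℕ, u ^ om P e = ∑ A ∈ P.powerset,
      ((1 - u) ^ A.card * u ^ (P \ A).card) * (if ∀ l ∈ A, ¬ l ∣ e then (1 : ℝ) else 0) := by
    intro e
    have h1 : u ^ om P e = ∏ l ∈ P, ((1 - u) * (if ¬ l ∣ e then (1 : ℝ) else 0) + u) := by
      unfold om
      rw [← Finset.prod_const, Finset.prod_filter]
      refine Finset.prod_congr rfl fun l _ => ?_
      by_cases hl : l ∣ e <;> simp [hl]
    rw [h1, Finset.prod_add]
    refine Finset.sum_congr rfl fun A _ => ?_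
    rw [Finset.prod_mul_distrib, Finset.prod_const, Finset.prod_const, Finset.prod_ite_zero,
      Finset.prod_const_one]
    ring
  rw [Finset.sum_congr rfl fun e _ => hexp e, Finset.sum_comm]
  have h2 : ∀ A ∈ P.powerset, ∑ e ∈ Ioc E (E + H),
      ((1 - u) ^ A.card * u ^ (P \ A).card) * (if ∀ l ∈ A, ¬ l ∣ e then (1 : ℝ) else 0) ≤
      ((1 - u) ^ A.card * u ^ (P \ A).card) * (2 * H * ∏ l ∈ A, (1 - 1 / (l : ℝ)) + √H) := by
    intro A hA
    rw [← Finset.mul_sum]
    have h0 : (0 : ℝ) ≤ (1 - u) ^ A.card * u ^ (P \ A).card := by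
      have : 0 ≤ 1 - u := by linarith
      positivity
    refine mul_le_mul_of_nonneg_left ?_ h0
    have h3 := hSD.sieve B₀ hfam E H hH A (fun l hl => hP l (Finset.mem_powerset.1 hA hl))
    rw [Finset.card_filter] at h3
    push_cast at h3
    exact h3
  refine (Finset.sum_le_sum h2).trans ?_
  have h4 : ∑ A ∈ P.powerset, (1 - u) ^ A.card * u ^ (P \ A).card = 1 := by
    have := Finset.prod_add (fun _ : ℕ => 1 - u) (fun _ => u) P
    simp only [Finset.prod_const] at this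
    rw [← this]
    simp
  have h5 : ∑ A ∈ P.powerset, ((1 - u) ^ A.card * u ^ (P \ A).card) *
      ∏ l ∈ A, (1 - 1 / (l : ℝ)) = ∏ l ∈ P, (1 - (1 - u) / (l : ℝ)) := by
    have := Finset.prod_add (fun l : ℕ => (1 - u) * (1 - 1 / (l : ℝ))) (fun _ => u) P
    have e7 : ∏ l ∈ P, (1 - (1 - u) / (l : ℝ)) = ∏ l ∈ P, ((1 - u) * (1 - 1 / (l : ℝ)) + u) := by
      refine Finset.prod_congr rfl fun l _ => ?_
      ring
    rw [e7, this]
    refine Finset.sum_congr rfl fun A _ => ?_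
    rw [Finset.prod_mul_distrib, Finset.prod_const, Finset.prod_const]
    ring
  have h6 : ∀ A ∈ P.powerset, ((1 - u) ^ A.card * u ^ (P \ A).card) *
      (2 * H * ∏ l ∈ A, (1 - 1 / (l : ℝ)) + √H) =
      2 * H * (((1 - u) ^ A.card * u ^ (P \ A).card) * ∏ l ∈ A, (1 - 1 / (l : ℝ))) +
      √H * ((1 - u) ^ A.card * u ^ (P \ A).card) := by
    intro A _
    ring
  rw [Finset.sum_congr rfl h6, Finset.sum_add_distrib, ← Finset.mul_sum, ← Finset.mul_sum, h4, h5]
  have h7 := Real.sqrt_nonneg (H : ℝ)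
  linarith

end Pool.Agent.Helper15.AB
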