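import Mathlib
import Pool.Agent.Helper15.AB.StMid

/-!
# Project AB, module SG: the asymptotic formula
-/

set_option autoImplicit false

namespace Pool.Agent.Helper15.AB

open Finset ArithmeticFunction Filter Topology

namespace SGm

theorem c4_abs (n : ℕ) : |c4 n| ≤ 1 := by
  unfold c4; split_ifs <;> norm_num

theorem c4_pair (d e : ℕ) (h : (d * e) % 4 = 1) : c4 d = c4 e := by
  have h1 : (d % 4) * (e % 4) % 4 = 1 := by rw [← Nat.mul_mod]; exact h
  have hd : d % 4 < 4 := Nat.mod_lt _ (by norm_num)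
  have he : e % 4 < 4 := Nat.mod_lt _ (by norm_num)
  unfold c4
  generalize d % 4 = a at *
  generalize e % 4 = b at *
  interval_cases a <;> interval_cases b <;> simp_all

/-- the part of `FF` below the square root -/
noncomputable def Sm (m : ℕ) : ℝ := ∑ d ∈ m.divisors.filter (fun d => d ^ 2 < m), c4 d

theorem sum_gt (m : ℕ) (hm : m % 4 = 1) :
    ∑ d ∈ m.divisors.filter (fun d => m < d ^ 2), c4 d = Sm m := by
  have hm0 : m ≠ 0 := by rintro rfl; simp at hm
  have key : ∀ d, d ∣ m → ∃ e, m / d = e ∧ d * e = m ∧ 0 < d ∧ 0 < e ∧ m / e = d := by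
    intro d hd
    obtain ⟨e, he⟩ := hd
    have hd0 : 0 < d := by
      rcases Nat.eq_zero_or_pos d with h | h
      · rw [h, zero_mul] at he; exact absurd he hm0
      · exact h
    have he0 : 0 < e := by
      rcases Nat.eq_zero_or_pos e with h | h
      · rw [h, mul_zero] at he; exact absurd he hm0
      · exact h
    exact ⟨e, by rw [he, Nat.mul_div_cancel_left _ hd0], he.symm, hd0, he0,
      by rw [he, Nat.mul_div_cancel _ he0]⟩
  unfold Sm
  refine sum_nbij' (fun d => m / d) (fun d => m / d) ?_ ?_ ?_ ?_ ?_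
  · intro d hd
    obtain ⟨h1, h2⟩ := mem_filter.1 hd
    obtain ⟨e, he, hde, hd0, he0, hme⟩ := key d (Nat.dvd_of_mem_divisors h1)
    rw [mem_filter, Nat.mem_divisors, he]
    refine ⟨⟨⟨d, by rw [← hde]; ring⟩, hm0⟩, ?_⟩
    rw [← hde, sq] at h2
    have h3 : e < d := lt_of_mul_lt_mul_left h2 (Nat.zero_le d)
    rw [← hde, sq]
    exact Nat.mul_lt_mul_of_pos_right h3 he0
  · intro d hd
    obtain ⟨h1, h2⟩ := mem_filter.1 hd
    obtain ⟨e, he, hde, hd0, he0, hme⟩ := key d (Nat.dvd_of_mem_divisors h1)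
    rw [mem_filter, Nat.mem_divisors, he]
    refine ⟨⟨⟨d, by rw [← hde]; ring⟩, hm0⟩, ?_⟩
    rw [← hde, sq] at h2
    have h3 : d < e := lt_of_mul_lt_mul_left h2 (Nat.zero_le d)
    rw [← hde, sq]
    exact Nat.mul_lt_mul_of_pos_right h3 he0
  · intro d hd
    obtain ⟨e, he, hde, hd0, he0, hme⟩ := key d (Nat.dvd_of_mem_divisors (mem_filter.1 hd).1)
    rw [he, hme]
  · intro d hd
    obtain ⟨e, he, hde, hd0, he0, hme⟩ := key d (Nat.dvd_of_mem_divisors (mem_filter.1 hd).1)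
    rw [he, hme]
  · intro d hd
    obtain ⟨e, he, hde, hd0, he0, hme⟩ := key d (Nat.dvd_of_mem_divisors (mem_filter.1 hd).1)
    rw [he]
    exact c4_pair d e (by rw [hde]; exact hm)

theorem FF_err (m : ℕ) (hm : m % 4 = 1) :
    |FF m - 2 * Sm m| ≤ if IsSquare m then 1 else 0 := by
  have h1 : FF m = Sm m + (Sm m + ∑ d ∈ m.divisors.filter (fun d => d ^ 2 = m), c4 d) := by
    unfold FF
    rw [← sum_filter_add_sum_filter_not m.divisors (fun d => d ^ 2 < m)]
    congr 1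
    rw [← sum_gt m hm, ← sum_filter_add_sum_filter_not (m.divisors.filter fun d => ¬ d ^ 2 < m)
      (fun d => m < d ^ 2)]
    congr 1
    · rw [filter_filter]
      refine sum_congr ?_ fun _ _ => rfl
      ext d
      simp only [mem_filter]
      constructor
      · rintro ⟨a, b, c⟩; exact ⟨a, c⟩
      · rintro ⟨a, c⟩; exact ⟨a, by omega, c⟩
    · rw [filter_filter]
      refine sum_congr ?_ fun _ _ => rfl
      ext d
      simp only [mem_filter]
      constructor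
      · rintro ⟨a, b, c⟩; exact ⟨a, by omega⟩
      · rintro ⟨a, c⟩; exact ⟨a, by omega, by omega⟩
  have h2 : FF m - 2 * Sm m = ∑ d ∈ m.divisors.filter (fun d => d ^ 2 = m), c4 d := by
    rw [h1]; ring
  rw [h2]
  by_cases hs : IsSquare m
  · rw [if_pos hs]
    have hc : (m.divisors.filter (fun d => d ^ 2 = m)).card ≤ 1 := by
      rw [card_le_one]
      intro a ha b hb
      have h3 := (mem_filter.1 ha).2
      have h4 := (mem_filter.1 hb).2
      exact Nat.pow_left_injective (n := 2) (by norm_num) (h3.trans h4.symm)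
    calc |∑ d ∈ m.divisors.filter (fun d => d ^ 2 = m), c4 d|
        ≤ ∑ d ∈ m.divisors.filter (fun d => d ^ 2 = m), |c4 d| := abs_sum_le_sum_abs _ _
      _ ≤ ∑ _d ∈ m.divisors.filter (fun d => d ^ 2 = m), (1 : ℝ) :=
          sum_le_sum fun d _ => c4_abs d
      _ = ((m.divisors.filter (fun d => d ^ 2 = m)).card : ℝ) := by simp
      _ ≤ 1 := by exact_mod_cast hc
  · rw [if_neg hs]
    have : m.divisors.filter (fun d => d ^ 2 = m) = ∅ := by
      rw [filter_eq_empty_iff]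
      intro d _ h
      exact hs ⟨d, by rw [← h, sq]⟩
    rw [this]; simp

theorem lam_nonneg (w : ℝ → ℝ) (hw : IsW w) (x : ℝ) (N p m : ℕ) : 0 ≤ lam w x N p m :=
  mul_nonneg vonMangoldt_nonneg (hw.nonneg _)

theorem lam_le (w : ℝ → ℝ) (hw : IsW w) (x : ℝ) (N p m : ℕ) (hN : 1 ≤ N) (hx : 1 ≤ x)
    (hm : (m : ℝ) ≤ 4 * x) : lam w x N p m ≤ Real.log (4 * N * x) := by
  have hN' : (1 : ℝ) ≤ N := by exact_mod_cast hN
  have h1 : lam w x N p m ≤ Λ (N * m - p) * 1 :=
    mul_le_mul_of_nonneg_left (hw.le_one _) vonMangoldt_nonneg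
  rw [mul_one] at h1
  refine h1.trans (vonMangoldt_le_log.trans ?_)
  rcases Nat.eq_zero_or_pos (N * m - p) with h | h
  · rw [h]
    simp only [Nat.cast_zero, Real.log_zero]
    apply Real.log_nonneg
    nlinarith
  · apply Real.log_le_log (by exact_mod_cast h)
    have h2 : ((N * m - p : ℕ) : ℝ) ≤ ((N * m : ℕ) : ℝ) := by
      exact_mod_cast Nat.sub_le _ _
    refine h2.trans ?_
    push_cast
    nlinarith

theorem lam_ne (w : ℝ → ℝ) (hw : IsW w) (x : ℝ) (N p m : ℕ) (hx : 0 < x)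
    (h : lam w x N p m ≠ 0) : x ≤ (N : ℝ) * m := by
  have h1 : w (Real.log (((N * m - p : ℕ) : ℝ) / x)) ≠ 0 := right_ne_zero_of_mul h
  have h0 : Λ (N * m - p) ≠ 0 := left_ne_zero_of_mul h
  have hpos : 0 < N * m - p := by
    rcases Nat.eq_zero_or_pos (N * m - p) with h2 | h2
    · rw [h2] at h0; simp at h0
    · exact h2
  have h2 : Real.log (((N * m - p : ℕ) : ℝ) / x) ∈ Set.Icc (0 : ℝ) 1 := by
    by_contra hc
    exact h1 (hw.supp _ hc)
  have hpos' : (0 : ℝ) < ((N * m - p : ℕ) : ℝ) := by exact_mod_cast hpos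
  have h3 : 1 ≤ ((N * m - p : ℕ) : ℝ) / x := by
    by_contra hc
    push Not at hc
    have := Real.log_neg (div_pos hpos' hx) hc
    linarith [h2.1]
  rw [le_div_iff₀ hx, one_mul] at h3
  refine h3.trans ?_
  have h4 : ((N * m - p : ℕ) : ℝ) ≤ ((N * m : ℕ) : ℝ) := by
    exact_mod_cast Nat.sub_le _ _
  refine h4.trans ?_
  push_cast
  exact le_rfl

theorem Sm_split (m D F : ℕ) (x : ℝ) (hx : 0 ≤ x) (hm0 : m ≠ 0) (hD : D ^ 2 < m)
    (hm : (m : ℝ) ≤ 4 * x) (hF : F = ⌊2 * √x⌋₊) :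
    Sm m = ∑ d ∈ (Icc 1 D).filter (fun d => d ∣ m), c4 d +
      ∑ d ∈ (Ioc D F).filter (fun d => d ∣ m ∧ d ^ 2 < m), c4 d := by
  rw [← sum_union]
  · unfold Sm
    refine sum_congr ?_ fun _ _ => rfl
    ext d
    simp only [mem_filter, mem_union, Nat.mem_divisors, mem_Icc, mem_Ioc]
    constructor
    · rintro ⟨⟨h1, -⟩, h2⟩
      have hd : 1 ≤ d := Nat.pos_of_dvd_of_pos h1 (Nat.pos_of_ne_zero hm0)
      by_cases h3 : d ≤ D
      · exact Or.inl ⟨⟨hd, h3⟩, h1⟩
      · refine Or.inr ⟨⟨by omega, ?_⟩, h1, h2⟩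
        rw [hF]
        apply Nat.le_floor
        have h4 : (d : ℝ) ^ 2 < m := by exact_mod_cast h2
        have h5 : (d : ℝ) ^ 2 ≤ (2 * √x) ^ 2 := by
          rw [mul_pow, Real.sq_sqrt hx]; linarith
        exact (le_abs_self _).trans (abs_le_of_sq_le_sq h5 (by positivity))
    · rintro (⟨⟨h1, h2⟩, h3⟩ | ⟨⟨h1, h2⟩, h3, h4⟩)
      · refine ⟨⟨h3, hm0⟩, ?_⟩
        calc d ^ 2 ≤ D ^ 2 := Nat.pow_le_pow_left h2 2
          _ < m := hD
      · exact ⟨⟨h3, hm0⟩, h4⟩
  · rw [disjoint_left]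
    intro d h1 h2
    have h3 := (mem_Icc.1 (mem_filter.1 h1).1).2
    have h4 := (mem_Ioc.1 (mem_filter.1 h2).1).1
    omega

theorem card_sq (x : ℝ) (hx : 0 ≤ x) (S : Finset ℕ) (hS : ∀ m ∈ S, 1 ≤ m ∧ (m : ℝ) ≤ 4 * x) :
    ((S.filter IsSquare).card : ℝ) ≤ 2 * √x := by
  have h1 : (S.filter IsSquare).card ≤ (Icc 1 ⌊2 * √x⌋₊).card := by
    refine card_le_card_of_injOn Nat.sqrt ?_ ?_
    · intro m hm
      obtain ⟨h1, ⟨k, hk⟩⟩ := mem_filter.1 (mem_coe.1 hm)
      obtain ⟨h2, h3⟩ := hS m h1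
      rw [coe_Icc, Set.mem_Icc]
      have hk' : Nat.sqrt m = k := by rw [hk, Nat.sqrt_eq]
      rw [hk']
      refine ⟨?_, ?_⟩
      · rcases Nat.eq_zero_or_pos k with h | h
        · rw [h] at hk; omega
        · exact h
      · apply Nat.le_floor
        have h5 : (k : ℝ) ^ 2 ≤ (2 * √x) ^ 2 := by
          rw [mul_pow, Real.sq_sqrt hx]
          have : (k : ℝ) ^ 2 = m := by rw [hk]; push_cast; ring
          linarith
        exact (le_abs_self _).trans (abs_le_of_sq_le_sq h5 (by positivity))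
    · intro a ha b hb h
      obtain ⟨-, ⟨k, hk⟩⟩ := mem_filter.1 (mem_coe.1 ha)
      obtain ⟨-, ⟨l, hl⟩⟩ := mem_filter.1 (mem_coe.1 hb)
      rw [hk, hl, Nat.sqrt_eq, Nat.sqrt_eq] at h
      rw [hk, hl, h]
  rw [Nat.card_Icc, Nat.add_sub_cancel] at h1
  calc ((S.filter IsSquare).card : ℝ) ≤ (⌊2 * √x⌋₊ : ℝ) := by exact_mod_cast h1
    _ ≤ 2 * √x := Nat.floor_le (by positivity)

end SGm

open SGm in
theorem hSG (hMA : StMA) (hMI : StMI) : StSG := by
  intro N p q m₁ hyp w hw ε hε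
  obtain ⟨B₀, hB₀⟩ := hMA N p q m₁ hyp w hw (ε / 6) (by positivity)
  set B := max B₀ 1 with hB
  obtain ⟨x₁, hx₁⟩ := hB₀ B (le_max_left _ _)
  obtain ⟨x₂, hx₂⟩ := hMI N p q m₁ hyp w hw B (ε / 6) (by positivity)
  have hN : 1 ≤ N := hyp.hN
  have hNr : (1 : ℝ) ≤ N := by exact_mod_cast hN
  -- eventual inequalities
  have hlog : Tendsto Real.log atTop atTop := Real.tendsto_log_atTop
  obtain ⟨x₃, hx₃⟩ := eventually_atTop.1 (hlog.eventually_gt_atTop (N : ℝ))
  have hlo : ∀ᶠ x : ℝ in atTop, Real.log x ≤ ε / 12 * √x := by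
    have h := (isLittleO_log_rpow_atTop (r := 1 / 2) (by norm_num)).bound
      (show (0 : ℝ) < ε / 12 by positivity)
    filter_upwards [h, eventually_ge_atTop 1] with x h1 h2
    rw [Real.norm_of_nonneg (Real.log_nonneg h2), ← Real.sqrt_eq_rpow,
      Real.norm_of_nonneg (Real.sqrt_nonneg x)] at h1
    exact h1
  obtain ⟨x₄, hx₄⟩ := eventually_atTop.1 hlo
  have hsq : Tendsto (fun x : ℝ => ε / 12 * √x) atTop atTop :=
    Tendsto.const_mul_atTop (by positivity) Real.tendsto_sqrt_atTop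
  obtain ⟨x₅, hx₅⟩ := eventually_atTop.1 (hsq.eventually_ge_atTop (Real.log (4 * N)))
  refine ⟨max 1 (max x₁ (max x₂ (max x₃ (max x₄ x₅)))), fun x hx => ?_⟩
  simp only [max_le_iff] at hx
  obtain ⟨g0, g1, g2, g3, g4, g5⟩ := hx
  have hx0 : (0 : ℝ) < x := by linarith
  have hMA' := hx₁ x g1
  have hMI' := hx₂ x g2
  have hL := hx₃ x g3
  have hL1 : 1 ≤ Real.log x := hNr.trans hL.le
  -- `D`
  set D := DD x B with hD
  have hDx : ∀ m : ℕ, x ≤ (N : ℝ) * m → D ^ 2 < m := by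
    intro m hm
    have h1 : (D : ℝ) ≤ √x / Real.log x ^ B := Nat.floor_le (by positivity)
    have h2 : (D : ℝ) ^ 2 ≤ x / (Real.log x ^ B) ^ 2 := by
      calc (D : ℝ) ^ 2 ≤ (√x / Real.log x ^ B) ^ 2 := pow_le_pow_left₀ (Nat.cast_nonneg _) h1 2
        _ = x / (Real.log x ^ B) ^ 2 := by rw [div_pow, Real.sq_sqrt hx0.le]
    have h3 : (N : ℝ) < (Real.log x ^ B) ^ 2 := by
      rw [← pow_mul]
      calc (N : ℝ) < Real.log x := hL
        _ = Real.log x ^ 1 := (pow_one _).symm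
        _ ≤ Real.log x ^ (B * 2) := pow_le_pow_right₀ hL1 (by
            have : 1 ≤ B := le_max_right _ _
            omega)
    have h4 : (D : ℝ) ^ 2 < m := by
      refine h2.trans_lt ?_
      rw [div_lt_iff₀ (by linarith)]
      have hm0 : (0 : ℝ) < m := by
        by_contra hc
        push Not at hc
        nlinarith
      nlinarith
    exact_mod_cast h4
  have hms : ∀ m ∈ ms x q m₁, 1 ≤ m ∧ (m : ℝ) ≤ 4 * x ∧ m % 4 = 1 := by
    intro m hm
    obtain ⟨h1, h2⟩ := mem_filter.1 hm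
    obtain ⟨h3, h4⟩ := mem_Icc.1 h1
    refine ⟨h3, ?_, ?_⟩
    · calc (m : ℝ) ≤ (⌊4 * x⌋₊ : ℝ) := by exact_mod_cast h4
        _ ≤ 4 * x := Nat.floor_le (by positivity)
    · have h5 : m ≡ m₁ [MOD 4] := Nat.ModEq.of_dvd hyp.hq h2
      have h6 : m % 4 = m₁ % 4 := h5
      rw [h6]; exact hyp.hm4
  have hterm : ∀ m ∈ ms x q m₁, lam w x N p m * FF m =
      2 * (lam w x N p m * ∑ d ∈ (Icc 1 D).filter (fun d => d ∣ m), c4 d) +
      2 * (lam w x N p m * ∑ d ∈ (Ioc D ⌊2 * √x⌋₊).filter (fun d => d ∣ m ∧ d ^ 2 < m), c4 d) +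
      lam w x N p m * (FF m - 2 * Sm m) := by
    intro m hm
    obtain ⟨a1, a2, a3⟩ := hms m hm
    by_cases h : lam w x N p m = 0
    · rw [h]; ring
    · have h1 := lam_ne w hw x N p m hx0 h
      rw [Sm_split m D _ x hx0.le (by omega) (hDx m h1) a2 rfl]
      ring
  have hR : |∑ m ∈ ms x q m₁, lam w x N p m * (FF m - 2 * Sm m)| ≤ ε / 3 * x := by
    calc |∑ m ∈ ms x q m₁, lam w x N p m * (FF m - 2 * Sm m)|
        ≤ ∑ m ∈ ms x q m₁, |lam w x N p m * (FF m - 2 * Sm m)| := abs_sum_le_sum_abs _ _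
      _ ≤ ∑ m ∈ ms x q m₁, (if IsSquare m then Real.log (4 * N * x) else 0) := by
          refine sum_le_sum fun m hm => ?_
          obtain ⟨a1, a2, a3⟩ := hms m hm
          rw [abs_mul, abs_of_nonneg (lam_nonneg w hw x N p m)]
          have h1 := FF_err m a3
          by_cases hs : IsSquare m
          · rw [if_pos hs] at h1 ⊢
            calc lam w x N p m * |FF m - 2 * Sm m| ≤ lam w x N p m * 1 :=
                  mul_le_mul_of_nonneg_left h1 (lam_nonneg w hw x N p m)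
              _ ≤ Real.log (4 * N * x) := by
                  rw [mul_one]; exact lam_le w hw x N p m hN g0 a2
          · rw [if_neg hs] at h1 ⊢
            have h2 : |FF m - 2 * Sm m| = 0 := le_antisymm h1 (abs_nonneg _)
            rw [h2, mul_zero]
      _ = (((ms x q m₁).filter IsSquare).card : ℝ) * Real.log (4 * N * x) := by
          rw [← sum_filter, sum_const, nsmul_eq_mul]
      _ ≤ 2 * √x * (ε / 12 * √x + ε / 12 * √x) := by
          have hc := card_sq x hx0.le (ms x q m₁) fun m hm => ⟨(hms m hm).1, (hms m hm).2.1⟩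
          have hl : Real.log (4 * N * x) ≤ ε / 12 * √x + ε / 12 * √x := by
            rw [Real.log_mul (by positivity) (by positivity)]
            exact add_le_add (hx₅ x g5) (hx₄ x g4)
          have hl0 : 0 ≤ Real.log (4 * N * x) := by
            apply Real.log_nonneg
            nlinarith
          exact mul_le_mul hc hl hl0 (by positivity)
      _ = ε / 3 * (√x * √x) := by ring
      _ = ε / 3 * x := by rw [Real.mul_self_sqrt hx0.le]
  have hM2 : |∑ m ∈ ms x q m₁, lam w x N p m *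
      ∑ d ∈ (Ioc D ⌊2 * √x⌋₊).filter (fun d => d ∣ m ∧ d ^ 2 < m), c4 d| ≤ ε / 6 * x := by
    refine (abs_sum_le_sum_abs _ _).trans (le_trans (le_of_eq ?_) hMI')
    refine sum_congr rfl fun m _ => ?_
    rw [abs_mul, abs_of_nonneg (lam_nonneg w hw x N p m)]
  rw [sum_congr rfl hterm, sum_add_distrib, sum_add_distrib, ← mul_sum, ← mul_sum]
  rw [abs_le] at hMA' hM2 hR ⊢
  constructor
  · linarith [hMA'.1, hM2.1, hR.1]
  · linarith [hMA'.2, hM2.2, hR.2]

end Pool.Agent.Helper15.AB
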