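import Mathlib
import Pool.Agent.Helper15.AB.StMid

/-!
# Project AB, module SM: second moment in the mid range
-/

set_option autoImplicit false

namespace Pool.Agent.Helper15.AB

open Finset ArithmeticFunction Filter Topology

namespace hSM

lemma c4_abs (n : ℕ) : |c4 n| ≤ 1 := by
  unfold c4
  split_ifs <;> simp

lemma th_nonneg {B₀ w : ℕ} {Q : Finset ℕ} {fam : Finset (Finset ℕ)} (h : Maj B₀ w Q fam)
    (n : ℕ) : 0 ≤ th fam n := by
  have h1 := h.maj n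
  unfold th
  split_ifs at h1 <;> linarith

lemma th_ge_one {B₀ w : ℕ} {Q : Finset ℕ} {fam : Finset (Finset ℕ)} (h : Maj B₀ w Q fam)
    (n : ℕ) (hn : n.Prime) (hw : w < n) : 1 ≤ th fam n := by
  have h1 := h.maj n
  have h2 : ∀ l ∈ Q, ¬ l ∣ n := by
    intro l hl hd
    obtain ⟨a, b, c⟩ := h.hQ l hl
    rcases (Nat.dvd_prime hn).1 hd with e | e
    · omega
    · omega
  rw [if_pos h2] at h1
  unfold th
  exact h1

/-- regrouping by the greatest common divisor -/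
lemma regroup (F : ℕ → ℕ → ℝ) (D₁ D₂ : ℕ) :
    ∑ d ∈ (Ioc D₁ D₂) ×ˢ (Ioc D₁ D₂), F d.1 d.2 =
    ∑ g ∈ Icc 1 D₂, ∑ b ∈ ((Icc 1 D₂) ×ˢ (Icc 1 D₂)).filter (fun b : ℕ × ℕ =>
      Nat.Coprime b.1 b.2 ∧ D₁ < g * b.1 ∧ g * b.1 ≤ D₂ ∧ D₁ < g * b.2 ∧ g * b.2 ≤ D₂),
      F (g * b.1) (g * b.2) := by
  rw [Finset.sum_sigma']
  refine Finset.sum_nbij' (fun d => (⟨Nat.gcd d.1 d.2, (d.1 / Nat.gcd d.1 d.2,
    d.2 / Nat.gcd d.1 d.2)⟩ : (_ : ℕ) × (ℕ × ℕ))) (fun s => (s.1 * s.2.1, s.1 * s.2.2))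
    ?_ ?_ ?_ ?_ ?_
  · rintro ⟨d, e⟩ h
    simp only [mem_product, mem_Ioc] at h
    have hg : 0 < Nat.gcd d e := Nat.gcd_pos_of_pos_left _ (by omega)
    have h1 : Nat.gcd d e * (d / Nat.gcd d e) = d := Nat.mul_div_cancel' (Nat.gcd_dvd_left d e)
    have h2 : Nat.gcd d e * (e / Nat.gcd d e) = e := Nat.mul_div_cancel' (Nat.gcd_dvd_right d e)
    have h3 : Nat.gcd d e ≤ d := Nat.gcd_le_left _ (by omega)
    have h4 : d / Nat.gcd d e ≤ d := Nat.div_le_self _ _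
    have h5 : e / Nat.gcd d e ≤ e := Nat.div_le_self _ _
    have h6 : 0 < d / Nat.gcd d e := Nat.div_pos h3 hg
    have h7 : 0 < e / Nat.gcd d e := Nat.div_pos (Nat.gcd_le_right _ (by omega)) hg
    simp only [mem_sigma, mem_Icc, mem_filter, mem_product]
    rw [h1, h2]
    refine ⟨⟨hg, by omega⟩, ⟨⟨by omega, by omega⟩, by omega, by omega⟩, ?_, ?_⟩
    · exact Nat.coprime_div_gcd_div_gcd hg
    · exact ⟨h.1.1, h.1.2, h.2.1, h.2.2⟩
  · rintro ⟨g, b, c⟩ h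
    simp only [mem_sigma, mem_Icc, mem_filter, mem_product] at h
    simp only [mem_product, mem_Ioc]
    obtain ⟨h1, h2, h3, h4, h5, h6, h7⟩ := h
    exact ⟨⟨h4, h5⟩, h6, h7⟩
  · rintro ⟨d, e⟩ h
    simp only
    have h1 : Nat.gcd d e * (d / Nat.gcd d e) = d := Nat.mul_div_cancel' (Nat.gcd_dvd_left d e)
    have h2 : Nat.gcd d e * (e / Nat.gcd d e) = e := Nat.mul_div_cancel' (Nat.gcd_dvd_right d e)
    rw [h1, h2]
  · rintro ⟨g, b, c⟩ h
    simp only [mem_sigma, mem_Icc, mem_filter, mem_product] at h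
    obtain ⟨h1, h2, h3, h4, h5, h6, h7⟩ := h
    have hg : Nat.gcd (g * b) (g * c) = g := by
      rw [Nat.gcd_mul_left, Nat.Coprime.gcd_eq_one h3, mul_one]
    have hg0 : 0 < g := h1.1
    simp only [hg, Nat.mul_div_cancel_left _ hg0]
  · rintro ⟨d, e⟩ h
    simp only
    have h1 : Nat.gcd d e * (d / Nat.gcd d e) = d := Nat.mul_div_cancel' (Nat.gcd_dvd_left d e)
    have h2 : Nat.gcd d e * (e / Nat.gcd d e) = e := Nat.mul_div_cancel' (Nat.gcd_dvd_right d e)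
    rw [h1, h2]

lemma dvd_iff (g b c m : ℕ) (h : Nat.Coprime b c) :
    (g * b ∣ m ∧ g * c ∣ m) ↔ g * b * c ∣ m := by
  rw [← Nat.lcm_dvd_iff, Nat.lcm_mul_left, h.lcm_eq_mul, mul_assoc]

/-- the inner sum for fixed `g` -/
noncomputable def Tg (N p q m₁ X₁ X₂ D₁ D₂ g : ℕ) (fam : Finset (Finset ℕ)) : ℝ :=
  ∑ b ∈ ((Icc 1 D₂) ×ˢ (Icc 1 D₂)).filter (fun b : ℕ × ℕ => Nat.Coprime b.1 b.2 ∧
      D₁ < g * b.1 ∧ g * b.1 ≤ D₂ ∧ D₁ < g * b.2 ∧ g * b.2 ≤ D₂),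
    c4 (g * b.1) * c4 (g * b.2) *
      ∑ m ∈ (Ioc X₁ X₂).filter (fun m => m % q = m₁ % q ∧ g * b.1 * b.2 ∣ m), th fam (N * m - p)

/-- expansion of the square -/
lemma expand (N p q m₁ X₁ X₂ D₁ D₂ : ℕ) (fam : Finset (Finset ℕ)) :
    ∑ m ∈ (Ioc X₁ X₂).filter (fun m => m % q = m₁ % q),
      th fam (N * m - p) * (∑ d ∈ (Ioc D₁ D₂).filter (fun d => d ∣ m), c4 d) ^ 2 =
    ∑ g ∈ Icc 1 D₂, Tg N p q m₁ X₁ X₂ D₁ D₂ g fam := by
  have h1 : ∀ m : ℕ, (∑ d ∈ (Ioc D₁ D₂).filter (fun d => d ∣ m), c4 d) ^ 2 =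
      ∑ d ∈ (Ioc D₁ D₂) ×ˢ (Ioc D₁ D₂),
        c4 d.1 * c4 d.2 * (if d.1 ∣ m ∧ d.2 ∣ m then 1 else 0) := by
    intro m
    rw [sq, Finset.sum_filter, Finset.sum_mul_sum, ← Finset.sum_product']
    refine Finset.sum_congr rfl fun d _ => ?_
    by_cases ha : d.1 ∣ m <;> by_cases hb : d.2 ∣ m <;> simp [ha, hb]
  have h2 : ∑ m ∈ (Ioc X₁ X₂).filter (fun m => m % q = m₁ % q),
      th fam (N * m - p) * (∑ d ∈ (Ioc D₁ D₂).filter (fun d => d ∣ m), c4 d) ^ 2 =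
      ∑ d ∈ (Ioc D₁ D₂) ×ˢ (Ioc D₁ D₂), c4 d.1 * c4 d.2 *
        ∑ m ∈ (Ioc X₁ X₂).filter (fun m => m % q = m₁ % q ∧ (d.1 ∣ m ∧ d.2 ∣ m)),
          th fam (N * m - p) := by
    simp_rw [h1, Finset.mul_sum]
    rw [Finset.sum_comm]
    refine Finset.sum_congr rfl fun d _ => ?_
    rw [← Finset.filter_filter, Finset.sum_filter (fun m => d.1 ∣ m ∧ d.2 ∣ m)]
    refine Finset.sum_congr rfl fun m _ => ?_
    split_ifs <;> ring
  rw [h2, regroup (fun a b => c4 a * c4 b *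
        ∑ m ∈ (Ioc X₁ X₂).filter (fun m => m % q = m₁ % q ∧ (a ∣ m ∧ b ∣ m)),
          th fam (N * m - p))]
  refine Finset.sum_congr rfl fun g _ => ?_
  unfold Tg
  refine Finset.sum_congr rfl fun b hb => ?_
  have hc := (Finset.mem_filter.1 hb).2.1
  congr 1
  refine Finset.sum_congr ?_ fun _ _ => rfl
  refine Finset.filter_congr fun m _ => ?_
  rw [dvd_iff _ _ _ _ hc]

lemma Tg_le_Abs {B₀ w N p q m₁ X₁ X₂ D₁ D₂ g : ℕ} {Q : Finset ℕ} {fam : Finset (Finset ℕ)}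
    (h : Maj B₀ w Q fam) :
    Tg N p q m₁ X₁ X₂ D₁ D₂ g fam ≤ Abs N p q m₁ X₁ X₂ D₁ D₂ g fam := by
  unfold Tg Abs
  refine Finset.sum_le_sum fun b _ => ?_
  have h0 : 0 ≤ ∑ m ∈ (Ioc X₁ X₂).filter (fun m => m % q = m₁ % q ∧ g * b.1 * b.2 ∣ m),
      th fam (N * m - p) := Finset.sum_nonneg fun m _ => th_nonneg h _
  have h1 : c4 (g * b.1) * c4 (g * b.2) ≤ 1 := by
    have a := abs_mul (c4 (g * b.1)) (c4 (g * b.2))
    have b1 := c4_abs (g * b.1)
    have b2 := c4_abs (g * b.2)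
    have : |c4 (g * b.1) * c4 (g * b.2)| ≤ 1 := by
      rw [a]
      exact mul_le_one₀ b1 (abs_nonneg _) b2
    exact (le_abs_self _).trans this
  calc _ ≤ 1 * _ := mul_le_mul_of_nonneg_right h1 h0
    _ = _ := one_mul _

lemma Abs_nonneg {B₀ w N p q m₁ X₁ X₂ D₁ D₂ g : ℕ} {Q : Finset ℕ} {fam : Finset (Finset ℕ)}
    (h : Maj B₀ w Q fam) : 0 ≤ Abs N p q m₁ X₁ X₂ D₁ D₂ g fam :=
  Finset.sum_nonneg fun _ _ => Finset.sum_nonneg fun _ _ => th_nonneg h _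

lemma prod_dvd_iff {T : Finset ℕ} (hT : ∀ l ∈ T, l.Prime) (n : ℕ) :
    (∀ l ∈ T, l ∣ n) ↔ ∏ l ∈ T, l ∣ n := by
  constructor
  · intro h
    exact Finset.prod_primes_dvd n (fun l hl => (hT l hl).prime) h
  · intro h l hl
    exact (Finset.dvd_prod_of_mem (fun l => l) hl).trans h

lemma Tg_eq {B₀ w N p q m₁ X₁ X₂ D₁ D₂ g : ℕ} {Q : Finset ℕ} {fam : Finset (Finset ℕ)}
    (h : Maj B₀ w Q fam) (hX : p ≤ N * X₁) :
    Tg N p q m₁ X₁ X₂ D₁ D₂ g fam =
      ∑ T ∈ fam, (-1 : ℝ) ^ T.card * AA N p q m₁ X₁ X₂ D₁ D₂ g (∏ l ∈ T, l) := by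
  unfold Tg AA
  simp_rw [Finset.mul_sum]
  rw [Finset.sum_comm]
  refine Finset.sum_congr rfl fun b _ => ?_
  unfold th cnt
  simp_rw [Finset.mul_sum]
  rw [Finset.sum_comm]
  refine Finset.sum_congr rfl fun T hT => ?_
  have hp : ∀ l ∈ T, l.Prime := fun l hl => (h.hQ l (h.sub T hT hl)).1
  rw [Finset.card_filter, Nat.cast_sum, Finset.mul_sum, Finset.mul_sum, Finset.sum_filter]
  refine Finset.sum_congr rfl fun m hm => ?_
  have hm1 : p ≤ N * m := by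
    have := (Finset.mem_Ioc.1 hm).1
    calc p ≤ N * X₁ := hX
      _ ≤ N * m := Nat.mul_le_mul_left _ this.le
  have e1 : ((∏ l ∈ T, l : ℕ) : ℤ) ∣ (N : ℤ) * m - p ↔ ∀ l ∈ T, l ∣ N * m - p := by
    rw [prod_dvd_iff hp]
    have : ((N : ℤ) * m - p) = ((N * m - p : ℕ) : ℤ) := by
      push_cast [Nat.cast_sub hm1]
      ring
    rw [this, Int.natCast_dvd_natCast]
  by_cases h1 : m % q = m₁ % q ∧ g * b.1 * b.2 ∣ m
  · by_cases h2 : ∀ l ∈ T, l ∣ N * m - p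
    · rw [if_pos h1, if_pos h2, if_pos ⟨h1.1, h1.2, e1.2 h2⟩]
      push_cast
      ring
    · rw [if_pos h1, if_neg h2, if_neg (fun hh => h2 (e1.1 hh.2.2))]
      push_cast
      ring
  · rw [if_neg h1, if_neg (fun hh => h1 ⟨hh.1, hh.2.1⟩)]
    push_cast
    ring


lemma card_divisors_prod {T : Finset ℕ} (hT : ∀ l ∈ T, l.Prime) :
    (∏ l ∈ T, l).divisors.card = 2 ^ T.card := by
  classical
  induction T using Finset.induction_on with
  | empty => simp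
  | insert a s ha ih =>
    rw [Finset.prod_insert ha, Finset.card_insert_of_notMem ha]
    have hap : a.Prime := hT a (Finset.mem_insert_self _ _)
    have hs : ∀ l ∈ s, l.Prime := fun l hl => hT l (Finset.mem_insert_of_mem hl)
    have hc : Nat.Coprime a (∏ l ∈ s, l) := by
      refine Nat.Coprime.prod_right fun l hl => ?_
      rw [Nat.coprime_primes hap (hs l hl)]
      rintro rfl
      exact ha hl
    rw [hc.card_divisors_mul, ih hs, hap.divisors, Finset.card_pair hap.one_lt.ne, pow_succ]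
    ring

lemma squarefree_prod {T : Finset ℕ} (hT : ∀ l ∈ T, l.Prime) :
    Squarefree (∏ l ∈ T, l) := by
  classical
  induction T using Finset.induction_on with
  | empty => simp
  | insert a s ha ih =>
    rw [Finset.prod_insert ha]
    have hap : a.Prime := hT a (Finset.mem_insert_self _ _)
    have hs : ∀ l ∈ s, l.Prime := fun l hl => hT l (Finset.mem_insert_of_mem hl)
    have hc : Nat.Coprime a (∏ l ∈ s, l) := by
      refine Nat.Coprime.prod_right fun l hl => ?_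
      rw [Nat.coprime_primes hap (hs l hl)]
      rintro rfl
      exact ha hl
    rw [Nat.squarefree_mul hc]
    exact ⟨hap.prime.squarefree, ih hs⟩

lemma prod_inj {B₀ w : ℕ} {Q : Finset ℕ} {fam : Finset (Finset ℕ)} (h : Maj B₀ w Q fam) :
    (fam.card : ℝ) ≤ (w : ℝ) ^ B₀ := by
  have h1 : fam.card ≤ (Icc 1 (w ^ B₀)).card := by
    refine Finset.card_le_card_of_injOn (fun T => ∏ l ∈ T, l) ?_ ?_
    · intro T hT
      have hT' : T ∈ fam := hT
      simp only [Finset.coe_Icc, Set.mem_Icc]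
      refine ⟨Finset.one_le_prod' fun l hl => ?_, h.lev T hT'⟩
      exact (h.hQ l (h.sub T hT' hl)).1.one_lt.le
    · intro S hS T hT he
      have hS' : S ∈ fam := hS
      have hT' : T ∈ fam := hT
      have pS : ∀ l ∈ S, l.Prime := fun l hl => (h.hQ l (h.sub S hS' hl)).1
      have pT : ∀ l ∈ T, l.Prime := fun l hl => (h.hQ l (h.sub T hT' hl)).1
      have he' : ∏ l ∈ S, l = ∏ l ∈ T, l := he
      have a1 : (∏ l ∈ S, l).primeFactors = S := Nat.primeFactors_prod pS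
      have a2 : (∏ l ∈ T, l).primeFactors = T := Nat.primeFactors_prod pT
      rw [← a1, he', a2]
  rw [Nat.card_Icc, Nat.add_sub_cancel] at h1
  exact_mod_cast h1

lemma sum_fam {B₀ w : ℕ} {Q : Finset ℕ} {fam : Finset (Finset ℕ)} (h : Maj B₀ w Q fam)
    {C : ℝ} (hw : 3 ≤ w)
    (hMT : |∑ l ∈ (Icc 1 ⌊(w : ℝ)⌋₊).filter Nat.Prime, (1 : ℝ) / l - Real.log (Real.log w)| ≤ C) :
    ∑ T ∈ fam, (1 / ((∏ l ∈ T, l : ℕ) : ℝ)) * ((∏ l ∈ T, l).divisors.card : ℝ) ^ 2 ≤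
      Real.exp (4 * C) * Real.log w ^ 4 := by
  classical
  have hsub : fam ⊆ Q.powerset := fun T hT => Finset.mem_powerset.2 (h.sub T hT)
  have h1 : ∀ T ∈ fam, (1 / ((∏ l ∈ T, l : ℕ) : ℝ)) * ((∏ l ∈ T, l).divisors.card : ℝ) ^ 2 =
      ∏ l ∈ T, (4 / (l : ℝ)) := by
    intro T hT
    rw [card_divisors_prod (fun l hl => (h.hQ l (h.sub T hT hl)).1), Finset.prod_div_distrib,
      Finset.prod_const]
    push_cast
    rw [← pow_mul, mul_comm T.card 2, pow_mul]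
    norm_num
    ring
  have h2 : ∑ T ∈ fam, ∏ l ∈ T, (4 / (l : ℝ)) ≤ ∏ l ∈ Q, (1 + 4 / (l : ℝ)) := by
    rw [Finset.prod_one_add]
    exact Finset.sum_le_sum_of_subset_of_nonneg hsub fun T _ _ =>
      Finset.prod_nonneg fun l _ => by positivity
  have h3 : ∏ l ∈ Q, (1 + 4 / (l : ℝ)) ≤ Real.exp (∑ l ∈ Q, 4 / (l : ℝ)) := by
    rw [Real.exp_sum]
    refine Finset.prod_le_prod (fun l _ => by positivity) fun l _ => ?_
    have := Real.add_one_le_exp (4 / (l : ℝ))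
    linarith
  have h4 : ∑ l ∈ Q, 4 / (l : ℝ) ≤
      4 * ∑ l ∈ (Icc 1 ⌊(w : ℝ)⌋₊).filter Nat.Prime, (1 : ℝ) / l := by
    rw [Finset.mul_sum]
    have e : ∀ l ∈ Q, 4 / (l : ℝ) = 4 * (1 / (l : ℝ)) := fun l _ => by ring
    rw [Finset.sum_congr rfl e]
    refine Finset.sum_le_sum_of_subset_of_nonneg ?_ fun l _ _ => by positivity
    intro l hl
    obtain ⟨a, b, c⟩ := h.hQ l hl
    rw [Finset.mem_filter, Finset.mem_Icc, Nat.floor_natCast]
    exact ⟨⟨by omega, c⟩, a⟩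
  have h5 : ∑ l ∈ (Icc 1 ⌊(w : ℝ)⌋₊).filter Nat.Prime, (1 : ℝ) / l ≤
      Real.log (Real.log w) + C := by
    have := (abs_le.1 hMT).2
    linarith
  have hlw : 0 < Real.log w := Real.log_pos (by exact_mod_cast (by omega : 1 < w))
  rw [Finset.sum_congr rfl h1]
  refine h2.trans (h3.trans ?_)
  have h6 : ∑ l ∈ Q, 4 / (l : ℝ) ≤ 4 * C + 4 * Real.log (Real.log w) := by linarith
  refine (Real.exp_le_exp.2 h6).trans ?_
  rw [Real.exp_add]
  refine mul_le_mul_of_nonneg_left ?_ (Real.exp_pos _).le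
  have : 4 * Real.log (Real.log w) = ((4 : ℕ) : ℝ) * Real.log (Real.log w) := by norm_num
  rw [this, Real.exp_nat_mul, Real.exp_log hlw]

lemma asym (p : ℝ) (K : ℝ) (hK : 0 < K) (e : ℝ) (he : 0 < e) : ∃ x₀ : ℝ, ∀ x : ℝ, x₀ ≤ x →
    3 ≤ x ^ e ∧ 3 ≤ x ∧ 1 ≤ Real.log x ∧ p ≤ x ^ (1 / 200 : ℝ) ∧
    Real.log x ≤ (1 / 40) * x ^ (19 / 200 : ℝ) ∧
    K * Real.log x ^ 5 * 8 ≤ √(YY x) ∧ 8 ≤ Real.log x ^ (0.01 : ℝ) := by
  have t1 : Tendsto (fun x : ℝ => x ^ e) atTop atTop := tendsto_rpow_atTop he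
  have t2 : Tendsto (fun x : ℝ => x ^ (1 / 200 : ℝ)) atTop atTop := tendsto_rpow_atTop (by norm_num)
  have t3 := (isLittleO_log_rpow_atTop (r := 19 / 200) (by norm_num)).bound
    (show (0 : ℝ) < 1 / 40 by norm_num)
  have t4 : Tendsto (fun x : ℝ => Real.log x ^ (0.01 : ℝ)) atTop atTop :=
    (tendsto_rpow_atTop (by norm_num)).comp Real.tendsto_log_atTop
  have t5 : Tendsto (fun x : ℝ => Real.log x ^ (0.02 : ℝ)) atTop atTop :=
    (tendsto_rpow_atTop (by norm_num)).comp Real.tendsto_log_atTop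
  have t6 := (tendsto_rpow_mul_exp_neg_mul_atTop_nhds_zero 250 (1 / 2) (by norm_num)).comp t5
  have t7 : ∀ᶠ x : ℝ in atTop, (Real.log x ^ (0.02 : ℝ)) ^ (250 : ℝ) *
      Real.exp (-(1 / 2) * Real.log x ^ (0.02 : ℝ)) < 1 / (8 * K) :=
    t6.eventually_lt_const (by positivity)
  have t8 : ∀ᶠ x : ℝ in atTop, 1 ≤ Real.log x := Real.tendsto_log_atTop.eventually_ge_atTop 1
  have : ∀ᶠ x : ℝ in atTop, 3 ≤ x ^ e ∧ 3 ≤ x ∧ 1 ≤ Real.log x ∧ p ≤ x ^ (1 / 200 : ℝ) ∧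
    Real.log x ≤ (1 / 40) * x ^ (19 / 200 : ℝ) ∧
    K * Real.log x ^ 5 * 8 ≤ √(YY x) ∧ 8 ≤ Real.log x ^ (0.01 : ℝ) := by
    filter_upwards [t1.eventually_ge_atTop 3, t2.eventually_ge_atTop p, t3,
      t4.eventually_ge_atTop 8, t7, t8, eventually_ge_atTop (3 : ℝ)] with x a1 a2 a3 a4 a5 a6 a7
    refine ⟨a1, a7, a6, a2, ?_, ?_, a4⟩
    · rw [Real.norm_eq_abs, Real.norm_eq_abs, abs_of_nonneg (by linarith),
        abs_of_nonneg (by positivity)] at a3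
      exact a3
    · have e1 : (Real.log x ^ (0.02 : ℝ)) ^ (250 : ℝ) = Real.log x ^ 5 := by
        rw [← Real.rpow_mul (by linarith)]
        norm_num
      rw [e1] at a5
      have e2 : √(YY x) = Real.exp (1 / 2 * Real.log x ^ (0.02 : ℝ)) := by
        unfold YY
        rw [← Real.exp_half]
        congr 1
        ring
      rw [e2]
      have e3 : Real.exp (-(1 / 2) * Real.log x ^ (0.02 : ℝ)) =
          (Real.exp (1 / 2 * Real.log x ^ (0.02 : ℝ)))⁻¹ := by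
        rw [← Real.exp_neg]
        congr 1
        ring
      rw [e3, ← div_eq_mul_inv, div_lt_div_iff₀ (Real.exp_pos _) (by positivity)] at a5
      linarith
  obtain ⟨x₀, hx₀⟩ := Filter.eventually_atTop.1 this
  exact ⟨x₀, fun x hx => hx₀ x hx⟩

end hSM

open hSM in
/-- SM: second moment in the mid range -/
theorem hSM (hMJ : StMJ) (hR1 : StR1) (hR2a : StR2a) (hR2b : StR2b) (hR3 : StR3)
    (hMT : StMT) : StSM := by
  classical
  obtain ⟨B₀, hB₀, hMJ⟩ := hMJ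
  obtain ⟨C, hC, hMT⟩ := hMT
  intro N p q m₁ hH B
  obtain ⟨x1, h1⟩ := hR1 N p q m₁ B₀ hH B
  obtain ⟨x2, h2⟩ := hR2a N p q m₁ hH B
  obtain ⟨x3, h3⟩ := hR2b N p q m₁ hH B
  obtain ⟨x4, h4⟩ := hR3 N p q m₁ B₀ hH B
  obtain ⟨x5, h5⟩ := asym p (2 * Real.exp (4 * C)) (by positivity) (1 / (200 * (B₀ + 1)))
    (by positivity)
  refine ⟨max x1 (max x2 (max x3 (max x4 x5))), fun x hx => ?_⟩
  simp only [max_le_iff] at hx
  obtain ⟨hx1, hx2, hx3, hx4, hx5⟩ := hx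
  obtain ⟨a1, a2, a3, a4, a5, a6, a7⟩ := h5 x hx5
  intro X₁ X₂ D₂ hpX hX hX2 hD2
  have hx0 : (0 : ℝ) < x := by linarith
  set w : ℕ := ⌊x ^ (1 / (200 * ((B₀ : ℝ) + 1)))⌋₊ with hw
  set Q : Finset ℕ := (Ioc 3 w).filter (fun l => l.Prime ∧ ¬ l ∣ N * q) with hQ
  have hw3 : 3 ≤ w := Nat.le_floor (by exact_mod_cast a1)
  have hwle : (w : ℝ) ≤ x ^ (1 / (200 * ((B₀ : ℝ) + 1))) := Nat.floor_le (by positivity)
  have hw2 : x ^ (1 / (200 * ((B₀ : ℝ) + 1))) ≤ 2 * w := by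
    have := Nat.lt_floor_add_one (x ^ (1 / (200 * ((B₀ : ℝ) + 1))))
    rw [← hw] at this
    have h3' : (3 : ℝ) ≤ w := by exact_mod_cast hw3
    linarith
  have hwB : (w : ℝ) ^ (B₀ + 1) ≤ x ^ (1 / 200 : ℝ) := by
    calc (w : ℝ) ^ (B₀ + 1) ≤ (x ^ (1 / (200 * ((B₀ : ℝ) + 1)))) ^ (B₀ + 1) :=
          pow_le_pow_left₀ (by positivity) hwle _
      _ = x ^ (1 / 200 : ℝ) := by
        rw [← Real.rpow_natCast, ← Real.rpow_mul hx0.le]
        congr 1
        push_cast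
        field_simp
  have hw1 : (1 : ℝ) ≤ w := by exact_mod_cast (by omega : 1 ≤ w)
  have hwB0 : (w : ℝ) ^ B₀ ≤ x ^ (1 / 200 : ℝ) :=
    (pow_le_pow_right₀ hw1 (Nat.le_succ _)).trans hwB
  have hwx : (w : ℝ) ≤ x ^ (1 / 200 : ℝ) := by
    refine le_trans ?_ hwB
    calc (w : ℝ) = (w : ℝ) ^ 1 := (pow_one _).symm
      _ ≤ (w : ℝ) ^ (B₀ + 1) := pow_le_pow_right₀ hw1 (by omega)
  obtain ⟨fam, hM⟩ := hMJ w Q (by omega) (by
    intro l hl
    rw [hQ, Finset.mem_filter, Finset.mem_Ioc] at hl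
    exact ⟨hl.2.1, hl.1.1, hl.1.2⟩)
  have r1 := h1 x hx1 X₁ X₂ D₂ w Q fam hpX hX hX2 hD2 hM hQ hw2 hwB
  have r4 := h4 x hx4 X₁ X₂ D₂ w Q fam hpX hX hX2 hD2 hM hQ hw2 hwB
  set D₁ : ℕ := DD x B with hD₁
  have hYY1 : 1 ≤ YY x := by
    unfold YY
    exact Real.one_le_exp (by positivity)
  -- first step: passing to the majorant
  have s1 : ∑ m ∈ (Ioc X₁ X₂).filter (fun m => m % q = m₁ % q ∧ (N * m - p).Prime),
      (∑ d ∈ (Ioc D₁ D₂).filter (fun d => d ∣ m), c4 d) ^ 2 ≤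
      ((w : ℝ) + p) ^ 3 + ∑ m ∈ (Ioc X₁ X₂).filter (fun m => m % q = m₁ % q),
      th fam (N * m - p) * (∑ d ∈ (Ioc D₁ D₂).filter (fun d => d ∣ m), c4 d) ^ 2 := by
    set F := (Ioc X₁ X₂).filter (fun m => m % q = m₁ % q ∧ (N * m - p).Prime) with hF
    rw [← Finset.sum_filter_add_sum_filter_not F (fun m => N * m - p ≤ w)]
    refine add_le_add ?_ ?_
    · have b1 : ∀ m ∈ F.filter (fun m => N * m - p ≤ w), m ∈ Icc 1 (w + p) := by
        intro m hm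
        rw [Finset.mem_filter, hF, Finset.mem_filter, Finset.mem_Ioc] at hm
        obtain ⟨⟨⟨c1, c2⟩, c3, c4'⟩, c5⟩ := hm
        have : m ≤ N * m := Nat.le_mul_of_pos_left m hH.hN
        rw [Finset.mem_Icc]
        constructor
        · omega
        · omega
      have b2 : ∀ m ∈ F.filter (fun m => N * m - p ≤ w),
          (∑ d ∈ (Ioc D₁ D₂).filter (fun d => d ∣ m), c4 d) ^ 2 ≤ ((w : ℝ) + p) ^ 2 := by
        intro m hm
        have hm' := Finset.mem_Icc.1 (b1 m hm)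
        have c1 : |∑ d ∈ (Ioc D₁ D₂).filter (fun d => d ∣ m), c4 d| ≤ (w : ℝ) + p := by
          calc |∑ d ∈ (Ioc D₁ D₂).filter (fun d => d ∣ m), c4 d|
              ≤ ∑ d ∈ (Ioc D₁ D₂).filter (fun d => d ∣ m), |c4 d| := Finset.abs_sum_le_sum_abs _ _
            _ ≤ ∑ d ∈ (Ioc D₁ D₂).filter (fun d => d ∣ m), (1 : ℝ) :=
              Finset.sum_le_sum fun d _ => c4_abs d
            _ = (((Ioc D₁ D₂).filter (fun d => d ∣ m)).card : ℝ) := by simp
            _ ≤ (m : ℝ) := by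
              have : ((Ioc D₁ D₂).filter (fun d => d ∣ m)).card ≤ (Icc 1 m).card := by
                refine Finset.card_le_card fun d hd => ?_
                rw [Finset.mem_filter, Finset.mem_Ioc] at hd
                rw [Finset.mem_Icc]
                exact ⟨by omega, Nat.le_of_dvd (by omega) hd.2⟩
              rw [Nat.card_Icc, Nat.add_sub_cancel] at this
              exact_mod_cast this
            _ ≤ (w : ℝ) + p := by exact_mod_cast hm'.2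
        rw [← sq_abs]
        exact pow_le_pow_left₀ (abs_nonneg _) c1 2
      calc _ ≤ ∑ m ∈ F.filter (fun m => N * m - p ≤ w), ((w : ℝ) + p) ^ 2 :=
            Finset.sum_le_sum b2
        _ ≤ ∑ m ∈ Icc 1 (w + p), ((w : ℝ) + p) ^ 2 :=
            Finset.sum_le_sum_of_subset_of_nonneg b1 fun _ _ _ => by positivity
        _ = ((w : ℝ) + p) ^ 3 := by
            rw [Finset.sum_const, Nat.card_Icc, Nat.add_sub_cancel, nsmul_eq_mul]
            push_cast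
            ring
    · calc _ ≤ ∑ m ∈ F.filter (fun m => ¬ N * m - p ≤ w), th fam (N * m - p) *
            (∑ d ∈ (Ioc D₁ D₂).filter (fun d => d ∣ m), c4 d) ^ 2 := by
            refine Finset.sum_le_sum fun m hm => ?_
            rw [Finset.mem_filter, hF, Finset.mem_filter] at hm
            have := th_ge_one hM (N * m - p) hm.1.2.2 (by omega)
            have h0 : 0 ≤ (∑ d ∈ (Ioc D₁ D₂).filter (fun d => d ∣ m), c4 d) ^ 2 := sq_nonneg _
            nlinarith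
        _ ≤ _ := by
            refine Finset.sum_le_sum_of_subset_of_nonneg ?_ fun m _ _ =>
              mul_nonneg (th_nonneg hM _) (sq_nonneg _)
            intro m hm
            rw [Finset.mem_filter, hF, Finset.mem_filter] at hm
            rw [Finset.mem_filter]
            exact ⟨hm.1.1, hm.1.2.1⟩
  rw [expand] at s1
  -- second step: splitting the sum over `g`
  set G : ℕ → ℝ := fun g => ∑ T ∈ fam, |AA N p q m₁ X₁ X₂ D₁ D₂ g (∏ l ∈ T, l)| with hG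
  have hG0 : ∀ g, 0 ≤ G g := fun g => Finset.sum_nonneg fun _ _ => abs_nonneg _
  have hTG : ∀ g, Tg N p q m₁ X₁ X₂ D₁ D₂ g fam ≤ G g := by
    intro g
    rw [Tg_eq hM hpX]
    refine Finset.sum_le_sum fun T _ => ?_
    refine (le_abs_self _).trans ?_
    rw [abs_mul, abs_pow, abs_neg, abs_one, one_pow, one_mul]
  set Sa := (Icc 1 D₁).filter (fun g : ℕ => x ^ (1 / 4 : ℝ) < g ∧ (g : ℝ) * YY x ≤ D₁) with hSa
  set Sb := (Icc 1 D₁).filter (fun g : ℕ => YY x < g ∧ (g : ℝ) ≤ x ^ (1 / 4 : ℝ)) with hSb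
  have s2 : ∑ g ∈ Icc 1 D₂, Tg N p q m₁ X₁ X₂ D₁ D₂ g fam ≤
      ∑ g ∈ (Icc 1 D₂).filter (fun g : ℕ => (g : ℝ) ≤ YY x),
        Abs N p q m₁ X₁ X₂ D₁ D₂ g fam +
      ∑ g ∈ (Icc 1 D₂).filter (fun g : ℕ => (D₁ : ℝ) < g * YY x),
        Abs N p q m₁ X₁ X₂ D₁ D₂ g fam + ∑ g ∈ Sa, G g + ∑ g ∈ Sb, G g := by
    have key : ∀ g ∈ Icc 1 D₂, Tg N p q m₁ X₁ X₂ D₁ D₂ g fam ≤
        (if (g : ℝ) ≤ YY x then Abs N p q m₁ X₁ X₂ D₁ D₂ g fam else 0) +
        (if (D₁ : ℝ) < g * YY x then Abs N p q m₁ X₁ X₂ D₁ D₂ g fam else 0) +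
        (if g ∈ Sa then G g else 0) + (if g ∈ Sb then G g else 0) := by
      intro g hg
      have hg1 := (Finset.mem_Icc.1 hg).1
      have n1 : 0 ≤ (if (g : ℝ) ≤ YY x then Abs N p q m₁ X₁ X₂ D₁ D₂ g fam else 0) := by
        split_ifs
        · exact Abs_nonneg hM
        · exact le_rfl
      have n2 : 0 ≤ (if (D₁ : ℝ) < g * YY x then Abs N p q m₁ X₁ X₂ D₁ D₂ g fam else 0) := by
        split_ifs
        · exact Abs_nonneg hM
        · exact le_rfl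
      have n3 : 0 ≤ (if g ∈ Sa then G g else 0) := by
        split_ifs
        · exact hG0 g
        · exact le_rfl
      have n4 : 0 ≤ (if g ∈ Sb then G g else 0) := by
        split_ifs
        · exact hG0 g
        · exact le_rfl
      by_cases c1 : (g : ℝ) ≤ YY x
      · have := Tg_le_Abs (N := N) (p := p) (q := q) (m₁ := m₁) (X₁ := X₁) (X₂ := X₂)
          (D₁ := D₁) (D₂ := D₂) (g := g) hM
        rw [if_pos c1]
        linarith
      · by_cases c2 : (D₁ : ℝ) < g * YY x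
        · have := Tg_le_Abs (N := N) (p := p) (q := q) (m₁ := m₁) (X₁ := X₁) (X₂ := X₂)
            (D₁ := D₁) (D₂ := D₂) (g := g) hM
          rw [if_pos c2]
          linarith
        · have c3 : (g : ℝ) ≤ D₁ := by
            have h0 : (0 : ℝ) ≤ g := by positivity
            have : (g : ℝ) * 1 ≤ g * YY x := mul_le_mul_of_nonneg_left hYY1 h0
            linarith [not_lt.1 c2]
          have c3' : g ≤ D₁ := by exact_mod_cast c3
          have := hTG g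
          by_cases c4 : x ^ (1 / 4 : ℝ) < g
          · have c5 : g ∈ Sa := by
              rw [hSa, Finset.mem_filter, Finset.mem_Icc]
              exact ⟨⟨hg1, c3'⟩, c4, not_lt.1 c2⟩
            rw [if_pos c5]
            linarith
          · have c5 : g ∈ Sb := by
              rw [hSb, Finset.mem_filter, Finset.mem_Icc]
              exact ⟨⟨hg1, c3'⟩, not_le.1 c1, not_lt.1 c4⟩
            rw [if_pos c5]
            linarith
    refine (Finset.sum_le_sum key).trans ?_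
    rw [Finset.sum_add_distrib, Finset.sum_add_distrib, Finset.sum_add_distrib,
      ← Finset.sum_filter, ← Finset.sum_filter, ← Finset.sum_filter, ← Finset.sum_filter]
    refine add_le_add (add_le_add le_rfl ?_) ?_
    · refine Finset.sum_le_sum_of_subset_of_nonneg ?_ fun g _ _ => hG0 g
      intro g hg
      exact (Finset.mem_filter.1 hg).2
    · refine Finset.sum_le_sum_of_subset_of_nonneg ?_ fun g _ _ => hG0 g
      intro g hg
      exact (Finset.mem_filter.1 hg).2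
  -- third step: the oscillating parts
  have hTprop : ∀ T ∈ fam, Squarefree (∏ l ∈ T, l) ∧ Nat.Coprime (∏ l ∈ T, l) (N * q) ∧
      ((∏ l ∈ T, l : ℕ) : ℝ) ≤ x ^ (1 / 100 : ℝ) := by
    intro T hT
    have pT : ∀ l ∈ T, l.Prime := fun l hl => (hM.hQ l (hM.sub T hT hl)).1
    refine ⟨squarefree_prod pT, Nat.Coprime.prod_left fun l hl => ?_, ?_⟩
    · have h1 := hM.sub T hT hl
      rw [hQ, Finset.mem_filter] at h1
      exact (Nat.Prime.coprime_iff_not_dvd h1.2.1).2 h1.2.2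
    · calc ((∏ l ∈ T, l : ℕ) : ℝ) ≤ ((w ^ B₀ : ℕ) : ℝ) := by exact_mod_cast hM.lev T hT
        _ = (w : ℝ) ^ B₀ := by push_cast; ring
        _ ≤ x ^ (1 / 200 : ℝ) := hwB0
        _ ≤ x ^ (1 / 100 : ℝ) := Real.rpow_le_rpow_of_exponent_le (by linarith) (by norm_num)
  have hbd : ∀ S : Finset ℕ, (∀ T ∈ fam, ∑ g ∈ S, |AA N p q m₁ X₁ X₂ D₁ D₂ g (∏ l ∈ T, l)| ≤
      x / ((∏ l ∈ T, l : ℕ) : ℝ) * ((∏ l ∈ T, l).divisors.card : ℝ) ^ 2 / √(YY x) +
        x ^ (9 / 10 : ℝ)) →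
      ∑ g ∈ S, G g ≤ x / √(YY x) * (Real.exp (4 * C) * Real.log x ^ 4) +
        x ^ (1 / 200 : ℝ) * x ^ (9 / 10 : ℝ) := by
    intro S hS
    rw [hG, Finset.sum_comm]
    refine (Finset.sum_le_sum hS).trans ?_
    rw [Finset.sum_add_distrib, Finset.sum_const, nsmul_eq_mul]
    refine add_le_add ?_ ?_
    · have e1 : ∀ T ∈ fam, x / ((∏ l ∈ T, l : ℕ) : ℝ) * ((∏ l ∈ T, l).divisors.card : ℝ) ^ 2 /
          √(YY x) = x / √(YY x) *
          ((1 / ((∏ l ∈ T, l : ℕ) : ℝ)) * ((∏ l ∈ T, l).divisors.card : ℝ) ^ 2) := by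
        intro T _
        ring
      rw [Finset.sum_congr rfl e1, ← Finset.mul_sum]
      refine mul_le_mul_of_nonneg_left ?_ (by positivity)
      have hm := sum_fam hM (C := C) hw3 (by
        have := hMT w (by exact_mod_cast hw3)
        exact this)
      refine hm.trans ?_
      refine mul_le_mul_of_nonneg_left ?_ (Real.exp_pos _).le
      have hwx' : (w : ℝ) ≤ x := by
        refine hwx.trans ?_
        calc x ^ (1 / 200 : ℝ) ≤ x ^ (1 : ℝ) :=
              Real.rpow_le_rpow_of_exponent_le (by linarith) (by norm_num)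
          _ = x := Real.rpow_one x
      have hlw : 0 ≤ Real.log w := Real.log_nonneg hw1
      exact pow_le_pow_left₀ hlw (Real.log_le_log (by linarith) hwx') 4
    · refine mul_le_mul_of_nonneg_right ?_ (by positivity)
      exact (prod_inj hM).trans hwB0
  have s3 := hbd Sa fun T hT => h2 x hx2 X₁ X₂ D₂ (∏ l ∈ T, l) hX hX2 hD2
    (hTprop T hT).1 (hTprop T hT).2.1 (hTprop T hT).2.2
  have s4 := hbd Sb fun T hT => h3 x hx3 X₁ X₂ D₂ (∏ l ∈ T, l) hX hX2 hD2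
    (hTprop T hT).1 (hTprop T hT).2.1 (hTprop T hT).2.2
  -- final estimate
  have hL1 : 1 ≤ Real.log x := a3
  have hL0 : 0 < Real.log x := by linarith
  have hy0 : 0 < √(YY x) := Real.sqrt_pos.2 (by linarith)
  have e1 : x ^ (1 / 200 : ℝ) * x ^ (9 / 10 : ℝ) = x ^ (181 / 200 : ℝ) := by
    rw [← Real.rpow_add hx0]
    norm_num
  have e2 : ((w : ℝ) + p) ^ 3 ≤ 8 * x ^ (181 / 200 : ℝ) := by
    calc ((w : ℝ) + p) ^ 3 ≤ (2 * x ^ (1 / 200 : ℝ)) ^ 3 :=
          pow_le_pow_left₀ (by positivity) (by linarith) 3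
      _ = 8 * (x ^ (1 / 200 : ℝ)) ^ 3 := by ring
      _ = 8 * x ^ (3 / 200 : ℝ) := by
          rw [← Real.rpow_natCast, ← Real.rpow_mul hx0.le]
          norm_num
      _ ≤ 8 * x ^ (181 / 200 : ℝ) := by
          have := Real.rpow_le_rpow_of_exponent_le (x := x) (by linarith)
            (show (3 / 200 : ℝ) ≤ 181 / 200 by norm_num)
          linarith
  have e3 : x ^ (181 / 200 : ℝ) * Real.log x ≤ 1 / 40 * x := by
    calc x ^ (181 / 200 : ℝ) * Real.log x ≤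
          x ^ (181 / 200 : ℝ) * ((1 / 40) * x ^ (19 / 200 : ℝ)) :=
          mul_le_mul_of_nonneg_left a5 (by positivity)
      _ = 1 / 40 * (x ^ (181 / 200 : ℝ) * x ^ (19 / 200 : ℝ)) := by ring
      _ = 1 / 40 * x := by
          rw [← Real.rpow_add hx0]
          norm_num
  have e4 : x ^ (181 / 200 : ℝ) ≤ 1 / 40 * (x / Real.log x) := by
    rw [mul_div_assoc', le_div_iff₀ hL0]
    exact e3
  have e5 : x / √(YY x) * (Real.exp (4 * C) * Real.log x ^ 4) ≤ 1 / 16 * (x / Real.log x) := by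
    have : Real.exp (4 * C) * Real.log x ^ 5 * 16 ≤ √(YY x) := by linarith
    rw [div_mul_eq_mul_div, mul_div_assoc', div_le_div_iff₀ hy0 hL0]
    calc x * (Real.exp (4 * C) * Real.log x ^ 4) * Real.log x =
          1 / 16 * x * (Real.exp (4 * C) * Real.log x ^ 5 * 16) := by ring
      _ ≤ 1 / 16 * x * √(YY x) := mul_le_mul_of_nonneg_left this (by positivity)
  have e6 : x / Real.log x ≤ x / Real.log x ^ (0.92 : ℝ) := by
    refine div_le_div_of_nonneg_left hx0.le (by positivity) ?_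
    calc Real.log x ^ (0.92 : ℝ) ≤ Real.log x ^ (1 : ℝ) :=
          Real.rpow_le_rpow_of_exponent_le hL1 (by norm_num)
      _ = Real.log x := Real.rpow_one _
  have e7 : x / Real.log x ^ (0.93 : ℝ) ≤ 1 / 8 * (x / Real.log x ^ (0.92 : ℝ)) := by
    have h93 : Real.log x ^ (0.93 : ℝ) = Real.log x ^ (0.92 : ℝ) * Real.log x ^ (0.01 : ℝ) := by
      rw [← Real.rpow_add hL0]
      norm_num
    have hp1 : 0 < Real.log x ^ (0.92 : ℝ) := by positivity
    rw [h93, mul_div_assoc', div_le_div_iff₀ (by positivity) hp1]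
    have : x * Real.log x ^ (0.92 : ℝ) * 8 ≤
        x * Real.log x ^ (0.92 : ℝ) * Real.log x ^ (0.01 : ℝ) :=
      mul_le_mul_of_nonneg_left a7 (by positivity)
    nlinarith
  have hfin : 0 ≤ x / Real.log x ^ (0.92 : ℝ) := by positivity
  rw [e1] at s3 s4
  calc _ ≤ ((w : ℝ) + p) ^ 3 + ∑ g ∈ Icc 1 D₂, Tg N p q m₁ X₁ X₂ D₁ D₂ g fam := s1
    _ ≤ x / Real.log x ^ (0.92 : ℝ) := by linarith

end Pool.Agent.Helper15.AB
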