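import Mathlib
import Pool.Agent.Helper15.AB.StMid
import Pool.Agent.Helper18.TR.Final

/-!
# AB module SU: weighted sieve for shifted primes in an interval
-/

set_option autoImplicit false

namespace Pool.Agent.Helper15.AB

open Finset ArithmeticFunction Filter Topology

/-- one residue class in an interval -/
theorem cntAP_SU (E H M a : ℕ) (hM : 1 ≤ M) :
    |(((Ioc E (E + H)).filter (fun e => e % M = a % M)).card : ℝ) - (H : ℝ) / M| ≤ 1 := by
  have h1 := Nat.Ioc_filter_modEq_card E (E + H) (r := M) (by omega) a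
  have h2 : (Ioc E (E + H)).filter (fun e => e % M = a % M) =
      (Ioc E (E + H)).filter (fun e => e ≡ a [MOD M]) := rfl
  rw [h2]
  set c : ℤ := ((((Ioc E (E + H)).filter (fun e => e ≡ a [MOD M])).card : ℕ) : ℤ) with hc
  have hM0 : (0 : ℚ) < M := by exact_mod_cast hM
  set u : ℚ := (((E + H : ℕ) : ℚ) - a) / M with hu
  set v : ℚ := ((E : ℚ) - a) / M with hv
  have huv : u = v + (H : ℚ) / M := by
    rw [hu, hv]; push_cast; ring
  have hHM : (0 : ℚ) ≤ (H : ℚ) / M := by positivity
  have h3 : ⌊v⌋ ≤ ⌊u⌋ := Int.floor_le_floor (by rw [huv]; linarith)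
  have h4 : c = ⌊u⌋ - ⌊v⌋ := by
    rw [h1]
    exact max_eq_left (by linarith)
  have h5 := Int.floor_le u
  have h6 := Int.lt_floor_add_one u
  have h7 := Int.floor_le v
  have h8 := Int.lt_floor_add_one v
  have h9 : |(c : ℚ) - (H : ℚ) / M| ≤ 1 := by
    rw [h4, abs_le]
    push_cast
    constructor <;> linarith
  have h10 : (((|(c : ℚ) - (H : ℚ) / M| : ℚ)) : ℝ) ≤ ((1 : ℚ) : ℝ) := by exact_mod_cast h9
  rw [hc] at h10
  push_cast at h10
  exact h10

/-- several residue conditions in an interval -/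
theorem cntT_SU (E H : ℕ) (S : ℕ → Finset ℕ) (T : Finset ℕ) :
    (∀ l ∈ T, l.Prime ∧ ∀ s ∈ S l, s < l) →
    ∀ M a : ℕ, 1 ≤ M → (∀ l ∈ T, Nat.Coprime l M) →
    |(((Ioc E (E + H)).filter (fun e => e % M = a % M ∧ ∀ l ∈ T, e % l ∈ S l)).card : ℝ) -
      (H : ℝ) / M * ∏ l ∈ T, ((S l).card : ℝ) / l| ≤ ∏ l ∈ T, ((S l).card : ℝ) := by
  induction T using Finset.induction_on with
  | empty =>
    intro _ M a hM _
    simpa using cntAP_SU E H M a hM
  | insert l T hl ih =>
    intro hT M a hM hco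
    have hlp := (hT l (mem_insert_self l T)).1
    have hls := (hT l (mem_insert_self l T)).2
    have hT' : ∀ l' ∈ T, l'.Prime ∧ ∀ s ∈ S l', s < l' := fun l' h => hT l' (mem_insert_of_mem h)
    have hcl : Nat.Coprime M l := (hco l (mem_insert_self l T)).symm
    have hcoT : ∀ l' ∈ T, Nat.Coprime l' (M * l) := by
      intro l' h
      refine Nat.Coprime.mul_right (hco l' (mem_insert_of_mem h)) ?_
      rw [Nat.coprime_primes (hT' l' h).1 hlp]
      rintro rfl
      exact hl h
    have hdec : ((Ioc E (E + H)).filter (fun e => e % M = a % M ∧ ∀ l' ∈ insert l T,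
        e % l' ∈ S l')).card = ∑ b ∈ S l, ((Ioc E (E + H)).filter (fun e =>
          e % (M * l) = (Nat.chineseRemainder hcl a b : ℕ) % (M * l) ∧
            ∀ l' ∈ T, e % l' ∈ S l')).card := by
      rw [← Finset.card_biUnion]
      · congr 1
        ext e
        simp only [mem_filter, mem_biUnion, mem_insert, forall_eq_or_imp]
        constructor
        · rintro ⟨he, h1, h2, h3⟩
          refine ⟨e % l, h2, he, ?_, h3⟩
          have hc := (Nat.chineseRemainder hcl a (e % l)).2
          have h4 : e ≡ (Nat.chineseRemainder hcl a (e % l) : ℕ) [MOD M * l] := by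
            rw [← Nat.modEq_and_modEq_iff_modEq_mul hcl]
            refine ⟨?_, ?_⟩
            · exact Nat.ModEq.trans h1 hc.1.symm
            · exact Nat.ModEq.trans (Nat.mod_modEq e l).symm hc.2.symm
          exact h4
        · rintro ⟨b, hb, he, h1, h3⟩
          have hc := (Nat.chineseRemainder hcl a b).2
          have h4 : e ≡ (Nat.chineseRemainder hcl a b : ℕ) [MOD M * l] := h1
          rw [← Nat.modEq_and_modEq_iff_modEq_mul hcl] at h4
          refine ⟨he, Nat.ModEq.trans h4.1 hc.1, ?_, h3⟩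
          have h5 : e % l = b % l := Nat.ModEq.trans h4.2 hc.2
          rw [h5, Nat.mod_eq_of_lt (hls b hb)]
          exact hb
      · intro b hb b' hb' hne
        rw [Function.onFun, Finset.disjoint_left]
        intro e he he'
        rw [mem_filter] at he he'
        have hc := (Nat.chineseRemainder hcl a b).2
        have hc' := (Nat.chineseRemainder hcl a b').2
        have h4 : e ≡ (Nat.chineseRemainder hcl a b : ℕ) [MOD M * l] := he.2.1
        have h4' : e ≡ (Nat.chineseRemainder hcl a b' : ℕ) [MOD M * l] := he'.2.1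
        rw [← Nat.modEq_and_modEq_iff_modEq_mul hcl] at h4 h4'
        apply hne
        have h5 : b % l = b' % l :=
          (Nat.ModEq.trans h4.2 hc.2).symm.trans (Nat.ModEq.trans h4'.2 hc'.2)
        rwa [Nat.mod_eq_of_lt (hls b hb), Nat.mod_eq_of_lt (hls b' hb')] at h5
    rw [hdec, prod_insert hl, prod_insert hl]
    have hM' : 1 ≤ M * l := Nat.mul_pos hM hlp.pos
    have hlpos : (0 : ℝ) < l := by exact_mod_cast hlp.pos
    have hMpos : (0 : ℝ) < M := by exact_mod_cast hM
    have hsum : (H : ℝ) / M * (((S l).card : ℝ) / l * ∏ l' ∈ T, ((S l').card : ℝ) / l') =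
        ∑ b ∈ S l, (H : ℝ) / ((M * l : ℕ) : ℝ) * ∏ l' ∈ T, ((S l').card : ℝ) / l' := by
      rw [sum_const, nsmul_eq_mul]
      push_cast
      field_simp
    rw [hsum]
    push_cast
    rw [← sum_sub_distrib]
    refine (abs_sum_le_sum_abs _ _).trans ?_
    calc _ ≤ ∑ b ∈ S l, ∏ l' ∈ T, ((S l').card : ℝ) := by
          refine sum_le_sum fun b _ => ?_
          have h := ih hT' (M * l) (Nat.chineseRemainder hcl a b : ℕ) hM' hcoT
          push_cast at h
          exact h
      _ = _ := by rw [sum_const, nsmul_eq_mul]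

/-- the residue classes removed at `l` -/
noncomputable def Sl_SU (N p d : ℕ) (A : Finset ℕ) (l : ℕ) : Finset ℕ :=
  (if l ∈ A then {0} else ∅) ∪
    (if l ∣ N * d then ∅ else {((p : ZMod l) * ((N * d : ℕ) : ZMod l)⁻¹).val})

theorem Sl_lt_SU {N p d : ℕ} {A : Finset ℕ} {l : ℕ} (hl : l.Prime) :
    ∀ s ∈ Sl_SU N p d A l, s < l := by
  intro s hs
  have : NeZero l := ⟨hl.ne_zero⟩
  unfold Sl_SU at hs
  rw [mem_union] at hs
  rcases hs with hs | hs
  · split_ifs at hs with h
    · rw [mem_singleton] at hs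
      rw [hs]; exact hl.pos
    · simp at hs
  · split_ifs at hs with h
    · simp at hs
    · rw [mem_singleton] at hs
      rw [hs]; exact ZMod.val_lt _

theorem Sl_card_le_SU (N p d : ℕ) (A : Finset ℕ) (l : ℕ) : (Sl_SU N p d A l).card ≤ 2 := by
  unfold Sl_SU
  refine (card_union_le _ _).trans ?_
  split_ifs <;> simp

/-- density bound at `l` -/
theorem Sl_dens_SU {N p d : ℕ} {A : Finset ℕ} {l : ℕ} (hl : l.Prime) (hp : p.Prime) (h5 : 5 ≤ l) :
    1 - ((Sl_SU N p d A l).card : ℝ) / l ≤ (if l = p then 2 else 1) *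
      ((if l ∈ A then (1 - 1 / (l : ℝ)) else 1) * (if l ∣ N * d then 1 else (1 - 1 / (l : ℝ)))) := by
  have hl5 : (5 : ℝ) ≤ l := by exact_mod_cast h5
  have hl0 : (0 : ℝ) < l := by linarith
  have hx : 1 / (l : ℝ) ≤ 1 / 5 := one_div_le_one_div_of_le (by norm_num) hl5
  have hx0 : 0 < 1 / (l : ℝ) := by positivity
  set x : ℝ := 1 / (l : ℝ) with hxd
  by_cases hlp : l = p
  · rw [if_pos hlp]
    have h1 : 1 - ((Sl_SU N p d A l).card : ℝ) / l ≤ 1 := by
      have : 0 ≤ ((Sl_SU N p d A l).card : ℝ) / l := by positivity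
      linarith
    refine h1.trans ?_
    split_ifs <;> nlinarith
  · rw [if_neg hlp, one_mul]
    have : Fact l.Prime := ⟨hl⟩
    have hne : ¬ l ∣ N * d → ((p : ZMod l) * ((N * d : ℕ) : ZMod l)⁻¹).val ≠ 0 := by
      intro h1 h2
      rw [ZMod.val_eq_zero, mul_eq_zero, inv_eq_zero, ZMod.natCast_eq_zero_iff,
        ZMod.natCast_eq_zero_iff] at h2
      rcases h2 with h2 | h2
      · exact hlp ((Nat.prime_dvd_prime_iff_eq hl hp).1 h2)
      · exact h1 h2
    unfold Sl_SU
    split_ifs with hA hd hd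
    · simp only [union_empty, card_singleton, Nat.cast_one, mul_one]; exact le_rfl
    · rw [card_union_of_disjoint (by
        rw [disjoint_singleton_left, mem_singleton]
        exact fun h => hne hd h.symm), card_singleton, card_singleton]
      have h3 : (((1 + 1 : ℕ) : ℝ)) / l = 2 * x := by rw [hxd]; push_cast; ring
      rw [h3]
      nlinarith
    · simp
    · simp only [empty_union, card_singleton, Nat.cast_one, one_mul]; exact le_rfl

/-- the elements counted avoid the removed classes -/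
theorem Sl_avoid_SU {N p d e : ℕ} {A : Finset ℕ} {l w : ℕ} (hl : l.Prime) (hlw : l ≤ w)
    (hpr : (N * d * e - p).Prime) (hw : w < N * d * e - p) (hA : ∀ a ∈ A, ¬ a ∣ e) :
    e % l ∉ Sl_SU N p d A l := by
  intro hs
  have : Fact l.Prime := ⟨hl⟩
  unfold Sl_SU at hs
  rw [mem_union] at hs
  rcases hs with hs | hs
  · split_ifs at hs with h
    · rw [mem_singleton] at hs
      exact hA l h (Nat.dvd_of_mod_eq_zero hs)
    · simp at hs
  · split_ifs at hs with h
    · simp at hs
    · rw [mem_singleton] at hs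
      have h1 : ((e : ℕ) : ZMod l) = (p : ZMod l) * ((N * d : ℕ) : ZMod l)⁻¹ := by
        have h2 : (((e % l : ℕ) : ℕ) : ZMod l) = (e : ZMod l) := by
          rw [ZMod.natCast_mod]
        rw [← h2, hs, ZMod.natCast_zmod_val]
      have h3 : ((N * d : ℕ) : ZMod l) ≠ 0 := by
        rw [ne_eq, ZMod.natCast_eq_zero_iff]
        exact h
      have h4 : ((N * d * e : ℕ) : ZMod l) = (p : ZMod l) := by
        push_cast at h1 h3 ⊢
        rw [h1, mul_comm, mul_assoc, inv_mul_cancel₀ h3, mul_one]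
      have h5 : ((N * d * e - p : ℕ) : ZMod l) = 0 := by
        rw [Nat.cast_sub (by have := hpr.pos; omega), h4, sub_self]
      rw [ZMod.natCast_eq_zero_iff] at h5
      have h6 := (Nat.prime_dvd_prime_iff_eq hl hpr).1 h5
      omega

theorem ratio_SU (N d : ℕ) (hN : 1 ≤ N) (hd : 1 ≤ d) :
    ((N * d : ℕ) : ℝ) / Nat.totient (N * d) ≤
      ((N : ℝ) / Nat.totient N) * ((d : ℝ) / Nat.totient d) := by
  have h1 : 0 < Nat.totient N := Nat.totient_pos.2 hN
  have h2 : 0 < Nat.totient d := Nat.totient_pos.2 hd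
  have h3 := Nat.totient_super_multiplicative N d
  have h1' : (0 : ℝ) < Nat.totient N := by exact_mod_cast h1
  have h2' : (0 : ℝ) < Nat.totient d := by exact_mod_cast h2
  have h3' : (Nat.totient N : ℝ) * Nat.totient d ≤ Nat.totient (N * d) := by exact_mod_cast h3
  rw [div_mul_div_comm]
  push_cast
  exact div_le_div_of_nonneg_left (by positivity) (by positivity) h3'

theorem one_le_ratio_SU (d : ℕ) (hd : 1 ≤ d) : 1 ≤ (d : ℝ) / Nat.totient d := by
  have h2 : 0 < Nat.totient d := Nat.totient_pos.2 hd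
  have h2' : (0 : ℝ) < Nat.totient d := by exact_mod_cast h2
  rw [le_div_iff₀ h2', one_mul]
  exact_mod_cast Nat.totient_le d

set_option maxHeartbeats 1000000 in
/-- the sieve bound for a fixed set of primes -/
theorem count_SU (hMV : StMV) (N p : ℕ) (hp : p.Prime) (hN : 1 ≤ N) : ∃ C c₀ : ℝ,
    0 < C ∧ 0 < c₀ ∧ c₀ < 1 ∧
    ∀ (d E H : ℕ) (A : Finset ℕ), 1 ≤ d → 2 ≤ H →
    (∀ l ∈ A, l.Prime ∧ 3 < l ∧ (l : ℝ) ≤ (H : ℝ) ^ c₀) →
    (((Ioc E (E + H)).filter (fun e => (N * d * e - p).Prime ∧ ∀ a ∈ A, ¬ a ∣ e)).card : ℝ) ≤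
      C * (H / Real.log H) * (d / Nat.totient d) * ∏ l ∈ A, (1 - 1 / (l : ℝ)) + C * √H := by
  obtain ⟨CM, hCM, hMV⟩ := hMV
  obtain ⟨B, hB⟩ := Pool.Agent.Helper18.TR.fl 2 1 (by norm_num) one_pos
  set c₀ : ℝ := 1 / (4 * B + 4) with hc₀
  have hc0 : 0 < c₀ := by positivity
  have hc1 : c₀ < 1 := by
    rw [hc₀, div_lt_one (by positivity)]
    have : (0 : ℝ) ≤ B := Nat.cast_nonneg B
    linarith
  have hc4 : c₀ ≤ 1 / 4 := by
    rw [hc₀]
    apply one_div_le_one_div_of_le (by norm_num)
    have : (0 : ℝ) ≤ B := Nat.cast_nonneg B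
    linarith
  have hNr := one_le_ratio_SU N hN
  set C : ℝ := 8 * CM * ((N : ℝ) / Nat.totient N) / c₀ + 1 / c₀ + p + 2 with hC
  have hC1 : 8 * CM * ((N : ℝ) / Nat.totient N) / c₀ ≤ C := by
    have : 0 < 1 / c₀ := by positivity
    have h2 : (0 : ℝ) ≤ p := Nat.cast_nonneg p
    rw [hC]; linarith
  have hC0 : 0 ≤ 8 * CM * ((N : ℝ) / Nat.totient N) / c₀ := by positivity
  have hC2 : 1 / c₀ ≤ C := by
    have h2 : (0 : ℝ) ≤ p := Nat.cast_nonneg p
    rw [hC]; linarith
  have hC3 : (p : ℝ) + 2 ≤ C := by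
    have : 0 < 1 / c₀ := by positivity
    rw [hC]; linarith
  have hCpos : 0 < C := by
    have h2 : (0 : ℝ) ≤ p := Nat.cast_nonneg p
    linarith
  refine ⟨C, c₀, hCpos, hc0, hc1, ?_⟩
  intro d E H A hd hH hA
  have hH2 : (2 : ℝ) ≤ H := by exact_mod_cast hH
  have hH0 : (0 : ℝ) < H := by linarith
  have hlogH : 0 < Real.log H := Real.log_pos (by linarith)
  have hdr := one_le_ratio_SU d hd
  have hAprod : 0 ≤ ∏ l ∈ A, (1 - 1 / (l : ℝ)) := by
    refine prod_nonneg fun l hl => ?_
    have h3 := (hA l hl).2.1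
    have : (1 : ℝ) / l ≤ 1 := by
      rw [div_le_one (by exact_mod_cast (by omega : 0 < l))]
      exact_mod_cast (by omega : 1 ≤ l)
    linarith
  set cnt : ℝ := (((Ioc E (E + H)).filter (fun e => (N * d * e - p).Prime ∧
    ∀ a ∈ A, ¬ a ∣ e)).card : ℝ) with hcnt
  by_cases hsmall : (H : ℝ) ^ c₀ < 2
  · have hAe : A = ∅ := by
      rw [Finset.eq_empty_iff_forall_notMem]
      intro l hl
      obtain ⟨-, h2, h3⟩ := hA l hl
      have : (3 : ℝ) < l := by exact_mod_cast h2
      linarith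
    rw [hAe, prod_empty, mul_one]
    have h1 : cnt ≤ H := by
      rw [hcnt]
      have := card_filter_le (Ioc E (E + H)) (fun e => (N * d * e - p).Prime ∧ ∀ a ∈ A, ¬ a ∣ e)
      rw [Nat.card_Ioc, Nat.add_sub_cancel_left] at this
      exact_mod_cast this
    have h2 : Real.log H ≤ 1 / c₀ := by
      have h3 : Real.log ((H : ℝ) ^ c₀) < Real.log 2 := Real.log_lt_log (by positivity) hsmall
      rw [Real.log_rpow hH0] at h3
      have h4 : Real.log 2 < 1 := by
        have := Real.log_two_lt_d9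
        linarith
      rw [le_div_iff₀ hc0]
      linarith
    have h3 : (H : ℝ) ≤ C * (H / Real.log H) := by
      rw [mul_div_assoc', le_div_iff₀ hlogH, mul_comm]
      exact mul_le_mul_of_nonneg_right (h2.trans hC2) hH0.le
    have h4 : C * (H / Real.log H) ≤ C * (H / Real.log H) * ((d : ℝ) / Nat.totient d) :=
      le_mul_of_one_le_right (by positivity) hdr
    have h5 : 0 ≤ C * √H := by positivity
    linarith
  · push Not at hsmall
    set w : ℕ := ⌊(H : ℝ) ^ c₀⌋₊ with hw
    have hw2 : 2 ≤ w := Nat.le_floor (by exact_mod_cast hsmall)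
    have hwle : (w : ℝ) ≤ (H : ℝ) ^ c₀ := Nat.floor_le (by positivity)
    have hwlt : (H : ℝ) ^ c₀ < w + 1 := Nat.lt_floor_add_one _
    have hw2' : (2 : ℝ) ≤ w := by exact_mod_cast hw2
    have hlogw : c₀ / 2 * Real.log H ≤ Real.log w := by
      have h1 : (H : ℝ) ^ c₀ ≤ (w : ℝ) ^ 2 := by nlinarith
      have h2 := Real.log_le_log (by positivity) h1
      rw [Real.log_rpow hH0, Real.log_pow] at h2
      push_cast at h2
      linarith
    have hlogw0 : 0 < Real.log w := Real.log_pos (by linarith)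
    set Q : Finset ℕ := (Ioc 3 w).filter Nat.Prime with hQ
    have hQm : ∀ l ∈ Q, l.Prime ∧ 5 ≤ l ∧ l ≤ w := by
      intro l hl
      rw [hQ, mem_filter, mem_Ioc] at hl
      refine ⟨hl.2, ?_, hl.1.2⟩
      have h4 : l ≠ 4 := by
        rintro rfl
        exact absurd hl.2 (by decide)
      omega
    have hAQ : A ⊆ Q := by
      intro l hl
      obtain ⟨h1, h2, h3⟩ := hA l hl
      rw [hQ, mem_filter, mem_Ioc]
      exact ⟨⟨h2, Nat.le_floor h3⟩, h1⟩
    set S : ℕ → Finset ℕ := Sl_SU N p d A with hS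
    set g : ℕ → ℝ := fun l => ((S l).card : ℝ) / l with hg
    have hgb : ∀ l ∈ Q, 0 ≤ g l ∧ g l ≤ 2 / (l : ℝ) ∧ g l ≤ 1 / 2 := by
      intro l hl
      obtain ⟨h1, h2, h3⟩ := hQm l hl
      have hl5 : (5 : ℝ) ≤ l := by exact_mod_cast h2
      have hc : ((S l).card : ℝ) ≤ 2 := by exact_mod_cast Sl_card_le_SU N p d A l
      have hb : g l ≤ 2 / (l : ℝ) := by
        rw [hg]
        exact div_le_div_of_nonneg_right hc (by linarith)
      refine ⟨by positivity, hb, hb.trans ?_⟩
      rw [div_le_div_iff₀ (by linarith) (by norm_num)]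
      linarith
    have hfl := hB w hw2 Q (fun l hl => ⟨(hQm l hl).1, (hQm l hl).2.2⟩) g hgb ℕ (Ioc E (E + H))
      (fun l e => e % l ∈ S l) H ((w : ℝ) ^ B) (by positivity) (by positivity) (by
        intro T hT hTw
        have h1 := cntT_SU E H S T (fun l hl => ⟨(hQm l (hT hl)).1,
          Sl_lt_SU (hQm l (hT hl)).1⟩) 1 0 le_rfl (fun l _ => Nat.coprime_one_right l)
        have h2 : ∏ l ∈ T, ((S l).card : ℝ) ≤ (w : ℝ) ^ B := by
          have h3 : ∏ l ∈ T, ((S l).card : ℝ) ≤ ∏ l ∈ T, (l : ℝ) := by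
            refine prod_le_prod (fun l _ => by positivity) fun l hl => ?_
            have h4 : (S l).card ≤ 2 := Sl_card_le_SU N p d A l
            have h5 := (hQm l (hT hl)).2.1
            exact_mod_cast (by omega : (S l).card ≤ l)
          refine h3.trans ?_
          have h9 : ((∏ l ∈ T, l : ℕ) : ℝ) ≤ ((w ^ B : ℕ) : ℝ) := by exact_mod_cast hTw
          rw [Nat.cast_prod, Nat.cast_pow] at h9
          exact h9
        refine le_trans (le_of_eq ?_) (h1.trans h2)
        congr 2
        · congr 2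
          ext e
          simp [Nat.mod_one]
        · simp [hg])
    have hup : (((Ioc E (E + H)).filter (fun e => ∀ l ∈ Q, ¬ (e % l ∈ S l))).card : ℝ) ≤
        2 * (H * ∏ l ∈ Q, (1 - g l)) + (w : ℝ) ^ B * (w : ℝ) ^ B := by
      have h1 := (abs_le.1 hfl).2
      linarith
    have hprod : ∏ l ∈ Q, (1 - g l) ≤ 2 * ((∏ l ∈ A, (1 - 1 / (l : ℝ))) *
        (CM / Real.log w * (((N * d : ℕ) : ℝ) / Nat.totient (N * d)))) := by
      have h1 : ∏ l ∈ Q, (1 - g l) ≤ ∏ l ∈ Q, ((if l = p then (2 : ℝ) else 1) *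
          ((if l ∈ A then (1 - 1 / (l : ℝ)) else 1) *
            (if l ∣ N * d then 1 else (1 - 1 / (l : ℝ))))) := by
        refine prod_le_prod (fun l hl => ?_) fun l hl => ?_
        · have := (hgb l hl).2.2
          linarith
        · exact Sl_dens_SU (hQm l hl).1 hp (hQm l hl).2.1
      refine h1.trans ?_
      rw [prod_mul_distrib, prod_mul_distrib]
      have h2 : ∏ l ∈ Q, (if l = p then (2 : ℝ) else 1) ≤ 2 := by
        rw [prod_ite_eq']
        split_ifs <;> norm_num
      have h3 : ∏ l ∈ Q, (if l ∈ A then (1 - 1 / (l : ℝ)) else 1) =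
          ∏ l ∈ A, (1 - 1 / (l : ℝ)) := by
        rw [← prod_filter]
        congr 1
        ext l
        rw [mem_filter]
        exact ⟨fun h => h.2, fun h => ⟨hAQ h, h⟩⟩
      have h4 : ∏ l ∈ Q, (if l ∣ N * d then 1 else (1 - 1 / (l : ℝ))) =
          ∏ l ∈ (Ioc 3 w).filter (fun l => l.Prime ∧ ¬ l ∣ N * d), (1 - 1 / (l : ℝ)) := by
        have h5 : ∀ l ∈ Q, (if l ∣ N * d then (1 : ℝ) else (1 - 1 / (l : ℝ))) =
            if ¬ l ∣ N * d then (1 - 1 / (l : ℝ)) else 1 := by
          intro l _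
          by_cases h : l ∣ N * d
          · simp [h]
          · simp [h]
        rw [prod_congr rfl h5, ← prod_filter, hQ, filter_filter]
      have h6 := hMV w (N * d) hw2 (Nat.mul_pos hN hd)
      rw [h3, h4]
      have h7 : 0 ≤ ∏ l ∈ (Ioc 3 w).filter (fun l => l.Prime ∧ ¬ l ∣ N * d),
          (1 - 1 / (l : ℝ)) := by
        refine prod_nonneg fun l hl => ?_
        rw [mem_filter, mem_Ioc] at hl
        have : (1 : ℝ) / l ≤ 1 := by
          rw [div_le_one (by exact_mod_cast (by omega : 0 < l))]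
          exact_mod_cast (by omega : 1 ≤ l)
        linarith
      have h8 : 0 ≤ ∏ l ∈ Q, (if l = p then (2 : ℝ) else 1) :=
        prod_nonneg fun l _ => by split_ifs <;> norm_num
      exact mul_le_mul h2 (mul_le_mul_of_nonneg_left h6 hAprod) (mul_nonneg hAprod h7)
        (by norm_num)
    -- the elements counted
    have hcount : cnt ≤ (w + p : ℕ) +
        (((Ioc E (E + H)).filter (fun e => ∀ l ∈ Q, ¬ (e % l ∈ S l))).card : ℝ) := by
      have h1 : (Ioc E (E + H)).filter (fun e => (N * d * e - p).Prime ∧ ∀ a ∈ A, ¬ a ∣ e) ⊆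
          Icc 1 (w + p) ∪ (Ioc E (E + H)).filter (fun e => ∀ l ∈ Q, ¬ (e % l ∈ S l)) := by
        intro e he
        rw [mem_filter] at he
        obtain ⟨he1, he2, he3⟩ := he
        rw [mem_union]
        by_cases h : N * d * e - p ≤ w
        · left
          rw [mem_Icc]
          have h2 := he2.pos
          have h3 : e ≤ N * d * e := Nat.le_mul_of_pos_left e (Nat.mul_pos hN hd)
          rw [mem_Ioc] at he1
          omega
        · right
          rw [mem_filter]
          exact ⟨he1, fun l hl => Sl_avoid_SU (hQm l hl).1 (hQm l hl).2.2 he2 (by omega) he3⟩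
      have h2 := (card_le_card h1).trans (card_union_le _ _)
      rw [Nat.card_Icc, Nat.add_sub_cancel] at h2
      rw [hcnt]
      exact_mod_cast h2
    have hsq : (w : ℝ) ^ B * (w : ℝ) ^ B ≤ √H := by
      rw [← pow_add]
      have h1 : (w : ℝ) ^ (B + B) ≤ ((H : ℝ) ^ c₀) ^ (B + B) :=
        pow_le_pow_left₀ (by positivity) hwle _
      refine h1.trans ?_
      rw [← Real.rpow_natCast, ← Real.rpow_mul hH0.le, Real.sqrt_eq_rpow]
      apply Real.rpow_le_rpow_of_exponent_le (by linarith)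
      rw [hc₀]
      push_cast
      rw [div_mul_eq_mul_div, div_le_div_iff₀ (by positivity) (by norm_num)]
      linarith
    have hwsq : (w : ℝ) ≤ √H := by
      refine hwle.trans ?_
      rw [Real.sqrt_eq_rpow]
      apply Real.rpow_le_rpow_of_exponent_le (by linarith)
      linarith
    have h1sq : (1 : ℝ) ≤ √H := by
      rw [Real.one_le_sqrt]; linarith
    have hp0 : (0 : ℝ) ≤ p := Nat.cast_nonneg p
    have hmain : 2 * (H * ∏ l ∈ Q, (1 - g l)) ≤
        C * (H / Real.log H) * (d / Nat.totient d) * ∏ l ∈ A, (1 - 1 / (l : ℝ)) := by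
      have h1 := ratio_SU N d hN hd
      have h2 : CM / Real.log w ≤ CM * 2 / (c₀ * Real.log H) := by
        rw [div_le_div_iff₀ hlogw0 (by positivity)]
        nlinarith
      have h3 : CM / Real.log w * (((N * d : ℕ) : ℝ) / Nat.totient (N * d)) ≤
          CM * 2 / (c₀ * Real.log H) * (((N : ℝ) / Nat.totient N) * ((d : ℝ) / Nat.totient d)) :=
        mul_le_mul h2 h1 (by positivity) (by positivity)
      calc 2 * (H * ∏ l ∈ Q, (1 - g l)) ≤ 2 * (H * (2 * ((∏ l ∈ A, (1 - 1 / (l : ℝ))) *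
            (CM * 2 / (c₀ * Real.log H) *
              (((N : ℝ) / Nat.totient N) * ((d : ℝ) / Nat.totient d)))))) := by
            refine mul_le_mul_of_nonneg_left ?_ (by norm_num)
            refine mul_le_mul_of_nonneg_left ?_ hH0.le
            refine hprod.trans ?_
            refine mul_le_mul_of_nonneg_left ?_ (by norm_num)
            exact mul_le_mul_of_nonneg_left h3 hAprod
        _ = (8 * CM * ((N : ℝ) / Nat.totient N) / c₀) * (H / Real.log H) *
            (d / Nat.totient d) * ∏ l ∈ A, (1 - 1 / (l : ℝ)) := by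
            have h5 : c₀ ≠ 0 := hc0.ne'
            have h6 : Real.log H ≠ 0 := hlogH.ne'
            generalize ((N : ℝ) / Nat.totient N) = x
            generalize ((d : ℝ) / Nat.totient d) = y
            generalize ∏ l ∈ A, (1 - 1 / (l : ℝ)) = z
            field_simp
            ring
        _ ≤ _ := by
            refine mul_le_mul_of_nonneg_right ?_ hAprod
            refine mul_le_mul_of_nonneg_right ?_ (by positivity)
            exact mul_le_mul_of_nonneg_right hC1 (by positivity)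
    have hfin : (w : ℝ) + p + √H ≤ C * √H := by
      have h1 : (p : ℝ) ≤ p * √H := le_mul_of_one_le_right hp0 h1sq
      have h2 : ((p : ℝ) + 2) * √H ≤ C * √H := mul_le_mul_of_nonneg_right hC3 (by positivity)
      have h3 : ((p : ℝ) + 2) * √H = p * √H + 2 * √H := by ring
      linarith
    push_cast at hcount
    linarith

theorem hSU (hMV : StMV) : StSU := by
  intro N p hp hN _
  obtain ⟨C, c₀, hC, hc0, hc1, hcount⟩ := count_SU hMV N p hp hN
  refine ⟨C, c₀, hC, hc0, hc1, ?_⟩
  intro u d E H P hu0 hu1 hd _ hH hP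
  have hexp : ∀ e : ℕ, u ^ om P e = ∑ A ∈ P.powerset,
      ((1 - u) ^ A.card * u ^ (P \ A).card) * (if ∀ a ∈ A, ¬ a ∣ e then 1 else 0) := by
    intro e
    have h1 : u ^ om P e = ∏ l ∈ P, ((if ¬ l ∣ e then (1 - u) else 0) + u) := by
      unfold om
      rw [← prod_const, prod_filter]
      refine prod_congr rfl fun l _ => ?_
      by_cases h : l ∣ e
      · simp [h]
      · simp [h]
    rw [h1, prod_add]
    refine sum_congr rfl fun A _ => ?_
    rw [prod_const]
    by_cases h : ∀ a ∈ A, ¬ a ∣ e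
    · rw [if_pos h, mul_one]
      congr 1
      rw [← prod_const]
      refine prod_congr rfl fun a ha => ?_
      rw [if_pos (h a ha)]
    · rw [if_neg h, mul_zero]
      push Not at h
      obtain ⟨a, ha, hae⟩ := h
      rw [prod_eq_zero ha (by rw [if_neg (not_not.2 hae)]), zero_mul]
  simp only [hexp]
  rw [sum_comm]
  have h2 : ∀ A ∈ P.powerset, ∑ e ∈ (Ioc E (E + H)).filter (fun e => (N * d * e - p).Prime),
      ((1 - u) ^ A.card * u ^ (P \ A).card) * (if ∀ a ∈ A, ¬ a ∣ e then 1 else 0) ≤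
      ((1 - u) ^ A.card * u ^ (P \ A).card) *
        (C * (H / Real.log H) * (d / Nat.totient d) * ∏ l ∈ A, (1 - 1 / (l : ℝ)) + C * √H) := by
    intro A hA
    rw [mem_powerset] at hA
    rw [← mul_sum, ← sum_filter, filter_filter, sum_const, nsmul_eq_mul, mul_one]
    refine mul_le_mul_of_nonneg_left ?_ ?_
    · exact hcount d E H A hd hH fun l hl => hP l (hA hl)
    · have : 0 ≤ 1 - u := by linarith
      positivity
  refine (sum_le_sum h2).trans (le_of_eq ?_)
  have h3 : ∑ A ∈ P.powerset, ((1 - u) ^ A.card * u ^ (P \ A).card) = 1 := by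
    have := prod_add (fun _ : ℕ => 1 - u) (fun _ => u) P
    simp only [prod_const] at this
    rw [← this]
    simp
  have h4 : ∑ A ∈ P.powerset, ((1 - u) ^ A.card * u ^ (P \ A).card) *
      ∏ l ∈ A, (1 - 1 / (l : ℝ)) = ∏ l ∈ P, (1 - (1 - u) / (l : ℝ)) := by
    have h5 := prod_add (fun l : ℕ => (1 - u) * (1 - 1 / (l : ℝ))) (fun _ => u) P
    have h6 : ∏ l ∈ P, ((1 - u) * (1 - 1 / (l : ℝ)) + u) = ∏ l ∈ P, (1 - (1 - u) / (l : ℝ)) :=
      prod_congr rfl fun l _ => by ring
    rw [← h6, h5]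
    refine sum_congr rfl fun A _ => ?_
    rw [prod_mul_distrib, prod_const, prod_const]
    ring
  have h7 : ∀ A ∈ P.powerset, ((1 - u) ^ A.card * u ^ (P \ A).card) *
        (C * (H / Real.log H) * (d / Nat.totient d) * ∏ l ∈ A, (1 - 1 / (l : ℝ)) + C * √H) =
      (C * (H / Real.log H) * (d / Nat.totient d)) * (((1 - u) ^ A.card * u ^ (P \ A).card) *
      ∏ l ∈ A, (1 - 1 / (l : ℝ))) + (C * √H) * ((1 - u) ^ A.card * u ^ (P \ A).card) := by
    intro A _
    ring
  rw [sum_congr rfl h7, sum_add_distrib, ← mul_sum, ← mul_sum, h3, h4, mul_one]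

end Pool.Agent.Helper15.AB
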