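import Mathlib
import Pool.Agent.Helper15.AB.StKl

/-!
# Project AB: module SZ (points of a quadric on a hyperplane modulo a prime)
-/

set_option autoImplicit false

namespace Pool.Agent.Helper15.AB

namespace hSZ

open Finset

theorem cast_inj {a : ℕ} {m n : ℕ} (hm : m < a) (hn : n < a) (h : (m : ZMod a) = n) : m = n := by
  rw [ZMod.natCast_eq_natCast_iff'] at h
  rwa [Nat.mod_eq_of_lt hm, Nat.mod_eq_of_lt hn] at h

theorem core {a : ℕ} (ha : a.Prime) (l : Fin 4 → ℤ) (h : ℤ) (i j p q : Fin 4)
    (hcov : ∀ t, t = i ∨ t = j ∨ t = p ∨ t = q) (hl : ¬ (a : ℤ) ∣ l i)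
    (hform : ∀ v : Fin 4 → ℤ, v 0 * v 1 + v 2 * v 3 = v i * v j + v p * v q)
    (hlin : ∀ v : Fin 4 → ℤ, l 0 * v 0 + l 1 * v 1 + l 2 * v 2 + l 3 * v 3 =
      l i * v i + l j * v j + l p * v p + l q * v q) :
    ((Fintype.piFinset (fun _ : Fin 4 => range a)).filter (fun v : Fin 4 → ℕ =>
      (a : ℤ) ∣ (v 0 : ℤ) * v 1 + (v 2 : ℤ) * v 3 - h ∧
      (a : ℤ) ∣ l 0 * v 0 + l 1 * v 1 + l 2 * v 2 + l 3 * v 3)).card ≤ 2 * a ^ 2 := by
  classical
  have : Fact a.Prime := ⟨ha⟩
  set S := (Fintype.piFinset (fun _ : Fin 4 => range a)).filter (fun v : Fin 4 → ℕ =>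
      (a : ℤ) ∣ (v 0 : ℤ) * v 1 + (v 2 : ℤ) * v 3 - h ∧
      (a : ℤ) ∣ l 0 * v 0 + l 1 * v 1 + l 2 * v 2 + l 3 * v 3) with hS
  have hlt : ∀ v ∈ S, ∀ t, v t < a := by
    intro v hv t
    rw [hS, mem_filter, Fintype.mem_piFinset] at hv
    exact mem_range.1 (hv.1 t)
  have hq : ∀ v ∈ S, (v i : ZMod a) * v j + v p * v q = (h : ZMod a) := by
    intro v hv
    rw [hS, mem_filter] at hv
    have h1 := hv.2.1
    have h2 := hform (fun t => (v t : ℤ))
    rw [h2] at h1
    have h3 := (ZMod.intCast_zmod_eq_zero_iff_dvd _ a).2 h1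
    push_cast at h3
    linear_combination h3
  have hln : ∀ v ∈ S, (l i : ZMod a) * v i + l j * v j + l p * v p + l q * v q = 0 := by
    intro v hv
    rw [hS, mem_filter] at hv
    have h1 := hv.2.2
    have h2 := hlin (fun t => (v t : ℤ))
    rw [h2] at h1
    have h3 := (ZMod.intCast_zmod_eq_zero_iff_dvd _ a).2 h1
    push_cast at h3
    exact h3
  have hli : (l i : ZMod a) ≠ 0 := by
    rw [ne_eq, ZMod.intCast_zmod_eq_zero_iff_dvd]
    exact hl
  have hi_of : ∀ v ∈ S, ∀ v' ∈ S, v j = v' j → v p = v' p → v q = v' q → v = v' := by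
    intro v hv v' hv' hj hp hq'
    have h1 := hln v hv
    have h2 := hln v' hv'
    rw [hj, hp, hq'] at h1
    have h3 : (l i : ZMod a) * v i = l i * v' i := by linear_combination h1 - h2
    have h4 : (v i : ZMod a) = v' i := mul_left_cancel₀ hli h3
    have h5 := cast_inj (hlt v hv i) (hlt v' hv' i) h4
    funext t
    rcases hcov t with rfl | rfl | rfl | rfl
    · exact h5
    · exact hj
    · exact hp
    · exact hq'
  have hA : (S.filter (fun v => (l i : ZMod a) * v p ≠ l q * v j)).card ≤ a ^ 2 := by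
    have h1 : (S.filter (fun v => (l i : ZMod a) * v p ≠ l q * v j)).card ≤
        (range a ×ˢ range a).card := by
      refine card_le_card_of_injOn (fun v => (v j, v p)) ?_ ?_
      · intro v hv
        rw [mem_coe, mem_filter] at hv
        rw [mem_coe, mem_product]
        exact ⟨mem_range.2 (hlt v hv.1 j), mem_range.2 (hlt v hv.1 p)⟩
      · intro v hv v' hv' he
        rw [mem_coe, mem_filter] at hv hv'
        have hj : v j = v' j := congrArg Prod.fst he
        have hp : v p = v' p := congrArg Prod.snd he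
        refine hi_of v hv.1 v' hv'.1 hj hp ?_
        have e1 := hq v hv.1
        have e2 := hq v' hv'.1
        have e3 := hln v hv.1
        have e4 := hln v' hv'.1
        have hne := hv'.2
        rw [hj, hp] at e1 e3
        have h3 : ((l i : ZMod a) * v' p - l q * v' j) * v q =
            ((l i : ZMod a) * v' p - l q * v' j) * v' q := by
          linear_combination (l i : ZMod a) * (e1 - e2) - (v' j : ZMod a) * (e3 - e4)
        have h4 : (v q : ZMod a) = v' q := mul_left_cancel₀ (sub_ne_zero.2 hne) h3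
        exact cast_inj (hlt v hv.1 q) (hlt v' hv'.1 q) h4
    rwa [card_product, card_range, ← pow_two] at h1
  have hB : (S.filter (fun v => ¬ (l i : ZMod a) * v p ≠ l q * v j)).card ≤ a ^ 2 := by
    have h1 : (S.filter (fun v => ¬ (l i : ZMod a) * v p ≠ l q * v j)).card ≤
        (range a ×ˢ range a).card := by
      refine card_le_card_of_injOn (fun v => (v j, v q)) ?_ ?_
      · intro v hv
        rw [mem_coe, mem_filter] at hv
        rw [mem_coe, mem_product]
        exact ⟨mem_range.2 (hlt v hv.1 j), mem_range.2 (hlt v hv.1 q)⟩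
      · intro v hv v' hv' he
        rw [mem_coe, mem_filter] at hv hv'
        have hj : v j = v' j := congrArg Prod.fst he
        have hq' : v q = v' q := congrArg Prod.snd he
        refine hi_of v hv.1 v' hv'.1 hj ?_ hq'
        have e1 := not_not.1 hv.2
        have e2 := not_not.1 hv'.2
        rw [hj, ← e2] at e1
        have h4 : (v p : ZMod a) = v' p := mul_left_cancel₀ hli e1
        exact cast_inj (hlt v hv.1 p) (hlt v' hv'.1 p) h4
    rwa [card_product, card_range, ← pow_two] at h1
  have hsum := card_filter_add_card_filter_not (s := S) (fun v => (l i : ZMod a) * v p ≠ l q * v j)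
  omega

end hSZ

open Finset in
theorem hSZ : StSZ := by
  intro a l h ha _ hl
  obtain ⟨i, hi⟩ := hl
  fin_cases i
  · exact hSZ.core ha l h 0 1 2 3 (by decide) hi (fun v => by ring) (fun v => by ring)
  · exact hSZ.core ha l h 1 0 2 3 (by decide) hi (fun v => by ring) (fun v => by ring)
  · exact hSZ.core ha l h 2 3 0 1 (by decide) hi (fun v => by ring) (fun v => by ring)
  · exact hSZ.core ha l h 3 2 0 1 (by decide) hi (fun v => by ring) (fun v => by ring)

end Pool.Agent.Helper15.AB
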