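import Mathlib
import Pool.Agent.Helper15.AB.StMid

/-!
# Project AB, module TA: the sieve majorant in arithmetic progressions
-/

set_option autoImplicit false

namespace Pool.Agent.Helper15.AB

open Finset ArithmeticFunction Filter Topology

namespace hTA

theorem count_class (M c X₁ X₂ : ℕ) (hM : 1 ≤ M) (hX : X₁ ≤ X₂) :
    |((((Ioc X₁ X₂).filter (fun m => m ≡ c [MOD M])).card : ℕ) : ℝ) - ((X₂ : ℝ) - X₁) / M| ≤ 1 := by
  have h := Nat.Ioc_filter_modEq_card (a := X₁) (b := X₂) (r := M) (by omega) c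
  have hMq : (0 : ℚ) < M := by exact_mod_cast hM
  have hMr : (0 : ℝ) < M := by exact_mod_cast hM
  set A : ℤ := ⌊((X₂ : ℚ) - c) / M⌋ with hA
  set B : ℤ := ⌊((X₁ : ℚ) - c) / M⌋ with hB
  have hAB : B ≤ A := by
    rw [hA, hB]
    apply Int.floor_le_floor
    have h1 : (X₁ : ℚ) ≤ X₂ := by exact_mod_cast hX
    gcongr
  rw [max_eq_left (by omega)] at h
  have h2 : ((((Ioc X₁ X₂).filter (fun m => m ≡ c [MOD M])).card : ℕ) : ℝ) = ((A - B : ℤ) : ℝ) := by
    exact_mod_cast h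
  rw [h2]
  have hq : |((A - B : ℤ) : ℚ) - ((X₂ : ℚ) - X₁) / M| ≤ 1 := by
    have a1 := Int.floor_le (((X₂ : ℚ) - c) / M)
    have a2 := Int.lt_floor_add_one (((X₂ : ℚ) - c) / M)
    have b1 := Int.floor_le (((X₁ : ℚ) - c) / M)
    have b2 := Int.lt_floor_add_one (((X₁ : ℚ) - c) / M)
    rw [← hA] at a1 a2
    rw [← hB] at b1 b2
    have e : ((X₂ : ℚ) - X₁) / M = ((X₂ : ℚ) - c) / M - ((X₁ : ℚ) - c) / M := by ring
    rw [e, abs_le]
    push_cast
    constructor <;> linarith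
  have hr : ((((A - B : ℤ) : ℚ) - ((X₂ : ℚ) - X₁) / M : ℚ) : ℝ) =
      ((A - B : ℤ) : ℝ) - ((X₂ : ℝ) - X₁) / M := by push_cast; ring
  rw [← hr, ← Rat.cast_abs]
  exact_mod_cast hq

theorem exists_class (q k P N p m₁ : ℕ) (hP : 1 ≤ P) (hqk : Nat.Coprime q k)
    (hqkP : Nat.Coprime (q * k) P) (hNP : Nat.Coprime N P) :
    ∃ c, c ≡ m₁ [MOD q] ∧ c ≡ 0 [MOD k] ∧ N * c ≡ p [MOD P] := by
  haveI : NeZero P := ⟨by omega⟩
  obtain ⟨a, ha⟩ := Nat.chineseRemainder hqk m₁ 0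
  obtain ⟨b, hb⟩ : ∃ b : ℕ, N * b ≡ p [MOD P] := by
    refine ⟨((p : ZMod P) * (N : ZMod P)⁻¹).val, ?_⟩
    rw [← ZMod.natCast_eq_natCast_iff]
    push_cast
    rw [ZMod.natCast_zmod_val]
    have h := ZMod.coe_mul_inv_eq_one N hNP
    calc (N : ZMod P) * ((p : ZMod P) * (N : ZMod P)⁻¹) = p * (N * (N : ZMod P)⁻¹) := by ring
      _ = p := by rw [h, mul_one]
  obtain ⟨c, hc⟩ := Nat.chineseRemainder hqkP a b
  refine ⟨c, ?_, ?_, ?_⟩
  · exact (hc.1.of_mul_right k).trans ha.1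
  · exact (hc.1.of_mul_left q).trans ha.2
  · exact (hc.2.mul_left N).trans hb

end hTA

open hTA in
theorem hTA : StTA := by
  intro N p q m₁ B₀ w k X₁ X₂ Q fam hyp maj hQ hk hpX hX
  have hqk0 : (0 : ℝ) < (q : ℝ) * k := by
    have h1 : 1 ≤ q := hyp.hq1
    have : (0 : ℝ) < q := by exact_mod_cast h1
    have : (0 : ℝ) < k := by exact_mod_cast hk
    positivity
  have hXr : (0 : ℝ) ≤ (X₂ : ℝ) - X₁ := by
    have : (X₁ : ℝ) ≤ X₂ := by exact_mod_cast hX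
    linarith
  have hprodnn : 0 ≤ ∏ l ∈ Q.filter (fun l => ¬ l ∣ k), (1 - 1 / (l : ℝ)) := by
    refine prod_nonneg fun l hl => ?_
    have h1 := (maj.hQ l (mem_filter.1 hl).1).1.one_le
    have h2 : (1 : ℝ) ≤ l := by exact_mod_cast h1
    rw [sub_nonneg, div_le_one (by linarith)]
    exact h2
  have hwB : (0 : ℝ) ≤ (w : ℝ) ^ B₀ := by positivity
  by_cases hco : Nat.Coprime q k
  swap
  · have hempty : (Ioc X₁ X₂).filter (fun m => m % q = m₁ % q ∧ k ∣ m) = ∅ := by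
      rw [filter_eq_empty_iff]
      rintro m hm ⟨h1, h2⟩
      apply hco
      obtain ⟨l, hl, hlq, hlk⟩ : ∃ l, l.Prime ∧ l ∣ q ∧ l ∣ k := by
        by_contra hcon
        push Not at hcon
        exact hco (Nat.coprime_of_dvd fun l hl h3 h4 => hcon l hl h3 h4)
      exfalso
      have h3 : l ∣ m := hlk.trans h2
      have h4 : l ∣ m₁ := by
        have h5 : m ≡ m₁ [MOD l] := Nat.ModEq.of_dvd hlq h1
        exact (h5.dvd_iff dvd_rfl).1 h3
      have h6 := Nat.dvd_gcd h4 hlq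
      rw [hyp.hm] at h6
      exact hl.one_lt.ne' (Nat.dvd_one.1 h6)
    rw [hempty, sum_empty]
    positivity
  set Q' := Q.filter (fun l => ¬ l ∣ k) with hQ'
  set S := (Ioc X₁ X₂).filter (fun m => m % q = m₁ % q ∧ k ∣ m) with hS
  have hSm : ∀ m ∈ S, p ≤ N * m := by
    intro m hm
    have h1 := (mem_Ioc.1 (mem_filter.1 hm).1).1
    exact hpX.trans (Nat.mul_le_mul_left N h1.le)
  have hswap : ∑ m ∈ S, th fam (N * m - p) =
      ∑ T ∈ fam, (-1 : ℝ) ^ T.card * (((S.filter fun m => ∀ l ∈ T, l ∣ N * m - p).card : ℕ) : ℝ) := by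
    simp only [th]
    rw [sum_comm]
    refine sum_congr rfl fun T _ => ?_
    rw [← mul_sum, sum_boole]
  have hprime : ∀ T ∈ fam, ∀ l ∈ T, l.Prime := fun T hT l hl =>
    (maj.hQ l (maj.sub T hT hl)).1
  have hzero : ∀ T ∈ fam, ¬ T ⊆ Q' → (S.filter fun m => ∀ l ∈ T, l ∣ N * m - p) = ∅ := by
    intro T hT hTQ
    rw [not_subset] at hTQ
    obtain ⟨l, hl, hlQ⟩ := hTQ
    have hlQ2 : l ∈ Q := maj.sub T hT hl
    have hlk : l ∣ k := by
      by_contra hcon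
      exact hlQ (mem_filter.2 ⟨hlQ2, hcon⟩)
    rw [filter_eq_empty_iff]
    intro m hm hall
    have h1 := hall l hl
    have h2 : l ∣ m := hlk.trans (mem_filter.1 hm).2.2
    have h3 : l ∣ p := by
      have h4 : l ∣ N * m := h2.mul_left N
      have h5 := (Nat.dvd_sub h4 h1)
      rwa [Nat.sub_sub_self (hSm m hm)] at h5
    have h6 : l = p := (Nat.prime_dvd_prime_iff_eq (hprime T hT l hl) hyp.hp).1 h3
    exact hQ l hlQ2 (h6 ▸ hyp.hpq.mul_left N)
  have hbound : ∀ T ∈ fam, T ⊆ Q' → (-1 : ℝ) ^ T.card *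
      (((S.filter fun m => ∀ l ∈ T, l ∣ N * m - p).card : ℕ) : ℝ) ≤
      ((X₂ : ℝ) - X₁) / (q * k) * ((-1 : ℝ) ^ T.card * ∏ l ∈ T, (1 / (l : ℝ))) + 1 := by
    intro T hT hTQ
    set P := ∏ l ∈ T, l with hPd
    have hPpos : 1 ≤ P := by
      rw [hPd]
      exact Nat.one_le_iff_ne_zero.2 (prod_ne_zero_iff.2 fun l hl => (hprime T hT l hl).ne_zero)
    have hcop : ∀ a : ℕ, (∀ l ∈ T, ¬ l ∣ a) → Nat.Coprime a P := by
      intro a ha
      rw [hPd]
      refine Nat.Coprime.prod_right fun l hl => ?_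
      exact ((Nat.Prime.coprime_iff_not_dvd (hprime T hT l hl)).2 (ha l hl)).symm
    have hlq : ∀ l ∈ T, ¬ l ∣ q := fun l hl h => hQ l (maj.sub T hT hl) (h.mul_left N)
    have hlN : ∀ l ∈ T, ¬ l ∣ N := fun l hl h => hQ l (maj.sub T hT hl) (h.mul_right q)
    have hlk : ∀ l ∈ T, ¬ l ∣ k := fun l hl => (mem_filter.1 (hTQ hl)).2
    have hqkP : Nat.Coprime (q * k) P := Nat.Coprime.mul_left (hcop q hlq) (hcop k hlk)
    have hNP : Nat.Coprime N P := hcop N hlN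
    obtain ⟨c, hc1, hc2, hc3⟩ := exists_class q k P N p m₁ hPpos hco hqkP hNP
    have hset : (S.filter fun m => ∀ l ∈ T, l ∣ N * m - p) =
        (Ioc X₁ X₂).filter (fun m => m ≡ c [MOD (q * k * P)]) := by
      ext m
      simp only [hS, mem_filter, mem_Ioc]
      constructor
      · rintro ⟨⟨⟨h1, h2⟩, h3, h4⟩, h5⟩
        refine ⟨⟨h1, h2⟩, ?_⟩
        have hpm : p ≤ N * m := hpX.trans (Nat.mul_le_mul_left N h1.le)
        have h6 : P ∣ N * m - p := Finset.prod_primes_dvd _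
          (fun l hl => (hprime T hT l hl).prime) h5
        have h7 : N * m ≡ N * c [MOD P] :=
          ((Nat.modEq_iff_dvd' hpm).2 h6).symm.trans hc3.symm
        have h8 : m ≡ c [MOD P] := Nat.ModEq.cancel_left_of_coprime
          (by rw [Nat.gcd_comm]; exact hNP) h7
        have h9 : m ≡ c [MOD q] := Nat.ModEq.trans h3 hc1.symm
        have h10 : m ≡ c [MOD k] := ((Nat.modEq_zero_iff_dvd).2 h4).trans hc2.symm
        exact (Nat.modEq_and_modEq_iff_modEq_mul hqkP).1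
          ⟨(Nat.modEq_and_modEq_iff_modEq_mul hco).1 ⟨h9, h10⟩, h8⟩
      · rintro ⟨⟨h1, h2⟩, h3⟩
        have hpm : p ≤ N * m := hpX.trans (Nat.mul_le_mul_left N h1.le)
        obtain ⟨h4, h5⟩ := (Nat.modEq_and_modEq_iff_modEq_mul hqkP).2 h3
        obtain ⟨h6, h7⟩ := (Nat.modEq_and_modEq_iff_modEq_mul hco).2 h4
        refine ⟨⟨⟨h1, h2⟩, h6.trans hc1, (Nat.modEq_zero_iff_dvd).1 (h7.trans hc2)⟩, ?_⟩
        intro l hl
        have h8 : N * m ≡ p [MOD P] := (h5.mul_left N).trans hc3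
        have h9 : P ∣ N * m - p := (Nat.modEq_iff_dvd' hpm).1 h8.symm
        exact (dvd_prod_of_mem _ hl).trans h9
    have hM : 1 ≤ q * k * P := Nat.mul_pos (Nat.mul_pos hyp.hq1 hk) hPpos
    have hcount := count_class (q * k * P) c X₁ X₂ hM hX
    rw [← hset] at hcount
    set n := (((S.filter fun m => ∀ l ∈ T, l ∣ N * m - p).card : ℕ) : ℝ) with hn
    have hPinv : ∏ l ∈ T, (1 / (l : ℝ)) = 1 / (P : ℝ) := by
      rw [hPd, prod_div_distrib, prod_const_one]; push_cast; rfl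
    have e1 : ((X₂ : ℝ) - X₁) / ((q * k * P : ℕ) : ℝ) = ((X₂ : ℝ) - X₁) / (q * k) * (1 / P) := by
      push_cast
      rw [div_mul_div_comm, mul_one]
    rw [e1] at hcount
    rw [hPinv]
    have hs : |(-1 : ℝ) ^ T.card| = 1 := by simp
    have h1 : (-1 : ℝ) ^ T.card * (n - ((X₂ : ℝ) - X₁) / (q * k) * (1 / P)) ≤ 1 := by
      refine (le_abs_self _).trans ?_
      rw [abs_mul, hs, one_mul]
      exact hcount
    linarith
  have hcardfam : ((fam.filter fun T => T ⊆ Q').card : ℝ) ≤ (w : ℝ) ^ B₀ := by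
    have h1 : (fam.filter fun T => T ⊆ Q').card ≤ (Icc 1 (w ^ B₀)).card := by
      refine card_le_card_of_injOn (fun T => ∏ l ∈ T, l) ?_ ?_
      · intro T hT
        have hT' := (mem_filter.1 (mem_coe.1 hT)).1
        simp only [coe_Icc, Set.mem_Icc]
        exact ⟨Nat.one_le_iff_ne_zero.2 (prod_ne_zero_iff.2 fun l hl =>
          (hprime T hT' l hl).ne_zero), maj.lev T hT'⟩
      · intro T hT T' hT' h
        have hT1 := (mem_filter.1 (mem_coe.1 hT)).1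
        have hT2 := (mem_filter.1 (mem_coe.1 hT')).1
        simp only at h
        ext l
        have key : ∀ U ∈ fam, (l ∈ U ↔ l ∈ (∏ i ∈ U, i).primeFactors) := by
          intro U hU
          rw [Nat.primeFactors_prod fun i hi => hprime U hU i hi]
        rw [key T hT1, key T' hT2, h]
    rw [Nat.card_Icc] at h1
    have h2 : (fam.filter fun T => T ⊆ Q').card ≤ w ^ B₀ := by omega
    exact_mod_cast h2
  rw [hswap, ← sum_filter_add_sum_filter_not fam (fun T => T ⊆ Q')]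
  have hsecond : ∑ T ∈ fam.filter (fun T => ¬ T ⊆ Q'), (-1 : ℝ) ^ T.card *
      (((S.filter fun m => ∀ l ∈ T, l ∣ N * m - p).card : ℕ) : ℝ) = 0 := by
    refine sum_eq_zero fun T hT => ?_
    obtain ⟨hT1, hT2⟩ := mem_filter.1 hT
    rw [hzero T hT1 hT2]
    simp
  rw [hsecond, add_zero]
  calc ∑ T ∈ fam.filter (fun T => T ⊆ Q'), (-1 : ℝ) ^ T.card *
      (((S.filter fun m => ∀ l ∈ T, l ∣ N * m - p).card : ℕ) : ℝ)
      ≤ ∑ T ∈ fam.filter (fun T => T ⊆ Q'),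
        (((X₂ : ℝ) - X₁) / (q * k) * ((-1 : ℝ) ^ T.card * ∏ l ∈ T, (1 / (l : ℝ))) + 1) :=
        sum_le_sum fun T hT => hbound T (mem_filter.1 hT).1 (mem_filter.1 hT).2
    _ = ((X₂ : ℝ) - X₁) / (q * k) * ∑ T ∈ fam.filter (fun T => T ⊆ Q'),
          ((-1 : ℝ) ^ T.card * ∏ l ∈ T, (1 / (l : ℝ))) + (fam.filter fun T => T ⊆ Q').card := by
        rw [sum_add_distrib, ← mul_sum, sum_const, nsmul_eq_mul, mul_one]
    _ ≤ ((X₂ : ℝ) - X₁) / (q * k) * (2 * ∏ l ∈ Q', (1 - 1 / (l : ℝ))) + (w : ℝ) ^ B₀ := by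
        have h1 := maj.mean Q' (filter_subset _ _)
        have h2 : 0 ≤ ((X₂ : ℝ) - X₁) / (q * k) := div_nonneg hXr hqk0.le
        gcongr
    _ = 2 * (((X₂ : ℝ) - X₁) / (q * k)) * ∏ l ∈ Q', (1 - 1 / (l : ℝ)) + (w : ℝ) ^ B₀ := by ring

end Pool.Agent.Helper15.AB
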