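import Mathlib
import Pool.Agent.Helper15.AB.StBV

/-!
# AB MODULE TH: Chebyshev bounds
-/

set_option autoImplicit false

namespace Pool.Agent.Helper15.AB

open Finset ArithmeticFunction Filter Asymptotics

namespace hTH

theorem exp_low : Real.exp (0.1 : ℝ) ≤ 1.106 := by
  have h1 : Real.exp (0.1 : ℝ) ^ 10 = Real.exp 1 := by
    rw [← Real.exp_nat_mul]; norm_num
  have h2 := Real.exp_one_lt_d9
  by_contra h
  have h3 : (1.106 : ℝ) ^ 10 ≤ Real.exp (0.1 : ℝ) ^ 10 :=
    pow_le_pow_left₀ (by norm_num) (le_of_lt (not_le.mp h)) 10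
  rw [h1] at h3
  have h4 : (2.7182818286 : ℝ) ≤ (1.106 : ℝ) ^ 10 := by norm_num
  linarith

theorem exp_high : (2.459 : ℝ) ≤ Real.exp (0.9 : ℝ) := by
  have h1 : Real.exp (0.9 : ℝ) ^ 10 = Real.exp 1 ^ 9 := by
    rw [← Real.exp_nat_mul, ← Real.exp_nat_mul]; norm_num
  have h2 := Real.exp_one_gt_d9
  by_contra h
  have h3 : Real.exp (0.9 : ℝ) ^ 10 ≤ (2.459 : ℝ) ^ 10 :=
    pow_le_pow_left₀ (le_of_lt (Real.exp_pos _)) (le_of_lt (not_le.mp h)) 10
  rw [h1] at h3
  have h5 : (2.7182818283 : ℝ) ^ 9 ≤ Real.exp 1 ^ 9 :=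
    pow_le_pow_left₀ (by norm_num) (le_of_lt h2) 9
  have h4 : (2.459 : ℝ) ^ 10 < (2.7182818283 : ℝ) ^ 9 := by norm_num
  linarith

/-- the error terms are small -/
theorem err : ∀ᶠ x : ℝ in atTop,
    Real.log 2 + Real.log (2.459 * x + 2) +
      2 * √(1.106 * x) * Real.log (1.106 * x) ≤ 0.1 * Real.log 2 * x := by
  have hl2 : 0 < Real.log 2 := Real.log_pos (by norm_num)
  -- log (3 x) <= eps sqrt x
  have h1 : (fun y : ℝ => Real.log y) =o[atTop] (fun y : ℝ => y ^ (1 / 4 : ℝ)) :=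
    isLittleO_log_rpow_atTop (by norm_num)
  have h2 := h1.bound (show (0 : ℝ) < 1 by norm_num)
  have h3 : Tendsto (fun x : ℝ => 3 * x) atTop atTop := tendsto_id.const_mul_atTop (by norm_num)
  have h4 := h3.eventually h2
  have h5 : Tendsto (fun x : ℝ => x ^ (1 / 4 : ℝ)) atTop atTop :=
    tendsto_rpow_atTop (by norm_num)
  have h6 := h5.eventually_ge_atTop (200 / Real.log 2)
  filter_upwards [h4, h6, eventually_ge_atTop (4 : ℝ)] with x h4 h6 hx
  have hx0 : 0 < x := by linarith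
  set y := x ^ (1 / 4 : ℝ) with hy
  have hy0 : 0 < y := Real.rpow_pos_of_pos hx0 _
  have hy1 : 1 ≤ y := Real.one_le_rpow (by linarith) (by norm_num)
  have hy4 : y ^ 4 = x := by
    rw [hy, ← Real.rpow_natCast, ← Real.rpow_mul hx0.le]
    norm_num
  have h3y : (3 * x) ^ (1 / 4 : ℝ) ≤ 3 * y := by
    rw [Real.mul_rpow (by norm_num) hx0.le]
    have : (3 : ℝ) ^ (1 / 4 : ℝ) ≤ 3 ^ (1 : ℝ) :=
      Real.rpow_le_rpow_of_exponent_le (by norm_num) (by norm_num)
    rw [Real.rpow_one] at this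
    exact mul_le_mul_of_nonneg_right this hy0.le
  have hlog : Real.log (3 * x) ≤ 3 * y := by
    have h7 : Real.log (3 * x) ≤ ‖Real.log (3 * x)‖ := Real.le_norm_self _
    rw [one_mul, Real.norm_of_nonneg (Real.rpow_nonneg (by linarith) _)] at h4
    linarith
  have ha : Real.log (2.459 * x + 2) ≤ 3 * y := by
    refine le_trans (Real.log_le_log (by linarith) (by linarith)) hlog
  have hb : Real.log (1.106 * x) ≤ 3 * y :=
    le_trans (Real.log_le_log (by linarith) (by linarith)) hlog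
  have hc : √(1.106 * x) ≤ 2 * y ^ 2 := by
    apply Real.sqrt_le_iff.mpr
    constructor
    · positivity
    · nlinarith [hy4]
  have hb0 : 0 ≤ Real.log (1.106 * x) := Real.log_nonneg (by linarith)
  have hd : 2 * √(1.106 * x) * Real.log (1.106 * x) ≤ 2 * (2 * y ^ 2) * (3 * y) := by
    apply mul_le_mul _ hb hb0 (by positivity)
    linarith
  have hl2' : Real.log 2 ≤ 1 := by
    have := Real.log_two_lt_d9
    linarith
  have h6' : 200 ≤ Real.log 2 * y := by
    rw [div_le_iff₀ hl2] at h6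
    linarith
  have he : 0.1 * Real.log 2 * x = 0.1 * (Real.log 2 * y) * y ^ 3 := by
    rw [← hy4]; ring
  rw [he]
  have hy3 : y ≤ y ^ 3 := by nlinarith [hy1, sq_nonneg y]
  have : 0.1 * (Real.log 2 * y) * y ^ 3 ≥ 20 * y ^ 3 := by
    have := mul_le_mul_of_nonneg_right h6' (show 0 ≤ 0.1 * y ^ 3 by positivity)
    nlinarith
  nlinarith [hd, ha, hl2', this, hy3, hy1]

theorem lower_aux (w : ℝ → ℝ) (hw : IsW w) (x : ℝ) (hx : 1 ≤ x) :
    0.001 * (Chebyshev.psi (2.459 * x) - Chebyshev.psi (1.106 * x)) ≤ Th w x := by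
  have hx0 : 0 < x := by linarith
  have hAB : ⌊1.106 * x⌋₊ ≤ ⌊2.459 * x⌋₊ := Nat.floor_mono (by linarith)
  have hB3 : ⌊2.459 * x⌋₊ ≤ ⌊3 * x⌋₊ := Nat.floor_mono (by linarith)
  have h1 : Chebyshev.psi (2.459 * x) - Chebyshev.psi (1.106 * x) =
      ∑ n ∈ Ioc ⌊1.106 * x⌋₊ ⌊2.459 * x⌋₊, Λ n := by
    unfold Chebyshev.psi
    have h2 : Ioc 0 ⌊2.459 * x⌋₊ = Ioc 0 ⌊1.106 * x⌋₊ ∪ Ioc ⌊1.106 * x⌋₊ ⌊2.459 * x⌋₊ := by
      rw [Ioc_union_Ioc_eq_Ioc (Nat.zero_le _) hAB]
    rw [h2, sum_union (Ioc_disjoint_Ioc_of_le le_rfl)]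
    ring
  rw [h1, mul_sum]
  unfold Th
  calc ∑ n ∈ Ioc ⌊1.106 * x⌋₊ ⌊2.459 * x⌋₊, 0.001 * Λ n
      ≤ ∑ n ∈ Ioc ⌊1.106 * x⌋₊ ⌊2.459 * x⌋₊, Λ n * w (Real.log (n / x)) := by
        apply sum_le_sum
        intro n hn
        rw [mem_Ioc] at hn
        have hn1 : 1.106 * x < n := (Nat.floor_lt (by positivity)).mp hn.1
        have hn2 : (n : ℝ) ≤ 2.459 * x := (Nat.le_floor_iff (by positivity)).mp hn.2
        have hnx : 0 < (n : ℝ) / x := by
          apply div_pos _ hx0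
          linarith
        have hl : (0.1 : ℝ) ≤ Real.log (n / x) := by
          rw [Real.le_log_iff_exp_le hnx]
          refine le_trans exp_low ?_
          rw [le_div_iff₀ hx0]
          exact hn1.le
        have hu : Real.log (n / x) ≤ 0.9 := by
          rw [Real.log_le_iff_le_exp hnx]
          refine le_trans ?_ exp_high
          rw [div_le_iff₀ hx0]
          exact hn2
        have := hw.lower _ ⟨hl, hu⟩
        rw [mul_comm]
        exact mul_le_mul_of_nonneg_left this vonMangoldt_nonneg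
    _ ≤ ∑ n ∈ Icc 1 ⌊3 * x⌋₊, Λ n * w (Real.log (n / x)) := by
        apply sum_le_sum_of_subset_of_nonneg
        · intro n hn
          rw [mem_Ioc] at hn
          rw [mem_Icc]
          exact ⟨by omega, le_trans hn.2 hB3⟩
        · intro n _ _
          exact mul_nonneg vonMangoldt_nonneg (hw.nonneg _)

theorem upper_aux (w : ℝ → ℝ) (hw : IsW w) (x : ℝ) : Th w x ≤ Chebyshev.psi (3 * x) := by
  unfold Th
  rw [Chebyshev.psi]
  apply le_trans (sum_le_sum (fun n _ => mul_le_of_le_one_right vonMangoldt_nonneg (hw.le_one _)))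
  apply le_of_eq
  apply sum_congr _ (fun _ _ => rfl)
  ext n
  simp only [mem_Icc, mem_Ioc]
  omega

end hTH

open hTH in
theorem hTH : StTH := by
  intro w hw
  obtain ⟨x₁, hx₁⟩ := eventually_atTop.mp err
  have hl2 : 0 < Real.log 2 := Real.log_pos (by norm_num)
  refine ⟨0.0001 * Real.log 2, (Real.log 4 + 4) * 3, max 1 x₁, by positivity, ?_, le_max_left _ _,
    fun x hx => ?_⟩
  · have : 0 < Real.log 4 := Real.log_pos (by norm_num)
    positivity
  have hx1 : 1 ≤ x := le_trans (le_max_left _ _) hx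
  have hx2 : x₁ ≤ x := le_trans (le_max_right _ _) hx
  have hx0 : 0 < x := by linarith
  constructor
  · refine le_trans ?_ (lower_aux w hw x hx1)
    have h1 := Chebyshev.psi_ge' (x := 2.459 * x) (by positivity)
    have h2 := Chebyshev.psi_le (x := 1.106 * x) (by linarith)
    have h3 := hx₁ x hx2
    have h4 : Real.log 4 = 2 * Real.log 2 := by
      rw [show (4 : ℝ) = 2 ^ 2 by norm_num, Real.log_pow]; norm_num
    rw [h4] at h2
    nlinarith [h1, h2, h3, mul_pos hl2 hx0]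
  · refine le_trans (upper_aux w hw x) ?_
    have := Chebyshev.psi_le_const_mul_self (x := 3 * x) (by positivity)
    linarith

end Pool.Agent.Helper15.AB
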