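import Mathlib
import Pool.Agent.Helper15.AB.StMid

/-!
# Module MV (MP_37d0ef_nt): the Mertens product over the primes not dividing `k`
-/

set_option autoImplicit false

namespace Pool.Agent.Helper15.AB

open Finset ArithmeticFunction Filter Topology

namespace hMV

theorem f_nonneg {l : ℕ} (hl : 1 ≤ l) : 0 ≤ 1 - 1 / (l : ℝ) := by
  have h1 : (1 : ℝ) ≤ l := by exact_mod_cast hl
  have h2 : 1 / (l : ℝ) ≤ 1 := by
    rw [div_le_one (by linarith)]
    exact h1
  linarith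

theorem f_le_one (l : ℕ) : 1 - 1 / (l : ℝ) ≤ 1 := by
  have : 0 ≤ 1 / (l : ℝ) := by positivity
  linarith

theorem tot (k : ℕ) (hk : 1 ≤ k) : (Nat.totient k : ℝ) / k = ∏ l ∈ k.primeFactors,
    (1 - 1 / (l : ℝ)) := by
  have h := Nat.totient_eq_mul_prod_factors k
  have h2 : (Nat.totient k : ℝ) = k * ∏ l ∈ k.primeFactors, (1 - (l : ℝ)⁻¹) := by
    have h3 : (((Nat.totient k : ℕ) : ℚ) : ℝ) =
        (((k : ℚ) * ∏ l ∈ k.primeFactors, (1 - (l : ℚ)⁻¹) : ℚ) : ℝ) := by rw [h]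
    push_cast at h3
    exact h3
  have hk' : (k : ℝ) ≠ 0 := by
    have : (0 : ℝ) < k := by exact_mod_cast hk
    exact this.ne'
  rw [h2, mul_div_cancel_left₀ _ hk']
  exact Finset.prod_congr rfl fun l _ => by rw [one_div]

theorem tot_le (k : ℕ) (hk : 1 ≤ k) (B : Finset ℕ) (hB : B ⊆ k.primeFactors) :
    (Nat.totient k : ℝ) / k ≤ ∏ l ∈ B, (1 - 1 / (l : ℝ)) := by
  rw [tot k hk, ← Finset.prod_sdiff hB]
  have h1 : ∏ l ∈ k.primeFactors \ B, (1 - 1 / (l : ℝ)) ≤ 1 :=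
    Finset.prod_le_one (fun l hl => f_nonneg (Nat.Prime.one_le (Nat.prime_of_mem_primeFactors
      (Finset.mem_sdiff.1 hl).1))) (fun l _ => f_le_one l)
  have h2 : 0 ≤ ∏ l ∈ B, (1 - 1 / (l : ℝ)) :=
    Finset.prod_nonneg fun l hl => f_nonneg (Nat.Prime.one_le (Nat.prime_of_mem_primeFactors
      (hB hl)))
  calc (∏ l ∈ k.primeFactors \ B, (1 - 1 / (l : ℝ))) * ∏ l ∈ B, (1 - 1 / (l : ℝ))
      ≤ 1 * ∏ l ∈ B, (1 - 1 / (l : ℝ)) := mul_le_mul_of_nonneg_right h1 h2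
    _ = _ := one_mul _

/-- the product over all primes in `(3, w]` -/
theorem all (C : ℝ) (hC : 0 < C) (h : ∀ y : ℝ, 3 ≤ y →
    |∑ l ∈ (Icc 1 ⌊y⌋₊).filter Nat.Prime, (1 : ℝ) / l - Real.log (Real.log y)| ≤ C)
    (w : ℕ) (hw : 2 ≤ w) :
    ∏ l ∈ (Ioc 3 w).filter Nat.Prime, (1 - 1 / (l : ℝ)) ≤ Real.exp (C + 1) / Real.log w := by
  have hlogpos : 0 < Real.log w := Real.log_pos (by exact_mod_cast (by omega : 1 < w))
  rcases Nat.lt_or_ge w 3 with hw3 | hw3
  · have hw2 : w = 2 := by omega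
    subst hw2
    have : (Ioc 3 2).filter Nat.Prime = ∅ := by decide
    rw [this, Finset.prod_empty, le_div_iff₀ hlogpos, one_mul]
    have h1 : Real.log (2 : ℕ) ≤ 1 := by
      have := Real.log_two_lt_d9
      push_cast
      linarith
    have h2 : 1 ≤ Real.exp (C + 1) := Real.one_le_exp (by linarith)
    linarith
  · have h1 := (abs_le.1 (h w (by exact_mod_cast hw3))).1
    rw [Nat.floor_natCast] at h1
    have h2 : ∑ l ∈ (Icc 1 w).filter Nat.Prime, (1 : ℝ) / l ≤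
        ∑ l ∈ (Ioc 3 w).filter Nat.Prime, (1 : ℝ) / l + (1 / 2 + 1 / 3) := by
      have hsub : (Icc 1 w).filter Nat.Prime ⊆ (Ioc 3 w).filter Nat.Prime ∪ {2, 3} := by
        intro l hl
        rw [Finset.mem_filter, Finset.mem_Icc] at hl
        rw [Finset.mem_union, Finset.mem_filter, Finset.mem_Ioc, Finset.mem_insert,
          Finset.mem_singleton]
        have := hl.2.two_le
        by_cases h3 : 3 < l
        · exact Or.inl ⟨⟨h3, hl.1.2⟩, hl.2⟩
        · right; omega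
      calc ∑ l ∈ (Icc 1 w).filter Nat.Prime, (1 : ℝ) / l
          ≤ ∑ l ∈ (Ioc 3 w).filter Nat.Prime ∪ {2, 3}, (1 : ℝ) / l :=
            Finset.sum_le_sum_of_subset_of_nonneg hsub fun l _ _ => by positivity
        _ ≤ ∑ l ∈ (Ioc 3 w).filter Nat.Prime, (1 : ℝ) / l + ∑ l ∈ ({2, 3} : Finset ℕ),
              (1 : ℝ) / l := by
            have h3 := Finset.sum_union_inter (s₁ := (Ioc 3 w).filter Nat.Prime)
              (s₂ := ({2, 3} : Finset ℕ)) (f := fun l => (1 : ℝ) / l)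
            have h4 : 0 ≤ ∑ l ∈ (Ioc 3 w).filter Nat.Prime ∩ ({2, 3} : Finset ℕ), (1 : ℝ) / l :=
              Finset.sum_nonneg fun l _ => by positivity
            linarith
        _ = _ := by
            rw [Finset.sum_pair (by norm_num)]
            norm_num
    have h3 : ∏ l ∈ (Ioc 3 w).filter Nat.Prime, (1 - 1 / (l : ℝ)) ≤
        ∏ l ∈ (Ioc 3 w).filter Nat.Prime, Real.exp (-(1 / (l : ℝ))) := by
      refine Finset.prod_le_prod (fun l hl => f_nonneg
        (Nat.Prime.one_le (Finset.mem_filter.1 hl).2)) fun l _ => ?_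
      have := Real.add_one_le_exp (-(1 / (l : ℝ)))
      linarith
    rw [← Real.exp_sum] at h3
    refine h3.trans ?_
    have h4 : Real.exp (C + 1) / Real.log w = Real.exp (C + 1 - Real.log (Real.log w)) := by
      rw [Real.exp_sub, Real.exp_log hlogpos]
    rw [h4]
    apply Real.exp_le_exp.2
    rw [Finset.sum_neg_distrib]
    linarith

end hMV

open hMV in
theorem hMV (hMT : StMT) : StMV := by
  obtain ⟨C, hC, h⟩ := hMT
  refine ⟨Real.exp (C + 1), Real.exp_pos _, fun w k hw hk => ?_⟩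
  have hA := all C hC h w hw
  have hsplit : (∏ l ∈ ((Ioc 3 w).filter Nat.Prime).filter (fun l => l ∣ k),
      (1 - 1 / (l : ℝ))) * ∏ l ∈ ((Ioc 3 w).filter Nat.Prime).filter (fun l => ¬ l ∣ k),
      (1 - 1 / (l : ℝ)) = ∏ l ∈ (Ioc 3 w).filter Nat.Prime, (1 - 1 / (l : ℝ)) :=
    Finset.prod_filter_mul_prod_filter_not _ _ _
  have hset : ((Ioc 3 w).filter Nat.Prime).filter (fun l => ¬ l ∣ k) =
      (Ioc 3 w).filter (fun l => l.Prime ∧ ¬ l ∣ k) := by
    rw [Finset.filter_filter]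
  rw [hset] at hsplit
  have hsub : ((Ioc 3 w).filter Nat.Prime).filter (fun l => l ∣ k) ⊆ k.primeFactors := by
    intro l hl
    rw [Finset.mem_filter, Finset.mem_filter] at hl
    exact Nat.mem_primeFactors.2 ⟨hl.1.2, hl.2, by omega⟩
  have ht := tot_le k hk _ hsub
  have hk0 : (0 : ℝ) < k := by exact_mod_cast hk
  have hφ : (0 : ℝ) < Nat.totient k := by exact_mod_cast Nat.totient_pos.2 hk
  have hX : 0 ≤ ∏ l ∈ (Ioc 3 w).filter (fun l => l.Prime ∧ ¬ l ∣ k), (1 - 1 / (l : ℝ)) :=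
    Finset.prod_nonneg fun l hl => f_nonneg (Nat.Prime.one_le (Finset.mem_filter.1 hl).2.1)
  have h1 : (∏ l ∈ (Ioc 3 w).filter (fun l => l.Prime ∧ ¬ l ∣ k), (1 - 1 / (l : ℝ))) *
      ((Nat.totient k : ℝ) / k) ≤ Real.exp (C + 1) / Real.log w := by
    refine (mul_le_mul_of_nonneg_left ht hX).trans ?_
    rw [mul_comm, hsplit]
    exact hA
  rw [← mul_div_assoc, div_le_iff₀ hk0] at h1
  rw [← mul_div_assoc, le_div_iff₀ hφ]
  exact h1

end Pool.Agent.Helper15.AB
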