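import Mathlib
import Pool.Agent.Helper15.AB.StMid
import Pool.Agent.Helper15.AB.M_MV

/-!
# Module TL (MP_37d0ef_nt): the tail over square divisors
-/

set_option autoImplicit false

namespace Pool.Agent.Helper15.AB

open Finset ArithmeticFunction Filter Topology

namespace hTL

/-! ### The sum of `1 / (g φ(g))` -/

theorem prod_le (T : Finset ℕ) (hT : ∀ p ∈ T, p.Prime) :
    ∏ p ∈ T, 1 / ((p : ℝ) - 1) ≤ 2 * ((∏ p ∈ T, p : ℕ) : ℝ) ^ (-(1 / 2) : ℝ) := by
  have h1 : ∀ p ∈ T, 1 / ((p : ℝ) - 1) ≤ (if p = 2 then 2 else 1) * (p : ℝ) ^ (-(1 / 2) : ℝ) := by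
    intro p hp
    have hp2 := (hT p hp).two_le
    have hp2' : (2 : ℝ) ≤ p := by exact_mod_cast hp2
    have hpos : (0 : ℝ) < p := by linarith
    have hs : (p : ℝ) ^ (-(1 / 2) : ℝ) = 1 / √p := by
      rw [Real.rpow_neg hpos.le, Real.sqrt_eq_rpow, one_div ((p : ℝ) ^ (1 / 2 : ℝ))]
    have hsq : √(p : ℝ) * √p = p := Real.mul_self_sqrt hpos.le
    have hsp : 0 < √(p : ℝ) := Real.sqrt_pos.2 hpos
    rw [hs, mul_one_div, div_le_div_iff₀ (by linarith) hsp, one_mul]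
    by_cases h2 : p = 2
    · subst h2
      rw [if_pos rfl]
      have : √((2 : ℕ) : ℝ) ≤ 2 := by
        rw [Real.sqrt_le_left (by norm_num)]
        norm_num
      push_cast at this ⊢
      linarith
    · rw [if_neg h2, one_mul]
      have h3 : (3 : ℝ) ≤ p := by
        have : 3 ≤ p := by omega
        exact_mod_cast this
      rw [Real.sqrt_le_left (by linarith)]
      nlinarith
  have h0 : ∀ p ∈ T, 0 ≤ 1 / ((p : ℝ) - 1) := by
    intro p hp
    have hp2' : (2 : ℝ) ≤ p := by exact_mod_cast (hT p hp).two_le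
    apply div_nonneg (by norm_num)
    linarith
  refine (Finset.prod_le_prod h0 h1).trans ?_
  rw [Finset.prod_mul_distrib, Finset.prod_ite_eq' T 2 (fun _ => (2 : ℝ))]
  rw [Real.finsetProd_rpow T (fun p => (p : ℝ)) (fun p _ => Nat.cast_nonneg p)]
  push_cast
  have h2 : 0 ≤ (∏ p ∈ T, (p : ℝ)) ^ (-(1 / 2) : ℝ) :=
    Real.rpow_nonneg (Finset.prod_nonneg fun p _ => Nat.cast_nonneg p) _
  refine mul_le_mul_of_nonneg_right ?_ h2
  split_ifs <;> norm_num

theorem ratio_le (g : ℕ) (hg : 1 ≤ g) :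
    (g : ℝ) / Nat.totient g ≤ ∑ d ∈ g.divisors, 2 * (d : ℝ) ^ (-(1 / 2) : ℝ) := by
  have hg0 : (0 : ℝ) < g := by exact_mod_cast hg
  have hφ : (0 : ℝ) < Nat.totient g := by exact_mod_cast Nat.totient_pos.2 hg
  have h1 : (g : ℝ) / Nat.totient g = ∏ p ∈ g.primeFactors, (1 + 1 / ((p : ℝ) - 1)) := by
    have h2 := hMV.tot g hg
    have h3 : (g : ℝ) / Nat.totient g = ((Nat.totient g : ℝ) / g)⁻¹ := by rw [inv_div]
    rw [h3, h2, ← Finset.prod_inv_distrib]
    refine Finset.prod_congr rfl fun p hp => ?_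
    have hp2 : (2 : ℝ) ≤ p := by exact_mod_cast (Nat.prime_of_mem_primeFactors hp).two_le
    have : (p : ℝ) ≠ 0 := by linarith
    have h4 : (p : ℝ) - 1 ≠ 0 := by intro h; linarith
    field_simp
    ring
  rw [h1, Finset.prod_one_add]
  have hinj : Set.InjOn (fun T : Finset ℕ => ∏ p ∈ T, p) (g.primeFactors.powerset : Set (Finset ℕ)) := by
    intro T hT T' hT' h
    have hp : ∀ {U : Finset ℕ}, U ∈ (g.primeFactors.powerset : Set (Finset ℕ)) → ∀ p ∈ U, p.Prime := by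
      intro U hU p hp
      rw [Finset.mem_coe, Finset.mem_powerset] at hU
      exact Nat.prime_of_mem_primeFactors (hU hp)
    have e1 := Nat.primeFactors_prod (hp hT)
    have e2 := Nat.primeFactors_prod (hp hT')
    have h' : ∏ p ∈ T, p = ∏ p ∈ T', p := h
    rw [← e1, ← e2, h']
  calc ∑ T ∈ g.primeFactors.powerset, ∏ p ∈ T, 1 / ((p : ℝ) - 1)
      ≤ ∑ T ∈ g.primeFactors.powerset, 2 * ((∏ p ∈ T, p : ℕ) : ℝ) ^ (-(1 / 2) : ℝ) :=
        Finset.sum_le_sum fun T hT => prod_le T fun p hp =>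
          Nat.prime_of_mem_primeFactors ((Finset.mem_powerset.1 hT) hp)
    _ = ∑ d ∈ g.primeFactors.powerset.image (fun T : Finset ℕ => ∏ p ∈ T, p),
          2 * (d : ℝ) ^ (-(1 / 2) : ℝ) :=
        (Finset.sum_image (f := fun d : ℕ => 2 * (d : ℝ) ^ (-(1 / 2) : ℝ)) hinj).symm
    _ ≤ _ := by
        refine Finset.sum_le_sum_of_subset_of_nonneg ?_ fun d _ _ => by positivity
        intro d hd
        obtain ⟨T, hT, rfl⟩ := Finset.mem_image.1 hd
        rw [Nat.mem_divisors]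
        exact ⟨(Finset.prod_dvd_prod_of_subset _ _ _ (Finset.mem_powerset.1 hT)).trans
          (Nat.prod_primeFactors_dvd g), by omega⟩

theorem inner_le (G M d : ℕ) (hG : 1 ≤ G) (hd : 1 ≤ d) :
    ∑ g ∈ (Ioc G M).filter (fun g => d ∣ g), 1 / (g : ℝ) ^ 2 ≤ 2 / ((d : ℝ) * G) := by
  have hd0 : (0 : ℝ) < d := by exact_mod_cast hd
  have hG0 : (0 : ℝ) < G := by exact_mod_cast hG
  have himg : (Ioc G M).filter (fun g => d ∣ g) = (Ioc (G / d) (M / d)).image (fun e => d * e) := by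
    ext g
    simp only [Finset.mem_filter, Finset.mem_Ioc, Finset.mem_image]
    constructor
    · rintro ⟨⟨h1, h2⟩, e, rfl⟩
      refine ⟨e, ⟨?_, ?_⟩, rfl⟩
      · rw [Nat.div_lt_iff_lt_mul hd, mul_comm]; exact h1
      · rw [Nat.le_div_iff_mul_le hd, mul_comm]; exact h2
    · rintro ⟨e, ⟨h1, h2⟩, rfl⟩
      rw [Nat.div_lt_iff_lt_mul hd, mul_comm] at h1
      rw [Nat.le_div_iff_mul_le hd, mul_comm] at h2
      exact ⟨⟨h1, h2⟩, Dvd.intro e rfl⟩
  rw [himg, Finset.sum_image (fun a _ b _ h => Nat.eq_of_mul_eq_mul_left hd h)]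
  have h1 : ∀ e ∈ Ioc (G / d) (M / d), 1 / ((d * e : ℕ) : ℝ) ^ 2 =
      1 / (d : ℝ) ^ 2 * ((e : ℝ) ^ 2)⁻¹ := by
    intro e _
    push_cast
    rw [mul_pow, one_div, one_div, mul_inv]
  rw [Finset.sum_congr rfl h1, ← Finset.mul_sum]
  have h2 : ∑ e ∈ Ioc (G / d) (M / d), ((e : ℝ) ^ 2)⁻¹ ≤ 2 / (((G / d : ℕ) : ℝ) + 1) := by
    have h3 := sum_Ioo_inv_sq_le (α := ℝ) (G / d) (M / d + 1)
    have h4 : Ioo (G / d) (M / d + 1) = Ioc (G / d) (M / d) := by
      ext e; simp only [Finset.mem_Ioo, Finset.mem_Ioc]; omega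
    rw [h4] at h3
    exact h3
  have h5 : (G : ℝ) / d ≤ ((G / d : ℕ) : ℝ) + 1 := by
    rw [div_le_iff₀ hd0]
    have : G ≤ (G / d + 1) * d := by
      have := Nat.lt_succ_iff.1 (Nat.lt_succ_of_lt (Nat.lt_mul_div_succ G hd))
      nlinarith [Nat.lt_mul_div_succ G hd]
    exact_mod_cast this
  have h6 : 2 / (((G / d : ℕ) : ℝ) + 1) ≤ 2 / ((G : ℝ) / d) :=
    div_le_div_of_nonneg_left (by norm_num) (by positivity) h5
  calc 1 / (d : ℝ) ^ 2 * ∑ e ∈ Ioc (G / d) (M / d), ((e : ℝ) ^ 2)⁻¹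
      ≤ 1 / (d : ℝ) ^ 2 * (2 / ((G : ℝ) / d)) :=
        mul_le_mul_of_nonneg_left (h2.trans h6) (by positivity)
    _ = 2 / ((d : ℝ) * G) := by field_simp

theorem tail_le : ∃ Z : ℝ, 0 < Z ∧ ∀ G M : ℕ, 1 ≤ G →
    ∑ g ∈ Ioc G M, 1 / ((g : ℝ) * Nat.totient g) ≤ Z / G := by
  have hsum : Summable (fun d : ℕ => 1 / (d : ℝ) ^ (3 / 2 : ℝ)) :=
    Real.summable_one_div_nat_rpow.2 (by norm_num)
  set Z := ∑' d : ℕ, 1 / (d : ℝ) ^ (3 / 2 : ℝ) with hZ
  have hZ0 : 0 ≤ Z := tsum_nonneg fun d => by positivity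
  refine ⟨4 * Z + 1, by linarith, fun G M hG => ?_⟩
  have hG0 : (0 : ℝ) < G := by exact_mod_cast hG
  calc ∑ g ∈ Ioc G M, 1 / ((g : ℝ) * Nat.totient g)
      ≤ ∑ g ∈ Ioc G M, ∑ d ∈ g.divisors, 2 * (d : ℝ) ^ (-(1 / 2) : ℝ) * (1 / (g : ℝ) ^ 2) := by
        refine Finset.sum_le_sum fun g hg => ?_
        have hg1 : 1 ≤ g := by
          have := (Finset.mem_Ioc.1 hg).1
          omega
        have hg0 : (0 : ℝ) < g := by exact_mod_cast hg1
        have hφ : (0 : ℝ) < Nat.totient g := by exact_mod_cast Nat.totient_pos.2 hg1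
        have e : 1 / ((g : ℝ) * Nat.totient g) = (g : ℝ) / Nat.totient g * (1 / (g : ℝ) ^ 2) := by
          field_simp
        rw [e, ← Finset.sum_mul]
        exact mul_le_mul_of_nonneg_right (ratio_le g hg1) (by positivity)
    _ = ∑ d ∈ Icc 1 M, ∑ g ∈ (Ioc G M).filter (fun g => d ∣ g),
          2 * (d : ℝ) ^ (-(1 / 2) : ℝ) * (1 / (g : ℝ) ^ 2) := by
        refine Finset.sum_comm' fun g d => ?_
        rw [Finset.mem_Ioc, Nat.mem_divisors, Finset.mem_filter, Finset.mem_Ioc, Finset.mem_Icc]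
        constructor
        · rintro ⟨⟨h1, h2⟩, h3, h4⟩
          exact ⟨⟨⟨h1, h2⟩, h3⟩, Nat.pos_of_dvd_of_pos h3 (by omega),
            (Nat.le_of_dvd (by omega) h3).trans h2⟩
        · rintro ⟨⟨⟨h1, h2⟩, h3⟩, h4, h5⟩
          exact ⟨⟨h1, h2⟩, h3, by omega⟩
    _ ≤ ∑ d ∈ Icc 1 M, 4 / G * (1 / (d : ℝ) ^ (3 / 2 : ℝ)) := by
        refine Finset.sum_le_sum fun d hd => ?_
        have hd1 := (Finset.mem_Icc.1 hd).1
        have hd0 : (0 : ℝ) < d := by exact_mod_cast hd1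
        rw [← Finset.mul_sum]
        have h1 := inner_le G M d hG hd1
        have h2 : (d : ℝ) ^ (-(1 / 2) : ℝ) * (1 / d) = 1 / (d : ℝ) ^ (3 / 2 : ℝ) := by
          have h3 : (1 : ℝ) / d = (d : ℝ) ^ (-1 : ℝ) := by rw [Real.rpow_neg_one, one_div]
          have h4 : 1 / (d : ℝ) ^ (3 / 2 : ℝ) = (d : ℝ) ^ (-(3 / 2) : ℝ) := by
            rw [Real.rpow_neg hd0.le, one_div]
          rw [h3, h4, ← Real.rpow_add hd0]
          norm_num
        calc 2 * (d : ℝ) ^ (-(1 / 2) : ℝ) * ∑ g ∈ (Ioc G M).filter (fun g => d ∣ g),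
              1 / (g : ℝ) ^ 2
            ≤ 2 * (d : ℝ) ^ (-(1 / 2) : ℝ) * (2 / ((d : ℝ) * G)) :=
              mul_le_mul_of_nonneg_left h1 (by positivity)
          _ = 4 / G * ((d : ℝ) ^ (-(1 / 2) : ℝ) * (1 / d)) := by field_simp; ring
          _ = 4 / G * (1 / (d : ℝ) ^ (3 / 2 : ℝ)) := by rw [h2]
    _ = 4 / G * ∑ d ∈ Icc 1 M, 1 / (d : ℝ) ^ (3 / 2 : ℝ) := by rw [Finset.mul_sum]
    _ ≤ 4 / G * Z := mul_le_mul_of_nonneg_left
        (hsum.sum_le_tsum _ fun d _ => by positivity) (by positivity)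
    _ ≤ (4 * Z + 1) / G := by
        rw [div_mul_eq_mul_div]
        exact div_le_div_of_nonneg_right (by linarith) hG0.le

/-! ### The weights -/

theorem lam_nonneg (w : ℝ → ℝ) (hw : IsW w) (x : ℝ) (N p m : ℕ) : 0 ≤ lam w x N p m :=
  mul_nonneg vonMangoldt_nonneg (hw.nonneg _)

theorem lam_le (w : ℝ → ℝ) (hw : IsW w) (x : ℝ) (hx : 0 < x) (N p m : ℕ) :
    lam w x N p m ≤ if ((N * m - p : ℕ) : ℝ) ≤ 3 * x then Λ (N * m - p) else 0 := by
  split_ifs with h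
  · exact mul_le_of_le_one_right vonMangoldt_nonneg (hw.le_one _)
  · rw [lam, hw.supp _ ?_, mul_zero]
    intro h2
    have h3 : 3 < ((N * m - p : ℕ) : ℝ) / x := by
      rw [lt_div_iff₀ hx]
      exact not_le.1 h
    have h4 : 1 < Real.log (((N * m - p : ℕ) : ℝ) / x) := by
      rw [Real.lt_log_iff_exp_lt (by linarith)]
      have := Real.exp_one_lt_d9
      linarith
    exact absurd h2.2 (not_le.2 h4)

theorem Lam_le (x : ℝ) (hx : 3 ≤ x) (n : ℕ) (hn : (n : ℝ) ≤ 3 * x) : Λ n ≤ 2 * Real.log x := by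
  have hlog : 0 ≤ Real.log x := Real.log_nonneg (by linarith)
  refine vonMangoldt_le_log.trans ?_
  rcases Nat.eq_zero_or_pos n with h0 | h0
  · subst h0
    simp only [Nat.cast_zero, Real.log_zero]
    linarith
  · have h1 : (0 : ℝ) < n := by exact_mod_cast h0
    calc Real.log n ≤ Real.log (x ^ 2) := Real.log_le_log h1 (by nlinarith)
      _ = 2 * Real.log x := by rw [Real.log_pow]; norm_num

theorem c4_le_one (n : ℕ) : c4 n ≤ 1 := by
  unfold c4
  split_ifs <;> norm_num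

theorem FF_le_card (k : ℕ) : FF k ≤ (k.divisors.card : ℝ) := by
  unfold FF
  calc ∑ d ∈ k.divisors, c4 d ≤ ∑ d ∈ k.divisors, (1 : ℝ) :=
        Finset.sum_le_sum fun d _ => c4_le_one d
    _ = _ := by rw [Finset.sum_const, nsmul_eq_mul, mul_one]

/-! ### Counting -/

theorem tot_sq (g : ℕ) (hg : 1 ≤ g) : Nat.totient (g ^ 2) = g * Nat.totient g := by
  have h := Nat.totient_gcd_mul_totient_mul g g
  rw [Nat.gcd_self] at h
  have h0 : 0 < Nat.totient g := Nat.totient_pos.2 hg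
  have h2 : Nat.totient g * Nat.totient (g * g) = Nat.totient g * (g * Nat.totient g) := by
    rw [h]; ring
  rw [pow_two]
  exact Nat.eq_of_mul_eq_mul_left h0 h2

theorem card_dvd_le (M k : ℕ) (y : ℝ) (hM : (M : ℝ) ≤ y) (hk : 1 ≤ k) :
    (((Icc 1 M).filter (fun m => k ∣ m)).card : ℝ) ≤ y / k := by
  have h1 : ((Icc 1 M).filter (fun m => k ∣ m)).card = M / k := by
    rw [← Nat.Ioc_filter_dvd_card_eq_div]
    congr 1
  rw [h1]
  have hk0 : (0 : ℝ) < k := by exact_mod_cast hk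
  exact Nat.cast_div_le.trans (div_le_div_of_nonneg_right hM hk0.le)

theorem sum_sq_le (K M : ℕ) : ∑ g ∈ Ioc K M, ((g : ℝ) ^ 2)⁻¹ ≤ 2 / ((K : ℝ) + 1) := by
  have h3 := sum_Ioo_inv_sq_le (α := ℝ) K (M + 1)
  have h4 : Ioo K (M + 1) = Ioc K M := by
    ext e; simp only [Finset.mem_Ioo, Finset.mem_Ioc]; omega
  rw [h4] at h3
  exact h3

/-- the number of square divisors -/
theorem card_sq_le (S : Finset ℕ) (m : ℕ) (hm : 1 ≤ m) (hS : ∀ g ∈ S, g ^ 2 ∣ m) :
    S.card ≤ m.divisors.card := by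
  refine Finset.card_le_card fun g hg => ?_
  rw [Nat.mem_divisors]
  exact ⟨(dvd_pow_self g (by norm_num)).trans (hS g hg), by omega⟩

/-- the sum of `Λ(N m - p)` over the `m` with `N m - p` not prime -/
theorem sum_notprime (N p : ℕ) (hN : 1 ≤ N) (x : ℝ) (hx : 1 ≤ x) (S : Finset ℕ) :
    ∑ m ∈ S.filter (fun m => ¬ (N * m - p).Prime ∧ ((N * m - p : ℕ) : ℝ) ≤ 3 * x),
      Λ (N * m - p) ≤ 2 * √(3 * x) * Real.log (3 * x) := by
  have h1 := Chebyshev.psi_sub_theta_le (x := 3 * x) (by linarith)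
  rw [Chebyshev.psi_sub_theta_eq_sum_not_prime] at h1
  refine le_trans ?_ h1
  set T := S.filter (fun m => ¬ (N * m - p).Prime ∧ ((N * m - p : ℕ) : ℝ) ≤ 3 * x) with hT
  have h2 : ∑ m ∈ T, Λ (N * m - p) = ∑ m ∈ T.filter (fun m => p < N * m), Λ (N * m - p) := by
    refine (Finset.sum_subset (Finset.filter_subset _ _) fun m hm hm' => ?_).symm
    have h : ¬ p < N * m := fun h => hm' (Finset.mem_filter.2 ⟨hm, h⟩)
    have : N * m - p = 0 := by omega
    rw [this]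
    simp
  rw [h2]
  have hinj : Set.InjOn (fun m : ℕ => N * m - p) (T.filter (fun m => p < N * m) : Set ℕ) := by
    intro a ha b hb hab
    rw [Finset.mem_coe, Finset.mem_filter] at ha hb
    have hab' : N * a - p = N * b - p := hab
    have h3 : N * a = N * b := by omega
    exact Nat.eq_of_mul_eq_mul_left hN h3
  rw [← Finset.sum_image (f := fun n : ℕ => Λ n) hinj]
  refine Finset.sum_le_sum_of_subset_of_nonneg ?_ fun n _ _ => vonMangoldt_nonneg
  intro n hn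
  obtain ⟨m, hm, rfl⟩ := Finset.mem_image.1 hn
  rw [Finset.mem_filter, hT, Finset.mem_filter] at hm
  rw [Finset.mem_filter, Finset.mem_Ioc]
  refine ⟨⟨by omega, Nat.le_floor hm.1.2.2⟩, hm.1.2.1⟩


/-- the main part for one `g`: Selberg's sieve -/
theorem main_le (p : ℕ) (C₂ : ℝ) (hC₂ : 0 < C₂) (hS : ∀ (c k : ℕ) (v₀ : ℤ × ℤ) (Y : ℝ),
    1 ≤ c → ¬ p ∣ c → 1 ≤ k → 2 ≤ Y → ((c * k : ℕ) : ℝ) ≤ Y ^ (1 / 20 : ℝ) →
    (Set.ncard {v : ℤ × ℤ | ((v.1 ^ 2 + v.2 ^ 2 : ℤ) : ℝ) ≤ Y ∧ (k : ℤ) ∣ v.1 - v₀.1 ∧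
      (k : ℤ) ∣ v.2 - v₀.2 ∧ ((c : ℤ) * (v.1 ^ 2 + v.2 ^ 2) - p).toNat.Prime} : ℝ) ≤
    C₂ * Y / ((k : ℝ) ^ 2 * Real.log Y) * (((c * k : ℕ) : ℝ) / Nat.totient (c * k)))
    (N g : ℕ) (x : ℝ) (hN : 1 ≤ N) (hg : 1 ≤ g) (hpN : ¬ p ∣ N * g ^ 2)
    (hY : 2 ≤ 4 * x / (g : ℝ) ^ 2) (hc : ((N * g ^ 2 : ℕ) : ℝ) ≤ (4 * x / (g : ℝ) ^ 2) ^ (1 / 20 : ℝ))
    (hx : 3 ≤ x) (hlog : Real.log x ≤ 2 * Real.log (4 * x / (g : ℝ) ^ 2)) (S : Finset ℕ)
    (hSm : ∀ m ∈ S, 1 ≤ m ∧ (m : ℝ) ≤ 4 * x ∧ g ^ 2 ∣ m ∧ (N * m - p).Prime) :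
    ∑ m ∈ S, 2 * Real.log x * (rr (m / g ^ 2) : ℝ) ≤
      16 * C₂ * N * x * (1 / ((g : ℝ) * Nat.totient g)) := by
  have hg0 : (0 : ℝ) < g := by exact_mod_cast hg
  have hφ : (0 : ℝ) < Nat.totient g := by exact_mod_cast Nat.totient_pos.2 hg
  have hN0 : (0 : ℝ) < N := by exact_mod_cast hN
  set Y := 4 * x / (g : ℝ) ^ 2 with hYdef
  have hlogY : 0 < Real.log Y := Real.log_pos (by linarith)
  have hlogx : 0 < Real.log x := Real.log_pos (by linarith)
  set W : Set (ℤ × ℤ) := {v : ℤ × ℤ | ((v.1 ^ 2 + v.2 ^ 2 : ℤ) : ℝ) ≤ Y ∧ ((1 : ℕ) : ℤ) ∣ v.1 - (0 : ℤ × ℤ).1 ∧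
      ((1 : ℕ) : ℤ) ∣ v.2 - (0 : ℤ × ℤ).2 ∧ (((N * g ^ 2 : ℕ) : ℤ) * (v.1 ^ 2 + v.2 ^ 2) - p).toNat.Prime} with hW
  have h1 := hS (N * g ^ 2) 1 0 Y (Nat.mul_pos hN (pow_pos hg 2)) hpN le_rfl hY
    (by rw [mul_one]; exact hc)
  rw [← hW, mul_one] at h1
  -- finiteness
  have hfin : W.Finite := by
    refine Set.Finite.subset (s := Set.Icc (-(⌈Y⌉₊ : ℤ)) ⌈Y⌉₊ ×ˢ Set.Icc (-(⌈Y⌉₊ : ℤ)) ⌈Y⌉₊)
      ((Set.finite_Icc _ _).prod (Set.finite_Icc _ _)) ?_
    rintro ⟨a, b⟩ hv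
    have hv1 : ((a ^ 2 + b ^ 2 : ℤ) : ℝ) ≤ Y := hv.1
    have hv2 : ((a ^ 2 + b ^ 2 : ℤ) : ℝ) ≤ ((⌈Y⌉₊ : ℤ) : ℝ) := by
      refine hv1.trans ?_
      have := Nat.le_ceil Y
      exact_mod_cast this
    have hv3 : a ^ 2 + b ^ 2 ≤ (⌈Y⌉₊ : ℤ) := by exact_mod_cast hv2
    rw [Set.mem_prod, Set.mem_Icc, Set.mem_Icc]
    refine ⟨⟨?_, ?_⟩, ?_, ?_⟩ <;> nlinarith [Int.le_self_sq a, Int.le_self_sq b, Int.le_self_sq (-a),
      Int.le_self_sq (-b), sq_nonneg a, sq_nonneg b]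
  -- the fibres
  have h2 : ∑ m ∈ S, rr (m / g ^ 2) ≤ W.ncard := by
    rw [Set.ncard_eq_toFinset_card W hfin]
    set f : ℤ × ℤ → ℕ := fun v => g ^ 2 * (v.1 ^ 2 + v.2 ^ 2).toNat with hf
    have h3 : ∀ m ∈ S, rr (m / g ^ 2) = (hfin.toFinset.filter (fun v => f v = m)).card := by
      intro m hm
      obtain ⟨hm1, hm2, hm3, hm4⟩ := hSm m hm
      rw [rr, ← Set.ncard_coe_finset]
      congr 1
      ext ⟨a, b⟩
      rw [Finset.mem_coe, Finset.mem_filter, Set.Finite.mem_toFinset, Set.mem_ofPred_eq]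
      obtain ⟨j, rfl⟩ := hm3
      have hg2 : 0 < g ^ 2 := pow_pos hg 2
      rw [Nat.mul_div_cancel_left _ hg2]
      have hfe : f (a, b) = g ^ 2 * (a ^ 2 + b ^ 2).toNat := rfl
      rw [hfe]
      constructor
      · intro h
        have h : a ^ 2 + b ^ 2 = (j : ℤ) := h
        refine ⟨⟨?_, ?_, ?_, ?_⟩, ?_⟩
        · show ((a ^ 2 + b ^ 2 : ℤ) : ℝ) ≤ Y
          rw [h, hYdef, le_div_iff₀ (by positivity)]
          push_cast at hm2 ⊢
          linarith
        · exact one_dvd _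
        · exact one_dvd _
        · show (((N * g ^ 2 : ℕ) : ℤ) * (a ^ 2 + b ^ 2) - p).toNat.Prime
          rw [h]
          have e : (((N * g ^ 2 : ℕ) : ℤ) * (j : ℤ) - (p : ℤ)).toNat = N * (g ^ 2 * j) - p := by
            rw [← mul_assoc, ← Nat.cast_mul, Int.toNat_sub]
          rw [e]
          exact hm4
        · rw [h]
          simp
      · rintro ⟨-, h⟩
        show a ^ 2 + b ^ 2 = (j : ℤ)
        have h' := Nat.eq_of_mul_eq_mul_left hg2 h
        have h0 : 0 ≤ a ^ 2 + b ^ 2 := by positivity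
        omega
    rw [Finset.sum_congr rfl h3, Finset.sum_card_fiberwise_eq_card_filter]
    exact Finset.card_le_card (Finset.filter_subset _ _)
  have h3 : (∑ m ∈ S, (rr (m / g ^ 2) : ℝ)) ≤ W.ncard := by exact_mod_cast h2
  -- the totient
  have h4 : ((N * g ^ 2 : ℕ) : ℝ) / Nat.totient (N * g ^ 2) ≤ N * (g / Nat.totient g) := by
    have h5 : g * Nat.totient g ≤ Nat.totient (N * g ^ 2) := by
      rw [← tot_sq g hg]
      exact Nat.le_of_dvd (Nat.totient_pos.2 (Nat.mul_pos hN (pow_pos hg 2)))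
        (Nat.totient_dvd_of_dvd (Dvd.intro_left N rfl))
    have h6 : ((g * Nat.totient g : ℕ) : ℝ) ≤ Nat.totient (N * g ^ 2) := by exact_mod_cast h5
    push_cast at h6 ⊢
    calc (N : ℝ) * (g : ℝ) ^ 2 / Nat.totient (N * g ^ 2) ≤ (N : ℝ) * (g : ℝ) ^ 2 / (g * Nat.totient g) :=
          div_le_div_of_nonneg_left (by positivity) (by positivity) h6
      _ = N * (g / Nat.totient g) := by field_simp
  rw [← Finset.mul_sum]
  calc 2 * Real.log x * ∑ m ∈ S, (rr (m / g ^ 2) : ℝ)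
      ≤ 2 * Real.log x * (C₂ * Y / (((1 : ℕ) : ℝ) ^ 2 * Real.log Y) *
          (((N * g ^ 2 : ℕ) : ℝ) / Nat.totient (N * g ^ 2))) :=
        mul_le_mul_of_nonneg_left (h3.trans h1) (by linarith)
    _ ≤ 2 * (2 * Real.log Y) * (C₂ * Y / (((1 : ℕ) : ℝ) ^ 2 * Real.log Y) *
          (N * (g / Nat.totient g))) := by
        have hY0 : 0 ≤ Y := by linarith
        gcongr
    _ = 16 * C₂ * N * x * (1 / ((g : ℝ) * Nat.totient g)) := by
        rw [hYdef] at hlogY ⊢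
        field_simp
        norm_num


theorem core (N p q m₁ : ℕ) (hyp : Hyp N p q m₁) (w : ℝ → ℝ) (hw : IsW w) (C₂ : ℝ) (hC₂ : 0 < C₂)
    (hS : ∀ (c k : ℕ) (v₀ : ℤ × ℤ) (Y : ℝ),
      1 ≤ c → ¬ p ∣ c → 1 ≤ k → 2 ≤ Y → ((c * k : ℕ) : ℝ) ≤ Y ^ (1 / 20 : ℝ) →
      (Set.ncard {v : ℤ × ℤ | ((v.1 ^ 2 + v.2 ^ 2 : ℤ) : ℝ) ≤ Y ∧ (k : ℤ) ∣ v.1 - v₀.1 ∧
        (k : ℤ) ∣ v.2 - v₀.2 ∧ ((c : ℤ) * (v.1 ^ 2 + v.2 ^ 2) - p).toNat.Prime} : ℝ) ≤
      C₂ * Y / ((k : ℝ) ^ 2 * Real.log Y) * (((c * k : ℕ) : ℝ) / Nat.totient (c * k)))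
    (hRR : StRR) (Z : ℝ) (hZt : ∀ G M : ℕ, 1 ≤ G →
      ∑ g ∈ Ioc G M, 1 / ((g : ℝ) * Nat.totient g) ≤ Z / G) (G : ℕ) (hG : 1 ≤ G) (x u : ℝ)
    (hx : 3 ≤ x) (hu : u ^ 400 = x) (hlog : Real.log x ≤ u) (hu2 : 2 ≤ u) (hNu : (N : ℝ) ≤ u)
    (hGu : 32 * (G : ℝ) ≤ u)
    (hdiv : ∀ n : ℕ, 1 ≤ n → (n : ℝ) ≤ 4 * x → (n.divisors.card : ℝ) ≤ u ^ 2) :
    ∑ g ∈ (Ioc G ⌊4 * x⌋₊).filter (fun g => Nat.Coprime g q),
      ∑ m ∈ (ms x q m₁).filter (fun m => g ^ 2 ∣ m), lam w x N p m * FF (m / g ^ 2) ≤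
      (16 * C₂ * N * Z + 1) / G * x := by
  have hG0 : (0 : ℝ) < G := by exact_mod_cast hG
  have hN0 : (0 : ℝ) < N := by exact_mod_cast hyp.hN
  have hx0 : (0 : ℝ) < x := by linarith
  have hu0 : (0 : ℝ) < u := by linarith
  have hu1 : (1 : ℝ) ≤ u := by linarith
  have hlogx : 0 < Real.log x := Real.log_pos (by linarith)
  set M := ⌊4 * x⌋₊ with hM
  have hMx : (M : ℝ) ≤ 4 * x := Nat.floor_le (by linarith)
  set S₀ := (Ioc G M).filter (fun g => Nat.Coprime g q) with hS₀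
  have hms : ∀ m ∈ ms x q m₁, 1 ≤ m ∧ (m : ℝ) ≤ 4 * x := by
    intro m hm
    rw [ms, Finset.mem_filter, Finset.mem_Icc] at hm
    refine ⟨hm.1.1, le_trans ?_ hMx⟩
    exact_mod_cast hm.1.2
  -- the pointwise bound
  have hpt : ∀ g ∈ S₀, ∀ m ∈ (ms x q m₁).filter (fun m => g ^ 2 ∣ m),
      lam w x N p m * FF (m / g ^ 2) ≤
        (if (N * m - p).Prime ∧ (g : ℝ) ≤ u ^ 4 then 2 * Real.log x * (rr (m / g ^ 2) : ℝ) else 0) +
        (if u ^ 4 < (g : ℝ) then 2 * Real.log x * u ^ 2 else 0) +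
        (if ¬ (N * m - p).Prime ∧ ((N * m - p : ℕ) : ℝ) ≤ 3 * x then Λ (N * m - p) * u ^ 2 else 0) := by
    intro g hg m hm
    rw [Finset.mem_filter] at hm
    obtain ⟨hm1, hm2⟩ := hms m hm.1
    have hg1 : 1 ≤ g := by
      rw [hS₀, Finset.mem_filter, Finset.mem_Ioc] at hg
      omega
    have hk1 : 1 ≤ m / g ^ 2 := Nat.div_pos (Nat.le_of_dvd hm1 hm.2) (pow_pos hg1 2)
    have hk2 : ((m / g ^ 2 : ℕ) : ℝ) ≤ 4 * x := by
      refine le_trans ?_ hm2
      exact_mod_cast Nat.div_le_self m (g ^ 2)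
    have hF1 := hRR _ hk1
    have hF2 := (FF_le_card (m / g ^ 2)).trans (hdiv _ hk1 hk2)
    have hl0 := lam_nonneg w hw x N p m
    have hl1 := lam_le w hw x hx0 N p m
    have hL0 : 0 ≤ 2 * Real.log x := by linarith
    have hΛ0 : 0 ≤ Λ (N * m - p) := vonMangoldt_nonneg
    have ha : 0 ≤ (if (N * m - p).Prime ∧ (g : ℝ) ≤ u ^ 4 then
        2 * Real.log x * (rr (m / g ^ 2) : ℝ) else 0) := by
      split_ifs
      · positivity
      · exact le_rfl
    have hb : 0 ≤ (if u ^ 4 < (g : ℝ) then 2 * Real.log x * u ^ 2 else 0) := by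
      split_ifs
      · positivity
      · exact le_rfl
    have hc : 0 ≤ (if ¬ (N * m - p).Prime ∧ ((N * m - p : ℕ) : ℝ) ≤ 3 * x then
        Λ (N * m - p) * u ^ 2 else 0) := by
      split_ifs
      · positivity
      · exact le_rfl
    by_cases h3 : ((N * m - p : ℕ) : ℝ) ≤ 3 * x
    · rw [if_pos h3] at hl1
      have hl2 : lam w x N p m ≤ 2 * Real.log x := hl1.trans (Lam_le x hx _ h3)
      by_cases hpr : (N * m - p).Prime
      · by_cases hgu : (g : ℝ) ≤ u ^ 4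
        · have h5 : lam w x N p m * FF (m / g ^ 2) ≤ 2 * Real.log x * (rr (m / g ^ 2) : ℝ) :=
            (mul_le_mul_of_nonneg_left hF1 hl0).trans
              (mul_le_mul_of_nonneg_right hl2 (Nat.cast_nonneg _))
          rw [if_pos ⟨hpr, hgu⟩]
          linarith
        · have h5 : lam w x N p m * FF (m / g ^ 2) ≤ 2 * Real.log x * u ^ 2 :=
            (mul_le_mul_of_nonneg_left hF2 hl0).trans
              (mul_le_mul_of_nonneg_right hl2 (by positivity))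
          rw [if_pos (not_le.1 hgu)]
          linarith
      · have h5 : lam w x N p m * FF (m / g ^ 2) ≤ Λ (N * m - p) * u ^ 2 :=
          (mul_le_mul_of_nonneg_left hF2 hl0).trans
            (mul_le_mul_of_nonneg_right hl1 (by positivity))
        rw [if_pos (⟨hpr, h3⟩ : ¬ (N * m - p).Prime ∧ ((N * m - p : ℕ) : ℝ) ≤ 3 * x)]
        linarith
    · rw [if_neg h3] at hl1
      have : lam w x N p m = 0 := le_antisymm hl1 hl0
      rw [this, zero_mul]
      linarith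
  refine (Finset.sum_le_sum fun g hg => Finset.sum_le_sum fun m hm => hpt g hg m hm).trans ?_
  simp only [Finset.sum_add_distrib]
  -- the main part
  have hA : ∑ g ∈ S₀, ∑ m ∈ (ms x q m₁).filter (fun m => g ^ 2 ∣ m),
      (if (N * m - p).Prime ∧ (g : ℝ) ≤ u ^ 4 then 2 * Real.log x * (rr (m / g ^ 2) : ℝ) else 0) ≤
      16 * C₂ * N * x * (Z / G) := by
    calc _ ≤ ∑ g ∈ S₀, 16 * C₂ * N * x * (1 / ((g : ℝ) * Nat.totient g)) := by
          refine Finset.sum_le_sum fun g hg => ?_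
          rw [hS₀, Finset.mem_filter, Finset.mem_Ioc] at hg
          have hg1 : 1 ≤ g := by omega
          have hg0 : (0 : ℝ) < g := by exact_mod_cast hg1
          by_cases hgu : (g : ℝ) ≤ u ^ 4
          · have hYge : u ^ 392 ≤ 4 * x / (g : ℝ) ^ 2 := by
              rw [le_div_iff₀ (by positivity)]
              calc u ^ 392 * (g : ℝ) ^ 2 ≤ u ^ 392 * (u ^ 4) ^ 2 := by gcongr
                _ = u ^ 400 := by ring
                _ = x := hu
                _ ≤ 4 * x := by linarith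
            have hu392 : u ≤ u ^ 392 := le_self_pow₀ hu1 (by norm_num)
            have hpN : ¬ p ∣ N * g ^ 2 := by
              intro h
              rcases (Nat.Prime.dvd_mul hyp.hp).1 h with h | h
              · exact hyp.hNp h
              · have h1 := hyp.hp.dvd_of_dvd_pow h
                have h2 := Nat.dvd_gcd h1 hyp.hpq
                rw [hg.2] at h2
                exact hyp.hp.one_lt.ne' (Nat.dvd_one.1 h2)
            have h1 := main_le p C₂ hC₂ hS N g x hyp.hN hg1 hpN (by linarith) ?_ hx ?_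
              (((ms x q m₁).filter (fun m => g ^ 2 ∣ m)).filter (fun m => (N * m - p).Prime)) ?_
            · refine le_trans (le_of_eq ?_) h1
              rw [Finset.sum_filter (fun m => (N * m - p).Prime)]
              refine Finset.sum_congr rfl fun m _ => ?_
              by_cases hpr : (N * m - p).Prime
              · rw [if_pos ⟨hpr, hgu⟩, if_pos hpr]
              · rw [if_neg (fun h => hpr h.1), if_neg hpr]
            · have h2 : (((N * g ^ 2 : ℕ) : ℝ)) ^ 20 ≤ 4 * x / (g : ℝ) ^ 2 := by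
                refine le_trans ?_ hYge
                push_cast
                calc ((N : ℝ) * (g : ℝ) ^ 2) ^ 20 ≤ (u * (u ^ 4) ^ 2) ^ 20 := by gcongr
                  _ = u ^ 180 := by ring
                  _ ≤ u ^ 392 := pow_le_pow_right₀ hu1 (by norm_num)
              have h3 := Real.rpow_le_rpow (by positivity) h2 (by norm_num : (0 : ℝ) ≤ 1 / 20)
              refine le_trans (le_of_eq ?_) h3
              rw [← Real.rpow_natCast, ← Real.rpow_mul (Nat.cast_nonneg _)]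
              norm_num
            · have h2 : Real.log x ≤ Real.log ((4 * x / (g : ℝ) ^ 2) ^ 2) := by
                refine Real.log_le_log hx0 ?_
                calc x = u ^ 400 := hu.symm
                  _ ≤ u ^ 784 := pow_le_pow_right₀ hu1 (by norm_num)
                  _ = (u ^ 392) ^ 2 := by ring
                  _ ≤ _ := by gcongr
              rw [Real.log_pow] at h2
              exact_mod_cast h2
            · intro m hm
              rw [Finset.mem_filter, Finset.mem_filter] at hm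
              exact ⟨(hms m hm.1.1).1, (hms m hm.1.1).2, hm.1.2, hm.2⟩
          · rw [Finset.sum_eq_zero]
            · positivity
            · intro m _
              rw [if_neg (fun h => hgu h.2)]
      _ ≤ ∑ g ∈ Ioc G M, 16 * C₂ * N * x * (1 / ((g : ℝ) * Nat.totient g)) :=
          Finset.sum_le_sum_of_subset_of_nonneg (Finset.filter_subset _ _) fun g _ _ => by positivity
      _ = 16 * C₂ * N * x * ∑ g ∈ Ioc G M, 1 / ((g : ℝ) * Nat.totient g) := by rw [Finset.mul_sum]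
      _ ≤ _ := mul_le_mul_of_nonneg_left (hZt G M hG) (by positivity)
  -- large `g`
  have hB : ∑ g ∈ S₀, ∑ m ∈ (ms x q m₁).filter (fun m => g ^ 2 ∣ m),
      (if u ^ 4 < (g : ℝ) then 2 * Real.log x * u ^ 2 else 0) ≤ x / (2 * G) := by
    calc _ ≤ ∑ g ∈ Ioc ⌊u ^ 4⌋₊ M, 2 * Real.log x * u ^ 2 * (4 * x) * ((g : ℝ) ^ 2)⁻¹ := by
          calc _ ≤ ∑ g ∈ S₀.filter (fun g : ℕ => u ^ 4 < (g : ℝ)),
                2 * Real.log x * u ^ 2 * (4 * x) * ((g : ℝ) ^ 2)⁻¹ := by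
                rw [Finset.sum_filter (fun g : ℕ => u ^ 4 < (g : ℝ))]
                refine Finset.sum_le_sum fun g hg => ?_
                rw [hS₀, Finset.mem_filter, Finset.mem_Ioc] at hg
                have hg1 : 1 ≤ g := by omega
                by_cases hgu : u ^ 4 < (g : ℝ)
                · rw [if_pos hgu, if_pos hgu, Finset.sum_const, nsmul_eq_mul]
                  have h1 : ((((ms x q m₁).filter (fun m => g ^ 2 ∣ m)).card : ℕ) : ℝ) ≤
                      4 * x / ((g ^ 2 : ℕ) : ℝ) := by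
                    refine le_trans ?_ (card_dvd_le M (g ^ 2) (4 * x) hMx (Nat.pow_pos hg1))
                    have : (ms x q m₁).filter (fun m => g ^ 2 ∣ m) ⊆
                        (Icc 1 M).filter (fun m => g ^ 2 ∣ m) :=
                      Finset.filter_subset_filter _ (Finset.filter_subset _ _)
                    exact_mod_cast Finset.card_le_card this
                  calc _ ≤ 4 * x / ((g ^ 2 : ℕ) : ℝ) * (2 * Real.log x * u ^ 2) :=
                        mul_le_mul_of_nonneg_right h1 (by positivity)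
                    _ = _ := by push_cast; ring
                · rw [if_neg hgu, if_neg hgu, Finset.sum_const_zero]
            _ ≤ _ := by
                refine Finset.sum_le_sum_of_subset_of_nonneg ?_ fun g _ _ => by positivity
                intro g hg
                rw [Finset.mem_filter, hS₀, Finset.mem_filter, Finset.mem_Ioc] at hg
                rw [Finset.mem_Ioc]
                exact ⟨(Nat.floor_lt (by positivity)).2 hg.2, hg.1.1.2⟩
      _ = 2 * Real.log x * u ^ 2 * (4 * x) * ∑ g ∈ Ioc ⌊u ^ 4⌋₊ M, ((g : ℝ) ^ 2)⁻¹ := by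
          rw [Finset.mul_sum]
      _ ≤ 2 * Real.log x * u ^ 2 * (4 * x) * (2 / u ^ 4) := by
          refine mul_le_mul_of_nonneg_left ((sum_sq_le _ _).trans ?_) (by positivity)
          exact div_le_div_of_nonneg_left (by norm_num) (by positivity) (Nat.lt_floor_add_one _).le
      _ ≤ 2 * u * u ^ 2 * (4 * x) * (2 / u ^ 4) := by gcongr
      _ = 16 * x / u := by field_simp; norm_num
      _ ≤ 16 * x / (32 * G) := div_le_div_of_nonneg_left (by positivity) (by positivity) hGu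
      _ = x / (2 * G) := by field_simp; norm_num
  -- the prime powers
  have hC : ∑ g ∈ S₀, ∑ m ∈ (ms x q m₁).filter (fun m => g ^ 2 ∣ m),
      (if ¬ (N * m - p).Prime ∧ ((N * m - p : ℕ) : ℝ) ≤ 3 * x then Λ (N * m - p) * u ^ 2 else 0) ≤
      x / (2 * G) := by
    calc _ = ∑ m ∈ ms x q m₁, ∑ g ∈ S₀.filter (fun g => g ^ 2 ∣ m),
          (if ¬ (N * m - p).Prime ∧ ((N * m - p : ℕ) : ℝ) ≤ 3 * x then
            Λ (N * m - p) * u ^ 2 else 0) := by
          refine Finset.sum_comm' fun g m => ?_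
          simp only [Finset.mem_filter]
          tauto
      _ ≤ ∑ m ∈ (ms x q m₁).filter (fun m => ¬ (N * m - p).Prime ∧
            ((N * m - p : ℕ) : ℝ) ≤ 3 * x), u ^ 4 * Λ (N * m - p) := by
          rw [Finset.sum_filter (fun m => ¬ (N * m - p).Prime ∧
            ((N * m - p : ℕ) : ℝ) ≤ 3 * x)]
          refine Finset.sum_le_sum fun m hm => ?_
          obtain ⟨hm1, hm2⟩ := hms m hm
          by_cases h : ¬ (N * m - p).Prime ∧ ((N * m - p : ℕ) : ℝ) ≤ 3 * x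
          · rw [if_pos h, if_pos h, Finset.sum_const, nsmul_eq_mul]
            have h1 : (((S₀.filter (fun g => g ^ 2 ∣ m)).card : ℕ) : ℝ) ≤ u ^ 2 := by
              refine le_trans ?_ (hdiv m hm1 hm2)
              exact_mod_cast card_sq_le _ m hm1 fun g hg => (Finset.mem_filter.1 hg).2
            have hΛ0 : 0 ≤ Λ (N * m - p) := vonMangoldt_nonneg
            calc _ ≤ u ^ 2 * (Λ (N * m - p) * u ^ 2) :=
                  mul_le_mul_of_nonneg_right h1 (by positivity)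
              _ = _ := by ring
          · rw [if_neg h, if_neg h, Finset.sum_const_zero]
      _ = u ^ 4 * ∑ m ∈ (ms x q m₁).filter (fun m => ¬ (N * m - p).Prime ∧
            ((N * m - p : ℕ) : ℝ) ≤ 3 * x), Λ (N * m - p) := by rw [Finset.mul_sum]
      _ ≤ u ^ 4 * (2 * √(3 * x) * Real.log (3 * x)) :=
          mul_le_mul_of_nonneg_left (sum_notprime N p hyp.hN x (by linarith) _) (by positivity)
      _ ≤ u ^ 4 * (2 * (2 * u ^ 200) * (2 * u)) := by
          have h1 : √(3 * x) ≤ 2 * u ^ 200 := by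
            rw [Real.sqrt_le_left (by positivity)]
            calc 3 * x ≤ 4 * x := by linarith
              _ = (2 * u ^ 200) ^ 2 := by rw [← hu]; ring
          have h2 : Real.log (3 * x) ≤ 2 * u := by
            calc Real.log (3 * x) ≤ Real.log (x ^ 2) :=
                  Real.log_le_log (by linarith) (by nlinarith)
              _ = 2 * Real.log x := by rw [Real.log_pow]; norm_num
              _ ≤ 2 * u := by linarith
          have h3 : 0 ≤ Real.log (3 * x) := Real.log_nonneg (by linarith)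
          gcongr
      _ = 8 * u ^ 205 := by ring
      _ ≤ x / (2 * G) := by
          rw [le_div_iff₀ (by positivity)]
          calc 8 * u ^ 205 * (2 * G) = u ^ 205 * (16 * G) := by ring
            _ ≤ u ^ 205 * u := by
                refine mul_le_mul_of_nonneg_left ?_ (by positivity)
                linarith
            _ = u ^ 206 := by ring
            _ ≤ u ^ 400 := pow_le_pow_right₀ hu1 (by norm_num)
            _ = x := hu
  calc _ ≤ 16 * C₂ * N * x * (Z / G) + x / (2 * G) + x / (2 * G) := add_le_add (add_le_add hA hB) hC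
    _ = _ := by field_simp; ring

end hTL

/-- TL: the tail over square divisors -/
theorem hTL (hS2 : StS2) (hRR : StRR) (hDB : StDB) : StTL := by
  intro N p q m₁ hyp w hw
  obtain ⟨C₂, hC₂, hS⟩ := hS2 p hyp.hp hyp.hp2
  obtain ⟨Z, hZ, hZt⟩ := hTL.tail_le
  obtain ⟨Ce, hCe, hdiv⟩ := hDB ((400 : ℕ) : ℝ)⁻¹ (by norm_num)
  have hN0 : (0 : ℝ) < N := by exact_mod_cast hyp.hN
  refine ⟨16 * C₂ * N * Z + 1, by positivity, fun G hG => ?_⟩
  have he1 : ∀ᶠ x : ℝ in atTop, Real.log x ≤ x ^ (((400 : ℕ) : ℝ)⁻¹) := by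
    have h := isLittleO_log_rpow_atTop (r := ((400 : ℕ) : ℝ)⁻¹) (by norm_num)
    filter_upwards [h.bound (by norm_num : (0 : ℝ) < 1), eventually_ge_atTop 1] with x hx hx1
    rw [one_mul, Real.norm_eq_abs, Real.norm_eq_abs, abs_of_nonneg (Real.log_nonneg hx1),
      abs_of_nonneg (Real.rpow_nonneg (by linarith) _)] at hx
    exact hx
  have he2 : ∀ᶠ x : ℝ in atTop, 2 * Ce + N + 32 * G + 2 ≤ x ^ (((400 : ℕ) : ℝ)⁻¹) :=
    (tendsto_rpow_atTop (by norm_num)).eventually_ge_atTop _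
  obtain ⟨x₀, hx₀⟩ := eventually_atTop.1 ((he1.and he2).and (eventually_ge_atTop 3))
  refine ⟨x₀, fun x hx => ?_⟩
  obtain ⟨⟨h1, h2⟩, h3⟩ := hx₀ x hx
  have hx0 : (0 : ℝ) ≤ x := by linarith
  have hu := Real.rpow_inv_natCast_pow hx0 (n := 400) (by norm_num)
  set u := x ^ (((400 : ℕ) : ℝ)⁻¹) with hudef
  have hG0 : (0 : ℝ) < G := by exact_mod_cast hG
  refine hTL.core N p q m₁ hyp w hw C₂ hC₂ hS hRR Z hZt G hG x u h3 hu h1 (by linarith)
    (by linarith) (by linarith) fun n hn hn4 => ?_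
  have hu0 : 0 < u := by linarith
  calc (n.divisors.card : ℝ) ≤ Ce * (n : ℝ) ^ (((400 : ℕ) : ℝ)⁻¹) := hdiv n hn
    _ ≤ Ce * (4 * x) ^ (((400 : ℕ) : ℝ)⁻¹) := by
        refine mul_le_mul_of_nonneg_left ?_ (by linarith)
        exact Real.rpow_le_rpow (Nat.cast_nonneg _) hn4 (by norm_num)
    _ = Ce * (4 ^ (((400 : ℕ) : ℝ)⁻¹) * u) := by
        rw [Real.mul_rpow (by norm_num) hx0]
    _ ≤ Ce * (2 * u) := by
        have h5 : (4 : ℝ) ^ (((400 : ℕ) : ℝ)⁻¹) ≤ 2 := by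
          calc (4 : ℝ) ^ (((400 : ℕ) : ℝ)⁻¹) ≤ 4 ^ (1 / 2 : ℝ) :=
                Real.rpow_le_rpow_of_exponent_le (by norm_num) (by norm_num)
            _ = 2 := by
                rw [← Real.sqrt_eq_rpow, show (4 : ℝ) = 2 ^ 2 by norm_num]
                exact Real.sqrt_sq (by norm_num)
        gcongr
    _ = (2 * Ce) * u := by ring
    _ ≤ u * u := mul_le_mul_of_nonneg_right (by linarith) hu0.le
    _ = u ^ 2 := by ring

end Pool.Agent.Helper15.AB
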