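import Mathlib
import Pool.Agent.Helper15.AB.StBV

/-!
# Project AB, module TS: smooth sums over primes, small conductor
-/

set_option autoImplicit false

namespace Pool.Agent.Helper15.AB

open Finset ArithmeticFunction MeasureTheory

namespace TSaux

/-- derivatives of `g(t) e^{σ t}` -/
theorem phi_bound (g : ℝ → ℝ) (hg : ContDiff ℝ 2 g)
    (hs : ∀ t, t ∉ Set.Icc (0 : ℝ) 1 → g t = 0) : ∃ M : ℝ, 0 ≤ M ∧ ∀ σ : ℝ, 1 ≤ σ → σ ≤ 2 →
    ContDiff ℝ 2 (fun t => g t * Real.exp (σ * t)) ∧ (∀ t, |g t * Real.exp (σ * t)| ≤ M) ∧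
    ∀ t, |iteratedDeriv 2 (fun t => g t * Real.exp (σ * t)) t| ≤ M := by
  have hg1 : ContDiff ℝ 1 (deriv g) := by
    have h : ContDiff ℝ (1 + 1) g := by
      rw [one_add_one_eq_two]; exact hg
    exact (contDiff_succ_iff_deriv.1 h).2.2
  have hd : Differentiable ℝ g := hg.differentiable (by norm_num)
  have hd1 : Differentiable ℝ (deriv g) := hg1.differentiable (by norm_num)
  have hc2 : Continuous (deriv (deriv g)) := hg1.continuous_deriv le_rfl
  have t0 : tsupport g ⊆ Set.Icc (0 : ℝ) 1 := by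
    refine closure_minimal ?_ isClosed_Icc
    intro t ht
    by_contra h
    exact ht (hs t h)
  have s0 : HasCompactSupport g := HasCompactSupport.intro isCompact_Icc hs
  have s1 : HasCompactSupport (deriv g) := s0.deriv
  have s2 : HasCompactSupport (deriv (deriv g)) := s1.deriv
  have z0 : ∀ t, 1 < t → g t = 0 := fun t ht => hs t (fun h => absurd h.2 (not_le.2 ht))
  have z1 : ∀ t, 1 < t → deriv g t = 0 := by
    intro t ht
    by_contra h
    exact absurd (t0 (support_deriv_subset h)).2 (not_le.2 ht)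
  have z2 : ∀ t, 1 < t → deriv (deriv g) t = 0 := by
    intro t ht
    by_contra h
    have h1 := support_deriv_subset h
    have h2 : tsupport (deriv g) ⊆ tsupport g :=
      closure_minimal support_deriv_subset (isClosed_tsupport g)
    exact absurd (t0 (h2 h1)).2 (not_le.2 ht)
  obtain ⟨C0, h0⟩ := hg.continuous.bounded_above_of_compact_support s0
  obtain ⟨C1, h1⟩ := hg1.continuous.bounded_above_of_compact_support s1
  obtain ⟨C2, h2⟩ := hc2.bounded_above_of_compact_support s2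
  have c0 : 0 ≤ C0 := (norm_nonneg _).trans (h0 0)
  have c1 : 0 ≤ C1 := (norm_nonneg _).trans (h1 0)
  have c2 : 0 ≤ C2 := (norm_nonneg _).trans (h2 0)
  have ee2 : 0 < Real.exp 2 := Real.exp_pos 2
  refine ⟨(C2 + 4 * C1 + 4 * C0) * Real.exp 2, by positivity, ?_⟩
  intro σ hσ1 hσ2
  have hexp : ∀ t, t ≤ 1 → Real.exp (σ * t) ≤ Real.exp 2 := by
    intro t ht
    refine Real.exp_le_exp.2 ?_
    rcases le_or_gt 0 t with h | h
    · nlinarith
    · nlinarith
  have hE : ∀ t, HasDerivAt (fun t => Real.exp (σ * t)) (Real.exp (σ * t) * σ) t := by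
    intro t
    have := ((hasDerivAt_id t).const_mul σ).exp
    simpa using this
  have d1 : ∀ t, HasDerivAt (fun t => g t * Real.exp (σ * t))
      ((deriv g t + σ * g t) * Real.exp (σ * t)) t := by
    intro t
    exact ((hd t).hasDerivAt.fun_mul (hE t)).congr_deriv (by ring)
  have e1 : deriv (fun t => g t * Real.exp (σ * t)) =
      fun t => (deriv g t + σ * g t) * Real.exp (σ * t) := funext fun t => (d1 t).deriv
  have d2 : ∀ t, HasDerivAt (fun t => (deriv g t + σ * g t) * Real.exp (σ * t))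
      ((deriv (deriv g) t + 2 * σ * deriv g t + σ ^ 2 * g t) * Real.exp (σ * t)) t := by
    intro t
    exact (((hd1 t).hasDerivAt.fun_add ((hd t).hasDerivAt.const_mul σ)).fun_mul
      (hE t)).congr_deriv (by ring)
  refine ⟨?_, ?_, ?_⟩
  · exact hg.mul ((contDiff_const.mul contDiff_id).exp)
  · intro t
    rcases le_or_gt t 1 with ht | ht
    · rw [abs_mul, abs_of_pos (Real.exp_pos _)]
      have := h0 t
      rw [Real.norm_eq_abs] at this
      calc |g t| * Real.exp (σ * t) ≤ C0 * Real.exp 2 :=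
            mul_le_mul this (hexp t ht) (Real.exp_pos _).le c0
        _ ≤ _ := by nlinarith
    · rw [z0 t ht, zero_mul, abs_zero]
      positivity
  · intro t
    rw [iteratedDeriv_succ, iteratedDeriv_one, e1, (d2 t).deriv]
    rcases le_or_gt t 1 with ht | ht
    · rw [abs_mul, abs_of_pos (Real.exp_pos _)]
      have a0 := h0 t
      have a1 := h1 t
      have a2 := h2 t
      rw [Real.norm_eq_abs] at a0 a1 a2
      have hb : |deriv (deriv g) t + 2 * σ * deriv g t + σ ^ 2 * g t| ≤ C2 + 4 * C1 + 4 * C0 := by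
        refine (abs_add_le _ _).trans ?_
        have b1 := abs_add_le (deriv (deriv g) t) (2 * σ * deriv g t)
        have b2 : |2 * σ * deriv g t| ≤ 4 * C1 := by
          rw [abs_mul, abs_of_nonneg (by linarith : (0 : ℝ) ≤ 2 * σ)]
          have : 2 * σ * |deriv g t| ≤ 4 * |deriv g t| := by
            gcongr
            linarith
          linarith
        have b3 : |σ ^ 2 * g t| ≤ 4 * C0 := by
          rw [abs_mul, abs_of_nonneg (by positivity : (0 : ℝ) ≤ σ ^ 2)]
          have : σ ^ 2 * |g t| ≤ 4 * |g t| := by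
            gcongr
            nlinarith
          linarith
        linarith
      exact mul_le_mul hb (hexp t ht) (Real.exp_pos _).le (by positivity)
    · rw [z0 t ht, z1 t ht, z2 t ht]
      simp only [mul_zero, add_zero, zero_mul, abs_zero]
      positivity

theorem logint (m : ℕ) : ∃ B : ℝ, 0 < B ∧ ∀ ξ : ℝ,
    Real.log (|ξ| + 3) ^ m / (1 + ξ ^ 2) ≤ B * (1 + ‖ξ‖) ^ (-(3 / 2) : ℝ) := by
  set ε : ℝ := 1 / (2 * (m + 1)) with hε
  have hε0 : 0 < ε := by positivity
  refine ⟨2 * (3 : ℝ) ^ (1 / 2 : ℝ) / ε ^ m, by positivity, ?_⟩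
  intro ξ
  rw [Real.norm_eq_abs]
  set y : ℝ := 1 + |ξ| with hy
  have hy1 : 1 ≤ y := by
    have := abs_nonneg ξ
    linarith
  have hy0 : 0 < y := by linarith
  have hl0 : 0 ≤ Real.log (|ξ| + 3) := Real.log_nonneg (by have := abs_nonneg ξ; linarith)
  have h1 : Real.log (|ξ| + 3) ≤ (3 * y) ^ ε / ε := by
    refine (Real.log_le_log (by have := abs_nonneg ξ; linarith) ?_).trans
      (Real.log_le_rpow_div (by positivity) hε0)
    rw [hy]
    have := abs_nonneg ξ
    linarith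
  have h2 : Real.log (|ξ| + 3) ^ m ≤ (3 * y) ^ (1 / 2 : ℝ) / ε ^ m := by
    refine (pow_le_pow_left₀ hl0 h1 m).trans ?_
    rw [div_pow]
    gcongr
    rw [← Real.rpow_natCast, ← Real.rpow_mul (by positivity)]
    refine Real.rpow_le_rpow_of_exponent_le (by linarith) ?_
    rw [hε, div_mul_eq_mul_div, one_mul, div_le_div_iff₀ (by positivity) (by norm_num)]
    linarith
  have h3 : y ^ 2 / 2 ≤ 1 + ξ ^ 2 := by
    have : ξ ^ 2 = |ξ| ^ 2 := (sq_abs ξ).symm
    rw [this, hy]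
    nlinarith [sq_nonneg (1 - |ξ|)]
  have h4 : y ^ (-(3 / 2) : ℝ) = y ^ (1 / 2 : ℝ) / y ^ 2 := by
    rw [← Real.rpow_natCast y 2, ← Real.rpow_sub hy0]
    congr 1
    norm_num
  calc Real.log (|ξ| + 3) ^ m / (1 + ξ ^ 2) ≤ ((3 * y) ^ (1 / 2 : ℝ) / ε ^ m) / (y ^ 2 / 2) := by
        gcongr
    _ = 2 * (3 : ℝ) ^ (1 / 2 : ℝ) / ε ^ m * (1 + |ξ|) ^ (-(3 / 2) : ℝ) := by
        rw [← hy, h4, Real.mul_rpow (by norm_num) hy0.le]
        field_simp

/-- the coefficients -/
noncomputable def co {r : ℕ} (ψ : DirichletCharacter ℂ r) (k : ℕ) (n : ℕ) : ℂ :=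
  ψ (n : ZMod r) * ((Λ n : ℝ) : ℂ) * ((Real.log n : ℝ) : ℂ) ^ k

theorem co_summable {r : ℕ} [NeZero r] (ψ : DirichletCharacter ℂ r) (k : ℕ) (σ : ℝ)
    (hσ : 1 < σ) : LSeriesSummable (co ψ k) (σ : ℂ) := by
  refine LSeriesSummable_of_le_const_mul_rpow (x := (1 + σ) / 2) (by rw [Complex.ofReal_re]; linarith) ?_
  set ε : ℝ := (σ - 1) / (2 * (k + 1)) with hε
  have hε0 : 0 < ε := by
    have : 0 < σ - 1 := by linarith
    positivity
  refine ⟨1 / ε ^ (k + 1), ?_⟩
  intro n hn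
  have hn1 : (1 : ℝ) ≤ n := by exact_mod_cast Nat.one_le_iff_ne_zero.2 hn
  have hl0 : 0 ≤ Real.log n := Real.log_nonneg hn1
  have h1 : ‖co ψ k n‖ ≤ Real.log n ^ (k + 1) := by
    unfold co
    rw [norm_mul, norm_mul, norm_pow, Complex.norm_real, Complex.norm_real, Real.norm_eq_abs,
      Real.norm_eq_abs, abs_of_nonneg vonMangoldt_nonneg, abs_of_nonneg hl0, pow_succ']
    have h2 : ‖ψ (n : ZMod r)‖ ≤ 1 := ψ.norm_le_one _
    have h3 : Λ n ≤ Real.log n := vonMangoldt_le_log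
    calc ‖ψ (n : ZMod r)‖ * Λ n * Real.log n ^ k ≤ 1 * Real.log n * Real.log n ^ k := by
          gcongr
      _ = _ := by ring
  have h4 : Real.log n ≤ (n : ℝ) ^ ε / ε := Real.log_le_rpow_div (by positivity) hε0
  refine h1.trans ((pow_le_pow_left₀ hl0 h4 _).trans ?_)
  rw [div_pow, ← Real.rpow_natCast, ← Real.rpow_mul (by positivity)]
  have h5 : ε * ((k + 1 : ℕ) : ℝ) = (1 + σ) / 2 - 1 := by
    rw [hε]
    push_cast
    field_simp
    ring
  rw [h5, one_div, mul_comm, div_eq_mul_inv]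

theorem LL_le (r : ℕ) (hr : 1 ≤ r) (ξ : ℝ) (s : ℂ) (hs : s.im = -ξ) :
    0 ≤ LL r s ∧ LL r s ≤ 2 * Real.log (3 * r) * Real.log (|ξ| + 3) := by
  have hr1 : (1 : ℝ) ≤ r := by exact_mod_cast hr
  have h3 : (1 : ℝ) ≤ Real.log 3 := by
    rw [Real.le_log_iff_exp_le (by norm_num)]
    have := Real.exp_one_lt_d9
    linarith
  have ha : 0 ≤ |ξ| := abs_nonneg ξ
  unfold LL
  rw [hs, abs_neg, Real.log_mul (by positivity) (by positivity)]
  have h4 : Real.log r ≤ Real.log (3 * r) := Real.log_le_log (by positivity) (by linarith)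
  have h5 : Real.log 3 ≤ Real.log (3 * r) := Real.log_le_log (by norm_num) (by linarith)
  have h6 : Real.log 3 ≤ Real.log (|ξ| + 3) := Real.log_le_log (by norm_num) (by linarith)
  have h7 : 0 ≤ Real.log r := Real.log_nonneg hr1
  refine ⟨by linarith, ?_⟩
  nlinarith

theorem key (hFO : StFO) (hPK : StPK) (g : ℝ → ℝ) (hg : ContDiff ℝ 2 g)
    (hs : ∀ t, t ∉ Set.Icc (0 : ℝ) 1 → g t = 0) (j : ℕ) :
    ∃ C : ℝ, 0 < C ∧ ∀ (r : ℕ) [NeZero r] (ψ : DirichletCharacter ℂ r) (x : ℝ), ψ ≠ 1 → 3 ≤ x →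
    ‖∑ n ∈ Icc 1 ⌊3 * x⌋₊, ((g (Real.log (n / x)) : ℝ) : ℂ) * co ψ j n‖ ≤
      C * x * (Real.log (3 * r) ^ (16 * (j + 1)) / dl ψ ^ (j + 1)) := by
  obtain ⟨CF, hCF, hF⟩ := hFO
  obtain ⟨CP, hCP, hP⟩ := hPK j
  obtain ⟨M, hM, hφ⟩ := phi_bound g hg hs
  obtain ⟨B, hB, hlog⟩ := logint (16 * (j + 1))
  set J : ℝ := ∫ ξ : ℝ, (1 + ‖ξ‖) ^ (-(3 / 2) : ℝ) with hJ
  have hJint : Integrable (fun ξ : ℝ => (1 + ‖ξ‖) ^ (-(3 / 2) : ℝ)) :=
    integrable_one_add_norm (by rw [Module.finrank_self]; norm_num)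
  have hJ0 : 0 ≤ J := integral_nonneg fun ξ => by positivity
  refine ⟨Real.exp 1 * (CF * M * CP * 2 ^ (16 * (j + 1)) * B) * J + 1, by positivity, ?_⟩
  intro r _ ψ x hψ hx
  have hr : 1 ≤ r := Nat.one_le_iff_ne_zero.2 (NeZero.ne r)
  have hr1 : (1 : ℝ) ≤ r := by exact_mod_cast hr
  have hx0 : 0 < x := by linarith
  have h3 : (1 : ℝ) < Real.log 3 := by
    rw [Real.lt_log_iff_exp_lt (by norm_num)]
    have := Real.exp_one_lt_d9
    linarith
  have hlx : 1 < Real.log x := h3.trans_le (Real.log_le_log (by norm_num) hx)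
  set σ : ℝ := 1 + 1 / Real.log x with hσ
  have hσ1 : 1 < σ := by
    have : 0 < 1 / Real.log x := by positivity
    linarith
  have hσ2 : σ ≤ 2 := by
    have : 1 / Real.log x ≤ 1 := by
      rw [div_le_one (by linarith)]
      exact hlx.le
    linarith
  obtain ⟨hφc, hφ0, hφ2⟩ := hφ σ hσ1.le hσ2
  obtain ⟨K, hKc, hKb, hK⟩ := hF (fun t => g t * Real.exp (σ * t)) M hφc hM
    (fun t ht => by simp only [hs t ht, zero_mul]) hφ0 hφ2
  -- integrability of K
  obtain ⟨B0, hB0, hlog0⟩ := logint 0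
  have hKint : Integrable K := by
    refine Integrable.mono' (hJint.const_mul (CF * M * B0)) hKc.aestronglyMeasurable ?_
    refine Filter.Eventually.of_forall fun ξ => ?_
    refine (hKb ξ).trans ?_
    have := hlog0 ξ
    rw [pow_zero] at this
    calc CF * M / (1 + ξ ^ 2) = CF * M * (1 / (1 + ξ ^ 2)) := by ring
      _ ≤ CF * M * (B0 * (1 + ‖ξ‖) ^ (-(3 / 2) : ℝ)) := by gcongr
      _ = _ := by ring
  -- the functions
  let F : ℕ → ℝ → ℂ := fun n ξ =>
    K ξ * Complex.exp ((ξ * Real.log (n / x) : ℝ) * Complex.I) * LSeries.term (co ψ j) (σ : ℂ) n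
  have hexpn : ∀ y : ℝ, ‖Complex.exp ((y : ℝ) * Complex.I)‖ = 1 := Complex.norm_exp_ofReal_mul_I
  have hFnorm : ∀ n ξ, ‖F n ξ‖ = ‖K ξ‖ * ‖LSeries.term (co ψ j) (σ : ℂ) n‖ := by
    intro n ξ
    simp only [F]
    rw [norm_mul, norm_mul, hexpn, mul_one]
  have hFint : ∀ n, Integrable (F n) := by
    intro n
    refine Integrable.mono' (hKint.norm.mul_const ‖LSeries.term (co ψ j) (σ : ℂ) n‖) ?_ ?_
    · refine Continuous.aestronglyMeasurable ?_
      fun_prop
    · exact Filter.Eventually.of_forall fun ξ => (hFnorm n ξ).le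
  have hsumm := co_summable ψ j σ hσ1
  have hFsum : Summable fun n => ∫ ξ, ‖F n ξ‖ := by
    have : ∀ n, ∫ ξ, ‖F n ξ‖ = (∫ ξ, ‖K ξ‖) * ‖LSeries.term (co ψ j) (σ : ℂ) n‖ := by
      intro n
      rw [← integral_mul_const]
      exact integral_congr_ae (Filter.Eventually.of_forall fun ξ => hFnorm n ξ)
    simp_rw [this]
    exact Summable.mul_left _ hsumm.norm
  have hex := integral_tsum_of_summable_integral_norm hFint hFsum
  -- left side
  have hterm : ∀ n : ℕ, 1 ≤ n → ∫ ξ, F n ξ =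
      ((g (Real.log (n / x)) : ℝ) : ℂ) * co ψ j n * ((x ^ (-σ) : ℝ) : ℂ) := by
    intro n hn
    have hn0 : (0 : ℝ) < n := by exact_mod_cast hn
    simp only [F]
    rw [integral_mul_const, ← hK (Real.log (n / x)), LSeries.term_of_ne_zero (by omega)]
    have h1 : Real.exp (σ * Real.log (n / x)) = (n : ℝ) ^ σ * x ^ (-σ) := by
      rw [mul_comm σ, ← Real.rpow_def_of_pos (by positivity),
        Real.div_rpow hn0.le hx0.le, Real.rpow_neg hx0.le, div_eq_mul_inv]
    have h2 : ((n : ℂ)) ^ (σ : ℂ) = (((n : ℝ) ^ σ : ℝ) : ℂ) := by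
      rw [Complex.ofReal_cpow hn0.le, Complex.ofReal_natCast]
    have h3 : (((n : ℝ) ^ σ : ℝ) : ℂ) ≠ 0 := by
      exact_mod_cast (Real.rpow_pos_of_pos hn0 σ).ne'
    rw [h2, h1]
    push_cast at h3 ⊢
    field_simp
  have hleft : ∑' n, ∫ ξ, F n ξ =
      (∑ n ∈ Icc 1 ⌊3 * x⌋₊, ((g (Real.log (n / x)) : ℝ) : ℂ) * co ψ j n) * ((x ^ (-σ) : ℝ) : ℂ) := by
    rw [tsum_eq_sum (s := Icc 1 ⌊3 * x⌋₊), Finset.sum_mul]
    · exact Finset.sum_congr rfl fun n hn => hterm n (Finset.mem_Icc.1 hn).1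
    · intro n hn
      rcases Nat.eq_zero_or_pos n with h0 | h0
      · simp only [F, h0, LSeries.term_zero, mul_zero, integral_zero]
      · rw [hterm n h0]
        have hn' : ⌊3 * x⌋₊ < n := by
          by_contra h
          exact hn (Finset.mem_Icc.2 ⟨h0, not_lt.1 h⟩)
        have h4 : 3 * x < n := (Nat.floor_lt (by positivity)).1 hn'
        have h5 : 1 < Real.log (n / x) := by
          refine h3.trans_le (Real.log_le_log (by norm_num) ?_)
          rw [le_div_iff₀ hx0]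
          exact h4.le
        rw [hs _ (fun h => absurd h.2 (not_le.2 h5))]
        simp
  -- right side
  have hright : ∀ ξ, ∑' n, F n ξ = K ξ * Complex.exp ((-(ξ * Real.log x) : ℝ) * Complex.I) *
      LSeries (co ψ j) ((σ : ℂ) - ξ * Complex.I) := by
    intro ξ
    unfold LSeries
    rw [← tsum_mul_left]
    refine tsum_congr fun n => ?_
    simp only [F]
    rcases Nat.eq_zero_or_pos n with h0 | h0
    · simp only [h0, LSeries.term_zero, mul_zero]
    · have hn0 : (0 : ℝ) < n := by exact_mod_cast h0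
      have hnc : (n : ℂ) ≠ 0 := by exact_mod_cast hn0.ne'
      rw [LSeries.term_of_ne_zero (by omega), LSeries.term_of_ne_zero (by omega),
        Complex.cpow_sub _ _ hnc, Real.log_div hn0.ne' hx0.ne']
      have h1 : (n : ℂ) ^ ((ξ : ℂ) * Complex.I) = Complex.exp ((ξ * Real.log n : ℝ) * Complex.I) := by
        rw [Complex.cpow_def_of_ne_zero hnc, ← Complex.natCast_log]
        congr 1
        push_cast
        ring
      have h2 : Complex.exp ((ξ * (Real.log n - Real.log x) : ℝ) * Complex.I) =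
          Complex.exp ((ξ * Real.log n : ℝ) * Complex.I) *
            Complex.exp ((-(ξ * Real.log x) : ℝ) * Complex.I) := by
        rw [← Complex.exp_add]
        congr 1
        push_cast
        ring
      rw [h1, h2]
      have h3 : Complex.exp ((ξ * Real.log n : ℝ) * Complex.I) ≠ 0 := Complex.exp_ne_zero _
      have h4 : (n : ℂ) ^ (σ : ℂ) ≠ 0 := by
        rw [Complex.cpow_def_of_ne_zero hnc]
        exact Complex.exp_ne_zero _
      field_simp
  have hdl : 0 ≤ dl ψ := by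
    unfold dl
    split_ifs
    · exact le_min zero_le_one (norm_nonneg _)
    · exact zero_le_one
  set D : ℝ := Real.log (3 * r) ^ (16 * (j + 1)) / dl ψ ^ (j + 1) with hD
  have hlr : 0 ≤ Real.log (3 * r) := Real.log_nonneg (by linarith)
  have hD0 : 0 ≤ D := by positivity
  have hpt : ∀ ξ, ‖∑' n, F n ξ‖ ≤
      (CF * M * CP * 2 ^ (16 * (j + 1)) * B * D) * (1 + ‖ξ‖) ^ (-(3 / 2) : ℝ) := by
    intro ξ
    rw [hright ξ, norm_mul, norm_mul, hexpn, mul_one]
    have hre : ((σ : ℂ) - ξ * Complex.I).re = σ := by simp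
    have him : ((σ : ℂ) - ξ * Complex.I).im = -ξ := by simp
    have h1 := hP r ψ ((σ : ℂ) - ξ * Complex.I) hψ (by rw [hre]; exact hσ1) (by rw [hre]; exact hσ2)
    obtain ⟨h20, h2⟩ := LL_le r hr ξ _ him
    have hlξ : 0 ≤ Real.log (|ξ| + 3) := Real.log_nonneg (by have := abs_nonneg ξ; linarith)
    calc ‖K ξ‖ * ‖LSeries (co ψ j) ((σ : ℂ) - ξ * Complex.I)‖
        ≤ (CF * M / (1 + ξ ^ 2)) *
          (CP * LL r ((σ : ℂ) - ξ * Complex.I) ^ (16 * (j + 1)) / dl ψ ^ (j + 1)) :=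
          mul_le_mul (hKb ξ) h1 (norm_nonneg _) (by positivity)
      _ ≤ (CF * M / (1 + ξ ^ 2)) *
          (CP * (2 * Real.log (3 * r) * Real.log (|ξ| + 3)) ^ (16 * (j + 1)) / dl ψ ^ (j + 1)) := by
          gcongr
      _ = (CF * M * CP * 2 ^ (16 * (j + 1)) * D) * (Real.log (|ξ| + 3) ^ (16 * (j + 1)) / (1 + ξ ^ 2)) := by
          rw [hD, mul_pow, mul_pow]
          ring
      _ ≤ (CF * M * CP * 2 ^ (16 * (j + 1)) * D) * (B * (1 + ‖ξ‖) ^ (-(3 / 2) : ℝ)) := by
          gcongr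
          exact hlog ξ
      _ = _ := by ring
  have hbound : ‖∫ ξ, ∑' n, F n ξ‖ ≤ (CF * M * CP * 2 ^ (16 * (j + 1)) * B * D) * J := by
    rw [hJ, ← integral_const_mul]
    exact norm_integral_le_of_norm_le (hJint.const_mul _) (Filter.Eventually.of_forall hpt)
  have hxσ : x ^ σ = x * Real.exp 1 := by
    rw [hσ, Real.rpow_add hx0, Real.rpow_one]
    congr 1
    rw [Real.rpow_def_of_pos hx0]
    congr 1
    field_simp
  have hfin : (∑ n ∈ Icc 1 ⌊3 * x⌋₊, ((g (Real.log (n / x)) : ℝ) : ℂ) * co ψ j n) =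
      ((x ^ σ : ℝ) : ℂ) * ∫ ξ, ∑' n, F n ξ := by
    rw [← hex, hleft]
    have : ((x ^ σ : ℝ) : ℂ) * ((x ^ (-σ) : ℝ) : ℂ) = 1 := by
      rw [← Complex.ofReal_mul, ← Real.rpow_add hx0, add_neg_cancel, Real.rpow_zero,
        Complex.ofReal_one]
    rw [mul_comm _ ((x ^ (-σ) : ℝ) : ℂ), ← mul_assoc, this, one_mul]
  rw [hfin, norm_mul, Complex.norm_real, Real.norm_eq_abs, abs_of_pos (Real.rpow_pos_of_pos hx0 _),
    hxσ]
  calc x * Real.exp 1 * ‖∫ ξ, ∑' n, F n ξ‖
      ≤ x * Real.exp 1 * ((CF * M * CP * 2 ^ (16 * (j + 1)) * B * D) * J) := by gcongr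
    _ = (Real.exp 1 * (CF * M * CP * 2 ^ (16 * (j + 1)) * B) * J) * x * D := by ring
    _ ≤ _ := by
        gcongr
        linarith

end TSaux

theorem hTS (hFO : StFO) (hPK : StPK) : StTS := by
  intro w hw k
  have hw2 : ContDiff ℝ 2 w := hw.smooth.of_le (by norm_num)
  have hgc : ∀ m : ℕ, ContDiff ℝ 2 (fun t => (-t) ^ m * w t) := fun m => by
    exact (contDiff_id.neg.pow m).mul hw2
  have hgs : ∀ m : ℕ, ∀ t, t ∉ Set.Icc (0 : ℝ) 1 → (fun t => (-t) ^ m * w t) t = 0 :=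
    fun m t ht => by simp only [hw.supp t ht, mul_zero]
  have hkey := fun j => TSaux.key hFO hPK (fun t => (-t) ^ (k - j) * w t) (hgc _) (hgs _) j
  choose C hC hb using hkey
  refine ⟨∑ j ∈ range (k + 1), (k.choose j : ℝ) * C j + 1, by
    have : 0 ≤ ∑ j ∈ range (k + 1), (k.choose j : ℝ) * C j :=
      Finset.sum_nonneg fun j _ => mul_nonneg (by positivity) (hC j).le
    linarith, ?_⟩
  intro r _ ψ x hψ hx
  have hr : 1 ≤ r := Nat.one_le_iff_ne_zero.2 (NeZero.ne r)
  have hr1 : (1 : ℝ) ≤ r := by exact_mod_cast hr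
  have hx0 : 0 < x := by linarith
  have h3 : (1 : ℝ) < Real.log 3 := by
    rw [Real.lt_log_iff_exp_lt (by norm_num)]
    have := Real.exp_one_lt_d9
    linarith
  have hlx : 1 < Real.log x := h3.trans_le (Real.log_le_log (by norm_num) hx)
  have hlr : 1 ≤ Real.log (3 * r) := h3.le.trans (Real.log_le_log (by norm_num) (by linarith))
  have hdl : 0 ≤ dl ψ := by
    unfold dl
    split_ifs
    · exact le_min zero_le_one (norm_nonneg _)
    · exact zero_le_one
  have hdl1 : dl ψ ≤ 1 := by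
    unfold dl
    split_ifs
    · exact min_le_left _ _
    · exact le_rfl
  have hmono : ∀ j ∈ range (k + 1), Real.log (3 * r) ^ (16 * (j + 1)) / dl ψ ^ (j + 1) ≤
      Real.log (3 * r) ^ (16 * (k + 1)) / dl ψ ^ (k + 1) := by
    intro j hj
    have hj' : j ≤ k := by
      have := Finset.mem_range.1 hj
      omega
    rcases hdl.eq_or_lt with h0 | h0
    · rw [← h0, zero_pow (by omega), zero_pow (by omega), div_zero, div_zero]
    · exact div_le_div₀ (by positivity) (pow_le_pow_right₀ hlr (by omega)) (by positivity)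
        (pow_le_pow_of_le_one hdl hdl1 (by omega))
  have hexp : ((Real.log x ^ k : ℝ) : ℂ) * TT w x (fun n => ψ (n : ZMod r)) =
      ∑ j ∈ range (k + 1), (k.choose j : ℂ) * ∑ n ∈ Icc 1 ⌊3 * x⌋₊,
        ((((-(Real.log (n / x))) ^ (k - j) * w (Real.log (n / x)) : ℝ)) : ℂ) * TSaux.co ψ j n := by
    unfold TT
    rw [Finset.mul_sum]
    simp_rw [Finset.mul_sum]
    rw [Finset.sum_comm]
    refine Finset.sum_congr rfl fun n hn => ?_
    have hn0 : (0 : ℝ) < n := by exact_mod_cast (Finset.mem_Icc.1 hn).1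
    have h1 : Real.log x = Real.log n + -(Real.log (n / x)) := by
      rw [Real.log_div hn0.ne' hx0.ne']
      ring
    rw [h1, add_pow, Complex.ofReal_sum, Finset.sum_mul]
    refine Finset.sum_congr rfl fun j _ => ?_
    unfold TSaux.co
    have h2 : Real.log n + -Real.log (n / x) = Real.log x := h1.symm
    push_cast
    ring
  have hT : Real.log x ^ k * ‖TT w x (fun n => ψ (n : ZMod r))‖ ≤
      ∑ j ∈ range (k + 1), (k.choose j : ℝ) *
        (C j * x * (Real.log (3 * r) ^ (16 * (k + 1)) / dl ψ ^ (k + 1))) := by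
    have h1 : Real.log x ^ k * ‖TT w x (fun n => ψ (n : ZMod r))‖ =
        ‖((Real.log x ^ k : ℝ) : ℂ) * TT w x (fun n => ψ (n : ZMod r))‖ := by
      rw [norm_mul, Complex.norm_real, Real.norm_eq_abs, abs_of_nonneg (by positivity)]
    rw [h1, hexp]
    refine (norm_sum_le _ _).trans (Finset.sum_le_sum fun j hj => ?_)
    rw [norm_mul, Complex.norm_natCast]
    refine mul_le_mul_of_nonneg_left ?_ (by positivity)
    refine (hb j r ψ x hψ hx).trans ?_
    have := hC j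
    exact mul_le_mul_of_nonneg_left (hmono j hj) (by positivity)
  have hlk : 0 < Real.log x ^ k := by positivity
  have h4 : ‖TT w x (fun n => ψ (n : ZMod r))‖ ≤ (∑ j ∈ range (k + 1), (k.choose j : ℝ) *
        (C j * x * (Real.log (3 * r) ^ (16 * (k + 1)) / dl ψ ^ (k + 1)))) / Real.log x ^ k := by
    rw [le_div_iff₀ hlk, mul_comm]
    exact hT
  refine h4.trans ?_
  have h5 : ∑ j ∈ range (k + 1), (k.choose j : ℝ) *
        (C j * x * (Real.log (3 * r) ^ (16 * (k + 1)) / dl ψ ^ (k + 1))) =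
      (∑ j ∈ range (k + 1), (k.choose j : ℝ) * C j) *
        (x * (Real.log (3 * r) ^ (16 * (k + 1)) / dl ψ ^ (k + 1))) := by
    rw [Finset.sum_mul]
    exact Finset.sum_congr rfl fun j _ => by ring
  rw [h5]
  have h6 : 0 ≤ x * (Real.log (3 * r) ^ (16 * (k + 1)) / dl ψ ^ (k + 1)) := by positivity
  calc (∑ j ∈ range (k + 1), (k.choose j : ℝ) * C j) *
        (x * (Real.log (3 * r) ^ (16 * (k + 1)) / dl ψ ^ (k + 1))) / Real.log x ^ k
      ≤ ((∑ j ∈ range (k + 1), (k.choose j : ℝ) * C j) + 1) *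
        (x * (Real.log (3 * r) ^ (16 * (k + 1)) / dl ψ ^ (k + 1))) / Real.log x ^ k := by
        gcongr
        linarith
    _ = _ := by
        rw [mul_div_assoc, mul_div_assoc, mul_div_assoc]
        have : x * (Real.log (3 * ↑r) ^ (16 * (k + 1)) / dl ψ ^ (k + 1) / Real.log x ^ k) =
          x * (Real.log (3 * ↑r) ^ (16 * (k + 1)) / (Real.log x ^ k * dl ψ ^ (k + 1))) := by
          rw [div_div, mul_comm (dl ψ ^ (k + 1))]
        rw [this]
        ring

end Pool.Agent.Helper15.AB
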