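import Mathlib
import Pool.Agent.Helper15.AB.StMid

/-!
# AB module TY: divisors of typical integers
-/

set_option autoImplicit false

namespace Pool.Agent.Helper15.AB

open Finset ArithmeticFunction Filter Topology

theorem om_mul_TY (P : Finset ℕ) (hP : ∀ l ∈ P, l.Prime) (d e : ℕ) :
    om P (d * e) = om P d + om (P.filter (fun l => ¬ l ∣ d)) e := by
  unfold om
  rw [← card_union_of_disjoint]
  · congr 1
    ext l
    simp only [mem_filter, mem_union]
    constructor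
    · rintro ⟨h1, h2⟩
      by_cases h : l ∣ d
      · exact Or.inl ⟨h1, h⟩
      · exact Or.inr ⟨⟨h1, h⟩, ((hP l h1).dvd_mul.1 h2).resolve_left h⟩
    · rintro (⟨h1, h2⟩ | ⟨⟨h1, -⟩, h3⟩)
      · exact ⟨h1, h2.mul_right e⟩
      · exact ⟨h1, h3.mul_left d⟩
  · rw [Finset.disjoint_left]
    intro l h1 h2
    simp only [mem_filter] at h1 h2
    exact h2.1.2 h1.2

theorem prod_TY (P : Finset ℕ) (hP : ∀ l ∈ P, l.Prime) (d : ℕ) (hd : 1 ≤ d) :
    ∏ l ∈ P.filter (fun l => ¬ l ∣ d), (1 - (1 - (3 / 4 : ℝ)) / (l : ℝ)) ≤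
      Real.exp (-(∑ l ∈ P, (1 : ℝ) / l) / 4) * ((d : ℝ) / Nat.totient d) := by
  have h1 : ∏ l ∈ P.filter (fun l => ¬ l ∣ d), (1 - (1 - (3 / 4 : ℝ)) / (l : ℝ)) ≤
      ∏ l ∈ P.filter (fun l => ¬ l ∣ d), Real.exp (-(1 / (l : ℝ)) / 4) := by
    refine prod_le_prod (fun l hl => ?_) fun l hl => ?_
    · have h2 : (1 : ℝ) ≤ l := by
        exact_mod_cast (hP l (mem_filter.1 hl).1).one_le
      have : (1 - (3 / 4 : ℝ)) / (l : ℝ) ≤ 1 := by
        rw [div_le_one (by linarith)]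
        linarith
      linarith
    · have := Real.add_one_le_exp (-(1 / (l : ℝ)) / 4)
      refine le_trans (le_of_eq ?_) this
      ring
  have h2 : ∏ l ∈ P.filter (fun l => l ∣ d), Real.exp (1 / (l : ℝ) / 4) ≤
      (d : ℝ) / Nat.totient d := by
    have h3 : (d : ℝ) / Nat.totient d = ∏ l ∈ d.primeFactors, (1 - 1 / (l : ℝ))⁻¹ := by
      have h4 := Nat.totient_eq_mul_prod_factors d
      have h5 : (Nat.totient d : ℝ) = d * ∏ l ∈ d.primeFactors, (1 - 1 / (l : ℝ)) := by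
        have h6 : ((Nat.totient d : ℚ) : ℝ) =
          ((d * ∏ p ∈ d.primeFactors, (1 - (p : ℚ)⁻¹) : ℚ) : ℝ) := by rw [h4]
        push_cast at h6
        rw [h6]
        simp only [one_div]
      rw [h5, prod_inv_distrib]
      have hd0 : (d : ℝ) ≠ 0 := by
        have : 0 < d := hd
        positivity
      rw [div_mul_eq_div_div, div_self hd0, one_div]
    rw [h3]
    have h7 : ∀ l : ℕ, l.Prime → Real.exp (1 / (l : ℝ) / 4) ≤ (1 - 1 / (l : ℝ))⁻¹ ∧
        1 ≤ (1 - 1 / (l : ℝ))⁻¹ := by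
      intro l hl
      have hl2 : (2 : ℝ) ≤ l := by exact_mod_cast hl.two_le
      have h8 : 1 / (l : ℝ) ≤ 1 / 2 := one_div_le_one_div_of_le (by norm_num) hl2
      have h9 : 0 < 1 / (l : ℝ) := by positivity
      have h10 : 0 < 1 - 1 / (l : ℝ) := by linarith
      constructor
      · rw [le_inv_comm₀ (Real.exp_pos _) h10, ← Real.exp_neg]
        have := Real.add_one_le_exp (-(1 / (l : ℝ) / 4))
        linarith
      · rw [one_le_inv₀ h10]
        linarith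
    calc _ ≤ ∏ l ∈ P.filter (fun l => l ∣ d), (1 - 1 / (l : ℝ))⁻¹ :=
          prod_le_prod (fun l _ => (Real.exp_pos _).le) fun l hl =>
            (h7 l (hP l (mem_filter.1 hl).1)).1
      _ ≤ ∏ l ∈ d.primeFactors, (1 - 1 / (l : ℝ))⁻¹ := by
          have hsub : P.filter (fun l => l ∣ d) ⊆ d.primeFactors := by
            intro l hl
            rw [mem_filter] at hl
            rw [Nat.mem_primeFactors]
            exact ⟨hP l hl.1, hl.2, by omega⟩
          rw [← prod_sdiff hsub]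
          have hone : 1 ≤ ∏ l ∈ d.primeFactors \ P.filter (fun l => l ∣ d),
              (1 - 1 / (l : ℝ))⁻¹ := by
            have := prod_le_prod (s := d.primeFactors \ P.filter (fun l => l ∣ d))
              (f := fun _ => (1 : ℝ)) (g := fun l : ℕ => (1 - 1 / (l : ℝ))⁻¹)
              (fun _ _ => zero_le_one) (fun l hl =>
                (h7 l (Nat.prime_of_mem_primeFactors (mem_sdiff.1 hl).1)).2)
            simpa using this
          refine le_mul_of_one_le_left ?_ hone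
          exact prod_nonneg fun l hl => zero_le_one.trans (h7 l (hP l (mem_filter.1 hl).1)).2
  have h3 : ∏ l ∈ P.filter (fun l => ¬ l ∣ d), Real.exp (-(1 / (l : ℝ)) / 4) =
      Real.exp (-(∑ l ∈ P, (1 : ℝ) / l) / 4) *
        ∏ l ∈ P.filter (fun l => l ∣ d), Real.exp (1 / (l : ℝ) / 4) := by
    rw [← Real.exp_sum, ← Real.exp_sum, ← Real.exp_add]
    congr 1
    rw [← sum_div, ← sum_div, sum_neg_distrib, ← add_div]
    congr 1
    rw [← sum_filter_add_sum_filter_not P (fun l => l ∣ d)]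
    ring
  refine h1.trans ?_
  rw [h3]
  exact mul_le_mul_of_nonneg_left h2 (Real.exp_pos _).le

theorem dyadic_TY (f : ℕ → ℝ) (hf : ∀ d, 0 ≤ f d) (D : ℕ) (hD : 1 ≤ D) (K : ℝ)
    (h : ∀ T, D ≤ T → ∑ d ∈ Ioc T (T + T), f d ≤ K * T) (J : ℕ) :
    ∑ d ∈ Ioc D (2 ^ J * D), f d / d ≤ J * K := by
  induction J with
  | zero => simp
  | succ J ih =>
    have h1 : D ≤ 2 ^ J * D := Nat.le_mul_of_pos_left D (by positivity)
    have h2 : 2 ^ (J + 1) * D = 2 ^ J * D + 2 ^ J * D := by ring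
    set T : ℕ := 2 ^ J * D with hT
    have hT0 : (0 : ℝ) < T := by
      have : 0 < T := lt_of_lt_of_le hD h1
      exact_mod_cast this
    rw [h2, ← Finset.Ioc_union_Ioc_eq_Ioc h1 (by omega : T ≤ T + T), sum_union (by
      rw [Finset.disjoint_left]
      intro a ha hb
      rw [mem_Ioc] at ha hb
      omega)]
    have h3 : ∑ d ∈ Ioc T (T + T), f d / d ≤ K := by
      calc _ ≤ ∑ d ∈ Ioc T (T + T), f d / T := by
            refine sum_le_sum fun d hd => ?_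
            rw [mem_Ioc] at hd
            refine div_le_div_of_nonneg_left (hf d) hT0 ?_
            exact_mod_cast hd.1.le
        _ = (∑ d ∈ Ioc T (T + T), f d) / T := by rw [sum_div]
        _ ≤ K := by
            rw [div_le_iff₀ hT0]
            exact h T h1
    push_cast
    linarith

theorem log43_TY : Real.log (4 / 3) ≤ 0.2877 := by
  have h1 : Real.log ((4 / 3) ^ 12 / 2 ^ 5) = 12 * Real.log (4 / 3) - 5 * Real.log 2 := by
    rw [Real.log_div (by positivity : ((4 : ℝ) / 3) ^ 12 ≠ 0) (by positivity : (2 : ℝ) ^ 5 ≠ 0),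
      Real.log_pow, Real.log_pow]
    push_cast
    ring
  have h2 := Real.log_le_sub_one_of_pos (show (0 : ℝ) < (4 / 3) ^ 12 / 2 ^ 5 by positivity)
  have h3 := Real.log_two_lt_d9
  norm_num at h2
  norm_num at h1
  linarith

theorem log43_pos_TY : 0 < Real.log (4 / 3) := Real.log_pos (by norm_num)

/-- multiples of a fixed `d` -/
theorem fixed_TY {N p q m₁ : ℕ} (x Lm : ℝ) (P : Finset ℕ) (hP : ∀ l ∈ P, l.Prime)
    (d : ℕ) (hd : 1 ≤ d) :
    ((((ms x q m₁).filter (fun m => (N * m - p).Prime ∧ (om P m : ℝ) ≤ 1.5 * Lm)).filter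
      (fun m => d ∣ m)).card : ℝ) ≤
    Real.exp (1.5 * Real.log (4 / 3) * Lm) * (3 / 4 : ℝ) ^ om P d *
      ∑ e ∈ (Ioc 0 (0 + ⌊4 * x / d⌋₊)).filter (fun e => (N * d * e - p).Prime),
        (3 / 4 : ℝ) ^ om (P.filter (fun l => ¬ l ∣ d)) e := by
  set F : Finset ℕ := (((ms x q m₁).filter (fun m => (N * m - p).Prime ∧
    (om P m : ℝ) ≤ 1.5 * Lm)).filter (fun m => d ∣ m)) with hF
  set W : ℝ := Real.exp (1.5 * Real.log (4 / 3) * Lm) with hW
  have hlog : Real.log (3 / 4) = - Real.log (4 / 3) := by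
    rw [← Real.log_inv]
    norm_num
  have h1 : ∀ m ∈ F, (1 : ℝ) ≤ W * (3 / 4 : ℝ) ^ om P d *
      (3 / 4 : ℝ) ^ om (P.filter (fun l => ¬ l ∣ d)) (m / d) := by
    intro m hm
    rw [hF, mem_filter, mem_filter] at hm
    obtain ⟨⟨-, -, h2⟩, h3⟩ := hm
    have h4 : m = d * (m / d) := (Nat.mul_div_cancel' h3).symm
    have h5 : (3 / 4 : ℝ) ^ om P m = (3 / 4 : ℝ) ^ om P d *
        (3 / 4 : ℝ) ^ om (P.filter (fun l => ¬ l ∣ d)) (m / d) := by
      rw [← pow_add, ← om_mul_TY P hP d (m / d), ← h4]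
    rw [mul_assoc, ← h5]
    have h6 : (3 / 4 : ℝ) ^ om P m = Real.exp (-(Real.log (4 / 3) * om P m)) := by
      rw [← Real.rpow_natCast, Real.rpow_def_of_pos (by norm_num), hlog]
      ring_nf
    rw [h6, hW, ← Real.exp_add, ← Real.exp_zero]
    apply Real.exp_le_exp.2
    have h7 := log43_pos_TY
    nlinarith
  have h2 : (F.card : ℝ) ≤ ∑ m ∈ F, W * (3 / 4 : ℝ) ^ om P d *
      (3 / 4 : ℝ) ^ om (P.filter (fun l => ¬ l ∣ d)) (m / d) := by
    calc (F.card : ℝ) = ∑ m ∈ F, (1 : ℝ) := by rw [sum_const, nsmul_eq_mul, mul_one]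
      _ ≤ _ := sum_le_sum h1
  refine h2.trans ?_
  have hinj : Set.InjOn (fun m => m / d) (F : Set ℕ) := by
    intro m hm m' hm' h
    rw [mem_coe, hF, mem_filter] at hm hm'
    simp only at h
    rw [← Nat.mul_div_cancel' hm.2, ← Nat.mul_div_cancel' hm'.2, h]
  rw [mul_sum, ← sum_image (f := fun e => W * (3 / 4 : ℝ) ^ om P d *
    (3 / 4 : ℝ) ^ om (P.filter (fun l => ¬ l ∣ d)) e) hinj]
  refine sum_le_sum_of_subset_of_nonneg ?_ fun e _ _ => by positivity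
  intro e he
  rw [mem_image] at he
  obtain ⟨m, hm, rfl⟩ := he
  rw [hF, mem_filter, mem_filter] at hm
  obtain ⟨⟨h3, h4, -⟩, h5⟩ := hm
  unfold ms at h3
  rw [mem_filter, mem_Icc] at h3
  rw [mem_filter, mem_Ioc, zero_add]
  have h6 : d * (m / d) = m := Nat.mul_div_cancel' h5
  have hd0 : (0 : ℝ) < d := by exact_mod_cast hd
  refine ⟨⟨Nat.div_pos (Nat.le_of_dvd (by omega) h5) hd, ?_⟩, ?_⟩
  · apply Nat.le_floor
    rw [le_div_iff₀ hd0]
    have h7 : (m : ℝ) ≤ 4 * x := by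
      have h8 : m ≤ ⌊4 * x⌋₊ := h3.1.2
      have h9 : 0 ≤ 4 * x := by
        by_contra hneg
        push Not at hneg
        rw [Nat.floor_of_nonpos hneg.le] at h8
        omega
      exact (Nat.le_floor_iff h9).1 h8
    have h8 : ((m / d : ℕ) : ℝ) * d = m := by
      rw [← Nat.cast_mul, mul_comm, h6]
    rw [h8]
    exact h7
  · rw [mul_assoc, h6]
    exact h4

theorem notdvd_TY {N p q m₁ : ℕ} (hH : Hyp N p q m₁) (x : ℝ) (d m : ℕ) (hm : m ∈ ms x q m₁)
    (hdm : d ∣ m) : ¬ p ∣ d := by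
  intro hpd
  have h1 : p ∣ m := hpd.trans hdm
  unfold ms at hm
  rw [mem_filter] at hm
  have h2 : m ≡ m₁ [MOD q] := hm.2
  have h3 : m ≡ m₁ [MOD p] := h2.of_dvd hH.hpq
  have h4 : p ∣ m₁ := (h3.dvd_iff (dvd_refl p)).1 h1
  have h5 : p ∣ Nat.gcd m₁ q := Nat.dvd_gcd h4 hH.hpq
  rw [hH.hm] at h5
  exact hH.hp.one_lt.ne' (Nat.dvd_one.1 h5)

/-- the final asymptotic inequality -/
theorem final_TY (K₁ K₂ CD : ℝ) (B : ℕ) (hCD : 0 < CD) :
    ∀ᶠ x : ℝ in atTop,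
    K₁ * (3 + 2 * B * Real.log (Real.log x)) * (CD * (1 + Real.log (1 + Real.log x))) ^ 2 *
      (x / Real.log x) * Real.log x ^ (-0.06156 : ℝ) + K₂ * x ^ (7 / 8 : ℝ) *
        Real.log x ^ (0.45 : ℝ) ≤ x / Real.log x ^ (1.05 : ℝ) := by
  -- everything in terms of `L = log x`
  have hlog := Real.tendsto_log_atTop
  have e1 : ∀ᶠ L : ℝ in atTop, 3 + 2 * B * Real.log L ≤ L ^ (0.003 : ℝ) := by
    have h1 : (fun L : ℝ => 3 + 2 * B * Real.log L) =o[atTop] fun L : ℝ => L ^ (0.003 : ℝ) := by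
      refine Asymptotics.IsLittleO.add ?_ ?_
      · exact (Asymptotics.isLittleO_const_left.2 (Or.inr (by
          refine (tendsto_norm_atTop_atTop).comp (tendsto_rpow_atTop (by norm_num)))))
      · exact (isLittleO_log_rpow_atTop (by norm_num)).const_mul_left _
    filter_upwards [h1.bound one_pos, eventually_gt_atTop 0] with L hL hL0
    rw [one_mul, Real.norm_of_nonneg (Real.rpow_nonneg hL0.le _)] at hL
    exact (le_abs_self _).trans hL
  have e2 : ∀ᶠ L : ℝ in atTop, CD * (1 + Real.log (1 + L)) ≤ L ^ (0.003 : ℝ) := by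
    have h1 : (fun L : ℝ => CD * (1 + Real.log 2 + Real.log L)) =o[atTop]
        fun L : ℝ => L ^ (0.003 : ℝ) := by
      refine Asymptotics.IsLittleO.const_mul_left (Asymptotics.IsLittleO.add ?_ ?_) _
      · exact (Asymptotics.isLittleO_const_left.2 (Or.inr (by
          refine (tendsto_norm_atTop_atTop).comp (tendsto_rpow_atTop (by norm_num)))))
      · exact (isLittleO_log_rpow_atTop (by norm_num))
    filter_upwards [h1.bound one_pos, eventually_gt_atTop 1] with L hL hL0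
    rw [one_mul, Real.norm_of_nonneg (Real.rpow_nonneg (by linarith) _)] at hL
    refine le_trans ?_ ((le_abs_self _).trans hL)
    refine mul_le_mul_of_nonneg_left ?_ hCD.le
    have h2 : Real.log (1 + L) ≤ Real.log (2 * L) :=
      Real.log_le_log (by linarith) (by linarith)
    rw [Real.log_mul (by norm_num) (by linarith)] at h2
    linarith
  have e3 : ∀ᶠ L : ℝ in atTop, K₁ ≤ L ^ (0.001 : ℝ) / 2 := by
    have h1 := tendsto_rpow_atTop (y := 0.001) (by norm_num)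
    filter_upwards [h1.eventually_ge_atTop (2 * K₁)] with L hL
    linarith
  have e4 : ∀ᶠ x : ℝ in atTop, K₂ * Real.log x ^ (1.5 : ℝ) ≤ x ^ (1 / 8 : ℝ) / 2 := by
    have h1 := (isLittleO_log_rpow_rpow_atTop (1.5 : ℝ) (show (0 : ℝ) < 1 / 8 by norm_num))
    have h2 := (h1.const_mul_left K₂).bound (show (0 : ℝ) < 1 / 2 by norm_num)
    filter_upwards [h2, eventually_gt_atTop 0] with x hx hx0
    rw [Real.norm_of_nonneg (Real.rpow_nonneg hx0.le _)] at hx
    have := (le_abs_self _).trans hx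
    linarith
  filter_upwards [hlog.eventually e1, hlog.eventually e2, hlog.eventually e3, e4,
    hlog.eventually (eventually_ge_atTop 1), eventually_gt_atTop 1] with x h1 h2 h3 h4 h5 h6
  set L : ℝ := Real.log x with hL
  have hL0 : 0 < L := by linarith
  have hx0 : 0 < x := by linarith
  have hlog1 : 0 ≤ Real.log (1 + L) := Real.log_nonneg (by linarith)
  have hlogL : 0 ≤ Real.log L := Real.log_nonneg h5
  have hR0 : 0 ≤ CD * (1 + Real.log (1 + L)) := by positivity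
  have hJ0 : 0 ≤ 3 + 2 * B * Real.log L := by positivity
  have hA : K₁ * (3 + 2 * B * Real.log L) * (CD * (1 + Real.log (1 + L))) ^ 2 *
      (x / L) * L ^ (-0.06156 : ℝ) ≤ (x / L ^ (1.05 : ℝ)) / 2 := by
    have h7 : (CD * (1 + Real.log (1 + L))) ^ 2 ≤ (L ^ (0.003 : ℝ)) ^ 2 :=
      pow_le_pow_left₀ hR0 h2 2
    calc _ ≤ (L ^ (0.001 : ℝ) / 2) * L ^ (0.003 : ℝ) * (L ^ (0.003 : ℝ)) ^ 2 *
          (x / L) * L ^ (-0.06156 : ℝ) := by gcongr
      _ = x / 2 * (L ^ (0.001 : ℝ) * L ^ (0.003 : ℝ) * (L ^ (0.003 : ℝ)) ^ 2 *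
          L ^ (-1 : ℝ) * L ^ (-0.06156 : ℝ)) := by
          rw [Real.rpow_neg_one]
          ring
      _ = x / 2 * L ^ (-1.05156 : ℝ) := by
          rw [← Real.rpow_natCast (L ^ (0.003 : ℝ)) 2, ← Real.rpow_mul hL0.le,
            ← Real.rpow_add hL0, ← Real.rpow_add hL0, ← Real.rpow_add hL0, ← Real.rpow_add hL0]
          norm_num
      _ ≤ x / 2 * L ^ (-1.05 : ℝ) := by
          refine mul_le_mul_of_nonneg_left ?_ (by linarith)
          exact Real.rpow_le_rpow_of_exponent_le h5 (by norm_num)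
      _ = _ := by
          rw [Real.rpow_neg hL0.le]
          ring
  have hB : K₂ * x ^ (7 / 8 : ℝ) * L ^ (0.45 : ℝ) ≤ (x / L ^ (1.05 : ℝ)) / 2 := by
    have h7 : L ^ (0.45 : ℝ) = L ^ (1.5 : ℝ) / L ^ (1.05 : ℝ) := by
      rw [← Real.rpow_sub hL0]
      norm_num
    have h8 : x ^ (7 / 8 : ℝ) * x ^ (1 / 8 : ℝ) = x := by
      rw [← Real.rpow_add hx0]
      norm_num
    have h9 : 0 < L ^ (1.05 : ℝ) := Real.rpow_pos_of_pos hL0 _
    rw [h7, mul_div_assoc', div_div, div_le_div_iff₀ h9 (by positivity)]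
    have h10 : 0 ≤ x ^ (7 / 8 : ℝ) := Real.rpow_nonneg hx0.le _
    calc K₂ * x ^ (7 / 8 : ℝ) * L ^ (1.5 : ℝ) * (L ^ (1.05 : ℝ) * 2)
        = x ^ (7 / 8 : ℝ) * (K₂ * L ^ (1.5 : ℝ)) * (L ^ (1.05 : ℝ) * 2) := by ring
      _ ≤ x ^ (7 / 8 : ℝ) * (x ^ (1 / 8 : ℝ) / 2) * (L ^ (1.05 : ℝ) * 2) := by gcongr
      _ = (x ^ (7 / 8 : ℝ) * x ^ (1 / 8 : ℝ)) * L ^ (1.05 : ℝ) := by ring
      _ = _ := by rw [h8]
  linarith

theorem PP_prime_TY (x : ℝ) : ∀ l ∈ PP x, l.Prime := fun l hl => by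
  unfold PP at hl
  exact (mem_filter.1 hl).2

/-- size of `LP` -/
theorem LP_TY {CM : ℝ} (hMT : ∀ y : ℝ, 3 ≤ y →
    |∑ l ∈ (Icc 1 ⌊y⌋₊).filter Nat.Prime, (1 : ℝ) / l - Real.log (Real.log y)| ≤ CM)
    (x : ℝ) (hx : 1 < x) (hx3 : 3 ≤ Real.exp (Real.log x ^ (0.9 : ℝ))) :
    |LP x - 0.9 * Real.log (Real.log x)| ≤ CM + 1 := by
  have h1 := hMT _ hx3
  have hL : 0 < Real.log x := Real.log_pos hx
  rw [Real.log_exp, Real.log_rpow hL] at h1
  set n : ℕ := ⌊Real.exp (Real.log x ^ (0.9 : ℝ))⌋₊ with hn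
  have hn3 : 3 ≤ n := Nat.le_floor (by exact_mod_cast hx3)
  have h2 : (Icc 1 n).filter Nat.Prime = {2, 3} ∪ (Ioc 3 n).filter Nat.Prime := by
    ext l
    simp only [mem_filter, mem_Icc, mem_union, mem_insert, mem_singleton, mem_Ioc]
    constructor
    · rintro ⟨⟨h1, h2⟩, h3⟩
      by_cases h4 : 3 < l
      · exact Or.inr ⟨⟨h4, h2⟩, h3⟩
      · have := h3.two_le
        left
        omega
    · rintro ((rfl | rfl) | ⟨⟨h1, h2⟩, h3⟩)
      · exact ⟨⟨by omega, by omega⟩, Nat.prime_two⟩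
      · exact ⟨⟨by omega, by omega⟩, Nat.prime_three⟩
      · exact ⟨⟨by omega, h2⟩, h3⟩
  have h3 : ∑ l ∈ (Icc 1 n).filter Nat.Prime, (1 : ℝ) / l = 1 / 2 + 1 / 3 + LP x := by
    rw [h2, sum_union]
    · congr 1
      rw [sum_pair (by norm_num)]
      norm_num
    · rw [Finset.disjoint_left]
      intro a ha hb
      simp only [mem_insert, mem_singleton, mem_filter, mem_Ioc] at ha hb
      omega
  rw [h3] at h1
  rw [abs_le] at h1 ⊢
  constructor <;> linarith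

theorem LP_nonneg_TY (x : ℝ) : 0 ≤ LP x := sum_nonneg fun l _ => by positivity

/-- the estimate for a fixed `d` -/
theorem stepB_TY {N p q m₁ : ℕ} (hH : Hyp N p q m₁) {C c₀ CD : ℝ} (hC : 0 < C) (hc0 : 0 < c₀)
    (hDP : ∀ n : ℕ, 1 ≤ n → (n : ℝ) / Nat.totient n ≤ CD * (1 + Real.log (1 + Real.log n)))
    (hCD : 0 < CD)
    (hSU : ∀ (u : ℝ) (d E H : ℕ) (P : Finset ℕ), 0 ≤ u → u ≤ 1 → 1 ≤ d → ¬ p ∣ d → 2 ≤ H →
      (∀ l ∈ P, l.Prime ∧ 3 < l ∧ (l : ℝ) ≤ (H : ℝ) ^ c₀) →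
      ∑ e ∈ (Ioc E (E + H)).filter (fun e => (N * d * e - p).Prime), u ^ om P e ≤
        C * (H / Real.log H) * (d / Nat.totient d) * ∏ l ∈ P, (1 - (1 - u) / (l : ℝ)) + C * √H)
    (x : ℝ) (hx : 16 ≤ x) (hlp : Real.log x ^ (0.9 : ℝ) ≤ c₀ / 4 * Real.log x)
    (d : ℕ) (hd1 : x ^ (1 / 4 : ℝ) ≤ d) (hd2 : (d : ℝ) ≤ 2 * √x) :
    ((((ms x q m₁).filter (fun m => (N * m - p).Prime ∧ (om (PP x) m : ℝ) ≤ 1.5 * LP x)).filter
      (fun m => d ∣ m)).card : ℝ) ≤
    Real.exp (1.5 * Real.log (4 / 3) * LP x) * (3 / 4 : ℝ) ^ om (PP x) d *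
      (8 * C * (CD * (1 + Real.log (1 + Real.log x))) ^ 2 * Real.exp (-(LP x) / 4) *
        (x / Real.log x) / d + 2 * C * x ^ (3 / 8 : ℝ)) := by
  have hx0 : 0 < x := by linarith
  set L : ℝ := Real.log x with hL
  have hL1 : 1 ≤ L := by
    rw [hL, Real.le_log_iff_exp_le hx0]
    have := Real.exp_one_lt_d9
    linarith
  have hL0 : 0 < L := by linarith
  have hsq : 4 ≤ √x := by
    rw [show (4 : ℝ) = √16 by
      rw [show (16 : ℝ) = 4 ^ 2 by norm_num]; exact (Real.sqrt_sq (by norm_num)).symm]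
    exact Real.sqrt_le_sqrt hx
  have hsqx : √x * √x = x := Real.mul_self_sqrt hx0.le
  have hd0 : (0 : ℝ) < d := lt_of_lt_of_le (Real.rpow_pos_of_pos hx0 _) hd1
  have hdN : 1 ≤ d := by
    have : 0 < d := by exact_mod_cast hd0
    exact this
  have hdx : (d : ℝ) ≤ x := by nlinarith
  have hR0 : 0 ≤ CD * (1 + Real.log (1 + L)) := by
    have : 0 ≤ Real.log (1 + L) := Real.log_nonneg (by linarith)
    positivity
  set R : ℝ := CD * (1 + Real.log (1 + L)) with hR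
  set a : ℝ := Real.exp (-(LP x) / 4) with ha
  have ha0 : 0 < a := Real.exp_pos _
  by_cases hpd : p ∣ d
  · have h1 : (((ms x q m₁).filter (fun m => (N * m - p).Prime ∧
        (om (PP x) m : ℝ) ≤ 1.5 * LP x)).filter (fun m => d ∣ m)) = ∅ := by
      rw [Finset.eq_empty_iff_forall_notMem]
      intro m hm
      rw [mem_filter, mem_filter] at hm
      exact notdvd_TY hH x d m hm.1.1 hm.2 hpd
    rw [h1, card_empty, Nat.cast_zero]
    positivity
  refine (fixed_TY x (LP x) (PP x) (PP_prime_TY x) d hdN).trans ?_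
  refine mul_le_mul_of_nonneg_left ?_ (by positivity)
  set H : ℕ := ⌊4 * x / d⌋₊ with hHd
  have h4xd : 2 * √x ≤ 4 * x / d := by
    rw [le_div_iff₀ hd0]
    nlinarith [Real.sqrt_nonneg x]
  have hHle : (H : ℝ) ≤ 4 * x / d := Nat.floor_le (by positivity)
  have hHge : √x ≤ H := by
    have := Nat.lt_floor_add_one (4 * x / (d : ℝ))
    rw [← hHd] at this
    linarith
  have hH2 : 2 ≤ H := by
    have : (2 : ℝ) ≤ H := by linarith
    exact_mod_cast this
  have hH0 : (0 : ℝ) < H := by linarith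
  have hlogH : L / 2 ≤ Real.log H := by
    have h1 := Real.log_le_log (by linarith) hHge
    rw [Real.log_sqrt hx0.le] at h1
    exact h1
  have hcond : ∀ l ∈ (PP x).filter (fun l => ¬ l ∣ d), l.Prime ∧ 3 < l ∧
      (l : ℝ) ≤ (H : ℝ) ^ c₀ := by
    intro l hl
    rw [mem_filter] at hl
    have h1 := hl.1
    unfold PP at h1
    rw [mem_filter, mem_Ioc] at h1
    refine ⟨h1.2, h1.1.1, ?_⟩
    have h2 : (l : ℝ) ≤ Real.exp (L ^ (0.9 : ℝ)) :=
      (Nat.le_floor_iff (Real.exp_pos _).le).1 h1.1.2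
    refine h2.trans ?_
    rw [Real.rpow_def_of_pos hH0]
    apply Real.exp_le_exp.2
    refine hlp.trans ?_
    nlinarith
  refine (hSU (3 / 4) d 0 H _ (by norm_num) (by norm_num) hdN hpd hH2 hcond).trans ?_
  have hdphi : (d : ℝ) / Nat.totient d ≤ R := by
    refine (hDP d hdN).trans ?_
    rw [hR]
    have h1 : Real.log d ≤ L := Real.log_le_log hd0 hdx
    have h2 : 0 ≤ Real.log d := Real.log_nonneg (by exact_mod_cast hdN)
    have h3 : Real.log (1 + Real.log d) ≤ Real.log (1 + L) :=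
      Real.log_le_log (by linarith) (by linarith)
    exact mul_le_mul_of_nonneg_left (by linarith) hCD.le
  have hphi0 : 0 ≤ (d : ℝ) / Nat.totient d := by positivity
  have hprod := prod_TY (PP x) (PP_prime_TY x) d hdN
  have hprod2 : ∏ l ∈ (PP x).filter (fun l => ¬ l ∣ d), (1 - (1 - (3 / 4 : ℝ)) / (l : ℝ)) ≤
      a * R := hprod.trans (mul_le_mul_of_nonneg_left hdphi ha0.le)
  have hHlog : (H : ℝ) / Real.log H ≤ 8 * (x / L) / d := by
    have h1 : (H : ℝ) / Real.log H ≤ (4 * x / d) / (L / 2) :=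
      div_le_div₀ (by positivity) hHle (by positivity) hlogH
    refine h1.trans (le_of_eq ?_)
    field_simp
    ring
  have hHlog0 : 0 ≤ (H : ℝ) / Real.log H := by
    have : 0 < Real.log H := by linarith
    positivity
  have hsqH : √(H : ℝ) ≤ 2 * x ^ (3 / 8 : ℝ) := by
    rw [Real.sqrt_le_left (by positivity)]
    refine hHle.trans ?_
    rw [div_le_iff₀ hd0, mul_pow, ← Real.rpow_natCast (x ^ (3 / 8 : ℝ)) 2,
      ← Real.rpow_mul hx0.le]
    have h1 : x = x ^ (3 / 4 : ℝ) * x ^ (1 / 4 : ℝ) := by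
      rw [← Real.rpow_add hx0]
      norm_num
    have h2 : (3 / 8 : ℝ) * ((2 : ℕ) : ℝ) = 3 / 4 := by norm_num
    rw [h2]
    have h3 : 0 < x ^ (3 / 4 : ℝ) := Real.rpow_pos_of_pos hx0 _
    calc 4 * x = 4 * (x ^ (3 / 4 : ℝ) * x ^ (1 / 4 : ℝ)) := by rw [← h1]
      _ ≤ 2 ^ 2 * x ^ (3 / 4 : ℝ) * d := by nlinarith
  have hprodnn : 0 ≤ ∏ l ∈ (PP x).filter (fun l => ¬ l ∣ d), (1 - (1 - (3 / 4 : ℝ)) / (l : ℝ)) := by
    refine prod_nonneg fun l hl => ?_
    have h1 : (1 : ℝ) ≤ l := by exact_mod_cast (hcond l hl).1.one_le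
    have : (1 - (3 / 4 : ℝ)) / (l : ℝ) ≤ 1 := by
      rw [div_le_one (by linarith)]
      linarith
    linarith
  have h1 : C * ((H : ℝ) / Real.log H) * ((d : ℝ) / Nat.totient d) *
      ∏ l ∈ (PP x).filter (fun l => ¬ l ∣ d), (1 - (1 - (3 / 4 : ℝ)) / (l : ℝ)) ≤
      C * (8 * (x / L) / d) * R * (a * R) := by
    have hxL : 0 ≤ 8 * (x / L) / (d : ℝ) := by positivity
    refine mul_le_mul ?_ hprod2 hprodnn (by positivity)
    refine mul_le_mul ?_ hdphi hphi0 (by positivity)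
    exact mul_le_mul_of_nonneg_left hHlog hC.le
  have h2 : C * √(H : ℝ) ≤ 2 * C * x ^ (3 / 8 : ℝ) := by
    calc C * √(H : ℝ) ≤ C * (2 * x ^ (3 / 8 : ℝ)) := mul_le_mul_of_nonneg_left hsqH hC.le
      _ = _ := by ring
  refine (add_le_add h1 h2).trans (le_of_eq ?_)
  ring

/-- the sum over `d` -/
theorem stepC_TY {C' c₀' : ℝ} (hC' : 0 < C') (hc0' : 0 < c₀')
    (hSD : ∀ (u : ℝ) (E H : ℕ) (P : Finset ℕ), 0 ≤ u → u ≤ 1 → 2 ≤ H →
      (∀ l ∈ P, l.Prime ∧ 3 < l ∧ (l : ℝ) ≤ (H : ℝ) ^ c₀') →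
      ∑ e ∈ Ioc E (E + H), u ^ om P e ≤ C' * H * ∏ l ∈ P, (1 - (1 - u) / (l : ℝ)) + C' * √H)
    (x : ℝ) (hx : 16 ≤ x) (hlp : Real.log x ^ (0.9 : ℝ) ≤ c₀' / 4 * Real.log x) (D J : ℕ)
    (hD : x ^ (1 / 4 : ℝ) ≤ D) (ha : x ^ (-(1 / 8) : ℝ) ≤ Real.exp (-(LP x) / 4)) :
    ∑ d ∈ Ioc D (2 ^ J * D), (3 / 4 : ℝ) ^ om (PP x) d / d ≤
      J * (2 * C' * Real.exp (-(LP x) / 4)) := by
  have hx0 : 0 < x := by linarith
  have hx14 : 2 ≤ x ^ (1 / 4 : ℝ) := by
    have h1 : (16 : ℝ) ^ (1 / 4 : ℝ) ≤ x ^ (1 / 4 : ℝ) :=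
      Real.rpow_le_rpow (by norm_num) hx (by norm_num)
    have h2 : (16 : ℝ) ^ (1 / 4 : ℝ) = 2 := by
      rw [show (16 : ℝ) = 2 ^ (4 : ℝ) by norm_num, ← Real.rpow_mul (by norm_num)]
      norm_num
    linarith
  have hD2 : (2 : ℝ) ≤ D := hx14.trans hD
  refine dyadic_TY _ (fun d => by positivity) D (by
    have : 2 ≤ D := by exact_mod_cast hD2
    omega) _ ?_ J
  intro T hT
  have hDT : (D : ℝ) ≤ T := by exact_mod_cast hT
  have hT0 : (0 : ℝ) < T := by linarith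
  have hxT : x ^ (1 / 4 : ℝ) ≤ T := hD.trans hDT
  have hlogT : Real.log x / 4 ≤ Real.log T := by
    have h1 := Real.log_le_log (by positivity) hxT
    rw [Real.log_rpow hx0] at h1
    linarith
  have h1 := hSD (3 / 4) T T (PP x) (by norm_num) (by norm_num)
    (by have : (2 : ℝ) ≤ T := by linarith
        exact_mod_cast this) (by
      intro l hl
      unfold PP at hl
      rw [mem_filter, mem_Ioc] at hl
      refine ⟨hl.2, hl.1.1, ?_⟩
      have h2 : (l : ℝ) ≤ Real.exp (Real.log x ^ (0.9 : ℝ)) :=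
        (Nat.le_floor_iff (Real.exp_pos _).le).1 hl.1.2
      refine h2.trans ?_
      rw [Real.rpow_def_of_pos hT0]
      apply Real.exp_le_exp.2
      refine hlp.trans ?_
      nlinarith)
  refine h1.trans ?_
  have h2 := prod_TY (PP x) (PP_prime_TY x) 1 le_rfl
  have h3 : (PP x).filter (fun l => ¬ l ∣ 1) = PP x := by
    apply filter_true_of_mem
    intro l hl h
    exact (PP_prime_TY x l hl).one_lt.ne' (Nat.dvd_one.1 h)
  rw [h3] at h2
  simp only [Nat.cast_one, Nat.totient_one, div_one, mul_one] at h2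
  have h4 : √(T : ℝ) ≤ T * Real.exp (-(LP x) / 4) := by
    have h5 : x ^ (1 / 8 : ℝ) ≤ √(T : ℝ) := by
      rw [Real.le_sqrt (by positivity) hT0.le, ← Real.rpow_natCast, ← Real.rpow_mul hx0.le]
      norm_num
      norm_num at hxT
      exact hxT
    have h6 : x ^ (-(1 / 8) : ℝ) * x ^ (1 / 8 : ℝ) = 1 := by
      rw [← Real.rpow_add hx0]
      norm_num
    have h7 : √(T : ℝ) * √(T : ℝ) = T := Real.mul_self_sqrt hT0.le
    have h8 : 1 ≤ Real.exp (-(LP x) / 4) * √(T : ℝ) := by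
      rw [← h6]
      exact mul_le_mul ha h5 (by positivity) (Real.exp_pos _).le
    calc √(T : ℝ) = √(T : ℝ) * 1 := (mul_one _).symm
      _ ≤ √(T : ℝ) * (Real.exp (-(LP x) / 4) * √(T : ℝ)) :=
          mul_le_mul_of_nonneg_left h8 (Real.sqrt_nonneg _)
      _ = (√(T : ℝ) * √(T : ℝ)) * Real.exp (-(LP x) / 4) := by ring
      _ = _ := by rw [h7]
  have h5 : C' * (T : ℝ) * ∏ l ∈ PP x, (1 - (1 - (3 / 4 : ℝ)) / (l : ℝ)) ≤
      C' * T * Real.exp (-(LP x) / 4) := mul_le_mul_of_nonneg_left h2 (by positivity)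
  have h6 : C' * √(T : ℝ) ≤ C' * (T * Real.exp (-(LP x) / 4)) :=
    mul_le_mul_of_nonneg_left h4 hC'.le
  calc _ ≤ C' * T * Real.exp (-(LP x) / 4) + C' * (T * Real.exp (-(LP x) / 4)) :=
        add_le_add h5 h6
    _ = _ := by ring

set_option maxHeartbeats 1000000 in
theorem hTY (hMT : StMT) (hDP : StDP) (hSU : StSU) (hSD : StSD) : StTY := by
  intro N p q m₁ hH B
  obtain ⟨CM, hCM, hMT⟩ := hMT
  obtain ⟨CD, hCD, hDP⟩ := hDP
  obtain ⟨C, c₀, hC, hc0, hc1, hSU⟩ := hSU N p hH.hp hH.hN hH.hNp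
  obtain ⟨C', c₀', hC', hc0', hc1', hSD⟩ := hSD
  have hlogx := Real.tendsto_log_atTop
  have ev1 : ∀ κ : ℝ, 0 < κ → ∀ᶠ x : ℝ in atTop,
      Real.log x ^ (0.9 : ℝ) ≤ κ * Real.log x := by
    intro κ hκ
    apply hlogx.eventually (p := fun L : ℝ => L ^ (0.9 : ℝ) ≤ κ * L)
    have h1 := tendsto_rpow_atTop (y := 0.1) (by norm_num)
    filter_upwards [h1.eventually_ge_atTop (1 / κ), eventually_gt_atTop 0] with L hL hL0
    have h2 : L = L ^ (0.9 : ℝ) * L ^ (0.1 : ℝ) := by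
      rw [← Real.rpow_add hL0]
      norm_num
    have h3 : 0 < L ^ (0.9 : ℝ) := Real.rpow_pos_of_pos hL0 _
    rw [div_le_iff₀ hκ] at hL
    calc L ^ (0.9 : ℝ) = L ^ (0.9 : ℝ) * 1 := (mul_one _).symm
      _ ≤ L ^ (0.9 : ℝ) * (L ^ (0.1 : ℝ) * κ) := mul_le_mul_of_nonneg_left hL h3.le
      _ = κ * (L ^ (0.9 : ℝ) * L ^ (0.1 : ℝ)) := by ring
      _ = κ * L := by rw [← h2]
  have ev2 : ∀ᶠ x : ℝ in atTop, x ^ (1 / 4 : ℝ) + 1 ≤ √x / Real.log x ^ B := by
    have h1 := (isLittleO_log_rpow_rpow_atTop (B : ℝ) (show (0 : ℝ) < 1 / 4 by norm_num)).bound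
      (show (0 : ℝ) < 1 / 2 by norm_num)
    filter_upwards [h1, eventually_gt_atTop 1] with x hx hx1
    have hx0 : 0 < x := by linarith
    have hL0 : 0 < Real.log x := Real.log_pos hx1
    rw [Real.rpow_natCast, Real.norm_of_nonneg (by positivity),
      Real.norm_of_nonneg (by positivity)] at hx
    have h2 : 1 ≤ x ^ (1 / 4 : ℝ) := Real.one_le_rpow hx1.le (by norm_num)
    have h3 : √x = x ^ (1 / 4 : ℝ) * x ^ (1 / 4 : ℝ) := by
      rw [← Real.rpow_add hx0, Real.sqrt_eq_rpow]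
      norm_num
    rw [le_div_iff₀ (by positivity), h3]
    calc (x ^ (1 / 4 : ℝ) + 1) * Real.log x ^ B ≤
          (x ^ (1 / 4 : ℝ) + x ^ (1 / 4 : ℝ)) * (1 / 2 * x ^ (1 / 4 : ℝ)) := by gcongr
      _ = _ := by ring
  have ev3 : ∀ᶠ x : ℝ in atTop, 3 ≤ Real.exp (Real.log x ^ (0.9 : ℝ)) := by
    have h1 := (Real.tendsto_exp_atTop.comp ((tendsto_rpow_atTop (y := 0.9)
      (by norm_num)).comp hlogx)).eventually_ge_atTop 3
    exact h1
  have ev4 : ∀ᶠ x : ℝ in atTop, 0.9 * Real.log (Real.log x) + (CM + 1) ≤ Real.log x / 2 := by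
    apply hlogx.eventually (p := fun L : ℝ => 0.9 * Real.log L + (CM + 1) ≤ L / 2)
    have h1 : (fun L : ℝ => 0.9 * Real.log L + (CM + 1)) =o[atTop] fun L : ℝ => L := by
      refine Asymptotics.IsLittleO.add ?_ ?_
      · exact (Real.isLittleO_log_id_atTop).const_mul_left _
      · exact Asymptotics.isLittleO_const_left.2 (Or.inr (tendsto_norm_atTop_atTop))
    filter_upwards [h1.bound (show (0 : ℝ) < 1 / 2 by norm_num), eventually_gt_atTop 0]
      with L hL hL0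
    rw [Real.norm_of_nonneg hL0.le] at hL
    have := (le_abs_self _).trans hL
    linarith
  have ev5 := final_TY (16 * C * C' * Real.exp (0.0684 * (CM + 1)))
    (4 * C * Real.exp ((CM + 1) / 2)) CD B hCD
  have hall := (((((ev1 (c₀ / 4) (by positivity)).and (ev1 (c₀' / 4) (by positivity))).and
    ev2).and ev3).and ev4).and (ev5.and (eventually_ge_atTop 16))
  obtain ⟨x₀, hx₀⟩ := eventually_atTop.1 hall
  refine ⟨x₀, fun x hxx => ?_⟩
  obtain ⟨⟨⟨⟨⟨h1, h2⟩, h3⟩, h4⟩, h5⟩, h6, h7⟩ := hx₀ x hxx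
  have hx0 : 0 < x := by linarith
  set L : ℝ := Real.log x with hL
  have hL1 : 1 ≤ L := by
    rw [hL, Real.le_log_iff_exp_le hx0]
    have := Real.exp_one_lt_d9
    linarith
  have hL0 : 0 < L := by linarith
  have hLP := LP_TY hMT x (by linarith) h4
  rw [← hL] at hLP
  have hLP0 := LP_nonneg_TY x
  set Lm : ℝ := LP x with hLm
  set a : ℝ := Real.exp (-Lm / 4) with ha
  have ha0 : 0 < a := Real.exp_pos _
  have ha8 : x ^ (-(1 / 8) : ℝ) ≤ a := by
    rw [Real.rpow_def_of_pos hx0, ha]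
    apply Real.exp_le_exp.2
    rw [← hL]
    have := (abs_le.1 hLP).2
    linarith
  set D1 : ℕ := DD x B with hD1
  have hD1f : D1 = ⌊√x / L ^ B⌋₊ := rfl
  have hD1lt : √x / L ^ B < D1 + 1 := by
    rw [hD1f]
    exact Nat.lt_floor_add_one _
  have hx14 : 1 ≤ x ^ (1 / 4 : ℝ) := Real.one_le_rpow (by linarith) (by norm_num)
  have hD1ge : x ^ (1 / 4 : ℝ) ≤ D1 := by linarith
  have hD1half : √x / L ^ B ≤ 2 * D1 := by linarith
  set W : ℝ := Real.exp (1.5 * Real.log (4 / 3) * Lm) with hW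
  have hW0 : 0 < W := Real.exp_pos _
  set R : ℝ := CD * (1 + Real.log (1 + L)) with hR
  -- swapping the sums
  have hswap : ∑ m ∈ (ms x q m₁).filter (fun m => (N * m - p).Prime ∧
      (om (PP x) m : ℝ) ≤ 1.5 * Lm),
      (((Ioc D1 ⌊2 * √x⌋₊).filter (fun d => d ∣ m)).card : ℝ) =
      ∑ d ∈ Ioc D1 ⌊2 * √x⌋₊, ((((ms x q m₁).filter (fun m => (N * m - p).Prime ∧
        (om (PP x) m : ℝ) ≤ 1.5 * Lm)).filter (fun m => d ∣ m)).card : ℝ) := by
    simp only [card_filter _ (_ : Finset ℕ), Nat.cast_sum]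
    rw [sum_comm]
  rw [hswap]
  have hd2 : ∀ d ∈ Ioc D1 ⌊2 * √x⌋₊, x ^ (1 / 4 : ℝ) ≤ d ∧ (d : ℝ) ≤ 2 * √x := by
    intro d hd
    rw [mem_Ioc] at hd
    refine ⟨hD1ge.trans (by exact_mod_cast hd.1.le), ?_⟩
    exact (Nat.le_floor_iff (by positivity)).1 hd.2
  have hstep : ∀ d ∈ Ioc D1 ⌊2 * √x⌋₊, ((((ms x q m₁).filter (fun m => (N * m - p).Prime ∧
        (om (PP x) m : ℝ) ≤ 1.5 * Lm)).filter (fun m => d ∣ m)).card : ℝ) ≤
      (W * (8 * C * R ^ 2 * a * (x / L))) * ((3 / 4 : ℝ) ^ om (PP x) d / d) +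
        W * (2 * C * x ^ (3 / 8 : ℝ)) := by
    intro d hd
    obtain ⟨hda, hdb⟩ := hd2 d hd
    have h := stepB_TY hH hC hc0 hDP hCD hSU x h7 h1 d hda hdb
    refine h.trans ?_
    have hu : (3 / 4 : ℝ) ^ om (PP x) d ≤ 1 := pow_le_one₀ (by norm_num) (by norm_num)
    have hu0 : 0 ≤ (3 / 4 : ℝ) ^ om (PP x) d := by positivity
    have hz : 0 ≤ W * (2 * C * x ^ (3 / 8 : ℝ)) := by positivity
    calc W * (3 / 4 : ℝ) ^ om (PP x) d * (8 * C * R ^ 2 * a * (x / L) / d +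
          2 * C * x ^ (3 / 8 : ℝ))
        = (W * (8 * C * R ^ 2 * a * (x / L))) * ((3 / 4 : ℝ) ^ om (PP x) d / d) +
          (3 / 4 : ℝ) ^ om (PP x) d * (W * (2 * C * x ^ (3 / 8 : ℝ))) := by ring
      _ ≤ (W * (8 * C * R ^ 2 * a * (x / L))) * ((3 / 4 : ℝ) ^ om (PP x) d / d) +
          1 * (W * (2 * C * x ^ (3 / 8 : ℝ))) := by
          have := mul_le_mul_of_nonneg_right hu hz
          linarith
      _ = _ := by ring
  refine (sum_le_sum hstep).trans ?_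
  rw [sum_add_distrib, ← mul_sum, sum_const, nsmul_eq_mul]
  -- the number of dyadic intervals
  set J : ℕ := ⌊2 + B * Real.log L / Real.log 2⌋₊ + 1 with hJ
  have hlog2 : 0 < Real.log 2 := Real.log_pos (by norm_num)
  have hlogL : 0 ≤ Real.log L := Real.log_nonneg hL1
  have hJ0 : 0 ≤ 2 + B * Real.log L / Real.log 2 := by positivity
  have hJle : (J : ℝ) ≤ 3 + 2 * B * Real.log L := by
    have h8 := Nat.floor_le hJ0
    rw [hJ]
    push_cast
    have h9 : B * Real.log L / Real.log 2 ≤ 2 * B * Real.log L := by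
      rw [div_le_iff₀ hlog2]
      have h10 : (0.5 : ℝ) ≤ Real.log 2 := by
        have := Real.log_two_gt_d9
        linarith
      have h11 : 0 ≤ B * Real.log L := by positivity
      nlinarith
    linarith
  have hJge : 4 * L ^ B ≤ (2 : ℝ) ^ J := by
    have h8 := Nat.lt_floor_add_one (2 + B * Real.log L / Real.log 2)
    have h9 : 2 + B * Real.log L / Real.log 2 ≤ J := by
      rw [hJ]
      push_cast
      exact h8.le
    have h10 : (2 : ℝ) ^ J = Real.exp (J * Real.log 2) := by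
      rw [← Real.rpow_natCast, Real.rpow_def_of_pos (by norm_num)]
      ring_nf
    have h11 : 4 * L ^ B = Real.exp (2 * Real.log 2 + B * Real.log L) := by
      rw [Real.exp_add, mul_comm 2, mul_comm (B : ℝ), Real.exp_mul, Real.exp_mul,
        Real.exp_log (by norm_num), Real.exp_log hL0, Real.rpow_natCast]
      norm_num
    rw [h10, h11]
    apply Real.exp_le_exp.2
    have h12 := mul_le_mul_of_nonneg_right h9 hlog2.le
    have h13 : (2 + B * Real.log L / Real.log 2) * Real.log 2 =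
        2 * Real.log 2 + B * Real.log L := by
      field_simp
    linarith
  have hsub : Ioc D1 ⌊2 * √x⌋₊ ⊆ Ioc D1 (2 ^ J * D1) := by
    apply Ioc_subset_Ioc_right
    have h8 : ((⌊2 * √x⌋₊ : ℕ) : ℝ) ≤ ((2 ^ J * D1 : ℕ) : ℝ) := by
      refine (Nat.floor_le (by positivity)).trans ?_
      push_cast
      have h9 : √x ≤ 2 * D1 * L ^ B := by
        rw [div_le_iff₀ (by positivity)] at hD1half
        exact hD1half
      have hD0 : (0 : ℝ) ≤ D1 := Nat.cast_nonneg _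
      calc 2 * √x ≤ 2 * (2 * D1 * L ^ B) := by linarith
        _ = (4 * L ^ B) * D1 := by ring
        _ ≤ (2 : ℝ) ^ J * D1 := mul_le_mul_of_nonneg_right hJge hD0
    exact_mod_cast h8
  have hsumd : ∑ d ∈ Ioc D1 ⌊2 * √x⌋₊, (3 / 4 : ℝ) ^ om (PP x) d / d ≤
      (3 + 2 * B * Real.log L) * (2 * C' * a) := by
    refine (sum_le_sum_of_subset_of_nonneg hsub fun d _ _ => by positivity).trans ?_
    refine (stepC_TY hC' hc0' hSD x h7 h2 D1 J hD1ge ha8).trans ?_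
    exact mul_le_mul_of_nonneg_right hJle (by positivity)
  have hcard : ((Ioc D1 ⌊2 * √x⌋₊).card : ℝ) ≤ 2 * √x := by
    rw [Nat.card_Ioc]
    refine le_trans ?_ (Nat.floor_le (by positivity))
    exact_mod_cast Nat.sub_le _ _
  have hbig : 0 ≤ W * (8 * C * R ^ 2 * a * (x / L)) := by positivity
  have hsm : 0 ≤ W * (2 * C * x ^ (3 / 8 : ℝ)) := by positivity
  refine (add_le_add (mul_le_mul_of_nonneg_left hsumd hbig)
    (mul_le_mul_of_nonneg_right hcard hsm)).trans ?_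
  -- powers of the logarithm
  have hl43 := log43_TY
  have hl43p := log43_pos_TY
  have hLlo := (abs_le.1 hLP).1
  have hLhi := (abs_le.1 hLP).2
  have hWa : W * (a * a) ≤ Real.exp (0.0684 * (CM + 1)) * L ^ (-0.06156 : ℝ) := by
    rw [hW, ha, ← Real.exp_add, ← Real.exp_add, Real.rpow_def_of_pos hL0, ← Real.exp_add]
    apply Real.exp_le_exp.2
    have h8 : (1.5 * Real.log (4 / 3) - 0.5) * Lm ≤ -0.0684 * Lm :=
      mul_le_mul_of_nonneg_right (by linarith) hLP0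
    nlinarith
  have hW1 : W ≤ Real.exp ((CM + 1) / 2) * L ^ (0.45 : ℝ) := by
    rw [hW, Real.rpow_def_of_pos hL0, ← Real.exp_add]
    apply Real.exp_le_exp.2
    have h8 : (1.5 * Real.log (4 / 3)) * Lm ≤ 0.5 * Lm :=
      mul_le_mul_of_nonneg_right (by linarith) hLP0
    nlinarith
  have hsx : x ^ (3 / 8 : ℝ) * √x = x ^ (7 / 8 : ℝ) := by
    rw [Real.sqrt_eq_rpow, ← Real.rpow_add hx0]
    norm_num
  have hR2 : 0 ≤ R ^ 2 := sq_nonneg _
  have hJnn : 0 ≤ 3 + 2 * B * Real.log L := by positivity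
  have hxL : 0 ≤ x / L := by positivity
  have hA : W * (8 * C * R ^ 2 * a * (x / L)) * ((3 + 2 * B * Real.log L) * (2 * C' * a)) ≤
      16 * C * C' * Real.exp (0.0684 * (CM + 1)) * (3 + 2 * B * Real.log L) * R ^ 2 *
        (x / L) * L ^ (-0.06156 : ℝ) := by
    calc _ = (16 * C * C' * (3 + 2 * B * Real.log L) * R ^ 2 * (x / L)) * (W * (a * a)) := by ring
      _ ≤ (16 * C * C' * (3 + 2 * B * Real.log L) * R ^ 2 * (x / L)) *
          (Real.exp (0.0684 * (CM + 1)) * L ^ (-0.06156 : ℝ)) :=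
          mul_le_mul_of_nonneg_left hWa (by positivity)
      _ = _ := by ring
  have hB' : 2 * √x * (W * (2 * C * x ^ (3 / 8 : ℝ))) ≤
      4 * C * Real.exp ((CM + 1) / 2) * x ^ (7 / 8 : ℝ) * L ^ (0.45 : ℝ) := by
    calc _ = (4 * C * (x ^ (3 / 8 : ℝ) * √x)) * W := by ring
      _ ≤ (4 * C * (x ^ (3 / 8 : ℝ) * √x)) * (Real.exp ((CM + 1) / 2) * L ^ (0.45 : ℝ)) :=
          mul_le_mul_of_nonneg_left hW1 (by positivity)
      _ = _ := by rw [hsx]; ring
  exact (add_le_add hA hB').trans h6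

end Pool.Agent.Helper15.AB
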