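import Mathlib
import Pool.Agent.Helper15.AB.StAp

/-!
Module XA (project AB, MP_37d0ef_nt): orbit quadruples are pairwise tangent and in the packing.
-/

set_option autoImplicit false

namespace Pool.Agent.Helper15.AB

open Finset

theorem hXA.bil_comm (v w : Circ) : bil v w = bil w v := by
  unfold bil
  ring

theorem hXA.bil_new (a b c d w : Circ) :
    bil ((2 : ℝ) • (a + b + c) - d) w = 2 * (bil a w + bil b w + bil c w) - bil d w := by
  obtain ⟨a1, a2, a3⟩ := a
  obtain ⟨b1, b2, b3⟩ := b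
  obtain ⟨c1, c2, c3⟩ := c
  obtain ⟨d1, d2, d3⟩ := d
  obtain ⟨w1, w2, w3⟩ := w
  simp only [bil, Prod.mk_add_mk, Prod.smul_mk, Prod.mk_sub_mk, smul_eq_mul, Complex.sub_re,
    Complex.sub_im, Complex.add_re, Complex.add_im, Complex.real_smul, Complex.mul_re,
    Complex.mul_im, Complex.ofReal_re, Complex.ofReal_im]
  ring

theorem hXA.swap_desc (q : Fin 4 → Circ) (hq : Desc q) :
    IsCirc ((2 : ℝ) • (q 0 + q 1 + q 2) - q 3) ∧
      Tang ((2 : ℝ) • (q 0 + q 1 + q 2) - q 3) (q 0) ∧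
      Tang ((2 : ℝ) • (q 0 + q 1 + q 2) - q 3) (q 1) ∧
      Tang ((2 : ℝ) • (q 0 + q 1 + q 2) - q 3) (q 2) := by
  have hc : ∀ i, bil (q i) (q i) = 1 := hq.circ
  have ht : ∀ i j, i ≠ j → bil (q i) (q j) = -1 := hq.tang
  have h0 : bil ((2 : ℝ) • (q 0 + q 1 + q 2) - q 3) (q 0) = -1 := by
    rw [hXA.bil_new, hc 0, ht 1 0 (by decide), ht 2 0 (by decide), ht 3 0 (by decide)]
    norm_num
  have h1 : bil ((2 : ℝ) • (q 0 + q 1 + q 2) - q 3) (q 1) = -1 := by
    rw [hXA.bil_new, hc 1, ht 0 1 (by decide), ht 2 1 (by decide), ht 3 1 (by decide)]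
    norm_num
  have h2 : bil ((2 : ℝ) • (q 0 + q 1 + q 2) - q 3) (q 2) = -1 := by
    rw [hXA.bil_new, hc 2, ht 0 2 (by decide), ht 1 2 (by decide), ht 3 2 (by decide)]
    norm_num
  have h3 : bil ((2 : ℝ) • (q 0 + q 1 + q 2) - q 3) (q 3) = -7 := by
    rw [hXA.bil_new, hc 3, ht 0 3 (by decide), ht 1 3 (by decide), ht 2 3 (by decide)]
    norm_num
  refine ⟨?_, h0, h1, h2⟩
  change bil _ _ = 1
  rw [hXA.bil_new, hXA.bil_comm (q 0), hXA.bil_comm (q 1), hXA.bil_comm (q 2),
    hXA.bil_comm (q 3), h0, h1, h2, h3]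
  norm_num

theorem hXA : StXA := by
  intro b hb q hq
  induction hq with
  | base => exact ⟨hb, Pack.base⟩
  | perm q σ _ ih =>
    exact ⟨⟨fun i => ih.1.circ (σ i), fun i j hij => ih.1.tang _ _ (σ.injective.ne hij)⟩,
      fun i => ih.2 (σ i)⟩
  | swap q _ ih =>
    obtain ⟨hd, hp⟩ := ih
    obtain ⟨hC, h0, h1, h2⟩ := hXA.swap_desc q hd
    have h0' : Tang (q 0) ((2 : ℝ) • (q 0 + q 1 + q 2) - q 3) := (hXA.bil_comm _ _).trans h0
    have h1' : Tang (q 1) ((2 : ℝ) • (q 0 + q 1 + q 2) - q 3) := (hXA.bil_comm _ _).trans h1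
    have h2' : Tang (q 2) ((2 : ℝ) • (q 0 + q 1 + q 2) - q 3) := (hXA.bil_comm _ _).trans h2
    refine ⟨⟨?_, ?_⟩, ?_⟩
    · intro i
      fin_cases i
      · exact hd.circ 0
      · exact hd.circ 1
      · exact hd.circ 2
      · exact hC
    · intro i j hij
      fin_cases i <;> fin_cases j
      · exact absurd rfl hij
      · exact hd.tang 0 1 (by decide)
      · exact hd.tang 0 2 (by decide)
      · exact h0'
      · exact hd.tang 1 0 (by decide)
      · exact absurd rfl hij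
      · exact hd.tang 1 2 (by decide)
      · exact h1'
      · exact hd.tang 2 0 (by decide)
      · exact hd.tang 2 1 (by decide)
      · exact absurd rfl hij
      · exact h2'
      · exact h0
      · exact h1
      · exact h2
      · exact absurd rfl hij
    · intro i
      fin_cases i
      · exact hp 0
      · exact hp 1
      · exact hp 2
      · exact Pack.step (q 0) (q 1) (q 2) _ (hp 0) (hp 1) (hp 2) (hd.tang 0 1 (by decide))
          (hd.tang 0 2 (by decide)) (hd.tang 1 2 (by decide)) hC h0 h1 h2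

end Pool.Agent.Helper15.AB
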