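import Mathlib
import Pool.Agent.Helper15.AB.StAp

/-! # AB module XB: the circles tangent to three pairwise tangent circles -/

namespace Pool.Agent.Helper15.AB

namespace hXB

theorem bil_comm (v w : Circ) : bil v w = bil w v := by
  unfold bil; ring

theorem bil_comb (a : Fin 4 → ℝ) (q : Fin 4 → Circ) (w : Circ) :
    bil (∑ k, a k • q k) w = ∑ k, a k * bil (q k) w := by
  simp only [Fin.sum_univ_four, bil, Prod.fst_add, Prod.snd_add, Prod.smul_fst, Prod.smul_snd,
    Complex.add_re, Complex.add_im, Complex.smul_re, Complex.smul_im, smul_eq_mul]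
  ring

end hXB

open hXB in
theorem hXB (hXM : StXM) : StXB := by
  intro q hq D hD h0 h1 h2
  have hx := hXM q hq D
  have h0' : bil D (q 0) = -1 := h0
  have h1' : bil D (q 1) = -1 := h1
  have h2' : bil D (q 2) = -1 := h2
  set f : ℝ := bil D (q 3) with hf
  have hsum : ∑ j, bil D (q j) = f - 3 := by
    rw [Fin.sum_univ_four, h0', h1', h2', ← hf]; ring
  rw [hsum] at hx
  have hDD : bil D D = 1 := hD
  have hexp : bil D D = ∑ k, ((2 * bil D (q k) - (f - 3)) / 4) * bil (q k) D := by
    conv_lhs => rw [hx]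
    rw [bil_comb]
    refine Finset.sum_congr rfl fun k _ => ?_
    rw [← hx]
  rw [hDD, Fin.sum_univ_four, bil_comm (q 0), bil_comm (q 1), bil_comm (q 2), bil_comm (q 3),
    h0', h1', h2', ← hf] at hexp
  have hq2 : (f - 1) * (f + 7) = 0 := by nlinarith
  rw [Fin.sum_univ_four, h0', h1', h2', ← hf] at hx
  rcases mul_eq_zero.1 hq2 with h | h
  · left
    have hf1 : f = 1 := by linarith
    rw [hf1] at hx
    rw [hx]
    norm_num
  · right
    have hf1 : f = -7 := by linarith
    rw [hf1] at hx
    rw [hx]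
    have e1 : ((2 * (-1 : ℝ) - (-7 - 3)) / 4) = 2 := by norm_num
    have e2 : ((2 * (-7 : ℝ) - (-7 - 3)) / 4) = -1 := by norm_num
    rw [e1, e2, smul_add, smul_add, neg_one_smul, ← sub_eq_add_neg]

end Pool.Agent.Helper15.AB
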