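import Mathlib
import Pool.Agent.Helper15.AB.StAp

set_option autoImplicit false

namespace Pool.Agent.Helper15.AB

open Finset

namespace hXC

theorem bil_add_left (u v w : Circ) : bil (u + v) w = bil u w + bil v w := by
  simp only [bil, Prod.fst_add, Prod.snd_add, Complex.add_re, Complex.add_im]; ring

theorem bil_sub_left (u v w : Circ) : bil (u - v) w = bil u w - bil v w := by
  simp only [bil, Prod.fst_sub, Prod.snd_sub, Complex.sub_re, Complex.sub_im]; ring

theorem bil_smul_left (c : ℝ) (v w : Circ) : bil (c • v) w = c * bil v w := by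
  simp only [bil, Prod.smul_fst, Prod.smul_snd, Complex.smul_re, Complex.smul_im, smul_eq_mul]; ring

theorem bil_comm (v w : Circ) : bil v w = bil w v := by
  simp only [bil]; ring

theorem bil_add_right (u v w : Circ) : bil w (u + v) = bil w u + bil w v := by
  rw [bil_comm, bil_add_left, bil_comm u w, bil_comm v w]

theorem bil_sub_right (u v w : Circ) : bil w (u - v) = bil w u - bil w v := by
  rw [bil_comm, bil_sub_left, bil_comm u w, bil_comm v w]

theorem bil_smul_right (c : ℝ) (v w : Circ) : bil w (c • v) = c * bil w v := by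
  rw [bil_comm, bil_smul_left, bil_comm v w]

end hXC

open hXC in
theorem hXC : StXC := by
  intro q hq v
  have c : ∀ i, bil (q i) (q i) = 1 := hq.circ
  have t : ∀ i j, i ≠ j → bil (q i) (q j) = -1 := hq.tang
  have key : ∀ w : ℤ × ℤ, bil (Ec q v) (Ec q w) = 1 - 2 * ((v.1 : ℝ) * w.2 - v.2 * w.1) ^ 2 := by
    intro w
    unfold Ec
    simp only [bil_add_left, bil_sub_left, bil_smul_left, bil_add_right, bil_sub_right,
      bil_smul_right]
    rw [c 0, c 1, c 2, c 3, t 0 1 (by decide), t 0 2 (by decide), t 0 3 (by decide),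
      t 1 0 (by decide), t 1 2 (by decide), t 1 3 (by decide), t 2 0 (by decide),
      t 2 1 (by decide), t 2 3 (by decide), t 3 0 (by decide), t 3 1 (by decide),
      t 3 2 (by decide)]
    ring
  refine ⟨?_, ?_, key⟩
  · have := key v
    unfold IsCirc
    rw [this]; ring
  · unfold Tang Ec
    simp only [bil_add_left, bil_sub_left, bil_smul_left]
    rw [c 0, t 1 0 (by decide), t 2 0 (by decide), t 3 0 (by decide)]
    ring

end Pool.Agent.Helper15.AB
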