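import Mathlib
import Pool.Agent.Helper15.AB.StAp

/-!
# Project AB: XD, the packing property
-/

set_option autoImplicit false

namespace Pool.Agent.Helper15.AB

namespace XDaux

/-- the swap of the entry `k` -/
noncomputable def sw (k : Fin 4) (q : Fin 4 → Circ) : Fin 4 → Circ :=
  Function.update q k ((2 : ℝ) • (∑ j, q j) - (3 : ℝ) • q k)

theorem sw_same (k : Fin 4) (q : Fin 4 → Circ) :
    sw k q k = (2 : ℝ) • (∑ j, q j) - (3 : ℝ) • q k := by
  unfold sw
  rw [Function.update_self]

theorem sw_ne (k : Fin 4) (q : Fin 4 → Circ) (j : Fin 4) (h : j ≠ k) : sw k q j = q j := by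
  unfold sw
  rw [Function.update_of_ne h]

theorem sum_sw (k : Fin 4) (q : Fin 4 → Circ) :
    ∑ j, sw k q j = (3 : ℝ) • (∑ j, q j) - (4 : ℝ) • q k := by
  have h1 := Finset.add_sum_erase Finset.univ (sw k q) (Finset.mem_univ k)
  have h2 := Finset.add_sum_erase Finset.univ q (Finset.mem_univ k)
  have h3 : ∑ j ∈ Finset.univ.erase k, sw k q j = ∑ j ∈ Finset.univ.erase k, q j :=
    Finset.sum_congr rfl fun j hj => sw_ne k q j (Finset.ne_of_mem_erase hj)
  rw [← h1, h3, sw_same]
  have h4 : ∑ j ∈ Finset.univ.erase k, q j = (∑ j, q j) - q k := by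
    rw [← h2]
    abel
  rw [h4]
  module

theorem sw_sw (k : Fin 4) (q : Fin 4 → Circ) : sw k (sw k q) = q := by
  funext j
  by_cases h : j = k
  · subst h
    rw [sw_same, sum_sw, sw_same]
    module
  · rw [sw_ne _ _ _ h, sw_ne _ _ _ h]

theorem sw_perm (k : Fin 4) (q : Fin 4 → Circ) (σ : Equiv.Perm (Fin 4)) :
    sw k (q ∘ σ) = (sw (σ k) q) ∘ σ := by
  funext j
  by_cases h : j = k
  · subst h
    rw [sw_same, Function.comp_apply, Function.comp_apply, sw_same]
    congr 2
    exact Equiv.sum_comp σ q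
  · rw [sw_ne _ _ _ h, Function.comp_apply, Function.comp_apply, sw_ne _ _ _ (fun h' =>
      h (σ.injective h'))]

theorem sw_last (q : Fin 4 → Circ) :
    (![q 0, q 1, q 2, (2 : ℝ) • (q 0 + q 1 + q 2) - q 3] : Fin 4 → Circ) = sw 3 q := by
  funext j
  by_cases h : j = 3
  · subst h
    rw [sw_same, Fin.sum_univ_four]
    change (2 : ℝ) • (q 0 + q 1 + q 2) - q 3 = _
    module
  · rw [sw_ne _ _ _ h]
    fin_cases j
    · rfl
    · rfl
    · rfl
    · exact absurd rfl h

theorem orb_sw {b q : Fin 4 → Circ} (h : Orb b q) (k : Fin 4) : Orb b (sw k q) := by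
  have h1 := Orb.perm _ (Equiv.swap k 3) (Orb.swap _ (Orb.perm _ (Equiv.swap k 3) h))
  rw [sw_last, sw_perm] at h1
  have e : (sw ((Equiv.swap k 3 : Equiv.Perm (Fin 4)) 3) q ∘ (Equiv.swap k 3 :
      Equiv.Perm (Fin 4))) ∘ (Equiv.swap k 3 : Equiv.Perm (Fin 4)) = sw k q := by
    rw [Equiv.swap_apply_right]
    funext j
    rw [Function.comp_apply, Function.comp_apply, Equiv.swap_apply_self]
  rw [e] at h1
  exact h1

theorem orb_trans {a b c : Fin 4 → Circ} (h1 : Orb a b) (h2 : Orb b c) : Orb a c := by
  induction h2 with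
  | base => exact h1
  | perm q σ _ ih => exact Orb.perm q σ ih
  | swap q _ ih => exact Orb.swap q ih

theorem orb_symm {a b : Fin 4 → Circ} (h : Orb a b) : Orb b a := by
  induction h with
  | base => exact Orb.base
  | perm q σ _ ih =>
    have h1 := Orb.perm (q ∘ σ) σ.symm (Orb.base (b := q ∘ σ))
    have e : (q ∘ σ) ∘ (σ.symm : Equiv.Perm (Fin 4)) = q := by
      funext j
      rw [Function.comp_apply, Function.comp_apply, Equiv.apply_symm_apply]
    rw [e] at h1
    exact orb_trans h1 ih
  | swap q _ ih =>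
    rw [sw_last]
    have h1 := orb_sw (Orb.base (b := sw 3 q)) 3
    rw [sw_sw] at h1
    exact orb_trans h1 ih

/-- reduced words -/
inductive Red (q : Fin 4 → Circ) : (Fin 4 → Circ) → Option (Fin 4) → Prop
  | nil : Red q q none
  | cons (q' : Fin 4 → Circ) (o : Option (Fin 4)) (k : Fin 4) : Red q q' o → o ≠ some k →
      Red q (sw k q') (some k)

theorem red_sw {q q' : Fin 4 → Circ} {o : Option (Fin 4)} (h : Red q q' o) (k : Fin 4) :
    ∃ o', Red q (sw k q') o' := by
  by_cases ho : o = some k
  · cases h with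
    | nil => cases ho
    | cons q'' o'' k'' h' hne =>
      have e : k'' = k := Option.some.inj ho
      subst e
      rw [sw_sw]
      exact ⟨_, h'⟩
  · exact ⟨_, Red.cons q' o k h ho⟩

theorem orb_red {q q' : Fin 4 → Circ} (h : Orb q q') :
    ∃ (q'' : Fin 4 → Circ) (o : Option (Fin 4)) (σ : Equiv.Perm (Fin 4)), Red q q'' o ∧
      q' = q'' ∘ σ := by
  induction h with
  | base => exact ⟨q, none, Equiv.refl _, Red.nil, rfl⟩
  | perm q₁ τ _ ih =>
    obtain ⟨q'', o, σ, hr, rfl⟩ := ih
    exact ⟨q'', o, τ.trans σ, hr, rfl⟩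
  | swap q₁ _ ih =>
    obtain ⟨q'', o, σ, hr, rfl⟩ := ih
    rw [sw_last, sw_perm]
    obtain ⟨o', ho'⟩ := red_sw hr (σ 3)
    exact ⟨_, o', σ, ho', rfl⟩

theorem red_orb {q q' : Fin 4 → Circ} {o : Option (Fin 4)} (h : Red q q' o) : Orb q q' := by
  induction h with
  | nil => exact Orb.base
  | cons q' o k _ _ ih => exact orb_sw ih k

theorem bil_add_left (u v w : Circ) : bil (u + v) w = bil u w + bil v w := by
  unfold bil
  simp only [Prod.fst_add, Prod.snd_add, Complex.add_re, Complex.add_im]
  ring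

theorem bil_smul_left (r : ℝ) (v w : Circ) : bil (r • v) w = r * bil v w := by
  unfold bil
  simp only [Prod.smul_fst, Prod.smul_snd, Complex.smul_re, Complex.smul_im, smul_eq_mul]
  ring

theorem bil_comm (v w : Circ) : bil v w = bil w v := by
  unfold bil
  ring

/-- the functional -/
noncomputable def fn (D v : Circ) : ℝ := -bil v D

theorem fn_add (D u v : Circ) : fn D (u + v) = fn D u + fn D v := by
  unfold fn
  rw [bil_add_left]
  ring

theorem fn_smul (D : Circ) (r : ℝ) (v : Circ) : fn D (r • v) = r * fn D v := by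
  unfold fn
  rw [bil_smul_left]
  ring

theorem fn_sub (D u v : Circ) : fn D (u - v) = fn D u - fn D v := by
  have h : u - v = u + (-1 : ℝ) • v := by module
  rw [h, fn_add, fn_smul]
  ring

theorem fn_sum (D : Circ) (q : Fin 4 → Circ) : fn D (∑ j, q j) = ∑ j, fn D (q j) := by
  rw [Fin.sum_univ_four, Fin.sum_univ_four, fn_add, fn_add, fn_add]

theorem fn_sw (D : Circ) (k : Fin 4) (q : Fin 4 → Circ) :
    fn D (sw k q k) = 2 * (∑ j, fn D (q j)) - 3 * fn D (q k) := by
  rw [sw_same, fn_sub, fn_smul, fn_smul, fn_sum]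

theorem sum_fn_sw (D : Circ) (k : Fin 4) (q : Fin 4 → Circ) :
    ∑ j, fn D (sw k q j) = 3 * (∑ j, fn D (q j)) - 4 * fn D (q k) := by
  rw [← fn_sum, sum_sw, fn_sub, fn_smul, fn_smul, fn_sum]

/-- the invariant -/
theorem inv {q : Fin 4 → Circ} (hd : ∀ q', Orb q q' → Desc q') (i : Fin 4) {q' : Fin 4 → Circ}
    {o : Option (Fin 4)} (h : Red q q' o) :
    (q' i = q i ∧ o ≠ some i) ∨
      ((∀ k, 1 ≤ fn (q i) (q' k)) ∧ ∃ j, o = some j ∧
        (∑ k, fn (q i) (q' k)) / 2 < fn (q i) (q' j)) := by
  induction h with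
  | nil => exact Or.inl ⟨rfl, fun h => by cases h⟩
  | cons q' o k hr hne ih =>
    have hD := hd q' (red_orb hr)
    rcases ih with ⟨h1, h2⟩ | ⟨h1, j, h2, h3⟩
    · by_cases hk : k = i
      · subst hk
        right
        have hf : ∀ j, j ≠ k → fn (q k) (q' j) = 1 := by
          intro j hj
          unfold fn
          rw [← h1, hD.tang j k hj]
          ring
        have hf0 : fn (q k) (q' k) = -1 := by
          unfold fn
          rw [← h1]
          have := hD.circ k
          unfold IsCirc at this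
          rw [this]
        have hS : ∑ j, fn (q k) (q' j) = 2 := by
          rw [← Finset.add_sum_erase Finset.univ _ (Finset.mem_univ k), hf0,
            Finset.sum_congr rfl (fun j hj => hf j (Finset.ne_of_mem_erase hj)), Finset.sum_const,
            Finset.card_erase_of_mem (Finset.mem_univ k), Finset.card_univ, Fintype.card_fin]
          norm_num
        refine ⟨?_, k, rfl, ?_⟩
        · intro j
          by_cases hj : j = k
          · subst hj
            rw [fn_sw, hS, hf0]
            norm_num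
          · rw [sw_ne _ _ _ hj, hf j hj]
        · rw [sum_fn_sw, fn_sw, hS, hf0]
          norm_num
      · left
        refine ⟨?_, ?_⟩
        · rw [sw_ne _ _ _ (Ne.symm hk)]
          exact h1
        · intro h
          exact hk (Option.some.inj h)
    · right
      have hjk : j ≠ k := by
        intro h
        subst h
        exact hne h2
      -- the sum
      set S := ∑ k, fn (q i) (q' k) with hS
      have h4 : fn (q i) (q' k) + fn (q i) (q' j) ≤ S := by
        rw [hS, ← Finset.add_sum_erase Finset.univ _ (Finset.mem_univ k)]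
        have h5 : j ∈ Finset.univ.erase k := Finset.mem_erase.2 ⟨hjk, Finset.mem_univ j⟩
        have h6 := Finset.single_le_sum (f := fun k => fn (q i) (q' k))
          (fun m _ => zero_le_one.trans (h1 m)) h5
        linarith
      have h7 : fn (q i) (q' k) < S / 2 := by linarith
      refine ⟨?_, k, rfl, ?_⟩
      · intro m
        by_cases hm : m = k
        · subst hm
          rw [fn_sw, ← hS]
          have := h1 m
          linarith
        · rw [sw_ne _ _ _ hm]
          exact h1 m
      · rw [sum_fn_sw, fn_sw, ← hS]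
        linarith

end XDaux

open XDaux

/-- XD: the packing property -/
theorem hXD (hXA : StXA) : StXD := by
  intro b hb q q' hq hq' i j
  have hqq' : Orb q q' := orb_trans (orb_symm hq) hq'
  have hd : ∀ r, Orb q r → Desc r := fun r hr => (hXA b hb r (orb_trans hq hr)).1
  obtain ⟨q'', o, σ, hr, rfl⟩ := orb_red hqq'
  have hD := hd q'' (red_orb hr)
  rcases inv hd i hr with ⟨h1, -⟩ | ⟨h1, -⟩
  · by_cases hij : σ j = i
    · left
      rw [Function.comp_apply, hij, h1]
    · right
      rw [Function.comp_apply, ← h1]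
      exact le_of_eq (hD.tang i (σ j) (Ne.symm hij))
  · right
    have h2 := h1 (σ j)
    unfold fn at h2
    rw [Function.comp_apply, bil_comm]
    linarith

end Pool.Agent.Helper15.AB
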