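import Mathlib
import Pool.Agent.Helper15.AB.StAp
import Pool.Agent.Helper15.AB.M_XD

/-!
# Project AB: XE, the circles tangent to the first circle
-/

set_option autoImplicit false

namespace Pool.Agent.Helper15.AB

namespace XEaux

open XDaux

theorem bil_add_right (u v w : Circ) : bil u (v + w) = bil u v + bil u w := by
  rw [bil_comm, bil_add_left, bil_comm v, bil_comm w]

theorem bil_smul_right (r : ℝ) (v w : Circ) : bil v (r • w) = r * bil v w := by
  rw [bil_comm, bil_smul_left, bil_comm]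

theorem bil_sub_right (u v w : Circ) : bil u (v - w) = bil u v - bil u w := by
  have h : v - w = v + (-1 : ℝ) • w := by module
  rw [h, bil_add_right, bil_smul_right]
  ring

theorem bil_Ec (q : Fin 4 → Circ) (D : Circ) (x y : ℤ) (h0 : bil D (q 0) = -1) :
    bil D (Ec q (x, y)) = 1 - ((x : ℝ) ^ 2 * (1 - bil D (q 1)) +
      (x : ℝ) * y * (1 - bil D (q 1) - bil D (q 2) + bil D (q 3)) +
      (y : ℝ) ^ 2 * (1 - bil D (q 2))) := by
  unfold Ec
  simp only [bil_sub_right, bil_add_right, bil_smul_right, h0]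
  ring

/-- a degenerate nonnegative binary form takes values less than two at coprime pairs -/
theorem small (A B m : ℝ) (hA : 0 ≤ A) (_hB : 0 ≤ B) (hm : m ^ 2 = 4 * A * B) :
    ∃ x y : ℤ, IsCoprime x y ∧ (x : ℝ) ^ 2 * A + (x : ℝ) * y * m + (y : ℝ) ^ 2 * B < 2 := by
  rcases eq_or_lt_of_le hA with h0 | hpos
  · exact ⟨1, 0, isCoprime_one_left, by rw [← h0]; norm_num⟩
  -- the square root
  set α := Real.sqrt A with hα
  have hα0 : 0 < α := Real.sqrt_pos.2 hpos
  have hα2 : α ^ 2 = A := Real.sq_sqrt hA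
  set β := m / (2 * α) with hβ
  have hβm : 2 * α * β = m := by
    rw [hβ]
    field_simp
  have hβ2 : β ^ 2 = B := by
    have h1 : 4 * α ^ 2 * β ^ 2 = 4 * α ^ 2 * B := by
      rw [hα2, ← hm, ← hβm]
      rw [mul_pow, mul_pow, hα2]
      ring
    have h2 : (4 * α ^ 2 : ℝ) ≠ 0 := by positivity
    exact mul_left_cancel₀ h2 h1
  obtain ⟨n, hn⟩ := exists_nat_gt α
  obtain ⟨q, hq1, hq2⟩ := Real.exists_rat_abs_sub_le_and_den_le (-β / α) (n := n + 1)
    (Nat.succ_pos n)
  refine ⟨q.num, q.den, ?_, ?_⟩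
  · rw [Int.isCoprime_iff_nat_coprime]
    simpa using q.reduced
  · have hd : (0 : ℝ) < q.den := by exact_mod_cast q.den_pos
    have e1 : (q.num : ℝ) ^ 2 * A + (q.num : ℝ) * ((q.den : ℤ) : ℝ) * m +
        (((q.den : ℤ) : ℝ)) ^ 2 * B = (α * q.num + β * q.den) ^ 2 := by
      rw [← hα2, ← hβ2, ← hβm, Int.cast_natCast]
      ring
    rw [e1]
    have e2 : (q : ℝ) = (q.num : ℝ) / q.den := by
      rw [Rat.cast_def]
    have e3 : α * q.num + β * q.den = -(α * q.den) * (-β / α - q) := by
      rw [e2]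
      field_simp
      ring
    have h4 : |α * q.num + β * q.den| ≤ 1 := by
      rw [e3, abs_mul, abs_neg, abs_of_pos (mul_pos hα0 hd)]
      refine (mul_le_mul_of_nonneg_left hq1 (mul_pos hα0 hd).le).trans ?_
      rw [mul_one_div, div_le_one (by positivity)]
      refine mul_le_mul_of_nonneg_right ?_ hd.le
      push_cast
      linarith
    have h5 : (α * q.num + β * q.den) ^ 2 ≤ 1 := by
      rw [← sq_abs]
      have h6 := abs_nonneg (α * q.num + β * q.den)
      nlinarith
    linarith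

end XEaux

open XDaux XEaux

/-- XE: the circles tangent to the first circle -/
theorem hXE (hXM : StXM) (hXA : StXA) (hXS : StXS) (hXD : StXD) : StXE := by
  intro b hb q q' hq hq' j ht
  have hDq := (hXA b hb q hq).1
  have hDq' := (hXA b hb q' hq').1
  by_contra hne
  push Not at hne
  set D := q' j with hD
  have h0 : bil D (q 0) = -1 := ht
  have hval : ∀ v : ℤ × ℤ, IsCoprime v.1 v.2 → bil D (Ec q v) ≤ -1 := by
    intro v hv
    obtain ⟨s, t, hst⟩ := hv
    -- completion to a basis
    have h1 := hXS b q hb hq v (-t, s) (by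
      change v.1 * s - v.2 * (-t) = 1
      linarith)
    rcases hXD b hb _ q' h1 hq' 1 j with h2 | h2
    · exact absurd h2.symm (hne v ⟨s, t, hst⟩)
    · rw [bil_comm]
      exact h2
  -- Descartes
  have hDD : bil D D = 1 := hDq'.circ j
  have hDes : 2 * (bil D (q 0) ^ 2 + bil D (q 1) ^ 2 + bil D (q 2) ^ 2 + bil D (q 3) ^ 2) -
      (bil D (q 0) + bil D (q 1) + bil D (q 2) + bil D (q 3)) ^ 2 = 4 := by
    have h1 := hXM q hDq D
    have h2 : bil D D = bil D (∑ k, ((2 * bil D (q k) - ∑ j, bil D (q j)) / 4) • q k) := by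
      rw [← h1]
    rw [hDD] at h2
    simp only [Fin.sum_univ_four, bil_add_right, bil_smul_right] at h2
    linarith
  have hge : ∀ k, 0 ≤ 1 - bil D (q k) := by
    intro k
    rcases hXD b hb q q' hq hq' k j with h2 | h2
    · rw [h2, hDD]
      norm_num
    · rw [bil_comm] at h2
      linarith
  obtain ⟨x, y, hxy, hlt⟩ := small (1 - bil D (q 1)) (1 - bil D (q 2))
    (1 - bil D (q 1) - bil D (q 2) + bil D (q 3)) (hge 1) (hge 2) (by
      rw [h0] at hDes
      linarith)
  have h3 := hval (x, y) hxy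
  rw [bil_Ec q D x y h0] at h3
  linarith

end Pool.Agent.Helper15.AB
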