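import Mathlib
import Pool.Agent.Helper15.AB.StAp

/-! # AB module XF: the packing consists of the circles of the orbit quadruples -/

namespace Pool.Agent.Helper15.AB

namespace hXF

theorem tang_comm {v w : Circ} (h : Tang v w) : Tang w v := by
  unfold Tang bil at *; linarith

theorem Ec_neg (q : Fin 4 → Circ) (w : ℤ × ℤ) : Ec q (-w.1, -w.2) = Ec q w := by
  unfold Ec
  push_cast
  rw [neg_sq, neg_sq, neg_mul_neg]

end hXF

open hXF in
theorem hXF (hXA : StXA) (hXB : StXB) (hXC : StXC) (hXS : StXS) (hXE : StXE) : StXF := by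
  intro b hb C hC
  induction hC with
  | base i => exact ⟨b ∘ Equiv.swap 0 i, Orb.perm b _ Orb.base, by simp⟩
  | step C₁ C₂ C₃ D _ _ _ h12 h13 h23 hD hD1 hD2 hD3 ih1 ih2 ih3 =>
    obtain ⟨q, hq, rfl⟩ := ih1
    obtain ⟨q₂, hq₂, rfl⟩ := ih2
    obtain ⟨q₃, hq₃, rfl⟩ := ih3
    obtain ⟨v, -, hv⟩ := hXE b hb q q₂ hq hq₂ 0 (tang_comm h12)
    obtain ⟨w, -, hw⟩ := hXE b hb q q₃ hq hq₃ 0 (tang_comm h13)
    have key : ∀ w' : ℤ × ℤ, q₃ 0 = Ec q w' → v.1 * w'.2 - v.2 * w'.1 = 1 →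
        ∃ q, Orb b q ∧ q 0 = D := by
      intro w' hw' hdet
      have hQ := hXS b q hb hq v w' hdet
      have hQD := (hXA b hb _ hQ).1
      rw [hv] at hD2
      rw [hw'] at hD3
      rcases hXB _ hQD D hD hD1 hD2 hD3 with h | h
      · exact ⟨_, Orb.perm _ (Equiv.swap 0 3) hQ, by
          rw [Function.comp_apply, Equiv.swap_apply_left]; exact h.symm⟩
      · exact ⟨_, Orb.perm _ (Equiv.swap 0 3) (Orb.swap _ hQ), by
          rw [Function.comp_apply, Equiv.swap_apply_left]; exact h.symm⟩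
    have hbil : bil (q₂ 0) (q₃ 0) = -1 := h23
    rw [hv, hw, (hXC q (hXA b hb q hq).1 v).2.2 w] at hbil
    have hdet2 : ((v.1 : ℝ) * w.2 - v.2 * w.1) ^ 2 = 1 := by linarith
    have hdet2' : (v.1 * w.2 - v.2 * w.1) ^ 2 = 1 := by exact_mod_cast hdet2
    rcases sq_eq_one_iff.1 hdet2' with h | h
    · exact key w hw h
    · refine key (-w.1, -w.2) (by rw [Ec_neg]; exact hw) ?_
      show v.1 * -w.2 - v.2 * -w.1 = 1
      linarith

end Pool.Agent.Helper15.AB
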