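import Mathlib
import Pool.Agent.Helper15.AB.StAp

/-! # AB module XH: representation by Gaussian integers -/

namespace Pool.Agent.Helper15.AB

theorem hXH : StXH := by
  intro p A B C hA hdet hcop
  set w : GaussianInt := ⟨B, p⟩ with hw
  set g : GaussianInt := EuclideanDomain.gcd (A : GaussianInt) w with hg
  have hgA : g ∣ (A : GaussianInt) := EuclideanDomain.gcd_dvd_left _ _
  have hgw : g ∣ w := EuclideanDomain.gcd_dvd_right _ _
  have hbez := EuclideanDomain.gcd_eq_gcd_ab (A : GaussianInt) w
  rw [← hg] at hbez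
  set s := EuclideanDomain.gcdA (A : GaussianInt) w
  set t := EuclideanDomain.gcdB (A : GaussianInt) w
  have hn : ((g.norm : ℤ) : GaussianInt) = g * star g := Zsqrtd.norm_eq_mul_conj g
  have hstA : star (A : GaussianInt) = (A : GaussianInt) := by
    ext <;> simp
  have hgA' : star g ∣ (A : GaussianInt) := by
    obtain ⟨u, hu⟩ := hgA
    refine ⟨star u, ?_⟩
    rw [← hstA, hu, star_mul, mul_comm]
  have hgw' : star g ∣ star w := by
    obtain ⟨u, hu⟩ := hgw
    refine ⟨star u, ?_⟩
    rw [hu, star_mul, mul_comm]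
  have hwn : w.norm = A * C := by
    rw [Zsqrtd.norm_def, hw]
    linarith [hdet, sq B, sq p]
  have hww : w * star w = (A : GaussianInt) * (C : GaussianInt) := by
    rw [← Zsqrtd.norm_eq_mul_conj, hwn]
    push_cast
    ring
  -- `A` divides the norm of `g`
  have h1 : (A : GaussianInt) ∣ ((g.norm : ℤ) : GaussianInt) := by
    refine ⟨s * (A * star s + star w * star t) + w * t * star s + C * (t * star t), ?_⟩
    rw [hn]
    have h2 : star g = A * star s + star w * star t := by
      rw [hbez, star_add, star_mul, star_mul, hstA, mul_comm (star s), mul_comm (star t)]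
    rw [h2]
    nth_rewrite 1 [hbez]
    linear_combination (t * star t) * hww
  obtain ⟨m, hm⟩ : A ∣ g.norm := by
    have := ((Zsqrtd.intCast_dvd A _).1 h1).1
    simpa using this
  have hA0 : A ≠ 0 := hA.ne'
  have key : ∀ x : ℤ, ((g.norm : ℤ) : GaussianInt) ∣ ((A * x : ℤ) : GaussianInt) → m ∣ x := by
    intro x hx
    have h3 : g.norm ∣ A * x := by
      have := ((Zsqrtd.intCast_dvd g.norm _).1 hx).1
      simpa using this
    rw [hm] at h3
    exact Int.dvd_of_mul_dvd_mul_left hA0 h3
  have kA : m ∣ A := by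
    refine key A ?_
    rw [hn]
    push_cast
    exact mul_dvd_mul hgA hgA'
  have kw : ((g.norm : ℤ) : GaussianInt) ∣ (A : GaussianInt) * w := by
    rw [hn, mul_comm (A : GaussianInt)]
    exact mul_dvd_mul hgw hgA'
  have kB : m ∣ B := by
    have h4 := ((Zsqrtd.intCast_dvd g.norm _).1 kw).1
    have h5 : ((A : GaussianInt) * w).re = A * B := by simp [hw]
    rw [h5, hm] at h4
    exact Int.dvd_of_mul_dvd_mul_left hA0 h4
  have kp : m ∣ p := by
    have h4 := ((Zsqrtd.intCast_dvd g.norm _).1 kw).2
    have h5 : ((A : GaussianInt) * w).im = A * p := by simp [hw]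
    rw [h5, hm] at h4
    exact Int.dvd_of_mul_dvd_mul_left hA0 h4
  have kC : m ∣ C := by
    refine key C ?_
    rw [hn]
    push_cast
    rw [← hww]
    exact mul_dvd_mul hgw hgw'
  have hmu : IsUnit m := hcop m kA kB kC kp
  have hg0 : 0 ≤ g.norm := GaussianInt.norm_nonneg g
  have hm1 : m = 1 := by
    rcases Int.isUnit_iff.1 hmu with h | h
    · exact h
    · rw [h] at hm
      linarith
  rw [hm1, mul_one] at hm
  obtain ⟨z, hz⟩ := hgw
  refine ⟨star g, z, ?_, ?_, ?_, ?_⟩
  · rw [Zsqrtd.norm_conj, hm]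
  · have h6 : A * z.norm = A * C := by
      rw [← hwn, hz, Zsqrtd.norm_mul, hm]
    exact mul_left_cancel₀ hA0 h6
  · rw [star_star, ← hz]
  · rw [star_star, ← hz]

end Pool.Agent.Helper15.AB
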