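import Mathlib
import Pool.Agent.Helper15.AB.StAp

/-!
# Module XI: the quadruple around a circle of odd prime curvature
-/

set_option autoImplicit false

namespace Pool.Agent.Helper15.AB

namespace hXI

theorem cu_Ec (q : Fin 4 → Circ) (v : ℤ × ℤ) : cu (Ec q v) =
    (v.1 : ℝ) ^ 2 * (cu (q 0) + cu (q 1)) +
      (v.1 : ℝ) * v.2 * (cu (q 0) + cu (q 1) + cu (q 2) - cu (q 3)) +
      (v.2 : ℝ) ^ 2 * (cu (q 0) + cu (q 2)) - cu (q 0) := by
  simp [Ec, cu]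
  ring

/-- the theorem of Descartes -/
theorem descartes (hXM : StXM) (q : Fin 4 → Circ) (hq : Desc q) :
    2 * (cu (q 0) ^ 2 + cu (q 1) ^ 2 + cu (q 2) ^ 2 + cu (q 3) ^ 2) =
      (cu (q 0) + cu (q 1) + cu (q 2) + cu (q 3)) ^ 2 := by
  have h := hXM q hq ((-2 : ℝ), (0 : ℝ), (0 : ℂ))
  have hb : ∀ w : Circ, bil ((-2 : ℝ), (0 : ℝ), (0 : ℂ)) w = cu w := by
    intro w
    simp only [bil, cu]
    simp
    ring
  have h2 := congrArg cu h
  simp only [hb, Fin.sum_univ_four] at h2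
  simp [cu] at h2
  simp only [cu]
  linarith

/-- all curvatures of a quadruple are multiples of `p` -/
def Mul4 (p : ℕ) (q : Fin 4 → Circ) : Prop := ∀ i, ∃ k : ℤ, cu (q i) = p * k

theorem mul4_iff (p : ℕ) (b q : Fin 4 → Circ) (h : Orb b q) : Mul4 p b ↔ Mul4 p q := by
  induction h with
  | base => exact Iff.rfl
  | perm q σ _ ih =>
    rw [ih]
    constructor
    · intro h i
      exact h (σ i)
    · intro h i
      have := h (σ.symm i)
      simpa using this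
  | swap q _ ih =>
    rw [ih]
    constructor
    · intro h
      obtain ⟨a, ha⟩ := h 0
      obtain ⟨b, hb⟩ := h 1
      obtain ⟨c, hc⟩ := h 2
      obtain ⟨d, hd⟩ := h 3
      intro i
      fin_cases i
      · exact ⟨a, ha⟩
      · exact ⟨b, hb⟩
      · exact ⟨c, hc⟩
      · refine ⟨2 * (a + b + c) - d, ?_⟩
        have : cu ((2 : ℝ) • (q 0 + q 1 + q 2) - q 3) =
            2 * (cu (q 0) + cu (q 1) + cu (q 2)) - cu (q 3) := by simp [cu]; ring
        change cu ((2 : ℝ) • (q 0 + q 1 + q 2) - q 3) = _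
        rw [this, ha, hb, hc, hd]; push_cast; ring
    · intro h
      obtain ⟨a, ha⟩ := h 0
      obtain ⟨b, hb⟩ := h 1
      obtain ⟨c, hc⟩ := h 2
      obtain ⟨d, hd⟩ := h 3
      change cu (q 0) = _ at ha
      change cu (q 1) = _ at hb
      change cu (q 2) = _ at hc
      change cu ((2 : ℝ) • (q 0 + q 1 + q 2) - q 3) = _ at hd
      have e : cu ((2 : ℝ) • (q 0 + q 1 + q 2) - q 3) =
            2 * (cu (q 0) + cu (q 1) + cu (q 2)) - cu (q 3) := by simp [cu]; ring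
      rw [e] at hd
      intro i
      fin_cases i
      · exact ⟨a, ha⟩
      · exact ⟨b, hb⟩
      · exact ⟨c, hc⟩
      · refine ⟨2 * (a + b + c) - d, ?_⟩
        change cu (q 3) = _
        push_cast
        linarith

theorem norm_zz (z₁ z₂ : GaussianInt) (v : ℤ × ℤ) : (zz z₁ z₂ v).norm =
    v.1 ^ 2 * z₁.norm + 2 * v.1 * v.2 * (star z₁ * z₂).re + v.2 ^ 2 * z₂.norm := by
  simp only [zz, Zsqrtd.norm_def, Zsqrtd.re_add, Zsqrtd.im_add, Zsqrtd.re_mul, Zsqrtd.im_mul,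
      Zsqrtd.re_intCast, Zsqrtd.im_intCast, Zsqrtd.re_star, Zsqrtd.im_star]
  ring

theorem main (hXM : StXM) (hXA : StXA) (hXF : StXF) (hXG : StXG) (hXH : StXH)
    (b : Fin 4 → Circ) (hb : PrimPacking b) (q : Fin 4 → Circ) (hq : Orb b q) (p : ℕ)
    (hp : p.Prime) (hp0 : cu (q 0) = p) :
    ∃ z₁ z₂ : GaussianInt, (star z₁ * z₂).im = p ∧
      (∀ v : ℤ × ℤ, cu (Ec q v) = (((zz z₁ z₂ v).norm - p : ℤ) : ℝ)) ∧
      ¬ ((p : ℤ) ∣ z₁.norm ∧ (p : ℤ) ∣ (star z₁ * z₂).re ∧ (p : ℤ) ∣ z₂.norm) := by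
  obtain ⟨hd, hpk⟩ := hXA b hb.desc q hq
  obtain ⟨d1, h1⟩ := hb.integral (q 1) (hpk 1)
  obtain ⟨d2, h2⟩ := hb.integral (q 2) (hpk 2)
  obtain ⟨d3, h3⟩ := hb.integral (q 3) (hpk 3)
  have hD := descartes hXM q hd
  rw [hp0, h1, h2, h3] at hD
  have hDZ : 2 * ((p : ℤ) ^ 2 + d1 ^ 2 + d2 ^ 2 + d3 ^ 2) = ((p : ℤ) + d1 + d2 + d3) ^ 2 := by
    exact_mod_cast hD
  have hev : (2 : ℤ) ∣ (p : ℤ) + d1 + d2 + d3 := by
    apply Int.prime_two.dvd_of_dvd_pow (n := 2)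
    exact ⟨_, hDZ.symm⟩
  obtain ⟨B, hB⟩ : (2 : ℤ) ∣ (p : ℤ) + d1 + d2 - d3 := by
    obtain ⟨t, ht⟩ := hev
    exact ⟨t - d3, by linarith⟩
  have hABC : ((p : ℤ) + d1) * (p + d2) - B ^ 2 = (p : ℤ) ^ 2 := by
    have : 4 * (((p : ℤ) + d1) * (p + d2) - B ^ 2) = 4 * (p : ℤ) ^ 2 := by
      have e : 4 * B ^ 2 = ((p : ℤ) + d1 + d2 - d3) ^ 2 := by rw [hB]; ring
      linarith
    linarith
  have hpZ : (0 : ℤ) < p := by exact_mod_cast hp.pos
  have hA : 0 < (p : ℤ) + d1 := by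
    have h0 := (hXG b hb.desc hb.pos q hq).2 0 1 (by decide)
    rw [hp0, h1] at h0
    have h0' : 0 ≤ (p : ℤ) + d1 := by exact_mod_cast h0
    rcases h0'.lt_or_eq with h | h
    · exact h
    · exfalso
      rw [← h] at hABC
      have h5 : (0 : ℤ) < (p : ℤ) ^ 2 := by positivity
      have h6 : (0 : ℤ) ≤ B ^ 2 := sq_nonneg B
      linarith
  have hnot : ¬ ((p : ℤ) ∣ (p : ℤ) + d1 ∧ (p : ℤ) ∣ B ∧ (p : ℤ) ∣ (p : ℤ) + d2) := by
    rintro ⟨⟨s, hs⟩, ⟨t, ht⟩, ⟨r, hr⟩⟩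
    have hM : Mul4 p q := by
      intro i
      fin_cases i
      · exact ⟨1, by change cu (q 0) = _; rw [hp0]; push_cast; ring⟩
      · refine ⟨s - 1, ?_⟩
        change cu (q 1) = _
        have : d1 = p * (s - 1) := by linarith
        rw [h1, this]; push_cast; ring
      · refine ⟨r - 1, ?_⟩
        change cu (q 2) = _
        have : d2 = p * (r - 1) := by linarith
        rw [h2, this]; push_cast; ring
      · refine ⟨s + r - 1 - 2 * t, ?_⟩
        change cu (q 3) = _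
        have : d3 = p * (s + r - 1 - 2 * t) := by
          have e : d3 = (p : ℤ) + d1 + (p + d2) - p - 2 * B := by linarith
          rw [e, hs, hr, ht]; ring
        rw [h3, this]; push_cast; ring
    have hMb := (mul4_iff p b q hq).2 hM
    obtain ⟨C, hC, hC2⟩ := hb.primitive p hp
    obtain ⟨q', hq', hq0⟩ := hXF b hb.desc C hC
    apply hC2
    obtain ⟨k, hk⟩ := (mul4_iff p b q' hq').1 hMb 0
    exact ⟨k, by rw [← hq0, hk]⟩
  obtain ⟨z₁, z₂, hz1, hz2, hz3, hz4⟩ := hXH p (p + d1) B (p + d2) hA hABC (by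
    intro d hdA hdB hdC hdp
    have hp' : Prime (p : ℤ) := Nat.prime_iff_prime_int.mp hp
    rcases (Irreducible.dvd_iff hp'.irreducible).1 hdp with h | h
    · exact h
    · exfalso
      exact hnot ⟨h.dvd.trans hdA, h.dvd.trans hdB, h.dvd.trans hdC⟩)
  refine ⟨z₁, z₂, hz4, ?_, ?_⟩
  · intro v
    rw [cu_Ec, norm_zz, hz1, hz2, hz3, hp0, h1, h2, h3]
    have e : ((p : ℝ) + d1 + d2 - d3) = 2 * B := by exact_mod_cast hB
    rw [e]
    push_cast
    ring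
  · rw [hz1, hz2, hz3]
    exact hnot

end hXI

open hXI in
theorem hXI (hXM : StXM) (hXA : StXA) (hXS : StXS) (hXF : StXF) (hXG : StXG) (hXH : StXH) :
    StXI := by
  intro b hb C hC p hp hp2 hCp
  obtain ⟨q, hq, hq0⟩ := hXF b hb.desc C hC
  have hp0 : cu (q 0) = p := by rw [hq0, hCp]
  obtain ⟨z₁, z₂, him, hcu, hn⟩ := main hXM hXA hXF hXG hXH b hb q hq p hp hp0
  -- change of the basis
  have key : ∀ v w : ℤ × ℤ, v.1 * w.2 - v.2 * w.1 = 1 → ¬ (p : ℤ) ∣ (zz z₁ z₂ v).norm →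
      ∃ (q : Fin 4 → Circ) (z₁ z₂ : GaussianInt), Orb b q ∧ q 0 = C ∧ (star z₁ * z₂).im = p ∧
    ¬ (p : ℤ) ∣ z₁.norm ∧ ∀ v : ℤ × ℤ, cu (Ec q v) = (((zz z₁ z₂ v).norm - p : ℤ) : ℝ) := by
    intro v w hvw hnv
    have hq' := hXS b q hb.desc hq v w hvw
    set q' : Fin 4 → Circ := ![q 0, Ec q v, Ec q w, Ec q (v.1 - w.1, v.2 - w.2)] with hq'def
    have hq'0 : q' 0 = q 0 := rfl
    have hq'1 : q' 1 = Ec q v := rfl
    obtain ⟨y₁, y₂, him', hcu', hn'⟩ := main hXM hXA hXF hXG hXH b hb q' hq' p hp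
      (by rw [hq'0, hp0])
    refine ⟨q', y₁, y₂, hq', by rw [hq'0, hq0], him', ?_, hcu'⟩
    have e1 := hcu' (1, 0)
    rw [cu_Ec, norm_zz, hq'0, hq'1, hcu v, hp0] at e1
    have e2 : y₁.norm = (zz z₁ z₂ v).norm := by
      push_cast at e1
      have : ((y₁.norm : ℤ) : ℝ) = (((zz z₁ z₂ v).norm : ℤ) : ℝ) := by linarith
      exact_mod_cast this
    rw [e2]
    exact hnv
  by_cases hA : (p : ℤ) ∣ z₁.norm
  · by_cases hC' : (p : ℤ) ∣ z₂.norm
    · apply key (1, 1) (0, 1) (by norm_num)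
      rw [norm_zz]
      intro hdiv
      apply hn
      refine ⟨hA, ?_, hC'⟩
      have h2 : (p : ℤ) ∣ 2 * (star z₁ * z₂).re := by
        have e : 2 * (star z₁ * z₂).re = (1 ^ 2 * z₁.norm + 2 * 1 * 1 * (star z₁ * z₂).re +
          1 ^ 2 * z₂.norm) - z₁.norm - z₂.norm := by ring
        rw [e]
        exact dvd_sub (dvd_sub hdiv hA) hC'
      have hp' : Prime (p : ℤ) := Nat.prime_iff_prime_int.mp hp
      rcases hp'.dvd_or_dvd h2 with h | h
      · exfalso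
        have h3 : p ∣ 2 := by exact_mod_cast h
        exact hp2 ((Nat.prime_dvd_prime_iff_eq hp Nat.prime_two).1 h3)
      · exact h
    · apply key (0, 1) (-1, 0) (by norm_num)
      rw [norm_zz]
      intro hdiv
      apply hC'
      have e : z₂.norm = (0 : ℤ) ^ 2 * z₁.norm + 2 * 0 * 1 * (star z₁ * z₂).re +
          1 ^ 2 * z₂.norm := by ring
      rw [e]
      exact hdiv
  · exact ⟨q, z₁, z₂, hq, hq0, him, hA, hcu⟩

end Pool.Agent.Helper15.AB
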