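import Mathlib
import Pool.Agent.Helper15.AB.StAp

/-!
# Project AB, module XJ: the circles around a circle tangent to the given one
-/

set_option autoImplicit false

namespace Pool.Agent.Helper15.AB

namespace hXJ

theorem bil_comm (v w : Circ) : bil v w = bil w v := by
  unfold bil; ring

theorem tang_symm {v w : Circ} (h : Tang v w) : Tang w v := by
  unfold Tang at *; rw [bil_comm]; exact h

theorem exists_compl (v : ℤ × ℤ) (hv : IsCoprime v.1 v.2) :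
    ∃ w : ℤ × ℤ, v.1 * w.2 - v.2 * w.1 = 1 := by
  obtain ⟨a, e, hae⟩ := hv
  exact ⟨(-e, a), by simp only; linarith⟩

theorem cu_Ec (q : Fin 4 → Circ) (v : ℤ × ℤ) :
    cu (Ec q v) = (v.1 : ℝ) ^ 2 * (cu (q 0) + cu (q 1)) +
      (v.1 : ℝ) * v.2 * (cu (q 0) + cu (q 1) + cu (q 2) - cu (q 3)) +
      (v.2 : ℝ) ^ 2 * (cu (q 0) + cu (q 2)) - cu (q 0) := by
  simp only [cu, Ec, Prod.fst_add, Prod.snd_add, Prod.fst_sub, Prod.snd_sub, Prod.smul_fst,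
    Prod.smul_snd, smul_eq_mul]

theorem norm_eq (z : GaussianInt) : z.norm = z.re ^ 2 + z.im ^ 2 := by
  rw [Zsqrtd.norm_def]; ring

theorem zz_re (z₁ z₂ : GaussianInt) (v : ℤ × ℤ) :
    (zz z₁ z₂ v).re = v.1 * z₁.re + v.2 * z₂.re := by
  simp [zz]

theorem zz_im (z₁ z₂ : GaussianInt) (v : ℤ × ℤ) :
    (zz z₁ z₂ v).im = v.1 * z₁.im + v.2 * z₂.im := by
  simp [zz]

/-- the identity of curvatures -/
theorem key (p : ℤ) (z₁ z₂ : GaussianInt) (v w x : ℤ × ℤ) (him : (star z₁ * z₂).im = p)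
    (hvw : v.1 * w.2 - v.2 * w.1 = 1) :
    x.1 ^ 2 * ((zz z₁ z₂ v).norm - p + p) +
      x.1 * x.2 * ((zz z₁ z₂ v).norm - p + p + ((zz z₁ z₂ w).norm - p) -
        ((zz z₁ z₂ (v.1 - w.1, v.2 - w.2)).norm - p)) +
      x.2 ^ 2 * ((zz z₁ z₂ v).norm - p + ((zz z₁ z₂ w).norm - p)) - ((zz z₁ z₂ v).norm - p) =
    (zz (zz z₁ z₂ v) (zz z₁ z₂ w - ⟨0, 1⟩ * zz z₁ z₂ v) x).norm - ((zz z₁ z₂ v).norm - p) := by
  have h1 : z₁.re * z₂.im - z₁.im * z₂.re = p := by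
    rw [← him]; simp; ring
  simp only [norm_eq, zz_re, zz_im, Zsqrtd.re_sub, Zsqrtd.im_sub, Zsqrtd.re_mul, Zsqrtd.im_mul]
  obtain ⟨v1, v2⟩ := v
  obtain ⟨w1, w2⟩ := w
  obtain ⟨x1, x2⟩ := x
  obtain ⟨a, b⟩ := z₁
  obtain ⟨c, d⟩ := z₂
  simp only at *
  subst h1
  linear_combination (2 * x2 ^ 2 * (a * d - b * c)) * hvw

end hXJ

open hXJ in
theorem hXJ (hXA : StXA) (hXC : StXC) (hXS : StXS) : StXJ := by
  intro b hb q p z₁ z₂ hq hcu him hEc bz hbz v x hv hx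
  have hvw := hbz v hv
  have hq1 := hXS b q hb hq v (bz v) hvw
  obtain ⟨hdq, hpq⟩ := hXA b hb q hq
  obtain ⟨-, hp1⟩ := hXA b hb _ hq1
  have hq2 := Orb.perm _ (Equiv.swap 0 1) hq1
  obtain ⟨hd2, hp2⟩ := hXA b hb _ hq2
  set q' : Fin 4 → Circ := ![q 0, Ec q v, Ec q (bz v), Ec q (v.1 - (bz v).1, v.2 - (bz v).2)] ∘
    (Equiv.swap (0 : Fin 4) 1) with hq'
  have e0 : q' 0 = Ec q v := by
    simp [hq']
  have e1 : q' 1 = q 0 := by
    simp [hq']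
  have e2 : q' 2 = Ec q (bz v) := by
    have : (Equiv.swap (0 : Fin 4) 1) 2 = 2 := by decide
    simp [hq', this]
  have e3 : q' 3 = Ec q (v.1 - (bz v).1, v.2 - (bz v).2) := by
    have : (Equiv.swap (0 : Fin 4) 1) 3 = 3 := by decide
    simp [hq', this]
  refine ⟨by simpa using hp1 1, tang_symm (hXC q hdq v).2.1, Ec q' x, ?_, ?_, ?_⟩
  · obtain ⟨y, hy⟩ := exists_compl x hx
    have h3 := hXS b q' hb hq2 x y hy
    simpa using (hXA b hb _ h3).2 1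
  · rw [← e0]
    exact tang_symm (hXC q' hd2 x).2.1
  · rw [cu_Ec, e0, e1, e2, e3, hEc, hEc, hEc, hcu, nn]
    have := key p z₁ z₂ v (bz v) x him hvw
    rw [← this]
    push_cast
    ring

end Pool.Agent.Helper15.AB
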