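import Mathlib
import Pool.Agent.Helper15.AB.StAp

/-! AB module XM: expansion in a quadruple. -/

set_option autoImplicit false

namespace Pool.Agent.Helper15.AB

open Finset

namespace hXM

theorem bil_comb (d : Fin 4 → ℝ) (q : Fin 4 → Circ) (w : Circ) :
    bil (∑ k, d k • q k) w = ∑ k, d k * bil (q k) w := by
  simp only [Fin.sum_univ_four]
  unfold bil
  simp only [Prod.fst_add, Prod.snd_add, Prod.smul_fst, Prod.smul_snd, Complex.add_re,
    Complex.add_im, Complex.real_smul, Complex.mul_re, Complex.mul_im, Complex.ofReal_re,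
    Complex.ofReal_im, smul_eq_mul]
  ring

theorem gram (q : Fin 4 → Circ) (hq : Desc q) (i j : Fin 4) :
    bil (q i) (q j) = if i = j then 1 else -1 := by
  split_ifs with h
  · rw [h]; exact hq.circ j
  · exact hq.tang i j h

theorem coef (q : Fin 4 → Circ) (hq : Desc q) (d : Fin 4 → ℝ) (k : Fin 4) :
    (2 * bil (∑ k, d k • q k) (q k) - ∑ j, bil (∑ k, d k • q k) (q j)) / 4 = d k := by
  simp only [bil_comb, gram q hq]
  fin_cases k <;> simp [Fin.sum_univ_four] <;> ring

theorem linIndep (q : Fin 4 → Circ) (hq : Desc q) : LinearIndependent ℝ q := by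
  rw [Fintype.linearIndependent_iff]
  intro d hd k
  rw [← coef q hq d k, hd]
  have h0 : ∀ w : Circ, bil 0 w = 0 := by
    intro w
    unfold bil
    simp
  simp [h0]

theorem finrank_circ : Module.finrank ℝ Circ = 4 := by
  show Module.finrank ℝ (ℝ × ℝ × ℂ) = 4
  rw [Module.finrank_prod, Module.finrank_prod, Complex.finrank_real_complex,
    Module.finrank_self]

end hXM

open hXM in
theorem hXM : StXM := by
  intro q hq v
  have hli := linIndep q hq
  have hspan : Submodule.span ℝ (Set.range q) = ⊤ := by
    apply hli.span_eq_top_of_card_eq_finrank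
    rw [finrank_circ, Fintype.card_fin]
  have hv : v ∈ Submodule.span ℝ (Set.range q) := by rw [hspan]; exact Submodule.mem_top
  obtain ⟨d, hd⟩ := (Submodule.mem_span_range_iff_exists_fun ℝ).mp hv
  have h1 : ∀ k, (2 * bil v (q k) - ∑ j, bil v (q j)) / 4 = d k := by
    intro k
    rw [← hd]
    exact coef q hq d k
  simp only [h1]
  exact hd.symm

end Pool.Agent.Helper15.AB
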