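import Mathlib
import Pool.Agent.Helper15.AB.StAp

/-!
# Project AB: XS, the circles around the first circle belong to the orbit
-/

set_option autoImplicit false

namespace Pool.Agent.Helper15.AB

namespace XSaux

/-- Euclid's algorithm on pairs of rows -/
theorem gl2 (P : ℤ → ℤ → ℤ → ℤ → Prop) (h0 : P 1 0 0 1)
    (sw : ∀ a b c d, P a b c d → P c d a b) (ng : ∀ a b c d, P a b c d → P a b (-c) (-d))
    (ad : ∀ a b c d, P a b c d → P a b (c + a) (d + b)) :
    ∀ (n : ℕ) (a b c d : ℤ), a.natAbs + c.natAbs ≤ n →
      (a * d - b * c = 1 ∨ a * d - b * c = -1) → P a b c d := by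
  have ng' : ∀ a b c d, P a b c d → P (-a) (-b) c d := fun a b c d h => sw _ _ _ _ (ng _ _ _ _
    (sw _ _ _ _ h))
  have sb : ∀ a b c d, P a b c d → P a b (c - a) (d - b) := by
    intro a b c d h
    have h1 := ng _ _ _ _ (ad _ _ _ _ (ng _ _ _ _ h))
    have e1 : -(-c + a) = c - a := by ring
    have e2 : -(-d + b) = d - b := by ring
    rw [e1, e2] at h1
    exact h1
  have adn : ∀ (k : ℕ) (a b c d : ℤ), P a b c d → P a b (c + k * a) (d + k * b) := by
    intro k
    induction k with
    | zero => intro a b c d h; simpa using h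
    | succ k ih =>
      intro a b c d h
      have h1 := ad _ _ _ _ (ih a b c d h)
      push_cast
      have e1 : c + k * a + a = c + (k + 1) * a := by ring
      have e2 : d + k * b + b = d + (k + 1) * b := by ring
      rw [e1, e2] at h1
      exact h1
  have adz : ∀ (k : ℤ) (a b c d : ℤ), P a b c d → P a b (c + k * a) (d + k * b) := by
    intro k a b c d h
    rcases Int.eq_nat_or_neg k with ⟨m, rfl | rfl⟩
    · exact adn m a b c d h
    · have h1 := ng _ _ _ _ (adn m _ _ _ _ (ng _ _ _ _ h))
      have e1 : -(-c + m * a) = c + -(m : ℤ) * a := by ring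
      have e2 : -(-d + m * b) = d + -(m : ℤ) * b := by ring
      rw [e1, e2] at h1
      exact h1
  -- upper triangular case
  have base : ∀ a b d : ℤ, (a * d = 1 ∨ a * d = -1) → P a b 0 d := by
    intro a b d h
    have hd : d = 1 ∨ d = -1 := by
      apply Int.isUnit_iff.1
      rcases h with h | h
      · exact IsUnit.of_mul_eq_one a (by rw [mul_comm]; exact h)
      · exact IsUnit.of_mul_eq_one (-a) (by rw [mul_neg, mul_comm, h, neg_neg])
    have ha : a = 1 ∨ a = -1 := by
      apply Int.isUnit_iff.1
      rcases h with h | h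
      · exact IsUnit.of_mul_eq_one d h
      · exact IsUnit.of_mul_eq_one (-d) (by rw [mul_neg, h, neg_neg])
    -- first P a 0 0 d
    have h1 : P a 0 0 d := by
      have h2 : P 1 0 0 d := by
        rcases hd with rfl | rfl
        · exact h0
        · have := ng _ _ _ _ h0
          simpa using this
      rcases ha with rfl | rfl
      · exact h2
      · have := ng' _ _ _ _ h2
        simpa using this
    have h3 := sw _ _ _ _ (adz (b * d) _ _ _ _ (sw _ _ _ _ h1))
    have e1 : a + b * d * 0 = a := by ring
    have e2 : 0 + b * d * d = b := by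
      rcases hd with rfl | rfl <;> ring
    rw [e1, e2] at h3
    exact h3
  intro n
  induction n with
  | zero =>
    intro a b c d hn hdet
    have ha : a = 0 := by omega
    have hc : c = 0 := by omega
    subst ha
    subst hc
    rcases hdet with h | h <;> simp at h
  | succ n ih =>
    intro a b c d hn hdet
    by_cases hc : c = 0
    · subst hc
      apply base
      simpa using hdet
    by_cases ha : a = 0
    · subst ha
      apply sw
      apply base
      rcases hdet with h | h
      · right; linarith
      · left; linarith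
    -- reduce
    rcases le_total a.natAbs c.natAbs with hle | hle
    · rcases lt_or_gt_of_ne ha with h1 | h1 <;> rcases lt_or_gt_of_ne hc with h2 | h2
      · have h3 := ih a b (c - a) (d - b) (by omega) (by
          rcases hdet with h | h
          · left; linarith
          · right; linarith)
        have h4 := ad _ _ _ _ h3
        rwa [sub_add_cancel, sub_add_cancel] at h4
      · have h3 := ih a b (c + a) (d + b) (by omega) (by
          rcases hdet with h | h
          · left; linarith
          · right; linarith)
        have h4 := sb _ _ _ _ h3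
        rwa [add_sub_cancel_right, add_sub_cancel_right] at h4
      · have h3 := ih a b (c + a) (d + b) (by omega) (by
          rcases hdet with h | h
          · left; linarith
          · right; linarith)
        have h4 := sb _ _ _ _ h3
        rwa [add_sub_cancel_right, add_sub_cancel_right] at h4
      · have h3 := ih a b (c - a) (d - b) (by omega) (by
          rcases hdet with h | h
          · left; linarith
          · right; linarith)
        have h4 := ad _ _ _ _ h3
        rwa [sub_add_cancel, sub_add_cancel] at h4
    · rcases lt_or_gt_of_ne ha with h1 | h1 <;> rcases lt_or_gt_of_ne hc with h2 | h2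
      · have h3 := ih (a - c) (b - d) c d (by omega) (by
          rcases hdet with h | h
          · left; linarith
          · right; linarith)
        have h4 := sw _ _ _ _ (ad _ _ _ _ (sw _ _ _ _ h3))
        rwa [sub_add_cancel, sub_add_cancel] at h4
      · have h3 := ih (a + c) (b + d) c d (by omega) (by
          rcases hdet with h | h
          · left; linarith
          · right; linarith)
        have h4 := sw _ _ _ _ (sb _ _ _ _ (sw _ _ _ _ h3))
        rwa [add_sub_cancel_right, add_sub_cancel_right] at h4
      · have h3 := ih (a + c) (b + d) c d (by omega) (by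
          rcases hdet with h | h
          · left; linarith
          · right; linarith)
        have h4 := sw _ _ _ _ (sb _ _ _ _ (sw _ _ _ _ h3))
        rwa [add_sub_cancel_right, add_sub_cancel_right] at h4
      · have h3 := ih (a - c) (b - d) c d (by omega) (by
          rcases hdet with h | h
          · left; linarith
          · right; linarith)
        have h4 := sw _ _ _ _ (ad _ _ _ _ (sw _ _ _ _ h3))
        rwa [sub_add_cancel, sub_add_cancel] at h4

theorem Ec_neg (q : Fin 4 → Circ) (v : ℤ × ℤ) : Ec q (-v.1, -v.2) = Ec q v := by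
  unfold Ec
  push_cast
  module

theorem Ec_10 (q : Fin 4 → Circ) : Ec q (1, 0) = q 1 := by
  unfold Ec
  push_cast
  module

theorem Ec_01 (q : Fin 4 → Circ) : Ec q (0, 1) = q 2 := by
  unfold Ec
  push_cast
  module

theorem Ec_par (q : Fin 4 → Circ) (a b c d : ℤ) :
    Ec q (a + c, b + d) = (2 : ℝ) • (q 0 + Ec q (a, b) + Ec q (c, d)) - Ec q (a - c, b - d) := by
  unfold Ec
  push_cast
  module

end XSaux

open XSaux

/-- XS: the circles around the first circle belong to the orbit -/
theorem hXS : StXS := by
  intro b q _ hq
  have main : ∀ (n : ℕ) (a b' c d : ℤ), a.natAbs + c.natAbs ≤ n →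
      (a * d - b' * c = 1 ∨ a * d - b' * c = -1) →
      Orb b ![q 0, Ec q (a, b'), Ec q (c, d), Ec q (a - c, b' - d)] := by
    apply gl2
    · have e1 : ((1 : ℤ) - 0, (0 : ℤ) - 1) = ((1 : ℤ), (-1 : ℤ)) := by norm_num
      have e2 : Ec q (1, -1) = q 3 := by
        unfold Ec
        push_cast
        module
      rw [e1, e2, Ec_10, Ec_01]
      have e3 : (![q 0, q 1, q 2, q 3] : Fin 4 → Circ) = q := by
        funext i
        fin_cases i <;> rfl
      rw [e3]
      exact hq
    · intro a b' c d h
      have h1 := Orb.perm _ (Equiv.swap 1 2) h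
      have e : (![q 0, Ec q (a, b'), Ec q (c, d), Ec q (a - c, b' - d)] : Fin 4 → Circ) ∘
          (Equiv.swap 1 2 : Equiv.Perm (Fin 4)) =
          ![q 0, Ec q (c, d), Ec q (a, b'), Ec q (c - a, d - b')] := by
        have e4 : Ec q (c - a, d - b') = Ec q (a - c, b' - d) := by
          rw [← Ec_neg q (a - c, b' - d)]
          congr 1
          ext <;> simp
        rw [e4]
        funext i
        fin_cases i <;> rfl
      rw [e] at h1
      exact h1
    · intro a b' c d h
      have h1 := Orb.swap _ h
      have e : (![(![q 0, Ec q (a, b'), Ec q (c, d), Ec q (a - c, b' - d)] : Fin 4 → Circ) 0,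
          (![q 0, Ec q (a, b'), Ec q (c, d), Ec q (a - c, b' - d)] : Fin 4 → Circ) 1,
          (![q 0, Ec q (a, b'), Ec q (c, d), Ec q (a - c, b' - d)] : Fin 4 → Circ) 2,
          (2 : ℝ) • ((![q 0, Ec q (a, b'), Ec q (c, d), Ec q (a - c, b' - d)] : Fin 4 → Circ) 0 +
          (![q 0, Ec q (a, b'), Ec q (c, d), Ec q (a - c, b' - d)] : Fin 4 → Circ) 1 +
          (![q 0, Ec q (a, b'), Ec q (c, d), Ec q (a - c, b' - d)] : Fin 4 → Circ) 2) -
          (![q 0, Ec q (a, b'), Ec q (c, d), Ec q (a - c, b' - d)] : Fin 4 → Circ) 3] :
          Fin 4 → Circ) =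
          ![q 0, Ec q (a, b'), Ec q (-c, -d), Ec q (a - -c, b' - -d)] := by
        rw [Ec_neg q (c, d), sub_neg_eq_add, sub_neg_eq_add, Ec_par]
        rfl
      rw [e] at h1
      exact h1
    · intro a b' c d h
      -- (a,b'), (c,d), (a-c, b'-d) -> swap to get (a+c, b'+d) then permute
      have h1 := Orb.swap _ h
      have h2 := Orb.perm _ (Equiv.swap 2 3) h1
      have e : (![(![q 0, Ec q (a, b'), Ec q (c, d), Ec q (a - c, b' - d)] : Fin 4 → Circ) 0,
          (![q 0, Ec q (a, b'), Ec q (c, d), Ec q (a - c, b' - d)] : Fin 4 → Circ) 1,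
          (![q 0, Ec q (a, b'), Ec q (c, d), Ec q (a - c, b' - d)] : Fin 4 → Circ) 2,
          (2 : ℝ) • ((![q 0, Ec q (a, b'), Ec q (c, d), Ec q (a - c, b' - d)] : Fin 4 → Circ) 0 +
          (![q 0, Ec q (a, b'), Ec q (c, d), Ec q (a - c, b' - d)] : Fin 4 → Circ) 1 +
          (![q 0, Ec q (a, b'), Ec q (c, d), Ec q (a - c, b' - d)] : Fin 4 → Circ) 2) -
          (![q 0, Ec q (a, b'), Ec q (c, d), Ec q (a - c, b' - d)] : Fin 4 → Circ) 3] :
          Fin 4 → Circ) ∘ (Equiv.swap 2 3 : Equiv.Perm (Fin 4)) =
          ![q 0, Ec q (a, b'), Ec q (c + a, d + b'), Ec q (a - (c + a), b' - (d + b'))] := by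
        have e1 : (a - (c + a), b' - (d + b')) = (-c, -d) := by
          ext <;> simp
        rw [e1, Ec_neg q (c, d), add_comm c a, add_comm d b', Ec_par]
        funext i
        fin_cases i <;> rfl
      rw [e] at h2
      exact h2
  intro v w hdet
  exact main _ v.1 v.2 w.1 w.2 le_rfl (Or.inl hdet)

end Pool.Agent.Helper15.AB
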