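import Mathlib
import Pool.Agent.Helper15.AB.StAp

/-!
# Project AB, module XX: the final theorem
-/

set_option autoImplicit false

namespace Pool.Agent.Helper15.AB

open Finset

open Classical in
theorem hXX (hXI : StXI) (hXJ : StXJ) (hNT : StNT) : StXX := by
  intro b hb C₀ hC₀ hodd
  obtain ⟨p, hp, hp2, hcu⟩ := hodd
  obtain ⟨q, z₁, z₂, hq, hq0, him, hnd, hEc⟩ := hXI b hb C₀ hC₀ p hp hp2 hcu
  obtain ⟨bz, hbz⟩ : ∃ bz : ℤ × ℤ → ℤ × ℤ, Bez bz := by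
    have h : ∀ v : ℤ × ℤ, ∃ w : ℤ × ℤ, IsCoprime v.1 v.2 → v.1 * w.2 - v.2 * w.1 = 1 := by
      intro v
      by_cases hv : IsCoprime v.1 v.2
      · obtain ⟨a, e, hae⟩ := hv
        exact ⟨(-e, a), fun _ => by simp only; linarith⟩
      · exact ⟨0, fun h => absurd h hv⟩
    choose bz hbz using h
    exact ⟨bz, hbz⟩
  obtain ⟨c, X₀, hc, hX⟩ := hNT p z₁ z₂ hp hp2 him hnd
  refine ⟨c, X₀, hc, fun X hX' => (hX X hX' bz hbz).trans ?_⟩
  refine Nat.cast_le.2 (Finset.card_le_card ?_)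
  intro n hn
  rw [Finset.mem_filter] at hn ⊢
  obtain ⟨hn1, v, x, hv, hx, hpr, h2, hnn⟩ := hn
  refine ⟨hn1, ?_⟩
  obtain ⟨h3, h4, D, h5, h6, h7⟩ := hXJ b hb.desc q p z₁ z₂ hq (by rw [hq0]; exact hcu) him hEc
    bz hbz v x hv hx
  refine ⟨D, Or.inr ⟨h5, Ec q v, ?_, h6⟩, ?_⟩
  · refine Relation.ReflTransGen.single ⟨h3, ⟨((zz z₁ z₂ v).norm - p).toNat, hpr, ?_, ?_⟩, ?_⟩
    · omega
    · rw [hEc v]
      have h8 : (((zz z₁ z₂ v).norm - p).toNat : ℤ) = (zz z₁ z₂ v).norm - p :=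
        Int.toNat_of_nonneg (by omega)
      rw [← h8]
      norm_cast
    · rw [← hq0]
      exact h4
  · rw [h7, hnn]
    norm_cast

end Pool.Agent.Helper15.AB
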