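import Pool.Agent.Helper15.AB.M_AL
import Pool.Agent.Helper15.AB.M_AT
import Pool.Agent.Helper15.AB.M_AV
import Pool.Agent.Helper15.AB.M_BB
import Pool.Agent.Helper15.AB.M_BL
import Pool.Agent.Helper15.AB.M_BS
import Pool.Agent.Helper15.AB.M_BV
import Pool.Agent.Helper15.AB.M_CS
import Pool.Agent.Helper15.AB.M_D0
import Pool.Agent.Helper15.AB.M_DA
import Pool.Agent.Helper15.AB.M_DB
import Pool.Agent.Helper15.AB.M_DD
import Pool.Agent.Helper15.AB.M_DG
import Pool.Agent.Helper15.AB.M_DJ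
import Pool.Agent.Helper15.AB.M_DP
import Pool.Agent.Helper15.AB.M_EX
import Pool.Agent.Helper15.AB.M_FJ
import Pool.Agent.Helper15.AB.M_FO
import Pool.Agent.Helper15.AB.M_G1
import Pool.Agent.Helper15.AB.M_G2
import Pool.Agent.Helper15.AB.M_G3
import Pool.Agent.Helper15.AB.M_G4
import Pool.Agent.Helper15.AB.M_GA
import Pool.Agent.Helper15.AB.M_GS
import Pool.Agent.Helper15.AB.M_HN
import Pool.Agent.Helper15.AB.M_K0
import Pool.Agent.Helper15.AB.M_K1
import Pool.Agent.Helper15.AB.M_K2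
import Pool.Agent.Helper15.AB.M_KB
import Pool.Agent.Helper15.AB.M_KF
import Pool.Agent.Helper15.AB.M_LC
import Pool.Agent.Helper15.AB.M_LC1
import Pool.Agent.Helper15.AB.M_LL
import Pool.Agent.Helper15.AB.M_LP
import Pool.Agent.Helper15.AB.M_LW
import Pool.Agent.Helper15.AB.M_MA
import Pool.Agent.Helper15.AB.M_MI
import Pool.Agent.Helper15.AB.M_MJ
import Pool.Agent.Helper15.AB.M_ML
import Pool.Agent.Helper15.AB.M_MS
import Pool.Agent.Helper15.AB.M_MT
import Pool.Agent.Helper15.AB.M_MV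
import Pool.Agent.Helper15.AB.M_N1
import Pool.Agent.Helper15.AB.M_N2
import Pool.Agent.Helper15.AB.M_NB
import Pool.Agent.Helper15.AB.M_NP
import Pool.Agent.Helper15.AB.M_NR
import Pool.Agent.Helper15.AB.M_NT
import Pool.Agent.Helper15.AB.M_OB
import Pool.Agent.Helper15.AB.M_OF
import Pool.Agent.Helper15.AB.M_OR
import Pool.Agent.Helper15.AB.M_PH
import Pool.Agent.Helper15.AB.M_PK
import Pool.Agent.Helper15.AB.M_PQ
import Pool.Agent.Helper15.AB.M_R1
import Pool.Agent.Helper15.AB.M_R2a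
import Pool.Agent.Helper15.AB.M_R2b
import Pool.Agent.Helper15.AB.M_R3
import Pool.Agent.Helper15.AB.M_RG
import Pool.Agent.Helper15.AB.M_RP
import Pool.Agent.Helper15.AB.M_RR
import Pool.Agent.Helper15.AB.M_S2
import Pool.Agent.Helper15.AB.M_SC
import Pool.Agent.Helper15.AB.M_SD
import Pool.Agent.Helper15.AB.M_SG
import Pool.Agent.Helper15.AB.M_SM
import Pool.Agent.Helper15.AB.M_SU
import Pool.Agent.Helper15.AB.M_SZ
import Pool.Agent.Helper15.AB.M_T1
import Pool.Agent.Helper15.AB.M_T2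
import Pool.Agent.Helper15.AB.M_TA
import Pool.Agent.Helper15.AB.M_TH
import Pool.Agent.Helper15.AB.M_TL
import Pool.Agent.Helper15.AB.M_TS
import Pool.Agent.Helper15.AB.M_TY
import Pool.Agent.Helper15.AB.M_VA
import Pool.Agent.Helper15.AB.M_WE
import Pool.Agent.Helper15.AB.M_XA
import Pool.Agent.Helper15.AB.M_XB
import Pool.Agent.Helper15.AB.M_XC
import Pool.Agent.Helper15.AB.M_XD
import Pool.Agent.Helper15.AB.M_XE
import Pool.Agent.Helper15.AB.M_XF
import Pool.Agent.Helper15.AB.M_XG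
import Pool.Agent.Helper15.AB.M_XH
import Pool.Agent.Helper15.AB.M_XI
import Pool.Agent.Helper15.AB.M_XJ
import Pool.Agent.Helper15.AB.M_XM
import Pool.Agent.Helper15.AB.M_XS
import Pool.Agent.Helper15.AB.M_XX

/-!
# Project AB: assembly of all modules
-/

set_option autoImplicit false

namespace Pool.Agent.Helper15.AB

/-! ### Bombieri-Vinogradov -/
theorem aAL : StAL := hAL hGA
theorem aML : StML := hML aAL hGS
theorem aT2 : StT2 := hT2 hFO aML
theorem aBL : StBL := hBL hVA hT1 aT2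
theorem aD0 : StD0 := hD0 hDJ
theorem aLW : StLW := hLW hDJ aD0
theorem aPK : StPK := hPK hDJ aLW
theorem aTS : StTS := hTS hFO aPK
theorem aEX : StEX := hEX hDJ
theorem aSC : StSC := hSC aTS aEX
theorem aBV : StBV := hBV hTH aBL aSC hPH hRG hNP hOR

/-! ### Hooley's method -/
theorem aDP : StDP := hDP hMT
theorem aMV : StMV := hMV hMT
theorem aK1 : StK1 := hK1 hK0
theorem aK2 : StK2 := hK2 aK1
theorem aSU : StSU := hSU aMV
theorem aSD : StSD := hSD hMJ
theorem aS2 : StS2 := hS2 aMV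
theorem aTY : StTY := hTY hMT aDP aSU aSD
theorem aAT : StAT := hAT hMT aSU
theorem aR1 : StR1 := hR1 hTA aMV aDP
theorem aR3 : StR3 := hR3 hTA aMV aDP
theorem aR2a : StR2a := hR2a hCS
theorem aR2b : StR2b := hR2b hCS
theorem aSM : StSM := hSM hMJ aR1 aR2a aR2b aR3 hMT
theorem aNR : StNR := hNR aSU
theorem aMI : StMI := hMI aTY aAT aSM aNR hDB
theorem aMA : StMA := hMA aBV hTH aK1 aDP
theorem aSG : StSG := hSG aMA aMI
theorem aTL : StTL := hTL aS2 hRR hDB
theorem aBS : StBS := hBS hWE hTH aSG aK2 aTL hRP hDB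

/-! ### Orbit switching -/
theorem aOB : StOB := hOB hKF hHN hLL
theorem aBB : StBB := hBB aBS aOB

/-! ### Second moment -/
theorem aPQ : StPQ := hPQ hKB hDB
theorem aFJ : StFJ := hFJ aPQ hDB
theorem aLC1 : StLC1 := hLC1 aFJ hSZ
theorem aLC : StLC := hLC aLC1
theorem aOF : StOF := hOF aLC
theorem aG3 : StG3 := hG3 hG1 hG2
theorem aDG : StDG := hDG hLP aG3 hG4 hNB hDB
theorem aAV : StAV := hAV aS2
theorem aDD : StDD := hDD aAV hDB
theorem aDA : StDA := hDA aS2 aAV hNB hDB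
theorem aN1 : StN1 := hN1 aBB hMS
theorem aN2 : StN2 := hN2 aOF aDG aDD aDA aAV
theorem aNT : StNT := hNT aN1 aN2

/-! ### Apollonian geometry -/
theorem aXB : StXB := hXB hXM
theorem aXD : StXD := hXD hXA
theorem aXE : StXE := hXE hXM hXA hXS aXD
theorem aXF : StXF := hXF hXA aXB hXC hXS aXE
theorem aXG : StXG := hXG hXM hXA
theorem aXI : StXI := hXI hXM hXA hXS aXF aXG hXH
theorem aXJ : StXJ := hXJ hXA hXC hXS
theorem aXX : StXX := hXX aXI aXJ aNT

end Pool.Agent.Helper15.AB
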