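import Mathlib

/-!
# Project AB (thickened prime components have positive density): definitions
-/

set_option autoImplicit false

namespace Pool.Agent.Helper15.AB

open Finset ArithmeticFunction

/-- the nontrivial character modulo 4 -/
noncomputable def c4 (n : ℕ) : ℝ := if n % 4 = 1 then 1 else if n % 4 = 3 then -1 else 0

/-- `∑_{d ∣ m} c4 d` -/
noncomputable def FF (m : ℕ) : ℝ := ∑ d ∈ m.divisors, c4 d

/-- `∑_{g ^ 2 ∣ m} μ(g) FF(m / g ^ 2)` -/
noncomputable def Fst (m : ℕ) : ℝ :=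
  ∑ g ∈ (Icc 1 m).filter (fun g => g ^ 2 ∣ m), ((moebius g : ℤ) : ℝ) * FF (m / g ^ 2)

/-- number of representations as a sum of two squares -/
noncomputable def rr (m : ℕ) : ℕ := Set.ncard {v : ℤ × ℤ | v.1 ^ 2 + v.2 ^ 2 = m}

/-- number of primitive representations as a sum of two squares -/
noncomputable def rp (m : ℕ) : ℕ :=
  Set.ncard {v : ℤ × ℤ | v.1 ^ 2 + v.2 ^ 2 = m ∧ IsCoprime v.1 v.2}

/-- admissible smooth weights -/
structure IsW (w : ℝ → ℝ) : Prop where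
  smooth : ContDiff ℝ 4 w
  nonneg : ∀ t, 0 ≤ w t
  le_one : ∀ t, w t ≤ 1
  supp : ∀ t, t ∉ Set.Icc (0 : ℝ) 1 → w t = 0
  lower : ∀ t ∈ Set.Icc (0.1 : ℝ) 0.9, (0.001 : ℝ) ≤ w t

/-- `∑_n Λ(n) w(log (n / x))` -/
noncomputable def Th (w : ℝ → ℝ) (x : ℝ) : ℝ :=
  ∑ n ∈ Icc 1 ⌊3 * x⌋₊, Λ n * w (Real.log (n / x))

/-- `∑_n Λ(n) f(n) w(log (n / x))` -/
noncomputable def TT (w : ℝ → ℝ) (x : ℝ) (f : ℕ → ℂ) : ℂ :=
  ∑ n ∈ Icc 1 ⌊3 * x⌋₊, ((Λ n * w (Real.log (n / x)) : ℝ) : ℂ) * f n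

open Classical in
/-- sum over the primitive characters modulo `r` (as functions on the naturals) -/
noncomputable def SP (F : (ℕ → ℂ) → ℝ) (r : ℕ) : ℝ :=
  if h : r = 0 then 0 else
    (haveI : NeZero r := ⟨h⟩
     ∑ ψ ∈ (univ : Finset (DirichletCharacter ℂ r)).filter (fun ψ => ψ.IsPrimitive),
      F (fun n => ψ (n : ZMod r)))

open Classical in
/-- sum over the nonprincipal characters modulo `q`, each replaced by its primitive character -/
noncomputable def SN (F : (ℕ → ℂ) → ℝ) (q : ℕ) : ℝ :=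
  if h : q = 0 then 0 else
    (haveI : NeZero q := ⟨h⟩
     ∑ χ ∈ (univ : Finset (DirichletCharacter ℂ q)).filter (fun χ => χ ≠ 1),
      F (fun n => χ.primitiveCharacter (n : ZMod χ.conductor)))

/-- additive character `e(t) = exp(2 π i t)` -/
noncomputable def ee (t : ℝ) : ℂ := Complex.exp (2 * Real.pi * t * Complex.I)

/-- size of `L(1, ψ)` for quadratic characters, `1` for the others -/
noncomputable def dl {r : ℕ} [NeZero r] (ψ : DirichletCharacter ℂ r) : ℝ :=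
  if ψ ^ 2 = 1 then min 1 ‖DirichletCharacter.LFunction ψ 1‖ else 1

/-- `log (r (|t| + 3))` -/
noncomputable def LL (r : ℕ) (s : ℂ) : ℝ := Real.log (r * (|s.im| + 3))

end Pool.Agent.Helper15.AB
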