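import Mathlib
import Pool.Agent.Helper15.AB.StBV

/-!
Project AB, module AL: the additive large sieve for Farey fractions.
-/

set_option autoImplicit false

namespace Pool.Agent.Helper15.AB

open Finset

namespace AL

/-- two reduced fractions in `[0,1)` with the same value are equal -/
lemma frac_inj {r b r' b' : ℕ} (hr : 1 ≤ r) (hr' : 1 ≤ r') (hc : Nat.Coprime b r)
    (hc' : Nat.Coprime b' r') (h : (b : ℝ) / r = b' / r') : r = r' ∧ b = b' := by
  have hr0 : (r : ℝ) ≠ 0 := by positivity
  have hr0' : (r' : ℝ) ≠ 0 := by positivity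
  rw [div_eq_div_iff hr0 hr0'] at h
  have h1 : b * r' = b' * r := by exact_mod_cast h
  have d1 : r ∣ r' := by
    have : r ∣ b * r' := ⟨b', by rw [h1]; ring⟩
    exact (Nat.Coprime.dvd_of_dvd_mul_left hc.symm this)
  have d2 : r' ∣ r := by
    have : r' ∣ b' * r := ⟨b, by rw [← h1]; ring⟩
    exact (Nat.Coprime.dvd_of_dvd_mul_left hc'.symm this)
  have e : r = r' := Nat.dvd_antisymm d1 d2
  refine ⟨e, ?_⟩
  subst e
  exact Nat.eq_of_mul_eq_mul_right (by omega) h1

end AL

open AL in
/-- module AL -/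
theorem hAL (hGA : StGA) : StAL := by
  classical
  obtain ⟨C, hC, h⟩ := hGA
  refine ⟨C, hC, ?_⟩
  intro Q N M a
  rcases Nat.eq_zero_or_pos Q with rfl | hQ
  · simp only [Nat.cast_zero, show Icc 1 0 = (∅ : Finset ℕ) from rfl, sum_empty]
    have : 0 ≤ ∑ n ∈ Ioc M (M + N), ‖a n‖ ^ 2 := sum_nonneg fun _ _ => by positivity
    positivity
  · set I : Finset (Σ _ : ℕ, ℕ) :=
      (Icc 1 Q).sigma (fun r => (range r).filter (fun b => Nat.Coprime b r)) with hI
    have hmem : ∀ z : (Σ _ : ℕ, ℕ), z ∈ I ↔ (1 ≤ z.1 ∧ z.1 ≤ Q) ∧ z.2 < z.1 ∧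
        Nat.Coprime z.2 z.1 := by
      intro z
      rw [hI, mem_sigma, mem_Icc, mem_filter, mem_range]
    set f : (Σ _ : ℕ, ℕ) → ℝ := fun z => (z.2 : ℝ) / z.1 with hf
    have hinj : Set.InjOn f (↑I : Set (Σ _ : ℕ, ℕ)) := by
      rintro ⟨r, b⟩ hz ⟨r', b'⟩ hz' hff
      rw [mem_coe, hmem] at hz hz'
      obtain ⟨e1, e2⟩ := frac_inj hz.1.1 hz'.1.1 hz.2.2 hz'.2.2 hff
      simp only at e1 e2
      subst e1 e2
      rfl
    have hQ1 : (1 : ℝ) ≤ Q := by exact_mod_cast hQ
    have hQ2 : (1 : ℝ) ≤ (Q : ℝ) ^ 2 := by nlinarith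
    have key := h (I.image f) (1 / (Q : ℝ) ^ 2) N M a (by positivity)
      (by rw [div_le_one (by positivity)]; exact hQ2) ?_ ?_
    · rw [sum_image hinj] at key
      rw [one_div_one_div] at key
      rw [← sum_sigma' (Icc 1 Q) (fun r => (range r).filter (fun b => Nat.Coprime b r))
        (fun r b => ‖∑ n ∈ Ioc M (M + N), a n * ee (n * ((b : ℝ) / r))‖ ^ 2)] at key
      exact key
    · intro α hα
      rw [mem_image] at hα
      obtain ⟨⟨r, b⟩, hz, rfl⟩ := hα
      rw [hmem] at hz
      have hr : (0 : ℝ) < r := by exact_mod_cast hz.1.1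
      have hb : (b : ℝ) < r := by exact_mod_cast hz.2.1
      simp only [hf]
      exact ⟨by positivity, by rw [div_lt_one hr]; exact hb⟩
    · intro α hα β hβ hne k
      rw [mem_image] at hα hβ
      obtain ⟨⟨r, b⟩, hz, rfl⟩ := hα
      obtain ⟨⟨r', b'⟩, hz', rfl⟩ := hβ
      rw [hmem] at hz hz'
      simp only at hz hz'
      simp only [hf] at hne ⊢
      have hr : (0 : ℝ) < r := by exact_mod_cast hz.1.1
      have hr' : (0 : ℝ) < r' := by exact_mod_cast hz'.1.1
      have hrQ : (r : ℝ) ≤ Q := by exact_mod_cast hz.1.2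
      have hrQ' : (r' : ℝ) ≤ Q := by exact_mod_cast hz'.1.2
      have e1 : (b : ℝ) / r - b' / r' - k = (((b * r' : ℤ) - b' * r - k * (r * r') : ℤ) : ℝ) /
          (r * r') := by
        push_cast
        field_simp
      rw [e1, abs_div, abs_of_pos (by positivity : (0 : ℝ) < r * r')]
      set z : ℤ := (b * r' : ℤ) - b' * r - k * (r * r') with hzdef
      have hz0 : z ≠ 0 := by
        intro h0
        have e2 : (b : ℝ) / r - b' / r' = k := by
          have := e1
          rw [h0, Int.cast_zero, zero_div] at this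
          linarith
        have hb1 : (b : ℝ) / r < 1 := by
          rw [div_lt_one hr]
          exact_mod_cast hz.2.1
        have hb2 : 0 ≤ (b : ℝ) / r := by positivity
        have hb1' : (b' : ℝ) / r' < 1 := by
          rw [div_lt_one hr']
          exact_mod_cast hz'.2.1
        have hb2' : 0 ≤ (b' : ℝ) / r' := by positivity
        have k1 : (k : ℝ) < 1 := by linarith
        have k2 : (-1 : ℝ) < k := by linarith
        have k1' : k < 1 := by exact_mod_cast k1
        have k2' : -1 < k := by exact_mod_cast k2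
        have k0 : k = 0 := by omega
        rw [k0, Int.cast_zero] at e2
        exact hne (by linarith)
      have hz1 : (1 : ℝ) ≤ |(z : ℝ)| := by
        rw [← Int.cast_abs]
        exact_mod_cast Int.one_le_abs hz0
      calc 1 / (Q : ℝ) ^ 2 ≤ 1 / (r * r') := by
            apply one_div_le_one_div_of_le (by positivity)
            rw [sq]
            gcongr
        _ ≤ |(z : ℝ)| / (r * r') := by gcongr

end Pool.Agent.Helper15.AB
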