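import Mathlib
import Pool.Agent.Helper15.AB.StBV
import Pool.Agent.Helper90.MT.A1

/-!
# Module DJ: derivatives of `L(s, ψ)`
-/

set_option autoImplicit false

namespace Pool.Agent.Helper15.AB

open Finset ArithmeticFunction MeasureTheory

theorem hDJ : StDJ := by
  intro k
  obtain ⟨C, hC, H⟩ := Pool.Agent.Helper90.MT.a1 k
  refine ⟨C, hC, ?_⟩
  intro r _ ψ s hψ h1 h2
  have h := H r ψ s.re s.im hψ h1 h2
  rw [Complex.re_add_im] at h
  exact h

end Pool.Agent.Helper15.AB
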