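import Mathlib
import Pool.Agent.Helper15.AB.StMid
import Pool.Agent.Helper15.AB.M_K1

/-!
# AB module K2: positivity of the singular series
-/

set_option autoImplicit false

namespace Pool.Agent.Helper15.AB

open Finset Filter Topology ArithmeticFunction

namespace hK2

open hK1

theorem bb_one : bb 1 = 1 := by
  unfold bb
  rw [if_pos ⟨squarefree_one, by norm_num⟩]
  simp

theorem aa_one (m : ℕ) : aa m 1 = 1 := by
  unfold aa
  rw [if_pos ⟨squarefree_one, Nat.coprime_one_left m⟩]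
  simp [c4]

theorem abs_tsum_aa {m : ℕ} (hm : 2 ∣ m) : |∑' k, aa m k| ≤ ∑' k, bb k := by
  rw [← Real.norm_eq_abs]
  exact tsum_of_norm_bounded summable_bb.hasSum fun k => by
    rw [Real.norm_eq_abs]; exact abs_aa_le hm k

theorem tsum_aa_ge {m : ℕ} (hm : 2 ∣ m) : 2 - ∑' k, bb k ≤ ∑' k, aa m k := by
  have h1 := (summable_aa hm).tsum_eq_add_tsum_ite 1
  have h2 := summable_bb.tsum_eq_add_tsum_ite 1
  rw [aa_one] at h1
  rw [bb_one] at h2
  have h3 : |∑' n, (if n = 1 then 0 else aa m n)| ≤ ∑' n, (if n = 1 then 0 else bb n) := by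
    rw [← Real.norm_eq_abs]
    have hs : Summable (fun n => if n = 1 then 0 else bb n) := by
      refine Summable.of_nonneg_of_le (fun n => ?_) (fun n => ?_) summable_bb
      · split_ifs
        · exact le_rfl
        · exact bb_nonneg n
      · split_ifs
        · exact bb_nonneg n
        · exact le_rfl
    refine tsum_of_norm_bounded hs.hasSum fun n => ?_
    split_ifs
    · simp
    · rw [Real.norm_eq_abs]; exact abs_aa_le hm n
  have h4 := (abs_le.1 h3).1
  rw [h1, h2]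
  linarith

theorem tot_sq (g : ℕ) (hg : 1 ≤ g) : Nat.totient (g ^ 2) = g * Nat.totient g := by
  have h1 := Nat.totient_gcd_mul_totient_mul g g
  rw [Nat.gcd_self] at h1
  have h2 : 0 < Nat.totient g := Nat.totient_pos.2 hg
  rw [sq]
  refine Nat.eq_of_mul_eq_mul_left h2 ?_
  rw [h1]
  ring

theorem abs_mu_le {g q : ℕ} (hq : 4 ∣ q) (hg : Nat.Coprime g q) :
    |((moebius g : ℤ) : ℝ) * (1 / (g * Nat.totient g : ℝ))| ≤ bb g := by
  unfold bb
  have h2 : ¬ 2 ∣ g := by
    intro h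
    have := Nat.dvd_gcd h ((by norm_num : (2 : ℕ) ∣ 4).trans hq)
    rw [hg] at this
    omega
  by_cases hs : Squarefree g
  · rw [if_pos ⟨hs, h2⟩, abs_mul, abs_of_nonneg (by positivity :
      (0 : ℝ) ≤ 1 / (g * Nat.totient g : ℝ))]
    have h3 : |((moebius g : ℤ) : ℝ)| ≤ 1 := by
      have := abs_moebius_le_one (n := g)
      exact_mod_cast this
    calc |((moebius g : ℤ) : ℝ)| * (1 / (g * Nat.totient g : ℝ))
        ≤ 1 * (1 / (g * Nat.totient g : ℝ)) := mul_le_mul_of_nonneg_right h3 (by positivity)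
      _ = _ := one_mul _
  · rw [if_neg (fun h => hs h.1), moebius_eq_zero_of_not_squarefree hs]
    simp

end hK2

open hK1 hK2 in
theorem hK2 (hK1 : StK1) : StK2 := by
  intro N q hN h4 hq hNq
  obtain ⟨L, C, hL, hC, h⟩ := hK1 q h4 hq
  have ht : (0 : ℝ) < Nat.totient (N * q) := by
    exact_mod_cast Nat.totient_pos.2 (Nat.mul_pos hN hq)
  set B : ℝ := ∑' k, bb k with hBdef
  have hB := tsum_bb
  rw [← hBdef] at hB
  have hB1 : 1 ≤ B := by
    rw [← bb_one]
    exact summable_bb.le_tsum 1 fun k _ => bb_nonneg k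
  have hB2 : B ^ 2 < 2 := by
    have h1 : B ^ 2 ≤ Real.exp 0.31 ^ 2 := pow_le_pow_left₀ (by linarith) hB 2
    have h2 : Real.exp 0.31 ^ 2 = Real.exp 0.62 := by
      rw [← Real.exp_nat_mul]; norm_num
    have h3 : Real.exp 0.62 < 2 := by
      rw [← Real.lt_log_iff_exp_lt (by norm_num)]
      have := Real.log_two_gt_d9
      linarith
    linarith
  have h2q : 2 ∣ q := (by norm_num : (2 : ℕ) ∣ 4).trans h4
  refine ⟨L / Nat.totient (N * q) * (2 - B ^ 2), 1, by
    apply mul_pos (by positivity); linarith, ?_⟩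
  intro G hG
  have hterm : ∀ g ∈ (Icc 1 G).filter (fun g => Nat.Coprime g q),
      ((moebius g : ℤ) : ℝ) * KK q (N * g ^ 2 * q) = L / Nat.totient (N * q) *
        (((moebius g : ℤ) : ℝ) * (1 / (g * Nat.totient g : ℝ)) * ∑' k, aa (N * g ^ 2 * q * q) k) := by
    intro g hg
    rw [mem_filter, mem_Icc] at hg
    have hg1 := hg.1.1
    have hcop : Nat.Coprime (N * q) (g ^ 2) := by
      apply Nat.Coprime.pow_right
      apply Nat.Coprime.mul_left
      · apply Nat.coprime_of_dvd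
        intro l hl hlN hlg
        have h1 := Nat.dvd_gcd hlg (hNq l hl hlN)
        rw [hg.2] at h1
        exact hl.one_lt.ne' (Nat.dvd_one.1 h1)
      · exact hg.2.symm
    have e1 : N * g ^ 2 * q = N * q * g ^ 2 := by ring
    have e2 : Nat.totient (N * g ^ 2 * q) = Nat.totient (N * q) * (g * Nat.totient g) := by
      rw [e1, Nat.totient_mul hcop, tot_sq g hg1]
    rw [(h (N * g ^ 2 * q) (Nat.mul_pos (Nat.mul_pos hN (pow_pos hg1 2)) hq)).2.2, e2]
    have hg2 : (0 : ℝ) < g := by exact_mod_cast hg1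
    have hg3 : (0 : ℝ) < Nat.totient g := by exact_mod_cast Nat.totient_pos.2 hg1
    have e3 : ∀ k, aa (N * g ^ 2 * q * q) k =
      if Squarefree k ∧ Nat.Coprime k (N * g ^ 2 * q * q) then c4 k / (k * Nat.totient k) else 0 :=
      fun _ => rfl
    simp_rw [← e3]
    push_cast
    field_simp
  rw [sum_congr rfl hterm, ← mul_sum]
  refine mul_le_mul_of_nonneg_left ?_ (by positivity)
  have h1mem : 1 ∈ (Icc 1 G).filter (fun g => Nat.Coprime g q) := by
    rw [mem_filter, mem_Icc]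
    exact ⟨⟨le_rfl, hG⟩, Nat.coprime_one_left q⟩
  rw [← add_sum_erase _ _ h1mem]
  have hS1 := tsum_aa_ge (m := N * 1 ^ 2 * q * q) (h2q.mul_left _)
  rw [← hBdef] at hS1
  have hfirst : ((moebius 1 : ℤ) : ℝ) * (1 / ((1 : ℕ) * Nat.totient 1 : ℝ)) *
      ∑' k, aa (N * 1 ^ 2 * q * q) k = ∑' k, aa (N * 1 ^ 2 * q * q) k := by
    simp
  rw [hfirst]
  have hrest : |∑ g ∈ ((Icc 1 G).filter (fun g => Nat.Coprime g q)).erase 1,
      ((moebius g : ℤ) : ℝ) * (1 / (g * Nat.totient g : ℝ)) *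
        ∑' k, aa (N * g ^ 2 * q * q) k| ≤ (B - 1) * B := by
    refine (abs_sum_le_sum_abs _ _).trans ?_
    have h5 : ∑ g ∈ ((Icc 1 G).filter (fun g => Nat.Coprime g q)).erase 1, bb g ≤ B - 1 := by
      have h6 : ∑ g ∈ (Icc 1 G).filter (fun g => Nat.Coprime g q), bb g ≤ B :=
        summable_bb.sum_le_tsum _ fun k _ => bb_nonneg k
      rw [← add_sum_erase _ _ h1mem, bb_one] at h6
      linarith
    calc ∑ g ∈ ((Icc 1 G).filter (fun g => Nat.Coprime g q)).erase 1,
        |((moebius g : ℤ) : ℝ) * (1 / (g * Nat.totient g : ℝ)) *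
        ∑' k, aa (N * g ^ 2 * q * q) k|
        ≤ ∑ g ∈ ((Icc 1 G).filter (fun g => Nat.Coprime g q)).erase 1, bb g * B := by
          refine sum_le_sum fun g hg => ?_
          rw [mem_erase, mem_filter] at hg
          rw [abs_mul]
          exact mul_le_mul (abs_mu_le h4 hg.2.2) (abs_tsum_aa (h2q.mul_left _)) (abs_nonneg _)
            (bb_nonneg g)
      _ = (∑ g ∈ ((Icc 1 G).filter (fun g => Nat.Coprime g q)).erase 1, bb g) * B :=
          (sum_mul _ _ _).symm
      _ ≤ (B - 1) * B := mul_le_mul_of_nonneg_right h5 (by linarith)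
  have h7 := (abs_le.1 hrest).1
  have h8 : 2 - B ^ 2 = (2 - B) + -((B - 1) * B) := by ring
  rw [h8]
  exact add_le_add hS1 h7

end Pool.Agent.Helper15.AB
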