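import Mathlib
import Pool.Agent.Helper15.AB.StMid

/-!
# Project AB, module R2a: oscillation, large `g`
-/

set_option autoImplicit false

namespace Pool.Agent.Helper15.AB

open Finset ArithmeticFunction Filter Topology

namespace hR2a

theorem c4_mul (a b : ℕ) : c4 (a * b) = c4 a * c4 b := by
  unfold c4
  have ha : a % 4 < 4 := Nat.mod_lt _ (by norm_num)
  have hb : b % 4 < 4 := Nat.mod_lt _ (by norm_num)
  rw [Nat.mul_mod]
  interval_cases (a % 4) <;> interval_cases (b % 4) <;> norm_num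

theorem c4_abs (a : ℕ) : |c4 a| ≤ 1 := by
  unfold c4
  split_ifs <;> norm_num

theorem c4_sq (a : ℕ) : c4 a ^ 2 ≤ 1 := by
  unfold c4
  split_ifs <;> norm_num

theorem c4_sq_nonneg (a : ℕ) : 0 ≤ c4 a ^ 2 := sq_nonneg _

/-! ### counting -/

theorem class_card (X₁ X₂ M v : ℕ) (hX : X₁ ≤ X₂) (hM : 0 < M) :
    |(((Ioc X₁ X₂).filter (fun m => m ≡ v [MOD M])).card : ℝ) - ((X₂ : ℝ) - X₁) / M| ≤ 1 := by
  have h1 := Nat.Ioc_filter_modEq_card X₁ X₂ hM v
  set c := ((Ioc X₁ X₂).filter (fun m => m ≡ v [MOD M])).card with hc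
  have hmono : ⌊((X₁ : ℚ) - v) / (M : ℚ)⌋ ≤ ⌊((X₂ : ℚ) - v) / (M : ℚ)⌋ := by
    apply Int.floor_le_floor
    gcongr
  rw [max_eq_left (by linarith)] at h1
  have h2 : (c : ℚ) = (⌊((X₂ : ℚ) - v) / (M : ℚ)⌋ : ℚ) - ⌊((X₁ : ℚ) - v) / (M : ℚ)⌋ := by
    exact_mod_cast h1
  have h3 := Int.floor_le (((X₂ : ℚ) - v) / (M : ℚ))
  have h4 := Int.lt_floor_add_one (((X₂ : ℚ) - v) / (M : ℚ))
  have h5 := Int.floor_le (((X₁ : ℚ) - v) / (M : ℚ))
  have h6 := Int.lt_floor_add_one (((X₁ : ℚ) - v) / (M : ℚ))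
  have h7 : |(c : ℚ) - ((X₂ : ℚ) - X₁) / M| ≤ 1 := by
    have h8 : ((X₂ : ℚ) - X₁) / M = ((X₂ : ℚ) - v) / (M : ℚ) - ((X₁ : ℚ) - v) / (M : ℚ) := by
      rw [← sub_div]
      ring
    rw [h8, abs_le]
    constructor <;> linarith
  have h9 : ((|(c : ℚ) - ((X₂ : ℚ) - X₁) / M| : ℚ) : ℝ) ≤ ((1 : ℚ) : ℝ) := by exact_mod_cast h7
  push_cast at h9
  exact h9

theorem cnt_zero {N p q m₁ : ℕ} (h : Hyp N p q m₁) {X₁ X₂ k E : ℕ}
    (hE : Nat.Coprime E (N * q)) (hk : ¬ Nat.Coprime k (q * E)) :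
    cnt N p q m₁ X₁ X₂ k E = 0 := by
  unfold cnt
  rw [Finset.card_eq_zero, Finset.filter_eq_empty_iff]
  rintro m - ⟨h1, h2, h3⟩
  rw [Nat.Prime.not_coprime_iff_dvd] at hk
  obtain ⟨l, hl, hlk, hlqE⟩ := hk
  have hlm : l ∣ m := hlk.trans h2
  rcases (Nat.Prime.dvd_mul hl).1 hlqE with h4 | h4
  · have h5 : m ≡ m₁ [MOD q] := h1
    have h6 : l ∣ m₁ := ((h5.of_dvd h4).dvd_iff dvd_rfl).1 hlm
    have h7 : l ∣ Nat.gcd m₁ q := Nat.dvd_gcd h6 h4
    rw [h.hm] at h7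
    exact hl.one_lt.ne' (Nat.dvd_one.1 h7)
  · have h5 : (l : ℤ) ∣ (N : ℤ) * m - p := (Int.natCast_dvd_natCast.2 h4).trans h3
    have h6 : (l : ℤ) ∣ (N : ℤ) * m := Dvd.dvd.mul_left (Int.natCast_dvd_natCast.2 hlm) _
    have h7 : (l : ℤ) ∣ (p : ℤ) := by
      have := dvd_sub h6 h5
      rwa [sub_sub_cancel] at this
    have h8 : l ∣ p := Int.natCast_dvd_natCast.1 h7
    have h9 : l = p := (Nat.prime_dvd_prime_iff_eq hl h.hp).1 h8
    have h10 : l ∣ Nat.gcd E (N * q) :=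
      Nat.dvd_gcd h4 (h9 ▸ Dvd.dvd.mul_left h.hpq N)
    rw [hE] at h10
    exact hl.one_lt.ne' (Nat.dvd_one.1 h10)

theorem cnt_main {N p q m₁ : ℕ} (h : Hyp N p q m₁) {X₁ X₂ k E : ℕ} (hX : X₁ ≤ X₂)
    (hE0 : 1 ≤ E) (hk0 : 1 ≤ k) (hE : Nat.Coprime E (N * q)) (hk : Nat.Coprime k (q * E)) :
    |(cnt N p q m₁ X₁ X₂ k E : ℝ) - ((X₂ : ℝ) - X₁) / (q * k * E)| ≤ 1 := by
  have hq0 : 0 < q := h.hq1
  have hEN : Nat.Coprime E N := Nat.Coprime.coprime_mul_right_right hE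
  have hEq : Nat.Coprime E q := Nat.Coprime.coprime_mul_left_right hE
  have hkq : Nat.Coprime k q := Nat.Coprime.coprime_mul_right_right hk
  have hkE : Nat.Coprime k E := Nat.Coprime.coprime_mul_left_right hk
  -- a solution modulo `E`
  obtain ⟨w, hw⟩ : ∃ w : ℕ, (E : ℤ) ∣ (N : ℤ) * w - p := by
    have h1 : IsCoprime (N : ℤ) (E : ℤ) := Nat.isCoprime_iff_coprime.2 hEN.symm
    obtain ⟨a, b, hab⟩ := h1
    -- `w = (a p) mod E`
    refine ⟨((a * p) % (E : ℤ)).toNat, ?_⟩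
    have h2 : (((a * p) % (E : ℤ)).toNat : ℤ) = (a * p) % (E : ℤ) :=
      Int.toNat_of_nonneg (Int.emod_nonneg _ (by positivity))
    rw [h2]
    have h3 : (a * p) % (E : ℤ) = a * p - E * ((a * p) / E) := by
      have := Int.emod_add_mul_ediv (a * p) (E : ℤ)
      linarith
    rw [h3]
    have h4 : (N : ℤ) * (a * p - E * ((a * p) / E)) - p =
        (E : ℤ) * (-(b * p) - N * ((a * p) / E)) := by
      have : (N : ℤ) * a = 1 - b * E := by linarith
      linear_combination (p : ℤ) * this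
    rw [h4]
    exact dvd_mul_right _ _
  obtain ⟨v₁, hv₁, hv₁'⟩ := Nat.chineseRemainder hkq.symm m₁ 0
  obtain ⟨v, hv, hv'⟩ := Nat.chineseRemainder (n := q * k) (m := E)
    (Nat.Coprime.mul_left hEq.symm hkE) v₁ w
  have hkey : ∀ m : ℕ, (m % q = m₁ % q ∧ k ∣ m ∧ (E : ℤ) ∣ (N : ℤ) * m - p) ↔
      m ≡ v [MOD (q * k * E)] := by
    intro m
    rw [← Nat.modEq_and_modEq_iff_modEq_mul (Nat.Coprime.mul_left hEq.symm hkE),
      ← Nat.modEq_and_modEq_iff_modEq_mul hkq.symm]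
    have hv2 := (Nat.modEq_and_modEq_iff_modEq_mul hkq.symm).2 hv
    have e1 : m % q = m₁ % q ↔ m ≡ v [MOD q] := by
      constructor
      · intro h1
        exact (show m ≡ m₁ [MOD q] from h1).trans (hv2.1.trans hv₁).symm
      · intro h1
        exact h1.trans (hv2.1.trans hv₁)
    have e2 : k ∣ m ↔ m ≡ v [MOD k] := by
      rw [← Nat.modEq_zero_iff_dvd]
      constructor
      · intro h1
        exact h1.trans (hv2.2.trans hv₁').symm
      · intro h1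
        exact h1.trans (hv2.2.trans hv₁')
    have e3 : (E : ℤ) ∣ (N : ℤ) * m - p ↔ m ≡ v [MOD E] := by
      have e4 : m ≡ v [MOD E] ↔ m ≡ w [MOD E] :=
        ⟨fun h1 => h1.trans hv', fun h1 => h1.trans hv'.symm⟩
      rw [e4]
      have e5 : m ≡ w [MOD E] ↔ (E : ℤ) ∣ (w : ℤ) - m := Nat.modEq_iff_dvd
      rw [e5]
      have hc : IsCoprime (E : ℤ) (N : ℤ) := Nat.isCoprime_iff_coprime.2 hEN
      have e6 : (E : ℤ) ∣ (w : ℤ) - m ↔ (E : ℤ) ∣ (N : ℤ) * ((w : ℤ) - m) :=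
        ⟨fun h1 => Dvd.dvd.mul_left h1 _, fun h1 => hc.dvd_of_dvd_mul_left h1⟩
      rw [e6]
      constructor
      · intro h1
        have e7 : (N : ℤ) * ((w : ℤ) - m) = ((N : ℤ) * w - p) - ((N : ℤ) * m - p) := by ring
        rw [e7]
        exact dvd_sub hw h1
      · intro h1
        have e7 : (N : ℤ) * m - p = ((N : ℤ) * w - p) - (N : ℤ) * ((w : ℤ) - m) := by ring
        rw [e7]
        exact dvd_sub hw h1
    rw [e1, e2, e3, and_assoc]
  have h1 : cnt N p q m₁ X₁ X₂ k E =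
      ((Ioc X₁ X₂).filter (fun m => m ≡ v [MOD (q * k * E)])).card := by
    unfold cnt
    congr 1
    exact Finset.filter_congr fun m _ => hkey m
  rw [h1]
  have h2 := class_card X₁ X₂ (q * k * E) v hX (by positivity)
  push_cast at h2
  exact h2

/-! ### partial summation -/

theorem abel (c : ℕ → ℝ) (F : ℕ) (M : ℝ) (hM : ∀ t, F ≤ t → |∑ b ∈ Ioc F t, c b| ≤ M) (G : ℕ) :
    |∑ b ∈ Ioc F G, c b / b| ≤ M / (F + 1) := by
  have hM0 : 0 ≤ M := (abs_nonneg _).trans (hM F le_rfl)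
  rcases le_or_gt F G with h | h
  · have key : ∀ n : ℕ, |∑ b ∈ Ioc F (F + n), c b / b -
        (∑ b ∈ Ioc F (F + n), c b) / ((F + n : ℕ) + 1)| ≤
        M * (1 / ((F : ℝ) + 1) - 1 / ((F + n : ℕ) + 1)) := by
      intro n
      induction n with
      | zero => simp
      | succ n ih =>
        have h1 : Ioc F (F + (n + 1)) = insert (F + n + 1) (Ioc F (F + n)) := by
          ext b
          simp only [Finset.mem_Ioc, Finset.mem_insert]
          omega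
        have h2 : F + n + 1 ∉ Ioc F (F + n) := by
          simp
        set s := ∑ b ∈ Ioc F (F + n), c b with hs
        have h3 : ∑ b ∈ Ioc F (F + (n + 1)), c b = c (F + n + 1) + s := by
          rw [h1, Finset.sum_insert h2]
        have h4 : ∑ b ∈ Ioc F (F + (n + 1)), c b / b =
            c (F + n + 1) / ((F + n + 1 : ℕ) : ℝ) + ∑ b ∈ Ioc F (F + n), c b / b := by
          rw [h1, Finset.sum_insert h2]
        have h5 := hM (F + (n + 1)) (by omega)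
        rw [h3] at h5
        rw [h3, h4]
        push_cast at ih ⊢
        have hp1 : (0 : ℝ) < (F : ℝ) + n + 1 := by positivity
        have hp2 : (0 : ℝ) < (F : ℝ) + (n + 1) + 1 := by positivity
        have h6 : c (F + n + 1) / ((F : ℝ) + n + 1) + ∑ b ∈ Ioc F (F + n), c b / b -
            (c (F + n + 1) + s) / ((F : ℝ) + (n + 1) + 1) =
            (∑ b ∈ Ioc F (F + n), c b / b - s / ((F : ℝ) + n + 1)) +
            (c (F + n + 1) + s) * (1 / ((F : ℝ) + n + 1) - 1 / ((F : ℝ) + (n + 1) + 1)) := by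
          field_simp
          ring
        rw [h6]
        have h7 : 0 ≤ 1 / ((F : ℝ) + n + 1) - 1 / ((F : ℝ) + (n + 1) + 1) := by
          rw [sub_nonneg]
          apply one_div_le_one_div_of_le hp1
          linarith
        calc _ ≤ |∑ b ∈ Ioc F (F + n), c b / b - s / ((F : ℝ) + n + 1)| +
            |(c (F + n + 1) + s) * (1 / ((F : ℝ) + n + 1) - 1 / ((F : ℝ) + (n + 1) + 1))| :=
              abs_add_le _ _
          _ ≤ M * (1 / ((F : ℝ) + 1) - 1 / ((F : ℝ) + n + 1)) +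
              M * (1 / ((F : ℝ) + n + 1) - 1 / ((F : ℝ) + (n + 1) + 1)) := by
              rw [abs_mul, abs_of_nonneg h7]
              gcongr
          _ = _ := by ring
    obtain ⟨n, rfl⟩ := Nat.exists_eq_add_of_le h
    have h1 := key n
    have h2 := hM (F + n) (by omega)
    have hp : (0 : ℝ) < ((F + n : ℕ) : ℝ) + 1 := by positivity
    calc |∑ b ∈ Ioc F (F + n), c b / b| ≤
        |∑ b ∈ Ioc F (F + n), c b / b - (∑ b ∈ Ioc F (F + n), c b) / ((F + n : ℕ) + 1)| +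
          |(∑ b ∈ Ioc F (F + n), c b) / ((F + n : ℕ) + 1)| := by
          have := abs_add_le (∑ b ∈ Ioc F (F + n), c b / b -
            (∑ b ∈ Ioc F (F + n), c b) / ((F + n : ℕ) + 1))
            ((∑ b ∈ Ioc F (F + n), c b) / ((F + n : ℕ) + 1))
          rwa [sub_add_cancel] at this
      _ ≤ M * (1 / ((F : ℝ) + 1) - 1 / ((F + n : ℕ) + 1)) + M / ((F + n : ℕ) + 1) := by
          rw [abs_div, abs_of_pos hp]
          gcongr
      _ = M / (F + 1) := by ring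
  · rw [Finset.Ioc_eq_empty (by omega), Finset.sum_empty, abs_zero]
    positivity

theorem char_sum (hCS : StCS) {q E : ℕ} (hq : 1 ≤ q) (hE : 1 ≤ E) (F G : ℕ) :
    |∑ b ∈ (Ioc F G).filter (fun b => Nat.Coprime b (q * E)), c4 b / b| ≤
      2 * ((q.divisors.card : ℝ) * E.divisors.card) / (F + 1) := by
  rw [Finset.sum_filter]
  have h1 : ∀ b ∈ Ioc F G, (if Nat.Coprime b (q * E) then c4 b / (b : ℝ) else 0) =
      (if Nat.Coprime b (q * E) then c4 b else 0) / (b : ℝ) := by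
    intro b _
    split_ifs
    · rfl
    · rw [zero_div]
  rw [Finset.sum_congr rfl h1]
  refine abel (fun b => if Nat.Coprime b (q * E) then c4 b else 0) F _ ?_ G
  intro t ht
  have h2 : ∑ b ∈ Icc 1 t, (if Nat.Coprime b (q * E) then c4 b else 0) =
      ∑ b ∈ Icc 1 F, (if Nat.Coprime b (q * E) then c4 b else 0) +
      ∑ b ∈ Ioc F t, (if Nat.Coprime b (q * E) then c4 b else 0) := by
    rw [← Finset.sum_union]
    · congr 1
      ext b
      simp only [Finset.mem_Icc, Finset.mem_union, Finset.mem_Ioc]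
      omega
    · rw [Finset.disjoint_left]
      intro b hb hb'
      simp only [Finset.mem_Icc, Finset.mem_Ioc] at hb hb'
      omega
  have h3 := hCS q E t hq hE
  have h4 := hCS q E F hq hE
  rw [Finset.sum_filter] at h3 h4
  rw [h2] at h3
  rw [abs_le] at h3 h4 ⊢
  constructor <;> linarith [h3.1, h3.2, h4.1, h4.2]

/-! ### the coprime double sum -/

/-- the index set -/
def JJ (D₁ D₂ g Q : ℕ) : Finset ℕ :=
  (Icc 1 D₂).filter (fun b => D₁ < g * b ∧ g * b ≤ D₂ ∧ Nat.Coprime b Q)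

theorem moebius_coprime (a b D : ℕ) (ha : 1 ≤ a) (haD : a ≤ D) :
    (if Nat.Coprime a b then (1 : ℝ) else 0) =
      ∑ δ ∈ Icc 1 D, ((moebius δ : ℤ) : ℝ) * ((if δ ∣ a then 1 else 0) * (if δ ∣ b then 1 else 0)) := by
  have hg : 0 < Nat.gcd a b := Nat.gcd_pos_of_pos_left _ ha
  have h1 : ∑ δ ∈ (Nat.gcd a b).divisors, ((moebius δ : ℤ) : ℝ) =
      if Nat.gcd a b = 1 then 1 else 0 := by
    have h2 := congrArg (fun f : ArithmeticFunction ℤ => f (Nat.gcd a b)) moebius_mul_coe_zeta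
    simp only [coe_mul_zeta_apply] at h2
    rw [one_apply] at h2
    have h3 : ((∑ δ ∈ (Nat.gcd a b).divisors, moebius δ : ℤ) : ℝ) =
        ((if Nat.gcd a b = 1 then 1 else 0 : ℤ) : ℝ) := by rw [h2]
    push_cast at h3
    exact h3
  have h4 : ∑ δ ∈ Icc 1 D, ((moebius δ : ℤ) : ℝ) *
      ((if δ ∣ a then 1 else 0) * (if δ ∣ b then 1 else 0)) =
      ∑ δ ∈ (Nat.gcd a b).divisors, ((moebius δ : ℤ) : ℝ) := by
    have h5 : (Nat.gcd a b).divisors = (Icc 1 D).filter (fun δ => δ ∣ a ∧ δ ∣ b) := by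
      ext δ
      rw [Nat.mem_divisors, Finset.mem_filter, Finset.mem_Icc, Nat.dvd_gcd_iff]
      constructor
      · rintro ⟨⟨h6, h7⟩, -⟩
        exact ⟨⟨Nat.pos_of_dvd_of_pos h6 ha, (Nat.le_of_dvd ha h6).trans haD⟩, h6, h7⟩
      · rintro ⟨-, h6, h7⟩
        exact ⟨⟨h6, h7⟩, hg.ne'⟩
    rw [h5, Finset.sum_filter]
    refine Finset.sum_congr rfl fun δ _ => ?_
    by_cases h6 : δ ∣ a <;> by_cases h7 : δ ∣ b <;> simp [h6, h7]
  rw [h4, h1]

/-- the sum over the multiples of `δ` -/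
theorem mult_sum (hCS : StCS) {q E D₁ D₂ g δ : ℕ} (hq : 1 ≤ q) (hE : 1 ≤ E) (hg : 1 ≤ g)
    (hδ : 1 ≤ δ) :
    |∑ b ∈ JJ D₁ D₂ g (q * E), (if δ ∣ b then c4 b / (b : ℝ) else 0)| ≤
      1 / (δ : ℝ) * (2 * ((q.divisors.card : ℝ) * E.divisors.card) / (((D₁ / (g * δ) : ℕ) : ℝ) + 1)) := by
  have hgδ : 0 < g * δ := Nat.mul_pos hg hδ
  have hδ0 : (0 : ℝ) < δ := by exact_mod_cast hδ
  by_cases hc : Nat.Coprime δ (q * E)
  · have h1 : ∑ b ∈ JJ D₁ D₂ g (q * E), (if δ ∣ b then c4 b / (b : ℝ) else 0) =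
        ∑ b ∈ (Ioc (D₁ / (g * δ)) (D₂ / (g * δ))).filter (fun b => Nat.Coprime b (q * E)),
          c4 δ / δ * (c4 b / b) := by
      rw [← Finset.sum_filter]
      symm
      refine Finset.sum_bij' (fun b _ => δ * b) (fun b _ => b / δ) ?_ ?_ ?_ ?_ ?_
      · intro b hb
        rw [Finset.mem_filter, Finset.mem_Ioc] at hb
        obtain ⟨⟨h2, h3⟩, h4⟩ := hb
        rw [Nat.div_lt_iff_lt_mul hgδ] at h2
        rw [Nat.le_div_iff_mul_le hgδ] at h3
        unfold JJ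
        rw [Finset.mem_filter, Finset.mem_filter, Finset.mem_Icc]
        have h5 : g * (δ * b) = b * (g * δ) := by ring
        have h6 : 0 < b := by
          rcases Nat.eq_zero_or_pos b with h0 | h0
          · rw [h0, zero_mul] at h2
            omega
          · exact h0
        refine ⟨⟨⟨Nat.mul_pos hδ h6, ?_⟩, ?_, ?_, Nat.Coprime.mul_left hc h4⟩, dvd_mul_right _ _⟩
        · calc δ * b ≤ g * (δ * b) := Nat.le_mul_of_pos_left _ hg
            _ ≤ D₂ := by rw [h5]; exact h3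
        · rw [h5]; exact h2
        · rw [h5]; exact h3
      · intro b hb
        unfold JJ at hb
        rw [Finset.mem_filter, Finset.mem_filter, Finset.mem_Icc] at hb
        obtain ⟨⟨h2, h3, h4, h5⟩, h6⟩ := hb
        obtain ⟨e, rfl⟩ := h6
        rw [Nat.mul_div_cancel_left _ hδ, Finset.mem_filter, Finset.mem_Ioc,
          Nat.div_lt_iff_lt_mul hgδ, Nat.le_div_iff_mul_le hgδ]
        have h7 : g * (δ * e) = e * (g * δ) := by ring
        rw [h7] at h3 h4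
        exact ⟨⟨h3, h4⟩, Nat.Coprime.coprime_mul_left h5⟩
      · intro b _
        exact Nat.mul_div_cancel_left _ hδ
      · intro b hb
        rw [Finset.mem_filter] at hb
        exact Nat.mul_div_cancel' hb.2
      · intro b _
        rw [c4_mul]
        push_cast
        rw [div_mul_div_comm]
    rw [h1, ← Finset.mul_sum, abs_mul, abs_div, abs_of_pos hδ0]
    refine mul_le_mul ?_ (char_sum hCS hq hE _ _) (abs_nonneg _) (by positivity)
    gcongr
    exact c4_abs δ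
  · have h1 : ∑ b ∈ JJ D₁ D₂ g (q * E), (if δ ∣ b then c4 b / (b : ℝ) else 0) = 0 := by
      refine Finset.sum_eq_zero fun b hb => ?_
      unfold JJ at hb
      rw [Finset.mem_filter] at hb
      rw [if_neg]
      intro h2
      exact hc (Nat.Coprime.coprime_dvd_left h2 hb.2.2.2)
    rw [h1, abs_zero]
    positivity

theorem sum_min (ε : ℝ) (hε : 0 < ε) (n : ℕ) (f : ℕ → ℝ) (h1 : ∀ δ : ℕ, 1 ≤ δ → f δ ≤ ε ^ 2)
    (h2 : ∀ δ : ℕ, 1 ≤ δ → f δ ≤ ((δ : ℝ) ^ 2)⁻¹) : ∑ δ ∈ Icc 1 n, f δ ≤ 3 * ε := by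
  set D := ⌊1 / ε⌋₊ with hD
  have hD1 : (D : ℝ) ≤ 1 / ε := Nat.floor_le (by positivity)
  have hD2 : 1 / ε < (D : ℝ) + 1 := Nat.lt_floor_add_one _
  calc ∑ δ ∈ Icc 1 n, f δ
      ≤ ∑ δ ∈ Icc 1 n, ((if δ ≤ D then ε ^ 2 else 0) + (if D < δ then ((δ : ℝ) ^ 2)⁻¹ else 0)) := by
        refine Finset.sum_le_sum fun δ hδ => ?_
        have hδ1 := (Finset.mem_Icc.1 hδ).1
        by_cases h3 : δ ≤ D
        · rw [if_pos h3, if_neg (by omega), add_zero]
          exact h1 δ hδ1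
        · rw [if_neg h3, if_pos (by omega), zero_add]
          exact h2 δ hδ1
    _ = ∑ δ ∈ (Icc 1 n).filter (fun δ => δ ≤ D), ε ^ 2 +
        ∑ δ ∈ (Icc 1 n).filter (fun δ => D < δ), ((δ : ℝ) ^ 2)⁻¹ := by
        rw [Finset.sum_add_distrib, Finset.sum_filter, Finset.sum_filter]
    _ ≤ D * ε ^ 2 + 2 / (D + 1) := by
        refine add_le_add ?_ ?_
        · rw [Finset.sum_const, nsmul_eq_mul]
          gcongr
          calc ((Icc 1 n).filter (fun δ => δ ≤ D)).card ≤ (Icc 1 D).card := by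
                refine Finset.card_le_card fun δ hδ => ?_
                rw [Finset.mem_filter, Finset.mem_Icc] at hδ
                exact Finset.mem_Icc.2 ⟨hδ.1.1, hδ.2⟩
            _ = D := by simp
        · refine le_trans (Finset.sum_le_sum_of_subset_of_nonneg ?_ fun _ _ _ => by positivity)
            (sum_Ioo_inv_sq_le D (n + 1))
          intro δ hδ
          rw [Finset.mem_filter, Finset.mem_Icc] at hδ
          rw [Finset.mem_Ioo]
          omega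
    _ ≤ 1 / ε * ε ^ 2 + 2 / (1 / ε) := by
        gcongr
    _ = 3 * ε := by
        field_simp
        norm_num

/-- the double sum over coprime pairs -/
theorem double_sum (hCS : StCS) {q E D₁ D₂ g : ℕ} (hq : 1 ≤ q) (hE : 1 ≤ E) (hg : 1 ≤ g)
    (hD : 1 ≤ D₁) :
    |∑ a ∈ JJ D₁ D₂ g (q * E), ∑ b ∈ JJ D₁ D₂ g (q * E),
      (if Nat.Coprime a b then c4 a / (a : ℝ) * (c4 b / (b : ℝ)) else 0)| ≤
      12 * ((q.divisors.card : ℝ) * E.divisors.card) ^ 2 * (g / D₁) := by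
  set K := (q.divisors.card : ℝ) * E.divisors.card with hK
  set J := JJ D₁ D₂ g (q * E) with hJ
  have hg0 : (0 : ℝ) < g := by exact_mod_cast hg
  have hD0 : (0 : ℝ) < D₁ := by exact_mod_cast hD
  have h1 : ∑ a ∈ J, ∑ b ∈ J,
      (if Nat.Coprime a b then c4 a / (a : ℝ) * (c4 b / (b : ℝ)) else 0) =
      ∑ δ ∈ Icc 1 D₂, ((moebius δ : ℤ) : ℝ) *
        (∑ b ∈ J, (if δ ∣ b then c4 b / (b : ℝ) else 0)) ^ 2 := by
    have h2 : ∀ δ : ℕ, ((moebius δ : ℤ) : ℝ) *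
        (∑ b ∈ J, (if δ ∣ b then c4 b / (b : ℝ) else 0)) ^ 2 =
        ∑ a ∈ J, ∑ b ∈ J, ((moebius δ : ℤ) : ℝ) *
          ((if δ ∣ a then c4 a / (a : ℝ) else 0) * (if δ ∣ b then c4 b / (b : ℝ) else 0)) := by
      intro δ
      rw [sq, Finset.sum_mul_sum, Finset.mul_sum]
      refine Finset.sum_congr rfl fun a _ => ?_
      rw [Finset.mul_sum]
    have h2' : ∑ δ ∈ Icc 1 D₂, ((moebius δ : ℤ) : ℝ) *
        (∑ b ∈ J, (if δ ∣ b then c4 b / (b : ℝ) else 0)) ^ 2 =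
        ∑ a ∈ J, ∑ b ∈ J, ∑ δ ∈ Icc 1 D₂, ((moebius δ : ℤ) : ℝ) *
          ((if δ ∣ a then c4 a / (a : ℝ) else 0) * (if δ ∣ b then c4 b / (b : ℝ) else 0)) := by
      rw [Finset.sum_congr rfl fun δ _ => h2 δ, Finset.sum_comm]
      refine Finset.sum_congr rfl fun a _ => ?_
      rw [Finset.sum_comm]
    rw [h2']
    refine Finset.sum_congr rfl fun a ha => ?_
    refine Finset.sum_congr rfl fun b _ => ?_
    have ha' : 1 ≤ a ∧ a ≤ D₂ := by
      rw [hJ] at ha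
      unfold JJ at ha
      rw [Finset.mem_filter, Finset.mem_Icc] at ha
      exact ha.1
    have h3 := moebius_coprime a b D₂ ha'.1 ha'.2
    have h4 : (if Nat.Coprime a b then c4 a / (a : ℝ) * (c4 b / (b : ℝ)) else 0) =
        (if Nat.Coprime a b then (1 : ℝ) else 0) * (c4 a / (a : ℝ) * (c4 b / (b : ℝ))) := by
      split_ifs <;> simp
    rw [h4, h3, Finset.sum_mul]
    refine Finset.sum_congr rfl fun δ _ => ?_
    by_cases h6 : δ ∣ a <;> by_cases h7 : δ ∣ b <;> simp [h6, h7]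
  rw [h1]
  have hterm : ∀ δ ∈ Icc 1 D₂, |((moebius δ : ℤ) : ℝ) *
      (∑ b ∈ J, (if δ ∣ b then c4 b / (b : ℝ) else 0)) ^ 2| ≤
      (2 * K) ^ 2 * (1 / (δ : ℝ) * (1 / (((D₁ / (g * δ) : ℕ) : ℝ) + 1))) ^ 2 := by
    intro δ hδ
    have hδ1 := (Finset.mem_Icc.1 hδ).1
    rw [abs_mul, abs_pow]
    have h5 : |((moebius δ : ℤ) : ℝ)| ≤ 1 := by
      have := abs_moebius_le_one (n := δ)
      rw [← Int.cast_abs]
      exact_mod_cast this
    have h6 := mult_sum hCS (D₁ := D₁) (D₂ := D₂) hq hE hg hδ1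
    calc |((moebius δ : ℤ) : ℝ)| * |∑ b ∈ J, (if δ ∣ b then c4 b / (b : ℝ) else 0)| ^ 2
        ≤ 1 * (1 / (δ : ℝ) * (2 * K / (((D₁ / (g * δ) : ℕ) : ℝ) + 1))) ^ 2 := by
          gcongr
      _ = _ := by ring
  refine (Finset.abs_sum_le_sum_abs _ _).trans ((Finset.sum_le_sum hterm).trans ?_)
  rw [← Finset.mul_sum]
  have h8 := sum_min (g / D₁ : ℝ) (by positivity) D₂
    (fun δ => (1 / (δ : ℝ) * (1 / (((D₁ / (g * δ) : ℕ) : ℝ) + 1))) ^ 2) ?_ ?_
  · calc (2 * K) ^ 2 * ∑ δ ∈ Icc 1 D₂, (1 / (δ : ℝ) * (1 / (((D₁ / (g * δ) : ℕ) : ℝ) + 1))) ^ 2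
        ≤ (2 * K) ^ 2 * (3 * (g / D₁)) := by gcongr
      _ = _ := by ring
  · intro δ hδ
    have hδ0 : (0 : ℝ) < δ := by exact_mod_cast hδ
    have h9 : (D₁ : ℝ) / (g * δ) ≤ ((D₁ / (g * δ) : ℕ) : ℝ) + 1 := by
      have := Nat.lt_floor_add_one ((D₁ : ℝ) / ((g * δ : ℕ) : ℝ))
      rw [Nat.floor_div_eq_div] at this
      push_cast at this
      exact this.le
    have h10 : 1 / (((D₁ / (g * δ) : ℕ) : ℝ) + 1) ≤ g * δ / D₁ := by
      rw [div_le_div_iff₀ (by positivity) hD0, one_mul]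
      rw [div_le_iff₀ (by positivity)] at h9
      linarith
    have h11 : 1 / (δ : ℝ) * (1 / (((D₁ / (g * δ) : ℕ) : ℝ) + 1)) ≤ g / D₁ := by
      calc _ ≤ 1 / (δ : ℝ) * (g * δ / D₁) := by gcongr
        _ = g / D₁ := by field_simp
    gcongr
  · intro δ hδ
    have hδ0 : (0 : ℝ) < δ := by exact_mod_cast hδ
    have h10 : 1 / (((D₁ / (g * δ) : ℕ) : ℝ) + 1) ≤ 1 := by
      rw [div_le_one (by positivity)]
      have : (0 : ℝ) ≤ ((D₁ / (g * δ) : ℕ) : ℝ) := by positivity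
      linarith
    calc (1 / (δ : ℝ) * (1 / (((D₁ / (g * δ) : ℕ) : ℝ) + 1))) ^ 2 ≤ (1 / (δ : ℝ) * 1) ^ 2 := by
          gcongr
      _ = _ := by
          rw [mul_one, one_div, inv_pow]

/-- the bound for a single `g` -/
theorem AA_bound (hCS : StCS) {N p q m₁ : ℕ} (h : Hyp N p q m₁) {X₁ X₂ D₁ D₂ g E : ℕ}
    (hX : X₁ ≤ X₂) (hE0 : 1 ≤ E) (hE : Nat.Coprime E (N * q)) (hg : 1 ≤ g) (hD : 1 ≤ D₁) :
    |AA N p q m₁ X₁ X₂ D₁ D₂ g E| ≤ ((X₂ : ℝ) - X₁) / E *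
      (12 * ((q.divisors.card : ℝ) * E.divisors.card) ^ 2 / D₁) + (D₂ / g : ℝ) ^ 2 := by
  have hq0 : 1 ≤ q := h.hq1
  have hqr : (1 : ℝ) ≤ q := by exact_mod_cast hq0
  have hgr : (0 : ℝ) < g := by exact_mod_cast hg
  have hEr : (0 : ℝ) < E := by exact_mod_cast hE0
  have hDr : (0 : ℝ) < D₁ := by exact_mod_cast hD
  have hXr : (0 : ℝ) ≤ (X₂ : ℝ) - X₁ := sub_nonneg.2 (by exact_mod_cast hX)
  set S := ((Icc 1 D₂) ×ˢ (Icc 1 D₂)).filter (fun b : ℕ × ℕ => Nat.Coprime b.1 b.2 ∧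
      D₁ < g * b.1 ∧ g * b.1 ≤ D₂ ∧ D₁ < g * b.2 ∧ g * b.2 ≤ D₂) with hS
  -- main terms
  let M : ℕ × ℕ → ℝ := fun b => if Nat.Coprime (g * b.1 * b.2) (q * E) then
    c4 (g * b.1) * c4 (g * b.2) * (((X₂ : ℝ) - X₁) / (q * (g * b.1 * b.2 : ℕ) * E)) else 0
  have hM : ∀ b ∈ S, |c4 (g * b.1) * c4 (g * b.2) * cnt N p q m₁ X₁ X₂ (g * b.1 * b.2) E - M b| ≤
      1 := by
    intro b hb
    rw [hS, Finset.mem_filter, Finset.mem_product, Finset.mem_Icc, Finset.mem_Icc] at hb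
    have hk0 : 1 ≤ g * b.1 * b.2 := Nat.mul_pos (Nat.mul_pos hg hb.1.1.1) hb.1.2.1
    simp only [M]
    split_ifs with hc
    · have h1 := cnt_main h (X₁ := X₁) (X₂ := X₂) hX hE0 hk0 hE hc
      rw [← mul_sub, abs_mul, abs_mul]
      calc |c4 (g * b.1)| * |c4 (g * b.2)| * _ ≤ 1 * 1 * 1 := by
            gcongr
            · exact c4_abs _
            · exact c4_abs _
        _ = 1 := by norm_num
    · rw [cnt_zero h hE hc]
      simp
  have hcard : (S.card : ℝ) ≤ (D₂ / g : ℝ) ^ 2 := by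
    have h1 : S ⊆ (Icc 1 (D₂ / g)) ×ˢ (Icc 1 (D₂ / g)) := by
      intro b hb
      rw [hS, Finset.mem_filter, Finset.mem_product, Finset.mem_Icc, Finset.mem_Icc] at hb
      rw [Finset.mem_product, Finset.mem_Icc, Finset.mem_Icc, Nat.le_div_iff_mul_le hg,
        Nat.le_div_iff_mul_le hg]
      refine ⟨⟨hb.1.1.1, ?_⟩, ⟨hb.1.2.1, ?_⟩⟩
      · rw [mul_comm]; exact hb.2.2.2.1
      · rw [mul_comm]; exact hb.2.2.2.2.2
    have h2 := Finset.card_le_card h1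
    rw [Finset.card_product, Nat.card_Icc, Nat.add_sub_cancel] at h2
    calc (S.card : ℝ) ≤ ((D₂ / g : ℕ) : ℝ) * ((D₂ / g : ℕ) : ℝ) := by exact_mod_cast h2
      _ ≤ (D₂ / g : ℝ) * (D₂ / g : ℝ) := by
          gcongr <;> exact Nat.cast_div_le
      _ = _ := by ring
  have hmain : |∑ b ∈ S, M b| ≤ ((X₂ : ℝ) - X₁) / E *
      (12 * ((q.divisors.card : ℝ) * E.divisors.card) ^ 2 / D₁) := by
    by_cases hcg : Nat.Coprime g (q * E)
    · have h1 : ∑ b ∈ S, M b = c4 g ^ 2 * (((X₂ : ℝ) - X₁) / (q * g * E)) *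
          ∑ a ∈ JJ D₁ D₂ g (q * E), ∑ b ∈ JJ D₁ D₂ g (q * E),
          (if Nat.Coprime a b then c4 a / (a : ℝ) * (c4 b / (b : ℝ)) else 0) := by
        rw [← Finset.sum_product', Finset.mul_sum]
        have h3 : JJ D₁ D₂ g (q * E) ×ˢ JJ D₁ D₂ g (q * E) =
            ((Icc 1 D₂) ×ˢ (Icc 1 D₂)).filter (fun b : ℕ × ℕ =>
            (D₁ < g * b.1 ∧ g * b.1 ≤ D₂ ∧ Nat.Coprime b.1 (q * E)) ∧
            (D₁ < g * b.2 ∧ g * b.2 ≤ D₂ ∧ Nat.Coprime b.2 (q * E))) := by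
          unfold JJ
          ext b
          simp only [Finset.mem_product, Finset.mem_filter]
          tauto
        rw [h3, hS, Finset.sum_filter, Finset.sum_filter]
        refine Finset.sum_congr rfl fun b hb => ?_
        rw [Finset.mem_product, Finset.mem_Icc, Finset.mem_Icc] at hb
        have hb1 : (b.1 : ℝ) ≠ 0 := by
          have := hb.1.1
          positivity
        have hb2 : (b.2 : ℝ) ≠ 0 := by
          have := hb.2.1
          positivity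
        have hval : c4 (g * b.1) * c4 (g * b.2) *
            (((X₂ : ℝ) - X₁) / (q * (g * b.1 * b.2 : ℕ) * E)) =
            c4 g ^ 2 * (((X₂ : ℝ) - X₁) / (q * g * E)) *
            (c4 b.1 / (b.1 : ℝ) * (c4 b.2 / (b.2 : ℝ))) := by
          rw [c4_mul, c4_mul]
          push_cast
          field_simp
        simp only [M]
        rw [hval]
        have hiff : Nat.Coprime (g * b.1 * b.2) (q * E) ↔
            (Nat.Coprime g (q * E) ∧ Nat.Coprime b.1 (q * E)) ∧ Nat.Coprime b.2 (q * E) := by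
          rw [Nat.coprime_mul_iff_left, Nat.coprime_mul_iff_left]
        split_ifs <;> first | rfl | (exfalso; tauto) | rw [mul_zero]
      rw [h1, abs_mul, abs_mul]
      have h2 := double_sum hCS (D₁ := D₁) (D₂ := D₂) hq0 hE0 hg hD
      have h3 : |c4 g ^ 2| ≤ 1 := by
        rw [abs_of_nonneg (c4_sq_nonneg g)]
        exact c4_sq g
      have h4 : 0 ≤ ((X₂ : ℝ) - X₁) / (q * g * E) := by positivity
      rw [abs_of_nonneg h4]
      calc |c4 g ^ 2| * (((X₂ : ℝ) - X₁) / (q * g * E)) * _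
          ≤ 1 * (((X₂ : ℝ) - X₁) / (1 * g * E)) *
            (12 * ((q.divisors.card : ℝ) * E.divisors.card) ^ 2 * (g / D₁)) := by
            gcongr
        _ = _ := by
            field_simp
    · have h1 : ∑ b ∈ S, M b = 0 := by
        refine Finset.sum_eq_zero fun b _ => ?_
        simp only [M]
        rw [if_neg]
        intro hc
        rw [Nat.coprime_mul_iff_left, Nat.coprime_mul_iff_left] at hc
        exact hcg hc.1.1
      rw [h1, abs_zero]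
      positivity
  have hsplit : AA N p q m₁ X₁ X₂ D₁ D₂ g E = ∑ b ∈ S, M b +
      ∑ b ∈ S, (c4 (g * b.1) * c4 (g * b.2) * cnt N p q m₁ X₁ X₂ (g * b.1 * b.2) E - M b) := by
    unfold AA
    rw [← Finset.sum_add_distrib]
    refine Finset.sum_congr rfl fun b _ => ?_
    ring
  rw [hsplit]
  refine (abs_add_le _ _).trans (add_le_add hmain ?_)
  refine (Finset.abs_sum_le_sum_abs _ _).trans ((Finset.sum_le_sum hM).trans ?_)
  rw [Finset.sum_const, nsmul_eq_mul, mul_one]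
  exact hcard

end hR2a

open hR2a in
theorem hR2a (hCS : StCS) : StR2a := by
  intro N p q m₁ hyp B
  have hq0 : 1 ≤ q := hyp.hq1
  -- eventual inequalities
  have hYY : Tendsto YY atTop atTop := by
    unfold YY
    exact Real.tendsto_exp_atTop.comp
      ((tendsto_rpow_atTop (by norm_num)).comp Real.tendsto_log_atTop)
  have ev1 : ∀ᶠ x : ℝ in atTop, (48 * (q.divisors.card : ℝ) ^ 2) ^ 2 ≤ YY x :=
    hYY.eventually_ge_atTop _
  have ev2 : ∀ᶠ x : ℝ in atTop, (8 : ℝ) ≤ x ^ (3 / 20 : ℝ) :=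
    (tendsto_rpow_atTop (by norm_num)).eventually_ge_atTop _
  obtain ⟨x₁, hx₁⟩ := eventually_atTop.1 (ev1.and ev2)
  refine ⟨max x₁ 1, ?_⟩
  intro x hx X₁ X₂ D₂ E hX hX2 hD2 hsq hE hEx
  obtain ⟨h1, h2⟩ := hx₁ x ((le_max_left _ _).trans hx)
  have hx1 : (1 : ℝ) ≤ x := (le_max_right _ _).trans hx
  have hx0 : 0 < x := by linarith
  have hE0 : 1 ≤ E := Nat.one_le_iff_ne_zero.2 hsq.ne_zero
  have hEr : (0 : ℝ) < E := by exact_mod_cast hE0
  have hY0 : 0 < YY x := Real.exp_pos _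
  set D₁ := DD x B with hD₁
  set K := (q.divisors.card : ℝ) * E.divisors.card with hK
  rcases Nat.eq_zero_or_pos D₁ with h0 | h0
  · rw [h0]
    simp only [zero_lt_one, Finset.Icc_eq_empty_of_lt, Finset.filter_empty, Finset.sum_empty]
    positivity
  have hDr : (0 : ℝ) < D₁ := by exact_mod_cast h0
  set G := (Icc 1 D₁).filter (fun g : ℕ => x ^ (1 / 4 : ℝ) < g ∧ (g : ℝ) * YY x ≤ D₁) with hG
  have hterm : ∀ g ∈ G, |AA N p q m₁ X₁ X₂ D₁ D₂ g E| ≤
      4 * x / E * (12 * K ^ 2 / D₁) + 4 * x * ((g : ℝ) ^ 2)⁻¹ := by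
    intro g hg
    rw [hG, Finset.mem_filter, Finset.mem_Icc] at hg
    have hg0 : (0 : ℝ) < g := by
      have := hg.1.1
      positivity
    refine (AA_bound hCS hyp hX hE0 hE hg.1.1 h0).trans (add_le_add ?_ ?_)
    · have h3 : (X₂ : ℝ) - X₁ ≤ 4 * x := by
        have : (0 : ℝ) ≤ X₁ := Nat.cast_nonneg _
        linarith
      gcongr
    · have h3 : (D₂ : ℝ) ^ 2 ≤ 4 * x := by
        calc (D₂ : ℝ) ^ 2 ≤ (2 * √x) ^ 2 := by gcongr
          _ = 4 * x := by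
              rw [mul_pow, Real.sq_sqrt hx0.le]
              norm_num
      rw [div_pow, div_eq_mul_inv]
      gcongr
  have hcard : (G.card : ℝ) ≤ D₁ / YY x := by
    have h3 : G ⊆ Icc 1 ⌊D₁ / YY x⌋₊ := by
      intro g hg
      rw [hG, Finset.mem_filter, Finset.mem_Icc] at hg
      rw [Finset.mem_Icc]
      refine ⟨hg.1.1, ?_⟩
      rw [Nat.le_floor_iff (by positivity), le_div_iff₀ hY0]
      exact hg.2.2
    have h4 := Finset.card_le_card h3
    rw [Nat.card_Icc, Nat.add_sub_cancel] at h4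
    calc (G.card : ℝ) ≤ (⌊D₁ / YY x⌋₊ : ℝ) := by exact_mod_cast h4
      _ ≤ D₁ / YY x := Nat.floor_le (by positivity)
  have hsum : ∑ g ∈ G, ((g : ℝ) ^ 2)⁻¹ ≤ 2 * x ^ (-(1 / 4) : ℝ) := by
    have h3 : G ⊆ Ioo ⌊x ^ (1 / 4 : ℝ)⌋₊ (D₁ + 1) := by
      intro g hg
      rw [hG, Finset.mem_filter, Finset.mem_Icc] at hg
      rw [Finset.mem_Ioo]
      refine ⟨?_, by omega⟩
      rw [Nat.floor_lt (by positivity)]
      exact hg.2.1
    calc ∑ g ∈ G, ((g : ℝ) ^ 2)⁻¹ ≤ ∑ g ∈ Ioo ⌊x ^ (1 / 4 : ℝ)⌋₊ (D₁ + 1), ((g : ℝ) ^ 2)⁻¹ :=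
          Finset.sum_le_sum_of_subset_of_nonneg h3 fun _ _ _ => by positivity
      _ ≤ 2 / ((⌊x ^ (1 / 4 : ℝ)⌋₊ : ℝ) + 1) := sum_Ioo_inv_sq_le _ _
      _ ≤ 2 / x ^ (1 / 4 : ℝ) := by
          gcongr
          exact (Nat.lt_floor_add_one _).le
      _ = 2 * x ^ (-(1 / 4) : ℝ) := by
          rw [Real.rpow_neg hx0.le, div_eq_mul_inv]
  refine (Finset.sum_le_sum hterm).trans ?_
  rw [Finset.sum_add_distrib, Finset.sum_const, nsmul_eq_mul, ← Finset.mul_sum]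
  refine add_le_add ?_ ?_
  · have hsY : (48 * (q.divisors.card : ℝ) ^ 2) ≤ √(YY x) := Real.le_sqrt_of_sq_le h1
    have hs0 : 0 < √(YY x) := Real.sqrt_pos.2 hY0
    calc (G.card : ℝ) * (4 * x / E * (12 * K ^ 2 / D₁))
        ≤ (D₁ / YY x) * (4 * x / E * (12 * K ^ 2 / D₁)) := by gcongr
      _ = x / E * (E.divisors.card : ℝ) ^ 2 * ((48 * (q.divisors.card : ℝ) ^ 2) / YY x) := by
          rw [hK]
          field_simp
          ring
      _ ≤ x / E * (E.divisors.card : ℝ) ^ 2 * (√(YY x) / YY x) := by gcongr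
      _ = x / E * (E.divisors.card : ℝ) ^ 2 / √(YY x) := by
          have h3 : √(YY x) / YY x = 1 / √(YY x) := by
            rw [div_eq_div_iff hY0.ne' hs0.ne', one_mul, Real.mul_self_sqrt hY0.le]
          rw [h3]
          ring
  · calc 4 * x * ∑ g ∈ G, ((g : ℝ) ^ 2)⁻¹ ≤ 4 * x * (2 * x ^ (-(1 / 4) : ℝ)) := by gcongr
      _ = 8 * x ^ (3 / 4 : ℝ) := by
          have h3 : x ^ (3 / 4 : ℝ) = x * x ^ (-(1 / 4) : ℝ) := by
            nth_rewrite 2 [← Real.rpow_one x]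
            rw [← Real.rpow_add hx0]
            norm_num
          rw [h3]
          ring
      _ ≤ x ^ (3 / 20 : ℝ) * x ^ (3 / 4 : ℝ) := by gcongr
      _ = x ^ (9 / 10 : ℝ) := by
          rw [← Real.rpow_add hx0]
          norm_num

end Pool.Agent.Helper15.AB
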