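import Mathlib
import Pool.Agent.Helper15.AB.StAp

/-!
# Project AB, module XG: positivity of the pair sums of the curvatures
-/

set_option autoImplicit false

namespace Pool.Agent.Helper15.AB

open Finset

namespace hXG

theorem cu_add (v w : Circ) : cu (v + w) = cu v + cu w := rfl

theorem cu_sub (v w : Circ) : cu (v - w) = cu v - cu w := rfl

theorem cu_smul (t : ℝ) (v : Circ) : cu (t • v) = t * cu v := rfl

theorem cu_sum (f : Fin 4 → Circ) : cu (∑ k, f k) = ∑ k, cu (f k) := by
  simp only [Fin.sum_univ_four, cu_add]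

theorem bil_inf (w : Circ) : bil ((-2 : ℝ), (0 : ℝ), (0 : ℂ)) w = cu w := by
  unfold bil cu
  simp only [Complex.zero_re, Complex.zero_im, zero_mul, mul_zero, add_zero]
  ring

/-- Descartes' theorem -/
theorem descartes (hXM : StXM) {q : Fin 4 → Circ} (hq : Desc q) :
    2 * ∑ i, cu (q i) ^ 2 = (∑ i, cu (q i)) ^ 2 := by
  have h1 := congrArg cu (hXM q hq ((-2 : ℝ), (0 : ℝ), (0 : ℂ)))
  rw [cu_sum] at h1
  simp only [cu_smul, bil_inf] at h1
  have h2 : cu ((-2 : ℝ), (0 : ℝ), (0 : ℂ)) = 0 := rfl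
  rw [h2] at h1
  simp only [Fin.sum_univ_four] at h1 ⊢
  linear_combination -4 * h1

theorem pair (hXM : StXM) {q : Fin 4 → Circ} (hq : Desc q) (hS : 0 < ∑ i, cu (q i)) (i j : Fin 4)
    (hij : i ≠ j) : 0 ≤ cu (q i) + cu (q j) := by
  have h1 := descartes hXM hq
  simp only [Fin.sum_univ_four] at h1 hS
  have key : ∀ a b c d : ℝ, 2 * (a ^ 2 + b ^ 2 + c ^ 2 + d ^ 2) = (a + b + c + d) ^ 2 →
      0 < a + b + c + d → 0 ≤ a + b := by
    intro a b c d h2 h3
    by_contra h4
    push Not at h4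
    have h5 : 0 < c + d := by linarith
    nlinarith [sq_nonneg (a - b), sq_nonneg (c - d), mul_pos (neg_pos.2 h4) h5]
  have k01 := key (cu (q 0)) (cu (q 1)) (cu (q 2)) (cu (q 3)) h1 hS
  have k02 := key (cu (q 0)) (cu (q 2)) (cu (q 1)) (cu (q 3)) (by linear_combination h1) (by linarith)
  have k03 := key (cu (q 0)) (cu (q 3)) (cu (q 1)) (cu (q 2)) (by linear_combination h1) (by linarith)
  have k12 := key (cu (q 1)) (cu (q 2)) (cu (q 0)) (cu (q 3)) (by linear_combination h1) (by linarith)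
  have k13 := key (cu (q 1)) (cu (q 3)) (cu (q 0)) (cu (q 2)) (by linear_combination h1) (by linarith)
  have k23 := key (cu (q 2)) (cu (q 3)) (cu (q 0)) (cu (q 1)) (by linear_combination h1) (by linarith)
  match i, j, hij with
  | 0, 0, h => exact absurd rfl h
  | 0, 1, _ => exact k01
  | 0, 2, _ => exact k02
  | 0, 3, _ => exact k03
  | 1, 0, _ => rw [add_comm]; exact k01
  | 1, 1, h => exact absurd rfl h
  | 1, 2, _ => exact k12
  | 1, 3, _ => exact k13
  | 2, 0, _ => rw [add_comm]; exact k02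
  | 2, 1, _ => rw [add_comm]; exact k12
  | 2, 2, h => exact absurd rfl h
  | 2, 3, _ => exact k23
  | 3, 0, _ => rw [add_comm]; exact k03
  | 3, 1, _ => rw [add_comm]; exact k13
  | 3, 2, _ => rw [add_comm]; exact k23
  | 3, 3, h => exact absurd rfl h

end hXG

theorem hXG (hXM : StXM) (hXA : StXA) : StXG := by
  intro b hb hS q hq
  have hpos : 0 < ∑ i, cu (q i) := by
    induction hq with
    | base => exact hS
    | perm q σ _ ih =>
      have : ∑ i, cu ((q ∘ σ) i) = ∑ i, cu (q i) := Equiv.sum_comp σ fun i => cu (q i)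
      rw [this]
      exact ih
    | swap q hq ih =>
      have h1 := hXG.descartes hXM (hXA b hb q hq).1
      simp only [Fin.sum_univ_four] at h1 ih ⊢
      change 0 < cu (q 0) + cu (q 1) + cu (q 2) + cu ((2 : ℝ) • (q 0 + q 1 + q 2) - q 3)
      rw [hXG.cu_sub, hXG.cu_smul, hXG.cu_add, hXG.cu_add]
      set k0 := cu (q 0)
      set k1 := cu (q 1)
      set k2 := cu (q 2)
      set k3 := cu (q 3)
      have h2 : (k0 + k1 + k2 + k3) * (k0 + k1 + k2 + (2 * (k0 + k1 + k2) - k3)) =
          2 * ((k0 + k1) ^ 2 + (k1 + k2) ^ 2 + (k0 + k2) ^ 2) := by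
        linear_combination -h1
      by_contra h3
      push Not at h3
      have h4 : (k0 + k1 + k2 + k3) * (k0 + k1 + k2 + (2 * (k0 + k1 + k2) - k3)) ≤ 0 :=
        mul_nonpos_of_nonneg_of_nonpos ih.le h3
      rw [h2] at h4
      have e1 : k0 + k1 = 0 := by
        nlinarith [sq_nonneg (k0 + k1), sq_nonneg (k1 + k2), sq_nonneg (k0 + k2)]
      have e2 : k1 + k2 = 0 := by
        nlinarith [sq_nonneg (k0 + k1), sq_nonneg (k1 + k2), sq_nonneg (k0 + k2)]
      have e3 : k0 + k2 = 0 := by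
        nlinarith [sq_nonneg (k0 + k1), sq_nonneg (k1 + k2), sq_nonneg (k0 + k2)]
      have z0 : k0 = 0 := by linarith
      have z1 : k1 = 0 := by linarith
      have z2 : k2 = 0 := by linarith
      rw [z0, z1, z2] at h1 ih
      nlinarith
  exact ⟨hpos, fun i j hij => hXG.pair hXM (hXA b hb q hq).1 hpos i j hij⟩

end Pool.Agent.Helper15.AB
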